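import Pool.Agent.RCG.Targets
import Pool.Agent.AlmRam.Count

set_option autoImplicit false

/-!
# RCG: the final assembly for `PSL (2, p)`
-/

namespace Pool.Agent.RCG

open Finset

/-- `PSL (2, p)` -/
abbrev PSL (p : ℕ) : Type := Matrix.SpecialLinearGroup (Fin 2) (ZMod p) ⧸
  Subgroup.center (Matrix.SpecialLinearGroup (Fin 2) (ZMod p))

/-- the adjacency operator of the Cayley graph of `s` has norm at most `B` on functions of
sum zero -/
def NormLe {G : Type} [Group G] {d : ℕ} (s : Fin d → G) (B : ℝ) : Prop :=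
  ∀ f : G → ℝ, ∑ᶠ x, f x = 0 →
    ∑ᶠ x, (∑ i : Fin d, (f (x * s i) + f (x * (s i)⁻¹))) ^ 2 ≤ B ^ 2 * ∑ᶠ x, f x ^ 2

namespace FIN_

theorem card_le (p : Nat.Primes) : (Fintype.card (G2 p) : ℝ) ≤ (p.1 : ℝ) ^ (3 : ℝ) := by
  haveI : Fact (p.1).Prime := ⟨p.2⟩
  have h1 : Fintype.card (SL 2 p.1) ≤ p.1 * (p.1 ^ 2 - 1) :=
    Pool.Agent.AlmRam.card_sl_le (p := p.1)
  have h2 : p.1 * (p.1 ^ 2 - 1) ≤ p.1 ^ 3 := by
    calc p.1 * (p.1 ^ 2 - 1) ≤ p.1 * p.1 ^ 2 := Nat.mul_le_mul_left _ (Nat.sub_le _ _)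
      _ = p.1 ^ 3 := by ring
  have h3 : (Fintype.card (SL 2 p.1) : ℝ) ≤ ((p.1 ^ 3 : ℕ) : ℝ) := by
    exact_mod_cast h1.trans h2
  rw [show (3 : ℝ) = ((3 : ℕ) : ℝ) by norm_num, Real.rpow_natCast]
  push_cast at h3
  exact h3

theorem good (h1 : T_MACH) (h2 : T_AB2) (a : ℝ) (ha : 0 ≤ a) (d : ℕ) (hd : 2 ≤ d) :
    Good G2 (fun p => (p.1 : ℝ)) d (32 * (3 + a + 1) * √(2 * (d : ℝ)) * Real.log (2 * d)) a :=
  h1 Nat.Primes G2 (fun p => (p.1 : ℝ)) 3 a (by norm_num) ha card_le h2 d hd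

end FIN_

theorem final (h1 : T_MACH) (h2 : T_AB2) (h3 : T_QUO) (h4 : T_POL) (a : ℝ) (ha : 0 < a) (d : ℕ)
    (hd : 2 ≤ d) : ∃ P : ℕ, ∀ p : ℕ, p.Prime → P ≤ p →
      (1 - (p : ℝ) ^ (-a)) * (Nat.card (PSL p) : ℝ) ^ d ≤
        (Nat.card {s : Fin d → PSL p //
          NormLe s (32 * (a + 5) * √(2 * (d : ℝ)) * Real.log (2 * d))} : ℝ) := by
  classical
  obtain ⟨K, P, hKP⟩ := FIN_.good h1 h2 (a + 1) (by linarith) d hd
  set B : ℝ := 32 * (3 + (a + 1) + 1) * √(2 * (d : ℝ)) * Real.log (2 * d) with hB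
  have hB' : B = 32 * (a + 5) * √(2 * (d : ℝ)) * Real.log (2 * d) := by
    rw [hB]; ring
  have hlog : 0 ≤ Real.log (2 * (d : ℝ)) := by
    apply Real.log_nonneg
    have : (2 : ℝ) ≤ d := by exact_mod_cast hd
    linarith
  have hB0 : 0 ≤ B := by
    rw [hB']
    have : 0 ≤ √(2 * (d : ℝ)) := Real.sqrt_nonneg _
    positivity
  refine ⟨max 1 (max ⌈P⌉₊ ⌈K⌉₊), ?_⟩
  intro p hp hpP
  haveI : Fact p.Prime := ⟨hp⟩
  have hp1 : (P : ℝ) ≤ p := by
    have : ⌈P⌉₊ ≤ p := (le_max_left _ _).trans ((le_max_right _ _).trans hpP)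
    exact (Nat.le_ceil P).trans (by exact_mod_cast this)
  have hp2 : (K : ℝ) ≤ p := by
    have : ⌈K⌉₊ ≤ p := (le_max_right _ _).trans ((le_max_right _ _).trans hpP)
    exact (Nat.le_ceil K).trans (by exact_mod_cast this)
  have hp0 : (0 : ℝ) < p := by exact_mod_cast hp.pos
  have h5 := hKP ⟨p, hp⟩ hp1
  have h6 : K * (p : ℝ) ^ (-(a + 1)) ≤ (p : ℝ) ^ (-a) := by
    have h7 : (p : ℝ) ^ (-(a + 1)) = (p : ℝ) ^ (-a) * (p : ℝ)⁻¹ := by
      rw [show -(a + 1) = -a + (-1) by ring, Real.rpow_add hp0, Real.rpow_neg_one]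
    rw [h7]
    have h8 : 0 < (p : ℝ) ^ (-a) := Real.rpow_pos_of_pos hp0 _
    calc K * ((p : ℝ) ^ (-a) * (p : ℝ)⁻¹) = (p : ℝ) ^ (-a) * (K / p) := by
          field_simp
      _ ≤ (p : ℝ) ^ (-a) * 1 := by
          apply mul_le_mul_of_nonneg_left _ h8.le
          rw [div_le_one hp0]
          exact hp2
      _ = (p : ℝ) ^ (-a) := mul_one _
  -- the quotient
  haveI : Fintype (PSL p) := Fintype.ofFinite _
  have h7 := h3 (SL 2 p) (PSL p) (QuotientGroup.mk' _) (QuotientGroup.mk'_surjective _) d B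
  have hG : (0 : ℝ) < (Fintype.card (SL 2 p) : ℝ) := by
    exact_mod_cast Fintype.card_pos
  have h8 : (badCard (PSL p) d B : ℝ) ≤ (p : ℝ) ^ (-a) * (Fintype.card (PSL p) : ℝ) ^ d := by
    have h9 : (badCard (PSL p) d B : ℝ) * (Fintype.card (SL 2 p) : ℝ) ^ d ≤
        (badCard (SL 2 p) d B : ℝ) * (Fintype.card (PSL p) : ℝ) ^ d := by
      exact_mod_cast h7
    have h10 : (badCard (SL 2 p) d B : ℝ) ≤
        (p : ℝ) ^ (-a) * (Fintype.card (SL 2 p) : ℝ) ^ d := by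
      refine h5.trans ?_
      apply mul_le_mul_of_nonneg_right h6
      positivity
    have h11 : (badCard (PSL p) d B : ℝ) * (Fintype.card (SL 2 p) : ℝ) ^ d ≤
        ((p : ℝ) ^ (-a) * (Fintype.card (PSL p) : ℝ) ^ d) *
          (Fintype.card (SL 2 p) : ℝ) ^ d := by
      refine h9.trans ?_
      calc (badCard (SL 2 p) d B : ℝ) * (Fintype.card (PSL p) : ℝ) ^ d
          ≤ ((p : ℝ) ^ (-a) * (Fintype.card (SL 2 p) : ℝ) ^ d) *
            (Fintype.card (PSL p) : ℝ) ^ d := by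
            apply mul_le_mul_of_nonneg_right h10
            positivity
        _ = _ := by ring
    exact le_of_mul_le_mul_right h11 (by positivity)
  -- count
  have h12 : Nat.card (Fin d → PSL p) = Fintype.card (PSL p) ^ d := by
    rw [Nat.card_eq_fintype_card, Fintype.card_fun, Fintype.card_fin]
  have h13 : Nat.card {s : Fin d → PSL p // QB s B} + badCard (PSL p) d B =
      Fintype.card (PSL p) ^ d := by
    rw [← h12, badCard, Nat.card_eq_fintype_card, Nat.card_eq_fintype_card,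
      Nat.card_eq_fintype_card, Fintype.card_subtype_compl]
    have := Fintype.card_subtype_le (fun s : Fin d → PSL p => QB s B)
    omega
  have h14 : Nat.card {s : Fin d → PSL p // QB s B} ≤
      Nat.card {s : Fin d → PSL p //
          NormLe s (32 * (a + 5) * √(2 * (d : ℝ)) * Real.log (2 * d))} := by
    apply Nat.card_le_card_of_injective
      (Subtype.map id (fun s hs => ?_)) (Subtype.map_injective _ Function.injective_id)
    intro f hf
    rw [finsum_eq_sum_of_fintype] at hf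
    rw [finsum_eq_sum_of_fintype, finsum_eq_sum_of_fintype, ← hB']
    exact h4 (PSL p) d s B hB0 hs f hf
  have h15 : (Nat.card {s : Fin d → PSL p // QB s B} : ℝ) + badCard (PSL p) d B =
      (Fintype.card (PSL p) : ℝ) ^ d := by exact_mod_cast h13
  have h16 : (Nat.card {s : Fin d → PSL p // QB s B} : ℝ) ≤
      (Nat.card {s : Fin d → PSL p //
          NormLe s (32 * (a + 5) * √(2 * (d : ℝ)) * Real.log (2 * d))} : ℝ) := by
    exact_mod_cast h14
  rw [Nat.card_eq_fintype_card (α := PSL p)]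
  linarith

end Pool.Agent.RCG
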