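import Pool.Agent.RCG.Targets3
import Pool.Agent.RCG.Fin

set_option autoImplicit false

/-!
# RCG: the final assembly, uniform in the degree
-/

namespace Pool.Agent.RCG

open Finset

namespace FIN2_

theorem toPSL (h3 : T_QUO) (h4 : T_POL) (p : ℕ) [Fact p.Prime] (d : ℕ) (B ε : ℝ) (hB0 : 0 ≤ B)
    (h : (badCard (SL 2 p) d B : ℝ) ≤ ε * (Fintype.card (SL 2 p) : ℝ) ^ d) :
    (1 - ε) * (Nat.card (PSL p) : ℝ) ^ d ≤
      (Nat.card {s : Fin d → PSL p // NormLe s B} : ℝ) := by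
  classical
  haveI : Fintype (PSL p) := Fintype.ofFinite _
  have h7 := h3 (SL 2 p) (PSL p) (QuotientGroup.mk' _) (QuotientGroup.mk'_surjective _) d B
  have hG : (0 : ℝ) < (Fintype.card (SL 2 p) : ℝ) := by
    exact_mod_cast Fintype.card_pos
  have h8 : (badCard (PSL p) d B : ℝ) ≤ ε * (Fintype.card (PSL p) : ℝ) ^ d := by
    have h9 : (badCard (PSL p) d B : ℝ) * (Fintype.card (SL 2 p) : ℝ) ^ d ≤
        (badCard (SL 2 p) d B : ℝ) * (Fintype.card (PSL p) : ℝ) ^ d := by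
      exact_mod_cast h7
    have h11 : (badCard (PSL p) d B : ℝ) * (Fintype.card (SL 2 p) : ℝ) ^ d ≤
        (ε * (Fintype.card (PSL p) : ℝ) ^ d) *
          (Fintype.card (SL 2 p) : ℝ) ^ d := by
      refine h9.trans ?_
      calc (badCard (SL 2 p) d B : ℝ) * (Fintype.card (PSL p) : ℝ) ^ d
          ≤ (ε * (Fintype.card (SL 2 p) : ℝ) ^ d) *
            (Fintype.card (PSL p) : ℝ) ^ d := by
            apply mul_le_mul_of_nonneg_right h
            positivity
        _ = _ := by ring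
    exact le_of_mul_le_mul_right h11 (by positivity)
  have h12 : Nat.card (Fin d → PSL p) = Fintype.card (PSL p) ^ d := by
    rw [Nat.card_eq_fintype_card, Fintype.card_fun, Fintype.card_fin]
  have h13 : Nat.card {s : Fin d → PSL p // QB s B} + badCard (PSL p) d B =
      Fintype.card (PSL p) ^ d := by
    rw [← h12, badCard, Nat.card_eq_fintype_card, Nat.card_eq_fintype_card,
      Nat.card_eq_fintype_card, Fintype.card_subtype_compl]
    have := Fintype.card_subtype_le (fun s : Fin d → PSL p => QB s B)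
    omega
  have h14 : Nat.card {s : Fin d → PSL p // QB s B} ≤
      Nat.card {s : Fin d → PSL p // NormLe s B} := by
    apply Nat.card_le_card_of_injective
      (Subtype.map id (fun s hs => ?_)) (Subtype.map_injective _ Function.injective_id)
    intro f hf
    rw [finsum_eq_sum_of_fintype] at hf
    rw [finsum_eq_sum_of_fintype, finsum_eq_sum_of_fintype]
    exact h4 (PSL p) d s B hB0 hs f hf
  have h15 : (Nat.card {s : Fin d → PSL p // QB s B} : ℝ) + badCard (PSL p) d B =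
      (Fintype.card (PSL p) : ℝ) ^ d := by exact_mod_cast h13
  have h16 : (Nat.card {s : Fin d → PSL p // QB s B} : ℝ) ≤
      (Nat.card {s : Fin d → PSL p // NormLe s B} : ℝ) := by
    exact_mod_cast h14
  rw [Nat.card_eq_fintype_card (α := PSL p)]
  linarith

/-- one step of the recursion, for a fixed prime -/
theorem step (hSTP : T_STP) (hAB : T_AB2U) (m c P : ℝ) (hm : 4 ≤ m)
    (hA : ∀ q k1 s L : ℝ, P ≤ q → 8 ≤ k1 →
      Real.log k1 ≤ L → L ≤ c * √(Real.log q) → 0 < s → s ≤ 5 * m ^ 2 * L ^ 2 →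
      1 < q ∧ ∃ n : ℕ, Even n ∧ 1 ≤ n ∧
        Real.exp 1 * q ^ (3 : ℝ) *
          (s * ((((2 / √k1) ^ (1 - 2 / Real.log k1)) ^ n)⁻¹ *
            ((2 / √k1) ^ n + 14 * √(((n : ℝ) + 1) / q)))) ^ (m * Real.log k1) ≤ q ^ (4 - m))
    (p : ℕ) [Fact p.Prime] (hp2 : p ≠ 2) (hpP : P ≤ p)
    (hlt : c * √(Real.log p) < Real.log p) (d s : ℕ) (B L : ℝ) (hd : 4 ≤ d) (hs : 1 ≤ s)
    (hB : 0 ≤ B) (hL : Real.log (2 * d) ≤ L) (hL0 : L ≤ c * √(Real.log p))
    (hs2 : (s : ℝ) ≤ 5 * m ^ 2 * L ^ 2) :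
    (badCard (SL 2 p) (s * d) (2 * d * s * (2 / √(2 * (d : ℝ))) ^ (1 - 2 / Real.log (2 * d)) +
      m * Real.log (2 * d) * B) : ℝ) / (Fintype.card (SL 2 p) : ℝ) ^ (s * d) ≤
      s * ((badCard (SL 2 p) d B : ℝ) / (Fintype.card (SL 2 p) : ℝ) ^ d) +
        (p : ℝ) ^ (4 - m) := by
  have hG : (0 : ℝ) < (Fintype.card (SL 2 p) : ℝ) := by
    exact_mod_cast Fintype.card_pos
  have hp1 : (1 : ℝ) < p := by exact_mod_cast (Fact.out : p.Prime).one_lt
  have hp0 : (0 : ℝ) < p := by linarith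
  have hd4 : (4 : ℝ) ≤ d := by exact_mod_cast hd
  have hs1 : (1 : ℝ) ≤ s := by exact_mod_cast hs
  have hk : (8 : ℝ) ≤ 2 * (d : ℝ) := by linarith
  have hlogpos : 0 < Real.log (2 * (d : ℝ)) := Real.log_pos (by linarith)
  obtain ⟨_, n, hne, hn1, hn⟩ := hA p (2 * (d : ℝ)) s L hpP hk hL hL0 (by linarith) hs2
  have h2d : 2 * d < p := by
    have h1 : Real.log (2 * (d : ℝ)) < Real.log p := lt_of_le_of_lt (hL.trans hL0) hlt
    have h2 := (Real.log_lt_log_iff (by linarith) hp0).1 h1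
    exact_mod_cast h2
  have hρ : 0 < 2 / √(2 * (d : ℝ)) := by positivity
  have hτ : 0 < (2 / √(2 * (d : ℝ))) ^ n + 14 * √(((n : ℝ) + 1) / p) := by positivity
  have h3 := hSTP (SL 2 p) d s n ((2 / √(2 * (d : ℝ))) ^ n + 14 * √(((n : ℝ) + 1) / p))
    ((2 / √(2 * (d : ℝ))) ^ (1 - 2 / Real.log (2 * d))) B (m * Real.log (2 * d))
    (by omega) hs hne hn1 (Real.rpow_pos_of_pos hρ _) hτ hB
    (mul_pos (by linarith) hlogpos)
    (fun f hf => hAB p d n hp2 (by omega) h2d f hf)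
  have hcard : (Fintype.card (SL 2 p) : ℝ) ≤ (p : ℝ) ^ (3 : ℝ) := FIN_.card_le ⟨p, Fact.out⟩
  rw [div_le_iff₀ (by positivity)]
  refine h3.trans ?_
  rw [add_mul]
  apply add_le_add
  · have h5 : (Fintype.card (SL 2 p) : ℝ) ^ (s * d) =
        (Fintype.card (SL 2 p) : ℝ) ^ d * (Fintype.card (SL 2 p) : ℝ) ^ ((s - 1) * d) := by
      rw [← pow_add]
      congr 1
      obtain ⟨s', rfl⟩ : ∃ s', s = s' + 1 := ⟨s - 1, by omega⟩
      simp only [Nat.add_sub_cancel]
      ring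
    rw [h5]
    apply le_of_eq
    field_simp
  · apply mul_le_mul_of_nonneg_right _ (by positivity)
    refine le_trans ?_ hn
    apply mul_le_mul_of_nonneg_right _ (Real.rpow_nonneg (by positivity) _)
    exact mul_le_mul_of_nonneg_left hcard (Real.exp_pos _).le

theorem uni (hARC : T_ARC) (hASYU : T_ASYU) (hRECU : T_RECU) (hAB : T_AB2U) (hELE : T_ELEU)
    (hSTP : T_STP) (a : ℝ) (ha : 0 < a) :
    ∃ C : ℝ, 0 < C ∧ ∃ P : ℕ, ∀ p : ℕ, ∀ _ : Fact p.Prime, P ≤ p → ∀ d : ℕ, 1 ≤ d →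
      (badCard (SL 2 p) d (C * √(2 * (d : ℝ)) * Real.log (2 * d)) : ℝ) ≤
        (p : ℝ) ^ (-a) * (Fintype.card (SL 2 p) : ℝ) ^ d := by
  set m : ℝ := a + 7 with hm
  have hm4 : 4 ≤ m := by linarith
  obtain ⟨c, P1, hc, hA⟩ := hASYU m hm4
  set C : ℝ := max (32 * m) (√(8 * (a + 5)) / c) with hC
  have hC1 : 32 * m ≤ C := le_max_left _ _
  have hC2 : √(8 * (a + 5)) / c ≤ C := le_max_right _ _
  have hC0 : 0 < C := by linarith
  obtain ⟨P2, hP2⟩ : ∃ P2 : ℕ, ∀ p : ℕ, P2 ≤ p → c * √(Real.log p) < Real.log p := by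
    have h1 : Filter.Tendsto (fun p : ℕ => Real.log (p : ℝ)) Filter.atTop Filter.atTop :=
      Real.tendsto_log_atTop.comp tendsto_natCast_atTop_atTop
    obtain ⟨P2, hP2⟩ := Filter.eventually_atTop.1 (h1.eventually (Filter.eventually_gt_atTop (c ^ 2)))
    refine ⟨P2, fun p hp => ?_⟩
    have h2 := hP2 p hp
    have h3 : 0 < Real.log (p : ℝ) := lt_of_le_of_lt (sq_nonneg c) h2
    have h4 : c < √(Real.log p) := by
      rw [Real.lt_sqrt hc.le]
      exact h2
    calc c * √(Real.log p) < √(Real.log p) * √(Real.log p) :=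
          mul_lt_mul_of_pos_right h4 (Real.sqrt_pos.2 h3)
      _ = Real.log p := Real.mul_self_sqrt h3.le
  refine ⟨C, hC0, max 3 (max ⌈P1⌉₊ P2), ?_⟩
  intro p hpp hpP d hd
  have hp3 : 3 ≤ p := (le_max_left _ _).trans hpP
  have hp1 : P1 ≤ p := by
    have : ⌈P1⌉₊ ≤ p := (le_max_left _ _).trans ((le_max_right _ _).trans hpP)
    exact (Nat.le_ceil P1).trans (by exact_mod_cast this)
  have hp2 : c * √(Real.log p) < Real.log p :=
    hP2 p ((le_max_right _ _).trans ((le_max_right _ _).trans hpP))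
  have hp3' : (3 : ℝ) ≤ p := by exact_mod_cast hp3
  have hp0 : (0 : ℝ) < p := by linarith
  have hG : (0 : ℝ) < (Fintype.card (SL 2 p) : ℝ) := by
    exact_mod_cast Fintype.card_pos
  have hcard : (Fintype.card (SL 2 p) : ℝ) ≤ (p : ℝ) ^ (3 : ℝ) := FIN_.card_le ⟨p, Fact.out⟩
  obtain ⟨hE1, hE2, hE3⟩ := hELE (SL 2 p)
  have hd1 : (1 : ℝ) ≤ d := by exact_mod_cast hd
  have hsq : 0 < √(2 * (d : ℝ)) := by positivity
  rcases Nat.lt_or_ge d 2 with hd2 | hd2
  · have hd' : d = 1 := by omega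
    subst hd'
    have h1 : (2 * ((1 : ℕ) : ℝ)) ≤ C * √(2 * ((1 : ℕ) : ℝ)) * Real.log (2 * ((1 : ℕ) : ℝ)) := by
      have h2 : (1 : ℝ) ≤ √(2 * ((1 : ℕ) : ℝ)) := by
        rw [Real.one_le_sqrt]; norm_num
      have h3 : (0.69 : ℝ) < Real.log (2 * ((1 : ℕ) : ℝ)) := by
        have := Real.log_two_gt_d9
        norm_num
        linarith
      have h4 : (224 : ℝ) ≤ C := by linarith
      have h5 : (224 : ℝ) * 1 ≤ C * √(2 * ((1 : ℕ) : ℝ)) :=
        mul_le_mul h4 h2 (by norm_num) hC0.le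
      have h6 : (224 : ℝ) * 0.69 ≤ C * √(2 * ((1 : ℕ) : ℝ)) * Real.log (2 * ((1 : ℕ) : ℝ)) :=
        mul_le_mul (by linarith) h3.le (by norm_num) (by positivity)
      norm_num at h6 ⊢
      linarith
    have h2 := hE1 1 _ _ h1
    rw [hE2 1] at h2
    have h3 : badCard (SL 2 p) 1 (C * √(2 * ((1 : ℕ) : ℝ)) * Real.log (2 * ((1 : ℕ) : ℝ))) = 0 := by
      omega
    rw [h3]
    have : 0 < (p : ℝ) ^ (-a) := Real.rpow_pos_of_pos hp0 _
    push_cast
    positivity
  have hd2' : (2 : ℝ) ≤ d := by exact_mod_cast hd2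
  have hlog : 0 < Real.log (2 * (d : ℝ)) := Real.log_pos (by linarith)
  rcases le_or_gt (Real.log (2 * (d : ℝ))) (c * √(Real.log p)) with hcase | hcase
  · -- the recursion
    have h1 := hRECU m (c * √(Real.log p)) ((p : ℝ) ^ (4 - m))
      (fun d B => (badCard (SL 2 p) d B : ℝ) / (Fintype.card (SL 2 p) : ℝ) ^ d) hm4
      (Real.rpow_nonneg hp0.le _)
      (fun d B B' hBB => by
        have := hE1 d B B' hBB
        have h : (badCard (SL 2 p) d B' : ℝ) ≤ badCard (SL 2 p) d B := by exact_mod_cast this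
        exact div_le_div_of_nonneg_right h (by positivity))
      (fun d => by simp [hE2 d])
      (fun d r B => by
        have := hE3 d r B
        have h : (badCard (SL 2 p) (d + r) (B + 2 * r) : ℝ) ≤
          badCard (SL 2 p) d B * (Fintype.card (SL 2 p) : ℝ) ^ r := by exact_mod_cast this
        rw [div_le_div_iff₀ (by positivity) (by positivity), pow_add]
        calc _ ≤ (badCard (SL 2 p) d B * (Fintype.card (SL 2 p) : ℝ) ^ r) *
              (Fintype.card (SL 2 p) : ℝ) ^ d :=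
            mul_le_mul_of_nonneg_right h (by positivity)
          _ = _ := by ring)
      (fun d s B L hd hs hB hL hL0 hs2 => by
        have := step hSTP hAB m c P1 hm4 hA p (by omega) hp1 hp2 d s B L hd hs hB hL hL0 hs2
        exact this)
      d hd2 hcase
    have h2 : (badCard (SL 2 p) d (C * √(2 * (d : ℝ)) * Real.log (2 * d)) : ℝ) ≤
        badCard (SL 2 p) d (32 * m * √(2 * (d : ℝ)) * Real.log (2 * d)) := by
      have := hE1 d (32 * m * √(2 * (d : ℝ)) * Real.log (2 * d))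
        (C * √(2 * (d : ℝ)) * Real.log (2 * d)) (by
          apply mul_le_mul_of_nonneg_right _ hlog.le
          exact mul_le_mul_of_nonneg_right hC1 hsq.le)
      exact_mod_cast this
    have h3 : (2 * (d : ℝ) - 1) * (p : ℝ) ^ (4 - m) ≤ (p : ℝ) ^ (-a) := by
      have h4 : Real.log (2 * (d : ℝ)) < Real.log p := lt_of_le_of_lt hcase hp2
      have h5 : 2 * (d : ℝ) < p := (Real.log_lt_log_iff (by linarith) hp0).1 h4
      have h6 : (2 * (d : ℝ) - 1) * (p : ℝ) ^ (4 - m) ≤ (p : ℝ) ^ (1 : ℝ) * (p : ℝ) ^ (4 - m) := by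
        apply mul_le_mul_of_nonneg_right _ (Real.rpow_nonneg hp0.le _)
        rw [Real.rpow_one]
        linarith
      refine h6.trans ?_
      rw [← Real.rpow_add hp0]
      apply Real.rpow_le_rpow_of_exponent_le (by linarith)
      rw [hm]; linarith
    have h7 : (badCard (SL 2 p) d (32 * m * √(2 * (d : ℝ)) * Real.log (2 * d)) : ℝ) /
        (Fintype.card (SL 2 p) : ℝ) ^ d ≤ (p : ℝ) ^ (-a) := h1.trans h3
    rw [div_le_iff₀ (by positivity)] at h7
    exact h2.trans h7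
  · -- Alon-Roichman
    set t : ℝ := √(16 * d * ((a + 5) * Real.log p)) with ht
    have hlp : 0 < Real.log (p : ℝ) := Real.log_pos (by linarith)
    have ht2 : t ^ 2 = 16 * d * ((a + 5) * Real.log p) := Real.sq_sqrt (by positivity)
    have ht0 : 0 < t := Real.sqrt_pos.2 (by positivity)
    have h1 : t ≤ C * √(2 * (d : ℝ)) * Real.log (2 * d) := by
      have h2 : t = √(8 * (a + 5)) * √(2 * (d : ℝ)) * √(Real.log p) := by
        rw [ht, ← Real.sqrt_mul (by positivity), ← Real.sqrt_mul (by positivity)]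
        congr 1
        ring
      have h3 : √(Real.log p) ≤ Real.log (2 * (d : ℝ)) / c := by
        rw [le_div_iff₀ hc]
        linarith
      calc t = √(8 * (a + 5)) * √(2 * (d : ℝ)) * √(Real.log p) := h2
        _ ≤ √(8 * (a + 5)) * √(2 * (d : ℝ)) * (Real.log (2 * (d : ℝ)) / c) :=
            mul_le_mul_of_nonneg_left h3 (by positivity)
        _ = (√(8 * (a + 5)) / c) * √(2 * (d : ℝ)) * Real.log (2 * (d : ℝ)) := by ring
        _ ≤ C * √(2 * (d : ℝ)) * Real.log (2 * d) := by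
            apply mul_le_mul_of_nonneg_right _ hlog.le
            exact mul_le_mul_of_nonneg_right hC2 hsq.le
    have h2 : (badCard (SL 2 p) d (C * √(2 * (d : ℝ)) * Real.log (2 * d)) : ℝ) ≤
        badCard (SL 2 p) d t := by
      have := hE1 d t _ h1
      exact_mod_cast this
    refine h2.trans ((hARC (SL 2 p) d t hd ht0).trans ?_)
    apply mul_le_mul_of_nonneg_right _ (by positivity)
    have h3 : -(t ^ 2) / (16 * (d : ℝ)) = Real.log p * (-(a + 5)) := by
      rw [ht2]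
      field_simp
    rw [h3, ← Real.rpow_def_of_pos hp0]
    calc 2 * (Fintype.card (SL 2 p) : ℝ) * (p : ℝ) ^ (-(a + 5))
        ≤ (p : ℝ) ^ (1 : ℝ) * (p : ℝ) ^ (3 : ℝ) * (p : ℝ) ^ (-(a + 5)) := by
          apply mul_le_mul_of_nonneg_right _ (Real.rpow_nonneg hp0.le _)
          apply mul_le_mul _ hcard (by positivity) (Real.rpow_nonneg hp0.le _)
          rw [Real.rpow_one]
          linarith
      _ = (p : ℝ) ^ (1 + 3 + (-(a + 5))) := by
          rw [Real.rpow_add hp0, Real.rpow_add hp0]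
      _ ≤ (p : ℝ) ^ (-a) := by
          apply Real.rpow_le_rpow_of_exponent_le (by linarith)
          linarith

end FIN2_

/-- the theorem for `PSL (2, p)`, uniform in the degree -/
theorem finalU (hARC : T_ARC) (hASYU : T_ASYU) (hRECU : T_RECU) (hAB : T_AB2U) (hELE : T_ELEU)
    (hSTP : T_STP) (hQUO : T_QUO) (hPOL : T_POL) (a : ℝ) (ha : 0 < a) :
    ∃ C : ℝ, 0 < C ∧ ∃ P : ℕ, ∀ p : ℕ, p.Prime → P ≤ p → ∀ d : ℕ, 1 ≤ d →
      (1 - (p : ℝ) ^ (-a)) * (Nat.card (PSL p) : ℝ) ^ d ≤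
        (Nat.card {s : Fin d → PSL p //
          NormLe s (C * √(2 * (d : ℝ)) * Real.log (2 * d))} : ℝ) := by
  obtain ⟨C, hC, P, hP⟩ := FIN2_.uni hARC hASYU hRECU hAB hELE hSTP a ha
  refine ⟨C, hC, P, ?_⟩
  intro p hp hpP d hd
  haveI : Fact p.Prime := ⟨hp⟩
  have hd1 : (1 : ℝ) ≤ d := by exact_mod_cast hd
  apply FIN2_.toPSL hQUO hPOL p d _ _ _ (hP p ⟨hp⟩ hpP d hd)
  have : 0 ≤ Real.log (2 * (d : ℝ)) := Real.log_nonneg (by linarith)
  positivity

end Pool.Agent.RCG
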