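import Pool.Agent.RCG.Targets

set_option autoImplicit false

/-!
# RCG: fourth group of targets, the improved machine (`√(k log k)`)

Exponential moments instead of tail bounds, see ideas row KEY2 (helper90). `k = 2 d` is the degree.
The final target is `T_MACH2`. Write the proof of `T_XXX` in a new file
`Pool/Agent/RCG/XXX.lean`: `theorem prove_XXX (h : T_YYY) ... : T_XXX`, helper lemmas in a
sub-namespace `XXX_`.
-/

namespace Pool.Agent.RCG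

open Finset Matrix

open Classical in
/-- the adjacency matrix of the Cayley multigraph of the tuple `y` -/
noncomputable def adM {G : Type} [Group G] [Fintype G] {d : ℕ} (y : Fin d → G) : Matrix G G ℝ :=
  Matrix.of fun x z => ∑ i, ((if z = x * y i then (1 : ℝ) else 0) +
    (if z = x * (y i)⁻¹ then (1 : ℝ) else 0))

open Classical in
/-- the exponential `exp (t A_y)` of the adjacency matrix -/
noncomputable def exM {G : Type} [Group G] [Fintype G] {d : ℕ} (y : Fin d → G) (t : ℝ) :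
    Matrix G G ℝ := NormedSpace.exp (t • adM y)

/-- the average over all `d`-tuples of `exp (t A_y)` is at most `Φ` on functions of sum zero -/
def EB (G : Type) [Group G] [Fintype G] (d : ℕ) (t Φ : ℝ) : Prop :=
  ∀ f : G → ℝ, ∑ x, f x = 0 →
    ∑ y : Fin d → G, f ⬝ᵥ (exM y t) *ᵥ f ≤ Φ * (Fintype.card G : ℝ) ^ d * ∑ x, f x ^ 2

/-- the rate function `F_k (l) = max (4 √k l, 48 k log k l²)`, `k = 2 d` -/
noncomputable def FF (d : ℕ) (l : ℝ) : ℝ :=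
  max (4 * √(2 * (d : ℝ)) * l) (48 * (2 * (d : ℝ)) * Real.log (2 * (d : ℝ)) * l ^ 2)

/-- `φ_d (± l log q) <= q ^ (F l + ε)` for large `q` -/
def ExpB {I : Type} (G : I → Type) [∀ i, Group (G i)] [∀ i, Fintype (G i)] (q : I → ℝ)
    (d : ℕ) (F : ℝ → ℝ) : Prop :=
  ∀ l ε : ℝ, 0 ≤ l → 0 < ε → ∃ P : ℝ, ∀ i, P ≤ q i → ∀ σ : ℝ, (σ = 1 ∨ σ = -1) →
    EB (G i) d (σ * (l * Real.log (q i))) (q i ^ (F l + ε))

/-! ## Linear algebra -/

/-- GTP: Golden-Thompson on an invariant subspace. Hypothesis `T_GT`. `Q` is an orthogonal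
projection which commutes with `A` and `B`. Proof: apply GT to `A - s (1 - Q)`, `B - s (1 - Q)`,
`s > 0`: `exp (A - s (1 - Q)) = exp A (Q + e^(-s) (1 - Q))`, and let `s -> ∞`:
`tr (exp (A+B) (Q + e^(-2s) (1-Q))) <= tr (exp A (Q + e^(-s) (1-Q)) exp B (Q + e^(-s) (1-Q)))`. -/
def T_GTP : Prop := ∀ (ι : Type) [Fintype ι] [DecidableEq ι] (A B Q : Matrix ι ι ℝ),
  A.IsHermitian → B.IsHermitian → Q.IsHermitian → Q * Q = Q → A * Q = Q * A → B * Q = Q * B →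
    (Q * NormedSpace.exp (A + B)).trace ≤ (Q * (NormedSpace.exp A * NormedSpace.exp B)).trace

/-- TOP: the projection onto the top eigenspace of a symmetric matrix `S` inside the range of an
orthogonal projection `P ≠ 0` commuting with `S`. Proof: let `b` be larger than all `|eigenvalue|`
of `S`, and `S' = S P - b (1 - P)` (symmetric); let `μ` be the largest eigenvalue of `S'` and
`Q = U diag (1 if λ_j = μ else 0) U*` the spectral projection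
(`Matrix.IsHermitian.spectral_theorem`).
Every `X` which commutes with `S` and `P` commutes with `S'`, hence with `Q` (in the eigenbasis
`X_ij (λ_i - λ_j) = 0`). Since `P ≠ 0`, `μ > - b` (a vector `v = P v` has
`v S' v = v S v > - b v.v`), so `Q P = Q`, `S Q = μ Q`. -/
def T_TOP : Prop := ∀ (ι : Type) [Fintype ι] [DecidableEq ι] (S P : Matrix ι ι ℝ),
  S.IsHermitian → P.IsHermitian → P * P = P → P ≠ 0 → S * P = P * S →
    ∃ (μ : ℝ) (Q : Matrix ι ι ℝ), Q.IsHermitian ∧ Q * Q = Q ∧ Q ≠ 0 ∧ Q * P = Q ∧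
      S * Q = μ • Q ∧ (∀ X : Matrix ι ι ℝ, X * S = S * X → X * P = P * X → X * Q = Q * X) ∧
      ∀ v : ι → ℝ, P *ᵥ v = v → v ⬝ᵥ S *ᵥ v ≤ μ * (v ⬝ᵥ v)

/-- SPX: three-term inequality. Proof: in an orthonormal eigenbasis it is the scalar inequality
`e^(t x) <= e^(t R) + e^(t R') x^n/R^n + e^(-(t1 - t) R') e^(t1 x)` (`x <= R`: first term;
`R < x <= R'`: second term; `x > R'`: third term; all terms are nonnegative). -/
def T_SPX : Prop := ∀ (ι : Type) [Fintype ι] [DecidableEq ι] (M : Matrix ι ι ℝ)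
  (t t1 R R' : ℝ) (n : ℕ), M.IsHermitian → 0 ≤ t → t ≤ t1 → 0 < R → R ≤ R' → Even n →
  ∀ v : ι → ℝ, v ⬝ᵥ (NormedSpace.exp (t • M)) *ᵥ v ≤
    Real.exp (t * R) * (v ⬝ᵥ v) + Real.exp (t * R') * (R ^ n)⁻¹ * (v ⬝ᵥ (M ^ n) *ᵥ v) +
      Real.exp (-((t1 - t) * R')) * (v ⬝ᵥ (NormedSpace.exp (t1 • M)) *ᵥ v)

/-- SPE: (1) if `v.Mv <= b v.v` for all `v` then `v.exp(tM)v <= e^(t b) v.v` for `t >= 0`;
(2) Jensen: `e^(t b) v.v <= v.exp(tM)v` if `b v.v <= v.Mv` and `t >= 0`; (3) `exp M` is positive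
semidefinite. Proof of (2): `e^(t x) >= e^(t b) (1 + t (x - b))` for all real `x`, and sum over an
orthonormal eigenbasis. -/
def T_SPE : Prop := ∀ (ι : Type) [Fintype ι] [DecidableEq ι] (M : Matrix ι ι ℝ) (t b : ℝ),
  M.IsHermitian → 0 ≤ t →
  ((∀ v : ι → ℝ, v ⬝ᵥ M *ᵥ v ≤ b * (v ⬝ᵥ v)) →
    ∀ v : ι → ℝ, v ⬝ᵥ (NormedSpace.exp (t • M)) *ᵥ v ≤ Real.exp (t * b) * (v ⬝ᵥ v)) ∧
  (∀ v : ι → ℝ, b * (v ⬝ᵥ v) ≤ v ⬝ᵥ M *ᵥ v →
    Real.exp (t * b) * (v ⬝ᵥ v) ≤ v ⬝ᵥ (NormedSpace.exp (t • M)) *ᵥ v) ∧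
  (NormedSpace.exp M).PosSemidef

/-! ## Finite groups -/

/-- ADM: elementary properties of the adjacency matrix. (3) splitting of a tuple; (4) the constants
are eigenvectors; (5) the sum over all tuples of `exp (t A_z)` commutes with every `A_y`: for `h` in
`G` let `R_h` be the permutation matrix with `(R_h f) x = f (x h)`; then
`R_h A_z R_h⁻¹ = A_(h z h⁻¹)`, so `R_h exp (t A_z) R_h⁻¹ = exp (t A_(h z h⁻¹))` and the sum commutes
with all `R_h`; and `A_y` is a sum of matrices `R_h`; (6) `|f A f| <= 2 d f.f`. -/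
def T_ADM : Prop := ∀ (G : Type) [Group G] [Fintype G] (d : ℕ),
  (∀ (y : Fin d → G) (f : G → ℝ), adM y *ᵥ f = adj y f) ∧
  (∀ y : Fin d → G, (adM y).IsHermitian) ∧
  (∀ (d' : ℕ) (y : Fin d → G) (y' : Fin d' → G), adM (Fin.append y y') = adM y + adM y') ∧
  (∀ y : Fin d → G, adM y *ᵥ (fun _ => (1 : ℝ)) = fun _ => 2 * (d : ℝ)) ∧
  (∀ (d' : ℕ) (y : Fin d → G) (t : ℝ),
    (∑ z : Fin d' → G, exM z t) * adM y = adM y * ∑ z : Fin d' → G, exM z t) ∧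
  (∀ (y : Fin d → G) (f : G → ℝ), |f ⬝ᵥ adM y *ᵥ f| ≤ 2 * d * (f ⬝ᵥ f))

/-- SUB (submultiplicativity). Hypotheses `T_GTP`, `T_TOP`, `T_SPE`, `T_ADM`. If `|G| = 1` the
claim is trivial (`f = 0`). Otherwise let `J` be the matrix with all entries `1/|G|`,
`P = 1 - J ≠ 0`,
`S_d = sum over all d-tuples of exp (t A_y)`, `S = S_(d+d') `; all `A_y` are symmetric and commute
with `P`, so do `S_d` and `S`; and `S` commutes with all `A_y`. TOP gives `μ` and `Q`. By GTP and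
the bijection `Fin.append` (`Fin.appendEquiv`)
`μ tr Q = tr (Q S) = sum tr (Q exp (t A_y + t A_y')) <= sum tr (Q exp (t A_y) exp (t A_y')) =
tr (Q S_d S_d') = tr ((Q S_d Q) (Q S_d' Q))`. `Q S_d' Q` is positive semidefinite and
`Φ |G|^d Q - Q S_d Q` too (vectors `Q v` have sum zero because `Q P = Q`), so this is
`<= Φ |G|^d tr (Q S_d' Q) <= Φ Φ' |G|^(d+d') tr Q`, and `tr Q > 0`. So `μ <= Φ Φ' |G|^(d+d')`, and
the last property of TOP is the claim. -/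
def T_SUB : Prop := ∀ (G : Type) [Group G] [Fintype G] (d d' : ℕ) (t Φ Φ' : ℝ), 0 ≤ Φ → 0 ≤ Φ' →
  EB G d t Φ → EB G d' t Φ' → EB G (d + d') t (Φ * Φ')

/-- EBX. Hypotheses `T_SPX`, `T_ADM`. Apply SPX to `M = σ A_y`, `v = f` of sum zero, and sum over
all `y`; `M^n = A_y^n` because `n` is even, and `f.A_y^n f = sum_x f x * (adj y)^[n] f x`. -/
def T_EBX : Prop := ∀ (G : Type) [Group G] [Fintype G] (d n : ℕ) (σ t t1 R R' m Φ : ℝ),
  (σ = 1 ∨ σ = -1) → 0 ≤ t → t ≤ t1 → 0 < R → R ≤ R' → Even n →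
  (∀ f : G → ℝ, ∑ x, f x = 0 → ∑ y : Fin d → G, ∑ x, f x * (adj y)^[n] f x ≤
    m * (Fintype.card G : ℝ) ^ d * ∑ x, f x ^ 2) →
  EB G d (σ * t1) Φ →
    EB G d (σ * t) (Real.exp (t * R) + Real.exp (t * R') * (R ^ n)⁻¹ * m +
      Real.exp (-((t1 - t) * R')) * Φ)

/-- TRV. Hypotheses `T_SPE`, `T_ADM`: the trivial bound. (Also monotonicity in `Φ`.) -/
def T_TRV : Prop := ∀ (G : Type) [Group G] [Fintype G] (d : ℕ) (σ t : ℝ),
  (σ = 1 ∨ σ = -1) → 0 ≤ t →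
    EB G d (σ * t) (Real.exp (2 * d * t)) ∧ ∀ (s Φ Φ' : ℝ), Φ ≤ Φ' → EB G d s Φ → EB G d s Φ'

/-- MRK (Markov). Hypotheses `T_SPE`, `T_ADM`. If `y` is bad there are a sign `σ` and `f ≠ 0` of sum
zero with `σ f.A_y f >= B f.f`, so by Jensen `e^(t B) f.f <= f.E f`, `E = exp (σ t A_y)` positive
semidefinite. With `e_x = δ_x - 1/|G|` one has `f = sum_x f x • e_x` and (Cauchy-Schwarz for `E`)
`f.E f <= f.f * sum_x e_x.E e_x`. So `e^(t B) <= sum_x e_x.E e_x` for the bad `y` with sign `σ`, and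
the sum over all `y` of the right side is at most `Φ |G|^d sum_x e_x.e_x <= Φ |G|^(d+1)`. -/
def T_MRK : Prop := ∀ (G : Type) [Group G] [Fintype G] (d : ℕ) (t B Φ : ℝ), 0 ≤ t → 0 ≤ Φ →
  EB G d (1 * t) Φ → EB G d (-1 * t) Φ →
    (badCard G d B : ℝ) ≤ 2 * (Fintype.card G : ℝ) * Φ * Real.exp (-(t * B)) *
      (Fintype.card G : ℝ) ^ d

/-! ## Asymptotics -/

/-- MOM (real analysis), `k > 4`. With `L = log q` take `n = 2 ⌊L / (2 log (k/4))⌋₊`. Then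
`(2/√k)^n >= q^(-1/2)` (since `n log (√k/2) <= L/2`), so
`((4 √k)^n)⁻¹ k^n ((2/√k)^n + c √((n+1)/q)) <= (4 √k)^(-n) (2 √k)^n (1 + c √(n+1)) =
2^(-n) (1 + c √(n+1))`, and `n >= L / log (k/4) - 2` gives `2^(-n) <= 4 q^(-log 2/log (k/4)) <=
4 q^(-log 2/log k)`; finally `4 (1 + c √(n+1)) <= q^ε` for large `q`. -/
def T_MOM : Prop := ∀ (k c ε : ℝ), 4 < k → 0 < c → 0 < ε → ∃ P : ℝ, ∀ q : ℝ, P ≤ q → 1 ≤ q ∧
  ∃ n : ℕ, Even n ∧
    ((4 * √k) ^ n)⁻¹ * (k ^ n * ((2 / √k) ^ n + c * √(((n : ℝ) + 1) / q))) ≤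
      q ^ (-(Real.log 2 / Real.log k) + ε)

/-- OPT (algebra of the exponents), `k > 4`, `l1 = √2/(12 √k log k)`. (1) for `l >= l1` the doubled
old rate is at most the new rate; (2), (3) for `0 <= l`: the second and third exponents.
Proof. Put `u = √k l`, `λ = log k > 0`. (1) `4 √2 √k l <= 48 k log k l²` is `l >= l1`, and
`log (k/2) <= log k`. (3): the max in the exponent is at most `4 √2 √k l1 = 2/(3 λ)` (since
`48 k log (k/2) l1² <= 48 k log k l1² = 2/(3 λ)`), and `8 √2 √k l1 = 4/(3 λ)`, so the left side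
is at most `8 √2 u - 2/(3 λ) <= 48 λ u²` (perfect square:
`48 λ u² - 8 √2 u + 2/(3 λ) = (√(48 λ) u - √(2/(3 λ)))²`). (2): `log 2 >= 2/3`, so
`8 √2 u - log 2/λ <= 8 √2 u - 2/(3 λ)`. -/
def T_OPT : Prop := ∀ (k l l1 : ℝ), 4 < k → 0 ≤ l → l1 = √2 / (12 * √k * Real.log k) →
  (l1 ≤ l → max (4 * √2 * √k * l) (48 * k * Real.log (k / 2) * l ^ 2) ≤
    48 * k * Real.log k * l ^ 2) ∧
  l * (8 * √2 * √k) - Real.log 2 / Real.log k ≤ 48 * k * Real.log k * l ^ 2 ∧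
  -((l1 - l) * (8 * √2 * √k)) + max (4 * √2 * √k * l1) (48 * k * Real.log (k / 2) * l1 ^ 2) ≤
    48 * k * Real.log k * l ^ 2

/-- DBL (doubling step). Hypotheses `T_SUB`, `T_EBX`, `T_TRV`, `T_MOM`, `T_OPT`. Put `k = 4 d > 4`
(the degree of `2 d` generators), `L = log q`. By SUB (`2 d = d + d`) for every `l >= 0` and
large `q`
`EB (2 d) (σ l L) (q^(FF d l + ε))²`, and `2 FF d l = max (4 √2 √k l, 48 k log (k/2) l²)`.
If `l >= l1` use OPT (1). If `l < l1` use this at `l1`, and EBX with `t = l L`, `t1 = l1 L`,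
`R = 4 √k`, `R' = 8 √2 √k` and the `n` of MOM (`m = k^n (...)` from `AvgB`; enlarge `c` to be
positive); the three terms are `q^(4 √k l)`, `q^(8 √2 √k l - log 2/log k + ε)`,
`q^(-(l1 - l) 8 √2 √k + 2 FF d l1 + 2 ε)`, all at most `q^(FF (2 d) l + 2 ε)` by OPT; and
`3 q^(2 ε) <= q^(3 ε)` for large `q`. -/
def T_DBL : Prop := ∀ (I : Type) (G : I → Type) [∀ i, Group (G i)] [∀ i, Fintype (G i)]
  (q : I → ℝ) (d : ℕ), 2 ≤ d → (∃ c, AvgB G q (2 * d) c) →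
  ExpB G q d (FF d) → ExpB G q (2 * d) (FF (2 * d))

/-- PW2. Hypotheses `T_DBL`, `T_TRV`. Induction on `j`; for `j <= 1` (even `j <= 3`) the trivial
bound `e^(2 d l L) = q^(2 d l)` and `2 d <= 4 √(2 d)`. -/
def T_PW2 : Prop := ∀ (I : Type) (G : I → Type) [∀ i, Group (G i)] [∀ i, Fintype (G i)]
  (q : I → ℝ), (∀ d : ℕ, 2 ≤ d → ∃ c, AvgB G q d c) → ∀ j : ℕ, ExpB G q (2 ^ j) (FF (2 ^ j))

/-- GDX. Hypothesis `T_MRK`. Put `k = 2 d`, `B = 14 √(N+a+1) √(k log k)`, `l = B/(96 k log k)`,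
`t = l log q`. As `B >= 8 √k` (`14 √(log 2) > 8`) one has `FF d l = 48 k log k l² =
(196/192) (N+a+1)` and `l B = 2 FF d l`, so with `ε = 1` the bound of MRK is at most
`2 q^(N + FF + 1 - 2 FF) |G|^d <= 2 q^(-a) |G|^d` (for `q >= 1`). -/
def T_GDX : Prop := ∀ (I : Type) (G : I → Type) [∀ i, Group (G i)] [∀ i, Fintype (G i)]
  (q : I → ℝ) (N a : ℝ), 0 ≤ N → 0 ≤ a → (∀ i, (Fintype.card (G i) : ℝ) ≤ q i ^ N) →
  ∀ d : ℕ, 1 ≤ d → ExpB G q d (FF d) →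
    Good G q d (14 * √(N + a + 1) * √(2 * (d : ℝ) * Real.log (2 * (d : ℝ)))) a

/-- GSM: a bad tuple of length `d + d'` for `B + B'` has a bad first part for `B` or a bad second
part for `B'`. (Also monotonicity in `B`.) -/
def T_GSM : Prop := ∀ (I : Type) (G : I → Type) [∀ i, Group (G i)] [∀ i, Fintype (G i)]
  (q : I → ℝ) (a : ℝ) (d d' : ℕ) (B B' : ℝ),
  (Good G q d B a → Good G q d' B' a → Good G q (d + d') (B + B') a) ∧
  (B ≤ B' → Good G q d B a → Good G q d B' a)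

/-- GEN (strong induction on `d`). `β >= 0`, `b d = β √(2 d log (2 d))`. Write `d = 2^j + r`,
`0 <= r < 2^j`. If `r = 0` use monotonicity. Otherwise
`b (2^j) + 4 b r <= β √(log (2 d)) (√(2 2^j) + 4 √(2 r)) <= 4 b d`, since
`√x + 4 √r <= 4 √(x + r)` for `0 <= r <= x` (square: `8 √(x r) <= 15 x`). -/
def T_GEN : Prop := ∀ (Gd : ℕ → ℝ → Prop) (β : ℝ), 0 ≤ β →
  (∀ (d : ℕ) (B B' : ℝ), B ≤ B' → Gd d B → Gd d B') →
  (∀ (d d' : ℕ) (B B' : ℝ), Gd d B → Gd d' B' → Gd (d + d') (B + B')) →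
  (∀ j : ℕ, Gd (2 ^ j) (β * √(2 * ((2 ^ j : ℕ) : ℝ) * Real.log (2 * ((2 ^ j : ℕ) : ℝ))))) →
  ∀ d : ℕ, 1 ≤ d → Gd d (4 * β * √(2 * (d : ℝ) * Real.log (2 * (d : ℝ))))

/-- MACH2. Hypotheses `T_PW2`, `T_GDX`, `T_GSM`, `T_GEN`: a direct combination. -/
def T_MACH2 : Prop := ∀ (I : Type) (G : I → Type) [∀ i, Group (G i)] [∀ i, Fintype (G i)]
  (q : I → ℝ) (N a : ℝ), 0 ≤ N → 0 ≤ a → (∀ i, (Fintype.card (G i) : ℝ) ≤ q i ^ N) →
  (∀ d : ℕ, 2 ≤ d → ∃ c, AvgB G q d c) →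
  ∀ d : ℕ, 1 ≤ d → Good G q d (56 * √(N + a + 1) * √(2 * (d : ℝ) * Real.log (2 * (d : ℝ)))) a

/-- BC2. Hypotheses `T_MACH2`, `T_AB2` (see `Pool/Agent/RCG/Fin.lean`, `FIN_.card_le`): MACH2 for
`SL (2, p)` with `N = 3` and `a + 1` for `a`, and `K p^(-(a+1)) <= p^(-a)` for large `p`. -/
def T_BC2 : Prop := ∀ (a : ℝ), 0 < a → ∀ d : ℕ, 2 ≤ d → ∃ P : ℕ, ∀ (p : ℕ) [Fact p.Prime], P ≤ p →
  (badCard (SL 2 p) d (56 * √(a + 5) * √(2 * (d : ℝ) * Real.log (2 * (d : ℝ)))) : ℝ) ≤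
    (p : ℝ) ^ (-a) * (Fintype.card (SL 2 p) : ℝ) ^ d

end Pool.Agent.RCG
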