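import Pool.Agent.RCG.Targets3
import Pool.Agent.RCG.Targets4

set_option autoImplicit false

/-!
# RCG: sixth group of targets, the improved machine, uniform in the degree

`|λ| <= C √(k log k)` for ALL degrees `k = 2 d` (also growing with `p`), see ideas row KEY2
(helper90). The single group targets `T_SUB`, `T_EBX`, `T_TRV`, `T_MRK` of `Targets4.lean` are used.
Write the proof of `T_XXX` in a new file `Pool/Agent/RCG/XXX.lean`: `theorem prove_XXX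
(h : T_YYY) ... : T_XXX`, helper lemmas in a sub-namespace `XXX_`.
-/

namespace Pool.Agent.RCG

open Finset Matrix

/-- the moment hypothesis for a single group, uniform in the number of generators `d` -/
def AvgU (G : Type) [Group G] [Fintype G] (q : ℝ) : Prop :=
  ∀ d n : ℕ, 1 ≤ d → 2 * (d : ℝ) < q → ∀ f : G → ℝ, ∑ x, f x = 0 →
    ∑ y : Fin d → G, ∑ x, f x * (adj y)^[n] f x ≤
      (2 * (d : ℝ)) ^ n * (Fintype.card G : ℝ) ^ d *
        ((2 / √(2 * (d : ℝ))) ^ n + 14 * √(((n : ℝ) + 1) / q)) * ∑ x, f x ^ 2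

/-- the critical parameter `t_k = (log 2/64) L/(√k log k)`, `k = 2 d` -/
noncomputable def tt (d : ℕ) (L : ℝ) : ℝ :=
  Real.log 2 / 64 * L / (√(2 * (d : ℝ)) * Real.log (2 * (d : ℝ)))

/-- the exponential moments are as for norm `8 √k` up to the critical parameter -/
def Lin (G : Type) [Group G] [Fintype G] (d : ℕ) (L : ℝ) : Prop :=
  ∀ σ : ℝ, (σ = 1 ∨ σ = -1) → ∀ t : ℝ, 0 ≤ t → t ≤ tt d L →
    EB G d (σ * t) (Real.exp (t * (8 * √(2 * (d : ℝ)))))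

/-- CVX (log-convexity). For `t1 = 0` trivial. Otherwise `θ = t/t1`, `w = exp (t1 b)`; for a
symmetric matrix `M` and all `v`
`v.exp(tM)v <= w^θ (θ/w * v.exp(t1 M)v + (1 - θ) v.v)`: in an orthonormal eigenbasis this is
`(e^(t1 x)/w)^θ <= θ e^(t1 x)/w + (1 - θ)` (weighted AM-GM, `Real.geom_mean_le_arith_mean2_weighted`
or Bernoulli). Use it for `M = σ A_y`, `v = f` and sum over all `y`: `w^θ (θ + 1 - θ) = exp (t b)`.
(`adM y` is symmetric: prove it directly or take `T_ADM` as a hypothesis.) -/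
def T_CVX : Prop := ∀ (G : Type) [Group G] [Fintype G] (d : ℕ) (σ t t1 b : ℝ),
  (σ = 1 ∨ σ = -1) → 0 ≤ t → t ≤ t1 → EB G d (σ * t1) (Real.exp (t1 * b)) →
    EB G d (σ * t) (Real.exp (t * b))

/-- MOU (real analysis). `L = log q`, `y = L/log k >= 18`, `n = 2 ⌊L/(2 log (k/4))⌋₊`. As
`n log (√k/2) <= L/2` one has `√((n+1)/q) <= √(n+1) (2/√k)^n`, so
`((4 √k)^n)⁻¹ k^n (...) <= 2^(-n) (1 + 14 √(n+1))`, `n >= L/log (k/4) - 2 >= y - 2`, and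
`log (k/4) >= (2/3) log k` (`k >= 64`), so `n <= 1.5 y`. So the left side is at most
`2^(y/2) 4 2^(-y) (1 + 14 √(1.5 y + 1)) <= 1` for `y >= 18` (at `y = 18`: `301 <= 512`; with
`z = y - 18`: `√(28 + 1.5 z) <= 5.3 + 0.15 z` and `2^(z/2) >= 1 + (log 2) z/2 >= 1 + 0.3 z`). -/
def T_MOU : Prop := ∀ k q : ℝ, 64 ≤ k → 1 < q → 18 * Real.log k ≤ Real.log q →
  ∃ n : ℕ, Even n ∧
    Real.exp (Real.log 2 / (2 * Real.log k) * Real.log q) * (((4 * √k) ^ n)⁻¹ *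
      (k ^ n * ((2 / √k) ^ n + 14 * √(((n : ℝ) + 1) / q)))) ≤ 1

/-- LST (scale step). Hypotheses `T_SUB`, `T_EBX`, `T_TRV`, `T_CVX`, `T_MOU`. Put `k = 8 d >= 64`
(the degree of `4 d` generators), `L = log q`, `t0 = tt (4 d) L`. By CVX (`b = 8 √k`) it is enough
to treat `t = t0`. As `√(8 d) = 2 √(2 d)` and `log (2 d) <= log (8 d)`, `2 t0 <= tt d L`; so
`EB d (σ 2 t0) (exp (2 t0 * 8 √(2 d)))`, and by SUB twice (`4 d = (d + d) + (d + d)`)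
`EB (4 d) (σ 2 t0) (exp (32 √k t0))` (`√(2 d) = √k/2`). EBX with `t = t0`, `t1 = 2 t0`, `R = 4 √k`,
`R' = 32 √k` and the `n` of MOU (`exp (t0 R') = exp (log 2/(2 log k) L)`) gives the bound
`exp (4 √k t0) + 1 + exp (-(2 t0 - t0) 32 √k) exp (32 √k t0) = exp (4 √k t0) + 2 <=
exp (8 √k t0)`, because `4 √k t0 = (log 2/16) L/log k >= (18/16) log 2 >= log 2`. (`2 (4 d) < q`
because `18 log (8 d) <= log q`.) -/
def T_LST : Prop := ∀ (G : Type) [Group G] [Fintype G] (q : ℝ) (d : ℕ),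
  AvgU G q → 1 < q → 8 ≤ d → 18 * Real.log (2 * ((4 * d : ℕ) : ℝ)) ≤ Real.log q →
  Lin G d (Real.log q) → Lin G (4 * d) (Real.log q)

/-- LPW. Hypotheses `T_LST`, `T_TRV`. For `2 * 2^j <= 64` (`j <= 5`) the trivial bound:
`2 d <= 8 √(2 d)`. Otherwise `2^j = 4 * 2^(j-2)` and induction. -/
def T_LPW : Prop := ∀ (G : Type) [Group G] [Fintype G] (q : ℝ), AvgU G q → 1 < q → ∀ j : ℕ,
  18 * Real.log (2 * ((2 ^ j : ℕ) : ℝ)) ≤ Real.log q → Lin G (2 ^ j) (Real.log q)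

/-- SBI (iterated submultiplicativity). Hypothesis `T_SUB`: induction on `i`. -/
def T_SBI : Prop := ∀ (G : Type) [Group G] [Fintype G] (d i : ℕ) (t Φ : ℝ), 0 ≤ Φ →
  EB G d t Φ → EB G (2 ^ i * d) t (Φ ^ (2 ^ i))

/-- GPU. Hypotheses `T_LPW`, `T_SBI`, `T_MRK`, `T_ELEU`. Put `k = 2 * 2^j`, `λ = log k > 0`,
`L = log q`. If `2^j < 8 m λ/log 2` then `k < 77 √m √(k λ)` (`k² < (16/log 2) m k λ`) and ELEU (the
trivial bound, monotonicity) gives `0`. Otherwise let `s = 2^i`, `i <= j`, be the least power of two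
with `8 m λ/log 2 <= s` (so `s <= 16 m λ/log 2`, since `8 m λ/log 2 >= 8 > 1`), `d' = 2^(j-i)`,
`t = √s (log 2/64) L/(√k λ) <= tt d' L` (`2 d' = k/s >= 2`, `log (k/s) <= λ`). LPW for `j - i` and
SBI give `EB (2^j) (σ t) (exp (8 √(k/s) t)^s) = exp (8 √s √k t)`, and MRK with
`B = 16 √s √k <= 77 √m √(k λ)` gives at most
`2 |G| exp (-8 √s √k t) |G|^d = 2 |G| exp (-(log 2/8) s L/λ) |G|^d <= 2 q^N q^(-m) |G|^d`. -/
def T_GPU : Prop := ∀ (G : Type) [Group G] [Fintype G] (q N m : ℝ), AvgU G q → 1 < q → 1 ≤ m →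
  (Fintype.card G : ℝ) ≤ q ^ N → ∀ j : ℕ, 18 * Real.log (2 * ((2 ^ j : ℕ) : ℝ)) ≤ Real.log q →
    (badCard G (2 ^ j)
      (77 * √m * √(2 * ((2 ^ j : ℕ) : ℝ) * Real.log (2 * ((2 ^ j : ℕ) : ℝ)))) : ℝ) ≤
      2 * q ^ (N - m) * (Fintype.card G : ℝ) ^ (2 ^ j)

/-- GSU: a bad tuple of length `d + d'` for `B + B'` has a bad first part for `B` or a bad second
part for `B'`. -/
def T_GSU : Prop := ∀ (G : Type) [Group G] [Fintype G] (d d' : ℕ) (B B' : ℝ),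
  badCard G (d + d') (B + B') ≤
    badCard G d B * Fintype.card G ^ d' + badCard G d' B' * Fintype.card G ^ d

/-- GNU (strong induction on `d`, abstract form; `b d B` will be `badCard G d B / |G|^d`). Write
`d = 2^j + r`, `0 <= r < 2^j`. If `r = 0` use monotonicity and `4 β >= β`. Otherwise
`β √(2 2^j log (2 2^j)) + 4 β √(2 r log (2 r)) <= β √(log (2 d)) (√(2 2^j) + 4 √(2 r)) <=
4 β √(2 d log (2 d))`, since `√x + 4 √r <= 4 √(x + r)` for `0 <= r <= x` (square: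
`8 √(x r) <= 15 x`); and `δ + r δ <= d δ`. -/
def T_GNU : Prop := ∀ (b : ℕ → ℝ → ℝ) (β δ L0 : ℝ), 0 ≤ β → 0 ≤ δ →
  (∀ (d : ℕ) (B B' : ℝ), B ≤ B' → b d B' ≤ b d B) →
  (∀ (d d' : ℕ) (B B' : ℝ), b (d + d') (B + B') ≤ b d B + b d' B') →
  (∀ j : ℕ, 18 * Real.log (2 * ((2 ^ j : ℕ) : ℝ)) ≤ L0 →
    b (2 ^ j) (β * √(2 * ((2 ^ j : ℕ) : ℝ) * Real.log (2 * ((2 ^ j : ℕ) : ℝ)))) ≤ δ) →
  ∀ d : ℕ, 1 ≤ d → 18 * Real.log (2 * (d : ℝ)) ≤ L0 →
    b d (4 * β * √(2 * (d : ℝ) * Real.log (2 * (d : ℝ)))) ≤ d * δ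

/-- UNI. Hypotheses `T_AB2U`, `T_GPU`, `T_GSU`, `T_ELEU`, `T_GNU`, `T_ARC`. `G = SL (2, p)`,
`q = p`, `N = 3` (`FIN_.card_le` in `Fin.lean`), `m = a + 5`, `B = 308 √(a+5) √(k log k)`, `k = 2 d`. AB2U is
`AvgU G p`. If `18 log k <= log p`: GPU, GSU and GNU with `β = 77 √m`, `δ = 2 p^(3-m)` give at most
`2 d p^(3-m) = 2 d p^(-2-a) <= p^(-a)` for the proportion (`2 d = k <= p`). If `18 log k > log p`:
ARC with `t = B`: `t²/(16 d) = t²/(8 k) = (308²/8) (a+5) log k >= 600 (a+5) log p`, so the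
proportion is at most `2 p^3 p^(-600 (a+5)) <= p^(-a)`. -/
def T_UNI : Prop := ∀ (a : ℝ), 0 < a → ∃ P : ℕ, ∀ (p : ℕ) [Fact p.Prime], P ≤ p → ∀ d : ℕ, 1 ≤ d →
  (badCard (SL 2 p) d (308 * √(a + 5) * √(2 * (d : ℝ) * Real.log (2 * (d : ℝ)))) : ℝ) ≤
    (p : ℝ) ^ (-a) * (Fintype.card (SL 2 p) : ℝ) ^ d

end Pool.Agent.RCG
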