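import Pool.Agent.RCG.Fin10

set_option autoImplicit false

/-!
# RCG: one statement for all degrees, with a constant which tends to `2`
-/

namespace Pool.Agent.RCG

open Finset

theorem const_two (h9 : T_BC9) (h7 : T_BC7) (hE : T_ELEU) : ∃ c : ℕ → ℝ, (∀ d, 2 ≤ c d) ∧
    (∀ d, c d ≤ 364) ∧ Filter.Tendsto c Filter.atTop (nhds 2) ∧ ∀ d : ℕ, 1 ≤ d → ∃ P : ℕ,
      ∀ (p : ℕ) [Fact p.Prime], P ≤ p → (badCard (SL 2 p) d (c d * √(2 * (d : ℝ))) : ℝ) ≤
        (p : ℝ) ^ (-(1 / 4 : ℝ)) * (Fintype.card (SL 2 p) : ℝ) ^ d := by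
  classical
  have h : ∀ m : ℕ, ∃ D : ℕ, ∀ d : ℕ, D ≤ d → ∃ P : ℕ, ∀ (p : ℕ) [Fact p.Prime], P ≤ p →
      (badCard (SL 2 p) d ((1 + 1 / ((m : ℝ) + 1)) * (2 * √(2 * (d : ℝ) - 1))) : ℝ) ≤
        (p : ℝ) ^ (-(1 / 4 : ℝ)) * (Fintype.card (SL 2 p) : ℝ) ^ d := by
    intro m
    obtain ⟨D, -, hD⟩ := h9 (1 / ((m : ℝ) + 1)) (by positivity)
    exact ⟨D, hD⟩
  choose D hD using h
  set mm : ℕ → ℕ := fun d => Nat.findGreatest (fun m => D m ≤ d) d with hmm
  set c : ℕ → ℝ := fun d => if D 0 ≤ d then min 364 (2 * (1 + 1 / ((mm d : ℝ) + 1))) else 364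
    with hc
  have h1 : ∀ d, c d ≤ 364 := by
    intro d
    simp only [hc]
    split_ifs
    · exact min_le_left _ _
    · exact le_rfl
  have h2 : ∀ d, 2 ≤ c d := by
    intro d
    simp only [hc]
    split_ifs
    · refine le_min (by norm_num) ?_
      have : (0 : ℝ) ≤ 1 / ((mm d : ℝ) + 1) := by positivity
      linarith
    · norm_num
  have hspec : ∀ d, D 0 ≤ d → D (mm d) ≤ d := by
    intro d hd
    exact Nat.findGreatest_spec (P := fun m => D m ≤ d) (Nat.zero_le d) hd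
  refine ⟨c, h2, h1, ?_, ?_⟩
  · rw [Metric.tendsto_atTop]
    intro ε hε
    obtain ⟨m0, hm0⟩ := exists_nat_gt (2 / ε)
    refine ⟨max m0 (max (D m0) (D 0)), fun d hd => ?_⟩
    have hd1 : m0 ≤ d := (le_max_left _ _).trans hd
    have hd2 : D m0 ≤ d := (le_max_left _ _).trans ((le_max_right _ _).trans hd)
    have hd3 : D 0 ≤ d := (le_max_right _ _).trans ((le_max_right _ _).trans hd)
    have h3 : m0 ≤ mm d := Nat.le_findGreatest hd1 hd2
    have h4 : c d ≤ 2 * (1 + 1 / ((mm d : ℝ) + 1)) := by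
      simp only [hc]
      rw [if_pos hd3]
      exact min_le_right _ _
    have h5 : 1 / ((mm d : ℝ) + 1) < ε / 2 := by
      have h6 : (m0 : ℝ) ≤ mm d := by exact_mod_cast h3
      have h7 : 2 / ε < (mm d : ℝ) + 1 := by linarith
      rw [div_lt_iff₀ (by positivity)]
      rw [div_lt_iff₀ hε] at h7
      nlinarith
    rw [Real.dist_eq, abs_lt]
    constructor
    · linarith [h2 d]
    · linarith
  · intro d hd
    have hm := (fun (p : ℕ) (_ : Fact p.Prime) => (hE (SL 2 p)).1)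
    by_cases hd0 : D 0 ≤ d
    · rcases le_total (364 : ℝ) (2 * (1 + 1 / ((mm d : ℝ) + 1))) with hle | hle
      · have hcd : c d = 364 := by
          simp only [hc]
          rw [if_pos hd0, min_eq_left hle]
        rw [hcd]
        exact h7 d hd
      · have hcd : c d = 2 * (1 + 1 / ((mm d : ℝ) + 1)) := by
          simp only [hc]
          rw [if_pos hd0, min_eq_right hle]
        obtain ⟨P, hP⟩ := hD (mm d) d (hspec d hd0)
        refine ⟨P, fun p hp hpP => ?_⟩
        refine le_trans ?_ (hP p hpP)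
        rw [hcd]
        have hB : (1 + 1 / ((mm d : ℝ) + 1)) * (2 * √(2 * (d : ℝ) - 1)) ≤
            2 * (1 + 1 / ((mm d : ℝ) + 1)) * √(2 * (d : ℝ)) := by
          have hs : √(2 * (d : ℝ) - 1) ≤ √(2 * (d : ℝ)) := Real.sqrt_le_sqrt (by linarith)
          have h0 : (0 : ℝ) ≤ 1 / ((mm d : ℝ) + 1) := by positivity
          nlinarith
        exact_mod_cast hm p hp d _ _ hB
    · have hcd : c d = 364 := by
        simp only [hc]
        rw [if_neg hd0]
      rw [hcd]
      exact h7 d hd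

end Pool.Agent.RCG
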