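import Pool.Agent.RCG.Targets

set_option autoImplicit false

/-!
# RCG: the averaging bound for the family `SL (2, p)`
-/

namespace Pool.Agent.RCG

open Finset

theorem prove_AB2 (h1 : T_AVG) (h2 : T_ETA2) : T_AB2 := by
  intro d hd
  refine ⟨max 14 (2 * d + 1), ?_⟩
  intro p hp n f hf
  have hp14 : (14 : ℝ) ≤ (p.1 : ℝ) := (le_max_left _ _).trans hp
  have hpd : (2 * d + 1 : ℝ) ≤ (p.1 : ℝ) := (le_max_right _ _).trans hp
  have hp2 : p.1 ≠ 2 := by
    intro h
    rw [h] at hp14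
    norm_num at hp14
  have hdp : 2 * d < p.1 := by
    have : ((2 * d + 1 : ℕ) : ℝ) ≤ (p.1 : ℝ) := by
      push_cast
      exact hpd
    have h3 : 2 * d + 1 ≤ p.1 := by exact_mod_cast this
    omega
  have hp0 : (0 : ℝ) < (p.1 : ℝ) := by linarith
  have hη0 : 0 ≤ 14 * √((n : ℝ) / p.1) := by positivity
  refine (h1 (G2 p) d n (14 * √((n : ℝ) / p.1)) (by omega) hη0 f
    (fun w hw => h2 p.1 d n w hp2 hdp hw f hf)).trans ?_
  have hsq : √((n : ℝ) / p.1) ≤ √(((n : ℝ) + 1) / p.1) := by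
    apply Real.sqrt_le_sqrt
    apply div_le_div_of_nonneg_right _ hp0.le
    linarith
  have hη : 14 * √((n : ℝ) / p.1) ≤ max 14 (2 * (d : ℝ) + 1) * √(((n : ℝ) + 1) / p.1) :=
    mul_le_mul (le_max_left _ _) hsq (Real.sqrt_nonneg _) (by positivity)
  have hf2 : 0 ≤ ∑ x, f x ^ 2 := Finset.sum_nonneg (fun x _ => sq_nonneg _)
  apply mul_le_mul_of_nonneg_right _ hf2
  apply mul_le_mul_of_nonneg_left _ (by positivity)
  linarith

end Pool.Agent.RCG
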