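import Pool.Agent.RCG.Targets3

set_option autoImplicit false

/-!
# RCG: the averaging bound for `SL (2, p)` with explicit constants
-/

namespace Pool.Agent.RCG

open Finset

/-- the averaging bound for `SL (2, p)` with explicit constants -/
theorem prove_AB2U (h1 : T_AVG) (h2 : T_ETA2) : T_AB2U := by
  intro p _ d n hp2 hd hdp f hf
  have hp0 : (0 : ℝ) < (p : ℝ) := by
    have : 0 < p := by omega
    exact_mod_cast this
  have hη0 : 0 ≤ 14 * √((n : ℝ) / p) := by positivity
  refine (h1 (SL 2 p) d n (14 * √((n : ℝ) / p)) hd hη0 f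
    (fun w hw => h2 p d n w hp2 hdp hw f hf)).trans ?_
  have hsq : √((n : ℝ) / p) ≤ √(((n : ℝ) + 1) / p) := by
    apply Real.sqrt_le_sqrt
    apply div_le_div_of_nonneg_right _ hp0.le
    linarith
  have hf2 : 0 ≤ ∑ x, f x ^ 2 := Finset.sum_nonneg (fun x _ => sq_nonneg _)
  apply mul_le_mul_of_nonneg_right _ hf2
  apply mul_le_mul_of_nonneg_left _ (by positivity)
  linarith

end Pool.Agent.RCG
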