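import Pool.Agent.RCG.Targets4

set_option autoImplicit false

/-!
# RCG: ADM, elementary properties of the adjacency matrix
-/

namespace Pool.Agent.RCG

open Finset Matrix

namespace ADM_

open Classical in
/-- right translation by `h` as a matrix -/
noncomputable def Rt {G : Type} [Group G] [Fintype G] (h : G) : Matrix G G ℝ :=
  Matrix.of fun x z => if z = x * h then (1 : ℝ) else 0

variable {G : Type} [Group G] [Fintype G]

lemma Rt_mulVec (h : G) (f : G → ℝ) (x : G) : (Rt h *ᵥ f) x = f (x * h) := by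
  classical
  simp [Rt, Matrix.mulVec, dotProduct]

lemma ext_mulVec {A B : Matrix G G ℝ} (h : ∀ f : G → ℝ, A *ᵥ f = B *ᵥ f) : A = B := by
  classical
  ext x z
  have h1 := congrFun (h (Pi.single z 1)) x
  simpa using h1

lemma adM_eq {d : ℕ} (y : Fin d → G) : adM y = ∑ i, (Rt (y i) + Rt (y i)⁻¹) := by
  classical
  ext x z
  simp [adM, Rt, Matrix.sum_apply]

lemma adM_mulVec {d : ℕ} (y : Fin d → G) (f : G → ℝ) : adM y *ᵥ f = adj y f := by
  funext x
  rw [adM_eq, Matrix.sum_mulVec, Finset.sum_apply]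
  refine Finset.sum_congr rfl fun i _ => ?_
  rw [Matrix.add_mulVec, Pi.add_apply, Rt_mulVec, Rt_mulVec]

lemma Rt_mul (g h : G) : Rt g * Rt h = Rt (g * h) := by
  apply ext_mulVec
  intro f
  funext x
  rw [← Matrix.mulVec_mulVec, Rt_mulVec, Rt_mulVec, Rt_mulVec, mul_assoc]

lemma Rt_one [DecidableEq G] : Rt (1 : G) = 1 := by
  apply ext_mulVec
  intro f
  funext x
  rw [Rt_mulVec, mul_one, Matrix.one_mulVec]

lemma Rt_conj {d : ℕ} (h : G) (z : Fin d → G) :
    Rt h * adM z * Rt h⁻¹ = adM (fun i => h * z i * h⁻¹) := by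
  rw [adM_eq, adM_eq, Finset.mul_sum, Finset.sum_mul]
  refine Finset.sum_congr rfl fun i _ => ?_
  rw [mul_add, add_mul, Rt_mul, Rt_mul, Rt_mul, Rt_mul]
  congr 2
  simp [mul_assoc]

/-- `Rt h` as a unit -/
noncomputable def Ru [DecidableEq G] (h : G) : (Matrix G G ℝ)ˣ where
  val := Rt h
  inv := Rt h⁻¹
  val_inv := by rw [Rt_mul, mul_inv_cancel, Rt_one]
  inv_val := by rw [Rt_mul, inv_mul_cancel, Rt_one]

open Classical in
lemma exM_conj {d : ℕ} (h : G) (z : Fin d → G) (t : ℝ) :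
    Rt h * exM z t * Rt h⁻¹ = exM (fun i => h * z i * h⁻¹) t := by
  have h1 := Matrix.exp_units_conj (Ru h) (t • adM z)
  have h2 : ((Ru h : (Matrix G G ℝ)ˣ) : Matrix G G ℝ) * (t • adM z) *
      (((Ru h)⁻¹ : (Matrix G G ℝ)ˣ) : Matrix G G ℝ) = t • adM (fun i => h * z i * h⁻¹) := by
    rw [← Rt_conj]
    change Rt h * (t • adM z) * Rt h⁻¹ = _
    rw [Matrix.mul_smul, Matrix.smul_mul]
  rw [h2] at h1
  exact h1.symm

lemma sum_conj {d : ℕ} (h : G) (t : ℝ) :
    Rt h * (∑ z : Fin d → G, exM z t) * Rt h⁻¹ = ∑ z : Fin d → G, exM z t := by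
  classical
  rw [Finset.mul_sum, Finset.sum_mul]
  have h1 : ∀ z : Fin d → G, Rt h * exM z t * Rt h⁻¹ = exM (fun i => h * z i * h⁻¹) t :=
    fun z => exM_conj h z t
  rw [Finset.sum_congr rfl fun z _ => h1 z]
  let e : (Fin d → G) ≃ (Fin d → G) := Equiv.arrowCongr (Equiv.refl _) (MulAut.conj h).toEquiv
  exact Equiv.sum_comp e (fun z => exM z t)

lemma exsum_comm {d : ℕ} (h : G) (t : ℝ) :
    (∑ z : Fin d → G, exM z t) * Rt h = Rt h * ∑ z : Fin d → G, exM z t := by
  classical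
  have h1 := sum_conj (d := d) h t
  have h2 : Rt h * (∑ z : Fin d → G, exM z t) * Rt h⁻¹ * Rt h =
      (∑ z : Fin d → G, exM z t) * Rt h := by rw [h1]
  rw [mul_assoc, Rt_mul, inv_mul_cancel, Rt_one, mul_one] at h2
  exact h2.symm

lemma shift_sq (f : G → ℝ) (g : G) : ∑ x, f (x * g) ^ 2 = ∑ x, f x ^ 2 :=
  Equiv.sum_comp (Equiv.mulRight g) (fun x => f x ^ 2)

lemma abs_corr (f : G → ℝ) (g : G) : |∑ x, f x * f (x * g)| ≤ ∑ x, f x ^ 2 := by
  have h1 : ∀ x, |f x * f (x * g)| ≤ (f x ^ 2 + f (x * g) ^ 2) / 2 := by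
    intro x
    rw [abs_le]
    constructor <;> nlinarith [sq_nonneg (f x + f (x * g)), sq_nonneg (f x - f (x * g))]
  calc |∑ x, f x * f (x * g)| ≤ ∑ x, |f x * f (x * g)| := Finset.abs_sum_le_sum_abs _ _
    _ ≤ ∑ x, (f x ^ 2 + f (x * g) ^ 2) / 2 := Finset.sum_le_sum fun x _ => h1 x
    _ = ∑ x, f x ^ 2 := by
      rw [← Finset.sum_div, Finset.sum_add_distrib, shift_sq]
      ring

end ADM_

open ADM_ in
/-- ADM -/
theorem prove_ADM : T_ADM := by
  intro G _ _ d
  refine ⟨adM_mulVec, ?_, ?_, ?_, ?_, ?_⟩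
  · intro y
    classical
    ext x z
    simp only [Matrix.conjTranspose_apply, star_trivial, adM, Matrix.of_apply]
    refine Finset.sum_congr rfl fun i _ => ?_
    have h1 : (x = z * y i) ↔ (z = x * (y i)⁻¹) := by
      constructor
      · rintro rfl
        simp
      · rintro rfl
        simp
    have h2 : (x = z * (y i)⁻¹) ↔ (z = x * y i) := by
      constructor
      · rintro rfl
        simp
      · rintro rfl
        simp
    simp only [h1, h2]
    ring
  · intro d' y y'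
    rw [adM_eq, adM_eq, adM_eq, Fin.sum_univ_add]
    simp
  · intro y
    rw [adM_mulVec]
    funext x
    simp [adj]
    ring
  · intro d' y t
    rw [adM_eq, Finset.mul_sum, Finset.sum_mul]
    refine Finset.sum_congr rfl fun i _ => ?_
    rw [mul_add, add_mul, exsum_comm, exsum_comm]
  · intro y f
    rw [adM_mulVec]
    have h1 : f ⬝ᵥ adj y f = ∑ i, ((∑ x, f x * f (x * y i)) + ∑ x, f x * f (x * (y i)⁻¹)) := by
      simp only [dotProduct, adj, Finset.mul_sum, mul_add]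
      rw [Finset.sum_comm]
      refine Finset.sum_congr rfl fun i _ => ?_
      rw [Finset.sum_add_distrib]
    have h2 : f ⬝ᵥ f = ∑ x, f x ^ 2 := by
      simp only [dotProduct, sq]
    rw [h1, h2]
    calc |∑ i, ((∑ x, f x * f (x * y i)) + ∑ x, f x * f (x * (y i)⁻¹))|
        ≤ ∑ i, |(∑ x, f x * f (x * y i)) + ∑ x, f x * f (x * (y i)⁻¹)| :=
          Finset.abs_sum_le_sum_abs _ _
      _ ≤ ∑ i : Fin d, (∑ x, f x ^ 2 + ∑ x, f x ^ 2) := by
          refine Finset.sum_le_sum fun i _ => ?_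
          exact (abs_add_le _ _).trans (add_le_add (abs_corr f _) (abs_corr f _))
      _ = 2 * d * ∑ x, f x ^ 2 := by
          rw [Finset.sum_const, Finset.card_univ, Fintype.card_fin, nsmul_eq_mul]
          ring

end Pool.Agent.RCG
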