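import Pool.Agent.RCG.Targets8

set_option autoImplicit false

/-!
# RCG: AGC, union bound over the proper tails (helper67)
-/

namespace Pool.Agent.RCG

open Finset Matrix

namespace AGC_

open Classical in
theorem step (Y : Type) [Fintype Y] (gd : (j : ℕ) → (Fin j → Y) → Prop) (d : ℕ) :
    Nat.card {y : Fin (d + 1) → Y // ¬ AG gd (d + 1) y} ≤
      Fintype.card Y * (Nat.card {y : Fin d → Y // ¬ gd d y} +
        Nat.card {y : Fin d → Y // ¬ AG gd d y}) := by
  have hor : ∀ y : Fin (d + 1) → Y, ¬ AG gd (d + 1) y → gd d (Fin.tail y) →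
      ¬ AG gd d (Fin.tail y) := fun y hy hg ha => hy ⟨hg, ha⟩
  let F : {y : Fin (d + 1) → Y // ¬ AG gd (d + 1) y} →
      Y × ({y : Fin d → Y // ¬ gd d y} ⊕ {y : Fin d → Y // ¬ AG gd d y}) := fun y =>
    (y.1 0, if h : gd d (Fin.tail y.1) then Sum.inr ⟨Fin.tail y.1, hor y.1 y.2 h⟩
      else Sum.inl ⟨Fin.tail y.1, h⟩)
  have hF : Function.Injective F := by
    intro a b hab
    have h1 : a.1 0 = b.1 0 := congrArg Prod.fst hab
    have h2 := congrArg Prod.snd hab
    have h3 : Fin.tail a.1 = Fin.tail b.1 := by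
      simp only [F] at h2
      by_cases ha : gd d (Fin.tail a.1) <;> by_cases hb : gd d (Fin.tail b.1)
      · rw [dif_pos ha, dif_pos hb] at h2
        exact congrArg Subtype.val (Sum.inr_injective h2)
      · rw [dif_pos ha, dif_neg hb] at h2
        exact absurd h2 (by simp)
      · rw [dif_neg ha, dif_pos hb] at h2
        exact absurd h2 (by simp)
      · rw [dif_neg ha, dif_neg hb] at h2
        exact congrArg Subtype.val (Sum.inl_injective h2)
    refine Subtype.ext ?_
    rw [← Fin.cons_self_tail a.1, ← Fin.cons_self_tail b.1, h1, h3]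
  calc Nat.card {y : Fin (d + 1) → Y // ¬ AG gd (d + 1) y}
      ≤ Nat.card (Y × ({y : Fin d → Y // ¬ gd d y} ⊕ {y : Fin d → Y // ¬ AG gd d y})) :=
        Nat.card_le_card_of_injective F hF
    _ = _ := by rw [Nat.card_prod, Nat.card_sum, Nat.card_eq_fintype_card]

end AGC_

theorem prove_AGC : T_AGC := by
  intro Y _ gd d
  induction d with
  | zero =>
    have h : IsEmpty {y : Fin 0 → Y // ¬ AG gd 0 y} := ⟨fun y => y.2 trivial⟩
    simp
  | succ d ih =>
    refine (AGC_.step Y gd d).trans ?_
    rw [Finset.sum_range_succ, Nat.mul_add, Nat.add_comm]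
    refine Nat.add_le_add ?_ ?_
    · refine (Nat.mul_le_mul_left _ ih).trans (le_of_eq ?_)
      rw [Finset.mul_sum]
      refine Finset.sum_congr rfl fun j hj => ?_
      have hj' : j < d := Finset.mem_range.1 hj
      rw [show d + 1 - j = (d - j) + 1 by omega, pow_succ]
      ring
    · rw [show d + 1 - d = 1 by omega, pow_one, Nat.mul_comm]

end Pool.Agent.RCG
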