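import Pool.Agent.RCG.Targets7

set_option autoImplicit false

/-! # RCG: AN7: choice of the parameters -/

namespace Pool.Agent.RCG

namespace AN7_

lemma sqrt_log {k : ℝ} (hk : 8192 ≤ k) : 10 * Real.log k ≤ √k := by
  set v : ℝ := √(k / 8192) with hv
  have hv1 : 1 ≤ v := by
    rw [hv, Real.one_le_sqrt]
    rw [le_div_iff₀ (by norm_num)]
    linarith
  have hvk : k = 8192 * v ^ 2 := by
    rw [hv, Real.sq_sqrt (by positivity)]
    ring
  have h1 : Real.log k = 13 * Real.log 2 + 2 * Real.log v := by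
    rw [hvk, Real.log_mul (by norm_num) (by positivity), Real.log_pow,
      show (8192 : ℝ) = 2 ^ 13 by norm_num, Real.log_pow]
    push_cast
    ring
  have h2 : Real.log v ≤ v - 1 := Real.log_le_sub_one_of_pos (by linarith)
  have h3 : Real.log 2 < 0.6931471808 := Real.log_two_lt_d9
  have h4 : 90.5 * v ≤ √k := by
    refine Real.le_sqrt_of_sq_le ?_
    rw [hvk]
    nlinarith [sq_nonneg v]
  rw [h1]
  nlinarith

lemma nu_le {d n : ℕ} {q : ℝ} (hd : 4096 ≤ (d : ℝ)) (hn : 2 ≤ n) (hq : 0 < q)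
    (h : (2 * (d : ℝ)) ^ n ≤ √q) :
    0 ≤ nu7 d n q (32 * √(2 * (d : ℝ))) ∧ nu7 d n q (32 * √(2 * (d : ℝ))) * 16 ^ n ≤ 2 := by
  have hs : 0 < √q := Real.sqrt_pos.2 hq
  have h0 : 1 ≤ √(2 * (d : ℝ)) := by
    rw [Real.one_le_sqrt]
    linarith
  refine ⟨by unfold nu7; positivity, ?_⟩
  have h1 : (2 * (d : ℝ)) ^ n * (3 / √q) ≤ 3 := by
    rw [← mul_div_assoc, div_le_iff₀ hs]
    linarith
  have h2 : (3 : ℝ) ≤ (2 * √(2 * (d : ℝ))) ^ n := by
    calc (3 : ℝ) ≤ 2 ^ 2 := by norm_num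
      _ ≤ (2 * √(2 * (d : ℝ))) ^ 2 := by gcongr; linarith
      _ ≤ (2 * √(2 * (d : ℝ))) ^ n := pow_le_pow_right₀ (by linarith) hn
  have h3 : (32 * √(2 * (d : ℝ))) ^ n = 16 ^ n * (2 * √(2 * (d : ℝ))) ^ n := by
    rw [← mul_pow]
    congr 1
    ring
  have h4 : (0 : ℝ) < (2 * √(2 * (d : ℝ))) ^ n := by positivity
  unfold nu7
  rw [h3, div_mul_eq_mul_div, div_le_iff₀ (by positivity)]
  have h5 : (0 : ℝ) < 16 ^ n := by positivity
  nlinarith

end AN7_

theorem prove_AN7 : T_AN7 := by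
  intro d hd
  have hdR : (4096 : ℝ) ≤ d := by exact_mod_cast hd
  set k : ℝ := 2 * (d : ℝ) with hk
  have hk1 : 8192 ≤ k := by rw [hk]; linarith
  have hsl : 10 * Real.log k ≤ √k := AN7_.sqrt_log hk1
  have hLk : 1 ≤ Real.log k := by
    have h1 : Real.exp 1 ≤ k := by
      have := Real.exp_one_lt_d9
      linarith
    have := Real.log_le_log (Real.exp_pos 1) h1
    rwa [Real.log_exp] at this
  set s : ℝ := √k with hs
  have hs1 : 10 ≤ s := by linarith
  have hss : s ^ 2 = k := Real.sq_sqrt (by linarith)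
  set η : ℝ := Real.log 16 / (2 * Real.log k) with hη
  have hlog16 : 2.77 ≤ Real.log 16 := by
    rw [show (16 : ℝ) = 2 ^ 4 by norm_num, Real.log_pow]
    have := Real.log_two_gt_d9
    push_cast
    linarith
  have hη0 : 0 < η := by
    rw [hη]
    positivity
  set c : ℝ := Real.log (512 * (d : ℝ) ^ 2) with hc
  have hc0 : 0 ≤ c := Real.log_nonneg (by nlinarith)
  have hec : Real.exp c = 512 * (d : ℝ) ^ 2 := Real.exp_log (by positivity)
  refine ⟨48 + 3 * d * Real.exp (s / 4 * c),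
    max (max 19 (k + 1)) (Real.exp (4 * Real.log k + c / η)), fun q hq => ?_⟩
  have hq1 : 19 ≤ q := le_trans (le_trans (le_max_left _ _) (le_max_left _ _)) hq
  have hq2 : k + 1 ≤ q := le_trans (le_trans (le_max_right _ _) (le_max_left _ _)) hq
  have hq3 : Real.exp (4 * Real.log k + c / η) ≤ q := le_trans (le_max_right _ _) hq
  have hq0 : 0 < q := by linarith
  refine ⟨hq1, by linarith, ?_⟩
  obtain ⟨L, rfl⟩ : ∃ L, q = Real.exp L := ⟨Real.log q, (Real.exp_log hq0).symm⟩
  have hL1 : 4 * Real.log k + c / η ≤ L := Real.exp_le_exp.1 hq3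
  have hcη : 0 ≤ c / η := by positivity
  have hL2 : 4 * Real.log k ≤ L := by linarith
  have hL3 : c ≤ η * L := by
    have : c / η ≤ L := by linarith
    rw [div_le_iff₀ hη0] at this
    linarith
  have hL0 : 0 < L := by linarith
  set m : ℕ := ⌊L / (4 * Real.log k)⌋₊ with hm
  have hm1 : (m : ℝ) ≤ L / (4 * Real.log k) := Nat.floor_le (by positivity)
  have hm2 : L / (4 * Real.log k) < m + 1 := Nat.lt_floor_add_one _
  have hm0 : 1 ≤ m := by
    rw [hm, Nat.one_le_floor_iff, le_div_iff₀ (by positivity)]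
    linarith
  rw [le_div_iff₀ (by positivity)] at hm1
  rw [div_lt_iff₀ (by positivity)] at hm2
  have hsq : √(Real.exp L) = Real.exp (L / 2) := (Real.exp_half L).symm
  have hkn : k ^ (2 * m) ≤ Real.exp (L / 2) := by
    have h1 : k ^ (2 * m) = Real.exp ((2 * m : ℕ) * Real.log k) := by
      rw [Real.exp_nat_mul, Real.exp_log (by linarith)]
    rw [h1, Real.exp_le_exp]
    push_cast
    linarith
  obtain ⟨hν0, hν1⟩ := AN7_.nu_le (n := 2 * m) hdR (by omega) (Real.exp_pos L)
    (by rw [hsq]; exact hkn)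
  rw [← hk] at hν0 hν1
  set ν : ℝ := nu7 d (2 * m) (Real.exp L) (32 * √k) with hν
  have h16 : Real.exp (η * L) ≤ 256 * 16 ^ (2 * m) := by
    have h1 : (256 : ℝ) * 16 ^ (2 * m) = Real.exp ((2 * m + 2 : ℕ) * Real.log 16) := by
      rw [Real.exp_nat_mul, Real.exp_log (by norm_num), pow_add]
      ring
    rw [h1, Real.exp_le_exp, hη]
    push_cast
    rw [div_mul_eq_mul_div, div_le_iff₀ (by positivity)]
    nlinarith
  have hνη : ν * Real.exp (η * L) ≤ 512 := by
    calc ν * Real.exp (η * L) ≤ ν * (256 * 16 ^ (2 * m)) := by gcongr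
      _ = 256 * (ν * 16 ^ (2 * m)) := by ring
      _ ≤ 256 * 2 := by gcongr
      _ = 512 := by norm_num
  refine ⟨2 * m, even_two_mul m, by omega, (η * L - c) / (8 * s), by
    apply div_nonneg <;> linarith, ?_, ?_⟩
  · -- short relations
    have h1 : ((2 * m : ℕ) : ℝ) ≤ L := by
      push_cast
      nlinarith
    have h2 : L ≤ 6 * Real.exp (L / 6) := by
      have := Real.add_one_le_exp (L / 6)
      linarith
    have h3 : Real.exp L ^ (-(1 / 3 : ℝ)) = Real.exp (-(L / 3)) := by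
      rw [← Real.exp_mul]
      congr 1
      ring
    rw [h3]
    calc 8 * ((2 * m : ℕ) : ℝ) * k ^ (2 * m) / Real.exp L
        ≤ 8 * (6 * Real.exp (L / 6)) * Real.exp (L / 2) / Real.exp L := by
          gcongr
          exact h1.trans h2
      _ = 48 * (Real.exp (L / 6) * Real.exp (L / 2) / Real.exp L) := by ring
      _ = 48 * Real.exp (-(L / 3)) := by
          rw [← Real.exp_add, ← Real.exp_sub]
          congr 2
          ring
      _ ≤ _ := by
          gcongr
          have : 0 ≤ 3 * (d : ℝ) * Real.exp (s / 4 * c) := by positivity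
          linarith
  · have h8 : √(8 * (d : ℝ)) = 2 * s := by
      rw [show 8 * (d : ℝ) = (2 * s) ^ 2 by rw [mul_pow, hss, hk]; ring]
      exact Real.sqrt_sq (by linarith)
    have hex : Real.exp ((η * L - c) / (8 * s) * (4 * √(8 * (d : ℝ)))) =
        Real.exp (η * L) / (512 * (d : ℝ) ^ 2) := by
      rw [h8, ← hec, ← Real.exp_sub]
      congr 1
      field_simp
      try ring
    have hd0 : (0 : ℝ) < d := by linarith
    have hbr : 1 + Real.exp ((η * L - c) / (8 * s) * (4 * √(8 * (d : ℝ)))) /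
        (16 * (8 * (d : ℝ))) * (8 * ν * (8 * (d : ℝ)) + 32 * (d : ℝ) ^ 2 * ν) ≤
        1 + 1 / (d : ℝ) := by
      rw [hex]
      have h1 : Real.exp (η * L) / (512 * (d : ℝ) ^ 2) / (16 * (8 * (d : ℝ))) *
          (8 * ν * (8 * (d : ℝ)) + 32 * (d : ℝ) ^ 2 * ν) =
          (ν * Real.exp (η * L)) * ((64 * d + 32 * (d : ℝ) ^ 2) / (512 * 128 * (d : ℝ) ^ 3)) := by
        field_simp
        try ring
      rw [h1]
      have h2 : (ν * Real.exp (η * L)) *
          ((64 * d + 32 * (d : ℝ) ^ 2) / (512 * 128 * (d : ℝ) ^ 3)) ≤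
          512 * ((64 * d + 32 * (d : ℝ) ^ 2) / (512 * 128 * (d : ℝ) ^ 3)) := by gcongr
      have h3 : 512 * ((64 * d + 32 * (d : ℝ) ^ 2) / (512 * 128 * (d : ℝ) ^ 3)) ≤
          1 / (d : ℝ) := by
        rw [← mul_div_assoc, div_le_div_iff₀ (by positivity) (by positivity)]
        nlinarith [mul_pos hd0 hd0, mul_pos (mul_pos hd0 hd0) hd0]
      linarith
    have hbr0 : 0 ≤ 1 + Real.exp ((η * L - c) / (8 * s) * (4 * √(8 * (d : ℝ)))) /
        (16 * (8 * (d : ℝ))) * (8 * ν * (8 * (d : ℝ)) + 32 * (d : ℝ) ^ 2 * ν) := by positivity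
    have hpow : (1 + Real.exp ((η * L - c) / (8 * s) * (4 * √(8 * (d : ℝ)))) /
        (16 * (8 * (d : ℝ))) * (8 * ν * (8 * (d : ℝ)) + 32 * (d : ℝ) ^ 2 * ν)) ^ d ≤ 3 := by
      calc _ ≤ (1 + 1 / (d : ℝ)) ^ d := pow_le_pow_left₀ hbr0 hbr d
        _ ≤ Real.exp (1 / (d : ℝ)) ^ d := by
            gcongr
            have := Real.add_one_le_exp (1 / (d : ℝ))
            linarith
        _ = Real.exp 1 := by
            rw [← Real.exp_nat_mul]
            congr 1
            field_simp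
        _ ≤ 3 := by
            have := Real.exp_one_lt_d9
            linarith
    have hexp : Real.exp (-((η * L - c) / (8 * s) * (8 * (d : ℝ) - 4 * d))) ≤
        Real.exp (s / 4 * c) * Real.exp (-(10 / 3 * L)) := by
      rw [← Real.exp_add, Real.exp_le_exp]
      have h1 : (η * L - c) / (8 * s) * (8 * (d : ℝ) - 4 * d) = s / 4 * (η * L - c) := by
        have : 8 * (d : ℝ) - 4 * d = 2 * s ^ 2 := by rw [hss, hk]; ring
        rw [this]
        field_simp
        try ring
      rw [h1]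
      have h2 : 10 / 3 ≤ s / 4 * η := by
        rw [hη, ← mul_div_assoc, le_div_iff₀ (by positivity)]
        nlinarith
      nlinarith
    have h3 : Real.exp L ^ (-(1 / 3 : ℝ)) = Real.exp (-(L / 3)) := by
      rw [← Real.exp_mul]
      congr 1
      ring
    have h4 : Real.exp L ^ (3 : ℝ) = Real.exp (L * 3) := by
      rw [← Real.exp_mul]
    rw [h3, h4]
    calc _ ≤ d * Real.exp (L * 3) * (Real.exp (s / 4 * c) * Real.exp (-(10 / 3 * L))) * 3 := by
          gcongr
      _ = 3 * d * Real.exp (s / 4 * c) * (Real.exp (L * 3) * Real.exp (-(10 / 3 * L))) := by ring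
      _ = 3 * d * Real.exp (s / 4 * c) * Real.exp (-(L / 3)) := by
          rw [← Real.exp_add]
          congr 2
          ring
      _ ≤ _ := by
          gcongr
          linarith

end Pool.Agent.RCG
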