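import Pool.Agent.RCG.Targets14

set_option autoImplicit false

/-!
# RCG: choice of the word length (ANC)
-/

namespace Pool.Agent.RCG

open Finset Matrix

/-- the choice of `n` for a general base `b > 1` -/
theorem ANC_.choice {b η C D : ℝ} (hb : 1 < b) (hη : 0 < η) (hη1 : η < 1) (hC : 0 ≤ C)
    (hD : 0 ≤ D) : ∃ P : ℝ, ∀ q : ℝ, P ≤ q → 19 ≤ q ∧ D < q ∧ ∃ n : ℕ, Even n ∧
      8 * n * b ^ n / q ≤ q ^ (-(η / 2)) ∧ C / q * b ^ n ≤ 1 ∧ q ^ (1 - η) ≤ b ^ (n + 2) := by
  have hb0 : 0 < b := by linarith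
  set a : ℝ := Real.log b with ha
  have ha0 : 0 < a := Real.log_pos hb
  set P0 : ℝ := 64 / (a * η ^ 2) + C / η + 19 + D with hP0
  refine ⟨Real.exp P0, fun q hq => ?_⟩
  have h64 : 0 < 64 / (a * η ^ 2) := by positivity
  have hCη : 0 ≤ C / η := by positivity
  have hq0 : 0 < q := lt_of_lt_of_le (Real.exp_pos _) hq
  have hqP : P0 + 1 ≤ q := (Real.add_one_le_exp P0).trans hq
  set L : ℝ := Real.log q with hL
  have hLP : P0 ≤ L := by
    rw [hL, Real.le_log_iff_exp_le hq0]
    exact hq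
  have hL0 : 0 < L := by linarith
  have hqL : Real.exp L = q := Real.exp_log hq0
  set m : ℕ := ⌊(1 - η) * L / (2 * a)⌋₊ with hm
  have h1η : 0 < 1 - η := by linarith
  have hm1 : (m : ℝ) ≤ (1 - η) * L / (2 * a) := Nat.floor_le (by positivity)
  have hm2 : (1 - η) * L / (2 * a) < m + 1 := Nat.lt_floor_add_one _
  rw [le_div_iff₀ (by positivity)] at hm1
  rw [div_lt_iff₀ (by positivity)] at hm2
  have hpow : ∀ j : ℕ, b ^ j = Real.exp ((j : ℝ) * a) := by
    intro j
    rw [Real.exp_nat_mul, ha, Real.exp_log hb0]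
  have hbn : b ^ (2 * m) ≤ Real.exp ((1 - η) * L) := by
    rw [hpow]
    refine Real.exp_le_exp.mpr ?_
    push_cast
    linarith
  have hq' : b ^ (2 * m) / q ≤ Real.exp (-(η * L)) := by
    rw [div_le_iff₀ hq0]
    calc b ^ (2 * m) ≤ Real.exp ((1 - η) * L) := hbn
      _ = Real.exp (-(η * L)) * q := by
          rw [← hqL, ← Real.exp_add]
          congr 1
          ring
  refine ⟨by linarith, by linarith, 2 * m, ⟨m, by ring⟩, ?_, ?_, ?_⟩
  · have h2 : q ^ (-(η / 2)) = Real.exp (-(η * L / 2)) := by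
      rw [Real.rpow_def_of_pos hq0]
      congr 1
      ring
    have h3 : 8 * ((2 * m : ℕ) : ℝ) ≤ Real.exp (η * L / 2) := by
      have e1 : ((2 * m : ℕ) : ℝ) ≤ L / a := by
        rw [le_div_iff₀ ha0]
        push_cast
        have : 0 ≤ η * L := by positivity
        linarith
      have e2 : 1 + η * L / 2 + (η * L / 2) ^ 2 / 2 ≤ Real.exp (η * L / 2) :=
        Real.quadratic_le_exp_of_nonneg (by positivity)
      have e3 : 8 * (L / a) ≤ (η * L / 2) ^ 2 / 2 := by
        have e4 : 64 / (a * η ^ 2) ≤ L := by linarith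
        have e5 : 64 / (a * η ^ 2) * (η ^ 2 * L / 8) ≤ L * (η ^ 2 * L / 8) :=
          mul_le_mul_of_nonneg_right e4 (by positivity)
        have e6 : 64 / (a * η ^ 2) * (η ^ 2 * L / 8) = 8 * (L / a) := by
          field_simp
          norm_num
        have e7 : L * (η ^ 2 * L / 8) = (η * L / 2) ^ 2 / 2 := by ring
        linarith
      have e8 : 0 ≤ η * L / 2 := by positivity
      linarith
    rw [h2]
    calc 8 * ((2 * m : ℕ) : ℝ) * b ^ (2 * m) / q
        = 8 * ((2 * m : ℕ) : ℝ) * (b ^ (2 * m) / q) := by ring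
      _ ≤ Real.exp (η * L / 2) * Real.exp (-(η * L)) :=
          mul_le_mul h3 hq' (by positivity) (Real.exp_pos _).le
      _ = Real.exp (-(η * L / 2)) := by
          rw [← Real.exp_add]
          congr 1
          ring
  · have h4 : C ≤ Real.exp (η * L) := by
      have e1 : C / η ≤ L := by linarith
      rw [div_le_iff₀ hη] at e1
      have e2 := Real.add_one_le_exp (η * L)
      linarith
    calc C / q * b ^ (2 * m) = C * (b ^ (2 * m) / q) := by ring
      _ ≤ Real.exp (η * L) * Real.exp (-(η * L)) :=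
          mul_le_mul h4 hq' (by positivity) (Real.exp_pos _).le
      _ = 1 := by
          rw [← Real.exp_add, add_neg_cancel, Real.exp_zero]
  · rw [Real.rpow_def_of_pos hq0, hpow]
    refine Real.exp_le_exp.mpr ?_
    push_cast
    linarith

theorem prove_ANC : T_ANC := by
  intro d η C hd hη hη1 hC
  have hd' : (2 : ℝ) ≤ d := by exact_mod_cast hd
  have hb : 1 < 2 * (d : ℝ) / (2 * √(2 * (d : ℝ) - 1)) := by
    have hs : 0 < √(2 * (d : ℝ) - 1) := Real.sqrt_pos.mpr (by linarith)
    rw [one_lt_div (by positivity)]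
    have h1 : √(2 * (d : ℝ) - 1) < d := by
      rw [Real.sqrt_lt' (by linarith)]
      nlinarith
    linarith
  exact ANC_.choice hb hη hη1 hC (by positivity)

end Pool.Agent.RCG
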