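import Pool.Agent.RCG.Targets14

set_option autoImplicit false

/-!
# RCG14-ANT: the exponent for every `θ` (real analysis)
-/

namespace Pool.Agent.RCG

/-- T_ANT. -/
theorem prove_ANT : T_ANT := by
  intro d n η q θ hd hq hθ0 hθ1 h
  have hk : (4 : ℝ) ≤ 2 * (d : ℝ) := by
    have : (2 : ℝ) ≤ (d : ℝ) := by exact_mod_cast hd
    linarith
  set k : ℝ := 2 * (d : ℝ) with hkdef
  have hk0 : 0 < k := by linarith
  have hk1 : 0 < k - 1 := by linarith
  set r : ℝ := 2 * √(k - 1) with hr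
  have hr0 : 0 < r := by
    have := Real.sqrt_pos.2 hk1
    positivity
  have hr2 : r ^ 2 = 4 * (k - 1) := by
    rw [hr, mul_pow, Real.sq_sqrt hk1.le]
    norm_num
  set B : ℝ := k / r with hB
  have hB0 : 0 < B := div_pos hk0 hr0
  have hB2 : B ^ 2 ≤ k / 3 := by
    rw [hB, div_pow, hr2, div_le_div_iff₀ (by linarith) (by norm_num)]
    nlinarith
  set X : ℝ := B ^ θ with hX
  have hX0 : 0 < X := Real.rpow_pos_of_pos hB0 θ
  have h1 : k ^ θ * r ^ (1 - θ) = r * X := by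
    rw [hX, hB, Real.div_rpow hk0.le hr0.le, Real.rpow_sub hr0, Real.rpow_one]
    ring
  have h3 : (B ^ (n + 2)) ^ θ = X ^ (n + 2) := by
    rw [hX, ← Real.rpow_natCast, ← Real.rpow_natCast, ← Real.rpow_mul hB0.le,
      ← Real.rpow_mul hB0.le, mul_comm]
  have h4 : q ^ ((1 - η) * θ) ≤ X ^ (n + 2) := by
    rw [← h3, Real.rpow_mul hq.le]
    exact Real.rpow_le_rpow (Real.rpow_nonneg hq.le _) h hθ0
  have h5 : X ^ 2 ≤ k / 3 := by
    have e : X ^ 2 = (B ^ 2) ^ θ := by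
      rw [hX, ← Real.rpow_natCast, ← Real.rpow_natCast, ← Real.rpow_mul hB0.le,
        ← Real.rpow_mul hB0.le, mul_comm]
    rw [e]
    calc (B ^ 2) ^ θ ≤ (k / 3) ^ θ := Real.rpow_le_rpow (by positivity) hB2 hθ0
      _ ≤ (k / 3) ^ (1 : ℝ) := Real.rpow_le_rpow_of_exponent_le (by linarith) hθ1
      _ = k / 3 := Real.rpow_one _
  have hq0 : 0 < q ^ ((1 - η) * θ) := Real.rpow_pos_of_pos hq _
  have hXn : 0 < X ^ n := pow_pos hX0 n
  have hrn : 0 < r ^ n := pow_pos hr0 n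
  rw [h1, mul_pow r X n, Real.rpow_neg hq.le, ← div_eq_mul_inv, div_le_div_iff₀ (by positivity) hq0]
  have h6 : 3 * q ^ ((1 - η) * θ) ≤ k * X ^ n := by
    calc 3 * q ^ ((1 - η) * θ) ≤ 3 * X ^ (n + 2) := by linarith
      _ = (3 * X ^ 2) * X ^ n := by ring
      _ ≤ k * X ^ n := mul_le_mul_of_nonneg_right (by linarith) hXn.le
  calc 3 * r ^ n * q ^ ((1 - η) * θ) = r ^ n * (3 * q ^ ((1 - η) * θ)) := by ring
    _ ≤ r ^ n * (k * X ^ n) := mul_le_mul_of_nonneg_left h6 hrn.le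
    _ = k * (r ^ n * X ^ n) := by ring

end Pool.Agent.RCG
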