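import Pool.Agent.RCG.Targets15

set_option autoImplicit false

/-!
# RCG15-ANU: the exponent for every `θ` (real analysis)
-/

namespace Pool.Agent.RCG

/-- T_ANU. -/
theorem prove_ANU : T_ANU := by
  intro d n η x θ hd hx hθ0 hθ1 h
  have hd2 : (2 : ℝ) ≤ (d : ℝ) := by exact_mod_cast hd
  set q : ℝ := 2 * (d : ℝ) - 1 with hq
  have hq3 : 3 ≤ q := by linarith
  have hq0 : 0 < q := by linarith
  set X : ℝ := q ^ θ with hX
  have hX0 : 0 < X := Real.rpow_pos_of_pos hq0 θ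
  have h1 : (q ^ ((1 + θ) / 2)) ^ (2 * n) = q ^ n * X ^ n := by
    rw [pow_mul, ← mul_pow]
    congr 1
    rw [hX, sq, ← Real.rpow_add hq0]
    rw [show (1 + θ) / 2 + (1 + θ) / 2 = 1 + θ by ring, Real.rpow_add hq0, Real.rpow_one]
  have h2 : (q ^ (n + 1)) ^ θ = X ^ (n + 1) := by
    rw [hX, ← Real.rpow_natCast, ← Real.rpow_natCast, ← Real.rpow_mul hq0.le,
      ← Real.rpow_mul hq0.le, mul_comm]
  have h3 : x ^ ((1 - η) * θ) ≤ X ^ (n + 1) := by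
    rw [← h2, Real.rpow_mul hx.le]
    exact Real.rpow_le_rpow (Real.rpow_nonneg hx.le _) h hθ0
  have h4 : X ≤ q := by
    calc X ≤ q ^ (1 : ℝ) := Real.rpow_le_rpow_of_exponent_le (by linarith) hθ1
      _ = q := Real.rpow_one _
  have hx0 : 0 < x ^ ((1 - η) * θ) := Real.rpow_pos_of_pos hx _
  have hXn : 0 < X ^ n := pow_pos hX0 n
  have hqn : 0 < q ^ n := pow_pos hq0 n
  rw [h1, Real.rpow_neg hx.le, ← div_eq_mul_inv, div_le_div_iff₀ (by positivity) hx0]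
  have h5 : 7 / 2 * x ^ ((1 - η) * θ) ≤ 8 * (d : ℝ) * X ^ n := by
    calc 7 / 2 * x ^ ((1 - η) * θ) ≤ 7 / 2 * X ^ (n + 1) := by linarith
      _ = (7 / 2 * X) * X ^ n := by ring
      _ ≤ (8 * (d : ℝ)) * X ^ n := mul_le_mul_of_nonneg_right (by linarith) hXn.le
  calc 7 / 2 * q ^ n * x ^ ((1 - η) * θ) = q ^ n * (7 / 2 * x ^ ((1 - η) * θ)) := by ring
    _ ≤ q ^ n * (8 * (d : ℝ) * X ^ n) := mul_le_mul_of_nonneg_left h5 hqn.le
    _ = 8 * (d : ℝ) * (q ^ n * X ^ n) := by ring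

end Pool.Agent.RCG
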