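import Pool.Agent.RCG.Targets

set_option autoImplicit false

/-!
# RCG: the tail bound of Ahlswede and Winter (AW)
-/

namespace Pool.Agent.RCG

open Finset Matrix

namespace AW_

variable {ι : Type} [Fintype ι] [DecidableEq ι]

/-- the spectral decomposition of a real symmetric matrix -/
theorem spec (S : Matrix ι ι ℝ) (hS : S.IsHermitian) :
    ∃ (U : (Matrix ι ι ℝ)ˣ) (e : ι → ℝ), S = U * diagonal e * (U⁻¹ : (Matrix ι ι ℝ)ˣ) ∧
      ((U⁻¹ : (Matrix ι ι ℝ)ˣ) : Matrix ι ι ℝ) = (U : Matrix ι ι ℝ)ᵀ := by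
  refine ⟨Unitary.toUnits hS.eigenvectorUnitary, hS.eigenvalues, ?_, ?_⟩
  · have h := hS.spectral_theorem
    rw [Unitary.conjStarAlgAut_apply] at h
    exact h
  · have h : ((((Unitary.toUnits hS.eigenvectorUnitary)⁻¹ : (Matrix ι ι ℝ)ˣ)) : Matrix ι ι ℝ) =
        star (hS.eigenvectorUnitary : Matrix ι ι ℝ) := rfl
    rw [h, star_eq_conjTranspose, conjTranspose_eq_transpose_of_trivial]
    rfl

theorem trace_exp (S : Matrix ι ι ℝ) (l : ℝ) (U : (Matrix ι ι ℝ)ˣ) (e : ι → ℝ)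
    (h : S = U * diagonal e * (U⁻¹ : (Matrix ι ι ℝ)ˣ)) :
    (NormedSpace.exp (l • S)).trace = ∑ i, Real.exp (l * e i) := by
  have h1 : l • S = U * diagonal (l • e) * (U⁻¹ : (Matrix ι ι ℝ)ˣ) := by
    rw [h, diagonal_smul]
    simp [Matrix.smul_mul]
  rw [h1, Matrix.exp_units_conj, Matrix.trace_mul_comm, ← Matrix.mul_assoc]
  rw [Units.inv_mul, Matrix.one_mul, Matrix.exp_diagonal, Matrix.trace_diagonal]
  refine Finset.sum_congr rfl fun i _ => ?_
  rw [Pi.coe_exp, Real.exp_eq_exp_ℝ]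
  rfl

theorem rayleigh (S : Matrix ι ι ℝ) (U : (Matrix ι ι ℝ)ˣ) (e : ι → ℝ)
    (h : S = U * diagonal e * (U⁻¹ : (Matrix ι ι ℝ)ˣ))
    (hU : ((U⁻¹ : (Matrix ι ι ℝ)ˣ) : Matrix ι ι ℝ) = (U : Matrix ι ι ℝ)ᵀ) (u : ℝ)
    (he : ∀ i, e i ≤ u) (v : ι → ℝ) : v ⬝ᵥ S *ᵥ v ≤ u * (v ⬝ᵥ v) := by
  set w : ι → ℝ := (U : Matrix ι ι ℝ)ᵀ *ᵥ v with hw
  have h1 : v ⬝ᵥ S *ᵥ v = ∑ i, e i * w i ^ 2 := by
    rw [h, hU, ← Matrix.mulVec_mulVec, ← Matrix.mulVec_mulVec, ← hw, Matrix.dotProduct_mulVec,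
      ← Matrix.mulVec_transpose, ← hw]
    unfold dotProduct
    refine Finset.sum_congr rfl fun i _ => ?_
    rw [Matrix.mulVec_diagonal]
    ring
  have h2 : v ⬝ᵥ v = ∑ i, w i ^ 2 := by
    have h3 : (U : Matrix ι ι ℝ) * (U : Matrix ι ι ℝ)ᵀ = 1 := by
      rw [← hU]
      exact Units.mul_inv U
    have h4 : v = (U : Matrix ι ι ℝ) *ᵥ w := by
      rw [hw, Matrix.mulVec_mulVec, h3, Matrix.one_mulVec]
    have h5 : v ⬝ᵥ v = v ⬝ᵥ ((U : Matrix ι ι ℝ) *ᵥ w) := by rw [← h4]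
    rw [h5, Matrix.dotProduct_mulVec, ← Matrix.mulVec_transpose, ← hw]
    unfold dotProduct
    exact Finset.sum_congr rfl fun i _ => (sq _).symm
  rw [h1, h2, Finset.mul_sum]
  exact Finset.sum_le_sum fun i _ => mul_le_mul_of_nonneg_right (he i) (sq_nonneg _)

theorem tr_large (S : Matrix ι ι ℝ) (hS : S.IsHermitian) (l u : ℝ) (hl : 0 ≤ l)
    (h : ¬ ∀ v : ι → ℝ, v ⬝ᵥ S *ᵥ v ≤ u * (v ⬝ᵥ v)) :
    Real.exp (l * u) ≤ (NormedSpace.exp (l • S)).trace := by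
  obtain ⟨U, e, h1, h2⟩ := spec S hS
  rw [trace_exp S l U e h1]
  have h3 : ∃ i, u < e i := by
    by_contra h4
    push Not at h4
    exact h fun v => rayleigh S U e h1 h2 u h4 v
  obtain ⟨i, hi⟩ := h3
  refine le_trans (Real.exp_le_exp.2 (mul_le_mul_of_nonneg_left hi.le hl)) ?_
  exact Finset.single_le_sum (f := fun i => Real.exp (l * e i))
    (fun j _ => (Real.exp_pos _).le) (Finset.mem_univ i)

theorem tr_nonneg (S : Matrix ι ι ℝ) (hS : S.IsHermitian) (l : ℝ) :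
    0 ≤ (NormedSpace.exp (l • S)).trace := by
  obtain ⟨U, e, h1, _⟩ := spec S hS
  rw [trace_exp S l U e h1]
  exact Finset.sum_nonneg fun i _ => (Real.exp_pos _).le

end AW_

open AW_ in
theorem prove_AW (h1 : T_AWS) : T_AW := by
  intro ι Y _ _ _ P τ hτ hH hP hb s u hs hu
  classical
  have hs' : (1 : ℝ) ≤ s := by exact_mod_cast hs
  have hst : 0 < (s : ℝ) * τ := by positivity
  set x : ℝ := 1 / (s * τ) with hx
  have hx0 : 0 < x := by positivity
  set l : ℝ := Real.log (1 + x) with hl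
  have hl0 : 0 ≤ l := Real.log_nonneg (by linarith)
  have hel : Real.exp l = 1 + x := Real.exp_log (by linarith)
  have hA := h1 ι Y P τ l hτ.le hl0 hH hP hb s
  rw [hel] at hA
  have hx1 : 1 + (1 + x - 1) * τ = 1 + 1 / (s : ℝ) := by
    rw [hx]
    field_simp
    ring
  rw [hx1] at hA
  have hexp : (1 + 1 / (s : ℝ)) ^ s ≤ Real.exp 1 := by
    have h2 : 1 + 1 / (s : ℝ) ≤ Real.exp (1 / s) := by
      have := Real.add_one_le_exp (1 / (s : ℝ))
      linarith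
    calc (1 + 1 / (s : ℝ)) ^ s ≤ (Real.exp (1 / s)) ^ s :=
          pow_le_pow_left₀ (by positivity) h2 s
      _ = Real.exp 1 := by
          rw [← Real.exp_nat_mul]
          congr 1
          field_simp
  have hherm : ∀ z : Fin s → Y, (∑ g, P (z g)).IsHermitian := by
    intro z
    unfold Matrix.IsHermitian
    rw [conjTranspose_sum]
    exact Finset.sum_congr rfl fun g _ => hH (z g)
  set bad : Finset (Fin s → Y) := Finset.univ.filter fun z => ¬ ∀ v : ι → ℝ,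
    v ⬝ᵥ (∑ g, P (z g)) *ᵥ v ≤ u * (v ⬝ᵥ v) with hbad
  have hcard : (Nat.card {z : Fin s → Y // ¬ ∀ v : ι → ℝ,
      v ⬝ᵥ (∑ g, P (z g)) *ᵥ v ≤ u * (v ⬝ᵥ v)} : ℝ) = (bad.card : ℝ) := by
    rw [Nat.card_eq_fintype_card, Fintype.card_subtype]
  rw [hcard]
  have h2 : (bad.card : ℝ) * Real.exp (l * u) ≤
      ∑ z : Fin s → Y, (NormedSpace.exp (l • ∑ g, P (z g))).trace := by
    calc (bad.card : ℝ) * Real.exp (l * u) = ∑ _z ∈ bad, Real.exp (l * u) := by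
          rw [Finset.sum_const, nsmul_eq_mul]
      _ ≤ ∑ z ∈ bad, (NormedSpace.exp (l • ∑ g, P (z g))).trace := by
          refine Finset.sum_le_sum fun z hz => ?_
          rw [hbad, Finset.mem_filter] at hz
          exact tr_large _ (hherm z) l u hl0 hz.2
      _ ≤ _ := Finset.sum_le_sum_of_subset_of_nonneg (Finset.subset_univ _)
          fun z _ _ => tr_nonneg _ (hherm z) l
  have h3 : (x : ℝ) ^ u ≤ Real.exp (l * u) := by
    rw [hl, Real.exp_mul, Real.exp_log (by linarith)]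
    exact Real.rpow_le_rpow hx0.le (by linarith) hu.le
  have h4 : x ^ u * (s * τ) ^ u = 1 := by
    rw [← Real.mul_rpow hx0.le hst.le, hx, one_div, inv_mul_cancel₀ hst.ne', Real.one_rpow]
  have h5 : (bad.card : ℝ) * x ^ u ≤
      (Fintype.card Y : ℝ) ^ s * Fintype.card ι * Real.exp 1 := by
    refine (mul_le_mul_of_nonneg_left h3 (Nat.cast_nonneg _)).trans (h2.trans (hA.trans ?_))
    exact mul_le_mul_of_nonneg_left hexp (by positivity)
  have h6 : 0 < (s * τ : ℝ) ^ u := Real.rpow_pos_of_pos hst u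
  calc (bad.card : ℝ) = (bad.card : ℝ) * x ^ u * (s * τ) ^ u := by
        rw [mul_assoc, h4, mul_one]
    _ ≤ (Fintype.card Y : ℝ) ^ s * Fintype.card ι * Real.exp 1 * (s * τ) ^ u :=
        mul_le_mul_of_nonneg_right h5 h6.le
    _ = Real.exp 1 * Fintype.card ι * (s * τ) ^ u * (Fintype.card Y : ℝ) ^ s := by ring

end Pool.Agent.RCG
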