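import Pool.Agent.RCG.Targets

set_option autoImplicit false

/-!
# AWS: the Ahlswede-Winter step
-/

namespace Pool.Agent.RCG

open Finset Matrix

namespace AWS_

variable {ι : Type} [Fintype ι] [DecidableEq ι]

lemma half (H : Matrix ι ι ℝ) (hH : H.IsHermitian) :
    ∃ R : Matrix ι ι ℝ, R.IsHermitian ∧ R * R = NormedSpace.exp H := by
  have h1 : ((1 / 2 : ℝ) • H).IsHermitian := by
    unfold Matrix.IsHermitian
    rw [Matrix.conjTranspose_smul, hH.eq]
    simp
  refine ⟨NormedSpace.exp ((1 / 2 : ℝ) • H), h1.exp, ?_⟩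
  rw [← Matrix.exp_add_of_commute _ _ (Commute.refl _), ← add_smul]
  norm_num

lemma tr_le (R S : Matrix ι ι ℝ) (hR : R.IsHermitian) (c : ℝ)
    (hS : ∀ v : ι → ℝ, v ⬝ᵥ S *ᵥ v ≤ c * (v ⬝ᵥ v)) :
    (R * R * S).trace ≤ c * (R * R).trace := by
  have hs : ∀ i j, R i j = R j i := by
    intro i j
    have := hR.apply i j
    simpa using this.symm
  have key : ∀ S' : Matrix ι ι ℝ, (R * S' * R).trace =
      ∑ i, (fun j => R j i) ⬝ᵥ S' *ᵥ (fun j => R j i) := by
    intro S'
    refine Finset.sum_congr rfl fun i _ => ?_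
    rw [Matrix.dotProduct_mulVec]
    show (R * S' * R) i i = _
    rw [Matrix.mul_apply]
    refine Finset.sum_congr rfl fun k _ => ?_
    rw [Matrix.mul_apply]
    congr 1
    refine Finset.sum_congr rfl fun j _ => ?_
    rw [hs i j]
  have h1 : (R * R * S).trace = (R * S * R).trace := by
    rw [Matrix.mul_assoc, Matrix.trace_mul_comm]
  have h2 : (R * R).trace = (R * 1 * R).trace := by rw [Matrix.mul_one]
  rw [h1, h2, key, key, Finset.mul_sum]
  refine Finset.sum_le_sum fun i _ => ?_
  rw [Matrix.one_mulVec]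
  exact hS _

lemma exp_proj (P : Matrix ι ι ℝ) (hP : P * P = P) (l : ℝ) :
    NormedSpace.exp (l • P) = 1 + (Real.exp l - 1) • P := by
  have hpow : ∀ n : ℕ, P ^ (n + 1) = P := fun n => IsIdempotentElem.pow_succ_eq n hP
  have h1 : HasSum (fun n : ℕ => (l ^ n / (n.factorial : ℝ)) • P) (Real.exp l • P) := by
    have := NormedSpace.expSeries_div_hasSum_exp l
    rw [← Real.exp_eq_exp_ℝ] at this
    exact this.smul_const P
  have h2 : HasSum (fun n : ℕ => if n = 0 then 1 - P else 0) (1 - P) := hasSum_ite_eq 0 (1 - P)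
  have h3 := h2.add h1
  have h4 : (fun n : ℕ => (if n = 0 then 1 - P else 0) + (l ^ n / (n.factorial : ℝ)) • P) =
      fun n : ℕ => ((n.factorial : ℝ)⁻¹) • (l • P) ^ n := by
    funext n
    cases n with
    | zero => simp
    | succ n =>
      rw [smul_pow, hpow n, smul_smul, if_neg (Nat.succ_ne_zero n), zero_add, div_eq_inv_mul]
  rw [h4] at h3
  rw [NormedSpace.exp_eq_tsum ℝ]
  show ∑' n : ℕ, ((n.factorial : ℝ)⁻¹) • (l • P) ^ n = _
  rw [h3.tsum_eq, sub_smul, one_smul]
  abel

lemma herm_sum {Y : Type} [Fintype Y] (P : Y → Matrix ι ι ℝ) (hP : ∀ y, (P y).IsHermitian) (l : ℝ)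
    (s : ℕ) (z : Fin s → Y) : (l • ∑ g, P (z g)).IsHermitian := by
  unfold Matrix.IsHermitian
  rw [Matrix.conjTranspose_smul, Matrix.conjTranspose_sum]
  simp only [(hP _).eq]
  simp

end AWS_

open AWS_ in
theorem prove_AWS (h1 : T_GT) : T_AWS := by
  intro ι Y _ _ _ P τ l hτ hl hH hP hQ s
  have hc : 0 ≤ (Fintype.card Y : ℝ) := Nat.cast_nonneg _
  have hel : 0 ≤ Real.exp l - 1 := by
    have := Real.add_one_le_exp l
    linarith
  induction s with
  | zero =>
    simp [Matrix.trace_one]
  | succ s ih =>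
    have hstep : ∀ z : Fin s → Y, ∑ y, (NormedSpace.exp (l • ∑ g, P ((Fin.cons y z : Fin (s + 1) → Y) g))).trace ≤
        (Fintype.card Y : ℝ) * (1 + (Real.exp l - 1) * τ) *
          (NormedSpace.exp (l • ∑ g, P (z g))).trace := by
      intro z
      have hHz := herm_sum P hH l s z
      obtain ⟨R, hR, hRR⟩ := half _ hHz
      have e1 : ∀ y, (NormedSpace.exp (l • ∑ g, P ((Fin.cons y z : Fin (s + 1) → Y) g))).trace ≤
          (R * R).trace + (Real.exp l - 1) * (R * R * P y).trace := by
        intro y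
        have e2 : l • ∑ g, P ((Fin.cons y z : Fin (s + 1) → Y) g) =
            (l • ∑ g, P (z g)) + l • P y := by
          rw [Fin.sum_univ_succ, smul_add, add_comm]
          simp
        have hPy : (l • P y).IsHermitian := by
          unfold Matrix.IsHermitian
          rw [Matrix.conjTranspose_smul, (hH y).eq]
          simp
        rw [e2]
        refine (h1 ι _ _ hHz hPy).trans_eq ?_
        rw [exp_proj (P y) (hP y) l, ← hRR, Matrix.mul_add, Matrix.mul_one, Matrix.mul_smul,
          Matrix.trace_add, Matrix.trace_smul, smul_eq_mul]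
      have e3 : ∑ y, (R * R * P y).trace = (R * R * ∑ y, P y).trace := by
        rw [Matrix.mul_sum, Matrix.trace_sum]
      have e4 : (R * R * ∑ y, P y).trace ≤ (Fintype.card Y * τ) * (R * R).trace := by
        refine tr_le R _ hR _ fun v => ?_
        rw [Matrix.sum_mulVec, dotProduct_sum]
        exact hQ v
      calc ∑ y, (NormedSpace.exp (l • ∑ g, P ((Fin.cons y z : Fin (s + 1) → Y) g))).trace
          ≤ ∑ y, ((R * R).trace + (Real.exp l - 1) * (R * R * P y).trace) :=
            Finset.sum_le_sum fun y _ => e1 y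
        _ = (Fintype.card Y : ℝ) * (R * R).trace +
            (Real.exp l - 1) * (R * R * ∑ y, P y).trace := by
            rw [Finset.sum_add_distrib, Finset.sum_const, Finset.card_univ, nsmul_eq_mul,
              ← Finset.mul_sum, e3]
        _ ≤ (Fintype.card Y : ℝ) * (R * R).trace +
            (Real.exp l - 1) * ((Fintype.card Y * τ) * (R * R).trace) :=
            add_le_add_right (mul_le_mul_of_nonneg_left e4 hel) _
        _ = (Fintype.card Y : ℝ) * (1 + (Real.exp l - 1) * τ) *
              (NormedSpace.exp (l • ∑ g, P (z g))).trace := by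
            rw [← hRR]
            ring
    calc ∑ z : Fin (s + 1) → Y, (NormedSpace.exp (l • ∑ g, P (z g))).trace
        = ∑ p : Y × (Fin s → Y), (NormedSpace.exp (l • ∑ g, P
            ((Fin.cons p.1 p.2 : Fin (s + 1) → Y) g))).trace := by
          refine (Fintype.sum_equiv (Fin.consEquiv fun _ => Y) _ _ fun p => ?_).symm
          rfl
      _ = ∑ z : Fin s → Y, ∑ y, (NormedSpace.exp (l • ∑ g, P
            ((Fin.cons y z : Fin (s + 1) → Y) g))).trace := by
          rw [Fintype.sum_prod_type_right]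
      _ ≤ ∑ z : Fin s → Y, (Fintype.card Y : ℝ) * (1 + (Real.exp l - 1) * τ) *
          (NormedSpace.exp (l • ∑ g, P (z g))).trace := Finset.sum_le_sum fun z _ => hstep z
      _ = (Fintype.card Y : ℝ) * (1 + (Real.exp l - 1) * τ) *
          ∑ z : Fin s → Y, (NormedSpace.exp (l • ∑ g, P (z g))).trace := by
          rw [Finset.mul_sum]
      _ ≤ (Fintype.card Y : ℝ) * (1 + (Real.exp l - 1) * τ) *
          ((Fintype.card Y : ℝ) ^ s * Fintype.card ι * (1 + (Real.exp l - 1) * τ) ^ s) :=
          mul_le_mul_of_nonneg_left ih (mul_nonneg hc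
            (by have := mul_nonneg hel hτ; linarith))
      _ = (Fintype.card Y : ℝ) ^ (s + 1) * Fintype.card ι *
          (1 + (Real.exp l - 1) * τ) ^ (s + 1) := by ring

end Pool.Agent.RCG
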