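import Pool.Agent.RCG.Targets

set_option autoImplicit false

/-! RCG-ELE: elementary properties. -/

namespace Pool.Agent.RCG

open Finset

namespace ELE_

variable {G : Type} [Group G] [Fintype G]

theorem shift_sq (g : G) (f : G → ℝ) : ∑ x, f (x * g) ^ 2 = ∑ x, f x ^ 2 :=
  Equiv.sum_comp (Equiv.mulRight g) (fun x => f x ^ 2)

theorem cross (g : G) (f : G → ℝ) : |∑ x, f x * f (x * g)| ≤ ∑ x, f x ^ 2 := by
  refine le_trans (Finset.abs_sum_le_sum_abs _ _) ?_
  have h : ∀ x ∈ (univ : Finset G), |f x * f (x * g)| ≤ (f x ^ 2 + f (x * g) ^ 2) / 2 := by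
    intro x _
    rw [abs_mul, ← sq_abs (f x), ← sq_abs (f (x * g))]
    nlinarith [sq_nonneg (|f x| - |f (x * g)|)]
  refine le_trans (Finset.sum_le_sum h) ?_
  rw [← Finset.sum_div, Finset.sum_add_distrib, shift_sq]
  linarith

theorem form_eq {d : ℕ} (y : Fin d → G) (f : G → ℝ) : ∑ x, f x * adj y f x =
    ∑ i, (∑ x, f x * f (x * y i) + ∑ x, f x * f (x * (y i)⁻¹)) := by
  unfold adj
  simp only [Finset.mul_sum, mul_add, Finset.sum_add_distrib]
  rw [Finset.sum_comm, Finset.sum_comm (f := fun x i => f x * f (x * (y i)⁻¹))]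

theorem bound {d : ℕ} (y : Fin d → G) (f : G → ℝ) :
    |∑ x, f x * adj y f x| ≤ 2 * d * ∑ x, f x ^ 2 := by
  rw [form_eq]
  refine le_trans (Finset.abs_sum_le_sum_abs _ _) ?_
  have h : ∀ i ∈ (univ : Finset (Fin d)),
      |∑ x, f x * f (x * y i) + ∑ x, f x * f (x * (y i)⁻¹)| ≤ 2 * ∑ x, f x ^ 2 := by
    intro i _
    refine le_trans (abs_add_le _ _) ?_
    have h1 := cross (y i) f
    have h2 := cross (y i)⁻¹ f
    linarith
  refine le_trans (Finset.sum_le_sum h) ?_
  rw [Finset.sum_const, Finset.card_univ, Fintype.card_fin, nsmul_eq_mul]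
  refine le_of_eq ?_
  ring

theorem QB_mono {d : ℕ} {y : Fin d → G} {B B' : ℝ} (hB : B ≤ B') (h : QB y B) : QB y B' := by
  intro f hf
  exact le_trans (h f hf) (mul_le_mul_of_nonneg_right hB (Finset.sum_nonneg fun x _ => sq_nonneg _))

theorem QB_all {d : ℕ} (y : Fin d → G) : QB y (2 * d) := fun f _ => bound y f

theorem bad_mono {d : ℕ} {B B' : ℝ} (hB : B ≤ B') : badCard G d B' ≤ badCard G d B := by
  unfold badCard
  exact Nat.card_le_card_of_injective
    (fun y : {y : Fin d → G // ¬ QB y B'} =>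
      (⟨y.1, fun h => y.2 (QB_mono hB h)⟩ : {y : Fin d → G // ¬ QB y B}))
    (fun a b h => Subtype.ext (by
      have h2 := congrArg (fun z => z.1) h
      exact h2))

theorem bad_zero (d : ℕ) : badCard G d (2 * d) = 0 := by
  unfold badCard
  have : IsEmpty {y : Fin d → G // ¬ QB y (2 * d)} := ⟨fun y => y.2 (QB_all y.1)⟩
  exact Nat.card_of_isEmpty

omit [Fintype G] in
theorem adj_split {d r : ℕ} (y : Fin (d + r) → G) (f : G → ℝ) (x : G) :
    adj y f x = adj (fun i => y (Fin.castAdd r i)) f x + adj (fun i => y (Fin.natAdd d i)) f x := by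
  unfold adj
  rw [Fin.sum_univ_add]

theorem QB_split {d r : ℕ} {y : Fin (d + r) → G} {B : ℝ}
    (h : QB (fun i => y (Fin.castAdd r i)) B) : QB y (B + 2 * r) := by
  intro f hf
  have e : ∑ x, f x * adj y f x = ∑ x, f x * adj (fun i => y (Fin.castAdd r i)) f x +
      ∑ x, f x * adj (fun i => y (Fin.natAdd d i)) f x := by
    rw [← Finset.sum_add_distrib]
    refine Finset.sum_congr rfl fun x _ => ?_
    rw [adj_split, mul_add]
  rw [e, add_mul]
  exact le_trans (abs_add_le _ _) (add_le_add (h f hf) (bound _ f))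

theorem bad_split (d r : ℕ) (B : ℝ) :
    badCard G (d + r) (B + 2 * r) ≤ badCard G d B * Fintype.card G ^ r := by
  have hc : Nat.card (Fin r → G) = Fintype.card G ^ r := by
    rw [Nat.card_eq_fintype_card, Fintype.card_fun, Fintype.card_fin]
  unfold badCard
  rw [← hc, ← Nat.card_prod]
  refine Nat.card_le_card_of_injective
    (fun y : {y : Fin (d + r) → G // ¬ QB y (B + 2 * r)} =>
      ((⟨fun i => y.1 (Fin.castAdd r i), fun h => y.2 (QB_split h)⟩ :
        {y : Fin d → G // ¬ QB y B}), fun i => y.1 (Fin.natAdd d i))) ?_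
  intro a b h
  have h1 := congrArg (fun z => z.1.1) h
  have h2 := congrArg (fun z => z.2) h
  simp only at h1 h2
  refine Subtype.ext (funext fun i => ?_)
  induction i using Fin.addCases with
  | left i => exact congrFun h1 i
  | right i => exact congrFun h2 i

end ELE_

open ELE_ in
theorem prove_ELE : T_ELE := by
  intro I G _ _ q a
  refine ⟨?_, ?_, ?_⟩
  · rintro d B B' hB ⟨K, P, h⟩
    refine ⟨K, P, fun i hi => le_trans ?_ (h i hi)⟩
    exact_mod_cast bad_mono hB
  · intro d
    refine ⟨0, 0, fun i _ => ?_⟩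
    rw [bad_zero]
    simp
  · rintro d r B ⟨K, P, h⟩
    refine ⟨K, P, fun i hi => ?_⟩
    have h1 : (badCard (G i) (d + r) (B + 2 * r) : ℝ) ≤
        badCard (G i) d B * (Fintype.card (G i) : ℝ) ^ r := by
      exact_mod_cast bad_split (G := G i) d r B
    refine le_trans h1 ?_
    rw [pow_add, ← mul_assoc]
    exact mul_le_mul_of_nonneg_right (h i hi) (by positivity)

end Pool.Agent.RCG
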