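import Pool.Agent.RCG.Targets3
import Pool.Agent.RCG.AWS
import Pool.Agent.RCG.AW
import Pool.Agent.RCG.ELE

set_option autoImplicit false

/-!
# RCG-ARC: the bound of Alon and Roichman by the inequality of Golden and Thompson
-/

namespace Pool.Agent.RCG

open Finset Matrix

namespace ARC_

section mat

variable {ι : Type} [Fintype ι] [DecidableEq ι]

theorem quad (U : (Matrix ι ι ℝ)ˣ)
    (hU : ((U⁻¹ : (Matrix ι ι ℝ)ˣ) : Matrix ι ι ℝ) = (U : Matrix ι ι ℝ)ᵀ) (e v : ι → ℝ) :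
    v ⬝ᵥ ((U : Matrix ι ι ℝ) * diagonal e *
      ((U⁻¹ : (Matrix ι ι ℝ)ˣ) : Matrix ι ι ℝ)) *ᵥ v =
      ∑ i, e i * ((U : Matrix ι ι ℝ)ᵀ *ᵥ v) i ^ 2 := by
  set w : ι → ℝ := (U : Matrix ι ι ℝ)ᵀ *ᵥ v with hw
  rw [hU, ← Matrix.mulVec_mulVec, ← Matrix.mulVec_mulVec, ← hw, Matrix.dotProduct_mulVec,
    ← Matrix.mulVec_transpose, ← hw]
  unfold dotProduct
  refine Finset.sum_congr rfl fun i _ => ?_
  rw [Matrix.mulVec_diagonal]
  ring

theorem nrm (U : (Matrix ι ι ℝ)ˣ)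
    (hU : ((U⁻¹ : (Matrix ι ι ℝ)ˣ) : Matrix ι ι ℝ) = (U : Matrix ι ι ℝ)ᵀ) (v : ι → ℝ) :
    v ⬝ᵥ v = ∑ i, ((U : Matrix ι ι ℝ)ᵀ *ᵥ v) i ^ 2 := by
  have h := quad U hU (fun _ => 1) v
  rw [Matrix.diagonal_one, Matrix.mul_one, Units.mul_inv, Matrix.one_mulVec] at h
  rw [h]
  simp

theorem exp_le (S : Matrix ι ι ℝ) (hS : S.IsHermitian) (l : ℝ) (hl0 : 0 ≤ l) (hl : l ≤ 1 / 4)
    (hb : ∀ v : ι → ℝ, |v ⬝ᵥ S *ᵥ v| ≤ 2 * (v ⬝ᵥ v)) (v : ι → ℝ) :
    v ⬝ᵥ (NormedSpace.exp (l • S)) *ᵥ v ≤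
      (1 + 4 * l ^ 2) * (v ⬝ᵥ v) + l * (v ⬝ᵥ S *ᵥ v) := by
  obtain ⟨U, e, h1, h2⟩ := AW_.spec S hS
  have h3 : NormedSpace.exp (l • S) =
      U * diagonal (fun i => Real.exp (l * e i)) * (U⁻¹ : (Matrix ι ι ℝ)ˣ) := by
    have h4 : l • S = U * diagonal (l • e) * (U⁻¹ : (Matrix ι ι ℝ)ˣ) := by
      rw [h1, diagonal_smul]
      simp [Matrix.smul_mul]
    rw [h4, Matrix.exp_units_conj, Matrix.exp_diagonal]
    congr 3
    funext i
    rw [Pi.coe_exp, Real.exp_eq_exp_ℝ]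
    rfl
  have he : ∀ i, |e i| ≤ 2 := by
    intro i
    have h5 := hb ((U : Matrix ι ι ℝ) *ᵥ Pi.single i 1)
    have h6 : (U : Matrix ι ι ℝ)ᵀ *ᵥ ((U : Matrix ι ι ℝ) *ᵥ Pi.single i 1) =
        (Pi.single i 1 : ι → ℝ) := by
      rw [Matrix.mulVec_mulVec, ← h2, Units.inv_mul, Matrix.one_mulVec]
    rw [nrm U h2, h1, quad U h2 e, h6] at h5
    simpa [Pi.single_apply] using h5
  rw [h3, quad U h2, nrm U h2 v]
  have h7 : v ⬝ᵥ S *ᵥ v = ∑ i, e i * ((U : Matrix ι ι ℝ)ᵀ *ᵥ v) i ^ 2 := by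
    rw [h1, quad U h2]
  rw [h7, Finset.mul_sum, Finset.mul_sum, ← Finset.sum_add_distrib]
  refine Finset.sum_le_sum fun i _ => ?_
  have h8 := abs_le.1 (he i)
  have h9 : |l * e i| ≤ 1 := by
    rw [abs_mul, abs_of_nonneg hl0]
    nlinarith [he i, abs_nonneg (e i)]
  have h10 := (abs_le.1 (Real.abs_exp_sub_one_sub_id_le h9)).2
  have h11 : (l * e i) ^ 2 ≤ 4 * l ^ 2 := by
    have : e i ^ 2 ≤ 4 := by nlinarith
    rw [mul_pow]
    nlinarith [sq_nonneg l]
  have h12 : Real.exp (l * e i) ≤ 1 + 4 * l ^ 2 + l * e i := by linarith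
  nlinarith [sq_nonneg (((U : Matrix ι ι ℝ)ᵀ *ᵥ v) i)]

theorem step (h1 : T_GT) {Y : Type} [Fintype Y] (P : Y → Matrix ι ι ℝ) (c l : ℝ) (hc : 0 ≤ c)
    (hH : ∀ y, (P y).IsHermitian)
    (hQ : ∀ v : ι → ℝ, ∑ y, v ⬝ᵥ (NormedSpace.exp (l • P y)) *ᵥ v ≤
      Fintype.card Y * c * (v ⬝ᵥ v)) (s : ℕ) :
    ∑ z : Fin s → Y, (NormedSpace.exp (l • ∑ g, P (z g))).trace ≤
      (Fintype.card Y : ℝ) ^ s * Fintype.card ι * c ^ s := by
  have hN : 0 ≤ (Fintype.card Y : ℝ) := Nat.cast_nonneg _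
  induction s with
  | zero => simp [Matrix.trace_one]
  | succ s ih =>
    have hstep : ∀ z : Fin s → Y,
        ∑ y, (NormedSpace.exp (l • ∑ g, P ((Fin.cons y z : Fin (s + 1) → Y) g))).trace ≤
        (Fintype.card Y : ℝ) * c * (NormedSpace.exp (l • ∑ g, P (z g))).trace := by
      intro z
      have hHz := AWS_.herm_sum P hH l s z
      obtain ⟨R, hR, hRR⟩ := AWS_.half _ hHz
      have e1 : ∀ y, (NormedSpace.exp (l • ∑ g, P ((Fin.cons y z : Fin (s + 1) → Y) g))).trace ≤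
          (R * R * NormedSpace.exp (l • P y)).trace := by
        intro y
        have e2 : l • ∑ g, P ((Fin.cons y z : Fin (s + 1) → Y) g) =
            (l • ∑ g, P (z g)) + l • P y := by
          rw [Fin.sum_univ_succ, smul_add, add_comm]
          simp
        have hPy : (l • P y).IsHermitian := by
          unfold Matrix.IsHermitian
          rw [Matrix.conjTranspose_smul, (hH y).eq]
          simp
        rw [e2, hRR]
        exact h1 ι _ _ hHz hPy
      have e3 : ∑ y, (R * R * NormedSpace.exp (l • P y)).trace =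
          (R * R * ∑ y, NormedSpace.exp (l • P y)).trace := by
        rw [Matrix.mul_sum, Matrix.trace_sum]
      rw [← hRR]
      refine (Finset.sum_le_sum fun y _ => e1 y).trans ?_
      rw [e3]
      refine AWS_.tr_le R _ hR _ fun v => ?_
      rw [Matrix.sum_mulVec, dotProduct_sum]
      exact hQ v
    calc ∑ z : Fin (s + 1) → Y, (NormedSpace.exp (l • ∑ g, P (z g))).trace
        = ∑ p : Y × (Fin s → Y), (NormedSpace.exp (l • ∑ g, P
            ((Fin.cons p.1 p.2 : Fin (s + 1) → Y) g))).trace := by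
          refine (Fintype.sum_equiv (Fin.consEquiv fun _ => Y) _ _ fun p => ?_).symm
          rfl
      _ = ∑ z : Fin s → Y, ∑ y, (NormedSpace.exp (l • ∑ g, P
            ((Fin.cons y z : Fin (s + 1) → Y) g))).trace := by
          rw [Fintype.sum_prod_type_right]
      _ ≤ ∑ z : Fin s → Y, (Fintype.card Y : ℝ) * c *
          (NormedSpace.exp (l • ∑ g, P (z g))).trace := Finset.sum_le_sum fun z _ => hstep z
      _ = (Fintype.card Y : ℝ) * c *
          ∑ z : Fin s → Y, (NormedSpace.exp (l • ∑ g, P (z g))).trace := by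
          rw [Finset.mul_sum]
      _ ≤ (Fintype.card Y : ℝ) * c *
          ((Fintype.card Y : ℝ) ^ s * Fintype.card ι * c ^ s) :=
          mul_le_mul_of_nonneg_left ih (mul_nonneg hN hc)
      _ = (Fintype.card Y : ℝ) ^ (s + 1) * Fintype.card ι * c ^ (s + 1) := by ring

open Classical in
theorem count (h1 : T_GT) {Y : Type} [Fintype Y] (P : Y → Matrix ι ι ℝ) (c l t : ℝ) (hc : 0 ≤ c)
    (hl : 0 ≤ l) (hH : ∀ y, (P y).IsHermitian)
    (hQ : ∀ v : ι → ℝ, ∑ y, v ⬝ᵥ (NormedSpace.exp (l • P y)) *ᵥ v ≤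
      Fintype.card Y * c * (v ⬝ᵥ v)) (s : ℕ) :
    ((Finset.univ.filter fun z : Fin s → Y => ¬ ∀ v : ι → ℝ,
      v ⬝ᵥ (∑ g, P (z g)) *ᵥ v ≤ t * (v ⬝ᵥ v)).card : ℝ) * Real.exp (l * t) ≤
      (Fintype.card Y : ℝ) ^ s * Fintype.card ι * c ^ s := by
  have hherm : ∀ z : Fin s → Y, (∑ g, P (z g)).IsHermitian := by
    intro z
    unfold Matrix.IsHermitian
    rw [conjTranspose_sum]
    exact Finset.sum_congr rfl fun g _ => hH (z g)
  refine le_trans ?_ (step h1 P c l hc hH hQ s)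
  calc _ = ∑ _z ∈ Finset.univ.filter fun z : Fin s → Y => ¬ ∀ v : ι → ℝ,
          v ⬝ᵥ (∑ g, P (z g)) *ᵥ v ≤ t * (v ⬝ᵥ v), Real.exp (l * t) := by
        rw [Finset.sum_const, nsmul_eq_mul]
    _ ≤ ∑ z ∈ Finset.univ.filter fun z : Fin s → Y => ¬ ∀ v : ι → ℝ,
          v ⬝ᵥ (∑ g, P (z g)) *ᵥ v ≤ t * (v ⬝ᵥ v),
          (NormedSpace.exp (l • ∑ g, P (z g))).trace := by
        refine Finset.sum_le_sum fun z hz => ?_
        rw [Finset.mem_filter] at hz
        exact AW_.tr_large _ (hherm z) l t hl hz.2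
    _ ≤ _ := Finset.sum_le_sum_of_subset_of_nonneg (Finset.subset_univ _)
        fun z _ _ => AW_.tr_nonneg _ (hherm z) l

end mat

section grp

variable {G : Type} [Group G] [Fintype G]

open Classical in
/-- the matrix of one generator, without the constants -/
noncomputable def MM (y : G) : Matrix G G ℝ := fun x x' =>
  (if x' = x * y then 1 else 0) + (if x' = x * y⁻¹ then 1 else 0) - 2 / (Fintype.card G : ℝ)

theorem herm (y : G) : (MM y).IsHermitian := by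
  classical
  ext x x'
  rw [Matrix.conjTranspose_apply]
  simp only [MM, star_trivial]
  have h1 : (x = x' * y) ↔ (x' = x * y⁻¹) := by
    constructor
    · rintro rfl
      simp
    · rintro rfl
      simp
  have h2 : (x = x' * y⁻¹) ↔ (x' = x * y) := by
    constructor
    · rintro rfl
      simp
    · rintro rfl
      simp
  rw [if_congr h1 rfl rfl, if_congr h2 rfl rfl]
  ring

theorem mulVec_MM (y : G) (v : G → ℝ) (x : G) :
    (MM y *ᵥ v) x = v (x * y) + v (x * y⁻¹) - 2 / (Fintype.card G : ℝ) * ∑ x, v x := by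
  classical
  simp only [Matrix.mulVec, dotProduct, MM, sub_mul, add_mul, Finset.sum_sub_distrib,
    Finset.sum_add_distrib, ite_mul, one_mul, zero_mul, Finset.sum_ite_eq', Finset.mem_univ,
    if_true]
  rw [Finset.mul_sum]

theorem form (y : G) (v : G → ℝ) : v ⬝ᵥ MM y *ᵥ v =
    ∑ x, v x * v (x * y) + ∑ x, v x * v (x * y⁻¹) -
      2 / (Fintype.card G : ℝ) * (∑ x, v x) ^ 2 := by
  unfold dotProduct
  simp only [mulVec_MM, mul_sub, mul_add, Finset.sum_sub_distrib, Finset.sum_add_distrib]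
  rw [← Finset.sum_mul]
  ring

theorem low (y : G) (v : G → ℝ) :
    2 / (Fintype.card G : ℝ) * (∑ x, v x) ^ 2 - ∑ x, v x ^ 2 ≤ ∑ x, v x * v (x * y) := by
  have hN : 0 < (Fintype.card G : ℝ) := by exact_mod_cast Fintype.card_pos
  have h1 : ∑ x, v (x * y) = ∑ x, v x := Equiv.sum_comp (Equiv.mulRight y) v
  have h2 : (∑ x, (v x + v (x * y))) ^ 2 ≤
      (Fintype.card G : ℝ) * ∑ x, (v x + v (x * y)) ^ 2 := by
    have := sq_sum_le_card_mul_sum_sq (s := (Finset.univ : Finset G))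
      (f := fun x => v x + v (x * y))
    simpa using this
  have h3 : ∑ x, (v x + v (x * y)) ^ 2 = 2 * ∑ x, v x ^ 2 + 2 * ∑ x, v x * v (x * y) := by
    have h4 := ELE_.shift_sq y v
    have h5 : ∑ x, (v x + v (x * y)) ^ 2 =
        ∑ x, v x ^ 2 + 2 * ∑ x, v x * v (x * y) + ∑ x, v (x * y) ^ 2 := by
      rw [Finset.mul_sum, ← Finset.sum_add_distrib, ← Finset.sum_add_distrib]
      exact Finset.sum_congr rfl fun x _ => by ring
    rw [h5, h4]
    ring
  rw [Finset.sum_add_distrib, h1, h3] at h2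
  have h6 : 2 / (Fintype.card G : ℝ) * (∑ x, v x) ^ 2 ≤
      ∑ x, v x ^ 2 + ∑ x, v x * v (x * y) := by
    rw [div_mul_eq_mul_div, div_le_iff₀ hN]
    nlinarith
  linarith

theorem bnd (y : G) (v : G → ℝ) : |v ⬝ᵥ MM y *ᵥ v| ≤ 2 * (v ⬝ᵥ v) := by
  have hN : 0 < (Fintype.card G : ℝ) := by exact_mod_cast Fintype.card_pos
  have hv : v ⬝ᵥ v = ∑ x, v x ^ 2 := by
    unfold dotProduct
    exact Finset.sum_congr rfl fun x _ => (sq _).symm
  have h0 : 0 ≤ 2 / (Fintype.card G : ℝ) * (∑ x, v x) ^ 2 := by positivity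
  have h1 := low y v
  have h2 := low y⁻¹ v
  have h3 := (abs_le.1 (ELE_.cross y v)).2
  have h4 := (abs_le.1 (ELE_.cross y⁻¹ v)).2
  rw [form, hv, abs_le]
  constructor <;> linarith

theorem sum_form (v : G → ℝ) : ∑ y : G, v ⬝ᵥ MM y *ᵥ v = 0 := by
  have hN : 0 < (Fintype.card G : ℝ) := by exact_mod_cast Fintype.card_pos
  simp only [form, Finset.sum_sub_distrib, Finset.sum_add_distrib, Finset.sum_const,
    Finset.card_univ, nsmul_eq_mul]
  have h1 : ∑ y : G, ∑ x, v x * v (x * y) = (∑ x, v x) ^ 2 := by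
    rw [Finset.sum_comm, sq, Finset.sum_mul]
    refine Finset.sum_congr rfl fun x _ => ?_
    rw [← Finset.mul_sum]
    congr 1
    exact Equiv.sum_comp (Equiv.mulLeft x) v
  have h2 : ∑ y : G, ∑ x, v x * v (x * y⁻¹) = (∑ x, v x) ^ 2 := by
    rw [← h1]
    exact Equiv.sum_comp (Equiv.inv G) fun y => ∑ x, v x * v (x * y)
  rw [h1, h2]
  field_simp
  ring

theorem form_adj {d : ℕ} (z : Fin d → G) (f : G → ℝ) (hf : ∑ x, f x = 0) :
    f ⬝ᵥ (∑ g, MM (z g)) *ᵥ f = ∑ x, f x * adj z f x := by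
  rw [ELE_.form_eq, Matrix.sum_mulVec, dotProduct_sum]
  refine Finset.sum_congr rfl fun i _ => ?_
  rw [form, hf]
  ring

end grp

end ARC_

open ARC_ in
theorem prove_ARC (h1 : T_GT) : T_ARC := by
  intro G _ _ d t hd ht
  classical
  have hN : 0 < (Fintype.card G : ℝ) := by exact_mod_cast Fintype.card_pos
  have hd' : (1 : ℝ) ≤ d := by exact_mod_cast hd
  rcases lt_or_ge (2 * (d : ℝ)) t with htd | htd
  · have h2 : badCard G d t = 0 := by
      have h3 := ELE_.bad_mono (G := G) (d := d) htd.le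
      rw [ELE_.bad_zero] at h3
      omega
    rw [h2]
    simp only [Nat.cast_zero]
    positivity
  set l : ℝ := t / (8 * d) with hl
  have hl0 : 0 ≤ l := by positivity
  have hl1 : l ≤ 1 / 4 := by
    rw [hl, div_le_iff₀ (by positivity)]
    linarith
  have hc : 0 ≤ 1 + 4 * l ^ 2 := by positivity
  have hQ1 : ∀ v : G → ℝ, ∑ y, v ⬝ᵥ (NormedSpace.exp (l • MM y)) *ᵥ v ≤
      Fintype.card G * (1 + 4 * l ^ 2) * (v ⬝ᵥ v) := by
    intro v
    refine (Finset.sum_le_sum fun y _ => exp_le (MM y) (herm y) l hl0 hl1 (bnd y) v).trans ?_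
    rw [Finset.sum_add_distrib, ← Finset.mul_sum (f := fun y => v ⬝ᵥ MM y *ᵥ v), sum_form,
      Finset.sum_const, Finset.card_univ, nsmul_eq_mul]
    apply le_of_eq
    ring
  have hH2 : ∀ y : G, (-MM y).IsHermitian := fun y => (herm y).neg
  have hb2 : ∀ (y : G) (v : G → ℝ), |v ⬝ᵥ (-MM y) *ᵥ v| ≤ 2 * (v ⬝ᵥ v) := by
    intro y v
    rw [Matrix.neg_mulVec, dotProduct_neg, abs_neg]
    exact bnd y v
  have hQ2 : ∀ v : G → ℝ, ∑ y, v ⬝ᵥ (NormedSpace.exp (l • (-MM y))) *ᵥ v ≤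
      Fintype.card G * (1 + 4 * l ^ 2) * (v ⬝ᵥ v) := by
    intro v
    refine (Finset.sum_le_sum fun y _ => exp_le (-MM y) (hH2 y) l hl0 hl1 (hb2 y) v).trans ?_
    have h3 : ∑ y, v ⬝ᵥ (-MM y) *ᵥ v = 0 := by
      simp only [Matrix.neg_mulVec, dotProduct_neg, Finset.sum_neg_distrib, sum_form, neg_zero]
    rw [Finset.sum_add_distrib, ← Finset.mul_sum (f := fun y => v ⬝ᵥ (-MM y) *ᵥ v), h3,
      Finset.sum_const, Finset.card_univ, nsmul_eq_mul]
    apply le_of_eq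
    ring
  have c1 := count h1 (fun y : G => MM y) (1 + 4 * l ^ 2) l t hc hl0 herm hQ1 d
  have c2 := count h1 (fun y : G => -MM y) (1 + 4 * l ^ 2) l t hc hl0 hH2 hQ2 d
  set B1 := Finset.univ.filter fun z : Fin d → G => ¬ ∀ v : G → ℝ,
    v ⬝ᵥ (∑ g, MM (z g)) *ᵥ v ≤ t * (v ⬝ᵥ v) with hB1
  set B2 := Finset.univ.filter fun z : Fin d → G => ¬ ∀ v : G → ℝ,
    v ⬝ᵥ (∑ g, -MM (z g)) *ᵥ v ≤ t * (v ⬝ᵥ v) with hB2
  have hbad : (badCard G d t : ℝ) ≤ B1.card + B2.card := by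
    have h3 : badCard G d t = (Finset.univ.filter fun z : Fin d → G => ¬ QB z t).card := by
      unfold badCard
      rw [Nat.card_eq_fintype_card, Fintype.card_subtype]
    have h4 : (Finset.univ.filter fun z : Fin d → G => ¬ QB z t) ⊆ B1 ∪ B2 := by
      intro z hz
      rw [Finset.mem_filter] at hz
      rw [Finset.mem_union, hB1, hB2, Finset.mem_filter, Finset.mem_filter]
      by_contra hno
      push Not at hno
      refine hz.2 fun f hf => ?_
      have h5 := hno.1 (Finset.mem_univ _) f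
      have h6 := hno.2 (Finset.mem_univ _) f
      have hv : f ⬝ᵥ f = ∑ x, f x ^ 2 := by
        unfold dotProduct
        exact Finset.sum_congr rfl fun x _ => (sq _).symm
      rw [form_adj z f hf, hv] at h5
      rw [Finset.sum_neg_distrib, Matrix.neg_mulVec, dotProduct_neg, form_adj z f hf, hv] at h6
      rw [abs_le]
      constructor <;> linarith
    rw [h3]
    have h7 := (Finset.card_le_card h4).trans (Finset.card_union_le _ _)
    exact_mod_cast h7
  have hexp : (1 + 4 * l ^ 2) ^ d ≤ Real.exp (4 * l ^ 2 * d) := by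
    have h8 : 1 + 4 * l ^ 2 ≤ Real.exp (4 * l ^ 2) := by
      have := Real.add_one_le_exp (4 * l ^ 2)
      linarith
    calc (1 + 4 * l ^ 2) ^ d ≤ (Real.exp (4 * l ^ 2)) ^ d := pow_le_pow_left₀ hc h8 d
      _ = Real.exp (4 * l ^ 2 * d) := by
          rw [← Real.exp_nat_mul]
          congr 1
          ring
  have hfin : ∀ b : ℝ, b * Real.exp (l * t) ≤
      (Fintype.card G : ℝ) ^ d * Fintype.card G * (1 + 4 * l ^ 2) ^ d →
      b ≤ Fintype.card G * Real.exp (-(t ^ 2) / (16 * d)) * (Fintype.card G : ℝ) ^ d := by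
    intro b hb
    have h9 : Real.exp (4 * l ^ 2 * d) =
        Real.exp (-(t ^ 2) / (16 * d)) * Real.exp (l * t) := by
      rw [← Real.exp_add]
      congr 1
      rw [hl]
      field_simp
      ring
    have h10 : b * Real.exp (l * t) ≤ (Fintype.card G * Real.exp (-(t ^ 2) / (16 * d)) *
        (Fintype.card G : ℝ) ^ d) * Real.exp (l * t) := by
      refine hb.trans ((mul_le_mul_of_nonneg_left hexp (by positivity)).trans_eq ?_)
      rw [h9]
      ring
    exact le_of_mul_le_mul_right h10 (Real.exp_pos _)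
  have f1 := hfin _ c1
  have f2 := hfin _ c2
  linarith

end Pool.Agent.RCG
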