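import Pool.Agent.RCG.Targets

/-!
# RCG, target ASY: the choice of the exponent (real analysis)
-/

set_option autoImplicit false

namespace Pool.Agent.RCG

namespace ASY_

theorem sqrt_bound {q x : ℝ} (hq : 0 < q) (hx : 1 ≤ x) :
    √(x / q) ≤ x * q ^ (-(1 / 2) : ℝ) := by
  have hx0 : 0 ≤ x := by linarith
  rw [Real.sqrt_div hx0, Real.rpow_neg hq.le, ← Real.sqrt_eq_rpow, div_eq_mul_inv]
  refine mul_le_mul_of_nonneg_right ?_ (inv_nonneg.2 (Real.sqrt_nonneg q))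
  rw [Real.sqrt_le_iff]
  exact ⟨hx0, by nlinarith⟩

theorem rpow_exp {q : ℝ} (hq : 0 < q) (t : ℝ) : q ^ t = Real.exp (Real.log q * t) :=
  Real.rpow_def_of_pos hq t

theorem pow_exp {ρ : ℝ} (h : 0 < ρ) (n : ℕ) : ρ ^ n = Real.exp (Real.log ρ * n) := by
  rw [← Real.rpow_natCast, rpow_exp h]

end ASY_

open ASY_ in
theorem prove_ASY : T_ASY := by
  intro ρ κ N a u c s hρ0 hρ1 hκ0 hκ1 hN ha hu hc hs
  -- constants
  have hlam : 0 < -Real.log ρ := by linarith [Real.log_neg hρ0 hρ1]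
  obtain ⟨lam, hl⟩ : ∃ lam : ℝ, lam = -Real.log ρ := ⟨_, rfl⟩
  rw [← hl] at hlam
  have hu0 : 0 < u := by
    by_contra hcon
    push Not at hcon
    have : (1 - κ) * u / 2 ≤ 0 := by
      have := mul_nonneg_of_nonpos_of_nonpos (a := -(1 - κ)) (b := u) (by linarith) hcon
      nlinarith
    linarith
  obtain ⟨δ, hδ⟩ : ∃ δ : ℝ, δ = (1 - κ) * u / 2 - N - a := ⟨_, rfl⟩
  have hδ0 : 0 < δ := by rw [hδ]; linarith
  obtain ⟨η, hη⟩ : ∃ η : ℝ, η = δ / (2 * u) := ⟨_, rfl⟩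
  have hη0 : 0 < η := by rw [hη]; positivity
  have hηu : η * u = δ / 2 := by rw [hη]; field_simp
  obtain ⟨K0, hK0⟩ : ∃ K0 : ℝ, K0 = Real.exp (2 * κ * lam) := ⟨_, rfl⟩
  obtain ⟨K1, hK1⟩ : ∃ K1 : ℝ, K1 = 1 / (2 * lam * η) + 3 := ⟨_, rfl⟩
  obtain ⟨K2, hK2⟩ : ∃ K2 : ℝ, K2 = s * K0 * (1 + c * K1) := ⟨_, rfl⟩
  have hK0p : 0 < K0 := by rw [hK0]; exact Real.exp_pos _
  have hK1p : 0 < K1 := by rw [hK1]; positivity
  have hK2p : 0 < K2 := by rw [hK2]; positivity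
  obtain ⟨M, hM⟩ : ∃ M : ℝ, M = Real.exp 1 * K2 ^ u := ⟨_, rfl⟩
  have hMp : 0 < M := by rw [hM]; positivity
  refine ⟨max 2 (M ^ (2 / δ)), ?_⟩
  intro q hq
  have hq2 : 2 ≤ q := (le_max_left _ _).trans hq
  have hqM : M ^ (2 / δ) ≤ q := (le_max_right _ _).trans hq
  have hq0 : 0 < q := by linarith
  have hq1 : 1 ≤ q := by linarith
  have hlog : 0 < Real.log q := Real.log_pos (by linarith)
  refine ⟨hq0, ?_⟩
  -- the exponent
  obtain ⟨m, hm⟩ : ∃ m : ℕ, m = ⌈Real.log q / (4 * lam)⌉₊ := ⟨_, rfl⟩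
  have hm1 : Real.log q / (4 * lam) ≤ m := by rw [hm]; exact Nat.le_ceil _
  have hm2 : (m : ℝ) < Real.log q / (4 * lam) + 1 := by
    rw [hm]; exact Nat.ceil_lt_add_one (by positivity)
  have hm0 : 1 ≤ m := by
    rw [hm]
    exact Nat.one_le_ceil_iff.2 (by positivity)
  refine ⟨2 * m, even_two_mul m, by omega, ?_⟩
  have hx1 : Real.log q ≤ 4 * lam * m := by
    rw [div_le_iff₀ (by positivity)] at hm1
    linarith
  have hx2 : 4 * lam * m ≤ Real.log q + 4 * lam := by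
    have h1 : (m : ℝ) - 1 < Real.log q / (4 * lam) := by linarith
    rw [lt_div_iff₀ (by positivity)] at h1
    nlinarith
  have hn : ((2 * m : ℕ) : ℝ) = 2 * m := by push_cast; ring
  -- first factor
  have e1 : ((ρ ^ κ) ^ (2 * m))⁻¹ ≤ K0 * q ^ (κ / 2) := by
    rw [rpow_exp hρ0, ← Real.exp_nat_mul, ← Real.exp_neg, hK0, rpow_exp hq0, ← Real.exp_add]
    refine Real.exp_le_exp.2 ?_
    rw [hn]
    have h1 : κ * (4 * lam * m) ≤ κ * (Real.log q + 4 * lam) :=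
      mul_le_mul_of_nonneg_left hx2 hκ0.le
    have h2 : Real.log ρ = -lam := by rw [hl]; ring
    rw [h2]
    nlinarith
  -- second factor
  have e2 : ρ ^ (2 * m) ≤ q ^ (-(1 / 2) : ℝ) := by
    rw [pow_exp hρ0, rpow_exp hq0]
    refine Real.exp_le_exp.2 ?_
    have h2 : Real.log ρ = -lam := by rw [hl]; ring
    rw [h2, hn]
    nlinarith
  have e3 : ((2 * m : ℕ) : ℝ) + 1 ≤ K1 * q ^ η := by
    have h1 : Real.log q ≤ q ^ η / η := Real.log_le_rpow_div hq0.le hη0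
    have h2 : 1 ≤ q ^ η := Real.one_le_rpow hq1 hη0.le
    have h3 : (2 * m : ℝ) ≤ Real.log q / (2 * lam) + 2 := by
      have h4 : (2 * m : ℝ) - 2 ≤ Real.log q / (2 * lam) := by
        rw [le_div_iff₀ (by positivity)]
        nlinarith
      linarith
    have h5 : Real.log q / (2 * lam) ≤ 1 / (2 * lam * η) * q ^ η := by
      rw [div_le_iff₀ (by positivity)]
      have h6 : 1 / (2 * lam * η) * q ^ η * (2 * lam) = q ^ η / η := by
        field_simp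
      rw [h6]
      exact h1
    rw [hn, hK1, add_mul]
    linarith
  have e4 : √((((2 * m : ℕ) : ℝ) + 1) / q) ≤ K1 * q ^ η * q ^ (-(1 / 2) : ℝ) := by
    refine (sqrt_bound hq0 (by linarith [Nat.cast_nonneg (α := ℝ) (2 * m)])).trans ?_
    exact mul_le_mul_of_nonneg_right e3 (Real.rpow_nonneg hq0.le _)
  have hqn : 0 < q ^ (-(1 / 2) : ℝ) := Real.rpow_pos_of_pos hq0 _
  have hqe : 1 ≤ q ^ η := Real.one_le_rpow hq1 hη0.le
  have e5 : ρ ^ (2 * m) + c * √((((2 * m : ℕ) : ℝ) + 1) / q) ≤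
      (1 + c * K1) * (q ^ η * q ^ (-(1 / 2) : ℝ)) := by
    have h1 : c * √((((2 * m : ℕ) : ℝ) + 1) / q) ≤ c * (K1 * q ^ η * q ^ (-(1 / 2) : ℝ)) :=
      mul_le_mul_of_nonneg_left e4 hc.le
    have h2 : q ^ (-(1 / 2) : ℝ) ≤ q ^ η * q ^ (-(1 / 2) : ℝ) := by nlinarith
    calc ρ ^ (2 * m) + c * √((((2 * m : ℕ) : ℝ) + 1) / q)
        ≤ q ^ η * q ^ (-(1 / 2) : ℝ) + c * (K1 * q ^ η * q ^ (-(1 / 2) : ℝ)) :=
          add_le_add (e2.trans h2) h1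
      _ = _ := by ring
  have hX0 : 0 ≤ ρ ^ (2 * m) + c * √((((2 * m : ℕ) : ℝ) + 1) / q) := by positivity
  have e6 : s * (((ρ ^ κ) ^ (2 * m))⁻¹ * (ρ ^ (2 * m) + c * √((((2 * m : ℕ) : ℝ) + 1) / q))) ≤
      K2 * q ^ (κ / 2 + η + -(1 / 2)) := by
    have h1 : ((ρ ^ κ) ^ (2 * m))⁻¹ * (ρ ^ (2 * m) + c * √((((2 * m : ℕ) : ℝ) + 1) / q)) ≤
        (K0 * q ^ (κ / 2)) * ((1 + c * K1) * (q ^ η * q ^ (-(1 / 2) : ℝ))) :=
      mul_le_mul e1 e5 hX0 (by positivity)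
    have h2 := mul_le_mul_of_nonneg_left h1 hs.le
    rw [Real.rpow_add hq0, Real.rpow_add hq0, hK2]
    calc _ ≤ _ := h2
      _ = _ := by ring
  have hY0 : 0 ≤ s * (((ρ ^ κ) ^ (2 * m))⁻¹ *
      (ρ ^ (2 * m) + c * √((((2 * m : ℕ) : ℝ) + 1) / q))) := by positivity
  have e7 : (s * (((ρ ^ κ) ^ (2 * m))⁻¹ *
      (ρ ^ (2 * m) + c * √((((2 * m : ℕ) : ℝ) + 1) / q)))) ^ u ≤
      K2 ^ u * q ^ ((κ / 2 + η + -(1 / 2)) * u) := by
    refine (Real.rpow_le_rpow hY0 e6 hu0.le).trans ?_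
    rw [Real.mul_rpow hK2p.le (Real.rpow_nonneg hq0.le _), ← Real.rpow_mul hq0.le]
  -- the size of `q`
  have e8 : M ≤ q ^ (δ / 2) := by
    have h1 : (M ^ (2 / δ)) ^ (δ / 2) ≤ q ^ (δ / 2) :=
      Real.rpow_le_rpow (Real.rpow_nonneg hMp.le _) hqM (by positivity)
    rw [← Real.rpow_mul hMp.le] at h1
    have h2 : 2 / δ * (δ / 2) = 1 := by field_simp
    rw [h2, Real.rpow_one] at h1
    exact h1
  have e9 : (κ / 2 + η + -(1 / 2)) * u = -a - N - δ / 2 := by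
    have h1 : (κ / 2 + η + -(1 / 2)) * u = η * u - (1 - κ) * u / 2 := by ring
    rw [h1, hηu, hδ]
    ring
  calc Real.exp 1 * q ^ N * (s * (((ρ ^ κ) ^ (2 * m))⁻¹ *
        (ρ ^ (2 * m) + c * √((((2 * m : ℕ) : ℝ) + 1) / q)))) ^ u
      ≤ Real.exp 1 * q ^ N * (K2 ^ u * q ^ ((κ / 2 + η + -(1 / 2)) * u)) :=
        mul_le_mul_of_nonneg_left e7 (by positivity)
    _ = M * (q ^ N * q ^ (-a - N - δ / 2)) := by rw [e9, hM]; ring
    _ ≤ q ^ (δ / 2) * (q ^ N * q ^ (-a - N - δ / 2)) :=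
        mul_le_mul_of_nonneg_right e8 (by positivity)
    _ = q ^ (-a) := by
        rw [← Real.rpow_add hq0, ← Real.rpow_add hq0]
        congr 1
        ring

end Pool.Agent.RCG
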