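import Pool.Agent.RCG.Targets3
import Pool.Agent.RCG.ASY

/-!
# RCG, target ASYU: the choice of the exponent, uniformly in the degree
-/

set_option autoImplicit false

namespace Pool.Agent.RCG

namespace ASYU_

open ASY_

/-- the numerical inequality behind the choice of the constants -/
theorem num {m K X l L : ℝ} (hm : 4 ≤ m) (hK : 0 ≤ K) (hX : 200 + 4 * K ^ 2 ≤ X) (hl : 1 ≤ l)
    (hlL : l ≤ L) (hL : L ≤ 1 / (5 * m) * √X) :
    1 + m * l * (K + 2 * Real.log L + l + 1 / 2 * Real.log X) ≤ X := by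
  have hm0 : 0 < m := by linarith
  have hX0 : 0 < X := by nlinarith [sq_nonneg K]
  have hsX : 0 < √X := Real.sqrt_pos.2 hX0
  have hsq : √X * √X = X := Real.mul_self_sqrt hX0.le
  have hL0 : 0 < L := by linarith
  have h1 : m * L ≤ √X / 5 := by
    calc m * L ≤ m * (1 / (5 * m) * √X) := mul_le_mul_of_nonneg_left hL hm0.le
      _ = √X / 5 := by field_simp
  have h2 : m * l ≤ √X / 5 := (mul_le_mul_of_nonneg_left hlL hm0.le).trans h1
  have h3 : 2 * K ≤ √X := by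
    apply Real.le_sqrt_of_sq_le
    nlinarith
  have h4 : Real.log X ≤ 2 * √X := by
    have h5 : Real.log X = 2 * Real.log (√X) := by
      rw [Real.log_sqrt hX0.le]; ring
    rw [h5]
    have h6 := Real.log_le_sub_one_of_pos hsX
    linarith
  have h5 : Real.log L ≤ L := by
    have := Real.log_le_sub_one_of_pos hL0
    linarith
  have hml : 0 ≤ m * l := by positivity
  have t1 : m * l * K ≤ X / 10 := by
    calc m * l * K ≤ √X / 5 * K := mul_le_mul_of_nonneg_right h2 hK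
      _ ≤ √X / 5 * (√X / 2) := mul_le_mul_of_nonneg_left (by linarith) (by positivity)
      _ = (√X * √X) / 10 := by ring
      _ = X / 10 := by rw [hsq]
  have t2 : m * l * (1 / 2 * Real.log X) ≤ X / 5 := by
    calc m * l * (1 / 2 * Real.log X) ≤ m * l * √X :=
          mul_le_mul_of_nonneg_left (by linarith) hml
      _ ≤ √X / 5 * √X := mul_le_mul_of_nonneg_right h2 hsX.le
      _ = (√X * √X) / 5 := by ring
      _ = X / 5 := by rw [hsq]
  have t3 : m * l * (2 * Real.log L + l) ≤ X / 5 := by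
    have h7 : 2 * Real.log L + l ≤ 3 * L := by linarith
    have h8 : L ≤ √X / 20 := by nlinarith
    calc m * l * (2 * Real.log L + l) ≤ m * l * (3 * L) := mul_le_mul_of_nonneg_left h7 hml
      _ ≤ √X / 5 * (3 * (√X / 20)) := by
          apply mul_le_mul h2 _ (by positivity) (by positivity)
          linarith
      _ = 3 * (√X * √X) / 100 := by ring
      _ ≤ X / 5 := by rw [hsq]; linarith
  have e : m * l * (K + 2 * Real.log L + l + 1 / 2 * Real.log X) =
      m * l * K + m * l * (1 / 2 * Real.log X) + m * l * (2 * Real.log L + l) := by ring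
  rw [e]
  have hX200 : 200 ≤ X := by nlinarith [sq_nonneg K]
  linarith

end ASYU_

open ASY_ ASYU_ in
theorem prove_ASYU : T_ASYU := by
  intro m hm
  have hm0 : 0 < m := by linarith
  obtain ⟨K, hK⟩ : ∃ K : ℝ, K = Real.log 150 + 2 * Real.log m := ⟨_, rfl⟩
  have hK0 : 0 ≤ K := by
    have h1 := Real.log_nonneg (by linarith : (1 : ℝ) ≤ m)
    have h2 := Real.log_nonneg (by norm_num : (1 : ℝ) ≤ 150)
    rw [hK]; linarith
  refine ⟨1 / (5 * m), Real.exp (200 + 4 * K ^ 2), by positivity, ?_⟩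
  intro q k1 s L hq hk hL1 hL2 hs hs2
  have hq0 : 0 < q := lt_of_lt_of_le (Real.exp_pos _) hq
  have hXl : 200 + 4 * K ^ 2 ≤ Real.log q := by
    rw [Real.le_log_iff_exp_le hq0]; exact hq
  have hX200 : 200 ≤ Real.log q := by nlinarith [sq_nonneg K]
  have hq1 : 1 < q := by
    rw [← Real.log_pos_iff hq0.le]; linarith
  refine ⟨hq1, ?_⟩
  have hk0 : 0 < k1 := by linarith
  -- logarithms
  obtain ⟨l, hl⟩ : ∃ l : ℝ, l = Real.log k1 := ⟨_, rfl⟩
  have hlog2 : 0.6931471803 < Real.log 2 := Real.log_two_gt_d9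
  have hl8 : 3 * Real.log 2 ≤ l := by
    rw [hl]
    have h1 : Real.log 8 ≤ Real.log k1 := Real.log_le_log (by norm_num) hk
    have h2 : Real.log 8 = 3 * Real.log 2 := by
      rw [show (8 : ℝ) = 2 ^ 3 by norm_num, Real.log_pow]; norm_num
    linarith
  have hl2 : 2 < l := by linarith
  rw [← hl] at hL1
  rw [← hl]
  have hL0 : 0 < L := by linarith
  obtain ⟨ρ, hρ⟩ : ∃ ρ : ℝ, ρ = 2 / √k1 := ⟨_, rfl⟩
  obtain ⟨lam, hlam⟩ : ∃ lam : ℝ, lam = l / 2 - Real.log 2 := ⟨_, rfl⟩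
  have hsk : 0 < √k1 := Real.sqrt_pos.2 hk0
  have hρ0 : 0 < ρ := by rw [hρ]; positivity
  have hlρ : Real.log ρ = -lam := by
    rw [hρ, Real.log_div (by norm_num) hsk.ne', Real.log_sqrt hk0.le, ← hl, hlam]
    ring
  have hlam1 : Real.log 2 / 2 ≤ lam := by rw [hlam]; linarith
  have hlam0 : 0 < lam := by linarith
  have hlaml : 2 * lam ≤ l := by rw [hlam]; linarith
  obtain ⟨κ, hκ⟩ : ∃ κ : ℝ, κ = 1 - 2 / l := ⟨_, rfl⟩
  have hl0 : 0 < l := by linarith
  have h2l : 2 / l < 1 := by rw [div_lt_one hl0]; exact hl2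
  have h2l0 : 0 < 2 / l := by positivity
  have hκ0 : 0 < κ := by rw [hκ]; linarith
  have hκ1 : κ < 1 := by rw [hκ]; linarith
  rw [← hρ, ← hκ]
  -- the exponent
  obtain ⟨M, hM⟩ : ∃ M : ℕ, M = ⌈Real.log q / (4 * lam)⌉₊ := ⟨_, rfl⟩
  have hm1 : Real.log q / (4 * lam) ≤ M := by rw [hM]; exact Nat.le_ceil _
  have hm2 : (M : ℝ) < Real.log q / (4 * lam) + 1 := by
    rw [hM]
    exact Nat.ceil_lt_add_one (div_nonneg (by linarith) (by linarith))
  have hM0 : 1 ≤ M := by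
    rw [hM]
    exact Nat.one_le_ceil_iff.2 (div_pos (by linarith) (by linarith))
  refine ⟨2 * M, even_two_mul M, by omega, ?_⟩
  have hx1 : Real.log q ≤ 4 * lam * M := by
    rw [div_le_iff₀ (by positivity)] at hm1
    linarith
  have hx2 : 4 * lam * M ≤ Real.log q + 4 * lam := by
    have h1 : (M : ℝ) - 1 < Real.log q / (4 * lam) := by linarith
    rw [lt_div_iff₀ (by positivity)] at h1
    nlinarith
  have hn : ((2 * M : ℕ) : ℝ) = 2 * M := by push_cast; ring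
  -- first factor
  have e1 : ((ρ ^ κ) ^ (2 * M))⁻¹ ≤ k1 * q ^ (κ / 2) := by
    rw [rpow_exp hρ0, ← Real.exp_nat_mul, ← Real.exp_neg, rpow_exp hq0]
    have hkl : k1 = Real.exp l := by rw [hl, Real.exp_log hk0]
    rw [hkl, ← Real.exp_add]
    refine Real.exp_le_exp.2 ?_
    rw [hn, hlρ]
    have h1 : κ * (4 * lam * M) ≤ κ * (Real.log q + 4 * lam) :=
      mul_le_mul_of_nonneg_left hx2 hκ0.le
    have h2 : κ * (2 * lam) ≤ 1 * l := mul_le_mul hκ1.le hlaml (by positivity) (by norm_num)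
    nlinarith
  -- second factor
  have e2 : ρ ^ (2 * M) ≤ q ^ (-(1 / 2) : ℝ) := by
    rw [pow_exp hρ0, rpow_exp hq0]
    refine Real.exp_le_exp.2 ?_
    rw [hlρ, hn]
    nlinarith
  have e3 : ((2 * M : ℕ) : ℝ) + 1 ≤ 4 * Real.log q := by
    rw [hn]
    have h1 : Real.log 2 * M ≤ Real.log q / 2 + 2 * lam := by
      nlinarith [Nat.cast_nonneg (α := ℝ) M]
    have h4 : (M : ℝ) - 1 ≤ Real.log q / (4 * lam) := by linarith
    have h5 : Real.log q / (4 * lam) ≤ Real.log q / (2 * Real.log 2) := by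
      apply div_le_div_of_nonneg_left (by linarith) (by positivity)
      linarith
    have h6 : Real.log q / (2 * Real.log 2) ≤ Real.log q := by
      apply div_le_self (by linarith)
      linarith
    linarith
  obtain ⟨X, hX⟩ : ∃ X : ℝ, X = Real.log q := ⟨_, rfl⟩
  rw [← hX] at hXl hX200 e3 hL2
  have hX0 : 0 < X := by linarith
  have hsX : 0 < √X := Real.sqrt_pos.2 hX0
  have hsX1 : 1 ≤ √X := by rw [Real.one_le_sqrt]; linarith
  have e4 : √((((2 * M : ℕ) : ℝ) + 1) / q) ≤ 2 * √X * q ^ (-(1 / 2) : ℝ) := by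
    have h1 : √((((2 * M : ℕ) : ℝ) + 1) / q) ≤ √(4 * X / q) := by
      apply Real.sqrt_le_sqrt
      exact div_le_div_of_nonneg_right e3 hq0.le
    have h2 : √(4 * X / q) = 2 * √X * q ^ (-(1 / 2) : ℝ) := by
      rw [Real.sqrt_div (by positivity), Real.sqrt_mul (by norm_num), Real.rpow_neg hq0.le,
        ← Real.sqrt_eq_rpow, div_eq_mul_inv]
      congr 2
      rw [show (4 : ℝ) = 2 ^ 2 by norm_num, Real.sqrt_sq (by norm_num)]
    rw [← h2]; exact h1
  have hqn : 0 < q ^ (-(1 / 2) : ℝ) := Real.rpow_pos_of_pos hq0 _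
  have e5 : ρ ^ (2 * M) + 14 * √((((2 * M : ℕ) : ℝ) + 1) / q) ≤
      30 * √X * q ^ (-(1 / 2) : ℝ) := by
    have h1 : q ^ (-(1 / 2) : ℝ) ≤ √X * q ^ (-(1 / 2) : ℝ) := by nlinarith
    have h2 : 0 < √X * q ^ (-(1 / 2) : ℝ) := by positivity
    calc ρ ^ (2 * M) + 14 * √((((2 * M : ℕ) : ℝ) + 1) / q)
        ≤ √X * q ^ (-(1 / 2) : ℝ) + 14 * (2 * √X * q ^ (-(1 / 2) : ℝ)) :=
          add_le_add (e2.trans h1) (mul_le_mul_of_nonneg_left e4 (by norm_num))
      _ = 29 * (√X * q ^ (-(1 / 2) : ℝ)) := by ring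
      _ ≤ 30 * (√X * q ^ (-(1 / 2) : ℝ)) := by linarith
      _ = _ := by ring
  have hB0 : 0 ≤ ρ ^ (2 * M) + 14 * √((((2 * M : ℕ) : ℝ) + 1) / q) := by positivity
  obtain ⟨Z, hZ⟩ : ∃ Z : ℝ, Z = 150 * m ^ 2 * L ^ 2 * k1 * √X := ⟨_, rfl⟩
  have hZ0 : 0 < Z := by rw [hZ]; positivity
  have e6 : s * (((ρ ^ κ) ^ (2 * M))⁻¹ *
      (ρ ^ (2 * M) + 14 * √((((2 * M : ℕ) : ℝ) + 1) / q))) ≤ Z * q ^ (-(1 / l)) := by
    have h1 : ((ρ ^ κ) ^ (2 * M))⁻¹ * (ρ ^ (2 * M) + 14 * √((((2 * M : ℕ) : ℝ) + 1) / q)) ≤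
        (k1 * q ^ (κ / 2)) * (30 * √X * q ^ (-(1 / 2) : ℝ)) :=
      mul_le_mul e1 e5 hB0 (by positivity)
    have h2 : (k1 * q ^ (κ / 2)) * (30 * √X * q ^ (-(1 / 2) : ℝ)) =
        30 * k1 * √X * q ^ (-(1 / l)) := by
      have h3 : q ^ (κ / 2) * q ^ (-(1 / 2) : ℝ) = q ^ (-(1 / l)) := by
        rw [← Real.rpow_add hq0]
        congr 1
        rw [hκ]
        field_simp
        ring
      rw [← h3]; ring
    rw [h2] at h1
    calc s * (((ρ ^ κ) ^ (2 * M))⁻¹ * (ρ ^ (2 * M) + 14 * √((((2 * M : ℕ) : ℝ) + 1) / q)))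
        ≤ (5 * m ^ 2 * L ^ 2) * (30 * k1 * √X * q ^ (-(1 / l))) :=
          mul_le_mul hs2 h1 (by positivity) (by positivity)
      _ = Z * q ^ (-(1 / l)) := by rw [hZ]; ring
  have hY0 : 0 ≤ s * (((ρ ^ κ) ^ (2 * M))⁻¹ *
      (ρ ^ (2 * M) + 14 * √((((2 * M : ℕ) : ℝ) + 1) / q))) := by positivity
  have hml : 0 ≤ m * l := by positivity
  have e7 : (s * (((ρ ^ κ) ^ (2 * M))⁻¹ *
      (ρ ^ (2 * M) + 14 * √((((2 * M : ℕ) : ℝ) + 1) / q)))) ^ (m * l) ≤
      Real.exp (Real.log Z * (m * l)) * q ^ (-m) := by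
    refine (Real.rpow_le_rpow hY0 e6 hml).trans ?_
    rw [Real.mul_rpow hZ0.le (Real.rpow_nonneg hq0.le _), ← Real.rpow_mul hq0.le,
      Real.rpow_def_of_pos hZ0]
    have h1 : -(1 / l) * (m * l) = -m := by field_simp
    rw [h1]
  have e8 : Real.log Z = K + 2 * Real.log L + l + 1 / 2 * Real.log X := by
    rw [hZ, Real.log_mul (by positivity) (by positivity), Real.log_mul (by positivity)
      (by positivity), Real.log_mul (by positivity) (by positivity), Real.log_mul (by norm_num)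
      (by positivity), Real.log_pow, Real.log_pow, Real.log_sqrt hX0.le, hK, hl]
    push_cast
    ring
  have e9 : 1 + m * l * Real.log Z ≤ X := by
    rw [e8]
    exact num hm hK0 hXl (by linarith) hL1 hL2
  calc Real.exp 1 * q ^ (3 : ℝ) * (s * (((ρ ^ κ) ^ (2 * M))⁻¹ *
        (ρ ^ (2 * M) + 14 * √((((2 * M : ℕ) : ℝ) + 1) / q)))) ^ (m * l)
      ≤ Real.exp 1 * q ^ (3 : ℝ) * (Real.exp (Real.log Z * (m * l)) * q ^ (-m)) :=
        mul_le_mul_of_nonneg_left e7 (by positivity)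
    _ = Real.exp (1 + m * l * Real.log Z) * (q ^ (3 : ℝ) * q ^ (-m)) := by
        rw [Real.exp_add, mul_comm (m * l) (Real.log Z)]; ring
    _ ≤ q * (q ^ (3 : ℝ) * q ^ (-m)) := by
        apply mul_le_mul_of_nonneg_right _ (by positivity)
        calc Real.exp (1 + m * l * Real.log Z) ≤ Real.exp X := Real.exp_le_exp.2 e9
          _ = q := by rw [hX, Real.exp_log hq0]
    _ = q ^ (4 - m) := by
        nth_rewrite 1 [← Real.rpow_one q]
        rw [← Real.rpow_add hq0, ← Real.rpow_add hq0]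
        congr 1
        ring

end Pool.Agent.RCG
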