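import Pool.Agent.RCG.Targets

set_option autoImplicit false

/-!
# RCG, AVG: average over words
-/

namespace Pool.Agent.RCG

open Finset

namespace AVG_

variable {G : Type} [Group G] [Fintype G]

omit [Fintype G] in
lemma ev_triv {d n : ℕ} (y : Fin d → G) (w : Fin n → Ltr d)
    (h : FreeGroup.mk (List.ofFn w) = 1) : ev y w = 1 := by
  unfold ev
  rw [h, map_one]

lemma swap (h1 : T_ITR) (d n : ℕ) (f : G → ℝ) :
    ∑ y : Fin d → G, ∑ x, f x * (adj y)^[n] f x =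
      ∑ w : Fin n → Ltr d, ∑ y : Fin d → G, ∑ x, f x * f (x * ev y w) := by
  rw [Finset.sum_comm (s := (univ : Finset (Fin n → Ltr d)))]
  refine Finset.sum_congr rfl fun y _ => ?_
  rw [Finset.sum_comm (s := (univ : Finset (Fin n → Ltr d)))]
  refine Finset.sum_congr rfl fun x _ => ?_
  rw [h1 G d n y f x, Finset.mul_sum]

lemma triv_sum {d n : ℕ} (f : G → ℝ) (w : Fin n → Ltr d)
    (h : FreeGroup.mk (List.ofFn w) = 1) :
    ∑ y : Fin d → G, ∑ x, f x * f (x * ev y w) =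
      (Fintype.card G : ℝ) ^ d * ∑ x, f x ^ 2 := by
  have h2 : ∀ y : Fin d → G, ∑ x, f x * f (x * ev y w) = ∑ x, f x ^ 2 := by
    intro y
    refine Finset.sum_congr rfl fun x _ => ?_
    rw [ev_triv y w h, mul_one, sq]
  rw [Finset.sum_congr rfl fun y _ => h2 y, Finset.sum_const, Finset.card_univ,
    Fintype.card_fun, Fintype.card_fin, nsmul_eq_mul]
  push_cast
  rfl

end AVG_

theorem prove_AVG (h1 : T_ITR) (h2 : T_KES) : T_AVG := by
  classical
  intro G _ _ d n η hd hη f hw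
  rw [AVG_.swap h1]
  have hk : (0 : ℝ) < 2 * (d : ℝ) := by
    have : (1 : ℝ) ≤ d := by exact_mod_cast hd
    linarith
  have hs : (0 : ℝ) ≤ (Fintype.card G : ℝ) ^ d * ∑ x, f x ^ 2 :=
    mul_nonneg (by positivity) (Finset.sum_nonneg fun x _ => sq_nonneg _)
  have h3 : ∑ w : Fin n → Ltr d, ∑ y : Fin d → G, ∑ x, f x * f (x * ev y w) ≤
      ∑ w : Fin n → Ltr d, ((if FreeGroup.mk (List.ofFn w) = 1 then (1 : ℝ) else 0) + η) *
        ((Fintype.card G : ℝ) ^ d * ∑ x, f x ^ 2) := by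
    refine Finset.sum_le_sum fun w _ => ?_
    split_ifs with h
    · rw [AVG_.triv_sum f w h]
      nlinarith
    · rw [zero_add, ← mul_assoc]
      exact hw w h
  refine h3.trans ?_
  rw [← Finset.sum_mul, Finset.sum_add_distrib, Finset.sum_const, Finset.card_univ,
    Finset.sum_boole]
  have h4 : ((Finset.univ.filter fun w : Fin n → Ltr d =>
      FreeGroup.mk (List.ofFn w) = 1).card : ℝ) ≤ (2 * √(2 * (d : ℝ))) ^ n := by
    have h5 := h2 d n hd
    rwa [Nat.card_eq_fintype_card, Fintype.card_subtype] at h5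
  have h6 : (Fintype.card (Fin n → Ltr d) : ℝ) = (2 * (d : ℝ)) ^ n := by
    rw [Fintype.card_fun, Fintype.card_fin]
    have : Fintype.card (Ltr d) = d * 2 := by simp [Ltr]
    rw [this]
    push_cast
    ring
  rw [nsmul_eq_mul, h6]
  have h7 : (2 * (d : ℝ)) ^ n * (2 / √(2 * (d : ℝ))) ^ n = (2 * √(2 * (d : ℝ))) ^ n := by
    rw [← mul_pow]
    congr 1
    have h8 : √(2 * (d : ℝ)) * √(2 * (d : ℝ)) = 2 * (d : ℝ) := Real.mul_self_sqrt hk.le
    have h9 : √(2 * (d : ℝ)) ≠ 0 := (Real.sqrt_pos.2 hk).ne'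
    field_simp
    rw [sq]
    linarith
  have h10 : (2 * (d : ℝ)) ^ n * (Fintype.card G : ℝ) ^ d *
      ((2 / √(2 * (d : ℝ))) ^ n + η) * ∑ x, f x ^ 2 =
      ((2 * √(2 * (d : ℝ))) ^ n + (2 * (d : ℝ)) ^ n * η) *
        ((Fintype.card G : ℝ) ^ d * ∑ x, f x ^ 2) := by
    rw [← h7]
    ring
  rw [h10]
  exact mul_le_mul_of_nonneg_right (by linarith) hs

end Pool.Agent.RCG
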