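import Pool.Agent.RCG.Targets4
import Pool.Agent.RCG.Fin

set_option autoImplicit false

/-!
# RCG: BC2, the improved machine for `SL (2, p)`
-/

namespace Pool.Agent.RCG

open Finset

namespace BC2_

theorem good (h1 : T_MACH2) (h2 : T_AB2) (a : ℝ) (ha : 0 ≤ a) (d : ℕ) (hd : 1 ≤ d) :
    Good G2 (fun p => (p.1 : ℝ)) d
      (56 * √(3 + a + 1) * √(2 * (d : ℝ) * Real.log (2 * (d : ℝ)))) a :=
  h1 Nat.Primes G2 (fun p => (p.1 : ℝ)) 3 a (by norm_num) ha FIN_.card_le h2 d hd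

end BC2_

theorem prove_BC2 (h1 : T_MACH2) (h2 : T_AB2) : T_BC2 := by
  intro a ha d hd
  obtain ⟨K, P, hKP⟩ := BC2_.good h1 h2 (a + 1) (by linarith) d (by omega)
  have hB : (3 : ℝ) + (a + 1) + 1 = a + 5 := by ring
  rw [hB] at hKP
  refine ⟨max 1 (max ⌈P⌉₊ ⌈K⌉₊), ?_⟩
  intro p hp hpP
  have hp1 : (P : ℝ) ≤ p := by
    have : ⌈P⌉₊ ≤ p := (le_max_left _ _).trans ((le_max_right _ _).trans hpP)
    exact (Nat.le_ceil P).trans (by exact_mod_cast this)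
  have hp2 : (K : ℝ) ≤ p := by
    have : ⌈K⌉₊ ≤ p := (le_max_right _ _).trans ((le_max_right _ _).trans hpP)
    exact (Nat.le_ceil K).trans (by exact_mod_cast this)
  have hp0 : (0 : ℝ) < p := by exact_mod_cast hp.out.pos
  have h5 := hKP ⟨p, hp.out⟩ hp1
  have h6 : K * (p : ℝ) ^ (-(a + 1)) ≤ (p : ℝ) ^ (-a) := by
    have h7 : (p : ℝ) ^ (-(a + 1)) = (p : ℝ) ^ (-a) * (p : ℝ)⁻¹ := by
      rw [show -(a + 1) = -a + (-1) by ring, Real.rpow_add hp0, Real.rpow_neg_one]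
    rw [h7]
    have h8 : 0 < (p : ℝ) ^ (-a) := Real.rpow_pos_of_pos hp0 _
    calc K * ((p : ℝ) ^ (-a) * (p : ℝ)⁻¹) = (p : ℝ) ^ (-a) * (K / p) := by
          field_simp
      _ ≤ (p : ℝ) ^ (-a) * 1 := by
          apply mul_le_mul_of_nonneg_left _ h8.le
          rw [div_le_one hp0]
          exact hp2
      _ = (p : ℝ) ^ (-a) := mul_one _
  refine h5.trans ?_
  apply mul_le_mul_of_nonneg_right h6
  positivity

end Pool.Agent.RCG
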