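import Pool.Agent.RCG.Targets7

set_option autoImplicit false

/-!
# RCG: BC7, from `FN7` to the statement about all large primes
-/

namespace Pool.Agent.RCG

open Finset

namespace BC7_

theorem pow_bound (K x : ℝ) (hx : 0 < x) (hK : (max K 1) ^ 12 ≤ x) :
    K * x ^ (-(1 / 3 : ℝ)) ≤ x ^ (-(1 / 4 : ℝ)) := by
  have h1 : x ^ (-(1 / 3 : ℝ)) = x ^ (-(1 / 4 : ℝ)) * (x ^ (1 / 12 : ℝ))⁻¹ := by
    rw [← Real.rpow_neg hx.le, ← Real.rpow_add hx]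
    norm_num
  have hm : (0 : ℝ) ≤ max K 1 := zero_le_one.trans (le_max_right _ _)
  have h2 : max K 1 ≤ x ^ (1 / 12 : ℝ) := by
    have h3 : ((max K 1) ^ 12) ^ (1 / 12 : ℝ) ≤ x ^ (1 / 12 : ℝ) :=
      Real.rpow_le_rpow (by positivity) hK (by norm_num)
    have h4 : ((max K 1) ^ 12) ^ (1 / 12 : ℝ) = max K 1 := by
      rw [← Real.rpow_natCast, ← Real.rpow_mul hm]
      norm_num
    rwa [h4] at h3
  have h5 : 0 < x ^ (1 / 12 : ℝ) := Real.rpow_pos_of_pos hx _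
  have h6 : 0 < x ^ (-(1 / 4 : ℝ)) := Real.rpow_pos_of_pos hx _
  have h7 : K * (x ^ (1 / 12 : ℝ))⁻¹ ≤ 1 := by
    rw [← div_eq_mul_inv, div_le_one h5]
    exact (le_max_left _ _).trans h2
  calc K * x ^ (-(1 / 3 : ℝ)) = x ^ (-(1 / 4 : ℝ)) * (K * (x ^ (1 / 12 : ℝ))⁻¹) := by
        rw [h1]
        ring
    _ ≤ x ^ (-(1 / 4 : ℝ)) * 1 := mul_le_mul_of_nonneg_left h7 h6.le
    _ = _ := mul_one _

end BC7_

theorem prove_BC7 (h1 : T_FN7) : T_BC7 := by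
  intro d hd
  obtain ⟨K, P, hKP⟩ := h1 d hd
  refine ⟨max ⌈P⌉₊ ⌈(max K 1) ^ 12⌉₊, ?_⟩
  intro p hp hpP
  have hp1 : (P : ℝ) ≤ p := by
    have : ⌈P⌉₊ ≤ p := (le_max_left _ _).trans hpP
    exact (Nat.le_ceil P).trans (by exact_mod_cast this)
  have hp2 : (max K 1) ^ 12 ≤ (p : ℝ) := by
    have : ⌈(max K 1) ^ 12⌉₊ ≤ p := (le_max_right _ _).trans hpP
    exact (Nat.le_ceil _).trans (by exact_mod_cast this)
  have hp0 : (0 : ℝ) < p := by exact_mod_cast hp.out.pos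
  have h5 := hKP ⟨p, hp.out⟩ hp1
  refine h5.trans ?_
  apply mul_le_mul_of_nonneg_right (BC7_.pow_bound K p hp0 hp2)
  positivity

end Pool.Agent.RCG
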