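import Pool.Agent.RCG.Targets11
import Pool.Agent.RCG.BC7
import Pool.Agent.RCG.ELE

set_option autoImplicit false

/-!
# RCG: BC9, from `FN9` to the statement about all large primes (helper23)
-/

namespace Pool.Agent.RCG

open Finset

namespace BC9_

theorem compare {δ : ℝ} (hδ : 0 < δ) {d : ℝ}
    (h : (2 + 2 * δ) ^ 2 ≤ 2 * d * (δ * (4 + 3 * δ))) :
    (2 + δ) * √(2 * d) ≤ (1 + δ) * (2 * √(2 * d - 1)) := by
  have h1 : (2 + δ) * √(2 * d) = √((2 + δ) ^ 2 * (2 * d)) := by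
    rw [Real.sqrt_mul (x := (2 + δ) ^ 2) (by positivity), Real.sqrt_sq (by positivity)]
  have h2 : (1 + δ) * (2 * √(2 * d - 1)) = √((2 + 2 * δ) ^ 2 * (2 * d - 1)) := by
    rw [Real.sqrt_mul (x := (2 + 2 * δ) ^ 2) (by positivity), Real.sqrt_sq (by positivity)]
    ring
  rw [h1, h2]
  apply Real.sqrt_le_sqrt
  nlinarith

end BC9_

theorem prove_BC9 (h1 : T_FN9) : T_BC9 := by
  intro δ hδ
  obtain ⟨D, hD⟩ := h1 δ hδ
  refine ⟨max (max D 1) ⌈(2 + 2 * δ) ^ 2 / (2 * (δ * (4 + 3 * δ)))⌉₊,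
    le_trans (le_max_right _ _) (le_max_left _ _), ?_⟩
  intro d hd
  have hdD : D ≤ d := le_trans (le_trans (le_max_left _ _) (le_max_left _ _)) hd
  have hd2 : (2 + 2 * δ) ^ 2 ≤ 2 * (d : ℝ) * (δ * (4 + 3 * δ)) := by
    have h2 : ⌈(2 + 2 * δ) ^ 2 / (2 * (δ * (4 + 3 * δ)))⌉₊ ≤ d := (le_max_right _ _).trans hd
    have h3 : (2 + 2 * δ) ^ 2 / (2 * (δ * (4 + 3 * δ))) ≤ d :=
      (Nat.le_ceil _).trans (by exact_mod_cast h2)
    rw [div_le_iff₀ (by positivity)] at h3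
    linarith
  obtain ⟨K, P, hKP⟩ := hD d hdD
  refine ⟨max ⌈P⌉₊ ⌈(max K 1) ^ 12⌉₊, ?_⟩
  intro p hp hpP
  have hp1 : (P : ℝ) ≤ p := by
    have : ⌈P⌉₊ ≤ p := (le_max_left _ _).trans hpP
    exact (Nat.le_ceil P).trans (by exact_mod_cast this)
  have hp2 : (max K 1) ^ 12 ≤ (p : ℝ) := by
    have : ⌈(max K 1) ^ 12⌉₊ ≤ p := (le_max_right _ _).trans hpP
    exact (Nat.le_ceil _).trans (by exact_mod_cast this)
  have hp0 : (0 : ℝ) < p := by exact_mod_cast hp.out.pos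
  have h5 := hKP ⟨p, hp.out⟩ hp1
  have h6 : (badCard (SL 2 p) d ((1 + δ) * (2 * √(2 * (d : ℝ) - 1))) : ℝ) ≤
      badCard (SL 2 p) d ((2 + δ) * √(2 * (d : ℝ))) := by
    exact_mod_cast ELE_.bad_mono (BC9_.compare hδ hd2)
  refine h6.trans (h5.trans ?_)
  apply mul_le_mul_of_nonneg_right (BC7_.pow_bound K p hp0 hp2)
  positivity

end Pool.Agent.RCG
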