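import Pool.Agent.RCG.Targets

/-!
# RCG: DIM2

The Frobenius dimension bound: every nonzero left-invariant space of functions of sum zero on
`SL (2, p)` has dimension at least `(p - 1) / 2`.
-/

set_option autoImplicit false

namespace Pool.Agent.RCG

open Finset

namespace DIM2_

variable {p : ℕ}

/-- upper unipotent matrices -/
def U (t : ZMod p) : SL 2 p := ⟨!![1, t; 0, 1], by simp [Matrix.det_fin_two_of]⟩

/-- lower unipotent matrices -/
def L (t : ZMod p) : SL 2 p := ⟨!![1, 0; t, 1], by simp [Matrix.det_fin_two_of]⟩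

/-- the Weyl element -/
def W : SL 2 p := ⟨!![0, 1; -1, 0], by simp [Matrix.det_fin_two_of]⟩

/-- its inverse -/
def W' : SL 2 p := ⟨!![0, -1; 1, 0], by simp [Matrix.det_fin_two_of]⟩

/-- diagonal matrices -/
def D (a : (ZMod p)ˣ) : SL 2 p :=
  ⟨!![(a : ZMod p), 0; 0, ((a⁻¹ : (ZMod p)ˣ) : ZMod p)], by simp [Matrix.det_fin_two_of]⟩

theorem U_mul (s t : ZMod p) : (U s * U t : SL 2 p) = U (s + t) := by
  apply Subtype.ext
  change !![1, s; 0, 1] * !![1, t; 0, 1] = !![1, s + t; 0, 1]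
  simp [add_comm]

theorem D_mul_U (a : (ZMod p)ˣ) (s : ZMod p) :
    (D a * U s : SL 2 p) = U ((a : ZMod p) ^ 2 * s) * D a := by
  apply Subtype.ext
  change !![(a : ZMod p), 0; 0, ((a⁻¹ : (ZMod p)ˣ) : ZMod p)] * !![1, s; 0, 1] =
    !![1, (a : ZMod p) ^ 2 * s; 0, 1] * !![(a : ZMod p), 0; 0, ((a⁻¹ : (ZMod p)ˣ) : ZMod p)]
  have h : (a : ZMod p) * ((a⁻¹ : (ZMod p)ˣ) : ZMod p) = 1 := by rw [← Units.val_mul]; simp
  have h2 : (a : ZMod p) ^ 2 * s * ((a⁻¹ : (ZMod p)ˣ) : ZMod p) = (a : ZMod p) * s := by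
    linear_combination ((a : ZMod p) * s) * h
  rw [Matrix.mul_fin_two, Matrix.mul_fin_two]
  simp only [mul_one, mul_zero, zero_mul, one_mul, add_zero, zero_add, h2]

theorem W_mul_W' : (W * W' : SL 2 p) = 1 := by
  apply Subtype.ext
  change !![0, 1; -1, 0] * !![0, -1; 1, 0] = (1 : Matrix (Fin 2) (Fin 2) (ZMod p))
  rw [Matrix.mul_fin_two, Matrix.one_fin_two]
  simp

theorem W_conj (t : ZMod p) : (W * U (-t) * W' : SL 2 p) = L t := by
  apply Subtype.ext
  change !![0, 1; -1, 0] * !![1, -t; 0, 1] * !![0, -1; 1, 0] = !![1, 0; t, 1]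
  rw [Matrix.mul_fin_two, Matrix.mul_fin_two]
  simp

theorem gen_of_ne [Fact p.Prime] (M : SL 2 p) (hc : M.1 1 0 ≠ 0) :
    M = U ((M.1 0 0 - 1) / M.1 1 0) * L (M.1 1 0) * U ((M.1 1 1 - 1) / M.1 1 0) := by
  have hdet : M.1 0 0 * M.1 1 1 - M.1 0 1 * M.1 1 0 = 1 := by
    have := M.2
    rwa [Matrix.det_fin_two] at this
  apply Subtype.ext
  change M.1 = !![1, (M.1 0 0 - 1) / M.1 1 0; 0, 1] * !![1, 0; M.1 1 0, 1] *
    !![1, (M.1 1 1 - 1) / M.1 1 0; 0, 1]
  rw [Matrix.mul_fin_two, Matrix.mul_fin_two]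
  have e1 : (M.1 0 0 - 1) / M.1 1 0 * M.1 1 0 = M.1 0 0 - 1 := div_mul_cancel₀ _ hc
  have e2 : M.1 1 0 * ((M.1 1 1 - 1) / M.1 1 0) = M.1 1 1 - 1 := mul_div_cancel₀ _ hc
  have e3 : M.1 0 0 * ((M.1 1 1 - 1) / M.1 1 0) + (M.1 0 0 - 1) / M.1 1 0 = M.1 0 1 := by
    field_simp
    linear_combination hdet
  ext i j
  fin_cases i <;> fin_cases j
  · simp [e1]
  · simp only [mul_one, mul_zero, one_mul, add_zero, zero_add, e1, add_sub_cancel]
    simp [e3]
  · simp
  · simp [e2]

/-- a subgroup-like set containing the unipotent matrices is everything -/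
theorem gen [Fact p.Prime] (P : SL 2 p → Prop) (hU : ∀ t, P (U t)) (hL : ∀ t, P (L t))
    (hm : ∀ g h, P g → P h → P (g * h)) (M : SL 2 p) : P M := by
  by_cases hc : M.1 1 0 = 0
  · have hdet : M.1 0 0 * M.1 1 1 - M.1 0 1 * M.1 1 0 = 1 := by
      have := M.2
      rwa [Matrix.det_fin_two] at this
    have hd : M.1 1 1 ≠ 0 := by
      intro h
      rw [hc, h] at hdet
      simp at hdet
    have h1 : M = (M * L 1) * L (-1) := by
      have h2 : (L 1 * L (-1) : SL 2 p) = 1 := by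
        apply Subtype.ext
        change !![1, 0; 1, 1] * !![1, 0; -1, 1] = (1 : Matrix (Fin 2) (Fin 2) (ZMod p))
        rw [Matrix.mul_fin_two, Matrix.one_fin_two]
        simp
      rw [mul_assoc, h2, mul_one]
    rw [h1]
    apply hm _ _ _ (hL _)
    have h3 : (M * L 1).1 1 0 ≠ 0 := by
      have h4 : (M * L 1).1 1 0 = M.1 1 1 := by
        change (M.1 * !![1, 0; 1, 1] : Matrix (Fin 2) (Fin 2) (ZMod p)) 1 0 = M.1 1 1
        simp [Matrix.mul_apply, Fin.sum_univ_two, hc]
      rw [h4]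
      exact hd
    rw [gen_of_ne (M * L 1) h3]
    exact hm _ _ (hm _ _ (hU _) (hL _)) (hU _)
  · rw [gen_of_ne M hc]
    exact hm _ _ (hm _ _ (hU _) (hL _)) (hU _)

/-- left translation -/
def τ (g : SL 2 p) : (SL 2 p → ℂ) →ₗ[ℂ] (SL 2 p → ℂ) where
  toFun f x := f (g * x)
  map_add' _ _ := rfl
  map_smul' _ _ := rfl

theorem sq_inj [Fact p.Prime] {i j : ℕ} (hi : i < (p - 1) / 2) (hj : j < (p - 1) / 2)
    (h : ((i + 1 : ℕ) : ZMod p) ^ 2 = ((j + 1 : ℕ) : ZMod p) ^ 2) : i = j := by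
  rcases sq_eq_sq_iff_eq_or_eq_neg.1 h with h1 | h1
  · rw [ZMod.natCast_eq_natCast_iff'] at h1
    rw [Nat.mod_eq_of_lt (by omega), Nat.mod_eq_of_lt (by omega)] at h1
    omega
  · exfalso
    have h2 : ((i + 1 + (j + 1) : ℕ) : ZMod p) = 0 := by
      push_cast
      push_cast at h1
      rw [h1]
      ring
    rw [ZMod.natCast_eq_zero_iff] at h2
    have := Nat.le_of_dvd (by omega) h2
    omega

theorem unit_of_lt [Fact p.Prime] {i : ℕ} (hi : i < (p - 1) / 2) :
    ((i + 1 : ℕ) : ZMod p) ≠ 0 := by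
  intro h
  rw [ZMod.natCast_eq_zero_iff] at h
  have := Nat.le_of_dvd (by omega) h
  omega

theorem char_inj [Fact p.Prime] {ψ : AddChar (ZMod p) ℂ} (hψ : ψ ≠ 0) :
    Function.Injective ψ := by
  intro x y hxy
  by_contra hne
  have hd : x - y ≠ 0 := sub_ne_zero.2 hne
  have h1 : ψ (x - y) = 1 := by
    have h2 : ψ (x - y) * ψ y = ψ x := by rw [← AddChar.map_add_eq_mul, sub_add_cancel]
    have h3 : ψ y ≠ 0 := (AddChar.val_isUnit ψ y).ne_zero
    rw [hxy] at h2
    exact mul_right_cancel₀ h3 (h2.trans (one_mul _).symm)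
  apply hψ
  ext z
  rw [AddChar.zero_apply]
  have h4 : z = (z / (x - y)).val • (x - y) := by
    rw [nsmul_eq_mul, ZMod.natCast_val, ZMod.cast_id', id_eq, div_mul_cancel₀ _ hd]
  rw [h4, AddChar.map_nsmul_eq_pow, h1, one_pow]

end DIM2_

open DIM2_ in
theorem prove_DIM2 : T_DIM2 := by
  intro p hp hp2 V hV hsum hinv
  classical
  have hinv' : ∀ f ∈ V, ∀ g : SL 2 p, τ g f ∈ V := hinv
  -- the spectral components
  let F : AddChar (ZMod p) ℂ → (SL 2 p → ℂ) → (SL 2 p → ℂ) :=
    fun ψ f => ∑ t : ZMod p, ψ t • τ (U t) f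
  have hF : ∀ ψ f, f ∈ V → F ψ f ∈ V := by
    intro ψ f hf
    exact V.sum_mem fun t _ => V.smul_mem _ (hinv' f hf _)
  have hFs : ∀ ψ f (s : ZMod p) x, F ψ f (U s * x) = ψ (-s) * F ψ f x := by
    intro ψ f s x
    change (∑ t : ZMod p, ψ t • τ (U t) f) (U s * x) = ψ (-s) * (∑ t : ZMod p, ψ t • τ (U t) f) x
    rw [Finset.sum_apply, Finset.sum_apply, Finset.mul_sum]
    refine Fintype.sum_equiv (Equiv.addRight s) _ _ fun t => ?_
    change ψ t * f (U t * (U s * x)) = ψ (-s) * (ψ (t + s) * f (U (t + s) * x))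
    rw [← mul_assoc (U t), U_mul, ← mul_assoc, ← AddChar.map_add_eq_mul]
    congr 2
    ring
  have hFsum : ∀ f x, ∑ ψ : AddChar (ZMod p) ℂ, F ψ f x = p * f x := by
    intro f x
    have h1 : ∀ ψ : AddChar (ZMod p) ℂ, F ψ f x = ∑ t : ZMod p, ψ t * f (U t * x) := by
      intro ψ
      change (∑ t : ZMod p, ψ t • τ (U t) f) x = _
      rw [Finset.sum_apply]
      rfl
    simp_rw [h1]
    rw [Finset.sum_comm]
    simp_rw [← Finset.sum_mul, AddChar.sum_apply_eq_ite]
    rw [Finset.sum_eq_single (0 : ZMod p)]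
    · have h2 : (U 0 : SL 2 p) = 1 := by
        apply Subtype.ext
        change !![1, 0; 0, 1] = (1 : Matrix (Fin 2) (Fin 2) (ZMod p))
        rw [Matrix.one_fin_two]
      simp [h2, ZMod.card]
    · intro b _ hb
      simp [hb]
    · simp
  by_cases hcase : ∀ f ∈ V, ∀ ψ : AddChar (ZMod p) ℂ, ψ ≠ 0 → F ψ f = 0
  · exfalso
    apply hV
    rw [eq_bot_iff]
    intro f hf
    have hU1 : ∀ f ∈ V, ∀ s x, f (U s * x) = f x := by
      intro f hf s x
      have hp0 : (p : ℂ) ≠ 0 := Nat.cast_ne_zero.2 hp.out.ne_zero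
      have h1 : ∀ y, F 0 f y = p * f y := by
        intro y
        rw [← hFsum f y, Finset.sum_eq_single (0 : AddChar (ZMod p) ℂ)]
        · intro ψ _ hψ
          rw [hcase f hf ψ hψ]
          rfl
        · simp
      have h2 := hFs 0 f s x
      rw [h1, h1, AddChar.zero_apply, one_mul] at h2
      exact mul_left_cancel₀ hp0 h2
    have hall : ∀ M : SL 2 p, ∀ f ∈ V, ∀ x, f (M * x) = f x := by
      intro M
      refine gen (fun M => ∀ f ∈ V, ∀ x, f (M * x) = f x) (fun t f hf x => hU1 f hf t x) ?_ ?_ M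
      · intro t f hf x
        have h1 := hU1 (τ W f) (hinv' f hf W) (-t) (W' * x)
        change f (W * (U (-t) * (W' * x))) = f (W * (W' * x)) at h1
        rw [← W_conj t, mul_assoc, mul_assoc, h1, ← mul_assoc, W_mul_W', one_mul]
      · intro g h hg hh f hf x
        rw [mul_assoc, hg f hf, hh f hf]
    have hconst : ∀ x, f x = f 1 := fun x => by
      have := hall x f hf 1
      rwa [mul_one] at this
    have h0 : f 1 = 0 := by
      have h1 := hsum f hf
      rw [Finset.sum_congr rfl (fun x _ => hconst x), Finset.sum_const, nsmul_eq_mul] at h1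
      rcases mul_eq_zero.1 h1 with h2 | h2
      · exfalso
        have h3 : (Finset.univ : Finset (SL 2 p)).card = 0 := by exact_mod_cast h2
        rw [Finset.card_eq_zero] at h3
        exact Finset.univ_nonempty.ne_empty h3
      · exact h2
    rw [Submodule.mem_bot]
    funext x
    rw [hconst x, h0]
    rfl
  · push Not at hcase
    obtain ⟨f, hf, ψ, hψ, hne⟩ := hcase
    set e : SL 2 p → ℂ := F ψ f with he
    have heV : e ∈ V := hF ψ f hf
    have hes : ∀ s x, e (U s * x) = ψ (-s) * e x := hFs ψ f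
    have hinj : Function.Injective ψ := char_inj hψ
    let n := (p - 1) / 2
    let a : Fin n → (ZMod p)ˣ := fun i => Units.mk0 _ (unit_of_lt i.2)
    let v : Fin n → V := fun i => ⟨τ (D (a i)) e, hinv' e heV _⟩
    let μ : Fin n → ℂ := fun i => ψ (-((((i : ℕ) + 1 : ℕ) : ZMod p) ^ 2))
    have hμ : Function.Injective μ := by
      intro i j hij
      have h1 := neg_injective (hinj hij)
      exact Fin.ext (sq_inj i.2 j.2 h1)
    have hli : LinearIndependent ℂ (V.subtype ∘ v) := by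
      refine Module.End.eigenvectors_linearIndependent' (τ (U 1)) μ hμ _ ?_
      intro i
      rw [Module.End.hasEigenvector_iff]
      constructor
      · rw [Module.End.mem_eigenspace_iff]
        funext x
        change e (D (a i) * (U 1 * x)) = μ i * e (D (a i) * x)
        rw [← mul_assoc, D_mul_U, mul_assoc, hes, mul_one]
        rfl
      · intro h0
        apply hne
        funext x
        have h1 : (V.subtype ∘ v) i ((D (a i))⁻¹ * x) = 0 := by
          rw [h0]
          rfl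
        change e (D (a i) * ((D (a i))⁻¹ * x)) = 0 at h1
        rwa [mul_inv_cancel_left] at h1
    have hli' : LinearIndependent ℂ v := LinearIndependent.of_comp V.subtype hli
    have hcard := hli'.fintype_card_le_finrank
    rw [Fintype.card_fin] at hcard
    have hodd : p % 2 = 1 := hp.out.eq_two_or_odd.resolve_left hp2
    have h2n : p = 2 * n + 1 := by omega
    have h3 : ((p : ℝ) - 1) / 2 = (n : ℝ) := by
      rw [h2n]
      push_cast
      ring
    rw [h3]
    exact_mod_cast hcard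

end Pool.Agent.RCG
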