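import Pool.Agent.RCG.Targets7
import Pool.Agent.RCG.DIM2

/-!
# RCG: BD2

Every nonzero space of functions of sum zero on `SL (2, p)` which is invariant under left and right
translations has dimension at least `((p - 1) / 2) ^ 2`.
-/

set_option autoImplicit false

namespace Pool.Agent.RCG

open Finset

namespace BD2_

open DIM2_

variable {p : ℕ}

theorem exists_char [hp : Fact p.Prime] (V : Submodule ℂ (SL 2 p → ℂ)) (hV : V ≠ ⊥)
    (hsum : ∀ f ∈ V, ∑ x, f x = 0)
    (hinv : ∀ f ∈ V, ∀ g : SL 2 p, (fun x => f (g * x)) ∈ V) :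
    ∃ e ∈ V, ∃ ψ : AddChar (ZMod p) ℂ, ψ ≠ 0 ∧ e ≠ 0 ∧
      ∀ s x, e (U s * x) = ψ (-s) * e x := by
  classical
  have hinv' : ∀ f ∈ V, ∀ g : SL 2 p, τ g f ∈ V := hinv
  -- the spectral components
  let F : AddChar (ZMod p) ℂ → (SL 2 p → ℂ) → (SL 2 p → ℂ) :=
    fun ψ f => ∑ t : ZMod p, ψ t • τ (U t) f
  have hF : ∀ ψ f, f ∈ V → F ψ f ∈ V := by
    intro ψ f hf
    exact V.sum_mem fun t _ => V.smul_mem _ (hinv' f hf _)
  have hFs : ∀ ψ f (s : ZMod p) x, F ψ f (U s * x) = ψ (-s) * F ψ f x := by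
    intro ψ f s x
    change (∑ t : ZMod p, ψ t • τ (U t) f) (U s * x) = ψ (-s) * (∑ t : ZMod p, ψ t • τ (U t) f) x
    rw [Finset.sum_apply, Finset.sum_apply, Finset.mul_sum]
    refine Fintype.sum_equiv (Equiv.addRight s) _ _ fun t => ?_
    change ψ t * f (U t * (U s * x)) = ψ (-s) * (ψ (t + s) * f (U (t + s) * x))
    rw [← mul_assoc (U t), U_mul, ← mul_assoc, ← AddChar.map_add_eq_mul]
    congr 2
    ring
  have hFsum : ∀ f x, ∑ ψ : AddChar (ZMod p) ℂ, F ψ f x = p * f x := by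
    intro f x
    have h1 : ∀ ψ : AddChar (ZMod p) ℂ, F ψ f x = ∑ t : ZMod p, ψ t * f (U t * x) := by
      intro ψ
      change (∑ t : ZMod p, ψ t • τ (U t) f) x = _
      rw [Finset.sum_apply]
      rfl
    simp_rw [h1]
    rw [Finset.sum_comm]
    simp_rw [← Finset.sum_mul, AddChar.sum_apply_eq_ite]
    rw [Finset.sum_eq_single (0 : ZMod p)]
    · have h2 : (U 0 : SL 2 p) = 1 := by
        apply Subtype.ext
        change !![1, 0; 0, 1] = (1 : Matrix (Fin 2) (Fin 2) (ZMod p))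
        rw [Matrix.one_fin_two]
      simp [h2, ZMod.card]
    · intro b _ hb
      simp [hb]
    · simp
  by_cases hcase : ∀ f ∈ V, ∀ ψ : AddChar (ZMod p) ℂ, ψ ≠ 0 → F ψ f = 0
  · exfalso
    apply hV
    rw [eq_bot_iff]
    intro f hf
    have hU1 : ∀ f ∈ V, ∀ s x, f (U s * x) = f x := by
      intro f hf s x
      have hp0 : (p : ℂ) ≠ 0 := Nat.cast_ne_zero.2 hp.out.ne_zero
      have h1 : ∀ y, F 0 f y = p * f y := by
        intro y
        rw [← hFsum f y, Finset.sum_eq_single (0 : AddChar (ZMod p) ℂ)]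
        · intro ψ _ hψ
          rw [hcase f hf ψ hψ]
          rfl
        · simp
      have h2 := hFs 0 f s x
      rw [h1, h1, AddChar.zero_apply, one_mul] at h2
      exact mul_left_cancel₀ hp0 h2
    have hall : ∀ M : SL 2 p, ∀ f ∈ V, ∀ x, f (M * x) = f x := by
      intro M
      refine gen (fun M => ∀ f ∈ V, ∀ x, f (M * x) = f x) (fun t f hf x => hU1 f hf t x) ?_ ?_ M
      · intro t f hf x
        have h1 := hU1 (τ W f) (hinv' f hf W) (-t) (W' * x)
        change f (W * (U (-t) * (W' * x))) = f (W * (W' * x)) at h1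
        rw [← W_conj t, mul_assoc, mul_assoc, h1, ← mul_assoc, W_mul_W', one_mul]
      · intro g h hg hh f hf x
        rw [mul_assoc, hg f hf, hh f hf]
    have hconst : ∀ x, f x = f 1 := fun x => by
      have := hall x f hf 1
      rwa [mul_one] at this
    have h0 : f 1 = 0 := by
      have h1 := hsum f hf
      rw [Finset.sum_congr rfl (fun x _ => hconst x), Finset.sum_const, nsmul_eq_mul] at h1
      rcases mul_eq_zero.1 h1 with h2 | h2
      · exfalso
        have h3 : (Finset.univ : Finset (SL 2 p)).card = 0 := by exact_mod_cast h2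
        rw [Finset.card_eq_zero] at h3
        exact Finset.univ_nonempty.ne_empty h3
      · exact h2
    rw [Submodule.mem_bot]
    funext x
    rw [hconst x, h0]
    rfl
  · push Not at hcase
    obtain ⟨f, hf, ψ, hψ, hne⟩ := hcase
    exact ⟨F ψ f, hF ψ f hf, ψ, hψ, hne, hFs ψ f⟩

/-- the functions in `V` with `f (U s x) = ψ (-s) f x` -/
def E (V : Submodule ℂ (SL 2 p → ℂ)) (ψ : AddChar (ZMod p) ℂ) : Submodule ℂ (SL 2 p → ℂ) where
  carrier := {f | f ∈ V ∧ ∀ s x, f (U s * x) = ψ (-s) * f x}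
  add_mem' := by
    rintro f g ⟨hf, hf'⟩ ⟨hg, hg'⟩
    refine ⟨V.add_mem hf hg, fun s x => ?_⟩
    rw [Pi.add_apply, Pi.add_apply, hf', hg']
    ring
  zero_mem' := ⟨V.zero_mem, fun s x => by simp⟩
  smul_mem' := by
    rintro c f ⟨hf, hf'⟩
    refine ⟨V.smul_mem c hf, fun s x => ?_⟩
    rw [Pi.smul_apply, Pi.smul_apply, hf', smul_eq_mul, smul_eq_mul]
    ring

theorem finrank_E [hp : Fact p.Prime] (h : T_DIM2) (hp2 : p ≠ 2)
    (V : Submodule ℂ (SL 2 p → ℂ)) (hsum : ∀ f ∈ V, ∑ x, f x = 0)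
    (hinvr : ∀ f ∈ V, ∀ g : SL 2 p, (fun x => f (x * g)) ∈ V)
    (ψ : AddChar (ZMod p) ℂ) (hne : E V ψ ≠ ⊥) :
    ((p : ℝ) - 1) / 2 ≤ Module.finrank ℂ (E V ψ) := by
  set L := LinearEquiv.funCongrLeft ℂ ℂ (Equiv.inv (SL 2 p)) with hL
  have hLa : ∀ f x, L f x = f x⁻¹ := fun f x => rfl
  have h1 := h p hp2 ((E V ψ).map (L : (SL 2 p → ℂ) →ₗ[ℂ] (SL 2 p → ℂ))) ?_ ?_ ?_
  · rwa [LinearEquiv.finrank_map_eq] at h1
  · intro h0
    apply hne
    rw [Submodule.map_eq_bot_iff] at h0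
    exact h0
  · intro f hf
    obtain ⟨w, hw, rfl⟩ := Submodule.mem_map.1 hf
    rw [← hsum w hw.1]
    exact Fintype.sum_equiv (Equiv.inv _) _ _ fun x => rfl
  · intro f hf g
    obtain ⟨w, hw, rfl⟩ := Submodule.mem_map.1 hf
    refine Submodule.mem_map.2 ⟨fun x => w (x * g⁻¹), ⟨hinvr w hw.1 g⁻¹, fun s x => ?_⟩, ?_⟩
    · simp only
      rw [mul_assoc, hw.2]
    · funext x
      change w (x⁻¹ * g⁻¹) = w (g * x)⁻¹
      rw [mul_inv_rev]

end BD2_

open DIM2_ BD2_ in
theorem prove_BD2 (h : T_DIM2) : T_BD2 := by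
  intro p hp hp2 V hV hsum hinv hinvr
  classical
  obtain ⟨e, heV, ψ, hψ, hne, hes⟩ := exists_char V hV hsum hinv
  have hinv' : ∀ f ∈ V, ∀ g : SL 2 p, τ g f ∈ V := hinv
  have hE : E V ψ ≠ ⊥ := by
    intro h0
    apply hne
    have : e ∈ E V ψ := ⟨heV, hes⟩
    rw [h0] at this
    exact (Submodule.mem_bot ℂ).1 this
  have hfr := finrank_E h hp2 V hsum hinvr ψ hE
  have hinj : Function.Injective ψ := char_inj hψ
  let n := (p - 1) / 2
  let a : Fin n → (ZMod p)ˣ := fun i => Units.mk0 _ (unit_of_lt i.2)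
  let μ : Fin n → ℂ := fun i => ψ (-((((i : ℕ) + 1 : ℕ) : ZMod p) ^ 2))
  have hμ : Function.Injective μ := by
    intro i j hij
    have h1 := neg_injective (hinj hij)
    exact Fin.ext (sq_inj i.2 j.2 h1)
  let Φ : (Fin n → E V ψ) →ₗ[ℂ] V :=
    { toFun := fun w => ⟨∑ i, τ (D (a i)) (w i : SL 2 p → ℂ),
        V.sum_mem fun i _ => hinv' _ (w i).2.1 _⟩
      map_add' := by
        intro w w'
        apply Subtype.ext
        simp [Finset.sum_add_distrib]
      map_smul' := by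
        intro c w
        apply Subtype.ext
        simp [Finset.smul_sum] }
  have hΦ : Function.Injective Φ := by
    rw [injective_iff_map_eq_zero]
    intro w hw
    have hw0 : ∑ i, τ (D (a i)) (w i : SL 2 p → ℂ) = 0 := congrArg Subtype.val hw
    have hind := (Module.End.eigenspaces_iSupIndep (τ (p := p) (U 1))).comp hμ
    have h2 := (iSupIndep_iff_finsetSum_eq_zero_imp_eq_zero _).1 hind Finset.univ
      (fun i => τ (D (a i)) (w i : SL 2 p → ℂ)) ?_ hw0
    · funext i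
      have h3 := h2 i (Finset.mem_univ i)
      apply Subtype.ext
      funext x
      have h4 := congrFun h3 ((D (a i))⁻¹ * x)
      change (w i : SL 2 p → ℂ) (D (a i) * ((D (a i))⁻¹ * x)) = 0 at h4
      rw [mul_inv_cancel_left] at h4
      exact h4
    · intro i _
      change _ ∈ Module.End.eigenspace (τ (p := p) (U 1)) (μ i)
      rw [Module.End.mem_eigenspace_iff]
      funext x
      change (w i : SL 2 p → ℂ) (D (a i) * (U 1 * x)) = μ i * (w i : SL 2 p → ℂ) (D (a i) * x)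
      rw [← mul_assoc, D_mul_U, mul_assoc, (w i).2.2, mul_one]
      rfl
  have h5 := LinearMap.finrank_le_finrank_of_injective hΦ
  rw [Module.finrank_pi_fintype] at h5
  simp only [Finset.sum_const, Finset.card_univ, Fintype.card_fin, smul_eq_mul] at h5
  have hodd : p % 2 = 1 := hp.out.eq_two_or_odd.resolve_left hp2
  have h2n : p = 2 * n + 1 := by omega
  have h3 : ((p : ℝ) - 1) / 2 = (n : ℝ) := by
    rw [h2n]
    push_cast
    ring
  rw [h3] at hfr ⊢
  have h6 : ((n * Module.finrank ℂ (E V ψ) : ℕ) : ℝ) ≤ Module.finrank ℂ V := by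
    exact_mod_cast h5
  push_cast at h6
  nlinarith [Nat.cast_nonneg (α := ℝ) n]

end Pool.Agent.RCG
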