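import Pool.Agent.RCG.Targets8

set_option autoImplicit false

/-!
# RCG, BEN: choice of the parameter in the exponential moment bound
-/

namespace Pool.Agent.RCG

open Finset Matrix

namespace BEN_

open Filter Topology

lemma tends (A B r : ℝ) (hr : 0 < r) :
    Tendsto (fun q : ℝ => A * (Real.log q * q ^ (-r)) + B * q ^ (-r)) atTop (𝓝 0) := by
  have h1 : Tendsto (fun q : ℝ => q ^ (-r)) atTop (𝓝 0) := tendsto_rpow_neg_atTop hr
  have h2 : Tendsto (fun q : ℝ => Real.log q * q ^ (-r)) atTop (𝓝 0) := by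
    have h3 := (isLittleO_log_rpow_atTop hr).tendsto_div_nhds_zero
    refine h3.congr' ?_
    filter_upwards [eventually_ge_atTop (0 : ℝ)] with q hq
    rw [Real.rpow_neg hq, div_eq_mul_inv]
  have h4 := (h2.const_mul A).add (h1.const_mul B)
  simpa using h4

/-- the size of the variance -/
lemma small (ε K q ν : ℝ) (hε : 0 < ε) (hε1 : ε ≤ 1) (hK : 0 ≤ K) (hq : 1 ≤ q)
    (h : ν ≤ K * q ^ (-ε)) :
    ν + √ν + 1 / q ≤ (K + √K + 1) * q ^ (-(ε / 2)) := by
  have hq0 : 0 < q := by linarith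
  have e1 : q ^ (-ε) ≤ q ^ (-(ε / 2)) :=
    Real.rpow_le_rpow_of_exponent_le hq (by linarith)
  have e2 : 1 / q ≤ q ^ (-(ε / 2)) := by
    rw [one_div, ← Real.rpow_neg_one]
    exact Real.rpow_le_rpow_of_exponent_le hq (by linarith)
  have e3 : √ν ≤ √K * q ^ (-(ε / 2)) := by
    have e4 : √(K * q ^ (-ε)) = √K * q ^ (-(ε / 2)) := by
      rw [Real.sqrt_mul hK, Real.sqrt_eq_rpow (q ^ (-ε)), ← Real.rpow_mul hq0.le]
      congr 2
      ring
    rw [← e4]
    exact Real.sqrt_le_sqrt h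
  have e5 : ν ≤ K * q ^ (-(ε / 2)) := h.trans (mul_le_mul_of_nonneg_left e1 hK)
  linarith

end BEN_

open BEN_ Filter Topology in
theorem prove_BEN : T_BEN := by
  intro ε K C z d hε hε1 hK hC hz
  set C' : ℝ := C * (K + √K + 1) with hC'
  have hC'0 : 0 ≤ C' := by positivity
  have hr : 0 < ε / 4 := by linarith
  have ht := tends (ε / (4 * z) * √C') (C' / z ^ 2) (ε / 4) hr
  have hev : ∀ᶠ q : ℝ in atTop, ε / (4 * z) * √C' * (Real.log q * q ^ (-(ε / 4))) +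
      C' / z ^ 2 * q ^ (-(ε / 4)) < 1 := ht.eventually_lt_const (by norm_num)
  obtain ⟨P0, hP0⟩ := eventually_atTop.mp (hev.and (eventually_ge_atTop ((2 : ℝ) ^ d)))
  refine ⟨max P0 1, le_max_right _ _, ?_⟩
  intro q ν hPq hν hνK
  have hq1 : 1 ≤ q := (le_max_right _ _).trans hPq
  have hq0 : 0 < q := by linarith
  obtain ⟨hg, h2d⟩ := hP0 q ((le_max_left _ _).trans hPq)
  have hlog : 0 ≤ Real.log q := Real.log_nonneg hq1
  refine ⟨ε * Real.log q / (4 * z), by positivity, ?_⟩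
  set s : ℝ := C * (ν + √ν + 1 / q) with hs
  have hs0 : 0 ≤ s := by positivity
  have hsm : s ≤ C' * q ^ (-(ε / 2)) := by
    have h := mul_le_mul_of_nonneg_left (small ε K q ν hε hε1 hK hq1 hνK) hC
    calc s ≤ C * ((K + √K + 1) * q ^ (-(ε / 2))) := h
      _ = C' * q ^ (-(ε / 2)) := by rw [hC']; ring
  have e1 : Real.exp (-(ε * Real.log q / (4 * z) * (20 / ε * z))) = q ^ (-(5 : ℝ)) := by
    rw [Real.rpow_def_of_pos hq0]
    congr 1
    field_simp
    ring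
  have e2 : Real.exp (ε * Real.log q / (4 * z) * z) = q ^ (ε / 4) := by
    rw [Real.rpow_def_of_pos hq0]
    congr 1
    field_simp
  have hsq : √s ≤ √C' * q ^ (-(ε / 4)) := by
    have e4 : √(C' * q ^ (-(ε / 2))) = √C' * q ^ (-(ε / 4)) := by
      rw [Real.sqrt_mul hC'0, Real.sqrt_eq_rpow (q ^ (-(ε / 2))), ← Real.rpow_mul hq0.le]
      congr 2
      ring
    rw [← e4]
    exact Real.sqrt_le_sqrt hsm
  have hb1 : ε * Real.log q / (4 * z) * √s ≤
      ε / (4 * z) * √C' * (Real.log q * q ^ (-(ε / 4))) := by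
    calc ε * Real.log q / (4 * z) * √s
        ≤ ε * Real.log q / (4 * z) * (√C' * q ^ (-(ε / 4))) :=
          mul_le_mul_of_nonneg_left hsq (by positivity)
      _ = ε / (4 * z) * √C' * (Real.log q * q ^ (-(ε / 4))) := by ring
  have hb2 : q ^ (ε / 4) / z ^ 2 * s ≤ C' / z ^ 2 * q ^ (-(ε / 4)) := by
    have e5 : q ^ (ε / 4) * q ^ (-(ε / 2)) = q ^ (-(ε / 4)) := by
      rw [← Real.rpow_add hq0]
      congr 1
      ring
    calc q ^ (ε / 4) / z ^ 2 * s ≤ q ^ (ε / 4) / z ^ 2 * (C' * q ^ (-(ε / 2))) :=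
          mul_le_mul_of_nonneg_left hsm (by positivity)
      _ = C' / z ^ 2 * (q ^ (ε / 4) * q ^ (-(ε / 2))) := by ring
      _ = C' / z ^ 2 * q ^ (-(ε / 4)) := by rw [e5]
  rw [e1, e2]
  have hbr : 1 + ε * Real.log q / (4 * z) * √s + q ^ (ε / 4) / z ^ 2 * s ≤ 2 := by linarith
  have hbr0 : 0 ≤ 1 + ε * Real.log q / (4 * z) * √s + q ^ (ε / 4) / z ^ 2 * s := by positivity
  have hpow : (1 + ε * Real.log q / (4 * z) * √s + q ^ (ε / 4) / z ^ 2 * s) ^ d ≤ q :=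
    (pow_le_pow_left₀ hbr0 hbr d).trans h2d
  have e6 : q ^ 3 * q ^ (-(5 : ℝ)) * q = q⁻¹ := by
    have e7 : q ^ (-(5 : ℝ)) = (q ^ 5)⁻¹ := by
      rw [Real.rpow_neg hq0.le]
      congr 1
      exact_mod_cast Real.rpow_natCast q 5
    rw [e7]
    field_simp
  calc q ^ 3 * q ^ (-(5 : ℝ)) * (1 + ε * Real.log q / (4 * z) * √s + q ^ (ε / 4) / z ^ 2 * s) ^ d
      ≤ q ^ 3 * q ^ (-(5 : ℝ)) * q := mul_le_mul_of_nonneg_left hpow (by positivity)
    _ = q⁻¹ := e6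

end Pool.Agent.RCG
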