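import Pool.Agent.RCG.Targets5

set_option autoImplicit false

/-!
# RCG: Chebyshev's inequality for the binomial distribution (target `T_BIN`)
-/

namespace Pool.Agent.RCG

open Finset

namespace BIN_

theorem variance (t : ℕ) : ∑ j ∈ range (t + 1), ((t : ℝ) / 2 - j) ^ 2 * (t.choose j : ℝ) =
    (2 : ℝ) ^ t * ((t : ℝ) / 4) := by
  have h := congrArg (Polynomial.eval (1 / 2 : ℝ)) (bernsteinPolynomial.variance ℝ t)
  rw [Polynomial.eval_finsetSum] at h
  have e : ∀ j ∈ range (t + 1), Polynomial.eval (1 / 2 : ℝ)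
      ((t • Polynomial.X - (j : Polynomial ℝ)) ^ 2 * bernsteinPolynomial ℝ t j) =
      ((t : ℝ) / 2 - j) ^ 2 * (t.choose j : ℝ) / 2 ^ t := by
    intro j hj
    have hj' : j ≤ t := Nat.lt_succ_iff.1 (mem_range.1 hj)
    rw [bernsteinPolynomial]
    simp only [Polynomial.eval_mul, Polynomial.eval_pow, Polynomial.eval_sub,
      Polynomial.eval_X, Polynomial.eval_natCast, Polynomial.eval_one, nsmul_eq_mul]
    have h2 : (1 - 1 / 2 : ℝ) = 1 / 2 := by norm_num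
    rw [h2]
    have h3 : (1 / 2 : ℝ) ^ j * (1 / 2) ^ (t - j) = 1 / 2 ^ t := by
      rw [← pow_add, Nat.add_sub_cancel' hj', one_div, inv_pow, one_div]
    calc ((t : ℝ) * (1 / 2) - j) ^ 2 * ((t.choose j : ℝ) * (1 / 2) ^ j * (1 / 2) ^ (t - j))
        = ((t : ℝ) * (1 / 2) - j) ^ 2 * (t.choose j : ℝ) *
          ((1 / 2 : ℝ) ^ j * (1 / 2) ^ (t - j)) := by ring
      _ = ((t : ℝ) / 2 - j) ^ 2 * (t.choose j : ℝ) / 2 ^ t := by
        rw [h3]; ring
  rw [sum_congr rfl e, ← sum_div] at h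
  have h4 : Polynomial.eval (1 / 2 : ℝ) (t • Polynomial.X * (1 - Polynomial.X)) =
      (t : ℝ) / 4 := by
    simp only [Polynomial.eval_mul, Polynomial.eval_sub,
      Polynomial.eval_X, Polynomial.eval_one, Polynomial.eval_natCast, nsmul_eq_mul]
    ring
  rw [h4] at h
  have h5 : (2 : ℝ) ^ t ≠ 0 := by positivity
  rw [div_eq_iff h5] at h
  rw [h]
  ring

theorem markov (t : ℕ) (lam : ℝ) (hl : 0 < lam) (A : Finset ℕ) (hA : A ⊆ range (t + 1))
    (h : ∀ j ∈ A, lam ^ 2 ≤ ((t : ℝ) / 2 - j) ^ 2) :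
    (∑ j ∈ A, (t.choose j : ℝ)) / 2 ^ t ≤ t / (4 * lam ^ 2) := by
  have h1 : lam ^ 2 * ∑ j ∈ A, (t.choose j : ℝ) ≤ 2 ^ t * (t / 4) := by
    rw [← variance t, mul_sum]
    calc ∑ j ∈ A, lam ^ 2 * (t.choose j : ℝ)
        ≤ ∑ j ∈ A, ((t : ℝ) / 2 - j) ^ 2 * (t.choose j : ℝ) :=
          sum_le_sum fun j hj => mul_le_mul_of_nonneg_right (h j hj) (Nat.cast_nonneg _)
      _ ≤ ∑ j ∈ range (t + 1), ((t : ℝ) / 2 - j) ^ 2 * (t.choose j : ℝ) :=
          sum_le_sum_of_subset_of_nonneg hA fun j _ _ =>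
            mul_nonneg (sq_nonneg _) (Nat.cast_nonneg _)
  have h2 : (0 : ℝ) < 2 ^ t := by positivity
  have h3 : 0 < lam ^ 2 := by positivity
  rw [div_le_div_iff₀ h2 (by positivity)]
  nlinarith

end BIN_

theorem prove_BIN : T_BIN := by
  intro t J lam hl
  refine ⟨fun h => ?_, fun h => ?_⟩
  · unfold binLow
    refine BIN_.markov t lam hl _ (filter_subset _ _) fun j hj => ?_
    have h1 : (j : ℝ) ≤ J := by exact_mod_cast (mem_filter.1 hj).2.le
    exact pow_le_pow_left₀ hl.le (by linarith) 2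
  · unfold binHigh
    refine BIN_.markov t lam hl _ (filter_subset _ _) fun j hj => ?_
    have h1 : (J : ℝ) ≤ j := by exact_mod_cast (mem_filter.1 hj).2.le
    have h2 : lam ≤ j - (t : ℝ) / 2 := by linarith
    have h3 := pow_le_pow_left₀ hl.le h2 2
    calc lam ^ 2 ≤ ((j : ℝ) - t / 2) ^ 2 := h3
      _ = ((t : ℝ) / 2 - j) ^ 2 := by ring

end Pool.Agent.RCG
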