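import Pool.Agent.RCG.Targets15

set_option autoImplicit false

/-!
# RCG15-BLC: size of the ball
-/

namespace Pool.Agent.RCG

open Finset Matrix

namespace BLC_

theorem rec_eq (h : T_BLR) (d n : ℕ) (hd : 2 ≤ d) :
    ((BL d (n + 2)).card : ℝ) =
      2 * (d : ℝ) * ((BL d (n + 1)).card : ℝ) - (2 * (d : ℝ) - 1) * ((BL d n).card : ℝ) := by
  have h3 := (h d n ℝ (fun _ => (1 : ℝ)) (by omega)).2.2
  simp only [Finset.sum_const, nsmul_eq_mul, mul_one, Finset.card_univ, Fintype.card_prod,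
    Fintype.card_fin, Fintype.card_bool] at h3
  rw [Nat.cast_sub (by omega)] at h3
  push_cast at h3
  linarith

theorem base (h : T_BLR) (d : ℕ) (hd : 2 ≤ d) :
    ((BL d 0).card : ℝ) = 1 ∧ ((BL d 1).card : ℝ) = 2 * (d : ℝ) := by
  obtain ⟨h1, h2, -⟩ := h d 0 ℝ (fun _ => (1 : ℝ)) (by omega)
  refine ⟨by rw [h1]; simp, ?_⟩
  simp only [Finset.sum_const, nsmul_eq_mul, mul_one, Finset.card_univ, Fintype.card_prod,
    Fintype.card_fin, Fintype.card_bool] at h2
  push_cast at h2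
  linarith

theorem step (h : T_BLR) (d : ℕ) (hd : 2 ≤ d) (n : ℕ) :
    ((BL d (n + 1)).card : ℝ) = (2 * (d : ℝ) - 1) * ((BL d n).card : ℝ) + 1 := by
  induction n with
  | zero =>
    obtain ⟨h1, h2⟩ := base h d hd
    rw [zero_add, h1, h2]
    ring
  | succ n ih =>
    have h3 := rec_eq h d n hd
    rw [h3]
    linarith

end BLC_

theorem prove_BLC (h : T_BLR) : T_BLC := by
  intro d n hd
  have hd' : (2 : ℝ) ≤ d := by exact_mod_cast hd
  have key : ((BL d n).card : ℝ) ≤ 3 / 2 * (2 * (d : ℝ) - 1) ^ n - 1 / 2 := by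
    induction n with
    | zero =>
      rw [(BLC_.base h d hd).1]
      norm_num
    | succ n ih =>
      rw [BLC_.step h d hd n]
      have h1 : (2 * (d : ℝ) - 1) * ((BL d n).card : ℝ) ≤
          (2 * (d : ℝ) - 1) * (3 / 2 * (2 * (d : ℝ) - 1) ^ n - 1 / 2) :=
        mul_le_mul_of_nonneg_left ih (by linarith)
      have h2 : (2 * (d : ℝ) - 1) * (3 / 2 * (2 * (d : ℝ) - 1) ^ n - 1 / 2) =
          3 / 2 * (2 * (d : ℝ) - 1) ^ (n + 1) - (2 * (d : ℝ) - 1) / 2 := by
        rw [pow_succ]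
        ring
      linarith
  linarith

end Pool.Agent.RCG
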