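import Pool.Agent.RCG.Targets15

set_option autoImplicit false

/-!
# RCG: membership in the ball `BL` (target BLM)
-/

namespace Pool.Agent.RCG

open Finset

/-- **BLM** -/
theorem prove_BLM : T_BLM := by
  classical
  intro d n g
  unfold BL
  rw [mem_filter]
  constructor
  · exact fun h => h.2
  · intro h
    refine ⟨?_, h⟩
    rw [mem_biUnion]
    refine ⟨g.norm, mem_range.2 (Nat.lt_succ_of_le h.1), ?_⟩
    rw [mem_image]
    have e : g.norm = g.toWord.length := rfl
    refine ⟨fun i => g.toWord.get (Fin.cast e i), mem_univ _, ?_⟩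
    have e2 : List.ofFn (fun i : Fin g.norm => g.toWord.get (Fin.cast e i)) = g.toWord := by
      exact List.ofFn_get g.toWord
    rw [e2]
    exact FreeGroup.mk_toWord

end Pool.Agent.RCG
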