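import Pool.Agent.RCG.Targets15

set_option autoImplicit false

/-!
# RCG, BLO: the operators of balls satisfy the recursion in the adjacency operator
-/

namespace Pool.Agent.RCG.BLO_

open Finset

variable {G : Type} [Group G] [Fintype G]

omit [Fintype G] in
theorem lift_letter {d : ℕ} (y : Fin d → G) (l : Ltr d) :
    FreeGroup.lift y (FreeGroup.mk [l]) = cond l.2 (y l.1) (y l.1)⁻¹ := by
  simp [FreeGroup.lift_mk]

theorem AL_eq {d : ℕ} (y : Fin d → G) :
    AL y = ∑ l : Ltr d, RT (FreeGroup.lift y (FreeGroup.mk [l])) := by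
  unfold AL
  rw [Fintype.sum_prod_type]
  refine Finset.sum_congr rfl fun i _ => ?_
  simp only [lift_letter]
  simp

/-- the algebra of one step -/
theorem step {V : Type} [AddCommGroup V] [Module ℂ V] (d : ℕ) (hd : 1 ≤ d) (S U : V →ₗ[ℂ] V) :
    (U + (2 * d - 1) • S) - ((2 * (d : ℝ) - 1 : ℝ) : ℂ) • S = U := by
  have h : ((2 * (d : ℝ) - 1 : ℝ) : ℂ) • S = (2 * d - 1) • S := by
    rw [← Nat.cast_smul_eq_nsmul ℂ]
    congr 1
    rw [Nat.cast_sub (by omega)]
    push_cast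
    ring
  rw [h, add_sub_cancel_right]

theorem main (h : T_BLR) (hR : T_RTP) (d : ℕ) (y : Fin d → G) (hd : 1 ≤ d) (n : ℕ) :
    chb (2 * (d : ℝ) - 1) (AL y) n = ∑ g ∈ BL d n, RT (FreeGroup.lift y g) ∧
    chb (2 * (d : ℝ) - 1) (AL y) (n + 1) =
      ∑ g ∈ BL d (n + 1), RT (FreeGroup.lift y g) := by
  obtain ⟨-, hmul, hone, -⟩ := hR G
  induction n with
  | zero =>
    obtain ⟨b0, b1, -⟩ := h d 0 _ (fun g => RT (FreeGroup.lift y g)) hd
    refine ⟨?_, ?_⟩
    · rw [b0, Finset.sum_singleton, map_one, hone]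
      rfl
    · rw [zero_add, b1, ← AL_eq]
      rfl
  | succ n ih =>
    refine ⟨ih.2, ?_⟩
    obtain ⟨-, -, b2⟩ := h d n _ (fun g => RT (FreeGroup.lift y g)) hd
    have e1 : chb (2 * (d : ℝ) - 1) (AL y) (n + 1 + 1) =
        AL y ∘ₗ chb (2 * (d : ℝ) - 1) (AL y) (n + 1) -
          ((2 * (d : ℝ) - 1 : ℝ) : ℂ) • chb (2 * (d : ℝ) - 1) (AL y) n := rfl
    have e2 : AL y ∘ₗ (∑ g ∈ BL d (n + 1), RT (FreeGroup.lift y g)) =
        ∑ l : Ltr d, ∑ g ∈ BL d (n + 1), RT (FreeGroup.lift y (FreeGroup.mk [l] * g)) := by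
      rw [AL_eq, ← Module.End.mul_eq_comp, Finset.sum_mul_sum]
      refine Finset.sum_congr rfl fun l _ => Finset.sum_congr rfl fun g _ => ?_
      rw [map_mul, hmul, Module.End.mul_eq_comp]
    rw [e1, ih.1, ih.2, e2, b2]
    exact step d hd _ _

end Pool.Agent.RCG.BLO_

namespace Pool.Agent.RCG

theorem prove_BLO (h : T_BLR) (hR : T_RTP) : T_BLO := by
  intro G _ _ d n y hd
  exact (BLO_.main h hR d y hd n).1

end Pool.Agent.RCG
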