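import Pool.Agent.RCG.Targets

set_option autoImplicit false

/-!
# KES: Kesten's bound for the number of trivial words
-/

namespace Pool.Agent.RCG

open Finset

namespace KES_

/-- the weight `r ^ (-|y|)` -/
noncomputable def hh {d : ℕ} (r : ℝ) (y : FreeGroup (Fin d)) : ℝ := (r⁻¹) ^ y.toWord.length

lemma toWord_mul {d : ℕ} (l : Ltr d) (y : FreeGroup (Fin d)) :
    (FreeGroup.mk [l] * y).toWord = FreeGroup.reduce (l :: y.toWord) := by
  conv_lhs => rw [← FreeGroup.mk_toWord (x := y)]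
  rw [FreeGroup.mul_mk, FreeGroup.toWord_mk]
  rfl

lemma step {d : ℕ} (hd : 1 ≤ d) (r : ℝ) (hr : 0 < r) (y : FreeGroup (Fin d)) :
    ∃ l0 : Ltr d, ∀ l : Ltr d,
      hh r (FreeGroup.mk [l] * y) ≤ r⁻¹ * hh r y + if l = l0 then r * hh r y else 0 := by
  have hr' : 0 < r⁻¹ := inv_pos.mpr hr
  have hred : FreeGroup.reduce y.toWord = y.toWord := FreeGroup.reduce_toWord y
  rcases hy : y.toWord with _ | ⟨a, tl⟩
  · refine ⟨(⟨0, hd⟩, true), fun l => ?_⟩
    have h1 : (FreeGroup.mk [l] * y).toWord = [l] := by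
      rw [toWord_mul, FreeGroup.reduce.cons, hred, hy]
    unfold hh
    rw [h1, hy]
    simp only [List.length_nil, List.length_singleton, pow_one, pow_zero, mul_one]
    split_ifs
    · linarith
    · linarith
  · refine ⟨(a.1, !a.2), fun l => ?_⟩
    have h1 : (FreeGroup.mk [l] * y).toWord =
        if l.1 = a.1 ∧ l.2 = !a.2 then tl else l :: a :: tl := by
      rw [toWord_mul, FreeGroup.reduce.cons, hred, hy]
    unfold hh
    rw [h1, hy]
    by_cases hc : l.1 = a.1 ∧ l.2 = !a.2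
    · have e1 : l = (a.1, !a.2) := Prod.ext hc.1 hc.2
      rw [if_pos hc, if_pos e1, List.length_cons, pow_succ]
      have h2 : 0 < (r⁻¹) ^ tl.length := pow_pos hr' _
      have h3 : r * ((r⁻¹) ^ tl.length * r⁻¹) = (r⁻¹) ^ tl.length := by
        field_simp
      rw [h3]
      have h4 : 0 ≤ r⁻¹ * ((r⁻¹) ^ tl.length * r⁻¹) := by positivity
      linarith
    · have e1 : l ≠ (a.1, !a.2) := fun h => hc (by rw [h]; exact ⟨rfl, rfl⟩)
      rw [if_neg hc, if_neg e1, List.length_cons (a := l), pow_succ, add_zero, mul_comm]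

lemma sum_step {d : ℕ} (hd : 1 ≤ d) (y : FreeGroup (Fin d)) :
    ∑ l : Ltr d, hh √(2 * (d : ℝ)) (FreeGroup.mk [l] * y) ≤
      2 * √(2 * (d : ℝ)) * hh √(2 * (d : ℝ)) y := by
  have hd0 : (0 : ℝ) < 2 * d := by
    have : (1 : ℝ) ≤ d := by exact_mod_cast hd
    linarith
  set r : ℝ := √(2 * (d : ℝ)) with hr
  have hr0 : 0 < r := Real.sqrt_pos.mpr hd0
  have hr2 : r * r = 2 * d := Real.mul_self_sqrt hd0.le
  obtain ⟨l0, hl⟩ := step hd r hr0 y
  calc ∑ l : Ltr d, hh r (FreeGroup.mk [l] * y)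
      ≤ ∑ l : Ltr d, (r⁻¹ * hh r y + if l = l0 then r * hh r y else 0) :=
        Finset.sum_le_sum fun l _ => hl l
    _ = 2 * r * hh r y := by
        rw [Finset.sum_add_distrib, Finset.sum_const, Finset.sum_ite_eq' Finset.univ l0,
          if_pos (Finset.mem_univ _), Finset.card_univ]
        have hc : Fintype.card (Ltr d) = d * 2 := by
          rw [Fintype.card_prod, Fintype.card_fin, Fintype.card_bool]
        rw [hc, nsmul_eq_mul]
        push_cast
        have h3 : (d : ℝ) * 2 * (r⁻¹ * hh r y) = r * hh r y := by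
          rw [← mul_assoc, show (d : ℝ) * 2 = r * r by rw [hr2]; ring]
          field_simp
        rw [h3]
        ring

lemma hh_nonneg {d : ℕ} {r : ℝ} (hr : 0 ≤ r) (y : FreeGroup (Fin d)) : 0 ≤ hh r y :=
  pow_nonneg (inv_nonneg.mpr hr) _

lemma sum_all {d : ℕ} (hd : 1 ≤ d) (n : ℕ) :
    ∑ w : Fin n → Ltr d, hh √(2 * (d : ℝ)) (FreeGroup.mk (List.ofFn w)) ≤
      (2 * √(2 * (d : ℝ))) ^ n := by
  induction n with
  | zero =>
    have e1 : ∀ w : Fin 0 → Ltr d, hh √(2 * (d : ℝ)) (FreeGroup.mk (List.ofFn w)) = 1 := by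
      intro w
      unfold hh
      rw [List.ofFn_zero, FreeGroup.toWord_mk]
      simp
    simp only [e1]
    simp
  | succ n ih =>
    have e1 : ∑ w : Fin (n + 1) → Ltr d, hh √(2 * (d : ℝ)) (FreeGroup.mk (List.ofFn w)) =
        ∑ w : Fin n → Ltr d, ∑ l : Ltr d,
          hh √(2 * (d : ℝ)) (FreeGroup.mk [l] * FreeGroup.mk (List.ofFn w)) := by
      rw [← (Fin.consEquiv (fun _ : Fin (n + 1) => Ltr d)).sum_comp, Fintype.sum_prod_type,
        Finset.sum_comm]
      refine Finset.sum_congr rfl fun w _ => Finset.sum_congr rfl fun l _ => ?_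
      congr 1
      rw [FreeGroup.mul_mk]
      congr 1
      rw [List.ofFn_succ]
      simp [Fin.consEquiv]
    rw [e1]
    calc ∑ w : Fin n → Ltr d, ∑ l : Ltr d,
          hh √(2 * (d : ℝ)) (FreeGroup.mk [l] * FreeGroup.mk (List.ofFn w))
        ≤ ∑ w : Fin n → Ltr d, 2 * √(2 * (d : ℝ)) * hh √(2 * (d : ℝ))
            (FreeGroup.mk (List.ofFn w)) :=
          Finset.sum_le_sum fun w _ => sum_step hd _
      _ = 2 * √(2 * (d : ℝ)) * ∑ w : Fin n → Ltr d, hh √(2 * (d : ℝ))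
            (FreeGroup.mk (List.ofFn w)) := by rw [← Finset.mul_sum]
      _ ≤ 2 * √(2 * (d : ℝ)) * (2 * √(2 * (d : ℝ))) ^ n := by gcongr
      _ = (2 * √(2 * (d : ℝ))) ^ (n + 1) := by rw [pow_succ]; ring

end KES_

open KES_ in
theorem prove_KES : T_KES := by
  intro d n hd
  classical
  rw [Nat.card_eq_fintype_card, Fintype.card_subtype]
  refine le_trans ?_ (sum_all hd n)
  rw [Finset.card_filter]
  push_cast
  refine Finset.sum_le_sum fun w _ => ?_
  split_ifs with h
  · rw [h]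
    unfold hh
    rw [FreeGroup.toWord_one]
    simp
  · exact hh_nonneg (Real.sqrt_nonneg _) _

end Pool.Agent.RCG
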