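import Pool.Agent.RCG.Targets15
import Pool.Agent.RCG.KES

set_option autoImplicit false

/-!
# RCG, BLR: the recursion for the balls of the free group
-/

namespace Pool.Agent.RCG

open Finset Matrix

namespace BLR_

/-- the inverse letter -/
def iv {d : ℕ} (l : Ltr d) : Ltr d := (l.1, !l.2)

theorem iv_iv {d : ℕ} (l : Ltr d) : iv (iv l) = l := by
  unfold iv
  simp

theorem inv_mk1 {d : ℕ} (l : Ltr d) : (FreeGroup.mk [l])⁻¹ = FreeGroup.mk [iv l] := by
  rw [FreeGroup.inv_mk]
  rfl

theorem norm_nil {d : ℕ} (l : Ltr d) (y : FreeGroup (Fin d)) (hy : y.toWord = []) :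
    (FreeGroup.mk [l] * y).norm = 1 := by
  have hred : FreeGroup.reduce y.toWord = y.toWord := FreeGroup.reduce_toWord y
  have h1 : (FreeGroup.mk [l] * y).toWord = [l] := by
    rw [KES_.toWord_mul, FreeGroup.reduce.cons, hred, hy]
  unfold FreeGroup.norm
  rw [h1]
  rfl

theorem norm_cons {d : ℕ} (l : Ltr d) (y : FreeGroup (Fin d)) (a : Ltr d) (tl : List (Ltr d))
    (hy : y.toWord = a :: tl) :
    (FreeGroup.mk [l] * y).norm = if l = iv a then tl.length else tl.length + 2 := by
  have hred : FreeGroup.reduce y.toWord = y.toWord := FreeGroup.reduce_toWord y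
  have h1 : (FreeGroup.mk [l] * y).toWord =
      if l.1 = a.1 ∧ l.2 = !a.2 then tl else l :: a :: tl := by
    rw [KES_.toWord_mul, FreeGroup.reduce.cons, hred, hy]
  unfold FreeGroup.norm
  rw [h1]
  by_cases hc : l.1 = a.1 ∧ l.2 = !a.2
  · have e1 : l = iv a := Prod.ext hc.1 hc.2
    rw [if_pos hc, if_pos e1]
  · have e1 : l ≠ iv a := fun h => hc (by rw [h]; exact ⟨rfl, rfl⟩)
    rw [if_neg hc, if_neg e1]
    rfl

theorem norm_step {d : ℕ} (l : Ltr d) (y : FreeGroup (Fin d)) :
    (FreeGroup.mk [l] * y).norm = y.norm + 1 ∨ (FreeGroup.mk [l] * y).norm + 1 = y.norm := by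
  rcases hy : y.toWord with _ | ⟨a, tl⟩
  · left
    rw [norm_nil l y hy]
    unfold FreeGroup.norm
    rw [hy]
    rfl
  · have h2 : y.norm = tl.length + 1 := by
      unfold FreeGroup.norm
      rw [hy]
      rfl
    rw [norm_cons l y a tl hy]
    split_ifs
    · right; omega
    · left; omega

theorem card_ltr (d : ℕ) : Fintype.card (Ltr d) = 2 * d := by
  rw [Fintype.card_prod, Fintype.card_fin, Fintype.card_bool, mul_comm]

/-- the number of letters -/
theorem count (h_BLM : T_BLM) (d n : ℕ) (h : FreeGroup (Fin d)) (hh : h ∈ BL d (n + 2))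
    [DecidablePred fun l : Ltr d => (FreeGroup.mk [l])⁻¹ * h ∈ BL d (n + 1)] :
    (univ.filter fun l : Ltr d => (FreeGroup.mk [l])⁻¹ * h ∈ BL d (n + 1)).card =
      if h.norm ≤ n then 2 * d else 1 := by
  rw [h_BLM] at hh
  obtain ⟨h1, h2⟩ := hh
  by_cases hn : h.norm ≤ n
  · rw [if_pos hn, filter_true_of_mem, card_univ, card_ltr]
    intro l _
    rw [inv_mk1, h_BLM]
    rcases norm_step (iv l) h with h3 | h3
    · rw [h3]
      constructor
      · omega
      · omega
    · constructor
      · omega
      · omega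
  · rw [if_neg hn]
    have h3 : h.norm = n + 2 := by omega
    rcases hy : h.toWord with _ | ⟨a, tl⟩
    · unfold FreeGroup.norm at h3
      rw [hy] at h3
      simp at h3
    · have h4 : tl.length = n + 1 := by
        unfold FreeGroup.norm at h3
        rw [hy, List.length_cons] at h3
        omega
      rw [card_eq_one]
      refine ⟨a, ?_⟩
      ext l
      rw [mem_filter, mem_singleton, inv_mk1, h_BLM, norm_cons (iv l) h a tl hy]
      constructor
      · rintro ⟨-, h5, -⟩
        by_contra hne
        have h6 : iv l ≠ iv a := fun h => hne (by rw [← iv_iv l, h, iv_iv])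
        rw [if_neg h6] at h5
        omega
      · intro hla
        rw [hla, if_pos rfl, h4]
        exact ⟨mem_univ _, le_rfl, rfl⟩

end BLR_

open BLR_ in
theorem prove_BLR (h_BLM : T_BLM) : T_BLR := by
  classical
  intro d n M _ F hd
  refine ⟨?_, ?_, ?_⟩
  · ext g
    rw [h_BLM, mem_singleton]
    constructor
    · rintro ⟨h1, -⟩
      exact FreeGroup.norm_eq_zero.1 (Nat.le_zero.1 h1)
    · rintro rfl
      rw [FreeGroup.norm_one]
      exact ⟨le_rfl, rfl⟩
  · symm
    refine sum_bij (fun (l : Ltr d) _ => FreeGroup.mk [l]) ?_ ?_ ?_ ?_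
    · intro l _
      have h1 := norm_nil l (1 : FreeGroup (Fin d)) FreeGroup.toWord_one
      rw [mul_one] at h1
      rw [h_BLM, h1]
      exact ⟨le_rfl, rfl⟩
    · intro l _ l' _ hll
      have e1 : ∀ l : Ltr d, (FreeGroup.mk [l]).toWord = [l] := by
        intro l
        rw [FreeGroup.toWord_mk]
        rfl
      have h2 := congrArg FreeGroup.toWord hll
      rw [e1, e1] at h2
      exact List.singleton_injective h2
    · intro g hg
      rw [h_BLM] at hg
      have h1 : g.toWord.length = 1 := by
        have h2 : g.norm = 1 := by omega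
        exact h2
      obtain ⟨a, ha⟩ := List.length_eq_one_iff.1 h1
      exact ⟨a, mem_univ _, by rw [← ha, FreeGroup.mk_toWord]⟩
    · intro l _
      rfl
  · have h1 : ∀ l : Ltr d, ∑ g ∈ BL d (n + 1), F (FreeGroup.mk [l] * g) =
        ∑ h ∈ BL d (n + 2), if (FreeGroup.mk [l])⁻¹ * h ∈ BL d (n + 1) then F h else 0 := by
      intro l
      rw [← sum_filter]
      refine sum_nbij' (fun g => FreeGroup.mk [l] * g) (fun h => (FreeGroup.mk [l])⁻¹ * h)
        ?_ ?_ ?_ ?_ ?_
      · intro g hg
        rw [mem_filter, inv_mul_cancel_left, h_BLM]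
        refine ⟨?_, hg⟩
        rw [h_BLM] at hg
        rcases norm_step l g with h3 | h3
        · constructor
          · omega
          · omega
        · constructor
          · omega
          · omega
      · intro h hh
        exact (mem_filter.1 hh).2
      · intro g _
        exact inv_mul_cancel_left _ _
      · intro h _
        exact mul_inv_cancel_left _ _
      · intro g _
        rfl
    have h2 : ∑ l : Ltr d, ∑ g ∈ BL d (n + 1), F (FreeGroup.mk [l] * g) =
        ∑ h ∈ BL d (n + 2), (if h.norm ≤ n then 2 * d else 1) • F h := by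
      calc ∑ l : Ltr d, ∑ g ∈ BL d (n + 1), F (FreeGroup.mk [l] * g)
          = ∑ l : Ltr d, ∑ h ∈ BL d (n + 2),
            if (FreeGroup.mk [l])⁻¹ * h ∈ BL d (n + 1) then F h else 0 :=
            sum_congr rfl fun l _ => h1 l
        _ = ∑ h ∈ BL d (n + 2), ∑ l : Ltr d,
            if (FreeGroup.mk [l])⁻¹ * h ∈ BL d (n + 1) then F h else 0 := sum_comm
        _ = _ := by
            refine sum_congr rfl fun h hh => ?_
            rw [← sum_filter, sum_const, count h_BLM d n h hh]
    have h3 : ∀ h : FreeGroup (Fin d), (if h.norm ≤ n then 2 * d else 1) • F h =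
        F h + if h.norm ≤ n then (2 * d - 1) • F h else 0 := by
      intro h
      split_ifs
      · have e1 : 2 * d = 1 + (2 * d - 1) := by omega
        conv_lhs => rw [e1, add_smul, one_smul]
      · rw [one_smul, add_zero]
    have h4 : (BL d (n + 2)).filter (fun h => h.norm ≤ n) = BL d n := by
      ext h
      rw [mem_filter, h_BLM, h_BLM]
      constructor
      · rintro ⟨⟨-, h5⟩, h6⟩
        exact ⟨h6, by omega⟩
      · rintro ⟨h5, h6⟩
        exact ⟨⟨by omega, by omega⟩, h5⟩
    rw [h2]
    simp only [h3]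
    rw [sum_add_distrib, ← sum_filter, h4, smul_sum]

end Pool.Agent.RCG
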