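import Pool.Agent.RCG.Targets8
import Pool.Agent.RCG.AWS

set_option autoImplicit false

/-!
# BNS: one step of the matrix Bennett inequality, without centring
-/

namespace Pool.Agent.RCG

open Finset Matrix

namespace BNS_

variable {ι : Type} [Fintype ι] [DecidableEq ι]

lemma herm_smul {M : Matrix ι ι ℝ} (hM : M.IsHermitian) (c : ℝ) : (c • M).IsHermitian := by
  unfold Matrix.IsHermitian
  rw [Matrix.conjTranspose_smul, hM.eq]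
  simp

lemma cs (v w : ι → ℝ) : (v ⬝ᵥ w) ^ 2 ≤ (v ⬝ᵥ v) * (w ⬝ᵥ w) := by
  have h := Finset.sum_mul_sq_le_sq_mul_sq Finset.univ v w
  simp only [pow_two] at h ⊢
  exact h

lemma sq_form {Z : Matrix ι ι ℝ} (hZ : Z.IsHermitian) (v : ι → ℝ) :
    v ⬝ᵥ (Z * Z) *ᵥ v = (Z *ᵥ v) ⬝ᵥ (Z *ᵥ v) := by
  have h1 : Zᵀ = Z := by
    have h2 := hZ.eq
    rwa [Matrix.conjTranspose_eq_transpose_of_trivial] at h2
  rw [← Matrix.mulVec_mulVec, Matrix.dotProduct_mulVec, ← Matrix.mulVec_transpose, h1]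

lemma lin_term {Y : Type} [Fintype Y] (Z : Y → Matrix ι ι ℝ) (hZ : ∀ y, (Z y).IsHermitian)
    (ν : ℝ) (hν : 0 ≤ ν) (v : ι → ℝ)
    (h2 : ∑ y, v ⬝ᵥ (Z y * Z y) *ᵥ v ≤ Fintype.card Y * ν * (v ⬝ᵥ v)) :
    ∑ y, v ⬝ᵥ (Z y) *ᵥ v ≤ Fintype.card Y * √ν * (v ⬝ᵥ v) := by
  have hv : 0 ≤ v ⬝ᵥ v := by
    simp only [dotProduct]
    exact Finset.sum_nonneg fun i _ => mul_self_nonneg _
  have hc : (0 : ℝ) ≤ Fintype.card Y := Nat.cast_nonneg _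
  have e1 : (∑ y, v ⬝ᵥ (Z y) *ᵥ v) ^ 2 ≤
      Fintype.card Y * ∑ y, (v ⬝ᵥ (Z y) *ᵥ v) ^ 2 := by
    have h := sq_sum_le_card_mul_sum_sq (s := Finset.univ) (f := fun y => v ⬝ᵥ (Z y) *ᵥ v)
    rwa [Finset.card_univ] at h
  have e2 : ∑ y, (v ⬝ᵥ (Z y) *ᵥ v) ^ 2 ≤ (v ⬝ᵥ v) * ∑ y, v ⬝ᵥ (Z y * Z y) *ᵥ v := by
    rw [Finset.mul_sum]
    refine Finset.sum_le_sum fun y _ => ?_
    rw [sq_form (hZ y)]
    exact cs _ _
  have e3 : (∑ y, v ⬝ᵥ (Z y) *ᵥ v) ^ 2 ≤ (Fintype.card Y * √ν * (v ⬝ᵥ v)) ^ 2 := by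
    have e4 : (Fintype.card Y * √ν * (v ⬝ᵥ v)) ^ 2 =
        Fintype.card Y * ((v ⬝ᵥ v) * (Fintype.card Y * ν * (v ⬝ᵥ v))) := by
      rw [mul_pow, mul_pow, Real.sq_sqrt hν]
      ring
    rw [e4]
    exact e1.trans (mul_le_mul_of_nonneg_left
      (e2.trans (mul_le_mul_of_nonneg_left h2 hv)) hc)
  exact (abs_le_of_sq_le_sq' e3 (by positivity)).2

end BNS_

open BNS_ in
theorem prove_BNS (h1 : T_GT) (h2 : T_EXZ) (_h3 : T_SPE) : T_BNS := by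
  intro ι Y _ _ _ S Z θ z ν hS hZ hθ hz hν hZz hZ2
  have hG : 0 ≤ Real.exp (θ * z) / z ^ 2 := by positivity
  obtain ⟨R, hR, hRR⟩ := AWS_.half (θ • S) (herm_smul hS θ)
  have s2 : ∀ y, (NormedSpace.exp (θ • (S + Z y))).trace ≤
      (R * R * NormedSpace.exp (θ • Z y)).trace := by
    intro y
    rw [hRR, smul_add]
    exact h1 ι _ _ (herm_smul hS θ) (herm_smul (hZ y) θ)
  have s3 : (R * R * ∑ y, NormedSpace.exp (θ • Z y)).trace ≤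
      (Fintype.card Y * (1 + θ * √ν + Real.exp (θ * z) / z ^ 2 * ν)) * (R * R).trace := by
    refine AWS_.tr_le R _ hR _ fun v => ?_
    rw [Matrix.sum_mulVec, dotProduct_sum]
    have c1 : ∑ y, v ⬝ᵥ (NormedSpace.exp (θ • Z y)) *ᵥ v ≤
        ∑ y, (v ⬝ᵥ v + θ * (v ⬝ᵥ Z y *ᵥ v) +
          Real.exp (θ * z) / z ^ 2 * (v ⬝ᵥ (Z y * Z y) *ᵥ v)) :=
      Finset.sum_le_sum fun y _ => h2 ι (Z y) z θ (hZ y) hz hθ (hZz y) v
    have c2 := mul_le_mul_of_nonneg_left (lin_term Z hZ ν hν v (hZ2 v)) hθ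
    have c3 := mul_le_mul_of_nonneg_left (hZ2 v) hG
    rw [Finset.sum_add_distrib, Finset.sum_add_distrib, Finset.sum_const, Finset.card_univ,
      nsmul_eq_mul, ← Finset.mul_sum, ← Finset.mul_sum] at c1
    refine c1.trans ?_
    have c4 : (Fintype.card Y : ℝ) * (1 + θ * √ν + Real.exp (θ * z) / z ^ 2 * ν) * (v ⬝ᵥ v) =
        Fintype.card Y * (v ⬝ᵥ v) + θ * (Fintype.card Y * √ν * (v ⬝ᵥ v)) +
          Real.exp (θ * z) / z ^ 2 * (Fintype.card Y * ν * (v ⬝ᵥ v)) := by ring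
    rw [c4]
    linarith
  calc ∑ y, (NormedSpace.exp (θ • (S + Z y))).trace
      ≤ ∑ y, (R * R * NormedSpace.exp (θ • Z y)).trace :=
        Finset.sum_le_sum fun y _ => s2 y
    _ = (R * R * ∑ y, NormedSpace.exp (θ • Z y)).trace := by
        rw [Matrix.mul_sum, Matrix.trace_sum]
    _ ≤ (Fintype.card Y * (1 + θ * √ν + Real.exp (θ * z) / z ^ 2 * ν)) * (R * R).trace := s3
    _ = Fintype.card Y * (1 + θ * √ν + Real.exp (θ * z) / z ^ 2 * ν) *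
        (NormedSpace.exp (θ • S)).trace := by
        rw [hRR]

end Pool.Agent.RCG
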