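import Pool.Agent.RCG.Targets9
import Pool.Agent.RCG.KES

set_option autoImplicit false

namespace Pool.Agent.RCG

open Finset

namespace CAT_

lemma toWord_mul {d : ℕ} (l : Ltr d) (y : FreeGroup (Fin d)) :
    (FreeGroup.mk [l] * y).toWord = FreeGroup.reduce (l :: y.toWord) := by
  conv_lhs => rw [← FreeGroup.mk_toWord (x := y)]
  rw [FreeGroup.mul_mk, FreeGroup.toWord_mk]
  rfl

/-- weight -/
noncomputable def hw {d : ℕ} (r : ℝ) (y : FreeGroup (Fin d)) : ℝ := r ^ (y.toWord.length + 1)

/-- indicator of the identity -/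
noncomputable def ind {d : ℕ} (y : FreeGroup (Fin d)) : ℝ := if y.toWord = [] then 1 else 0

lemma card_ltr (d : ℕ) : (Fintype.card (Ltr d) : ℝ) = 2 * d := by
  rw [Fintype.card_prod, Fintype.card_fin, Fintype.card_bool]
  push_cast
  ring

lemma step {d : ℕ} (r k l0 : ℝ) (hr : 0 < r) (hk : 2 * (d : ℝ) ≤ k)
    (hrk : 1 - l0 * r + k * r ^ 2 = 0) (y : FreeGroup (Fin d)) :
    ind y + ∑ l : Ltr d, hw r (FreeGroup.mk [l] * y) ≤ l0 * hw r y := by
  have hred : FreeGroup.reduce y.toWord = y.toWord := FreeGroup.reduce_toWord y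
  rcases hy : y.toWord with _ | ⟨a, tl⟩
  · have h1 : ∀ l : Ltr d, hw r (FreeGroup.mk [l] * y) = r ^ 2 := by
      intro l
      unfold hw
      rw [toWord_mul, FreeGroup.reduce.cons, hred, hy]
      simp
    simp only [h1]
    rw [Finset.sum_const, Finset.card_univ, nsmul_eq_mul, card_ltr]
    unfold ind hw
    rw [hy]
    simp only [List.length_nil, zero_add, pow_one, if_true]
    have : 2 * (d : ℝ) * r ^ 2 ≤ k * r ^ 2 := mul_le_mul_of_nonneg_right hk (by positivity)
    linarith
  · have h1 : ∀ l : Ltr d, hw r (FreeGroup.mk [l] * y) ≤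
        r ^ (tl.length + 3) + if l = (a.1, !a.2) then r ^ (tl.length + 1) else 0 := by
      intro l
      unfold hw
      have h2 : (FreeGroup.mk [l] * y).toWord =
          if l.1 = a.1 ∧ l.2 = !a.2 then tl else l :: a :: tl := by
        rw [toWord_mul, FreeGroup.reduce.cons, hred, hy]
      rw [h2]
      by_cases hc : l.1 = a.1 ∧ l.2 = !a.2
      · have e1 : l = (a.1, !a.2) := Prod.ext hc.1 hc.2
        rw [if_pos hc, if_pos e1]
        have : 0 ≤ r ^ (tl.length + 3) := by positivity
        linarith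
      · have e1 : l ≠ (a.1, !a.2) := fun h => hc (by rw [h]; exact ⟨rfl, rfl⟩)
        rw [if_neg hc, if_neg e1]
        simp only [List.length_cons, add_zero]
        exact le_of_eq (by ring)
    have h3 : ∑ l : Ltr d, hw r (FreeGroup.mk [l] * y) ≤
        2 * d * r ^ (tl.length + 3) + r ^ (tl.length + 1) := by
      refine (Finset.sum_le_sum fun l _ => h1 l).trans ?_
      rw [Finset.sum_add_distrib, Finset.sum_const, Finset.sum_ite_eq' Finset.univ,
        if_pos (Finset.mem_univ _), Finset.card_univ, nsmul_eq_mul, card_ltr]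
    have h4 : ind y = 0 := by
      unfold ind
      rw [hy]
      simp
    have h5 : hw r y = r ^ (tl.length + 2) := by
      unfold hw
      rw [hy]
      simp
    rw [h4, h5]
    have h6 : 2 * (d : ℝ) * r ^ (tl.length + 3) ≤ k * r ^ (tl.length + 3) :=
      mul_le_mul_of_nonneg_right hk (by positivity)
    have h7 : l0 * r ^ (tl.length + 2) = r ^ (tl.length + 1) + k * r ^ (tl.length + 3) := by
      have : l0 * r = 1 + k * r ^ 2 := by linarith
      calc l0 * r ^ (tl.length + 2) = (l0 * r) * r ^ (tl.length + 1) := by ring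
        _ = (1 + k * r ^ 2) * r ^ (tl.length + 1) := by rw [this]
        _ = _ := by ring
    linarith

/-- number of words taking `y` to the identity -/
noncomputable def nw {d : ℕ} (m : ℕ) (y : FreeGroup (Fin d)) : ℝ :=
  ∑ w : Fin m → Ltr d, ind (FreeGroup.mk (List.ofFn w) * y)

lemma nw_succ {d : ℕ} (m : ℕ) (y : FreeGroup (Fin d)) :
    nw (m + 1) y = ∑ l : Ltr d, nw m (FreeGroup.mk [l] * y) := by
  unfold nw
  rw [← (Fin.snocEquiv (fun _ : Fin (m + 1) => Ltr d)).sum_comp, Fintype.sum_prod_type]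
  refine Finset.sum_congr rfl fun l _ => Finset.sum_congr rfl fun w _ => ?_
  congr 1
  rw [← mul_assoc]
  congr 1
  rw [FreeGroup.mul_mk]
  congr 1
  rw [List.ofFn_succ']
  simp [Fin.snocEquiv, List.concat_eq_append]

lemma main {d : ℕ} (r k l0 : ℝ) (hr : 0 < r) (hk : 2 * (d : ℝ) ≤ k) (hl : 0 < l0)
    (hrk : 1 - l0 * r + k * r ^ 2 = 0) (J : ℕ) : ∀ y : FreeGroup (Fin d),
    ∑ m ∈ range J, nw m y / l0 ^ (m + 1) ≤ hw r y := by
  induction J with
  | zero =>
    intro y
    simp only [Finset.range_zero, Finset.sum_empty]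
    unfold hw
    positivity
  | succ J ih =>
    intro y
    rw [Finset.sum_range_succ']
    have h1 : ∑ m ∈ range J, nw (m + 1) y / l0 ^ (m + 1 + 1) =
        (1 / l0) * ∑ l : Ltr d, ∑ m ∈ range J, nw m (FreeGroup.mk [l] * y) / l0 ^ (m + 1) := by
      rw [Finset.sum_comm, Finset.mul_sum]
      refine Finset.sum_congr rfl fun m _ => ?_
      rw [nw_succ, Finset.sum_div, Finset.mul_sum]
      refine Finset.sum_congr rfl fun l _ => ?_
      rw [pow_succ l0 (m + 1)]
      field_simp
    have h0 : nw 0 y = ind y := by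
      unfold nw
      rw [Fintype.sum_unique]
      congr 1
      simp [FreeGroup.one_eq_mk.symm]
    rw [h1, h0]
    have h2 : ∑ l : Ltr d, ∑ m ∈ range J, nw m (FreeGroup.mk [l] * y) / l0 ^ (m + 1) ≤
        ∑ l : Ltr d, hw r (FreeGroup.mk [l] * y) := Finset.sum_le_sum fun l _ => ih _
    have h3 := step r k l0 hr hk hrk y
    have h4 : (1 / l0) * (ind y + ∑ l : Ltr d, hw r (FreeGroup.mk [l] * y)) ≤
        (1 / l0) * (l0 * hw r y) := mul_le_mul_of_nonneg_left h3 (by positivity)
    have h5 : (1 / l0) * (l0 * hw r y) = hw r y := by field_simp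
    have h6 : (1 / l0) * ∑ l : Ltr d, ∑ m ∈ range J, nw m (FreeGroup.mk [l] * y) / l0 ^ (m + 1) ≤
        (1 / l0) * ∑ l : Ltr d, hw r (FreeGroup.mk [l] * y) :=
      mul_le_mul_of_nonneg_left h2 (by positivity)
    have h7 : ind y / l0 ^ (0 + 1) = (1 / l0) * ind y := by
      rw [zero_add, pow_one]
      ring
    rw [h7]
    rw [mul_add] at h4
    linarith

end CAT_

open CAT_ in
theorem prove_CAT : T_CAT := by
  classical
  intro d J k l0 hd hk hl h4
  have hd1 : (1 : ℝ) ≤ d := by exact_mod_cast hd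
  have hk0 : 0 < k := by linarith
  set s := √(l0 ^ 2 - 4 * k) with hs
  have hs2 : s ^ 2 = l0 ^ 2 - 4 * k := Real.sq_sqrt (by linarith)
  have hs0 : 0 ≤ s := Real.sqrt_nonneg _
  have hsl : s < l0 := by
    by_contra hcon
    push Not at hcon
    nlinarith
  have hr : 0 < (l0 - s) / (2 * k) := div_pos (by linarith) (by linarith)
  have hrk : 1 - l0 * ((l0 - s) / (2 * k)) + k * ((l0 - s) / (2 * k)) ^ 2 = 0 := by
    field_simp
    nlinarith
  have h1 := main ((l0 - s) / (2 * k)) k l0 hr hk hl hrk J (1 : FreeGroup (Fin d))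
  have h2 : ∀ m : ℕ, (tw d m : ℝ) = nw m (1 : FreeGroup (Fin d)) := by
    intro m
    unfold tw nw ind
    rw [Nat.card_eq_fintype_card, Fintype.card_subtype, Finset.card_filter]
    push_cast
    refine Finset.sum_congr rfl fun w _ => ?_
    rw [mul_one]
    by_cases hw : FreeGroup.mk (List.ofFn w) = 1
    · rw [if_pos hw, if_pos (by rw [hw, FreeGroup.toWord_one])]
    · rw [if_neg hw, if_neg (fun h => hw (FreeGroup.toWord_eq_nil_iff.1 h))]
  simp only [h2]
  refine h1.trans (le_of_eq ?_)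
  unfold hw
  rw [FreeGroup.toWord_one]
  simp

end Pool.Agent.RCG
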