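import Pool.Agent.RCG.Targets9

/-!
# RCG: CAV, leave one block out (deterministic)
-/

set_option autoImplicit false

namespace Pool.Agent.RCG

open Finset Matrix

namespace CAV_

variable {ι : Type} [Fintype ι]

lemma sym {M : Matrix ι ι ℝ} (hM : M.IsHermitian) (v w : ι → ℝ) :
    v ⬝ᵥ M *ᵥ w = w ⬝ᵥ M *ᵥ v := by
  have hT : Mᵀ = M := by
    have h := hM.eq
    rwa [Matrix.conjTranspose_eq_transpose_of_trivial] at h
  rw [Matrix.dotProduct_mulVec, ← Matrix.mulVec_transpose, hT, dotProduct_comm]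

lemma dot_self (v : ι → ℝ) : v ⬝ᵥ v = ∑ x, v x ^ 2 := by
  simp only [dotProduct, sq]

lemma dot_self_nonneg (v : ι → ℝ) : 0 ≤ v ⬝ᵥ v := by
  rw [dot_self]
  exact sum_nonneg fun x _ => sq_nonneg _

lemma sum_eq (v : ι → ℝ) : ∑ x, v x = (fun _ => (1 : ℝ)) ⬝ᵥ v := by
  simp [dotProduct]

end CAV_

theorem prove_CAV (hADM : T_ADM) (hPOL : T_POL) : T_CAV := by
  intro G _ _ d' d1 q y' a Q R l0 B1 u κ hq hR hRl hB hu hκ hQ hRSV hQB hQAQ hQP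
  intro l σ v hσ hl hv heig
  obtain ⟨hadj, hherm, -, hone, -, -⟩ := hADM G d1
  obtain ⟨hQh, hQQ, hQ1⟩ := hQ
  set A : Matrix G G ℝ := adM a with hA
  have hAh : A.IsHermitian := hherm a
  have hσ2 : σ * σ = 1 := by
    rcases hσ with h | h <;> rw [h] <;> norm_num
  have hσabs : |σ| = 1 := by
    rcases hσ with h | h <;> rw [h] <;> norm_num
  -- sum zero is preserved
  have hA0 : ∀ w : G → ℝ, ∑ x, w x = 0 → ∑ x, (A *ᵥ w) x = 0 := by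
    intro w hw
    rw [CAV_.sum_eq, CAV_.sym hAh, hA, hone a]
    have : w ⬝ᵥ (fun _ => 2 * (d1 : ℝ)) = 2 * (d1 : ℝ) * ∑ x, w x := by
      simp only [dotProduct]
      rw [mul_sum]
      exact sum_congr rfl fun x _ => mul_comm _ _
    rw [this, hw, mul_zero]
  have hQ0 : ∀ w : G → ℝ, ∑ x, (Q *ᵥ w) x = 0 := by
    intro w
    rw [CAV_.sum_eq, CAV_.sym hQh, hQ1, dotProduct_zero]
  have hnorm : ∀ w : G → ℝ, ∑ x, w x = 0 → (A *ᵥ w) ⬝ᵥ (A *ᵥ w) ≤ B1 ^ 2 * (w ⬝ᵥ w) := by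
    intro w hw
    have h := hPOL G d1 a B1 hB hQB w hw
    rw [hA, hadj a w, CAV_.dot_self, CAV_.dot_self]
    exact h
  have hform : ∀ w : G → ℝ, ∑ x, w x = 0 → |w ⬝ᵥ A *ᵥ w| ≤ B1 * (w ⬝ᵥ w) := by
    intro w hw
    have h := hQB w hw
    rw [hA, hadj a w, CAV_.dot_self]
    exact h
  set f : G → ℝ := Q *ᵥ v with hf
  set g : G → ℝ := v - Q *ᵥ v with hg
  have hvfg : v = f + g := by
    rw [hg, hf]
    abel
  have hf0 : ∑ x, f x = 0 := hQ0 v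
  have hg0 : ∑ x, g x = 0 := by
    rw [hg]
    simp only [Pi.sub_apply]
    rw [sum_sub_distrib, hv, hQ0 v, sub_zero]
  set b : G → ℝ := σ • (A *ᵥ f) with hb
  set c : G → ℝ := σ • (A *ᵥ g) with hc
  have hbc : b + c = σ • (A *ᵥ v) := by
    rw [hb, hc, ← smul_add, ← Matrix.mulVec_add, ← hvfg]
  have hb0 : ∑ x, b x = 0 := by
    rw [hb]
    simp only [Pi.smul_apply, smul_eq_mul]
    rw [← mul_sum, hA0 f hf0, mul_zero]
  have hc0 : ∑ x, c x = 0 := by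
    rw [hc]
    simp only [Pi.smul_apply, smul_eq_mul]
    rw [← mul_sum, hA0 g hg0, mul_zero]
  have heq : l • v - σ • (adM y' *ᵥ v) = b + c := by
    rw [hbc, ← heig, smul_add]
    abel
  obtain ⟨h1, h2⟩ := hRSV q l0 l σ hq hRl hl hσ v b c hv hb0 hc0 heq
  rw [← hg] at h1 h2
  set V : ℝ := v ⬝ᵥ v with hV
  have hV0 : 0 ≤ V := CAV_.dot_self_nonneg v
  have hs : 0 < l0 - R := by linarith
  have hsq : √(l0 - R) ^ 2 = l0 - R := Real.sq_sqrt hs.le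
  have hsr : 0 < √(l0 - R) := Real.sqrt_pos.2 hs
  have hbcn : (b + c) ⬝ᵥ (b + c) ≤ B1 ^ 2 * V := by
    rw [hbc, smul_dotProduct, dotProduct_smul, smul_smul, hσ2, one_smul]
    exact hnorm v hv
  have hgg : g ⬝ᵥ g ≤ B1 ^ 2 * V / (l0 - R) ^ 2 := by
    rw [le_div_iff₀ (by positivity)]
    linarith
  -- the first root
  have hr1 : √(b ⬝ᵥ polM y' q (fun m => cf q l0 R m * σ ^ m) *ᵥ b) ≤ √κ * √V := by
    rw [← Real.sqrt_mul hκ]
    apply Real.sqrt_le_sqrt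
    refine le_trans (le_of_eq ?_) (hQP σ hσ v)
    rw [hb, Matrix.mulVec_smul, smul_dotProduct, dotProduct_smul, smul_smul, hσ2, one_smul, hf]
    rw [← Matrix.mulVec_mulVec, ← Matrix.mulVec_mulVec, ← Matrix.mulVec_mulVec,
      ← Matrix.mulVec_mulVec]
    generalize polM y' q (fun m => cf q l0 R m * σ ^ m) *ᵥ A *ᵥ Q *ᵥ v = w
    rw [CAV_.sym hQh v (A *ᵥ w), dotProduct_comm (A *ᵥ w), CAV_.sym hAh (Q *ᵥ v) w,
      dotProduct_comm w]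
  -- the second root
  have hr2 : √(c ⬝ᵥ c) / √(l0 - R) ≤ B1 ^ 2 / √(l0 - R) ^ 3 * √V := by
    have h3 : c ⬝ᵥ c ≤ (B1 ^ 2 / (l0 - R)) ^ 2 * V := by
      rw [hc, smul_dotProduct, dotProduct_smul, smul_smul, hσ2, one_smul]
      refine (hnorm g hg0).trans ?_
      refine (mul_le_mul_of_nonneg_left hgg (sq_nonneg B1)).trans (le_of_eq ?_)
      rw [div_pow]
      ring
    have h4 : √(c ⬝ᵥ c) ≤ B1 ^ 2 / (l0 - R) * √V := by
      refine (Real.sqrt_le_sqrt h3).trans (le_of_eq ?_)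
      rw [Real.sqrt_mul (sq_nonneg _), Real.sqrt_sq (by positivity)]
    rw [div_le_iff₀ hsr]
    refine h4.trans (le_of_eq ?_)
    have h5 : √(l0 - R) ^ 3 = (l0 - R) * √(l0 - R) := by
      rw [pow_succ, hsq]
    rw [h5]
    field_simp
  have hge : g ⬝ᵥ (b + c) ≤ (√κ + B1 ^ 2 / √(l0 - R) ^ 3) ^ 2 * V := by
    refine h2.trans ?_
    have h6 : √(b ⬝ᵥ polM y' q (fun m => cf q l0 R m * σ ^ m) *ᵥ b) + √(c ⬝ᵥ c) / √(l0 - R) ≤
        (√κ + B1 ^ 2 / √(l0 - R) ^ 3) * √V := by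
      rw [add_mul]
      exact add_le_add hr1 hr2
    have h7 := pow_le_pow_left₀ (by positivity) h6 2
    refine h7.trans (le_of_eq ?_)
    rw [mul_pow, Real.sq_sqrt hV0]
  -- the form
  have hfAf : σ * (f ⬝ᵥ A *ᵥ f) ≤ u * V := by
    have h8 := hQAQ v
    have h9 : v ⬝ᵥ (Q * A * Q) *ᵥ v = f ⬝ᵥ A *ᵥ f := by
      rw [← Matrix.mulVec_mulVec, ← Matrix.mulVec_mulVec, ← hf, CAV_.sym hQh v (A *ᵥ f),
        dotProduct_comm, ← hf]
    rw [h9] at h8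
    refine (le_abs_self _).trans ?_
    rw [abs_mul, hσabs, one_mul]
    exact h8
  have hgAg : -(σ * (g ⬝ᵥ A *ᵥ g)) ≤ B1 ^ 3 / (l0 - R) ^ 2 * V := by
    refine (neg_le_abs _).trans ?_
    rw [abs_mul, hσabs, one_mul]
    refine (hform g hg0).trans ?_
    refine (mul_le_mul_of_nonneg_left hgg hB).trans (le_of_eq ?_)
    ring
  have hmain : σ * (v ⬝ᵥ A *ᵥ v) =
      σ * (f ⬝ᵥ A *ᵥ f) + 2 * (g ⬝ᵥ (b + c)) - σ * (g ⬝ᵥ A *ᵥ g) := by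
    rw [hbc, dotProduct_smul, smul_eq_mul]
    have e1 : v ⬝ᵥ A *ᵥ v = f ⬝ᵥ A *ᵥ f + 2 * (g ⬝ᵥ A *ᵥ f) + g ⬝ᵥ A *ᵥ g := by
      conv_lhs => rw [hvfg]
      rw [Matrix.mulVec_add, dotProduct_add, add_dotProduct, add_dotProduct, CAV_.sym hAh f g]
      ring
    have e2 : g ⬝ᵥ A *ᵥ v = g ⬝ᵥ A *ᵥ f + g ⬝ᵥ A *ᵥ g := by
      conv_lhs => rw [hvfg]
      rw [Matrix.mulVec_add, dotProduct_add]
    rw [e1, e2]
    ring
  rw [hmain]
  unfold rr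
  have e3 : (u + 2 * (√κ + B1 ^ 2 / √(l0 - R) ^ 3) ^ 2 + B1 ^ 3 / (l0 - R) ^ 2) * V =
      u * V + 2 * ((√κ + B1 ^ 2 / √(l0 - R) ^ 3) ^ 2 * V) + B1 ^ 3 / (l0 - R) ^ 2 * V := by ring
  rw [e3]
  linarith

end Pool.Agent.RCG
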