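import Pool.Agent.RCG.Targets5

set_option autoImplicit false

/-!
# RCG: CAY, the simple Cayley graph and its lazy walk
-/

namespace Pool.Agent.RCG

open Finset Matrix
open Pool.Agent.VAC (lazyP tvDist tmix)

namespace CAY_

/-- the value of a letter -/
def val {G : Type} [Group G] {d : ℕ} (s : Fin d → G) (l : Ltr d) : G :=
  if l.2 then s l.1 else (s l.1)⁻¹

theorem val_inj {G : Type} [Group G] {d : ℕ} {s : Fin d → G} (hs : Distinct s) :
    Function.Injective (val s) := by
  rintro ⟨i, b⟩ ⟨j, c⟩ h
  have h1 : ∀ i j : Fin d, s i = s j → i = j := fun i j hij => by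
    by_contra hne
    exact hs.2.1 i j hne hij
  cases b <;> cases c <;> simp only [val, if_true, if_false, Bool.false_eq_true] at h
  · rw [h1 i j (inv_injective h)]
  · exact absurd h.symm (hs.2.2 j i)
  · exact absurd h (hs.2.2 i j)
  · rw [h1 i j h]

theorem val_ne {G : Type} [Group G] {d : ℕ} {s : Fin d → G} (hs : Distinct s) (l : Ltr d) :
    val s l ≠ 1 := by
  rcases l with ⟨i, b⟩
  cases b <;> simp only [val, if_true, if_false, Bool.false_eq_true]
  · rw [Ne, inv_eq_one]; exact hs.1 i
  · exact hs.1 i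

theorem adj_iff {G : Type} [Group G] {d : ℕ} {s : Fin d → G} (hs : Distinct s) (x y : G) :
    (cay s).Adj x y ↔ ∃ l : Ltr d, x * val s l = y := by
  unfold cay
  rw [SimpleGraph.fromRel_adj]
  constructor
  · rintro ⟨-, ⟨i, h | h⟩ | ⟨i, h | h⟩⟩
    · exact ⟨(i, true), by simp [val, h]⟩
    · exact ⟨(i, false), by simp [val, h]⟩
    · exact ⟨(i, false), by simp [val, h]⟩
    · exact ⟨(i, true), by simp [val, h]⟩
  · rintro ⟨⟨i, b⟩, h⟩
    constructor
    · intro hxy
      apply val_ne hs (i, b)
      rw [hxy] at h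
      simpa using h
    · left
      cases b
      · exact ⟨i, Or.inr (by rw [← h]; simp [val])⟩
      · exact ⟨i, Or.inl (by rw [← h]; simp [val])⟩

theorem nbr {G : Type} [Group G] [Fintype G] [DecidableEq G] {d : ℕ} {s : Fin d → G}
    [DecidableRel (cay s).Adj] (hs : Distinct s) (x : G) :
    (cay s).neighborFinset x = univ.image fun l : Ltr d => x * val s l := by
  ext y
  rw [SimpleGraph.mem_neighborFinset, adj_iff hs, mem_image]
  simp

theorem inj {G : Type} [Group G] {d : ℕ} {s : Fin d → G} (hs : Distinct s) (x : G) :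
    Function.Injective fun l : Ltr d => x * val s l := fun _ _ h =>
  val_inj hs (mul_left_cancel h)

theorem deg {G : Type} [Group G] [Fintype G] [DecidableEq G] {d : ℕ} {s : Fin d → G}
    [DecidableRel (cay s).Adj] (hs : Distinct s) (x : G) : (cay s).degree x = 2 * d := by
  rw [← SimpleGraph.card_neighborFinset_eq_degree, nbr hs, card_image_of_injective _ (inj hs x),
    card_univ]
  simp [mul_comm]

theorem sum_nbr {G : Type} [Group G] [Fintype G] [DecidableEq G] {d : ℕ} {s : Fin d → G}
    [DecidableRel (cay s).Adj] (hs : Distinct s) (f : G → ℝ) (x : G) :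
    ∑ y ∈ (cay s).neighborFinset x, f y = adj s f x := by
  rw [nbr hs, sum_image fun a _ b _ h => inj hs x h]
  unfold adj
  rw [Fintype.sum_prod_type]
  refine sum_congr rfl fun i _ => ?_
  simp [val]

/-- the transition matrix of the simple walk -/
noncomputable def Q {G : Type} [Group G] [Fintype G] {d : ℕ} (s : Fin d → G)
    [DecidableRel (cay s).Adj] : Matrix G G ℝ :=
  Matrix.of fun x y => if (cay s).Adj x y then 1 / (2 * (d : ℝ)) else 0

theorem sum_Q {G : Type} [Group G] [Fintype G] [DecidableEq G] {d : ℕ} {s : Fin d → G}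
    [DecidableRel (cay s).Adj] (hs : Distinct s) (f : G → ℝ) (x : G) :
    ∑ y, Q s x y * f y = adj s f x / (2 * d) := by
  have h1 : ∀ y, Q s x y * f y = if y ∈ (cay s).neighborFinset x then
      f y / (2 * (d : ℝ)) else 0 := by
    intro y
    simp only [SimpleGraph.mem_neighborFinset]
    show (if (cay s).Adj x y then 1 / (2 * (d : ℝ)) else 0) * f y = _
    split_ifs
    · ring
    · ring
  simp only [h1]
  rw [sum_ite_mem, univ_inter, ← sum_div, sum_nbr hs]

theorem conn {G : Type} [Group G] [Fintype G] [DecidableEq G] {d : ℕ} {s : Fin d → G}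
    (hs : Distinct s) (B : ℝ) (hB0 : 0 ≤ B) (hB : B < 2 * d)
    (hN : NormLe s B) : (cay s).Connected := by
  classical
  rw [SimpleGraph.connected_iff]
  refine ⟨fun x y => ?_, ⟨1⟩⟩
  by_contra hxy
  set χ : G → ℝ := fun z => if (cay s).Reachable x z then 1 else 0 with hχ
  set m : ℝ := (∑ z, χ z) / Fintype.card G with hm
  set f : G → ℝ := fun z => χ z - m with hf
  have hcard : (Fintype.card G : ℝ) ≠ 0 := by
    have : Nonempty G := ⟨1⟩
    exact_mod_cast Fintype.card_ne_zero
  have hsum : ∑ z, f z = 0 := by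
    rw [hf]
    simp only [sum_sub_distrib, sum_const, card_univ, nsmul_eq_mul]
    rw [hm]
    field_simp
    ring
  have hstep : ∀ z (l : Ltr d), χ (z * val s l) = χ z := by
    intro z l
    have hadj : (cay s).Adj z (z * val s l) := (adj_iff hs _ _).mpr ⟨l, rfl⟩
    have hiff : (cay s).Reachable x (z * val s l) ↔ (cay s).Reachable x z :=
      ⟨fun h => h.trans hadj.symm.reachable, fun h => h.trans hadj.reachable⟩
    simp only [hχ, hiff]
  have h1 : ∀ z, ∑ i : Fin d, (f (z * s i) + f (z * (s i)⁻¹)) = 2 * d * f z := by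
    intro z
    have h2 : ∀ i : Fin d, f (z * s i) + f (z * (s i)⁻¹) = 2 * f z := by
      intro i
      have e1 := hstep z (i, true)
      have e2 := hstep z (i, false)
      simp only [val, if_true, if_false, Bool.false_eq_true] at e1 e2
      simp only [hf, e1, e2]
      ring
    simp only [h2, sum_const, card_univ, Fintype.card_fin, nsmul_eq_mul]
    ring
  have h3 := hN f (by rw [finsum_eq_sum_of_fintype]; exact hsum)
  rw [finsum_eq_sum_of_fintype, finsum_eq_sum_of_fintype] at h3
  simp only [h1] at h3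
  have h4 : ∑ z, (2 * (d : ℝ) * f z) ^ 2 = (2 * d) ^ 2 * ∑ z, f z ^ 2 := by
    rw [mul_sum]
    exact sum_congr rfl fun z _ => by ring
  rw [h4] at h3
  have h5 : 0 < ∑ z, f z ^ 2 := by
    by_contra hle
    have h6 : ∑ z, f z ^ 2 = 0 :=
      le_antisymm (not_lt.mp hle) (sum_nonneg fun z _ => sq_nonneg _)
    rw [sum_eq_zero_iff_of_nonneg fun z _ => sq_nonneg _] at h6
    have h7 := h6 x (mem_univ _)
    have h8 := h6 y (mem_univ _)
    rw [sq_eq_zero_iff] at h7 h8
    have h9 : χ x = 1 := by simp [hχ]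
    have h10 : χ y = 0 := by simp [hχ, hxy]
    simp only [hf, h9, h10] at h7 h8
    linarith
  have h6 : B ^ 2 < (2 * (d : ℝ)) ^ 2 := by nlinarith
  nlinarith

end CAY_

open CAY_ in
theorem prove_CAY : T_CAY := by
  intro G _ _ _ d s _ hd hs
  have hd0 : (0 : ℝ) < 2 * d := by
    have : (1 : ℝ) ≤ d := by exact_mod_cast hd
    linarith
  refine ⟨fun x => deg hs x, fun x y => ?_, fun B hB0 hB hN => conn hs B hB0 hB hN, Q s, ?_, ?_,
    ?_, ?_, ?_, ?_⟩
  · refine ⟨⟨Equiv.mulLeft (y * x⁻¹), ?_⟩, ?_⟩
    · intro a b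
      rw [adj_iff hs, adj_iff hs]
      simp only [Equiv.coe_mulLeft, mul_assoc, mul_right_inj]
    · show y * x⁻¹ * x = y
      group
  · ext a b
    have hdeg : ((cay s).degree a : ℝ) = 2 * d := by
      rw [deg hs a]
      push_cast
      ring
    simp only [lazyP, Q, Matrix.of_apply, Matrix.smul_apply, Matrix.add_apply, Matrix.one_apply,
      smul_eq_mul, hdeg]
    split_ifs <;> field_simp <;> ring
  · ext a b
    simp only [Q, Matrix.transpose_apply, Matrix.of_apply, (cay s).adj_comm b a]
  · intro x y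
    show 0 ≤ (if (cay s).Adj x y then 1 / (2 * (d : ℝ)) else 0)
    split_ifs
    · positivity
    · exact le_rfl
  · intro x
    have h := sum_Q hs (fun _ => 1) x
    simp only [mul_one] at h
    rw [h]
    unfold adj
    simp only [sum_const, card_univ, Fintype.card_fin, nsmul_eq_mul]
    rw [div_eq_one_iff_eq hd0.ne']
    ring
  · intro x
    rw [← deg hs x, ← SimpleGraph.card_neighborFinset_eq_degree]
    apply card_le_card
    intro y hy
    rw [mem_filter] at hy
    rw [SimpleGraph.mem_neighborFinset]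
    by_contra h
    apply hy.2
    show (if (cay s).Adj x y then 1 / (2 * (d : ℝ)) else 0) = 0
    rw [if_neg h]
  · intro f x
    exact sum_Q hs f x

end Pool.Agent.RCG
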