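import Pool.Agent.RCG.Defs

set_option autoImplicit false

/-!
# RCG: targets (exact statements, with proofs in the comments)

Write the proof of `T_XXX` in a new file `Pool/Agent/RCG/XXX.lean` which imports this file:
`theorem prove_XXX : T_XXX := by ...`. Several targets use other targets as hypotheses; these are
then imported as hypotheses of the form `(h : T_YYY)` (`theorem prove_XXX (h : T_YYY) : T_XXX`).
Here `k = 2 d` is the degree.
-/

namespace Pool.Agent.RCG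

open Finset Matrix

/-! ## Part 1: matrices -/

/-- PWR. For positive semidefinite real `C, D`: `tr (C D)^(2^k) <= tr (C^(2^k) D^(2^k))`.
Proof: simultaneous induction with
(b_k), k >= 1: `|tr M^(2^k)| <= tr ((M Mt)^(2^(k-1)))` for every real square matrix `M`.
a_0 is an equality. b_1: Cauchy-Schwarz for `tr M^2 = <M, Mt>`. a_k, k >= 1, from b_k with `M = C D`:
`tr (C D)^(2^k) <= tr ((C D D C)^(2^(k-1))) = tr ((C^2 D^2)^(2^(k-1)))` (cyclicity of the trace),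
then a_(k-1) for `C^2, D^2`. b_k, k >= 2: `|tr M^(2^k)| = |tr (M^2)^(2^(k-1))| <=`
(b_(k-1) for `M^2`) `tr ((M M Mt Mt)^(2^(k-2))) = tr ((Mt M M Mt)^(2^(k-2))) <=` (a_(k-2) for
`Mt M` and `M Mt`) `tr ((Mt M)^(2^(k-2)) (M Mt)^(2^(k-2))) <=` (Cauchy-Schwarz)
`sqrt (tr (Mt M)^(2^(k-1))) sqrt (tr (M Mt)^(2^(k-1))) = tr (M Mt)^(2^(k-1))`, since
`tr (Mt M)^j = tr (M Mt)^j`. -/
def T_PWR : Prop := ∀ (ι : Type) [Fintype ι] [DecidableEq ι] (C D : Matrix ι ι ℝ),
  C.PosSemidef → D.PosSemidef → ∀ k : ℕ,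
    ((C * D) ^ (2 ^ k)).trace ≤ (C ^ (2 ^ k) * D ^ (2 ^ k)).trace

/-- LT: the Lie-Trotter product formula for matrices. Proof: put `X = exp (A/n) exp (B/n)`,
`Y = exp ((A+B)/n)`; `|X^n - Y^n| <= n |X - Y| max (|X|, |Y|)^(n-1)`, the maximum is at most
`exp ((|A|+|B|)/n)`, and `n |X - Y| -> 0`, because `t -> exp (t A) exp (t B)` and
`t -> exp (t (A+B))` have the same derivative `A + B` at `t = 0`. (Use a local submultiplicative
norm, for example `Matrix.linftyOpNormedRing`; the topology is the same.) -/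
def T_LT : Prop := ∀ (ι : Type) [Fintype ι] [DecidableEq ι] (A B : Matrix ι ι ℝ),
  Filter.Tendsto (fun n : ℕ => (NormedSpace.exp ((1 / (n : ℝ)) • A) *
    NormedSpace.exp ((1 / (n : ℝ)) • B)) ^ n) Filter.atTop (nhds (NormedSpace.exp (A + B)))

/-- GT: the Golden-Thompson inequality. Proof: PWR with `C = exp (2^(-k) A)`,
`D = exp (2^(-k) B)` (positive definite), `C^(2^k) = exp A`, and LT along `n = 2^k`; the trace is
continuous. -/
def T_GT : Prop := ∀ (ι : Type) [Fintype ι] [DecidableEq ι] (A B : Matrix ι ι ℝ),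
  A.IsHermitian → B.IsHermitian →
    (NormedSpace.exp (A + B)).trace ≤ (NormedSpace.exp A * NormedSpace.exp B).trace

/-- AWS (Ahlswede-Winter step). Hypothesis `T_GT`. Induction on `s`: with
`E = exp (l sum of the first P)`, positive definite, `exp (l P) = 1 + (e^l - 1) P` for a projection
`P`, Golden-Thompson gives `sum_y tr exp (H + l P_y) <= |Y| tr E + (e^l - 1) tr (E sum_y P_y)` and
`tr (E S) <= c tr E` for `E` positive semidefinite and `S <= c`. -/
def T_AWS : Prop := ∀ (ι Y : Type) [Fintype ι] [DecidableEq ι] [Fintype Y]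
  (P : Y → Matrix ι ι ℝ) (τ l : ℝ), 0 ≤ τ → 0 ≤ l → (∀ y, (P y).IsHermitian) →
  (∀ y, P y * P y = P y) →
  (∀ v : ι → ℝ, ∑ y, v ⬝ᵥ (P y) *ᵥ v ≤ Fintype.card Y * τ * (v ⬝ᵥ v)) → ∀ s : ℕ,
    ∑ z : Fin s → Y, (NormedSpace.exp (l • ∑ g, P (z g))).trace ≤
      (Fintype.card Y : ℝ) ^ s * Fintype.card ι * (1 + (Real.exp l - 1) * τ) ^ s

/-- AW (tail bound). Hypothesis `T_AWS`. Put `x = 1/(s τ)`, `l = log (1 + x)`. If some Rayleigh
quotient of the symmetric matrix `S = sum_g P (z g)` exceeds `u`, its largest eigenvalue exceeds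
`u`, so `tr exp (l S) >= e^(l u) = (1+x)^u >= x^u = (s τ)^(-u)` (all eigenvalues of `exp` are
positive). By AWS the sum of `tr exp (l S)` over `z` is at most `|Y|^s |ι| (1 + 1/s)^s <=
e |Y|^s |ι|`. -/
def T_AW : Prop := ∀ (ι Y : Type) [Fintype ι] [DecidableEq ι] [Fintype Y]
  (P : Y → Matrix ι ι ℝ) (τ : ℝ), 0 < τ → (∀ y, (P y).IsHermitian) →
  (∀ y, P y * P y = P y) →
  (∀ v : ι → ℝ, ∑ y, v ⬝ᵥ (P y) *ᵥ v ≤ Fintype.card Y * τ * (v ⬝ᵥ v)) →
  ∀ (s : ℕ) (u : ℝ), 1 ≤ s → 0 < u →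
    (Nat.card {z : Fin s → Y // ¬ ∀ v : ι → ℝ,
      v ⬝ᵥ (∑ g, P (z g)) *ᵥ v ≤ u * (v ⬝ᵥ v)} : ℝ) ≤
      Real.exp 1 * Fintype.card ι * (s * τ) ^ u * (Fintype.card Y : ℝ) ^ s

/-- SPC (spectral cut). `P` is the spectral projection of `M` for the eigenvalues of absolute value
`> θ`. In an orthonormal eigenbasis: `vPv = sum over |λ| > θ of c² <= sum (|λ|/θ)^n c²`, and if
`|vMv| <= B v.v` then all `|λ| <= B`, so `|vMv| <= sum |λ| c² <= θ sum over |λ| <= θ of c² +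
B sum over |λ| > θ of c²`. -/
def T_SPC : Prop := ∀ (ι : Type) [Fintype ι] [DecidableEq ι] (M : Matrix ι ι ℝ) (θ : ℝ) (n : ℕ),
  M.IsHermitian → 0 < θ → Even n → ∃ P : Matrix ι ι ℝ, P.IsHermitian ∧ P * P = P ∧
    (∀ v, v ⬝ᵥ P *ᵥ v ≤ (θ ^ n)⁻¹ * (v ⬝ᵥ (M ^ n) *ᵥ v)) ∧
    ∀ B : ℝ, (∀ v, |v ⬝ᵥ M *ᵥ v| ≤ B * (v ⬝ᵥ v)) →
      ∀ v, |v ⬝ᵥ M *ᵥ v| ≤ θ * (v ⬝ᵥ v) + B * (v ⬝ᵥ P *ᵥ v)

/-- ONE. Hypotheses `T_SPC`, `T_AW`. Apply SPC to every `M y`; by the average hypothesis the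
projections satisfy the hypothesis of AW with `(θ^n)⁻¹ τ` in place of `τ`. If `z` is outside the
exceptional set of AW and all `|M (z g)| <= B`, then `|v (sum M) v| <= sum_g (θ v.v + B v P v) <=
(s θ + u B) v.v`. -/
def T_ONE : Prop := ∀ (ι Y : Type) [Fintype ι] [DecidableEq ι] [Fintype Y]
  (M : Y → Matrix ι ι ℝ) (θ τ B u : ℝ) (n s : ℕ), (∀ y, (M y).IsHermitian) → 0 < θ → 0 < τ →
  0 ≤ B → 0 < u → Even n → 1 ≤ s →
  (∀ v : ι → ℝ, ∑ y, v ⬝ᵥ (M y ^ n) *ᵥ v ≤ Fintype.card Y * τ * (v ⬝ᵥ v)) →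
    (Nat.card {z : Fin s → Y // (∀ g, ∀ v, |v ⬝ᵥ M (z g) *ᵥ v| ≤ B * (v ⬝ᵥ v)) ∧
      ¬ ∀ v, |v ⬝ᵥ (∑ g, M (z g)) *ᵥ v| ≤ (s * θ + u * B) * (v ⬝ᵥ v)} : ℝ) ≤
      Real.exp 1 * Fintype.card ι * (s * ((θ ^ n)⁻¹ * τ)) ^ u * (Fintype.card Y : ℝ) ^ s

/-! ## Part 2: finite groups -/

/-- STP. Hypothesis `T_ONE`. Let `k = 2 d`, `ι = G`, `Y = Fin d → G`,
`M y = (1/k) (adjacency matrix of y) - J`, `J` the matrix with all entries `1/|G|`. This matrix is
symmetric, kills the constants, equals `A/k` on functions of sum zero, so (n >= 1) for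
`v = c + f`, `f` of sum zero, `v M^n v = f (A/k)^n f` and the average hypothesis of ONE holds with
this `τ`. `QB y B` gives `|v M v| <= (B/k) v.v`. The bijection of `Fin (s * d) → G` with
`Fin s → (Fin d → G)` (`finProdFinEquiv`): the quadratic form of the big tuple on functions of sum
zero is `k` times that of `sum_g M (z g)`. So a bad tuple has a bad block (at most
`s badCard G d B |G|^((s-1) d)` tuples), or lies in the exceptional set of ONE with `B/k` for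
`B`; and `k (s θ + u B/k) = 2 d s θ + u B`. -/
def T_STP : Prop := ∀ (G : Type) [Group G] [Fintype G] (d s n : ℕ) (τ θ B u : ℝ), 1 ≤ d → 1 ≤ s →
  Even n → 1 ≤ n → 0 < θ → 0 < τ → 0 ≤ B → 0 < u →
  (∀ f : G → ℝ, ∑ x, f x = 0 → ∑ y : Fin d → G, ∑ x, f x * (adj y)^[n] f x ≤
    (2 * (d : ℝ)) ^ n * (Fintype.card G : ℝ) ^ d * τ * ∑ x, f x ^ 2) →
  (badCard G (s * d) (2 * d * s * θ + u * B) : ℝ) ≤
    s * badCard G d B * (Fintype.card G : ℝ) ^ ((s - 1) * d) +
    Real.exp 1 * Fintype.card G * (s * ((θ ^ n)⁻¹ * τ)) ^ u * (Fintype.card G : ℝ) ^ (s * d)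

/-- ASY (real analysis). Take `n = 2 ⌈log q / (4 log (1/ρ))⌉`, so `ρ^n <= q^(-1/2)` and
`n <= log q / (2 log (1/ρ)) + 2`, hence `(ρ^κ)^(-n) <= ρ^(-2κ) q^(κ/2)`; the bracket is
`O (sqrt (log q) q^(-1/2))`, and `e q^N (O (q^((κ-1)/2) sqrt (log q)))^u <= q^(-a)` for large `q`,
because `N + a < (1-κ) u/2`. -/
def T_ASY : Prop := ∀ (ρ κ N a u c s : ℝ), 0 < ρ → ρ < 1 → 0 < κ → κ < 1 → 0 ≤ N → 0 ≤ a →
  N + a < (1 - κ) * u / 2 → 0 < c → 0 < s → ∃ P : ℝ, ∀ q : ℝ, P ≤ q → 0 < q ∧ ∃ n : ℕ, Even n ∧ 1 ≤ n ∧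
    Real.exp 1 * q ^ N * (s * (((ρ ^ κ) ^ n)⁻¹ * (ρ ^ n + c * √(((n : ℝ) + 1) / q)))) ^ u ≤
      q ^ (-a)

/-- STEP. Hypotheses `T_STP`, `T_ASY`. Use STP with `θ = ρ^κ`, `ρ = 2/√(2d) < 1`,
`τ = ρ^n + c √((n+1)/q)` and the `n` of ASY; the first summand is at most
`s K q^(-a) |G|^(s d)`, the second at most `q^(-a) |G|^(s d)`. (Enlarge `c` to be positive; `c`
appears also as the threshold.) -/
def T_STEP : Prop := ∀ (I : Type) (G : I → Type) [∀ i, Group (G i)] [∀ i, Fintype (G i)]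
  (q : I → ℝ) (N a : ℝ), 0 ≤ N → 0 ≤ a → (∀ i, (Fintype.card (G i) : ℝ) ≤ q i ^ N) →
  ∀ d : ℕ, 3 ≤ d → (∃ c, AvgB G q d c) → ∀ (s : ℕ) (B κ u : ℝ), 1 ≤ s → 0 ≤ B → 0 < κ → κ < 1 →
  N + a < (1 - κ) * u / 2 → Good G q d B a →
  Good G q (s * d) (2 * d * s * (2 / √(2 * (d : ℝ))) ^ κ + u * B) a

/-- ELE: the elementary properties. (1) monotonicity in `B`; (2) `|<f, A f>| <= 2 d |f|²` always;
(3) adding `r` generators adds at most `2 r` to the bound (the first `d` entries of the tuple;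
`badCard G (d+r) (B+2r) <= badCard G d B * |G|^r`). -/
def T_ELE : Prop := ∀ (I : Type) (G : I → Type) [∀ i, Group (G i)] [∀ i, Fintype (G i)]
  (q : I → ℝ) (a : ℝ),
  (∀ (d : ℕ) (B B' : ℝ), B ≤ B' → Good G q d B a → Good G q d B' a) ∧
  (∀ d : ℕ, Good G q d (2 * d) a) ∧
  (∀ (d r : ℕ) (B : ℝ), Good G q d B a → Good G q (d + r) (B + 2 * r) a)

/-- REC (the recursion; real analysis and strong induction only). Put `m = N + a + 1`,
`C = 32 m`, `k = 2 d`, `L = log k` (`L >= log 4 > 1.38`). Strong induction on `d`.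
If `√k <= C L`: `Gd d (2 d)` and `2 d = √k √k <= C √k L`.
If `√k > C L`: `s = ⌈4 m² L²⌉₊`, `d1 = d / s`, `r = d % s`, `k1 = 2 d1`. Then
`s <= 4 m² L² + 1 <= 5 m² L² <= 5 m² k / C²`, so `d1 >= 4`. Apply the step with
`1 - κ = 2 / log k1`, `u = m log k1` (`κ > 0` because `k1 >= 8`, `log 8 > 2`;
`(1-κ) u/2 = m > N + a`) and `B = C √k1 log k1`. As `(2/√k1)^κ <= e * 2/√k1`, the bound is
`<= 2 e s √k1 + m L C √k1 L <= 2 e √s √k + C m L² √(k/s) <= 2 e √5 m L √k + (C/2) √k L`, and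
the remainder `r` adds `2 r <= 2 s <= 10 m² L² <= 10 m² L √k / C`. The sum is
`<= √k L (12.3 m + C/2 + 10 m²/C) <= C √k L`. -/
def T_REC : Prop := ∀ (N a : ℝ) (Gd : ℕ → ℝ → Prop), 0 ≤ N → 0 ≤ a →
  (∀ (d : ℕ) (B B' : ℝ), B ≤ B' → Gd d B → Gd d B') → (∀ d : ℕ, Gd d (2 * d)) →
  (∀ (d r : ℕ) (B : ℝ), Gd d B → Gd (d + r) (B + 2 * r)) →
  (∀ (d s : ℕ) (B κ u : ℝ), 3 ≤ d → 1 ≤ s → 0 ≤ B → 0 < κ → κ < 1 → N + a < (1 - κ) * u / 2 →
    Gd d B → Gd (s * d) (2 * d * s * (2 / √(2 * (d : ℝ))) ^ κ + u * B)) →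
  ∀ d : ℕ, 2 ≤ d → Gd d (32 * (N + a + 1) * √(2 * (d : ℝ)) * Real.log (2 * d))

/-- MACH. Hypotheses `T_STEP`, `T_ELE`, `T_REC`: a direct combination. -/
def T_MACH : Prop := ∀ (I : Type) (G : I → Type) [∀ i, Group (G i)] [∀ i, Fintype (G i)]
  (q : I → ℝ) (N a : ℝ), 0 ≤ N → 0 ≤ a → (∀ i, (Fintype.card (G i) : ℝ) ≤ q i ^ N) →
  (∀ d : ℕ, 2 ≤ d → ∃ c, AvgB G q d c) →
  ∀ d : ℕ, 2 ≤ d → Good G q d (32 * (N + a + 1) * √(2 * (d : ℝ)) * Real.log (2 * d)) a

/-- ITR: iterates of the adjacency operator are sums over words,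
`(A^n f)(x) = sum over l_1, ..., l_n of f (x l_1 ... l_n)`. -/
def T_ITR : Prop := ∀ (G : Type) [Group G] (d n : ℕ) (y : Fin d → G) (f : G → ℝ) (x : G),
  (adj y)^[n] f x = ∑ w : Fin n → Ltr d, f (x * ev y w)

/-- KES: at most `(2 √k)^n` words of length `n` are trivial in the free group. Proof: with
`h x = k^(-|x|/2)` on the free group, `|x|` the reduced length (`FreeGroup.norm`), one has
`sum_l h (x l) <= 2 √k h x` for every `x`: if `x ≠ 1` exactly one letter shortens `x` and the other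
`k - 1` lengthen it, `√k + (k-1)/√k <= 2 √k`; if `x = 1` all lengthen it. Iterating,
`sum_w h (w) <= (2 √k)^n h 1 = (2 √k)^n`, and a trivial word contributes `1`. -/
def T_KES : Prop := ∀ d n : ℕ, 1 ≤ d →
  (Nat.card {w : Fin n → Ltr d // FreeGroup.mk (List.ofFn w) = 1} : ℝ) ≤
    (2 * √(2 * (d : ℝ))) ^ n

/-- AVG. Hypotheses `T_ITR`, `T_KES`. Expand by ITR; a trivial word has `ev y w = 1` and
contributes `|G|^d |f|²`, there are at most `(2 √k)^n = k^n (2/√k)^n` of them; each of the at most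
`k^n` other words contributes at most `η |G|^d |f|²`. -/
def T_AVG : Prop := ∀ (G : Type) [Group G] [Fintype G] (d n : ℕ) (η : ℝ), 1 ≤ d → 0 ≤ η →
  ∀ f : G → ℝ,
  (∀ w : Fin n → Ltr d, FreeGroup.mk (List.ofFn w) ≠ 1 →
    ∑ y : Fin d → G, ∑ x, f x * f (x * ev y w) ≤
      η * (Fintype.card G : ℝ) ^ d * ∑ x, f x ^ 2) →
  ∑ y : Fin d → G, ∑ x, f x * (adj y)^[n] f x ≤
    (2 * (d : ℝ)) ^ n * (Fintype.card G : ℝ) ^ d *
      ((2 / √(2 * (d : ℝ))) ^ n + η) * ∑ x, f x ^ 2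

/-- MIX (quasirandom mixing). Work with complex functions. The operator
`(R f) x = sum_h K h f (x h)` commutes with left translations `f -> f (g ·)` and preserves the
functions of sum zero; so does `R* R` (its matrix is real symmetric positive semidefinite). Let
`Λ` be its largest eigenvalue on the space `V0` of functions of sum zero (if `V0 = 0` the claim is
trivial). The corresponding eigenspace inside `V0` is nonzero and left-invariant, so its dimension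
is `>= D`, and `Λ D <= tr (R* R) = sum_{x,y} K (x⁻¹ y)² = |G| sum K²`; finally
`|R f|² <= Λ |f|²` for `f` of sum zero. -/
def T_MIX : Prop := ∀ (G : Type) [Group G] [Fintype G] (D : ℝ), 0 < D → MinDim G D →
  ∀ K f : G → ℝ, ∑ x, f x = 0 →
    D * ∑ x, (∑ h, K h * f (x * h)) ^ 2 ≤ Fintype.card G * (∑ h, K h ^ 2) * ∑ x, f x ^ 2

/-- WRD. Hypothesis `T_MIX`. Split `N = N 1_Z + N 1_(not Z)`. The first part contributes at most
`sum_{h in Z} N h |f|² <= β T |f|²` (Cauchy-Schwarz, translation invariance). The second part `K`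
has `sum K² <= (γ T/|G|) sum K <= γ T²/|G|`, so by Cauchy-Schwarz and MIX it contributes at most
`|f| sqrt (|G| sum K² / D) |f| <= sqrt (γ/D) T |f|²`. -/
def T_WRD : Prop := ∀ (G : Type) [Group G] [Fintype G] (D β γ : ℝ), 0 < D → MinDim G D →
  0 ≤ β → 0 ≤ γ → ∀ (N : G → ℝ) (T : ℝ), (∀ h, 0 ≤ N h) → ∑ h, N h = T →
  ∀ Z : Finset G, ∑ h ∈ Z, N h ≤ β * T → (∀ h, h ∉ Z → N h * Fintype.card G ≤ γ * T) →
  ∀ f : G → ℝ, ∑ x, f x = 0 →
    ∑ h, N h * ∑ x, f x * f (x * h) ≤ (β + √(γ / D)) * T * ∑ x, f x ^ 2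

/-- CLF (class functions). A finite group `H` acts on `G` by automorphisms `α h`. Then
`ev (α h ∘ y) w = α h (ev y w)`, so `N g = #{y : ev y w = g}` is constant on the `H`-orbit of `g`,
which has `|H| / |Stab g|` elements, and on the orbit `φ` is constant. -/
def T_CLF : Prop := ∀ (G H X : Type) [Group G] [Fintype G] [Group H] [Fintype H]
  (α : H →* MulAut G) (φ : G → X), (∀ h g, φ (α h g) = φ g) →
  ∀ (d n : ℕ) (w : Fin n → Ltr d) (g : G),
    Fintype.card H * Nat.card {y : Fin d → G // ev y w = g} ≤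
      Nat.card {h : H // α h g = g} * Nat.card {y : Fin d → G // φ (ev y w) = φ g}

/-- QUO: for a surjective homomorphism `π : G → H` of finite groups, a tuple `y` of `G` with
`QB y B` has `QB (π ∘ y) B` (apply it to `f ∘ π`; all fibres have `|G|/|H|` elements); so all
`(|G|/|H|)^d` lifts of a bad tuple of `H` are bad. -/
def T_QUO : Prop := ∀ (G H : Type) [Group G] [Fintype G] [Group H] [Fintype H] (π : G →* H),
  Function.Surjective π → ∀ (d : ℕ) (B : ℝ),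
    badCard H d B * Fintype.card G ^ d ≤ badCard G d B * Fintype.card H ^ d

/-- POL: from the quadratic form to the norm. The operator `A = adj y` is symmetric and preserves
the functions of sum zero; for `f, g` of sum zero `4 <A f, g> = <A (f+g), f+g> - <A (f-g), f-g> <=
2 B (|f|² + |g|²)`; apply this with `g = A f |f|/|A f|`. -/
def T_POL : Prop := ∀ (G : Type) [Group G] [Fintype G] (d : ℕ) (y : Fin d → G) (B : ℝ), 0 ≤ B →
  QB y B → ∀ f : G → ℝ, ∑ x, f x = 0 → ∑ x, adj y f x ^ 2 ≤ B ^ 2 * ∑ x, f x ^ 2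

/-! ## Part 3: `SL(2, p)` and `SL(3, p)` -/

/-- SZ m E (a Schwartz-Zippel bound for words in `SL (m, p)`), for `(m, E) = (2, 4)` and `(3, 11)`.
Proof. Over every field `K` every matrix of `SL (m, K)` is a product of `E` elementary matrices
`x_1 (t_1) ... x_E (t_E)` in a FIXED order of the positions.
`m = 2`: `g = U(t1) L(t2) U(t3) L(t4)`, `U(t) = [1,t;0,1]`, `L(t) = [1,0;t,1]`: if `g 1 0 ≠ 0` take
`t4 = 0`, `t2 = g 1 0`, `t1 = (g 0 0 - 1)/(g 1 0)`, `t3 = (g 1 1 - 1)/(g 1 0)`; otherwise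
`g L(-1)` has a nonzero lower left entry, `t4 = 1`.
`m = 3`: let `v` be the first column of `g`. Row operations: `v_3 += x1 v_1`, `v_3 += x2 v_2` so
that `v_3 ≠ 0`; `v_1 += x3 v_3` so that `v_1 = 1`; `v_2 += x4 v_1`, `v_3 += x5 v_1` so that the
column is `e_1`; two column operations clear the first row; the remaining block is in `SL (2, K)`:
four more. In total 11 elementary matrices, 9 on the left (5, then the block in positions 2,3)
and 2 on the right (or any other fixed order).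
Now let `T = Fin d → Fin E → ZMod p`. For each fixed tuple `y0` of `SL (m, p)` the map
`(t, y0) -> (x(t_j) y0_j)_j` is, for fixed `t`, a bijection of the tuples, so
`#{y : Q (ev y w) = 0} |T| = sum_{y0} #{t : Q (ev (x(t) y0) w) = 0}`. For fixed `y0` the matrices
`Z_j = x(X_j) y0_j` over the polynomial ring `R = (ZMod p)[X_(j,e)]` and their inverses have entries
of total degree `<= E`, so `ev Z w` has entries of total degree `<= E n` and
`F = Q (ev Z w)` has total degree `<= E n deg Q`. `F ≠ 0`: choose `t` over `K` with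
`x(t_j) y0_j = z_j`. Schwartz-Zippel (`MvPolynomial.schwartz_zippel_totalDegree`):
`#{t : F t = 0} <= (E n deg Q / p) |T|`. -/
def T_SZ (m E : ℕ) : Prop := ∀ (p : ℕ) [Fact p.Prime] (d n : ℕ) (w : Fin n → Ltr d)
  (Q : MvPolynomial (Fin m × Fin m) (ZMod p)) (K : Type) [Field K] [Algebra (ZMod p) K]
  (z : Fin d → Matrix.SpecialLinearGroup (Fin m) K),
  MvPolynomial.aeval (fun ij : Fin m × Fin m => (ev z w).1 ij.1 ij.2) Q ≠ 0 →
    (p : ℝ) * Nat.card {y : Fin d → SL m p //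
        MvPolynomial.eval (fun ij : Fin m × Fin m => (ev y w).1 ij.1 ij.2) Q = 0} ≤
      E * n * Q.totalDegree * (Fintype.card (SL m p) : ℝ) ^ d

/-- NC2 (the trace of a nontrivial word is not constant). Put
`z_j = U(a_j) L(X) U(a_j)`, `a_j = j + 1` for `j : Fin d` (all `a_j`, all sums `a_j + a_k` and all
differences `a_j - a_k`, `j ≠ k`, are nonzero in `ZMod p` because `2 d < p`). Then
`z_j = X u v^T + (constant matrix)` with `u = (a_j, 1)`, `v = (1, a_j)`, and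
`z_j⁻¹ = X u' v'^T + (constant)` with `u' = (a_j, -1)`, `v' = (1, -a_j)`.
The word is conjugate to a cyclically reduced word `l_1 ... l_r`, `r >= 1`
(`Mathlib/GroupTheory/FreeGroup/CyclicallyReduced.lean`), with the same trace. The coefficient of
`X^r` in the trace is the product over the cyclic pairs of `v_(l_i) . u_(l_(i+1))`; these are
`v_j . u_k = a_k + a_j`, `v_j . u'_k = a_k - a_j` (letters `j, k⁻¹`, so `j ≠ k`),
`v'_j . u_k = a_k - a_j` (again `j ≠ k`), `v'_j . u'_k = a_k + a_j`: all nonzero. So the trace has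
degree exactly `r >= 1`. -/
def T_NC2 : Prop := ∀ (p : ℕ) [Fact p.Prime] (d n : ℕ) (w : Fin n → Ltr d), 2 * d < p →
  FreeGroup.mk (List.ofFn w) ≠ 1 →
  ∃ z : Fin d → Matrix.SpecialLinearGroup (Fin 2) (Polynomial (ZMod p)),
    1 ≤ ((ev z w).1 0 0 + (ev z w).1 1 1).natDegree

/-- TR2. Hypotheses `T_SZ 2 4`, `T_NC2` (with `K = RatFunc (ZMod p)` and
`Q = X_(0,0) + X_(1,1) - C t`, of total degree 1). -/
def T_TR2 : Prop := ∀ (p : ℕ) [Fact p.Prime] (d n : ℕ) (w : Fin n → Ltr d) (t : ZMod p),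
  2 * d < p → FreeGroup.mk (List.ofFn w) ≠ 1 →
    (p : ℝ) * Nat.card {y : Fin d → SL 2 p // (ev y w).1 0 0 + (ev y w).1 1 1 = t} ≤
      4 * n * (Fintype.card (SL 2 p) : ℝ) ^ d

/-- CEN2: centralizers. A matrix `g` of `SL (2, p)` which is not scalar has centralizer
`{x + y g}` in the ring of all matrices, and for every `y` the equation `det (x + y g) = 1` has at
most two solutions `x`. (If `g` is scalar then `g = ± 1`.) -/
def T_CEN2 : Prop := ∀ (p : ℕ) [Fact p.Prime] (g : SL 2 p),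
  (g : Matrix (Fin 2) (Fin 2) (ZMod p)) ≠ 1 → (g : Matrix (Fin 2) (Fin 2) (ZMod p)) ≠ -1 →
    Nat.card {h : SL 2 p // h * g = g * h} ≤ 2 * p

/-- DIM2. Let `V` be as in `MinDim`, `T` the translation of `V` by `u = [1,1;0,1]`, `T^p = 1`, so `T`
is diagonalizable. If all its eigenvalues are `1` then `u` acts trivially on `V`; so do all
conjugates of `u` and their powers, and these generate `SL (2, p)` (`L(t)` is conjugate to `U(-t)` by
`[0,1;-1,0]`), so `V` consists of constants of sum zero, `V = 0`. Otherwise there is an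
eigenvector `f` with eigenvalue `ζ ≠ 1`, `ζ^p = 1`. Translating `f` by `diag (a, 1/a)` gives an
eigenvector of `T` with eigenvalue `ζ^(a²)` (or `ζ^(a^(-2))`), because
`diag (a, 1/a) u diag (1/a, a) = u^(a²)`. There are `(p-1)/2` different squares of units, so
`(p-1)/2` different eigenvalues, with linearly independent eigenvectors. -/
def T_DIM2 : Prop := ∀ (p : ℕ) [Fact p.Prime], p ≠ 2 → MinDim (SL 2 p) (((p : ℝ) - 1) / 2)

/-- ETA2. Hypotheses `T_TR2`, `T_CEN2`, `T_DIM2`, `T_WRD`, `T_CLF`. Let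
`N h = #{y : ev y w = h}`, `T = |G|^d`, `Z = {1, -1}`. By TR2 (`t = ± 2`) `N(Z) <= (8 n/p) T`. For
`h ∉ Z`: CLF with conjugation (`MulAut.conj`), the trace and CEN2 gives
`|G| N h <= 2 p (4 n/p) T = 8 n T`. WRD with `D = (p-1)/2 >= p/4`: the left side is at most
`(8 n/p + √(32 n/p)) T |f|²`. If `n <= p` this is `<= 14 √(n/p) T |f|²`; if `n > p` the
trivial bound `T |f|²` (Cauchy-Schwarz) suffices. -/
def T_ETA2 : Prop := ∀ (p : ℕ) [Fact p.Prime] (d n : ℕ) (w : Fin n → Ltr d), p ≠ 2 → 2 * d < p →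
  FreeGroup.mk (List.ofFn w) ≠ 1 → ∀ f : SL 2 p → ℝ, ∑ x, f x = 0 →
    ∑ y : Fin d → SL 2 p, ∑ x, f x * f (x * ev y w) ≤
      14 * √((n : ℝ) / p) * (Fintype.card (SL 2 p) : ℝ) ^ d * ∑ x, f x ^ 2

/-- the family `SL (2, p)` -/
abbrev G2 (p : Nat.Primes) : Type := SL 2 p.1

instance factPrime (p : Nat.Primes) : Fact (p.1).Prime := ⟨p.2⟩

/-- AB2. Hypotheses `T_AVG`, `T_ETA2`: `AvgB` for the family `SL (2, p)`, for all `d >= 2`, with
`c = max 14 (2 d + 1)` (so `c <= p` implies `2 d < p` and `p ≠ 2`). -/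
def T_AB2 : Prop := ∀ d : ℕ, 2 ≤ d → ∃ c : ℝ, AvgB G2 (fun p => (p.1 : ℝ)) d c

/-- DIM3. `G = SL (3, p)`. Let `V` be as in `MinDim` and `U` the group of the matrices
`u(a,b) = 1 + a E_(1,3) + b E_(2,3)`, isomorphic to `(ZMod p)²`. If `U` acts trivially on `V`, so do
all conjugates, which contain all elementary matrices, and `V = 0`. Otherwise `V` (a sum of
character spaces of `U`) contains a nonzero vector on which `U` acts by a nontrivial character
`ψ`. The block matrices `diag (A, 1)`, `A` in `SL (2, p)`, normalize `U` and act transitively on the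
`p² - 1` nontrivial characters; so all `p² - 1` character spaces are nonzero, and they are
linearly independent. -/
def T_DIM3 : Prop := ∀ (p : ℕ) [Fact p.Prime], MinDim (SL 3 p) ((p : ℝ) ^ 2 - 1)

end Pool.Agent.RCG
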