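import Mathlib
import Pool.Agent.RCG.Targets

set_option autoImplicit false

/-!
# RCG: centralizers in `SL (2, p)` (target `T_CEN2`)
-/

namespace Pool.Agent.RCG

namespace CEN2_

open Matrix Polynomial

/-- a vector with vanishing cross products with a nonzero vector is a multiple of it -/
theorem propor {F : Type*} [Field F] {u b c v y z : F} (h1 : y * c = b * z)
    (h2 : b * v = y * u) (h3 : c * v = z * u) (hne : b ≠ 0 ∨ c ≠ 0 ∨ u ≠ 0) :
    ∃ s : F, y = s * b ∧ z = s * c ∧ v = s * u := by
  rcases hne with h | h | h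
  · refine ⟨y / b, by field_simp, ?_, ?_⟩
    · field_simp
      linear_combination -h1
    · field_simp
      linear_combination h2
  · refine ⟨z / c, ?_, by field_simp, ?_⟩
    · field_simp
      linear_combination h1
    · field_simp
      linear_combination h3
  · refine ⟨v / u, ?_, ?_, by field_simp⟩
    · field_simp
      linear_combination -h2
    · field_simp
      linear_combination -h3

/-- at most two roots -/
theorem two_roots {F : Type*} [Field F] [DecidableEq F] (m n : F) (S : Finset F)
    (hS : ∀ x ∈ S, x * x - m * x - n = 0) : S.card ≤ 2 := by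
  have hP : (X ^ 2 - C m * X - C n : F[X]).natDegree = 2 := by compute_degree!
  have hP0 : (X ^ 2 - C m * X - C n : F[X]) ≠ 0 := by
    intro h
    rw [h] at hP
    simp at hP
  calc S.card ≤ (X ^ 2 - C m * X - C n : F[X]).roots.toFinset.card := by
        refine Finset.card_le_card fun x hx => ?_
        rw [Multiset.mem_toFinset, Polynomial.mem_roots hP0]
        have := hS x hx
        simp only [IsRoot.def, eval_sub, eval_pow, eval_X, eval_mul, eval_C]
        linear_combination this
    _ ≤ Multiset.card (X ^ 2 - C m * X - C n : F[X]).roots := Multiset.toFinset_card_le _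
    _ ≤ (X ^ 2 - C m * X - C n : F[X]).natDegree := Polynomial.card_roots' _
    _ = 2 := hP

end CEN2_

open CEN2_ in
theorem prove_CEN2 : T_CEN2 := by
  classical
  intro p _ g hg1 hg2
  have hdet : ∀ h : SL 2 p, h.1 0 0 * h.1 1 1 - h.1 0 1 * h.1 1 0 = 1 := by
    intro h
    have := h.2
    rwa [Matrix.det_fin_two] at this
  -- `g` is not scalar
  have hne : g.1 0 1 ≠ 0 ∨ g.1 1 0 ≠ 0 ∨ g.1 0 0 - g.1 1 1 ≠ 0 := by
    by_contra hcon
    push Not at hcon
    obtain ⟨h01, h10, h00⟩ := hcon
    have e := hdet g
    have h11 : g.1 1 1 = g.1 0 0 := by linear_combination -h00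
    rw [h01, h10, h11] at e
    have e2 : (g.1 0 0 - 1) * (g.1 0 0 + 1) = 0 := by linear_combination e
    rcases mul_eq_zero.mp e2 with h | h
    · apply hg1
      have ha : g.1 0 0 = 1 := by linear_combination h
      ext i j
      fin_cases i <;> fin_cases j <;> simp [h01, h10, h11, ha]
    · apply hg2
      have ha : g.1 0 0 = -1 := by linear_combination h
      ext i j
      fin_cases i <;> fin_cases j <;> simp [h01, h10, h11, ha]
  have hs : ∀ h : {h : SL 2 p // h * g = g * h}, ∃ s : ZMod p,
      h.1.1 0 1 = s * g.1 0 1 ∧ h.1.1 1 0 = s * g.1 1 0 ∧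
        h.1.1 0 0 - h.1.1 1 1 = s * (g.1 0 0 - g.1 1 1) := by
    rintro ⟨h, hh⟩
    have hm : h.1 * g.1 = g.1 * h.1 := congrArg Subtype.val hh
    have e : ∀ i j, (h.1 * g.1) i j = (g.1 * h.1) i j := fun i j => by rw [hm]
    have e00 := e 0 0
    have e01 := e 0 1
    have e10 := e 1 0
    simp only [Matrix.mul_apply, Fin.sum_univ_two] at e00 e01 e10
    refine propor ?_ ?_ ?_ hne
    · linear_combination e00
    · linear_combination e01
    · linear_combination -e10
  choose s hs using hs
  rw [Nat.card_eq_fintype_card, ← Finset.card_univ]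
  refine (Finset.card_le_mul_card_image (f := s) Finset.univ 2 ?_).trans ?_
  · intro t _
    set A := Finset.univ.filter (fun h => s h = t) with hA
    have hinj : Set.InjOn (fun h : {h : SL 2 p // h * g = g * h} => h.1.1 0 0)
        (A : Set {h : SL 2 p // h * g = g * h}) := by
      intro h1 hh1 h2 hh2 he
      have t1 : s h1 = t := by simpa [hA] using hh1
      have t2 : s h2 = t := by simpa [hA] using hh2
      obtain ⟨a1, a2, a3⟩ := hs h1
      obtain ⟨b1, b2, b3⟩ := hs h2
      rw [t1] at a1 a2 a3
      rw [t2] at b1 b2 b3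
      simp only at he
      apply Subtype.ext
      apply Subtype.ext
      ext i j
      fin_cases i <;> fin_cases j
      · exact he
      · exact a1.trans b1.symm
      · exact a2.trans b2.symm
      · show h1.1.1 1 1 = h2.1.1 1 1
        linear_combination he - a3 + b3
    rw [← Finset.card_image_of_injOn hinj]
    refine two_roots (t * (g.1 0 0 - g.1 1 1)) (t * g.1 0 1 * (t * g.1 1 0) + 1) _ ?_
    intro x hx
    rw [Finset.mem_image] at hx
    obtain ⟨h, hh, rfl⟩ := hx
    have t1 : s h = t := by simpa [hA] using hh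
    obtain ⟨a1, a2, a3⟩ := hs h
    rw [t1] at a1 a2 a3
    have e := hdet h.1
    rw [a1, a2] at e
    show h.1.1 0 0 * h.1.1 0 0 - t * (g.1 0 0 - g.1 1 1) * h.1.1 0 0 -
      (t * g.1 0 1 * (t * g.1 1 0) + 1) = 0
    linear_combination e + h.1.1 0 0 * a3
  · have : (Finset.univ.image s).card ≤ p := by
      refine (Finset.card_le_univ _).trans ?_
      rw [ZMod.card]
    omega

end Pool.Agent.RCG
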