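import Pool.Agent.RCG.Targets13

set_option autoImplicit false

/-!
# RCG, target CHA: the choice of `q`
-/

namespace Pool.Agent.RCG

theorem prove_CHA : T_CHA := by
  intro t ht ht2
  set c : ℝ := 1 + t ^ 2 / 2 with hc
  have ht3 : 0 < t ^ 3 := by positivity
  have hc1 : 1 < c := by
    have : 0 < t ^ 2 := by positivity
    rw [hc]; linarith
  have hc2 : c ≤ 9 / 8 := by
    have : t ^ 2 ≤ 1 / 4 := by nlinarith
    rw [hc]; linarith
  have hc0 : 0 < c := by linarith
  have hcc : 1 < c ^ 2 := by nlinarith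
  have hex : ∃ j : ℕ, 16 / t ^ 3 ≤ (c ^ 2) ^ j := by
    obtain ⟨j, hj⟩ := pow_unbounded_of_one_lt (16 / t ^ 3) hcc
    exact ⟨j, hj.le⟩
  classical
  set j := Nat.find hex with hj
  have h1 : 16 / t ^ 3 ≤ (c ^ 2) ^ j := Nat.find_spec hex
  have hbig : (1 : ℝ) < 16 / t ^ 3 := by
    rw [lt_div_iff₀ ht3]
    have : t ^ 3 ≤ 1 := pow_le_one₀ ht.le (by linarith)
    linarith
  have hj0 : j ≠ 0 := by
    intro h0
    rw [h0, pow_zero] at h1
    linarith
  obtain ⟨i, hi⟩ := Nat.exists_eq_succ_of_ne_zero hj0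
  have h2 : (c ^ 2) ^ i < 16 / t ^ 3 := by
    have := Nat.find_min hex (m := i) (by rw [← hj, hi]; exact Nat.lt_succ_self i)
    exact not_le.mp this
  have h3 : (c ^ 2) ^ j ≤ 25 / t ^ 3 := by
    rw [hi, Nat.succ_eq_add_one, pow_succ]
    have e1 : c ^ 2 ≤ 81 / 64 := by nlinarith
    have e2 : 0 < (c ^ 2) ^ i := by positivity
    have e3 : 16 / t ^ 3 * (81 / 64) ≤ 25 / t ^ 3 := by
      rw [div_mul_eq_mul_div, div_le_div_iff_of_pos_right ht3]
      norm_num
    calc (c ^ 2) ^ i * c ^ 2 ≤ 16 / t ^ 3 * (81 / 64) := by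
          apply mul_le_mul h2.le e1 (by positivity)
          positivity
      _ ≤ _ := e3
  refine ⟨2 * j, even_two_mul j, by omega, ?_, ?_, ?_⟩
  · rw [pow_mul]; exact h1
  · rw [pow_mul]; exact h3
  · have l1 : 1 - c⁻¹ ≤ Real.log c := Real.one_sub_inv_le_log_of_pos hc0
    have l2 : t ^ 2 * (4 / 9) ≤ 1 - c⁻¹ := by
      have e1 : c * c⁻¹ = 1 := mul_inv_cancel₀ hc0.ne'
      have e2 : c⁻¹ ≥ 8 / 9 := by
        rw [ge_iff_le, le_inv_comm₀ (by norm_num) hc0]
        norm_num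
        exact hc2
      have e3 : 1 - c⁻¹ = (t ^ 2 / 2) * c⁻¹ := by
        have : c - 1 = t ^ 2 / 2 := by rw [hc]; ring
        rw [← this]
        linear_combination -e1
      rw [e3]
      have : 0 < t ^ 2 := by positivity
      nlinarith
    have l3 : (2 * j : ℕ) * Real.log c ≤ 9 / t := by
      have e1 : ((2 * j : ℕ) : ℝ) * Real.log c = Real.log (c ^ (2 * j)) := by
        rw [Real.log_pow]
      have e2 : c ^ (2 * j) ≤ (3 / t) ^ 3 := by
        rw [pow_mul, div_pow]
        refine h3.trans ?_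
        rw [div_le_div_iff_of_pos_right ht3]
        norm_num
      have e3 : Real.log (c ^ (2 * j)) ≤ Real.log ((3 / t) ^ 3) :=
        Real.log_le_log (by positivity) e2
      have e4 : Real.log ((3 / t) ^ 3) = 3 * Real.log (3 / t) := by
        rw [Real.log_pow]; norm_num
      have e5 : Real.log (3 / t) ≤ 3 / t - 1 := Real.log_le_sub_one_of_pos (by positivity)
      have e6 : 3 * (3 / t - 1) ≤ 9 / t := by
        have : 3 * (3 / t) = 9 / t := by ring
        linarith
      rw [e1]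
      linarith
    rw [le_div_iff₀ ht3]
    have l4 : ((2 * j : ℕ) : ℝ) * (t ^ 2 * (4 / 9)) ≤ 9 / t := by
      refine le_trans ?_ l3
      exact mul_le_mul_of_nonneg_left (l2.trans l1) (Nat.cast_nonneg _)
    have l5 : ((2 * j : ℕ) : ℝ) * (t ^ 2 * (4 / 9)) * t ≤ 9 := by
      have := mul_le_mul_of_nonneg_right l4 ht.le
      rwa [div_mul_cancel₀ _ ht.ne'] at this
    nlinarith

end Pool.Agent.RCG
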