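import Pool.Agent.RCG.Targets13

set_option autoImplicit false

/-!
# RCG: CHB, elementary inequality for a geometric sum
-/

namespace Pool.Agent.RCG

open Finset Matrix

theorem prove_CHB : T_CHB := by
  intro t q ht0 ht hq1 hq2
  have hb : 0 < 2 + t ^ 2 := by positivity
  have hx : t ^ 2 ≤ 1 / 4 := by nlinarith
  have hx0 : 0 ≤ t ^ 2 := sq_nonneg t
  have hr : 2 + 5 / 4 * t ^ 2 ≤ (1 + t ^ 2 / 8) * (2 + t ^ 2) := by nlinarith [sq_nonneg (t ^ 2)]
  have hG : (1 + t ^ 2 / 8) ^ q ≤ 3 / t := by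
    refine (pow_le_pow_iff_left₀ (by positivity) (by positivity) (n := 3) (by norm_num)).1 ?_
    calc ((1 + t ^ 2 / 8) ^ q) ^ 3 = ((1 + t ^ 2 / 8) ^ 3) ^ q := by
          rw [← pow_mul, ← pow_mul, mul_comm]
      _ ≤ (1 + t ^ 2 / 2) ^ q := by
          refine pow_le_pow_left₀ (by positivity) ?_ q
          nlinarith [mul_nonneg hx0 hx0, mul_nonneg hx0 (mul_nonneg hx0 hx0)]
      _ ≤ 25 / t ^ 3 := hq1
      _ ≤ (3 / t) ^ 3 := by
          rw [div_pow]
          gcongr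
          norm_num
  have hpow : ∀ m ≤ q, (2 + 5 / 4 * t ^ 2) ^ m ≤ 3 / t * (2 + t ^ 2) ^ m := by
    intro m hm
    calc (2 + 5 / 4 * t ^ 2) ^ m ≤ ((1 + t ^ 2 / 8) * (2 + t ^ 2)) ^ m :=
          pow_le_pow_left₀ (by positivity) hr m
      _ = (1 + t ^ 2 / 8) ^ m * (2 + t ^ 2) ^ m := mul_pow _ _ _
      _ ≤ (1 + t ^ 2 / 8) ^ q * (2 + t ^ 2) ^ m :=
          mul_le_mul_of_nonneg_right (pow_le_pow_right₀ (by linarith) hm) (by positivity)
      _ ≤ _ := mul_le_mul_of_nonneg_right hG (by positivity)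
  have h1 : ∑ m ∈ range q, (2 + 5 / 4 * t ^ 2) ^ m / (2 + t ^ 2) ^ (m + 1) ≤
      63 / 2 / t ^ 4 := by
    calc ∑ m ∈ range q, (2 + 5 / 4 * t ^ 2) ^ m / (2 + t ^ 2) ^ (m + 1) ≤
          ∑ m ∈ range q, 3 / t / 2 := by
          refine sum_le_sum fun m hm => ?_
          have hm' := (mem_range.1 hm).le
          have e1 : (2 + t ^ 2) ^ (m + 1) = (2 + t ^ 2) ^ m * (2 + t ^ 2) := pow_succ _ _
          rw [div_le_iff₀ (by positivity), e1]
          have h2 := hpow m hm'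
          have h3 : 0 ≤ 3 / t * (2 + t ^ 2) ^ m := by positivity
          have h4 : 3 / t / 2 * ((2 + t ^ 2) ^ m * (2 + t ^ 2)) =
              3 / t * (2 + t ^ 2) ^ m + 3 / t * (2 + t ^ 2) ^ m * (t ^ 2 / 2) := by ring
          have h5 : 0 ≤ 3 / t * (2 + t ^ 2) ^ m * (t ^ 2 / 2) := by positivity
          linarith
      _ = q * (3 / t / 2) := by rw [sum_const, card_range, nsmul_eq_mul]
      _ ≤ 21 / t ^ 3 * (3 / t / 2) := mul_le_mul_of_nonneg_right hq2 (by positivity)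
      _ = 63 / 2 / t ^ 4 := by
          field_simp
          ring
  have h2 : (2 + 5 / 4 * t ^ 2) ^ q / ((2 + t ^ 2) ^ q * (t ^ 2 / 2)) ≤ 3 / t ^ 4 := by
    rw [div_le_iff₀ (by positivity)]
    have h3 := hpow q le_rfl
    refine h3.trans ?_
    have h4 : 3 / t ^ 4 * ((2 + t ^ 2) ^ q * (t ^ 2 / 2)) =
        3 / t * (2 + t ^ 2) ^ q * (1 / (2 * t)) := by
      field_simp
    rw [h4]
    have h5 : 1 ≤ 1 / (2 * t) := by
      rw [le_div_iff₀ (by positivity)]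
      linarith
    exact le_mul_of_one_le_right (by positivity) h5
  have h3 : 63 / 2 / t ^ 4 + 3 / t ^ 4 ≤ 36 / t ^ 4 := by
    rw [← add_div]
    gcongr
    norm_num
  linarith

end Pool.Agent.RCG
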