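import Pool.Agent.RCG.Targets13

set_option autoImplicit false

/-!
# CHC: `log k / √k` is small

With `u = k^(1/28)`, `z = u t`: `z >= 66`, `√k = u^14`, `log k = 28 log u <= 28 u`.
-/

namespace Pool.Agent.RCG

namespace CHC_

theorem root (k : ℝ) (hk : 0 < k) : ∃ u : ℝ, 0 < u ∧ u ^ 28 = k := by
  refine ⟨k ^ ((1 : ℝ) / 28), Real.rpow_pos_of_pos hk _, ?_⟩
  rw [← Real.rpow_natCast, ← Real.rpow_mul hk.le]
  norm_num

theorem main (t u : ℝ) (ht : 0 < t) (hu : 0 < u) (h : 10 ^ 51 / t ^ 28 ≤ u ^ 28) :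
    Real.log (u ^ 28) / √(u ^ 28) ≤ t ^ 13 / 10 ^ 22 := by
  have hz : 66 ≤ u * t := by
    by_contra hc
    have hc' : u * t < 66 := not_le.1 hc
    have h1 : (u * t) ^ 28 < 66 ^ 28 := pow_lt_pow_left₀ hc' (by positivity) (by norm_num)
    rw [div_le_iff₀ (by positivity), ← mul_pow] at h
    have h2 : (66 : ℝ) ^ 28 ≤ 10 ^ 51 := by norm_num
    linarith
  have h1 : √(u ^ 28) = u ^ 14 := by
    rw [show u ^ 28 = (u ^ 14) ^ 2 by ring]
    exact Real.sqrt_sq (by positivity)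
  have h2 : Real.log (u ^ 28) ≤ 28 * u := by
    rw [Real.log_pow]
    have := Real.log_le_sub_one_of_pos hu
    push_cast
    linarith
  rw [h1]
  have h3 : (66 : ℝ) ^ 13 ≤ (u * t) ^ 13 := pow_le_pow_left₀ (by norm_num) hz _
  have h4 : (28 : ℝ) * 10 ^ 22 ≤ 66 ^ 13 := by norm_num
  rw [div_le_div_iff₀ (by positivity) (by positivity)]
  calc Real.log (u ^ 28) * 10 ^ 22 ≤ 28 * u * 10 ^ 22 := by gcongr
    _ = (28 * 10 ^ 22) * u := by ring
    _ ≤ (u * t) ^ 13 * u := by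
        have := h4.trans h3
        gcongr
    _ = t ^ 13 * u ^ 14 := by ring

end CHC_

theorem prove_CHC : T_CHC := by
  intro t k ht ht2 hk
  have hk0 : 0 < k := lt_of_lt_of_le (by positivity) hk
  obtain ⟨u, hu, rfl⟩ := CHC_.root k hk0
  exact CHC_.main t u ht hu hk

end Pool.Agent.RCG
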