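import Pool.Agent.RCG.Targets13

set_option autoImplicit false

/-!
# CHD: the constant `C1` is at most `350 / t²`
-/

namespace Pool.Agent.RCG

namespace CHD_

theorem low (t : ℝ) (ht : 0 < t) (ht2 : t ≤ 1 / 2) :
    4 * t ^ 2 / 17 ≤ Real.log (1 + t ^ 2 / 4) := by
  have h0 : 0 < 1 + t ^ 2 / 4 := by positivity
  have h1 := Real.one_sub_inv_le_log_of_pos h0
  refine le_trans ?_ h1
  have h2 : t ^ 2 ≤ 1 / 4 := by nlinarith
  have h3 : 0 < t ^ 2 := by positivity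
  have h4 : 1 - (1 + t ^ 2 / 4)⁻¹ = (t ^ 2 / 4) / (1 + t ^ 2 / 4) := by
    field_simp
    ring
  rw [h4, le_div_iff₀ h0]
  nlinarith

end CHD_

theorem prove_CHD : T_CHD := by
  intro t ht ht2
  have h1 := CHD_.low t ht ht2
  have h3 : 0 < t ^ 2 := by positivity
  have h2 : t ^ 2 ≤ 1 / 4 := by nlinarith
  have h4 : 80 / Real.log (1 + t ^ 2 / 4) ≤ 340 / t ^ 2 := by
    calc 80 / Real.log (1 + t ^ 2 / 4) ≤ 80 / (4 * t ^ 2 / 17) := by gcongr
      _ = 340 / t ^ 2 := by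
        field_simp
        ring
  have h5 : 40 ≤ 10 / t ^ 2 := by
    rw [le_div_iff₀ h3]
    linarith
  have h6 : 350 / t ^ 2 = 340 / t ^ 2 + 10 / t ^ 2 := by ring
  rw [h6]
  linarith

end Pool.Agent.RCG
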