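import Pool.Agent.RCG.Targets13

set_option autoImplicit false

namespace Pool.Agent.RCG

namespace CHE_

lemma winv {t w : ℝ} (ht : 0 < t) (hw : 0 < w) (h : t ^ 5 ≤ 2 * 10 ^ 9 * w) :
    w⁻¹ ≤ 2 * 10 ^ 9 / t ^ 5 := by
  rw [le_div_iff₀ (by positivity), inv_mul_le_iff₀ hw]
  linarith

lemma first {t C1 w v : ℝ} (ht : 0 < t) (hC0 : 0 ≤ C1) (hC : C1 ≤ 350 / t ^ 2) (hw : 0 < w)
    (h : t ^ 5 ≤ 2 * 10 ^ 9 * w) (hv0 : 0 ≤ v) (hv : v ≤ t ^ 13 / 10 ^ 22) :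
    (w ^ 2)⁻¹ * C1 * v ≤ t / 4 := by
  have h1 := winv ht hw h
  have hi : 0 ≤ w⁻¹ := by positivity
  have h2 : (w ^ 2)⁻¹ ≤ (2 * 10 ^ 9 / t ^ 5) ^ 2 := by
    rw [← inv_pow]
    exact pow_le_pow_left₀ hi h1 2
  calc (w ^ 2)⁻¹ * C1 * v ≤ (2 * 10 ^ 9 / t ^ 5) ^ 2 * (350 / t ^ 2) * (t ^ 13 / 10 ^ 22) := by
        gcongr
    _ = 1400 / 10 ^ 4 * t := by
        field_simp
        norm_num
    _ ≤ t / 4 := by
        have : (1400 / 10 ^ 4 : ℝ) ≤ 1 / 4 := by norm_num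
        nlinarith

lemma second {t C1 Γ w v y : ℝ} (ht : 0 < t) (ht2 : t ≤ 1 / 2) (hC0 : 0 ≤ C1)
    (hC : C1 ≤ 350 / t ^ 2) (hΓ0 : 0 ≤ Γ) (hΓ : Γ ≤ 36 / t ^ 4) (hw : 0 < w)
    (h : t ^ 5 ≤ 2 * 10 ^ 9 * w) (hv0 : 0 ≤ v) (hv : v ≤ t ^ 13 / 10 ^ 22) (hyw : y ≤ w) :
    (w ^ 2)⁻¹ * (728 * C1) * Γ * v * (y + w) ≤ t / 8 := by
  have h1 := winv ht hw h
  have hi : 0 ≤ w⁻¹ := by positivity
  calc (w ^ 2)⁻¹ * (728 * C1) * Γ * v * (y + w)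
      ≤ (w ^ 2)⁻¹ * (728 * C1) * Γ * v * (w + w) := by gcongr
    _ = 2 * w⁻¹ * (728 * C1) * Γ * v := by
        field_simp
        ring
    _ ≤ 2 * (2 * 10 ^ 9 / t ^ 5) * (728 * (350 / t ^ 2)) * (36 / t ^ 4) * (t ^ 13 / 10 ^ 22) := by
        gcongr
    _ = 36691200 / 10 ^ 13 * t ^ 2 := by
        field_simp
        norm_num
    _ ≤ t / 8 := by
        have : (36691200 / 10 ^ 13 : ℝ) ≤ 1 / 8 := by norm_num
        nlinarith [sq_nonneg t]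

lemma third {t w : ℝ} (ht : 0 < t) (ht2 : t ≤ 1 / 2) (h : 10 ^ 9 * w ≤ t ^ 5) :
    364 ^ 2 * w / √(t ^ 2 / 2) ^ 3 ≤ t / 100 := by
  have h1 : t / 2 ≤ √(t ^ 2 / 2) := by
    apply Real.le_sqrt_of_sq_le
    nlinarith [sq_nonneg t]
  have h2 : (t / 2) ^ 3 ≤ √(t ^ 2 / 2) ^ 3 := pow_le_pow_left₀ (by positivity) h1 3
  have h3 : w ≤ t ^ 5 / 10 ^ 9 := by
    rw [le_div_iff₀ (by positivity)]
    linarith
  calc 364 ^ 2 * w / √(t ^ 2 / 2) ^ 3 ≤ 364 ^ 2 * (t ^ 5 / 10 ^ 9) / (t / 2) ^ 3 := by gcongr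
    _ = 1059968 / 10 ^ 9 * t ^ 2 := by
        field_simp
        norm_num
    _ ≤ t / 100 := by
        have : (1059968 / 10 ^ 9 : ℝ) ≤ 1 / 100 := by norm_num
        nlinarith [sq_nonneg t]

lemma last {t w : ℝ} (ht : 0 < t) (h : 10 ^ 9 * w ≤ t ^ 5) :
    364 ^ 3 * w / (t ^ 2 / 2) ^ 2 ≤ t / 4 := by
  have h3 : w ≤ t ^ 5 / 10 ^ 9 := by
    rw [le_div_iff₀ (by positivity)]
    linarith
  calc 364 ^ 3 * w / (t ^ 2 / 2) ^ 2 ≤ 364 ^ 3 * (t ^ 5 / 10 ^ 9) / (t ^ 2 / 2) ^ 2 := by gcongr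
    _ = 192914176 / 10 ^ 9 * t := by
        field_simp
        norm_num
    _ ≤ t / 4 := by
        have : (192914176 / 10 ^ 9 : ℝ) ≤ 1 / 4 := by norm_num
        nlinarith

end CHE_

open CHE_

theorem prove_CHE : T_CHE := by
  intro t C1 Γ w v y θ ht ht2 hC0 hC hΓ0 hΓ hw h1 h2 hv0 hv hy0 hyw hθ0 hθ
  have F1 := first ht hC0 hC hw h2 hv0 hv
  have F2 := second ht ht2 hC0 hC hΓ0 hΓ hw h2 hv0 hv hyw
  have F3 := third ht ht2 h1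
  have F4 := last ht h1
  have hr : 2 * t ≤ √((2 + t ^ 2) ^ 2 - 4) := by
    apply Real.le_sqrt_of_sq_le
    nlinarith [sq_nonneg (t ^ 2)]
  set r := √((2 + t ^ 2) ^ 2 - 4) with hrdef
  set E := (w ^ 2)⁻¹ * (728 * C1) * Γ * v * (y + w) with hE
  set V := 364 ^ 2 * w / √(t ^ 2 / 2) ^ 3 with hV
  have hV0 : 0 ≤ V := by positivity
  set X := (2 + t ^ 2 - r) / 2 + θ + E with hX
  have hX1 : X ≤ 1 - 3 * t / 4 + t ^ 2 / 2 := by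
    rw [hX]
    linarith
  have htt : t ^ 2 ≤ t / 2 := by nlinarith
  have hX2 : X ≤ 1 := by linarith
  have hs1 : √X ≤ 1 := Real.sqrt_le_one.2 hX2
  have hs0 : 0 ≤ √X := Real.sqrt_nonneg X
  have hE0 : 0 ≤ E := by positivity
  have hr2 : r ≤ 2 + t ^ 2 := by
    rw [hrdef]
    apply Real.sqrt_le_iff.2
    constructor
    · positivity
    · linarith
  have hX0 : 0 ≤ X := by
    rw [hX]
    linarith
  have hsq : √X ^ 2 = X := Real.sq_sqrt hX0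
  have hq : (√X + V) ^ 2 ≤ X + 2 * V + V ^ 2 := by
    have e : (√X + V) ^ 2 = √X ^ 2 + 2 * √X * V + V ^ 2 := by ring
    rw [e, hsq]
    nlinarith
  have hV2 : V ^ 2 ≤ t / 100 := by
    have : V ≤ 1 := by linarith
    nlinarith
  linarith

end Pool.Agent.RCG
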