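import Pool.Agent.RCG.Targets15

set_option autoImplicit false

/-!
# RCG, target CHL: lower bound for the Chebyshev type recursion
-/

namespace Pool.Agent.RCG

namespace CHL_

theorem pos (a b l : ℝ) (hb : 0 < b) (hba : b ≤ a) (hl : a + b ≤ l) (n : ℕ) :
    0 < chf (a * b) l n ∧ a * chf (a * b) l n ≤ chf (a * b) l (n + 1) := by
  have ha : 0 < a := lt_of_lt_of_le hb hba
  induction n with
  | zero =>
    refine ⟨?_, ?_⟩
    · change (0 : ℝ) < 1
      exact one_pos
    · change a * 1 ≤ l
      linarith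
  | succ n ih =>
    obtain ⟨h0, h1⟩ := ih
    have h2 : 0 < chf (a * b) l (n + 1) := lt_of_lt_of_le (mul_pos ha h0) h1
    refine ⟨h2, ?_⟩
    have h3 : chf (a * b) l (n + 1 + 1) =
        l * chf (a * b) l (n + 1) - a * b * chf (a * b) l n := rfl
    rw [h3]
    have h4 : (a + b) * chf (a * b) l (n + 1) ≤ l * chf (a * b) l (n + 1) :=
      mul_le_mul_of_nonneg_right hl h2.le
    have h5 : 0 ≤ b * (chf (a * b) l (n + 1) - a * chf (a * b) l n) :=
      mul_nonneg hb.le (by linarith)
    nlinarith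

theorem main (a b l : ℝ) (hb : 0 < b) (hba : b ≤ a) (hl : a + b ≤ l) (n : ℕ) :
    a ^ n ≤ chf (a * b) l n := by
  have ha : 0 < a := lt_of_lt_of_le hb hba
  induction n with
  | zero =>
    rw [pow_zero]
    exact le_refl (1 : ℝ)
  | succ n ih =>
    have h1 := (pos a b l hb hba hl n).2
    calc a ^ (n + 1) = a * a ^ n := by ring
      _ ≤ a * chf (a * b) l n := by gcongr
      _ ≤ chf (a * b) l (n + 1) := h1

theorem neg (q l : ℝ) (n : ℕ) :
    chf q (-l) n = (-1) ^ n * chf q l n ∧ chf q (-l) (n + 1) = (-1) ^ (n + 1) * chf q l (n + 1) := by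
  induction n with
  | zero =>
    refine ⟨?_, ?_⟩
    · change (1 : ℝ) = (-1) ^ 0 * 1
      norm_num
    · change -l = (-1) ^ (0 + 1) * l
      norm_num
  | succ n ih =>
    refine ⟨ih.2, ?_⟩
    have h1 : chf q (-l) (n + 1 + 1) = -l * chf q (-l) (n + 1) - q * chf q (-l) n := rfl
    have h2 : chf q l (n + 1 + 1) = l * chf q l (n + 1) - q * chf q l n := rfl
    rw [h1, h2, ih.1, ih.2]
    ring

end CHL_

theorem prove_CHL : T_CHL := by
  intro a b l n hb hba hl
  rcases le_total 0 l with h | h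
  · rw [abs_of_nonneg h] at hl
    exact (CHL_.main a b l hb hba hl n).trans (le_abs_self _)
  · rw [abs_of_nonpos h] at hl
    have h1 := CHL_.main a b (-l) hb hba hl n
    rw [(CHL_.neg (a * b) l n).1] at h1
    refine h1.trans ((le_abs_self _).trans ?_)
    rw [abs_mul, abs_pow, abs_neg, abs_one, one_pow, one_mul]

end Pool.Agent.RCG
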