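import Pool.Agent.RCG.Targets10

set_option autoImplicit false

/-!
# RCG: choice of the parameters
-/

namespace Pool.Agent.RCG

open Finset Matrix Filter Topology

namespace CHS_

/-- the value of the polynomial, multiplied by `√k` -/
noncomputable def Ga (q : ℕ) (C x e : ℝ) : ℝ :=
  ∑ m ∈ range q, C ^ m / x ^ (m + 1) + C ^ q / (x ^ q * e)

theorem pol_eq (q : ℕ) (C x e K : ℝ) (hx : 0 < x) (he : 0 < e) (hK : 0 < K) :
    pol q (x * K) ((x - e) * K) (C * K) = Ga q C x e / K := by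
  unfold pol Ga
  rw [sum_range_succ, add_div, sum_div]
  congr 1
  · refine sum_congr rfl fun m hm => ?_
    rw [mem_range] at hm
    simp only [cf, hm, if_true]
    rw [mul_pow, mul_pow]
    field_simp
    ring
  · simp only [cf, lt_irrefl, if_false]
    have h1 : x * K - (x - e) * K = e * K := by ring
    rw [h1, mul_pow, mul_pow]
    field_simp

/-- the quotient of the left side by `√k` -/
noncomputable def G (C C1 C2 e Θ Γ s w v y : ℝ) : ℝ :=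
  s * C1 * v + 2 * (√(Θ + s * C2 * Γ * v * (y + w)) + C ^ 2 * w / √e ^ 3) ^ 2 +
    C ^ 3 * w / e ^ 2

theorem key (C C1 C2 x e Θ Γ s w d lk K : ℝ) (q : ℕ) (hx : 2 < x) (he : 0 < e) (hK : 0 < K)
    (hw : 0 < w) (hs : s = (w ^ 2)⁻¹) (hd : 2 * d = K ^ 2 * w ^ 2)
    (hΘ : Θ = (x - √(x ^ 2 - 4)) / 2 + (2 / x) ^ q / e) (hΓ : Γ = Ga q C x e) :
    s * rr (x * K) ((x - e) * K) (C * √(2 * d)) (C1 * lk)
      (2 * d * ((x * K - √((x * K) ^ 2 - 4 * K ^ 2)) / (2 * K ^ 2) +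
        (2 * K) ^ q / ((x * K) ^ q * (x * K - (x - e) * K))) +
        C2 * pol q (x * K) ((x - e) * K) (C * K) * (1 + √(2 * d)) * lk) =
      K * G C C1 C2 e Θ Γ s w (lk / K) (1 / K) := by
  have hx0 : 0 < x := by linarith
  have h1 : x * K - (x - e) * K = e * K := by ring
  have h2 : √(2 * d) = K * w := by
    rw [hd, show K ^ 2 * w ^ 2 = (K * w) ^ 2 by ring, Real.sqrt_sq (by positivity)]
  have h3 : √((x * K) ^ 2 - 4 * K ^ 2) = K * √(x ^ 2 - 4) := by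
    rw [show (x * K) ^ 2 - 4 * K ^ 2 = K ^ 2 * (x ^ 2 - 4) by ring,
      Real.sqrt_mul (by positivity), Real.sqrt_sq hK.le]
  set Kq := √K with hKq
  have hKq0 : 0 < Kq := Real.sqrt_pos.2 hK
  have hKK : K = Kq ^ 2 := (Real.sq_sqrt hK.le).symm
  have hse : 0 < √e := Real.sqrt_pos.2 he
  have h4 : √(e * K) = √e * Kq := Real.sqrt_mul he.le K
  have h5 : 2 * d * ((x * K - K * √(x ^ 2 - 4)) / (2 * K ^ 2) +
        (2 * K) ^ q / ((x * K) ^ q * (e * K))) +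
        C2 * (Γ / K) * (1 + K * w) * lk =
      (Kq * w) ^ 2 * (Θ + s * C2 * Γ * (lk / K) * (1 / K + w)) := by
    rw [hd, hΘ, hs, mul_pow Kq w 2, ← hKK, mul_pow 2 K q, mul_pow x K q, div_pow 2 x q]
    field_simp
  have h6 : √((Kq * w) ^ 2 * (Θ + s * C2 * Γ * (lk / K) * (1 / K + w))) =
      Kq * w * √(Θ + s * C2 * Γ * (lk / K) * (1 / K + w)) := by
    rw [Real.sqrt_mul (by positivity), Real.sqrt_sq (by positivity)]
  rw [pol_eq q C x e K hx0 he hK, ← hΓ]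
  unfold rr G
  rw [h1, h2, h3, h4, h5, h6]
  generalize √(Θ + s * C2 * Γ * (lk / K) * (1 / K + w)) = Z
  generalize √e = se at hse ⊢
  rw [hs, hKK]
  field_simp

theorem cont (C C1 C2 e Θ Γ s w : ℝ) :
    Continuous fun p : ℝ × ℝ => G C C1 C2 e Θ Γ s w p.1 p.2 := by
  unfold G
  fun_prop

end CHS_

open CHS_ in
theorem prove_CHS : T_CHS := by
  intro δ C C1 C2 hδ hC hC1 hC2
  obtain ⟨x, hxd⟩ : ∃ x, x = 2 + δ := ⟨_, rfl⟩
  obtain ⟨e, hed⟩ : ∃ e, e = δ / 2 := ⟨_, rfl⟩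
  have hx : 2 < x := by linarith
  have he : 0 < e := by linarith
  have h4 : 0 < x ^ 2 - 4 := by nlinarith
  have hr : 0 < √(x ^ 2 - 4) := Real.sqrt_pos.2 h4
  have hr2 : √(x ^ 2 - 4) ≤ x := by
    rw [Real.sqrt_le_left (by linarith)]
    linarith
  -- the choice of `q`
  obtain ⟨q, hqe, hq2, hq⟩ : ∃ q : ℕ, Even q ∧ 2 ≤ q ∧
      2 * ((x - √(x ^ 2 - 4)) / 2 + (2 / x) ^ q / e) < x := by
    have h1 : Tendsto (fun n : ℕ => 2 * ((x - √(x ^ 2 - 4)) / 2 + (2 / x) ^ n / e)) atTop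
        (𝓝 (2 * ((x - √(x ^ 2 - 4)) / 2 + 0 / e))) := by
      have h2 : Tendsto (fun n : ℕ => (2 / x) ^ n) atTop (𝓝 0) :=
        tendsto_pow_atTop_nhds_zero_of_lt_one (by positivity)
          (by rw [div_lt_one (by linarith)]; exact hx)
      exact (tendsto_const_nhds.add (h2.div_const e)).const_mul 2
    have h3 : 2 * ((x - √(x ^ 2 - 4)) / 2 + 0 / e) < x := by
      rw [zero_div]
      linarith
    obtain ⟨N, hN⟩ := eventually_atTop.1 (h1.eventually (gt_mem_nhds h3))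
    exact ⟨2 * (N + 1), even_two_mul _, by omega, hN _ (by omega)⟩
  obtain ⟨Θ, hΘ⟩ : ∃ Θ, Θ = (x - √(x ^ 2 - 4)) / 2 + (2 / x) ^ q / e := ⟨_, rfl⟩
  rw [← hΘ] at hq
  have hΘ0 : 0 ≤ Θ := by
    rw [hΘ]
    have : 0 ≤ (2 / x) ^ q / e := by positivity
    linarith
  -- the choice of `s`
  obtain ⟨s, hs1, hs⟩ : ∃ s : ℕ, 1 ≤ s ∧ 2 * (√Θ + C ^ 2 * (√((s : ℝ) + 1))⁻¹ / √e ^ 3) ^ 2 +
      C ^ 3 * (√((s : ℝ) + 1))⁻¹ / e ^ 2 < x := by
    have h1 : Tendsto (fun s : ℕ => (√((s : ℝ) + 1))⁻¹) atTop (𝓝 0) := by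
      refine Tendsto.inv_tendsto_atTop (Real.tendsto_sqrt_atTop.comp ?_)
      exact tendsto_atTop_add_const_right _ _ tendsto_natCast_atTop_atTop
    have h2 : Continuous fun w : ℝ => 2 * (√Θ + C ^ 2 * w / √e ^ 3) ^ 2 +
        C ^ 3 * w / e ^ 2 := by fun_prop
    have h3 := (h2.tendsto 0).comp h1
    have h5 : 2 * (√Θ + C ^ 2 * 0 / √e ^ 3) ^ 2 + C ^ 3 * 0 / e ^ 2 < x := by
      simp only [mul_zero, zero_div, add_zero]
      rw [Real.sq_sqrt hΘ0]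
      exact hq
    obtain ⟨N, hN⟩ := eventually_atTop.1 (h3.eventually (gt_mem_nhds h5))
    exact ⟨N + 1, by omega, hN (N + 1) (by omega)⟩
  obtain ⟨w, hwd⟩ : ∃ w, w = (√((s : ℝ) + 1))⁻¹ := ⟨_, rfl⟩
  rw [← hwd] at hs
  have hs0 : (0 : ℝ) < (s : ℝ) + 1 := by positivity
  have hw : 0 < w := by
    rw [hwd]
    exact inv_pos.2 (Real.sqrt_pos.2 hs0)
  have hw2 : (s : ℝ) + 1 = (w ^ 2)⁻¹ := by
    rw [hwd, inv_pow, Real.sq_sqrt hs0.le, inv_inv]
  -- the choice of `D`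
  have hk : Tendsto (fun d1 : ℕ => 2 * (((s : ℝ) + 1) * d1)) atTop atTop :=
    (tendsto_natCast_atTop_atTop.const_mul_atTop hs0).const_mul_atTop (by norm_num)
  have hv : Tendsto (fun k : ℝ => Real.log k / √k) atTop (𝓝 0) := by
    have h1 := (isLittleO_log_rpow_atTop (show (0 : ℝ) < 1 / 2 by norm_num)).tendsto_div_nhds_zero
    refine h1.congr fun k => ?_
    rw [Real.sqrt_eq_rpow]
  have hy : Tendsto (fun k : ℝ => 1 / √k) atTop (𝓝 0) := by
    have h1 := Real.tendsto_sqrt_atTop.inv_tendsto_atTop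
    refine h1.congr fun k => ?_
    simp
  have hG := ((cont C C1 C2 e Θ (Ga q C x e) ((s : ℝ) + 1) w).tendsto (0, 0)).comp
    ((hv.prodMk_nhds hy).comp hk)
  have hG0 : G C C1 C2 e Θ (Ga q C x e) ((s : ℝ) + 1) w 0 0 < x := by
    unfold G
    simp only [mul_zero, zero_mul, add_zero, zero_add]
    exact hs
  obtain ⟨N, hN⟩ := eventually_atTop.1 (hG.eventually (gt_mem_nhds hG0))
  refine ⟨s, q, N + 1, hs1, by omega, hqe, hq2, fun d1 hd1 k l0 R hkd hl0 hR => ?_⟩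
  have h1 := hN d1 (by omega)
  have hd0 : (0 : ℝ) < d1 := by
    have : 0 < d1 := by omega
    exact_mod_cast this
  have hk0 : 0 < k := by rw [hkd]; positivity
  have hK : 0 < √k := Real.sqrt_pos.2 hk0
  have hkk : √k ^ 2 = k := Real.sq_sqrt hk0.le
  have h2 := key C C1 C2 x e Θ (Ga q C x e) ((s : ℝ) + 1) w d1 (Real.log k) (√k) q hx he hK hw
    hw2 (by
      rw [hkk, hkd]
      have : w ^ 2 = ((s : ℝ) + 1)⁻¹ := by rw [hw2, inv_inv]
      rw [this]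
      field_simp) hΘ rfl
  rw [hkk] at h2
  have h3 : (x - e) * √k = R := by
    rw [hR, hxd, hed]
    ring
  have h5 : x * √k = l0 := by rw [hl0, hxd]
  rw [h3, h5] at h2
  rw [h2, ← h5, mul_comm x]
  refine mul_lt_mul_of_pos_left ?_ hK
  simp only [Function.comp_apply, ← hkd] at h1
  exact h1

end Pool.Agent.RCG
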