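import Pool.Agent.RCG.Targets13
import Pool.Agent.RCG.CHS

set_option autoImplicit false

/-!
# RCG: choice of the parameters, with explicit dependence on `t`
-/

namespace Pool.Agent.RCG

open Finset Matrix

namespace CHQ_

/-- the quotient of the left side by `√k`, two constants -/
noncomputable def Gq (C C1 C2 e Θ Γ s w v y : ℝ) : ℝ :=
  s * C1 * v + 2 * (√(Θ + s * C2 * Γ * v * (y + w)) + C ^ 2 * w / √e ^ 3) ^ 2 +
    C ^ 3 * w / e ^ 2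

theorem key (C Cc C1 C2 x e Θ Γ s w d lk K : ℝ) (q : ℕ) (hx : 2 < x) (he : 0 < e) (hK : 0 < K)
    (hw : 0 < w) (hs : s = (w ^ 2)⁻¹) (hd : 2 * d = K ^ 2 * w ^ 2)
    (hΘ : Θ = (x - √(x ^ 2 - 4)) / 2 + (2 / x) ^ q / e) (hΓ : Γ = CHS_.Ga q Cc x e) :
    s * rr (x * K) ((x - e) * K) (C * √(2 * d)) (C1 * lk)
      (2 * d * ((x * K - √((x * K) ^ 2 - 4 * K ^ 2)) / (2 * K ^ 2) +
        (2 * K) ^ q / ((x * K) ^ q * (x * K - (x - e) * K))) +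
        C2 * pol q (x * K) ((x - e) * K) (Cc * K) * (1 + √(2 * d)) * lk) =
      K * Gq C C1 C2 e Θ Γ s w (lk / K) (1 / K) := by
  have hx0 : 0 < x := by linarith
  have h1 : x * K - (x - e) * K = e * K := by ring
  have h2 : √(2 * d) = K * w := by
    rw [hd, show K ^ 2 * w ^ 2 = (K * w) ^ 2 by ring, Real.sqrt_sq (by positivity)]
  have h3 : √((x * K) ^ 2 - 4 * K ^ 2) = K * √(x ^ 2 - 4) := by
    rw [show (x * K) ^ 2 - 4 * K ^ 2 = K ^ 2 * (x ^ 2 - 4) by ring,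
      Real.sqrt_mul (by positivity), Real.sqrt_sq hK.le]
  set Kq := √K with hKq
  have hKq0 : 0 < Kq := Real.sqrt_pos.2 hK
  have hKK : K = Kq ^ 2 := (Real.sq_sqrt hK.le).symm
  have hse : 0 < √e := Real.sqrt_pos.2 he
  have h4 : √(e * K) = √e * Kq := Real.sqrt_mul he.le K
  have h5 : 2 * d * ((x * K - K * √(x ^ 2 - 4)) / (2 * K ^ 2) +
        (2 * K) ^ q / ((x * K) ^ q * (e * K))) +
        C2 * (Γ / K) * (1 + K * w) * lk =
      (Kq * w) ^ 2 * (Θ + s * C2 * Γ * (lk / K) * (1 / K + w)) := by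
    rw [hd, hΘ, hs, mul_pow Kq w 2, ← hKK, mul_pow 2 K q, mul_pow x K q, div_pow 2 x q]
    field_simp
  have h6 : √((Kq * w) ^ 2 * (Θ + s * C2 * Γ * (lk / K) * (1 / K + w))) =
      Kq * w * √(Θ + s * C2 * Γ * (lk / K) * (1 / K + w)) := by
    rw [Real.sqrt_mul (by positivity), Real.sqrt_sq (by positivity)]
  rw [CHS_.pol_eq q Cc x e K hx0 he hK, ← hΓ]
  unfold rr Gq
  rw [h1, h2, h3, h4, h5, h6]
  generalize √(Θ + s * C2 * Γ * (lk / K) * (1 / K + w)) = Z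
  generalize √e = se at hse ⊢
  rw [hs, hKK]
  field_simp

theorem t_le (t : ℝ) (ht : 0 < t) (ht1 : t ≤ 1 / 2) : (4 : ℝ) ≤ 10 ^ 18 / t ^ 10 := by
  have h1 : t ^ 10 ≤ 1 := pow_le_one₀ ht.le (by linarith)
  rw [le_div_iff₀ (by positivity)]
  nlinarith

end CHQ_

open CHQ_ in
theorem prove_CHQ (hA : T_CHA) (hB : T_CHB) (hCC : T_CHC) (hD : T_CHD) (hE : T_CHE) : T_CHQ := by
  intro t ht ht1
  obtain ⟨q, hqe, hq2, hq16, hq25, hq21⟩ := hA t ht ht1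
  have hΓ := hB t q ht ht1 hq25 hq21
  have h4 := t_le t ht ht1
  obtain ⟨n, hn⟩ : ∃ n : ℕ, n = ⌈(10 : ℝ) ^ 18 / t ^ 10⌉₊ := ⟨_, rfl⟩
  have hn1 : (10 : ℝ) ^ 18 / t ^ 10 ≤ n := by rw [hn]; exact Nat.le_ceil _
  have hn2 : (n : ℝ) < 10 ^ 18 / t ^ 10 + 1 := by
    rw [hn]
    exact Nat.ceil_lt_add_one (by positivity)
  have hn4 : 4 ≤ n := by
    have : (4 : ℝ) ≤ n := h4.trans hn1
    exact_mod_cast this
  obtain ⟨s, rfl⟩ : ∃ s : ℕ, n = s + 1 := ⟨n - 1, by omega⟩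
  push_cast at hn1 hn2
  refine ⟨s, q, by omega, hqe, hq2, by linarith, fun d1 k l0 R C1 hd1 hkd hk hl0 hR hC1 => ?_⟩
  have hs0 : (0 : ℝ) < (s : ℝ) + 1 := by positivity
  obtain ⟨w, hwd⟩ : ∃ w, w = (√((s : ℝ) + 1))⁻¹ := ⟨_, rfl⟩
  have hw : 0 < w := by
    rw [hwd]
    exact inv_pos.2 (Real.sqrt_pos.2 hs0)
  have hw2 : (s : ℝ) + 1 = (w ^ 2)⁻¹ := by
    rw [hwd, inv_pow, Real.sq_sqrt hs0.le, inv_inv]
  have hd0 : (1 : ℝ) ≤ d1 := by exact_mod_cast hd1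
  have hk0 : 0 < k := by rw [hkd]; positivity
  have hK : 0 < √k := Real.sqrt_pos.2 hk0
  have hkk : √k ^ 2 = k := Real.sq_sqrt hk0.le
  have hx : (2 : ℝ) < 2 + t ^ 2 := by
    have : 0 < t ^ 2 := by positivity
    linarith
  have he : 0 < t ^ 2 / 2 := by positivity
  have h2 := key 364 (2 + 5 / 4 * t ^ 2) C1 (728 * C1) (2 + t ^ 2) (t ^ 2 / 2) _
    (CHS_.Ga q (2 + 5 / 4 * t ^ 2) (2 + t ^ 2) (t ^ 2 / 2)) ((s : ℝ) + 1) w d1 (Real.log k) (√k) q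
    hx he hK hw hw2 (by
      rw [hkk, hkd]
      have : w ^ 2 = ((s : ℝ) + 1)⁻¹ := by rw [hw2, inv_inv]
      rw [this]
      field_simp) rfl rfl
  rw [hkk] at h2
  have h3 : (2 + t ^ 2 - t ^ 2 / 2) * √k = R := by
    rw [hR]
    ring
  have h5 : (2 + t ^ 2) * √k = l0 := hl0.symm
  rw [h3, h5] at h2
  unfold kap
  rw [h2, ← h5, mul_comm (2 + t ^ 2)]
  refine mul_lt_mul_of_pos_left ?_ hK
  -- the bounds
  have hws : 10 ^ 9 * w ≤ t ^ 5 := by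
    have e1 : (10 ^ 9 * w) ^ 2 ≤ (t ^ 5) ^ 2 := by
      have : w ^ 2 = ((s : ℝ) + 1)⁻¹ := by rw [hw2, inv_inv]
      rw [mul_pow, this, ← div_eq_mul_inv, div_le_iff₀ hs0]
      rw [div_le_iff₀ (by positivity)] at hn1
      nlinarith
    exact (pow_le_pow_iff_left₀ (by positivity) (by positivity) two_ne_zero).1 e1
  have hws2 : t ^ 5 ≤ 2 * 10 ^ 9 * w := by
    have e1 : (t ^ 5) ^ 2 ≤ (2 * 10 ^ 9 * w) ^ 2 := by
      have e2 : w ^ 2 = ((s : ℝ) + 1)⁻¹ := by rw [hw2, inv_inv]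
      rw [mul_pow, e2, ← div_eq_mul_inv, le_div_iff₀ hs0]
      have e3 : (s : ℝ) + 1 ≤ 4 * 10 ^ 18 / t ^ 10 := by
        have : 4 * (10 : ℝ) ^ 18 / t ^ 10 = 4 * (10 ^ 18 / t ^ 10) := by ring
        rw [this]
        linarith
      rw [le_div_iff₀ (by positivity)] at e3
      nlinarith
    exact (pow_le_pow_iff_left₀ (by positivity) (by positivity) two_ne_zero).1 e1
  have hC10 : 0 ≤ C1 := by
    rw [hC1]
    have : 0 < Real.log (1 + t ^ 2 / 4) := Real.log_pos (by linarith)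
    positivity
  have hlk : 0 ≤ Real.log k := by
    apply Real.log_nonneg
    rw [hkd]
    nlinarith
  have hy : 1 / √k ≤ w := by
    rw [hwd, one_div]
    apply inv_anti₀ (Real.sqrt_pos.2 hs0)
    apply Real.sqrt_le_sqrt
    rw [hkd]
    nlinarith
  have hΓ0 : 0 ≤ CHS_.Ga q (2 + 5 / 4 * t ^ 2) (2 + t ^ 2) (t ^ 2 / 2) := by
    have e1 : (0 : ℝ) ≤ 2 + 5 / 4 * t ^ 2 := by linarith
    have e2 : (0 : ℝ) ≤ 2 + t ^ 2 := by linarith
    unfold CHS_.Ga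
    refine add_nonneg (Finset.sum_nonneg fun m _ => div_nonneg (pow_nonneg e1 _)
      (pow_nonneg e2 _)) (div_nonneg (pow_nonneg e1 _) (mul_nonneg (pow_nonneg e2 _) he.le))
  have hθ : (2 / (2 + t ^ 2)) ^ q / (t ^ 2 / 2) ≤ t / 8 := by
    have e1 : 2 / (2 + t ^ 2) = (1 + t ^ 2 / 2)⁻¹ := by
      have e0 : (0 : ℝ) < 2 + t ^ 2 := by linarith
      have e00 : (0 : ℝ) < 1 + t ^ 2 / 2 := by linarith
      rw [div_eq_iff e0.ne', inv_mul_eq_div, eq_div_iff e00.ne']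
      ring
    rw [e1, inv_pow, div_le_iff₀ he]
    have e2 : ((1 + t ^ 2 / 2) ^ q)⁻¹ ≤ (16 / t ^ 3)⁻¹ := inv_anti₀ (by positivity) hq16
    refine e2.trans (le_of_eq ?_)
    rw [inv_div]
    ring
  have hfin := hE t C1 (CHS_.Ga q (2 + 5 / 4 * t ^ 2) (2 + t ^ 2) (t ^ 2 / 2)) w
    (Real.log k / √k) (1 / √k) ((2 / (2 + t ^ 2)) ^ q / (t ^ 2 / 2)) ht ht1 hC10
    (by rw [hC1]; exact hD t ht ht1) hΓ0 hΓ hw hws hws2 (by positivity) (hCC t k ht ht1 hk)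
    (by positivity) hy (by positivity) hθ
  unfold Gq
  rw [hw2]
  exact hfin

end Pool.Agent.RCG
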