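import Pool.Agent.RCG.Targets14

set_option autoImplicit false

/-!
# RCG, target CHR: the fixed point of the bootstrap step
-/

namespace Pool.Agent.RCG

open Finset Matrix

namespace CHR_

/-- the trivial bound -/
theorem triv {G : Type} [Group G] [Fintype G] (f : G → ℝ) (g : G) :
    |Phi f g| ≤ Fintype.card G * ∑ x, f x ^ 2 := by
  unfold Phi
  have h1 : ∀ h : G, |∑ x, f x * f (x * (h * g * h⁻¹))| ≤ ∑ x, f x ^ 2 := by
    intro h
    have h2 : ∑ x, f (x * (h * g * h⁻¹)) ^ 2 = ∑ x, f x ^ 2 :=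
      Fintype.sum_equiv (Equiv.mulRight (h * g * h⁻¹)) _ _ (fun x => rfl)
    have h3 : |∑ x, f x * f (x * (h * g * h⁻¹))| ≤
        ∑ x, (f x ^ 2 + f (x * (h * g * h⁻¹)) ^ 2) / 2 := by
      refine le_trans (Finset.abs_sum_le_sum_abs _ _) (Finset.sum_le_sum fun x _ => ?_)
      rw [abs_le]
      constructor
      · nlinarith [sq_nonneg (f x + f (x * (h * g * h⁻¹)))]
      · nlinarith [sq_nonneg (f x - f (x * (h * g * h⁻¹)))]
    rw [← Finset.sum_div, Finset.sum_add_distrib, h2] at h3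
    linarith
  calc |∑ h : G, ∑ x, f x * f (x * (h * g * h⁻¹))|
      ≤ ∑ h : G, |∑ x, f x * f (x * (h * g * h⁻¹))| := Finset.abs_sum_le_sum_abs _ _
    _ ≤ ∑ _h : G, ∑ x, f x ^ 2 := Finset.sum_le_sum fun h _ => h1 h
    _ = Fintype.card G * ∑ x, f x ^ 2 := by
      rw [Finset.sum_const, Finset.card_univ, nsmul_eq_mul]

/-- the fixed point -/
theorem fixp {p M : ℝ} (hp : 5 ≤ p) (hM : 0 ≤ M)
    (h : M ≤ √((15 * p * M + 35) / (p ^ 2 - p))) : M ≤ 22 / p := by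
  have hp0 : 0 < p := by linarith
  have hd : 0 < p ^ 2 - p := by nlinarith
  have hn : 0 ≤ (15 * p * M + 35) / (p ^ 2 - p) := by
    apply div_nonneg _ hd.le
    have : 0 ≤ p * M := mul_nonneg hp0.le hM
    nlinarith
  have h1 : M ^ 2 ≤ (15 * p * M + 35) / (p ^ 2 - p) := by
    have h2 := pow_le_pow_left₀ hM h 2
    rwa [Real.sq_sqrt hn] at h2
  rw [le_div_iff₀ hd] at h1
  have h3 : 4 / 5 * (p * M) ^ 2 ≤ M ^ 2 * (p ^ 2 - p) := by
    have h4 : 0 ≤ M ^ 2 * (p ^ 2 - p - 4 / 5 * p ^ 2) := by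
      apply mul_nonneg (sq_nonneg _)
      nlinarith
    nlinarith
  rw [le_div_iff₀ hp0]
  by_contra hc
  rw [not_le] at hc
  nlinarith

end CHR_

theorem prove_CHR (hMST : T_MST) : T_CHR := by
  intro p _ hp5 g hg hg' f hf
  have hpR : (5 : ℝ) ≤ p := by exact_mod_cast hp5
  let S : Set ℝ := {M | 0 ≤ M ∧ ∀ g : SL 2 p, g.1 0 0 + g.1 1 1 ≠ 2 → g.1 0 0 + g.1 1 1 ≠ -2 →
    ∀ f : SL 2 p → ℝ, ∑ x, f x = 0 → |Phi f g| ≤ M * Fintype.card (SL 2 p) * ∑ x, f x ^ 2}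
  have h1 : (1 : ℝ) ∈ S := by
    refine ⟨zero_le_one, fun g _ _ f _ => ?_⟩
    rw [one_mul]
    exact CHR_.triv f g
  have hbd : BddBelow S := ⟨0, fun M hM => hM.1⟩
  have h0 : 0 ≤ sInf S := le_csInf ⟨1, h1⟩ fun M hM => hM.1
  have hmem : sInf S ∈ S := by
    refine ⟨h0, fun g hg hg' f hf => ?_⟩
    have hc : 0 ≤ (Fintype.card (SL 2 p) : ℝ) * ∑ x, f x ^ 2 :=
      mul_nonneg (Nat.cast_nonneg _) (Finset.sum_nonneg fun x _ => sq_nonneg _)
    rw [mul_assoc]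
    rcases hc.eq_or_lt with h | h
    · rw [← h, mul_zero]
      have := CHR_.triv f g
      rwa [← h] at this
    · rw [← div_le_iff₀ h]
      refine le_csInf ⟨1, h1⟩ fun M hM => ?_
      rw [div_le_iff₀ h, ← mul_assoc]
      exact hM.2 g hg hg' f hf
  have hnext : √((15 * p * sInf S + 35) / ((p : ℝ) ^ 2 - p)) ∈ S :=
    ⟨Real.sqrt_nonneg _, hMST p hp5 (sInf S) h0 hmem.2⟩
  have hle : sInf S ≤ √((15 * p * sInf S + 35) / ((p : ℝ) ^ 2 - p)) := csInf_le hbd hnext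
  have hfin : sInf S ≤ 22 / p := CHR_.fixp hpR h0 hle
  refine le_trans (hmem.2 g hg hg' f hf) ?_
  refine mul_le_mul_of_nonneg_right ?_ (Finset.sum_nonneg fun x _ => sq_nonneg _)
  exact mul_le_mul_of_nonneg_right hfin (Nat.cast_nonneg _)

end Pool.Agent.RCG
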