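import Pool.Agent.RCG.Targets14

set_option autoImplicit false

/-!
# RCG: CJ1, the matrices of trace `τ ≠ ± 2` are one class
-/

namespace Pool.Agent.RCG

open Finset Matrix

namespace CJ1_

/-- a nondegenerate binary quadratic form takes the value `1` -/
theorem form {p : ℕ} [Fact p.Prime] (hp : p ≠ 2) (a b c d : ZMod p) (hdet : a * d - b * c = 1)
    (h1 : a + d ≠ 2) (h2 : a + d ≠ -2) :
    ∃ v w : ZMod p, c * v ^ 2 + (d - a) * v * w - b * w ^ 2 = 1 := by
  have h20 : (2 : ZMod p) ≠ 0 := by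
    intro h0
    have h3 : ((2 : ℕ) : ZMod p) = 0 := by exact_mod_cast h0
    rw [ZMod.natCast_eq_zero_iff] at h3
    exact hp ((Nat.prime_dvd_prime_iff_eq Fact.out Nat.prime_two).1 h3)
  have hΔ : (a + d) ^ 2 - 4 ≠ 0 := by
    have h3 : (a + d) ^ 2 - 4 = (a + d - 2) * (a + d + 2) := by ring
    rw [h3]
    refine mul_ne_zero (sub_ne_zero.2 h1) ?_
    intro h4
    exact h2 (eq_neg_of_add_eq_zero_left h4)
  by_cases hc : c = 0
  · subst hc
    have hda : d - a ≠ 0 := by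
      intro h3
      apply hΔ
      have h4 : d = a := sub_eq_zero.1 h3
      subst h4
      linear_combination 4 * hdet
    refine ⟨(1 + b) / (d - a), 1, ?_⟩
    field_simp
    ring
  · obtain ⟨X, Y, hXY⟩ : ∃ X Y : ZMod p, X ^ 2 - ((a + d) ^ 2 - 4) * Y ^ 2 = 4 * c := by
      have hcard : Fintype.card (ZMod p) % 2 = 1 := by
        rw [ZMod.card]
        exact (Nat.Prime.eq_two_or_odd (Fact.out : p.Prime)).resolve_left hp
      set f : Polynomial (ZMod p) := Polynomial.X ^ 2 - Polynomial.C (4 * c) with hf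
      set g : Polynomial (ZMod p) := Polynomial.C (-((a + d) ^ 2 - 4)) * Polynomial.X ^ 2 with hg
      have hfd : f.degree = 2 := by
        rw [hf]
        exact Polynomial.degree_X_pow_sub_C (by norm_num) _
      have hgd : g.degree = 2 := by
        rw [hg]
        exact Polynomial.degree_C_mul_X_pow 2 (neg_ne_zero.2 hΔ)
      obtain ⟨X, Y, h⟩ := FiniteField.exists_root_sum_quadratic hfd hgd hcard
      refine ⟨X, Y, ?_⟩
      rw [hf, hg] at h
      simp only [Polynomial.eval_sub, Polynomial.eval_pow, Polynomial.eval_X,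
        Polynomial.eval_C, Polynomial.eval_mul] at h
      linear_combination h
    refine ⟨(X - (d - a) * Y) / (2 * c), Y, ?_⟩
    have h4 : (4 : ZMod p) * c ≠ 0 := by
      have : (4 : ZMod p) = 2 * 2 := by norm_num
      rw [this]
      exact mul_ne_zero (mul_ne_zero h20 h20) hc
    have h2c : (2 : ZMod p) * c ≠ 0 := mul_ne_zero h20 hc
    set v := (X - (d - a) * Y) / (2 * c) with hv
    have hv2 : 2 * c * v = X - (d - a) * Y := by
      rw [hv, mul_div_cancel₀ _ h2c]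
    refine mul_left_cancel₀ h4 ?_
    have h5 : 4 * c * (c * v ^ 2 + (d - a) * v * Y - b * Y ^ 2) =
        (2 * c * v + (d - a) * Y) ^ 2 - ((d - a) ^ 2 + 4 * b * c) * Y ^ 2 := by ring
    rw [h5, hv2]
    linear_combination hXY + 4 * Y ^ 2 * hdet

/-- the companion matrix -/
def cm {p : ℕ} (t : ZMod p) : SL 2 p := ⟨!![0, -1; 1, t], by simp [Matrix.det_fin_two_of]⟩

theorem conj {p : ℕ} [Fact p.Prime] (hp : p ≠ 2) (x : SL 2 p)
    (h1 : x.1 0 0 + x.1 1 1 ≠ 2) (h2 : x.1 0 0 + x.1 1 1 ≠ -2) :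
    ∃ P : SL 2 p, x * P = P * cm (x.1 0 0 + x.1 1 1) := by
  have hdet : x.1 0 0 * x.1 1 1 - x.1 0 1 * x.1 1 0 = 1 := by
    have := x.2
    rwa [Matrix.det_fin_two] at this
  obtain ⟨v, w, hvw⟩ := form hp _ _ _ _ hdet h1 h2
  refine ⟨⟨!![v, x.1 0 0 * v + x.1 0 1 * w; w, x.1 1 0 * v + x.1 1 1 * w], ?_⟩, ?_⟩
  · rw [Matrix.det_fin_two_of]
    linear_combination hvw
  · apply Subtype.ext
    show x.1 * !![v, x.1 0 0 * v + x.1 0 1 * w; w, x.1 1 0 * v + x.1 1 1 * w] =
      !![v, x.1 0 0 * v + x.1 0 1 * w; w, x.1 1 0 * v + x.1 1 1 * w] *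
        !![0, -1; 1, x.1 0 0 + x.1 1 1]
    rw [Matrix.eta_fin_two x.1]
    generalize x.1 0 0 = a at *
    generalize x.1 0 1 = b at *
    generalize x.1 1 0 = c at *
    generalize x.1 1 1 = d at *
    ext i j
    fin_cases i <;> fin_cases j <;>
      simp [Matrix.mul_apply, Fin.sum_univ_two]
    · linear_combination (-v) * hdet
    · linear_combination (-w) * hdet

end CJ1_

open CJ1_ in
theorem prove_CJ1 : T_CJ1 := by
  intro p _ hp x x' htr h1 h2
  obtain ⟨P, hP⟩ := conj hp x h1 h2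
  obtain ⟨P', hP'⟩ := conj hp x' (by rw [← htr]; exact h1) (by rw [← htr]; exact h2)
  rw [← htr] at hP'
  refine ⟨P' * P⁻¹, ?_⟩
  have e1 : P⁻¹ * x * P = cm (x.1 0 0 + x.1 1 1) := by
    rw [mul_assoc, hP, inv_mul_cancel_left]
  have e2 : P' * cm (x.1 0 0 + x.1 1 1) * P'⁻¹ = x' := by
    rw [← hP', mul_inv_cancel_right]
  calc P' * P⁻¹ * x * (P' * P⁻¹)⁻¹ = P' * (P⁻¹ * x * P) * P'⁻¹ := by
        rw [_root_.mul_inv_rev, inv_inv]
        simp only [mul_assoc]
    _ = x' := by rw [e1, e2]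

end Pool.Agent.RCG
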