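import Pool.Agent.RCG.Targets8

/-!
# RCG: CLC

Products of an element of a conjugacy class of `SL (2, p)` and of the inverse of another one:
every nonscalar element is obtained at most `8 p³` times.
-/

set_option autoImplicit false

namespace Pool.Agent.RCG

open Finset Matrix

namespace CLC_

theorem card_sub {α : Type} [Fintype α] (P : α → Prop) [DecidablePred P] :
    Nat.card {a : α // P a} = (univ.filter P).card := by
  rw [Nat.card_eq_fintype_card, Fintype.card_subtype]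

variable {p : ℕ} [Fact p.Prime]

theorem trace_conj (h g : SL 2 p) :
    ((h * g * h⁻¹ : SL 2 p) : Matrix (Fin 2) (Fin 2) (ZMod p)).trace =
      (g : Matrix (Fin 2) (Fin 2) (ZMod p)).trace := by
  have e1 : ((h * g * h⁻¹ : SL 2 p) : Matrix (Fin 2) (Fin 2) (ZMod p)) =
      h.1 * g.1 * (h⁻¹ : SL 2 p).1 := by
    rw [Matrix.SpecialLinearGroup.coe_mul, Matrix.SpecialLinearGroup.coe_mul]
  have e2 : (h⁻¹ : SL 2 p).1 * h.1 = 1 := congrArg Subtype.val (inv_mul_cancel h)
  rw [e1, Matrix.trace_mul_cycle, e2, Matrix.one_mul]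

/-- at most `2 p` elements conjugate `g` to `z` -/
theorem cent (h2 : T_CEN2) (g : SL 2 p) (hg1 : (g : Matrix (Fin 2) (Fin 2) (ZMod p)) ≠ 1)
    (hg2 : (g : Matrix (Fin 2) (Fin 2) (ZMod p)) ≠ -1) (z : SL 2 p) :
    (univ.filter (fun h : SL 2 p => h * g * h⁻¹ = z)).card ≤ 2 * p := by
  rcases (univ.filter (fun h : SL 2 p => h * g * h⁻¹ = z)).eq_empty_or_nonempty with h0 | ⟨h0, hh⟩
  · rw [h0, card_empty]
    exact Nat.zero_le _
  · have e0 : h0 * g * h0⁻¹ = z := (mem_filter.1 hh).2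
    have h3 := h2 p g hg1 hg2
    rw [card_sub] at h3
    refine le_trans ?_ h3
    refine card_le_card_of_injOn (fun h => h0⁻¹ * h) ?_ ?_
    · intro h hh'
      have e1 : h * g * h⁻¹ = z := (mem_filter.1 (mem_coe.1 hh')).2
      refine mem_coe.2 (mem_filter.2 ⟨mem_univ _, ?_⟩)
      have e2 : h * g = h0 * g * h0⁻¹ * h := by
        rw [e0, ← e1]
        group
      change h0⁻¹ * h * g = g * (h0⁻¹ * h)
      rw [mul_assoc, e2]
      group
    · intro a _ b _ hab
      exact mul_left_cancel hab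

/-- a scalar element is `1` or `-1` -/
theorem not_scalar (x : SL 2 p) (h1 : (x : Matrix (Fin 2) (Fin 2) (ZMod p)) ≠ 1)
    (h2 : (x : Matrix (Fin 2) (Fin 2) (ZMod p)) ≠ -1) :
    ¬ (x.1 0 1 = 0 ∧ x.1 1 0 = 0 ∧ x.1 0 0 = x.1 1 1) := by
  rintro ⟨e1, e2, e3⟩
  have hdet : x.1 0 0 * x.1 1 1 - x.1 0 1 * x.1 1 0 = 1 := by
    have := x.2
    rwa [Matrix.det_fin_two] at this
  rw [e1, zero_mul, sub_zero, ← e3] at hdet
  rcases mul_self_eq_one_iff.1 hdet with h | h
  · apply h1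
    ext i j
    fin_cases i <;> fin_cases j
    · exact h
    · exact e1
    · exact e2
    · exact e3.symm.trans h
  · apply h2
    ext i j
    fin_cases i <;> fin_cases j
    · exact h
    · exact e1.trans (by simp)
    · exact e2.trans (by simp)
    · exact e3.symm.trans h

section

variable {G : Type} [Group G] [Fintype G] [DecidableEq G]

omit [Fintype G] [DecidableEq G] in
theorem eq_of {g x : G} (a b : G) (e : (b * g * b⁻¹)⁻¹ * (a * g * a⁻¹) = x) :
    a * g * a⁻¹ = b * g * b⁻¹ * x := by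
  rw [← e, mul_inv_cancel_left]

theorem count1 (g x : G) (c : ℕ)
    (hc : ∀ z, (univ.filter (fun h : G => h * g * h⁻¹ = z)).card ≤ c) (t : Finset G)
    (ht : ∀ a b : G, a * g * a⁻¹ = b * g * b⁻¹ * x → b * g * b⁻¹ ∈ t) :
    (univ.filter (fun hh : G × G =>
      (hh.2 * g * hh.2⁻¹)⁻¹ * (hh.1 * g * hh.1⁻¹) = x)).card ≤ (c * c) * t.card := by
  refine card_le_mul_card_image_of_maps_to (f := fun hh : G × G => hh.2 * g * hh.2⁻¹) ?_ _ ?_
  · intro hh hhh
    exact ht hh.1 hh.2 (eq_of _ _ (mem_filter.1 hhh).2)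
  · intro m _
    have hsub : (univ.filter (fun hh : G × G =>
        (hh.2 * g * hh.2⁻¹)⁻¹ * (hh.1 * g * hh.1⁻¹) = x)).filter
        (fun hh => hh.2 * g * hh.2⁻¹ = m) ⊆
        (univ.filter (fun h : G => h * g * h⁻¹ = m * x)) ×ˢ
          (univ.filter (fun h : G => h * g * h⁻¹ = m)) := by
      intro hh hhh
      rw [mem_filter, mem_filter] at hhh
      obtain ⟨⟨-, e1⟩, e2⟩ := hhh
      rw [mem_product, mem_filter, mem_filter]
      refine ⟨⟨mem_univ _, ?_⟩, mem_univ _, e2⟩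
      rw [eq_of _ _ e1, e2]
    refine (card_le_card hsub).trans ?_
    rw [card_product]
    exact Nat.mul_le_mul (hc _) (hc _)

theorem count2 (g x : G) (c : ℕ)
    (hc : ∀ z, (univ.filter (fun h : G => h * g * h⁻¹ = z)).card ≤ c) :
    (univ.filter (fun hh : G × G =>
      (hh.2 * g * hh.2⁻¹)⁻¹ * (hh.1 * g * hh.1⁻¹) = x)).card ≤ c * Fintype.card G := by
  refine card_le_mul_card_image_of_maps_to (f := fun hh : G × G => hh.2)
    (fun _ _ => mem_univ _) _ ?_
  intro h' _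
  refine le_trans ?_ (hc (h' * g * h'⁻¹ * x))
  refine card_le_card_of_injOn (fun hh : G × G => hh.1) ?_ ?_
  · intro hh hhh
    rw [mem_coe, mem_filter, mem_filter] at hhh
    obtain ⟨⟨-, e1⟩, e2⟩ := hhh
    refine mem_coe.2 (mem_filter.2 ⟨mem_univ _, ?_⟩)
    rw [← e2]
    exact eq_of _ _ e1
  · intro a ha b hb hab
    rw [mem_coe, mem_filter] at ha hb
    exact Prod.ext hab (ha.2.trans hb.2.symm)

end

end CLC_

open CLC_ in
theorem prove_CLC (h1 : T_LIN) (h2 : T_CEN2) : T_CLC := by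
  intro p _ g hg1 hg2 x
  constructor
  · intro hx1 hx2
    rw [card_sub]
    have h3 := h1 p x.1 (g : Matrix (Fin 2) (Fin 2) (ZMod p)).trace
      (g : Matrix (Fin 2) (Fin 2) (ZMod p)).trace (not_scalar x hx1 hx2)
    rw [card_sub] at h3
    refine (count1 g x (2 * p) (cent h2 g hg1 hg2) _ ?_).trans
      ((Nat.mul_le_mul_left _ h3).trans (le_of_eq ?_))
    · intro a b e
      rw [mem_filter]
      refine ⟨mem_univ _, trace_conj b g, ?_⟩
      have e1 : ((b * g * b⁻¹ : SL 2 p) : Matrix (Fin 2) (Fin 2) (ZMod p)) * x.1 =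
          ((b * g * b⁻¹ * x : SL 2 p) : Matrix (Fin 2) (Fin 2) (ZMod p)) :=
        (Matrix.SpecialLinearGroup.coe_mul (b * g * b⁻¹) x).symm
      rw [e1, ← e]
      exact trace_conj a g
    · ring
  · rw [card_sub]
    exact count2 g x (2 * p) (cent h2 g hg1 hg2)

end Pool.Agent.RCG
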