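import Pool.Agent.RCG.Targets

set_option autoImplicit false

/-!
# Class functions
-/

namespace Pool.Agent.RCG

open Finset

namespace CLF_

theorem ev_map {G : Type} [Group G] {d n : ℕ} (a : MulAut G) (y : Fin d → G)
    (w : Fin n → Ltr d) : ev (fun i => a (y i)) w = a (ev y w) := by
  have h : (MulEquiv.toMonoidHom a).comp (FreeGroup.lift y) =
      FreeGroup.lift (fun i => a (y i)) := by
    ext i
    simp
  unfold ev
  rw [← h]
  rfl

end CLF_

open CLF_ in
/-- CLF -/
theorem prove_CLF : T_CLF := by
  classical
  intro G H X _ _ _ _ α φ hφ d n w g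
  have e1 : Nat.card {y : Fin d → G // ev y w = g} =
      #((univ : Finset (Fin d → G)).filter (fun y => ev y w = g)) := by
    rw [Nat.card_eq_fintype_card, Fintype.card_subtype]
  have e2 : Nat.card {y : Fin d → G // φ (ev y w) = φ g} =
      #((univ : Finset (Fin d → G)).filter (fun y => φ (ev y w) = φ g)) := by
    rw [Nat.card_eq_fintype_card, Fintype.card_subtype]
  have e3 : Nat.card {h : H // α h g = g} =
      #((univ : Finset H).filter (fun h => α h g = g)) := by
    rw [Nat.card_eq_fintype_card, Fintype.card_subtype]
  rw [e1, e2, e3]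
  set S : Finset (H × (Fin d → G)) :=
    (univ : Finset H) ×ˢ ((univ : Finset (Fin d → G)).filter (fun y => ev y w = g)) with hS
  have hSc : #S = Fintype.card H * #((univ : Finset (Fin d → G)).filter
      (fun y => ev y w = g)) := by
    rw [hS, card_product, card_univ]
  rw [← hSc]
  let F : H × (Fin d → G) → (Fin d → G) := fun p i => α p.1 (p.2 i)
  have hF : ∀ p ∈ S, ev (F p) w = α p.1 g := by
    intro p hp
    rw [hS, mem_product, mem_filter] at hp
    have := ev_map (α p.1) p.2 w
    rw [hp.2.2] at this
    exact this
  refine card_le_mul_card_image_of_maps_to (f := F) ?_ _ ?_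
  · intro p hp
    have h5 := hF p hp
    rw [mem_filter]
    exact ⟨mem_univ _, by rw [h5, hφ]⟩
  · intro b _
    rcases (S.filter (fun p => F p = b)).eq_empty_or_nonempty with h0 | ⟨p0, hp0⟩
    · rw [h0]
      simp
    · rw [mem_filter] at hp0
      apply card_le_card_of_injOn (fun p => p0.1⁻¹ * p.1)
      · intro p hp
        simp only [coe_filter, Set.mem_ofPred_eq] at hp
        simp only [coe_filter, mem_univ, true_and, Set.mem_ofPred_eq]
        have h1 := hF p hp.1
        have h2 := hF p0 hp0.1
        rw [hp.2] at h1
        rw [hp0.2] at h2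
        have h3 : α p.1 g = α p0.1 g := by rw [← h1, ← h2]
        rw [map_mul, MulAut.mul_apply, h3, map_inv, MulAut.inv_apply_self]
      · intro p hp q hq hpq
        simp only [coe_filter, Set.mem_ofPred_eq] at hp hq
        have h1 : p.1 = q.1 := mul_left_cancel hpq
        refine Prod.ext h1 ?_
        funext i
        have h2 : F p i = F q i := by rw [hp.2, hq.2]
        have h3 : α p.1 (p.2 i) = α q.1 (q.2 i) := h2
        rw [h1] at h3
        exact (α q.1).injective h3

end Pool.Agent.RCG
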