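import Pool.Agent.RCG.Targets7

set_option autoImplicit false

/-!
# RCG: CMB, the deterministic combination
-/

namespace Pool.Agent.RCG

open Finset Matrix

namespace CMB_

variable {G : Type} [Fintype G]

lemma symm {M : Matrix G G ℝ} (hM : M.IsHermitian) (u v : G → ℝ) :
    u ⬝ᵥ M *ᵥ v = v ⬝ᵥ M *ᵥ u := by
  have h1 : Mᵀ = M := by
    rw [← Matrix.conjTranspose_eq_transpose_of_trivial]
    exact hM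
  rw [Matrix.dotProduct_mulVec, ← Matrix.mulVec_transpose, h1, dotProduct_comm]

lemma cs (u v : G → ℝ) : |u ⬝ᵥ v| ≤ √((u ⬝ᵥ u) * (v ⬝ᵥ v)) := by
  apply Real.abs_le_sqrt
  have h := Finset.sum_mul_sq_le_sq_mul_sq Finset.univ u v
  simp only [dotProduct]
  refine h.trans (le_of_eq ?_)
  congr 1
  · exact Finset.sum_congr rfl fun x _ => sq (u x)
  · exact Finset.sum_congr rfl fun x _ => sq (v x)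

lemma nonneg (u : G → ℝ) : 0 ≤ u ⬝ᵥ u :=
  Finset.sum_nonneg fun x _ => mul_self_nonneg (u x)

lemma cs_le {u v : G → ℝ} {W s : ℝ} (hW : 0 ≤ W) (hs : 0 ≤ s) (hu : u ⬝ᵥ u ≤ s)
    (hv : v ⬝ᵥ v ≤ W * s) : |u ⬝ᵥ v| ≤ √W * s := by
  refine (cs u v).trans ?_
  have h1 : (u ⬝ᵥ u) * (v ⬝ᵥ v) ≤ W * s ^ 2 := by
    calc (u ⬝ᵥ u) * (v ⬝ᵥ v) ≤ s * (W * s) :=
          mul_le_mul hu hv (nonneg v) hs
      _ = W * s ^ 2 := by ring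
  refine (Real.sqrt_le_sqrt h1).trans ?_
  rw [Real.sqrt_mul hW, Real.sqrt_sq hs]

end CMB_

open CMB_ in
theorem prove_CMB (h : T_ADM) : T_CMB := by
  intro G _ _ d d' y y' Q R B W hR hB hW hQ h1 h2 h3 f hf
  obtain ⟨hH, hQQ, hQ1⟩ := hQ
  have hsym' : (adM y').IsHermitian := (h G d').2.1 y'
  have e1 : ∀ g : G → ℝ, ∑ x, g x * adj y' g x = g ⬝ᵥ adM y' *ᵥ g := by
    intro g
    rw [(h G d').1 y' g]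
    rfl
  have e2 : ∑ x, f x * adj (Fin.append y y') f x =
      f ⬝ᵥ adM y *ᵥ f + f ⬝ᵥ adM y' *ᵥ f := by
    rw [← dotProduct_add, ← Matrix.add_mulVec, ← (h G d).2.2.1 d' y y',
      (h G (d + d')).1 (Fin.append y y') f]
    rfl
  have e3 : ∀ g : G → ℝ, ∑ x, g x ^ 2 = g ⬝ᵥ g := fun g =>
    Finset.sum_congr rfl fun x _ => sq (g x)
  rw [e2, e3]
  set f1 : G → ℝ := Q *ᵥ f with hf1
  set f2 : G → ℝ := f - f1 with hf2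
  have hff : f = f2 + f1 := by rw [hf2, sub_add_cancel]
  -- the decomposition is orthogonal
  have q1 : f ⬝ᵥ Q *ᵥ f = f1 ⬝ᵥ f1 := by
    have h5 : f1 ⬝ᵥ Q *ᵥ f = f ⬝ᵥ Q *ᵥ f1 := symm hH f1 f
    rw [← hf1] at h5
    rw [← hf1, h5, hf1, Matrix.mulVec_mulVec, hQQ]
  have q2 : f ⬝ᵥ f1 = f1 ⬝ᵥ f1 := by
    rw [← q1, ← hf1]
  have q3 : f2 ⬝ᵥ f2 = f ⬝ᵥ f - f1 ⬝ᵥ f1 := by
    rw [hf2, sub_dotProduct, dotProduct_sub, dotProduct_sub, dotProduct_comm f1 f, q2]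
    ring
  have s0 : 0 ≤ f ⬝ᵥ f := nonneg f
  have s1 : 0 ≤ f1 ⬝ᵥ f1 := nonneg f1
  have s2 : f2 ⬝ᵥ f2 ≤ f ⬝ᵥ f := by linarith
  -- sums
  have sum1 : ∑ x, f1 x = 0 := by
    have h5 := symm hH (fun _ => (1 : ℝ)) f
    rw [hQ1, dotProduct_zero] at h5
    have h6 : (fun _ => (1 : ℝ)) ⬝ᵥ Q *ᵥ f = ∑ x, f1 x := by
      simp [dotProduct, hf1]
    rw [← h6]
    exact h5
  have sum2 : ∑ x, f2 x = 0 := by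
    rw [hf2]
    simp only [Pi.sub_apply]
    rw [Finset.sum_sub_distrib, hf, sum1, sub_zero]
  have b1 := h1 f hf
  rw [q1] at b1
  have b2 := h2 f2 sum2
  rw [e1, e3, q3] at b2
  have b3 := h3 f
  rw [← hf1] at b3
  have b4 : |f2 ⬝ᵥ adM y' *ᵥ f1| ≤ √W * (f ⬝ᵥ f) := cs_le hW s0 s2 b3
  have b5 : |f ⬝ᵥ adM y' *ᵥ f1| ≤ √W * (f ⬝ᵥ f) := cs_le hW s0 le_rfl b3
  have e5 : f ⬝ᵥ adM y' *ᵥ f = f2 ⬝ᵥ adM y' *ᵥ f2 + f2 ⬝ᵥ adM y' *ᵥ f1 +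
      f ⬝ᵥ adM y' *ᵥ f1 := by
    have h5 : f1 ⬝ᵥ adM y' *ᵥ f = f ⬝ᵥ adM y' *ᵥ f1 := symm hsym' f1 f
    have h6 : f ⬝ᵥ adM y' *ᵥ f = f2 ⬝ᵥ adM y' *ᵥ f + f1 ⬝ᵥ adM y' *ᵥ f := by
      conv_lhs => rw [show f ⬝ᵥ adM y' *ᵥ f = (f2 + f1) ⬝ᵥ adM y' *ᵥ f by rw [← hff]]
      rw [add_dotProduct]
    have h7 : f2 ⬝ᵥ adM y' *ᵥ f = f2 ⬝ᵥ adM y' *ᵥ f2 + f2 ⬝ᵥ adM y' *ᵥ f1 := by
      conv_lhs => rw [show adM y' *ᵥ f = adM y' *ᵥ (f2 + f1) by rw [← hff]]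
      rw [Matrix.mulVec_add, dotProduct_add]
    rw [h6, h7, h5]
  rw [e5]
  have t1 := abs_add_le (f ⬝ᵥ adM y *ᵥ f)
    (f2 ⬝ᵥ adM y' *ᵥ f2 + f2 ⬝ᵥ adM y' *ᵥ f1 + f ⬝ᵥ adM y' *ᵥ f1)
  have t2 := abs_add_le (f2 ⬝ᵥ adM y' *ᵥ f2 + f2 ⬝ᵥ adM y' *ᵥ f1) (f ⬝ᵥ adM y' *ᵥ f1)
  have t3 := abs_add_le (f2 ⬝ᵥ adM y' *ᵥ f2) (f2 ⬝ᵥ adM y' *ᵥ f1)
  nlinarith

end Pool.Agent.RCG
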