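import Pool.Agent.RCG.Targets14

set_option autoImplicit false

/-!
# RCG14: CN1, a conic has at most `p + 2` points
-/

namespace Pool.Agent.RCG

open Finset Matrix

namespace CN1_

variable {F : Type} [Field F]

/-- two matrices with a common eigenline -/
theorem deg1 (a b c d α β γ δ m : F) (h1 : a * d - b * c = 1) (h2 : α * δ - β * γ = 1)
    (h3 : α + δ = a + d) (h4 : b = c * m ^ 2 - (a - d) * m)
    (h5 : β = γ * m ^ 2 - (α - δ) * m) :
    a * α + b * γ + c * β + d * δ = 2 ∨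
      a * α + b * γ + c * β + d * δ = (a + d) ^ 2 - 2 := by
  obtain ⟨l, hl⟩ : ∃ l, l = a - c * m := ⟨_, rfl⟩
  obtain ⟨l', hl'⟩ : ∃ l', l' = d + c * m := ⟨_, rfl⟩
  obtain ⟨k, hk⟩ : ∃ k, k = α - γ * m := ⟨_, rfl⟩
  obtain ⟨k', hk'⟩ : ∃ k', k' = δ + γ * m := ⟨_, rfl⟩
  have e1 : l * l' = 1 := by
    rw [hl, hl', ← h1, h4]
    ring
  have e2 : k * k' = 1 := by
    rw [hk, hk', ← h2, h5]
    ring
  have e3 : l + l' = a + d := by
    rw [hl, hl']
    ring
  have e4 : k + k' = a + d := by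
    rw [hk, hk', ← h3]
    ring
  have e5 : a * α + b * γ + c * β + d * δ = l * k + l' * k' := by
    rw [hl, hl', hk, hk', h4, h5]
    ring
  rw [e5]
  have e6 : (k - l) * (k - l') = 0 := by
    have : k' = l + l' - k := by rw [e3, ← e4]; ring
    rw [this] at e2
    linear_combination -e2 + e1
  rcases mul_eq_zero.1 e6 with h | h
  · right
    have hkl : k = l := sub_eq_zero.1 h
    have hkl' : k' = l' := by
      have : k + k' = l + l' := by rw [e3, e4]
      rw [hkl] at this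
      exact add_left_cancel this
    rw [hkl, hkl', ← e3]
    linear_combination -2 * e1
  · left
    have hkl : k = l' := sub_eq_zero.1 h
    have hkl' : k' = l := by
      have : k + k' = l' + l := by rw [add_comm l' l, e3, e4]
      rw [hkl] at this
      exact add_left_cancel this
    rw [hkl, hkl']
    linear_combination 2 * e1

/-- no isotropic direction -/
theorem deg (a b c d α β γ δ s t u : F) (h1 : a * d - b * c = 1) (h2 : α * δ - β * γ = 1)
    (h3 : α + δ = a + d) (h4 : (a - d) * s + c * t + b * u = 0)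
    (h5 : (α - δ) * s + γ * t + β * u = 0) (h6 : s ^ 2 + t * u = 0)
    (h7 : ¬ (s = 0 ∧ t = 0 ∧ u = 0)) :
    a * α + b * γ + c * β + d * δ = 2 ∨
      a * α + b * γ + c * β + d * δ = (a + d) ^ 2 - 2 := by
  by_cases hu : u = 0
  · have hs : s = 0 := by
      rw [hu, mul_zero, add_zero] at h6
      exact pow_eq_zero_iff two_ne_zero |>.1 h6
    have ht : t ≠ 0 := fun ht => h7 ⟨hs, ht, hu⟩
    rw [hs, hu, mul_zero, mul_zero, zero_add, add_zero] at h4 h5
    have hc : c = 0 := (mul_eq_zero.1 h4).resolve_right ht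
    have hg : γ = 0 := (mul_eq_zero.1 h5).resolve_right ht
    have h := deg1 a c b d α γ β δ 0 (by rw [← h1]; ring) (by rw [← h2]; ring) h3
      (by rw [hc]; ring) (by rw [hg]; ring)
    rwa [show a * α + b * γ + c * β + d * δ = a * α + c * β + b * γ + d * δ by ring]
  · have ht : t = -(s / u) ^ 2 * u := by
      field_simp
      linear_combination h6
    have hs : s = s / u * u := by field_simp
    refine deg1 a b c d α β γ δ (s / u) h1 h2 h3 ?_ ?_
    · have h8 : ((a - d) * (s / u) - c * (s / u) ^ 2 + b) * u = 0 := by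
        rw [← h4]
        rw [ht]
        nth_rewrite 3 [hs]
        ring
      have h9 := (mul_eq_zero.1 h8).resolve_right hu
      linear_combination h9
    · have h8 : ((α - δ) * (s / u) - γ * (s / u) ^ 2 + β) * u = 0 := by
        rw [← h5]
        rw [ht]
        nth_rewrite 3 [hs]
        ring
      have h9 := (mul_eq_zero.1 h8).resolve_right hu
      linear_combination h9

/-- a plane has at most `p ^ 2` points -/
theorem plane (p : ℕ) [Fact p.Prime] (A C B : ZMod p) (h : ¬ (A = 0 ∧ C = 0 ∧ B = 0)) :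
    (univ.filter fun v : ZMod p × ZMod p × ZMod p =>
      A * v.1 + C * v.2.1 + B * v.2.2 = 0).card ≤ p ^ 2 := by
  have hc : (univ : Finset (ZMod p × ZMod p)).card = p ^ 2 := by
    rw [card_univ, Fintype.card_prod, ZMod.card, sq]
  rw [← hc]
  by_cases hA : A = 0
  · by_cases hC : C = 0
    · have hB : B ≠ 0 := fun hB => h ⟨hA, hC, hB⟩
      refine card_le_card_of_injOn (fun v => (v.1, v.2.1)) (fun _ _ => mem_coe.2 (mem_univ _)) ?_
      rintro ⟨s, t, u⟩ hv ⟨s', t', u'⟩ hv' he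
      simp only [coe_filter, mem_univ, true_and, Set.mem_ofPred_eq] at hv hv'
      obtain ⟨rfl, rfl⟩ := Prod.mk.inj he
      have e : B * (u - u') = 0 := by linear_combination hv - hv'
      have := (mul_eq_zero.1 e).resolve_left hB
      rw [sub_eq_zero.1 this]
    · refine card_le_card_of_injOn (fun v => (v.1, v.2.2)) (fun _ _ => mem_coe.2 (mem_univ _)) ?_
      rintro ⟨s, t, u⟩ hv ⟨s', t', u'⟩ hv' he
      simp only [coe_filter, mem_univ, true_and, Set.mem_ofPred_eq] at hv hv'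
      obtain ⟨rfl, rfl⟩ := Prod.mk.inj he
      have e : C * (t - t') = 0 := by linear_combination hv - hv'
      have := (mul_eq_zero.1 e).resolve_left hC
      rw [sub_eq_zero.1 this]
  · refine card_le_card_of_injOn (fun v => (v.2.1, v.2.2)) (fun _ _ => mem_coe.2 (mem_univ _)) ?_
    rintro ⟨s, t, u⟩ hv ⟨s', t', u'⟩ hv' he
    simp only [coe_filter, mem_univ, true_and, Set.mem_ofPred_eq] at hv hv'
    obtain ⟨rfl, rfl⟩ := Prod.mk.inj he
    have e : A * (s - s') = 0 := by linear_combination hv - hv'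
    have := (mul_eq_zero.1 e).resolve_left hA
    rw [sub_eq_zero.1 this]

theorem tr_mul {p : ℕ} (x y : SL 2 p) : (x * y).1 0 0 + (x * y).1 1 1 =
    x.1 0 0 * y.1 0 0 + x.1 0 1 * y.1 1 0 + x.1 1 0 * y.1 0 1 + x.1 1 1 * y.1 1 1 := by
  have e : (x * y).1 = x.1 * y.1 := rfl
  rw [e, Matrix.mul_apply, Matrix.mul_apply, Fin.sum_univ_two, Fin.sum_univ_two]
  ring

theorem det_eq {p : ℕ} (x : SL 2 p) : x.1 0 0 * x.1 1 1 - x.1 0 1 * x.1 1 0 = 1 := by
  have := x.2
  rwa [Matrix.det_fin_two] at this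

end CN1_

open CN1_ in
/-- **CN1** -/
theorem prove_CN1 : T_CN1 := by
  classical
  intro p _ hp x ρ hx1 hx2 hρ1 hρ2
  have hp2 : 2 ≤ p := (Fact.out : p.Prime).two_le
  rw [Nat.card_eq_fintype_card, Fintype.card_subtype]
  set S : Finset (SL 2 p) := univ.filter fun y : SL 2 p =>
    y.1 0 0 + y.1 1 1 = x.1 0 0 + x.1 1 1 ∧ (x * y).1 0 0 + (x * y).1 1 1 = ρ with hS
  have memS : ∀ y, y ∈ S ↔ y.1 0 0 + y.1 1 1 = x.1 0 0 + x.1 1 1 ∧
      x.1 0 0 * y.1 0 0 + x.1 0 1 * y.1 1 0 + x.1 1 0 * y.1 0 1 + x.1 1 1 * y.1 1 1 = ρ := by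
    intro y
    rw [hS, mem_filter, tr_mul]
    simp only [mem_univ, true_and]
  rcases S.eq_empty_or_nonempty with hS0 | ⟨y0, hy0⟩
  · rw [hS0, card_empty]
    omega
  obtain ⟨q1, q2⟩ := (memS y0).1 hy0
  have hdx := det_eq x
  have hdy := det_eq y0
  have hns : ¬ (x.1 0 0 - x.1 1 1 = 0 ∧ x.1 1 0 = 0 ∧ x.1 0 1 = 0) := by
    rintro ⟨h1, h2, h3⟩
    rw [h2, h3, mul_zero, sub_zero, ← sub_eq_zero.1 h1] at hdx
    rw [← sub_eq_zero.1 h1] at hx1 hx2
    have h4 : (x.1 0 0 - 1) * (x.1 0 0 + 1) = 0 := by linear_combination hdx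
    rcases mul_eq_zero.1 h4 with h5 | h5
    · apply hx1
      linear_combination 2 * h5
    · apply hx2
      linear_combination 2 * h5
  set W : Finset (ZMod p × ZMod p × ZMod p) := univ.filter fun v =>
    (x.1 0 0 - x.1 1 1) * v.1 + x.1 1 0 * v.2.1 + x.1 0 1 * v.2.2 = 0 with hW
  have hWc : W.card ≤ p ^ 2 := plane p _ _ _ hns
  have hW0 : (0 : ZMod p × ZMod p × ZMod p) ∈ W := by
    rw [hW, mem_filter]
    simp
  -- the differences
  have hdiff : ∀ y ∈ S, (x.1 0 0 - x.1 1 1) * (y.1 0 0 - y0.1 0 0) +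
      x.1 1 0 * (y.1 0 1 - y0.1 0 1) + x.1 0 1 * (y.1 1 0 - y0.1 1 0) = 0 ∧
      (y0.1 0 0 - y0.1 1 1) * (y.1 0 0 - y0.1 0 0) + y0.1 1 0 * (y.1 0 1 - y0.1 0 1) +
      y0.1 0 1 * (y.1 1 0 - y0.1 1 0) =
        -((y.1 0 0 - y0.1 0 0) ^ 2 + (y.1 0 1 - y0.1 0 1) * (y.1 1 0 - y0.1 1 0)) := by
    intro y hy
    obtain ⟨r1, r2⟩ := (memS y).1 hy
    have r3 := det_eq y
    have r4 : y.1 1 1 = y0.1 0 0 + y0.1 1 1 - y.1 0 0 := by linear_combination r1 - q1
    refine ⟨?_, ?_⟩
    · rw [r4] at r2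
      linear_combination r2 - q2
    · rw [r4] at r3
      linear_combination -r3 + hdy
  have hneq : ∀ y ∈ S, y ≠ y0 → ¬ (y.1 0 0 - y0.1 0 0 = 0 ∧ y.1 0 1 - y0.1 0 1 = 0 ∧
      y.1 1 0 - y0.1 1 0 = 0) := by
    rintro y hy hne ⟨e1, e2, e3⟩
    obtain ⟨r1, -⟩ := (memS y).1 hy
    apply hne
    have e4 : y.1 1 1 - y0.1 1 1 = 0 := by linear_combination r1 - q1 - e1
    apply Subtype.ext
    ext i j
    fin_cases i <;> fin_cases j
    · exact sub_eq_zero.1 e1
    · exact sub_eq_zero.1 e2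
    · exact sub_eq_zero.1 e3
    · exact sub_eq_zero.1 e4
  have hq : ∀ y ∈ S, y ≠ y0 →
      (y.1 0 0 - y0.1 0 0) ^ 2 + (y.1 0 1 - y0.1 0 1) * (y.1 1 0 - y0.1 1 0) ≠ 0 := by
    intro y hy hne h0
    obtain ⟨r1, r2⟩ := hdiff y hy
    rw [h0, neg_zero] at r2
    have h := deg (x.1 0 0) (x.1 0 1) (x.1 1 0) (x.1 1 1) (y0.1 0 0) (y0.1 0 1) (y0.1 1 0)
      (y0.1 1 1) _ _ _ hdx hdy q1 r1 r2 h0 (hneq y hy hne)
    rw [q2] at h
    rcases h with h | h
    · exact hρ1 h
    · exact hρ2 h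
  -- the count
  set U : Finset (ZMod p) := univ.erase 0 with hU
  have hUc : U.card = p - 1 := by
    rw [hU, card_erase_of_mem (mem_univ _), card_univ, ZMod.card]
  have hinj : ((S.erase y0) ×ˢ U).card ≤ (W.erase 0).card := by
    refine card_le_card_of_injOn (fun z => (z.2 * (z.1.1 0 0 - y0.1 0 0),
      z.2 * (z.1.1 0 1 - y0.1 0 1), z.2 * (z.1.1 1 0 - y0.1 1 0))) ?_ ?_
    · rintro ⟨y, s⟩ hz
      rw [mem_coe, mem_product, mem_erase, hU, mem_erase] at hz
      obtain ⟨⟨hy1, hy2⟩, hs, -⟩ := hz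
      simp only at hy1 hy2 hs
      rw [mem_coe, mem_erase, hW, mem_filter]
      refine ⟨fun h0 => ?_, mem_univ _, ?_⟩
      · have h1 := congrArg (fun v : ZMod p × ZMod p × ZMod p => v.1) h0
        have h2 := congrArg (fun v : ZMod p × ZMod p × ZMod p => v.2.1) h0
        have h3 := congrArg (fun v : ZMod p × ZMod p × ZMod p => v.2.2) h0
        simp only [Prod.fst_zero, Prod.snd_zero] at h1 h2 h3
        exact hneq y hy2 hy1 ⟨(mul_eq_zero.1 h1).resolve_left hs,
          (mul_eq_zero.1 h2).resolve_left hs, (mul_eq_zero.1 h3).resolve_left hs⟩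
      · have := (hdiff y hy2).1
        simp only
        linear_combination s * this
    · rintro ⟨y, s⟩ hz ⟨y', s'⟩ hz' he
      rw [mem_coe, mem_product, mem_erase, hU, mem_erase] at hz hz'
      obtain ⟨⟨hy1, hy2⟩, hs, -⟩ := hz
      obtain ⟨⟨hy1', hy2'⟩, hs', -⟩ := hz'
      simp only at hy1 hy2 hs hy1' hy2' hs'
      have h1 := congrArg (fun v : ZMod p × ZMod p × ZMod p => v.1) he
      have h2 := congrArg (fun v : ZMod p × ZMod p × ZMod p => v.2.1) he
      have h3 := congrArg (fun v : ZMod p × ZMod p × ZMod p => v.2.2) he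
      simp only at h1 h2 h3
      have k1 := (hdiff y hy2).2
      have k2 := (hdiff y' hy2').2
      have k3 := hq y' hy2' hy1'
      set A := y.1 0 0 - y0.1 0 0
      set C := y.1 0 1 - y0.1 0 1
      set B := y.1 1 0 - y0.1 1 0
      set A' := y'.1 0 0 - y0.1 0 0
      set C' := y'.1 0 1 - y0.1 0 1
      set B' := y'.1 1 0 - y0.1 1 0
      have k4 : s' * (s - s') * (A' ^ 2 + C' * B') = 0 := by
        have m1 : s ^ 2 * (A ^ 2 + C * B) = s' ^ 2 * (A' ^ 2 + C' * B') := by
          have : (s * A) ^ 2 + (s * C) * (s * B) = (s' * A') ^ 2 + (s' * C') * (s' * B') := by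
            rw [h1, h2, h3]
          linear_combination this
        have m2 : s * (A ^ 2 + C * B) = s' * (A' ^ 2 + C' * B') := by
          linear_combination s * k1 - s' * k2 - (y0.1 0 0 - y0.1 1 1) * h1 - y0.1 1 0 * h2 -
            y0.1 0 1 * h3
        linear_combination m1 - s * m2
      have k5 : s = s' := by
        rcases mul_eq_zero.1 k4 with k | k
        · exact sub_eq_zero.1 ((mul_eq_zero.1 k).resolve_left hs')
        · exact absurd k k3
      subst k5
      have n1 : A = A' := mul_left_cancel₀ hs h1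
      have n2 : C = C' := mul_left_cancel₀ hs h2
      have n3 : B = B' := mul_left_cancel₀ hs h3
      have hyy : y = y' := by
        obtain ⟨r1, -⟩ := (memS y).1 hy2
        obtain ⟨r1', -⟩ := (memS y').1 hy2'
        have e1 : y.1 0 0 = y'.1 0 0 := sub_left_injective n1
        have e2 : y.1 0 1 = y'.1 0 1 := sub_left_injective n2
        have e3 : y.1 1 0 = y'.1 1 0 := sub_left_injective n3
        have e4 : y.1 1 1 = y'.1 1 1 := by linear_combination r1 - r1' - e1
        apply Subtype.ext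
        ext i j
        fin_cases i <;> fin_cases j
        · exact e1
        · exact e2
        · exact e3
        · exact e4
      rw [hyy]
  rw [card_product, hUc, card_erase_of_mem hy0, card_erase_of_mem hW0] at hinj
  by_contra hcon
  rw [not_le] at hcon
  have h1 : (p + 2) * (p - 1) ≤ (S.card - 1) * (p - 1) := Nat.mul_le_mul_right _ (by omega)
  have h2 : (p + 2) * (p - 1) ≤ p ^ 2 - 1 := h1.trans (hinj.trans (Nat.sub_le_sub_right hWc 1))
  obtain ⟨r, rfl⟩ : ∃ r, p = r + 2 := ⟨p - 2, by omega⟩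
  have h3 : (r + 2 + 2) * (r + 2 - 1) + 1 ≤ (r + 2) ^ 2 := by
    have : 1 ≤ (r + 2) ^ 2 := Nat.one_le_pow _ _ (by omega)
    omega
  have h4 : r + 2 - 1 = r + 1 := by omega
  rw [h4] at h3
  nlinarith

end Pool.Agent.RCG
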