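import Pool.Agent.RCG.Targets14

set_option autoImplicit false

/-!
# RCG: number of the matrices of given trace (CN2)
-/

namespace Pool.Agent.RCG

open Finset Matrix

namespace CN2_

variable {p : ℕ} [Fact p.Prime]

/-- the matrix with given diagonal and right upper entry -/
noncomputable def mt (τ : ZMod p) (x : ZMod p × (ZMod p)ˣ) : SL 2 p :=
  ⟨!![x.1, (x.2 : ZMod p); (x.1 * (τ - x.1) - 1) * (x.2⁻¹ : (ZMod p)ˣ), τ - x.1], by
    rw [Matrix.det_fin_two_of]
    have h : (x.2 : ZMod p) * ((x.2⁻¹ : (ZMod p)ˣ) : ZMod p) = 1 := x.2.mul_inv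
    linear_combination (-(x.1 * (τ - x.1) - 1)) * h⟩

theorem mt_trace (τ : ZMod p) (x : ZMod p × (ZMod p)ˣ) :
    (mt τ x).1 0 0 + (mt τ x).1 1 1 = τ := by
  show x.1 + (τ - x.1) = τ
  ring

theorem mt_inj (τ : ZMod p) : Function.Injective (mt τ) := by
  rintro ⟨a, u⟩ ⟨a', u'⟩ h
  have h1 : (mt τ (a, u)).1 0 0 = (mt τ (a', u')).1 0 0 := by rw [h]
  have h2 : (mt τ (a, u)).1 0 1 = (mt τ (a', u')).1 0 1 := by rw [h]
  have h1' : a = a' := h1
  have h2' : (u : ZMod p) = u' := h2
  exact Prod.ext h1' (Units.ext h2')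

/-- the roots -/
def Rt (τ : ZMod p) : Finset (ZMod p) := univ.filter fun a => a * (τ - a) = 1

theorem rt_card (τ : ZMod p) : (Rt τ).card ≤ 2 := by
  rcases (Rt τ).eq_empty_or_nonempty with h | ⟨a, ha⟩
  · rw [h]; simp
  · have hsub : Rt τ ⊆ {a, τ - a} := by
      intro b hb
      have h1 : a * (τ - a) = 1 := (Finset.mem_filter.1 ha).2
      have h2 : b * (τ - b) = 1 := (Finset.mem_filter.1 hb).2
      have h3 : (b - a) * (τ - a - b) = 0 := by linear_combination h2 - h1
      rw [Finset.mem_insert, Finset.mem_singleton]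
      rcases mul_eq_zero.1 h3 with h4 | h4
      · exact Or.inl (sub_eq_zero.1 h4)
      · exact Or.inr (sub_eq_zero.1 h4).symm
    exact (Finset.card_le_card hsub).trans Finset.card_le_two

theorem det_eq (y : SL 2 p) : y.1 0 0 * y.1 1 1 - y.1 0 1 * y.1 1 0 = 1 := by
  have h := y.2
  rwa [Matrix.det_fin_two] at h

/-- the target of the injection for the upper bound -/
def Tg (τ : ZMod p) : Finset ((ZMod p × ZMod p) ⊕ (ZMod p × ZMod p)) :=
  (univ ×ˢ univ.erase 0).disjSum (Rt τ ×ˢ univ)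

theorem tg_card (τ : ZMod p) : (Tg τ).card ≤ p ^ 2 + p := by
  have hp : 1 ≤ p := (Fact.out : p.Prime).one_le
  unfold Tg
  rw [Finset.card_disjSum, Finset.card_product, Finset.card_product,
    Finset.card_erase_of_mem (Finset.mem_univ _), Finset.card_univ, ZMod.card]
  have h := rt_card τ
  obtain ⟨q, rfl⟩ : ∃ q, p = q + 1 := ⟨p - 1, by omega⟩
  rw [Nat.add_sub_cancel]
  nlinarith

end CN2_

open CN2_ in
theorem prove_CN2 : T_CN2 := by
  classical
  intro p _ τ
  constructor
  · have h1 : Fintype.card (ZMod p × (ZMod p)ˣ) ≤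
        Nat.card {y : SL 2 p // y.1 0 0 + y.1 1 1 = τ} := by
      rw [Nat.card_eq_fintype_card]
      refine Fintype.card_le_of_injective (fun x => ⟨mt τ x, mt_trace τ x⟩) ?_
      intro x x' h
      exact mt_inj τ (congrArg Subtype.val h)
    rw [Fintype.card_prod, ZMod.card, ZMod.card_units] at h1
    have hp : 1 ≤ p := (Fact.out : p.Prime).one_le
    obtain ⟨q, hq⟩ : ∃ q, p = q + 1 := ⟨p - 1, by omega⟩
    have h2 : p * (p - 1) + p = p ^ 2 := by
      rw [hq, Nat.add_sub_cancel]
      ring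
    omega
  · refine le_trans ?_ (tg_card τ)
    rw [Nat.card_eq_fintype_card, ← Fintype.card_coe]
    let f : {y : SL 2 p // y.1 0 0 + y.1 1 1 = τ} →
        (ZMod p × ZMod p) ⊕ (ZMod p × ZMod p) := fun y =>
      if y.1.1 0 1 = 0 then Sum.inr (y.1.1 0 0, y.1.1 1 0) else Sum.inl (y.1.1 0 0, y.1.1 0 1)
    have hf : ∀ y, f y ∈ Tg τ := by
      intro y
      have hd := det_eq y.1
      have ht := y.2
      simp only [f]
      split_ifs with h0
      · refine Finset.inr_mem_disjSum.2 (Finset.mem_product.2 ⟨?_, Finset.mem_univ _⟩)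
        refine Finset.mem_filter.2 ⟨Finset.mem_univ _, ?_⟩
        rw [h0] at hd
        show y.1.1 0 0 * (τ - y.1.1 0 0) = 1
        linear_combination hd - y.1.1 0 0 * ht
      · refine Finset.inl_mem_disjSum.2 (Finset.mem_product.2 ⟨Finset.mem_univ _, ?_⟩)
        exact Finset.mem_erase.2 ⟨h0, Finset.mem_univ _⟩
    refine Fintype.card_le_of_injective (fun y => (⟨f y, hf y⟩ : Tg τ)) ?_
    intro y y' h
    have hff : f y = f y' := congrArg Subtype.val h
    have hd := det_eq y.1
    have hd' := det_eq y'.1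
    have ht := y.2
    have ht' := y'.2
    have key : y.1.1 0 0 = y'.1.1 0 0 ∧ y.1.1 0 1 = y'.1.1 0 1 ∧ y.1.1 1 0 = y'.1.1 1 0 := by
      simp only [f] at hff
      split_ifs at hff with h0 h0' h0'
      · have h2 := Sum.inr.inj hff
        have h3 := (Prod.mk.injEq _ _ _ _).mp h2
        exact ⟨h3.1, h0.trans h0'.symm, h3.2⟩
      · have h2 := Sum.inl.inj hff
        have h3 := (Prod.mk.injEq _ _ _ _).mp h2
        refine ⟨h3.1, h3.2, ?_⟩
        have h4 : y.1.1 0 1 * y.1.1 1 0 = y.1.1 0 1 * y'.1.1 1 0 := by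
          have e1 : y.1.1 1 1 = y'.1.1 1 1 := by linear_combination ht - ht' - h3.1
          rw [e1, h3.1] at hd
          have e2 := h3.2
          linear_combination hd' - hd - y'.1.1 1 0 * e2
        exact mul_left_cancel₀ h0 h4
    have e1 : y.1.1 1 1 = y'.1.1 1 1 := by linear_combination ht - ht' - key.1
    refine Subtype.ext (Subtype.ext ?_)
    ext i j
    fin_cases i <;> fin_cases j
    · exact key.1
    · exact key.2.1
    · exact key.2.2
    · exact e1

end Pool.Agent.RCG
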