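import Pool.Agent.RCG.Targets11

set_option autoImplicit false

/-!
# RCG: the count (target CNB)
-/

namespace Pool.Agent.RCG

open Finset Matrix

theorem CNB_card {W : Type} [Fintype W] (A : W → Prop) [DecidablePred A] :
    (Nat.card {w // A w} : ℝ) = ∑ w, if A w then (1 : ℝ) else 0 := by
  rw [Nat.card_eq_fintype_card, Fintype.card_subtype, Finset.card_filter]
  push_cast
  rfl

theorem CNB_cnt {V W : Type} [Fintype V] [Fintype W] (P : V × W → Prop) (A1 : W → Prop)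
    (A2 A3 : V → Prop) (A4 : V → W → Prop) (X : ℝ)
    (h : ∀ v w, P (v, w) → A1 w ∨ A2 v ∨ A3 v ∨ A4 v w)
    (hX : ∀ v, (Nat.card {w // A4 v w} : ℝ) ≤ X * Fintype.card W) :
    (Nat.card {x // P x} : ℝ) ≤ Nat.card {w // A1 w} * (Fintype.card V : ℝ) +
      Nat.card {v // A2 v} * (Fintype.card W : ℝ) + Nat.card {v // A3 v} * (Fintype.card W : ℝ) +
      X * ((Fintype.card V : ℝ) * (Fintype.card W : ℝ)) := by
  classical
  rw [CNB_card P, CNB_card A1, CNB_card A2, CNB_card A3, Fintype.sum_prod_type]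
  have h1 : ∀ v w, (if P (v, w) then (1 : ℝ) else 0) ≤ (if A1 w then (1 : ℝ) else 0) +
      (if A2 v then (1 : ℝ) else 0) + (if A3 v then (1 : ℝ) else 0) +
      (if A4 v w then (1 : ℝ) else 0) := by
    intro v w
    have hn : ∀ (Q : Prop) [Decidable Q], (0 : ℝ) ≤ if Q then (1 : ℝ) else 0 := by
      intro Q _
      split_ifs <;> norm_num
    have n1 := hn (A1 w)
    have n2 := hn (A2 v)
    have n3 := hn (A3 v)
    have n4 := hn (A4 v w)
    by_cases hP : P (v, w)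
    · rw [if_pos hP]
      rcases h v w hP with h2 | h2 | h2 | h2
      · rw [if_pos h2]; linarith
      · rw [if_pos h2]; linarith
      · rw [if_pos h2]; linarith
      · rw [if_pos h2]; linarith
    · rw [if_neg hP]
      linarith
  calc ∑ v, ∑ w, (if P (v, w) then (1 : ℝ) else 0)
      ≤ ∑ v, ∑ w, ((if A1 w then (1 : ℝ) else 0) +
      (if A2 v then (1 : ℝ) else 0) + (if A3 v then (1 : ℝ) else 0) +
      (if A4 v w then (1 : ℝ) else 0)) :=
        Finset.sum_le_sum fun v _ => Finset.sum_le_sum fun w _ => h1 v w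
    _ = (∑ w, if A1 w then (1 : ℝ) else 0) * Fintype.card V +
        (∑ v, if A2 v then (1 : ℝ) else 0) * Fintype.card W +
        (∑ v, if A3 v then (1 : ℝ) else 0) * Fintype.card W +
        ∑ v, ∑ w, (if A4 v w then (1 : ℝ) else 0) := by
        simp only [Finset.sum_add_distrib, Finset.sum_const, Finset.card_univ, nsmul_eq_mul,
          ← Finset.mul_sum]
        ring
    _ ≤ _ := by
        gcongr
        calc ∑ v, ∑ w, (if A4 v w then (1 : ℝ) else 0) ≤ ∑ _v : V, X * (Fintype.card W : ℝ) := by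
              refine Finset.sum_le_sum fun v _ => ?_
              rw [← CNB_card (A4 v)]
              exact hX v
          _ = _ := by
              rw [Finset.sum_const, Finset.card_univ, nsmul_eq_mul]
              ring

theorem prove_CNB (h1 : T_NUM) (h2 : T_PR9) (h3 : T_CAV) : T_CNB := by
  intro p _ d' d1 n q R l0 B1 B2 u κ X hp hd' hn hn2 hq hR hRl hB1 hu hκ hX hexc
  have hQ : ∀ y' : Fin d' → SL 2 p, ∃ Q : Matrix (SL 2 p) (SL 2 p) ℝ,
      (∀ m ≤ n, ¬ Rel m y') → Pj Q ∧ LI Q ∧ NB Q (nu7 d' n p R) ∧ RSV y' Q R := by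
    intro y'
    by_cases hy : ∀ m ≤ n, ¬ Rel m y'
    · obtain ⟨Q, hQ⟩ := h2 (SL 2 p) d' n y' R _ hR hn hn2 (h1 p d' n hp hd' y' (hy n le_rfl))
      exact ⟨Q, fun _ => hQ⟩
    · exact ⟨0, fun h => absurd h hy⟩
  choose Qf hQf using hQ
  have hcard : ∀ d : ℕ, (Fintype.card (Fin d → SL 2 p) : ℝ) = (Fintype.card (SL 2 p) : ℝ) ^ d := by
    intro d
    rw [Fintype.card_pi_const]
    push_cast
    rfl
  have key := CNB_cnt (V := Fin d' → SL 2 p) (W := Fin d1 → SL 2 p)
    (fun ya => ¬ BG ya.1 ya.2 l0 (rr l0 R B1 u κ)) (fun a => ¬ QB a B1) (fun y' => ¬ QB y' B2)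
    (fun y' => ∃ m ≤ n, Rel m y')
    (fun y' a => ((∀ m ≤ n, ¬ Rel m y') ∧ QB y' B2) ∧ ¬ Frs (Qf y') y' a q l0 R u κ) X ?_ ?_
  · rw [hcard, hcard] at key
    unfold badCard
    rw [pow_add]
    exact key
  · intro y' a hbg
    by_cases c1 : QB a B1
    · by_cases c2 : QB y' B2
      · by_cases c3 : ∃ m ≤ n, Rel m y'
        · exact Or.inr (Or.inr (Or.inl c3))
        · right; right; right
          push Not at c3
          refine ⟨⟨c3, c2⟩, fun hF => hbg ?_⟩
          obtain ⟨q1, _, _, q4⟩ := hQf y' c3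
          exact h3 (SL 2 p) d' d1 q y' a (Qf y') R l0 B1 u κ hq hR hRl hB1 hu hκ q1 q4 c1
            hF.1 hF.2
      · exact Or.inr (Or.inl c2)
    · exact Or.inl c1
  · intro y'
    rw [hcard]
    by_cases hy : (∀ m ≤ n, ¬ Rel m y') ∧ QB y' B2
    · obtain ⟨q1, q2, q3, _⟩ := hQf y' hy.1
      refine le_trans (le_of_eq ?_) (hexc y' hy.1 hy.2 (Qf y') q1 q2 q3)
      have : ∀ a : Fin d1 → SL 2 p, (((∀ m ≤ n, ¬ Rel m y') ∧ QB y' B2) ∧
          ¬ Frs (Qf y') y' a q l0 R u κ) ↔ ¬ Frs (Qf y') y' a q l0 R u κ :=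
        fun a => ⟨fun h => h.2, fun h => ⟨hy, h⟩⟩
      exact_mod_cast Nat.card_congr (Equiv.subtypeEquivRight this)
    · have : IsEmpty {a : Fin d1 → SL 2 p // ((∀ m ≤ n, ¬ Rel m y') ∧ QB y' B2) ∧
          ¬ Frs (Qf y') y' a q l0 R u κ} := ⟨fun a => hy a.2.1⟩
      rw [Nat.card_of_isEmpty]
      push_cast
      positivity

end Pool.Agent.RCG
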