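import Pool.Agent.RCG.Targets4

set_option autoImplicit false

/-!
# RCG: GSM, the sum of two blocks of generators
-/

namespace Pool.Agent.RCG

open Finset Matrix

namespace GSM_

variable {G : Type} [Group G]

theorem adj_append {d d' : ℕ} (y : Fin d → G) (y' : Fin d' → G) (f : G → ℝ) (x : G) :
    adj (Fin.append y y') f x = adj y f x + adj y' f x := by
  unfold adj
  rw [Fin.sum_univ_add]
  simp only [Fin.append_left, Fin.append_right]

variable [Fintype G]

theorem qb_append {d d' : ℕ} (y : Fin d → G) (y' : Fin d' → G) (B B' : ℝ) (h : QB y B)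
    (h' : QB y' B') : QB (Fin.append y y') (B + B') := by
  intro f hf
  have h1 := h f hf
  have h2 := h' f hf
  have h3 : ∑ x, f x * adj (Fin.append y y') f x =
      ∑ x, f x * adj y f x + ∑ x, f x * adj y' f x := by
    rw [← Finset.sum_add_distrib]
    exact Finset.sum_congr rfl fun x _ => by rw [adj_append, mul_add]
  rw [h3, add_mul]
  exact (abs_add_le _ _).trans (add_le_add h1 h2)

theorem qb_mono {d : ℕ} (y : Fin d → G) (B B' : ℝ) (hB : B ≤ B') (h : QB y B) : QB y B' :=
  fun f hf => (h f hf).trans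
    (mul_le_mul_of_nonneg_right hB (Finset.sum_nonneg fun _ _ => sq_nonneg _))

theorem bad_mono (d : ℕ) (B B' : ℝ) (hB : B ≤ B') : badCard G d B' ≤ badCard G d B := by
  unfold badCard
  exact Nat.card_le_card_of_injective
    (fun y : {y : Fin d → G // ¬ QB y B'} =>
      (⟨y.1, fun h => y.2 (qb_mono y.1 B B' hB h)⟩ : {y : Fin d → G // ¬ QB y B}))
    fun y z h => Subtype.ext (Subtype.mk.inj h)

theorem bad_append (d d' : ℕ) (B B' : ℝ) :
    badCard G (d + d') (B + B') ≤ badCard G d B * Fintype.card G ^ d' +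
      Fintype.card G ^ d * badCard G d' B' := by
  classical
  have h1 : badCard G d B * Fintype.card G ^ d' + Fintype.card G ^ d * badCard G d' B' =
      Nat.card (({y : Fin d → G // ¬ QB y B} × (Fin d' → G)) ⊕
        ((Fin d → G) × {y : Fin d' → G // ¬ QB y B'})) := by
    rw [Nat.card_sum, Nat.card_prod, Nat.card_prod]
    unfold badCard
    simp [Nat.card_eq_fintype_card]
  rw [h1]
  unfold badCard
  let F : {y : Fin (d + d') → G // ¬ QB y (B + B')} →
      (({y : Fin d → G // ¬ QB y B} × (Fin d' → G)) ⊕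
        ((Fin d → G) × {y : Fin d' → G // ¬ QB y B'})) := fun y =>
    if h : QB (fun i => y.1 (Fin.castAdd d' i)) B then
      Sum.inr (fun i => y.1 (Fin.castAdd d' i), ⟨fun i => y.1 (Fin.natAdd d i), fun h' =>
        y.2 (by
          have e := qb_append _ _ B B' h h'
          rwa [Fin.append_castAdd_natAdd] at e)⟩)
    else Sum.inl (⟨fun i => y.1 (Fin.castAdd d' i), h⟩, fun i => y.1 (Fin.natAdd d i))
  refine Nat.card_le_card_of_injective F ?_
  intro y z hyz
  have key : (fun i => y.1 (Fin.castAdd d' i)) = (fun i => z.1 (Fin.castAdd d' i)) ∧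
      (fun i => y.1 (Fin.natAdd d i)) = (fun i => z.1 (Fin.natAdd d i)) := by
    simp only [F] at hyz
    split_ifs at hyz with h1 h2 h2
    · have := Sum.inr_injective hyz
      rw [Prod.mk.injEq, Subtype.mk.injEq] at this
      exact this
    · have := Sum.inl_injective hyz
      rw [Prod.mk.injEq, Subtype.mk.injEq] at this
      exact this
  refine Subtype.ext ?_
  have e1 := Fin.append_castAdd_natAdd (f := y.1)
  have e2 := Fin.append_castAdd_natAdd (f := z.1)
  rw [← e1, ← e2, key.1, key.2]

end GSM_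

open GSM_ in
theorem prove_GSM : T_GSM := by
  intro I G _ _ q a d d' B B'
  constructor
  · rintro ⟨K, P, h⟩ ⟨K', P', h'⟩
    refine ⟨K + K', max P P', fun i hi => ?_⟩
    have h1 := h i ((le_max_left _ _).trans hi)
    have h2 := h' i ((le_max_right _ _).trans hi)
    have h3 : (badCard (G i) (d + d') (B + B') : ℝ) ≤
        badCard (G i) d B * (Fintype.card (G i) : ℝ) ^ d' +
          (Fintype.card (G i) : ℝ) ^ d * badCard (G i) d' B' := by
      exact_mod_cast bad_append (G := G i) d d' B B'
    refine h3.trans ?_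
    have hc : ∀ n : ℕ, 0 ≤ (Fintype.card (G i) : ℝ) ^ n := fun n => by positivity
    calc (badCard (G i) d B : ℝ) * (Fintype.card (G i) : ℝ) ^ d' +
          (Fintype.card (G i) : ℝ) ^ d * badCard (G i) d' B' ≤
        (K * (q i) ^ (-a) * (Fintype.card (G i) : ℝ) ^ d) * (Fintype.card (G i) : ℝ) ^ d' +
          (Fintype.card (G i) : ℝ) ^ d *
            (K' * (q i) ^ (-a) * (Fintype.card (G i) : ℝ) ^ d') :=
          add_le_add (mul_le_mul_of_nonneg_right h1 (hc _))
            (mul_le_mul_of_nonneg_left h2 (hc _))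
      _ = (K + K') * (q i) ^ (-a) * (Fintype.card (G i) : ℝ) ^ (d + d') := by
          rw [pow_add]
          ring
  · rintro hB ⟨K, P, h⟩
    refine ⟨K, P, fun i hi => le_trans ?_ (h i hi)⟩
    exact_mod_cast bad_mono (G := G i) d B B' hB

end Pool.Agent.RCG
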