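import Pool.Agent.RCG.Targets7
import Pool.Agent.RCG.GSM

set_option autoImplicit false

/-!
# RCG: counting (target T_CNS)
-/

namespace Pool.Agent.RCG

open Finset Matrix

namespace CNS_

/-- the number of bad tuples of length `d + d` -/
theorem count {G : Type} [Group G] [Fintype G] {d : ℕ} {t B W : ℝ} (P : (Fin d → G) → Prop)
    (Q : {y : Fin d → G // ¬ P y} → Matrix G G ℝ)
    (h : ∀ (y : {y : Fin d → G // ¬ P y}) (y' : Fin d → G), QB y.1 B → QB y' B →
      OB y' (Q y) W → QB (Fin.append y.1 y') t) (M : ℝ) (hM0 : 0 ≤ M)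
    (hM : ∀ y, (Nat.card {y' : Fin d → G // ¬ OB y' (Q y) W} : ℝ) ≤ M) :
    (badCard G (d + d) t : ℝ) ≤ 2 * badCard G d B * (Fintype.card G : ℝ) ^ d +
      (Nat.card {y : Fin d → G // P y} : ℝ) * (Fintype.card G : ℝ) ^ d +
      (Fintype.card G : ℝ) ^ d * M := by
  classical
  have hcG : Nat.card (Fin d → G) = Fintype.card G ^ d := by
    simp [Nat.card_eq_fintype_card]
  let F : {z : Fin (d + d) → G // ¬ QB z t} →
      (({y : Fin d → G // ¬ QB y B} × (Fin d → G)) ⊕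
        ((Fin d → G) × {y : Fin d → G // ¬ QB y B})) ⊕
      (({y : Fin d → G // P y} × (Fin d → G)) ⊕
        (Σ y : {y : Fin d → G // ¬ P y}, {y' : Fin d → G // ¬ OB y' (Q y) W})) := fun z =>
    if h1 : QB (fun i => z.1 (Fin.castAdd d i)) B then
      if h2 : QB (fun i => z.1 (Fin.natAdd d i)) B then
        if h3 : P (fun i => z.1 (Fin.castAdd d i)) then
          Sum.inr (Sum.inl (⟨fun i => z.1 (Fin.castAdd d i), h3⟩, fun i => z.1 (Fin.natAdd d i)))
        else Sum.inr (Sum.inr ⟨⟨fun i => z.1 (Fin.castAdd d i), h3⟩,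
          ⟨fun i => z.1 (Fin.natAdd d i), fun h4 => z.2 (by
            have e := h ⟨fun i => z.1 (Fin.castAdd d i), h3⟩ (fun i => z.1 (Fin.natAdd d i))
              h1 h2 h4
            rwa [Fin.append_castAdd_natAdd] at e)⟩⟩)
      else Sum.inl (Sum.inr (fun i => z.1 (Fin.castAdd d i), ⟨fun i => z.1 (Fin.natAdd d i), h2⟩))
    else Sum.inl (Sum.inl (⟨fun i => z.1 (Fin.castAdd d i), h1⟩, fun i => z.1 (Fin.natAdd d i)))
  let pr : (({y : Fin d → G // ¬ QB y B} × (Fin d → G)) ⊕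
        ((Fin d → G) × {y : Fin d → G // ¬ QB y B})) ⊕
      (({y : Fin d → G // P y} × (Fin d → G)) ⊕
        (Σ y : {y : Fin d → G // ¬ P y}, {y' : Fin d → G // ¬ OB y' (Q y) W})) →
      (Fin d → G) × (Fin d → G) := fun u =>
    match u with
    | Sum.inl (Sum.inl a) => (a.1.1, a.2)
    | Sum.inl (Sum.inr a) => (a.1, a.2.1)
    | Sum.inr (Sum.inl a) => (a.1.1, a.2)
    | Sum.inr (Sum.inr a) => (a.1.1, a.2.1)
  have hpr : ∀ z, pr (F z) =
      (fun i => z.1 (Fin.castAdd d i), fun i => z.1 (Fin.natAdd d i)) := by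
    intro z
    simp only [F]
    split_ifs <;> rfl
  have hinj : Function.Injective F := by
    intro y z hyz
    have h1 := hpr y
    rw [hyz, hpr z, Prod.mk.injEq] at h1
    refine Subtype.ext ?_
    have e1 := Fin.append_castAdd_natAdd (f := y.1)
    have e2 := Fin.append_castAdd_natAdd (f := z.1)
    rw [← e1, ← e2, h1.1, h1.2]
  have hc := Nat.card_le_card_of_injective F hinj
  rw [Nat.card_sum, Nat.card_sum, Nat.card_sum, Nat.card_prod, Nat.card_prod, Nat.card_prod,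
    Nat.card_sigma, hcG] at hc
  have hc' : (badCard G (d + d) t : ℝ) ≤
      (badCard G d B * (Fintype.card G : ℝ) ^ d + (Fintype.card G : ℝ) ^ d * badCard G d B) +
      ((Nat.card {y : Fin d → G // P y} : ℝ) * (Fintype.card G : ℝ) ^ d +
        ∑ y : {y : Fin d → G // ¬ P y},
          (Nat.card {y' : Fin d → G // ¬ OB y' (Q y) W} : ℝ)) := by
    unfold badCard
    exact_mod_cast hc
  have hs : ∑ y : {y : Fin d → G // ¬ P y}, (Nat.card {y' : Fin d → G // ¬ OB y' (Q y) W} : ℝ) ≤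
      (Fintype.card G : ℝ) ^ d * M := by
    calc _ ≤ ∑ _y : {y : Fin d → G // ¬ P y}, M := Finset.sum_le_sum fun y _ => hM y
      _ = (Fintype.card {y : Fin d → G // ¬ P y} : ℝ) * M := by
          rw [Finset.sum_const, nsmul_eq_mul, Finset.card_univ]
      _ ≤ (Fintype.card G : ℝ) ^ d * M := by
          refine mul_le_mul_of_nonneg_right ?_ hM0
          have h1 := Fintype.card_subtype_le (fun y : Fin d → G => ¬ P y)
          have h2 : Fintype.card (Fin d → G) = Fintype.card G ^ d := by simp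
          rw [h2] at h1
          exact_mod_cast h1
  linarith

end CNS_

open CNS_ in
theorem prove_CNS (h1 : T_GIR) (h2 : T_NUM) (h3 : T_PRO) (h4 : T_SEQ) (h5 : T_CMB) : T_CNS := by
  intro p _ d n R B W θ hp hdp hd hn hn2 hR hB hW hθ
  have hν : 0 ≤ nu7 d n p R := by
    unfold nu7
    positivity
  have hex : ∀ y : {y : Fin d → SL 2 p // ¬ Rel n y}, ∃ Q : Matrix (SL 2 p) (SL 2 p) ℝ,
      Pj Q ∧ NB Q (nu7 d n p R) ∧ ∀ B : ℝ, 0 ≤ B → QB y.1 B →
        ∀ f : SL 2 p → ℝ, ∑ x, f x = 0 →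
          |f ⬝ᵥ adM y.1 *ᵥ f| ≤ R * (f ⬝ᵥ f) + B * (f ⬝ᵥ Q *ᵥ f) := by
    intro y
    exact h3 (SL 2 p) d n y.1 R _ hR hn hn2 (h2 p d n hp hd y.1 y.2)
  choose Q hQ1 hQ2 hQ3 using hex
  obtain ⟨E, hE⟩ : ∃ E : ℝ, E = d * (Fintype.card (SL 2 p) : ℝ) *
        Real.exp (-(θ * (W - 4 * d))) *
        (1 + Real.exp (θ * (4 * √W)) / (16 * W) *
          (8 * nu7 d n p R * W + 32 * (d : ℝ) ^ 2 * nu7 d n p R)) ^ d := ⟨_, rfl⟩
  have hE0 : 0 ≤ E := by
    rw [hE]
    positivity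
  have hM : ∀ y : {y : Fin d → SL 2 p // ¬ Rel n y},
      (Nat.card {y' : Fin d → SL 2 p // ¬ OB y' (Q y) W} : ℝ) ≤
        E * (Fintype.card (SL 2 p) : ℝ) ^ d := by
    intro y
    rw [hE]
    exact h4 (SL 2 p) (Q y) (nu7 d n p R) W θ d (hQ1 y) hν (hQ2 y) hW hθ
  have hcount := count (G := SL 2 p) (t := R + B + 2 * √W) (B := B) (W := W) (Rel n) Q
    (fun y y' hy hy' ho => h5 (SL 2 p) d d y.1 y' (Q y) R B W hR.le hB hW.le (hQ1 y)
      (hQ3 y B hB hy) hy' ho) (E * (Fintype.card (SL 2 p) : ℝ) ^ d) (by positivity) hM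
  have hp0 : (0 : ℝ) < p := by
    have : 0 < p := by omega
    exact_mod_cast this
  have hgir := h1 p d n hdp
  have hrel : (Nat.card {y : Fin d → SL 2 p // Rel n y} : ℝ) ≤
      8 * n * (2 * (d : ℝ)) ^ n / p * (Fintype.card (SL 2 p) : ℝ) ^ d := by
    rw [div_mul_eq_mul_div, le_div_iff₀ hp0]
    linarith
  rw [← hE, pow_add]
  have hG0 : (0 : ℝ) ≤ (Fintype.card (SL 2 p) : ℝ) ^ d := by positivity
  nlinarith [mul_le_mul_of_nonneg_right hrel hG0]

end Pool.Agent.RCG
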