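import Pool.Agent.RCG.Targets8
import Pool.Agent.AlmRam.Count

set_option autoImplicit false

/-! # RCG, CRD: the order of `SL (2, p)` -/

namespace Pool.Agent.RCG

open Finset Matrix

namespace CRD_

/-- the two families of matrices -/
def f (p : ℕ) [Fact p.Prime] : (ZMod p × ZMod p × (ZMod p)ˣ) ⊕ ((ZMod p)ˣ × ZMod p) → SL 2 p
  | Sum.inl (a, d, c) => ⟨!![a, (a * d - 1) * ((c⁻¹ : (ZMod p)ˣ) : ZMod p); (c : ZMod p), d], by
      rw [Matrix.det_fin_two_of, mul_assoc, Units.inv_mul]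
      ring⟩
  | Sum.inr (a, b) => ⟨!![(a : ZMod p), b; 0, ((a⁻¹ : (ZMod p)ˣ) : ZMod p)], by
      rw [Matrix.det_fin_two_of, Units.mul_inv]
      ring⟩

theorem f_inj (p : ℕ) [Fact p.Prime] : Function.Injective (f p) := by
  intro x y hxy
  have h : ∀ i j, (f p x).1 i j = (f p y).1 i j := fun i j => by rw [hxy]
  have h00 := h 0 0
  have h01 := h 0 1
  have h10 := h 1 0
  have h11 := h 1 1
  rcases x with ⟨a, d, c⟩ | ⟨a, b⟩ <;> rcases y with ⟨a', d', c'⟩ | ⟨a', b'⟩ <;>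
    simp only [f, Matrix.of_apply, Matrix.cons_val', Matrix.cons_val_zero, Matrix.cons_val_one,
      Matrix.cons_val_fin_one] at h00 h01 h10 h11
  · rw [h00, h11, Units.ext h10]
  · exact absurd h10 c.ne_zero
  · exact absurd h10.symm c'.ne_zero
  · rw [Units.ext h00, h01]

end CRD_

open CRD_ in
theorem prove_CRD : T_CRD := by
  intro p _
  have hp : 2 ≤ p := (Fact.out : p.Prime).two_le
  have h1 : Fintype.card (SL 2 p) ≤ p * (p ^ 2 - 1) := Pool.Agent.AlmRam.card_sl_le (p := p)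
  have h2 := Fintype.card_le_of_injective (f p) (f_inj p)
  have h3 : Fintype.card ((ZMod p × ZMod p × (ZMod p)ˣ) ⊕ ((ZMod p)ˣ × ZMod p)) =
      p * (p * (p - 1)) + (p - 1) * p := by
    rw [Fintype.card_sum, Fintype.card_prod, Fintype.card_prod, Fintype.card_prod, ZMod.card,
      ZMod.card_units]
  rw [h3] at h2
  obtain ⟨q, rfl⟩ : ∃ q, p = q + 1 := ⟨p - 1, by omega⟩
  have h4 : (q + 1) * ((q + 1) ^ 2 - 1) + (q + 1) = (q + 1) ^ 3 := by
    have h5 : (q + 1) ^ 2 - 1 = q ^ 2 + 2 * q := by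
      have : (q + 1) ^ 2 = q ^ 2 + 2 * q + 1 := by ring
      omega
    rw [h5]
    ring
  have h6 : (q + 1) * ((q + 1) * (q + 1 - 1)) + (q + 1 - 1) * (q + 1) + (q + 1) =
      (q + 1) ^ 3 := by
    rw [Nat.add_sub_cancel]
    ring
  omega

end Pool.Agent.RCG
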