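import Pool.Agent.RCG.Targets14

set_option autoImplicit false

/-!
# RCG, CS1: the inequality of Cauchy and Schwarz for class averages
-/

namespace Pool.Agent.RCG

open Finset

namespace CS1_

lemma phi_eq {G : Type} [Group G] [Fintype G] (f : G → ℝ) (g : G) :
    Phi f g = ∑ x, f x * ∑ h, f (x * (h * g * h⁻¹)) := by
  unfold Phi
  rw [Finset.sum_comm]
  exact Finset.sum_congr rfl fun x _ => (Finset.mul_sum _ _ _).symm

lemma shift {G : Type} [Group G] [Fintype G] (f : G → ℝ) (g k h : G) :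
    ∑ x, f (x * (k * g * k⁻¹)) * f (x * (k * h * g * (k * h)⁻¹)) =
      ∑ x, f x * f (x * (k * (g⁻¹ * (h * g * h⁻¹)) * k⁻¹)) := by
  rw [← Equiv.sum_comp (Equiv.mulRight (k * g * k⁻¹))
    (fun x => f x * f (x * (k * (g⁻¹ * (h * g * h⁻¹)) * k⁻¹)))]
  refine Finset.sum_congr rfl fun x _ => ?_
  have e : x * (k * h * g * (k * h)⁻¹) =
      x * (k * g * k⁻¹) * (k * (g⁻¹ * (h * g * h⁻¹)) * k⁻¹) := by group
  rw [Equiv.coe_mulRight, e]

lemma sq_eq {G : Type} [Group G] [Fintype G] (f : G → ℝ) (g : G) :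
    ∑ x, (∑ h, f (x * (h * g * h⁻¹))) ^ 2 = ∑ h, Phi f (g⁻¹ * (h * g * h⁻¹)) := by
  calc ∑ x, (∑ h, f (x * (h * g * h⁻¹))) ^ 2
      = ∑ x, ∑ k, ∑ h, f (x * (k * g * k⁻¹)) * f (x * (h * g * h⁻¹)) := by
        refine Finset.sum_congr rfl fun x _ => ?_
        rw [sq, Finset.sum_mul_sum]
    _ = ∑ k, ∑ h, ∑ x, f (x * (k * g * k⁻¹)) * f (x * (h * g * h⁻¹)) := by
        rw [Finset.sum_comm]
        exact Finset.sum_congr rfl fun k _ => Finset.sum_comm
    _ = ∑ k, ∑ h, ∑ x, f x * f (x * (k * (g⁻¹ * (h * g * h⁻¹)) * k⁻¹)) := by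
        refine Finset.sum_congr rfl fun k _ => ?_
        rw [← Equiv.sum_comp (Equiv.mulLeft k)]
        exact Finset.sum_congr rfl fun h _ => shift f g k h
    _ = ∑ h, Phi f (g⁻¹ * (h * g * h⁻¹)) := by
        rw [Finset.sum_comm]
        rfl

end CS1_

open CS1_

theorem prove_CS1 : T_CS1 := by
  intro G _ _ f g
  rw [phi_eq, ← sq_eq]
  exact Finset.sum_mul_sq_le_sq_mul_sq _ _ _

end Pool.Agent.RCG
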