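import Pool.Agent.RCG.Targets7
import Pool.Agent.RCG.ADM

set_option autoImplicit false

/-!
# RCG: ZED, increments of the matrix process
-/

namespace Pool.Agent.RCG

open Finset Matrix

namespace ZED_

variable {G : Type} [Group G] [Fintype G]

lemma Rm_mulVec (h : G) (f : G → ℝ) (x : G) : (Rm h *ᵥ f) x = f (x * h) :=
  ADM_.Rt_mulVec h f x

lemma Rm_mul (g h : G) : Rm g * Rm h = Rm (g * h) := ADM_.Rt_mul g h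

lemma Rm_transpose (h : G) : (Rm h)ᵀ = Rm h⁻¹ := by
  classical
  ext x z
  simp only [Rm, Matrix.transpose_apply, Matrix.of_apply]
  by_cases hc : x = z * h
  · rw [if_pos hc, if_pos]
    rw [hc]
    simp
  · rw [if_neg hc, if_neg]
    intro h1
    apply hc
    rw [h1]
    simp

/-- the symmetric operator `R_h + R_h⁻¹` -/
noncomputable def X (h : G) : Matrix G G ℝ := Rm h + Rm h⁻¹

lemma X_transpose (h : G) : (X h)ᵀ = X h := by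
  unfold X
  rw [Matrix.transpose_add, Rm_transpose, Rm_transpose, inv_inv, add_comm]

lemma dmul (M : Matrix G G ℝ) (u v : G → ℝ) : u ⬝ᵥ M *ᵥ v = (Mᵀ *ᵥ u) ⬝ᵥ v := by
  rw [Matrix.dotProduct_mulVec, Matrix.mulVec_transpose]

lemma herm {M : Matrix G G ℝ} (hM : M.IsHermitian) : Mᵀ = M := by
  have := hM.eq
  rwa [Matrix.conjTranspose_eq_transpose_of_trivial] at this

lemma of_sym {M : Matrix G G ℝ} (hM : Mᵀ = M) : M.IsHermitian := by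
  unfold Matrix.IsHermitian
  rw [Matrix.conjTranspose_eq_transpose_of_trivial, hM]

lemma dot_self (v : G → ℝ) : v ⬝ᵥ v = ∑ x, v x ^ 2 := by
  simp only [dotProduct, sq]

lemma dot_nonneg (v : G → ℝ) : 0 ≤ v ⬝ᵥ v := by
  rw [dot_self]
  positivity

lemma Rm_dot (h : G) (u : G → ℝ) : (Rm h *ᵥ u) ⬝ᵥ (Rm h *ᵥ u) = u ⬝ᵥ u := by
  rw [dot_self, dot_self]
  simp only [Rm_mulVec]
  exact Fintype.sum_equiv (Equiv.mulRight h) _ _ fun x => rfl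

lemma Rm_sum (h : G) (u : G → ℝ) : ∑ x, (Rm h *ᵥ u) x = ∑ x, u x := by
  simp only [Rm_mulVec]
  exact Fintype.sum_equiv (Equiv.mulRight h) _ _ fun x => rfl

lemma add_dot_le (u v : G → ℝ) :
    (u + v) ⬝ᵥ (u + v) ≤ 2 * (u ⬝ᵥ u) + 2 * (v ⬝ᵥ v) := by
  rw [dot_self, dot_self, dot_self, Finset.mul_sum, Finset.mul_sum, ← Finset.sum_add_distrib]
  refine Finset.sum_le_sum fun x _ => ?_
  simp only [Pi.add_apply]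
  nlinarith [sq_nonneg (u x - v x)]

lemma cs (u v : G → ℝ) : (u ⬝ᵥ v) ^ 2 ≤ (u ⬝ᵥ u) * (v ⬝ᵥ v) := by
  rw [dot_self, dot_self]
  exact Finset.sum_mul_sq_le_sq_mul_sq _ _ _

lemma X_dot_le (h : G) (u : G → ℝ) : (X h *ᵥ u) ⬝ᵥ (X h *ᵥ u) ≤ 4 * (u ⬝ᵥ u) := by
  unfold X
  rw [Matrix.add_mulVec]
  refine (add_dot_le _ _).trans ?_
  rw [Rm_dot, Rm_dot]
  linarith

lemma adM_eq {d : ℕ} (y : Fin d → G) : adM y = ∑ i, X (y i) := ADM_.adM_eq y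

lemma adM_sym {d : ℕ} (y : Fin d → G) : (adM y)ᵀ = adM y := by
  rw [adM_eq, Matrix.transpose_sum]
  exact Finset.sum_congr rfl fun i _ => X_transpose _

section
variable {Q : Matrix G G ℝ} (hQ : Pj Q)
include hQ

lemma Q_dot (u v : G → ℝ) : (Q *ᵥ u) ⬝ᵥ (Q *ᵥ v) = u ⬝ᵥ Q *ᵥ v := by
  rw [dmul Q (Q *ᵥ u) v, dmul Q u v, herm hQ.1, Matrix.mulVec_mulVec, hQ.2.1]

lemma Q_le (v : G → ℝ) : (Q *ᵥ v) ⬝ᵥ (Q *ᵥ v) ≤ v ⬝ᵥ v := by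
  have h1 := dot_nonneg (v - Q *ᵥ v)
  rw [sub_dotProduct, dotProduct_sub, dotProduct_sub, Q_dot hQ] at h1
  have h2 : (Q *ᵥ v) ⬝ᵥ v = v ⬝ᵥ Q *ᵥ v := dotProduct_comm _ _
  rw [Q_dot hQ]
  linarith

lemma Q_sum (v : G → ℝ) : ∑ x, (Q *ᵥ v) x = 0 := by
  have h1 : (fun _ : G => (1 : ℝ)) ⬝ᵥ Q *ᵥ v = 0 := by
    rw [dmul, herm hQ.1, hQ.2.2]
    simp
  simpa [dotProduct] using h1

lemma sum_QR {ν : ℝ} (hN : NB Q ν) (u : G → ℝ) (hu : ∑ x, u x = 0) (e : G ≃ G) :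
    ∑ h : G, (Q *ᵥ (Rm (e h) *ᵥ u)) ⬝ᵥ (Q *ᵥ (Rm (e h) *ᵥ u)) ≤
      ν * (Fintype.card G : ℝ) * (u ⬝ᵥ u) := by
  rw [Equiv.sum_comp e (fun h => (Q *ᵥ (Rm h *ᵥ u)) ⬝ᵥ (Q *ᵥ (Rm h *ᵥ u))),
    ← Equiv.sum_comp (Equiv.inv G) (fun h => (Q *ᵥ (Rm h *ᵥ u)) ⬝ᵥ (Q *ᵥ (Rm h *ᵥ u)))]
  refine le_trans (le_of_eq ?_) (hN u hu)
  refine Finset.sum_congr rfl fun h _ => ?_
  rw [Q_dot hQ, Equiv.inv_apply, ← Matrix.mulVec_mulVec, ← Matrix.mulVec_mulVec, dmul (Rm h),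
    Rm_transpose]

lemma sum_QX {ν : ℝ} (hN : NB Q ν) (u : G → ℝ) (hu : ∑ x, u x = 0) :
    ∑ h : G, (Q *ᵥ (X h *ᵥ u)) ⬝ᵥ (Q *ᵥ (X h *ᵥ u)) ≤
      4 * (ν * (Fintype.card G : ℝ) * (u ⬝ᵥ u)) := by
  have h1 := sum_QR hQ hN u hu (Equiv.refl G)
  have h2 := sum_QR hQ hN u hu (Equiv.inv G)
  have h3 : ∑ h : G, (Q *ᵥ (X h *ᵥ u)) ⬝ᵥ (Q *ᵥ (X h *ᵥ u)) ≤
      2 * ∑ h : G, (Q *ᵥ (Rm (Equiv.refl G h) *ᵥ u)) ⬝ᵥ (Q *ᵥ (Rm (Equiv.refl G h) *ᵥ u)) +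
      2 * ∑ h : G, (Q *ᵥ (Rm (Equiv.inv G h) *ᵥ u)) ⬝ᵥ (Q *ᵥ (Rm (Equiv.inv G h) *ᵥ u)) := by
    rw [Finset.mul_sum, Finset.mul_sum, ← Finset.sum_add_distrib]
    refine Finset.sum_le_sum fun h _ => ?_
    unfold X
    rw [Matrix.add_mulVec, Matrix.mulVec_add]
    exact add_dot_le _ _
  linarith

lemma sum_QXX {ν : ℝ} (hN : NB Q ν) (u : G → ℝ) (hu : ∑ x, u x = 0) (g : G) :
    ∑ h : G, (Q *ᵥ (X g *ᵥ (X h *ᵥ u))) ⬝ᵥ (Q *ᵥ (X g *ᵥ (X h *ᵥ u))) ≤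
      16 * (ν * (Fintype.card G : ℝ) * (u ⬝ᵥ u)) := by
  have h1 := sum_QR hQ hN u hu (Equiv.mulLeft g)
  have h2 := sum_QR hQ hN u hu (Equiv.mulLeft g⁻¹)
  have h3 := sum_QR hQ hN u hu ((Equiv.inv G).trans (Equiv.mulLeft g))
  have h4 := sum_QR hQ hN u hu ((Equiv.inv G).trans (Equiv.mulLeft g⁻¹))
  simp only [Equiv.coe_mulLeft, Equiv.trans_apply, Equiv.inv_apply] at h1 h2 h3 h4
  have key : ∀ h : G, (Q *ᵥ (X g *ᵥ (X h *ᵥ u))) ⬝ᵥ (Q *ᵥ (X g *ᵥ (X h *ᵥ u))) ≤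
      4 * ((Q *ᵥ (Rm (g * h) *ᵥ u)) ⬝ᵥ (Q *ᵥ (Rm (g * h) *ᵥ u))) +
      4 * ((Q *ᵥ (Rm (g⁻¹ * h) *ᵥ u)) ⬝ᵥ (Q *ᵥ (Rm (g⁻¹ * h) *ᵥ u))) +
      4 * ((Q *ᵥ (Rm (g * h⁻¹) *ᵥ u)) ⬝ᵥ (Q *ᵥ (Rm (g * h⁻¹) *ᵥ u))) +
      4 * ((Q *ᵥ (Rm (g⁻¹ * h⁻¹) *ᵥ u)) ⬝ᵥ (Q *ᵥ (Rm (g⁻¹ * h⁻¹) *ᵥ u))) := by
    intro h
    have e1 : Q *ᵥ (X g *ᵥ (X h *ᵥ u)) =
        (Q *ᵥ (Rm (g * h) *ᵥ u) + Q *ᵥ (Rm (g⁻¹ * h) *ᵥ u)) +
        (Q *ᵥ (Rm (g * h⁻¹) *ᵥ u) + Q *ᵥ (Rm (g⁻¹ * h⁻¹) *ᵥ u)) := by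
      have e2 : X g * X h = (Rm (g * h) + Rm (g⁻¹ * h)) + (Rm (g * h⁻¹) + Rm (g⁻¹ * h⁻¹)) := by
        unfold X
        rw [← Rm_mul, ← Rm_mul, ← Rm_mul, ← Rm_mul]
        noncomm_ring
      rw [Matrix.mulVec_mulVec u (X g) (X h), e2, Matrix.add_mulVec, Matrix.add_mulVec,
        Matrix.add_mulVec,
        Matrix.mulVec_add, Matrix.mulVec_add, Matrix.mulVec_add]
    rw [e1]
    refine (add_dot_le _ _).trans ?_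
    have e3 := add_dot_le (Q *ᵥ (Rm (g * h) *ᵥ u)) (Q *ᵥ (Rm (g⁻¹ * h) *ᵥ u))
    have e4 := add_dot_le (Q *ᵥ (Rm (g * h⁻¹) *ᵥ u)) (Q *ᵥ (Rm (g⁻¹ * h⁻¹) *ᵥ u))
    linarith
  have h5 := Finset.sum_le_sum fun h (_ : h ∈ (Finset.univ : Finset G)) => key h
  simp only [Finset.sum_add_distrib, ← Finset.mul_sum] at h5
  linarith

end

lemma sum_dot_le {j : ℕ} (a : Fin j → G → ℝ) :
    (∑ i, a i) ⬝ᵥ (∑ i, a i) ≤ j * ∑ i, (a i ⬝ᵥ a i) := by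
  rw [dot_self]
  simp only [dot_self]
  rw [Finset.sum_comm, Finset.mul_sum]
  refine Finset.sum_le_sum fun x _ => ?_
  rw [Finset.sum_apply]
  have := sq_sum_le_card_mul_sum_sq (s := (Finset.univ : Finset (Fin j))) (f := fun i => a i x)
  simpa using this

lemma QA_le {j : ℕ} (Q : Matrix G G ℝ) (y : Fin j → G) (w : G → ℝ) :
    (Q *ᵥ (adM y *ᵥ w)) ⬝ᵥ (Q *ᵥ (adM y *ᵥ w)) ≤
      j * ∑ i, (Q *ᵥ (X (y i) *ᵥ w)) ⬝ᵥ (Q *ᵥ (X (y i) *ᵥ w)) := by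
  have h1 : Q *ᵥ (adM y *ᵥ w) = ∑ i, Q *ᵥ (X (y i) *ᵥ w) := by
    rw [adM_eq, Matrix.sum_mulVec, Matrix.mulVec_sum]
  rw [h1]
  exact sum_dot_le _

lemma Zm_eq {j : ℕ} (Q : Matrix G G ℝ) (y : Fin j → G) (h : G) (v : G → ℝ) :
    Zm Q y h *ᵥ v = Q *ᵥ (X h *ᵥ (adM y *ᵥ (Q *ᵥ v))) + Q *ᵥ (adM y *ᵥ (X h *ᵥ (Q *ᵥ v))) := by
  unfold Zm
  change (Q * (X h * adM y + adM y * X h) * Q) *ᵥ v = _
  simp only [Matrix.mulVec_mulVec, ← Matrix.add_mulVec]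
  congr 1
  noncomm_ring

lemma Zm_sym {j : ℕ} {Q : Matrix G G ℝ} (hQ : Pj Q) (y : Fin j → G) (h : G) :
    (Zm Q y h)ᵀ = Zm Q y h := by
  unfold Zm
  change (Q * (X h * adM y + adM y * X h) * Q)ᵀ = Q * (X h * adM y + adM y * X h) * Q
  rw [Matrix.transpose_mul, Matrix.transpose_mul, Matrix.transpose_add, Matrix.transpose_mul,
    Matrix.transpose_mul, herm hQ.1, adM_sym, X_transpose]
  noncomm_ring

lemma Hm_sym {Q : Matrix G G ℝ} (hQ : Pj Q) (h : G) :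
    (Hm Q h)ᵀ = Hm Q h := by
  unfold Hm
  change (Q * (X h * X h) * Q)ᵀ = Q * (X h * X h) * Q
  rw [Matrix.transpose_mul, Matrix.transpose_mul, Matrix.transpose_mul, herm hQ.1, X_transpose]
  noncomm_ring

/-- the all ones matrix -/
noncomputable def J1 (G : Type) : Matrix G G ℝ := Matrix.of fun _ _ => (1 : ℝ)

lemma sum_Rm : ∑ h : G, Rm h = J1 G := by
  classical
  ext x z
  rw [Matrix.sum_apply]
  simp only [Rm, J1, Matrix.of_apply]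
  rw [Finset.sum_eq_single (x⁻¹ * z)]
  · simp
  · intro b _ hb
    rw [if_neg]
    intro h1
    apply hb
    rw [h1]
    simp
  · intro h1
    exact absurd (Finset.mem_univ _) h1

lemma sum_Rm_inv : ∑ h : G, Rm h⁻¹ = J1 G := by
  rw [← sum_Rm]
  exact Equiv.sum_comp (Equiv.inv G) (fun h => Rm h)

lemma sum_X : ∑ h : G, X h = J1 G + J1 G := by
  unfold X
  rw [Finset.sum_add_distrib, sum_Rm, sum_Rm_inv]

lemma Q_J1 {Q : Matrix G G ℝ} (hQ : Pj Q) : Q * J1 G = 0 := by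
  ext x z
  have h1 := congrFun hQ.2.2 x
  simpa [Matrix.mul_apply, J1, Matrix.mulVec, dotProduct] using h1

lemma J1_Q {Q : Matrix G G ℝ} (hQ : Pj Q) : J1 G * Q = 0 := by
  have h1 : (Q * J1 G)ᵀ = 0 := by rw [Q_J1 hQ, Matrix.transpose_zero]
  rw [Matrix.transpose_mul, herm hQ.1] at h1
  have h2 : (J1 G)ᵀ = J1 G := by
    ext x z
    rfl
  rwa [h2] at h1

lemma Zm_sum {j : ℕ} {Q : Matrix G G ℝ} (hQ : Pj Q) (y : Fin j → G) :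
    ∑ h : G, Zm Q y h = 0 := by
  have h1 : ∑ h : G, Zm Q y h = Q * ((∑ h : G, X h) * adM y + adM y * ∑ h : G, X h) * Q := by
    rw [Finset.sum_mul, Finset.mul_sum, ← Finset.sum_add_distrib, Finset.mul_sum, Finset.sum_mul]
    rfl
  rw [h1, sum_X]
  have h2 : Q * ((J1 G + J1 G) * adM y + adM y * (J1 G + J1 G)) * Q =
      (Q * J1 G + Q * J1 G) * adM y * Q + Q * adM y * (J1 G * Q + J1 G * Q) := by
    noncomm_ring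
  rw [h2, Q_J1 hQ, J1_Q hQ]
  simp

lemma A_sum {j : ℕ} (y : Fin j → G) (w : G → ℝ) (hw : ∑ x, w x = 0) :
    ∑ x, (adM y *ᵥ w) x = 0 := by
  rw [adM_eq, Matrix.sum_mulVec]
  simp only [Finset.sum_apply]
  rw [Finset.sum_comm]
  refine Finset.sum_eq_zero fun i _ => ?_
  unfold X
  simp only [Matrix.add_mulVec, Pi.add_apply, Finset.sum_add_distrib]
  rw [Rm_sum, Rm_sum, hw]
  simp

end ZED_

theorem prove_ZED (h : T_ADM) : T_ZED := by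
  intro G _ _ Q ν W j y hQ hν hN hW hOB
  have hA := ZED_.adM_sym y
  have hQs := ZED_.herm hQ.1
  refine ⟨fun h => ⟨ZED_.of_sym (ZED_.Zm_sym hQ y h), ZED_.of_sym (ZED_.Hm_sym hQ h)⟩, ?_,
    ZED_.Zm_sum hQ y, ?_, ?_, ?_⟩
  · intro h v
    have hv := ZED_.dot_nonneg v
    set w := Q *ᵥ v with hw
    have h1 : v ⬝ᵥ (Zm Q y h) *ᵥ v = 2 * ((ZED_.X h *ᵥ w) ⬝ᵥ (adM y *ᵥ w)) := by
      rw [ZED_.Zm_eq, dotProduct_add, ZED_.dmul Q, ZED_.dmul Q, hQs, ← hw, ZED_.dmul (ZED_.X h),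
        ZED_.X_transpose, ZED_.dmul (adM y) w, hA, dotProduct_comm (adM y *ᵥ w)]
      ring
    have h2 : (ZED_.X h *ᵥ w) ⬝ᵥ (ZED_.X h *ᵥ w) ≤ 4 * (v ⬝ᵥ v) :=
      (ZED_.X_dot_le h w).trans (by linarith [ZED_.Q_le hQ v])
    have h3 : (adM y *ᵥ w) ⬝ᵥ (adM y *ᵥ w) ≤ W * (v ⬝ᵥ v) := hOB v
    have h4 := ZED_.cs (ZED_.X h *ᵥ w) (adM y *ᵥ w)
    have h5 : ((ZED_.X h *ᵥ w) ⬝ᵥ (adM y *ᵥ w)) ^ 2 ≤ (2 * √W * (v ⬝ᵥ v)) ^ 2 := by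
      refine h4.trans ?_
      have h6 : (2 * √W * (v ⬝ᵥ v)) ^ 2 = (4 * (v ⬝ᵥ v)) * (W * (v ⬝ᵥ v)) := by
        rw [mul_pow, mul_pow, Real.sq_sqrt hW]
        ring
      rw [h6]
      exact mul_le_mul h2 h3 (ZED_.dot_nonneg _) (by positivity)
    have h7 := abs_le.mp (abs_le_of_sq_le_sq h5 (by positivity))
    rw [h1, abs_le]
    constructor <;> linarith [h7.1, h7.2]
  · intro v
    have hv := ZED_.dot_nonneg v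
    set w := Q *ᵥ v with hw
    have hws : ∑ x, w x = 0 := ZED_.Q_sum hQ v
    have hww : w ⬝ᵥ w ≤ v ⬝ᵥ v := ZED_.Q_le hQ v
    have hcard : (0 : ℝ) ≤ Fintype.card G := by positivity
    have h0 : ∀ h : G, v ⬝ᵥ (Zm Q y h * Zm Q y h) *ᵥ v ≤
        2 * ((Q *ᵥ (ZED_.X h *ᵥ (adM y *ᵥ w))) ⬝ᵥ (Q *ᵥ (ZED_.X h *ᵥ (adM y *ᵥ w)))) +
        2 * (j * ∑ i, (Q *ᵥ (ZED_.X (y i) *ᵥ (ZED_.X h *ᵥ w))) ⬝ᵥ
          (Q *ᵥ (ZED_.X (y i) *ᵥ (ZED_.X h *ᵥ w)))) := by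
      intro h
      rw [← Matrix.mulVec_mulVec, ZED_.dmul, ZED_.Zm_sym hQ, ZED_.Zm_eq, ← hw]
      refine (ZED_.add_dot_le _ _).trans ?_
      have := ZED_.QA_le Q y (ZED_.X h *ᵥ w)
      linarith
    refine (Finset.sum_le_sum fun h _ => h0 h).trans ?_
    rw [Finset.sum_add_distrib, ← Finset.mul_sum, ← Finset.mul_sum, ← Finset.mul_sum,
      Finset.sum_comm]
    have h1 := ZED_.sum_QX hQ hN (adM y *ᵥ w) (ZED_.A_sum y w hws)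
    have h2 : (adM y *ᵥ w) ⬝ᵥ (adM y *ᵥ w) ≤ W * (v ⬝ᵥ v) := hOB v
    have h3 : ∑ i : Fin j, ∑ h : G, (Q *ᵥ (ZED_.X (y i) *ᵥ (ZED_.X h *ᵥ w))) ⬝ᵥ
        (Q *ᵥ (ZED_.X (y i) *ᵥ (ZED_.X h *ᵥ w))) ≤
        ∑ _i : Fin j, 16 * (ν * (Fintype.card G : ℝ) * (w ⬝ᵥ w)) :=
      Finset.sum_le_sum fun i _ => ZED_.sum_QXX hQ hN w hws (y i)
    rw [Finset.sum_const, Finset.card_univ, Fintype.card_fin, nsmul_eq_mul] at h3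
    have hνc : 0 ≤ ν * (Fintype.card G : ℝ) := mul_nonneg hν hcard
    have h4 : ν * (Fintype.card G : ℝ) * ((adM y *ᵥ w) ⬝ᵥ (adM y *ᵥ w)) ≤
        ν * (Fintype.card G : ℝ) * (W * (v ⬝ᵥ v)) := mul_le_mul_of_nonneg_left h2 hνc
    have h5 : ν * (Fintype.card G : ℝ) * (w ⬝ᵥ w) ≤ ν * (Fintype.card G : ℝ) * (v ⬝ᵥ v) :=
      mul_le_mul_of_nonneg_left hww hνc
    have h6 : (j : ℝ) * ∑ i : Fin j, ∑ h : G, (Q *ᵥ (ZED_.X (y i) *ᵥ (ZED_.X h *ᵥ w))) ⬝ᵥ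
        (Q *ᵥ (ZED_.X (y i) *ᵥ (ZED_.X h *ᵥ w))) ≤
        j * (j * (16 * (ν * (Fintype.card G : ℝ) * (v ⬝ᵥ v)))) := by
      refine mul_le_mul_of_nonneg_left (h3.trans ?_) (by positivity)
      exact mul_le_mul_of_nonneg_left (by linarith) (by positivity)
    have h7 : (Fintype.card G : ℝ) * (8 * ν * W + 32 * (j : ℝ) ^ 2 * ν) * (v ⬝ᵥ v) =
        2 * (4 * (ν * (Fintype.card G : ℝ) * (W * (v ⬝ᵥ v)))) +
        2 * (j * (j * (16 * (ν * (Fintype.card G : ℝ) * (v ⬝ᵥ v))))) := by ring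
    rw [h7]
    linarith
  · intro h v
    have h1 : v ⬝ᵥ (Hm Q h) *ᵥ v = (ZED_.X h *ᵥ (Q *ᵥ v)) ⬝ᵥ (ZED_.X h *ᵥ (Q *ᵥ v)) := by
      have h2 : Hm Q h *ᵥ v = Q *ᵥ (ZED_.X h *ᵥ (ZED_.X h *ᵥ (Q *ᵥ v))) := by
        unfold Hm
        change (Q * (ZED_.X h * ZED_.X h) * Q) *ᵥ v = _
        simp only [Matrix.mulVec_mulVec, mul_assoc]
      rw [h2, ZED_.dmul Q, hQs, ZED_.dmul (ZED_.X h), ZED_.X_transpose]
    rw [h1]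
    exact (ZED_.X_dot_le h _).trans (by linarith [ZED_.Q_le hQ v])
  · intro h
    have h1 : adM (Fin.cons h y : Fin (j + 1) → G) = ZED_.X h + adM y := by
      rw [ZED_.adM_eq, ZED_.adM_eq, Fin.sum_univ_succ]
      simp
    rw [h1]
    unfold Zm Hm
    change _ = Q * (adM y * adM y) * Q + Q * (ZED_.X h * adM y + adM y * ZED_.X h) * Q +
      Q * (ZED_.X h * ZED_.X h) * Q
    noncomm_ring

end Pool.Agent.RCG
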