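import Pool.Agent.RCG.Targets8
import Pool.Agent.RCG.ZED

set_option autoImplicit false

/-!
# RCG: CT1, counting of the exceptional blocks, linear part
-/

namespace Pool.Agent.RCG

open Finset Matrix

namespace CT1_

variable {G : Type} [Group G] [Fintype G]

lemma adM_zero (y : Fin 0 → G) : adM y = 0 := by
  rw [ZED_.adM_eq]
  simp

lemma adM_cons {j : ℕ} (h : G) (y : Fin j → G) :
    adM (Fin.cons h y : Fin (j + 1) → G) = adM y + ZED_.X h := by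
  rw [ZED_.adM_eq, ZED_.adM_eq, Fin.sum_univ_succ]
  simp [add_comm]

lemma sand_sym {Q : Matrix G G ℝ} (hQ : Pj Q) {M : Matrix G G ℝ} (hM : Mᵀ = M) (σ : ℝ) :
    (σ • (Q * M * Q))ᵀ = σ • (Q * M * Q) := by
  rw [Matrix.transpose_smul, Matrix.transpose_mul, Matrix.transpose_mul, ZED_.herm hQ.1, hM,
    mul_assoc]

lemma sand_quad {Q : Matrix G G ℝ} (hQ : Pj Q) (M : Matrix G G ℝ) (v : G → ℝ) :
    v ⬝ᵥ (Q * M * Q) *ᵥ v = (Q *ᵥ v) ⬝ᵥ M *ᵥ (Q *ᵥ v) := by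
  rw [← Matrix.mulVec_mulVec, ← Matrix.mulVec_mulVec, ZED_.dmul Q, ZED_.herm hQ.1]

lemma X_quad (h : G) (w : G → ℝ) : |w ⬝ᵥ ZED_.X h *ᵥ w| ≤ 2 * (w ⬝ᵥ w) := by
  have h0 := ZED_.dot_nonneg w
  have h1 := ZED_.cs w (ZED_.X h *ᵥ w)
  have h2 := ZED_.X_dot_le h w
  refine abs_le_of_sq_le_sq ?_ (by positivity)
  refine h1.trans ?_
  have h3 := mul_le_mul_of_nonneg_left h2 h0
  refine h3.trans (le_of_eq ?_)
  ring

lemma side (h1 : T_SBN) {Q : Matrix G G ℝ} {ν θ : ℝ} (t : ℝ) (d : ℕ) (hQ : Pj Q) (hν : 0 ≤ ν)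
    (hN : NB Q ν) (hθ : 0 ≤ θ) (σ : ℝ) (hσ : σ = 1 ∨ σ = -1) :
    (Nat.card {a : Fin d → G // ¬ ∀ v : G → ℝ,
      σ * (v ⬝ᵥ (Q * adM a * Q) *ᵥ v) ≤ t * (v ⬝ᵥ v)} : ℝ) ≤
    Fintype.card G * Real.exp (-(θ * t)) *
      (1 + θ * √(4 * ν) + Real.exp (θ * 2) / 2 ^ 2 * (4 * ν)) ^ d * (Fintype.card G : ℝ) ^ d := by
  classical
  have hσ2 : σ * σ = 1 := by
    rcases hσ with h | h <;> rw [h] <;> norm_num
  have hσa : |σ| = 1 := by
    rcases hσ with h | h <;> rw [h] <;> norm_num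
  have key := h1 G G (fun _ _ => True) (fun _ y => σ • (Q * adM y * Q))
    (fun _ _ h => σ • (Q * ZED_.X h * Q)) θ 2 (4 * ν) t d hθ (by norm_num) (by positivity)
    (fun j y => ZED_.of_sym (sand_sym hQ (ZED_.adM_sym y) σ))
    (fun y => by
      show σ • (Q * adM y * Q) = 0
      rw [adM_zero]
      simp)
    (fun j y h => by
      show σ • (Q * adM (Fin.cons h y : Fin (j + 1) → G) * Q) =
        σ • (Q * adM y * Q) + σ • (Q * ZED_.X h * Q)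
      rw [adM_cons, Matrix.mul_add, Matrix.add_mul, smul_add])
    (fun j y h => ZED_.of_sym (sand_sym hQ (ZED_.X_transpose h) σ))
    (fun j _ y _ => ⟨fun h v => by
      show |v ⬝ᵥ (σ • (Q * ZED_.X h * Q)) *ᵥ v| ≤ 2 * (v ⬝ᵥ v)
      rw [Matrix.smul_mulVec, dotProduct_smul, smul_eq_mul, abs_mul, hσa, one_mul, sand_quad hQ]
      refine (X_quad h _).trans ?_
      linarith [ZED_.Q_le hQ v], fun v => by
      show ∑ h, v ⬝ᵥ ((σ • (Q * ZED_.X h * Q)) * (σ • (Q * ZED_.X h * Q))) *ᵥ v ≤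
        Fintype.card G * (4 * ν) * (v ⬝ᵥ v)
      have e : ∀ h : G, v ⬝ᵥ ((σ • (Q * ZED_.X h * Q)) * (σ • (Q * ZED_.X h * Q))) *ᵥ v =
          (Q *ᵥ (ZED_.X h *ᵥ (Q *ᵥ v))) ⬝ᵥ (Q *ᵥ (ZED_.X h *ᵥ (Q *ᵥ v))) := by
        intro h
        rw [Matrix.smul_mul, Matrix.mul_smul, smul_smul, hσ2, one_smul, ← Matrix.mulVec_mulVec,
          ZED_.dmul]
        have e2 : (Q * ZED_.X h * Q)ᵀ = Q * ZED_.X h * Q := by
          have := sand_sym hQ (ZED_.X_transpose h) 1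
          simpa using this
        rw [e2, ← Matrix.mulVec_mulVec, ← Matrix.mulVec_mulVec]
      rw [Finset.sum_congr rfl fun h _ => e h]
      refine (ZED_.sum_QX hQ hN (Q *ᵥ v) (ZED_.Q_sum hQ v)).trans ?_
      have h2 : 0 ≤ ν * (Fintype.card G : ℝ) := by positivity
      have h3 := mul_le_mul_of_nonneg_left (ZED_.Q_le hQ v) h2
      linarith⟩)
  refine le_trans ?_ key
  have hle : Nat.card {a : Fin d → G // ¬ ∀ v : G → ℝ,
      σ * (v ⬝ᵥ (Q * adM a * Q) *ᵥ v) ≤ t * (v ⬝ᵥ v)} ≤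
      Nat.card {y : Fin d → G // AG (fun (_ : ℕ) (_ : Fin _ → G) => True) d y ∧
        ¬ ∀ v : G → ℝ, v ⬝ᵥ (σ • (Q * adM y * Q)) *ᵥ v ≤ t * (v ⬝ᵥ v)} := by
    have hAG : ∀ (j : ℕ) (y : Fin j → G), AG (fun (_ : ℕ) (_ : Fin _ → G) => True) j y := by
      intro j
      induction j with
      | zero => intro y; trivial
      | succ j ih => intro y; exact ⟨trivial, ih _⟩
    refine Nat.card_le_card_of_injective (fun a => ⟨a.1, hAG d a.1, ?_⟩) ?_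
    · intro hall
      refine a.2 fun v => ?_
      have := hall v
      rwa [Matrix.smul_mulVec, dotProduct_smul, smul_eq_mul] at this
    · intro a b hab
      apply Subtype.ext
      have := congrArg Subtype.val hab
      exact this
  exact_mod_cast hle

end CT1_

set_option linter.unusedVariables false in
theorem prove_CT1 (h1 : T_SBN) (h2 : T_QRB) (h3 : T_ADM) : T_CT1 := by
  classical
  intro G _ _ Q ν θ t d hQ hν hN hθ
  have hp := CT1_.side h1 t d hQ hν hN hθ 1 (Or.inl rfl)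
  have hm := CT1_.side h1 t d hQ hν hN hθ (-1) (Or.inr rfl)
  have hle : Nat.card {a : Fin d → G // ¬ ∀ v : G → ℝ,
      |v ⬝ᵥ (Q * adM a * Q) *ᵥ v| ≤ t * (v ⬝ᵥ v)} ≤
      Nat.card {a : Fin d → G // ¬ ∀ v : G → ℝ,
        1 * (v ⬝ᵥ (Q * adM a * Q) *ᵥ v) ≤ t * (v ⬝ᵥ v)} +
      Nat.card {a : Fin d → G // ¬ ∀ v : G → ℝ,
        -1 * (v ⬝ᵥ (Q * adM a * Q) *ᵥ v) ≤ t * (v ⬝ᵥ v)} := by
    simp only [Nat.card_eq_fintype_card, Fintype.card_subtype]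
    refine le_trans (Finset.card_le_card ?_) (Finset.card_union_le _ _)
    intro a ha
    simp only [Finset.mem_union, Finset.mem_filter, Finset.mem_univ, true_and] at ha ⊢
    by_contra hcon
    simp only [not_or, not_not] at hcon
    refine ha fun v => ?_
    have e1 := hcon.1 v
    have e2 := hcon.2 v
    rw [abs_le]
    constructor <;> linarith
  have hle' : (Nat.card {a : Fin d → G // ¬ ∀ v : G → ℝ,
      |v ⬝ᵥ (Q * adM a * Q) *ᵥ v| ≤ t * (v ⬝ᵥ v)} : ℝ) ≤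
      (Nat.card {a : Fin d → G // ¬ ∀ v : G → ℝ,
        1 * (v ⬝ᵥ (Q * adM a * Q) *ᵥ v) ≤ t * (v ⬝ᵥ v)} : ℝ) +
      (Nat.card {a : Fin d → G // ¬ ∀ v : G → ℝ,
        -1 * (v ⬝ᵥ (Q * adM a * Q) *ᵥ v) ≤ t * (v ⬝ᵥ v)} : ℝ) := by
    exact_mod_cast hle
  refine hle'.trans ((add_le_add hp hm).trans (le_of_eq ?_))
  ring

end Pool.Agent.RCG
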