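import Pool.Agent.RCG.Targets8
import Pool.Agent.RCG.ZED

set_option autoImplicit false

/-!
# RCG: counting the exceptional blocks, quadratic part (CT2)
-/

namespace Pool.Agent.RCG

open Finset Matrix

namespace CT2_

theorem CE_sum {p : ℕ} [Fact p.Prime] {N : Matrix (SL 2 p) (SL 2 p) ℝ} {n0 C : ℝ}
    (h : CE N n0 C) :
    0 ≤ C ∧ ∀ f : SL 2 p → ℝ, ∑ x, f x = 0 → ∑ x, (N *ᵥ f) x = 0 := by
  obtain ⟨Ω, _, e, γ, hN, _, hC⟩ := h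
  refine ⟨(Finset.sum_nonneg fun ω _ => abs_nonneg _).trans hC, fun f hf => ?_⟩
  have h1 : ∀ g : SL 2 p, ∑ x, (Rm g *ᵥ f) x = 0 := fun g => (ZED_.Rm_sum g f).trans hf
  rw [hN, Matrix.add_mulVec, Matrix.smul_mulVec, Matrix.sum_mulVec]
  simp only [Pi.add_apply, Pi.smul_apply, smul_eq_mul, Finset.sum_add_distrib, ← Finset.mul_sum,
    h1, mul_zero, zero_add, Finset.sum_apply]
  rw [Finset.sum_comm]
  refine Finset.sum_eq_zero fun ω _ => ?_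
  simp only [Matrix.smul_mulVec, Pi.smul_apply, smul_eq_mul, ← Finset.mul_sum, h1, mul_zero]

theorem form {G : Type} [Group G] [Fintype G] {Q N : Matrix G G ℝ} {n0 t : ℝ} {d : ℕ}
    (hPj : Pj Q) (y : Fin d → G)
    (h : ∀ v : G → ℝ, v ⬝ᵥ (Sn Q N n0 y) *ᵥ v ≤ t * (v ⬝ᵥ v)) (v : G → ℝ) :
    v ⬝ᵥ (Q * (adM y * N * adM y) * Q) *ᵥ v ≤ (2 * d * |n0| + t) * (v ⬝ᵥ v) := by
  have h1 := h v
  unfold Sn at h1
  rw [Matrix.sub_mulVec, dotProduct_sub, Matrix.smul_mulVec, dotProduct_smul, smul_eq_mul] at h1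
  have h2 : v ⬝ᵥ Q *ᵥ v ≤ v ⬝ᵥ v := by
    rw [← ZED_.Q_dot hPj]
    exact ZED_.Q_le hPj v
  have h3 : 0 ≤ v ⬝ᵥ Q *ᵥ v := by
    rw [← ZED_.Q_dot hPj]
    exact ZED_.dot_nonneg _
  have h4 : 2 * (d : ℝ) * n0 * (v ⬝ᵥ Q *ᵥ v) ≤ 2 * (d : ℝ) * |n0| * (v ⬝ᵥ v) := by
    calc 2 * (d : ℝ) * n0 * (v ⬝ᵥ Q *ᵥ v) ≤ 2 * (d : ℝ) * |n0| * (v ⬝ᵥ Q *ᵥ v) := by
          gcongr
          exact le_abs_self n0
      _ ≤ _ := by gcongr
  linarith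

end CT2_

open CT2_ in
theorem prove_CT2 (h1 : T_SBN) (h2 : T_ZNA) (h3 : T_ZNB) (h4 : T_ZNM) : T_CT2 := by
  intro p _ hp Q N ν n0 C M B L θ t d hPj hLI hν hNB hN hCE hM hNM hB hMB hdL hn0L hCL hθ
  obtain ⟨hC0, hsum⟩ := CE_sum hCE
  have hz0 : 0 < 4 * M * B + 4 * M + 2 * |n0| := by positivity
  have hV0 : 0 ≤ 144 * L ^ 2 * (ν + √ν + 1 / p) := by positivity
  obtain ⟨hS0, hrest⟩ := h2 (SL 2 p) Q N n0 hPj hN
  have key := h1 (SL 2 p) (SL 2 p) (fun (j : ℕ) (y : Fin j → SL 2 p) => QB y B)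
    (fun j y => Sn Q N n0 y) (fun j y h => Zn Q N n0 y h) θ
    (4 * M * B + 4 * M + 2 * |n0|) (144 * L ^ 2 * (ν + √ν + 1 / p)) t d hθ hz0 hV0
    (fun j y => (hrest j y).1) hS0 (fun j y h => (hrest j y).2.2 h)
    (fun j y h => (hrest j y).2.1 h) (fun j hj y hy => ⟨
      fun h v => h3 (SL 2 p) Q N n0 M B j y hPj hN hsum hM.le hNM hB hy h v,
      h4 p hp Q N ν n0 C M B L j y hPj hLI hν hNB hN hCE hM.le hNM hB hy hMB (by
        refine le_trans ?_ hdL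
        have : (j : ℝ) ≤ d := by exact_mod_cast hj.le
        have : 0 ≤ |n0| + C := by positivity
        gcongr) hn0L hCL⟩)
  refine le_trans ?_ key
  refine Nat.cast_le.mpr (Nat.card_le_card_of_injective (Subtype.map id ?_)
    (Subtype.map_injective _ Function.injective_id))
  rintro a ⟨ha, hb⟩
  refine ⟨ha, fun hc => hb fun v => ?_⟩
  exact form hPj a hc v

end Pool.Agent.RCG
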