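import Pool.Agent.RCG.Targets

/-!
# RCG: T_SPC, spectral projection of a symmetric matrix
-/

set_option autoImplicit false

namespace Pool.Agent.RCG

open Finset Matrix

namespace SPC_

variable {ι : Type} [Fintype ι] [DecidableEq ι]

/-- the matrix with eigenvalues `d` in the orthonormal basis `U` -/
def FF (U : Matrix ι ι ℝ) (d : ι → ℝ) : Matrix ι ι ℝ := U * diagonal d * Uᵀ

theorem FF_mul (U : Matrix ι ι ℝ) (hU : Uᵀ * U = 1) (d e : ι → ℝ) :
    FF U d * FF U e = FF U (fun i => d i * e i) := by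
  unfold FF
  calc U * diagonal d * Uᵀ * (U * diagonal e * Uᵀ)
      = U * diagonal d * (Uᵀ * U) * diagonal e * Uᵀ := by simp only [Matrix.mul_assoc]
    _ = U * (diagonal d * diagonal e) * Uᵀ := by rw [hU, Matrix.mul_one, Matrix.mul_assoc U]
    _ = _ := by rw [diagonal_mul_diagonal]

theorem FF_one (U : Matrix ι ι ℝ) (hU' : U * Uᵀ = 1) : FF U (fun _ => 1) = 1 := by
  unfold FF
  have h : (diagonal (fun _ => (1 : ℝ)) : Matrix ι ι ℝ) = 1 := diagonal_one
  rw [h, Matrix.mul_one, hU']

theorem FF_pow (U : Matrix ι ι ℝ) (hU : Uᵀ * U = 1) (hU' : U * Uᵀ = 1) (d : ι → ℝ) (n : ℕ) :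
    FF U d ^ n = FF U (fun i => d i ^ n) := by
  induction n with
  | zero =>
    rw [pow_zero]
    simp only [pow_zero]
    exact (FF_one U hU').symm
  | succ n ih =>
    rw [pow_succ, ih, FF_mul U hU]
    simp only [pow_succ]

theorem FF_herm (U : Matrix ι ι ℝ) (d : ι → ℝ) : (FF U d).IsHermitian := by
  unfold Matrix.IsHermitian FF
  rw [conjTranspose_eq_transpose_of_trivial, transpose_mul, transpose_mul, transpose_transpose,
    diagonal_transpose, Matrix.mul_assoc]

theorem FF_quad (U : Matrix ι ι ℝ) (d : ι → ℝ) (v : ι → ℝ) :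
    v ⬝ᵥ FF U d *ᵥ v = ∑ i, d i * (Uᵀ *ᵥ v) i ^ 2 := by
  unfold FF
  rw [← mulVec_mulVec, ← mulVec_mulVec, dotProduct_mulVec, ← mulVec_transpose]
  unfold dotProduct
  apply Finset.sum_congr rfl
  intro i _
  rw [mulVec_diagonal]
  ring

theorem norm_quad (U : Matrix ι ι ℝ) (hU' : U * Uᵀ = 1) (v : ι → ℝ) :
    v ⬝ᵥ v = ∑ i, (Uᵀ *ᵥ v) i ^ 2 := by
  have h := FF_quad U (fun _ => 1) v
  rw [FF_one U hU', one_mulVec] at h
  simpa using h

theorem diag (M : Matrix ι ι ℝ) (hM : M.IsHermitian) :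
    ∃ (U : Matrix ι ι ℝ) (d : ι → ℝ), Uᵀ * U = 1 ∧ U * Uᵀ = 1 ∧ M = FF U d := by
  refine ⟨(hM.eigenvectorUnitary : Matrix ι ι ℝ), hM.eigenvalues, ?_, ?_, ?_⟩
  · have h := Unitary.coe_star_mul_self hM.eigenvectorUnitary
    rw [star_eq_conjTranspose, conjTranspose_eq_transpose_of_trivial] at h
    exact h
  · have h := Unitary.coe_mul_star_self hM.eigenvectorUnitary
    rw [Unitary.coe_star, star_eq_conjTranspose, conjTranspose_eq_transpose_of_trivial] at h
    exact h
  · have h := hM.spectral_theorem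
    rw [Unitary.conjStarAlgAut_apply, star_eq_conjTranspose,
      conjTranspose_eq_transpose_of_trivial] at h
    exact h

end SPC_

open SPC_ in
/-- spectral cut -/
theorem prove_SPC : T_SPC := by
  classical
  intro ι _ _ M θ n hM hθ hn
  obtain ⟨U, d, hU, hU', hd⟩ := SPC_.diag M hM
  refine ⟨FF U (fun i => if θ < |d i| then 1 else 0), FF_herm U _, ?_, ?_, ?_⟩
  · rw [FF_mul U hU]
    congr 1
    funext i
    split_ifs <;> simp
  · intro v
    have hp : M ^ n = FF U (fun i => d i ^ n) := by rw [hd, FF_pow U hU hU']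
    rw [hp, FF_quad, FF_quad, Finset.mul_sum]
    apply Finset.sum_le_sum
    intro i _
    rw [← mul_assoc]
    apply mul_le_mul_of_nonneg_right _ (sq_nonneg _)
    have h0 : 0 < θ ^ n := pow_pos hθ n
    split_ifs with h
    · rw [← hn.pow_abs (d i), ← div_eq_inv_mul, le_div_iff₀ h0, one_mul]
      exact pow_le_pow_left₀ hθ.le h.le n
    · exact mul_nonneg (inv_nonneg.mpr h0.le) (hn.pow_nonneg _)
  · intro B hB v
    have hdB : ∀ i, |d i| ≤ B := by
      intro i
      have h1 := hB (U *ᵥ Pi.single i 1)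
      have h2 : Uᵀ *ᵥ (U *ᵥ Pi.single i 1) = Pi.single i 1 := by
        rw [mulVec_mulVec, hU, one_mulVec]
      rw [hd, FF_quad, norm_quad U hU', h2] at h1
      have h3 : ∀ e : ι → ℝ, ∑ j, e j * (Pi.single i (1 : ℝ) : ι → ℝ) j ^ 2 = e i := by
        intro e
        rw [Finset.sum_eq_single i]
        · simp
        · intro j _ hj
          rw [Pi.single_eq_of_ne hj]; simp
        · intro h; exact absurd (Finset.mem_univ i) h
      have h4 := h3 (fun _ => 1)
      simp only [one_mul] at h4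
      rw [h3, h4, mul_one] at h1
      exact h1
    rw [hd, FF_quad, FF_quad, norm_quad U hU', Finset.mul_sum, Finset.mul_sum,
      ← Finset.sum_add_distrib]
    refine (Finset.abs_sum_le_sum_abs _ _).trans ?_
    apply Finset.sum_le_sum
    intro i _
    rw [abs_mul, abs_of_nonneg (sq_nonneg ((Uᵀ *ᵥ v) i)), ← mul_assoc, ← add_mul]
    apply mul_le_mul_of_nonneg_right _ (sq_nonneg _)
    split_ifs with h
    · have := hdB i
      linarith
    · push Not at h
      linarith

end Pool.Agent.RCG
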