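import Pool.Agent.RCG.Targets4
import Pool.Agent.RCG.SPC

/-!
# RCG: T_SPX, three-term exponential inequality for a symmetric matrix
-/

set_option autoImplicit false

namespace Pool.Agent.RCG

open Finset Matrix

namespace SPX_

variable {ι : Type} [Fintype ι] [DecidableEq ι]

theorem exp_FF (U : Matrix ι ι ℝ) (hU : Uᵀ * U = 1) (d : ι → ℝ) (t : ℝ) :
    NormedSpace.exp (t • SPC_.FF U d) = SPC_.FF U (fun i => Real.exp (t * d i)) := by
  have hinv : U⁻¹ = Uᵀ := Matrix.inv_eq_left_inv hU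
  have hunit : IsUnit U := by
    rw [Matrix.isUnit_iff_isUnit_det]
    have h := congrArg Matrix.det hU
    rw [Matrix.det_mul, Matrix.det_one] at h
    exact IsUnit.of_mul_eq_one_right _ h
  unfold SPC_.FF
  have h1 : t • (U * diagonal d * Uᵀ) = U * diagonal (fun i => t * d i) * U⁻¹ := by
    rw [hinv]
    have h2 : diagonal (fun i => t * d i) = t • diagonal d := by
      ext i j
      by_cases h : i = j
      · subst h
        simp
      · simp [h]
    rw [h2, Matrix.mul_smul, Matrix.smul_mul]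
  rw [h1, Matrix.exp_conj U _ hunit, Matrix.exp_diagonal, hinv]
  congr 3
  funext i
  rw [_root_.Pi.coe_exp, ← Real.exp_eq_exp_ℝ]

theorem scalar {t t1 R R' : ℝ} {n : ℕ} (ht : 0 ≤ t) (ht1 : t ≤ t1) (hR : 0 < R) (hn : Even n)
    (x : ℝ) : Real.exp (t * x) ≤ Real.exp (t * R) + Real.exp (t * R') * (R ^ n)⁻¹ * x ^ n +
      Real.exp (-((t1 - t) * R')) * Real.exp (t1 * x) := by
  have p1 : 0 < Real.exp (t * R) := Real.exp_pos _
  have p2 : 0 ≤ Real.exp (t * R') * (R ^ n)⁻¹ * x ^ n :=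
    mul_nonneg (mul_nonneg (Real.exp_pos _).le (by positivity)) (hn.pow_nonneg x)
  have p3 : 0 < Real.exp (-((t1 - t) * R')) * Real.exp (t1 * x) := by positivity
  rcases le_or_gt x R with h | h
  · have h1 : Real.exp (t * x) ≤ Real.exp (t * R) :=
      Real.exp_le_exp.2 (mul_le_mul_of_nonneg_left h ht)
    linarith
  · rcases le_or_gt x R' with h' | h'
    · have h1 : Real.exp (t * x) ≤ Real.exp (t * R') :=
        Real.exp_le_exp.2 (mul_le_mul_of_nonneg_left h' ht)
      have h2 : 1 ≤ (R ^ n)⁻¹ * x ^ n := by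
        rw [← div_eq_inv_mul, le_div_iff₀ (by positivity), one_mul]
        exact pow_le_pow_left₀ hR.le h.le n
      have h3 : Real.exp (t * R') * 1 ≤ Real.exp (t * R') * ((R ^ n)⁻¹ * x ^ n) :=
        mul_le_mul_of_nonneg_left h2 (Real.exp_pos _).le
      have h4 : Real.exp (t * R') * ((R ^ n)⁻¹ * x ^ n) =
          Real.exp (t * R') * (R ^ n)⁻¹ * x ^ n := by ring
      linarith
    · have h1 : Real.exp (t * x) ≤ Real.exp (-((t1 - t) * R')) * Real.exp (t1 * x) := by
        rw [← Real.exp_add]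
        refine Real.exp_le_exp.2 ?_
        nlinarith [mul_nonneg (sub_nonneg.2 ht1) (sub_nonneg.2 h'.le)]
      linarith

end SPX_

open SPX_ in
/-- three-term exponential inequality -/
theorem prove_SPX : T_SPX := by
  intro ι _ _ M t t1 R R' n hM ht ht1 hR hRR' hn v
  obtain ⟨U, d, hU, hU', hd⟩ := SPC_.diag M hM
  rw [hd, exp_FF U hU, exp_FF U hU, SPC_.FF_pow U hU hU', SPC_.FF_quad, SPC_.FF_quad,
    SPC_.FF_quad, SPC_.norm_quad U hU', Finset.mul_sum, Finset.mul_sum, Finset.mul_sum,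
    ← Finset.sum_add_distrib, ← Finset.sum_add_distrib]
  refine Finset.sum_le_sum fun i _ => ?_
  have h := mul_le_mul_of_nonneg_right (scalar (R' := R') (n := n) ht ht1 hR hn (d i))
    (sq_nonneg ((Uᵀ *ᵥ v) i))
  calc _ ≤ _ := h
    _ = _ := by ring

end Pool.Agent.RCG
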