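import Pool.Agent.RCG.Targets6
import Pool.Agent.RCG.SPX

/-!
# RCG: T_CVX, log-convexity of the exponential moments
-/

set_option autoImplicit false

namespace Pool.Agent.RCG

open Finset Matrix

namespace CVX_

theorem scalar {σ t t1 b : ℝ} (ht : 0 ≤ t) (ht1 : t ≤ t1) (h1 : 0 < t1) (x : ℝ) :
    Real.exp (σ * t * x) ≤ Real.exp (t * b) *
      (t / t1 * Real.exp (-(t1 * b)) * Real.exp (σ * t1 * x) + (1 - t / t1)) := by
  have hθ0 : 0 ≤ t / t1 := by positivity
  have hθ1 : 0 ≤ 1 - t / t1 := by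
    have : t / t1 ≤ 1 := by
      rw [div_le_one h1]
      exact ht1
    linarith
  have hc := convexOn_exp.2 (Set.mem_univ (σ * t1 * x - t1 * b)) (Set.mem_univ (0 : ℝ)) hθ0 hθ1
    (by ring)
  simp only [smul_eq_mul, mul_zero, add_zero, Real.exp_zero, mul_one] at hc
  have e1 : t / t1 * (σ * t1 * x - t1 * b) = σ * t * x - t * b := by
    field_simp
  rw [e1] at hc
  have e2 : Real.exp (σ * t1 * x - t1 * b) = Real.exp (-(t1 * b)) * Real.exp (σ * t1 * x) := by
    rw [← Real.exp_add]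
    congr 1
    ring
  rw [e2] at hc
  have e3 : Real.exp (σ * t * x) = Real.exp (t * b) * Real.exp (σ * t * x - t * b) := by
    rw [← Real.exp_add]
    congr 1
    ring
  rw [e3]
  refine mul_le_mul_of_nonneg_left (hc.trans (le_of_eq ?_)) (Real.exp_pos _).le
  ring

theorem quad {ι : Type} [Fintype ι] [DecidableEq ι] (M : Matrix ι ι ℝ) (hM : M.IsHermitian)
    {σ t t1 b : ℝ} (ht : 0 ≤ t) (ht1 : t ≤ t1) (h1 : 0 < t1) (v : ι → ℝ) :
    v ⬝ᵥ (NormedSpace.exp ((σ * t) • M)) *ᵥ v ≤ Real.exp (t * b) *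
      (t / t1 * Real.exp (-(t1 * b)) * (v ⬝ᵥ (NormedSpace.exp ((σ * t1) • M)) *ᵥ v) +
        (1 - t / t1) * (v ⬝ᵥ v)) := by
  obtain ⟨U, d, hU, hU', hd⟩ := SPC_.diag M hM
  rw [hd, SPX_.exp_FF U hU, SPX_.exp_FF U hU, SPC_.FF_quad, SPC_.FF_quad,
    SPC_.norm_quad U hU', Finset.mul_sum, Finset.mul_sum, ← Finset.sum_add_distrib,
    Finset.mul_sum]
  refine Finset.sum_le_sum fun i _ => ?_
  have h := mul_le_mul_of_nonneg_right (scalar (σ := σ) (b := b) ht ht1 h1 (d i))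
    (sq_nonneg ((Uᵀ *ᵥ v) i))
  calc _ ≤ _ := h
    _ = _ := by ring

end CVX_

open CVX_ in
theorem prove_CVX (h : T_ADM) : T_CVX := by
  intro G _ _ d σ t t1 b _ ht ht1 hEB f hf
  classical
  rcases eq_or_lt_of_le (ht.trans ht1) with h0 | h1
  · have e : t = t1 := by linarith
    rw [e]
    exact hEB f hf
  · obtain ⟨-, hherm, -⟩ := h G d
    set F : ℝ := ∑ x, f x ^ 2 with hF
    have hff : f ⬝ᵥ f = F := by
      rw [hF, dotProduct]
      exact sum_congr rfl fun x _ => by ring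
    have hstep : ∀ y : Fin d → G, f ⬝ᵥ (exM y (σ * t)) *ᵥ f ≤ Real.exp (t * b) *
        (t / t1 * Real.exp (-(t1 * b)) * (f ⬝ᵥ (exM y (σ * t1)) *ᵥ f) +
          (1 - t / t1) * F) := by
      intro y
      have := quad (adM y) (hherm y) (σ := σ) (b := b) ht ht1 h1 f
      rw [hff] at this
      exact this
    have hsum := sum_le_sum fun (y : Fin d → G) (_ : y ∈ univ) => hstep y
    refine hsum.trans ?_
    rw [← mul_sum, sum_add_distrib, ← mul_sum, sum_const, card_univ, Fintype.card_fun,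
      Fintype.card_fin, nsmul_eq_mul]
    have hE := hEB f hf
    push_cast
    set N : ℝ := (Fintype.card G : ℝ) ^ d with hN
    have hθ0 : 0 ≤ t / t1 := by positivity
    have h2 : t / t1 * Real.exp (-(t1 * b)) *
        ∑ y : Fin d → G, f ⬝ᵥ (exM y (σ * t1)) *ᵥ f ≤ t / t1 * (N * F) := by
      have h3 : t / t1 * Real.exp (-(t1 * b)) *
          ∑ y : Fin d → G, f ⬝ᵥ (exM y (σ * t1)) *ᵥ f ≤
          t / t1 * Real.exp (-(t1 * b)) * (Real.exp (t1 * b) * N * F) :=
        mul_le_mul_of_nonneg_left hE (by positivity)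
      have h4 : Real.exp (-(t1 * b)) * Real.exp (t1 * b) = 1 := by
        rw [← Real.exp_add, neg_add_cancel, Real.exp_zero]
      calc _ ≤ _ := h3
        _ = t / t1 * ((Real.exp (-(t1 * b)) * Real.exp (t1 * b)) * (N * F)) := by ring
        _ = _ := by rw [h4, one_mul]
    calc Real.exp (t * b) * (t / t1 * Real.exp (-(t1 * b)) *
          ∑ y : Fin d → G, f ⬝ᵥ (exM y (σ * t1)) *ᵥ f + N * ((1 - t / t1) * F))
        ≤ Real.exp (t * b) * (t / t1 * (N * F) + N * ((1 - t / t1) * F)) :=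
          mul_le_mul_of_nonneg_left (add_le_add h2 le_rfl) (Real.exp_pos _).le
      _ = Real.exp (t * b) * N * F := by ring

end Pool.Agent.RCG
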