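import Pool.Agent.RCG.Targets4

set_option autoImplicit false

/-!
# RCG: the doubling step
-/

namespace Pool.Agent.RCG

open Finset Matrix

namespace DBL_

theorem exp_pow {q : ℝ} (hq : 0 < q) (a b : ℝ) :
    Real.exp (a * Real.log q * b) = q ^ (a * b) := by
  rw [Real.rpow_def_of_pos hq]
  congr 1
  ring

/-- twice the old rate -/
theorem two_FF (d : ℕ) (k x : ℝ) (hk : 0 < k) (hkd : 2 * (d : ℝ) = k / 2) :
    2 * FF d x = max (4 * √2 * √k * x) (48 * k * Real.log (k / 2) * x ^ 2) := by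
  unfold FF
  rw [hkd, mul_max_of_nonneg _ _ (by norm_num : (0 : ℝ) ≤ 2)]
  congr 1
  · rw [Real.sqrt_div hk.le]
    have h2 : (0 : ℝ) < √2 := by positivity
    have h3 : √2 * √2 = 2 := Real.mul_self_sqrt (by norm_num)
    have h4 : √k / √2 = √2 * √k / 2 := by
      rw [div_eq_div_iff h2.ne' (by norm_num)]
      calc √k * 2 = √k * (√2 * √2) := by rw [h3]
        _ = √2 * √k * √2 := by ring
    rw [h4]
    ring
  · ring

/-- the real inequality for the case `l < l1` -/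
theorem total {Q : ℝ} (hQ : 1 ≤ Q) {k l l1 ε F Fd m : ℝ} (n : ℕ)
    (h1 : 4 * √k * l ≤ F) (h2 : l * (8 * √2 * √k) - Real.log 2 / Real.log k ≤ F)
    (h3 : -((l1 - l) * (8 * √2 * √k)) + Fd ≤ F) (hε : 0 < ε)
    (hm : ((4 * √k) ^ n)⁻¹ * m ≤ Q ^ (-(Real.log 2 / Real.log k) + ε)) (h3Q : 3 ≤ Q ^ ε) :
    Real.exp (l * Real.log Q * (4 * √k)) +
      Real.exp (l * Real.log Q * (8 * √2 * √k)) * ((4 * √k) ^ n)⁻¹ * m +
      Real.exp (-((l1 * Real.log Q - l * Real.log Q) * (8 * √2 * √k))) * Q ^ (Fd + 2 * ε) ≤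
    Q ^ (F + 3 * ε) := by
  have hQ0 : 0 < Q := by linarith
  have t1 : Real.exp (l * Real.log Q * (4 * √k)) ≤ Q ^ (F + 2 * ε) := by
    rw [exp_pow hQ0]
    exact Real.rpow_le_rpow_of_exponent_le hQ (by linarith)
  have t2 : Real.exp (l * Real.log Q * (8 * √2 * √k)) * ((4 * √k) ^ n)⁻¹ * m ≤
      Q ^ (F + 2 * ε) := by
    rw [exp_pow hQ0, mul_assoc]
    calc Q ^ (l * (8 * √2 * √k)) * (((4 * √k) ^ n)⁻¹ * m)
        ≤ Q ^ (l * (8 * √2 * √k)) * Q ^ (-(Real.log 2 / Real.log k) + ε) :=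
          mul_le_mul_of_nonneg_left hm (Real.rpow_nonneg hQ0.le _)
      _ = Q ^ (l * (8 * √2 * √k) + (-(Real.log 2 / Real.log k) + ε)) :=
          (Real.rpow_add hQ0 _ _).symm
      _ ≤ Q ^ (F + 2 * ε) := Real.rpow_le_rpow_of_exponent_le hQ (by linarith)
  have t3 : Real.exp (-((l1 * Real.log Q - l * Real.log Q) * (8 * √2 * √k))) *
      Q ^ (Fd + 2 * ε) ≤ Q ^ (F + 2 * ε) := by
    have e : -((l1 * Real.log Q - l * Real.log Q) * (8 * √2 * √k)) =
        (-(l1 - l)) * Real.log Q * (8 * √2 * √k) := by ring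
    rw [e, exp_pow hQ0, ← Real.rpow_add hQ0]
    refine Real.rpow_le_rpow_of_exponent_le hQ ?_
    have e2 : -(l1 - l) * (8 * √2 * √k) = -((l1 - l) * (8 * √2 * √k)) := by ring
    rw [e2]
    linarith
  have t4 : Q ^ (F + 3 * ε) = Q ^ ε * Q ^ (F + 2 * ε) := by
    rw [← Real.rpow_add hQ0]
    congr 1
    ring
  rw [t4]
  have hp : 0 ≤ Q ^ (F + 2 * ε) := Real.rpow_nonneg hQ0.le _
  nlinarith

end DBL_

open DBL_ in
theorem prove_DBL (h1 : T_SUB) (h2 : T_EBX) (h3 : T_TRV) (h4 : T_MOM) (h5 : T_OPT) : T_DBL := by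
  intro I G _ _ q d hd hAvg hE l ε hl hε
  obtain ⟨c, hc⟩ := hAvg
  obtain ⟨k, hk⟩ : ∃ k : ℝ, k = 2 * ((2 * d : ℕ) : ℝ) := ⟨_, rfl⟩
  have hd2 : (2 : ℝ) ≤ d := by exact_mod_cast hd
  have hk4 : 4 < k := by
    rw [hk]
    push_cast
    linarith
  have hk0 : 0 < k := by linarith
  have hkd : 2 * (d : ℝ) = k / 2 := by
    rw [hk]
    push_cast
    ring
  obtain ⟨l1, hl1⟩ : ∃ l1 : ℝ, l1 = √2 / (12 * √k * Real.log k) := ⟨_, rfl⟩
  have hF2 : FF (2 * d) l = max (4 * √k * l) (48 * k * Real.log k * l ^ 2) := by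
    unfold FF
    rw [← hk]
  have hFle1 : 4 * √k * l ≤ FF (2 * d) l := by
    rw [hF2]
    exact le_max_left _ _
  have hFle2 : 48 * k * Real.log k * l ^ 2 ≤ FF (2 * d) l := by
    rw [hF2]
    exact le_max_right _ _
  have hdbl : ∀ x δ : ℝ, 0 ≤ x → 0 < δ → ∃ P : ℝ, ∀ i, P ≤ q i → ∀ σ : ℝ, (σ = 1 ∨ σ = -1) →
      EB (G i) (2 * d) (σ * (x * Real.log (q i))) (q i ^ (2 * FF d x + 2 * δ)) := by
    intro x δ hx hδ
    obtain ⟨P, hP⟩ := hE x δ hx hδ
    refine ⟨max P 1, fun i hi σ hσ => ?_⟩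
    have h := hP i ((le_max_left _ _).trans hi) σ hσ
    have hq : 0 < q i := lt_of_lt_of_le one_pos ((le_max_right _ _).trans hi)
    have h' := h1 (G i) d d _ _ _ (Real.rpow_nonneg hq.le _) (Real.rpow_nonneg hq.le _) h h
    rw [← Real.rpow_add hq, ← two_mul d] at h'
    have e2 : FF d x + δ + (FF d x + δ) = 2 * FF d x + 2 * δ := by ring
    rw [e2] at h'
    exact h'
  obtain ⟨o1, o2, o3⟩ := h5 k l l1 hk4 hl hl1
  rcases le_or_gt l1 l with hge | hlt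
  · obtain ⟨P, hP⟩ := hdbl l (ε / 2) hl (half_pos hε)
    refine ⟨max P 1, fun i hi σ hσ => ?_⟩
    have hq1 : 1 ≤ q i := (le_max_right _ _).trans hi
    have hmono := (h3 (G i) (2 * d) 1 0 (Or.inl rfl) le_rfl).2
    refine hmono _ _ _ ?_ (hP i ((le_max_left _ _).trans hi) σ hσ)
    refine Real.rpow_le_rpow_of_exponent_le hq1 ?_
    have o1' := o1 hge
    rw [← two_FF d k l hk0 hkd] at o1'
    linarith
  · have hl10 : 0 ≤ l1 := hl.trans hlt.le
    have hε3 : 0 < ε / 3 := by positivity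
    obtain ⟨P1, hP1⟩ := hdbl l1 (ε / 3) hl10 hε3
    obtain ⟨P2, hP2⟩ := h4 k (max c 1) (ε / 3) hk4 (lt_max_of_lt_right one_pos) hε3
    refine ⟨max (max P1 P2) (max c (3 ^ (1 / (ε / 3)))), fun i hi σ hσ => ?_⟩
    have hi1 : P1 ≤ q i := ((le_max_left _ _).trans (le_max_left _ _)).trans hi
    have hi2 : P2 ≤ q i := ((le_max_right _ _).trans (le_max_left _ _)).trans hi
    have hi3 : c ≤ q i := ((le_max_left _ _).trans (le_max_right _ _)).trans hi
    have hi4 : (3 : ℝ) ^ (1 / (ε / 3)) ≤ q i :=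
      ((le_max_right _ _).trans (le_max_right _ _)).trans hi
    obtain ⟨hq1, n, hn, hm⟩ := hP2 (q i) hi2
    have hlog : 0 ≤ Real.log (q i) := Real.log_nonneg hq1
    have h3q : 3 ≤ q i ^ (ε / 3) := by
      have e : (3 : ℝ) = ((3 : ℝ) ^ (1 / (ε / 3))) ^ (ε / 3) := by
        rw [← Real.rpow_mul (by norm_num), one_div, inv_mul_cancel₀ hε3.ne', Real.rpow_one]
      calc (3 : ℝ) = ((3 : ℝ) ^ (1 / (ε / 3))) ^ (ε / 3) := e
        _ ≤ q i ^ (ε / 3) := Real.rpow_le_rpow (by positivity) hi4 hε3.le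
    have hsk : 0 < √k := Real.sqrt_pos.mpr hk0
    have hs2 : 1 ≤ √2 := by
      rw [Real.one_le_sqrt]
      norm_num
    have hX := h2 (G i) (2 * d) n σ (l * Real.log (q i)) (l1 * Real.log (q i)) (4 * √k)
      (8 * √2 * √k) (k ^ n * ((2 / √k) ^ n + max c 1 * √(((n : ℝ) + 1) / q i)))
      (q i ^ (2 * FF d l1 + 2 * (ε / 3))) hσ (mul_nonneg hl hlog)
      (mul_le_mul_of_nonneg_right hlt.le hlog) (by positivity) (by nlinarith) hn
      (fun f hf => by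
        have h6 := hc i hi3 n f hf
        rw [← hk] at h6
        refine h6.trans ?_
        have hc1 : c ≤ max c 1 := le_max_left _ _
        have hF : 0 ≤ ∑ x, f x ^ 2 := Finset.sum_nonneg fun x _ => sq_nonneg _
        calc k ^ n * (Fintype.card (G i) : ℝ) ^ (2 * d) *
              ((2 / √k) ^ n + c * √(((n : ℝ) + 1) / q i)) * ∑ x, f x ^ 2
            = k ^ n * ((2 / √k) ^ n + c * √(((n : ℝ) + 1) / q i)) *
              (Fintype.card (G i) : ℝ) ^ (2 * d) * ∑ x, f x ^ 2 := by ring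
          _ ≤ k ^ n * ((2 / √k) ^ n + max c 1 * √(((n : ℝ) + 1) / q i)) *
              (Fintype.card (G i) : ℝ) ^ (2 * d) * ∑ x, f x ^ 2 := by gcongr)
      (hP1 i hi1 σ hσ)
    have hmono := (h3 (G i) (2 * d) 1 0 (Or.inl rfl) le_rfl).2
    refine hmono _ _ _ ?_ hX
    have o3' := o3
    rw [← two_FF d k l1 hk0 hkd] at o3'
    have h7 := total hq1 (k := k) (l := l) (l1 := l1) (ε := ε / 3) (F := FF (2 * d) l)
      (Fd := 2 * FF d l1) n hFle1 (o2.trans hFle2) (o3'.trans hFle2) hε3 hm h3q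
    have e3 : FF (2 * d) l + 3 * (ε / 3) = FF (2 * d) l + ε := by ring
    rw [e3] at h7
    exact h7

end Pool.Agent.RCG
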