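import Pool.Agent.RCG.Targets14

set_option autoImplicit false

/-!
# RCG, DEN: few large eigenvalues in one invariant space
-/

namespace Pool.Agent.RCG

open Finset Matrix

namespace DEN_

theorem al_mem {G : Type} [Group G] [Fintype G] {d : ℕ} (y : Fin d → G)
    (W : Submodule ℂ (EuclideanSpace ℂ G)) (hW : InvS W) (f : EuclideanSpace ℂ G)
    (hf : f ∈ W) : AL y f ∈ W := by
  unfold AL
  rw [LinearMap.sum_apply]
  refine Submodule.sum_mem _ fun i _ => ?_
  rw [LinearMap.add_apply]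
  exact W.add_mem (hW.2 _ f hf) (hW.2 _ f hf)

/-- SPT for the restriction of a symmetric operator to an invariant subspace. -/
theorem gen (hS : T_SPT) (V : Type) [NormedAddCommGroup V] [InnerProductSpace ℂ V]
    [FiniteDimensional ℂ V] (T : V →ₗ[ℂ] V) (hT : T.IsSymmetric) (W E : Submodule ℂ V)
    (hE : E ≤ W) (hTW : ∀ f ∈ W, T f ∈ W) (R : ℝ) (n : ℕ) (hR : 0 ≤ R) (hn : Even n)
    (hlarge : ∀ f ∈ E, f ≠ 0 → R * ‖f‖ < ‖T f‖) :
    R ^ n * Module.finrank ℂ E ≤ (LinearMap.trace ℂ W ((T.restrict hTW) ^ n)).re := by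
  have hsym := hT.restrict_invariant hTW
  have h1 := hS W (T.restrict hTW) (Submodule.comap W.subtype E) R n hsym hR hn (by
    intro v hv hv0
    have h2 := hlarge (v : V) hv (by
      intro h
      exact hv0 (Subtype.ext h))
    exact h2)
  have h3 : Module.finrank ℂ (Submodule.comap W.subtype E) = Module.finrank ℂ E :=
    LinearEquiv.finrank_eq (Submodule.comapSubtypeEquivOfLe hE)
  rw [h3] at h1
  exact h1

theorem fin (R A w : ℝ) (n e : ℕ) (hR : 0 < R) (h : R ^ n * e ≤ A * w) :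
    (e : ℝ) ≤ A / R ^ n * w := by
  have hRn : 0 < R ^ n := pow_pos hR n
  rw [div_mul_eq_mul_div, le_div_iff₀ hRn, mul_comm]
  exact h

end DEN_

open DEN_ in
theorem prove_DEN (hA : T_TRA) (hS : T_SPT) (hR : T_RTP) : T_DEN := by
  intro p _ d n y κ R hκ hR0 hn hΦ W hW E hE hlarge
  have hAW : ∀ f ∈ W, AL y f ∈ W := fun f hf => al_mem y W hW f hf
  obtain ⟨-, -, -, -, h5⟩ := hR (SL 2 p)
  have h1 := gen hS _ (AL y) (h5 d y).1 W E hE hAW R n hR0.le hn hlarge
  have h2 := hA p d n y κ W hW hAW hκ hΦ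
  exact fin R _ _ n _ hR0 (h1.trans h2)

end Pool.Agent.RCG
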