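import Pool.Agent.RCG.Targets
import Pool.Agent.RCG.DIM2

/-!
# RCG: DIM3

Every nonzero left-invariant space of functions of sum zero on `SL (3, p)` has dimension at least
`p ^ 2 - 1`.
-/

set_option autoImplicit false

namespace Pool.Agent.RCG

open Finset

namespace DIM3_

variable {p : ℕ}

/-- pairs -/
abbrev W (p : ℕ) : Type := ZMod p × ZMod p

/-- the unipotent radical -/
def u (v : W p) : SL 3 p :=
  ⟨!![1, 0, v.1; 0, 1, v.2; 0, 0, 1], by simp [Matrix.det_fin_three]⟩

/-- `1 + c E_(3,1)` -/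
def e20 (c : ZMod p) : SL 3 p :=
  ⟨!![1, 0, 0; 0, 1, 0; c, 0, 1], by simp [Matrix.det_fin_three]⟩

theorem det2 (M : SL 2 p) : M.1 0 0 * M.1 1 1 - M.1 0 1 * M.1 1 0 = 1 := by
  have := M.2
  rwa [Matrix.det_fin_two] at this

/-- upper left block -/
def φ (M : SL 2 p) : SL 3 p :=
  ⟨!![M.1 0 0, M.1 0 1, 0; M.1 1 0, M.1 1 1, 0; 0, 0, 1], by
    rw [Matrix.det_fin_three]
    simp
    linear_combination det2 M⟩

/-- lower right block -/
def φ' (M : SL 2 p) : SL 3 p :=
  ⟨!![1, 0, 0; 0, M.1 0 0, M.1 0 1; 0, M.1 1 0, M.1 1 1], by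
    rw [Matrix.det_fin_three]
    simp
    linear_combination det2 M⟩

/-- the action on pairs -/
def act (M : SL 2 p) (v : W p) : W p :=
  (M.1 0 0 * v.1 + M.1 0 1 * v.2, M.1 1 0 * v.1 + M.1 1 1 * v.2)

theorem u_mul (v w : W p) : u v * u w = u (v + w) := by
  apply Subtype.ext
  change !![1, 0, v.1; 0, 1, v.2; 0, 0, 1] * !![1, 0, w.1; 0, 1, w.2; 0, 0, 1] =
    !![1, 0, v.1 + w.1; 0, 1, v.2 + w.2; 0, 0, 1]
  ext i j
  fin_cases i <;> fin_cases j <;> simp [Matrix.mul_apply, Fin.sum_univ_three, add_comm]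

theorem u_zero : (u 0 : SL 3 p) = 1 := by
  apply Subtype.ext
  change !![1, 0, (0 : ZMod p); 0, 1, 0; 0, 0, 1] = (1 : Matrix (Fin 3) (Fin 3) (ZMod p))
  ext i j
  fin_cases i <;> fin_cases j <;> simp

theorem mul_coe (M N : SL 2 p) (i j : Fin 2) :
    (M * N).1 i j = M.1 i 0 * N.1 0 j + M.1 i 1 * N.1 1 j := by
  change (M.1 * N.1) i j = _
  rw [Matrix.mul_apply, Fin.sum_univ_two]

theorem φ_mul (M N : SL 2 p) : φ (M * N) = φ M * φ N := by
  apply Subtype.ext
  change !![(M * N).1 0 0, (M * N).1 0 1, 0; (M * N).1 1 0, (M * N).1 1 1, 0; 0, 0, 1] =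
    !![M.1 0 0, M.1 0 1, 0; M.1 1 0, M.1 1 1, 0; 0, 0, 1] *
    !![N.1 0 0, N.1 0 1, 0; N.1 1 0, N.1 1 1, 0; 0, 0, 1]
  simp only [mul_coe]
  ext i j
  fin_cases i <;> fin_cases j <;> simp [Matrix.mul_apply, Fin.sum_univ_three]

theorem φ'_mul (M N : SL 2 p) : φ' (M * N) = φ' M * φ' N := by
  apply Subtype.ext
  change !![1, 0, 0; 0, (M * N).1 0 0, (M * N).1 0 1; 0, (M * N).1 1 0, (M * N).1 1 1] =
    !![1, 0, 0; 0, M.1 0 0, M.1 0 1; 0, M.1 1 0, M.1 1 1] *
    !![1, 0, 0; 0, N.1 0 0, N.1 0 1; 0, N.1 1 0, N.1 1 1]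
  simp only [mul_coe]
  ext i j
  fin_cases i <;> fin_cases j <;> simp [Matrix.mul_apply, Fin.sum_univ_three]

theorem φ_mul_u (M : SL 2 p) (v : W p) : φ M * u v = u (act M v) * φ M := by
  apply Subtype.ext
  change !![M.1 0 0, M.1 0 1, 0; M.1 1 0, M.1 1 1, 0; 0, 0, 1] *
      !![1, 0, v.1; 0, 1, v.2; 0, 0, 1] =
    !![1, 0, (act M v).1; 0, 1, (act M v).2; 0, 0, 1] *
      !![M.1 0 0, M.1 0 1, 0; M.1 1 0, M.1 1 1, 0; 0, 0, 1]
  ext i j
  fin_cases i <;> fin_cases j <;> simp [Matrix.mul_apply, Fin.sum_univ_three, act]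

/-- the four commutator relations -/
theorem com1 (c : ZMod p) : u (c, 0) * φ' (DIM2_.L 1) =
    φ (DIM2_.U c) * φ' (DIM2_.L 1) * u (c, 0) := by
  apply Subtype.ext
  change !![1, 0, c; 0, 1, 0; 0, 0, 1] * !![1, 0, 0; 0, 1, 0; 0, 1, 1] =
    !![1, c, 0; 0, 1, 0; 0, 0, 1] * !![1, 0, 0; 0, 1, 0; 0, 1, 1] * !![1, 0, c; 0, 1, 0; 0, 0, 1]
  ext i j
  fin_cases i <;> fin_cases j <;> simp [Matrix.mul_apply, Fin.sum_univ_three]

theorem com2 (c : ZMod p) : u (0, c) * e20 1 = φ (DIM2_.L c) * e20 1 * u (0, c) := by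
  apply Subtype.ext
  change !![1, 0, 0; 0, 1, c; 0, 0, 1] * !![1, 0, 0; 0, 1, 0; 1, 0, 1] =
    !![1, 0, 0; c, 1, 0; 0, 0, 1] * !![1, 0, 0; 0, 1, 0; 1, 0, 1] * !![1, 0, 0; 0, 1, c; 0, 0, 1]
  ext i j
  fin_cases i <;> fin_cases j <;> simp [Matrix.mul_apply, Fin.sum_univ_three]

theorem com3 (c : ZMod p) : φ' (DIM2_.L 1) * φ (DIM2_.L c) =
    e20 c * φ (DIM2_.L c) * φ' (DIM2_.L 1) := by
  apply Subtype.ext
  change !![1, 0, 0; 0, 1, 0; 0, 1, 1] * !![1, 0, 0; c, 1, 0; 0, 0, 1] =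
    !![1, 0, 0; 0, 1, 0; c, 0, 1] * !![1, 0, 0; c, 1, 0; 0, 0, 1] * !![1, 0, 0; 0, 1, 0; 0, 1, 1]
  ext i j
  fin_cases i <;> fin_cases j <;> simp [Matrix.mul_apply, Fin.sum_univ_three]

theorem com4 (c : ZMod p) : e20 1 * φ (DIM2_.U c) =
    φ' (DIM2_.L c) * φ (DIM2_.U c) * e20 1 := by
  apply Subtype.ext
  change !![1, 0, 0; 0, 1, 0; 1, 0, 1] * !![1, c, 0; 0, 1, 0; 0, 0, 1] =
    !![1, 0, 0; 0, 1, 0; 0, c, 1] * !![1, c, 0; 0, 1, 0; 0, 0, 1] * !![1, 0, 0; 0, 1, 0; 1, 0, 1]
  ext i j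
  fin_cases i <;> fin_cases j <;> simp [Matrix.mul_apply, Fin.sum_univ_three]

theorem mem_com {N : Subgroup (SL 3 p)} (hN : ∀ g ∈ N, ∀ h, h * g * h⁻¹ ∈ N) {a b e : SL 3 p}
    (h : a * b = e * b * a) (hab : a ∈ N ∨ b ∈ N) : e ∈ N := by
  rcases hab with ha | hb
  · have h1 : e = a * (b * a⁻¹ * b⁻¹) := by
      have h2 : e = a * b * a⁻¹ * b⁻¹ := by rw [h]; group
      rw [h2]
      group
    rw [h1]
    exact N.mul_mem ha (hN _ (N.inv_mem ha) _)
  · have h1 : e = a * b * a⁻¹ * b⁻¹ := by rw [h]; group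
    rw [h1]
    exact N.mul_mem (hN _ hb _) (N.inv_mem hb)

/-- a normal subgroup which contains the unipotent radical is everything -/
theorem gen [Fact p.Prime] (N : Subgroup (SL 3 p)) (hN : ∀ g ∈ N, ∀ h, h * g * h⁻¹ ∈ N)
    (hu : ∀ v, u v ∈ N) (M : SL 3 p) : M ∈ N := by
  have h01 : ∀ c, φ (DIM2_.U c) ∈ N := fun c => mem_com hN (com1 c) (Or.inl (hu _))
  have h10 : ∀ c, φ (DIM2_.L c) ∈ N := fun c => mem_com hN (com2 c) (Or.inl (hu _))
  have h20 : ∀ c, e20 c ∈ N := fun c => mem_com hN (com3 c) (Or.inr (h10 c))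
  have h21 : ∀ c, φ' (DIM2_.L c) ∈ N := fun c => mem_com hN (com4 c) (Or.inr (h01 c))
  have h12 : ∀ c, φ' (DIM2_.U c) ∈ N := by
    intro c
    have : φ' (DIM2_.U c) = u (0, c) := by
      apply Subtype.ext
      change !![1, 0, 0; 0, 1, c; 0, 0, 1] = !![1, 0, 0; 0, 1, c; 0, 0, 1]
      rfl
    rw [this]
    exact hu _
  have hφ : ∀ M, φ M ∈ N := fun M => DIM2_.gen (fun M => φ M ∈ N) h01 h10
    (fun g h hg hh => by rw [φ_mul]; exact N.mul_mem hg hh) M
  have hφ' : ∀ M, φ' M ∈ N := fun M => DIM2_.gen (fun M => φ' M ∈ N) h12 h21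
    (fun g h hg hh => by rw [φ'_mul]; exact N.mul_mem hg hh) M
  have key : ∃ h : M.1.det = 1, (⟨M.1, h⟩ : SL 3 p) ∈ N := by
    refine Matrix.diagonal_transvection_induction
      (fun A => ∃ h : A.det = 1, (⟨A, h⟩ : SL 3 p) ∈ N) M.1 ?_ ?_ ?_
    · intro D hD
      rw [M.2] at hD
      refine ⟨hD, ?_⟩
      have hprod : D 0 * D 1 * D 2 = 1 := by
        rw [Matrix.det_diagonal, Fin.prod_univ_three] at hD
        exact hD
      have ha : D 0 ≠ 0 := by
        intro h
        rw [h] at hprod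
        simp at hprod
      have hb : D 0 * D 1 ≠ 0 := by
        intro h
        rw [h] at hprod
        simp at hprod
      have hb1 : D 1 ≠ 0 := right_ne_zero_of_mul hb
      have heq : (⟨Matrix.diagonal D, hD⟩ : SL 3 p) =
          φ (DIM2_.D (Units.mk0 _ ha)) * φ' (DIM2_.D (Units.mk0 _ hb)) := by
        apply Subtype.ext
        change Matrix.diagonal D =
          !![D 0, 0, 0; 0, (((Units.mk0 _ ha)⁻¹ : (ZMod p)ˣ) : ZMod p), 0; 0, 0, 1] *
          !![1, 0, 0; 0, D 0 * D 1, 0; 0, 0, (((Units.mk0 _ hb)⁻¹ : (ZMod p)ˣ) : ZMod p)]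
        ext i j
        fin_cases i <;> fin_cases j <;>
          simp [Matrix.mul_apply, Fin.sum_univ_three]
        · field_simp
        · field_simp
          linear_combination hprod
      rw [heq]
      exact N.mul_mem (hφ _) (hφ' _)
    · intro t
      refine ⟨t.det, ?_⟩
      obtain ⟨i, j, hij, c⟩ := t
      have e1 : ∀ h, (⟨Matrix.transvection 0 1 c, h⟩ : SL 3 p) = φ (DIM2_.U c) := by
        intro h
        apply Subtype.ext
        change Matrix.transvection 0 1 c = !![1, c, 0; 0, 1, 0; 0, 0, 1]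
        ext i j
        fin_cases i <;> fin_cases j <;> simp [Matrix.transvection]
      have e2 : ∀ h, (⟨Matrix.transvection 1 0 c, h⟩ : SL 3 p) = φ (DIM2_.L c) := by
        intro h
        apply Subtype.ext
        change Matrix.transvection 1 0 c = !![1, 0, 0; c, 1, 0; 0, 0, 1]
        ext i j
        fin_cases i <;> fin_cases j <;> simp [Matrix.transvection]
      have e3 : ∀ h, (⟨Matrix.transvection 0 2 c, h⟩ : SL 3 p) = u (c, 0) := by
        intro h
        apply Subtype.ext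
        change Matrix.transvection 0 2 c = !![1, 0, c; 0, 1, 0; 0, 0, 1]
        ext i j
        fin_cases i <;> fin_cases j <;> simp [Matrix.transvection]
      have e4 : ∀ h, (⟨Matrix.transvection 1 2 c, h⟩ : SL 3 p) = u (0, c) := by
        intro h
        apply Subtype.ext
        change Matrix.transvection 1 2 c = !![1, 0, 0; 0, 1, c; 0, 0, 1]
        ext i j
        fin_cases i <;> fin_cases j <;> simp [Matrix.transvection]
      have e5 : ∀ h, (⟨Matrix.transvection 2 0 c, h⟩ : SL 3 p) = e20 c := by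
        intro h
        apply Subtype.ext
        change Matrix.transvection 2 0 c = !![1, 0, 0; 0, 1, 0; c, 0, 1]
        ext i j
        fin_cases i <;> fin_cases j <;> simp [Matrix.transvection]
      have e6 : ∀ h, (⟨Matrix.transvection 2 1 c, h⟩ : SL 3 p) = φ' (DIM2_.L c) := by
        intro h
        apply Subtype.ext
        change Matrix.transvection 2 1 c = !![1, 0, 0; 0, 1, 0; 0, c, 1]
        ext i j
        fin_cases i <;> fin_cases j <;> simp [Matrix.transvection]
      fin_cases i <;> fin_cases j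
      · exact absurd rfl hij
      · exact (e1 _).symm ▸ h01 c
      · exact (e3 _).symm ▸ hu _
      · exact (e2 _).symm ▸ h10 c
      · exact absurd rfl hij
      · exact (e4 _).symm ▸ hu _
      · exact (e5 _).symm ▸ h20 c
      · exact (e6 _).symm ▸ h21 c
      · exact absurd rfl hij
    · rintro A B ⟨hA, hAN⟩ ⟨hB, hBN⟩
      refine ⟨by rw [Matrix.det_mul, hA, hB, one_mul], ?_⟩
      have := N.mul_mem hAN hBN
      exact this
  obtain ⟨h, hM⟩ := key
  exact hM

/-- the bilinear form -/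
def bil (c v : W p) : ZMod p := c.1 * v.1 + c.2 * v.2

/-- right action on row vectors -/
def ract (c : W p) (M : SL 2 p) : W p :=
  (c.1 * M.1 0 0 + c.2 * M.1 1 0, c.1 * M.1 0 1 + c.2 * M.1 1 1)

theorem bil_act (c v : W p) (M : SL 2 p) : bil c (act M v) = bil (ract c M) v := by
  simp only [bil, act, ract]
  ring

theorem ract_mul (c : W p) (M N : SL 2 p) : ract c (M * N) = ract (ract c M) N := by
  simp only [ract, mul_coe]
  ext
  · simp only
    ring
  · simp only
    ring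

theorem ract_one (c : W p) : ract c (1 : SL 2 p) = c := by
  simp [ract]

theorem exists_row [Fact p.Prime] {c : W p} (hc : c ≠ 0) : ∃ M : SL 2 p, ract (0, 1) M = c := by
  by_cases h2 : c.2 = 0
  · have h1 : c.1 ≠ 0 := by
      intro h
      exact hc (Prod.ext h h2)
    refine ⟨⟨!![0, -(c.1)⁻¹; c.1, 0], by simp [Matrix.det_fin_two_of, h1]⟩, ?_⟩
    ext
    · simp [ract]
    · simp [ract, h2]
  · refine ⟨⟨!![(c.2)⁻¹, 0; c.1, c.2], by simp [Matrix.det_fin_two_of, h2]⟩, ?_⟩
    ext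
    · simp [ract]
    · simp [ract]

theorem exists_ract [Fact p.Prime] {c d : W p} (hc : c ≠ 0) (hd : d ≠ 0) :
    ∃ M : SL 2 p, ract c M = d := by
  obtain ⟨A, hA⟩ := exists_row hc
  obtain ⟨B, hB⟩ := exists_row hd
  refine ⟨A⁻¹ * B, ?_⟩
  rw [← hA, ← ract_mul, mul_inv_cancel_left, hB]

/-- characters of `ZMod p` are the dilates of a nontrivial one -/
theorem exists_shift [Fact p.Prime] {χ : AddChar (ZMod p) ℂ} (hχ : χ ≠ 0)
    (η : AddChar (ZMod p) ℂ) : ∃ k : ZMod p, ∀ x, η x = χ (k * x) := by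
  classical
  have hinj : Function.Injective (fun k : ZMod p => AddChar.mulShift χ k) := by
    intro k l hkl
    have h1 := DFunLike.congr_fun hkl (1 : ZMod p)
    simp only [AddChar.mulShift_apply, mul_one] at h1
    exact DIM2_.char_inj hχ h1
  have hsurj := ((Fintype.bijective_iff_injective_and_card _).2
    ⟨hinj, (AddChar.card_eq (α := ZMod p)).symm⟩).2
  obtain ⟨k, hk⟩ := hsurj η
  refine ⟨k, fun x => ?_⟩
  rw [← hk, AddChar.mulShift_apply]

/-- characters of the group of pairs -/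
theorem exists_rep [Fact p.Prime] {ψ : AddChar (W p) ℂ} (hψ : ψ ≠ 0) :
    ∃ χ : AddChar (ZMod p) ℂ, χ ≠ 0 ∧ ∃ c : W p, c ≠ 0 ∧ ∀ v, ψ v = χ (bil c v) := by
  let ζ₁ : AddChar (ZMod p) ℂ := ψ.compAddMonoidHom (AddMonoidHom.inl (ZMod p) (ZMod p))
  let ζ₂ : AddChar (ZMod p) ℂ := ψ.compAddMonoidHom (AddMonoidHom.inr (ZMod p) (ZMod p))
  have hsplit : ∀ v : W p, ψ v = ζ₁ v.1 * ζ₂ v.2 := by
    intro v
    change ψ v = ψ (v.1, 0) * ψ (0, v.2)
    rw [← AddChar.map_add_eq_mul]
    simp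
  have main : ∀ χ : AddChar (ZMod p) ℂ, χ ≠ 0 → ∃ c : W p, c ≠ 0 ∧ ∀ v, ψ v = χ (bil c v) := by
    intro χ hχ
    obtain ⟨k, hk⟩ := exists_shift hχ ζ₁
    obtain ⟨l, hl⟩ := exists_shift hχ ζ₂
    have h : ∀ v, ψ v = χ (bil (k, l) v) := by
      intro v
      rw [hsplit, hk, hl, ← AddChar.map_add_eq_mul]
      rfl
    refine ⟨(k, l), ?_, h⟩
    intro h0
    apply hψ
    ext v
    rw [h v, h0]
    simp [bil]
  by_cases h1 : ζ₁ = 0
  · by_cases h2 : ζ₂ = 0
    · exfalso
      apply hψ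
      ext v
      rw [hsplit, h1, h2]
      simp
    · obtain ⟨c, hc, h⟩ := main ζ₂ h2
      exact ⟨ζ₂, h2, c, hc, h⟩
  · obtain ⟨c, hc, h⟩ := main ζ₁ h1
    exact ⟨ζ₁, h1, c, hc, h⟩

/-- orthogonality -/
theorem sum_bil [Fact p.Prime] {χ : AddChar (ZMod p) ℂ} (hχ : χ ≠ 0) {c : W p} (hc : c ≠ 0) :
    ∑ v : W p, χ (bil c v) = 0 := by
  have hinj := DIM2_.char_inj hχ
  let ψ : AddChar (W p) ℂ :=
    { toFun := fun v => χ (bil c v)
      map_zero_eq_one' := by simp [bil]
      map_add_eq_mul' := by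
        intro v w
        rw [← AddChar.map_add_eq_mul]
        congr 1
        simp only [bil, Prod.fst_add, Prod.snd_add]
        ring }
  have hψ : ψ ≠ 0 := by
    intro h
    apply hc
    have h1 : χ (bil c (1, 0)) = χ 0 := by
      have := DFunLike.congr_fun h ((1, 0) : W p)
      rw [AddChar.map_zero_eq_one]
      exact this
    have h2 : χ (bil c (0, 1)) = χ 0 := by
      have := DFunLike.congr_fun h ((0, 1) : W p)
      rw [AddChar.map_zero_eq_one]
      exact this
    have h3 := hinj h1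
    have h4 := hinj h2
    simp only [bil, mul_one, mul_zero, add_zero, zero_add] at h3 h4
    exact Prod.ext h3 h4
  exact AddChar.sum_eq_zero_iff_ne_zero.2 hψ

/-- left translation -/
def τ (g : SL 3 p) : (SL 3 p → ℂ) →ₗ[ℂ] (SL 3 p → ℂ) where
  toFun f x := f (g * x)
  map_add' _ _ := rfl
  map_smul' _ _ := rfl

end DIM3_

open DIM3_ in
theorem prove_DIM3 : T_DIM3 := by
  intro p hp V hV hsum hinv
  classical
  have hinv' : ∀ f ∈ V, ∀ g : SL 3 p, τ g f ∈ V := hinv
  -- the spectral components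
  let F : AddChar (W p) ℂ → (SL 3 p → ℂ) → (SL 3 p → ℂ) :=
    fun ψ f => ∑ t : W p, ψ t • τ (u t) f
  have hF : ∀ ψ f, f ∈ V → F ψ f ∈ V := by
    intro ψ f hf
    exact V.sum_mem fun t _ => V.smul_mem _ (hinv' f hf _)
  have hFs : ∀ ψ f (s : W p) x, F ψ f (u s * x) = ψ (-s) * F ψ f x := by
    intro ψ f s x
    change (∑ t : W p, ψ t • τ (u t) f) (u s * x) = ψ (-s) * (∑ t : W p, ψ t • τ (u t) f) x
    rw [Finset.sum_apply, Finset.sum_apply, Finset.mul_sum]
    refine Fintype.sum_equiv (Equiv.addRight s) _ _ fun t => ?_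
    change ψ t * f (u t * (u s * x)) = ψ (-s) * (ψ (t + s) * f (u (t + s) * x))
    rw [← mul_assoc (u t), u_mul, ← mul_assoc, ← AddChar.map_add_eq_mul]
    congr 2
    abel
  have hp0 : ((Fintype.card (W p) : ℕ) : ℂ) ≠ 0 := Nat.cast_ne_zero.2 Fintype.card_ne_zero
  have hFsum : ∀ f x, ∑ ψ : AddChar (W p) ℂ, F ψ f x = (Fintype.card (W p) : ℂ) * f x := by
    intro f x
    have h1 : ∀ ψ : AddChar (W p) ℂ, F ψ f x = ∑ t : W p, ψ t * f (u t * x) := by
      intro ψ
      change (∑ t : W p, ψ t • τ (u t) f) x = _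
      rw [Finset.sum_apply]
      rfl
    simp_rw [h1]
    rw [Finset.sum_comm]
    simp_rw [← Finset.sum_mul, AddChar.sum_apply_eq_ite]
    rw [Finset.sum_eq_single (0 : W p)]
    · simp [u_zero]
    · intro b _ hb
      simp [hb]
    · simp
  by_cases hcase : ∀ f ∈ V, ∀ ψ : AddChar (W p) ℂ, ψ ≠ 0 → F ψ f = 0
  · exfalso
    apply hV
    rw [eq_bot_iff]
    intro f hf
    have hU1 : ∀ f ∈ V, ∀ s x, f (u s * x) = f x := by
      intro f hf s x
      have h1 : ∀ y, F 0 f y = (Fintype.card (W p) : ℂ) * f y := by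
        intro y
        rw [← hFsum f y, Finset.sum_eq_single (0 : AddChar (W p) ℂ)]
        · intro ψ _ hψ
          rw [hcase f hf ψ hψ]
          rfl
        · simp
      have h2 := hFs 0 f s x
      rw [h1, h1, AddChar.zero_apply, one_mul] at h2
      exact mul_left_cancel₀ hp0 h2
    let N : Subgroup (SL 3 p) :=
      { carrier := {g | ∀ f ∈ V, ∀ x, f (g * x) = f x}
        mul_mem' := by
          intro g h hg hh f hf x
          rw [mul_assoc, hg f hf, hh f hf]
        one_mem' := by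
          intro f _ x
          rw [one_mul]
        inv_mem' := by
          intro g hg f hf x
          have := hg f hf (g⁻¹ * x)
          rw [mul_inv_cancel_left] at this
          exact this.symm }
    have hN : ∀ g ∈ N, ∀ h, h * g * h⁻¹ ∈ N := by
      intro g hg h f hf x
      have h1 := hg (τ h f) (hinv' f hf h) (h⁻¹ * x)
      change f (h * (g * (h⁻¹ * x))) = f (h * (h⁻¹ * x)) at h1
      rw [mul_inv_cancel_left] at h1
      rw [mul_assoc, mul_assoc]
      exact h1
    have hall : ∀ M : SL 3 p, ∀ f ∈ V, ∀ x, f (M * x) = f x := fun M =>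
      gen N hN (fun v f hf x => hU1 f hf v x) M
    have hconst : ∀ x, f x = f 1 := fun x => by
      have := hall x f hf 1
      rwa [mul_one] at this
    have h0 : f 1 = 0 := by
      have h1 := hsum f hf
      rw [Finset.sum_congr rfl (fun x _ => hconst x), Finset.sum_const, nsmul_eq_mul] at h1
      rcases mul_eq_zero.1 h1 with h2 | h2
      · exfalso
        have h3 : (Finset.univ : Finset (SL 3 p)).card = 0 := by exact_mod_cast h2
        rw [Finset.card_eq_zero] at h3
        exact Finset.univ_nonempty.ne_empty h3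
      · exact h2
    rw [Submodule.mem_bot]
    funext x
    rw [hconst x, h0]
    rfl
  · push Not at hcase
    obtain ⟨f, hf, ψ, hψ, hne⟩ := hcase
    set e : SL 3 p → ℂ := F ψ f with he
    have heV : e ∈ V := hF ψ f hf
    obtain ⟨χ, hχ, c, hc, hrep⟩ := exists_rep hψ
    have hes : ∀ s x, e (u s * x) = χ (bil c (-s)) * e x := by
      intro s x
      rw [← hrep]
      exact hFs ψ f s x
    let ι := {w : W p // w ∈ (Finset.univ : Finset (W p)).erase 0}
    have hex : ∀ w : ι, ∃ M : SL 2 p, ract c M = w.1 := fun w =>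
      exists_ract hc (Finset.ne_of_mem_erase w.2)
    choose A hA using hex
    let v : ι → V := fun w => ⟨τ (φ (A w)) e, hinv' e heV _⟩
    have hv : ∀ (w : ι) (s : W p) x, (v w).1 (u s * x) = χ (bil w.1 (-s)) * (v w).1 x := by
      intro w s x
      change e (φ (A w) * (u s * x)) = χ (bil w.1 (-s)) * e (φ (A w) * x)
      rw [← mul_assoc, φ_mul_u, mul_assoc, hes, ← hA w, ← bil_act]
      congr 3
      ext <;> simp [act] <;> ring
    have hv0 : ∀ w : ι, ∃ x, (v w).1 x ≠ 0 := by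
      intro w
      by_contra hcon
      push Not at hcon
      apply hne
      funext x
      have h1 := hcon ((φ (A w))⁻¹ * x)
      change e (φ (A w) * ((φ (A w))⁻¹ * x)) = 0 at h1
      rwa [mul_inv_cancel_left] at h1
    have hli : LinearIndependent ℂ v := by
      rw [Fintype.linearIndependent_iff]
      intro a ha j
      obtain ⟨x, hx⟩ := hv0 j
      have h1 : ∀ y, ∑ i, a i * (v i).1 y = 0 := by
        intro y
        have h2 := congrArg (fun z : V => (z : SL 3 p → ℂ) y) ha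
        simp only [Submodule.coe_sum, Finset.sum_apply, Submodule.coe_smul, Pi.smul_apply,
          smul_eq_mul, Submodule.coe_zero, Pi.zero_apply] at h2
        exact h2
      have h3 : ∑ s : W p, χ (bil j.1 s) * ∑ i, a i * (v i).1 (u s * x) = 0 :=
        Finset.sum_eq_zero fun s _ => by rw [h1, mul_zero]
      simp_rw [Finset.mul_sum] at h3
      rw [Finset.sum_comm, Finset.sum_eq_single j] at h3
      · have h4 : ∀ s : W p, χ (bil j.1 s) * (a j * (v j).1 (u s * x)) = a j * (v j).1 x := by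
          intro s
          rw [hv]
          have h5 : χ (bil j.1 s) * χ (bil j.1 (-s)) = 1 := by
            rw [← AddChar.map_add_eq_mul, ← AddChar.map_zero_eq_one χ]
            congr 1
            simp only [bil, Prod.fst_neg, Prod.snd_neg]
            ring
          linear_combination (a j * (v j).1 x) * h5
        simp_rw [h4] at h3
        rw [Finset.sum_const, nsmul_eq_mul, Finset.card_univ] at h3
        rcases mul_eq_zero.1 h3 with h6 | h6
        · exact absurd h6 hp0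
        · rcases mul_eq_zero.1 h6 with h7 | h7
          · exact h7
          · exact absurd h7 hx
      · intro i _ hij
        have h4 : ∀ s : W p, χ (bil j.1 s) * (a i * (v i).1 (u s * x)) =
            (a i * (v i).1 x) * χ (bil (j.1 - i.1) s) := by
          intro s
          rw [hv]
          have h5 : χ (bil j.1 s) * χ (bil i.1 (-s)) = χ (bil (j.1 - i.1) s) := by
            rw [← AddChar.map_add_eq_mul]
            congr 1
            simp only [bil, Prod.fst_neg, Prod.snd_neg, Prod.fst_sub, Prod.snd_sub]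
            ring
          linear_combination (a i * (v i).1 x) * h5
        simp_rw [h4]
        rw [← Finset.mul_sum, sum_bil hχ, mul_zero]
        intro h0
        exact hij (Subtype.ext (sub_eq_zero.1 h0).symm)
      · intro h
        exact absurd (Finset.mem_univ j) h
    have hcard := hli.fintype_card_le_finrank
    have hι : Fintype.card ι + 1 = p ^ 2 := by
      change Fintype.card {w : W p // w ∈ (Finset.univ : Finset (W p)).erase 0} + 1 = p ^ 2
      rw [Fintype.card_coe, Finset.card_erase_add_one (Finset.mem_univ _), Finset.card_univ,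
        Fintype.card_prod, ZMod.card]
      ring
    have h1 : (p : ℝ) ^ 2 - 1 = (Fintype.card ι : ℝ) := by
      have : ((Fintype.card ι + 1 : ℕ) : ℝ) = ((p ^ 2 : ℕ) : ℝ) := by rw [hι]
      push_cast at this
      linarith
    rw [h1]
    exact_mod_cast hcard

end Pool.Agent.RCG
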