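import Pool.Agent.RCG.Targets9

set_option autoImplicit false

/-!
# RCG: DIV, leave one block out, counting
-/

namespace Pool.Agent.RCG

open Finset Matrix

namespace DIV_

variable {G : Type} {s d1 : ℕ}

/-- the block `i` of the tuple -/
def blk (y : Fin ((s + 1) * d1) → G) (i : Fin (s + 1)) : Fin d1 → G :=
  fun j => y (finProdFinEquiv (i, j))

/-- the other blocks -/
def oth (y : Fin ((s + 1) * d1) → G) (i : Fin (s + 1)) : Fin (s * d1) → G :=
  fun k => y (finProdFinEquiv (i.succAbove (finProdFinEquiv.symm k).1, (finProdFinEquiv.symm k).2))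

lemma inj (i : Fin (s + 1)) (y z : Fin ((s + 1) * d1) → G) (h1 : oth y i = oth z i)
    (h2 : blk y i = blk z i) : y = z := by
  funext k
  obtain ⟨⟨a, j⟩, rfl⟩ := (finProdFinEquiv (m := s + 1) (n := d1)).surjective k
  by_cases ha : a = i
  · subst ha
    exact congrFun h2 j
  · obtain ⟨b, rfl⟩ := Fin.exists_succAbove_eq ha
    have h3 := congrFun h1 (finProdFinEquiv (b, j))
    simpa [oth] using h3

lemma sum_blk (F : G → ℝ) (y : Fin ((s + 1) * d1) → G) :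
    ∑ k, F (y k) = ∑ i : Fin (s + 1), ∑ j, F (blk y i j) := by
  rw [← (finProdFinEquiv (m := s + 1) (n := d1)).sum_comp (fun k => F (y k)),
    Fintype.sum_prod_type]
  rfl

lemma sum_oth (F : G → ℝ) (y : Fin ((s + 1) * d1) → G) (i : Fin (s + 1)) :
    ∑ k, F (oth y i k) = ∑ a : Fin s, ∑ j, F (blk y (i.succAbove a) j) := by
  rw [← (finProdFinEquiv (m := s) (n := d1)).sum_comp (fun k => F (oth y i k)),
    Fintype.sum_prod_type]
  refine Finset.sum_congr rfl fun a _ => Finset.sum_congr rfl fun j _ => ?_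
  simp [oth, blk]

lemma sum_split (F : G → ℝ) (y : Fin ((s + 1) * d1) → G) (i : Fin (s + 1)) :
    ∑ k, F (y k) = ∑ k, F (oth y i k) + ∑ j, F (blk y i j) := by
  rw [sum_blk, sum_oth, Fin.sum_univ_succAbove _ i, add_comm]

variable [Group G]

lemma adj_blk (y : Fin ((s + 1) * d1) → G) (f : G → ℝ) (x : G) :
    adj y f x = ∑ i : Fin (s + 1), adj (blk y i) f x :=
  sum_blk (fun g => f (x * g) + f (x * g⁻¹)) y

lemma adj_split (y : Fin ((s + 1) * d1) → G) (i : Fin (s + 1)) (f : G → ℝ) (x : G) :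
    adj y f x = adj (oth y i) f x + adj (blk y i) f x :=
  sum_split (fun g => f (x * g) + f (x * g⁻¹)) y i

variable [Fintype G]

lemma main (hA : T_ADM) (hE : T_EIG) (l0 r : ℝ) (h0 : 0 ≤ l0) (hr : ((s : ℝ) + 1) * r < l0)
    (y : Fin ((s + 1) * d1) → G) (hy : ¬ QB y l0) :
    ∃ i : Fin (s + 1), ¬ BG (oth y i) (blk y i) l0 r := by
  by_contra hcon
  push Not at hcon
  obtain ⟨l, σ, v, hσ, hl, hv, hs, he⟩ := hE G ((s + 1) * d1) y l0 h0 hy
  have e1 : ∀ (d : ℕ) (w : Fin d → G), adM w *ᵥ v = adj w v := fun d w => (hA G d).1 w v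
  have h1 : ∀ i : Fin (s + 1), σ * (v ⬝ᵥ adM (blk y i) *ᵥ v) ≤ r * (v ⬝ᵥ v) := by
    intro i
    refine hcon i l σ v hσ hl.le hs ?_
    rw [← he, e1, e1, e1]
    congr 1
    funext x
    rw [Pi.add_apply, adj_split y i]
  have h2 : σ * (v ⬝ᵥ adM y *ᵥ v) = ∑ i : Fin (s + 1), σ * (v ⬝ᵥ adM (blk y i) *ᵥ v) := by
    rw [← Finset.mul_sum]
    congr 1
    simp only [e1, dotProduct]
    rw [Finset.sum_comm]
    refine Finset.sum_congr rfl fun x _ => ?_
    rw [adj_blk, Finset.mul_sum]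
  have h3 : σ * (v ⬝ᵥ adM y *ᵥ v) = l * (v ⬝ᵥ v) := by
    have h4 : v ⬝ᵥ (σ • (adM y *ᵥ v)) = v ⬝ᵥ (l • v) := by rw [he]
    rw [dotProduct_smul, dotProduct_smul] at h4
    simpa using h4
  have h5 : 0 < v ⬝ᵥ v := by
    have h6 : v ⬝ᵥ v ≠ 0 := by
      intro h7
      exact hv (dotProduct_self_eq_zero.1 h7)
    have h8 : 0 ≤ v ⬝ᵥ v := Finset.sum_nonneg fun x _ => mul_self_nonneg _
    exact lt_of_le_of_ne h8 (Ne.symm h6)
  have h9 : l * (v ⬝ᵥ v) ≤ ((s : ℝ) + 1) * r * (v ⬝ᵥ v) := by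
    rw [← h3, h2]
    refine (Finset.sum_le_sum fun i _ => h1 i).trans (le_of_eq ?_)
    rw [Finset.sum_const, Finset.card_univ, Fintype.card_fin, nsmul_eq_mul]
    push_cast
    ring
  have h10 : ((s : ℝ) + 1) * r * (v ⬝ᵥ v) < l * (v ⬝ᵥ v) :=
    mul_lt_mul_of_pos_right (hr.trans hl) h5
  exact absurd h9 (not_le.2 h10)

end DIV_

open DIV_ in
/-- DIV -/
theorem prove_DIV (hA : T_ADM) (hE : T_EIG) : T_DIV := by
  intro G _ _ s d1 l0 r h0 hr
  classical
  have key : ∀ y : {y : Fin ((s + 1) * d1) → G // ¬ QB y l0},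
      ∃ i : Fin (s + 1), ¬ BG (oth y.1 i) (blk y.1 i) l0 r :=
    fun y => main hA hE l0 r h0 hr y.1 y.2
  choose I hI using key
  let F : {y : Fin ((s + 1) * d1) → G // ¬ QB y l0} →
      Fin (s + 1) × {ya : (Fin (s * d1) → G) × (Fin d1 → G) // ¬ BG ya.1 ya.2 l0 r} :=
    fun y => (I y, ⟨(oth y.1 (I y), blk y.1 (I y)), hI y⟩)
  have hF : Function.Injective F := by
    intro y z hyz
    simp only [F, Prod.mk.injEq, Subtype.mk.injEq] at hyz
    obtain ⟨h1, h2, h3⟩ := hyz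
    refine Subtype.ext (inj (I y) y.1 z.1 ?_ ?_)
    · rw [h2, h1]
    · rw [h3, h1]
  have h1 := Nat.card_le_card_of_injective F hF
  rw [Nat.card_prod, Nat.card_eq_fintype_card (α := Fin (s + 1)), Fintype.card_fin] at h1
  unfold badCard
  exact_mod_cast h1

end Pool.Agent.RCG
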