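import Pool.Agent.RCG.Targets5

set_option autoImplicit false

/-!
# RCG: coincidences among random elements of `SL (2, p)` (target DST)
-/

namespace Pool.Agent.RCG

open Finset

namespace DST_

lemma card_le_of_coord {G : Type} [Fintype G] [DecidableEq G] {d : ℕ} (i : Fin d)
    (g : (Fin d → G) → G) (hg : ∀ s x, g (Function.update s i x) = g s) :
    (univ.filter fun s : Fin d → G => s i = g s).card * Fintype.card G ≤
      Fintype.card G ^ d := by
  have h1 : (univ.filter fun s : Fin d → G => s i = g s).card * Fintype.card G =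
      ((univ.filter fun s : Fin d → G => s i = g s) ×ˢ (univ : Finset G)).card := by
    rw [card_product, card_univ]
  have h2 : Fintype.card G ^ d = (univ : Finset (Fin d → G)).card := by
    rw [card_univ, Fintype.card_fun, Fintype.card_fin]
  rw [h1, h2]
  refine card_le_card_of_injOn (fun q => Function.update q.1 i q.2) (fun _ _ => mem_coe.2
    (mem_univ _)) ?_
  rintro ⟨s, x⟩ hs ⟨s', x'⟩ hs' h
  simp only [coe_product, coe_filter, mem_univ, true_and, coe_univ, Set.mem_prod,
    Set.mem_ofPred_eq, Set.mem_univ, and_true] at hs hs'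
  simp only at h
  have hx : x = x' := by
    have := congrFun h i
    simpa using this
  have hgs : g s = g s' := by
    rw [← hg s x, h, hg]
  have hss : s = s' := by
    funext j
    by_cases hj : j = i
    · rw [hj, hs, hs', hgs]
    · have := congrFun h j
      simpa [Function.update_of_ne hj] using this
  rw [hss, hx]

variable {p : ℕ} [Fact p.Prime]

/-- minus the identity -/
def neg1 (p : ℕ) : SL 2 p := ⟨!![-1, 0; 0, -1], by simp [Matrix.det_fin_two_of]⟩

lemma eq_inv (hp : p ≠ 2) (x : SL 2 p) (h : x = x⁻¹) : x = 1 ∨ x = neg1 p := by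
  have h2 : (2 : ZMod p) ≠ 0 := by
    intro h0
    have h3 : ((2 : ℕ) : ZMod p) = 0 := by exact_mod_cast h0
    rw [ZMod.natCast_eq_zero_iff] at h3
    have h4 := Nat.le_of_dvd (by norm_num) h3
    have h5 := (Fact.out : p.Prime).two_le
    omega
  have hm : x.1 = x.1.adjugate := by
    have := congrArg Subtype.val h
    rwa [Matrix.SpecialLinearGroup.coe_inv] at this
  have hd := x.2
  rw [Matrix.det_fin_two] at hd
  rw [Matrix.adjugate_fin_two] at hm
  have e00 := congrFun (congrFun hm 0) 0
  have e01 := congrFun (congrFun hm 0) 1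
  have e10 := congrFun (congrFun hm 1) 0
  simp only [Matrix.of_apply, Matrix.cons_val', Matrix.cons_val_zero, Matrix.cons_val_one,
    Matrix.cons_val_fin_one] at e00 e01 e10
  have b0 : x.1 0 1 = 0 := by
    have : (2 : ZMod p) * x.1 0 1 = 0 := by linear_combination e01
    exact (mul_eq_zero.1 this).resolve_left h2
  have c0 : x.1 1 0 = 0 := by
    have : (2 : ZMod p) * x.1 1 0 = 0 := by linear_combination e10
    exact (mul_eq_zero.1 this).resolve_left h2
  have ha : (x.1 0 0 - 1) * (x.1 0 0 + 1) = 0 := by
    rw [b0, zero_mul, sub_zero, ← e00] at hd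
    linear_combination hd
  rcases mul_eq_zero.1 ha with h6 | h6
  · left
    have a1 : x.1 0 0 = 1 := by linear_combination h6
    have a2 : x.1 1 1 = 1 := by rw [← e00, a1]
    refine Subtype.ext ?_
    ext i j
    fin_cases i <;> fin_cases j <;> simp [a1, a2, b0, c0]
  · right
    have a1 : x.1 0 0 = -1 := by linear_combination h6
    have a2 : x.1 1 1 = -1 := by rw [← e00, a1]
    refine Subtype.ext ?_
    ext i j
    fin_cases i <;> fin_cases j <;> simp [neg1, a1, a2, b0, c0]

end DST_

open DST_ in
/-- DST. -/
theorem prove_DST : T_DST := by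
  classical
  intro p hp d hp2 hd
  set G := SL 2 p with hG
  set A : Fin d × Fin d → Fin 4 → Finset (Fin d → G) := fun q k =>
    if k = 0 then univ.filter fun s => s q.1 = 1
    else if k = 1 then univ.filter fun s => s q.1 = neg1 p
    else if k = 2 then (if q.1 = q.2 then ∅ else univ.filter fun s => s q.1 = s q.2)
    else (if q.1 = q.2 then ∅ else univ.filter fun s => s q.1 = (s q.2)⁻¹) with hA
  have hcard : ∀ q k, (A q k).card * Fintype.card G ≤ Fintype.card G ^ d := by
    intro q k
    simp only [hA]
    split_ifs with h0 h1 h2 h3 h3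
    · exact card_le_of_coord q.1 (fun _ => 1) fun _ _ => rfl
    · exact card_le_of_coord q.1 (fun _ => neg1 p) fun _ _ => rfl
    · simp
    · exact card_le_of_coord q.1 (fun s => s q.2) fun s x => by
        rw [Function.update_of_ne (Ne.symm h3)]
    · simp
    · exact card_le_of_coord q.1 (fun s => (s q.2)⁻¹) fun s x => by
        rw [Function.update_of_ne (Ne.symm h3)]
  have hsub : (univ.filter fun s : Fin d → G => ¬ Distinct s) ⊆
      (univ : Finset ((Fin d × Fin d) × Fin 4)).biUnion fun q => A q.1 q.2 := by
    intro s hs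
    rw [mem_filter] at hs
    rw [mem_biUnion]
    have h := hs.2
    unfold Distinct at h
    rw [not_and_or, not_and_or] at h
    rcases h with h | h | h
    · push Not at h
      obtain ⟨i, hi⟩ := h
      exact ⟨((i, i), 0), mem_univ _, by simp [hA, hi]⟩
    · push Not at h
      obtain ⟨i, j, hij, h⟩ := h
      exact ⟨((i, j), 2), mem_univ _, by simp [hA, hij, h]⟩
    · push Not at h
      obtain ⟨i, j, h⟩ := h
      by_cases hij : i = j
      · rw [← hij] at h
        rcases eq_inv hp2 (s i) h with h1 | h1
        · exact ⟨((i, i), 0), mem_univ _, by simp [hA, h1]⟩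
        · exact ⟨((i, i), 1), mem_univ _, by simp [hA, h1]⟩
      · exact ⟨((i, j), 3), mem_univ _, by simp [hA, hij, h]⟩
  have h1 : Nat.card {s : Fin d → G // ¬ Distinct s} =
      (univ.filter fun s : Fin d → G => ¬ Distinct s).card := by
    rw [Nat.card_eq_fintype_card, Fintype.card_subtype]
  rw [h1]
  calc (univ.filter fun s : Fin d → G => ¬ Distinct s).card * Fintype.card G
      ≤ (∑ q : (Fin d × Fin d) × Fin 4, (A q.1 q.2).card) * Fintype.card G :=
        Nat.mul_le_mul_right _ ((card_le_card hsub).trans card_biUnion_le)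
    _ = ∑ q : (Fin d × Fin d) × Fin 4, (A q.1 q.2).card * Fintype.card G := by
        rw [Finset.sum_mul]
    _ ≤ ∑ _q : (Fin d × Fin d) × Fin 4, Fintype.card G ^ d :=
        Finset.sum_le_sum fun q _ => hcard q.1 q.2
    _ = 4 * d ^ 2 * Fintype.card G ^ d := by
        rw [sum_const, card_univ, Fintype.card_prod, Fintype.card_prod, Fintype.card_fin,
          Fintype.card_fin, smul_eq_mul]
        ring
    _ ≤ 5 * d ^ 2 * Fintype.card G ^ d :=
        Nat.mul_le_mul_right _ (Nat.mul_le_mul_right _ (by norm_num))


end Pool.Agent.RCG
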