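import Mathlib

set_option autoImplicit false

/-!
# RCG: random Cayley graphs, definitions

Project of helper52 (MP_e85204_al: random Cayley graphs of `PSL(2, p)` are Ramanujan up to a
factor `O(log k)` in the degree).
-/

namespace Pool.Agent.RCG

open Finset

/-- letters: the index of a generator and a sign (`true`: the generator, `false`: its inverse) -/
abbrev Ltr (d : ℕ) : Type := Fin d × Bool

/-- the value of the word `w` at the tuple `y` -/
def ev {G : Type*} [Group G] {d n : ℕ} (y : Fin d → G) (w : Fin n → Ltr d) : G :=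
  FreeGroup.lift y (FreeGroup.mk (List.ofFn w))

/-- the adjacency operator of the Cayley multigraph of the tuple `y` -/
def adj {G : Type*} [Group G] {d : ℕ} (y : Fin d → G) (f : G → ℝ) (x : G) : ℝ :=
  ∑ i, (f (x * y i) + f (x * (y i)⁻¹))

/-- the quadratic form of the adjacency operator is bounded by `B` on functions of sum zero -/
def QB {G : Type*} [Group G] [Fintype G] {d : ℕ} (y : Fin d → G) (B : ℝ) : Prop :=
  ∀ f : G → ℝ, ∑ x, f x = 0 → |∑ x, f x * adj y f x| ≤ B * ∑ x, f x ^ 2

/-- the number of tuples for which the bound fails -/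
noncomputable def badCard (G : Type*) [Group G] [Fintype G] (d : ℕ) (B : ℝ) : ℕ :=
  Nat.card {y : Fin d → G // ¬ QB y B}

/-- every nonzero left-invariant space of functions of sum zero has dimension at least `D` -/
def MinDim (G : Type*) [Group G] [Fintype G] (D : ℝ) : Prop :=
  ∀ V : Submodule ℂ (G → ℂ), V ≠ ⊥ → (∀ f ∈ V, ∑ x, f x = 0) →
    (∀ f ∈ V, ∀ g : G, (fun x => f (g * x)) ∈ V) → D ≤ Module.finrank ℂ V

/-- averaging bound for the moments of the adjacency operator, for a family of groups `G i` with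
size parameter `q i` -/
def AvgB {I : Type} (G : I → Type) [∀ i, Group (G i)] [∀ i, Fintype (G i)] (q : I → ℝ)
    (d : ℕ) (c : ℝ) : Prop :=
  ∀ i, c ≤ q i → ∀ (n : ℕ) (f : G i → ℝ), ∑ x, f x = 0 →
    ∑ y : Fin d → G i, ∑ x, f x * (adj y)^[n] f x ≤
      (2 * (d : ℝ)) ^ n * (Fintype.card (G i) : ℝ) ^ d *
        ((2 / √(2 * (d : ℝ))) ^ n + c * √(((n : ℝ) + 1) / q i)) * ∑ x, f x ^ 2

/-- for large `q i` all but a proportion `K * (q i) ^ (-a)` of the `d`-tuples of the group `G i`
satisfy the bound `B` -/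
def Good {I : Type} (G : I → Type) [∀ i, Group (G i)] [∀ i, Fintype (G i)] (q : I → ℝ)
    (d : ℕ) (B a : ℝ) : Prop :=
  ∃ K P : ℝ, ∀ i, P ≤ q i →
    (badCard (G i) d B : ℝ) ≤ K * (q i) ^ (-a) * (Fintype.card (G i) : ℝ) ^ d

/-- the special linear group over the field with `p` elements -/
abbrev SL (m p : ℕ) : Type := Matrix.SpecialLinearGroup (Fin m) (ZMod p)

end Pool.Agent.RCG
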