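import Pool.Agent.RCG.Targets4

set_option autoImplicit false

/-!
# RCG, EBX: combination of the three-term inequality with the adjacency matrix
-/

namespace Pool.Agent.RCG

open Finset Matrix

namespace EBX_

variable {G : Type} [Group G] [Fintype G]

omit [Group G] in
lemma card_tuples (d : ℕ) (a : ℝ) :
    ∑ _y : Fin d → G, a = (Fintype.card G : ℝ) ^ d * a := by
  classical
  rw [Finset.sum_const, Finset.card_univ, Fintype.card_fun, Fintype.card_fin, nsmul_eq_mul]
  push_cast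
  rfl

omit [Group G] in
lemma dot_self (f : G → ℝ) : f ⬝ᵥ f = ∑ x, f x ^ 2 := by
  unfold dotProduct
  exact Finset.sum_congr rfl fun x _ => (sq (f x)).symm

open Classical in
lemma pow_mulVec {d : ℕ} (y : Fin d → G) (h : ∀ f : G → ℝ, adM y *ᵥ f = adj y f) (n : ℕ)
    (f : G → ℝ) : (adM y ^ n) *ᵥ f = (adj y)^[n] f := by
  induction n generalizing f with
  | zero => simp
  | succ n ih => rw [pow_succ, ← mulVec_mulVec, h, ih, Function.iterate_succ_apply]

end EBX_

open EBX_ in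
theorem prove_EBX (h1 : T_SPX) (h2 : T_ADM) : T_EBX := by
  classical
  intro G _ _ d n σ t t1 R R' m Φ hσ ht htt hR hRR hn hav hEB f hf
  obtain ⟨hA1, hA2, -⟩ := h2 G d
  have hσn : σ ^ n = 1 := by
    rcases hσ with h | h
    · rw [h, one_pow]
    · rw [h, hn.neg_one_pow]
  have hpt : ∀ y : Fin d → G, f ⬝ᵥ (exM y (σ * t)) *ᵥ f ≤
      Real.exp (t * R) * (f ⬝ᵥ f) +
        Real.exp (t * R') * (R ^ n)⁻¹ * (∑ x, f x * (adj y)^[n] f x) +
        Real.exp (-((t1 - t) * R')) * (f ⬝ᵥ (exM y (σ * t1)) *ᵥ f) := by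
    intro y
    have hM : (σ • adM y).IsHermitian := by
      rw [IsHermitian, conjTranspose_smul, (hA2 y).eq, star_trivial]
    have h3 := h1 G (σ • adM y) t t1 R R' n hM ht htt hR hRR hn f
    rw [smul_smul, smul_smul, smul_pow, hσn, one_smul, mul_comm t σ, mul_comm t1 σ,
      pow_mulVec y (hA1 y) n f] at h3
    exact h3
  refine (Finset.sum_le_sum fun y _ => hpt y).trans ?_
  rw [Finset.sum_add_distrib, Finset.sum_add_distrib, ← Finset.mul_sum, ← Finset.mul_sum,
    ← Finset.mul_sum, card_tuples, dot_self]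
  have h4 := hav f hf
  have h5 := hEB f hf
  have h6 : Real.exp (t * R') * (R ^ n)⁻¹ * (∑ y : Fin d → G, ∑ x, f x * (adj y)^[n] f x) ≤
      Real.exp (t * R') * (R ^ n)⁻¹ * (m * (Fintype.card G : ℝ) ^ d * ∑ x, f x ^ 2) :=
    mul_le_mul_of_nonneg_left h4 (by positivity)
  have h7 : Real.exp (-((t1 - t) * R')) * (∑ y : Fin d → G, f ⬝ᵥ (exM y (σ * t1)) *ᵥ f) ≤
      Real.exp (-((t1 - t) * R')) * (Φ * (Fintype.card G : ℝ) ^ d * ∑ x, f x ^ 2) :=
    mul_le_mul_of_nonneg_left h5 (Real.exp_pos _).le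
  nlinarith [h6, h7]

end Pool.Agent.RCG
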