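import Pool.Agent.RCG.Targets9
import Pool.Agent.RCG.SPC

/-!
# RCG: T_EIG, an eigenvector from a bad tuple
-/

set_option autoImplicit false

namespace Pool.Agent.RCG

open Finset Matrix

namespace EIG_

/-- `adM y - 2 d J` -/
noncomputable def MM {G : Type} [Group G] [Fintype G] {d : ℕ} (y : Fin d → G) : Matrix G G ℝ :=
  adM y - Matrix.of fun _ _ => 2 * (d : ℝ) / Fintype.card G

theorem MM_mulVec {G : Type} [Group G] [Fintype G] {d : ℕ} (y : Fin d → G) (f : G → ℝ)
    (hf : ∑ x, f x = 0) : MM y *ᵥ f = adM y *ᵥ f := by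
  unfold MM
  rw [sub_mulVec]
  have h : (Matrix.of fun _ _ => 2 * (d : ℝ) / Fintype.card G : Matrix G G ℝ) *ᵥ f = 0 := by
    funext x
    simp only [mulVec, dotProduct, of_apply, Pi.zero_apply]
    rw [← Finset.mul_sum, hf, mul_zero]
  rw [h, sub_zero]

theorem MM_one (hA : T_ADM) {G : Type} [Group G] [Fintype G] {d : ℕ} (y : Fin d → G) :
    MM y *ᵥ (fun _ => (1 : ℝ)) = 0 := by
  unfold MM
  rw [sub_mulVec, (hA G d).2.2.2.1 y]
  funext x
  simp only [mulVec, dotProduct, of_apply, Pi.zero_apply, Pi.sub_apply, mul_one]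
  rw [Finset.sum_const, Finset.card_univ, nsmul_eq_mul]
  have : (Fintype.card G : ℝ) ≠ 0 := by
    have := Fintype.card_pos (α := G)
    positivity
  field_simp
  ring

theorem MM_herm (hA : T_ADM) {G : Type} [Group G] [Fintype G] {d : ℕ} (y : Fin d → G) :
    (MM y).IsHermitian := by
  unfold MM
  refine ((hA G d).2.1 y).sub ?_
  ext i j
  simp

end EIG_

/-- an eigenvector from a bad tuple -/
theorem prove_EIG (hA : T_ADM) : T_EIG := by
  classical
  intro G _ _ d y l0 hl0 hbad
  have hM := EIG_.MM_herm hA y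
  obtain ⟨U, e, hU, hU', he⟩ := SPC_.diag (EIG_.MM y) hM
  by_cases hex : ∃ i, l0 < |e i|
  · obtain ⟨i, hi⟩ := hex
    set v : G → ℝ := U *ᵥ Pi.single i 1 with hv
    have hUv : Uᵀ *ᵥ v = Pi.single i 1 := by rw [hv, mulVec_mulVec, hU, one_mulVec]
    have hMv : EIG_.MM y *ᵥ v = e i • v := by
      rw [he]
      unfold SPC_.FF
      rw [← mulVec_mulVec, ← mulVec_mulVec, hUv, diagonal_mulVec_single, mul_one, hv,
        ← mulVec_smul]
      congr 1
      funext j
      by_cases hj : j = i
      · subst hj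
        simp
      · simp [Pi.single_eq_of_ne hj]
    have hv0 : v ≠ 0 := by
      intro h
      rw [h, mulVec_zero] at hUv
      have := congrFun hUv i
      simp at this
    have hei : e i ≠ 0 := by
      intro h
      rw [h, abs_zero] at hi
      linarith
    have hsum : ∑ x, v x = 0 := by
      have h1 : (fun _ => (1 : ℝ)) ⬝ᵥ (EIG_.MM y *ᵥ v) = 0 := by
        rw [dotProduct_mulVec, ← mulVec_transpose]
        have h2 : (EIG_.MM y)ᵀ = EIG_.MM y := by
          have h3 := hM
          unfold Matrix.IsHermitian at h3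
          rwa [conjTranspose_eq_transpose_of_trivial] at h3
        rw [h2, EIG_.MM_one hA, zero_dotProduct]
      rw [hMv, dotProduct_smul, smul_eq_mul] at h1
      rcases mul_eq_zero.mp h1 with h2 | h2
      · exact absurd h2 hei
      · simpa [dotProduct] using h2
    have hAv : adM y *ᵥ v = e i • v := by rw [← EIG_.MM_mulVec y v hsum, hMv]
    rcases lt_or_ge (e i) 0 with hneg | hpos
    · refine ⟨-e i, -1, v, Or.inr rfl, ?_, hv0, hsum, ?_⟩
      · rwa [abs_of_neg hneg] at hi
      · rw [hAv]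
        funext x
        simp
    · refine ⟨e i, 1, v, Or.inl rfl, ?_, hv0, hsum, ?_⟩
      · rwa [abs_of_nonneg hpos] at hi
      · rw [hAv, one_smul]
  · exfalso
    apply hbad
    intro f hf
    push Not at hex
    have h1 : ∑ x, f x * adj y f x = f ⬝ᵥ (EIG_.MM y) *ᵥ f := by
      rw [EIG_.MM_mulVec y f hf, (hA G d).1 y f]
      rfl
    have h2 : ∑ x, f x ^ 2 = f ⬝ᵥ f := by
      unfold dotProduct
      exact Finset.sum_congr rfl fun x _ => by ring
    rw [h1, h2, he, SPC_.FF_quad, SPC_.norm_quad U hU', Finset.mul_sum]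
    refine (Finset.abs_sum_le_sum_abs _ _).trans (Finset.sum_le_sum fun i _ => ?_)
    rw [abs_mul, abs_of_nonneg (sq_nonneg ((Uᵀ *ᵥ f) i))]
    exact mul_le_mul_of_nonneg_right (hex i) (sq_nonneg _)

end Pool.Agent.RCG
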