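import Pool.Agent.RCG.Targets3
import Pool.Agent.RCG.ELE

set_option autoImplicit false

/-! RCG-ELEU: elementary properties for a single group. -/

namespace Pool.Agent.RCG

/-- elementary properties -/
theorem prove_ELEU : T_ELEU := by
  intro G _ _
  exact ⟨fun d B B' hB => ELE_.bad_mono hB, fun d => ELE_.bad_zero d,
    fun d r B => ELE_.bad_split d r B⟩

end Pool.Agent.RCG
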