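import Pool.Agent.RCG.Targets

set_option autoImplicit false

/-!
# RCG: ETA2
-/

namespace Pool.Agent.RCG

open Finset Matrix

namespace ETA2_

/-- rearrangement of a sum over the tuples by the values of the word -/
theorem sum_ev {G : Type} [Group G] [Fintype G] {d n : ℕ} (w : Fin n → Ltr d) (F : G → ℝ) :
    ∑ y : Fin d → G, F (ev y w) =
      ∑ h, (Nat.card {y : Fin d → G // ev y w = h} : ℝ) * F h := by
  classical
  rw [← Finset.sum_fiberwise_of_maps_to (s := (univ : Finset (Fin d → G)))
    (t := (univ : Finset G)) (g := fun y : Fin d → G => ev y w) (fun _ _ => mem_univ _)]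
  refine Finset.sum_congr rfl fun h _ => ?_
  rw [Nat.card_eq_fintype_card, Fintype.card_subtype]
  rw [Finset.sum_congr rfl (g := fun _ => F h) (fun y hy => by
    rw [(mem_filter.1 hy).2])]
  rw [sum_const, nsmul_eq_mul]

/-- the trivial bound -/
theorem triv {G : Type} [Group G] [Fintype G] (f : G → ℝ) (g : G) :
    ∑ x, f x * f (x * g) ≤ ∑ x, f x ^ 2 := by
  have h1 : ∑ x, f (x * g) ^ 2 = ∑ x, f x ^ 2 :=
    Fintype.sum_equiv (Equiv.mulRight g) _ _ (fun x => by simp)
  have h2 : ∑ x, f x * f (x * g) ≤ ∑ x, (f x ^ 2 + f (x * g) ^ 2) / 2 := by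
    refine Finset.sum_le_sum fun x _ => ?_
    nlinarith [sq_nonneg (f x - f (x * g))]
  rw [← Finset.sum_div, Finset.sum_add_distrib, h1] at h2
  linarith

/-- the trace -/
def tr {p : ℕ} (g : SL 2 p) : ZMod p := g.1 0 0 + g.1 1 1

theorem tr_conj {p : ℕ} (h g : SL 2 p) : tr (MulAut.conj h g) = tr g := by
  have h1 : ∀ x : SL 2 p, tr x = (x.1).trace := fun x => by
    rw [Matrix.trace_fin_two]; rfl
  rw [h1, h1, MulAut.conj_apply, Matrix.SpecialLinearGroup.coe_mul,
    Matrix.SpecialLinearGroup.coe_mul, Matrix.trace_mul_comm, ← Matrix.mul_assoc,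
    ← Matrix.SpecialLinearGroup.coe_mul, inv_mul_cancel, Matrix.SpecialLinearGroup.coe_one,
    Matrix.one_mul]

end ETA2_

open ETA2_ in
theorem prove_ETA2 (h1 : T_TR2) (h2 : T_CEN2) (h3 : T_DIM2) (h4 : T_WRD) (h5 : T_CLF) :
    T_ETA2 := by
  classical
  intro p _ d n w hp hdp hw f hf
  have hp2 : 2 ≤ p := (Fact.out : p.Prime).two_le
  have hp3 : 3 ≤ p := by omega
  have hpR : (3 : ℝ) ≤ p := by exact_mod_cast hp3
  have hp0 : (0 : ℝ) < p := by linarith
  set T : ℝ := (Fintype.card (SL 2 p) : ℝ) ^ d with hT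
  have hT0 : 0 ≤ T := by positivity
  have hS0 : 0 ≤ ∑ x, f x ^ 2 := Finset.sum_nonneg fun x _ => sq_nonneg _
  by_cases hn : n ≤ p
  · -- the main case
    set N : SL 2 p → ℝ := fun h => (Nat.card {y : Fin d → SL 2 p // ev y w = h} : ℝ) with hN
    have hN0 : ∀ h, 0 ≤ N h := fun h => by positivity
    have hNT : ∑ h, N h = T := by
      have h6 := sum_ev (G := SL 2 p) w (fun _ => 1)
      simp only [mul_one, sum_const, card_univ, Fintype.card_fun, Fintype.card_fin,
        nsmul_eq_mul, Nat.cast_pow] at h6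
      exact h6.symm
    have htr : ∀ t : ZMod p, (Nat.card {y : Fin d → SL 2 p // tr (ev y w) = t} : ℝ) ≤
        4 * n / p * T := by
      intro t
      have h6 := h1 p d n w t hdp hw
      rw [div_mul_eq_mul_div, le_div_iff₀ hp0, mul_comm]
      exact h6
    set Z : Finset (SL 2 p) := univ.filter (fun g => g.1 = 1 ∨ g.1 = -1) with hZ
    have hβ : ∑ h ∈ Z, N h ≤ (8 * n / p) * T := by
      have h6 : ∑ h ∈ Z, N h = ∑ h, N h * (if h ∈ Z then 1 else 0) := by
        simp [Finset.sum_ite_mem]
      have h7 : ∀ t : ZMod p, (Nat.card {y : Fin d → SL 2 p // tr (ev y w) = t} : ℝ) =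
          ∑ y : Fin d → SL 2 p, (if tr (ev y w) = t then 1 else 0) := by
        intro t
        rw [Nat.card_eq_fintype_card, Fintype.card_subtype, Finset.sum_boole]
      rw [h6, ← sum_ev (G := SL 2 p) w (fun h => if h ∈ Z then (1 : ℝ) else 0)]
      have h8 : ∑ y : Fin d → SL 2 p, (if ev y w ∈ Z then (1 : ℝ) else 0) ≤
          ∑ y : Fin d → SL 2 p, ((if tr (ev y w) = 2 then (1 : ℝ) else 0) +
            (if tr (ev y w) = -2 then 1 else 0)) := by
        refine Finset.sum_le_sum fun y _ => ?_
        by_cases hy : ev y w ∈ Z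
        · rw [if_pos hy]
          rcases (mem_filter.1 hy).2 with h9 | h9
          · have h10 : tr (ev y w) = 2 := by
              unfold tr
              rw [h9]
              norm_num
            rw [if_pos h10]
            split_ifs <;> norm_num
          · have h10 : tr (ev y w) = -2 := by
              unfold tr
              rw [h9]
              norm_num
            rw [if_pos h10]
            split_ifs <;> norm_num
        · rw [if_neg hy]
          split_ifs <;> norm_num
      refine h8.trans ?_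
      rw [Finset.sum_add_distrib, ← h7, ← h7]
      have h9 := htr 2
      have h10 := htr (-2)
      have h11 : (8 * n / p : ℝ) * T = 4 * n / p * T + 4 * n / p * T := by ring
      rw [h11]
      exact add_le_add h9 h10
    have hγ : ∀ h, h ∉ Z → N h * Fintype.card (SL 2 p) ≤ (8 * n) * T := by
      intro g hg
      have hg' : ¬ (g.1 = 1 ∨ g.1 = -1) := fun h => hg (mem_filter.2 ⟨mem_univ _, h⟩)
      push Not at hg'
      have h6 := h5 (SL 2 p) (SL 2 p) (ZMod p) MulAut.conj tr tr_conj d n w g
      have h7 : Nat.card {h : SL 2 p // MulAut.conj h g = g} ≤ 2 * p := by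
        have h8 := h2 p g hg'.1 hg'.2
        refine le_trans (le_of_eq ?_) h8
        refine Nat.card_congr (Equiv.subtypeEquivRight fun h => ?_)
        rw [MulAut.conj_apply, mul_inv_eq_iff_eq_mul]
      have h8 : (Fintype.card (SL 2 p) : ℝ) * N g ≤
          (Nat.card {h : SL 2 p // MulAut.conj h g = g} : ℝ) *
            (Nat.card {y : Fin d → SL 2 p // tr (ev y w) = tr g} : ℝ) := by
        have hNg : N g = (Nat.card {y : Fin d → SL 2 p // ev y w = g} : ℝ) := rfl
        rw [hNg]
        exact_mod_cast h6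
      have h9 : (Nat.card {h : SL 2 p // MulAut.conj h g = g} : ℝ) ≤ 2 * p := by
        exact_mod_cast h7
      have h10 := htr (tr g)
      calc N g * Fintype.card (SL 2 p) = (Fintype.card (SL 2 p) : ℝ) * N g := mul_comm _ _
        _ ≤ _ := h8
        _ ≤ (2 * p) * (4 * n / p * T) := by gcongr
        _ = 8 * n * T := by
            field_simp
            ring
    have hD : (0 : ℝ) < ((p : ℝ) - 1) / 2 := by linarith
    have key := h4 (SL 2 p) (((p : ℝ) - 1) / 2) (8 * n / p) (8 * n) hD (h3 p hp)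
      (by positivity) (by positivity) N T hN0 hNT Z hβ hγ f hf
    have h6 : ∑ y : Fin d → SL 2 p, ∑ x, f x * f (x * ev y w) =
        ∑ h, N h * ∑ x, f x * f (x * h) :=
      sum_ev (G := SL 2 p) w (fun h => ∑ x, f x * f (x * h))
    rw [h6]
    refine key.trans ?_
    have hx0 : (0 : ℝ) ≤ (n : ℝ) / p := by positivity
    have hx1 : (n : ℝ) / p ≤ 1 := by
      rw [div_le_one hp0]
      exact_mod_cast hn
    have h7 : (8 * n / p : ℝ) ≤ 8 * √((n : ℝ) / p) := by
      have h8 : (n : ℝ) / p ≤ √((n : ℝ) / p) :=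
        (le_abs_self _).trans (Real.abs_le_sqrt (by nlinarith))
      calc (8 * n / p : ℝ) = 8 * (n / p) := by ring
        _ ≤ _ := by linarith
    have h8 : √((8 * n : ℝ) / (((p : ℝ) - 1) / 2)) ≤ 6 * √((n : ℝ) / p) := by
      refine Real.sqrt_le_iff.2 ⟨by positivity, ?_⟩
      rw [mul_pow, Real.sq_sqrt hx0, div_le_iff₀ hD]
      have h9 : (6 : ℝ) ^ 2 * ((n : ℝ) / p) * (((p : ℝ) - 1) / 2) =
          18 * n - 18 * (n / p) := by
        field_simp
        ring
      rw [h9]
      have h10 : (n : ℝ) / p ≤ n / 3 := by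
        gcongr
      have h11 : (0 : ℝ) ≤ n := by positivity
      linarith
    have h9 : (8 * n / p : ℝ) + √((8 * n : ℝ) / (((p : ℝ) - 1) / 2)) ≤
        14 * √((n : ℝ) / p) := by linarith
    gcongr
  · -- the trivial case
    have hn' : (p : ℝ) ≤ n := by
      push Not at hn
      exact_mod_cast hn.le
    have h6 : 1 ≤ √((n : ℝ) / p) := by
      rw [Real.one_le_sqrt, le_div_iff₀ hp0]
      linarith
    have h7 : ∑ y : Fin d → SL 2 p, ∑ x, f x * f (x * ev y w) ≤ T * ∑ x, f x ^ 2 := by
      refine (Finset.sum_le_sum fun y _ => triv f (ev y w)).trans (le_of_eq ?_)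
      simp only [sum_const, card_univ, Fintype.card_fun, Fintype.card_fin, nsmul_eq_mul,
        Nat.cast_pow]
      rw [hT]
    refine h7.trans ?_
    have h8 : T ≤ 14 * √((n : ℝ) / p) * T := by
      nlinarith
    exact mul_le_mul_of_nonneg_right h8 hS0

end Pool.Agent.RCG
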