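import Pool.Agent.RCG.Targets

/-!
# RCG, GT: the Golden-Thompson inequality
-/

set_option autoImplicit false

namespace Pool.Agent.RCG

open Finset Matrix

/-- the exponential of a real symmetric matrix is positive semidefinite -/
theorem GT_.psd {ι : Type} [Fintype ι] [DecidableEq ι] (A : Matrix ι ι ℝ) (hA : A.IsHermitian) :
    (NormedSpace.exp A).PosSemidef := by
  have h1 : ((1 / 2 : ℝ) • A).IsHermitian := by
    unfold Matrix.IsHermitian
    rw [Matrix.conjTranspose_smul, hA.eq]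
    simp
  have h2 : NormedSpace.exp A = NormedSpace.exp ((1 / 2 : ℝ) • A) *
      (NormedSpace.exp ((1 / 2 : ℝ) • A))ᴴ := by
    rw [(h1.exp).eq, ← sq, ← Matrix.exp_nsmul]
    congr 1
    ext i j
    simp only [Matrix.smul_apply, smul_eq_mul, nsmul_eq_mul]
    push_cast
    ring
  rw [h2]
  exact Matrix.posSemidef_self_mul_conjTranspose _

theorem GT_.pow {ι : Type} [Fintype ι] [DecidableEq ι] (A : Matrix ι ι ℝ) (n : ℕ) (hn : n ≠ 0) :
    NormedSpace.exp ((1 / (n : ℝ)) • A) ^ n = NormedSpace.exp A := by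
  rw [← Matrix.exp_nsmul]
  congr 1
  have : (n : ℝ) ≠ 0 := by exact_mod_cast hn
  ext i j
  simp only [Matrix.smul_apply, smul_eq_mul, nsmul_eq_mul]
  field_simp

theorem prove_GT (h1 : T_PWR) (h2 : T_LT) : T_GT := by
  intro ι _ _ A B hA hB
  have hlim := h2 ι A B
  have hlim2 : Filter.Tendsto (fun k : ℕ => ((NormedSpace.exp ((1 / ((2 ^ k : ℕ) : ℝ)) • A) *
      NormedSpace.exp ((1 / ((2 ^ k : ℕ) : ℝ)) • B)) ^ (2 ^ k)).trace) Filter.atTop
      (nhds (NormedSpace.exp (A + B)).trace) :=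
    ((continuous_id.matrix_trace).tendsto _).comp
      (hlim.comp (tendsto_pow_atTop_atTop_of_one_lt one_lt_two))
  refine le_of_tendsto' hlim2 (fun k => ?_)
  have hc : ∀ M : Matrix ι ι ℝ, M.IsHermitian →
      ((1 / ((2 ^ k : ℕ) : ℝ)) • M).IsHermitian := by
    intro M hM
    unfold Matrix.IsHermitian
    rw [Matrix.conjTranspose_smul, hM.eq]
    simp
  have h3 := h1 ι _ _ (GT_.psd _ (hc A hA)) (GT_.psd _ (hc B hB)) k
  rw [GT_.pow A (2 ^ k) (by positivity), GT_.pow B (2 ^ k) (by positivity)] at h3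
  exact h3

end Pool.Agent.RCG
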