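import Pool.Agent.RCG.Targets4
import Pool.Agent.RCG.SPC
import Pool.Agent.RCG.GT

/-!
# RCG: T_SPE, bounds for the exponential of a symmetric matrix
-/

set_option autoImplicit false

namespace Pool.Agent.RCG

open Finset Matrix

namespace SPE_

variable {ι : Type} [Fintype ι] [DecidableEq ι]

open SPC_ in
/-- the exponential in an orthonormal eigenbasis -/
theorem exp_FF (U : Matrix ι ι ℝ) (hU : Uᵀ * U = 1) (hU' : U * Uᵀ = 1) (d : ι → ℝ) (t : ℝ) :
    NormedSpace.exp (t • SPC_.FF U d) = SPC_.FF U (fun i => Real.exp (t * d i)) := by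
  have hinv : U⁻¹ = Uᵀ := Matrix.inv_eq_right_inv hU'
  have hunit : IsUnit U := by
    refine ⟨⟨U, Uᵀ, hU', hU⟩, rfl⟩
  have h1 : t • SPC_.FF U d = U * diagonal (fun i => t * d i) * U⁻¹ := by
    rw [hinv]
    unfold SPC_.FF
    rw [← Matrix.smul_mul, ← Matrix.mul_smul, ← Matrix.diagonal_smul]
    rfl
  rw [h1, Matrix.exp_conj U _ hunit, Matrix.exp_diagonal, hinv]
  unfold SPC_.FF
  congr 3
  funext i
  rw [Pi.coe_exp, Real.exp_eq_exp_ℝ]

/-- sum against the square of a coordinate vector -/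
theorem sum_single (i : ι) (e : ι → ℝ) :
    ∑ j, e j * (Pi.single i (1 : ℝ) : ι → ℝ) j ^ 2 = e i := by
  rw [Finset.sum_eq_single i]
  · simp
  · intro j _ hj
    rw [Pi.single_eq_of_ne hj]; simp
  · intro h; exact absurd (Finset.mem_univ i) h

end SPE_

open SPC_ in
/-- bounds for the exponential of a symmetric matrix -/
theorem prove_SPE : T_SPE := by
  intro ι _ _ M t b hM ht
  obtain ⟨U, d, hU, hU', hd⟩ := SPC_.diag M hM
  have hexp : NormedSpace.exp (t • M) = SPC_.FF U (fun i => Real.exp (t * d i)) := by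
    rw [hd]
    exact SPE_.exp_FF U hU hU' d t
  refine ⟨?_, ?_, GT_.psd M hM⟩
  · intro hb v
    have hdb : ∀ i, d i ≤ b := by
      intro i
      have h1 := hb (U *ᵥ Pi.single i 1)
      have h2 : Uᵀ *ᵥ (U *ᵥ Pi.single i 1) = Pi.single i 1 := by
        rw [mulVec_mulVec, hU, one_mulVec]
      rw [hd, FF_quad, norm_quad U hU', h2, SPE_.sum_single] at h1
      have h4 := SPE_.sum_single i (fun _ => (1 : ℝ))
      simp only [one_mul] at h4
      rw [h4, mul_one] at h1
      exact h1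
    rw [hexp, FF_quad, norm_quad U hU', Finset.mul_sum]
    apply Finset.sum_le_sum
    intro i _
    apply mul_le_mul_of_nonneg_right _ (sq_nonneg _)
    exact Real.exp_le_exp.mpr (mul_le_mul_of_nonneg_left (hdb i) ht)
  · intro v hv
    rw [hexp, FF_quad, norm_quad U hU']
    rw [hd, FF_quad, norm_quad U hU'] at hv
    have key : ∀ i, Real.exp (t * b) * (1 + t * (d i - b)) * (Uᵀ *ᵥ v) i ^ 2 ≤
        Real.exp (t * d i) * (Uᵀ *ᵥ v) i ^ 2 := by
      intro i
      apply mul_le_mul_of_nonneg_right _ (sq_nonneg _)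
      have h1 : Real.exp (t * d i) = Real.exp (t * b) * Real.exp (t * (d i - b)) := by
        rw [← Real.exp_add]
        congr 1
        ring
      rw [h1]
      apply mul_le_mul_of_nonneg_left _ (Real.exp_pos _).le
      have := Real.add_one_le_exp (t * (d i - b))
      linarith
    have h2 := Finset.sum_le_sum (fun i (_ : i ∈ (Finset.univ : Finset ι)) => key i)
    refine le_trans ?_ h2
    have h3 : ∑ i, Real.exp (t * b) * (1 + t * (d i - b)) * (Uᵀ *ᵥ v) i ^ 2 =
        Real.exp (t * b) * ∑ i, (Uᵀ *ᵥ v) i ^ 2 +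
        Real.exp (t * b) * t * (∑ i, d i * (Uᵀ *ᵥ v) i ^ 2 - b * ∑ i, (Uᵀ *ᵥ v) i ^ 2) := by
      rw [Finset.mul_sum, Finset.mul_sum, ← Finset.sum_sub_distrib, Finset.mul_sum,
        ← Finset.sum_add_distrib]
      apply Finset.sum_congr rfl
      intro i _
      ring
    rw [h3]
    have h4 : 0 ≤ Real.exp (t * b) * t *
        (∑ i, d i * (Uᵀ *ᵥ v) i ^ 2 - b * ∑ i, (Uᵀ *ᵥ v) i ^ 2) :=
      mul_nonneg (mul_nonneg (Real.exp_pos _).le ht) (by linarith)
    linarith

end Pool.Agent.RCG
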