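import Pool.Agent.RCG.Targets7
import Pool.Agent.RCG.SPE

/-!
# RCG: T_EXZ, an upper bound for the exponential of a symmetric matrix
-/

set_option autoImplicit false

namespace Pool.Agent.RCG

open Finset Matrix

namespace EXZ_

/-- the scalar inequality -/
theorem scalar (a u : ℝ) (ha : 0 < a) (hu : |u| ≤ a) :
    Real.exp u ≤ 1 + u + u ^ 2 / a ^ 2 * Real.exp a := by
  have h1 : HasSum (fun n : ℕ => u ^ n / (n.factorial : ℝ)) (Real.exp u) := by
    rw [Real.exp_eq_exp_ℝ]
    exact NormedSpace.expSeries_div_hasSum_exp u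
  have h2 : HasSum (fun n : ℕ => a ^ n / (n.factorial : ℝ)) (Real.exp a) := by
    rw [Real.exp_eq_exp_ℝ]
    exact NormedSpace.expSeries_div_hasSum_exp a
  have h3 := (h2.mul_left (u ^ 2 / a ^ 2)).sub h1
  have h4 : HasSum (fun n : ℕ => if n = 0 then (1 : ℝ) else 0) 1 := hasSum_ite_eq 0 1
  have h5 : HasSum (fun n : ℕ => if n = 1 then u else 0) u := hasSum_ite_eq 1 u
  have h6 := (h3.add h4).add h5
  have h7 : 0 ≤ u ^ 2 / a ^ 2 * Real.exp a - Real.exp u + 1 + u := by
    apply h6.nonneg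
    intro n
    have hc : 0 ≤ u ^ 2 / a ^ 2 := by positivity
    rcases n with _ | _ | n
    · simp
      positivity
    · simp
      positivity
    · have e1 : u ^ (n + 1 + 1) ≤ u ^ 2 / a ^ 2 * a ^ (n + 1 + 1) := by
        have e2 : u ^ 2 / a ^ 2 * a ^ (n + 1 + 1) = u ^ 2 * a ^ n := by
          rw [pow_succ a (n + 1), pow_succ a n]
          field_simp
        have e3 : u ^ (n + 1 + 1) = u ^ 2 * u ^ n := by ring
        rw [e2, e3]
        apply mul_le_mul_of_nonneg_left _ (sq_nonneg u)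
        calc u ^ n ≤ |u ^ n| := le_abs_self _
          _ = |u| ^ n := abs_pow u n
          _ ≤ a ^ n := pow_le_pow_left₀ (abs_nonneg u) hu n
      have e4 : u ^ (n + 1 + 1) / ((n + 1 + 1).factorial : ℝ) ≤
          u ^ 2 / a ^ 2 * (a ^ (n + 1 + 1) / ((n + 1 + 1).factorial : ℝ)) := by
        rw [← mul_div_assoc]
        exact div_le_div_of_nonneg_right e1 (Nat.cast_nonneg _)
      rw [if_neg (by omega), if_neg (by omega)]
      linarith
  linarith

/-- the scalar inequality with a parameter -/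
theorem scalar' (θ z x : ℝ) (hθ : 0 ≤ θ) (hz : 0 < z) (hx : |x| ≤ z) :
    Real.exp (θ * x) ≤ 1 + θ * x + Real.exp (θ * z) / z ^ 2 * (x * x) := by
  rcases hθ.eq_or_lt with h | h
  · rw [← h]
    simp only [zero_mul, Real.exp_zero, add_zero]
    have : 0 ≤ 1 / z ^ 2 * (x * x) := by
      have := mul_self_nonneg x
      positivity
    linarith
  · have h1 := scalar (θ * z) (θ * x) (by positivity) (by
      rw [abs_mul, abs_of_pos h]
      exact mul_le_mul_of_nonneg_left hx h.le)
    refine h1.trans (le_of_eq ?_)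
    congr 1
    field_simp

end EXZ_

open SPC_ in
/-- the exponential of a symmetric matrix -/
theorem prove_EXZ : T_EXZ := by
  intro ι _ _ Z z θ hZ hz hθ hb v
  obtain ⟨U, d, hU, hU', hd⟩ := SPC_.diag Z hZ
  have hexp : NormedSpace.exp (θ • Z) = SPC_.FF U (fun i => Real.exp (θ * d i)) := by
    rw [hd]
    exact SPE_.exp_FF U hU hU' d θ
  have hdb : ∀ i, |d i| ≤ z := by
    intro i
    have h1 := hb (U *ᵥ Pi.single i 1)
    have h2 : Uᵀ *ᵥ (U *ᵥ Pi.single i 1) = Pi.single i 1 := by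
      rw [mulVec_mulVec, hU, one_mulVec]
    rw [hd, FF_quad, norm_quad U hU', h2, SPE_.sum_single] at h1
    have h4 := SPE_.sum_single i (fun _ => (1 : ℝ))
    simp only [one_mul] at h4
    rw [h4, mul_one] at h1
    exact h1
  have hZZ : Z * Z = SPC_.FF U (fun i => d i * d i) := by
    conv_lhs => rw [hd]
    exact FF_mul U hU d d
  rw [hexp, hZZ, FF_quad, FF_quad, norm_quad U hU' v]
  conv_rhs => rw [hd, FF_quad]
  rw [Finset.mul_sum, Finset.mul_sum, ← Finset.sum_add_distrib, ← Finset.sum_add_distrib]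
  apply Finset.sum_le_sum
  intro i _
  have h1 := mul_le_mul_of_nonneg_right (EXZ_.scalar' θ z (d i) hθ hz (hdb i))
    (sq_nonneg ((Uᵀ *ᵥ v) i))
  linarith

end Pool.Agent.RCG
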