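import Pool.Agent.RCG.Targets13

set_option autoImplicit false

/-!
# RCG: elementary inequalities for the free resolvent (target `T_FN1Q`)
-/

namespace Pool.Agent.RCG

open Finset Matrix

namespace FN1Q_

theorem cf_pos {q : ℕ} {l0 R : ℝ} (hl : 0 < l0) (hR : R < l0) (m : ℕ) : 0 < cf q l0 R m := by
  unfold cf
  have h1 : 0 < l0 - R := by linarith
  split_ifs <;> positivity

end FN1Q_

theorem prove_FN1Q (h1 : T_CAT) (h2 : T_KES) : T_FN1Q := by
  intro δ C k l0 R d q hδ hC hk hd hdk hl0 hR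
  have hC0 : 0 < C := by linarith
  have hk0 : 0 < k := by linarith
  have hs : 0 < √k := Real.sqrt_pos.2 hk0
  have hsq : √k ^ 2 = k := Real.sq_sqrt hk0.le
  have hl : 0 < l0 := by
    rw [hl0]
    positivity
  have hRl : R < l0 := by
    rw [hR, hl0]
    nlinarith
  have hlR : 0 < l0 - R := by linarith
  have hR0 : 0 < R := by
    rw [hR]
    positivity
  have h4k : 4 * k ≤ l0 ^ 2 := by
    rw [hl0, mul_pow, hsq]
    nlinarith
  have hcf := fun m => FN1Q_.cf_pos (q := q) hl hRl m
  have hterm : ∀ m ∈ range (q + 1), 0 ≤ cf q l0 R m * (C * √k) ^ m := fun m _ =>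
    mul_nonneg (hcf m).le (by positivity)
  have hcfq : cf q l0 R q = 1 / (l0 ^ q * (l0 - R)) := by
    unfold cf
    rw [if_neg (lt_irrefl q)]
  refine ⟨?_, ?_, ?_⟩
  · unfold pol
    refine Finset.sum_pos (fun m _ => mul_pos (hcf m) (by positivity)) ⟨0, ?_⟩
    rw [Finset.mem_range]
    omega
  · intro σ hσ
    have hσ1 : ∀ m : ℕ, |σ ^ m| = 1 := by
      intro m
      rw [abs_pow]
      rcases hσ with rfl | rfl <;> simp
    calc |∑ m ∈ range (q + 1), cf q l0 R m * σ ^ m * (tw d m : ℝ)|
        ≤ ∑ m ∈ range (q + 1), |cf q l0 R m * σ ^ m * (tw d m : ℝ)| :=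
          Finset.abs_sum_le_sum_abs _ _
      _ = ∑ m ∈ range (q + 1), cf q l0 R m * (tw d m : ℝ) := by
          refine Finset.sum_congr rfl fun m _ => ?_
          rw [abs_mul, abs_mul, hσ1, mul_one, abs_of_pos (hcf m),
            abs_of_nonneg (Nat.cast_nonneg _)]
      _ = ∑ m ∈ range q, (tw d m : ℝ) / l0 ^ (m + 1) +
            1 / (l0 ^ q * (l0 - R)) * (tw d q : ℝ) := by
          rw [Finset.sum_range_succ, hcfq]
          congr 1
          refine Finset.sum_congr rfl fun m hm => ?_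
          unfold cf
          rw [if_pos (Finset.mem_range.1 hm)]
          ring
      _ ≤ (l0 - √(l0 ^ 2 - 4 * k)) / (2 * k) + (2 * √k) ^ q / (l0 ^ q * (l0 - R)) := by
          refine add_le_add (h1 d q k l0 hd hdk hl h4k) ?_
          have h3 : (tw d q : ℝ) ≤ (2 * √k) ^ q := by
            have h4 : (tw d q : ℝ) ≤ (2 * √(2 * (d : ℝ))) ^ q := h2 d q hd
            refine h4.trans ?_
            gcongr
          calc 1 / (l0 ^ q * (l0 - R)) * (tw d q : ℝ)
              ≤ 1 / (l0 ^ q * (l0 - R)) * (2 * √k) ^ q := by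
                refine mul_le_mul_of_nonneg_left h3 ?_
                positivity
            _ = (2 * √k) ^ q / (l0 ^ q * (l0 - R)) := by ring
  · have hM0 : 1 / l0 ≤ pol q l0 R (C * √k) := by
      have h5 : cf q l0 R 0 * (C * √k) ^ 0 ≤ pol q l0 R (C * √k) := by
        unfold pol
        exact Finset.single_le_sum (f := fun m => cf q l0 R m * (C * √k) ^ m) hterm
          (Finset.mem_range.2 (by omega))
      refine le_trans ?_ h5
      rw [pow_zero, mul_one]
      unfold cf
      split_ifs with h6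
      · rw [zero_add, pow_one]
      · have h7 : q = 0 := by omega
        rw [h7, pow_zero, one_mul]
        exact one_div_le_one_div_of_le hlR (by linarith)
    have hMq : (2 * √k) ^ q / (l0 ^ q * (l0 - R)) ≤ pol q l0 R (C * √k) := by
      have h5 : cf q l0 R q * (C * √k) ^ q ≤ pol q l0 R (C * √k) := by
        unfold pol
        exact Finset.single_le_sum (f := fun m => cf q l0 R m * (C * √k) ^ m) hterm
          (Finset.mem_range.2 (by omega))
      refine le_trans ?_ h5
      rw [hcfq]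
      have h6 : (2 * √k) ^ q ≤ (C * √k) ^ q := by
        gcongr
      calc (2 * √k) ^ q / (l0 ^ q * (l0 - R)) = 1 / (l0 ^ q * (l0 - R)) * (2 * √k) ^ q := by
            ring
        _ ≤ 1 / (l0 ^ q * (l0 - R)) * (C * √k) ^ q := by
            refine mul_le_mul_of_nonneg_left h6 ?_
            positivity
    have hfirst : (l0 - √(l0 ^ 2 - 4 * k)) / (2 * k) ≤ 2 * (1 / l0) := by
      have hs2 : √(l0 ^ 2 - 4 * k) ^ 2 = l0 ^ 2 - 4 * k := Real.sq_sqrt (by linarith)
      have hs0 : 0 ≤ √(l0 ^ 2 - 4 * k) := Real.sqrt_nonneg _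
      set s := √(l0 ^ 2 - 4 * k) with hsdef
      have hsl : s ≤ l0 := by
        rw [hsdef]
        calc √(l0 ^ 2 - 4 * k) ≤ √(l0 ^ 2) := Real.sqrt_le_sqrt (by linarith)
          _ = l0 := Real.sqrt_sq hl.le
      rw [div_le_iff₀ (by positivity)]
      have h8 : 2 * (1 / l0) * (2 * k) = 4 * k / l0 := by
        field_simp
        ring
      rw [h8, le_div_iff₀ hl]
      nlinarith
    calc (l0 - √(l0 ^ 2 - 4 * k)) / (2 * k) + (2 * √k) ^ q / (l0 ^ q * (l0 - R))
        ≤ 2 * (1 / l0) + pol q l0 R (C * √k) := add_le_add hfirst hMq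
      _ ≤ 2 * pol q l0 R (C * √k) + pol q l0 R (C * √k) := by gcongr
      _ = 3 * pol q l0 R (C * √k) := by ring

end Pool.Agent.RCG
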