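import Pool.Agent.RCG.Targets7

set_option autoImplicit false

/-!
# RCG: FN7, the bound for every number of generators
-/

namespace Pool.Agent.RCG

open Finset Matrix

theorem prove_FN7 (h1 : T_PW7) (h2 : T_GSM) (h3 : T_GE7) : T_FN7 := by
  intro d hd
  have h := h3 (fun d B => Good G2 (fun p => (p.1 : ℝ)) d B (1 / 3)) 91 (by norm_num)
    (fun d B B' hB hG => (h2 _ G2 _ (1 / 3) d 0 B B').2 hB hG)
    (fun d d' B B' h h' => (h2 _ G2 _ (1 / 3) d d' B B').1 h h')
    (fun j => h1 j) d hd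
  have e : 4 * 91 * √(2 * (d : ℝ)) = 364 * √(2 * (d : ℝ)) := by ring
  rw [← e]
  exact h

end Pool.Agent.RCG
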