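import Pool.Agent.RCG.Targets11

set_option autoImplicit false

/-!
# RCG, target FN9: the remainder
-/

namespace Pool.Agent.RCG

namespace FN9_

theorem bound (δ : ℝ) (hδ : 0 < δ) (s a r d m : ℕ) (hr : r ≤ s) (e : (s + 1) * a + r = d)
    (hm : (4 * (s : ℝ) / δ) ^ 2 ≤ m) (hmd : m ≤ d) :
    (2 + δ / 2) * √(2 * (((s : ℝ) + 1) * (a : ℝ))) + 2 * (r : ℝ) ≤
      (2 + δ) * √(2 * (d : ℝ)) := by
  have hd : (d : ℝ) = ((s : ℝ) + 1) * a + r := by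
    rw [← e]
    push_cast
    ring
  have hr0 : (0 : ℝ) ≤ r := by positivity
  have hrs : (r : ℝ) ≤ s := by exact_mod_cast hr
  have hmd' : (m : ℝ) ≤ d := by exact_mod_cast hmd
  have hd0 : (0 : ℝ) ≤ d := by positivity
  have h1 : √(2 * (((s : ℝ) + 1) * (a : ℝ))) ≤ √(2 * (d : ℝ)) :=
    Real.sqrt_le_sqrt (by linarith)
  have h2 : 4 * (s : ℝ) / δ ≤ √(2 * (d : ℝ)) := by
    refine Real.le_sqrt_of_sq_le ?_
    linarith
  have h3 : 4 * (s : ℝ) ≤ √(2 * (d : ℝ)) * δ := by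
    rwa [div_le_iff₀ hδ] at h2
  have h4 : (2 + δ / 2) * √(2 * (((s : ℝ) + 1) * (a : ℝ))) ≤ (2 + δ / 2) * √(2 * (d : ℝ)) :=
    mul_le_mul_of_nonneg_left h1 (by linarith)
  nlinarith

end FN9_

theorem prove_FN9 (h1 : T_GD9) (h2 : T_ELE) : T_FN9 := by
  intro δ hδ
  obtain ⟨s, D0, hs, hD0, H⟩ := h1 (δ / 2) (by linarith)
  obtain ⟨m, hm⟩ := exists_nat_ge ((4 * (s : ℝ) / δ) ^ 2)
  refine ⟨(s + 1) * D0 + m, fun d hd => ?_⟩
  obtain ⟨hmono, -, hadd⟩ := h2 _ G2 (fun p => (p.1 : ℝ)) (1 / 3)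
  have e : (s + 1) * (d / (s + 1)) + d % (s + 1) = d := Nat.div_add_mod d (s + 1)
  have hr : d % (s + 1) < s + 1 := Nat.mod_lt _ (by omega)
  have hd1 : D0 ≤ d / (s + 1) := by
    rw [Nat.le_div_iff_mul_le (by omega), mul_comm]
    omega
  have h3 := hadd _ (d % (s + 1)) _ (H _ hd1)
  rw [e] at h3
  exact hmono _ _ _ (FN9_.bound δ hδ s (d / (s + 1)) (d % (s + 1)) d m (by omega) e hm
    (by omega)) h3

end Pool.Agent.RCG
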