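import Pool.Agent.RCG.Targets15

set_option autoImplicit false

/-!
# RCG: FNB, the Sarnak-Xue density in every representation (sums over balls of the tree)
-/

namespace Pool.Agent.RCG

open Finset Matrix

namespace FNB_

theorem SPS_mono {G : Type} [Group G] [Fintype G] {d : ℕ} {y : Fin d → G} {R ν ν' : ℝ}
    (h : SPS y R ν) (hν : ν ≤ ν') : SPS y R ν' := fun W hW E hE h1 =>
  (h W hW E hE h1).trans (mul_le_mul_of_nonneg_right hν (Nat.cast_nonneg _))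

end FNB_

open FNB_ in
theorem prove_FNB (hDNB : T_DNB) (hBLC : T_BLC) (hMRB : T_MRB) (hANB : T_ANB) (hANU : T_ANU)
    (hCHR : T_CHR) : T_FNB := by
  intro d η hd hη hη1
  obtain ⟨P, hP⟩ := hANB d η hd hη hη1
  refine ⟨⌈P⌉₊, fun p _ hp => ?_⟩
  have hpP : P ≤ (p : ℝ) := (Nat.le_ceil P).trans (by exact_mod_cast hp)
  obtain ⟨hp5', hdp, n, hA1, hA2, hA3⟩ := hP p hpP
  have hp5 : 5 ≤ p := by exact_mod_cast hp5'
  have hdp' : 2 * d < p := by exact_mod_cast hdp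
  have hp0 : (0 : ℝ) < p := by linarith
  have hd2 : (2 : ℝ) ≤ d := by exact_mod_cast hd
  have hB := hBLC d n hd
  set q : ℝ := 2 * (d : ℝ) - 1 with hqdef
  have hq1 : 1 ≤ q := by rw [hqdef]; linarith
  have hq0 : 0 < q := by linarith
  have hqn : 0 < q ^ n := pow_pos hq0 n
  have hB0 : (0 : ℝ) ≤ ((BL d n).card : ℝ) := Nat.cast_nonneg _
  have hB2 : ((BL d n).card : ℝ) ^ 2 ≤ 9 / 4 * q ^ (2 * n) := by
    calc ((BL d n).card : ℝ) ^ 2 ≤ (3 / 2 * q ^ n) ^ 2 := pow_le_pow_left₀ hB0 hB 2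
      _ = 9 / 4 * q ^ (2 * n) := by rw [mul_pow, ← pow_mul, mul_comm n 2]; norm_num
  -- few pairs: all the conclusions
  have key : ∀ y : Fin d → SL 2 p, ¬ q ^ n < (bb n y : ℝ) → ∀ θ : ℝ, 0 ≤ θ → θ ≤ 1 →
      SPS y (q ^ ((1 + θ) / 2) + q ^ ((1 - θ) / 2))
        (8 * (d : ℝ) * (p : ℝ) ^ (-((1 - η) * θ))) := by
    intro y hy θ hθ0 hθ1
    rw [not_lt] at hy
    have ha : 0 < q ^ ((1 + θ) / 2) := Real.rpow_pos_of_pos hq0 _
    have hb : 0 < q ^ ((1 - θ) / 2) := Real.rpow_pos_of_pos hq0 _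
    have hba : q ^ ((1 - θ) / 2) ≤ q ^ ((1 + θ) / 2) :=
      Real.rpow_le_rpow_of_exponent_le hq1 (by linarith)
    have hab : q ^ ((1 + θ) / 2) * q ^ ((1 - θ) / 2) = q := by
      rw [← Real.rpow_add hq0]
      have : (1 + θ) / 2 + (1 - θ) / 2 = 1 := by ring
      rw [this, Real.rpow_one]
    have h1 := hDNB p d n y (22 / p) _ _ (by omega) (by positivity) hb hba hab (hCHR p hp5)
    refine SPS_mono h1 (le_trans ?_ (hANU d n η p θ hd hp0 hθ0 hθ1 hA3))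
    rw [← hqdef]
    refine div_le_div_of_nonneg_right ?_ (pow_pos ha _).le
    have h3 : 22 / (p : ℝ) * ((BL d n).card : ℝ) ^ 2 ≤ q ^ n :=
      (mul_le_mul_of_nonneg_left hB2 (by positivity)).trans hA2
    linarith
  have hsub : Nat.card {y : Fin d → SL 2 p // ¬ ∀ θ : ℝ, 0 ≤ θ → θ ≤ 1 →
      SPS y (q ^ ((1 + θ) / 2) + q ^ ((1 - θ) / 2))
        (8 * (d : ℝ) * (p : ℝ) ^ (-((1 - η) * θ)))} ≤
      Nat.card {y : Fin d → SL 2 p // q ^ n < (bb n y : ℝ)} := by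
    refine Nat.card_le_card_of_injective
      (fun y => ⟨y.1, not_not.1 fun h => y.2 (key y.1 h)⟩) fun y y' h => ?_
    simp only [Subtype.mk.injEq] at h
    exact Subtype.ext h
  have h4 := hMRB p d n (q ^ n) hdp' hqn.le
  refine (Nat.cast_le.2 hsub).trans ?_
  have h5 : 36 * (n : ℝ) * q ^ n ≤ (p : ℝ) ^ (-(η / 2)) * p := (div_le_iff₀ hp0).1 hA1
  have hc : (0 : ℝ) ≤ (Fintype.card (SL 2 p) : ℝ) ^ d := by positivity
  refine le_of_mul_le_mul_left ?_ (mul_pos hqn hp0)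
  have hn0 : (0 : ℝ) ≤ 16 * n := by positivity
  calc q ^ n * p * (Nat.card {y : Fin d → SL 2 p // q ^ n < (bb n y : ℝ)} : ℝ)
      ≤ 16 * n * ((BL d n).card : ℝ) ^ 2 * (Fintype.card (SL 2 p) : ℝ) ^ d := h4
    _ ≤ 16 * n * (9 / 4 * q ^ (2 * n)) * (Fintype.card (SL 2 p) : ℝ) ^ d :=
        mul_le_mul_of_nonneg_right (mul_le_mul_of_nonneg_left hB2 hn0) hc
    _ = (36 * n * q ^ n) * (q ^ n * (Fintype.card (SL 2 p) : ℝ) ^ d) := by
        rw [mul_comm 2 n, pow_mul, sq]; ring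
    _ ≤ ((p : ℝ) ^ (-(η / 2)) * p) * (q ^ n * (Fintype.card (SL 2 p) : ℝ) ^ d) :=
        mul_le_mul_of_nonneg_right h5 (mul_nonneg hqn.le hc)
    _ = q ^ n * p * ((p : ℝ) ^ (-(η / 2)) * (Fintype.card (SL 2 p) : ℝ) ^ d) := by ring

end Pool.Agent.RCG
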