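import Pool.Agent.RCG.Targets14

set_option autoImplicit false

/-!
# RCG: FND, few exceptional eigenvalues in every representation
-/

namespace Pool.Agent.RCG

open Finset Matrix

namespace FND_

theorem SPS_mono {G : Type} [Group G] [Fintype G] {d : ℕ} {y : Fin d → G} {R ν ν' : ℝ}
    (h : SPS y R ν) (hν : ν ≤ ν') : SPS y R ν' := fun W hW E hE h1 =>
  (h W hW E hE h1).trans (mul_le_mul_of_nonneg_right hν (Nat.cast_nonneg _))

end FND_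

open FND_ in
theorem prove_FND (hDEN : T_DEN) (hKSQ : T_KSQ) (hMRW : T_MRW) (hANC : T_ANC) (hANT : T_ANT)
    (hCHR : T_CHR) : T_FND := by
  intro d η hd hη hη1
  obtain ⟨P, hP⟩ := hANC d η 22 hd hη hη1 (by norm_num)
  refine ⟨⌈P⌉₊, fun p _ hp => ?_⟩
  have hpP : P ≤ (p : ℝ) := (Nat.le_ceil P).trans (by exact_mod_cast hp)
  obtain ⟨hp19, hdp, n, hn, hA1, hA2, hA3⟩ := hP p hpP
  have hp5 : 5 ≤ p := by
    have : (19 : ℝ) ≤ p := hp19
    have h19 : 19 ≤ p := by exact_mod_cast this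
    omega
  have hdp' : 2 * d < p := by exact_mod_cast hdp
  have hp0 : (0 : ℝ) < p := by linarith
  have hd2 : (2 : ℝ) ≤ d := by exact_mod_cast hd
  have hr0 : (0 : ℝ) < 2 * √(2 * (d : ℝ) - 1) :=
    mul_pos two_pos (Real.sqrt_pos.2 (by linarith))
  set r0 : ℝ := 2 * √(2 * (d : ℝ) - 1) with hr0def
  have hk0 : (0 : ℝ) < 2 * (d : ℝ) := by linarith
  have hrn : 0 < r0 ^ n := pow_pos hr0 n
  -- few words: all the conclusions
  have key : ∀ y : Fin d → SL 2 p, ¬ r0 ^ n < (bw n y : ℝ) → ∀ θ : ℝ, 0 ≤ θ → θ ≤ 1 →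
      SPS y ((2 * (d : ℝ)) ^ θ * r0 ^ (1 - θ)) (2 * (d : ℝ) * (p : ℝ) ^ (-((1 - η) * θ))) := by
    intro y hy θ hθ0 hθ1
    rw [not_lt] at hy
    have hR : 0 < (2 * (d : ℝ)) ^ θ * r0 ^ (1 - θ) :=
      mul_pos (Real.rpow_pos_of_pos hk0 _) (Real.rpow_pos_of_pos hr0 _)
    have h1 := hDEN p d n y (22 / p) _ (by positivity) hR hn (hCHR p hp5)
    refine SPS_mono h1 (le_trans ?_ (hANT d n η p θ hd hp0 hθ0 hθ1 hA3))
    rw [← hr0def]
    refine div_le_div_of_nonneg_right ?_ (pow_pos hR n).le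
    have h2 : (tw d n : ℝ) ≤ r0 ^ n := hKSQ d n (by omega)
    have h3 : 22 / (p : ℝ) * (2 * (d : ℝ)) ^ n ≤ r0 ^ n := by
      rw [div_pow, ← mul_div_assoc, div_le_one hrn] at hA2
      exact hA2
    linarith
  have hsub : Nat.card {y : Fin d → SL 2 p // ¬ ∀ θ : ℝ, 0 ≤ θ → θ ≤ 1 →
      SPS y ((2 * (d : ℝ)) ^ θ * r0 ^ (1 - θ))
        (2 * (d : ℝ) * (p : ℝ) ^ (-((1 - η) * θ)))} ≤
      Nat.card {y : Fin d → SL 2 p // r0 ^ n < (bw n y : ℝ)} := by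
    refine Nat.card_le_card_of_injective
      (fun y => ⟨y.1, not_not.1 fun h => y.2 (key y.1 h)⟩) fun y y' h => ?_
    simp only [Subtype.mk.injEq] at h
    exact Subtype.ext h
  have h4 := hMRW p d n (r0 ^ n) hdp' hrn.le
  refine (Nat.cast_le.2 hsub).trans ?_
  have h5 : 8 * (n : ℝ) * (2 * (d : ℝ)) ^ n ≤ (p : ℝ) ^ (-(η / 2)) * (r0 ^ n * p) := by
    rw [div_pow, div_le_iff₀ hp0, ← mul_div_assoc, div_le_iff₀ hrn] at hA1
    linarith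
  have hc : (0 : ℝ) ≤ (Fintype.card (SL 2 p) : ℝ) ^ d := by positivity
  refine le_of_mul_le_mul_left ?_ (mul_pos hrn hp0)
  calc r0 ^ n * p * (Nat.card {y : Fin d → SL 2 p // r0 ^ n < (bw n y : ℝ)} : ℝ)
      ≤ 8 * n * (2 * (d : ℝ)) ^ n * (Fintype.card (SL 2 p) : ℝ) ^ d := h4
    _ ≤ (p : ℝ) ^ (-(η / 2)) * (r0 ^ n * p) * (Fintype.card (SL 2 p) : ℝ) ^ d :=
        mul_le_mul_of_nonneg_right h5 hc
    _ = r0 ^ n * p * ((p : ℝ) ^ (-(η / 2)) * (Fintype.card (SL 2 p) : ℝ) ^ d) := by ring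

end Pool.Agent.RCG
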