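import Pool.Agent.RCG.Targets12

/-!
# RCG: FRC, the final combination of part A
-/

set_option autoImplicit false

namespace Pool.Agent.RCG

open Finset Matrix

namespace FRC_

lemma log_four : (1 : ℝ) ≤ Real.log 4 := by
  have h : Real.log 4 = 2 * Real.log 2 := by
    rw [show (4 : ℝ) = 2 ^ 2 by norm_num, Real.log_pow]
    push_cast
    ring
  have h2 := Real.log_two_gt_d9
  rw [h]
  linarith

/-- the choice of `ε` -/
lemma eps {L lk : ℝ} (hL : 0 < L) (hlk : 1 ≤ lk) :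
    0 < min 1 (L / (2 * lk)) ∧ min 1 (L / (2 * lk)) ≤ 1 ∧
      40 / min 1 (L / (2 * lk)) ≤ (40 + 80 / L) * lk := by
  have hp : 0 < L / (2 * lk) := by positivity
  refine ⟨lt_min one_pos hp, min_le_left _ _, ?_⟩
  have h0 : 0 < 80 / L * lk := by positivity
  rcases min_cases 1 (L / (2 * lk)) with ⟨h, _⟩ | ⟨h, _⟩
  · rw [h]
    nlinarith
  · rw [h]
    have h1 : 40 / (L / (2 * lk)) = 80 / L * lk := by
      field_simp
      ring
    rw [h1]
    nlinarith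

/-- the bound for `κ` -/
lemma kap_bound {d1 n1 M s E X : ℝ} (hM : 0 ≤ M) (hs : 0 ≤ s) (hE : 0 ≤ E)
    (hn : n1 ≤ 3 * M) (hX : 2 * E ≤ X) :
    2 * d1 * n1 + E * (4 * M * (364 * s) + 4 * M + 2 * n1) ≤
      2 * d1 * n1 + 728 * X * M * (1 + s) := by
  have h1 : 4 * M * (364 * s) + 4 * M + 2 * n1 ≤ 1456 * (M * (1 + s)) := by
    nlinarith [mul_nonneg hM hs]
  have h2 : E * (4 * M * (364 * s) + 4 * M + 2 * n1) ≤ E * (1456 * (M * (1 + s))) :=
    mul_le_mul_of_nonneg_left h1 hE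
  have h3 : 0 ≤ M * (1 + s) := by positivity
  nlinarith [mul_le_mul_of_nonneg_right hX h3]

/-- a block which is not generic is not fresh for one of the signs -/
lemma split {G : Type} [Group G] [Fintype G] {d' d1 : ℕ} (Q : Matrix G G ℝ) (y' : Fin d' → G)
    (a : Fin d1 → G) (q : ℕ) (l0 R u κ b t κ' : ℝ) (ht : t ≤ u) (hk : κ' ≤ κ)
    (h : ¬ Frs Q y' a q l0 R u κ) :
    ¬ FRB a Q (NP y' (fun m => cf q l0 R m * 1 ^ m) (q + 1)) b t κ' ∨
      ¬ FRB a Q (NP y' (fun m => cf q l0 R m * (-1) ^ m) (q + 1)) b t κ' := by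
  by_contra hc
  push Not at hc
  obtain ⟨h1, h2⟩ := hc
  have hnn : ∀ v : G → ℝ, 0 ≤ v ⬝ᵥ v := by
    intro v
    simp only [dotProduct]
    exact sum_nonneg fun x _ => mul_self_nonneg _
  apply h
  refine ⟨fun v => (h1.2.1 v).trans (mul_le_mul_of_nonneg_right ht (hnn v)), ?_⟩
  intro σ hσ v
  rcases hσ with rfl | rfl
  · exact (h1.2.2 v).trans (mul_le_mul_of_nonneg_right hk (hnn v))
  · exact (h2.2.2 v).trans (mul_le_mul_of_nonneg_right hk (hnn v))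

lemma card_or {A : Type} [Finite A] (P Q R : A → Prop) (h : ∀ a, P a → Q a ∨ R a) :
    Nat.card {a // P a} ≤ Nat.card {a // Q a} + Nat.card {a // R a} := by
  classical
  have := Fintype.ofFinite A
  simp only [Nat.card_eq_fintype_card, Fintype.card_subtype]
  refine le_trans (card_le_card ?_) (card_union_le _ _)
  intro a ha
  simp only [mem_union, mem_filter, mem_univ, true_and] at ha ⊢
  exact h a ha

end FRC_

/-- FRC. -/
theorem prove_FRC : T_FRC := by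
  intro hFR hNUB hFN hPBD δ hδ
  have hL : 0 < Real.log (1 + δ / 4) := Real.log_pos (by linarith)
  have hC1 : 0 < 40 + 80 / Real.log (1 + δ / 4) := by positivity
  refine ⟨40 + 80 / Real.log (1 + δ / 4), 728 * (40 + 80 / Real.log (1 + δ / 4)), 1, hC1,
    by positivity, one_pos, ?_⟩
  intro d' d1 q k l0 R hd' hd1 hq hk hl0 hR _
  have hd'r : (1 : ℝ) ≤ d' := by exact_mod_cast hd'
  have hd1r : (1 : ℝ) ≤ d1 := by exact_mod_cast hd1
  have hk4 : 4 ≤ k := by rw [hk]; linarith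
  have hk0 : 0 < k := by linarith
  have hsk : 0 < √k := Real.sqrt_pos.mpr hk0
  have hlk : 1 ≤ Real.log k := FRC_.log_four.trans (Real.log_le_log (by norm_num) hk4)
  have h2d : 2 * (d' : ℝ) ≤ k := by rw [hk]; linarith
  obtain ⟨hε0, hε1, hεC⟩ := FRC_.eps hL hlk
  set ε : ℝ := min 1 (Real.log (1 + δ / 4) / (2 * Real.log k)) with hε
  have hεL : ε ≤ Real.log (1 + δ / 4) / (2 * Real.log k) := min_le_right _ _
  obtain ⟨hM0, hn1, hn3⟩ := hFN δ k l0 R d' q hδ hk4 hd' h2d hl0 hR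
  obtain ⟨K, P, hK, hNU⟩ := hNUB δ ε k d' q hδ hk4 hd' h2d hε0 hεL
  set M : ℝ := pol q l0 R (364 * √k) with hM
  set n1 : ℝ := (l0 - √(l0 ^ 2 - 4 * k)) / (2 * k) + (2 * √k) ^ q / (l0 ^ q * (l0 - R))
    with hn1d
  have hR0 : 0 < R := by rw [hR]; positivity
  have hRl : R < l0 := by
    rw [hR, hl0]
    apply mul_lt_mul_of_pos_right _ hsk
    linarith
  obtain ⟨K1, P1, hF1⟩ := hFR d' d1 (q + 1) (fun m => cf q l0 R m * 1 ^ m) M n1 ε K hd1 hM0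
    (hn1 1 (Or.inl rfl)) hε0 hε1 hK
  obtain ⟨K2, P2, hF2⟩ := hFR d' d1 (q + 1) (fun m => cf q l0 R m * (-1) ^ m) M n1 ε K hd1 hM0
    (hn1 (-1) (Or.inr rfl)) hε0 hε1 hK
  refine ⟨max K (K1 + K2), max P (max P1 P2), ?_⟩
  intro p _ hp
  have hpP : P ≤ (p : ℝ) := (le_max_left _ _).trans hp
  have hpP1 : P1 ≤ (p : ℝ) := ((le_max_left _ _).trans (le_max_right _ _)).trans hp
  have hpP2 : P2 ≤ (p : ℝ) := ((le_max_right _ _).trans (le_max_right _ _)).trans hp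
  obtain ⟨n, hne, hn2, hNn, h8, hnu0, hnu⟩ := hNU p hpP
  have hpr : 0 ≤ (p : ℝ) ^ (-(1 / 3 : ℝ)) := Real.rpow_nonneg (Nat.cast_nonneg _) _
  rw [← hR] at hnu0 hnu
  refine ⟨n, hne, hn2, h8.trans (mul_le_mul_of_nonneg_right (le_max_left _ _) hpr), ?_⟩
  intro y' hrel hQB Q hPj hLI hNB
  have hrel' : ∀ m < q + 1, ¬ Rel m y' := fun m hm => hrel m (by omega)
  have hB0 : 0 ≤ 364 * √k := by positivity
  have hbd : ∀ σ : ℝ, (σ = 1 ∨ σ = -1) → ∀ f : SL 2 p → ℝ, ∑ x, f x = 0 →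
      |f ⬝ᵥ NP y' (fun m => cf q l0 R m * σ ^ m) (q + 1) *ᵥ f| ≤ M * (f ⬝ᵥ f) := by
    intro σ hσ f hf
    obtain ⟨h1, h2⟩ := hPBD (SL 2 p) d' q y' R l0 (364 * √k) σ hq hR0 hRl hB0 hσ hQB f hf
    have h3 : NP y' (fun m => cf q l0 R m * σ ^ m) (q + 1) =
      polM y' q (fun m => cf q l0 R m * σ ^ m) := rfl
    rw [h3, abs_of_nonneg h1]
    exact h2
  have hc1 := hF1 p hpP1 y' Q _ hrel' hPj hLI hnu0 hNB hnu (hbd 1 (Or.inl rfl))
  have hc2 := hF2 p hpP2 y' Q _ hrel' hPj hLI hnu0 hNB hnu (hbd (-1) (Or.inr rfl))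
  have hκ : 2 * d1 * n1 + 20 / ε * (4 * M * (364 * √(2 * (d1 : ℝ))) + 4 * M + 2 * n1) ≤
      kap d1 q k l0 R 364 (728 * (40 + 80 / Real.log (1 + δ / 4))) := by
    have h := FRC_.kap_bound (d1 := (d1 : ℝ)) (n1 := n1) (M := M) (s := √(2 * (d1 : ℝ)))
      (E := 20 / ε) (X := (40 + 80 / Real.log (1 + δ / 4)) * Real.log k) hM0.le
      (Real.sqrt_nonneg _) (by positivity) hn3
      (by rw [show 2 * (20 / ε) = 40 / ε by ring]; exact hεC)
    refine h.trans (le_of_eq ?_)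
    unfold kap
    rw [← hM, ← hn1d]
    ring
  have hsum := FRC_.card_or (fun a : Fin d1 → SL 2 p => ¬ Frs Q y' a q l0 R
      ((40 + 80 / Real.log (1 + δ / 4)) * Real.log k)
      (kap d1 q k l0 R 364 (728 * (40 + 80 / Real.log (1 + δ / 4))))) _ _
    (fun a ha => FRC_.split Q y' a q l0 R _ _ (364 * √(2 * (d1 : ℝ))) (40 / ε) _ hεC hκ ha)
  have hsum' : (Nat.card {a : Fin d1 → SL 2 p // ¬ Frs Q y' a q l0 R
      ((40 + 80 / Real.log (1 + δ / 4)) * Real.log k)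
      (kap d1 q k l0 R 364 (728 * (40 + 80 / Real.log (1 + δ / 4))))} : ℝ) ≤ _ :=
    (Nat.cast_le.mpr hsum)
  refine hsum'.trans ?_
  push_cast
  have hG : 0 ≤ (Fintype.card (SL 2 p) : ℝ) ^ d1 := by positivity
  calc _ ≤ K1 * (p : ℝ) ^ (-(1 / 3 : ℝ)) * (Fintype.card (SL 2 p) : ℝ) ^ d1 +
        K2 * (p : ℝ) ^ (-(1 / 3 : ℝ)) * (Fintype.card (SL 2 p) : ℝ) ^ d1 := add_le_add hc1 hc2
    _ = (K1 + K2) * (p : ℝ) ^ (-(1 / 3 : ℝ)) * (Fintype.card (SL 2 p) : ℝ) ^ d1 := by ring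
    _ ≤ _ := mul_le_mul_of_nonneg_right
        (mul_le_mul_of_nonneg_right (le_max_right _ _) hpr) hG

end Pool.Agent.RCG
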