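import Pool.Agent.RCG.Targets8

set_option autoImplicit false

/-!
# RCG, target FRESH: final combination of part A
-/

namespace Pool.Agent.RCG

open Finset Matrix

namespace FRESH_

theorem card_le3 {α : Type} [Finite α] (A B C D : α → Prop) (h : ∀ a, A a → B a ∨ C a ∨ D a) :
    Nat.card {a // A a} ≤
      Nat.card {a // B a} + Nat.card {a // C a} + Nat.card {a // D a} := by
  have e : ∀ E : α → Prop, Nat.card {a // E a} = Set.ncard {a | E a} := fun E =>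
    Nat.card_coe_set_eq {a | E a}
  rw [e A, e B, e C, e D]
  have h1 : {a | A a} ⊆ ({a | B a} ∪ {a | C a}) ∪ {a | D a} := by
    intro a ha
    rcases h a ha with h | h | h
    · exact Or.inl (Or.inl h)
    · exact Or.inl (Or.inr h)
    · exact Or.inr h
  refine (Set.ncard_le_ncard h1 (Set.toFinite _)).trans ?_
  refine (Set.ncard_union_le _ _).trans ?_
  exact Nat.add_le_add_right (Set.ncard_union_le _ _) _

theorem NP_herm (h6 : T_ADM) {G : Type} [Group G] [Fintype G] {d : ℕ} (y : Fin d → G)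
    (c : ℕ → ℝ) (q : ℕ) : (NP y c q).IsHermitian := by
  classical
  have hA : (adM y).IsHermitian := (h6 G d).2.1 y
  unfold NP
  have h1 : ∀ m, (c m • pwM y m).IsHermitian := by
    intro m
    unfold Matrix.IsHermitian
    rw [Matrix.conjTranspose_smul, star_trivial]
    congr 1
    unfold pwM
    exact hA.pow m
  unfold Matrix.IsHermitian
  rw [Matrix.conjTranspose_sum]
  exact Finset.sum_congr rfl fun m _ => h1 m

theorem arith {g P x y G w : ℝ} (hg : 0 ≤ g) (hgP : g ≤ P) (hx : 0 ≤ x) (hxy : x ≤ y)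
    (hG : 0 ≤ G) (h : P * y ≤ w) : g * x * G ≤ w * G := by
  refine mul_le_mul_of_nonneg_right ?_ hG
  exact (mul_le_mul hgP hxy hx (hg.trans hgP)).trans h

end FRESH_

theorem prove_FRESH (h1 : T_WEX) (h2 : T_CT1) (h3 : T_CT2) (h4 : T_BEN) (h5 : T_TLB)
    (h6 : T_ADM) (h7 : T_CRD) : T_FRESH := by
  intro d d1 q c M n1 ε K hd1 hM hn1 hε hε1 hK
  obtain ⟨n0, hn0⟩ : ∃ n0 : ℝ, n0 = ∑ m ∈ range q, c m * (tw d m : ℝ) := ⟨_, rfl⟩
  obtain ⟨C, hC⟩ : ∃ C : ℝ, C = ∑ m ∈ range q, |c m| * (2 * (d : ℝ)) ^ m := ⟨_, rfl⟩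
  obtain ⟨b, hb⟩ : ∃ b : ℝ, b = 364 * √(2 * (d1 : ℝ)) := ⟨_, rfl⟩
  obtain ⟨L, hL⟩ : ∃ L : ℝ, L = M * b + 2 * d1 * (|n0| + C) + |n0| + C := ⟨_, rfl⟩
  obtain ⟨z, hz⟩ : ∃ z : ℝ, z = 4 * M * b + 4 * M + 2 * |n0| := ⟨_, rfl⟩
  rw [← hn0] at hn1
  have hC0 : 0 ≤ C := by
    rw [hC]
    exact Finset.sum_nonneg fun m _ => by positivity
  have hb0 : 0 ≤ b := by
    rw [hb]
    positivity
  have hMb : 0 ≤ M * b := mul_nonneg hM.le hb0
  have hn00 : 0 ≤ |n0| := abs_nonneg _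
  have hdn : 0 ≤ 2 * (d1 : ℝ) * (|n0| + C) := by positivity
  have hz0 : 0 < z := by
    rw [hz]
    linarith
  obtain ⟨K1, P1, H1⟩ := h5 d1 hd1
  obtain ⟨P2, hP2, H2⟩ := h4 ε K 4 2 d1 hε hε1 hK (by norm_num) (by norm_num)
  obtain ⟨P3, hP3, H3⟩ := h4 ε K (144 * L ^ 2) z d1 hε hε1 hK (by positivity) hz0
  refine ⟨K1 + 3, max (max P1 P2) (max P3 19), ?_⟩
  intro p _ hp y Q ν hRel hQ hLI hν hNB hνK hNf
  have hp1 : P1 ≤ p := ((le_max_left _ _).trans (le_max_left _ _)).trans hp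
  have hp2 : P2 ≤ p := ((le_max_right _ _).trans (le_max_left _ _)).trans hp
  have hp3 : P3 ≤ p := ((le_max_left _ _).trans (le_max_right _ _)).trans hp
  have hp4 : (19 : ℝ) ≤ p := ((le_max_right _ _).trans (le_max_right _ _)).trans hp
  have h19 : 19 ≤ p := by exact_mod_cast hp4
  have hp0 : (0 : ℝ) < p := by linarith
  have hG : (Fintype.card (SL 2 p) : ℝ) ≤ (p : ℝ) ^ 3 := by
    have h8 := h7 p
    have h9 : Fintype.card (SL 2 p) ≤ p ^ 3 := by omega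
    exact_mod_cast h9
  have hG0 : (0 : ℝ) ≤ Fintype.card (SL 2 p) := by positivity
  have hGd : (0 : ℝ) ≤ (Fintype.card (SL 2 p) : ℝ) ^ d1 := by positivity
  have hsn : 0 ≤ √ν := Real.sqrt_nonneg _
  have hip : 0 ≤ 1 / (p : ℝ) := by positivity
  have hbr : ν ≤ ν + √ν + 1 / p := by linarith
  have hNh := FRESH_.NP_herm h6 y c q
  have hCE : CE (NP y c q) n0 C := by
    rw [hn0, hC]
    exact h1 p d q c y hRel
  obtain ⟨θ1, hθ1, hB1⟩ := H2 p ν hp2 hν hνK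
  obtain ⟨θ2, hθ2, hB2⟩ := H3 p ν hp3 hν hνK
  have hT1 := H1 p hp1
  have hT2 := h2 (SL 2 p) Q ν θ1 (40 / ε) d1 hQ hν hNB hθ1
  have hT3 := h3 p h19 Q (NP y c q) ν n0 C M b L θ2 (20 / ε * z) d1 hQ hLI hν hNB hNh hCE hM hNf
    hb0 (by linarith) (by linarith) (by linarith) (by linarith) hθ2
  rw [← hz] at hT3
  rw [← hb] at hT1 ⊢
  -- the three sets cover
  have hcov := FRESH_.card_le3
    (fun a : Fin d1 → SL 2 p => ¬ FRB a Q (NP y c q) b (40 / ε)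
      (2 * d1 * n1 + 20 / ε * (4 * M * b + 4 * M + 2 * n1)))
    (fun a => ¬ (QB a b ∧ AG (fun (j : ℕ) (y : Fin j → SL 2 p) => QB y b) d1 a))
    (fun a => ¬ ∀ v : SL 2 p → ℝ, |v ⬝ᵥ (Q * adM a * Q) *ᵥ v| ≤ 40 / ε * (v ⬝ᵥ v))
    (fun a => AG (fun (j : ℕ) (y : Fin j → SL 2 p) => QB y b) d1 a ∧
      ¬ ∀ v : SL 2 p → ℝ, v ⬝ᵥ (Q * (adM a * NP y c q * adM a) * Q) *ᵥ v ≤
        (2 * d1 * |n0| + 20 / ε * z) * (v ⬝ᵥ v)) (by
      intro a ha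
      by_contra hcon
      push Not at hcon
      obtain ⟨⟨hc1, hc2⟩, hc3, hc4⟩ := hcon
      refine ha ⟨hc1, hc3, fun v => (hc4 hc2 v).trans ?_⟩
      have hvv : 0 ≤ v ⬝ᵥ v := by
        simp only [dotProduct]
        exact Finset.sum_nonneg fun x _ => mul_self_nonneg _
      refine mul_le_mul_of_nonneg_right ?_ hvv
      rw [hz]
      have hd0 : (0 : ℝ) ≤ 2 * d1 := by positivity
      have he : 0 ≤ 20 / ε := by positivity
      have e1 : 2 * (d1 : ℝ) * |n0| ≤ 2 * d1 * n1 := mul_le_mul_of_nonneg_left hn1 hd0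
      have e2 : 20 / ε * (4 * M * b + 4 * M + 2 * |n0|) ≤
          20 / ε * (4 * M * b + 4 * M + 2 * n1) := mul_le_mul_of_nonneg_left (by linarith) he
      linarith)
  have hcov' : (Nat.card {a : Fin d1 → SL 2 p // ¬ FRB a Q (NP y c q) b (40 / ε)
      (2 * d1 * n1 + 20 / ε * (4 * M * b + 4 * M + 2 * n1))} : ℝ) ≤
      (Nat.card {a : Fin d1 → SL 2 p // ¬ (QB a b ∧
        AG (fun (j : ℕ) (y : Fin j → SL 2 p) => QB y b) d1 a)} : ℝ) +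
      (Nat.card {a : Fin d1 → SL 2 p // ¬ ∀ v : SL 2 p → ℝ,
        |v ⬝ᵥ (Q * adM a * Q) *ᵥ v| ≤ 40 / ε * (v ⬝ᵥ v)} : ℝ) +
      (Nat.card {a : Fin d1 → SL 2 p //
        AG (fun (j : ℕ) (y : Fin j → SL 2 p) => QB y b) d1 a ∧
        ¬ ∀ v : SL 2 p → ℝ, v ⬝ᵥ (Q * (adM a * NP y c q * adM a) * Q) *ᵥ v ≤
        (2 * d1 * |n0| + 20 / ε * z) * (v ⬝ᵥ v)} : ℝ) := by
    exact_mod_cast hcov
  refine hcov'.trans ?_
  -- the second term
  have hS2 : (Nat.card {a : Fin d1 → SL 2 p // ¬ ∀ v : SL 2 p → ℝ,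
      |v ⬝ᵥ (Q * adM a * Q) *ᵥ v| ≤ 40 / ε * (v ⬝ᵥ v)} : ℝ) ≤
      2 * ((p : ℝ)⁻¹ * (Fintype.card (SL 2 p) : ℝ) ^ d1) := by
    refine hT2.trans ?_
    have e0 : 40 / ε = 20 / ε * 2 := by ring
    rw [e0]
    have e1 : (1 + θ1 * √(4 * ν) + Real.exp (θ1 * 2) / 2 ^ 2 * (4 * ν)) ^ d1 ≤
        (1 + θ1 * √(4 * (ν + √ν + 1 / p)) +
          Real.exp (θ1 * 2) / 2 ^ 2 * (4 * (ν + √ν + 1 / p))) ^ d1 := by
      refine pow_le_pow_left₀ (by positivity) ?_ d1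
      have e2 : θ1 * √(4 * ν) ≤ θ1 * √(4 * (ν + √ν + 1 / p)) :=
        mul_le_mul_of_nonneg_left (Real.sqrt_le_sqrt (by linarith)) hθ1
      have e3 : Real.exp (θ1 * 2) / 2 ^ 2 * (4 * ν) ≤
          Real.exp (θ1 * 2) / 2 ^ 2 * (4 * (ν + √ν + 1 / p)) :=
        mul_le_mul_of_nonneg_left (by linarith) (by positivity)
      linarith
    have e4 := FRESH_.arith (G := (Fintype.card (SL 2 p) : ℝ) ^ d1) hG0 hG
      (x := Real.exp (-(θ1 * (20 / ε * 2))) *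
        (1 + θ1 * √(4 * ν) + Real.exp (θ1 * 2) / 2 ^ 2 * (4 * ν)) ^ d1)
      (y := Real.exp (-(θ1 * (20 / ε * 2))) *
        (1 + θ1 * √(4 * (ν + √ν + 1 / p)) +
          Real.exp (θ1 * 2) / 2 ^ 2 * (4 * (ν + √ν + 1 / p))) ^ d1)
      (w := (p : ℝ)⁻¹) (by positivity)
      (mul_le_mul_of_nonneg_left e1 (Real.exp_pos _).le) hGd (by
        rw [← mul_assoc]
        exact hB1)
    linarith
  -- the third term
  have hS3 : (Nat.card {a : Fin d1 → SL 2 p //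
      AG (fun (j : ℕ) (y : Fin j → SL 2 p) => QB y b) d1 a ∧
      ¬ ∀ v : SL 2 p → ℝ, v ⬝ᵥ (Q * (adM a * NP y c q * adM a) * Q) *ᵥ v ≤
      (2 * d1 * |n0| + 20 / ε * z) * (v ⬝ᵥ v)} : ℝ) ≤
      (p : ℝ)⁻¹ * (Fintype.card (SL 2 p) : ℝ) ^ d1 := by
    refine hT3.trans ?_
    have e4 := FRESH_.arith (G := (Fintype.card (SL 2 p) : ℝ) ^ d1) hG0 hG
      (x := Real.exp (-(θ2 * (20 / ε * z))) *
        (1 + θ2 * √(144 * L ^ 2 * (ν + √ν + 1 / p)) +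
          Real.exp (θ2 * z) / z ^ 2 * (144 * L ^ 2 * (ν + √ν + 1 / p))) ^ d1)
      (y := Real.exp (-(θ2 * (20 / ε * z))) *
        (1 + θ2 * √(144 * L ^ 2 * (ν + √ν + 1 / p)) +
          Real.exp (θ2 * z) / z ^ 2 * (144 * L ^ 2 * (ν + √ν + 1 / p))) ^ d1)
      (w := (p : ℝ)⁻¹) (by positivity) le_rfl hGd (by
        rw [← mul_assoc]
        exact hB2)
    linarith
  have hpi : (p : ℝ)⁻¹ ≤ (p : ℝ) ^ (-(1 / 3 : ℝ)) := by
    rw [← Real.rpow_neg_one]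
    exact Real.rpow_le_rpow_of_exponent_le (by linarith) (by norm_num)
  have hpi' : (p : ℝ)⁻¹ * (Fintype.card (SL 2 p) : ℝ) ^ d1 ≤
      (p : ℝ) ^ (-(1 / 3 : ℝ)) * (Fintype.card (SL 2 p) : ℝ) ^ d1 :=
    mul_le_mul_of_nonneg_right hpi hGd
  have e5 : (K1 + 3) * (p : ℝ) ^ (-(1 / 3 : ℝ)) * (Fintype.card (SL 2 p) : ℝ) ^ d1 =
      K1 * (p : ℝ) ^ (-(1 / 3 : ℝ)) * (Fintype.card (SL 2 p) : ℝ) ^ d1 +
      3 * ((p : ℝ) ^ (-(1 / 3 : ℝ)) * (Fintype.card (SL 2 p) : ℝ) ^ d1) := by ring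
  rw [e5]
  linarith

end Pool.Agent.RCG
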