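import Pool.Agent.RCG.Targets11

set_option autoImplicit false

/-!
# RCG: GD9, the combination of the parts of RCG8
-/

namespace Pool.Agent.RCG

open Finset Matrix

namespace GD9_

theorem cf_nonneg (q : ℕ) {l0 R : ℝ} (hl : 0 < l0) (hR : R < l0) (m : ℕ) :
    0 ≤ cf q l0 R m := by
  have h : 0 < l0 - R := by linarith
  unfold cf
  split_ifs
  · exact div_nonneg zero_le_one (pow_nonneg hl.le _)
  · exact div_nonneg zero_le_one (mul_nonneg (pow_nonneg hl.le _) h.le)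

theorem pol_nonneg (q : ℕ) {l0 R x : ℝ} (hl : 0 < l0) (hR : R < l0) (hx : 0 ≤ x) :
    0 ≤ pol q l0 R x := by
  unfold pol
  exact Finset.sum_nonneg fun m _ => mul_nonneg (cf_nonneg q hl hR m) (pow_nonneg hx m)

theorem kap_nonneg (d1 q : ℕ) {k l0 R C C2 : ℝ} (hk : 1 ≤ k) (hl : 0 < l0) (hR : R < l0)
    (hC : 0 ≤ C) (hC2 : 0 ≤ C2) : 0 ≤ kap d1 q k l0 R C C2 := by
  have hk0 : 0 < k := by linarith
  have h1 : √(l0 ^ 2 - 4 * k) ≤ l0 := by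
    rw [Real.sqrt_le_left hl.le]
    linarith
  have h2 : 0 < l0 - R := by linarith
  have h3 : 0 ≤ Real.log k := Real.log_nonneg hk
  have h4 := pol_nonneg q hl hR (x := C * √k) (by positivity)
  have h5 : 0 ≤ (l0 - √(l0 ^ 2 - 4 * k)) / (2 * k) := div_nonneg (by linarith) (by linarith)
  have h6 : 0 ≤ (2 * √k) ^ q / (l0 ^ q * (l0 - R)) :=
    div_nonneg (by positivity) (mul_nonneg (pow_nonneg hl.le _) h2.le)
  unfold kap
  refine add_nonneg (mul_nonneg (by positivity) (add_nonneg h5 h6)) ?_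
  exact mul_nonneg (mul_nonneg (mul_nonneg hC2 h4) (by positivity)) h3

theorem log_small (C3 : ℝ) (hC3 : 0 < C3) (s : ℕ) : ∃ D : ℕ, 1 ≤ D ∧ ∀ d1 : ℕ, D ≤ d1 →
    C3 * Real.log (2 * (((s : ℝ) + 1) * d1)) ≤ √(2 * (d1 : ℝ)) := by
  refine ⟨⌈(4 * C3) ^ 4 * ((s : ℝ) + 1)⌉₊ + 1, by omega, fun d1 hd1 => ?_⟩
  have hd1' : 1 ≤ d1 := by omega
  have hd0 : (1 : ℝ) ≤ d1 := by exact_mod_cast hd1'
  have h1 : (4 * C3) ^ 4 * ((s : ℝ) + 1) ≤ 2 * d1 := by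
    have h2 : (4 * C3) ^ 4 * ((s : ℝ) + 1) ≤ d1 :=
      (Nat.le_ceil _).trans (by exact_mod_cast (by omega :
        ⌈(4 * C3) ^ 4 * ((s : ℝ) + 1)⌉₊ ≤ d1))
    linarith
  set X : ℝ := 2 * d1 with hX
  set a : ℝ := (s : ℝ) + 1 with ha
  have hX0 : 0 < X := by positivity
  have ha0 : 0 < a := by positivity
  have e1 : 2 * (a * d1) = a * X := by rw [hX]; ring
  rw [e1]
  have h3 : Real.log (a * X) ≤ (a * X) ^ (1 / 4 : ℝ) / (1 / 4) :=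
    Real.log_le_rpow_div (by positivity) (by norm_num)
  have h4 : (a * X) ^ (1 / 4 : ℝ) = a ^ (1 / 4 : ℝ) * X ^ (1 / 4 : ℝ) :=
    Real.mul_rpow ha0.le hX0.le
  have h5 : 4 * C3 * a ^ (1 / 4 : ℝ) ≤ X ^ (1 / 4 : ℝ) := by
    have h6 : ((4 * C3) ^ 4 * a) ^ (1 / 4 : ℝ) ≤ X ^ (1 / 4 : ℝ) :=
      Real.rpow_le_rpow (by positivity) h1 (by norm_num)
    have h7 : ((4 * C3) ^ 4 * a) ^ (1 / 4 : ℝ) = 4 * C3 * a ^ (1 / 4 : ℝ) := by
      rw [Real.mul_rpow (by positivity) ha0.le, ← Real.rpow_natCast, ← Real.rpow_mul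
        (by positivity)]
      norm_num
    rwa [h7] at h6
  have h8 : √X = X ^ (1 / 4 : ℝ) * X ^ (1 / 4 : ℝ) := by
    rw [Real.sqrt_eq_rpow, ← Real.rpow_add hX0]
    norm_num
  have h9 : 0 ≤ X ^ (1 / 4 : ℝ) := by positivity
  rw [h8]
  calc C3 * Real.log (a * X) ≤ C3 * ((a * X) ^ (1 / 4 : ℝ) / (1 / 4)) :=
        mul_le_mul_of_nonneg_left h3 hC3.le
    _ = 4 * C3 * a ^ (1 / 4 : ℝ) * X ^ (1 / 4 : ℝ) := by
        rw [h4]
        ring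
    _ ≤ X ^ (1 / 4 : ℝ) * X ^ (1 / 4 : ℝ) := mul_le_mul_of_nonneg_right h5 h9

end GD9_

open GD9_ in
theorem prove_GD9 (hFRH : T_FRH) (hCNB : T_CNB) (hCHS : T_CHS) (hDIV : T_DIV) (hGNR : T_GNR)
    (hFN7 : T_FN7) (hELEU : T_ELEU) : T_GD9 := by
  intro δ hδ
  obtain ⟨C1, C2, C3, hC1, hC2, hC3, hF⟩ := hFRH δ hδ
  obtain ⟨s, q, D, hs, hD, hq, hq2, hC⟩ := hCHS δ 364 C1 C2 hδ (by norm_num) hC1 hC2
  obtain ⟨D', hD', hlog⟩ := log_small C3 hC3 s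
  refine ⟨s, max D D', hs, le_max_of_le_left hD, fun d1 hd1 => ?_⟩
  have hdD : D ≤ d1 := (le_max_left _ _).trans hd1
  have hdD' : D' ≤ d1 := (le_max_right _ _).trans hd1
  have hd1pos : 1 ≤ d1 := hD.trans hdD
  have hsd : 1 ≤ s * d1 := Nat.mul_pos hs hd1pos
  have hd1r : (1 : ℝ) ≤ d1 := by exact_mod_cast hd1pos
  have hsr : (1 : ℝ) ≤ s := by exact_mod_cast hs
  have hsdr : (1 : ℝ) ≤ (s : ℝ) * d1 := by exact_mod_cast hsd
  have hk1 : (1 : ℝ) ≤ 2 * (((s : ℝ) + 1) * d1) := by nlinarith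
  have hlogk := hlog d1 hdD'
  have hCk := hC d1 hdD _ _ _ rfl rfl rfl
  have hFk := hF (s * d1) d1 q (2 * (((s : ℝ) + 1) * d1)) _ _ hsd hd1pos hq
    (by push_cast; ring) rfl rfl hlogk
  have h2dk : 2 * ((s * d1 : ℕ) : ℝ) ≤ 2 * (((s : ℝ) + 1) * d1) := by push_cast; linarith
  generalize 2 * (((s : ℝ) + 1) * (d1 : ℝ)) = k at hk1 hlogk hCk hFk h2dk ⊢
  have hk0 : 0 < k := by linarith
  have hsk : 0 < √k := Real.sqrt_pos.mpr hk0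
  have hl0 : 0 < (2 + δ) * √k := by positivity
  have hR0 : 0 < (2 + δ / 2) * √k := by positivity
  have hRl : (2 + δ / 2) * √k < (2 + δ) * √k := mul_lt_mul_of_pos_right (by linarith) hsk
  generalize (2 + δ) * √k = l0 at hCk hFk hl0 hRl ⊢
  generalize (2 + δ / 2) * √k = R at hCk hFk hR0 hRl
  obtain ⟨K1, P1, h1⟩ := hFk
  obtain ⟨K2, P2, h2⟩ := hFN7 d1 hd1pos
  obtain ⟨K3, P3, h3⟩ := hFN7 (s * d1) hsd
  have hκ : 0 ≤ kap d1 q k l0 R 364 C2 := kap_nonneg d1 q hk1 hl0 hRl (by norm_num) hC2.le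
  have hu : 0 ≤ C1 * Real.log k := mul_nonneg hC1.le (Real.log_nonneg hk1)
  refine ⟨((s : ℝ) + 1) * (K2 + K3 + 2 * max K1 0),
    max (max P1 P2) (max P3 (20 + 2 * ((s * d1 : ℕ) : ℝ))), fun i hi => ?_⟩
  have hi1 : P1 ≤ (i.1 : ℝ) := (le_max_left _ _).trans ((le_max_left _ _).trans hi)
  have hi2 : P2 ≤ (i.1 : ℝ) := (le_max_right _ _).trans ((le_max_left _ _).trans hi)
  have hi3 : P3 ≤ (i.1 : ℝ) := (le_max_left _ _).trans ((le_max_right _ _).trans hi)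
  have hi4 : 20 + 2 * ((s * d1 : ℕ) : ℝ) ≤ (i.1 : ℝ) :=
    (le_max_right _ _).trans ((le_max_right _ _).trans hi)
  have h19 : 19 ≤ i.1 := by
    have : (19 : ℝ) ≤ i.1 := by
      have : (0 : ℝ) ≤ ((s * d1 : ℕ) : ℝ) := Nat.cast_nonneg _
      linarith
    exact_mod_cast this
  have h2d : 2 * (s * d1) < i.1 := by
    have : ((2 * (s * d1) : ℕ) : ℝ) < i.1 := by
      push_cast at hi4 ⊢
      linarith
    exact_mod_cast this
  have hp0 : (0 : ℝ) < i.1 := by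
    have : (0 : ℝ) ≤ ((s * d1 : ℕ) : ℝ) := Nat.cast_nonneg _
    linarith
  obtain ⟨n, hn, hn2, g1, g2⟩ := h1 i.1 hi1
  have g3 := h2 i hi2
  have g4 := h3 i hi3
  have g5 := hGNR i.1 (s * d1) n h2d hsd
  have hELE := (hELEU (SL 2 i.1)).1 (s * d1) (364 * √(2 * ((s * d1 : ℕ) : ℝ))) (364 * √k)
    (mul_le_mul_of_nonneg_left (Real.sqrt_le_sqrt h2dk) (by norm_num))
  have hX0 : 0 ≤ max K1 0 * (i.1 : ℝ) ^ (-(1 / 3 : ℝ)) :=
    mul_nonneg (le_max_right _ _) (Real.rpow_nonneg hp0.le _)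
  have hKX : K1 * (i.1 : ℝ) ^ (-(1 / 3 : ℝ)) ≤ max K1 0 * (i.1 : ℝ) ^ (-(1 / 3 : ℝ)) :=
    mul_le_mul_of_nonneg_right (le_max_left _ _) (Real.rpow_nonneg hp0.le _)
  have key := hCNB i.1 (s * d1) d1 n q R l0 (364 * √(2 * (d1 : ℝ))) (364 * √k)
    (C1 * Real.log k) (kap d1 q k l0 R 364 C2) (max K1 0 * (i.1 : ℝ) ^ (-(1 / 3 : ℝ)))
    h19 hsd hn hn2 hq hR0 hRl (by positivity) hu hκ hX0 (by
      intro y' hy' hQB Q hQ1 hQ2 hQ3
      refine (g2 y' hy' hQB Q hQ1 hQ2 hQ3).trans ?_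
      exact mul_le_mul_of_nonneg_right hKX (by positivity))
  have hdiv := hDIV (SL 2 i.1) s d1 l0 (rr l0 R (364 * √(2 * (d1 : ℝ))) (C1 * Real.log k)
    (kap d1 q k l0 R 364 C2)) hl0.le hCk
  change (badCard (SL 2 i.1) ((s + 1) * d1) l0 : ℝ) ≤
    ((s : ℝ) + 1) * (K2 + K3 + 2 * max K1 0) * (i.1 : ℝ) ^ (-(1 / 3 : ℝ)) *
      (Fintype.card (SL 2 i.1) : ℝ) ^ ((s + 1) * d1)
  change (badCard (SL 2 i.1) d1 (364 * √(2 * (d1 : ℝ))) : ℝ) ≤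
    K2 * (i.1 : ℝ) ^ (-(1 / 3 : ℝ)) * (Fintype.card (SL 2 i.1) : ℝ) ^ d1 at g3
  change (badCard (SL 2 i.1) (s * d1) (364 * √(2 * ((s * d1 : ℕ) : ℝ))) : ℝ) ≤
    K3 * (i.1 : ℝ) ^ (-(1 / 3 : ℝ)) * (Fintype.card (SL 2 i.1) : ℝ) ^ (s * d1) at g4
  set c : ℝ := (Fintype.card (SL 2 i.1) : ℝ) with hc
  set e : ℝ := (i.1 : ℝ) ^ (-(1 / 3 : ℝ)) with he
  have hc0 : 0 ≤ c := by rw [hc]; positivity
  have e1 : (badCard (SL 2 i.1) d1 (364 * √(2 * (d1 : ℝ))) : ℝ) * c ^ (s * d1) ≤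
      K2 * e * c ^ ((s + 1) * d1) := by
    have := mul_le_mul_of_nonneg_right g3 (pow_nonneg hc0 (s * d1))
    refine this.trans (le_of_eq ?_)
    rw [mul_assoc, ← pow_add]
    congr 2
    ring
  have e2 : (badCard (SL 2 i.1) (s * d1) (364 * √k) : ℝ) * c ^ d1 ≤
      K3 * e * c ^ ((s + 1) * d1) := by
    have f1 : (badCard (SL 2 i.1) (s * d1) (364 * √k) : ℝ) ≤ K3 * e * c ^ (s * d1) := by
      refine le_trans ?_ g4
      exact_mod_cast hELE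
    have := mul_le_mul_of_nonneg_right f1 (pow_nonneg hc0 d1)
    refine this.trans (le_of_eq ?_)
    rw [mul_assoc, ← pow_add]
    congr 2
    ring
  have e3 : (Nat.card {y : Fin (s * d1) → SL 2 i.1 // ∃ m ≤ n, Rel m y} : ℝ) * c ^ d1 ≤
      max K1 0 * e * c ^ ((s + 1) * d1) := by
    have f1 : (2 * ((s * d1 : ℕ) : ℝ)) ^ n ≤ k ^ n :=
      pow_le_pow_left₀ (by positivity) h2dk n
    have f2 : (i.1 : ℝ) * (Nat.card {y : Fin (s * d1) → SL 2 i.1 // ∃ m ≤ n, Rel m y} : ℝ) ≤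
        8 * ((n : ℝ) + 1) ^ 2 * k ^ n * c ^ (s * d1) := by
      refine g5.trans ?_
      refine mul_le_mul_of_nonneg_right ?_ (pow_nonneg hc0 _)
      exact mul_le_mul_of_nonneg_left f1 (by positivity)
    have f3 : (Nat.card {y : Fin (s * d1) → SL 2 i.1 // ∃ m ≤ n, Rel m y} : ℝ) ≤
        8 * ((n : ℝ) + 1) ^ 2 * k ^ n / i.1 * c ^ (s * d1) := by
      rw [div_mul_eq_mul_div, le_div_iff₀ hp0]
      linarith
    have f4 : 8 * ((n : ℝ) + 1) ^ 2 * k ^ n / i.1 * c ^ (s * d1) ≤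
        max K1 0 * e * c ^ (s * d1) :=
      mul_le_mul_of_nonneg_right (g1.trans hKX) (pow_nonneg hc0 _)
    have := mul_le_mul_of_nonneg_right (f3.trans f4) (pow_nonneg hc0 d1)
    refine this.trans (le_of_eq ?_)
    rw [mul_assoc, ← pow_add]
    congr 2
    ring
  have e4 : max K1 0 * e * c ^ (s * d1 + d1) = max K1 0 * e * c ^ ((s + 1) * d1) := by
    congr 2
    ring
  rw [e4] at key
  have hs0 : (0 : ℝ) ≤ (s : ℝ) + 1 := by positivity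
  refine hdiv.trans ((mul_le_mul_of_nonneg_left (key.trans (add_le_add (add_le_add
    (add_le_add e1 e2) e3) le_rfl)) hs0).trans (le_of_eq ?_))
  ring

end Pool.Agent.RCG
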