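import Pool.Agent.RCG.Targets10

/-!
# RCG, target GNR: union bound over the lengths
-/

set_option autoImplicit false

namespace Pool.Agent.RCG

open Finset Matrix

theorem prove_GNR (h : T_GIR) : T_GNR := by
  intro p _ d n hdp hd
  classical
  set F : ((Fin d → SL 2 p) → Prop) → Finset (Fin d → SL 2 p) := fun P => univ.filter P with hF
  have hmem : ∀ P y, y ∈ F P ↔ P y := fun P y => by simp [hF]
  have hcard : ∀ P : (Fin d → SL 2 p) → Prop,
      (Nat.card {y : Fin d → SL 2 p // P y}) = (F P).card := by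
    intro P
    rw [Nat.card_eq_fintype_card, Fintype.card_subtype]
  have hsub : F (fun y => ∃ m ≤ n, Rel m y) ⊆
      (range (n + 1)).biUnion (fun m => F (fun y => Rel m y)) := by
    intro y hy
    obtain ⟨m, hm, hr⟩ := (hmem _ _).mp hy
    exact mem_biUnion.mpr ⟨m, mem_range.mpr (by omega), (hmem _ _).mpr hr⟩
  have h1 : (Nat.card {y : Fin d → SL 2 p // ∃ m ≤ n, Rel m y}) ≤
      ∑ m ∈ range (n + 1), Nat.card {y : Fin d → SL 2 p // Rel m y} := by
    have e : ∑ m ∈ range (n + 1), Nat.card {y : Fin d → SL 2 p // Rel m y} =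
        ∑ m ∈ range (n + 1), (F (fun y => Rel m y)).card :=
      sum_congr rfl fun m _ => hcard _
    rw [hcard, e]
    exact (card_le_card hsub).trans card_biUnion_le
  have h1' : (Nat.card {y : Fin d → SL 2 p // ∃ m ≤ n, Rel m y} : ℝ) ≤
      ∑ m ∈ range (n + 1), (Nat.card {y : Fin d → SL 2 p // Rel m y} : ℝ) := by
    exact_mod_cast h1
  have hp : (0 : ℝ) ≤ p := Nat.cast_nonneg p
  have hd1 : (1 : ℝ) ≤ 2 * (d : ℝ) := by
    have : (1 : ℝ) ≤ d := by exact_mod_cast hd
    linarith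
  set S : ℝ := (Fintype.card (SL 2 p) : ℝ) ^ d with hS
  have hS0 : 0 ≤ S := by positivity
  calc (p : ℝ) * Nat.card {y : Fin d → SL 2 p // ∃ m ≤ n, Rel m y}
      ≤ (p : ℝ) * ∑ m ∈ range (n + 1), (Nat.card {y : Fin d → SL 2 p // Rel m y} : ℝ) :=
        mul_le_mul_of_nonneg_left h1' hp
    _ = ∑ m ∈ range (n + 1), (p : ℝ) * (Nat.card {y : Fin d → SL 2 p // Rel m y} : ℝ) :=
        mul_sum _ _ _
    _ ≤ ∑ m ∈ range (n + 1), 8 * ((n : ℝ) + 1) * (2 * (d : ℝ)) ^ n * S := by
        refine sum_le_sum fun m hm => (h p d m hdp).trans ?_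
        have hm' : m ≤ n := by
          have := mem_range.mp hm
          omega
        have e1 : (m : ℝ) ≤ (n : ℝ) + 1 := by
          have : (m : ℝ) ≤ n := by exact_mod_cast hm'
          linarith
        have e2 : (2 * (d : ℝ)) ^ m ≤ (2 * (d : ℝ)) ^ n := pow_le_pow_right₀ hd1 hm'
        have e3 : 8 * (m : ℝ) * (2 * (d : ℝ)) ^ m ≤ 8 * ((n : ℝ) + 1) * (2 * (d : ℝ)) ^ n :=
          mul_le_mul (by linarith) e2 (by positivity) (by positivity)
        exact mul_le_mul_of_nonneg_right e3 hS0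
    _ = 8 * ((n : ℝ) + 1) ^ 2 * (2 * (d : ℝ)) ^ n * S := by
        rw [sum_const, card_range, nsmul_eq_mul]
        push_cast
        ring

end Pool.Agent.RCG
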