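import Pool.Agent.RCG.Targets8

set_option autoImplicit false

/-! # RCG, LIF: matrices which commute with the left translations -/

namespace Pool.Agent.RCG

open Finset Matrix

namespace LIF_

variable {G : Type} [Group G] [Fintype G]

theorem Lm_mul (g : G) (Q : Matrix G G ℝ) (x z : G) : (Lm g * Q) x z = Q (g * x) z := by
  classical
  rw [Matrix.mul_apply]
  simp only [Lm, Matrix.of_apply, ite_mul, one_mul, zero_mul]
  rw [Finset.sum_ite_eq' univ (g * x)]
  simp

theorem mul_Lm (g : G) (Q : Matrix G G ℝ) (x z : G) : (Q * Lm g) x z = Q x (g⁻¹ * z) := by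
  classical
  rw [Matrix.mul_apply]
  simp only [Lm, Matrix.of_apply, mul_ite, mul_one, mul_zero]
  have h : ∀ y : G, z = g * y ↔ y = g⁻¹ * z := by
    intro y
    constructor
    · rintro rfl
      rw [inv_mul_cancel_left]
    · rintro rfl
      rw [mul_inv_cancel_left]
  simp only [h]
  rw [Finset.sum_ite_eq' univ (g⁻¹ * z)]
  simp

open Classical in
theorem Rm_apply (k x z : G) : Rm k x z = if z = x * k then (1 : ℝ) else 0 := by
  simp only [Rm, Matrix.of_apply]

theorem LI_iff (Q : Matrix G G ℝ) : LI Q ↔ ∀ g : G, Lm g * Q = Q * Lm g := by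
  constructor
  · intro h g
    ext x z
    rw [Lm_mul, mul_Lm]
    have h1 := h g x (g⁻¹ * z)
    rw [mul_inv_cancel_left] at h1
    exact h1
  · intro h g x z
    have h1 := congrFun (congrFun (h g) x) (g * z)
    rw [Lm_mul, mul_Lm, inv_mul_cancel_left] at h1
    exact h1

theorem comm (g k : G) : Lm g * Rm k = Rm k * Lm g := by
  ext x z
  rw [Lm_mul, mul_Lm, Rm_apply, Rm_apply]
  have h : z = g * x * k ↔ g⁻¹ * z = x * k := by
    rw [inv_mul_eq_iff_eq_mul, mul_assoc]
  by_cases h1 : z = g * x * k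
  · rw [if_pos h1, if_pos (h.mp h1)]
  · rw [if_neg h1, if_neg (fun h2 => h1 (h.mpr h2))]

theorem expand (Q : Matrix G G ℝ) (h : LI Q) : Q = ∑ k, Q 1 k • Rm k := by
  classical
  ext x z
  rw [Matrix.sum_apply]
  simp only [Matrix.smul_apply, Rm_apply, smul_eq_mul, mul_ite, mul_one, mul_zero]
  have h1 : ∀ k : G, z = x * k ↔ k = x⁻¹ * z := by
    intro k
    constructor
    · rintro rfl
      rw [inv_mul_cancel_left]
    · rintro rfl
      rw [mul_inv_cancel_left]
  simp only [h1]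
  rw [Finset.sum_ite_eq' univ (x⁻¹ * z)]
  simp only [mem_univ, if_true]
  have h2 := h x 1 (x⁻¹ * z)
  rw [mul_one, mul_inv_cancel_left] at h2
  exact h2

theorem comm_all (Q : Matrix G G ℝ) (h : LI Q) (Z : Matrix G G ℝ)
    (hZ : ∀ k, Z * Rm k = Rm k * Z) : Z * Q = Q * Z := by
  rw [expand Q h, Matrix.mul_sum, Matrix.sum_mul]
  refine Finset.sum_congr rfl fun k _ => ?_
  rw [Matrix.mul_smul, Matrix.smul_mul, hZ]

theorem row (Q : Matrix G G ℝ) (h : LI Q) (x : G) (F : ℝ → G → ℝ) :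
    ∑ k, F (Q 1 k) (x * k) = ∑ y, F (Q x y) y := by
  refine Fintype.sum_equiv (Equiv.mulLeft x) _ _ fun k => ?_
  rw [Equiv.coe_mulLeft]
  have h2 := h x 1 k
  rw [mul_one] at h2
  rw [h2]

theorem trace_ge (hM : T_MIX) (Q : Matrix G G ℝ) (D : ℝ) (hD : 0 < D) (hG : MinDim G D)
    (h : LI Q) (hQ : Pj Q) (hne : Q ≠ 0) : D ≤ Q.trace := by
  obtain ⟨hH, hI, h1⟩ := hQ
  have hsym : ∀ x y, Q x y = Q y x := fun x y => by
    have := hH.apply x y
    simpa using this.symm
  obtain ⟨x₀, z, hz⟩ : ∃ x z, Q x z ≠ 0 := by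
    by_contra hc
    push Not at hc
    exact hne (Matrix.ext hc)
  have hf0 : ∑ x, Q x z = 0 := by
    have h2 := congrFun h1 z
    simp only [Matrix.mulVec, dotProduct, mul_one, Pi.zero_apply] at h2
    rw [← h2]
    exact Finset.sum_congr rfl fun x _ => hsym x z
  have hmix := hM G D hD hG (fun k => Q 1 k) (fun x => Q x z) hf0
  have hQf : ∀ x, ∑ k, Q 1 k * Q (x * k) z = Q x z := by
    intro x
    rw [row Q h x (fun a y => a * Q y z)]
    rw [← Matrix.mul_apply, hI]
  simp only [hQf] at hmix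
  have hpos : 0 < ∑ x, Q x z ^ 2 :=
    Finset.sum_pos' (fun _ _ => sq_nonneg _) ⟨x₀, mem_univ _, by positivity⟩
  have h3 := le_of_mul_le_mul_right hmix hpos
  refine h3.trans (le_of_eq ?_)
  have h4 : ∀ x : G, ∑ k, Q 1 k ^ 2 = Q x x := by
    intro x
    rw [row Q h x (fun a _ => a ^ 2)]
    conv_rhs => rw [← hI, Matrix.mul_apply]
    refine Finset.sum_congr rfl fun y _ => ?_
    rw [hsym y x, sq]
  rw [Matrix.trace, ← nsmul_eq_mul, ← Finset.card_univ, ← Finset.sum_const]
  exact Finset.sum_congr rfl fun x _ => h4 x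

end LIF_

open LIF_ in
theorem prove_LIF (h : T_MIX) : T_LIF := by
  intro G _ _ Q
  exact ⟨LI_iff Q, comm, expand Q, comm_all Q,
    fun D hD hG hL hP hne => trace_ge h Q D hD hG hL hP hne⟩

end Pool.Agent.RCG
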