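import Pool.Agent.RCG.Targets8

set_option autoImplicit false

/-!
# RCG: plane sections of `SL (2, p)` (LIN)
-/

namespace Pool.Agent.RCG

open Finset Matrix

namespace LIN_

set_option linter.unusedSectionVars false

variable {p : ℕ} [Fact p.Prime]

theorem ext4 {m m' : SL 2 p}
    (h00 : (m : Matrix (Fin 2) (Fin 2) (ZMod p)) 0 0 = (m' : Matrix (Fin 2) (Fin 2) (ZMod p)) 0 0)
    (h01 : (m : Matrix (Fin 2) (Fin 2) (ZMod p)) 0 1 = (m' : Matrix (Fin 2) (Fin 2) (ZMod p)) 0 1)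
    (h10 : (m : Matrix (Fin 2) (Fin 2) (ZMod p)) 1 0 = (m' : Matrix (Fin 2) (Fin 2) (ZMod p)) 1 0)
    (h11 : (m : Matrix (Fin 2) (Fin 2) (ZMod p)) 1 1 = (m' : Matrix (Fin 2) (Fin 2) (ZMod p)) 1 1) :
    m = m' := by
  apply Subtype.ext
  ext i j
  fin_cases i <;> fin_cases j <;> assumption

/-- the equations of the entries -/
structure Eqs (m : SL 2 p) (x : Matrix (Fin 2) (Fin 2) (ZMod p)) (t t' : ZMod p) : Prop where
  tr : (m : Matrix (Fin 2) (Fin 2) (ZMod p)) 0 0 + (m : Matrix (Fin 2) (Fin 2) (ZMod p)) 1 1 = t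
  tx : (m : Matrix (Fin 2) (Fin 2) (ZMod p)) 0 0 * x 0 0 +
    (m : Matrix (Fin 2) (Fin 2) (ZMod p)) 0 1 * x 1 0 +
    (m : Matrix (Fin 2) (Fin 2) (ZMod p)) 1 0 * x 0 1 +
    (m : Matrix (Fin 2) (Fin 2) (ZMod p)) 1 1 * x 1 1 = t'
  det : (m : Matrix (Fin 2) (Fin 2) (ZMod p)) 0 0 * (m : Matrix (Fin 2) (Fin 2) (ZMod p)) 1 1 -
    (m : Matrix (Fin 2) (Fin 2) (ZMod p)) 0 1 * (m : Matrix (Fin 2) (Fin 2) (ZMod p)) 1 0 = 1

theorem eqs {m : SL 2 p} {x : Matrix (Fin 2) (Fin 2) (ZMod p)} {t t' : ZMod p}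
    (h : (m : Matrix (Fin 2) (Fin 2) (ZMod p)).trace = t ∧
      ((m : Matrix (Fin 2) (Fin 2) (ZMod p)) * x).trace = t') : Eqs m x t t' := by
  obtain ⟨h1, h2⟩ := h
  rw [Matrix.trace_fin_two] at h1 h2
  rw [Matrix.mul_apply, Matrix.mul_apply, Fin.sum_univ_two, Fin.sum_univ_two] at h2
  refine ⟨h1, ?_, ?_⟩
  · rw [← h2]
    ring
  · have := m.2
    rwa [Matrix.det_fin_two] at this

/-- three different elements of a fibre, the linear coefficient `c` of `β` is not zero -/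
theorem three {α₁ α₂ α₃ β₁ β₂ β₃ δ₁ δ₂ δ₃ γ a b c d t t' : ZMod p} (hc : c ≠ 0)
    (h1 : α₁ + δ₁ = t) (h2 : α₂ + δ₂ = t) (h3 : α₃ + δ₃ = t)
    (k1 : α₁ * a + β₁ * c + γ * b + δ₁ * d = t') (k2 : α₂ * a + β₂ * c + γ * b + δ₂ * d = t')
    (k3 : α₃ * a + β₃ * c + γ * b + δ₃ * d = t')
    (l1 : α₁ * δ₁ - β₁ * γ = 1) (l2 : α₂ * δ₂ - β₂ * γ = 1) (l3 : α₃ * δ₃ - β₃ * γ = 1)
    (n12 : α₁ ≠ α₂) (n13 : α₁ ≠ α₃) : α₂ = α₃ := by
  have e1 : δ₁ = t - α₁ := by rw [← h1]; ring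
  have e2 : δ₂ = t - α₂ := by rw [← h2]; ring
  have e3 : δ₃ = t - α₃ := by rw [← h3]; ring
  subst e1 e2 e3
  have m12 : (α₁ - α₂) * (c * (t - α₁ - α₂) + γ * (a - d)) = 0 := by
    linear_combination c * l1 - c * l2 + γ * k1 - γ * k2
  have m13 : (α₁ - α₃) * (c * (t - α₁ - α₃) + γ * (a - d)) = 0 := by
    linear_combination c * l1 - c * l3 + γ * k1 - γ * k3
  have r12 := (mul_eq_zero.1 m12).resolve_left (sub_ne_zero.2 n12)
  have r13 := (mul_eq_zero.1 m13).resolve_left (sub_ne_zero.2 n13)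
  have hz : c * (α₂ - α₃) = 0 := by linear_combination r13 - r12
  exact sub_eq_zero.1 ((mul_eq_zero.1 hz).resolve_left hc)

theorem two_fib {S : Finset (SL 2 p)} (f : SL 2 p → ZMod p)
    (h : ∀ m₁ ∈ S, ∀ m₂ ∈ S, ∀ m₃ ∈ S, f m₁ = f m₂ → f m₁ = f m₃ → m₁ ≠ m₂ → m₁ ≠ m₃ → m₂ = m₃) :
    S.card ≤ 2 * p := by
  classical
  have h1 := Finset.card_le_mul_card_image (f := f) S 2 (fun a _ => by
    by_contra hcon
    rw [not_le, Finset.two_lt_card] at hcon
    obtain ⟨m₁, h1, m₂, h2, m₃, h3, n12, n13, n23⟩ := hcon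
    rw [Finset.mem_filter] at h1 h2 h3
    exact n23 (h m₁ h1.1 m₂ h2.1 m₃ h3.1 (h1.2.trans h2.2.symm) (h1.2.trans h3.2.symm) n12 n13))
  refine h1.trans ?_
  refine Nat.mul_le_mul_left 2 ?_
  refine (Finset.card_le_univ _).trans ?_
  rw [ZMod.card]

end LIN_

open LIN_ in
theorem prove_LIN : T_LIN := by
  classical
  intro p _ x t t' hx
  rw [Nat.card_eq_fintype_card, Fintype.card_subtype]
  have hS : ∀ m ∈ (univ.filter fun m : SL 2 p => (m : Matrix (Fin 2) (Fin 2) (ZMod p)).trace = t ∧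
      ((m : Matrix (Fin 2) (Fin 2) (ZMod p)) * x).trace = t'), Eqs m x t t' := fun m hm =>
    eqs (Finset.mem_filter.1 hm).2
  by_cases hc : x 1 0 = 0
  · by_cases hb : x 0 1 = 0
    · have ha : x 0 0 - x 1 1 ≠ 0 := sub_ne_zero.2 fun h => hx ⟨hb, hc, h⟩
      -- the first entry is determined
      have hα : ∀ m₁ m₂ : SL 2 p, Eqs m₁ x t t' → Eqs m₂ x t t' →
          (m₁ : Matrix (Fin 2) (Fin 2) (ZMod p)) 0 0 =
            (m₂ : Matrix (Fin 2) (Fin 2) (ZMod p)) 0 0 ∧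
          (m₁ : Matrix (Fin 2) (Fin 2) (ZMod p)) 1 1 =
            (m₂ : Matrix (Fin 2) (Fin 2) (ZMod p)) 1 1 := by
        intro m₁ m₂ h1 h2
        have t1 := h1.tx
        have t2 := h2.tx
        rw [hb, hc] at t1 t2
        have e : ((m₁ : Matrix (Fin 2) (Fin 2) (ZMod p)) 0 0 -
            (m₂ : Matrix (Fin 2) (Fin 2) (ZMod p)) 0 0) * (x 0 0 - x 1 1) = 0 := by
          linear_combination t1 - t2 - x 1 1 * h1.tr + x 1 1 * h2.tr
        have e1 := sub_eq_zero.1 ((mul_eq_zero.1 e).resolve_right ha)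
        refine ⟨e1, ?_⟩
        have := h1.tr.trans h2.tr.symm
        rw [e1] at this
        exact add_left_cancel this
      refine two_fib (fun m => (m : Matrix (Fin 2) (Fin 2) (ZMod p)) 0 1 +
        (m : Matrix (Fin 2) (Fin 2) (ZMod p)) 1 0) ?_
      intro m₁ g1 m₂ g2 m₃ g3 q12 q13 n12 n13
      have h1 := hS m₁ g1
      have h2 := hS m₂ g2
      have h3 := hS m₃ g3
      obtain ⟨a12, d12⟩ := hα m₁ m₂ h1 h2
      obtain ⟨a13, d13⟩ := hα m₁ m₃ h1 h3
      have b12 : (m₁ : Matrix (Fin 2) (Fin 2) (ZMod p)) 0 1 ≠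
          (m₂ : Matrix (Fin 2) (Fin 2) (ZMod p)) 0 1 := by
        intro h
        refine n12 (ext4 a12 h ?_ d12)
        simp only [h] at q12
        exact add_left_cancel q12
      have b13 : (m₁ : Matrix (Fin 2) (Fin 2) (ZMod p)) 0 1 ≠
          (m₃ : Matrix (Fin 2) (Fin 2) (ZMod p)) 0 1 := by
        intro h
        refine n13 (ext4 a13 h ?_ d13)
        simp only [h] at q13
        exact add_left_cancel q13
      have e1 := h1.det
      have e2 := h2.det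
      have e3 := h3.det
      rw [← a12, ← d12] at e2
      rw [← a13, ← d13] at e3
      -- `β (s - β) = k`
      have s12 : (m₂ : Matrix (Fin 2) (Fin 2) (ZMod p)) 0 1 =
          (m₁ : Matrix (Fin 2) (Fin 2) (ZMod p)) 1 0 := by
        have e : ((m₁ : Matrix (Fin 2) (Fin 2) (ZMod p)) 0 1 -
            (m₂ : Matrix (Fin 2) (Fin 2) (ZMod p)) 0 1) *
            ((m₂ : Matrix (Fin 2) (Fin 2) (ZMod p)) 0 1 -
            (m₁ : Matrix (Fin 2) (Fin 2) (ZMod p)) 1 0) = 0 := by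
          linear_combination e1 - e2 + (m₂ : Matrix (Fin 2) (Fin 2) (ZMod p)) 0 1 * q12
        exact sub_eq_zero.1 ((mul_eq_zero.1 e).resolve_left (sub_ne_zero.2 b12))
      have s13 : (m₃ : Matrix (Fin 2) (Fin 2) (ZMod p)) 0 1 =
          (m₁ : Matrix (Fin 2) (Fin 2) (ZMod p)) 1 0 := by
        have e : ((m₁ : Matrix (Fin 2) (Fin 2) (ZMod p)) 0 1 -
            (m₃ : Matrix (Fin 2) (Fin 2) (ZMod p)) 0 1) *
            ((m₃ : Matrix (Fin 2) (Fin 2) (ZMod p)) 0 1 -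
            (m₁ : Matrix (Fin 2) (Fin 2) (ZMod p)) 1 0) = 0 := by
          linear_combination e1 - e3 + (m₃ : Matrix (Fin 2) (Fin 2) (ZMod p)) 0 1 * q13
        exact sub_eq_zero.1 ((mul_eq_zero.1 e).resolve_left (sub_ne_zero.2 b13))
      refine ext4 (a12.symm.trans a13) (s12.trans s13.symm) ?_ (d12.symm.trans d13)
      have := q12.symm.trans q13
      simp only [s12, s13] at this
      exact add_left_cancel this
    · refine two_fib (fun m => (m : Matrix (Fin 2) (Fin 2) (ZMod p)) 0 1) ?_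
      intro m₁ g1 m₂ g2 m₃ g3 q12 q13 n12 n13
      have h1 := hS m₁ g1
      have h2 := hS m₂ g2
      have h3 := hS m₃ g3
      have inj : ∀ m m' : SL 2 p, Eqs m x t t' → Eqs m' x t t' →
          (m : Matrix (Fin 2) (Fin 2) (ZMod p)) 0 1 = (m' : Matrix (Fin 2) (Fin 2) (ZMod p)) 0 1 →
          (m : Matrix (Fin 2) (Fin 2) (ZMod p)) 0 0 = (m' : Matrix (Fin 2) (Fin 2) (ZMod p)) 0 0 →
          m = m' := by
        intro m m' h h' hβ hα
        have hδ : (m : Matrix (Fin 2) (Fin 2) (ZMod p)) 1 1 =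
            (m' : Matrix (Fin 2) (Fin 2) (ZMod p)) 1 1 := by
          have := h.tr.trans h'.tr.symm
          rw [hα] at this
          exact add_left_cancel this
        refine ext4 hα hβ ?_ hδ
        have e := h.tx.trans h'.tx.symm
        rw [hα, hβ, hδ] at e
        have e2 := add_left_cancel (add_right_cancel e)
        exact mul_right_cancel₀ hb e2
      refine inj m₂ m₃ h2 h3 (q12.symm.trans q13) ?_
      have e1 := h1.tx
      have e2 := h2.tx
      have e3 := h3.tx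
      have l1 := h1.det
      have l2 := h2.det
      have l3 := h3.det
      rw [← q12] at e2 l2
      rw [← q13] at e3 l3
      refine three (β₁ := (m₁ : Matrix (Fin 2) (Fin 2) (ZMod p)) 1 0)
        (β₂ := (m₂ : Matrix (Fin 2) (Fin 2) (ZMod p)) 1 0)
        (β₃ := (m₃ : Matrix (Fin 2) (Fin 2) (ZMod p)) 1 0)
        (γ := (m₁ : Matrix (Fin 2) (Fin 2) (ZMod p)) 0 1) (a := x 0 0) (b := x 1 0) (d := x 1 1)
        (t' := t') hb h1.tr h2.tr h3.tr ?_ ?_ ?_ ?_ ?_ ?_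
        (fun h => n12 (inj _ _ h1 h2 q12 h)) (fun h => n13 (inj _ _ h1 h3 q13 h))
      · linear_combination e1
      · linear_combination e2
      · linear_combination e3
      · linear_combination l1
      · linear_combination l2
      · linear_combination l3
  · refine two_fib (fun m => (m : Matrix (Fin 2) (Fin 2) (ZMod p)) 1 0) ?_
    intro m₁ g1 m₂ g2 m₃ g3 q12 q13 n12 n13
    have h1 := hS m₁ g1
    have h2 := hS m₂ g2
    have h3 := hS m₃ g3
    have inj : ∀ m m' : SL 2 p, Eqs m x t t' → Eqs m' x t t' →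
        (m : Matrix (Fin 2) (Fin 2) (ZMod p)) 1 0 = (m' : Matrix (Fin 2) (Fin 2) (ZMod p)) 1 0 →
        (m : Matrix (Fin 2) (Fin 2) (ZMod p)) 0 0 = (m' : Matrix (Fin 2) (Fin 2) (ZMod p)) 0 0 →
        m = m' := by
      intro m m' h h' hγ hα
      have hδ : (m : Matrix (Fin 2) (Fin 2) (ZMod p)) 1 1 =
          (m' : Matrix (Fin 2) (Fin 2) (ZMod p)) 1 1 := by
        have := h.tr.trans h'.tr.symm
        rw [hα] at this
        exact add_left_cancel this
      refine ext4 hα ?_ hγ hδ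
      have e := h.tx.trans h'.tx.symm
      rw [hα, hγ, hδ] at e
      have e2 := add_left_cancel (add_right_cancel (add_right_cancel e))
      exact mul_right_cancel₀ hc e2
    refine inj m₂ m₃ h2 h3 (q12.symm.trans q13) ?_
    have e1 := h1.tx
    have e2 := h2.tx
    have e3 := h3.tx
    have l1 := h1.det
    have l2 := h2.det
    have l3 := h3.det
    rw [← q12] at e2 l2
    rw [← q13] at e3 l3
    exact three (a := x 0 0) (b := x 0 1) (d := x 1 1) hc h1.tr h2.tr h3.tr e1 e2 e3 l1 l2 l3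
      (fun h => n12 (inj _ _ h1 h2 q12 h)) (fun h => n13 (inj _ _ h1 h3 q13 h))


end Pool.Agent.RCG
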