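import Pool.Agent.RCG.Targets8

/-!
# RCG: from the quadratic form to the norm for a symmetric matrix (polarization)
-/

set_option autoImplicit false

namespace Pool.Agent.RCG

open Finset Matrix

namespace NRM_

variable {G : Type} [Fintype G]

theorem sym (N : Matrix G G ℝ) (hN : N.IsHermitian) (f g : G → ℝ) :
    f ⬝ᵥ N *ᵥ g = g ⬝ᵥ N *ᵥ f := by
  have hT : Nᵀ = N := by
    have h := hN.eq
    rwa [conjTranspose_eq_transpose_of_trivial] at h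
  rw [dotProduct_mulVec, ← mulVec_transpose, hT, dotProduct_comm]

theorem key (N : Matrix G G ℝ) (M : ℝ) (hN : N.IsHermitian)
    (h0 : ∀ f : G → ℝ, ∑ x, f x = 0 → ∑ x, (N *ᵥ f) x = 0)
    (hq : ∀ f : G → ℝ, ∑ x, f x = 0 → |f ⬝ᵥ N *ᵥ f| ≤ M * (f ⬝ᵥ f))
    (f : G → ℝ) (hf : ∑ x, f x = 0) (t : ℝ) :
    2 * t * ((N *ᵥ f) ⬝ᵥ (N *ᵥ f)) ≤ M * (f ⬝ᵥ f + t ^ 2 * ((N *ᵥ f) ⬝ᵥ (N *ᵥ f))) := by
  set g : G → ℝ := N *ᵥ f with hg
  have hg0 : ∑ x, g x = 0 := h0 f hf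
  have hs : ∀ c : ℝ, ∑ x, (f + c • g) x = 0 := by
    intro c
    simp only [Pi.add_apply, Pi.smul_apply, smul_eq_mul]
    rw [Finset.sum_add_distrib, ← Finset.mul_sum, hf, hg0]
    ring
  have hqq : ∀ c : ℝ, (f + c • g) ⬝ᵥ (f + c • g) =
      f ⬝ᵥ f + 2 * c * (f ⬝ᵥ g) + c ^ 2 * (g ⬝ᵥ g) := by
    intro c
    simp only [add_dotProduct, dotProduct_add, smul_dotProduct, dotProduct_smul, smul_eq_mul]
    rw [dotProduct_comm g f]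
    ring
  have haa : ∀ c : ℝ, (f + c • g) ⬝ᵥ N *ᵥ (f + c • g) =
      f ⬝ᵥ N *ᵥ f + 2 * c * (g ⬝ᵥ g) + c ^ 2 * (g ⬝ᵥ N *ᵥ g) := by
    intro c
    simp only [mulVec_add, mulVec_smul, add_dotProduct, dotProduct_add, smul_dotProduct,
      dotProduct_smul, smul_eq_mul]
    rw [sym N hN f g, ← hg]
    ring
  have h3 := (abs_le.1 (hq (f + t • g) (hs t))).2
  have h4 := (abs_le.1 (hq (f + (-t) • g) (hs (-t)))).1
  rw [haa, hqq] at h3 h4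
  nlinarith [h3, h4]

end NRM_

open NRM_ in
theorem prove_NRM : T_NRM := by
  intro G _ N M hN h0 hM hq f hf
  have hF : 0 ≤ f ⬝ᵥ f := by
    simp only [dotProduct]
    exact Finset.sum_nonneg fun x _ => mul_self_nonneg _
  rcases hM.eq_or_lt with hB0 | hB0
  · have h := key N M hN h0 hq f hf 1
    rw [← hB0] at h ⊢
    linarith
  · have h := key N M hN h0 hq f hf M⁻¹
    have h1 := mul_le_mul_of_nonneg_left h hM
    have e1 : M * (2 * M⁻¹ * ((N *ᵥ f) ⬝ᵥ (N *ᵥ f))) = 2 * ((N *ᵥ f) ⬝ᵥ (N *ᵥ f)) := by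
      field_simp
    have e2 : M * (M * (f ⬝ᵥ f + M⁻¹ ^ 2 * ((N *ᵥ f) ⬝ᵥ (N *ᵥ f)))) =
        M ^ 2 * (f ⬝ᵥ f) + (N *ᵥ f) ⬝ᵥ (N *ᵥ f) := by
      field_simp
    rw [e1, e2] at h1
    linarith

end Pool.Agent.RCG
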