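import Pool.Agent.RCG.Targets12

set_option autoImplicit false

/-!
# RCG: choice of the word length (NUB)
-/

namespace Pool.Agent.RCG

open Finset Matrix

theorem prove_NUB : T_NUB := by
  intro δ ε k d N hδ hk hd hdk hε hεb
  have hk0 : 0 < k := by linarith
  set lam : ℝ := Real.log k with hlam
  have hlam1 : 1 ≤ lam := by
    rw [hlam, Real.le_log_iff_exp_le hk0]
    have := Real.exp_one_lt_d9
    linarith
  have hlam0 : 0 < lam := by linarith
  set a : ℝ := Real.log (1 + δ / 4) with ha
  have ha0 : 0 < a := Real.log_pos (by linarith)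
  refine ⟨392 + 4 * (1 + δ / 4) ^ 2, Real.exp (4 * lam * (N + 1)), by positivity, fun q hq => ?_⟩
  have hq0 : 0 < q := lt_of_lt_of_le (Real.exp_pos _) hq
  set L : ℝ := Real.log q with hL
  have hLN : 4 * lam * (N + 1) ≤ L := by
    rw [hL, Real.le_log_iff_exp_le hq0]
    exact hq
  have hL0 : 0 ≤ L := le_trans (by positivity) hLN
  have hqL : Real.exp L = q := Real.exp_log hq0
  set m : ℕ := ⌊L / (4 * lam)⌋₊ with hm
  have hm1 : (m : ℝ) ≤ L / (4 * lam) := Nat.floor_le (by positivity)
  have hm2 : L / (4 * lam) < m + 1 := Nat.lt_floor_add_one _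
  have hmN : N + 1 ≤ m := by
    rw [hm]
    refine Nat.le_floor ?_
    rw [le_div_iff₀ (by positivity)]
    push_cast
    linarith
  rw [le_div_iff₀ (by positivity)] at hm1
  rw [div_lt_iff₀ (by positivity)] at hm2
  have hnlam : ((2 * m : ℕ) : ℝ) * lam ≤ L / 2 := by
    push_cast
    linarith
  have hnlam2 : L / 2 - 2 * lam ≤ ((2 * m : ℕ) : ℝ) * lam := by
    push_cast
    linarith
  have hkn : k ^ (2 * m) = Real.exp (((2 * m : ℕ) : ℝ) * lam) := by
    rw [Real.exp_nat_mul, hlam, Real.exp_log hk0]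
  have hkn1 : k ^ (2 * m) ≤ Real.exp (L / 2) := by
    rw [hkn]
    exact Real.exp_le_exp.mpr hnlam
  have hsq : √q = Real.exp (L / 2) := by
    rw [Real.sqrt_eq_rpow, Real.rpow_def_of_pos hq0]
    congr 1
    ring
  have hsk : 0 < √k := Real.sqrt_pos.mpr hk0
  refine ⟨2 * m, ⟨m, by ring⟩, by omega, by omega, ?_, ?_, ?_⟩
  · have h1 : ((2 * m : ℕ) : ℝ) + 1 ≤ 7 * Real.exp (L / 12) := by
      have e1 := Real.add_one_le_exp (L / 12)
      have e2 : ((2 * m : ℕ) : ℝ) ≤ ((2 * m : ℕ) : ℝ) * lam :=
        le_mul_of_one_le_right (Nat.cast_nonneg _) hlam1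
      have e3 := Real.exp_pos (L / 12)
      linarith
    have h2 : q ^ (-(1 / 3 : ℝ)) = Real.exp (-(L / 3)) := by
      rw [Real.rpow_def_of_pos hq0]
      congr 1
      ring
    rw [h2]
    calc 8 * (((2 * m : ℕ) : ℝ) + 1) ^ 2 * k ^ (2 * m) / q
        ≤ 8 * (7 * Real.exp (L / 12)) ^ 2 * Real.exp (L / 2) / q := by gcongr
      _ = 392 * Real.exp (-(L / 3)) := by
          have e1 : Real.exp (-(L / 3)) * q = Real.exp (L / 12) ^ 2 * Real.exp (L / 2) := by
            rw [← hqL, ← Real.exp_nat_mul, ← Real.exp_add, ← Real.exp_add]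
            congr 1
            push_cast
            ring
          rw [div_eq_iff hq0.ne', mul_assoc 392, e1]
          ring
      _ ≤ (392 + 4 * (1 + δ / 4) ^ 2) * Real.exp (-(L / 3)) := by
          gcongr
          have : 0 ≤ 4 * (1 + δ / 4) ^ 2 := by positivity
          linarith
  · unfold nu7
    positivity
  · have h2 : q ^ (-ε) = Real.exp (-(ε * L)) := by
      rw [Real.rpow_def_of_pos hq0]
      congr 1
      ring
    have h3 : (1 + δ / 4) ^ (2 * m) = Real.exp (((2 * m : ℕ) : ℝ) * a) := by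
      rw [Real.exp_nat_mul, ha, Real.exp_log (by positivity)]
    have hone : 1 ≤ (2 * √k) ^ (2 * m) := by
      refine one_le_pow₀ ?_
      have : 1 ≤ √k := Real.one_le_sqrt.mpr (by linarith)
      linarith
    have hnum : (2 * √(2 * (d : ℝ))) ^ (2 * m) + (2 * (d : ℝ)) ^ (2 * m) * (3 / √q) ≤
        4 * (2 * √k) ^ (2 * m) := by
      have e1 : (2 * √(2 * (d : ℝ))) ^ (2 * m) ≤ (2 * √k) ^ (2 * m) := by gcongr
      have e2 : (2 * (d : ℝ)) ^ (2 * m) * (3 / √q) ≤ 3 := by
        calc (2 * (d : ℝ)) ^ (2 * m) * (3 / √q) ≤ √q * (3 / √q) := by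
              gcongr
              calc (2 * (d : ℝ)) ^ (2 * m) ≤ k ^ (2 * m) := by gcongr
                _ ≤ √q := by
                    rw [hsq]
                    exact hkn1
          _ = 3 := by
              have : √q ≠ 0 := by
                rw [hsq]
                exact (Real.exp_pos _).ne'
              field_simp
      linarith
    have hden : ((2 + δ / 2) * √k) ^ (2 * m) = (1 + δ / 4) ^ (2 * m) * (2 * √k) ^ (2 * m) := by
      rw [← mul_pow]
      congr 1
      ring
    unfold nu7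
    rw [h2]
    calc ((2 * √(2 * (d : ℝ))) ^ (2 * m) + (2 * (d : ℝ)) ^ (2 * m) * (3 / √q)) /
          ((2 + δ / 2) * √k) ^ (2 * m)
        ≤ 4 * (2 * √k) ^ (2 * m) / ((2 + δ / 2) * √k) ^ (2 * m) := by gcongr
      _ = 4 * Real.exp (-(((2 * m : ℕ) : ℝ) * a)) := by
          rw [hden, h3, Real.exp_neg]
          field_simp
      _ ≤ 4 * Real.exp (2 * a - ε * L) := by
          gcongr
          have e1 : ε * L ≤ a / (2 * lam) * L := by gcongr
          have e2 : (L / 2 - 2 * lam) * (a / lam) ≤ ((2 * m : ℕ) : ℝ) * lam * (a / lam) := by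
            gcongr
          have e3 : (L / 2 - 2 * lam) * (a / lam) = a / (2 * lam) * L - 2 * a := by
            field_simp
          have e4 : ((2 * m : ℕ) : ℝ) * lam * (a / lam) = ((2 * m : ℕ) : ℝ) * a := by
            field_simp
          linarith
      _ = 4 * (1 + δ / 4) ^ 2 * Real.exp (-(ε * L)) := by
          have e1 : (1 + δ / 4) ^ 2 = Real.exp (2 * a) := by
            have := Real.exp_nat_mul a 2
            rw [ha, Real.exp_log (by positivity)] at this
            rw [← this]
            push_cast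
            rfl
          rw [e1, mul_assoc, ← Real.exp_add]
          congr 2
      _ ≤ (392 + 4 * (1 + δ / 4) ^ 2) * Real.exp (-(ε * L)) := by
          gcongr
          linarith

end Pool.Agent.RCG
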