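import Pool.Agent.RCG.Targets7

set_option autoImplicit false

/-!
# RCG: the spectral cut of the adjacency matrix (PRO)
-/

namespace Pool.Agent.RCG

open Finset Matrix

namespace PRO_

set_option linter.unusedSectionVars false

variable {G : Type} [Group G] [Fintype G]

/-- the matrix with all entries `1/|G|` -/
noncomputable def Jm (G : Type) [Fintype G] : Matrix G G ℝ :=
  Matrix.of fun _ _ => ((Fintype.card G : ℝ))⁻¹

theorem Jm_mulVec (f : G → ℝ) :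
    Jm G *ᵥ f = fun _ => (Fintype.card G : ℝ)⁻¹ * ∑ x, f x := by
  funext x
  simp [Jm, Matrix.mulVec, dotProduct, Finset.mul_sum]

theorem Jm_herm : (Jm G).IsHermitian := by
  ext i j
  simp [Jm]

theorem herm_dot {M : Matrix G G ℝ} (hM : M.IsHermitian) (u v : G → ℝ) :
    u ⬝ᵥ M *ᵥ v = (M *ᵥ u) ⬝ᵥ v := by
  have hT : Mᵀ = M := by
    have h := hM.eq
    rwa [Matrix.conjTranspose_eq_transpose_of_trivial] at h
  rw [Matrix.dotProduct_mulVec, ← Matrix.mulVec_transpose, hT]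

theorem Rm_T (h : G) : (Rm h)ᵀ = Rm h⁻¹ := by
  ext x z
  simp only [Rm, Matrix.transpose_apply, Matrix.of_apply]
  congr 1
  rw [eq_iff_iff]
  constructor
  · rintro rfl
    group
  · rintro rfl
    group

theorem Rm_mulVec (h : G) (f : G → ℝ) : Rm h *ᵥ f = fun x => f (x * h) := by
  classical
  funext x
  simp [Rm, Matrix.mulVec, dotProduct]

theorem Rm_dot (h : G) (Q : Matrix G G ℝ) (f : G → ℝ) :
    f ⬝ᵥ (Rm h * Q * Rm h⁻¹) *ᵥ f = (Rm h⁻¹ *ᵥ f) ⬝ᵥ Q *ᵥ (Rm h⁻¹ *ᵥ f) := by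
  rw [← Matrix.mulVec_mulVec, ← Matrix.mulVec_mulVec, Matrix.dotProduct_mulVec,
    ← Matrix.mulVec_transpose, Rm_T]

theorem Rm_sum (h : G) (f : G → ℝ) (hf : ∑ x, f x = 0) : ∑ x, (Rm h *ᵥ f) x = 0 := by
  rw [Rm_mulVec]
  rw [← hf]
  exact Fintype.sum_equiv (Equiv.mulRight h) _ _ fun x => rfl

theorem QB_iff (hADM : T_ADM) {d : ℕ} (y : Fin d → G) (f : G → ℝ) :
    ∑ x, f x * adj y f x = f ⬝ᵥ adM y *ᵥ f := by
  rw [(hADM G d).1 y f]
  rfl

end PRO_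

open PRO_ in
theorem prove_PRO (h1 : T_SPC) (h2 : T_ADM) : T_PRO := by
  classical
  intro G _ _ d n y R c hR hn hn2 hNB
  obtain ⟨hadj, hherm, -, hone, -, -⟩ := h2 G d
  set N : ℝ := (Fintype.card G : ℝ) with hN
  have hNpos : 0 < N := by
    rw [hN]
    exact_mod_cast Fintype.card_pos
  set u : G → ℝ := fun _ => (1 : ℝ) with hu
  set A : Matrix G G ℝ := adM y with hA
  set M : Matrix G G ℝ := A - (2 * (d : ℝ)) • Jm G with hM
  have hAh : A.IsHermitian := hherm y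
  have hMh : M.IsHermitian := by
    have h3 : ((2 * (d : ℝ)) • Jm G).IsHermitian := by
      ext i j
      simp [Jm]
    exact hAh.sub h3
  have hAu : A *ᵥ u = fun _ => 2 * (d : ℝ) := hone y
  have hMv : ∀ f : G → ℝ, M *ᵥ f = A *ᵥ f - (2 * (d : ℝ)) • fun _ : G => N⁻¹ * ∑ x, f x := by
    intro f
    rw [hM, Matrix.sub_mulVec, Matrix.smul_mulVec, Jm_mulVec]
  have hMu : M *ᵥ u = 0 := by
    rw [hMv, hAu]
    funext x
    simp only [hu, Pi.sub_apply, Pi.smul_apply, smul_eq_mul, Finset.sum_const, Finset.card_univ,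
      nsmul_eq_mul, mul_one, Pi.zero_apply]
    rw [← hN, inv_mul_cancel₀ hNpos.ne']
    ring
  have hMf : ∀ f : G → ℝ, ∑ x, f x = 0 → M *ᵥ f = A *ᵥ f := by
    intro f hf
    rw [hMv, hf, mul_zero]
    funext x
    simp
  have hAsum : ∀ f : G → ℝ, ∑ x, f x = 0 → ∑ x, (A *ᵥ f) x = 0 := by
    intro f hf
    have h3 : u ⬝ᵥ A *ᵥ f = ∑ x, (A *ᵥ f) x := by
      simp [hu, dotProduct]
    rw [← h3, herm_dot hAh, hAu]
    simp only [dotProduct]
    rw [← Finset.mul_sum, hf, mul_zero]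
  have hpow : ∀ k : ℕ, ∀ f : G → ℝ, ∑ x, f x = 0 →
      (M ^ k) *ᵥ f = (A ^ k) *ᵥ f ∧ ∑ x, ((A ^ k) *ᵥ f) x = 0 := by
    intro k
    induction k with
    | zero =>
      intro f hf
      simp [hf]
    | succ k ih =>
      intro f hf
      obtain ⟨h3, h4⟩ := ih f hf
      rw [pow_succ', pow_succ', ← Matrix.mulVec_mulVec, ← Matrix.mulVec_mulVec, h3]
      exact ⟨hMf _ h4, hAsum _ h4⟩
  have hMpu : (M ^ n) *ᵥ u = 0 := by
    obtain ⟨k, rfl⟩ : ∃ k, n = k + 1 := ⟨n - 1, by omega⟩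
    rw [pow_succ, ← Matrix.mulVec_mulVec, hMu, Matrix.mulVec_zero]
  obtain ⟨Q, hQh, hQQ, hQ1, hQ2⟩ := h1 G M R n hMh hR hn
  have hQu : Q *ᵥ u = 0 := by
    have h3 : (Q *ᵥ u) ⬝ᵥ (Q *ᵥ u) = u ⬝ᵥ Q *ᵥ u := by
      rw [← herm_dot hQh, Matrix.mulVec_mulVec, hQQ]
    have h4 := hQ1 u
    rw [hMpu, dotProduct_zero, mul_zero, ← h3] at h4
    have h5 : 0 ≤ (Q *ᵥ u) ⬝ᵥ (Q *ᵥ u) := by
      simp only [dotProduct]
      exact Finset.sum_nonneg fun i _ => mul_self_nonneg _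
    exact dotProduct_self_eq_zero.1 (le_antisymm h4 h5)
  refine ⟨Q, ⟨hQh, hQQ, hQu⟩, ?_, ?_⟩
  · intro f hf
    have h3 : ∀ h : G, f ⬝ᵥ (Rm h * Q * Rm h⁻¹) *ᵥ f ≤
        (R ^ n)⁻¹ * (f ⬝ᵥ (Rm h * pwM y n * Rm h⁻¹) *ᵥ f) := by
      intro h
      rw [Rm_dot, Rm_dot]
      refine (hQ1 _).trans (le_of_eq ?_)
      rw [(hpow n _ (Rm_sum h⁻¹ f hf)).1]
      rfl
    calc ∑ h : G, f ⬝ᵥ (Rm h * Q * Rm h⁻¹) *ᵥ f
        ≤ ∑ h : G, (R ^ n)⁻¹ * (f ⬝ᵥ (Rm h * pwM y n * Rm h⁻¹) *ᵥ f) :=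
          Finset.sum_le_sum fun h _ => h3 h
      _ = (R ^ n)⁻¹ * ∑ h : G, (f ⬝ᵥ (Rm h * pwM y n * Rm h⁻¹) *ᵥ f) := by
          rw [Finset.mul_sum]
      _ ≤ (R ^ n)⁻¹ * (c * N * (f ⬝ᵥ f)) :=
          mul_le_mul_of_nonneg_left (hNB f hf) (inv_nonneg.2 (pow_nonneg hR.le n))
      _ = c / R ^ n * N * (f ⬝ᵥ f) := by
          rw [div_eq_mul_inv]
          ring
  · intro B hB hQB f hf
    have hall : ∀ v : G → ℝ, |v ⬝ᵥ M *ᵥ v| ≤ B * (v ⬝ᵥ v) := by
      intro v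
      set a : ℝ := N⁻¹ * ∑ x, v x with ha
      set g : G → ℝ := v - a • u with hg
      have hgs : ∑ x, g x = 0 := by
        simp only [hg, hu, Pi.sub_apply, Pi.smul_apply, smul_eq_mul, mul_one,
          Finset.sum_sub_distrib, Finset.sum_const, Finset.card_univ, nsmul_eq_mul]
        rw [← hN, ha, ← mul_assoc, mul_inv_cancel₀ hNpos.ne']
        ring
      have hv : v = g + a • u := by
        rw [hg]
        simp
      have hMvg : M *ᵥ v = A *ᵥ g := by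
        rw [hv, Matrix.mulVec_add, Matrix.mulVec_smul, hMu, smul_zero, add_zero, hMf g hgs]
      have huA : u ⬝ᵥ A *ᵥ g = 0 := by
        have h3 : u ⬝ᵥ A *ᵥ g = ∑ x, (A *ᵥ g) x := by
          simp [hu, dotProduct]
        rw [h3, hAsum g hgs]
      have hug : u ⬝ᵥ g = 0 := by
        have h3 : u ⬝ᵥ g = ∑ x, g x := by
          simp [hu, dotProduct]
        rw [h3, hgs]
      have e1 : v ⬝ᵥ M *ᵥ v = g ⬝ᵥ A *ᵥ g := by
        rw [hMvg]
        conv_lhs => rw [hv]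
        rw [add_dotProduct, smul_dotProduct, huA, smul_zero, add_zero]
      have e2 : g ⬝ᵥ g ≤ v ⬝ᵥ v := by
        have h3 : v ⬝ᵥ v = g ⬝ᵥ g + a ^ 2 * (u ⬝ᵥ u) := by
          conv_lhs => rw [hv]
          rw [add_dotProduct, dotProduct_add, dotProduct_add, smul_dotProduct, smul_dotProduct,
            dotProduct_smul, dotProduct_smul, dotProduct_comm g u, hug]
          simp only [smul_eq_mul]
          ring
        have h4 : 0 ≤ a ^ 2 * (u ⬝ᵥ u) := by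
          refine mul_nonneg (sq_nonneg a) ?_
          simp only [dotProduct]
          exact Finset.sum_nonneg fun i _ => mul_self_nonneg _
        linarith
      rw [e1, ← QB_iff h2]
      refine (hQB g hgs).trans ?_
      refine mul_le_mul_of_nonneg_left ?_ hB
      refine le_trans (le_of_eq ?_) e2
      simp [dotProduct, sq]
    have h3 := hQ2 B hall f
    rwa [hMf f hf] at h3

end Pool.Agent.RCG
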