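import Pool.Agent.RCG.Targets4
import Pool.Agent.RCG.SPC

/-!
# RCG: T_TOP, the projection onto the top eigenspace
-/

set_option autoImplicit false

namespace Pool.Agent.RCG

open Finset Matrix

namespace TOP_

variable {ι : Type} [Fintype ι] [DecidableEq ι]

/-- a matrix which commutes with `FF U d` commutes with every `FF U e` such that `e i = e j`
whenever `d i = d j` -/
theorem comm (U : Matrix ι ι ℝ) (hU : Uᵀ * U = 1) (hU' : U * Uᵀ = 1) (d e : ι → ℝ)
    (he : ∀ i j, d i = d j → e i = e j) (X : Matrix ι ι ℝ)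
    (h : X * SPC_.FF U d = SPC_.FF U d * X) : X * SPC_.FF U e = SPC_.FF U e * X := by
  have h1 : (Uᵀ * X * U) * diagonal d = diagonal d * (Uᵀ * X * U) := by
    have a1 : Uᵀ * (X * SPC_.FF U d) * U = (Uᵀ * X * U) * diagonal d := by
      unfold SPC_.FF
      calc Uᵀ * (X * (U * diagonal d * Uᵀ)) * U
          = Uᵀ * X * U * diagonal d * (Uᵀ * U) := by simp only [Matrix.mul_assoc]
        _ = _ := by rw [hU, Matrix.mul_one]
    have a2 : Uᵀ * (SPC_.FF U d * X) * U = diagonal d * (Uᵀ * X * U) := by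
      unfold SPC_.FF
      calc Uᵀ * (U * diagonal d * Uᵀ * X) * U
          = (Uᵀ * U) * (diagonal d * (Uᵀ * X * U)) := by simp only [Matrix.mul_assoc]
        _ = _ := by rw [hU, Matrix.one_mul]
    rw [← a1, ← a2, h]
  have h2 : (Uᵀ * X * U) * diagonal e = diagonal e * (Uᵀ * X * U) := by
    ext i j
    have h3 := congrFun (congrFun h1 i) j
    rw [mul_diagonal, diagonal_mul] at h3 ⊢
    by_cases hij : d i = d j
    · rw [he i j hij, mul_comm]
    · have h4 : ((Uᵀ * X * U) i j) * (d j - d i) = 0 := by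
        rw [mul_sub, h3]
        ring
      rcases mul_eq_zero.mp h4 with h5 | h5
      · rw [h5]
        ring
      · exact absurd (by linarith : d i = d j) hij
  unfold SPC_.FF
  calc X * (U * diagonal e * Uᵀ)
      = (U * Uᵀ) * X * U * diagonal e * Uᵀ := by
        rw [hU', Matrix.one_mul]
        simp only [Matrix.mul_assoc]
    _ = U * ((Uᵀ * X * U) * diagonal e) * Uᵀ := by simp only [Matrix.mul_assoc]
    _ = U * (diagonal e * (Uᵀ * X * U)) * Uᵀ := by rw [h2]
    _ = U * diagonal e * Uᵀ * X * (U * Uᵀ) := by simp only [Matrix.mul_assoc]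
    _ = _ := by rw [hU', Matrix.mul_one]

/-- the spectral projection -/
noncomputable def R (U : Matrix ι ι ℝ) (d : ι → ℝ) (c : ℝ) : Matrix ι ι ℝ :=
  SPC_.FF U (fun i => if d i = c then 1 else 0)

theorem R_idem (U : Matrix ι ι ℝ) (hU : Uᵀ * U = 1) (d : ι → ℝ) (c : ℝ) :
    R U d c * R U d c = R U d c := by
  unfold R
  rw [SPC_.FF_mul U hU]
  congr 1
  funext i
  split_ifs <;> simp

theorem R_eig (U : Matrix ι ι ℝ) (hU : Uᵀ * U = 1) (d : ι → ℝ) (c : ℝ) :
    SPC_.FF U d * R U d c = c • R U d c := by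
  unfold R
  rw [SPC_.FF_mul U hU]
  unfold SPC_.FF
  rw [← Matrix.smul_mul, ← Matrix.mul_smul]
  congr 2
  rw [← diagonal_smul]
  congr 1
  funext i
  simp only [Pi.smul_apply, smul_eq_mul]
  split_ifs with h
  · rw [h]
  · simp

/-- a vector killed by the spectral projection has no coordinates there -/
theorem R_coord (U : Matrix ι ι ℝ) (hU : Uᵀ * U = 1) (d : ι → ℝ) (j : ι) (v : ι → ℝ)
    (h : R U d (d j) *ᵥ v = 0) : (Uᵀ *ᵥ v) j = 0 := by
  have h1 : Uᵀ *ᵥ (R U d (d j) *ᵥ v) =
      diagonal (fun i => if d i = d j then (1 : ℝ) else 0) *ᵥ (Uᵀ *ᵥ v) := by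
    unfold R SPC_.FF
    rw [mulVec_mulVec, mulVec_mulVec]
    congr 1
    calc Uᵀ * (U * diagonal (fun i => if d i = d j then (1 : ℝ) else 0) * Uᵀ)
        = (Uᵀ * U) * (diagonal (fun i => if d i = d j then (1 : ℝ) else 0) * Uᵀ) := by
          simp only [Matrix.mul_assoc]
      _ = _ := by rw [hU, Matrix.one_mul]
  rw [h, mulVec_zero] at h1
  have h2 := congrFun h1 j
  rw [mulVec_diagonal] at h2
  simpa using h2.symm

end TOP_

open Classical in
theorem prove_TOP : T_TOP := by
  intro ι _ _ S P hS hP hPP hP0 hSP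
  obtain ⟨U, d, hU, hU', hd⟩ := SPC_.diag S hS
  -- the candidates
  let C : Finset ℝ := (Finset.univ.image d).filter (fun c => TOP_.R U d c * P ≠ 0)
  have hC : C.Nonempty := by
    by_contra hcon
    rw [Finset.not_nonempty_iff_eq_empty] at hcon
    apply hP0
    have h1 : ∀ j, TOP_.R U d (d j) * P = 0 := by
      intro j
      by_contra h
      have : d j ∈ C := by
        simp only [C, Finset.mem_filter, Finset.mem_image, Finset.mem_univ, true_and]
        exact ⟨⟨j, rfl⟩, h⟩
      rw [hcon] at this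
      simp at this
    have h2 : Uᵀ * P = 0 := by
      ext i j
      have h3 := TOP_.R_coord U hU d i (P *ᵥ (Pi.single j 1)) (by
        rw [mulVec_mulVec, h1 i, zero_mulVec])
      rw [mulVec_mulVec] at h3
      simpa using h3
    calc P = (U * Uᵀ) * P := by rw [hU', Matrix.one_mul]
      _ = U * (Uᵀ * P) := by rw [Matrix.mul_assoc]
      _ = 0 := by rw [h2, Matrix.mul_zero]
  obtain ⟨μ, hμC, hμmax⟩ := C.exists_max_image id hC
  have hμ0 : TOP_.R U d μ * P ≠ 0 := (Finset.mem_filter.mp hμC).2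
  have hcomm : ∀ X : Matrix ι ι ℝ, X * S = S * X → X * TOP_.R U d μ = TOP_.R U d μ * X := by
    intro X hX
    unfold TOP_.R
    apply TOP_.comm U hU hU' d
    · intro i j hij
      rw [hij]
    · rw [← hd]
      exact hX
  have hRP : P * TOP_.R U d μ = TOP_.R U d μ * P := hcomm P hSP.symm
  have hRherm : (TOP_.R U d μ).IsHermitian := SPC_.FF_herm U _
  have hRidem := TOP_.R_idem U hU d μ
  refine ⟨μ, TOP_.R U d μ * P, ?_, ?_, hμ0, ?_, ?_, ?_, ?_⟩
  · unfold Matrix.IsHermitian
    rw [conjTranspose_mul, hP.eq, hRherm.eq, hRP]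
  · calc TOP_.R U d μ * P * (TOP_.R U d μ * P)
        = TOP_.R U d μ * (P * TOP_.R U d μ) * P := by simp only [Matrix.mul_assoc]
      _ = TOP_.R U d μ * TOP_.R U d μ * (P * P) := by rw [hRP]; simp only [Matrix.mul_assoc]
      _ = _ := by rw [hRidem, hPP]
  · rw [Matrix.mul_assoc, hPP]
  · rw [← Matrix.mul_assoc]
    conv_lhs => rw [hd]
    rw [TOP_.R_eig U hU d μ, Matrix.smul_mul]
  · intro X hXS hXP
    rw [← Matrix.mul_assoc, hcomm X hXS, Matrix.mul_assoc, hXP, Matrix.mul_assoc]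
  · intro v hv
    have h1 : v ⬝ᵥ S *ᵥ v = ∑ i, d i * (Uᵀ *ᵥ v) i ^ 2 := by
      rw [hd]
      exact SPC_.FF_quad U d v
    rw [h1, SPC_.norm_quad U hU' v, Finset.mul_sum]
    apply Finset.sum_le_sum
    intro i _
    by_cases hi : d i ≤ μ
    · exact mul_le_mul_of_nonneg_right hi (sq_nonneg _)
    · have h2 : TOP_.R U d (d i) * P = 0 := by
        by_contra h
        apply hi
        exact hμmax (d i) (by
          simp only [C, Finset.mem_filter, Finset.mem_image, Finset.mem_univ, true_and]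
          exact ⟨⟨i, rfl⟩, h⟩)
      have h3 : (Uᵀ *ᵥ v) i = 0 := by
        apply TOP_.R_coord U hU d i v
        rw [← hv, mulVec_mulVec, h2, zero_mulVec]
      rw [h3]
      simp

end Pool.Agent.RCG
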