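import Pool.Agent.RCG.Targets9
import Pool.Agent.RCG.TOP

/-!
# RCG: T_SPR, spectral projection and resolvent
-/

set_option autoImplicit false

namespace Pool.Agent.RCG

open Finset Matrix

namespace SPR_

variable {ι : Type} [Fintype ι] [DecidableEq ι]

/-- coordinates of `FF U d v` -/
theorem FF_coord (U : Matrix ι ι ℝ) (hU : Uᵀ * U = 1) (d : ι → ℝ) (v : ι → ℝ) (i : ι) :
    (Uᵀ *ᵥ (SPC_.FF U d *ᵥ v)) i = d i * (Uᵀ *ᵥ v) i := by
  have h1 : Uᵀ *ᵥ (SPC_.FF U d *ᵥ v) = diagonal d *ᵥ (Uᵀ *ᵥ v) := by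
    unfold SPC_.FF
    rw [mulVec_mulVec, mulVec_mulVec]
    congr 1
    calc Uᵀ * (U * diagonal d * Uᵀ) = (Uᵀ * U) * (diagonal d * Uᵀ) := by
          simp only [Matrix.mul_assoc]
      _ = _ := by rw [hU, Matrix.one_mul]
  rw [h1, mulVec_diagonal]

/-- the inner product in coordinates -/
theorem dot_coord (U : Matrix ι ι ℝ) (hU' : U * Uᵀ = 1) (x y : ι → ℝ) :
    x ⬝ᵥ y = ∑ i, (Uᵀ *ᵥ x) i * (Uᵀ *ᵥ y) i := by
  have h1 : y = U *ᵥ (Uᵀ *ᵥ y) := by rw [mulVec_mulVec, hU', one_mulVec]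
  conv_lhs => rw [h1, dotProduct_mulVec, ← mulVec_transpose]
  rfl

omit [Fintype ι] [DecidableEq ι] in
/-- weighted Minkowski inequality -/
theorem mink (s : Finset ι) (w x y : ι → ℝ) (hw : ∀ i ∈ s, 0 ≤ w i) (A D : ℝ) (hA : 0 ≤ A)
    (hD : 0 ≤ D) (hx : ∑ i ∈ s, w i * x i ^ 2 ≤ A ^ 2) (hy : ∑ i ∈ s, w i * y i ^ 2 ≤ D ^ 2) :
    ∑ i ∈ s, w i * (x i + y i) ^ 2 ≤ (A + D) ^ 2 := by
  have h1 := Finset.sum_mul_sq_le_sq_mul_sq s (fun i => √(w i) * x i) (fun i => √(w i) * y i)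
  have h2 : ∑ i ∈ s, (√(w i) * x i) * (√(w i) * y i) = ∑ i ∈ s, w i * (x i * y i) := by
    refine Finset.sum_congr rfl fun i hi => ?_
    calc (√(w i) * x i) * (√(w i) * y i) = (√(w i) * √(w i)) * (x i * y i) := by ring
      _ = _ := by rw [Real.mul_self_sqrt (hw i hi)]
  have h3 : ∑ i ∈ s, (√(w i) * x i) ^ 2 = ∑ i ∈ s, w i * x i ^ 2 := by
    refine Finset.sum_congr rfl fun i hi => ?_
    rw [mul_pow, Real.sq_sqrt (hw i hi)]
  have h4 : ∑ i ∈ s, (√(w i) * y i) ^ 2 = ∑ i ∈ s, w i * y i ^ 2 := by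
    refine Finset.sum_congr rfl fun i hi => ?_
    rw [mul_pow, Real.sq_sqrt (hw i hi)]
  rw [h2, h3, h4] at h1
  have p1 : 0 ≤ ∑ i ∈ s, w i * y i ^ 2 :=
    Finset.sum_nonneg fun i hi => mul_nonneg (hw i hi) (sq_nonneg _)
  have h5 : (∑ i ∈ s, w i * (x i * y i)) ^ 2 ≤ (A * D) ^ 2 := by
    calc (∑ i ∈ s, w i * (x i * y i)) ^ 2
        ≤ (∑ i ∈ s, w i * x i ^ 2) * ∑ i ∈ s, w i * y i ^ 2 := h1
      _ ≤ A ^ 2 * D ^ 2 := mul_le_mul hx hy p1 (sq_nonneg A)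
      _ = (A * D) ^ 2 := by ring
  have h6 : ∑ i ∈ s, w i * (x i * y i) ≤ A * D := abs_le_of_sq_le_sq' h5 (mul_nonneg hA hD) |>.2
  have h7 : ∑ i ∈ s, w i * (x i + y i) ^ 2 = ∑ i ∈ s, w i * x i ^ 2 +
      2 * ∑ i ∈ s, w i * (x i * y i) + ∑ i ∈ s, w i * y i ^ 2 := by
    rw [Finset.mul_sum, ← Finset.sum_add_distrib, ← Finset.sum_add_distrib]
    refine Finset.sum_congr rfl fun i _ => ?_
    ring
  rw [h7]
  nlinarith

/-- the quadratic form of the polynomial -/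
theorem pol_quad (U : Matrix ι ι ℝ) (hU : Uᵀ * U = 1) (hU' : U * Uᵀ = 1) (d : ι → ℝ) (q : ℕ)
    (l0 R σ : ℝ) (b : ι → ℝ) :
    b ⬝ᵥ (∑ m ∈ range (q + 1), (cf q l0 R m * σ ^ m) • (SPC_.FF U d) ^ m) *ᵥ b =
      ∑ i, pol q l0 R (σ * d i) * (Uᵀ *ᵥ b) i ^ 2 := by
  rw [Matrix.sum_mulVec, dotProduct_sum]
  have h1 : ∀ m ∈ range (q + 1), b ⬝ᵥ ((cf q l0 R m * σ ^ m) • (SPC_.FF U d) ^ m) *ᵥ b =
      ∑ i, cf q l0 R m * (σ * d i) ^ m * (Uᵀ *ᵥ b) i ^ 2 := by
    intro m _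
    rw [smul_mulVec, dotProduct_smul, SPC_.FF_pow U hU hU', SPC_.FF_quad, smul_eq_mul,
      Finset.mul_sum]
    refine Finset.sum_congr rfl fun i _ => ?_
    rw [mul_pow]
    ring
  rw [Finset.sum_congr rfl h1, Finset.sum_comm]
  refine Finset.sum_congr rfl fun i _ => ?_
  unfold pol
  rw [Finset.sum_mul]

end SPR_

open SPR_ in
/-- spectral projection and resolvent -/
theorem prove_SPR (hP : T_PNN) : T_SPR := by
  classical
  intro ι _ _ M R hM hR
  obtain ⟨U, d, hU, hU', hd⟩ := SPC_.diag M hM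
  refine ⟨SPC_.FF U (fun i => if R < |d i| then 1 else 0), SPC_.FF_herm U _, ?_, ?_, ?_, ?_⟩
  · rw [SPC_.FF_mul U hU]
    congr 1
    funext i
    split_ifs <;> simp
  · intro X hX
    apply TOP_.comm U hU hU' d
    · intro i j hij
      simp only [hij]
    · rw [← hd]
      exact hX
  · intro n hn v
    have hp : M ^ n = SPC_.FF U (fun i => d i ^ n) := by rw [hd, SPC_.FF_pow U hU hU']
    rw [hp, SPC_.FF_quad, SPC_.FF_quad, Finset.mul_sum]
    apply Finset.sum_le_sum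
    intro i _
    rw [← mul_assoc]
    apply mul_le_mul_of_nonneg_right _ (sq_nonneg _)
    have h0 : 0 < R ^ n := pow_pos hR n
    split_ifs with h
    · rw [← hn.pow_abs (d i), ← div_eq_inv_mul, le_div_iff₀ h0, one_mul]
      exact pow_le_pow_left₀ hR.le h.le n
    · exact mul_nonneg (inv_nonneg.mpr h0.le) (hn.pow_nonneg _)
  · intro q l0 l σ hq hRl hl hσ v b c hv
    obtain ⟨hp0, hp1, _⟩ := hP q l0 R hq hR hRl
    have hlR : 0 < l0 - R := by linarith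
    -- coordinates
    have e1 : ∀ i, (l - σ * d i) * (Uᵀ *ᵥ v) i = (Uᵀ *ᵥ b) i + (Uᵀ *ᵥ c) i := by
      intro i
      have h1 := congrFun (congrArg (fun x => Uᵀ *ᵥ x) hv) i
      simp only [mulVec_sub, mulVec_smul, mulVec_add, Pi.sub_apply, Pi.smul_apply, Pi.add_apply,
        smul_eq_mul] at h1
      rw [hd, FF_coord U hU] at h1
      rw [← h1]
      ring
    have e2 : ∀ i, (Uᵀ *ᵥ (v - SPC_.FF U (fun i => if R < |d i| then 1 else 0) *ᵥ v)) i =
        if R < |d i| then 0 else (Uᵀ *ᵥ v) i := by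
      intro i
      rw [mulVec_sub, Pi.sub_apply, FF_coord U hU]
      split_ifs <;> simp
    have e3 : ∀ i, (Uᵀ *ᵥ (b + c)) i = (Uᵀ *ᵥ b) i + (Uᵀ *ᵥ c) i := by
      intro i
      rw [mulVec_add, Pi.add_apply]
    have hσd : ∀ i, ¬ R < |d i| → |σ * d i| ≤ R := by
      intro i hi
      rw [abs_mul]
      rcases hσ with h | h <;> rw [h] <;> simp <;> linarith
    have hpos : ∀ i, ¬ R < |d i| → l0 - R ≤ l - σ * d i := by
      intro i hi
      have := (abs_le.1 (hσd i hi)).2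
      linarith
    constructor
    · rw [dot_coord U hU', dot_coord U hU', Finset.mul_sum]
      refine Finset.sum_le_sum fun i _ => ?_
      rw [e2, e3, ← e1]
      split_ifs with h
      · rw [mul_zero, mul_zero]
        exact mul_self_nonneg _
      · have h1 := hpos i h
        have h2 : (l0 - R) ^ 2 ≤ (l - σ * d i) ^ 2 := pow_le_pow_left₀ hlR.le h1 2
        calc (l0 - R) ^ 2 * ((Uᵀ *ᵥ v) i * (Uᵀ *ᵥ v) i)
            ≤ (l - σ * d i) ^ 2 * ((Uᵀ *ᵥ v) i * (Uᵀ *ᵥ v) i) :=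
              mul_le_mul_of_nonneg_right h2 (mul_self_nonneg _)
          _ = _ := by ring
    · set s : Finset ι := Finset.univ.filter (fun i => ¬ R < |d i|) with hs
      have m1 : ∀ i ∈ s, ¬ R < |d i| := by
        intro i hi
        exact (Finset.mem_filter.1 hi).2
      have a1 : (v - SPC_.FF U (fun i => if R < |d i| then 1 else 0) *ᵥ v) ⬝ᵥ (b + c) =
          ∑ i ∈ s, 1 / (l - σ * d i) * ((Uᵀ *ᵥ b) i + (Uᵀ *ᵥ c) i) ^ 2 := by
        rw [dot_coord U hU', hs, Finset.sum_filter]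
        refine Finset.sum_congr rfl fun i _ => ?_
        rw [e2, e3]
        by_cases h : R < |d i|
        · simp [h]
        · have h1 := hpos i h
          have h2 : l - σ * d i ≠ 0 := by linarith
          rw [if_neg h, if_pos h, ← e1]
          field_simp
      have w0 : ∀ i ∈ s, 0 ≤ 1 / (l - σ * d i) := by
        intro i hi
        have h1 := hpos i (m1 i hi)
        have h2 : 0 < l - σ * d i := by linarith
        positivity
      have pb : 0 ≤ ∑ i, pol q l0 R (σ * d i) * (Uᵀ *ᵥ b) i ^ 2 :=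
        Finset.sum_nonneg fun i _ => mul_nonneg (hp0 _) (sq_nonneg _)
      have pc : 0 ≤ c ⬝ᵥ c := by
        rw [SPC_.norm_quad U hU' c]
        exact Finset.sum_nonneg fun i _ => sq_nonneg _
      rw [a1, hd, pol_quad U hU hU']
      apply mink s _ _ _ w0 _ _ (Real.sqrt_nonneg _) (by positivity)
      · rw [Real.sq_sqrt pb]
        calc ∑ i ∈ s, 1 / (l - σ * d i) * (Uᵀ *ᵥ b) i ^ 2
            ≤ ∑ i ∈ s, pol q l0 R (σ * d i) * (Uᵀ *ᵥ b) i ^ 2 := by
              refine Finset.sum_le_sum fun i hi => ?_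
              exact mul_le_mul_of_nonneg_right (hp1 _ _ (hσd i (m1 i hi)) hl) (sq_nonneg _)
          _ ≤ _ := Finset.sum_le_sum_of_subset_of_nonneg (Finset.subset_univ _)
              fun i _ _ => mul_nonneg (hp0 _) (sq_nonneg _)
      · rw [div_pow, Real.sq_sqrt pc, Real.sq_sqrt hlR.le, SPC_.norm_quad U hU' c]
        calc ∑ i ∈ s, 1 / (l - σ * d i) * (Uᵀ *ᵥ c) i ^ 2
            ≤ ∑ i ∈ s, 1 / (l0 - R) * (Uᵀ *ᵥ c) i ^ 2 := by
              refine Finset.sum_le_sum fun i hi => ?_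
              exact mul_le_mul_of_nonneg_right
                (one_div_le_one_div_of_le hlR (hpos i (m1 i hi))) (sq_nonneg _)
          _ ≤ ∑ i, 1 / (l0 - R) * (Uᵀ *ᵥ c) i ^ 2 :=
              Finset.sum_le_sum_of_subset_of_nonneg (Finset.subset_univ _)
                fun i _ _ => mul_nonneg (by positivity) (sq_nonneg _)
          _ = _ := by rw [← Finset.mul_sum]; ring

end Pool.Agent.RCG
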