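import Pool.Agent.RCG.Targets9
import Pool.Agent.RCG.PRO
import Pool.Agent.RCG.SPR

set_option autoImplicit false

/-!
# RCG: the norm of the polynomial of the adjacency matrix (PBD)
-/

namespace Pool.Agent.RCG

open Finset Matrix

namespace PBD_

/-- a bound for the quadratic form bounds the eigenvalues -/
theorem eig_le {ι : Type} [Fintype ι] [DecidableEq ι] (U : Matrix ι ι ℝ) (hU : Uᵀ * U = 1)
    (hU' : U * Uᵀ = 1) (d : ι → ℝ) (B : ℝ)
    (h : ∀ v : ι → ℝ, |v ⬝ᵥ SPC_.FF U d *ᵥ v| ≤ B * (v ⬝ᵥ v)) (i : ι) : |d i| ≤ B := by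
  have h1 := h (U *ᵥ Pi.single i 1)
  rw [SPC_.FF_quad, SPC_.norm_quad U hU', mulVec_mulVec, hU, one_mulVec] at h1
  have h2 : ∑ j, d j * (Pi.single i (1 : ℝ) : ι → ℝ) j ^ 2 = d i := by
    rw [Finset.sum_eq_single i]
    · simp
    · intro j _ hj
      simp [Pi.single_eq_of_ne hj]
    · intro hi
      exact absurd (Finset.mem_univ i) hi
  have h3 : ∑ j, (Pi.single i (1 : ℝ) : ι → ℝ) j ^ 2 = 1 := by
    rw [Finset.sum_eq_single i]
    · simp
    · intro j _ hj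
      simp [Pi.single_eq_of_ne hj]
    · intro hi
      exact absurd (Finset.mem_univ i) hi
  rw [h2, h3, mul_one] at h1
  exact h1

end PBD_

open PRO_ PBD_ in
theorem prove_PBD (h1 : T_PNN) (h2 : T_ADM) : T_PBD := by
  classical
  intro G _ _ d q y R l0 B σ hq hR hRl hB hσ hQB f hf
  obtain ⟨hadj, hherm, -, hone, -, -⟩ := h2 G d
  set N : ℝ := (Fintype.card G : ℝ) with hN
  have hNpos : 0 < N := by
    rw [hN]
    exact_mod_cast Fintype.card_pos
  set u : G → ℝ := fun _ => (1 : ℝ) with hu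
  set A : Matrix G G ℝ := adM y with hA
  set M : Matrix G G ℝ := A - (2 * (d : ℝ)) • Jm G with hM
  have hAh : A.IsHermitian := hherm y
  have hMh : M.IsHermitian := by
    have h3 : ((2 * (d : ℝ)) • Jm G).IsHermitian := by
      ext i j
      simp [Jm]
    exact hAh.sub h3
  have hAu : A *ᵥ u = fun _ => 2 * (d : ℝ) := hone y
  have hMv : ∀ f : G → ℝ, M *ᵥ f = A *ᵥ f - (2 * (d : ℝ)) • fun _ : G => N⁻¹ * ∑ x, f x := by
    intro f
    rw [hM, Matrix.sub_mulVec, Matrix.smul_mulVec, Jm_mulVec]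
  have hMu : M *ᵥ u = 0 := by
    rw [hMv, hAu]
    funext x
    simp only [hu, Pi.sub_apply, Pi.smul_apply, smul_eq_mul, Finset.sum_const, Finset.card_univ,
      nsmul_eq_mul, mul_one, Pi.zero_apply]
    rw [← hN, inv_mul_cancel₀ hNpos.ne']
    ring
  have hMf : ∀ f : G → ℝ, ∑ x, f x = 0 → M *ᵥ f = A *ᵥ f := by
    intro f hf
    rw [hMv, hf, mul_zero]
    funext x
    simp
  have hAsum : ∀ f : G → ℝ, ∑ x, f x = 0 → ∑ x, (A *ᵥ f) x = 0 := by
    intro f hf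
    have h3 : u ⬝ᵥ A *ᵥ f = ∑ x, (A *ᵥ f) x := by
      simp [hu, dotProduct]
    rw [← h3, herm_dot hAh, hAu]
    simp only [dotProduct]
    rw [← Finset.mul_sum, hf, mul_zero]
  have hpow : ∀ k : ℕ, ∀ f : G → ℝ, ∑ x, f x = 0 →
      (M ^ k) *ᵥ f = (A ^ k) *ᵥ f ∧ ∑ x, ((A ^ k) *ᵥ f) x = 0 := by
    intro k
    induction k with
    | zero =>
      intro f hf
      simp [hf]
    | succ k ih =>
      intro f hf
      obtain ⟨h3, h4⟩ := ih f hf
      rw [pow_succ', pow_succ', ← Matrix.mulVec_mulVec, ← Matrix.mulVec_mulVec, h3]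
      exact ⟨hMf _ h4, hAsum _ h4⟩
  -- the quadratic form of `M`
  have hform : ∀ v : G → ℝ, |v ⬝ᵥ M *ᵥ v| ≤ B * (v ⬝ᵥ v) := by
    intro v
    obtain ⟨c, hc⟩ : ∃ c : ℝ, c = N⁻¹ * ∑ x, v x := ⟨_, rfl⟩
    obtain ⟨g, hg⟩ : ∃ g : G → ℝ, g = v - c • u := ⟨_, rfl⟩
    have hgs : ∑ x, g x = 0 := by
      rw [hg]
      simp only [hu, Pi.sub_apply, Pi.smul_apply, smul_eq_mul, mul_one, Finset.sum_sub_distrib,
        Finset.sum_const, Finset.card_univ, nsmul_eq_mul]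
      rw [← hN, hc, ← mul_assoc, mul_inv_cancel₀ hNpos.ne']
      ring
    have hv : v = g + c • u := by
      rw [hg]
      abel
    have hug : u ⬝ᵥ g = 0 := by
      simp only [dotProduct, hu, one_mul]
      exact hgs
    have hgu : g ⬝ᵥ u = 0 := by rw [dotProduct_comm]; exact hug
    have huu : 0 ≤ u ⬝ᵥ u := by
      simp only [dotProduct, hu]
      exact Finset.sum_nonneg fun _ _ => by norm_num
    have e1 : v ⬝ᵥ M *ᵥ v = g ⬝ᵥ A *ᵥ g := by
      have e2 : M *ᵥ v = A *ᵥ g := by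
        rw [hv, Matrix.mulVec_add, Matrix.mulVec_smul, hMu, smul_zero, add_zero, hMf g hgs]
      have e3 : u ⬝ᵥ A *ᵥ g = 0 := by
        have h3 : u ⬝ᵥ A *ᵥ g = ∑ x, (A *ᵥ g) x := by
          simp [hu, dotProduct]
        rw [h3, hAsum g hgs]
      rw [e2]
      nth_rw 1 [hv]
      rw [add_dotProduct, smul_dotProduct, e3, smul_zero, add_zero]
    have e4 : v ⬝ᵥ v = g ⬝ᵥ g + c ^ 2 * (u ⬝ᵥ u) := by
      rw [hv, add_dotProduct, dotProduct_add, dotProduct_add, smul_dotProduct, smul_dotProduct,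
        dotProduct_smul, dotProduct_smul, hug, hgu]
      simp only [smul_eq_mul, mul_zero, zero_add, add_zero]
      ring
    have e5 : |g ⬝ᵥ A *ᵥ g| ≤ B * (g ⬝ᵥ g) := by
      have h3 := hQB g hgs
      have h4 : g ⬝ᵥ A *ᵥ g = ∑ x, g x * adj y g x := by
        rw [hadj]
        rfl
      have h5 : g ⬝ᵥ g = ∑ x, g x ^ 2 := by
        simp only [dotProduct]
        exact Finset.sum_congr rfl fun x _ => by ring
      rw [h4, h5]
      exact h3
    rw [e1, e4]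
    have h6 : 0 ≤ B * (c ^ 2 * (u ⬝ᵥ u)) := by positivity
    linarith
  obtain ⟨U, e, hU, hU', he⟩ := SPC_.diag M hMh
  have heig : ∀ i, |e i| ≤ B := PBD_.eig_le U hU hU' e B (by
    intro v
    have h3 := hform v
    rw [he] at h3
    exact h3)
  have hq1 : f ⬝ᵥ polM y q (fun m => cf q l0 R m * σ ^ m) *ᵥ f =
      ∑ i, pol q l0 R (σ * e i) * (Uᵀ *ᵥ f) i ^ 2 := by
    rw [← SPR_.pol_quad U hU hU' e q l0 R σ f]
    unfold polM
    rw [Matrix.sum_mulVec, dotProduct_sum, Matrix.sum_mulVec, dotProduct_sum]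
    refine Finset.sum_congr rfl fun m _ => ?_
    rw [Matrix.smul_mulVec, Matrix.smul_mulVec, ← he, (hpow m f hf).1]
    rfl
  obtain ⟨hp0, -, hp2⟩ := h1 q l0 R hq hR hRl
  rw [hq1]
  constructor
  · exact Finset.sum_nonneg fun i _ => mul_nonneg (hp0 _) (sq_nonneg _)
  · rw [SPC_.norm_quad U hU' f, Finset.mul_sum]
    refine Finset.sum_le_sum fun i _ => mul_le_mul_of_nonneg_right (hp2 _ _ ?_) (sq_nonneg _)
    rw [abs_mul]
    have h3 : |σ| = 1 := by
      rcases hσ with rfl | rfl <;> simp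
    rw [h3, one_mul]
    exact heig i

end Pool.Agent.RCG
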