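import Pool.Agent.RCG.Targets9

set_option autoImplicit false

/-!
# RCG: PNN, the scalar polynomial inequality
-/

namespace Pool.Agent.RCG

open Finset Matrix

namespace PNN_

theorem cf_nonneg {q : ℕ} {l0 R : ℝ} (hR : 0 < R) (h : R < l0) (m : ℕ) : 0 ≤ cf q l0 R m := by
  have h1 : 0 < l0 - R := by linarith
  have h2 : 0 < l0 := by linarith
  unfold cf
  split_ifs <;> positivity

theorem geo {l0 x : ℝ} (hl : 0 < l0) (q : ℕ) :
    (∑ m ∈ range q, 1 / l0 ^ (m + 1) * x ^ m) * (l0 - x) = 1 - x ^ q / l0 ^ q := by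
  induction q with
  | zero => simp
  | succ q ih =>
    rw [sum_range_succ, add_mul, ih]
    field_simp
    ring

theorem pol_eq (q : ℕ) (l0 R x : ℝ) : pol q l0 R x =
    ∑ m ∈ range q, 1 / l0 ^ (m + 1) * x ^ m + 1 / (l0 ^ q * (l0 - R)) * x ^ q := by
  unfold pol
  rw [sum_range_succ]
  congr 1
  · refine sum_congr rfl fun m hm => ?_
    unfold cf
    rw [if_pos (mem_range.1 hm)]
  · unfold cf
    rw [if_neg (lt_irrefl q)]

theorem key {q : ℕ} {l0 R x : ℝ} (hq : Even q) (hR : 0 < R) (h : R < l0) (hx : x ≤ R) :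
    1 / (l0 - x) ≤ pol q l0 R x := by
  have h1 : 0 < l0 - R := by linarith
  have h2 : 0 < l0 := by linarith
  have h3 : 0 < l0 - x := by linarith
  rw [div_le_iff₀ h3, pol_eq, add_mul, geo h2]
  have h4 : 0 ≤ x ^ q := hq.pow_nonneg x
  have h5 : x ^ q / l0 ^ q ≤ 1 / (l0 ^ q * (l0 - R)) * x ^ q * (l0 - x) := by
    have h6 : 1 / (l0 ^ q * (l0 - R)) * x ^ q * (l0 - x) =
        x ^ q / l0 ^ q * ((l0 - x) / (l0 - R)) := by
      field_simp
    rw [h6]
    refine le_mul_of_one_le_right (by positivity) ?_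
    rw [one_le_div h1]
    linarith
  linarith

end PNN_

open PNN_ in
theorem prove_PNN : T_PNN := by
  intro q l0 R hq hR h
  refine ⟨fun x => ?_, fun x l hx hl => ?_, fun x B hx => ?_⟩
  · rcases le_total x R with hx | hx
    · have h1 : 0 < l0 - x := by linarith
      exact le_trans (by positivity) (key hq hR h hx)
    · unfold pol
      exact sum_nonneg fun m _ => mul_nonneg (cf_nonneg hR h m) (pow_nonneg (hR.le.trans hx) m)
  · have h1 : x ≤ R := (le_abs_self x).trans hx
    refine le_trans ?_ (key hq hR h h1)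
    exact one_div_le_one_div_of_le (by linarith) (by linarith)
  · unfold pol
    refine sum_le_sum fun m _ => mul_le_mul_of_nonneg_left ?_ (cf_nonneg hR h m)
    calc x ^ m ≤ |x ^ m| := le_abs_self _
      _ = |x| ^ m := abs_pow x m
      _ ≤ B ^ m := pow_le_pow_left₀ (abs_nonneg x) hx m

end Pool.Agent.RCG
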