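import Pool.Agent.RCG.Targets9
import Pool.Agent.RCG.PRO

set_option autoImplicit false

/-!
# RCG: the spectral projection of the adjacency matrix, group level (PR9)
-/

namespace Pool.Agent.RCG

open Finset Matrix

namespace PR9_

set_option linter.unusedSectionVars false

open PRO_ (Jm Jm_mulVec Jm_herm herm_dot Rm_T Rm_mulVec Rm_dot Rm_sum)

variable {G : Type} [Group G] [Fintype G]

open Classical in
/-- the matrix of a left translation -/
noncomputable def Lm (g : G) : Matrix G G ℝ := Matrix.of fun x z => if z = g * x then (1 : ℝ) else 0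

theorem Lm_mul (g : G) (M : Matrix G G ℝ) (x z : G) : (Lm g * M) x z = M (g * x) z := by
  classical
  simp [Lm, Matrix.mul_apply]

theorem mul_Lm (g : G) (M : Matrix G G ℝ) (x z : G) : (M * Lm g) x z = M x (g⁻¹ * z) := by
  classical
  have h : ∀ w : G, (z = g * w) ↔ (w = g⁻¹ * z) := fun w => by
    rw [eq_inv_mul_iff_mul_eq]
    exact eq_comm
  simp [Lm, Matrix.mul_apply, h]

theorem comm_of_inv {M : Matrix G G ℝ} (h : LI M) (g : G) : Lm g * M = M * Lm g := by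
  ext x z
  rw [Lm_mul, mul_Lm]
  have := h g x (g⁻¹ * z)
  rwa [mul_inv_cancel_left] at this

theorem inv_of_comm {M : Matrix G G ℝ} (h : ∀ g : G, Lm g * M = M * Lm g) : LI M := by
  intro g x z
  have h1 := congrFun (congrFun (h g) x) (g * z)
  rw [Lm_mul, mul_Lm, inv_mul_cancel_left] at h1
  exact h1

theorem adM_inv {d : ℕ} (y : Fin d → G) : LI (adM y) := by
  classical
  intro g x z
  have h : ∀ a : G, (g * z = g * x * a) ↔ (z = x * a) := fun a => by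
    rw [mul_assoc, mul_right_inj]
  simp only [adM, Matrix.of_apply]
  refine Finset.sum_congr rfl fun i _ => ?_
  exact congrArg₂ (· + ·) (if_congr (h (y i)) rfl rfl) (if_congr (h (y i)⁻¹) rfl rfl)

end PR9_

open PRO_ PR9_ in
theorem prove_PR9 (h1 : T_SPR) (h2 : T_ADM) : T_PR9 := by
  classical
  intro G _ _ d n y R c hR hn hn2 hNB
  obtain ⟨hadj, hherm, -, hone, -, -⟩ := h2 G d
  set N : ℝ := (Fintype.card G : ℝ) with hN
  have hNpos : 0 < N := by
    rw [hN]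
    exact_mod_cast Fintype.card_pos
  set u : G → ℝ := fun _ => (1 : ℝ) with hu
  set A : Matrix G G ℝ := adM y with hA
  set M : Matrix G G ℝ := A - (2 * (d : ℝ)) • Jm G with hM
  have hAh : A.IsHermitian := hherm y
  have hMh : M.IsHermitian := by
    have h3 : ((2 * (d : ℝ)) • Jm G).IsHermitian := by
      ext i j
      simp [Jm]
    exact hAh.sub h3
  have hMinv : LI M := by
    intro g x z
    have h3 := adM_inv y g x z
    rw [hM, hA, Matrix.sub_apply, Matrix.sub_apply, h3]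
    simp [Jm]
  have hAu : A *ᵥ u = fun _ => 2 * (d : ℝ) := hone y
  have hMv : ∀ f : G → ℝ, M *ᵥ f = A *ᵥ f - (2 * (d : ℝ)) • fun _ : G => N⁻¹ * ∑ x, f x := by
    intro f
    rw [hM, Matrix.sub_mulVec, Matrix.smul_mulVec, Jm_mulVec]
  have hMu : M *ᵥ u = 0 := by
    rw [hMv, hAu]
    funext x
    simp only [hu, Pi.sub_apply, Pi.smul_apply, smul_eq_mul, Finset.sum_const, Finset.card_univ,
      nsmul_eq_mul, mul_one, Pi.zero_apply]
    rw [← hN, inv_mul_cancel₀ hNpos.ne']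
    ring
  have hMf : ∀ f : G → ℝ, ∑ x, f x = 0 → M *ᵥ f = A *ᵥ f := by
    intro f hf
    rw [hMv, hf, mul_zero]
    funext x
    simp
  have hAsum : ∀ f : G → ℝ, ∑ x, f x = 0 → ∑ x, (A *ᵥ f) x = 0 := by
    intro f hf
    have h3 : u ⬝ᵥ A *ᵥ f = ∑ x, (A *ᵥ f) x := by
      simp [hu, dotProduct]
    rw [← h3, herm_dot hAh, hAu]
    simp only [dotProduct]
    rw [← Finset.mul_sum, hf, mul_zero]
  have hpow : ∀ k : ℕ, ∀ f : G → ℝ, ∑ x, f x = 0 →
      (M ^ k) *ᵥ f = (A ^ k) *ᵥ f ∧ ∑ x, ((A ^ k) *ᵥ f) x = 0 := by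
    intro k
    induction k with
    | zero =>
      intro f hf
      simp [hf]
    | succ k ih =>
      intro f hf
      obtain ⟨h3, h4⟩ := ih f hf
      rw [pow_succ', pow_succ', ← Matrix.mulVec_mulVec, ← Matrix.mulVec_mulVec, h3]
      exact ⟨hMf _ h4, hAsum _ h4⟩
  have hMpu : (M ^ n) *ᵥ u = 0 := by
    obtain ⟨k, rfl⟩ : ∃ k, n = k + 1 := ⟨n - 1, by omega⟩
    rw [pow_succ, ← Matrix.mulVec_mulVec, hMu, Matrix.mulVec_zero]
  obtain ⟨Q, hQh, hQQ, hQc, hQ1, hQ2⟩ := h1 G M R hMh hR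
  have hQu : Q *ᵥ u = 0 := by
    have h3 : (Q *ᵥ u) ⬝ᵥ (Q *ᵥ u) = u ⬝ᵥ Q *ᵥ u := by
      rw [← herm_dot hQh, Matrix.mulVec_mulVec, hQQ]
    have h4 := hQ1 n hn u
    rw [hMpu, dotProduct_zero, mul_zero, ← h3] at h4
    have h5 : 0 ≤ (Q *ᵥ u) ⬝ᵥ (Q *ᵥ u) := by
      simp only [dotProduct]
      exact Finset.sum_nonneg fun i _ => mul_self_nonneg _
    exact dotProduct_self_eq_zero.1 (le_antisymm h4 h5)
  refine ⟨Q, ⟨hQh, hQQ, hQu⟩, ?_, ?_, ?_⟩
  · exact inv_of_comm fun g => hQc _ (comm_of_inv hMinv g)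
  · intro f hf
    have h3 : ∀ h : G, f ⬝ᵥ (Rm h * Q * Rm h⁻¹) *ᵥ f ≤
        (R ^ n)⁻¹ * (f ⬝ᵥ (Rm h * pwM y n * Rm h⁻¹) *ᵥ f) := by
      intro h
      rw [Rm_dot, Rm_dot]
      refine (hQ1 n hn _).trans (le_of_eq ?_)
      rw [(hpow n _ (Rm_sum h⁻¹ f hf)).1]
      rfl
    calc ∑ h : G, f ⬝ᵥ (Rm h * Q * Rm h⁻¹) *ᵥ f
        ≤ ∑ h : G, (R ^ n)⁻¹ * (f ⬝ᵥ (Rm h * pwM y n * Rm h⁻¹) *ᵥ f) :=
          Finset.sum_le_sum fun h _ => h3 h
      _ = (R ^ n)⁻¹ * ∑ h : G, (f ⬝ᵥ (Rm h * pwM y n * Rm h⁻¹) *ᵥ f) := by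
          rw [Finset.mul_sum]
      _ ≤ (R ^ n)⁻¹ * (c * N * (f ⬝ᵥ f)) :=
          mul_le_mul_of_nonneg_left (hNB f hf) (inv_nonneg.2 (pow_nonneg hR.le n))
      _ = c / R ^ n * N * (f ⬝ᵥ f) := by
          rw [div_eq_mul_inv]
          ring
  · intro q l0 l σ hq hl0 hl hσ v b c' hv hb hc' heq
    have h3 : l • v - σ • (M *ᵥ v) = b + c' := by
      rw [hMf v hv]
      exact heq
    obtain ⟨h4, h5⟩ := hQ2 q l0 l σ hq hl0 hl hσ v b c' h3
    refine ⟨h4, ?_⟩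
    have e : (∑ m ∈ range (q + 1), (cf q l0 R m * σ ^ m) • M ^ m) *ᵥ b =
        polM y q (fun m => cf q l0 R m * σ ^ m) *ᵥ b := by
      unfold polM
      rw [Matrix.sum_mulVec, Matrix.sum_mulVec]
      refine Finset.sum_congr rfl fun m _ => ?_
      rw [Matrix.smul_mulVec, Matrix.smul_mulVec, (hpow m b hb).1]
      rfl
    rw [e] at h5
    exact h5


end Pool.Agent.RCG
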