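import Pool.Agent.RCG.Targets8
import Pool.Agent.RCG.PRO

set_option autoImplicit false

/-!
# RCG: QRB, the basic second moment (helper67)
-/

namespace Pool.Agent.RCG

open Finset Matrix

namespace QRB_

set_option linter.unusedSectionVars false

open PRO_

variable {G : Type} [Group G] [Fintype G]

theorem proj_dot {Q : Matrix G G ℝ} (hQ : Pj Q) (v : G → ℝ) :
    (Q *ᵥ v) ⬝ᵥ (Q *ᵥ v) = v ⬝ᵥ Q *ᵥ v := by
  rw [← herm_dot hQ.1, Matrix.mulVec_mulVec, hQ.2.1]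

theorem dot_nonneg (v : G → ℝ) : 0 ≤ v ⬝ᵥ v :=
  Finset.sum_nonneg fun x _ => mul_self_nonneg (v x)

theorem proj_le {Q : Matrix G G ℝ} (hQ : Pj Q) (v : G → ℝ) : v ⬝ᵥ Q *ᵥ v ≤ v ⬝ᵥ v := by
  have h := dot_nonneg (v - Q *ᵥ v)
  rw [sub_dotProduct, dotProduct_sub, dotProduct_sub, proj_dot hQ, dotProduct_comm (Q *ᵥ v) v] at h
  linarith

theorem Rm_norm (h : G) (u : G → ℝ) : (Rm h *ᵥ u) ⬝ᵥ (Rm h *ᵥ u) = u ⬝ᵥ u := by
  rw [Rm_mulVec]
  exact Fintype.sum_equiv (Equiv.mulRight h) _ _ fun x => rfl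

/-- the mean -/
noncomputable def mn (u : G → ℝ) : ℝ := (Fintype.card G : ℝ)⁻¹ * ∑ x, u x

/-- the function minus its mean -/
noncomputable def cen (u : G → ℝ) : G → ℝ := fun x => u x - mn u

theorem card_pos' : 0 < (Fintype.card G : ℝ) := by
  exact_mod_cast Fintype.card_pos

theorem sum_cen (u : G → ℝ) : ∑ x, cen u x = 0 := by
  unfold cen mn
  rw [Finset.sum_sub_distrib, Finset.sum_const, Finset.card_univ, nsmul_eq_mul,
    mul_inv_cancel_left₀ (card_pos' (G := G)).ne', sub_self]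

theorem cen_le (u : G → ℝ) : cen u ⬝ᵥ cen u ≤ u ⬝ᵥ u := by
  have h1 : u ⬝ᵥ u = cen u ⬝ᵥ cen u + ∑ _x : G, mn u * mn u := by
    simp only [dotProduct]
    have h2 : ∀ x, u x * u x = cen u x * cen u x + mn u * mn u + 2 * mn u * cen u x := by
      intro x
      unfold cen
      ring
    have h3 : ∑ x, 2 * mn u * cen u x = 0 := by
      rw [← Finset.mul_sum, sum_cen, mul_zero]
    rw [Finset.sum_congr rfl fun x _ => h2 x, Finset.sum_add_distrib, Finset.sum_add_distrib,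
      h3, add_zero]
  rw [h1]
  have : 0 ≤ ∑ _x : G, mn u * mn u := Finset.sum_nonneg fun _ _ => mul_self_nonneg _
  linarith

theorem Q_cen {Q : Matrix G G ℝ} (hQ : Pj Q) (h : G) (u : G → ℝ) :
    Q *ᵥ (Rm h *ᵥ u) = Q *ᵥ (Rm h *ᵥ cen u) := by
  have h1 : Rm h *ᵥ u = Rm h *ᵥ cen u + mn u • fun _ => (1 : ℝ) := by
    rw [Rm_mulVec, Rm_mulVec]
    funext x
    simp [cen]
  rw [h1, Matrix.mulVec_add, Matrix.mulVec_smul, hQ.2.2, smul_zero, add_zero]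

theorem qR_cen {Q : Matrix G G ℝ} (hQ : Pj Q) (h : G) (u : G → ℝ) :
    qR Q h u = qR Q h (cen u) := by
  unfold qR
  rw [← proj_dot hQ, ← proj_dot hQ, Q_cen hQ]

theorem sum_qR {Q : Matrix G G ℝ} {ν : ℝ} (hQ : Pj Q) (hν : 0 ≤ ν) (hNB : NB Q ν)
    (u : G → ℝ) : ∑ h : G, qR Q h⁻¹ u ≤ ν * Fintype.card G * (u ⬝ᵥ u) := by
  calc ∑ h : G, qR Q h⁻¹ u = ∑ h : G, cen u ⬝ᵥ (Rm h * Q * Rm h⁻¹) *ᵥ cen u := by
        refine Finset.sum_congr rfl fun h _ => ?_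
        rw [qR_cen hQ, Rm_dot]
        rfl
    _ ≤ ν * Fintype.card G * (cen u ⬝ᵥ cen u) := hNB _ (sum_cen u)
    _ ≤ _ := mul_le_mul_of_nonneg_left (cen_le u) (mul_nonneg hν (card_pos' (G := G)).le)

end QRB_

open QRB_ PRO_ in
theorem prove_QRB : T_QRB := by
  intro G _ _ Q ν hQ hν hNB u
  have key := sum_qR hQ hν hNB u
  refine ⟨fun x => ⟨?_, ?_, ?_⟩, fun g => ⟨?_, ?_⟩⟩
  · unfold qR
    rw [← proj_dot hQ]
    exact dot_nonneg _
  · unfold qR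
    refine (proj_le hQ _).trans (le_of_eq (Rm_norm x u))
  · unfold qR
    exact proj_dot hQ _
  · refine le_trans (le_of_eq ?_) key
    exact Fintype.sum_equiv ((Equiv.mulLeft g).trans (Equiv.inv G)) _ _ fun h => by
      simp
  · refine le_trans (le_of_eq ?_) key
    exact Fintype.sum_equiv ((Equiv.inv G).trans ((Equiv.mulLeft g).trans (Equiv.inv G))) _ _
      fun h => by simp

end Pool.Agent.RCG
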