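import Pool.Agent.RCG.Targets8

set_option autoImplicit false

/-!
# RCG8-RCN: the second moment for a conjugacy class of `SL (2, p)`
-/

namespace Pool.Agent.RCG

open Finset Matrix

namespace RCN_

lemma card_E (p : ℕ) [Fact p.Prime] (E : Finset (SL 2 p))
    (hE : ∀ x ∈ E, (x : Matrix (Fin 2) (Fin 2) (ZMod p)) = 1 ∨
      (x : Matrix (Fin 2) (Fin 2) (ZMod p)) = -1) : E.card ≤ 2 := by
  classical
  have h1 : E.card ≤ ({1, -1} : Finset (Matrix (Fin 2) (Fin 2) (ZMod p))).card := by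
    refine Finset.card_le_card_of_injOn
      (fun x : SL 2 p => (x : Matrix (Fin 2) (Fin 2) (ZMod p))) ?_ ?_
    · intro x hx
      have := hE x hx
      simp only [Finset.coe_insert, Finset.coe_singleton, Set.mem_insert_iff,
        Set.mem_singleton_iff]
      exact this
    · intro x _ y _ hxy
      exact Subtype.ext hxy
  exact h1.trans Finset.card_le_two

lemma arith (p G c ν : ℝ) (hp : 19 ≤ p) (hG : 0 < G) (hc : c ≤ 2) (hν : 0 ≤ ν) :
    ν * (9 + 2 * p * G * c / ((p - 1) / 2 * G)) ≤ 18 * ν := by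
  have hp1 : 0 < p - 1 := by linarith
  have h1 : 2 * p * G * c / ((p - 1) / 2 * G) = 4 * p * c / (p - 1) := by
    field_simp
    ring
  rw [h1]
  have h2 : 4 * p * c / (p - 1) ≤ 9 := by
    rw [div_le_iff₀ hp1]
    nlinarith
  nlinarith

end RCN_

theorem prove_RCN (h1 : T_RCG) (h2 : T_CLC) (h3 : T_CRD) (h4 : T_DIM2) : T_RCN := by
  classical
  intro p _ hp Q ν hQ hLI hν hNB g hg1 hg2 u
  have hpR : (19 : ℝ) ≤ p := by exact_mod_cast hp
  have hcard := h3 p
  have hcardR : (Fintype.card (SL 2 p) : ℝ) + p = (p : ℝ) ^ 3 := by exact_mod_cast hcard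
  have hGpos : (0 : ℝ) < Fintype.card (SL 2 p) := by
    have : (0 : ℕ) < Fintype.card (SL 2 p) := Fintype.card_pos
    exact_mod_cast this
  set E : Finset (SL 2 p) := Finset.univ.filter (fun x : SL 2 p =>
    (x : Matrix (Fin 2) (Fin 2) (ZMod p)) = 1 ∨
      (x : Matrix (Fin 2) (Fin 2) (ZMod p)) = -1) with hE
  have hEc : E.card ≤ 2 := by
    refine RCN_.card_E p E (fun x hx => ?_)
    rw [hE, Finset.mem_filter] at hx
    exact hx.2
  have hEcR : (E.card : ℝ) ≤ 2 := by exact_mod_cast hEc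
  have hD : (0 : ℝ) < ((p : ℝ) - 1) / 2 := by linarith
  have hmain := h1 (SL 2 p) (((p : ℝ) - 1) / 2) 9 (2 * p * Fintype.card (SL 2 p)) ν Q hD
    (h4 p (by omega)) (by norm_num) (by positivity) hQ hLI hν hNB g E
    (by
      intro x hx
      have hx' : (x : Matrix (Fin 2) (Fin 2) (ZMod p)) ≠ 1 ∧
          (x : Matrix (Fin 2) (Fin 2) (ZMod p)) ≠ -1 := by
        rw [hE, Finset.mem_filter] at hx
        refine ⟨fun h => hx ⟨Finset.mem_univ _, Or.inl h⟩,
          fun h => hx ⟨Finset.mem_univ _, Or.inr h⟩⟩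
      have h := (h2 p g hg1 hg2 x).1 hx'.1 hx'.2
      have hR : (Nat.card {hh : SL 2 p × SL 2 p //
          (hh.2 * g * hh.2⁻¹)⁻¹ * (hh.1 * g * hh.1⁻¹) = x} : ℝ) ≤ 8 * (p : ℝ) ^ 3 := by
        exact_mod_cast h
      refine hR.trans ?_
      have h5 : (9 : ℝ) * p ≤ (p : ℝ) ^ 3 := by
        have h6 : (9 : ℝ) ≤ (p : ℝ) ^ 2 := by nlinarith
        calc (9 : ℝ) * p ≤ (p : ℝ) ^ 2 * p := mul_le_mul_of_nonneg_right h6 (by linarith)
          _ = (p : ℝ) ^ 3 := by ring
      linarith)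
    (by
      intro x
      have h := (h2 p g hg1 hg2 x).2
      exact_mod_cast h)
    u
  refine hmain.trans ?_
  have hu : 0 ≤ u ⬝ᵥ u := by
    simp only [dotProduct]
    exact Finset.sum_nonneg fun i _ => mul_self_nonneg _
  have hs := Real.sqrt_le_sqrt (RCN_.arith (p : ℝ) (Fintype.card (SL 2 p)) E.card ν hpR hGpos
    hEcR hν)
  have hGn : (0 : ℝ) ≤ Fintype.card (SL 2 p) := hGpos.le
  exact mul_le_mul_of_nonneg_right (mul_le_mul_of_nonneg_right hs hGn) hu

end Pool.Agent.RCG
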