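import Pool.Agent.RCG.Targets7
import Pool.Agent.RCG.ADM
import Pool.Agent.RCG.AWS

set_option autoImplicit false

/-!
# SEQ: the main lemma, sequential argument
-/

namespace Pool.Agent.RCG

open Finset Matrix

namespace SEQ_

lemma dot_herm {ι : Type} [Fintype ι] {A : Matrix ι ι ℝ} (hA : A.IsHermitian) (u v : ι → ℝ) :
    u ⬝ᵥ A *ᵥ v = (A *ᵥ u) ⬝ᵥ v := by
  have h : Aᵀ = A := by
    have := hA.eq
    rwa [Matrix.conjTranspose_eq_transpose_of_trivial] at this
  rw [Matrix.dotProduct_mulVec, ← Matrix.mulVec_transpose, h]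

lemma quad_le {ι : Type} [Fintype ι] {R : Matrix ι ι ℝ} (hR : R.IsHermitian) (v : ι → ℝ) :
    v ⬝ᵥ (R * R) *ᵥ v ≤ (R * R).trace * (v ⬝ᵥ v) := by
  have hs : ∀ i j, R i j = R j i := by
    intro i j
    have := hR.apply i j
    simpa using this.symm
  rw [← Matrix.mulVec_mulVec, dot_herm hR]
  have h1 : (R * R).trace = ∑ i, ∑ j, R i j ^ 2 := by
    refine Finset.sum_congr rfl fun i _ => ?_
    rw [Matrix.diag_apply, Matrix.mul_apply]
    refine Finset.sum_congr rfl fun j _ => ?_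
    rw [hs j i]
    ring
  rw [h1, Finset.sum_mul]
  refine Finset.sum_le_sum fun i _ => ?_
  have h2 := Finset.sum_mul_sq_le_sq_mul_sq Finset.univ (fun j => R i j) v
  have h3 : (R *ᵥ v) i * (R *ᵥ v) i = (∑ j, R i j * v j) ^ 2 := by
    rw [sq]
    rfl
  have h4 : v ⬝ᵥ v = ∑ j, v j ^ 2 := by
    refine Finset.sum_congr rfl fun j _ => ?_
    ring
  rw [h3, h4]
  exact h2

lemma smul_herm {ι : Type} [Fintype ι] (c : ℝ) {A : Matrix ι ι ℝ} (hA : A.IsHermitian) :
    (c • A).IsHermitian := by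
  unfold Matrix.IsHermitian
  rw [Matrix.conjTranspose_smul, hA.eq]
  simp

lemma tr_exp_nonneg {ι : Type} [Fintype ι] [DecidableEq ι] {S : Matrix ι ι ℝ}
    (hS : S.IsHermitian) (θ : ℝ) : 0 ≤ (NormedSpace.exp (θ • S)).trace := by
  obtain ⟨R, hR, hRR⟩ := AWS_.half _ (smul_herm θ hS)
  rw [← hRR]
  have hs : ∀ i j, R i j = R j i := by
    intro i j
    have := hR.apply i j
    simpa using this.symm
  refine Finset.sum_nonneg fun i _ => ?_
  rw [Matrix.diag_apply, Matrix.mul_apply]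
  refine Finset.sum_nonneg fun j _ => ?_
  rw [hs j i]
  exact mul_self_nonneg _

variable {G : Type} [Group G] [Fintype G]

/-- all proper tails satisfy `OB` -/
def PT (Q : Matrix G G ℝ) (W : ℝ) : (j : ℕ) → (Fin j → G) → Prop
  | 0, _ => True
  | (j + 1), y => OB (Fin.tail y : Fin j → G) Q W ∧ PT Q W j (Fin.tail y)

lemma PT_cons (Q : Matrix G G ℝ) (W : ℝ) (j : ℕ) (h : G) (y : Fin j → G) :
    PT Q W (j + 1) (Fin.cons h y : Fin (j + 1) → G) ↔ OB y Q W ∧ PT Q W j y := by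
  show OB (Fin.tail (Fin.cons h y : Fin (j + 1) → G)) Q W ∧
    PT Q W j (Fin.tail (Fin.cons h y : Fin (j + 1) → G)) ↔ _
  rw [Fin.tail_cons]

/-- the compressed square -/
noncomputable def SS (Q : Matrix G G ℝ) {j : ℕ} (y : Fin j → G) : Matrix G G ℝ :=
  Q * (adM y * adM y) * Q

lemma adM_herm {j : ℕ} (y : Fin j → G) : (adM y).IsHermitian := (prove_ADM G j).2.1 y

lemma SS_herm {Q : Matrix G G ℝ} (hQ : Q.IsHermitian) {j : ℕ} (y : Fin j → G) :
    (SS Q y).IsHermitian := by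
  unfold SS Matrix.IsHermitian
  rw [Matrix.conjTranspose_mul, Matrix.conjTranspose_mul, Matrix.conjTranspose_mul,
    (adM_herm y).eq, hQ.eq, Matrix.mul_assoc, Matrix.mul_assoc, Matrix.mul_assoc]

lemma SS_quad {Q : Matrix G G ℝ} (hQ : Q.IsHermitian) {j : ℕ} (y : Fin j → G) (v : G → ℝ) :
    v ⬝ᵥ (SS Q y) *ᵥ v = (adM y *ᵥ (Q *ᵥ v)) ⬝ᵥ (adM y *ᵥ (Q *ᵥ v)) := by
  unfold SS
  rw [← Matrix.mulVec_mulVec, ← Matrix.mulVec_mulVec, dot_herm hQ, ← Matrix.mulVec_mulVec,
    dot_herm (adM_herm y)]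

open Classical in
/-- trace of the exponential -/
noncomputable def tE (Q : Matrix G G ℝ) (θ : ℝ) {j : ℕ} (y : Fin j → G) : ℝ :=
  (NormedSpace.exp (θ • SS Q y)).trace

open Classical in
noncomputable def EE (Q : Matrix G G ℝ) (W θ : ℝ) (j : ℕ) : ℝ :=
  ∑ y : Fin j → G, if PT Q W j y then tE Q θ y else 0

open Classical in
noncomputable def BB (Q : Matrix G G ℝ) (W : ℝ) (j : ℕ) : ℝ :=
  ∑ y : Fin j → G, if OB y Q W ∧ PT Q W j y then 0 else 1

lemma tE_nonneg {Q : Matrix G G ℝ} (hQ : Q.IsHermitian) (θ : ℝ) {j : ℕ} (y : Fin j → G) :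
    0 ≤ tE Q θ y := by
  classical
  exact tr_exp_nonneg (SS_herm hQ y) θ

/-- a bad tuple has a large trace -/
lemma tE_bad (h3 : T_SPE) {Q : Matrix G G ℝ} (hQ : Q.IsHermitian) {W θ : ℝ}
    (hθ : 0 ≤ θ) {j : ℕ} (y : Fin j → G) (hy : ¬ OB y Q W) :
    Real.exp (θ * W) ≤ tE Q θ y := by
  classical
  unfold OB at hy
  push Not at hy
  obtain ⟨v, hv⟩ := hy
  rw [← SS_quad hQ] at hv
  have hvv : 0 ≤ v ⬝ᵥ v := Finset.sum_nonneg fun i _ => mul_self_nonneg _
  have hvpos : 0 < v ⬝ᵥ v := by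
    rcases hvv.lt_or_eq with h | h
    · exact h
    · exfalso
      have h0 : v = 0 := by
        rw [eq_comm, dotProduct_self_eq_zero] at h
        exact h
      rw [h0] at hv
      simp at hv
  have h4 := (h3 G (SS Q y) θ W (SS_herm hQ y) hθ).2.1 v hv.le
  obtain ⟨R, hR, hRR⟩ := AWS_.half _ (smul_herm θ (SS_herm hQ y))
  have h5 := quad_le hR v
  rw [hRR] at h5
  have h6 := h4.trans h5
  exact le_of_mul_le_mul_right h6 hvpos

lemma EE_zero (Q : Matrix G G ℝ) (W θ : ℝ) : EE Q W θ 0 = Fintype.card G := by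
  classical
  unfold EE tE
  have h0 : ∀ y : Fin 0 → G, SS Q y = 0 := by
    intro y
    have : adM y = 0 := by
      unfold adM
      ext x z
      simp
    unfold SS
    rw [this]
    simp
  simp [PT, h0, Matrix.trace_one]

lemma BB_zero (Q : Matrix G G ℝ) {W : ℝ} (hW : 0 < W) : BB Q W 0 = 0 := by
  classical
  unfold BB
  refine Finset.sum_eq_zero fun y _ => ?_
  rw [if_pos]
  refine ⟨fun v => ?_, trivial⟩
  have : adM y = 0 := by
    unfold adM
    ext x z
    simp
  rw [this]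
  have hvv : 0 ≤ v ⬝ᵥ v := Finset.sum_nonneg fun i _ => mul_self_nonneg _
  simp only [Matrix.zero_mulVec, dotProduct_zero]
  positivity

omit [Group G] in
lemma sum_cons {j : ℕ} (F : (Fin (j + 1) → G) → ℝ) :
    ∑ z : Fin (j + 1) → G, F z = ∑ y : Fin j → G, ∑ h : G, F (Fin.cons h y) := by
  rw [← Fintype.sum_prod_type_right (f := fun p : G × (Fin j → G) => F (Fin.cons p.1 p.2))]
  exact (Fintype.sum_equiv (Fin.consEquiv fun _ => G) _ _ fun p => rfl).symm

lemma EE_succ (h1 : T_STZ) (h2 : T_ZED) {Q : Matrix G G ℝ} {ν W θ : ℝ} (hQ : Pj Q)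
    (hν : 0 ≤ ν) (hN : NB Q ν) (hW : 0 < W) (hθ : 0 ≤ θ) (j : ℕ) :
    EE Q W θ (j + 1) ≤ Fintype.card G * Real.exp (θ * 4) *
      (1 + Real.exp (θ * (4 * √W)) / (4 * √W) ^ 2 * (8 * ν * W + 32 * (j : ℝ) ^ 2 * ν)) *
      EE Q W θ j := by
  classical
  unfold EE
  rw [sum_cons, Finset.mul_sum]
  refine Finset.sum_le_sum fun y _ => ?_
  simp only [PT_cons]
  by_cases hOB : OB y Q W
  · by_cases hP : PT Q W j y
    · simp only [hOB, hP, and_self, if_true]
      obtain ⟨e1, e2, e3, e4, e5, e6⟩ := h2 G Q ν W j y hQ hν hN hW.le hOB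
      have e7 := h1 G G (SS Q y) (Zm Q y) (Hm Q) θ (4 * √W)
        (8 * ν * W + 32 * (j : ℝ) ^ 2 * ν) 4 (SS_herm hQ.1 y) (fun h => (e1 h).1)
        (fun h => (e1 h).2) hθ (by positivity) (by positivity) e2 e3 e4 e5
      unfold tE
      refine le_trans (le_of_eq ?_) e7
      refine Finset.sum_congr rfl fun h _ => ?_
      have e8 : SS Q (Fin.cons h y : Fin (j + 1) → G) = SS Q y + Zm Q y h + Hm Q h := e6 h
      rw [e8]
    · simp [hP]
  · simp only [hOB, false_and, if_false, Finset.sum_const_zero]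
    split_ifs
    · have := tE_nonneg hQ.1 θ y
      positivity
    · simp

lemma BB_succ (h3 : T_SPE) {Q : Matrix G G ℝ} (hQ : Q.IsHermitian) {W θ : ℝ}
    (hθ : 0 ≤ θ) (j : ℕ) :
    BB Q W (j + 1) ≤ Fintype.card G * BB Q W j + Real.exp (-(θ * W)) * EE Q W θ (j + 1) := by
  classical
  unfold BB EE
  have h1 : Fintype.card G * ∑ y : Fin j → G, (if OB y Q W ∧ PT Q W j y then (0 : ℝ) else 1) =
      ∑ y : Fin j → G, ∑ _h : G, (if OB y Q W ∧ PT Q W j y then (0 : ℝ) else 1) := by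
    rw [Finset.mul_sum]
    refine Finset.sum_congr rfl fun y _ => ?_
    rw [Finset.sum_const, Finset.card_univ, nsmul_eq_mul]
  rw [h1, sum_cons, sum_cons, Finset.mul_sum, ← Finset.sum_add_distrib]
  refine Finset.sum_le_sum fun y _ => ?_
  rw [Finset.mul_sum, ← Finset.sum_add_distrib]
  refine Finset.sum_le_sum fun h _ => ?_
  simp only [PT_cons]
  by_cases hA : OB y Q W ∧ PT Q W j y
  · simp only [hA, and_true, if_true, zero_add]
    split_ifs with hB
    · exact mul_nonneg (Real.exp_pos _).le (tE_nonneg hQ θ _)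
    · have h5 := tE_bad h3 hQ hθ _ hB
      calc (1 : ℝ) = Real.exp (-(θ * W)) * Real.exp (θ * W) := by
            rw [← Real.exp_add]
            simp
        _ ≤ _ := mul_le_mul_of_nonneg_left h5 (Real.exp_pos _).le
  · simp [hA]

end SEQ_

open SEQ_ in
theorem prove_SEQ (h1 : T_STZ) (h2 : T_ZED) (h3 : T_SPE) : T_SEQ := by
  classical
  intro G _ _ Q ν W θ d hQ hν hN hW hθ
  set g : ℝ := (Fintype.card G : ℝ) with hg
  have hg0 : 0 ≤ g := Nat.cast_nonneg _
  set c : ℝ := Real.exp (θ * (4 * √W)) / (16 * W) * (8 * ν * W + 32 * (d : ℝ) ^ 2 * ν) with hc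
  have hc0 : 0 ≤ c := by positivity
  set K : ℝ := Real.exp (θ * 4) * (1 + c) with hK
  have hK1 : 1 ≤ K := by
    have : 1 ≤ Real.exp (θ * 4) := Real.one_le_exp (by positivity)
    nlinarith
  have hE : ∀ j : ℕ, j ≤ d → EE Q W θ j ≤ g * (g * K) ^ j := by
    intro j
    induction j with
    | zero =>
      intro _
      rw [EE_zero, pow_zero, mul_one]
    | succ j ih =>
      intro hj
      have h4 := EE_succ h1 h2 hQ hν hN hW hθ j
      have h5 := ih (by omega)
      have hE0 : 0 ≤ EE Q W θ j := by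
        unfold EE
        refine Finset.sum_nonneg fun y _ => ?_
        split_ifs
        · exact tE_nonneg hQ.1 θ y
        · exact le_rfl
      have h6 : (4 * √W) ^ 2 = 16 * W := by
        rw [mul_pow, Real.sq_sqrt hW.le]
        norm_num
      rw [h6] at h4
      have h7 : Real.exp (θ * (4 * √W)) / (16 * W) * (8 * ν * W + 32 * (j : ℝ) ^ 2 * ν) ≤ c := by
        rw [hc]
        have hjd : (j : ℝ) ≤ d := by exact_mod_cast (by omega : j ≤ d)
        gcongr
      calc EE Q W θ (j + 1) ≤ _ := h4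
        _ ≤ g * Real.exp (θ * 4) * (1 + c) * (g * (g * K) ^ j) := by gcongr
        _ = g * (g * K) ^ (j + 1) := by rw [hK]; ring
  have hB : ∀ j : ℕ, j ≤ d → BB Q W j ≤ j * (Real.exp (-(θ * W)) * (g * (g * K) ^ j)) := by
    intro j
    induction j with
    | zero =>
      intro _
      rw [BB_zero Q hW]
      simp
    | succ j ih =>
      intro hj
      have h4 := BB_succ (W := W) h3 hQ.1 hθ j
      have h5 := ih (by omega)
      have h6 := hE (j + 1) hj
      calc BB Q W (j + 1) ≤ g * BB Q W j + Real.exp (-(θ * W)) * EE Q W θ (j + 1) := h4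
        _ ≤ g * (j * (Real.exp (-(θ * W)) * (g * (g * K) ^ j))) +
            Real.exp (-(θ * W)) * (g * (g * K) ^ (j + 1)) := by gcongr
        _ ≤ (g * K) * (j * (Real.exp (-(θ * W)) * (g * (g * K) ^ j))) +
            Real.exp (-(θ * W)) * (g * (g * K) ^ (j + 1)) := by
            have : g ≤ g * K := le_mul_of_one_le_right hg0 hK1
            gcongr
        _ = ((j + 1 : ℕ) : ℝ) * (Real.exp (-(θ * W)) * (g * (g * K) ^ (j + 1))) := by
            push_cast
            ring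
  have hcard : (Nat.card {y : Fin d → G // ¬ OB y Q W} : ℝ) ≤ BB Q W d := by
    rw [Nat.card_eq_fintype_card, Fintype.card_subtype, Finset.card_filter]
    push_cast
    unfold BB
    refine Finset.sum_le_sum fun y _ => ?_
    by_cases hy : OB y Q W
    · simp only [hy, not_true_eq_false, if_false, true_and]
      split_ifs <;> norm_num
    · simp [hy]
  refine hcard.trans ((hB d le_rfl).trans (le_of_eq ?_))
  rw [mul_pow, hK, mul_pow, ← Real.exp_nat_mul]
  have h8 : Real.exp (-(θ * (W - 4 * d))) =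
      Real.exp (-(θ * W)) * Real.exp ((d : ℝ) * (θ * 4)) := by
    rw [← Real.exp_add]
    congr 1
    ring
  rw [h8]
  ring

end Pool.Agent.RCG
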