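import Pool.Agent.RCG.Targets8
import Pool.Agent.RCG.SEQ

set_option autoImplicit false

/-!
# SBN: sequential matrix Bennett inequality
-/

namespace Pool.Agent.RCG

open Finset Matrix

namespace SBN_

open SEQ_

variable {ι Y : Type} [Fintype ι] [DecidableEq ι] [Fintype Y]

omit [Fintype Y] in
lemma AG_cons (gd : (j : ℕ) → (Fin j → Y) → Prop) (j : ℕ) (h : Y) (y : Fin j → Y) :
    AG gd (j + 1) (Fin.cons h y : Fin (j + 1) → Y) ↔ gd j y ∧ AG gd j y := by
  show gd j (Fin.tail (Fin.cons h y : Fin (j + 1) → Y)) ∧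
    AG gd j (Fin.tail (Fin.cons h y : Fin (j + 1) → Y)) ↔ _
  rw [Fin.tail_cons]

/-- a matrix which is not `<= t` has a large trace of the exponential -/
lemma bad (h3 : T_SPE) {S : Matrix ι ι ℝ} (hS : S.IsHermitian) {t θ : ℝ} (hθ : 0 ≤ θ)
    (hy : ¬ ∀ v : ι → ℝ, v ⬝ᵥ S *ᵥ v ≤ t * (v ⬝ᵥ v)) :
    Real.exp (θ * t) ≤ (NormedSpace.exp (θ • S)).trace := by
  push Not at hy
  obtain ⟨v, hv⟩ := hy
  have hvv : 0 ≤ v ⬝ᵥ v := Finset.sum_nonneg fun i _ => mul_self_nonneg _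
  have hvpos : 0 < v ⬝ᵥ v := by
    rcases hvv.lt_or_eq with h | h
    · exact h
    · exfalso
      have h0 : v = 0 := by
        rw [eq_comm, dotProduct_self_eq_zero] at h
        exact h
      rw [h0] at hv
      simp at hv
  have h4 := (h3 ι S θ t hS hθ).2.1 v hv.le
  obtain ⟨R, hR, hRR⟩ := AWS_.half _ (smul_herm θ hS)
  have h5 := quad_le hR v
  rw [hRR] at h5
  have h6 := h4.trans h5
  exact le_of_mul_le_mul_right h6 hvpos

open Classical in
/-- the sum over the admissible tuples -/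
noncomputable def EE (gd : (j : ℕ) → (Fin j → Y) → Prop)
    (S : (j : ℕ) → (Fin j → Y) → Matrix ι ι ℝ) (θ : ℝ) (j : ℕ) : ℝ :=
  ∑ y : Fin j → Y, if AG gd j y then (NormedSpace.exp (θ • S j y)).trace else 0

lemma EE_zero (gd : (j : ℕ) → (Fin j → Y) → Prop) (S : (j : ℕ) → (Fin j → Y) → Matrix ι ι ℝ)
    (θ : ℝ) (hS0 : ∀ y, S 0 y = 0) : EE gd S θ 0 = Fintype.card ι := by
  classical
  unfold EE
  simp [AG, hS0, Matrix.trace_one]

lemma EE_nonneg (gd : (j : ℕ) → (Fin j → Y) → Prop)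
    (S : (j : ℕ) → (Fin j → Y) → Matrix ι ι ℝ) (θ : ℝ) (hS : ∀ j y, (S j y).IsHermitian)
    (j : ℕ) : 0 ≤ EE gd S θ j := by
  classical
  unfold EE
  refine Finset.sum_nonneg fun y _ => ?_
  split_ifs
  · exact tr_exp_nonneg (hS j y) θ
  · exact le_rfl

lemma EE_succ (h1 : T_BNS) (gd : (j : ℕ) → (Fin j → Y) → Prop)
    (S : (j : ℕ) → (Fin j → Y) → Matrix ι ι ℝ) (Z : (j : ℕ) → (Fin j → Y) → Y → Matrix ι ι ℝ)
    (θ z ν : ℝ) (hθ : 0 ≤ θ) (hz : 0 < z) (hν : 0 ≤ ν) (hS : ∀ j y, (S j y).IsHermitian)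
    (hSZ : ∀ j y h, S (j + 1) (Fin.cons h y) = S j y + Z j y h)
    (hZ : ∀ j y h, (Z j y h).IsHermitian) (j : ℕ)
    (hg : ∀ y, gd j y →
      (∀ h, ∀ v : ι → ℝ, |v ⬝ᵥ (Z j y h) *ᵥ v| ≤ z * (v ⬝ᵥ v)) ∧
      (∀ v : ι → ℝ, ∑ h, v ⬝ᵥ (Z j y h * Z j y h) *ᵥ v ≤ Fintype.card Y * ν * (v ⬝ᵥ v))) :
    EE gd S θ (j + 1) ≤ Fintype.card Y * (1 + θ * √ν + Real.exp (θ * z) / z ^ 2 * ν) *
      EE gd S θ j := by
  classical
  unfold EE
  rw [SEQ_.sum_cons, Finset.mul_sum]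
  refine Finset.sum_le_sum fun y _ => ?_
  simp only [AG_cons]
  by_cases hG : gd j y
  · by_cases hP : AG gd j y
    · simp only [hG, hP, and_self, if_true]
      obtain ⟨e1, e2⟩ := hg y hG
      have e7 := h1 ι Y (S j y) (Z j y) θ z ν (hS j y) (hZ j y) hθ hz hν e1 e2
      refine le_trans (le_of_eq ?_) e7
      refine Finset.sum_congr rfl fun h _ => ?_
      rw [hSZ]
    · simp [hP]
  · simp only [hG, false_and, if_false, Finset.sum_const_zero]
    split_ifs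
    · have := tr_exp_nonneg (hS j y) θ
      positivity
    · simp

end SBN_

open SBN_ in
theorem prove_SBN (h1 : T_BNS) (h2 : T_SPE) : T_SBN := by
  classical
  intro ι Y _ _ _ gd S Z θ z ν t d hθ hz hν hS hS0 hSZ hZ hg
  set F : ℝ := 1 + θ * √ν + Real.exp (θ * z) / z ^ 2 * ν with hF
  have hF0 : 0 ≤ F := by positivity
  set g : ℝ := (Fintype.card Y : ℝ) with hgdef
  have hg0 : 0 ≤ g := Nat.cast_nonneg _
  have hE : ∀ j : ℕ, j ≤ d → EE gd S θ j ≤ Fintype.card ι * (g * F) ^ j := by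
    intro j
    induction j with
    | zero =>
      intro _
      rw [EE_zero gd S θ hS0, pow_zero, mul_one]
    | succ j ih =>
      intro hj
      have h4 := EE_succ h1 gd S Z θ z ν hθ hz hν hS hSZ hZ j (hg j (by omega))
      have h5 := ih (by omega)
      calc EE gd S θ (j + 1) ≤ g * F * EE gd S θ j := h4
        _ ≤ g * F * (Fintype.card ι * (g * F) ^ j) := by gcongr
        _ = Fintype.card ι * (g * F) ^ (j + 1) := by ring
  have hcard : (Nat.card {y : Fin d → Y // AG gd d y ∧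
      ¬ ∀ v : ι → ℝ, v ⬝ᵥ (S d y) *ᵥ v ≤ t * (v ⬝ᵥ v)} : ℝ) ≤
      Real.exp (-(θ * t)) * EE gd S θ d := by
    rw [Nat.card_eq_fintype_card, Fintype.card_subtype, Finset.card_filter]
    push_cast
    unfold EE
    rw [Finset.mul_sum]
    refine Finset.sum_le_sum fun y _ => ?_
    by_cases hP : AG gd d y
    · by_cases hB : ∀ v : ι → ℝ, v ⬝ᵥ (S d y) *ᵥ v ≤ t * (v ⬝ᵥ v)
      · rw [if_neg (fun h => h.2 hB), if_pos hP]
        exact mul_nonneg (Real.exp_pos _).le (SEQ_.tr_exp_nonneg (hS d y) θ)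
      · rw [if_pos ⟨hP, hB⟩, if_pos hP]
        have h5 := bad h2 (hS d y) hθ hB
        calc (1 : ℝ) = Real.exp (-(θ * t)) * Real.exp (θ * t) := by
              rw [← Real.exp_add]
              simp
          _ ≤ _ := mul_le_mul_of_nonneg_left h5 (Real.exp_pos _).le
    · rw [if_neg (fun h => hP h.1), if_neg hP, mul_zero]
  refine hcard.trans ?_
  calc Real.exp (-(θ * t)) * EE gd S θ d
      ≤ Real.exp (-(θ * t)) * (Fintype.card ι * (g * F) ^ d) := by
        have := hE d le_rfl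
        gcongr
    _ = Fintype.card ι * Real.exp (-(θ * t)) * F ^ d * g ^ d := by
        rw [mul_pow]
        ring

end Pool.Agent.RCG
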