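import Pool.Agent.RCG.Targets8

set_option autoImplicit false

/-!
# RCG: square roots in `SL (2, p)` (target `T_SQC`)
-/

namespace Pool.Agent.RCG

open Finset Matrix

namespace SQC_

set_option linter.unusedSectionVars false

variable {p : ℕ} [Fact p.Prime]

theorem det_eq (y : SL 2 p) : y.1 0 0 * y.1 1 1 - y.1 0 1 * y.1 1 0 = 1 := by
  have h := y.2
  rwa [Matrix.det_fin_two] at h

/-- Cayley-Hamilton -/
theorem ch (y : SL 2 p) : (y.1 * y.1 + 1 : Matrix (Fin 2) (Fin 2) (ZMod p)) =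
    y.1.trace • y.1 := by
  have h := det_eq y
  rw [Matrix.trace_fin_two]
  ext i j
  fin_cases i <;> fin_cases j <;>
    simp [Matrix.mul_apply, Fin.sum_univ_two, Matrix.add_apply] <;>
    first | linear_combination -h | ring

theorem sq_eq {g x h : SL 2 p} (hx : h * g * h = x) : (h * g) * (h * g) = x * g := by
  rw [← hx]
  group

theorem eqn {g x h : SL 2 p} (hx : h * g * h = x) :
    ((x * g : SL 2 p).1 + 1 : Matrix (Fin 2) (Fin 2) (ZMod p)) =
      (h * g : SL 2 p).1.trace • (h * g : SL 2 p).1 := by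
  rw [← ch, ← sq_eq hx]
  rfl

theorem tr_sq {g x h : SL 2 p} (hx : h * g * h = x) :
    (h * g : SL 2 p).1.trace ^ 2 = (x * g : SL 2 p).1.trace + 2 := by
  have h1 := congrArg Matrix.trace (eqn hx)
  rw [Matrix.trace_add, Matrix.trace_smul, Matrix.trace_one, smul_eq_mul] at h1
  rw [sq, ← h1]
  simp

theorem tr_ne {g x h : SL 2 p} (hx : h * g * h = x)
    (hne : ((x * g : SL 2 p) : Matrix (Fin 2) (Fin 2) (ZMod p)) ≠ -1) :
    (h * g : SL 2 p).1.trace ≠ 0 := by
  intro h0
  have h1 := eqn hx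
  rw [h0, zero_smul] at h1
  exact hne (eq_neg_of_add_eq_zero_left h1)

theorem inj {g x h h' : SL 2 p} (hx : h * g * h = x) (hx' : h' * g * h' = x)
    (hne : ((x * g : SL 2 p) : Matrix (Fin 2) (Fin 2) (ZMod p)) ≠ -1)
    (ht : (h * g : SL 2 p).1.trace = (h' * g : SL 2 p).1.trace) : h = h' := by
  have h1 := eqn hx
  have h2 := eqn hx'
  rw [h1, ht] at h2
  have h3 : (h * g : SL 2 p).1 = (h' * g : SL 2 p).1 :=
    smul_right_injective _ (tr_ne hx' hne) h2
  exact mul_right_cancel (Subtype.ext h3)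

theorem card_two {g x : SL 2 p}
    (hne : ((x * g : SL 2 p) : Matrix (Fin 2) (Fin 2) (ZMod p)) ≠ -1) :
    Nat.card {h : SL 2 p // h * g * h = x} ≤ 2 := by
  classical
  rcases isEmpty_or_nonempty {h : SL 2 p // h * g * h = x} with hE | ⟨⟨h0, hh0⟩⟩
  · simp
  · refine le_trans ?_ (show Nat.card Bool ≤ 2 by simp)
    refine Nat.card_le_card_of_injective (fun h : {h : SL 2 p // h * g * h = x} =>
      decide ((h.1 * g : SL 2 p).1.trace = (h0 * g : SL 2 p).1.trace)) ?_
    intro h h' hd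
    have hs : ∀ k : {h : SL 2 p // h * g * h = x},
        (k.1 * g : SL 2 p).1.trace = (h0 * g : SL 2 p).1.trace ∨
        (k.1 * g : SL 2 p).1.trace = -(h0 * g : SL 2 p).1.trace := by
      intro k
      apply sq_eq_sq_iff_eq_or_eq_neg.1
      rw [tr_sq k.2, tr_sq hh0]
    have hiff : ((h.1 * g : SL 2 p).1.trace = (h0 * g : SL 2 p).1.trace) ↔
        ((h'.1 * g : SL 2 p).1.trace = (h0 * g : SL 2 p).1.trace) := by
      simpa using hd
    apply Subtype.ext
    apply inj h.2 h'.2 hne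
    by_cases hc : (h.1 * g : SL 2 p).1.trace = (h0 * g : SL 2 p).1.trace
    · rw [hc, hiff.1 hc]
    · have hc' : ¬ (h'.1 * g : SL 2 p).1.trace = (h0 * g : SL 2 p).1.trace :=
        fun hcc => hc (hiff.2 hcc)
      rw [(hs h).resolve_left hc, (hs h').resolve_left hc']

theorem card_neg {g x : SL 2 p}
    (hm : ((x * g : SL 2 p) : Matrix (Fin 2) (Fin 2) (ZMod p)) = -1) :
    Nat.card {h : SL 2 p // h * g * h = x} ≤ 2 * p ^ 2 := by
  classical
  have htr : ∀ h : {h : SL 2 p // h * g * h = x}, (h.1 * g : SL 2 p).1.trace = 0 := by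
    intro h
    have h1 := eqn h.2
    have h2 : ((x * g : SL 2 p).1 + 1 : Matrix (Fin 2) (Fin 2) (ZMod p)) = 0 := by
      rw [show (x * g : SL 2 p).1 = -1 from hm]
      simp
    rw [h2] at h1
    rcases smul_eq_zero.1 h1.symm with h3 | h3
    · exact h3
    · rw [h3, Matrix.trace_zero]
  have hcard : Nat.card ((ZMod p × ZMod p) ⊕ (ZMod p × ZMod p)) = 2 * p ^ 2 := by
    rw [Nat.card_sum, Nat.card_prod, Nat.card_zmod]
    ring
  rw [← hcard]
  refine Nat.card_le_card_of_injective (fun h : {h : SL 2 p // h * g * h = x} =>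
    if (h.1 * g : SL 2 p).1 0 1 = 0 then
      Sum.inr ((h.1 * g : SL 2 p).1 0 0, (h.1 * g : SL 2 p).1 1 0)
    else Sum.inl ((h.1 * g : SL 2 p).1 0 0, (h.1 * g : SL 2 p).1 0 1)) ?_
  intro h h' hd
  have key : ∀ y y' : SL 2 p, y.1.trace = 0 → y'.1.trace = 0 →
      (if y.1 0 1 = 0 then (Sum.inr (y.1 0 0, y.1 1 0) : (ZMod p × ZMod p) ⊕ (ZMod p × ZMod p))
        else Sum.inl (y.1 0 0, y.1 0 1)) =
      (if y'.1 0 1 = 0 then Sum.inr (y'.1 0 0, y'.1 1 0)
        else Sum.inl (y'.1 0 0, y'.1 0 1)) → y = y' := by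
    intro y y' ht ht' he
    rw [Matrix.trace_fin_two] at ht ht'
    have hdet := det_eq y
    have hdet' := det_eq y'
    have e00 : y.1 0 0 = y'.1 0 0 := by
      split_ifs at he <;> simp_all
    have e11 : y.1 1 1 = y'.1 1 1 := by
      linear_combination ht - ht' - e00
    have e01 : y.1 0 1 = y'.1 0 1 := by
      split_ifs at he <;> simp_all
    have e10 : y.1 1 0 = y'.1 1 0 := by
      by_cases hz : y.1 0 1 = 0
      · have hz' : y'.1 0 1 = 0 := by rw [← e01]; exact hz
        rw [if_pos hz, if_pos hz'] at he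
        simp only [Sum.inr.injEq, Prod.mk.injEq] at he
        exact he.2
      · apply mul_left_cancel₀ hz
        rw [e00, e11] at hdet
        rw [← e01] at hdet'
        linear_combination hdet' - hdet
    apply Subtype.ext
    ext i j
    fin_cases i <;> fin_cases j
    · exact e00
    · exact e01
    · exact e10
    · exact e11
  exact Subtype.ext (mul_right_cancel (key _ _ (htr h) (htr h') hd))

end SQC_

theorem prove_SQC : T_SQC := by
  intro p _ g x
  refine ⟨fun hne => SQC_.card_two hne, ?_⟩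
  by_cases hm : ((x * g : SL 2 p) : Matrix (Fin 2) (Fin 2) (ZMod p)) = -1
  · exact SQC_.card_neg hm
  · refine (SQC_.card_two hm).trans ?_
    have hp : 0 < p := (Fact.out : p.Prime).pos
    have : 1 ≤ p ^ 2 := Nat.one_le_pow _ _ hp
    omega

end Pool.Agent.RCG
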