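import Pool.Agent.RCG.Targets8

set_option autoImplicit false

/-!
# RCG: second moment for the words `h g h`
-/

namespace Pool.Agent.RCG

open Finset Matrix

namespace SQR_

open Classical in
lemma fiber_sum {G : Type} [Fintype G] (φ : G → G) (f : G → ℝ) :
    ∑ h : G, f (φ h) = ∑ x : G, (Nat.card {h : G // φ h = x} : ℝ) * f x := by
  rw [← Finset.sum_fiberwise Finset.univ φ (fun h => f (φ h))]
  refine Finset.sum_congr rfl fun x _ => ?_
  rw [Finset.sum_congr rfl (g := fun _ => f x) (fun i hi => by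
    rw [(Finset.mem_filter.mp hi).2])]
  rw [Finset.sum_const, nsmul_eq_mul, Nat.card_eq_fintype_card, Fintype.card_subtype]

/-- at most one exceptional element -/
lemma one_sum {G : Type} [Fintype G] (P : G → Prop) [DecidablePred P]
    (hP : ∀ x y, P x → P y → x = y) (f : G → ℝ) (B : ℝ) (hB : 0 ≤ B) (hf : ∀ x, f x ≤ B) :
    ∑ x : G, (if P x then f x else 0) ≤ B := by
  by_cases h : ∃ x, P x
  · obtain ⟨x0, hx0⟩ := h
    rw [Finset.sum_eq_single x0]
    · rw [if_pos hx0]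
      exact hf x0
    · intro y _ hy
      rw [if_neg]
      intro hPy
      exact hy (hP y x0 hPy hx0)
    · intro h
      exact absurd (Finset.mem_univ _) h
  · rw [Finset.sum_eq_zero]
    · exact hB
    · intro y _
      rw [if_neg]
      intro hPy
      exact h ⟨y, hPy⟩

end SQR_

theorem prove_SQR (h1 : T_SQC) (h2 : T_CRD) (h3 : T_QRB) : T_SQR := by
  classical
  intro p hp hp19 Q ν hPj hν hNB g u
  obtain ⟨hq, hs⟩ := h3 (SL 2 p) Q ν hPj hν hNB u
  have huu : 0 ≤ u ⬝ᵥ u := (hq 1).1.trans (hq 1).2.1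
  have hsum : ∑ x : SL 2 p, qR Q x u ≤ ν * Fintype.card (SL 2 p) * (u ⬝ᵥ u) := by
    have := (hs 1).1
    simpa using this
  have hcard : ((Fintype.card (SL 2 p) : ℕ) : ℝ) + p = (p : ℝ) ^ 3 := by
    exact_mod_cast h2 p
  have hp0 : (19 : ℝ) ≤ p := by exact_mod_cast hp19
  have key : 2 * (p : ℝ) ^ 2 ≤ 3 / p * Fintype.card (SL 2 p) := by
    have hc : (Fintype.card (SL 2 p) : ℝ) = (p : ℝ) ^ 3 - p := by linarith
    rw [hc, div_mul_eq_mul_div, le_div_iff₀ (by linarith)]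
    nlinarith [mul_pos (show (0:ℝ) < p by linarith) (show (0:ℝ) < (p:ℝ)^2 - 3 by nlinarith)]
  set P : SL 2 p → Prop := fun x =>
    ((x * g : SL 2 p) : Matrix (Fin 2) (Fin 2) (ZMod p)) = -1 with hPdef
  have hPuniq : ∀ x y, P x → P y → x = y := by
    intro x y hx hy
    have hxy : (x * g : SL 2 p) = y * g := Subtype.ext (hx.trans hy.symm)
    exact mul_right_cancel hxy
  have hN : ∀ x : SL 2 p, (Nat.card {h : SL 2 p // h * g * h = x} : ℝ) * qR Q x u ≤
      2 * qR Q x u + 2 * (p : ℝ) ^ 2 * (if P x then qR Q x u else 0) := by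
    intro x
    have hx0 := (hq x).1
    by_cases hx : P x
    · rw [if_pos hx]
      have hc : (Nat.card {h : SL 2 p // h * g * h = x} : ℝ) ≤ 2 * (p : ℝ) ^ 2 := by
        exact_mod_cast (h1 p g x).2
      nlinarith [mul_le_mul_of_nonneg_right hc hx0]
    · rw [if_neg hx]
      have hc : (Nat.card {h : SL 2 p // h * g * h = x} : ℝ) ≤ 2 := by
        exact_mod_cast (h1 p g x).1 hx
      nlinarith [mul_le_mul_of_nonneg_right hc hx0]
  calc ∑ h : SL 2 p, qR Q (h * g * h) u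
      = ∑ x : SL 2 p, (Nat.card {h : SL 2 p // h * g * h = x} : ℝ) * qR Q x u :=
        SQR_.fiber_sum (fun h => h * g * h) (fun x => qR Q x u)
    _ ≤ ∑ x : SL 2 p, (2 * qR Q x u + 2 * (p : ℝ) ^ 2 * (if P x then qR Q x u else 0)) :=
        Finset.sum_le_sum fun x _ => hN x
    _ = 2 * ∑ x : SL 2 p, qR Q x u +
        2 * (p : ℝ) ^ 2 * ∑ x : SL 2 p, (if P x then qR Q x u else 0) := by
        rw [Finset.sum_add_distrib, Finset.mul_sum, Finset.mul_sum]
    _ ≤ 2 * (ν * Fintype.card (SL 2 p) * (u ⬝ᵥ u)) + 2 * (p : ℝ) ^ 2 * (u ⬝ᵥ u) := by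
        gcongr
        exact SQR_.one_sum P hPuniq _ _ huu (fun x => (hq x).2.1)
    _ ≤ 2 * (ν * Fintype.card (SL 2 p) * (u ⬝ᵥ u)) +
        (3 / p * Fintype.card (SL 2 p)) * (u ⬝ᵥ u) := by
        gcongr
    _ = (2 * ν + 3 / p) * Fintype.card (SL 2 p) * (u ⬝ᵥ u) := by ring

end Pool.Agent.RCG
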