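import Pool.Agent.RCG.Targets8
import Pool.Agent.RCG.ELE

set_option autoImplicit false

/-!
# RCG: TLB, all tails are good (helper23)
-/

namespace Pool.Agent.RCG

open Finset Matrix

namespace TLB_

theorem card_or {α : Type} [Fintype α] (P Q : α → Prop) :
    Nat.card {a : α // ¬ (P a ∧ Q a)} ≤
      Nat.card {a : α // ¬ P a} + Nat.card {a : α // ¬ Q a} := by
  classical
  simp only [Nat.card_eq_fintype_card, Fintype.card_subtype]
  refine (Finset.card_le_card ?_).trans (Finset.card_union_le _ _)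
  intro a ha
  simp only [mem_union, mem_filter, mem_univ, true_and] at ha ⊢
  tauto

theorem QB_nil {G : Type} [Group G] [Fintype G] (y : Fin 0 → G) {B : ℝ} (hB : 0 ≤ B) :
    QB y B := by
  intro f _
  have h : ∀ x, f x * adj y f x = 0 := fun x => by simp [adj]
  simp only [h, Finset.sum_const_zero, abs_zero]
  exact mul_nonneg hB (Finset.sum_nonneg fun _ _ => sq_nonneg _)

theorem bad (h1 : T_FN7) (d j : ℕ) : ∃ K P : ℝ, 0 ≤ K ∧ ∀ (p : ℕ) [Fact p.Prime], P ≤ p →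
    j ≤ d → (badCard (SL 2 p) j (364 * √(2 * (d : ℝ))) : ℝ) ≤
      K * (p : ℝ) ^ (-(1 / 3 : ℝ)) * (Fintype.card (SL 2 p) : ℝ) ^ j := by
  rcases Nat.eq_zero_or_pos j with h0 | h0
  · subst h0
    refine ⟨0, 0, le_refl _, ?_⟩
    intro p hp _ _
    have h9 : badCard (SL 2 p) 0 (364 * √(2 * (d : ℝ))) = 0 := by
      unfold badCard
      have : IsEmpty {y : Fin 0 → SL 2 p // ¬ QB y (364 * √(2 * (d : ℝ)))} :=
        ⟨fun y => y.2 (QB_nil y.1 (by positivity))⟩
      exact Nat.card_of_isEmpty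
    rw [h9]
    simp
  · obtain ⟨K, P, hKP⟩ := h1 j h0
    refine ⟨|K|, P, abs_nonneg _, ?_⟩
    intro p hp hpP hjd
    have h5 := hKP ⟨p, hp.out⟩ hpP
    have h6 : (badCard (SL 2 p) j (364 * √(2 * (d : ℝ))) : ℝ) ≤
        badCard (SL 2 p) j (364 * √(2 * (j : ℝ))) := by
      have h7 : (364 : ℝ) * √(2 * (j : ℝ)) ≤ 364 * √(2 * (d : ℝ)) := by
        have : (j : ℝ) ≤ d := by exact_mod_cast hjd
        gcongr
      exact_mod_cast ELE_.bad_mono h7
    refine h6.trans (h5.trans ?_)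
    exact mul_le_mul_of_nonneg_right
      (mul_le_mul_of_nonneg_right (le_abs_self K) (by positivity)) (by positivity)

end TLB_

theorem prove_TLB (h1 : T_FN7) (h2 : T_AGC) : T_TLB := by
  intro d _
  choose K P hK hP using TLB_.bad h1 d
  refine ⟨∑ j ∈ range (d + 1), K j, ∑ j ∈ range (d + 1), |P j|, ?_⟩
  intro p hp hpP
  have hPj : ∀ j ≤ d, P j ≤ p := fun j hj => by
    have : |P j| ≤ ∑ j ∈ range (d + 1), |P j| :=
      Finset.single_le_sum (f := fun j => |P j|) (fun _ _ => abs_nonneg _)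
        (mem_range.2 (by omega))
    exact (le_abs_self _).trans (this.trans hpP)
  have hc := TLB_.card_or (fun a : Fin d → SL 2 p => QB a (364 * √(2 * (d : ℝ))))
    (fun a => AG (fun (j : ℕ) (y : Fin j → SL 2 p) => QB y (364 * √(2 * (d : ℝ)))) d a)
  have ha := h2 (SL 2 p) (fun (j : ℕ) (y : Fin j → SL 2 p) => QB y (364 * √(2 * (d : ℝ)))) d
  have h3 : (Nat.card {a : Fin d → SL 2 p // ¬ (QB a (364 * √(2 * (d : ℝ))) ∧
      AG (fun (j : ℕ) (y : Fin j → SL 2 p) => QB y (364 * √(2 * (d : ℝ)))) d a)} : ℝ) ≤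
      badCard (SL 2 p) d (364 * √(2 * (d : ℝ))) +
        ∑ j ∈ range d, (badCard (SL 2 p) j (364 * √(2 * (d : ℝ))) : ℝ) *
          (Fintype.card (SL 2 p) : ℝ) ^ (d - j) := by
    have h4 := (Nat.cast_le (α := ℝ)).2 (hc.trans (Nat.add_le_add_left ha _))
    push_cast at h4
    exact h4
  refine h3.trans ?_
  have h8 : (∑ j ∈ range (d + 1), K j) * (p : ℝ) ^ (-(1 / 3 : ℝ)) *
      (Fintype.card (SL 2 p) : ℝ) ^ d =
      K d * (p : ℝ) ^ (-(1 / 3 : ℝ)) * (Fintype.card (SL 2 p) : ℝ) ^ d +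
        ∑ j ∈ range d, K j * (p : ℝ) ^ (-(1 / 3 : ℝ)) * (Fintype.card (SL 2 p) : ℝ) ^ d := by
    rw [sum_range_succ, ← sum_mul, ← sum_mul]
    ring
  rw [h8]
  refine add_le_add (hP d p (hPj d le_rfl) le_rfl) (sum_le_sum fun j hj => ?_)
  have hjd := mem_range.1 hj
  have h5 := hP j p (hPj j hjd.le) hjd.le
  calc (badCard (SL 2 p) j (364 * √(2 * (d : ℝ))) : ℝ) *
          (Fintype.card (SL 2 p) : ℝ) ^ (d - j)
      ≤ (K j * (p : ℝ) ^ (-(1 / 3 : ℝ)) * (Fintype.card (SL 2 p) : ℝ) ^ j) *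
          (Fintype.card (SL 2 p) : ℝ) ^ (d - j) :=
        mul_le_mul_of_nonneg_right h5 (by positivity)
    _ = K j * (p : ℝ) ^ (-(1 / 3 : ℝ)) * (Fintype.card (SL 2 p) : ℝ) ^ d := by
        rw [mul_assoc, ← pow_add]
        congr 2
        omega

end Pool.Agent.RCG
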