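import Pool.Agent.RCG.Targets10

set_option autoImplicit false

/-!
# RCG: eleventh group of targets (end of RCG8)
-/

namespace Pool.Agent.RCG

open Finset Matrix

/-- the block `a` is generic for the projection `Q` and the operator of `y'` -/
def Frs {G : Type} [Group G] [Fintype G] {d' d1 : ℕ} (Q : Matrix G G ℝ) (y' : Fin d' → G)
    (a : Fin d1 → G) (q : ℕ) (l0 R u κ : ℝ) : Prop :=
  (∀ v : G → ℝ, |v ⬝ᵥ (Q * adM a * Q) *ᵥ v| ≤ u * (v ⬝ᵥ v)) ∧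
  (∀ σ : ℝ, (σ = 1 ∨ σ = -1) → ∀ v : G → ℝ,
    v ⬝ᵥ (Q * (adM a * polM y' q (fun m => cf q l0 R m * σ ^ m) * adM a) * Q) *ᵥ v ≤
      κ * (v ⬝ᵥ v))

/-- CNB (counting). Hypotheses `T_NUM`, `T_PR9`, `T_CAV`. A pair `(y', a)` without BG has `a` bad
for `B1`, or `y'` bad for `B2`, or `y'` has a relation of length `<= n`, or `y'` has none of this and
`a` is in the exceptional set of the last hypothesis for the projection `Q` which PR9 gives for `y'`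
(NUM gives the hypothesis `NB (pwM y' n) _` of PR9; `nu7 d' n p R` is the resulting quotient). -/
def T_CNB : Prop := ∀ (p : ℕ) [Fact p.Prime] (d' d1 n q : ℕ) (R l0 B1 B2 u κ X : ℝ), 19 ≤ p →
  1 ≤ d' → Even n → 2 ≤ n → Even q → 0 < R → R < l0 → 0 ≤ B1 → 0 ≤ u → 0 ≤ κ → 0 ≤ X →
  (∀ y' : Fin d' → SL 2 p, (∀ m ≤ n, ¬ Rel m y') → QB y' B2 → ∀ Q : Matrix (SL 2 p) (SL 2 p) ℝ,
    Pj Q → LI Q → NB Q (nu7 d' n p R) →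
    (Nat.card {a : Fin d1 → SL 2 p // ¬ Frs Q y' a q l0 R u κ} : ℝ) ≤
      X * (Fintype.card (SL 2 p) : ℝ) ^ d1) →
  (Nat.card {ya : (Fin d' → SL 2 p) × (Fin d1 → SL 2 p) //
      ¬ BG ya.1 ya.2 l0 (rr l0 R B1 u κ)} : ℝ) ≤
    badCard (SL 2 p) d1 B1 * (Fintype.card (SL 2 p) : ℝ) ^ d' +
    badCard (SL 2 p) d' B2 * (Fintype.card (SL 2 p) : ℝ) ^ d1 +
    Nat.card {y : Fin d' → SL 2 p // ∃ m ≤ n, Rel m y} * (Fintype.card (SL 2 p) : ℝ) ^ d1 +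
    X * (Fintype.card (SL 2 p) : ℝ) ^ (d' + d1)

/-- the bound of CHS for `κ` -/
noncomputable def kap (d1 q : ℕ) (k l0 R C C2 : ℝ) : ℝ :=
  2 * d1 * ((l0 - √(l0 ^ 2 - 4 * k)) / (2 * k) + (2 * √k) ^ q / (l0 ^ q * (l0 - R))) +
    C2 * pol q l0 R (C * √k) * (1 + √(2 * (d1 : ℝ))) * Real.log k

/-- FRH: the statement of part A (helper90). -/
def T_FRH : Prop := ∀ δ : ℝ, 0 < δ → ∃ C1 C2 C3 : ℝ, 0 < C1 ∧ 0 < C2 ∧ 0 < C3 ∧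
  ∀ (d' d1 q : ℕ) (k l0 R : ℝ), 1 ≤ d' → 1 ≤ d1 → Even q → k = 2 * ((d' : ℝ) + d1) →
    l0 = (2 + δ) * √k → R = (2 + δ / 2) * √k → C3 * Real.log k ≤ √(2 * (d1 : ℝ)) →
    ∃ K P : ℝ, ∀ (p : ℕ) [Fact p.Prime], P ≤ p → ∃ n : ℕ, Even n ∧ 2 ≤ n ∧
      8 * ((n : ℝ) + 1) ^ 2 * k ^ n / p ≤ K * (p : ℝ) ^ (-(1 / 3 : ℝ)) ∧
      ∀ y' : Fin d' → SL 2 p, (∀ m ≤ n, ¬ Rel m y') → QB y' (364 * √k) →
        ∀ Q : Matrix (SL 2 p) (SL 2 p) ℝ, Pj Q → LI Q → NB Q (nu7 d' n p R) →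
          (Nat.card {a : Fin d1 → SL 2 p //
              ¬ Frs Q y' a q l0 R (C1 * Real.log k) (kap d1 q k l0 R 364 C2)} : ℝ) ≤
            K * (p : ℝ) ^ (-(1 / 3 : ℝ)) * (Fintype.card (SL 2 p) : ℝ) ^ d1

/-- GD9. Hypotheses `T_FRH`, `T_CNB`, `T_CHS`, `T_DIV`, `T_GNR`, `T_FN7`, `T_ELEU`. Given `δ` take
`C1, C2, C3` from FRH and `s, q, D` from CHS with `C = 364`; enlarge `D` so that
`C3 log (2 (s+1) d1) <= √(2 d1)` for `d1 >= D`. For `d1 >= D` use DIV with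
`r = rr l0 R B1 u κ`, `B1 = 364 √(2 d1)`, `B2 = 364 √k` (monotonicity ELEU and FN7 for `d' = s d1`),
`u = C1 log k`, `κ = kap`, CNB with `X = K p^(-1/3)`, GNR (`2 d' <= k`), FN7. -/
def T_GD9 : Prop := ∀ δ : ℝ, 0 < δ → ∃ s D : ℕ, 1 ≤ s ∧ 1 ≤ D ∧ ∀ d1 : ℕ, D ≤ d1 →
  Good G2 (fun p => (p.1 : ℝ)) ((s + 1) * d1)
    ((2 + δ) * √(2 * (((s : ℝ) + 1) * (d1 : ℝ)))) (1 / 3)

/-- FN9. Hypotheses `T_GD9`, `T_ELE`. Apply GD9 with `δ/2`; write `d = (s+1) d1 + r`,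
`0 <= r <= s`: the bound is `<= (2 + δ/2) √(2 d) + 2 s <= (2 + δ) √(2 d)` for large `d`. -/
def T_FN9 : Prop := ∀ δ : ℝ, 0 < δ → ∃ D : ℕ, ∀ d : ℕ, D ≤ d →
  Good G2 (fun p => (p.1 : ℝ)) d ((2 + δ) * √(2 * (d : ℝ))) (1 / 3)

/-- BC9. Hypothesis `T_FN9`: `K p^(-1/3) <= p^(-1/4)` for large `p` (see `BC7.lean`), and
`(2 + δ) √(2d) <= (1 + δ) (2 √(2d-1))` for large `d`. -/
def T_BC9 : Prop := ∀ δ : ℝ, 0 < δ → ∃ D : ℕ, 1 ≤ D ∧ ∀ d : ℕ, D ≤ d → ∃ P : ℕ,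
  ∀ (p : ℕ) [Fact p.Prime], P ≤ p →
    (badCard (SL 2 p) d ((1 + δ) * (2 * √(2 * (d : ℝ) - 1))) : ℝ) ≤
      (p : ℝ) ^ (-(1 / 4 : ℝ)) * (Fintype.card (SL 2 p) : ℝ) ^ d

end Pool.Agent.RCG
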