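import Pool.Agent.RCG.Targets8
import Pool.Agent.RCG.Targets11

set_option autoImplicit false

/-!
# RCG: twelfth group of targets (part A implies `T_FRH`)
-/

namespace Pool.Agent.RCG

open Finset Matrix

/-- NUB (real analysis). `L = log q`, `n = 2 ⌊L/(4 log k)⌋₊`, so `k^n <= √q`, `n <= L`,
`n >= L/(2 log k) - 2`. `8 (n+1)² k^n/q <= 8 (L+1)² q^(-1/2) <= q^(-1/3)` for large `q`. With
`R = (2 + δ/2) √k`, `2 d <= k`: `nu7 d n q R = ((2 √(2d))^n + (2d)^n 3/√q)/R^n <=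
((2 √k)^n + 3)/R^n <= 4 (2 √k/R)^n = 4 (1 + δ/4)^(-n) <=
4 (1 + δ/4)² q^(-log (1 + δ/4)/(2 log k))`. -/
def T_NUB : Prop := ∀ (δ ε k : ℝ) (d N : ℕ), 0 < δ → 4 ≤ k → 1 ≤ d → 2 * (d : ℝ) ≤ k → 0 < ε →
  ε ≤ Real.log (1 + δ / 4) / (2 * Real.log k) →
  ∃ K P : ℝ, 0 ≤ K ∧ ∀ q : ℝ, P ≤ q → ∃ n : ℕ, Even n ∧ 2 ≤ n ∧ N ≤ n ∧
    8 * ((n : ℝ) + 1) ^ 2 * k ^ n / q ≤ K * q ^ (-(1 / 3 : ℝ)) ∧
    0 ≤ nu7 d n q ((2 + δ / 2) * √k) ∧ nu7 d n q ((2 + δ / 2) * √k) ≤ K * q ^ (-ε)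

/-- FN1. Let `n1 = (l0 - √(l0² - 4k))/(2k) + (2 √k)^q/(l0^q (l0-R))`, `M = pol q l0 R (364 √k)`.
Hypotheses `T_CAT`, `T_KES`. (1) clear (`cf > 0`). (2) The terms `m < q` are at most
`(l0 - √(l0² - 4k))/(2k)` in total by CAT (`4 k <= l0²`), and
`tw d q <= (2 √(2d))^q <= (2 √k)^q` (KES). (3) `(l0 - √(l0² - 4k))/(2k) =
2/(l0 + √(l0² - 4k)) <= 2/l0 <= 2 M` (term `m = 0` of `M`, also for `q = 0`), and the second summand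
is at most the last term of `M`. -/
def T_FN1 : Prop := ∀ (δ k l0 R : ℝ) (d q : ℕ), 0 < δ → 4 ≤ k → 1 ≤ d → 2 * (d : ℝ) ≤ k →
  l0 = (2 + δ) * √k → R = (2 + δ / 2) * √k →
  0 < pol q l0 R (364 * √k) ∧
  (∀ σ : ℝ, (σ = 1 ∨ σ = -1) → |∑ m ∈ range (q + 1), cf q l0 R m * σ ^ m * (tw d m : ℝ)| ≤
    (l0 - √(l0 ^ 2 - 4 * k)) / (2 * k) + (2 * √k) ^ q / (l0 ^ q * (l0 - R))) ∧
  (l0 - √(l0 ^ 2 - 4 * k)) / (2 * k) + (2 * √k) ^ q / (l0 ^ q * (l0 - R)) ≤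
    3 * pol q l0 R (364 * √k)

/-- FRC. `C1 = 40 + 80/log (1 + δ/4)`, `C2 = 728 C1`, `C3 = 1`. Let `k >= 4` (so `log k >= 1`),
`ε = min 1 (log (1 + δ/4)/(2 log k))`, so `40/ε <= C1 log k`. Let `M`, `n1` be as in FN1. NUB with
`N = q`. PBD gives `0 <= f.N f <= M f.f`, `N = polM y' q c = NP y' c (q+1)`,
`c m = cf q l0 R m σ^m`. FRESH for `c`, `q + 1`, `M`, `n1`, `ε`, and both signs `σ`; the bound
`κ = 2 d1 n1 + (20/ε) (1456 M √(2 d1) + 4 M + 2 n1) <=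
2 d1 n1 + (20/ε) 1456 M (1 + √(2 d1)) <= kap`, since `n1 <= 3 M`. A block which is not `Frs` is not
fresh for one of the two signs. -/
def T_FRC : Prop := T_FRESH → T_NUB → T_FN1 → T_PBD → T_FRH

end Pool.Agent.RCG
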