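import Pool.Agent.RCG.Targets7

set_option autoImplicit false

/-!
# RCG, NUM: the average of the conjugates of a power of the adjacency matrix
-/

namespace Pool.Agent.RCG

open Finset Matrix

namespace NUM_

section
variable {G : Type} [Group G] [Fintype G]

lemma Rm_mulVec (h : G) (f : G → ℝ) (x : G) : (Rm h *ᵥ f) x = f (x * h) := by
  classical
  simp [Rm, Matrix.mulVec, dotProduct]

lemma pwM_mulVec (h1 : T_ADM) {d : ℕ} (y : Fin d → G) (n : ℕ) (f : G → ℝ) :
    pwM y n *ᵥ f = (adj y)^[n] f := by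
  classical
  have h2 := (h1 G d).1
  unfold pwM
  induction n generalizing f with
  | zero => rw [pow_zero, Matrix.one_mulVec]; rfl
  | succ n ih =>
    rw [pow_succ, ← Matrix.mulVec_mulVec, h2 y f, ih, Function.iterate_succ_apply]

/-- expansion of the quadratic form -/
lemma expand (h1 : T_ADM) (h2 : T_ITR) {d n : ℕ} (y : Fin d → G) (f : G → ℝ) (h : G) :
    f ⬝ᵥ (Rm h * pwM y n * Rm h⁻¹) *ᵥ f =
      ∑ w : Fin n → Ltr d, ∑ x, f x * f (x * (h * ev y w * h⁻¹)) := by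
  have e1 : ∀ x, ((Rm h * pwM y n * Rm h⁻¹) *ᵥ f) x =
      ∑ w : Fin n → Ltr d, f (x * (h * ev y w * h⁻¹)) := by
    intro x
    rw [← Matrix.mulVec_mulVec, ← Matrix.mulVec_mulVec, Rm_mulVec, pwM_mulVec h1,
      h2 G d n y _ (x * h)]
    refine Finset.sum_congr rfl fun w _ => ?_
    rw [Rm_mulVec]
    congr 1
    simp only [mul_assoc]
  unfold dotProduct
  rw [Finset.sum_comm (s := (univ : Finset (Fin n → Ltr d)))]
  refine Finset.sum_congr rfl fun x _ => ?_
  rw [e1, Finset.mul_sum]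

omit [Fintype G] in
lemma ev_triv {d n : ℕ} (y : Fin d → G) (w : Fin n → Ltr d)
    (h : FreeGroup.mk (List.ofFn w) = 1) : ev y w = 1 := by
  unfold ev
  rw [h, map_one]

end

lemma card_words (d n : ℕ) : (Fintype.card (Fin n → Ltr d) : ℝ) = (2 * (d : ℝ)) ^ n := by
  rw [Fintype.card_fun, Fintype.card_fin]
  have : Fintype.card (Ltr d) = d * 2 := by simp [Ltr]
  rw [this]
  push_cast
  ring

end NUM_

theorem prove_NUM (h1 : T_ADM) (h2 : T_ITR) (h3 : T_KES) (h4 : T_KP2) : T_NUM := by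
  classical
  intro p _ d n hp hd y hrel f hf
  have e0 : ∑ h : SL 2 p, f ⬝ᵥ (Rm h * pwM y n * Rm h⁻¹) *ᵥ f =
      ∑ w : Fin n → Ltr d, ∑ h : SL 2 p, ∑ x, f x * f (x * (h * ev y w * h⁻¹)) := by
    rw [Finset.sum_comm (s := (univ : Finset (Fin n → Ltr d)))]
    exact Finset.sum_congr rfl fun h _ => NUM_.expand h1 h2 y f h
  have eff : f ⬝ᵥ f = ∑ x, f x ^ 2 := Finset.sum_congr rfl fun x _ => (sq (f x)).symm
  rw [e0, eff]
  set N : ℝ := ∑ x, f x ^ 2 with hN
  have hN0 : 0 ≤ N := Finset.sum_nonneg fun x _ => sq_nonneg _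
  have hc0 : (0 : ℝ) ≤ (Fintype.card (SL 2 p) : ℝ) := Nat.cast_nonneg _
  have hp0 : (0 : ℝ) ≤ 3 / √(p : ℝ) := by positivity
  have e1 : ∑ w : Fin n → Ltr d, ∑ h : SL 2 p, ∑ x, f x * f (x * (h * ev y w * h⁻¹)) ≤
      ∑ w : Fin n → Ltr d, ((if FreeGroup.mk (List.ofFn w) = 1 then (1 : ℝ) else 0) +
        3 / √(p : ℝ)) * ((Fintype.card (SL 2 p) : ℝ) * N) := by
    refine Finset.sum_le_sum fun w _ => ?_
    split_ifs with h
    · have e2 : ∀ h' : SL 2 p, ∑ x, f x * f (x * (h' * ev y w * h'⁻¹)) = N := by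
        intro h'
        refine Finset.sum_congr rfl fun x _ => ?_
        rw [NUM_.ev_triv y w h, mul_one, mul_inv_cancel, mul_one, sq]
      rw [Finset.sum_congr rfl fun h' _ => e2 h', Finset.sum_const, Finset.card_univ,
        nsmul_eq_mul]
      have : 0 ≤ 3 / √(p : ℝ) * ((Fintype.card (SL 2 p) : ℝ) * N) := by positivity
      linarith
    · have g1 : ((ev y w : SL 2 p) : Matrix (Fin 2) (Fin 2) (ZMod p)) ≠ 1 := fun h5 =>
        hrel ⟨w, h, Or.inl h5⟩
      have g2 : ((ev y w : SL 2 p) : Matrix (Fin 2) (Fin 2) (ZMod p)) ≠ -1 := fun h5 =>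
        hrel ⟨w, h, Or.inr h5⟩
      have g3 := (abs_le.mp (h4 p hp (ev y w) g1 g2 f hf)).2
      rw [zero_add]
      linarith
  refine e1.trans ?_
  rw [← Finset.sum_mul, Finset.sum_add_distrib, Finset.sum_const, Finset.card_univ,
    Finset.sum_boole, nsmul_eq_mul, NUM_.card_words]
  have e4 : ((Finset.univ.filter fun w : Fin n → Ltr d =>
      FreeGroup.mk (List.ofFn w) = 1).card : ℝ) ≤ (2 * √(2 * (d : ℝ))) ^ n := by
    have h5 := h3 d n hd
    rwa [Nat.card_eq_fintype_card, Fintype.card_subtype] at h5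
  rw [mul_assoc _ (Fintype.card (SL 2 p) : ℝ) N]
  exact mul_le_mul_of_nonneg_right (by linarith) (by positivity)

end Pool.Agent.RCG
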