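import Pool.Agent.RCG.Targets8
import Pool.Agent.RCG.NUM

set_option autoImplicit false

/-!
# RCG, WEX: expansion of a polynomial of the adjacency matrix in words
-/

namespace Pool.Agent.RCG

open Finset Matrix

namespace WEX_

open NUM_

lemma pwM_eq {G : Type} [Group G] [Fintype G] (h1 : T_ADM) (h2 : T_ITR) {d : ℕ}
    (y : Fin d → G) (m : ℕ) : pwM y m = ∑ w : Fin m → Ltr d, Rm (ev y w) := by
  classical
  apply Matrix.mulVec_injective
  funext f
  rw [pwM_mulVec h1]
  funext x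
  rw [h2 G d m y f x, Matrix.sum_mulVec, Finset.sum_apply]
  exact Finset.sum_congr rfl fun w _ => (Rm_mulVec _ _ _).symm

open Classical in
lemma split {G : Type} [Group G] [Fintype G] {d : ℕ} (y : Fin d → G) (m : ℕ) :
    ∑ w : Fin m → Ltr d, Rm (ev y w) = (tw d m : ℝ) • Rm (1 : G) +
      ∑ w : {w : Fin m → Ltr d // ¬ FreeGroup.mk (List.ofFn w) = 1}, Rm (ev y w.1) := by
  have e1 : ∑ w : {w : Fin m → Ltr d // FreeGroup.mk (List.ofFn w) = 1}, Rm (ev y w.1) =
      (tw d m : ℝ) • Rm (1 : G) := by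
    rw [Finset.sum_congr rfl fun (w : {w : Fin m → Ltr d // FreeGroup.mk (List.ofFn w) = 1}) _ =>
      by rw [ev_triv y w.1 w.2], Finset.sum_const, Finset.card_univ, tw,
      Nat.card_eq_fintype_card, Nat.cast_smul_eq_nsmul]
  rw [← e1]
  exact (Fintype.sum_subtype_add_sum_subtype (fun w : Fin m → Ltr d =>
    FreeGroup.mk (List.ofFn w) = 1) (fun w => Rm (ev y w))).symm

end WEX_

open WEX_ NUM_ in
theorem prove_WEX (h1 : T_ADM) (h2 : T_ITR) : T_WEX := by
  classical
  intro p _ d q c y hrel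
  refine ⟨Σ m : Fin q, {w : Fin (m : ℕ) → Ltr d // ¬ FreeGroup.mk (List.ofFn w) = 1},
    inferInstance, fun ω => c ω.1, fun ω => ev y ω.2.1, ?_, ?_, ?_⟩
  · unfold NP
    rw [Finset.sum_range, Finset.sum_range, Finset.sum_smul, Fintype.sum_sigma,
      ← Finset.sum_add_distrib]
    refine Finset.sum_congr rfl fun m _ => ?_
    rw [pwM_eq h1 h2, split, smul_add, smul_smul, Finset.smul_sum]
  · rintro ⟨m, w, hw⟩
    exact ⟨fun h5 => hrel m m.2 ⟨w, hw, Or.inl h5⟩, fun h5 => hrel m m.2 ⟨w, hw, Or.inr h5⟩⟩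
  · rw [Fintype.sum_sigma, Finset.sum_range]
    refine Finset.sum_le_sum fun m _ => ?_
    simp only
    rw [Finset.sum_const, Finset.card_univ, nsmul_eq_mul, mul_comm, ← card_words]
    refine mul_le_mul_of_nonneg_left ?_ (abs_nonneg _)
    exact_mod_cast Fintype.card_subtype_le _

end Pool.Agent.RCG
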