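import Pool.Agent.RCG.Targets8
import Pool.Agent.RCG.ZED

set_option autoImplicit false

/-!
# RCG: ZNA, algebra of the increments of the quadratic process
-/

namespace Pool.Agent.RCG

open Finset Matrix

namespace ZNA_

variable {G : Type} [Group G] [Fintype G]

lemma Sn_sym {j : ℕ} {Q N : Matrix G G ℝ} (hQ : Pj Q) (hN : N.IsHermitian) (n0 : ℝ)
    (y : Fin j → G) : (Sn Q N n0 y)ᵀ = Sn Q N n0 y := by
  unfold Sn
  rw [Matrix.transpose_sub, Matrix.transpose_smul, Matrix.transpose_mul, Matrix.transpose_mul,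
    Matrix.transpose_mul, Matrix.transpose_mul, ZED_.herm hQ.1, ZED_.adM_sym, ZED_.herm hN]
  congr 1
  noncomm_ring

lemma Zn_sym {j : ℕ} {Q N : Matrix G G ℝ} (hQ : Pj Q) (hN : N.IsHermitian) (n0 : ℝ)
    (y : Fin j → G) (h : G) : (Zn Q N n0 y h)ᵀ = Zn Q N n0 y h := by
  unfold Zn
  change (Q * (ZED_.X h * N * adM y + adM y * N * ZED_.X h) * Q +
    Q * (ZED_.X h * N * ZED_.X h) * Q - (2 * n0) • Q)ᵀ =
    Q * (ZED_.X h * N * adM y + adM y * N * ZED_.X h) * Q +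
    Q * (ZED_.X h * N * ZED_.X h) * Q - (2 * n0) • Q
  simp only [Matrix.transpose_sub, Matrix.transpose_smul, Matrix.transpose_add,
    Matrix.transpose_mul, ZED_.herm hQ.1, ZED_.adM_sym, ZED_.herm hN, ZED_.X_transpose]
  congr 1
  noncomm_ring

lemma adM_zero (y : Fin 0 → G) : adM y = 0 := by
  rw [ZED_.adM_eq]
  simp

lemma adM_cons {j : ℕ} (y : Fin j → G) (h : G) :
    adM (Fin.cons h y : Fin (j + 1) → G) = ZED_.X h + adM y := by
  rw [ZED_.adM_eq, ZED_.adM_eq, Fin.sum_univ_succ]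
  simp

end ZNA_

theorem prove_ZNA (h : T_ADM) : T_ZNA := by
  intro G _ _ Q N n0 hQ hN
  have _ := h
  refine ⟨fun y => ?_, fun j y => ⟨ZED_.of_sym (ZNA_.Sn_sym hQ hN n0 y),
    fun h => ZED_.of_sym (ZNA_.Zn_sym hQ hN n0 y h), fun h => ?_⟩⟩
  · unfold Sn
    rw [ZNA_.adM_zero]
    simp
  · unfold Sn Zn
    rw [ZNA_.adM_cons]
    change _ = Q * (adM y * N * adM y) * Q - (2 * (j : ℝ) * n0) • Q +
      (Q * (ZED_.X h * N * adM y + adM y * N * ZED_.X h) * Q +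
        Q * (ZED_.X h * N * ZED_.X h) * Q - (2 * n0) • Q)
    have h1 : (2 * (((j + 1 : ℕ) : ℕ) : ℝ) * n0) • Q =
        (2 * (j : ℝ) * n0) • Q + (2 * n0) • Q := by
      rw [← add_smul]
      congr 1
      push_cast
      ring
    rw [h1]
    noncomm_ring

end Pool.Agent.RCG
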