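import Pool.Agent.RCG.Targets8
import Pool.Agent.RCG.ZED

set_option autoImplicit false

/-!
# RCG: ZNB, bound of the increments of the quadratic process
-/

namespace Pool.Agent.RCG

open Finset Matrix

namespace ZNB_

variable {G : Type} [Group G] [Fintype G]

lemma X_sum (h : G) (w : G → ℝ) (hw : ∑ x, w x = 0) : ∑ x, (ZED_.X h *ᵥ w) x = 0 := by
  unfold ZED_.X
  simp only [Matrix.add_mulVec, Pi.add_apply, Finset.sum_add_distrib]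
  rw [ZED_.Rm_sum, ZED_.Rm_sum, hw]
  simp

lemma Zn_form {j : ℕ} {Q N : Matrix G G ℝ} (hQ : Pj Q) (hN : N.IsHermitian) (n0 : ℝ)
    (y : Fin j → G) (h : G) (v : G → ℝ) :
    v ⬝ᵥ (Zn Q N n0 y h) *ᵥ v =
      2 * ((ZED_.X h *ᵥ (Q *ᵥ v)) ⬝ᵥ (N *ᵥ (adM y *ᵥ (Q *ᵥ v)))) +
      (ZED_.X h *ᵥ (Q *ᵥ v)) ⬝ᵥ (N *ᵥ (ZED_.X h *ᵥ (Q *ᵥ v))) -
      2 * n0 * ((Q *ᵥ v) ⬝ᵥ (Q *ᵥ v)) := by
  have hQs := ZED_.herm hQ.1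
  have hA := ZED_.adM_sym y
  have hNs := ZED_.herm hN
  have e1 : Zn Q N n0 y h *ᵥ v =
      Q *ᵥ (ZED_.X h *ᵥ (N *ᵥ (adM y *ᵥ (Q *ᵥ v)))) +
      Q *ᵥ (adM y *ᵥ (N *ᵥ (ZED_.X h *ᵥ (Q *ᵥ v)))) +
      Q *ᵥ (ZED_.X h *ᵥ (N *ᵥ (ZED_.X h *ᵥ (Q *ᵥ v)))) - (2 * n0) • (Q *ᵥ v) := by
    unfold Zn
    change (Q * (ZED_.X h * N * adM y + adM y * N * ZED_.X h) * Q +
      Q * (ZED_.X h * N * ZED_.X h) * Q - (2 * n0) • Q) *ᵥ v = _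
    rw [Matrix.sub_mulVec, Matrix.smul_mulVec]
    simp only [Matrix.mulVec_mulVec, ← Matrix.add_mulVec]
    congr 2
    noncomm_ring
  have e2 : (ZED_.X h *ᵥ (N *ᵥ (adM y *ᵥ (Q *ᵥ v)))) ⬝ᵥ (Q *ᵥ v) =
      (ZED_.X h *ᵥ (Q *ᵥ v)) ⬝ᵥ (N *ᵥ (adM y *ᵥ (Q *ᵥ v))) := by
    rw [dotProduct_comm, ZED_.dmul (ZED_.X h), ZED_.X_transpose]
  have e3 : (adM y *ᵥ (N *ᵥ (ZED_.X h *ᵥ (Q *ᵥ v)))) ⬝ᵥ (Q *ᵥ v) =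
      (ZED_.X h *ᵥ (Q *ᵥ v)) ⬝ᵥ (N *ᵥ (adM y *ᵥ (Q *ᵥ v))) := by
    rw [dotProduct_comm, ZED_.dmul (adM y), hA, ZED_.dmul N, hNs, dotProduct_comm]
  have e4 : v ⬝ᵥ (Q *ᵥ v) = (Q *ᵥ v) ⬝ᵥ (Q *ᵥ v) := (ZED_.Q_dot hQ v v).symm
  have e5 : ∀ u : G → ℝ, v ⬝ᵥ (Q *ᵥ u) = (Q *ᵥ v) ⬝ᵥ u := by
    intro u
    rw [ZED_.dmul Q, hQs]
  rw [e1, dotProduct_sub, dotProduct_add, dotProduct_add, dotProduct_smul, e4, e5, e5, e5,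
    ZED_.dmul (ZED_.X h) (Q *ᵥ v), ZED_.X_transpose, ZED_.dmul (adM y) (Q *ᵥ v), hA,
    ZED_.dmul (ZED_.X h) (Q *ᵥ v), ZED_.X_transpose, smul_eq_mul]
  have e6 : (adM y *ᵥ (Q *ᵥ v)) ⬝ᵥ (N *ᵥ (ZED_.X h *ᵥ (Q *ᵥ v))) =
      (ZED_.X h *ᵥ (Q *ᵥ v)) ⬝ᵥ (N *ᵥ (adM y *ᵥ (Q *ᵥ v))) := by
    rw [ZED_.dmul N, hNs, dotProduct_comm]
  rw [e6]
  ring

end ZNB_

theorem prove_ZNB (h1 : T_ADM) (h2 : T_POL) (h3 : T_NRM) : T_ZNB := by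
  intro G _ _ Q N n0 M B j y hQ hN hN0 hM hform hB hQB h v
  have hv := ZED_.dot_nonneg v
  rw [ZNB_.Zn_form hQ hN]
  set w := Q *ᵥ v with hw
  have hws : ∑ x, w x = 0 := ZED_.Q_sum hQ v
  have hww : w ⬝ᵥ w ≤ v ⬝ᵥ v := ZED_.Q_le hQ v
  have hw0 := ZED_.dot_nonneg w
  obtain ⟨hadj, -⟩ := h1 G j
  have hA : (adM y *ᵥ w) ⬝ᵥ (adM y *ᵥ w) ≤ B ^ 2 * (w ⬝ᵥ w) := by
    have h4 := h2 G j y B hB hQB w hws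
    rw [hadj y w, ZED_.dot_self, ZED_.dot_self]
    exact h4
  have hNA : (N *ᵥ (adM y *ᵥ w)) ⬝ᵥ (N *ᵥ (adM y *ᵥ w)) ≤ M ^ 2 * (B ^ 2 * (w ⬝ᵥ w)) := by
    refine (h3 G N M hN hN0 hM hform _ (ZED_.A_sum y w hws)).trans ?_
    exact mul_le_mul_of_nonneg_left hA (by positivity)
  have hX : (ZED_.X h *ᵥ w) ⬝ᵥ (ZED_.X h *ᵥ w) ≤ 4 * (w ⬝ᵥ w) := ZED_.X_dot_le h w
  have hX0 := ZED_.dot_nonneg (ZED_.X h *ᵥ w)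
  have c1 : |(ZED_.X h *ᵥ w) ⬝ᵥ (N *ᵥ (adM y *ᵥ w))| ≤ 2 * M * B * (w ⬝ᵥ w) := by
    refine abs_le_of_sq_le_sq ?_ (by positivity)
    refine (ZED_.cs _ _).trans ?_
    have h5 : (2 * M * B * (w ⬝ᵥ w)) ^ 2 = (4 * (w ⬝ᵥ w)) * (M ^ 2 * (B ^ 2 * (w ⬝ᵥ w))) := by
      ring
    rw [h5]
    exact mul_le_mul hX hNA (ZED_.dot_nonneg _) (by positivity)
  have c2 : |(ZED_.X h *ᵥ w) ⬝ᵥ (N *ᵥ (ZED_.X h *ᵥ w))| ≤ 4 * M * (w ⬝ᵥ w) := by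
    refine (hform _ (ZNB_.X_sum h w hws)).trans ?_
    calc M * ((ZED_.X h *ᵥ w) ⬝ᵥ (ZED_.X h *ᵥ w)) ≤ M * (4 * (w ⬝ᵥ w)) :=
          mul_le_mul_of_nonneg_left hX hM
      _ = 4 * M * (w ⬝ᵥ w) := by ring
  have c3 : |2 * n0 * (w ⬝ᵥ w)| = 2 * |n0| * (w ⬝ᵥ w) := by
    rw [abs_mul, abs_mul, abs_of_nonneg hw0, abs_of_pos (by norm_num : (0 : ℝ) < 2)]
  have c4 : |2 * ((ZED_.X h *ᵥ w) ⬝ᵥ (N *ᵥ (adM y *ᵥ w))) +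
      (ZED_.X h *ᵥ w) ⬝ᵥ (N *ᵥ (ZED_.X h *ᵥ w)) - 2 * n0 * (w ⬝ᵥ w)| ≤
      (4 * M * B + 4 * M + 2 * |n0|) * (w ⬝ᵥ w) := by
    have h6 := abs_le.mp c1
    have h7 := abs_le.mp c2
    have h8 := abs_le.mp c3.le
    rw [abs_le]
    constructor <;> nlinarith [h6.1, h6.2, h7.1, h7.2, h8.1, h8.2]
  refine c4.trans (mul_le_mul_of_nonneg_left hww ?_)
  have := abs_nonneg n0
  positivity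

end Pool.Agent.RCG
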