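import Pool.Agent.RCG.Fin9
import Pool.Agent.RCG.Targets12
import Pool.Agent.RCG.SBN
import Pool.Agent.RCG.AGC
import Pool.Agent.RCG.CRD
import Pool.Agent.RCG.LIN
import Pool.Agent.RCG.SQC
import Pool.Agent.RCG.CLC
import Pool.Agent.RCG.QRB
import Pool.Agent.RCG.SQR
import Pool.Agent.RCG.LIF
import Pool.Agent.RCG.RCN
import Pool.Agent.RCG.WEX
import Pool.Agent.RCG.NRM
import Pool.Agent.RCG.ZNA
import Pool.Agent.RCG.ZNB
import Pool.Agent.RCG.CT1
import Pool.Agent.RCG.CT2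
import Pool.Agent.RCG.BEN
import Pool.Agent.RCG.TLB
import Pool.Agent.RCG.FRESH
import Pool.Agent.RCG.NUB
import Pool.Agent.RCG.FN1
import Pool.Agent.RCG.FRC
import Pool.Agent.RCG.PNN
import Pool.Agent.RCG.SPR
import Pool.Agent.RCG.PR9
import Pool.Agent.RCG.PBD
import Pool.Agent.RCG.CAV
import Pool.Agent.RCG.EIG
import Pool.Agent.RCG.DIV
import Pool.Agent.RCG.CHS
import Pool.Agent.RCG.GNR
import Pool.Agent.RCG.CNB
import Pool.Agent.RCG.GD9
import Pool.Agent.RCG.FN9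
import Pool.Agent.RCG.BC9

set_option autoImplicit false

/-!
# RCG: assembly of the sharp constant
-/

namespace Pool.Agent.RCG

theorem all_FRH (hBNS : T_BNS) (hRCG : T_RCG) (hZNM : T_ADM → T_POL → T_NRM → T_QRB → T_SQR →
    T_RCN → T_ZNM) (hCAT : T_CAT) : T_FRH := by
  have hSBN : T_SBN := prove_SBN hBNS prove_SPE
  have hCLC : T_CLC := prove_CLC prove_LIN prove_CEN2
  have hSQR : T_SQR := prove_SQR prove_SQC prove_CRD prove_QRB
  have hRCN : T_RCN := prove_RCN hRCG hCLC prove_CRD prove_DIM2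
  have hZN : T_ZNM := hZNM prove_ADM prove_POL prove_NRM prove_QRB hSQR hRCN
  have hCT1 : T_CT1 := prove_CT1 hSBN prove_QRB prove_ADM
  have hCT2 : T_CT2 := prove_CT2 hSBN (prove_ZNA prove_ADM)
    (prove_ZNB prove_ADM prove_POL prove_NRM) hZN
  have hTLB : T_TLB := prove_TLB all_FN7 prove_AGC
  have hFRESH : T_FRESH := prove_FRESH (prove_WEX prove_ADM prove_ITR) hCT1 hCT2 prove_BEN hTLB
    prove_ADM prove_CRD
  exact prove_FRC hFRESH prove_NUB (prove_FN1 hCAT prove_KES) (prove_PBD prove_PNN prove_ADM)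

theorem all_BC9 (hFRH : T_FRH) : T_BC9 := by
  have hPR9 : T_PR9 := prove_PR9 (prove_SPR prove_PNN) prove_ADM
  have hCNB : T_CNB := prove_CNB all_NUM hPR9 (prove_CAV prove_ADM prove_POL)
  have hDIV : T_DIV := prove_DIV prove_ADM (prove_EIG prove_ADM)
  exact prove_BC9 (prove_FN9 (prove_GD9 hFRH hCNB prove_CHS hDIV (prove_GNR (prove_GIR all_TR2))
    all_FN7 prove_ELEU) prove_ELE)

end Pool.Agent.RCG
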