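import Pool.Agent.RCG.Targets13
import Pool.Agent.RCG.GD9

set_option autoImplicit false

/-!
# RCG: GD9Q, the combination of the parts for given parameters (adaptation of `GD9.lean`)
-/

namespace Pool.Agent.RCG

open Finset Matrix

open GD9_ in
theorem prove_GD9Q (hFRH : T_FRHQ) (hCNB : T_CNB) (hDIV : T_DIV) (hGNR : T_GNR)
    (hFN7 : T_FN7) : T_GD9Q := by
  intro δ C C1 s q d1 hδ hC hC1e hs hd1pos hq hCk' hgood
  have hC1 : 0 < C1 := by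
    have : 0 < Real.log (1 + δ / 4) := Real.log_pos (by linarith)
    rw [hC1e]
    positivity
  have hC0 : 0 ≤ C := by linarith
  have hsd : 1 ≤ s * d1 := Nat.mul_pos hs hd1pos
  have hd1r : (1 : ℝ) ≤ d1 := by exact_mod_cast hd1pos
  have hsr : (1 : ℝ) ≤ s := by exact_mod_cast hs
  have hsdr : (1 : ℝ) ≤ (s : ℝ) * d1 := by exact_mod_cast hsd
  have hk1 : (1 : ℝ) ≤ 2 * (((s : ℝ) + 1) * d1) := by nlinarith
  have hCk := hCk' _ _ _ rfl rfl rfl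
  have hFk := hFRH δ C C1 hδ hC hC1e (s * d1) d1 q (2 * (((s : ℝ) + 1) * d1)) _ _ hsd hd1pos hq
    (by push_cast; ring) rfl rfl
  have h2dk : 2 * ((s * d1 : ℕ) : ℝ) ≤ 2 * (((s : ℝ) + 1) * d1) := by push_cast; linarith
  generalize 2 * (((s : ℝ) + 1) * (d1 : ℝ)) = k at hk1 hCk hFk h2dk hgood ⊢
  have hk0 : 0 < k := by linarith
  have hsk : 0 < √k := Real.sqrt_pos.mpr hk0
  have hl0 : 0 < (2 + δ) * √k := by positivity
  have hR0 : 0 < (2 + δ / 2) * √k := by positivity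
  have hRl : (2 + δ / 2) * √k < (2 + δ) * √k := mul_lt_mul_of_pos_right (by linarith) hsk
  generalize (2 + δ) * √k = l0 at hCk hFk hl0 hRl ⊢
  generalize (2 + δ / 2) * √k = R at hCk hFk hR0 hRl
  obtain ⟨K1, P1, h1⟩ := hFk
  obtain ⟨K2, P2, h2⟩ := hFN7 d1 hd1pos
  obtain ⟨K3, P3, h3⟩ := hgood
  have hκ : 0 ≤ kap d1 q k l0 R C (728 * C1) := kap_nonneg d1 q hk1 hl0 hRl hC0
    (by positivity)
  have hu : 0 ≤ C1 * Real.log k := mul_nonneg hC1.le (Real.log_nonneg hk1)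
  refine ⟨((s : ℝ) + 1) * (K2 + K3 + 2 * max K1 0),
    max (max P1 P2) (max P3 (20 + 2 * ((s * d1 : ℕ) : ℝ))), fun i hi => ?_⟩
  have hi1 : P1 ≤ (i.1 : ℝ) := (le_max_left _ _).trans ((le_max_left _ _).trans hi)
  have hi2 : P2 ≤ (i.1 : ℝ) := (le_max_right _ _).trans ((le_max_left _ _).trans hi)
  have hi3 : P3 ≤ (i.1 : ℝ) := (le_max_left _ _).trans ((le_max_right _ _).trans hi)
  have hi4 : 20 + 2 * ((s * d1 : ℕ) : ℝ) ≤ (i.1 : ℝ) :=
    (le_max_right _ _).trans ((le_max_right _ _).trans hi)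
  have h19 : 19 ≤ i.1 := by
    have : (19 : ℝ) ≤ i.1 := by
      have : (0 : ℝ) ≤ ((s * d1 : ℕ) : ℝ) := Nat.cast_nonneg _
      linarith
    exact_mod_cast this
  have h2d : 2 * (s * d1) < i.1 := by
    have : ((2 * (s * d1) : ℕ) : ℝ) < i.1 := by
      push_cast at hi4 ⊢
      linarith
    exact_mod_cast this
  have hp0 : (0 : ℝ) < i.1 := by
    have : (0 : ℝ) ≤ ((s * d1 : ℕ) : ℝ) := Nat.cast_nonneg _
    linarith
  obtain ⟨n, hn, hn2, g1, g2⟩ := h1 i.1 hi1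
  have g3 := h2 i hi2
  have g4 := h3 i hi3
  have g5 := hGNR i.1 (s * d1) n h2d hsd
  have hX0 : 0 ≤ max K1 0 * (i.1 : ℝ) ^ (-(1 / 3 : ℝ)) :=
    mul_nonneg (le_max_right _ _) (Real.rpow_nonneg hp0.le _)
  have hKX : K1 * (i.1 : ℝ) ^ (-(1 / 3 : ℝ)) ≤ max K1 0 * (i.1 : ℝ) ^ (-(1 / 3 : ℝ)) :=
    mul_le_mul_of_nonneg_right (le_max_left _ _) (Real.rpow_nonneg hp0.le _)
  have key := hCNB i.1 (s * d1) d1 n q R l0 (364 * √(2 * (d1 : ℝ))) (C * √k)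
    (C1 * Real.log k) (kap d1 q k l0 R C (728 * C1)) (max K1 0 * (i.1 : ℝ) ^ (-(1 / 3 : ℝ)))
    h19 hsd hn hn2 hq hR0 hRl (by positivity) hu hκ hX0 (by
      intro y' hy' hQB Q hQ1 hQ2 hQ3
      refine (g2 y' hy' hQB Q hQ1 hQ2 hQ3).trans ?_
      exact mul_le_mul_of_nonneg_right hKX (by positivity))
  have hdiv := hDIV (SL 2 i.1) s d1 l0 (rr l0 R (364 * √(2 * (d1 : ℝ))) (C1 * Real.log k)
    (kap d1 q k l0 R C (728 * C1))) hl0.le hCk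
  change (badCard (SL 2 i.1) ((s + 1) * d1) l0 : ℝ) ≤
    ((s : ℝ) + 1) * (K2 + K3 + 2 * max K1 0) * (i.1 : ℝ) ^ (-(1 / 3 : ℝ)) *
      (Fintype.card (SL 2 i.1) : ℝ) ^ ((s + 1) * d1)
  change (badCard (SL 2 i.1) d1 (364 * √(2 * (d1 : ℝ))) : ℝ) ≤
    K2 * (i.1 : ℝ) ^ (-(1 / 3 : ℝ)) * (Fintype.card (SL 2 i.1) : ℝ) ^ d1 at g3
  change (badCard (SL 2 i.1) (s * d1) (C * √k) : ℝ) ≤
    K3 * (i.1 : ℝ) ^ (-(1 / 3 : ℝ)) * (Fintype.card (SL 2 i.1) : ℝ) ^ (s * d1) at g4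
  set c : ℝ := (Fintype.card (SL 2 i.1) : ℝ) with hc
  set e : ℝ := (i.1 : ℝ) ^ (-(1 / 3 : ℝ)) with he
  have hc0 : 0 ≤ c := by rw [hc]; positivity
  have e1 : (badCard (SL 2 i.1) d1 (364 * √(2 * (d1 : ℝ))) : ℝ) * c ^ (s * d1) ≤
      K2 * e * c ^ ((s + 1) * d1) := by
    have := mul_le_mul_of_nonneg_right g3 (pow_nonneg hc0 (s * d1))
    refine this.trans (le_of_eq ?_)
    rw [mul_assoc, ← pow_add]
    congr 2
    ring
  have e2 : (badCard (SL 2 i.1) (s * d1) (C * √k) : ℝ) * c ^ d1 ≤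
      K3 * e * c ^ ((s + 1) * d1) := by
    have := mul_le_mul_of_nonneg_right g4 (pow_nonneg hc0 d1)
    refine this.trans (le_of_eq ?_)
    rw [mul_assoc, ← pow_add]
    congr 2
    ring
  have e3 : (Nat.card {y : Fin (s * d1) → SL 2 i.1 // ∃ m ≤ n, Rel m y} : ℝ) * c ^ d1 ≤
      max K1 0 * e * c ^ ((s + 1) * d1) := by
    have f1 : (2 * ((s * d1 : ℕ) : ℝ)) ^ n ≤ k ^ n :=
      pow_le_pow_left₀ (by positivity) h2dk n
    have f2 : (i.1 : ℝ) * (Nat.card {y : Fin (s * d1) → SL 2 i.1 // ∃ m ≤ n, Rel m y} : ℝ) ≤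
        8 * ((n : ℝ) + 1) ^ 2 * k ^ n * c ^ (s * d1) := by
      refine g5.trans ?_
      refine mul_le_mul_of_nonneg_right ?_ (pow_nonneg hc0 _)
      exact mul_le_mul_of_nonneg_left f1 (by positivity)
    have f3 : (Nat.card {y : Fin (s * d1) → SL 2 i.1 // ∃ m ≤ n, Rel m y} : ℝ) ≤
        8 * ((n : ℝ) + 1) ^ 2 * k ^ n / i.1 * c ^ (s * d1) := by
      rw [div_mul_eq_mul_div, le_div_iff₀ hp0]
      linarith
    have f4 : 8 * ((n : ℝ) + 1) ^ 2 * k ^ n / i.1 * c ^ (s * d1) ≤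
        max K1 0 * e * c ^ (s * d1) :=
      mul_le_mul_of_nonneg_right (g1.trans hKX) (pow_nonneg hc0 _)
    have := mul_le_mul_of_nonneg_right (f3.trans f4) (pow_nonneg hc0 d1)
    refine this.trans (le_of_eq ?_)
    rw [mul_assoc, ← pow_add]
    congr 2
    ring
  have e4 : max K1 0 * e * c ^ (s * d1 + d1) = max K1 0 * e * c ^ ((s + 1) * d1) := by
    congr 2
    ring
  rw [e4] at key
  have hs0 : (0 : ℝ) ≤ (s : ℝ) + 1 := by positivity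
  refine hdiv.trans ((mul_le_mul_of_nonneg_left (key.trans (add_le_add (add_le_add
    (add_le_add e1 e2) e3) le_rfl)) hs0).trans (le_of_eq ?_))
  ring

end Pool.Agent.RCG
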