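import Pool.Agent.RCG.Targets13
import Pool.Agent.RCG.BC7

set_option autoImplicit false

/-!
# RCG: QFI, from `QIN` and `FN7` to the statement about all large primes (helper85)
-/

namespace Pool.Agent.RCG

open Finset

namespace QFI_

theorem step {d : ℕ} {B : ℝ} (h : Good G2 (fun p => (p.1 : ℝ)) d B (1 / 3)) :
    ∃ P : ℕ, ∀ (p : ℕ) [Fact p.Prime], P ≤ p → (badCard (SL 2 p) d B : ℝ) ≤
      (p : ℝ) ^ (-(1 / 4 : ℝ)) * (Fintype.card (SL 2 p) : ℝ) ^ d := by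
  obtain ⟨K, P, hKP⟩ := h
  refine ⟨max ⌈P⌉₊ ⌈(max K 1) ^ 12⌉₊, ?_⟩
  intro p hp hpP
  have hp1 : (P : ℝ) ≤ p := by
    have : ⌈P⌉₊ ≤ p := (le_max_left _ _).trans hpP
    exact (Nat.le_ceil P).trans (by exact_mod_cast this)
  have hp2 : (max K 1) ^ 12 ≤ (p : ℝ) := by
    have : ⌈(max K 1) ^ 12⌉₊ ≤ p := (le_max_right _ _).trans hpP
    exact (Nat.le_ceil _).trans (by exact_mod_cast this)
  have hp0 : (0 : ℝ) < p := by exact_mod_cast hp.out.pos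
  have h5 := hKP ⟨p, hp.out⟩ hp1
  refine h5.trans ?_
  apply mul_le_mul_of_nonneg_right (BC7_.pow_bound K p hp0 hp2)
  positivity

theorem pw {d : ℕ} (hd : 1 ≤ d) (A : ℝ) :
    (2 + A * (d : ℝ) ^ (-(1 / 14 : ℝ))) * √(2 * (d : ℝ)) =
      2 * √(2 * (d : ℝ)) + A * 2 ^ (1 / 14 : ℝ) * (2 * (d : ℝ)) ^ (3 / 7 : ℝ) := by
  have hd0 : (0 : ℝ) < d := by exact_mod_cast hd
  have h2 : (0 : ℝ) < 2 * (d : ℝ) := by positivity
  have h3 : (d : ℝ) ^ (-(1 / 14 : ℝ)) =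
      2 ^ (1 / 14 : ℝ) * (2 * (d : ℝ)) ^ (-(1 / 14 : ℝ)) := by
    rw [Real.mul_rpow (by norm_num) hd0.le, ← mul_assoc, ← Real.rpow_add (by norm_num)]
    norm_num
  have h4 : (2 * (d : ℝ)) ^ (-(1 / 14 : ℝ)) * √(2 * (d : ℝ)) =
      (2 * (d : ℝ)) ^ (3 / 7 : ℝ) := by
    rw [Real.sqrt_eq_rpow, ← Real.rpow_add h2]
    norm_num
  rw [h3, ← h4]
  ring

end QFI_

theorem prove_QFI (h1 : T_QIN) (h2 : T_FN7) : T_QFI := by
  obtain ⟨A, hA, hQ⟩ := h1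
  refine ⟨A * 2 ^ (1 / 14 : ℝ), by positivity, fun d hd => ?_⟩
  have h3 := hQ d hd
  rw [QFI_.pw hd A] at h3
  obtain ⟨P1, hP1⟩ := QFI_.step (h2 d hd)
  obtain ⟨P2, hP2⟩ := QFI_.step h3
  refine ⟨max P1 P2, ?_⟩
  intro p hp hpP
  rcases min_choice (364 * √(2 * (d : ℝ)))
    (2 * √(2 * (d : ℝ)) + A * 2 ^ (1 / 14 : ℝ) * (2 * (d : ℝ)) ^ (3 / 7 : ℝ)) with h | h
  · rw [h]
    exact hP1 p ((le_max_left _ _).trans hpP)
  · rw [h]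
    exact hP2 p ((le_max_right _ _).trans hpP)

end Pool.Agent.RCG
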