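import Pool.Agent.RCG.Targets13

set_option autoImplicit false

/-!
# RCG10: the strong induction (block QIN, helper75)
-/

namespace Pool.Agent.RCG

namespace QIN_

/-- `d ^ (-1/14)` -/
noncomputable def e (d : ℕ) : ℝ := (d : ℝ) ^ (-(1 / 14 : ℝ))

lemma e_pos {d : ℕ} (hd : 1 ≤ d) : 0 < e d := by
  have : (0 : ℝ) < d := by exact_mod_cast hd
  unfold e
  positivity

lemma e_pow {d : ℕ} (_hd : 1 ≤ d) : e d ^ 14 = 1 / d := by
  have h0 : (0 : ℝ) ≤ d := Nat.cast_nonneg d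
  unfold e
  rw [← Real.rpow_natCast, ← Real.rpow_mul h0]
  norm_num
  rw [Real.rpow_neg h0, Real.rpow_one]

lemma e_le_one {d : ℕ} (hd : 1 ≤ d) : e d ≤ 1 := by
  have h1 : (1 : ℝ) ≤ d := by exact_mod_cast hd
  have h2 : e d ^ 14 ≤ 1 ^ 14 := by
    rw [e_pow hd, one_pow, div_le_one (by linarith)]
    exact h1
  exact le_of_pow_le_pow_left₀ (by norm_num) (by norm_num) h2

lemma e_ge {d : ℕ} (hd : 1 ≤ d) : 1 / (d : ℝ) ≤ e d := by
  rw [← e_pow hd]
  exact pow_le_of_le_one (e_pos hd).le (e_le_one hd) (by norm_num)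

lemma e_half {d d' : ℕ} (hd : 1 ≤ d) (hd' : 1 ≤ d') (h : d ≤ 2 * d') :
    e d' ≤ 25 / 22 * e d := by
  have h0 := e_pos hd
  have h1 : (0 : ℝ) < d := by exact_mod_cast hd
  have h2 : (0 : ℝ) < d' := by exact_mod_cast hd'
  have h3 : (d : ℝ) ≤ 2 * d' := by exact_mod_cast h
  have h4 : e d' ^ 14 ≤ (25 / 22 * e d) ^ 14 := by
    rw [mul_pow, e_pow hd, e_pow hd']
    have h5 : 1 / (d' : ℝ) ≤ 2 * (1 / d) := by
      rw [← sub_nonneg]
      have : 2 * (1 / (d : ℝ)) - 1 / d' = (2 * d' - d) / (d * d') := by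
        field_simp
      rw [this]
      exact div_nonneg (by linarith) (by positivity)
    refine h5.trans ?_
    gcongr
    norm_num
  exact le_of_pow_le_pow_left₀ (by norm_num) (by positivity) h4

/-- the induction for an abstract predicate -/
lemma core (Gd : ℕ → ℝ → Prop) (hmono : ∀ (d : ℕ) (B B' : ℝ), B ≤ B' → Gd d B → Gd d B')
    (hst : ∀ (t : ℝ) (d : ℕ), 0 < t → t ≤ 1 / 2 → 10 ^ 52 / t ^ 28 ≤ d →
      (∀ d' : ℕ, d ≤ 2 * d' → d' < d → Gd d' ((2 + 5 / 4 * t ^ 2) * √(2 * (d' : ℝ)))) →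
      Gd d ((2 + 11 / 10 * t ^ 2) * √(2 * (d : ℝ))))
    (D0 : ℕ) (h9 : ∀ d : ℕ, D0 ≤ d → Gd d ((2 + 1 / 4) * √(2 * (d : ℝ))))
    (h7 : ∀ d : ℕ, 1 ≤ d → Gd d (364 * √(2 * (d : ℝ)))) :
    ∃ A : ℝ, 0 ≤ A ∧ ∀ d : ℕ, 1 ≤ d → Gd d ((2 + A * e d) * √(2 * (d : ℝ))) := by
  set A0 : ℝ := max (10 ^ 4) D0 with hA0
  have hA4 : (10 : ℝ) ^ 4 ≤ A0 := le_max_left _ _
  have hAD : (D0 : ℝ) ≤ A0 := le_max_right _ _
  have hA1 : (1 : ℝ) ≤ A0 := by linarith [show (1 : ℝ) ≤ 10 ^ 4 by norm_num]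
  have hA14 : (10 : ℝ) ^ 56 ≤ A0 ^ 14 := by
    calc (10 : ℝ) ^ 56 = (10 ^ 4) ^ 14 := by norm_num
      _ ≤ A0 ^ 14 := pow_le_pow_left₀ (by norm_num) hA4 14
  have key : ∀ d : ℕ, 1 ≤ d → D0 ≤ d →
      Gd d ((2 + min (1 / 4) (A0 * e d)) * √(2 * (d : ℝ))) := by
    intro d
    induction d using Nat.strong_induction_on with
    | _ d ih =>
      intro hd hD
      by_cases hc : 1 / 4 ≤ A0 * e d
      · rw [min_eq_left hc]
        exact h9 d hD
      push Not at hc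
      rw [min_eq_right hc.le]
      have he := e_pos hd
      have hd0 : (0 : ℝ) < d := by exact_mod_cast hd
      set δ : ℝ := A0 * e d with hδ
      have hδ0 : 0 < δ := by positivity
      have hδ14 : δ ^ 14 = A0 ^ 14 / d := by
        rw [hδ, mul_pow, e_pow hd]
        ring
      -- the size of `d`
      have hbig : 4 ^ 14 * A0 ^ 14 < d := by
        have h1 : (4 * δ) ^ 14 < 1 ^ 14 :=
          pow_lt_pow_left₀ (by linarith) (by positivity) (by norm_num)
        rw [mul_pow, hδ14, one_pow, ← mul_div_assoc, div_lt_one hd0] at h1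
        exact h1
      have hbig2 : 2 * A0 + 2 < d := by
        have h1 : A0 ≤ A0 ^ 14 := le_self_pow₀ hA1 (by norm_num)
        have h2 : (4 : ℝ) * A0 ≤ 4 ^ 14 * A0 ^ 14 := by
          apply mul_le_mul (by norm_num) h1 (by positivity) (by norm_num)
        linarith
      set t : ℝ := √(10 * δ / 11) with ht
      have ht0 : 0 < t := by rw [ht]; positivity
      have ht2 : t ^ 2 = 10 * δ / 11 := Real.sq_sqrt (by positivity)
      have hth : t ≤ 1 / 2 := by
        rw [ht]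
        apply Real.sqrt_le_iff.2
        constructor <;> linarith
      have ht28 : t ^ 28 = (10 / 11) ^ 14 * (A0 ^ 14 / d) := by
        have h1 : t ^ 28 = (t ^ 2) ^ 14 := by ring
        rw [h1, ht2, ← hδ14]
        ring
      have h52 : 10 ^ 52 / t ^ 28 ≤ (d : ℝ) := by
        rw [div_le_iff₀ (by positivity), ht28]
        have h1 : (d : ℝ) * ((10 / 11) ^ 14 * (A0 ^ 14 / d)) = (10 / 11) ^ 14 * A0 ^ 14 := by
          field_simp
        rw [h1]
        calc (10 : ℝ) ^ 52 ≤ (10 / 11) ^ 14 * 10 ^ 56 := by norm_num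
          _ ≤ _ := by gcongr
      have e1 : 2 + δ = 2 + 11 / 10 * t ^ 2 := by
        rw [ht2]
        ring
      rw [e1]
      refine hst t d ht0 hth h52 fun d' h2d hlt => ?_
      have h2d' : (d : ℝ) ≤ 2 * d' := by exact_mod_cast h2d
      have hd'D : D0 ≤ d' := by
        have : (D0 : ℝ) ≤ d' := by linarith
        exact_mod_cast this
      have hd'1 : 1 ≤ d' := by
        have : (1 : ℝ) ≤ d' := by linarith
        exact_mod_cast this
      refine hmono d' _ _ ?_ (ih d' hlt hd'1 hd'D)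
      have h3 : min (1 / 4) (A0 * e d') ≤ 5 / 4 * t ^ 2 := by
        refine (min_le_right _ _).trans ?_
        rw [ht2]
        have h4 := e_half hd hd'1 h2d
        calc A0 * e d' ≤ A0 * (25 / 22 * e d) := by gcongr
          _ = 5 / 4 * (10 * δ / 11) := by rw [hδ]; ring
      gcongr
  refine ⟨A0 + 362 * (D0 + 1), by positivity, fun d hd => ?_⟩
  have he := e_pos hd
  rcases le_or_gt D0 d with hD | hD
  · refine hmono d _ _ ?_ (key d hd hD)
    gcongr
    refine (min_le_right _ _).trans ?_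
    gcongr
    have : (0 : ℝ) ≤ 362 * (D0 + 1) := by positivity
    linarith
  · refine hmono d _ _ ?_ (h7 d hd)
    gcongr
    have hd0 : (0 : ℝ) < d := by exact_mod_cast hd
    have hDd : (d : ℝ) ≤ D0 + 1 := by
      have : (d : ℝ) < D0 := by exact_mod_cast hD
      linarith
    have h1 := e_ge hd
    have h2 : 1 ≤ ((D0 : ℝ) + 1) * e d := by
      calc (1 : ℝ) = d * (1 / d) := by field_simp
        _ ≤ (D0 + 1) * e d := by gcongr
    have h3 : 0 ≤ A0 * e d := by positivity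
    nlinarith

end QIN_

theorem prove_QIN (h1 : T_QST) (h2 : T_FN9) (h3 : T_FN7) (h4 : T_ELE) : T_QIN := by
  obtain ⟨D0, hD0⟩ := h2 (1 / 4) (by norm_num)
  obtain ⟨hm, -, -⟩ := h4 Nat.Primes G2 (fun p => (p.1 : ℝ)) (1 / 3)
  exact QIN_.core (fun d B => Good G2 (fun p => (p.1 : ℝ)) d B (1 / 3)) hm h1 D0 hD0 h3

end Pool.Agent.RCG
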