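import Pool.Agent.RCG.Targets13

set_option autoImplicit false

/-!
# RCG, target QST: the induction step of RCG10
-/

namespace Pool.Agent.RCG

open Finset Matrix

namespace QST_

theorem sz {t d : ℝ} {s : ℕ} (h0 : 0 < t) (h1 : t ≤ 1 / 2) (hd : 10 ^ 52 / t ^ 28 ≤ d)
    (hs : (s : ℝ) ≤ 10 ^ 18 / t ^ 10) :
    2 * ((s : ℝ) + 1) ≤ d ∧ 2 * (s : ℝ) ≤ t ^ 2 / 10 * √(2 * d) := by
  obtain ⟨T, hT⟩ : ∃ T : ℝ, T = 1 / t := ⟨_, rfl⟩
  have hT2 : 2 ≤ T := by rw [hT, le_div_iff₀ h0]; linarith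
  have hT1 : 1 ≤ T := by linarith
  have hT0 : 0 < T := by linarith
  have e1 : (10 : ℝ) ^ 52 / t ^ 28 = 10 ^ 52 * T ^ 28 := by rw [hT]; field_simp
  have e2 : (10 : ℝ) ^ 18 / t ^ 10 = 10 ^ 18 * T ^ 10 := by rw [hT]; field_simp
  have htT : t * T = 1 := by rw [hT]; field_simp
  rw [e1] at hd
  rw [e2] at hs
  have h10 : (1 : ℝ) ≤ T ^ 10 := one_le_pow₀ hT1
  have h14 : (0 : ℝ) < T ^ 14 := by positivity
  have h28 : T ^ 10 ≤ T ^ 28 := pow_le_pow_right₀ hT1 (by norm_num)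
  have hd0 : 0 ≤ d := le_trans (by positivity) hd
  constructor
  · nlinarith
  · have h3 : 10 ^ 26 * T ^ 14 ≤ √(2 * d) := by
      apply Real.le_sqrt_of_sq_le
      calc (10 ^ 26 * T ^ 14) ^ 2 = 10 ^ 52 * T ^ 28 := by ring
        _ ≤ 2 * d := by linarith
    have h4 : t ^ 2 / 10 * (10 ^ 26 * T ^ 14) = 10 ^ 25 * T ^ 12 := by
      calc t ^ 2 / 10 * (10 ^ 26 * T ^ 14) = 10 ^ 25 * T ^ 12 * (t * T) ^ 2 := by ring
        _ = _ := by rw [htT]; ring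
    have h5 : T ^ 10 ≤ T ^ 12 := pow_le_pow_right₀ hT1 (by norm_num)
    calc 2 * (s : ℝ) ≤ 2 * (10 ^ 18 * T ^ 10) := by linarith
      _ ≤ 10 ^ 25 * T ^ 12 := by nlinarith
      _ = t ^ 2 / 10 * (10 ^ 26 * T ^ 14) := h4.symm
      _ ≤ t ^ 2 / 10 * √(2 * d) := mul_le_mul_of_nonneg_left h3 (by positivity)

end QST_

theorem prove_QST (hG : T_GD9Q) (hC : T_CHQ) (hE : T_ELE) : T_QST := by
  intro t d h0 h1 hd IH
  obtain ⟨s, q, hs, hq, -, hst, H⟩ := hC t h0 h1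
  obtain ⟨z1, z2⟩ := QST_.sz h0 h1 hd hst
  obtain ⟨d1, hd1⟩ : ∃ d1 : ℕ, d1 = d / (s + 1) := ⟨_, rfl⟩
  obtain ⟨r, hr⟩ : ∃ r : ℕ, r = d % (s + 1) := ⟨_, rfl⟩
  have e : (s + 1) * d1 + r = d := by rw [hd1, hr]; exact Nat.div_add_mod d (s + 1)
  have hrs : r ≤ s := by
    have := Nat.mod_lt d (show 0 < s + 1 by omega)
    omega
  have z1' : 2 * (s + 1) ≤ d := by exact_mod_cast z1
  have hd2 : 2 ≤ d1 := by rw [hd1, Nat.le_div_iff_mul_le (by omega)]; exact z1'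
  have hds : d ≤ 2 * (s * d1) := by
    obtain ⟨a, rfl⟩ := Nat.exists_eq_add_of_le hs
    obtain ⟨b, rfl⟩ := Nat.exists_eq_add_of_le hd2
    rw [← e]
    nlinarith [Nat.zero_le (a * b)]
  have hdl : s * d1 < d := by rw [← e]; nlinarith
  obtain ⟨hmono, -, hadd⟩ := hE _ G2 (fun p => (p.1 : ℝ)) (1 / 3)
  have hk : (d : ℝ) ≤ 2 * (((s : ℝ) + 1) * d1) := by
    have h3 : (d : ℝ) ≤ 2 * ((s : ℝ) * d1) := by exact_mod_cast hds
    have h4 : (0 : ℝ) ≤ d1 := by positivity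
    nlinarith
  have ht : 0 < t ^ 2 := by positivity
  have hg := hG (t ^ 2) (2 + 5 / 4 * t ^ 2) (40 + 80 / Real.log (1 + t ^ 2 / 4)) s q d1 ht
    (by linarith) rfl (by omega) (by omega) hq (by
      intro k l0 R hk' hl0 hR
      refine H d1 k l0 R _ (by omega) hk' ?_ hl0 hR rfl
      rw [hk']
      refine le_trans ?_ hk
      refine le_trans ?_ hd
      gcongr <;> norm_num) (by
      refine hmono _ _ _ ?_ (IH (s * d1) hds hdl)
      apply mul_le_mul_of_nonneg_left _ (by positivity)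
      apply Real.sqrt_le_sqrt
      push_cast
      have h4 : (0 : ℝ) ≤ d1 := by positivity
      nlinarith)
  have h5 := hadd _ r _ hg
  rw [e] at h5
  refine hmono _ _ _ ?_ h5
  have h6 : √(2 * (((s : ℝ) + 1) * (d1 : ℝ))) ≤ √(2 * (d : ℝ)) := by
    apply Real.sqrt_le_sqrt
    have h7 : (((s : ℝ) + 1) * (d1 : ℝ)) + r = d := by exact_mod_cast e
    have h8 : (0 : ℝ) ≤ r := by positivity
    linarith
  have h9 : (r : ℝ) ≤ s := by exact_mod_cast hrs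
  calc (2 + t ^ 2) * √(2 * (((s : ℝ) + 1) * (d1 : ℝ))) + 2 * (r : ℝ)
      ≤ (2 + t ^ 2) * √(2 * (d : ℝ)) + t ^ 2 / 10 * √(2 * (d : ℝ)) := by
        apply add_le_add
        · exact mul_le_mul_of_nonneg_left h6 (by positivity)
        · linarith
    _ = (2 + 11 / 10 * t ^ 2) * √(2 * (d : ℝ)) := by ring

end Pool.Agent.RCG
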