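import Pool.Agent.RCG.Fin11
import Pool.Agent.RCG.FN1Q
import Pool.Agent.RCG.FRCQ
import Pool.Agent.RCG.GD9Q
import Pool.Agent.RCG.CHA
import Pool.Agent.RCG.CHB
import Pool.Agent.RCG.CHC
import Pool.Agent.RCG.CHD
import Pool.Agent.RCG.CHE
import Pool.Agent.RCG.CHQ
import Pool.Agent.RCG.QST
import Pool.Agent.RCG.QIN
import Pool.Agent.RCG.QFI

set_option autoImplicit false

/-!
# RCG: assembly of the bound `2 √(k - 1) + C k^(3/7)`
-/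

namespace Pool.Agent.RCG

open Finset

theorem all_QFI (hBNS : T_BNS) (hRCG : T_RCG) (hZNM : T_ADM → T_POL → T_NRM → T_QRB → T_SQR →
    T_RCN → T_ZNM) (hCAT : T_CAT) : T_QFI := by
  have hSBN : T_SBN := prove_SBN hBNS prove_SPE
  have hCLC : T_CLC := prove_CLC prove_LIN prove_CEN2
  have hSQR : T_SQR := prove_SQR prove_SQC prove_CRD prove_QRB
  have hRCN : T_RCN := prove_RCN hRCG hCLC prove_CRD prove_DIM2
  have hZN : T_ZNM := hZNM prove_ADM prove_POL prove_NRM prove_QRB hSQR hRCN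
  have hCT1 : T_CT1 := prove_CT1 hSBN prove_QRB prove_ADM
  have hCT2 : T_CT2 := prove_CT2 hSBN (prove_ZNA prove_ADM)
    (prove_ZNB prove_ADM prove_POL prove_NRM) hZN
  have hTLB : T_TLB := prove_TLB all_FN7 prove_AGC
  have hFRESH : T_FRESH := prove_FRESH (prove_WEX prove_ADM prove_ITR) hCT1 hCT2 prove_BEN hTLB
    prove_ADM prove_CRD
  have hPBD : T_PBD := prove_PBD prove_PNN prove_ADM
  have hFRH : T_FRH := prove_FRC hFRESH prove_NUB (prove_FN1 hCAT prove_KES) hPBD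
  have hFRHQ : T_FRHQ := prove_FRCQ hFRESH prove_NUB (prove_FN1Q hCAT prove_KES) hPBD
  have hPR9 : T_PR9 := prove_PR9 (prove_SPR prove_PNN) prove_ADM
  have hCNB : T_CNB := prove_CNB all_NUM hPR9 (prove_CAV prove_ADM prove_POL)
  have hDIV : T_DIV := prove_DIV prove_ADM (prove_EIG prove_ADM)
  have hGNR : T_GNR := prove_GNR (prove_GIR all_TR2)
  have hFN9 : T_FN9 := prove_FN9 (prove_GD9 hFRH hCNB prove_CHS hDIV hGNR all_FN7 prove_ELEU)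
    prove_ELE
  have hGD9Q : T_GD9Q := prove_GD9Q hFRHQ hCNB hDIV hGNR all_FN7
  have hCHQ : T_CHQ := prove_CHQ prove_CHA prove_CHB prove_CHC prove_CHD prove_CHE
  have hQST : T_QST := prove_QST hGD9Q hCHQ prove_ELE
  exact prove_QFI (prove_QIN hQST hFN9 all_FN7 prove_ELE) all_FN7

namespace FIN13_

theorem sqrt_step (d : ℕ) (hd : 1 ≤ d) : 2 * √(2 * (d : ℝ)) ≤
    2 * √(2 * (d : ℝ) - 1) + (2 * (d : ℝ)) ^ (3 / 7 : ℝ) := by
  have hd1 : (1 : ℝ) ≤ d := by exact_mod_cast hd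
  have h1 : (1 : ℝ) ≤ √(2 * (d : ℝ) - 1) := by
    rw [Real.one_le_sqrt]
    linarith
  have h2 : √(2 * (d : ℝ)) ≤ √(2 * (d : ℝ) - 1) + 1 / 2 := by
    rw [Real.sqrt_le_left (by linarith)]
    have h3 : √(2 * (d : ℝ) - 1) ^ 2 = 2 * (d : ℝ) - 1 := Real.sq_sqrt (by linarith)
    nlinarith
  have h4 : (1 : ℝ) ≤ (2 * (d : ℝ)) ^ (3 / 7 : ℝ) :=
    Real.one_le_rpow (by linarith) (by norm_num)
  linarith

end FIN13_

/-- the statement with `2 √(k - 1)` -/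
theorem rate (hQFI : T_QFI) (hE : T_ELEU) : ∃ C : ℝ, 0 ≤ C ∧ ∀ d : ℕ, 1 ≤ d → ∃ P : ℕ,
    ∀ (p : ℕ) [Fact p.Prime], P ≤ p → (badCard (SL 2 p) d (min (364 * √(2 * (d : ℝ)))
      (2 * √(2 * (d : ℝ) - 1) + C * (2 * (d : ℝ)) ^ (3 / 7 : ℝ))) : ℝ) ≤
        (p : ℝ) ^ (-(1 / 4 : ℝ)) * (Fintype.card (SL 2 p) : ℝ) ^ d := by
  obtain ⟨A, hA, h⟩ := hQFI
  refine ⟨A + 1, by linarith, fun d hd => ?_⟩
  obtain ⟨P, hP⟩ := h d hd
  refine ⟨P, fun p hp hpP => ?_⟩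
  refine le_trans ?_ (hP p hpP)
  have h1 := FIN13_.sqrt_step d hd
  have hB : min (364 * √(2 * (d : ℝ))) (2 * √(2 * (d : ℝ)) + A * (2 * (d : ℝ)) ^ (3 / 7 : ℝ)) ≤
      min (364 * √(2 * (d : ℝ)))
        (2 * √(2 * (d : ℝ) - 1) + (A + 1) * (2 * (d : ℝ)) ^ (3 / 7 : ℝ)) := by
    refine min_le_min le_rfl ?_
    linarith
  exact_mod_cast (hE (SL 2 p)).1 d _ _ hB

end Pool.Agent.RCG
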