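import Pool.Agent.RCG.Targets14

set_option autoImplicit false

/-!
# RCG: final assembly of RCG11 (few exceptional eigenvalues in every representation)
-/

namespace Pool.Agent.RCG

open Finset

namespace FIN14_

/-- from functions on `EuclideanSpace` to functions -/
theorem conv (hT : T_RTP) {H : Type} [Group H] [Fintype H] {d : ℕ} (s : Fin d → H) (R ν : ℝ)
    (h : SPS s R ν) (W E : Submodule ℂ (H → ℂ))
    (hW0 : ∀ f ∈ W, ∑ x, f x = 0) (hW : ∀ g : H, ∀ f ∈ W, (fun x => f (x * g)) ∈ W)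
    (hEW : E ≤ W) (hE : ∀ f ∈ E, f ≠ 0 → R ^ 2 * ∑ x, ‖f x‖ ^ 2 <
      ∑ x, ‖∑ i : Fin d, (f (x * s i) + f (x * (s i)⁻¹))‖ ^ 2) :
    (Module.finrank ℂ E : ℝ) ≤ ν * Module.finrank ℂ W := by
  classical
  obtain ⟨hRT, -⟩ := hT H
  set e : (H → ℂ) ≃ₗ[ℂ] EuclideanSpace ℂ H := (WithLp.linearEquiv 2 ℂ (H → ℂ)).symm with he
  have he_apply : ∀ (f : H → ℂ) (x : H), e f x = f x := fun f x => rfl
  have hAL : ∀ (f : H → ℂ) (x : H), AL s (e f) x = ∑ i : Fin d, (f (x * s i) + f (x * (s i)⁻¹)) := by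
    intro f x
    unfold AL
    rw [LinearMap.sum_apply]
    have h1 : (∑ i : Fin d, (RT (s i) + RT (s i)⁻¹) (e f)) x =
        ∑ i : Fin d, ((RT (s i) + RT (s i)⁻¹) (e f)) x := by
      simp
    rw [h1]
    refine Finset.sum_congr rfl fun i _ => ?_
    rw [LinearMap.add_apply]
    have h2 : (RT (s i) (e f) + RT (s i)⁻¹ (e f)) x = RT (s i) (e f) x + RT (s i)⁻¹ (e f) x := rfl
    rw [h2, hRT, hRT, he_apply, he_apply]
  have h1 := h (W.map e.toLinearMap) ?_ (E.map e.toLinearMap) (Submodule.map_mono hEW) ?_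
  · have e1 : Module.finrank ℂ (E.map e.toLinearMap) = Module.finrank ℂ E :=
      LinearEquiv.finrank_map_eq e E
    have e2 : Module.finrank ℂ (W.map e.toLinearMap) = Module.finrank ℂ W :=
      LinearEquiv.finrank_map_eq e W
    rw [e1, e2] at h1
    exact h1
  · constructor
    · rintro f ⟨g, hg, rfl⟩
      exact hW0 g hg
    · rintro g f ⟨u, hu, rfl⟩
      refine ⟨fun x => u (x * g), hW g u hu, ?_⟩
      ext x
      rw [hRT]
      rfl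
  · rintro f ⟨g, hg, rfl⟩ hf
    have hg0 : g ≠ 0 := by
      rintro rfl
      exact hf (map_zero _)
    have h2 := hE g hg hg0
    have e1 : ‖(e : (H → ℂ) →ₗ[ℂ] EuclideanSpace ℂ H) g‖ ^ 2 = ∑ x, ‖g x‖ ^ 2 := by
      rw [EuclideanSpace.norm_sq_eq]
      rfl
    have e2 : ‖AL s ((e : (H → ℂ) →ₗ[ℂ] EuclideanSpace ℂ H) g)‖ ^ 2 =
        ∑ x, ‖∑ i : Fin d, (g (x * s i) + g (x * (s i)⁻¹))‖ ^ 2 := by
      rw [EuclideanSpace.norm_sq_eq]
      refine Finset.sum_congr rfl fun x _ => ?_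
      have h3 : AL s ((e : (H → ℂ) →ₗ[ℂ] EuclideanSpace ℂ H) g) x =
        ∑ i : Fin d, (g (x * s i) + g (x * (s i)⁻¹)) := hAL g x
      rw [h3]
    rw [← e1, ← e2, ← mul_pow] at h2
    exact lt_of_pow_lt_pow_left₀ 2 (norm_nonneg _) h2

/-- from `SL (2, p)` to `PSL (2, p)` -/
theorem count (hSPQ : T_SPQ) (hQUC : T_QUC) (p : ℕ) [Fact p.Prime] (d : ℕ) (ε : ℝ)
    (H : Type) [Group H] [Fintype H] (π : SL 2 p →* H) (hπ : Function.Surjective π)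
    (R ν : ℝ → ℝ)
    (h : (Nat.card {y : Fin d → SL 2 p // ¬ ∀ θ : ℝ, 0 ≤ θ → θ ≤ 1 → SPS y (R θ) (ν θ)} : ℝ) ≤
      ε * (Fintype.card (SL 2 p) : ℝ) ^ d) :
    (1 - ε) * (Fintype.card H : ℝ) ^ d ≤
      (Nat.card {s : Fin d → H // ∀ θ : ℝ, 0 ≤ θ → θ ≤ 1 → SPS s (R θ) (ν θ)} : ℝ) := by
  classical
  have h7 := hQUC (SL 2 p) H π hπ d (fun y => ∀ θ : ℝ, 0 ≤ θ → θ ≤ 1 → SPS y (R θ) (ν θ))
    (fun s => ∀ θ : ℝ, 0 ≤ θ → θ ≤ 1 → SPS s (R θ) (ν θ))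
    (fun y hy θ h0 h1 => hSPQ (SL 2 p) H π hπ d y _ _ (hy θ h0 h1))
  have hG : (0 : ℝ) < (Fintype.card (SL 2 p) : ℝ) := by
    exact_mod_cast Fintype.card_pos
  set bad : ℕ := Nat.card {s : Fin d → H // ¬ ∀ θ : ℝ, 0 ≤ θ → θ ≤ 1 → SPS s (R θ) (ν θ)}
    with hbad
  have h8 : (bad : ℝ) ≤ ε * (Fintype.card H : ℝ) ^ d := by
    have h9 : (bad : ℝ) * (Fintype.card (SL 2 p) : ℝ) ^ d ≤
        (Nat.card {y : Fin d → SL 2 p // ¬ ∀ θ : ℝ, 0 ≤ θ → θ ≤ 1 → SPS y (R θ) (ν θ)} : ℝ) *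
          (Fintype.card H : ℝ) ^ d := by
      exact_mod_cast h7
    have h11 : (bad : ℝ) * (Fintype.card (SL 2 p) : ℝ) ^ d ≤
        (ε * (Fintype.card H : ℝ) ^ d) * (Fintype.card (SL 2 p) : ℝ) ^ d := by
      refine h9.trans ?_
      calc _ ≤ (ε * (Fintype.card (SL 2 p) : ℝ) ^ d) * (Fintype.card H : ℝ) ^ d := by
            apply mul_le_mul_of_nonneg_right h
            positivity
        _ = _ := by ring
    exact le_of_mul_le_mul_right h11 (by positivity)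
  have h12 : Nat.card (Fin d → H) = Fintype.card H ^ d := by
    rw [Nat.card_eq_fintype_card, Fintype.card_fun, Fintype.card_fin]
  have h13 : Nat.card {s : Fin d → H // ∀ θ : ℝ, 0 ≤ θ → θ ≤ 1 → SPS s (R θ) (ν θ)} + bad =
      Fintype.card H ^ d := by
    rw [← h12, hbad, Nat.card_eq_fintype_card, Nat.card_eq_fintype_card,
      Nat.card_eq_fintype_card, Fintype.card_subtype_compl]
    have := Fintype.card_subtype_le
      (fun s : Fin d → H => ∀ θ : ℝ, 0 ≤ θ → θ ≤ 1 → SPS s (R θ) (ν θ))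
    omega
  have h15 : (Nat.card {s : Fin d → H // ∀ θ : ℝ, 0 ≤ θ → θ ≤ 1 → SPS s (R θ) (ν θ)} : ℝ) + bad =
      (Fintype.card H : ℝ) ^ d := by exact_mod_cast h13
  linarith

end FIN14_

end Pool.Agent.RCG
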