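import Pool.Agent.RCG.Targets14
import Pool.Agent.RCG.KES

set_option autoImplicit false

/-!
# KSQ: Kesten's sharp bound for the number of trivial words
-/

namespace Pool.Agent.RCG

open Finset

namespace KSQ_

lemma step {d : ℕ} (hd : 1 ≤ d) (r : ℝ) (hr : 1 ≤ r) (y : FreeGroup (Fin d)) :
    ∃ l0 : Ltr d, ∀ l : Ltr d,
      KES_.hh r (FreeGroup.mk [l] * y) ≤
        r⁻¹ * KES_.hh r y + if l = l0 then r * KES_.hh r y - r⁻¹ * KES_.hh r y else 0 := by
  have hr0 : 0 < r := by linarith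
  have hri : r⁻¹ ≤ r := (inv_le_one_of_one_le₀ hr).trans hr
  have hred : FreeGroup.reduce y.toWord = y.toWord := FreeGroup.reduce_toWord y
  rcases hy : y.toWord with _ | ⟨a, tl⟩
  · refine ⟨(⟨0, hd⟩, true), fun l => ?_⟩
    have h1 : (FreeGroup.mk [l] * y).toWord = [l] := by
      rw [KES_.toWord_mul, FreeGroup.reduce.cons, hred, hy]
    unfold KES_.hh
    rw [h1, hy]
    simp only [List.length_nil, List.length_singleton, pow_one, pow_zero, mul_one]
    split_ifs
    · linarith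
    · linarith
  · refine ⟨(a.1, !a.2), fun l => ?_⟩
    have h1 : (FreeGroup.mk [l] * y).toWord =
        if l.1 = a.1 ∧ l.2 = !a.2 then tl else l :: a :: tl := by
      rw [KES_.toWord_mul, FreeGroup.reduce.cons, hred, hy]
    unfold KES_.hh
    rw [h1, hy]
    by_cases hc : l.1 = a.1 ∧ l.2 = !a.2
    · have e1 : l = (a.1, !a.2) := Prod.ext hc.1 hc.2
      rw [if_pos hc, if_pos e1, List.length_cons, pow_succ]
      have h3 : r * ((r⁻¹) ^ tl.length * r⁻¹) = (r⁻¹) ^ tl.length := by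
        field_simp
      rw [h3]
      linarith
    · have e1 : l ≠ (a.1, !a.2) := fun h => hc (by rw [h]; exact ⟨rfl, rfl⟩)
      rw [if_neg hc, if_neg e1, List.length_cons (a := l), pow_succ, add_zero, mul_comm]

lemma sum_step {d : ℕ} (hd : 1 ≤ d) (y : FreeGroup (Fin d)) :
    ∑ l : Ltr d, KES_.hh √(2 * (d : ℝ) - 1) (FreeGroup.mk [l] * y) ≤
      2 * √(2 * (d : ℝ) - 1) * KES_.hh √(2 * (d : ℝ) - 1) y := by
  have hd1 : (1 : ℝ) ≤ d := by exact_mod_cast hd
  have hd0 : (1 : ℝ) ≤ 2 * d - 1 := by linarith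
  set r : ℝ := √(2 * (d : ℝ) - 1) with hr
  have hr1 : 1 ≤ r := by
    rw [hr]
    exact Real.one_le_sqrt.mpr hd0
  have hr0 : 0 < r := by linarith
  have hr2 : r * r = 2 * d - 1 := Real.mul_self_sqrt (by linarith)
  obtain ⟨l0, hl⟩ := step hd r hr1 y
  calc ∑ l : Ltr d, KES_.hh r (FreeGroup.mk [l] * y)
      ≤ ∑ l : Ltr d, (r⁻¹ * KES_.hh r y +
          if l = l0 then r * KES_.hh r y - r⁻¹ * KES_.hh r y else 0) :=
        Finset.sum_le_sum fun l _ => hl l
    _ = 2 * r * KES_.hh r y := by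
        rw [Finset.sum_add_distrib, Finset.sum_const, Finset.sum_ite_eq' Finset.univ l0,
          if_pos (Finset.mem_univ _), Finset.card_univ]
        have hc : Fintype.card (Ltr d) = d * 2 := by
          rw [Fintype.card_prod, Fintype.card_fin, Fintype.card_bool]
        rw [hc, nsmul_eq_mul]
        push_cast
        have h3 : ((d : ℝ) * 2 - 1) * (r⁻¹ * KES_.hh r y) = r * KES_.hh r y := by
          rw [← mul_assoc, show (d : ℝ) * 2 - 1 = r * r by rw [hr2]; ring]
          field_simp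
        linarith

lemma sum_all {d : ℕ} (hd : 1 ≤ d) (n : ℕ) :
    ∑ w : Fin n → Ltr d, KES_.hh √(2 * (d : ℝ) - 1) (FreeGroup.mk (List.ofFn w)) ≤
      (2 * √(2 * (d : ℝ) - 1)) ^ n := by
  induction n with
  | zero =>
    have e1 : ∀ w : Fin 0 → Ltr d,
        KES_.hh √(2 * (d : ℝ) - 1) (FreeGroup.mk (List.ofFn w)) = 1 := by
      intro w
      unfold KES_.hh
      rw [List.ofFn_zero, FreeGroup.toWord_mk]
      simp
    simp only [e1]
    simp
  | succ n ih =>
    have e1 : ∑ w : Fin (n + 1) → Ltr d,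
        KES_.hh √(2 * (d : ℝ) - 1) (FreeGroup.mk (List.ofFn w)) =
        ∑ w : Fin n → Ltr d, ∑ l : Ltr d,
          KES_.hh √(2 * (d : ℝ) - 1) (FreeGroup.mk [l] * FreeGroup.mk (List.ofFn w)) := by
      rw [← (Fin.consEquiv (fun _ : Fin (n + 1) => Ltr d)).sum_comp, Fintype.sum_prod_type,
        Finset.sum_comm]
      refine Finset.sum_congr rfl fun w _ => Finset.sum_congr rfl fun l _ => ?_
      congr 1
      rw [FreeGroup.mul_mk]
      congr 1
      rw [List.ofFn_succ]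
      simp [Fin.consEquiv]
    rw [e1]
    calc ∑ w : Fin n → Ltr d, ∑ l : Ltr d,
          KES_.hh √(2 * (d : ℝ) - 1) (FreeGroup.mk [l] * FreeGroup.mk (List.ofFn w))
        ≤ ∑ w : Fin n → Ltr d, 2 * √(2 * (d : ℝ) - 1) * KES_.hh √(2 * (d : ℝ) - 1)
            (FreeGroup.mk (List.ofFn w)) :=
          Finset.sum_le_sum fun w _ => sum_step hd _
      _ = 2 * √(2 * (d : ℝ) - 1) * ∑ w : Fin n → Ltr d, KES_.hh √(2 * (d : ℝ) - 1)
            (FreeGroup.mk (List.ofFn w)) := by rw [← Finset.mul_sum]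
      _ ≤ 2 * √(2 * (d : ℝ) - 1) * (2 * √(2 * (d : ℝ) - 1)) ^ n := by gcongr
      _ = (2 * √(2 * (d : ℝ) - 1)) ^ (n + 1) := by rw [pow_succ]; ring

end KSQ_

open KSQ_ in
theorem prove_KSQ : T_KSQ := by
  intro d n hd
  classical
  unfold tw
  rw [Nat.card_eq_fintype_card, Fintype.card_subtype]
  refine le_trans ?_ (sum_all hd n)
  rw [Finset.card_filter]
  push_cast
  refine Finset.sum_le_sum fun w _ => ?_
  split_ifs with h
  · rw [h]
    unfold KES_.hh
    rw [FreeGroup.toWord_one]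
    simp
  · exact KES_.hh_nonneg (Real.sqrt_nonneg _) _

end Pool.Agent.RCG
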