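import Pool.Agent.RCG.Targets14

set_option autoImplicit false

/-! # RCG, MRW: Markov count of the words of trace `2` or `-2` -/

namespace Pool.Agent.RCG

open Finset Matrix

theorem prove_MRW (h : T_TR2) : T_MRW := by
  classical
  intro p _ d n M hd hM
  have hp : (0 : ℝ) < p := by exact_mod_cast (Fact.out : p.Prime).pos
  set X : ℝ := 4 * n * (Fintype.card (SL 2 p) : ℝ) ^ d with hX
  have hX0 : 0 ≤ X := by positivity
  let A : (Fin n → Ltr d) → ZMod p → Finset (Fin d → SL 2 p) := fun w t =>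
    univ.filter fun y => (ev y w).1 0 0 + (ev y w).1 1 1 = t
  have hA : ∀ w t, FreeGroup.mk (List.ofFn w) ≠ 1 → (p : ℝ) * (A w t).card ≤ X := by
    intro w t hw
    have h1 := h p d n w t hd hw
    rw [Nat.card_eq_fintype_card, Fintype.card_subtype] at h1
    exact h1
  let W : Finset (Fin n → Ltr d) := univ.filter fun w => FreeGroup.mk (List.ofFn w) ≠ 1
  have hbw : ∀ y : Fin d → SL 2 p, (bw n y : ℝ) ≤
      ∑ w ∈ W, ((if y ∈ A w 2 then (1 : ℝ) else 0) + (if y ∈ A w (-2) then (1 : ℝ) else 0)) := by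
    intro y
    unfold bw
    rw [Nat.card_eq_fintype_card, Fintype.card_subtype]
    have h2 : ((univ.filter fun w : Fin n → Ltr d => FreeGroup.mk (List.ofFn w) ≠ 1 ∧
        ((ev y w).1 0 0 + (ev y w).1 1 1 = 2 ∨ (ev y w).1 0 0 + (ev y w).1 1 1 = -2)).card : ℝ) =
        ∑ w ∈ W, if ((ev y w).1 0 0 + (ev y w).1 1 1 = 2 ∨
          (ev y w).1 0 0 + (ev y w).1 1 1 = -2) then (1 : ℝ) else 0 := by
      rw [← Finset.filter_filter, Finset.sum_boole]
    rw [h2]
    refine sum_le_sum fun w _ => ?_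
    have m2 : ∀ t, (y ∈ A w t) ↔ (ev y w).1 0 0 + (ev y w).1 1 1 = t := by
      intro t
      simp [A]
    by_cases c1 : (ev y w).1 0 0 + (ev y w).1 1 1 = 2
    · rw [if_pos (Or.inl c1), if_pos ((m2 2).2 c1)]
      split_ifs <;> norm_num
    · by_cases c2 : (ev y w).1 0 0 + (ev y w).1 1 1 = -2
      · rw [if_pos (Or.inr c2), if_pos ((m2 (-2)).2 c2)]
        split_ifs <;> norm_num
      · rw [if_neg (by tauto)]
        split_ifs <;> norm_num
  have hsum : ∑ y : Fin d → SL 2 p, (bw n y : ℝ) ≤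
      ∑ w ∈ W, (((A w 2).card : ℝ) + (A w (-2)).card) := by
    refine (sum_le_sum fun y _ => hbw y).trans (le_of_eq ?_)
    rw [sum_comm]
    refine sum_congr rfl fun w _ => ?_
    rw [sum_add_distrib, Finset.sum_boole, Finset.sum_boole]
    simp
  have hmk : M * ((univ.filter fun y : Fin d → SL 2 p => M < (bw n y : ℝ)).card : ℝ) ≤
      ∑ y : Fin d → SL 2 p, (bw n y : ℝ) := by
    calc M * ((univ.filter fun y : Fin d → SL 2 p => M < (bw n y : ℝ)).card : ℝ)
        = ∑ y ∈ univ.filter (fun y : Fin d → SL 2 p => M < (bw n y : ℝ)), M := by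
          rw [sum_const, nsmul_eq_mul, mul_comm]
      _ ≤ ∑ y ∈ univ.filter (fun y : Fin d → SL 2 p => M < (bw n y : ℝ)), (bw n y : ℝ) :=
          sum_le_sum fun y hy => (mem_filter.1 hy).2.le
      _ ≤ ∑ y : Fin d → SL 2 p, (bw n y : ℝ) :=
          sum_le_sum_of_subset_of_nonneg (filter_subset _ _) fun _ _ _ => by positivity
  rw [Nat.card_eq_fintype_card, Fintype.card_subtype]
  calc M * p * ((univ.filter fun y : Fin d → SL 2 p => M < (bw n y : ℝ)).card : ℝ)
      = p * (M * ((univ.filter fun y : Fin d → SL 2 p => M < (bw n y : ℝ)).card : ℝ)) := by ring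
    _ ≤ p * ∑ w ∈ W, (((A w 2).card : ℝ) + (A w (-2)).card) :=
        mul_le_mul_of_nonneg_left (hmk.trans hsum) hp.le
    _ = ∑ w ∈ W, ((p : ℝ) * (A w 2).card + p * (A w (-2)).card) := by
        rw [mul_sum]
        exact sum_congr rfl fun w _ => by ring
    _ ≤ ∑ w ∈ W, (X + X) :=
        sum_le_sum fun w hw => add_le_add (hA w 2 (mem_filter.mp hw).2)
          (hA w (-2) (mem_filter.mp hw).2)
    _ ≤ ∑ w : Fin n → Ltr d, (X + X) :=
        sum_le_sum_of_subset_of_nonneg (filter_subset _ _) fun _ _ _ => by positivity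
    _ = 8 * n * (2 * (d : ℝ)) ^ n * (Fintype.card (SL 2 p) : ℝ) ^ d := by
        rw [sum_const, card_univ, nsmul_eq_mul, hX]
        simp only [Fintype.card_fun, Fintype.card_prod, Fintype.card_fin, Fintype.card_bool]
        push_cast
        ring

end Pool.Agent.RCG
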