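import Pool.Agent.RCG.Targets14

set_option autoImplicit false

/-!
# RCG, MST: the bootstrap step for the character bound
-/

namespace Pool.Agent.RCG

open Finset Matrix

namespace MST_

section gen

variable {G : Type} [Group G] [Fintype G]

theorem phi_conj (f : G → ℝ) (h g : G) : Phi f (h * g * h⁻¹) = Phi f g := by
  unfold Phi
  refine Fintype.sum_equiv (Equiv.mulRight h) _ _ fun k => ?_
  refine Finset.sum_congr rfl fun x _ => ?_
  have e : k * (h * g * h⁻¹) * k⁻¹ = (Equiv.mulRight h) k * g * ((Equiv.mulRight h) k)⁻¹ := by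
    show _ = (k * h) * g * (k * h)⁻¹
    group
  rw [e]

theorem cs (f : G → ℝ) (c : G) : |∑ x, f x * f (x * c)| ≤ ∑ x, f x ^ 2 := by
  have h1 : ∑ x, f (x * c) ^ 2 = ∑ x, f x ^ 2 :=
    Fintype.sum_equiv (Equiv.mulRight c) _ _ fun x => rfl
  have h2 : ∑ x, |f x * f (x * c)| ≤ ∑ x, (f x ^ 2 + f (x * c) ^ 2) / 2 := by
    refine Finset.sum_le_sum fun x _ => ?_
    rw [abs_le]
    constructor
    · nlinarith [sq_nonneg (f x + f (x * c))]
    · nlinarith [sq_nonneg (f x - f (x * c))]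
  have h3 : ∑ x, (f x ^ 2 + f (x * c) ^ 2) / 2 = ∑ x, f x ^ 2 := by
    rw [← Finset.sum_div, Finset.sum_add_distrib, h1]
    ring
  exact (Finset.abs_sum_le_sum_abs _ _).trans (h2.trans h3.le)

theorem phi_bound (f : G → ℝ) (g : G) : |Phi f g| ≤ Fintype.card G * ∑ x, f x ^ 2 := by
  unfold Phi
  refine (Finset.abs_sum_le_sum_abs _ _).trans ?_
  refine (Finset.sum_le_sum fun h _ => cs f (h * g * h⁻¹)).trans ?_
  rw [Finset.sum_const, Finset.card_univ, nsmul_eq_mul]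

theorem phi_sum (f : G → ℝ) (hf : ∑ x, f x = 0) : ∑ g : G, Phi f g = 0 := by
  unfold Phi
  rw [Finset.sum_comm]
  refine Finset.sum_eq_zero fun h _ => ?_
  rw [Finset.sum_comm]
  refine Finset.sum_eq_zero fun x _ => ?_
  rw [← Finset.mul_sum]
  have e : ∑ g : G, f (x * (h * g * h⁻¹)) = ∑ g : G, f g :=
    Fintype.sum_equiv (((Equiv.mulLeft h).trans (Equiv.mulRight h⁻¹)).trans (Equiv.mulLeft x))
      _ _ fun g => rfl
  rw [e, hf, mul_zero]

theorem class_avg {α : Type} [DecidableEq α] (T : G → α) (hT : ∀ h y, T (h * y * h⁻¹) = T y)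
    (g : G) (hc : ∀ y, T y = T g → ∃ h, h * g * h⁻¹ = y) (P : G → ℝ) :
    ((univ.filter fun y => T y = T g).card : ℝ) * ∑ h : G, P (h * g * h⁻¹) =
      Fintype.card G * ∑ y ∈ univ.filter (fun y => T y = T g), P y := by
  have h1 : ∀ y ∈ univ.filter (fun y => T y = T g),
      ∑ h : G, P (h * y * h⁻¹) = ∑ h : G, P (h * g * h⁻¹) := by
    intro y hy
    obtain ⟨k, hk⟩ := hc y (Finset.mem_filter.1 hy).2
    refine Fintype.sum_equiv (Equiv.mulRight k) _ _ fun h => ?_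
    have e : h * y * h⁻¹ = (Equiv.mulRight k) h * g * ((Equiv.mulRight k) h)⁻¹ := by
      show _ = (h * k) * g * (h * k)⁻¹
      rw [← hk]
      group
    rw [e]
  have h2 : ∀ h : G, ∑ y ∈ univ.filter (fun y => T y = T g), P (h * y * h⁻¹) =
      ∑ y ∈ univ.filter (fun y => T y = T g), P y := by
    intro h
    refine Finset.sum_bij' (fun y _ => h * y * h⁻¹) (fun y _ => h⁻¹ * y * h) ?_ ?_ ?_ ?_ ?_
    · intro y hy
      rw [Finset.mem_filter] at hy ⊢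
      exact ⟨Finset.mem_univ _, by rw [hT]; exact hy.2⟩
    · intro y hy
      rw [Finset.mem_filter] at hy ⊢
      refine ⟨Finset.mem_univ _, ?_⟩
      have := hT h⁻¹ y
      rw [inv_inv] at this
      rw [this]
      exact hy.2
    · intro y _
      group
    · intro y _
      group
    · intro y _
      rfl
  calc ((univ.filter fun y => T y = T g).card : ℝ) * ∑ h : G, P (h * g * h⁻¹)
      = ∑ y ∈ univ.filter (fun y => T y = T g), ∑ h : G, P (h * g * h⁻¹) := by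
        rw [Finset.sum_const, nsmul_eq_mul]
    _ = ∑ y ∈ univ.filter (fun y => T y = T g), ∑ h : G, P (h * y * h⁻¹) :=
        Finset.sum_congr rfl fun y hy => (h1 y hy).symm
    _ = ∑ h : G, ∑ y ∈ univ.filter (fun y => T y = T g), P (h * y * h⁻¹) := Finset.sum_comm
    _ = ∑ h : G, ∑ y ∈ univ.filter (fun y => T y = T g), P y :=
        Finset.sum_congr rfl fun h _ => h2 h
    _ = _ := by rw [Finset.sum_const, Finset.card_univ, nsmul_eq_mul]

end gen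

section mat

variable {p : ℕ} [Fact p.Prime]

/-- the trace -/
def t (x : SL 2 p) : ZMod p := x.1 0 0 + x.1 1 1

theorem t_eq (x : SL 2 p) : t x = Matrix.trace x.1 := (Matrix.trace_fin_two _).symm

theorem t_comm (x y : SL 2 p) : t (x * y) = t (y * x) := by
  rw [t_eq, t_eq]
  show Matrix.trace (x.1 * y.1) = Matrix.trace (y.1 * x.1)
  exact Matrix.trace_mul_comm _ _

theorem t_conj (h y : SL 2 p) : t (h * y * h⁻¹) = t y := by
  rw [t_comm, ← mul_assoc, inv_mul_cancel, one_mul]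

theorem t_inv (g : SL 2 p) : t g⁻¹ = t g := by
  have e : (g⁻¹).1 = Matrix.adjugate g.1 := rfl
  unfold t
  rw [e, Matrix.adjugate_fin_two]
  show g.1 1 1 + g.1 0 0 = g.1 0 0 + g.1 1 1
  ring

theorem det1 (x : SL 2 p) : x.1 0 0 * x.1 1 1 - x.1 0 1 * x.1 1 0 = 1 := by
  have := x.2
  rwa [Matrix.det_fin_two] at this

theorem not_scalar {x : SL 2 p} (h2 : t x ≠ 2) (h3 : t x ≠ -2) :
    ¬ (x.1 0 1 = 0 ∧ x.1 1 0 = 0 ∧ x.1 0 0 = x.1 1 1) := by
  rintro ⟨a, b, c⟩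
  have h := det1 x
  rw [a, b, c] at h
  have h4 : (x.1 1 1 - 1) * (x.1 1 1 + 1) = 0 := by linear_combination h
  unfold t at h2 h3
  rw [c] at h2 h3
  rcases mul_eq_zero.1 h4 with h5 | h5
  · exact h2 (by linear_combination 2 * h5)
  · exact h3 (by linear_combination 2 * h5)

theorem cardf {α : Type} [Fintype α] (P : α → Prop) [DecidablePred P] :
    Nat.card {y // P y} = (univ.filter P).card := by
  rw [Nat.card_eq_fintype_card, Fintype.card_subtype]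

/-- trace `ρ` -/
def C (p : ℕ) [Fact p.Prime] (ρ : ZMod p) : Finset (SL 2 p) := univ.filter fun x => t x = ρ

/-- trace `t g`, and the trace of `g⁻¹ y` is `ρ` -/
def S (g : SL 2 p) (ρ : ZMod p) : Finset (SL 2 p) :=
  univ.filter fun y => t y = t g ∧ t (g⁻¹ * y) = ρ

theorem C_low (h : T_CN2) (ρ : ZMod p) : (p : ℝ) ^ 2 ≤ (C p ρ).card + p := by
  have h1 := (h p ρ).1
  rw [cardf] at h1
  have h2 : ((p ^ 2 : ℕ) : ℝ) ≤ (((C p ρ).card + p : ℕ) : ℝ) := Nat.cast_le.2 h1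
  push_cast at h2
  exact h2

theorem S_two (h : T_LIN) {g : SL 2 p} (h2 : t g ≠ 2) (h3 : t g ≠ -2) (ρ : ZMod p) :
    ((S g ρ).card : ℝ) ≤ 2 * p := by
  have h1 := h p (g⁻¹).1 (t g) ρ (not_scalar (by rwa [t_inv]) (by rwa [t_inv]))
  rw [cardf] at h1
  have e : (univ.filter fun m : SL 2 p => (m : Matrix (Fin 2) (Fin 2) (ZMod p)).trace = t g ∧
      ((m : Matrix (Fin 2) (Fin 2) (ZMod p)) * (g⁻¹).1).trace = ρ) = S g ρ := by
    unfold S
    refine Finset.filter_congr fun y _ => ?_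
    rw [t_comm g⁻¹ y, t_eq y, t_eq (y * g⁻¹)]
    exact Iff.rfl
  rw [e] at h1
  exact_mod_cast h1

theorem S_gen (h : T_CN1) (hp : p ≠ 2) {g : SL 2 p} (h2 : t g ≠ 2) (h3 : t g ≠ -2)
    (ρ : ZMod p) (h4 : ρ ≠ 2) (h5 : ρ ≠ t g ^ 2 - 2) : ((S g ρ).card : ℝ) ≤ p + 2 := by
  have e0 : (g⁻¹).1 0 0 + (g⁻¹).1 1 1 = t g := t_inv g
  have h1 := h p hp g⁻¹ ρ (by rw [e0]; exact h2) (by rw [e0]; exact h3) h4
    (by rw [e0]; exact h5)
  rw [cardf, e0] at h1
  have h6 : (((S g ρ).card : ℕ) : ℝ) ≤ ((p + 2 : ℕ) : ℝ) := Nat.cast_le.2 h1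
  push_cast at h6
  exact h6

/-- the differences -/
noncomputable def a (g : SL 2 p) (ρ : ZMod p) : ℝ := (S g ρ).card - (C p ρ).card / p

theorem sum_a (hC : T_CRD) (g : SL 2 p) :
    ∑ ρ : ZMod p, a g ρ = (C p (t g)).card - ((p : ℝ) ^ 2 - 1) := by
  have hp0 : (p : ℝ) ≠ 0 := by
    have := (Fact.out : p.Prime).pos
    positivity
  have h1 : ∑ ρ : ZMod p, ((S g ρ).card : ℝ) = (C p (t g)).card := by
    have := Finset.card_eq_sum_card_fiberwise (f := fun y : SL 2 p => t (g⁻¹ * y))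
      (s := C p (t g)) (t := univ) (fun _ _ => Finset.mem_coe.2 (Finset.mem_univ _))
    rw [this]
    push_cast
    refine Finset.sum_congr rfl fun ρ _ => ?_
    congr 1
    unfold S C
    rw [Finset.filter_filter]
  have h2 : ∑ ρ : ZMod p, ((C p ρ).card : ℝ) = Fintype.card (SL 2 p) := by
    have := Finset.card_eq_sum_card_fiberwise (f := fun y : SL 2 p => t y)
      (s := (univ : Finset (SL 2 p))) (t := univ)
      (fun _ _ => Finset.mem_coe.2 (Finset.mem_univ _))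
    rw [Finset.card_univ] at this
    rw [this]
    push_cast
    rfl
  have h3 : (Fintype.card (SL 2 p) : ℝ) + p = (p : ℝ) ^ 3 := by exact_mod_cast hC p
  unfold a
  rw [Finset.sum_sub_distrib, h1, ← Finset.sum_div, h2]
  have h4 : (Fintype.card (SL 2 p) : ℝ) / p = (p : ℝ) ^ 2 - 1 := by
    rw [div_eq_iff hp0]
    linear_combination h3
  rw [h4]

theorem sum_abs_a (hN1 : T_CN1) (hN2 : T_CN2) (hL : T_LIN) (hC : T_CRD) (hp : 5 ≤ p)
    {g : SL 2 p} (h2 : t g ≠ 2) (h3 : t g ≠ -2) : ∑ ρ : ZMod p, |a g ρ| ≤ 15 * p := by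
  have hp' : (5 : ℝ) ≤ p := by exact_mod_cast hp
  have hpos : (0 : ℝ) < p := by linarith
  have hC1 : ∀ ρ : ZMod p, (p : ℝ) - 1 ≤ ((C p ρ).card : ℝ) / p := by
    intro ρ
    rw [le_div_iff₀ hpos]
    have := C_low hN2 ρ
    nlinarith
  have hu : ∀ ρ : ZMod p, a g ρ ≤
      3 + ((if ρ = 2 then (p : ℝ) else 0) + if ρ = t g ^ 2 - 2 then (p : ℝ) else 0) := by
    intro ρ
    unfold a
    have h4 := hC1 ρ
    by_cases h5 : ρ = 2
    · rw [if_pos h5]
      have h6 := S_two hL h2 h3 ρ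
      split_ifs <;> linarith
    · by_cases h6 : ρ = t g ^ 2 - 2
      · rw [if_neg h5, if_pos h6]
        have h7 := S_two hL h2 h3 ρ
        linarith
      · rw [if_neg h5, if_neg h6]
        have h7 := S_gen hN1 (by omega) h2 h3 ρ h5 h6
        linarith
  have hu0 : ∀ ρ : ZMod p, (0 : ℝ) ≤
      3 + ((if ρ = 2 then (p : ℝ) else 0) + if ρ = t g ^ 2 - 2 then (p : ℝ) else 0) := by
    intro ρ
    split_ifs <;> linarith
  have habs : ∀ ρ : ZMod p, |a g ρ| ≤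
      2 * (3 + ((if ρ = 2 then (p : ℝ) else 0) + if ρ = t g ^ 2 - 2 then (p : ℝ) else 0)) -
        a g ρ := by
    intro ρ
    have h4 := hu ρ
    have h5 := hu0 ρ
    rw [abs_le]
    constructor <;> linarith
  refine (Finset.sum_le_sum fun ρ _ => habs ρ).trans ?_
  rw [Finset.sum_sub_distrib, ← Finset.mul_sum, Finset.sum_add_distrib, Finset.sum_add_distrib,
    Finset.sum_const, Finset.sum_ite_eq' univ, Finset.sum_ite_eq' univ, if_pos (Finset.mem_univ _),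
    if_pos (Finset.mem_univ _), sum_a hC, Finset.card_univ, ZMod.card, nsmul_eq_mul]
  have h6 := C_low hN2 (t g)
  linarith

theorem shift (g : SL 2 p) (ρ : ZMod p) (F : SL 2 p → ℝ) :
    ∑ y ∈ S g ρ, F (g⁻¹ * y) = ∑ u ∈ univ.filter (fun u : SL 2 p => u.1 0 0 + u.1 1 1 = ρ ∧
      (g * u).1 0 0 + (g * u).1 1 1 = g.1 0 0 + g.1 1 1), F u := by
  refine Finset.sum_bij' (fun y _ => g⁻¹ * y) (fun u _ => g * u) ?_ ?_ ?_ ?_ ?_
  · intro y hy
    have h1 : t y = t g ∧ t (g⁻¹ * y) = ρ := (Finset.mem_filter.1 hy).2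
    refine Finset.mem_filter.2 ⟨Finset.mem_univ _, h1.2, ?_⟩
    show t (g * (g⁻¹ * y)) = t g
    rw [mul_inv_cancel_left]
    exact h1.1
  · intro u hu
    have h1 : t u = ρ ∧ t (g * u) = t g := (Finset.mem_filter.1 hu).2
    refine Finset.mem_filter.2 ⟨Finset.mem_univ _, h1.2, ?_⟩
    rw [inv_mul_cancel_left]
    exact h1.1
  · intro y _
    exact mul_inv_cancel_left g y
  · intro u _
    exact inv_mul_cancel_left g u
  · intro y _
    rfl

theorem bracket (hJ : T_CJ1) (hp : p ≠ 2) (F : SL 2 p → ℝ) (hF : ∀ h g, F (h * g * h⁻¹) = F g)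
    (g : SL 2 p) (ρ : ZMod p) (B : ℝ) (h2 : ρ ≠ 2) (h3 : ρ ≠ -2)
    (hB : ∀ x, t x = ρ → |F x| ≤ B) :
    |∑ y ∈ S g ρ, F (g⁻¹ * y) - (∑ x ∈ C p ρ, F x) / p| ≤ |a g ρ| * B := by
  have hSC : ∀ y ∈ S g ρ, g⁻¹ * y ∈ C p ρ := by
    intro y hy
    have h1 : t y = t g ∧ t (g⁻¹ * y) = ρ := (Finset.mem_filter.1 hy).2
    exact Finset.mem_filter.2 ⟨Finset.mem_univ _, h1.2⟩
  rcases (C p ρ).eq_empty_or_nonempty with hC | ⟨x0, hx0⟩
  · have hS : S g ρ = ∅ := by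
      rw [Finset.eq_empty_iff_forall_notMem]
      intro y hy
      have := hSC y hy
      rw [hC] at this
      exact absurd this (Finset.notMem_empty _)
    unfold a
    rw [hS, hC]
    simp
  · have hx : t x0 = ρ := (Finset.mem_filter.1 hx0).2
    have key : ∀ x ∈ C p ρ, F x = F x0 := by
      intro x hxC
      have hx' : t x = ρ := (Finset.mem_filter.1 hxC).2
      obtain ⟨h, hh⟩ := hJ p hp x0 x (hx.trans hx'.symm) (by
        show t x0 ≠ 2
        rw [hx]; exact h2) (by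
        show t x0 ≠ -2
        rw [hx]; exact h3)
      rw [← hh, hF]
    have e1 : ∑ y ∈ S g ρ, F (g⁻¹ * y) = (S g ρ).card * F x0 := by
      rw [Finset.sum_congr rfl fun y hy => key _ (hSC y hy), Finset.sum_const, nsmul_eq_mul]
    have e2 : ∑ x ∈ C p ρ, F x = (C p ρ).card * F x0 := by
      rw [Finset.sum_congr rfl key, Finset.sum_const, nsmul_eq_mul]
    have e3 : ∑ y ∈ S g ρ, F (g⁻¹ * y) - (∑ x ∈ C p ρ, F x) / p = a g ρ * F x0 := by
      rw [e1, e2]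
      unfold a
      ring
    rw [e3, abs_mul]
    exact mul_le_mul_of_nonneg_left (hB x0 hx) (abs_nonneg _)

theorem two_case {s c s1 s2 B : ℝ} {q : ℝ} (hq : 5 ≤ q) (hs : |s| ≤ s1 + 2 * s2)
    (h1 : s1 ≤ B) (h2 : s2 ≤ 5 * B) (hc : |c| ≤ s1 + (q + 1) * s2) (hB : 0 ≤ B) :
    |s - c / q| ≤ 35 / 2 * B := by
  have hq0 : 0 < q := by linarith
  have h3 : |c / q| ≤ 13 / 2 * B := by
    rw [abs_div, abs_of_pos hq0, div_le_iff₀ hq0]
    have h4 : (q + 1) * s2 ≤ (q + 1) * (5 * B) := mul_le_mul_of_nonneg_left h2 (by linarith)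
    nlinarith [mul_nonneg (by linarith : (0 : ℝ) ≤ q - 5) hB]
  have h5 : |s - c / q| ≤ |s| + |c / q| := abs_sub _ _
  linarith

theorem total (hJ : T_CJ1) (hN1 : T_CN1) (hN2 : T_CN2) (hL : T_LIN) (hC : T_CRD)
    (hUB : T_UPB) (hUC : T_UCT) (hUS : T_UST) (hV : T_VST) (hp : 5 ≤ p) (M : ℝ) (hM : 0 ≤ M)
    (f : SL 2 p → ℝ) (hf : ∑ x, f x = 0)
    (h : ∀ g : SL 2 p, t g ≠ 2 → t g ≠ -2 →
      |Phi f g| ≤ M * Fintype.card (SL 2 p) * ∑ x, f x ^ 2)
    (g : SL 2 p) (h2 : t g ≠ 2) (h3 : t g ≠ -2) :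
    |∑ y ∈ C p (t g), Phi f (g⁻¹ * y)| ≤
      (15 * p * M + 35) * (Fintype.card (SL 2 p) * ∑ x, f x ^ 2) := by
  obtain ⟨B, hB⟩ : ∃ B : ℝ, B = Fintype.card (SL 2 p) * ∑ x, f x ^ 2 := ⟨_, rfl⟩
  have hB0 : 0 ≤ B := by rw [hB]; positivity
  have hcl := phi_conj f
  have hbd : ∀ x, |Phi f x| ≤ B := fun x => by rw [hB]; exact phi_bound f x
  have hp2 : p ≠ 2 := by omega
  have hpq : (5 : ℝ) ≤ p := by exact_mod_cast hp
  have hub := hUB p hp f hf
  rw [mul_assoc, ← hB] at hub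
  have huc := hUC p hp2 (Phi f) hcl
  have hus := hUS p hp2 (Phi f) hcl g h2 h3
  -- the two exceptional traces
  have case2 : |∑ y ∈ S g 2, Phi f (g⁻¹ * y) - (∑ x ∈ C p 2, Phi f x) / p| ≤ 35 / 2 * B := by
    refine two_case hpq (s1 := |Phi f 1|)
      (s2 := |∑ b ∈ univ.filter (fun b : ZMod p => b ≠ 0), Phi f (um b)|) ?_ (hbd 1) hub.1 ?_ hB0
    · rw [shift]
      exact hus.1
    · have e : ∑ x ∈ C p 2, Phi f x = _ := huc.1
      rw [e]
      refine (abs_add_le _ _).trans ?_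
      rw [abs_mul, abs_of_nonneg (by positivity : (0 : ℝ) ≤ (p : ℝ) + 1)]
  have casem2 : |∑ y ∈ S g (-2), Phi f (g⁻¹ * y) - (∑ x ∈ C p (-2), Phi f x) / p| ≤
      35 / 2 * B := by
    refine two_case hpq (s1 := |Phi f (vm 0)|)
      (s2 := |∑ b ∈ univ.filter (fun b : ZMod p => b ≠ 0), Phi f (vm b)|) ?_ (hbd _) hub.2 ?_ hB0
    · rw [shift]
      by_cases h0 : t g = 0
      · exact hus.2 h0
      · refine (hV p hp (Phi f) hcl g h2 h3 h0).trans ?_
        have := abs_nonneg (Phi f (vm 0))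
        linarith
    · have e : ∑ x ∈ C p (-2), Phi f x = _ := huc.2
      rw [e]
      refine (abs_add_le _ _).trans ?_
      rw [abs_mul, abs_of_nonneg (by positivity : (0 : ℝ) ≤ (p : ℝ) + 1)]
  have e1 : ∑ y ∈ C p (t g), Phi f (g⁻¹ * y) = ∑ ρ : ZMod p, ∑ y ∈ S g ρ, Phi f (g⁻¹ * y) := by
    rw [← Finset.sum_fiberwise (C p (t g)) (fun y : SL 2 p => t (g⁻¹ * y))]
    refine Finset.sum_congr rfl fun ρ _ => ?_
    unfold C S
    rw [Finset.filter_filter]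
  have e2 : ∑ ρ : ZMod p, ∑ x ∈ C p ρ, Phi f x = 0 := by
    rw [← phi_sum f hf, ← Finset.sum_fiberwise (univ : Finset (SL 2 p)) (fun y : SL 2 p => t y)]
    rfl
  have e3 : ∑ y ∈ C p (t g), Phi f (g⁻¹ * y) =
      ∑ ρ : ZMod p, (∑ y ∈ S g ρ, Phi f (g⁻¹ * y) - (∑ x ∈ C p ρ, Phi f x) / p) := by
    rw [Finset.sum_sub_distrib, ← Finset.sum_div, e2, zero_div, sub_zero, e1]
  have e4 : ∀ ρ : ZMod p, |∑ y ∈ S g ρ, Phi f (g⁻¹ * y) - (∑ x ∈ C p ρ, Phi f x) / p| ≤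
      |a g ρ| * (M * B) + ((if ρ = 2 then 35 / 2 * B else 0) +
        (if ρ = -2 then 35 / 2 * B else 0)) := by
    intro ρ
    have h4 : 0 ≤ |a g ρ| * (M * B) := by positivity
    have h5 : 0 ≤ 35 / 2 * B := by positivity
    by_cases h6 : ρ = 2
    · rw [if_pos h6]
      subst h6
      split_ifs <;> linarith [case2]
    · by_cases h7 : ρ = -2
      · rw [if_neg h6, if_pos h7]
        subst h7
        linarith [casem2]
      · rw [if_neg h6, if_neg h7, add_zero, add_zero]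
        refine bracket hJ hp2 (Phi f) hcl g ρ (M * B) h6 h7 fun x hx => ?_
        rw [hB, ← mul_assoc]
        exact h x (by rw [hx]; exact h6) (by rw [hx]; exact h7)
  rw [← hB, e3]
  refine (Finset.abs_sum_le_sum_abs _ _).trans ?_
  refine (Finset.sum_le_sum fun ρ _ => e4 ρ).trans ?_
  rw [Finset.sum_add_distrib, Finset.sum_add_distrib, Finset.sum_ite_eq' univ,
    Finset.sum_ite_eq' univ, if_pos (Finset.mem_univ _), if_pos (Finset.mem_univ _),
    ← Finset.sum_mul]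
  have h8 := sum_abs_a hN1 hN2 hL hC hp h2 h3
  have h9 := mul_le_mul_of_nonneg_right h8 (by positivity : 0 ≤ M * B)
  linarith

end mat

end MST_

open MST_ in
theorem prove_MST (hCS : T_CS1) (hJ : T_CJ1) (hN1 : T_CN1) (hN2 : T_CN2) (hL : T_LIN)
    (hUB : T_UPB) (hUC : T_UCT) (hUS : T_UST) (hV : T_VST) (hC : T_CRD) : T_MST := by
  intro p _ hp M hM h g h2 h3 f hf
  have hpq : (5 : ℝ) ≤ p := by exact_mod_cast hp
  obtain ⟨N, hN⟩ : ∃ N : ℝ, N = ∑ x, f x ^ 2 := ⟨_, rfl⟩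
  obtain ⟨n, hn⟩ : ∃ n : ℝ, n = Fintype.card (SL 2 p) := ⟨_, rfl⟩
  have hN0 : 0 ≤ N := by rw [hN]; positivity
  have hn0 : 0 ≤ n := by rw [hn]; positivity
  have tot := total hJ hN1 hN2 hL hC hUB hUC hUS hV hp M hM f hf
    (fun g h2 h3 => h g h2 h3 f hf) g h2 h3
  have avg := class_avg t t_conj g (fun y hy => hJ p (by omega) g y hy.symm h2 h3)
    (fun y => Phi f (g⁻¹ * y))
  have hcs := hCS (SL 2 p) f g
  have hlow := C_low hN2 (t g)
  rw [← hN, ← hn] at tot ⊢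
  rw [← hn] at avg
  rw [← hN] at hcs
  obtain ⟨Z, hZ⟩ : ∃ Z : ℝ, Z = ∑ h : SL 2 p, Phi f (g⁻¹ * (h * g * h⁻¹)) := ⟨_, rfl⟩
  obtain ⟨A, hA⟩ : ∃ A : ℝ, A = ∑ y ∈ C p (t g), Phi f (g⁻¹ * y) := ⟨_, rfl⟩
  rw [← hZ] at hcs
  rw [← hA] at tot
  have avg' : ((C p (t g)).card : ℝ) * Z = n * A := by
    rw [hZ, hA]
    exact avg
  obtain ⟨c, hc⟩ : ∃ c : ℝ, c = ((C p (t g)).card : ℝ) := ⟨_, rfl⟩
  rw [← hc] at avg' hlow
  have hq : 0 < (p : ℝ) ^ 2 - p := by nlinarith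
  have hcq : (p : ℝ) ^ 2 - p ≤ c := by linarith
  have hc0 : 0 < c := lt_of_lt_of_le hq hcq
  obtain ⟨K, hK⟩ : ∃ K : ℝ, K = 15 * p * M + 35 := ⟨_, rfl⟩
  have hK0 : 0 ≤ K := by rw [hK]; positivity
  rw [← hK] at tot ⊢
  have h5 : Z ≤ n * (K * (n * N)) / ((p : ℝ) ^ 2 - p) := by
    have h6 : Z = n * A / c := by
      rw [eq_div_iff hc0.ne', ← avg']
      ring
    have h7 : n * A ≤ n * (K * (n * N)) :=
      mul_le_mul_of_nonneg_left ((le_abs_self A).trans tot) hn0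
    rw [h6]
    calc n * A / c ≤ n * (K * (n * N)) / c := div_le_div_of_nonneg_right h7 hc0.le
      _ ≤ n * (K * (n * N)) / ((p : ℝ) ^ 2 - p) :=
        div_le_div_of_nonneg_left (by positivity) hq hcq
  have h8 : Phi f g ^ 2 ≤ (√(K / ((p : ℝ) ^ 2 - p)) * (n * N)) ^ 2 := by
    refine hcs.trans ((mul_le_mul_of_nonneg_left h5 hN0).trans (le_of_eq ?_))
    rw [mul_pow, Real.sq_sqrt (div_nonneg hK0 hq.le)]
    ring
  have h9 := abs_le_of_sq_le_sq h8 (by positivity)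
  rw [mul_assoc]
  exact h9

end Pool.Agent.RCG
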