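import Pool.Agent.RCG.Targets

set_option autoImplicit false

/-!
# RCG: quotients
-/

namespace Pool.Agent.RCG

open Finset

namespace QUO_

variable {G H : Type} [Group G] [Group H]

/-- the group as a product of the quotient and the kernel -/
noncomputable def eqv (π : G →* H) (hπ : Function.Surjective π) : H × π.ker ≃ G :=
  Equiv.ofBijective (fun p => Function.surjInv hπ p.1 * (p.2 : G)) (by
    constructor
    · rintro ⟨h, k⟩ ⟨h', k'⟩ hh
      have e : Function.surjInv hπ h * (k : G) = Function.surjInv hπ h' * (k' : G) := hh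
      have e1 : h = h' := by
        have := congrArg π e
        rw [map_mul, map_mul, Function.surjInv_eq hπ, Function.surjInv_eq hπ,
          MonoidHom.mem_ker.1 k.2, MonoidHom.mem_ker.1 k'.2, mul_one, mul_one] at this
        exact this
      subst e1
      have e2 : (k : G) = k' := mul_left_cancel e
      exact Prod.ext rfl (Subtype.ext e2)
    · intro g
      refine ⟨(π g, ⟨(Function.surjInv hπ (π g))⁻¹ * g, ?_⟩), ?_⟩
      · rw [MonoidHom.mem_ker, map_mul, map_inv, Function.surjInv_eq hπ, inv_mul_cancel]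
      · exact mul_inv_cancel_left _ _)

theorem pi_eqv (π : G →* H) (hπ : Function.Surjective π) (p : H × π.ker) :
    π (eqv π hπ p) = p.1 := by
  show π (Function.surjInv hπ p.1 * (p.2 : G)) = p.1
  rw [map_mul, Function.surjInv_eq hπ, MonoidHom.mem_ker.1 p.2.2, mul_one]

variable [Fintype G] [Fintype H]

theorem card_eq (π : G →* H) (hπ : Function.Surjective π) :
    Fintype.card G = Fintype.card H * Nat.card π.ker := by
  rw [← Nat.card_eq_fintype_card, ← Nat.card_eq_fintype_card, ← Nat.card_prod]
  exact (Nat.card_congr (eqv π hπ)).symm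

theorem sum_eq (π : G →* H) (hπ : Function.Surjective π) (F : H → ℝ) :
    ∑ x, F (π x) = (Nat.card π.ker : ℝ) * ∑ h, F h := by
  classical
  haveI : Fintype π.ker := Fintype.ofFinite _
  rw [← (eqv π hπ).sum_comp (fun x => F (π x))]
  simp only [pi_eqv]
  rw [Fintype.sum_prod_type, Finset.mul_sum]
  refine Finset.sum_congr rfl fun h _ => ?_
  show ∑ _y : π.ker, F h = _
  rw [Finset.sum_const, nsmul_eq_mul, Finset.card_univ, Nat.card_eq_fintype_card]

theorem QB_of (π : G →* H) (hπ : Function.Surjective π) {d : ℕ} {B : ℝ} {y : Fin d → G}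
    (hy : QB y B) : QB (fun i => π (y i)) B := by
  intro f hf
  have hN : (0 : ℝ) < (Nat.card π.ker : ℝ) := by
    have : 0 < Nat.card π.ker := Nat.card_pos
    exact_mod_cast this
  have h1 : ∑ x, f (π x) = 0 := by rw [sum_eq π hπ f, hf, mul_zero]
  have h2 := hy (fun x => f (π x)) h1
  have h3 : ∀ x, adj y (fun x => f (π x)) x = adj (fun i => π (y i)) f (π x) := by
    intro x
    unfold adj
    refine Finset.sum_congr rfl fun i _ => ?_
    show f (π (x * y i)) + f (π (x * (y i)⁻¹)) = f (π x * π (y i)) + f (π x * (π (y i))⁻¹)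
    rw [map_mul, map_mul, map_inv]
  simp only [h3] at h2
  rw [sum_eq π hπ (fun h => f h * adj (fun i => π (y i)) f h), sum_eq π hπ (fun h => f h ^ 2),
    abs_mul, abs_of_pos hN] at h2
  have h4 : (Nat.card π.ker : ℝ) * |∑ x, f x * adj (fun i => π (y i)) f x| ≤
      (Nat.card π.ker : ℝ) * (B * ∑ x, f x ^ 2) := by
    calc _ ≤ _ := h2
      _ = _ := by ring
  exact le_of_mul_le_mul_left h4 hN

end QUO_

open QUO_ in
/-- quotients -/
theorem prove_QUO : T_QUO := by
  intro G H _ _ _ _ π hπ d B
  have hc := card_eq π hπ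
  have key : badCard H d B * Nat.card π.ker ^ d ≤ badCard G d B := by
    have h1 : Nat.card ({z : Fin d → H // ¬ QB z B} × (Fin d → π.ker)) =
        badCard H d B * Nat.card π.ker ^ d := by
      rw [Nat.card_prod, Nat.card_fun, Nat.card_fin]
      rfl
    rw [← h1]
    have hbad : ∀ p : {z : Fin d → H // ¬ QB z B} × (Fin d → π.ker),
        ¬ QB (fun i => eqv π hπ (p.1.1 i, p.2 i)) B := by
      intro p hq
      apply p.1.2
      have := QB_of π hπ hq
      simpa only [pi_eqv] using this
    unfold badCard
    apply Nat.card_le_card_of_injective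
      (fun p : {z : Fin d → H // ¬ QB z B} × (Fin d → π.ker) =>
        (⟨fun i => eqv π hπ (p.1.1 i, p.2 i), hbad p⟩ : {y : Fin d → G // ¬ QB y B}))
    intro p q hpq
    have e : ∀ i, (p.1.1 i, p.2 i) = (q.1.1 i, q.2 i) := fun i =>
      (eqv π hπ).injective (congrFun (congrArg Subtype.val hpq) i)
    refine Prod.ext (Subtype.ext (funext fun i => ?_)) (funext fun i => ?_)
    · exact congrArg Prod.fst (e i)
    · exact congrArg Prod.snd (e i)
  calc badCard H d B * Fintype.card G ^ d
      = badCard H d B * Nat.card π.ker ^ d * Fintype.card H ^ d := by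
        rw [hc, mul_pow]
        ring
    _ ≤ badCard G d B * Fintype.card H ^ d := Nat.mul_le_mul_right _ key

end Pool.Agent.RCG
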