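import Pool.Agent.RCG.Targets14
import Pool.Agent.RCG.QUO

set_option autoImplicit false

/-!
# RCG: quotients, counting
-/

namespace Pool.Agent.RCG

open Finset QUO_

/-- quotients, counting -/
theorem prove_QUC : T_QUC := by
  intro G H _ _ _ _ π hπ d PG PH hP
  have hc := card_eq π hπ
  have key : Nat.card {z : Fin d → H // ¬ PH z} * Nat.card π.ker ^ d ≤
      Nat.card {y : Fin d → G // ¬ PG y} := by
    have h1 : Nat.card ({z : Fin d → H // ¬ PH z} × (Fin d → π.ker)) =
        Nat.card {z : Fin d → H // ¬ PH z} * Nat.card π.ker ^ d := by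
      rw [Nat.card_prod, Nat.card_fun, Nat.card_fin]
    rw [← h1]
    have hbad : ∀ p : {z : Fin d → H // ¬ PH z} × (Fin d → π.ker),
        ¬ PG (fun i => eqv π hπ (p.1.1 i, p.2 i)) := by
      intro p hq
      apply p.1.2
      have := hP _ hq
      simpa only [pi_eqv] using this
    apply Nat.card_le_card_of_injective
      (fun p : {z : Fin d → H // ¬ PH z} × (Fin d → π.ker) =>
        (⟨fun i => eqv π hπ (p.1.1 i, p.2 i), hbad p⟩ : {y : Fin d → G // ¬ PG y}))
    intro p q hpq
    have e : ∀ i, (p.1.1 i, p.2 i) = (q.1.1 i, q.2 i) := fun i =>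
      (eqv π hπ).injective (congrFun (congrArg Subtype.val hpq) i)
    refine Prod.ext (Subtype.ext (funext fun i => ?_)) (funext fun i => ?_)
    · exact congrArg Prod.fst (e i)
    · exact congrArg Prod.snd (e i)
  calc Nat.card {z : Fin d → H // ¬ PH z} * Fintype.card G ^ d
      = Nat.card {z : Fin d → H // ¬ PH z} * Nat.card π.ker ^ d * Fintype.card H ^ d := by
        rw [hc, mul_pow]
        ring
    _ ≤ Nat.card {y : Fin d → G // ¬ PG y} * Fintype.card H ^ d := Nat.mul_le_mul_right _ key

end Pool.Agent.RCG
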