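import Pool.Agent.RCG.Targets

set_option autoImplicit false

/-!
# RCG, ITR: iterates of the adjacency operator are sums over words
-/

namespace Pool.Agent.RCG.ITR_

open Finset

theorem ev_zero {G : Type*} [Group G] {d : ℕ} (y : Fin d → G) (w : Fin 0 → Ltr d) :
    ev y w = 1 := by
  unfold ev
  rw [List.ofFn_zero]
  exact map_one (FreeGroup.lift y)

theorem ev_cons {G : Type*} [Group G] {d n : ℕ} (y : Fin d → G) (l : Ltr d)
    (w : Fin n → Ltr d) :
    ev y (Fin.cons l w : Fin (n + 1) → Ltr d) = cond l.2 (y l.1) (y l.1)⁻¹ * ev y w := by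
  unfold ev
  rw [List.ofFn_cons, ← List.singleton_append, ← FreeGroup.mul_mk, map_mul]
  congr 1
  simp [FreeGroup.lift_mk]

theorem adj_eq {G : Type*} [Group G] {d : ℕ} (y : Fin d → G) (F : G → ℝ) (x : G) :
    adj y F x = ∑ l : Ltr d, F (x * cond l.2 (y l.1) (y l.1)⁻¹) := by
  unfold adj
  rw [Fintype.sum_prod_type]
  refine Finset.sum_congr rfl fun i _ => ?_
  simp

end Pool.Agent.RCG.ITR_

namespace Pool.Agent.RCG

open Finset

theorem prove_ITR : T_ITR := by
  intro G _ d n y f
  induction n with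
  | zero =>
    intro x
    rw [Function.iterate_zero, id, Fintype.sum_unique, ITR_.ev_zero, mul_one]
  | succ n ih =>
    intro x
    have h2 : ∑ w : Fin (n + 1) → Ltr d, f (x * ev y w) =
        ∑ l : Ltr d, ∑ w : Fin n → Ltr d,
          f (x * ev y (Fin.cons l w : Fin (n + 1) → Ltr d)) := by
      rw [← (Fin.consEquiv (fun _ : Fin (n + 1) => Ltr d)).sum_comp
        (fun w : Fin (n + 1) → Ltr d => f (x * ev y w))]
      exact Fintype.sum_prod_type _
    rw [Function.iterate_succ_apply', ITR_.adj_eq, h2]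
    refine Finset.sum_congr rfl fun l _ => ?_
    rw [ih]
    refine Finset.sum_congr rfl fun w _ => ?_
    rw [ITR_.ev_cons, mul_assoc]

end Pool.Agent.RCG
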