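import Pool.Agent.RCG.Targets14
import Pool.Agent.RCG.ITR

set_option autoImplicit false

/-!
# RCG, RTP: elementary properties of right translations on complex functions
-/

namespace Pool.Agent.RCG.RTP_

open Finset

variable {G : Type} [Group G] [Fintype G]

theorem apply (g : G) (f : EuclideanSpace ℂ G) (x : G) : RT g f x = f (x * g) := rfl

theorem mul (g h : G) : RT (g * h) = RT g ∘ₗ RT h := by
  refine LinearMap.ext fun f => ?_
  refine PiLp.ext fun x => ?_
  rw [LinearMap.comp_apply, apply, apply, apply, mul_assoc]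

theorem one : RT (1 : G) = LinearMap.id := by
  refine LinearMap.ext fun f => ?_
  refine PiLp.ext fun x => ?_
  rw [apply, mul_one]
  rfl

theorem inn (g : G) (f f' : EuclideanSpace ℂ G) :
    inner ℂ (RT g f) (RT g f') = inner ℂ f f' := by
  rw [PiLp.inner_apply, PiLp.inner_apply]
  exact Equiv.sum_comp (Equiv.mulRight g) fun x => inner ℂ (f x) (f' x)

theorem adjoint (g : G) (f f' : EuclideanSpace ℂ G) :
    inner ℂ (RT g f) f' = inner ℂ f (RT g⁻¹ f') := by
  have h : RT g (RT g⁻¹ f') = f' := by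
    rw [← LinearMap.comp_apply, ← mul, mul_inv_cancel, one]
    rfl
  calc inner ℂ (RT g f) f' = inner ℂ (RT g f) (RT g (RT g⁻¹ f')) := by rw [h]
    _ = inner ℂ f (RT g⁻¹ f') := inn g f _

theorem symm {d : ℕ} (y : Fin d → G) : (AL y).IsSymmetric := by
  intro f f'
  unfold AL
  simp only [LinearMap.coe_sum, Finset.sum_apply, LinearMap.add_apply, sum_inner, inner_sum,
    inner_add_left, inner_add_right]
  refine Finset.sum_congr rfl fun i _ => ?_
  rw [adjoint, adjoint, inv_inv, add_comm]

theorem AL_eq {d : ℕ} (y : Fin d → G) :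
    AL y = ∑ l : Ltr d, RT (cond l.2 (y l.1) (y l.1)⁻¹) := by
  unfold AL
  rw [Fintype.sum_prod_type]
  refine Finset.sum_congr rfl fun i _ => ?_
  simp

theorem pow {d : ℕ} (y : Fin d → G) (n : ℕ) : (AL y) ^ n = ∑ w : Fin n → Ltr d, RT (ev y w) := by
  induction n with
  | zero =>
    rw [Fintype.sum_unique, ITR_.ev_zero, one, pow_zero]
    rfl
  | succ n ih =>
    have h2 : ∑ w : Fin (n + 1) → Ltr d, RT (ev y w) =
        ∑ l : Ltr d, ∑ w : Fin n → Ltr d,
          RT (ev y (Fin.cons l w : Fin (n + 1) → Ltr d)) := by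
      rw [← (Fin.consEquiv (fun _ : Fin (n + 1) => Ltr d)).sum_comp
        (fun w : Fin (n + 1) → Ltr d => RT (ev y w))]
      exact Fintype.sum_prod_type _
    rw [pow_succ', ih, h2, AL_eq, Finset.sum_mul_sum]
    refine Finset.sum_congr rfl fun l _ => Finset.sum_congr rfl fun w _ => ?_
    rw [ITR_.ev_cons, mul]
    rfl

end Pool.Agent.RCG.RTP_

namespace Pool.Agent.RCG

open Finset

theorem prove_RTP : T_RTP := by
  intro G _ _
  exact ⟨RTP_.apply, RTP_.mul, RTP_.one, RTP_.inn, fun d y => ⟨RTP_.symm y, RTP_.pow y⟩⟩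

end Pool.Agent.RCG
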