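import Pool.Agent.RCG.Targets14
import Pool.Agent.RCG.QUO

set_option autoImplicit false

/-!
# RCG, SPQ: quotients, pull back of invariant spaces
-/

namespace Pool.Agent.RCG

open Finset

namespace SPQ_

/-- the pull back `f ∘ π` on complex functions -/
noncomputable def PB {G H : Type} [Group G] [Fintype G] [Group H] [Fintype H] (π : G →* H) :
    EuclideanSpace ℂ H →ₗ[ℂ] EuclideanSpace ℂ G :=
  (WithLp.linearEquiv 2 ℂ (G → ℂ)).symm.toLinearMap ∘ₗ
    (LinearMap.funLeft ℂ ℂ (fun x : G => π x)) ∘ₗ (WithLp.linearEquiv 2 ℂ (H → ℂ)).toLinearMap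

variable {G H : Type} [Group G] [Fintype G] [Group H] [Fintype H]

theorem PB_apply (π : G →* H) (f : EuclideanSpace ℂ H) (x : G) : PB π f x = f (π x) := rfl

theorem RT_apply (g : G) (f : EuclideanSpace ℂ G) (x : G) : RT g f x = f (x * g) := rfl

theorem sum_eq {M : Type} [AddCommMonoid M] (π : G →* H) (hπ : Function.Surjective π)
    (F : H → M) : ∑ x, F (π x) = Nat.card π.ker • ∑ h, F h := by
  classical
  have : Fintype π.ker := Fintype.ofFinite _
  rw [← (QUO_.eqv π hπ).sum_comp (fun x => F (π x))]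
  simp only [QUO_.pi_eqv]
  rw [Fintype.sum_prod_type, Finset.smul_sum]
  refine Finset.sum_congr rfl fun h _ => ?_
  show ∑ _y : π.ker, F h = _
  rw [Finset.sum_const, Finset.card_univ, Nat.card_eq_fintype_card]

theorem PB_inj (π : G →* H) (hπ : Function.Surjective π) : Function.Injective (PB π) := by
  intro f f' h
  ext x
  obtain ⟨g, rfl⟩ := hπ x
  have := congrArg (fun F : EuclideanSpace ℂ G => F g) h
  exact this

theorem norm_PB (π : G →* H) (hπ : Function.Surjective π) (f : EuclideanSpace ℂ H) :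
    ‖PB π f‖ = √(Nat.card π.ker : ℝ) * ‖f‖ := by
  rw [EuclideanSpace.norm_eq, EuclideanSpace.norm_eq, ← Real.sqrt_mul (Nat.cast_nonneg _)]
  congr 1
  have h1 := sum_eq π hπ (fun h => ‖f h‖ ^ 2)
  rw [nsmul_eq_mul] at h1
  exact h1

theorem RT_PB (π : G →* H) (g : G) (f : EuclideanSpace ℂ H) :
    RT g (PB π f) = PB π (RT (π g) f) := by
  ext x
  rw [RT_apply, PB_apply, PB_apply, RT_apply, map_mul]

theorem AL_PB (π : G →* H) {d : ℕ} (y : Fin d → G) (f : EuclideanSpace ℂ H) :
    AL y (PB π f) = PB π (AL (fun i => π (y i)) f) := by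
  unfold AL
  rw [LinearMap.sum_apply, LinearMap.sum_apply, map_sum]
  refine Finset.sum_congr rfl fun i _ => ?_
  rw [LinearMap.add_apply, LinearMap.add_apply, map_add, RT_PB, RT_PB, map_inv]

end SPQ_

open SPQ_ in
/-- quotients -/
theorem prove_SPQ : T_SPQ := by
  intro G H _ _ _ _ π hπ d y R ν hS W hW E hE hR
  have hN : (0 : ℝ) < √(Nat.card π.ker : ℝ) := by
    have : 0 < Nat.card π.ker := Nat.card_pos
    exact Real.sqrt_pos.2 (by exact_mod_cast this)
  have hinv : InvS (W.map (PB π)) := by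
    constructor
    · rintro _ ⟨f, hf, rfl⟩
      have h1 := sum_eq π hπ (fun h => f h)
      rw [hW.1 f hf, smul_zero] at h1
      exact h1
    · rintro g _ ⟨f, hf, rfl⟩
      exact ⟨RT (π g) f, hW.2 (π g) f hf, (RT_PB π g f).symm⟩
  have h2 := hS (W.map (PB π)) hinv (E.map (PB π)) (Submodule.map_mono hE) (by
    rintro _ ⟨f, hf, rfl⟩ hne
    have hf0 : f ≠ 0 := by
      rintro rfl
      exact hne (map_zero _)
    have h3 := hR f hf hf0
    rw [AL_PB, norm_PB π hπ, norm_PB π hπ]
    calc R * (√(Nat.card π.ker : ℝ) * ‖f‖) = √(Nat.card π.ker : ℝ) * (R * ‖f‖) := by ring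
      _ < _ := mul_lt_mul_of_pos_left h3 hN)
  have h4 : ∀ F : Submodule ℂ (EuclideanSpace ℂ H),
      Module.finrank ℂ (F.map (PB π)) = Module.finrank ℂ F := fun F =>
    (Submodule.equivMapOfInjective (PB π) (PB_inj π hπ) F).finrank_eq.symm
  rw [h4, h4] at h2
  exact h2

end Pool.Agent.RCG
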