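import Pool.Agent.RCG.Targets14

set_option autoImplicit false

/-!
# SPT: a spectral lemma
-/

namespace Pool.Agent.RCG

open Finset

namespace SPT_

variable {V : Type} [NormedAddCommGroup V] [InnerProductSpace ℂ V]

lemma pow_apply {ι : Type} [Fintype ι] (T : V →ₗ[ℂ] V) (b : OrthonormalBasis ι ℂ V) (l : ι → ℝ)
    (h : ∀ i, T (b i) = (l i : ℂ) • b i) (n : ℕ) (i : ι) :
    (T ^ n) (b i) = ((l i : ℂ) ^ n) • b i := by
  induction n with
  | zero => simp
  | succ n ih =>
    rw [pow_succ, Module.End.mul_apply, h, map_smul, ih, smul_smul]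
    congr 1
    ring

lemma trace_re {ι : Type} [Fintype ι] (T : V →ₗ[ℂ] V) (b : OrthonormalBasis ι ℂ V) (l : ι → ℝ)
    (h : ∀ i, T (b i) = (l i : ℂ) • b i) (n : ℕ) :
    (LinearMap.trace ℂ V (T ^ n)).re = ∑ i, l i ^ n := by
  rw [LinearMap.trace_eq_sum_inner _ b, Complex.re_sum]
  refine Finset.sum_congr rfl fun i _ => ?_
  rw [pow_apply T b l h, inner_smul_right, inner_self_eq_norm_sq_to_K, b.norm_eq_one]
  norm_num
  rw [← Complex.ofReal_pow, Complex.ofReal_re]

end SPT_

open SPT_ in
theorem prove_SPT : T_SPT := by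
  intro V _ _ _ T E R n hT hR hn hE
  set b := hT.eigenvectorBasis rfl with hb
  set l := hT.eigenvalues rfl with hl
  have hTb : ∀ i, T (b i) = (l i : ℂ) • b i := fun i => hT.apply_eigenvectorBasis rfl i
  rw [trace_re T b l hTb n]
  set J := univ.filter (fun i => R < |l i|) with hJ
  -- the coordinates in `J` determine the vectors of `E`
  have hdim : Module.finrank ℂ E ≤ J.card := by
    let P : V →ₗ[ℂ] (J → ℂ) :=
      { toFun := fun v j => b.repr v j
        map_add' := fun v w => by
          funext j
          simp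
        map_smul' := fun c v => by
          funext j
          simp }
    have hinj : Function.Injective (P ∘ₗ E.subtype) := by
      rw [← LinearMap.ker_eq_bot, LinearMap.ker_eq_bot']
      intro v hv
      by_contra hne
      have hv0 : (v : V) ≠ 0 := fun h0 => hne (Subtype.ext h0)
      have h1 := hE v v.2 hv0
      have h2 : ∀ i ∈ J, b.repr (v : V) i = 0 := by
        intro i hi
        exact congrFun hv ⟨i, hi⟩
      have h3 : ‖T v‖ ^ 2 ≤ (R * ‖(v : V)‖) ^ 2 := by
        rw [← b.repr.norm_map (T v), ← b.repr.norm_map (v : V), mul_pow,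
          EuclideanSpace.norm_sq_eq, EuclideanSpace.norm_sq_eq, Finset.mul_sum]
        refine Finset.sum_le_sum fun i _ => ?_
        rw [hT.eigenvectorBasis_apply_self_apply rfl, norm_mul, mul_pow]
        by_cases hi : i ∈ J
        · have h4 := h2 i hi
          rw [hb] at h4
          rw [h4]
          simp
        · have h4 : |l i| ≤ R := by
            by_contra h5
            exact hi (by rw [hJ, mem_filter]; exact ⟨mem_univ _, not_le.1 h5⟩)
          have h6 : ‖(hT.eigenvalues rfl i : ℂ)‖ = |l i| := by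
            rw [Complex.norm_real, Real.norm_eq_abs]
          refine mul_le_mul_of_nonneg_right ?_ (by positivity)
          calc ‖((hT.eigenvalues rfl i : ℝ) : ℂ)‖ ^ 2 = |l i| ^ 2 := by rw [h6]
            _ ≤ R ^ 2 := by gcongr
      have h7 : ‖T v‖ ≤ R * ‖(v : V)‖ := by
        refine le_of_sq_le_sq h3 (by positivity)
      linarith
    have h8 := LinearMap.finrank_le_finrank_of_injective hinj
    simpa using h8
  calc R ^ n * (Module.finrank ℂ E : ℝ) ≤ R ^ n * (J.card : ℝ) := by
        gcongr
    _ = ∑ i ∈ J, R ^ n := by rw [Finset.sum_const, nsmul_eq_mul, mul_comm]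
    _ ≤ ∑ i ∈ J, l i ^ n := by
        refine Finset.sum_le_sum fun i hi => ?_
        rw [hJ, mem_filter] at hi
        rw [← hn.pow_abs (l i)]
        exact pow_le_pow_left₀ hR hi.2.le n
    _ ≤ ∑ i, l i ^ n :=
        Finset.sum_le_sum_of_subset_of_nonneg (Finset.subset_univ _)
          (fun i _ _ => hn.pow_nonneg _)

end Pool.Agent.RCG
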