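import Pool.Agent.RCG.Targets14

set_option autoImplicit false

/-!
# TRA: trace of the powers of the adjacency operator on an invariant space
-/

namespace Pool.Agent.RCG.TRA_

open Finset

/-- Cauchy-Schwarz for one translation -/
theorem cs_one {G : Type} [Group G] [Fintype G] (f : G → ℝ) (u : G) :
    |∑ x, f x * f (x * u)| ≤ ∑ x, f x ^ 2 := by
  have h1 : ∑ x, f (x * u) ^ 2 = ∑ x, f x ^ 2 :=
    Fintype.sum_equiv (Equiv.mulRight u) _ _ fun x => rfl
  have h2 : ∀ x, |f x * f (x * u)| ≤ (f x ^ 2 + f (x * u) ^ 2) / 2 := by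
    intro x
    rw [abs_le]
    constructor
    · nlinarith [sq_nonneg (f x + f (x * u))]
    · nlinarith [sq_nonneg (f x - f (x * u))]
  calc |∑ x, f x * f (x * u)| ≤ ∑ x, |f x * f (x * u)| := Finset.abs_sum_le_sum_abs _ _
    _ ≤ ∑ x, (f x ^ 2 + f (x * u) ^ 2) / 2 := Finset.sum_le_sum fun x _ => h2 x
    _ = ∑ x, f x ^ 2 := by
      rw [← Finset.sum_div, Finset.sum_add_distrib, h1]
      ring

theorem phi_le {G : Type} [Group G] [Fintype G] (f : G → ℝ) (g : G) :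
    |Phi f g| ≤ 1 * Fintype.card G * ∑ x, f x ^ 2 := by
  unfold Phi
  calc |∑ h : G, ∑ x, f x * f (x * (h * g * h⁻¹))|
      ≤ ∑ h : G, |∑ x, f x * f (x * (h * g * h⁻¹))| := Finset.abs_sum_le_sum_abs _ _
    _ ≤ ∑ _h : G, ∑ x, f x ^ 2 := Finset.sum_le_sum fun h _ => cs_one f _
    _ = 1 * Fintype.card G * ∑ x, f x ^ 2 := by
      rw [Finset.sum_const, Finset.card_univ, nsmul_eq_mul, one_mul]

/-- the power as a sum over the words -/
theorem pow_eq (h1 : T_RTP) {G : Type} [Group G] [Fintype G] {d : ℕ} (y : Fin d → G) (n : ℕ)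
    (W : Submodule ℂ (EuclideanSpace ℂ G)) (hW : InvS W) (hA : ∀ f ∈ W, AL y f ∈ W) :
    ((AL y).restrict hA) ^ n =
      ∑ w : Fin n → Ltr d, (RT (ev y w)).restrict (hW.2 (ev y w)) := by
  have h := ((h1 G).2.2.2.2 d y).2 n
  refine LinearMap.ext fun f => Subtype.ext ?_
  rw [Module.End.pow_restrict n hA, LinearMap.coe_restrict_apply, h, LinearMap.sum_apply,
    LinearMap.sum_apply, AddSubmonoidClass.coe_finsetSum]
  rfl

theorem bnd (h1 : T_RTP) (h2 : T_TRG) (p : ℕ) [Fact p.Prime] {d n : ℕ} (y : Fin d → SL 2 p)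
    (κ : ℝ) (W : Submodule ℂ (EuclideanSpace ℂ (SL 2 p))) (hW : InvS W) (hκ : 0 ≤ κ)
    (hg : ∀ g : SL 2 p, g.1 0 0 + g.1 1 1 ≠ 2 → g.1 0 0 + g.1 1 1 ≠ -2 →
      ∀ f : SL 2 p → ℝ, ∑ x, f x = 0 → |Phi f g| ≤ κ * Fintype.card (SL 2 p) * ∑ x, f x ^ 2)
    (w : Fin n → Ltr d) [Decidable (FreeGroup.mk (List.ofFn w) = 1)]
    [Decidable (FreeGroup.mk (List.ofFn w) ≠ 1 ∧
      ((ev y w).1 0 0 + (ev y w).1 1 1 = 2 ∨ (ev y w).1 0 0 + (ev y w).1 1 1 = -2))] :
    (LinearMap.trace ℂ W ((RT (ev y w)).restrict (hW.2 (ev y w)))).re ≤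
      ((if FreeGroup.mk (List.ofFn w) = 1 then (1 : ℝ) else 0) +
        (if FreeGroup.mk (List.ofFn w) ≠ 1 ∧
          ((ev y w).1 0 0 + (ev y w).1 1 1 = 2 ∨ (ev y w).1 0 0 + (ev y w).1 1 1 = -2)
          then (1 : ℝ) else 0) + κ) * Module.finrank ℂ W := by
  have hd : (0 : ℝ) ≤ Module.finrank ℂ W := Nat.cast_nonneg _
  by_cases ht : FreeGroup.mk (List.ofFn w) = 1
  · have he : ev y w = 1 := by
      unfold ev
      rw [ht, map_one]
    have hid : (RT (ev y w)).restrict (hW.2 (ev y w)) = LinearMap.id := by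
      refine LinearMap.ext fun f => Subtype.ext ?_
      rw [LinearMap.coe_restrict_apply, he, (h1 (SL 2 p)).2.2.1]
      rfl
    rw [hid, LinearMap.trace_id, Complex.natCast_re, if_pos ht]
    have h5 : (0 : ℝ) ≤ (if FreeGroup.mk (List.ofFn w) ≠ 1 ∧
          ((ev y w).1 0 0 + (ev y w).1 1 1 = 2 ∨ (ev y w).1 0 0 + (ev y w).1 1 1 = -2)
          then (1 : ℝ) else 0) := by split_ifs <;> norm_num
    nlinarith
  · by_cases hb : (ev y w).1 0 0 + (ev y w).1 1 1 = 2 ∨ (ev y w).1 0 0 + (ev y w).1 1 1 = -2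
    · rw [if_neg ht, if_pos ⟨ht, hb⟩]
      have h5 := h2 (SL 2 p) 1 (ev y w) W hW zero_le_one fun f _ => phi_le f _
      have h6 := (le_abs_self _).trans h5
      nlinarith
    · rw [if_neg ht, if_neg (fun h => hb h.2)]
      push Not at hb
      have h5 := h2 (SL 2 p) κ (ev y w) W hW hκ (hg (ev y w) hb.1 hb.2)
      have h6 := (le_abs_self _).trans h5
      linarith

end Pool.Agent.RCG.TRA_

namespace Pool.Agent.RCG

open Finset

open Classical in
theorem prove_TRA (h1 : T_RTP) (h2 : T_TRG) : T_TRA := by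
  intro p _ d n y κ W hW hA hκ hg
  rw [TRA_.pow_eq h1 y n W hW hA, map_sum, Complex.re_sum]
  refine (Finset.sum_le_sum fun w _ => TRA_.bnd h1 h2 p y κ W hW hκ hg w).trans ?_
  rw [← Finset.sum_mul, Finset.sum_add_distrib, Finset.sum_add_distrib, Finset.sum_const,
    Finset.card_univ, Finset.sum_boole, Finset.sum_boole]
  have ht : ((Finset.univ.filter fun w : Fin n → Ltr d =>
      FreeGroup.mk (List.ofFn w) = 1).card : ℝ) = (tw d n : ℝ) := by
    unfold tw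
    rw [Nat.card_eq_fintype_card, Fintype.card_subtype]
  have hb : ((Finset.univ.filter fun w : Fin n → Ltr d => FreeGroup.mk (List.ofFn w) ≠ 1 ∧
      ((ev y w).1 0 0 + (ev y w).1 1 1 = 2 ∨ (ev y w).1 0 0 + (ev y w).1 1 1 = -2)).card : ℝ) =
      (bw n y : ℝ) := by
    unfold bw
    rw [Nat.card_eq_fintype_card, Fintype.card_subtype]
  have hc : (Fintype.card (Fin n → Ltr d) : ℝ) = (2 * (d : ℝ)) ^ n := by
    rw [Fintype.card_fun, Fintype.card_fin, Fintype.card_prod, Fintype.card_fin,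
      Fintype.card_bool]
    push_cast
    ring
  rw [ht, hb, nsmul_eq_mul, hc, mul_comm ((2 * (d : ℝ)) ^ n) κ]

end Pool.Agent.RCG
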