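import Pool.Agent.RCG.Targets14

set_option autoImplicit false

/-!
# RCG14, block TRG: the trace of a right translation on an invariant space
-/

namespace Pool.Agent.RCG

open Finset Matrix

namespace TRG_

variable {G : Type} [Group G] [Fintype G]

/-- the restriction of a right translation -/
noncomputable def R {W : Submodule ℂ (EuclideanSpace ℂ G)} (hW : InvS W) (g : G) : W →ₗ[ℂ] W :=
  (RT g).restrict (hW.2 g)

theorem R_mul (hR : T_RTP) {W : Submodule ℂ (EuclideanSpace ℂ G)} (hW : InvS W) (g h : G) :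
    R hW (g * h) = R hW g * R hW h := by
  ext1 f
  apply Subtype.ext
  have := congrArg (fun T => T (f : EuclideanSpace ℂ G)) ((hR G).2.1 g h)
  exact this

theorem R_one (hR : T_RTP) {W : Submodule ℂ (EuclideanSpace ℂ G)} (hW : InvS W) :
    R hW (1 : G) = 1 := by
  ext1 f
  apply Subtype.ext
  have := congrArg (fun T => T (f : EuclideanSpace ℂ G)) (hR G).2.2.1
  exact this

theorem tr_conj (hR : T_RTP) {W : Submodule ℂ (EuclideanSpace ℂ G)} (hW : InvS W) (g h : G) :
    LinearMap.trace ℂ W (R hW (h * g * h⁻¹)) = LinearMap.trace ℂ W (R hW g) := by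
  rw [R_mul hR, LinearMap.trace_mul_comm, ← R_mul hR, ← mul_assoc, inv_mul_cancel, one_mul]

theorem re_inner (hR : T_RTP) (f : EuclideanSpace ℂ G) (g : G) :
    (∑ h : G, inner ℂ f (RT (h * g * h⁻¹) f)).re =
      Phi (fun x => (f x).re) g + Phi (fun x => (f x).im) g := by
  unfold Phi
  rw [Complex.re_sum, ← Finset.sum_add_distrib]
  refine Finset.sum_congr rfl fun h _ => ?_
  rw [PiLp.inner_apply, Complex.re_sum, ← Finset.sum_add_distrib]
  refine Finset.sum_congr rfl fun x _ => ?_
  rw [(hR G).1]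
  simp only [RCLike.inner_apply, Complex.mul_re, Complex.conj_re, Complex.conj_im]
  ring

end TRG_

theorem prove_TRG (hR : T_RTP) : T_TRG := by
  intro G _ _ κ g W hW hκ hP
  have hG : (0 : ℝ) < Fintype.card G := by
    exact_mod_cast Fintype.card_pos
  let b := stdOrthonormalBasis ℂ W
  have h1 : (Fintype.card G : ℂ) * LinearMap.trace ℂ W (TRG_.R hW g) =
      ∑ i, ∑ h : G, inner ℂ (b i : EuclideanSpace ℂ G) (RT (h * g * h⁻¹) (b i)) := by
    rw [Finset.sum_comm]
    have : ∀ h : G, LinearMap.trace ℂ W (TRG_.R hW g) =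
        ∑ i, inner ℂ (b i : EuclideanSpace ℂ G) (RT (h * g * h⁻¹) (b i)) := by
      intro h
      rw [← TRG_.tr_conj hR hW g h, LinearMap.trace_eq_sum_inner _ b]
      rfl
    rw [← Finset.sum_congr rfl fun h _ => this h, Finset.sum_const, Finset.card_univ, nsmul_eq_mul]
  have h2 : ∀ i, |(∑ h : G, inner ℂ (b i : EuclideanSpace ℂ G) (RT (h * g * h⁻¹) (b i))).re| ≤
      κ * Fintype.card G := by
    intro i
    rw [TRG_.re_inner hR]
    have hs := hW.1 _ (b i).2
    have hu := hP (fun x => ((b i : EuclideanSpace ℂ G) x).re) (by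
      have := congrArg Complex.re hs
      rwa [Complex.re_sum, Complex.zero_re] at this)
    have hv := hP (fun x => ((b i : EuclideanSpace ℂ G) x).im) (by
      have := congrArg Complex.im hs
      rwa [Complex.im_sum, Complex.zero_im] at this)
    have hn : ∑ x, ((b i : EuclideanSpace ℂ G) x).re ^ 2 +
        ∑ x, ((b i : EuclideanSpace ℂ G) x).im ^ 2 = 1 := by
      have h3 : ‖(b i : EuclideanSpace ℂ G)‖ = 1 := b.orthonormal.1 i
      have h4 := EuclideanSpace.norm_sq_eq (b i : EuclideanSpace ℂ G)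
      rw [h3, one_pow] at h4
      rw [← Finset.sum_add_distrib, h4]
      refine Finset.sum_congr rfl fun x _ => ?_
      rw [← Complex.normSq_eq_norm_sq, Complex.normSq_apply]
      ring
    calc _ ≤ |Phi (fun x => ((b i : EuclideanSpace ℂ G) x).re) g| +
          |Phi (fun x => ((b i : EuclideanSpace ℂ G) x).im) g| := abs_add_le _ _
      _ ≤ κ * Fintype.card G * ∑ x, ((b i : EuclideanSpace ℂ G) x).re ^ 2 +
          κ * Fintype.card G * ∑ x, ((b i : EuclideanSpace ℂ G) x).im ^ 2 := add_le_add hu hv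
      _ = κ * Fintype.card G := by rw [← mul_add, hn, mul_one]
  have h3 : (Fintype.card G : ℝ) * |(LinearMap.trace ℂ W (TRG_.R hW g)).re| ≤
      (Fintype.card G : ℝ) * (κ * Module.finrank ℂ W) := by
    have h4 := congrArg Complex.re h1
    rw [Complex.re_sum] at h4
    have h5 : ((Fintype.card G : ℂ) * LinearMap.trace ℂ W (TRG_.R hW g)).re =
        (Fintype.card G : ℝ) * (LinearMap.trace ℂ W (TRG_.R hW g)).re := by
      simp
    rw [h5] at h4
    rw [← abs_of_pos hG, ← abs_mul, h4, abs_of_pos hG]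
    calc _ ≤ ∑ i, |(∑ h : G, inner ℂ (b i : EuclideanSpace ℂ G)
          (RT (h * g * h⁻¹) (b i))).re| := Finset.abs_sum_le_sum_abs _ _
      _ ≤ ∑ _i : Fin (Module.finrank ℂ W), κ * Fintype.card G :=
          Finset.sum_le_sum fun i _ => h2 i
      _ = _ := by
          rw [Finset.sum_const, Finset.card_univ, Fintype.card_fin, nsmul_eq_mul]
          ring
  exact le_of_mul_le_mul_left h3 hG

end Pool.Agent.RCG
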