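import Pool.Agent.RCG.Targets14

set_option autoImplicit false

/-!
# RCG14-UCT: sum of a class function over the matrices of trace `2` (and `-2`)
-/

namespace Pool.Agent.RCG

open Finset Matrix

namespace UCT_

variable {p : ℕ}

theorem ext2 {x y : SL 2 p} (h00 : x.1 0 0 = y.1 0 0) (h01 : x.1 0 1 = y.1 0 1)
    (h10 : x.1 1 0 = y.1 1 0) (h11 : x.1 1 1 = y.1 1 1) : x = y := by
  apply Subtype.ext
  ext i j
  fin_cases i <;> fin_cases j
  · exact h00
  · exact h01
  · exact h10
  · exact h11

theorem det2 (x : SL 2 p) : x.1 0 0 * x.1 1 1 - x.1 0 1 * x.1 1 0 = 1 := by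
  rw [← Matrix.det_fin_two]
  exact x.2

theorem mul_app (x y : SL 2 p) (i j : Fin 2) :
    (x * y).1 i j = x.1 i 0 * y.1 0 j + x.1 i 1 * y.1 1 j := by
  change (x.1 * y.1) i j = _
  rw [Matrix.mul_apply, Fin.sum_univ_two]

/-- the conjugate of `um b` which fixes the line number `t` -/
def LL (b t : ZMod p) : SL 2 p :=
  ⟨!![1 - t * b, t ^ 2 * b; -b, 1 + t * b], by
    rw [Matrix.det_fin_two_of]
    ring⟩

/-- the conjugating matrix -/
def hh (t : ZMod p) : SL 2 p := ⟨!![t, -1; 1, 0], by
    rw [Matrix.det_fin_two_of]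
    ring⟩

theorem LL_conj (b t : ZMod p) : hh t * um b * (hh t)⁻¹ = LL b t := by
  rw [mul_inv_eq_iff_eq_mul]
  refine ext2 ?_ ?_ ?_ ?_ <;> rw [mul_app, mul_app] <;> simp [hh, um, LL] <;> ring

theorem um0 : um (0 : ZMod p) = 1 := by
  refine ext2 ?_ ?_ ?_ ?_ <;> simp [um]

theorem first [Fact p.Prime] (F : SL 2 p → ℝ) (hF : ∀ h g, F (h * g * h⁻¹) = F g) :
    ∑ x ∈ univ.filter (fun x : SL 2 p => x.1 0 0 + x.1 1 1 = 2), F x =
      F 1 + (p + 1) * ∑ b ∈ univ.filter (fun b : ZMod p => b ≠ 0), F (um b) := by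
  classical
  -- the two parts
  have hsplit := Finset.sum_filter_add_sum_filter_not
    (univ.filter (fun x : SL 2 p => x.1 0 0 + x.1 1 1 = 2)) (fun x => x.1 1 0 = 0) F
  rw [← hsplit]
  have hA : ∑ x ∈ (univ.filter (fun x : SL 2 p => x.1 0 0 + x.1 1 1 = 2)).filter
      (fun x => x.1 1 0 = 0), F x = ∑ b : ZMod p, F (um b) := by
    refine Finset.sum_bij' (fun x _ => x.1 0 1) (fun b _ => um b) ?_ ?_ ?_ ?_ ?_
    · intro x _
      exact mem_univ _
    · intro b _
      simp only [mem_filter, mem_univ, true_and]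
      constructor
      · simp [um]; norm_num
      · simp [um]
    · intro x hx
      simp only [mem_filter, mem_univ, true_and] at hx
      obtain ⟨h1, h2⟩ := hx
      have h3 := det2 x
      rw [h2, mul_zero, sub_zero] at h3
      have h4 : (x.1 0 0 - 1) * (x.1 0 0 - 1) = 0 := by linear_combination (x.1 0 0) * h1 - h3
      have h5 : x.1 0 0 = 1 := by
        have := mul_self_eq_zero.1 h4
        linear_combination this
      have h6 : x.1 1 1 = 1 := by linear_combination h1 - h5
      refine ext2 ?_ ?_ ?_ ?_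
      · simp [um, h5]
      · simp [um]
      · simp [um, h2]
      · simp [um, h6]
    · intro b _
      simp [um]
    · intro x hx
      simp only [mem_filter, mem_univ, true_and] at hx
      obtain ⟨h1, h2⟩ := hx
      have h3 := det2 x
      rw [h2, mul_zero, sub_zero] at h3
      have h4 : (x.1 0 0 - 1) * (x.1 0 0 - 1) = 0 := by linear_combination (x.1 0 0) * h1 - h3
      have h5 : x.1 0 0 = 1 := by
        have := mul_self_eq_zero.1 h4
        linear_combination this
      have h6 : x.1 1 1 = 1 := by linear_combination h1 - h5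
      congr 1
      refine ext2 ?_ ?_ ?_ ?_
      · simp [um, h5]
      · simp [um]
      · simp [um, h2]
      · simp [um, h6]
  have hB : ∑ x ∈ (univ.filter (fun x : SL 2 p => x.1 0 0 + x.1 1 1 = 2)).filter
      (fun x => ¬ x.1 1 0 = 0), F x =
      ∑ z ∈ (univ.filter (fun b : ZMod p => b ≠ 0)) ×ˢ (univ : Finset (ZMod p)),
        F (um z.1) := by
    have key : ∀ x : SL 2 p, x.1 0 0 + x.1 1 1 = 2 → x.1 1 0 ≠ 0 →
        LL (-x.1 1 0) ((x.1 0 0 - 1) / x.1 1 0) = x := by
      intro x h1 h2
      have h3 := det2 x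
      refine ext2 ?_ ?_ ?_ ?_
      · simp only [LL, Matrix.of_apply, Matrix.cons_val', Matrix.cons_val_zero,
          Matrix.cons_val_fin_one]
        field_simp
        ring
      · simp only [LL, Matrix.of_apply, Matrix.cons_val', Matrix.cons_val_zero,
          Matrix.cons_val_fin_one, Matrix.cons_val_one]
        field_simp
        linear_combination h3 - (x.1 0 0) * h1
      · simp [LL]
      · simp only [LL, Matrix.of_apply, Matrix.cons_val', Matrix.cons_val_zero,
          Matrix.cons_val_fin_one, Matrix.cons_val_one]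
        field_simp
        linear_combination -h1
    refine Finset.sum_bij' (fun x _ => (-x.1 1 0, (x.1 0 0 - 1) / x.1 1 0))
      (fun z _ => LL z.1 z.2) ?_ ?_ ?_ ?_ ?_
    · intro x hx
      simp only [mem_filter, mem_univ, true_and] at hx
      simp only [mem_product, mem_filter, mem_univ, true_and, and_true, ne_eq, neg_eq_zero]
      exact hx.2
    · intro z hz
      simp only [mem_product, mem_filter, mem_univ, true_and, and_true] at hz
      simp only [mem_filter, mem_univ, true_and]
      constructor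
      · simp [LL]; ring
      · simpa [LL] using hz
    · intro x hx
      simp only [mem_filter, mem_univ, true_and] at hx
      exact key x hx.1 hx.2
    · intro z hz
      simp only [mem_product, mem_filter, mem_univ, true_and, and_true] at hz
      refine Prod.ext ?_ ?_
      · simp [LL]
      · simp only [LL, Matrix.of_apply, Matrix.cons_val', Matrix.cons_val_zero,
          Matrix.cons_val_fin_one, Matrix.cons_val_one]
        field_simp
        ring
    · intro x hx
      simp only [mem_filter, mem_univ, true_and] at hx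
      have h1 := hF (hh ((x.1 0 0 - 1) / x.1 1 0)) (um (-x.1 1 0))
      rw [LL_conj, key x hx.1 hx.2] at h1
      exact h1
  rw [hA, hB, Finset.sum_product]
  have hC : ∑ b : ZMod p, F (um b) = F 1 + ∑ b ∈ univ.filter (fun b : ZMod p => b ≠ 0),
      F (um b) := by
    rw [← Finset.sum_filter_add_sum_filter_not univ (fun b : ZMod p => b = 0)
      (fun b => F (um b))]
    congr 1
    rw [Finset.filter_eq' univ (0 : ZMod p), if_pos (mem_univ _), Finset.sum_singleton, um0]
  rw [hC]
  simp only [Finset.sum_const, Finset.card_univ, ZMod.card, nsmul_eq_mul]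
  rw [← Finset.mul_sum]
  ring

theorem cen (h : SL 2 p) : vm 0 * h = h * vm 0 := by
  refine ext2 ?_ ?_ ?_ ?_ <;> rw [mul_app, mul_app] <;> simp [vm]

theorem sq : vm (0 : ZMod p) * vm 0 = 1 := by
  refine ext2 ?_ ?_ ?_ ?_ <;> rw [mul_app] <;> simp [vm]

theorem vm_um (b : ZMod p) : vm 0 * um b = vm (-b) := by
  refine ext2 ?_ ?_ ?_ ?_ <;> rw [mul_app] <;> simp [vm, um]

end UCT_

open UCT_ in
theorem prove_UCT : T_UCT := by
  intro p _ hp F hF
  refine ⟨first F hF, ?_⟩
  have hF' : ∀ h g : SL 2 p, (fun x => F (vm 0 * x)) (h * g * h⁻¹) =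
      (fun x => F (vm 0 * x)) g := by
    intro h g
    have e : vm 0 * (h * g * h⁻¹) = h * (vm 0 * g) * h⁻¹ := by
      rw [← mul_assoc, ← mul_assoc, cen h, mul_assoc h (vm 0) g]
    change F (vm 0 * (h * g * h⁻¹)) = F (vm 0 * g)
    rw [e, hF]
  have h1 := first (fun x => F (vm 0 * x)) hF'
  have h2 : ∑ x ∈ univ.filter (fun x : SL 2 p => x.1 0 0 + x.1 1 1 = -2), F x =
      ∑ x ∈ univ.filter (fun x : SL 2 p => x.1 0 0 + x.1 1 1 = 2), F (vm 0 * x) := by
    refine Finset.sum_bij' (fun x _ => vm 0 * x) (fun x _ => vm 0 * x) ?_ ?_ ?_ ?_ ?_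
    · intro x hx
      simp only [mem_filter, mem_univ, true_and] at hx ⊢
      rw [mul_app, mul_app]
      simp only [vm, Matrix.of_apply, Matrix.cons_val', Matrix.cons_val_zero,
        Matrix.cons_val_fin_one, Matrix.cons_val_one]
      linear_combination -hx
    · intro x hx
      simp only [mem_filter, mem_univ, true_and] at hx ⊢
      rw [mul_app, mul_app]
      simp only [vm, Matrix.of_apply, Matrix.cons_val', Matrix.cons_val_zero,
        Matrix.cons_val_fin_one, Matrix.cons_val_one]
      linear_combination -hx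
    · intro x _
      rw [← mul_assoc, sq, one_mul]
    · intro x _
      rw [← mul_assoc, sq, one_mul]
    · intro x _
      rw [← mul_assoc, sq, one_mul]
  rw [h2, h1, mul_one]
  congr 2
  refine Finset.sum_bij' (fun b _ => -b) (fun b _ => -b) ?_ ?_ ?_ ?_ ?_
  · intro b hb
    simpa using hb
  · intro b hb
    simpa using hb
  · intro b _
    exact neg_neg b
  · intro b _
    exact neg_neg b
  · intro b _
    rw [vm_um]

end Pool.Agent.RCG
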