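import Pool.Agent.RCG.Targets14
import Pool.Agent.RCG.DIM2

set_option autoImplicit false

/-!
# RCG: UPW

In a right invariant space `W` of functions of sum zero on `SL (2, p)` the vectors fixed by the
upper unipotent matrices have dimension at most `4 dim W / (p - 1)`.
-/

namespace Pool.Agent.RCG

open Finset Matrix

namespace UPW_

open DIM2_

variable {p : ℕ}

theorem D_mul (a b : (ZMod p)ˣ) : (D (a * b) : SL 2 p) = D a * D b := by
  apply Subtype.ext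
  change !![((a * b : (ZMod p)ˣ) : ZMod p), 0; 0, (((a * b)⁻¹ : (ZMod p)ˣ) : ZMod p)] =
    !![(a : ZMod p), 0; 0, ((a⁻¹ : (ZMod p)ˣ) : ZMod p)] *
      !![(b : ZMod p), 0; 0, ((b⁻¹ : (ZMod p)ˣ) : ZMod p)]
  rw [Matrix.mul_fin_two, _root_.mul_inv_rev, mul_comm b⁻¹ a⁻¹]
  simp

theorem D_W (a : (ZMod p)ˣ) : (D a * W : SL 2 p) = W * D a⁻¹ := by
  apply Subtype.ext
  change !![(a : ZMod p), 0; 0, ((a⁻¹ : (ZMod p)ˣ) : ZMod p)] * !![0, 1; -1, 0] =
    !![0, 1; -1, 0] * !![((a⁻¹ : (ZMod p)ˣ) : ZMod p), 0; 0, (((a⁻¹)⁻¹ : (ZMod p)ˣ) : ZMod p)]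
  rw [Matrix.mul_fin_two, Matrix.mul_fin_two, inv_inv]
  simp

theorem U_zero : (U 0 : SL 2 p) = 1 := by
  apply Subtype.ext
  change !![1, 0; 0, 1] = (1 : Matrix (Fin 2) (Fin 2) (ZMod p))
  rw [Matrix.one_fin_two]

theorem bruhat [Fact p.Prime] (M : SL 2 p) : (∃ b a, M = U b * D a) ∨
    ∃ x a y, M = U x * (D a * (W * U y)) := by
  have hdet : M.1 0 0 * M.1 1 1 - M.1 0 1 * M.1 1 0 = 1 := by
    have := M.2
    rwa [Matrix.det_fin_two] at this
  by_cases hc : M.1 1 0 = 0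
  · left
    rw [hc, mul_zero, sub_zero] at hdet
    have ha : M.1 0 0 ≠ 0 := left_ne_zero_of_mul_eq_one hdet
    refine ⟨M.1 0 1 * M.1 0 0, Units.mk0 _ ha, ?_⟩
    have hi : (((Units.mk0 _ ha)⁻¹ : (ZMod p)ˣ) : ZMod p) = M.1 1 1 := by
      rw [Units.val_inv_eq_inv_val, Units.val_mk0]
      exact (eq_inv_of_mul_eq_one_right hdet).symm
    apply Subtype.ext
    change M.1 = !![1, M.1 0 1 * M.1 0 0; 0, 1] * !![((Units.mk0 _ ha : (ZMod p)ˣ) : ZMod p), 0;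
      0, (((Units.mk0 _ ha)⁻¹ : (ZMod p)ˣ) : ZMod p)]
    rw [hi, Units.val_mk0, Matrix.mul_fin_two]
    ext i j
    fin_cases i <;> fin_cases j
    · simp
    · simp only [mul_zero, zero_add]
      simp
      linear_combination (-M.1 0 1) * hdet
    · simp [hc]
    · simp
  · right
    have hs : -(M.1 1 0)⁻¹ ≠ 0 := neg_ne_zero.2 (inv_ne_zero hc)
    refine ⟨M.1 0 0 / M.1 1 0, Units.mk0 _ hs, M.1 1 1 / M.1 1 0, ?_⟩
    have hi : (((Units.mk0 _ hs)⁻¹ : (ZMod p)ˣ) : ZMod p) = -M.1 1 0 := by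
      rw [Units.val_inv_eq_inv_val, Units.val_mk0, inv_neg, inv_inv]
    apply Subtype.ext
    change M.1 = !![1, M.1 0 0 / M.1 1 0; 0, 1] *
      (!![((Units.mk0 _ hs : (ZMod p)ˣ) : ZMod p), 0;
      0, (((Units.mk0 _ hs)⁻¹ : (ZMod p)ˣ) : ZMod p)] *
        (!![0, 1; -1, 0] * !![1, M.1 1 1 / M.1 1 0; 0, 1]))
    rw [hi, Units.val_mk0, Matrix.mul_fin_two, Matrix.mul_fin_two, Matrix.mul_fin_two]
    ext i j
    fin_cases i <;> fin_cases j
    · simp
      field_simp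
    · simp
      field_simp
      linear_combination -hdet
    · simp
    · simp
      field_simp

/-- the facts of RTP which are used -/
structure R (p : ℕ) [Fact p.Prime] : Prop where
  app : ∀ (g : SL 2 p) (f : EuclideanSpace ℂ (SL 2 p)) (x : SL 2 p), RT g f x = f (x * g)
  mul : ∀ g h : SL 2 p, RT (g * h) = RT g ∘ₗ RT h
  one : RT (1 : SL 2 p) = LinearMap.id
  inn : ∀ (g : SL 2 p) (f f' : EuclideanSpace ℂ (SL 2 p)),
    inner ℂ (RT g f) (RT g f') = inner ℂ f f'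

variable [hp : Fact p.Prime]

/-- the projection to the vectors fixed by the unipotent matrices -/
noncomputable def e : EuclideanSpace ℂ (SL 2 p) →ₗ[ℂ] EuclideanSpace ℂ (SL 2 p) :=
  (p : ℂ)⁻¹ • ∑ b : ZMod p, RT (U b)

/-- the fixed vectors in `W` -/
def FX (Y : Submodule ℂ (EuclideanSpace ℂ (SL 2 p))) :
    Submodule ℂ (EuclideanSpace ℂ (SL 2 p)) where
  carrier := {f | f ∈ Y ∧ ∀ b, RT (U b) f = f}
  add_mem' := by
    rintro f g ⟨hf, hf'⟩ ⟨hg, hg'⟩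
    exact ⟨Y.add_mem hf hg, fun b => by rw [map_add, hf', hg']⟩
  zero_mem' := ⟨Y.zero_mem, fun b => map_zero _⟩
  smul_mem' := by
    rintro c f ⟨hf, hf'⟩
    exact ⟨Y.smul_mem c hf, fun b => by rw [map_smul, hf']⟩

namespace R

variable (r : R p)
include r

theorem mul' (g h : SL 2 p) (f : EuclideanSpace ℂ (SL 2 p)) : RT g (RT h f) = RT (g * h) f := by
  rw [r.mul]; rfl

theorem inv1 (g : SL 2 p) (f : EuclideanSpace ℂ (SL 2 p)) : RT g (RT g⁻¹ f) = f := by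
  rw [r.mul', mul_inv_cancel, r.one]; rfl

theorem adj (g : SL 2 p) (f f' : EuclideanSpace ℂ (SL 2 p)) :
    inner ℂ f (RT g f') = inner ℂ (RT g⁻¹ f) f' := by
  rw [← r.inn g (RT g⁻¹ f) f', r.inv1]

theorem e_U (b : ZMod p) (f : EuclideanSpace ℂ (SL 2 p)) : e (RT (U b) f) = e f := by
  unfold e
  rw [LinearMap.smul_apply, LinearMap.smul_apply, LinearMap.sum_apply, LinearMap.sum_apply]
  congr 1
  refine Fintype.sum_equiv (Equiv.addRight b) _ _ fun c => ?_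
  rw [r.mul', U_mul]
  rfl

theorem e_fix {f : EuclideanSpace ℂ (SL 2 p)} (hf : ∀ b, RT (U b) f = f) : e f = f := by
  unfold e
  rw [LinearMap.smul_apply, LinearMap.sum_apply, sum_congr rfl fun b _ => hf b, sum_const,
    card_univ, ZMod.card, ← Nat.cast_smul_eq_nsmul ℂ, smul_smul, inv_mul_cancel₀, one_smul]
  exact Nat.cast_ne_zero.2 hp.out.ne_zero

theorem D_fix {f : EuclideanSpace ℂ (SL 2 p)} (hf : ∀ b, RT (U b) f = f) (a : (ZMod p)ˣ)
    (b : ZMod p) : RT (U b) (RT (D a) f) = RT (D a) f := by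
  have h1 := D_mul_U a ((((a⁻¹ : (ZMod p)ˣ) : ZMod p)) ^ 2 * b)
  have h2 : (a : ZMod p) ^ 2 * ((((a⁻¹ : (ZMod p)ˣ) : ZMod p)) ^ 2 * b) = b := by
    rw [← mul_assoc, ← mul_pow, ← Units.val_mul]
    simp
  rw [h2] at h1
  rw [r.mul', ← h1, ← r.mul', hf]

/-- the fixed vectors in the span of the translates of `v` -/
theorem mem_span {v : EuclideanSpace ℂ (SL 2 p)} (hv : ∀ b, RT (U b) v = v)
    (hD : ∀ a : (ZMod p)ˣ, ∃ c : ℂ, RT (D a) v = c • v) (M : SL 2 p) :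
    e (RT M v) ∈ Submodule.span ℂ ({v, e (RT W v)} : Set (EuclideanSpace ℂ (SL 2 p))) := by
  rcases bruhat M with ⟨b, a, rfl⟩ | ⟨x, a, y, rfl⟩
  · obtain ⟨c, hc⟩ := hD a
    rw [← r.mul', hc, r.e_U, map_smul, r.e_fix hv]
    exact Submodule.smul_mem _ _ (Submodule.subset_span (by simp))
  · obtain ⟨c, hc⟩ := hD a⁻¹
    rw [← r.mul', r.e_U, ← mul_assoc, ← r.mul', hv, D_W, ← r.mul', hc, map_smul, map_smul]
    exact Submodule.smul_mem _ _ (Submodule.subset_span (by simp))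

/-- a common eigenvector of the diagonal matrices -/
theorem eigen {Y : Submodule ℂ (EuclideanSpace ℂ (SL 2 p))}
    (hY : ∀ g : SL 2 p, ∀ f ∈ Y, RT g f ∈ Y) (hne : FX Y ≠ ⊥) :
    ∃ v ∈ FX Y, v ≠ 0 ∧ ∀ a : (ZMod p)ˣ, ∃ c : ℂ, RT (D a) v = c • v := by
  have hinv : ∀ a : (ZMod p)ˣ, ∀ f ∈ FX Y, RT (D a) f ∈ FX Y :=
    fun a f hf => ⟨hY _ _ hf.1, fun b => r.D_fix hf.2 a b⟩
  obtain ⟨a0, ha0⟩ := IsCyclic.exists_generator (α := (ZMod p)ˣ)
  have : Nontrivial (FX Y) := Submodule.nontrivial_iff_ne_bot.2 hne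
  obtain ⟨c, hc⟩ := Module.End.exists_eigenvalue ((RT (D a0)).restrict (hinv a0))
  obtain ⟨v, hv⟩ := hc.exists_hasEigenvector
  have hv1 : RT (D a0) (v : EuclideanSpace ℂ (SL 2 p)) = c • (v : EuclideanSpace ℂ (SL 2 p)) := by
    have := congrArg Subtype.val hv.apply_eq_smul
    exact this
  refine ⟨v, v.2, fun h0 => hv.2 (Subtype.ext h0), fun a => ?_⟩
  have hmem := ha0 a
  rw [← mem_powers_iff_mem_zpowers] at hmem
  obtain ⟨k, hk⟩ := hmem
  have hk' : a0 ^ k = a := hk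
  subst hk'
  clear hk
  refine ⟨c ^ k, ?_⟩
  have hD1 : (D 1 : SL 2 p) = 1 := by
    apply Subtype.ext
    change !![((1 : (ZMod p)ˣ) : ZMod p), 0; 0, (((1 : (ZMod p)ˣ)⁻¹ : (ZMod p)ˣ) : ZMod p)] =
      (1 : Matrix (Fin 2) (Fin 2) (ZMod p))
    rw [Matrix.one_fin_two]
    simp
  induction k with
  | zero => rw [pow_zero, hD1, r.one, pow_zero, one_smul]; rfl
  | succ k ih => rw [pow_succ, D_mul, ← r.mul', hv1, map_smul, ih, smul_smul, pow_succ c k,
      mul_comm c]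

/-- the dimension bound for right invariant spaces -/
theorem dim (h : T_DIM2) (hp2 : p ≠ 2) {V : Submodule ℂ (EuclideanSpace ℂ (SL 2 p))}
    (hne : V ≠ ⊥) (hV : InvS V) : ((p : ℝ) - 1) / 2 ≤ Module.finrank ℂ V := by
  set L : EuclideanSpace ℂ (SL 2 p) ≃ₗ[ℂ] (SL 2 p → ℂ) :=
    (WithLp.linearEquiv 2 ℂ (SL 2 p → ℂ)).trans
      (LinearEquiv.funCongrLeft ℂ ℂ (Equiv.inv (SL 2 p))) with hL
  have hLa : ∀ f x, L f x = f x⁻¹ := fun f x => rfl
  have h1 := h p hp2 (V.map (L : EuclideanSpace ℂ (SL 2 p) →ₗ[ℂ] (SL 2 p → ℂ))) ?_ ?_ ?_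
  · rwa [LinearEquiv.finrank_map_eq] at h1
  · intro h0
    apply hne
    rw [Submodule.map_eq_bot_iff] at h0
    exact h0
  · intro f hf
    obtain ⟨w, hw, rfl⟩ := Submodule.mem_map.1 hf
    rw [← hV.1 w hw]
    exact Fintype.sum_equiv (Equiv.inv _) _ _ fun x => rfl
  · intro f hf g
    obtain ⟨w, hw, rfl⟩ := Submodule.mem_map.1 hf
    refine Submodule.mem_map.2 ⟨RT g⁻¹ w, hV.2 _ _ hw, ?_⟩
    funext x
    change RT g⁻¹ w x⁻¹ = w (g * x)⁻¹
    rw [r.app, _root_.mul_inv_rev]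

theorem main (h : T_DIM2) (hp2 : p ≠ 2) : ∀ (n : ℕ) (Y : Submodule ℂ (EuclideanSpace ℂ (SL 2 p))),
    Module.finrank ℂ Y = n → InvS Y →
      ((p : ℝ) - 1) * Module.finrank ℂ (FX Y) ≤ 4 * Module.finrank ℂ Y := by
  classical
  intro n
  induction n using Nat.strong_induction_on with
  | _ n ih =>
  intro Y hn hY
  by_cases hF : FX Y = ⊥
  · rw [hF, finrank_bot, Nat.cast_zero, mul_zero]
    positivity
  obtain ⟨v, hvF, hv0, hvD⟩ := r.eigen hY.2 hF
  set V : Submodule ℂ (EuclideanSpace ℂ (SL 2 p)) :=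
    Submodule.span ℂ (Set.range fun g : SL 2 p => RT g v) with hV
  have hVY : V ≤ Y := by
    rw [hV, Submodule.span_le]
    rintro _ ⟨g, rfl⟩
    exact hY.2 g v hvF.1
  have hVinv : ∀ g : SL 2 p, ∀ f ∈ V, RT g f ∈ V := by
    intro g
    have h1 : V ≤ V.comap (RT g) := by
      rw [hV, Submodule.span_le]
      rintro _ ⟨k, rfl⟩
      change RT g (RT k v) ∈ Submodule.span ℂ (Set.range fun g : SL 2 p => RT g v)
      rw [r.mul']
      exact Submodule.subset_span ⟨g * k, rfl⟩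
    exact fun f hf => h1 hf
  have hvV : v ∈ V := Submodule.subset_span ⟨1, by simp [r.one]⟩
  have hVne : V ≠ ⊥ := by
    intro h0
    rw [h0, Submodule.mem_bot] at hvV
    exact hv0 hvV
  have hVI : InvS V := ⟨fun f hf => hY.1 f (hVY hf), hVinv⟩
  have hdim := r.dim h hp2 hVne hVI
  set Y1 : Submodule ℂ (EuclideanSpace ℂ (SL 2 p)) := Vᗮ ⊓ Y with hY1
  have hort : ∀ g : SL 2 p, ∀ f ∈ Vᗮ, RT g f ∈ Vᗮ := by
    intro g f hf
    rw [Submodule.mem_orthogonal] at hf ⊢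
    intro u hu
    rw [r.adj]
    exact hf _ (hVinv _ _ hu)
  have hY1I : InvS Y1 := ⟨fun f hf => hY.1 f hf.2, fun g f hf => ⟨hort g f hf.1, hY.2 g f hf.2⟩⟩
  have hsum := Submodule.finrank_add_inf_finrank_orthogonal hVY
  have hVpos : 0 < Module.finrank ℂ V := Nat.pos_of_ne_zero fun h0 =>
    hVne (Submodule.finrank_eq_zero.1 h0)
  have hlt : Module.finrank ℂ Y1 < n := by
    rw [← hn, ← hsum, hY1]
    omega
  have hIH := ih _ hlt Y1 rfl hY1I
  -- the fixed vectors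
  set S2 : Submodule ℂ (EuclideanSpace ℂ (SL 2 p)) :=
    Submodule.span ℂ ({v, e (RT W v)} : Set (EuclideanSpace ℂ (SL 2 p))) with hS2
  have heV : ∀ f ∈ V, e f ∈ S2 := by
    have h1 : V ≤ S2.comap e := by
      rw [hV, Submodule.span_le]
      rintro _ ⟨k, rfl⟩
      exact r.mem_span hvF.2 hvD k
    exact fun f hf => h1 hf
  have hle : FX Y ≤ S2 ⊔ FX Y1 := by
    intro f hf
    obtain ⟨y, hy, z, hz, rfl⟩ := V.exists_add_mem_mem_orthogonal f
    have hzY : z ∈ Y := by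
      have h1 := Y.sub_mem hf.1 (hVY hy)
      rwa [add_sub_cancel_left] at h1
    have hfix : ∀ b, RT (U b) y = y ∧ RT (U b) z = z := by
      intro b
      have h1 := hf.2 b
      rw [map_add] at h1
      have h2 : RT (U b) y - y = z - RT (U b) z := by
        rw [sub_eq_sub_iff_add_eq_add, h1, add_comm]
      have h3 : RT (U b) y - y ∈ V := V.sub_mem (hVinv _ _ hy) hy
      have h4 : RT (U b) y - y ∈ Vᗮ := by
        rw [h2]
        exact Vᗮ.sub_mem hz (hort _ _ hz)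
      have h5 : RT (U b) y - y ∈ V ⊓ Vᗮ := ⟨h3, h4⟩
      rw [Submodule.inf_orthogonal_eq_bot, Submodule.mem_bot] at h5
      refine ⟨sub_eq_zero.1 h5, ?_⟩
      rw [h5] at h2
      exact (sub_eq_zero.1 h2.symm).symm
    refine Submodule.add_mem_sup ?_ ⟨⟨hz, hzY⟩, fun b => (hfix b).2⟩
    have h6 := heV y hy
    rwa [r.e_fix fun b => (hfix b).1] at h6
  have hS2c : Module.finrank ℂ S2 ≤ 2 := by
    have h1 := finrank_span_finset_le_card (R := ℂ)
      ({v, e (RT W v)} : Finset (EuclideanSpace ℂ (SL 2 p)))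
    rw [Finset.coe_insert, Finset.coe_singleton] at h1
    exact h1.trans Finset.card_le_two
  have hfin : Module.finrank ℂ (FX Y) ≤ 2 + Module.finrank ℂ (FX Y1) :=
    (Submodule.finrank_mono hle).trans
      ((Submodule.finrank_add_le_finrank_add_finrank _ _).trans (by omega))
  have hfinr : (Module.finrank ℂ (FX Y) : ℝ) ≤ 2 + Module.finrank ℂ (FX Y1) := by
    exact_mod_cast hfin
  have hsumr : (Module.finrank ℂ V : ℝ) + Module.finrank ℂ Y1 = Module.finrank ℂ Y := by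
    exact_mod_cast hsum
  have hp1 : (0 : ℝ) ≤ (p : ℝ) - 1 := by
    have : (1 : ℝ) ≤ p := by exact_mod_cast hp.out.one_lt.le
    linarith
  have h8 := mul_le_mul_of_nonneg_left hfinr hp1
  linarith

end R

end UPW_

open UPW_ in
theorem prove_UPW (h1 : T_DIM2) (h2 : T_RTP) : T_UPW := by
  intro p hp hp2 Y hY F hF hfix
  obtain ⟨a1, a2, a3, a4, -⟩ := h2 (SL 2 p)
  have r : R p := ⟨a1, a2, a3, a4⟩
  have h3 := r.main h1 hp2 _ Y rfl hY
  have h4 : F ≤ FX Y := fun f hf => ⟨hF hf, fun b => hfix f hf b⟩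
  have h5 : (Module.finrank ℂ F : ℝ) ≤ Module.finrank ℂ (FX Y) := by
    exact_mod_cast Submodule.finrank_mono h4
  have hp1 : (0 : ℝ) ≤ (p : ℝ) - 1 := by
    have : (1 : ℝ) ≤ p := by exact_mod_cast hp.out.one_lt.le
    linarith
  exact (mul_le_mul_of_nonneg_left h5 hp1).trans h3

end Pool.Agent.RCG
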