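import Pool.Agent.RCG.Targets14

set_option autoImplicit false
set_option linter.unusedSectionVars false

/-!
# RCG, target UST: unipotent `u` with `tr (g u) = tr g`
-/

namespace Pool.Agent.RCG

open Finset Matrix

namespace UST_

variable {p : ℕ} [Fact p.Prime]

lemma mul00 (x y : SL 2 p) : (x * y).1 0 0 = x.1 0 0 * y.1 0 0 + x.1 0 1 * y.1 1 0 := by
  change (x.1 * y.1) 0 0 = _
  rw [Matrix.mul_apply, Fin.sum_univ_two]

lemma mul01 (x y : SL 2 p) : (x * y).1 0 1 = x.1 0 0 * y.1 0 1 + x.1 0 1 * y.1 1 1 := by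
  change (x.1 * y.1) 0 1 = _
  rw [Matrix.mul_apply, Fin.sum_univ_two]

lemma mul10 (x y : SL 2 p) : (x * y).1 1 0 = x.1 1 0 * y.1 0 0 + x.1 1 1 * y.1 1 0 := by
  change (x.1 * y.1) 1 0 = _
  rw [Matrix.mul_apply, Fin.sum_univ_two]

lemma mul11 (x y : SL 2 p) : (x * y).1 1 1 = x.1 1 0 * y.1 0 1 + x.1 1 1 * y.1 1 1 := by
  change (x.1 * y.1) 1 1 = _
  rw [Matrix.mul_apply, Fin.sum_univ_two]

lemma det1 (x : SL 2 p) : x.1 0 0 * x.1 1 1 - x.1 0 1 * x.1 1 0 = 1 := by
  have h := x.2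
  rwa [Matrix.det_fin_two] at h

lemma ext4 {x y : SL 2 p} (h0 : x.1 0 0 = y.1 0 0) (h1 : x.1 0 1 = y.1 0 1)
    (h2 : x.1 1 0 = y.1 1 0) (h3 : x.1 1 1 = y.1 1 1) : x = y := by
  apply Subtype.ext
  ext i j
  fin_cases i <;> fin_cases j
  · exact h0
  · exact h1
  · exact h2
  · exact h3

/-- the unipotent elements by line and parameter -/
def psi : Option (ZMod p) → ZMod p → SL 2 p
  | some n, t => ⟨!![1 - t * n, t; -(t * n ^ 2), 1 + t * n], by
      rw [Matrix.det_fin_two_of]; ring⟩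
  | none, t => ⟨!![1, 0; -t, 1], by rw [Matrix.det_fin_two_of]; ring⟩

/-- the conjugating elements -/
def hh : Option (ZMod p) → SL 2 p
  | some n => ⟨!![1, 0; n, 1], by rw [Matrix.det_fin_two_of]; ring⟩
  | none => ⟨!![0, -1; 1, 0], by rw [Matrix.det_fin_two_of]; ring⟩

lemma psi_conj (l : Option (ZMod p)) (t : ZMod p) : psi l t = hh l * um t * (hh l)⁻¹ := by
  rw [eq_mul_inv_iff_mul_eq]
  cases l with
  | some n =>
    apply ext4
    · rw [mul00, mul00]
      change (1 - t * n) * 1 + t * n = 1 * 1 + 0 * 0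
      ring
    · rw [mul01, mul01]
      change (1 - t * n) * 0 + t * 1 = 1 * t + 0 * 1
      ring
    · rw [mul10, mul10]
      change -(t * n ^ 2) * 1 + (1 + t * n) * n = n * 1 + 1 * 0
      ring
    · rw [mul11, mul11]
      change -(t * n ^ 2) * 0 + (1 + t * n) * 1 = n * t + 1 * 1
      ring
  | none =>
    apply ext4
    · rw [mul00, mul00]
      change (1 : ZMod p) * 0 + 0 * 1 = 0 * 1 + (-1) * 0
      ring
    · rw [mul01, mul01]
      change (1 : ZMod p) * (-1) + 0 * 0 = 0 * t + (-1) * 1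
      ring
    · rw [mul10, mul10]
      change (-t) * 0 + 1 * 1 = 1 * 1 + 0 * 0
      ring
    · rw [mul11, mul11]
      change (-t) * (-1) + 1 * 0 = 1 * t + 0 * 1
      ring

/-- the lines preserved by `g` -/
def Fx (g : SL 2 p) : Option (ZMod p) → Prop
  | some n => g.1 1 0 - (g.1 0 0 - g.1 1 1) * n - g.1 0 1 * n ^ 2 = 0
  | none => g.1 0 1 = 0

lemma tr_psi (l : Option (ZMod p)) (t : ZMod p) : (psi l t).1 0 0 + (psi l t).1 1 1 = 2 := by
  cases l with
  | some n =>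
    change (1 - t * n) + (1 + t * n) = 2
    ring
  | none =>
    change (1 : ZMod p) + 1 = 2
    ring

lemma tr_gpsi (g : SL 2 p) (l : Option (ZMod p)) {t : ZMod p} (ht : t ≠ 0) :
    (g * psi l t).1 0 0 + (g * psi l t).1 1 1 = g.1 0 0 + g.1 1 1 ↔ Fx g l := by
  rw [mul00, mul11]
  cases l with
  | some n =>
    change g.1 0 0 * (1 - t * n) + g.1 0 1 * -(t * n ^ 2) + (g.1 1 0 * t + g.1 1 1 * (1 + t * n)) =
      g.1 0 0 + g.1 1 1 ↔ g.1 1 0 - (g.1 0 0 - g.1 1 1) * n - g.1 0 1 * n ^ 2 = 0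
    constructor
    · intro h
      have h2 : t * (g.1 1 0 - (g.1 0 0 - g.1 1 1) * n - g.1 0 1 * n ^ 2) = 0 := by
        linear_combination h
      exact (mul_eq_zero.1 h2).resolve_left ht
    · intro h
      linear_combination t * h
  | none =>
    change g.1 0 0 * 1 + g.1 0 1 * -t + (g.1 1 0 * 0 + g.1 1 1 * 1) =
      g.1 0 0 + g.1 1 1 ↔ g.1 0 1 = 0
    constructor
    · intro h
      have h2 : t * g.1 0 1 = 0 := by
        linear_combination -h
      exact (mul_eq_zero.1 h2).resolve_left ht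
    · intro h
      linear_combination (-t) * h

lemma psi_ne (l : Option (ZMod p)) {t : ZMod p} (ht : t ≠ 0) : psi l t ≠ 1 := by
  intro h
  cases l with
  | some n =>
    have h2 : (psi (some n) t).1 0 1 = (1 : SL 2 p).1 0 1 := by rw [h]
    apply ht
    have h3 : (1 : SL 2 p).1 0 1 = 0 := by
      change (1 : Matrix (Fin 2) (Fin 2) (ZMod p)) 0 1 = 0
      simp
    rw [h3] at h2
    exact h2
  | none =>
    have h2 : (psi none t).1 1 0 = (1 : SL 2 p).1 1 0 := by rw [h]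
    apply ht
    have h3 : (1 : SL 2 p).1 1 0 = 0 := by
      change (1 : Matrix (Fin 2) (Fin 2) (ZMod p)) 1 0 = 0
      simp
    rw [h3] at h2
    have h4 : -t = 0 := h2
    exact neg_eq_zero.1 h4

open Classical in
/-- the inverse -/
noncomputable def inv (u : SL 2 p) : Option (ZMod p) × ZMod p :=
  if u.1 0 1 = 0 then (none, -u.1 1 0) else (some ((1 - u.1 0 0) / u.1 0 1), u.1 0 1)

lemma inv_psi (l : Option (ZMod p)) {t : ZMod p} (ht : t ≠ 0) : inv (psi l t) = (l, t) := by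
  unfold inv
  cases l with
  | some n =>
    have h1 : (psi (some n) t).1 0 1 = t := rfl
    have h2 : (psi (some n) t).1 0 0 = 1 - t * n := rfl
    rw [h1, h2, if_neg ht]
    congr 2
    field_simp
    ring
  | none =>
    have h1 : (psi (none : Option (ZMod p)) t).1 0 1 = 0 := rfl
    have h2 : (psi (none : Option (ZMod p)) t).1 1 0 = -t := rfl
    rw [h1, h2, if_pos rfl, neg_neg]

lemma psi_inv {u : SL 2 p} (hu : u.1 0 0 + u.1 1 1 = 2) : psi (inv u).1 (inv u).2 = u := by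
  have hd := det1 u
  have h11 : u.1 1 1 = 2 - u.1 0 0 := by linear_combination hu
  by_cases h : u.1 0 1 = 0
  · have h1 : inv u = (none, -u.1 1 0) := by unfold inv; rw [if_pos h]
    rw [h1]
    have h00 : u.1 0 0 = 1 := by
      have h2 : (u.1 0 0 - 1) * (u.1 0 0 - 1) = 0 := by
        rw [h11, h] at hd
        linear_combination -hd
      rcases mul_eq_zero.1 h2 with h3 | h3 <;> linear_combination h3
    apply ext4
    · exact h00.symm
    · exact h.symm
    · change -(-u.1 1 0) = u.1 1 0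
      ring
    · change (1 : ZMod p) = u.1 1 1
      rw [h11, h00]
      ring
  · have h1 : inv u = (some ((1 - u.1 0 0) / u.1 0 1), u.1 0 1) := by unfold inv; rw [if_neg h]
    rw [h1]
    have e1 : u.1 0 1 * ((1 - u.1 0 0) / u.1 0 1) = 1 - u.1 0 0 := by
      field_simp
    apply ext4
    · change 1 - u.1 0 1 * ((1 - u.1 0 0) / u.1 0 1) = u.1 0 0
      rw [e1]
      ring
    · rfl
    · change -(u.1 0 1 * ((1 - u.1 0 0) / u.1 0 1) ^ 2) = u.1 1 0
      have h2 : -(u.1 0 1 * ((1 - u.1 0 0) / u.1 0 1) ^ 2) * u.1 0 1 =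
          u.1 1 0 * u.1 0 1 := by
        have h3 : -(u.1 0 1 * ((1 - u.1 0 0) / u.1 0 1) ^ 2) * u.1 0 1 =
            -(u.1 0 1 * ((1 - u.1 0 0) / u.1 0 1)) ^ 2 := by ring
        rw [h3, e1]
        rw [h11] at hd
        linear_combination hd
      exact mul_right_cancel₀ h h2
    · change 1 + u.1 0 1 * ((1 - u.1 0 0) / u.1 0 1) = u.1 1 1
      rw [e1, h11]
      ring

lemma inv_ne {u : SL 2 p} (hu : u.1 0 0 + u.1 1 1 = 2) (h1 : u ≠ 1) : (inv u).2 ≠ 0 := by
  intro h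
  apply h1
  rw [← psi_inv hu, h]
  cases (inv u).1 with
  | some n =>
    apply ext4
    · change 1 - 0 * n = (1 : Matrix (Fin 2) (Fin 2) (ZMod p)) 0 0
      simp
    · change 0 = (1 : Matrix (Fin 2) (Fin 2) (ZMod p)) 0 1
      simp
    · change -(0 * n ^ 2) = (1 : Matrix (Fin 2) (Fin 2) (ZMod p)) 1 0
      simp
    · change 1 + 0 * n = (1 : Matrix (Fin 2) (Fin 2) (ZMod p)) 1 1
      simp
  | none =>
    apply ext4
    · change 1 = (1 : Matrix (Fin 2) (Fin 2) (ZMod p)) 0 0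
      simp
    · change 0 = (1 : Matrix (Fin 2) (Fin 2) (ZMod p)) 0 1
      simp
    · change -0 = (1 : Matrix (Fin 2) (Fin 2) (ZMod p)) 1 0
      simp
    · change 1 = (1 : Matrix (Fin 2) (Fin 2) (ZMod p)) 1 1
      simp

open Classical in
lemma card_fx {g : SL 2 p} (h1 : g.1 0 0 + g.1 1 1 ≠ 2) (h2 : g.1 0 0 + g.1 1 1 ≠ -2) :
    (univ.filter (Fx g)).card ≤ 2 := by
  have hd := det1 g
  by_cases h : g.1 0 1 = 0
  · have hne : g.1 0 0 - g.1 1 1 ≠ 0 := by
      intro h3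
      have h4 : (g.1 0 0 + g.1 1 1 - 2) * (g.1 0 0 + g.1 1 1 + 2) = 0 := by
        rw [h] at hd
        linear_combination (g.1 0 0 - g.1 1 1) * h3 + 4 * hd
      rcases mul_eq_zero.1 h4 with h5 | h5
      · exact h1 (sub_eq_zero.1 h5)
      · exact h2 (by linear_combination h5)
    have hs : univ.filter (Fx g) ⊆
        ({none, some (g.1 1 0 / (g.1 0 0 - g.1 1 1))} : Finset (Option (ZMod p))) := by
      intro l hl
      rw [mem_filter] at hl
      cases l with
      | none => simp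
      | some n =>
        have h3 : g.1 1 0 - (g.1 0 0 - g.1 1 1) * n - g.1 0 1 * n ^ 2 = 0 := hl.2
        rw [h] at h3
        have h4 : n = g.1 1 0 / (g.1 0 0 - g.1 1 1) := by
          rw [eq_div_iff hne]
          linear_combination -h3
        rw [h4]
        simp
    exact (card_le_card hs).trans card_le_two
  · by_cases h0 : (univ.filter (Fx g)).Nonempty
    · obtain ⟨l0, hl0⟩ := h0
      rw [mem_filter] at hl0
      cases l0 with
      | none => exact absurd hl0.2 h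
      | some n0 =>
        have h3 : g.1 1 0 - (g.1 0 0 - g.1 1 1) * n0 - g.1 0 1 * n0 ^ 2 = 0 := hl0.2
        have hs : univ.filter (Fx g) ⊆
            ({some n0, some (-(g.1 0 0 - g.1 1 1) / g.1 0 1 - n0)} :
              Finset (Option (ZMod p))) := by
          intro l hl
          rw [mem_filter] at hl
          cases l with
          | none => exact absurd hl.2 h
          | some n =>
            have h4 : g.1 1 0 - (g.1 0 0 - g.1 1 1) * n - g.1 0 1 * n ^ 2 = 0 := hl.2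
            have h5 : (n - n0) * (g.1 0 1 * (n + n0) + (g.1 0 0 - g.1 1 1)) = 0 := by
              linear_combination h3 - h4
            rcases mul_eq_zero.1 h5 with h6 | h6
            · rw [sub_eq_zero.1 h6]
              simp
            · have h7 : n = -(g.1 0 0 - g.1 1 1) / g.1 0 1 - n0 := by
                rw [eq_sub_iff_add_eq, eq_div_iff h]
                linear_combination h6
              rw [h7]
              simp
        exact (card_le_card hs).trans card_le_two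
    · rw [not_nonempty_iff_eq_empty.1 h0]
      simp

open Classical in
lemma sum_eq {F : SL 2 p → ℝ} (hF : ∀ h g, F (h * g * h⁻¹) = F g) (g : SL 2 p) :
    ∑ u ∈ univ.filter (fun u : SL 2 p => u.1 0 0 + u.1 1 1 = 2 ∧
      (g * u).1 0 0 + (g * u).1 1 1 = g.1 0 0 + g.1 1 1), F u =
    F 1 + (univ.filter (Fx g)).card * ∑ b ∈ univ.filter (fun b : ZMod p => b ≠ 0), F (um b) := by
  set S := univ.filter (fun u : SL 2 p => u.1 0 0 + u.1 1 1 = 2 ∧
      (g * u).1 0 0 + (g * u).1 1 1 = g.1 0 0 + g.1 1 1) with hS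
  have h1 : (1 : SL 2 p) ∈ S := by
    rw [hS, mem_filter]
    refine ⟨mem_univ _, ?_, by rw [mul_one]⟩
    change (1 : Matrix (Fin 2) (Fin 2) (ZMod p)) 0 0 +
      (1 : Matrix (Fin 2) (Fin 2) (ZMod p)) 1 1 = 2
    rw [Matrix.one_apply_eq, Matrix.one_apply_eq]
    norm_num
  rw [← add_sum_erase S F h1]
  congr 1
  have h2 : ∑ u ∈ S.erase 1, F u = ∑ q ∈ univ.filter (Fx g) ×ˢ
      univ.filter (fun b : ZMod p => b ≠ 0), F (um q.2) := by
    symm
    refine sum_nbij' (fun q => psi q.1 q.2) (fun u => inv u) ?_ ?_ ?_ ?_ ?_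
    · intro q hq
      rw [mem_product, mem_filter, mem_filter] at hq
      rw [mem_erase, hS, mem_filter]
      exact ⟨psi_ne _ hq.2.2, mem_univ _, tr_psi _ _, (tr_gpsi g _ hq.2.2).2 hq.1.2⟩
    · intro u hu
      rw [mem_erase, hS, mem_filter] at hu
      rw [mem_product, mem_filter, mem_filter]
      have h3 := inv_ne hu.2.2.1 hu.1
      refine ⟨⟨mem_univ _, ?_⟩, mem_univ _, h3⟩
      rw [← tr_gpsi g _ h3, psi_inv hu.2.2.1]
      exact hu.2.2.2
    · intro q hq
      rw [mem_product, mem_filter, mem_filter] at hq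
      exact inv_psi _ hq.2.2
    · intro u hu
      rw [mem_erase, hS, mem_filter] at hu
      exact psi_inv hu.2.2.1
    · intro q _
      rw [psi_conj, hF]
  rw [h2, sum_product]
  change ∑ _x ∈ univ.filter (Fx g), ∑ y ∈ univ.filter (fun b : ZMod p => b ≠ 0), F (um y) = _
  rw [sum_const, nsmul_eq_mul]

lemma main {F : SL 2 p → ℝ} (hF : ∀ h g, F (h * g * h⁻¹) = F g) (g : SL 2 p)
    (h1 : g.1 0 0 + g.1 1 1 ≠ 2) (h2 : g.1 0 0 + g.1 1 1 ≠ -2) :
    |∑ u ∈ univ.filter (fun u : SL 2 p => u.1 0 0 + u.1 1 1 = 2 ∧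
      (g * u).1 0 0 + (g * u).1 1 1 = g.1 0 0 + g.1 1 1), F u| ≤
      |F 1| + 2 * |∑ b ∈ univ.filter (fun b : ZMod p => b ≠ 0), F (um b)| := by
  classical
  have h3 := sum_eq hF g
  have h4 := card_fx h1 h2
  have h5 : ((univ.filter (Fx g)).card : ℝ) ≤ 2 := by exact_mod_cast h4
  have h6 : ∑ u ∈ univ.filter (fun u : SL 2 p => u.1 0 0 + u.1 1 1 = 2 ∧
      (g * u).1 0 0 + (g * u).1 1 1 = g.1 0 0 + g.1 1 1), F u =
      F 1 + (univ.filter (Fx g)).card * ∑ b ∈ univ.filter (fun b : ZMod p => b ≠ 0),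
        F (um b) := by
    convert h3
  rw [h6]
  refine (abs_add_le _ _).trans ?_
  rw [abs_mul, Nat.abs_cast]
  have h7 := mul_le_mul_of_nonneg_right h5
    (abs_nonneg (∑ b ∈ univ.filter (fun b : ZMod p => b ≠ 0), F (um b)))
  linarith

lemma vm0_00 (x : SL 2 p) : (vm 0 * x).1 0 0 = -x.1 0 0 := by
  rw [mul00]
  change -1 * x.1 0 0 + 0 * x.1 1 0 = _
  ring

lemma vm0_01 (x : SL 2 p) : (vm 0 * x).1 0 1 = -x.1 0 1 := by
  rw [mul01]
  change -1 * x.1 0 1 + 0 * x.1 1 1 = _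
  ring

lemma vm0_10 (x : SL 2 p) : (vm 0 * x).1 1 0 = -x.1 1 0 := by
  rw [mul10]
  change 0 * x.1 0 0 + -1 * x.1 1 0 = _
  ring

lemma vm0_11 (x : SL 2 p) : (vm 0 * x).1 1 1 = -x.1 1 1 := by
  rw [mul11]
  change 0 * x.1 0 1 + -1 * x.1 1 1 = _
  ring

lemma vm0_sq (x : SL 2 p) : vm 0 * (vm 0 * x) = x := by
  apply ext4
  · rw [vm0_00, vm0_00, neg_neg]
  · rw [vm0_01, vm0_01, neg_neg]
  · rw [vm0_10, vm0_10, neg_neg]
  · rw [vm0_11, vm0_11, neg_neg]

lemma vm0_comm (h x : SL 2 p) : vm 0 * (h * x) = h * (vm 0 * x) := by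
  apply ext4
  · rw [vm0_00, mul00, mul00, vm0_00, vm0_10]; ring
  · rw [vm0_01, mul01, mul01, vm0_01, vm0_11]; ring
  · rw [vm0_10, mul10, mul10, vm0_00, vm0_10]; ring
  · rw [vm0_11, mul11, mul11, vm0_01, vm0_11]; ring

lemma vm0_um (b : ZMod p) : vm 0 * um b = vm (-b) := by
  apply ext4
  · rw [vm0_00]; rfl
  · rw [vm0_01]; rfl
  · rw [vm0_10]
    change -(0 : ZMod p) = 0
    ring
  · rw [vm0_11]; rfl

end UST_

theorem prove_UST : T_UST := by
  intro p _ _ F hF g h1 h2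
  refine ⟨UST_.main hF g h1 h2, fun h0 => ?_⟩
  have hF' : ∀ h x, (fun y => F (vm 0 * y)) (h * x * h⁻¹) = (fun y => F (vm 0 * y)) x := by
    intro h x
    change F (vm 0 * (h * x * h⁻¹)) = F (vm 0 * x)
    rw [mul_assoc h x h⁻¹, UST_.vm0_comm, ← mul_assoc (vm 0) x h⁻¹, ← mul_assoc h, hF]
  have h3 := UST_.main (F := fun y => F (vm 0 * y)) hF' g h1 h2
  have e1 : ∑ u ∈ univ.filter (fun u : SL 2 p => u.1 0 0 + u.1 1 1 = -2 ∧
      (g * u).1 0 0 + (g * u).1 1 1 = g.1 0 0 + g.1 1 1), F u =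
      ∑ u ∈ univ.filter (fun u : SL 2 p => u.1 0 0 + u.1 1 1 = 2 ∧
      (g * u).1 0 0 + (g * u).1 1 1 = g.1 0 0 + g.1 1 1), F (vm 0 * u) := by
    refine sum_nbij' (fun u => vm 0 * u) (fun u => vm 0 * u) ?_ ?_ ?_ ?_ ?_
    · intro u hu
      rw [mem_filter] at hu ⊢
      obtain ⟨-, h4, h5⟩ := hu
      refine ⟨mem_univ _, ?_, ?_⟩
      · rw [UST_.vm0_00, UST_.vm0_11]
        linear_combination -h4
      · rw [← UST_.vm0_comm, UST_.vm0_00, UST_.vm0_11]
        rw [h0] at h5 ⊢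
        linear_combination -h5
    · intro u hu
      rw [mem_filter] at hu ⊢
      obtain ⟨-, h4, h5⟩ := hu
      refine ⟨mem_univ _, ?_, ?_⟩
      · rw [UST_.vm0_00, UST_.vm0_11]
        linear_combination -h4
      · rw [← UST_.vm0_comm, UST_.vm0_00, UST_.vm0_11]
        rw [h0] at h5 ⊢
        linear_combination -h5
    · intro u _
      exact UST_.vm0_sq u
    · intro u _
      exact UST_.vm0_sq u
    · intro u _
      rw [UST_.vm0_sq]
  have e2 : ∑ b ∈ univ.filter (fun b : ZMod p => b ≠ 0), F (vm 0 * um b) =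
      ∑ b ∈ univ.filter (fun b : ZMod p => b ≠ 0), F (vm b) := by
    refine sum_nbij' (fun b => -b) (fun b => -b) ?_ ?_ ?_ ?_ ?_
    · intro b hb
      rw [mem_filter] at hb ⊢
      exact ⟨mem_univ _, neg_ne_zero.2 hb.2⟩
    · intro b hb
      rw [mem_filter] at hb ⊢
      exact ⟨mem_univ _, neg_ne_zero.2 hb.2⟩
    · intro b _
      exact neg_neg b
    · intro b _
      exact neg_neg b
    · intro b _
      rw [UST_.vm0_um]
  simp only [mul_one] at h3
  rw [← e1, e2] at h3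
  exact h3

end Pool.Agent.RCG
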