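import Pool.Agent.RCG.Targets14

set_option autoImplicit false

/-!
# RCG14-VST: the matrices `u` with `tr u = -2`, `tr (g u) = tr g` are equally distributed over the
two classes
-/

namespace Pool.Agent.RCG

open Finset Matrix

namespace VST_

variable {p : ℕ}

theorem ext2 {x y : SL 2 p} (h00 : x.1 0 0 = y.1 0 0) (h01 : x.1 0 1 = y.1 0 1)
    (h10 : x.1 1 0 = y.1 1 0) (h11 : x.1 1 1 = y.1 1 1) : x = y := by
  apply Subtype.ext
  ext i j
  fin_cases i <;> fin_cases j
  · exact h00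
  · exact h01
  · exact h10
  · exact h11

theorem det2 (x : SL 2 p) : x.1 0 0 * x.1 1 1 - x.1 0 1 * x.1 1 0 = 1 := by
  rw [← Matrix.det_fin_two]
  exact x.2

theorem mul_app (x y : SL 2 p) (i j : Fin 2) :
    (x * y).1 i j = x.1 i 0 * y.1 0 j + x.1 i 1 * y.1 1 j := by
  change (x.1 * y.1) i j = _
  rw [Matrix.mul_apply, Fin.sum_univ_two]

/-- conjugation by a matrix of nonzero determinant -/
noncomputable def cj (t : Matrix (Fin 2) (Fin 2) (ZMod p)) (ht : IsUnit t) (u : SL 2 p) :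
    SL 2 p := ⟨t * u.1 * t⁻¹, by rw [Matrix.det_conj ht, u.2]⟩

theorem cj_inj (t : Matrix (Fin 2) (Fin 2) (ZMod p)) (ht : IsUnit t) (u v : SL 2 p)
    (h : cj t ht u = cj t ht v) : u = v := by
  have h1 : t * u.1 * t⁻¹ = t * v.1 * t⁻¹ := congrArg Subtype.val h
  have hd : IsUnit t.det := (Matrix.isUnit_iff_isUnit_det t).1 ht
  have h2 : ∀ w : Matrix (Fin 2) (Fin 2) (ZMod p), t⁻¹ * (t * w * t⁻¹) * t = w := by
    intro w
    rw [Matrix.mul_assoc t w, Matrix.nonsing_inv_mul_cancel_left _ _ hd,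
      Matrix.nonsing_inv_mul_cancel_right _ _ hd]
  apply Subtype.ext
  rw [← h2 u.1, h1, h2 v.1]

theorem tr_conj (t w : Matrix (Fin 2) (Fin 2) (ZMod p)) (ht : IsUnit t) :
    (t * w * t⁻¹) 0 0 + (t * w * t⁻¹) 1 1 = w 0 0 + w 1 1 := by
  have hd : IsUnit t.det := (Matrix.isUnit_iff_isUnit_det t).1 ht
  rw [← Matrix.trace_fin_two, ← Matrix.trace_fin_two, Matrix.trace_mul_comm,
    Matrix.nonsing_inv_mul_cancel_left _ _ hd]

/-- the conjugating matrix -/
def hh (t : ZMod p) : SL 2 p := ⟨!![t, -1; 1, 0], by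
    rw [Matrix.det_fin_two_of]
    ring⟩

theorem rep [Fact p.Prime] (u : SL 2 p) (h1 : u.1 0 0 + u.1 1 1 = -2) (h2 : u ≠ vm 0) :
    ∃ h : SL 2 p, ∃ b : ZMod p, b ≠ 0 ∧ u = h * vm b * h⁻¹ := by
  have h3 := det2 u
  by_cases h4 : u.1 1 0 = 0
  · have h5 : (u.1 0 0 + 1) * (u.1 0 0 + 1) = 0 := by
      rw [h4] at h3
      linear_combination (u.1 0 0) * h1 - h3
    have h6 : u.1 0 0 = -1 := by
      have := mul_self_eq_zero.1 h5
      linear_combination this
    have h7 : u.1 1 1 = -1 := by linear_combination h1 - h6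
    have h8 : u = vm (u.1 0 1) := by
      refine ext2 ?_ ?_ ?_ ?_
      · simp [vm, h6]
      · simp [vm]
      · simp [vm, h4]
      · simp [vm, h7]
    refine ⟨1, u.1 0 1, ?_, ?_⟩
    · intro h9
      apply h2
      rw [h8, h9]
    · simpa using h8
  · refine ⟨hh ((u.1 0 0 + 1) / u.1 1 0), -u.1 1 0, neg_ne_zero.2 h4, ?_⟩
    rw [eq_mul_inv_iff_mul_eq]
    refine ext2 ?_ ?_ ?_ ?_ <;> rw [mul_app, mul_app] <;>
      simp only [hh, vm, Matrix.of_apply, Matrix.cons_val', Matrix.cons_val_zero,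
          Matrix.cons_val_fin_one, Matrix.cons_val_one] <;> field_simp
    · linear_combination (u.1 0 0) * h1 - h3
    · ring
    · linear_combination h1
    · ring

/-- a diagonal matrix -/
def dg [Fact p.Prime] (a : ZMod p) (ha : a ≠ 0) : SL 2 p := ⟨!![a, 0; 0, a⁻¹], by
    rw [Matrix.det_fin_two_of]
    field_simp
    ring⟩

theorem scl [Fact p.Prime] (F : SL 2 p → ℝ) (hF : ∀ h g, F (h * g * h⁻¹) = F g)
    (a c : ZMod p) (ha : a ≠ 0) : F (vm (a * a * c)) = F (vm c) := by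
  have h1 : dg a ha * vm c * (dg a ha)⁻¹ = vm (a * a * c) := by
    rw [mul_inv_eq_iff_eq_mul]
    refine ext2 ?_ ?_ ?_ ?_ <;> rw [mul_app, mul_app] <;> simp [vm, dg]
    field_simp
  rw [← h1, hF]

theorem nsq [Fact p.Prime] (x y : ZMod p) (hx : ¬ IsSquare x) (hy : ¬ IsSquare y)
    (hp : p ≠ 2) : IsSquare (x * y) := by
  have hx0 : x ≠ 0 := fun h => hx (h ▸ IsSquare.zero)
  have hy0 : y ≠ 0 := fun h => hy (h ▸ IsSquare.zero)
  have hc : ringChar (ZMod p) ≠ 2 := by rw [ZMod.ringChar_zmod_n]; exact hp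
  rw [← quadraticChar_one_iff_isSquare (mul_ne_zero hx0 hy0), map_mul,
    (quadraticChar_neg_one_iff_not_isSquare).2 hx, (quadraticChar_neg_one_iff_not_isSquare).2 hy]
  norm_num

/-- `F (vm b) + F (vm (δ b))` does not depend on `b` -/
theorem cst [Fact p.Prime] (hp : p ≠ 2) (F : SL 2 p → ℝ) (hF : ∀ h g, F (h * g * h⁻¹) = F g)
    (δ b : ZMod p) (hδ : ¬ IsSquare δ) (hb : b ≠ 0) :
    F (vm b) + F (vm (δ * b)) = F (vm 1) + F (vm δ) := by
  have hδ0 : δ ≠ 0 := fun h => hδ (h ▸ IsSquare.zero)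
  by_cases h1 : IsSquare b
  · obtain ⟨a, rfl⟩ := h1
    have ha : a ≠ 0 := fun h => hb (by rw [h, mul_zero])
    have e1 := scl F hF a 1 ha
    have e2 := scl F hF a δ ha
    rw [mul_one] at e1
    rw [e1, mul_comm δ, e2]
  · obtain ⟨a, ha'⟩ := nsq δ b hδ h1 hp
    have ha : a ≠ 0 := by
      intro h
      rw [h, mul_zero] at ha'
      exact mul_ne_zero hδ0 hb ha'
    have e1 := scl F hF a 1 ha
    rw [mul_one] at e1
    have e2 := scl F hF (a / δ) δ (div_ne_zero ha hδ0)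
    have e3 : a / δ * (a / δ) * δ = b := by
      field_simp
      linear_combination -ha'
    rw [e3] at e2
    rw [ha', e1, e2, add_comm]

/-- the class of the conjugate by `t` -/
theorem cjv [Fact p.Prime] (F : SL 2 p → ℝ) (hF : ∀ h g, F (h * g * h⁻¹) = F g)
    (t : Matrix (Fin 2) (Fin 2) (ZMod p)) (ht : IsUnit t) (h : SL 2 p) (b : ZMod p) :
    F (cj t ht (h * vm b * h⁻¹)) = F (vm (t.det * b)) := by
  have hd : IsUnit t.det := (Matrix.isUnit_iff_isUnit_det t).1 ht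
  have hd0 : t.det ≠ 0 := hd.ne_zero
  set k : SL 2 p := ⟨t * h.1 * !![t.det⁻¹, 0; 0, 1], by
    rw [Matrix.det_mul, Matrix.det_mul, h.2, Matrix.det_fin_two_of]
    field_simp
    ring⟩ with hk
  have e1 : cj t ht (h * vm b * h⁻¹) = k * vm (t.det * b) * k⁻¹ := by
    rw [eq_mul_inv_iff_mul_eq]
    apply Subtype.ext
    have e2 : h * vm b * h⁻¹ * h = h * vm b := by rw [inv_mul_cancel_right]
    have e3 : (h * vm b * h⁻¹).1 * h.1 = h.1 * (vm b).1 := congrArg Subtype.val e2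
    have e4 : (vm b).1 * !![t.det⁻¹, 0; 0, 1] = !![t.det⁻¹, 0; 0, 1] * (vm (t.det * b)).1 := by
      ext i j
      fin_cases i <;> fin_cases j <;> simp [vm, Matrix.mul_apply, Fin.sum_univ_two]
      field_simp
    change t * (h * vm b * h⁻¹).1 * t⁻¹ * (t * h.1 * !![t.det⁻¹, 0; 0, 1]) =
      t * h.1 * !![t.det⁻¹, 0; 0, 1] * (vm (t.det * b)).1
    rw [Matrix.mul_assoc (t * h.1), ← e4, Matrix.mul_assoc t h.1,
      Matrix.mul_assoc (t * (h * vm b * h⁻¹).1), Matrix.nonsing_inv_mul_cancel_left _ _ hd,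
      Matrix.mul_assoc t, ← Matrix.mul_assoc _ h.1, e3, Matrix.mul_assoc h.1,
      Matrix.mul_assoc t h.1]
  rw [e1, hF]

/-- the form `α² + α β τ + β²` takes a nonsquare value -/
theorem frm [Fact p.Prime] (hp : p ≠ 2) (τ : ZMod p) (h1 : τ ≠ 2) (h2 : τ ≠ -2) :
    ∃ α β : ZMod p, ¬ IsSquare (α ^ 2 + α * β * τ + β ^ 2) := by
  by_contra hcon
  push Not at hcon
  have hc : ringChar (ZMod p) ≠ 2 := by rw [ZMod.ringChar_zmod_n]; exact hp
  have h20 : (2 : ZMod p) ≠ 0 := Ring.two_ne_zero hc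
  obtain ⟨z, hz⟩ := FiniteField.exists_nonsquare (F := ZMod p) hc
  set e : ZMod p := 1 - (τ / 2) ^ 2 with he
  have he0 : e ≠ 0 := by
    intro h3
    have h4 : (τ - 2) * (τ + 2) = 0 := by
      rw [he] at h3
      field_simp at h3
      linear_combination -h3
    rcases mul_eq_zero.1 h4 with h5 | h5
    · exact h1 (by linear_combination h5)
    · exact h2 (by linear_combination h5)
  have hall : ∀ n : ℕ, IsSquare ((n : ZMod p) * e) := by
    intro n
    induction n with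
    | zero => simp
    | succ n ih =>
      obtain ⟨x, hx⟩ := ih
      have h3 := hcon (x - τ / 2) 1
      have h4 : (x - τ / 2) ^ 2 + (x - τ / 2) * 1 * τ + 1 ^ 2 = ((n + 1 : ℕ) : ZMod p) * e := by
        push_cast
        rw [add_mul, hx, he]
        field_simp
        ring
      rwa [h4] at h3
  apply hz
  have h5 := hall (z / e).val
  rwa [ZMod.natCast_zmod_val, div_mul_cancel₀ _ he0] at h5

end VST_

open VST_ in
theorem prove_VST (hCN : T_CN1) : T_VST := by
  classical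
  intro p _ h5 F hF g h1 h2 h0
  have hp : p ≠ 2 := by omega
  have hc : ringChar (ZMod p) ≠ 2 := by rw [ZMod.ringChar_zmod_n]; exact hp
  have h20 : (2 : ZMod p) ≠ 0 := Ring.two_ne_zero hc
  set S : Finset (SL 2 p) := univ.filter (fun u : SL 2 p => u.1 0 0 + u.1 1 1 = -2 ∧
    (g * u).1 0 0 + (g * u).1 1 1 = g.1 0 0 + g.1 1 1) with hS
  obtain ⟨α, β, hαβ⟩ := frm hp (g.1 0 0 + g.1 1 1) h1 h2
  -- the matrix `t`
  set t : Matrix (Fin 2) (Fin 2) (ZMod p) := α • (1 : Matrix (Fin 2) (Fin 2) (ZMod p)) + β • g.1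
    with ht
  have hg := det2 g
  have hdet : t.det = α ^ 2 + α * β * (g.1 0 0 + g.1 1 1) + β ^ 2 := by
    rw [Matrix.det_fin_two, ht]
    simp
    linear_combination β ^ 2 * hg
  have hδ : ¬ IsSquare t.det := by rwa [hdet]
  have hδ0 : t.det ≠ 0 := fun h => hδ (h ▸ IsSquare.zero)
  have hu : IsUnit t := (Matrix.isUnit_iff_isUnit_det t).2 hδ0.isUnit
  have hcomm : g.1 * t = t * g.1 := by
    rw [ht]
    simp [Matrix.mul_add, Matrix.add_mul]
  set C : ℝ := F (vm 1) + F (vm t.det) with hC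
  -- `S` does not contain `-1`
  have hS0 : ∀ u ∈ S, u ≠ vm 0 := by
    intro u hu' hu0
    rw [hS, mem_filter] at hu'
    have h3 := hu'.2.2
    rw [hu0, mul_app, mul_app] at h3
    simp only [vm, Matrix.of_apply, Matrix.cons_val', Matrix.cons_val_zero,
          Matrix.cons_val_fin_one, Matrix.cons_val_one] at h3
    have h4 : 2 * (g.1 0 0 + g.1 1 1) = 0 := by linear_combination -h3
    rcases mul_eq_zero.1 h4 with h5 | h5
    · exact h20 h5
    · exact h0 h5
  have hpair : ∀ u ∈ S, F u + F (cj t hu u) = C := by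
    intro u hu'
    have h3 := hS0 u hu'
    rw [hS, mem_filter] at hu'
    obtain ⟨h, b, hb, rfl⟩ := rep u hu'.2.1 h3
    rw [cjv F hF, hF, cst hp F hF t.det b hδ hb]
  have hmaps : ∀ u ∈ S, cj t hu u ∈ S := by
    intro u hu'
    rw [hS, mem_filter] at hu' ⊢
    refine ⟨mem_univ _, ?_, ?_⟩
    · change (t * u.1 * t⁻¹) 0 0 + (t * u.1 * t⁻¹) 1 1 = -2
      rw [tr_conj t u.1 hu]
      exact hu'.2.1
    · change (g.1 * (t * u.1 * t⁻¹)) 0 0 + (g.1 * (t * u.1 * t⁻¹)) 1 1 = _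
      have e : g.1 * (t * u.1 * t⁻¹) = t * (g.1 * u.1) * t⁻¹ := by
        rw [← Matrix.mul_assoc, ← Matrix.mul_assoc, hcomm, Matrix.mul_assoc t]
      rw [e, tr_conj t _ hu]
      exact hu'.2.2
  have hsum : ∑ u ∈ S, F (cj t hu u) = ∑ u ∈ S, F u := by
    refine Finset.sum_nbij (cj t hu) hmaps ?_ ?_ (fun _ _ => rfl)
    · intro u _ v _ huv
      exact cj_inj t hu u v huv
    · exact Finset.surjOn_of_injOn_of_card_le (cj t hu) hmaps
        (fun u _ v _ huv => cj_inj t hu u v huv) le_rfl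
  have hS2 : 2 * ∑ u ∈ S, F u = S.card * C := by
    have e : ∑ u ∈ S, (F u + F (cj t hu u)) = S.card * C := by
      rw [Finset.sum_congr rfl hpair, Finset.sum_const, nsmul_eq_mul]
    rw [Finset.sum_add_distrib, hsum] at e
    rw [← e]
    ring
  -- the number of elements
  have hcard : S.card ≤ p + 2 := by
    have h3 := hCN p hp g⁻¹ (-2)
    have hinv : (g⁻¹).1 0 0 + (g⁻¹).1 1 1 = g.1 0 0 + g.1 1 1 := by
      rw [Matrix.SpecialLinearGroup.coe_inv, Matrix.adjugate_fin_two]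
      simp
      ring
    rw [hinv] at h3
    have h4 := h3 h1 h2 (fun h => by
      have : (2 : ZMod p) * 2 = 0 := by linear_combination -h
      rcases mul_eq_zero.1 this with h | h
      · exact h20 h
      · exact h20 h) (fun h => by
      have : (g.1 0 0 + g.1 1 1) * (g.1 0 0 + g.1 1 1) = 0 := by linear_combination -h
      exact h0 (mul_self_eq_zero.1 this))
    refine le_trans ?_ h4
    rw [Nat.card_eq_fintype_card, Fintype.card_subtype]
    refine Finset.card_le_card_of_injOn (fun u => g * u) ?_ (fun u _ v _ huv => ?_)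
    · intro u hu'
      rw [Finset.mem_coe, hS, mem_filter] at hu'
      rw [Finset.mem_coe, mem_filter]
      refine ⟨mem_univ _, hu'.2.2, ?_⟩
      rw [inv_mul_cancel_left]
      exact hu'.2.1
    · exact mul_left_cancel huv
  -- the second sum
  have hB : 2 * ∑ b ∈ univ.filter (fun b : ZMod p => b ≠ 0), F (vm b) = ((p : ℝ) - 1) * C := by
    have e1 : ∑ b ∈ univ.filter (fun b : ZMod p => b ≠ 0), F (vm (t.det * b)) =
        ∑ b ∈ univ.filter (fun b : ZMod p => b ≠ 0), F (vm b) := by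
      refine Finset.sum_bij' (fun b _ => t.det * b) (fun b _ => (t.det)⁻¹ * b) ?_ ?_ ?_ ?_ ?_
      · intro b hb
        rw [mem_filter] at hb ⊢
        exact ⟨mem_univ _, mul_ne_zero hδ0 hb.2⟩
      · intro b hb
        rw [mem_filter] at hb ⊢
        exact ⟨mem_univ _, mul_ne_zero (inv_ne_zero hδ0) hb.2⟩
      · intro b _
        exact inv_mul_cancel_left₀ hδ0 b
      · intro b _
        exact mul_inv_cancel_left₀ hδ0 b
      · intro b _
        rfl
    have e2 : ∑ b ∈ univ.filter (fun b : ZMod p => b ≠ 0), (F (vm b) + F (vm (t.det * b))) =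
        ((p : ℝ) - 1) * C := by
      rw [Finset.sum_congr rfl (fun b hb => cst hp F hF t.det b hδ (mem_filter.1 hb).2),
        Finset.sum_const, nsmul_eq_mul, Finset.filter_ne' univ (0 : ZMod p),
        Finset.card_erase_of_mem (mem_univ _), Finset.card_univ, ZMod.card, Nat.cast_sub (by omega),
        Nat.cast_one]
    rw [Finset.sum_add_distrib, e1] at e2
    rw [← e2]
    ring
  have h5' : (5 : ℝ) ≤ p := by exact_mod_cast h5
  have hcard' : (S.card : ℝ) ≤ p + 2 := by exact_mod_cast hcard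
  have hX : 2 * |∑ u ∈ S, F u| = S.card * |C| := by
    rw [← abs_of_pos (show (0 : ℝ) < 2 by norm_num), ← abs_mul, hS2, abs_mul, Nat.abs_cast]
  have hY : 2 * |∑ b ∈ univ.filter (fun b : ZMod p => b ≠ 0), F (vm b)| = ((p : ℝ) - 1) * |C| := by
    have e : |(p : ℝ) - 1| = (p : ℝ) - 1 := abs_of_nonneg (by linarith)
    rw [← e, ← abs_mul, ← hB, abs_mul, abs_of_pos (show (0 : ℝ) < 2 by norm_num)]
  have hCn := abs_nonneg C
  nlinarith [mul_le_mul_of_nonneg_right hcard' hCn, mul_nonneg (sub_nonneg.2 h5') hCn]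

end Pool.Agent.RCG
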