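import Pool.Agent.RCG.Fin9
import Pool.Agent.RCG.Fin14
import Pool.Agent.RCG.LIN
import Pool.Agent.RCG.CRD
import Pool.Agent.RCG.KSQ
import Pool.Agent.RCG.RTP
import Pool.Agent.RCG.SPT
import Pool.Agent.RCG.TRG
import Pool.Agent.RCG.TRA
import Pool.Agent.RCG.DEN
import Pool.Agent.RCG.MRW
import Pool.Agent.RCG.ANC
import Pool.Agent.RCG.ANT
import Pool.Agent.RCG.CS1
import Pool.Agent.RCG.CJ1
import Pool.Agent.RCG.CN1
import Pool.Agent.RCG.CN2
import Pool.Agent.RCG.UPW
import Pool.Agent.RCG.UPB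
import Pool.Agent.RCG.UCT
import Pool.Agent.RCG.UST
import Pool.Agent.RCG.VST
import Pool.Agent.RCG.MST
import Pool.Agent.RCG.CHR
import Pool.Agent.RCG.FND
import Pool.Agent.RCG.SPQ
import Pool.Agent.RCG.QUC

set_option autoImplicit false

/-!
# RCG: assembly of the targets of `Targets14`
-/

namespace Pool.Agent.RCG

theorem all_TRG : T_TRG := prove_TRG prove_RTP

theorem all_TRA : T_TRA := prove_TRA prove_RTP all_TRG

theorem all_DEN : T_DEN := prove_DEN all_TRA prove_SPT prove_RTP

theorem all_MRW : T_MRW := prove_MRW all_TR2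

theorem all_UPW : T_UPW := prove_UPW prove_DIM2 prove_RTP

theorem all_UPB : T_UPB := prove_UPB all_UPW prove_RTP

theorem all_VST : T_VST := prove_VST prove_CN1

theorem all_MST : T_MST := prove_MST prove_CS1 prove_CJ1 prove_CN1 prove_CN2 prove_LIN all_UPB
  prove_UCT prove_UST all_VST prove_CRD

theorem all_CHR : T_CHR := prove_CHR all_MST

theorem all_FND : T_FND := prove_FND all_DEN prove_KSQ all_MRW prove_ANC prove_ANT all_CHR

theorem all_SPQ : T_SPQ := prove_SPQ

end Pool.Agent.RCG
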