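import Pool.Agent.RCG.Targets15

set_option autoImplicit false

/-! # RCG, MRB: Markov count of the pairs whose product has a value of trace `2` or `-2` -/

namespace Pool.Agent.RCG

open Finset Matrix

namespace MRB_

/-- the tuples at which the element `u` has a value of trace `t` -/
def A {p d : ℕ} [Fact p.Prime] (u : FreeGroup (Fin d)) (t : ZMod p) :
    Finset (Fin d → SL 2 p) :=
  univ.filter fun y => (FreeGroup.lift y u).1 0 0 + (FreeGroup.lift y u).1 1 1 = t

lemma mem_A {p d : ℕ} [Fact p.Prime] (u : FreeGroup (Fin d)) (t : ZMod p)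
    (y : Fin d → SL 2 p) :
    y ∈ A u t ↔ (FreeGroup.lift y u).1 0 0 + (FreeGroup.lift y u).1 1 1 = t := by
  simp [A]

lemma card_A (h : T_TR2) {p d : ℕ} [Fact p.Prime] (n : ℕ) (hd : 2 * d < p)
    (u : FreeGroup (Fin d)) (t : ZMod p) (hu : u ≠ 1) (hn : u.norm ≤ 2 * n) :
    (p : ℝ) * (A u t).card ≤ 4 * (2 * n) * (Fintype.card (SL 2 p) : ℝ) ^ d := by
  have h0 : List.ofFn (fun i : Fin u.toWord.length => u.toWord.get i) = u.toWord :=
    List.ofFn_get _
  have h2 : ∀ y : Fin d → SL 2 p,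
      ev y (fun i : Fin u.toWord.length => u.toWord.get i) = FreeGroup.lift y u := by
    intro y
    unfold ev
    rw [h0, FreeGroup.mk_toWord]
  have h1 := h p d u.toWord.length (fun i => u.toWord.get i) t hd
    (by rw [h0, FreeGroup.mk_toWord]; exact hu)
  rw [Nat.card_eq_fintype_card, Fintype.card_subtype] at h1
  simp only [h2] at h1
  refine h1.trans ?_
  have h3 : (u.toWord.length : ℝ) ≤ 2 * n := by exact_mod_cast hn
  gcongr

end MRB_

open MRB_ in
theorem prove_MRB (h : T_TR2) (hB : T_BLM) : T_MRB := by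
  classical
  intro p _ d n M hd hM
  have hp : (0 : ℝ) < p := by exact_mod_cast (Fact.out : p.Prime).pos
  set X : ℝ := 4 * (2 * n) * (Fintype.card (SL 2 p) : ℝ) ^ d with hX
  have hX0 : 0 ≤ X := by positivity
  let W : Finset (FreeGroup (Fin d) × FreeGroup (Fin d)) :=
    (BL d n ×ˢ BL d n).filter fun z => z.1 * z.2 ≠ 1
  have hA : ∀ z ∈ W, ∀ t : ZMod p, (p : ℝ) * (A (z.1 * z.2) t).card ≤ X := by
    intro z hz t
    obtain ⟨hz1, hz2⟩ := mem_filter.1 hz
    obtain ⟨h3, h4⟩ := mem_product.1 hz1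
    refine card_A h n hd _ t hz2 ((FreeGroup.norm_mul_le _ _).trans ?_)
    have h5 := ((hB d n z.1).1 h3).1
    have h6 := ((hB d n z.2).1 h4).1
    omega
  have hbb : ∀ y : Fin d → SL 2 p, (bb n y : ℝ) ≤
      ∑ z ∈ W, ((if y ∈ A (z.1 * z.2) 2 then (1 : ℝ) else 0) +
        (if y ∈ A (z.1 * z.2) (-2) then (1 : ℝ) else 0)) := by
    intro y
    unfold bb
    have h2 : (((BL d n ×ˢ BL d n).filter fun z => z.1 * z.2 ≠ 1 ∧
        ((FreeGroup.lift y (z.1 * z.2)).1 0 0 + (FreeGroup.lift y (z.1 * z.2)).1 1 1 = 2 ∨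
        (FreeGroup.lift y (z.1 * z.2)).1 0 0 + (FreeGroup.lift y (z.1 * z.2)).1 1 1 = -2)).card :
          ℝ) =
        ∑ z ∈ W, if ((FreeGroup.lift y (z.1 * z.2)).1 0 0 +
            (FreeGroup.lift y (z.1 * z.2)).1 1 1 = 2 ∨
          (FreeGroup.lift y (z.1 * z.2)).1 0 0 + (FreeGroup.lift y (z.1 * z.2)).1 1 1 = -2)
            then (1 : ℝ) else 0 := by
      rw [← Finset.filter_filter, Finset.sum_boole]
    rw [h2]
    refine sum_le_sum fun z _ => ?_
    by_cases c1 : (FreeGroup.lift y (z.1 * z.2)).1 0 0 +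
        (FreeGroup.lift y (z.1 * z.2)).1 1 1 = 2
    · rw [if_pos (Or.inl c1), if_pos ((mem_A _ _ _).2 c1)]
      split_ifs <;> norm_num
    · by_cases c2 : (FreeGroup.lift y (z.1 * z.2)).1 0 0 +
          (FreeGroup.lift y (z.1 * z.2)).1 1 1 = -2
      · rw [if_pos (Or.inr c2), if_pos ((mem_A _ (-2) _).2 c2)]
        split_ifs <;> norm_num
      · rw [if_neg (not_or.2 ⟨c1, c2⟩)]
        split_ifs <;> norm_num
  have hsum : ∑ y : Fin d → SL 2 p, (bb n y : ℝ) ≤
      ∑ z ∈ W, (((A (z.1 * z.2) (2 : ZMod p)).card : ℝ) +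
        (A (z.1 * z.2) (-2 : ZMod p)).card) := by
    refine (sum_le_sum fun y _ => hbb y).trans (le_of_eq ?_)
    rw [sum_comm]
    refine sum_congr rfl fun z _ => ?_
    rw [sum_add_distrib, Finset.sum_boole, Finset.sum_boole]
    simp
  have hmk : M * ((univ.filter fun y : Fin d → SL 2 p => M < (bb n y : ℝ)).card : ℝ) ≤
      ∑ y : Fin d → SL 2 p, (bb n y : ℝ) := by
    calc M * ((univ.filter fun y : Fin d → SL 2 p => M < (bb n y : ℝ)).card : ℝ)
        = ∑ y ∈ univ.filter (fun y : Fin d → SL 2 p => M < (bb n y : ℝ)), M := by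
          rw [sum_const, nsmul_eq_mul, mul_comm]
      _ ≤ ∑ y ∈ univ.filter (fun y : Fin d → SL 2 p => M < (bb n y : ℝ)), (bb n y : ℝ) :=
          sum_le_sum fun y hy => (mem_filter.1 hy).2.le
      _ ≤ ∑ y : Fin d → SL 2 p, (bb n y : ℝ) :=
          sum_le_sum_of_subset_of_nonneg (filter_subset _ _) fun _ _ _ => by positivity
  rw [Nat.card_eq_fintype_card, Fintype.card_subtype]
  calc M * p * ((univ.filter fun y : Fin d → SL 2 p => M < (bb n y : ℝ)).card : ℝ)
      = p * (M * ((univ.filter fun y : Fin d → SL 2 p => M < (bb n y : ℝ)).card : ℝ)) := by ring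
    _ ≤ p * ∑ z ∈ W, (((A (z.1 * z.2) (2 : ZMod p)).card : ℝ) +
        (A (z.1 * z.2) (-2 : ZMod p)).card) :=
        mul_le_mul_of_nonneg_left (hmk.trans hsum) hp.le
    _ = ∑ z ∈ W, ((p : ℝ) * (A (z.1 * z.2) (2 : ZMod p)).card +
        p * (A (z.1 * z.2) (-2 : ZMod p)).card) := by
        rw [mul_sum]
        exact sum_congr rfl fun z _ => by ring
    _ ≤ ∑ z ∈ W, (X + X) :=
        sum_le_sum fun z hz => add_le_add (hA z hz 2) (hA z hz (-2))
    _ ≤ ∑ z ∈ BL d n ×ˢ BL d n, (X + X) :=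
        sum_le_sum_of_subset_of_nonneg (filter_subset _ _) fun _ _ _ => by positivity
    _ = 16 * n * ((BL d n).card : ℝ) ^ 2 * (Fintype.card (SL 2 p) : ℝ) ^ d := by
        rw [sum_const, card_product, nsmul_eq_mul, hX]
        push_cast
        ring

end Pool.Agent.RCG
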