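import Pool.Agent.RCG.Targets15

set_option autoImplicit false

/-!
# SPB: a spectral lemma for the operators `chb`
-/

namespace Pool.Agent.RCG

open Finset

namespace SPB_

variable {V : Type} [NormedAddCommGroup V] [InnerProductSpace ℂ V]

lemma chb_apply {ι : Type} [Fintype ι] (q : ℝ) (T : V →ₗ[ℂ] V) (b : OrthonormalBasis ι ℂ V)
    (l : ι → ℝ) (h : ∀ i, T (b i) = (l i : ℂ) • b i) (i : ι) :
    ∀ n : ℕ, chb q T n (b i) = ((chf q (l i) n : ℝ) : ℂ) • b i ∧
      chb q T (n + 1) (b i) = ((chf q (l i) (n + 1) : ℝ) : ℂ) • b i := by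
  intro n
  induction n with
  | zero =>
    refine ⟨?_, ?_⟩
    · simp [chb, chf]
    · simpa [chb, chf] using h i
  | succ n ih =>
    refine ⟨ih.2, ?_⟩
    have h1 : chb q T (n + 1 + 1) (b i) =
        T (chb q T (n + 1) (b i)) - (q : ℂ) • chb q T n (b i) := rfl
    have h2 : chf q (l i) (n + 1 + 1) = l i * chf q (l i) (n + 1) - q * chf q (l i) n := rfl
    rw [h1, h2, ih.1, ih.2, map_smul, h, smul_smul, smul_smul, ← sub_smul]
    congr 1
    push_cast
    ring

lemma trace_re {ι : Type} [Fintype ι] (q : ℝ) (T : V →ₗ[ℂ] V) (b : OrthonormalBasis ι ℂ V)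
    (l : ι → ℝ) (h : ∀ i, T (b i) = (l i : ℂ) • b i) (n : ℕ) :
    (LinearMap.trace ℂ V (chb q T n ∘ₗ chb q T n)).re = ∑ i, chf q (l i) n ^ 2 := by
  rw [LinearMap.trace_eq_sum_inner _ b, Complex.re_sum]
  refine Finset.sum_congr rfl fun i _ => ?_
  rw [LinearMap.comp_apply, (chb_apply q T b l h i n).1, map_smul, (chb_apply q T b l h i n).1,
    smul_smul, inner_smul_right, inner_self_eq_norm_sq_to_K, b.norm_eq_one]
  norm_num
  ring

end SPB_

open SPB_ in
theorem prove_SPB (hC : T_CHL) : T_SPB := by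
  intro V _ _ _ T E a c n hT hc hca hE
  set b := hT.eigenvectorBasis rfl with hb
  set l := hT.eigenvalues rfl with hl
  have hTb : ∀ i, T (b i) = (l i : ℂ) • b i := fun i => hT.apply_eigenvectorBasis rfl i
  have ha : 0 ≤ a := (hc.trans_le hca).le
  have hR : 0 ≤ a + c := by linarith
  rw [trace_re (a * c) T b l hTb n]
  set J := univ.filter (fun i => a + c < |l i|) with hJ
  -- the coordinates in `J` determine the vectors of `E`
  have hdim : Module.finrank ℂ E ≤ J.card := by
    let P : V →ₗ[ℂ] (J → ℂ) :=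
      { toFun := fun v j => b.repr v j
        map_add' := fun v w => by
          funext j
          simp
        map_smul' := fun c v => by
          funext j
          simp }
    have hinj : Function.Injective (P ∘ₗ E.subtype) := by
      rw [← LinearMap.ker_eq_bot, LinearMap.ker_eq_bot']
      intro v hv
      by_contra hne
      have hv0 : (v : V) ≠ 0 := fun h0 => hne (Subtype.ext h0)
      have h1 := hE v v.2 hv0
      have h2 : ∀ i ∈ J, b.repr (v : V) i = 0 := by
        intro i hi
        exact congrFun hv ⟨i, hi⟩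
      have h3 : ‖T v‖ ^ 2 ≤ ((a + c) * ‖(v : V)‖) ^ 2 := by
        rw [← b.repr.norm_map (T v), ← b.repr.norm_map (v : V), mul_pow,
          EuclideanSpace.norm_sq_eq, EuclideanSpace.norm_sq_eq, Finset.mul_sum]
        refine Finset.sum_le_sum fun i _ => ?_
        rw [hT.eigenvectorBasis_apply_self_apply rfl, norm_mul, mul_pow]
        by_cases hi : i ∈ J
        · have h4 := h2 i hi
          rw [hb] at h4
          rw [h4]
          simp
        · have h4 : |l i| ≤ a + c := by
            by_contra h5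
            exact hi (by rw [hJ, mem_filter]; exact ⟨mem_univ _, not_le.1 h5⟩)
          have h6 : ‖(hT.eigenvalues rfl i : ℂ)‖ = |l i| := by
            rw [Complex.norm_real, Real.norm_eq_abs]
          refine mul_le_mul_of_nonneg_right ?_ (by positivity)
          calc ‖((hT.eigenvalues rfl i : ℝ) : ℂ)‖ ^ 2 = |l i| ^ 2 := by rw [h6]
            _ ≤ (a + c) ^ 2 := by gcongr
      have h7 : ‖T v‖ ≤ (a + c) * ‖(v : V)‖ := by
        refine le_of_sq_le_sq h3 (by positivity)
      linarith
    have h8 := LinearMap.finrank_le_finrank_of_injective hinj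
    simpa using h8
  have han : 0 ≤ a ^ (2 * n) := by positivity
  calc a ^ (2 * n) * (Module.finrank ℂ E : ℝ) ≤ a ^ (2 * n) * (J.card : ℝ) := by
        gcongr
    _ = ∑ i ∈ J, a ^ (2 * n) := by rw [Finset.sum_const, nsmul_eq_mul, mul_comm]
    _ ≤ ∑ i ∈ J, chf (a * c) (l i) n ^ 2 := by
        refine Finset.sum_le_sum fun i hi => ?_
        rw [hJ, mem_filter] at hi
        have h9 := hC a c (l i) n hc hca hi.2.le
        rw [mul_comm 2 n, pow_mul, ← sq_abs (chf (a * c) (l i) n)]
        exact pow_le_pow_left₀ (by positivity) h9 2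
    _ ≤ ∑ i, chf (a * c) (l i) n ^ 2 :=
        Finset.sum_le_sum_of_subset_of_nonneg (Finset.subset_univ _)
          (fun i _ _ => sq_nonneg _)

end Pool.Agent.RCG
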