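import Pool.Agent.RCG.Targets15

set_option autoImplicit false

/-!
# TRB: trace of the square of the ball operator on an invariant space
-/

namespace Pool.Agent.RCG.TRB_

open Finset

/-- Cauchy-Schwarz for one translation -/
theorem cs_one {G : Type} [Group G] [Fintype G] (f : G → ℝ) (u : G) :
    |∑ x, f x * f (x * u)| ≤ ∑ x, f x ^ 2 := by
  have h1 : ∑ x, f (x * u) ^ 2 = ∑ x, f x ^ 2 :=
    Fintype.sum_equiv (Equiv.mulRight u) _ _ fun x => rfl
  have h2 : ∀ x, |f x * f (x * u)| ≤ (f x ^ 2 + f (x * u) ^ 2) / 2 := by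
    intro x
    rw [abs_le]
    constructor
    · nlinarith [sq_nonneg (f x + f (x * u))]
    · nlinarith [sq_nonneg (f x - f (x * u))]
  calc |∑ x, f x * f (x * u)| ≤ ∑ x, |f x * f (x * u)| := Finset.abs_sum_le_sum_abs _ _
    _ ≤ ∑ x, (f x ^ 2 + f (x * u) ^ 2) / 2 := Finset.sum_le_sum fun x _ => h2 x
    _ = ∑ x, f x ^ 2 := by
      rw [← Finset.sum_div, Finset.sum_add_distrib, h1]
      ring

theorem phi_le {G : Type} [Group G] [Fintype G] (f : G → ℝ) (g : G) :
    |Phi f g| ≤ 1 * Fintype.card G * ∑ x, f x ^ 2 := by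
  unfold Phi
  calc |∑ h : G, ∑ x, f x * f (x * (h * g * h⁻¹))|
      ≤ ∑ h : G, |∑ x, f x * f (x * (h * g * h⁻¹))| := Finset.abs_sum_le_sum_abs _ _
    _ ≤ ∑ _h : G, ∑ x, f x ^ 2 := Finset.sum_le_sum fun h _ => cs_one f _
    _ = 1 * Fintype.card G * ∑ x, f x ^ 2 := by
      rw [Finset.sum_const, Finset.card_univ, nsmul_eq_mul, one_mul]

/-- `chb` of the restriction is the restriction of `chb` -/
theorem chb_res (q : ℝ) {V : Type} [AddCommGroup V] [Module ℂ V] (T : V →ₗ[ℂ] V)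
    (W : Submodule ℂ V) (hA : ∀ f ∈ W, T f ∈ W) (n : ℕ) :
    (∀ f : W, ((chb q (T.restrict hA) n f : W) : V) = chb q T n (f : V)) ∧
    ∀ f : W, ((chb q (T.restrict hA) (n + 1) f : W) : V) = chb q T (n + 1) (f : V) := by
  induction n with
  | zero => exact ⟨fun f => rfl, fun f => rfl⟩
  | succ n ih =>
    refine ⟨ih.2, fun f => ?_⟩
    have e1 : chb q (T.restrict hA) (n + 1 + 1) =
        (T.restrict hA) ∘ₗ chb q (T.restrict hA) (n + 1) - (q : ℂ) • chb q (T.restrict hA) n :=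
      rfl
    have e2 : chb q T (n + 1 + 1) = T ∘ₗ chb q T (n + 1) - (q : ℂ) • chb q T n := rfl
    rw [e1, e2, LinearMap.sub_apply, LinearMap.sub_apply, LinearMap.comp_apply,
      LinearMap.comp_apply, LinearMap.smul_apply, LinearMap.smul_apply, Submodule.coe_sub,
      Submodule.coe_smul, LinearMap.coe_restrict_apply, ih.1, ih.2]

/-- the square as a sum over the pairs -/
theorem op_eq (h1 : T_RTP) (h3 : T_BLO) {G : Type} [Group G] [Fintype G] {d : ℕ} (hd : 1 ≤ d)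
    (y : Fin d → G) (n : ℕ) (W : Submodule ℂ (EuclideanSpace ℂ G)) (hW : InvS W)
    (hA : ∀ f ∈ W, AL y f ∈ W) :
    chb (2 * (d : ℝ) - 1) ((AL y).restrict hA) n ∘ₗ
      chb (2 * (d : ℝ) - 1) ((AL y).restrict hA) n =
      ∑ z ∈ BL d n ×ˢ BL d n, (RT (FreeGroup.lift y (z.1 * z.2))).restrict
        (hW.2 (FreeGroup.lift y (z.1 * z.2))) := by
  have h := h3 G d n y hd
  refine LinearMap.ext fun f => Subtype.ext ?_
  rw [LinearMap.comp_apply, (chb_res _ _ W hA n).1, (chb_res _ _ W hA n).1, h,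
    LinearMap.sum_apply, LinearMap.sum_apply, LinearMap.sum_apply,
    AddSubmonoidClass.coe_finsetSum, Finset.sum_product]
  refine Finset.sum_congr rfl fun a _ => ?_
  rw [map_sum]
  refine Finset.sum_congr rfl fun b _ => ?_
  rw [LinearMap.coe_restrict_apply, map_mul, (h1 G).2.1, LinearMap.comp_apply]

theorem bnd (h1 : T_RTP) (h2 : T_TRG) (p : ℕ) [Fact p.Prime] {d : ℕ} (y : Fin d → SL 2 p)
    (κ : ℝ) (W : Submodule ℂ (EuclideanSpace ℂ (SL 2 p))) (hW : InvS W) (hκ : 0 ≤ κ)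
    (hg : ∀ g : SL 2 p, g.1 0 0 + g.1 1 1 ≠ 2 → g.1 0 0 + g.1 1 1 ≠ -2 →
      ∀ f : SL 2 p → ℝ, ∑ x, f x = 0 → |Phi f g| ≤ κ * Fintype.card (SL 2 p) * ∑ x, f x ^ 2)
    (w : FreeGroup (Fin d)) [Decidable (w = 1)]
    [Decidable (w ≠ 1 ∧ ((FreeGroup.lift y w).1 0 0 + (FreeGroup.lift y w).1 1 1 = 2 ∨
      (FreeGroup.lift y w).1 0 0 + (FreeGroup.lift y w).1 1 1 = -2))] :
    (LinearMap.trace ℂ W ((RT (FreeGroup.lift y w)).restrict
      (hW.2 (FreeGroup.lift y w)))).re ≤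
      ((if w = 1 then (1 : ℝ) else 0) +
        (if w ≠ 1 ∧ ((FreeGroup.lift y w).1 0 0 + (FreeGroup.lift y w).1 1 1 = 2 ∨
          (FreeGroup.lift y w).1 0 0 + (FreeGroup.lift y w).1 1 1 = -2)
          then (1 : ℝ) else 0) + κ) * Module.finrank ℂ W := by
  have hd : (0 : ℝ) ≤ Module.finrank ℂ W := Nat.cast_nonneg _
  by_cases ht : w = 1
  · have he : FreeGroup.lift y w = 1 := by rw [ht, map_one]
    have hid : (RT (FreeGroup.lift y w)).restrict (hW.2 (FreeGroup.lift y w)) =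
        LinearMap.id := by
      refine LinearMap.ext fun f => Subtype.ext ?_
      rw [LinearMap.coe_restrict_apply, he, (h1 (SL 2 p)).2.2.1]
      rfl
    rw [hid, LinearMap.trace_id, Complex.natCast_re, if_pos ht]
    have h5 : (0 : ℝ) ≤ (if w ≠ 1 ∧
        ((FreeGroup.lift y w).1 0 0 + (FreeGroup.lift y w).1 1 1 = 2 ∨
          (FreeGroup.lift y w).1 0 0 + (FreeGroup.lift y w).1 1 1 = -2)
          then (1 : ℝ) else 0) := by split_ifs <;> norm_num
    nlinarith
  · by_cases hb : (FreeGroup.lift y w).1 0 0 + (FreeGroup.lift y w).1 1 1 = 2 ∨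
        (FreeGroup.lift y w).1 0 0 + (FreeGroup.lift y w).1 1 1 = -2
    · rw [if_neg ht, if_pos ⟨ht, hb⟩]
      have h5 := h2 (SL 2 p) 1 (FreeGroup.lift y w) W hW zero_le_one fun f _ => phi_le f _
      have h6 := (le_abs_self _).trans h5
      nlinarith
    · rw [if_neg ht, if_neg (fun h => hb h.2)]
      push Not at hb
      have h5 := h2 (SL 2 p) κ (FreeGroup.lift y w) W hW hκ
        (hg (FreeGroup.lift y w) hb.1 hb.2)
      have h6 := (le_abs_self _).trans h5
      linarith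

open Classical in
/-- the pairs with trivial product -/
theorem card_one (d n : ℕ) :
    ((BL d n ×ˢ BL d n).filter fun z => z.1 * z.2 = 1).card ≤ (BL d n).card := by
  refine Finset.card_le_card_of_injOn Prod.fst (fun z hz => ?_) fun z hz w hw h => ?_
  · exact (Finset.mem_product.1 (Finset.mem_filter.1 hz).1).1
  · have e1 := (Finset.mem_filter.1 hz).2
    have e2 := (Finset.mem_filter.1 hw).2
    have e3 : z.1 * z.2 = z.1 * w.2 := by rw [e1, h, e2]
    exact Prod.ext h (mul_left_cancel e3)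

end Pool.Agent.RCG.TRB_

namespace Pool.Agent.RCG

open Finset

open Classical in
theorem prove_TRB (h1 : T_RTP) (h2 : T_TRG) (h3 : T_BLO) : T_TRB := by
  intro p _ d n y κ W hW hA hd hκ hg
  rw [TRB_.op_eq h1 h3 hd y n W hW hA, map_sum, Complex.re_sum]
  refine (Finset.sum_le_sum fun z _ => TRB_.bnd h1 h2 p y κ W hW hκ hg (z.1 * z.2)).trans ?_
  rw [← Finset.sum_mul, Finset.sum_add_distrib, Finset.sum_add_distrib, Finset.sum_const,
    Finset.sum_boole, Finset.sum_boole]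
  have hb : (((BL d n ×ˢ BL d n).filter fun z => z.1 * z.2 ≠ 1 ∧
      ((FreeGroup.lift y (z.1 * z.2)).1 0 0 + (FreeGroup.lift y (z.1 * z.2)).1 1 1 = 2 ∨
      (FreeGroup.lift y (z.1 * z.2)).1 0 0 + (FreeGroup.lift y (z.1 * z.2)).1 1 1 = -2)).card :
      ℝ) = (bb n y : ℝ) := by
    unfold bb
    rfl
  have hc : (((BL d n ×ˢ BL d n).filter fun z => z.1 * z.2 = 1).card : ℝ) ≤
      ((BL d n).card : ℝ) := by exact_mod_cast TRB_.card_one d n
  have he : ((BL d n ×ˢ BL d n).card : ℝ) = ((BL d n).card : ℝ) ^ 2 := by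
    rw [Finset.card_product]
    push_cast
    ring
  have hf : (0 : ℝ) ≤ Module.finrank ℂ W := Nat.cast_nonneg _
  rw [hb, nsmul_eq_mul, he, mul_comm (((BL d n).card : ℝ) ^ 2) κ]
  refine mul_le_mul_of_nonneg_right ?_ hf
  linarith

end Pool.Agent.RCG
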