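import Pool.Agent.RCG.Fin14b
import Pool.Agent.RCG.BLM
import Pool.Agent.RCG.BLR
import Pool.Agent.RCG.BLC
import Pool.Agent.RCG.BLO
import Pool.Agent.RCG.CHL
import Pool.Agent.RCG.SPB
import Pool.Agent.RCG.TRB
import Pool.Agent.RCG.DNB
import Pool.Agent.RCG.MRB
import Pool.Agent.RCG.ANB
import Pool.Agent.RCG.ANU
import Pool.Agent.RCG.FNB

set_option autoImplicit false

/-!
# RCG: assembly of the targets of `Targets15`
-/

namespace Pool.Agent.RCG

theorem all_BLR : T_BLR := prove_BLR prove_BLM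

theorem all_BLC : T_BLC := prove_BLC all_BLR

theorem all_BLO : T_BLO := prove_BLO all_BLR prove_RTP

theorem all_SPB : T_SPB := prove_SPB prove_CHL

theorem all_TRB : T_TRB := prove_TRB prove_RTP all_TRG all_BLO

theorem all_DNB : T_DNB := prove_DNB all_TRB all_SPB prove_RTP

theorem all_MRB : T_MRB := prove_MRB all_TR2 prove_BLM

theorem all_FNB : T_FNB := prove_FNB all_DNB all_BLC all_MRB prove_ANB prove_ANU all_CHR

end Pool.Agent.RCG
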