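import Pool.Agent.RCG.Targets5
import Pool.Agent.RCG.Fin2

set_option autoImplicit false

/-!
# RCG: mixing times of random Cayley graphs of `SL (2, p)`, final assembly
-/

namespace Pool.Agent.RCG

open Finset Matrix
open Pool.Agent.VAC (lazyP tvDist tmix)

open Classical in
/-- The Cayley graph of `s` is connected and regular of degree `2 d`, and the mixing times of the
lazy walk at the levels `1 - ε` and `ε` are in `[(1 - η) T, (1 + η) T]`,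
`T = 2 log |G| / log (2 d)`. -/
def MixOK {G : Type} [Group G] [Fintype G] {d : ℕ} (η ε : ℝ) (s : Fin d → G) : Prop :=
  (cay s).Connected ∧ (cay s).IsRegularOfDegree (2 * d) ∧
    (1 - η) * (2 * Real.log (Fintype.card G) / Real.log (2 * d)) ≤
      (tmix (lazyP (cay s)) (1 - ε) : ℝ) ∧
    (tmix (lazyP (cay s)) ε : ℝ) ≤
      (1 + η) * (2 * Real.log (Fintype.card G) / Real.log (2 * d))

namespace FIN5_

theorem single (hUPT : T_UPT) (hLOT : T_LOT) (hCAY : T_CAY) (hPOL : T_POL) (G : Type) [Group G]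
    [Fintype G] (C η ε : ℝ) (hC : 0 < C) (d : ℕ) (hd : 1 ≤ d)
    (hB : C * √(2 * (d : ℝ)) * Real.log (2 * d) < 2 * d)
    (h1 : ∃ t J : ℕ, (t : ℝ) ≤ (1 + η) * (2 * Real.log (Fintype.card G) / Real.log (2 * d)) ∧
      binLow t J + (1 / 2) * √(Fintype.card G : ℝ) *
        (C * √(2 * (d : ℝ)) * Real.log (2 * d) / (2 * d)) ^ J ≤ ε)
    (h2 : ∃ t J : ℕ, (t : ℝ) ≤ (1 + η) * (2 * Real.log (Fintype.card G) / Real.log (2 * d)) ∧
      binLow t J + (1 / 2) * √(Fintype.card G : ℝ) *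
        (C * √(2 * (d : ℝ)) * Real.log (2 * d) / (2 * d)) ^ J ≤ 1 - ε)
    (h3 : ∀ t : ℕ, (t : ℝ) ≤ (1 - η) * (2 * Real.log (Fintype.card G) / Real.log (2 * d)) →
      ∃ J : ℕ, binHigh t J + 2 * ((2 * d : ℕ) : ℝ) ^ J / (Fintype.card G : ℝ) < ε)
    (s : Fin d → G) (hs : Distinct s)
    (hQB : QB s (C * √(2 * (d : ℝ)) * Real.log (2 * d))) : MixOK η ε s := by
  classical
  have hd1 : (1 : ℝ) ≤ d := by exact_mod_cast hd
  have hlog : 0 ≤ Real.log (2 * (d : ℝ)) := Real.log_nonneg (by linarith)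
  set B : ℝ := C * √(2 * (d : ℝ)) * Real.log (2 * d) with hBdef
  have hB0 : 0 ≤ B := by positivity
  obtain ⟨c1, _, c3, Q, q1, q2, q3, q4, q5, q6⟩ := hCAY G d s hd hs
  have hnorm : ∀ f : G → ℝ, ∑ x, f x = 0 → ∑ x, adj s f x ^ 2 ≤ B ^ 2 * ∑ x, f x ^ 2 :=
    hPOL G d s B hB0 hQB
  have hN : NormLe s B := by
    intro f hf
    rw [finsum_eq_sum_of_fintype] at hf
    rw [finsum_eq_sum_of_fintype, finsum_eq_sum_of_fintype]
    exact hnorm f hf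
  have hr0 : 0 ≤ B / (2 * d) := by positivity
  have hr1 : B / (2 * d) ≤ 1 := by
    rw [div_le_one (by positivity)]
    exact hB.le
  have hQ : ∀ f : G → ℝ, ∑ x, f x = 0 →
      ∑ x, (Q *ᵥ f) x ^ 2 ≤ (B / (2 * d)) ^ 2 * ∑ x, f x ^ 2 := by
    intro f hf
    have h4 : ∀ x, (Q *ᵥ f) x ^ 2 = adj s f x ^ 2 / (2 * d) ^ 2 := fun x => by
      rw [q6, div_pow]
    simp only [h4]
    rw [← sum_div, div_pow, div_mul_eq_mul_div]
    exact div_le_div_of_nonneg_right (hnorm f hf) (by positivity)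
  have hcd : ∀ h : DecidableRel (cay s).Adj, @lazyP G _ _ (cay s) h =
      (1 / 2 : ℝ) • (1 + Q) := by
    intro h
    rw [← q1]
    congr
  refine ⟨c3 B hB0 hB hN, ?_, ?_, ?_⟩
  · convert c1
  · rw [hcd]
    obtain ⟨t2, J2, ht2, hJ2⟩ := h2
    have hne : {t : ℕ | ∀ x : G, tvDist ((1 / 2 : ℝ) • (1 + Q)) t x ≤ 1 - ε}.Nonempty :=
      ⟨t2, fun x => (hUPT G Q _ J2 t2 q2 q3 q4 hr0 hr1 hQ x).trans hJ2⟩
    have hmem := Nat.sInf_mem hne
    by_contra hcon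
    have hlt : ((sInf {t : ℕ | ∀ x : G, tvDist ((1 / 2 : ℝ) • (1 + Q)) t x ≤ 1 - ε} : ℕ) : ℝ) <
        (1 - η) * (2 * Real.log (Fintype.card G) / Real.log (2 * d)) := not_le.1 hcon
    obtain ⟨J, hJ⟩ := h3 _ hlt.le
    have h5 := hLOT G Q (2 * d) J
      (sInf {t : ℕ | ∀ x : G, tvDist ((1 / 2 : ℝ) • (1 + Q)) t x ≤ 1 - ε}) q3 q4
      (by omega) q5 1
    have h6 := hmem 1
    linarith
  · rw [hcd]
    obtain ⟨t1, J1, ht1, hJ1⟩ := h1
    have h4 : tmix ((1 / 2 : ℝ) • (1 + Q)) ε ≤ t1 :=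
      Nat.sInf_le fun x => (hUPT G Q _ J1 t1 q2 q3 q4 hr0 hr1 hQ x).trans hJ1
    exact le_trans (by exact_mod_cast h4) ht1

end FIN5_

theorem mixing (hUPT : T_UPT) (hLOT : T_LOT) (hCAY : T_CAY) (hDST : T_DST) (hMXA : T_MXA)
    (hPOL : T_POL)
    (hUNI : ∀ a : ℝ, 0 < a →
      ∃ C : ℝ, 0 < C ∧ ∃ P : ℕ, ∀ p : ℕ, ∀ _ : Fact p.Prime, P ≤ p → ∀ d : ℕ, 1 ≤ d →
      (badCard (SL 2 p) d (C * √(2 * (d : ℝ)) * Real.log (2 * d)) : ℝ) ≤
        (p : ℝ) ^ (-a) * (Fintype.card (SL 2 p) : ℝ) ^ d)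
    (η : ℝ) (hη0 : 0 < η) (hη1 : η < 1) : ∃ d₀ : ℕ, ∀ d : ℕ, d₀ ≤ d → ∀ ε : ℝ, 0 < ε → ε < 1 →
      ∃ P : ℕ, ∀ (p : ℕ) [Fact p.Prime], P ≤ p →
        (1 - (p : ℝ) ^ (-(1 / 2) : ℝ)) * (Fintype.card (SL 2 p) : ℝ) ^ d ≤
          (Nat.card {s : Fin d → SL 2 p // MixOK η ε s} : ℝ) := by
  classical
  obtain ⟨C, hC, P1, hP1⟩ := hUNI 1 one_pos
  obtain ⟨d₀, hd₀⟩ := hMXA C η hC hη0 hη1
  refine ⟨d₀, ?_⟩
  intro d hd ε hε0 hε1
  obtain ⟨hd1, hB, hM⟩ := hd₀ d hd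
  obtain ⟨M1, hM1⟩ := hM ε hε0
  obtain ⟨M2, hM2⟩ := hM (1 - ε) (by linarith)
  refine ⟨max 5 (max P1 (max ⌈M1⌉₊ (max ⌈M2⌉₊ (5 * d ^ 2)))), ?_⟩
  intro p hpp hpP
  have hp5 : 5 ≤ p := (le_max_left _ _).trans hpP
  have hpP1 : P1 ≤ p := (le_max_left _ _).trans ((le_max_right _ _).trans hpP)
  have hpr := (le_max_right _ _).trans ((le_max_right _ _).trans hpP)
  have hpM1 : ⌈M1⌉₊ ≤ p := (le_max_left _ _).trans hpr
  have hpM2 : ⌈M2⌉₊ ≤ p := (le_max_left _ _).trans ((le_max_right _ _).trans hpr)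
  have hpd : 5 * d ^ 2 ≤ p := (le_max_right _ _).trans ((le_max_right _ _).trans hpr)
  have hp2 : p ≠ 2 := by omega
  have hp5' : (5 : ℝ) ≤ p := by exact_mod_cast hp5
  have hp0 : (0 : ℝ) < p := by linarith
  have hcardge : p ^ 2 ≤ Fintype.card (SL 2 p) := by
    have h1 : p ^ 2 * (p - 1) ≤ Fintype.card (SL 2 p) := Pool.Agent.AlmRam.le_card_sl (p := p)
    have h2 : p ^ 2 * 1 ≤ p ^ 2 * (p - 1) := Nat.mul_le_mul_left _ (by omega)
    omega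
  have hcardge' : (p : ℝ) ^ 2 ≤ (Fintype.card (SL 2 p) : ℝ) := by exact_mod_cast hcardge
  have hMp : (p : ℝ) ≤ (Fintype.card (SL 2 p) : ℝ) := by nlinarith
  have hMM1 : M1 ≤ (Fintype.card (SL 2 p) : ℝ) := by
    have : (⌈M1⌉₊ : ℝ) ≤ p := by exact_mod_cast hpM1
    exact (Nat.le_ceil M1).trans (this.trans hMp)
  have hMM2 : M2 ≤ (Fintype.card (SL 2 p) : ℝ) := by
    have : (⌈M2⌉₊ : ℝ) ≤ p := by exact_mod_cast hpM2
    exact (Nat.le_ceil M2).trans (this.trans hMp)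
  have hG : (0 : ℝ) < (Fintype.card (SL 2 p) : ℝ) := by linarith
  obtain ⟨_, u1, l1⟩ := hM1 _ hMM1
  obtain ⟨_, u2, _⟩ := hM2 _ hMM2
  set B : ℝ := C * √(2 * (d : ℝ)) * Real.log (2 * d) with hBdef
  -- good tuples
  have hsub : ∀ s : Fin d → SL 2 p, ¬ MixOK η ε s → (¬ QB s B ∨ ¬ Distinct s) := by
    intro s hs
    by_contra hcon
    rw [not_or, not_not, not_not] at hcon
    exact hs (FIN5_.single hUPT hLOT hCAY hPOL (SL 2 p) C η ε hC d hd1 hB u1 u2 l1 s hcon.2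
      hcon.1)
  have hcount : Nat.card {s : Fin d → SL 2 p // ¬ MixOK η ε s} ≤
      badCard (SL 2 p) d B + Nat.card {s : Fin d → SL 2 p // ¬ Distinct s} := by
    rw [badCard, Nat.card_eq_fintype_card, Nat.card_eq_fintype_card, Nat.card_eq_fintype_card,
      Fintype.card_subtype, Fintype.card_subtype, Fintype.card_subtype]
    refine (card_le_card (t := (univ.filter fun s : Fin d → SL 2 p => ¬ QB s B) ∪
      (univ.filter fun s : Fin d → SL 2 p => ¬ Distinct s)) ?_).trans (card_union_le _ _)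
    intro s hs
    rw [mem_filter] at hs
    rw [mem_union, mem_filter, mem_filter]
    rcases hsub s hs.2 with h | h
    · exact Or.inl ⟨mem_univ _, h⟩
    · exact Or.inr ⟨mem_univ _, h⟩
  have htot : Nat.card {s : Fin d → SL 2 p // MixOK η ε s} +
      Nat.card {s : Fin d → SL 2 p // ¬ MixOK η ε s} = Fintype.card (SL 2 p) ^ d := by
    have h12 : Nat.card (Fin d → SL 2 p) = Fintype.card (SL 2 p) ^ d := by
      rw [Nat.card_eq_fintype_card, Fintype.card_fun, Fintype.card_fin]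
    rw [← h12, Nat.card_eq_fintype_card, Nat.card_eq_fintype_card,
      Nat.card_eq_fintype_card, Fintype.card_subtype_compl]
    have := Fintype.card_subtype_le (fun s : Fin d → SL 2 p => MixOK η ε s)
    omega
  have hbad1 : (badCard (SL 2 p) d B : ℝ) ≤ (p : ℝ)⁻¹ * (Fintype.card (SL 2 p) : ℝ) ^ d := by
    have := hP1 p hpp hpP1 d hd1
    rwa [Real.rpow_neg_one] at this
  have hbad2 : (Nat.card {s : Fin d → SL 2 p // ¬ Distinct s} : ℝ) ≤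
      (p : ℝ)⁻¹ * (Fintype.card (SL 2 p) : ℝ) ^ d := by
    have h1 : (Nat.card {s : Fin d → SL 2 p // ¬ Distinct s} : ℝ) *
        (Fintype.card (SL 2 p) : ℝ) ≤ 5 * (d : ℝ) ^ 2 * (Fintype.card (SL 2 p) : ℝ) ^ d := by
      exact_mod_cast hDST p d hp2 hd1
    have h2 : (5 : ℝ) * (d : ℝ) ^ 2 ≤ p := by exact_mod_cast hpd
    have h3 : 0 < (Fintype.card (SL 2 p) : ℝ) ^ d := by positivity
    have h4 : (Nat.card {s : Fin d → SL 2 p // ¬ Distinct s} : ℝ) *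
        (Fintype.card (SL 2 p) : ℝ) ≤ p * (Fintype.card (SL 2 p) : ℝ) ^ d :=
      h1.trans (mul_le_mul_of_nonneg_right h2 h3.le)
    have h5 : (Nat.card {s : Fin d → SL 2 p // ¬ Distinct s} : ℝ) * (p : ℝ) ^ 2 ≤
        p * (Fintype.card (SL 2 p) : ℝ) ^ d :=
      (mul_le_mul_of_nonneg_left hcardge' (by positivity)).trans h4
    have h6 : (Nat.card {s : Fin d → SL 2 p // ¬ Distinct s} : ℝ) * (p : ℝ) ≤
        (Fintype.card (SL 2 p) : ℝ) ^ d := by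
      have h7 : (Nat.card {s : Fin d → SL 2 p // ¬ Distinct s} : ℝ) * (p : ℝ) * p ≤
          (Fintype.card (SL 2 p) : ℝ) ^ d * p := by
        calc _ = (Nat.card {s : Fin d → SL 2 p // ¬ Distinct s} : ℝ) * (p : ℝ) ^ 2 := by ring
          _ ≤ _ := h5
          _ = _ := by ring
      exact le_of_mul_le_mul_right h7 hp0
    rw [inv_mul_eq_div, le_div_iff₀ hp0]
    exact h6
  have htwo : 2 * (p : ℝ)⁻¹ ≤ (p : ℝ) ^ (-(1 / 2) : ℝ) := by
    have h1 : (p : ℝ)⁻¹ = (p : ℝ) ^ (-(1 / 2) : ℝ) * (p : ℝ) ^ (-(1 / 2) : ℝ) := by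
      rw [← Real.rpow_add hp0, ← Real.rpow_neg_one]
      norm_num
    have h2 : (p : ℝ) ^ (-(1 / 2) : ℝ) ≤ 1 / 2 := by
      rw [Real.rpow_neg hp0.le, ← Real.sqrt_eq_rpow, ← one_div]
      apply one_div_le_one_div_of_le (by norm_num)
      rw [Real.le_sqrt (by norm_num) hp0.le]
      linarith
    have h3 : 0 < (p : ℝ) ^ (-(1 / 2) : ℝ) := Real.rpow_pos_of_pos hp0 _
    rw [h1]
    nlinarith
  have hcount' : (Nat.card {s : Fin d → SL 2 p // ¬ MixOK η ε s} : ℝ) ≤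
      (badCard (SL 2 p) d B : ℝ) + (Nat.card {s : Fin d → SL 2 p // ¬ Distinct s} : ℝ) := by
    exact_mod_cast hcount
  have htot' : (Nat.card {s : Fin d → SL 2 p // MixOK η ε s} : ℝ) +
      (Nat.card {s : Fin d → SL 2 p // ¬ MixOK η ε s} : ℝ) =
      (Fintype.card (SL 2 p) : ℝ) ^ d := by exact_mod_cast htot
  have h3 : 0 < (Fintype.card (SL 2 p) : ℝ) ^ d := by positivity
  nlinarith

end Pool.Agent.RCG
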