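import Pool.Agent.RCG.Targets7

set_option autoImplicit false

/-! # RCG, GIR: union bound over the words -/

namespace Pool.Agent.RCG

open Finset Matrix

theorem prove_GIR (h : T_TR2) : T_GIR := by
  classical
  intro p _ d n hd
  have hp : (0 : ℝ) < p := by exact_mod_cast (Fact.out : p.Prime).pos
  set X : ℝ := 4 * n * (Fintype.card (SL 2 p) : ℝ) ^ d with hX
  have hX0 : 0 ≤ X := by positivity
  let A : (Fin n → Ltr d) → ZMod p → Finset (Fin d → SL 2 p) := fun w t =>
    univ.filter fun y => (ev y w).1 0 0 + (ev y w).1 1 1 = t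
  have hA : ∀ w t, FreeGroup.mk (List.ofFn w) ≠ 1 → (p : ℝ) * (A w t).card ≤ X := by
    intro w t hw
    have h1 := h p d n w t hd hw
    rw [Nat.card_eq_fintype_card, Fintype.card_subtype] at h1
    exact h1
  have hsub : (univ.filter fun y : Fin d → SL 2 p => Rel n y) ⊆
      (univ.filter fun w : Fin n → Ltr d => FreeGroup.mk (List.ofFn w) ≠ 1).biUnion
        (fun w => A w 2 ∪ A w (-2)) := by
    intro y hy
    obtain ⟨w, hw, hv⟩ := (mem_filter.mp hy).2
    rw [mem_biUnion]
    refine ⟨w, by simp [hw], ?_⟩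
    rw [mem_union]
    rcases hv with hv | hv
    · left
      simp only [A, mem_filter, mem_univ, true_and]
      rw [hv]
      simp [one_add_one_eq_two]
    · right
      simp only [A, mem_filter, mem_univ, true_and]
      rw [hv]
      simp only [Matrix.neg_apply, Matrix.one_apply_eq]
      ring
  have hcard : ((univ.filter fun y : Fin d → SL 2 p => Rel n y).card : ℝ) ≤
      ∑ w ∈ univ.filter (fun w : Fin n → Ltr d => FreeGroup.mk (List.ofFn w) ≠ 1),
        (((A w 2).card : ℝ) + (A w (-2)).card) := by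
    have h1 := (card_le_card hsub).trans card_biUnion_le
    have h2 : ((univ.filter fun y : Fin d → SL 2 p => Rel n y).card : ℝ) ≤
        ((∑ w ∈ univ.filter (fun w : Fin n → Ltr d => FreeGroup.mk (List.ofFn w) ≠ 1),
          (A w 2 ∪ A w (-2)).card : ℕ) : ℝ) := by exact_mod_cast h1
    refine h2.trans ?_
    push_cast
    refine sum_le_sum fun w _ => ?_
    exact_mod_cast card_union_le (A w 2) (A w (-2))
  rw [Nat.card_eq_fintype_card, Fintype.card_subtype]
  calc (p : ℝ) * ((univ.filter fun y : Fin d → SL 2 p => Rel n y).card : ℝ)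
      ≤ p * ∑ w ∈ univ.filter (fun w : Fin n → Ltr d => FreeGroup.mk (List.ofFn w) ≠ 1),
        (((A w 2).card : ℝ) + (A w (-2)).card) := mul_le_mul_of_nonneg_left hcard hp.le
    _ = ∑ w ∈ univ.filter (fun w : Fin n → Ltr d => FreeGroup.mk (List.ofFn w) ≠ 1),
        ((p : ℝ) * (A w 2).card + p * (A w (-2)).card) := by
        rw [mul_sum]
        exact sum_congr rfl fun w _ => by ring
    _ ≤ ∑ w ∈ univ.filter (fun w : Fin n → Ltr d => FreeGroup.mk (List.ofFn w) ≠ 1), (X + X) :=
        sum_le_sum fun w hw => add_le_add (hA w 2 (mem_filter.mp hw).2)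
          (hA w (-2) (mem_filter.mp hw).2)
    _ ≤ ∑ w : Fin n → Ltr d, (X + X) :=
        sum_le_sum_of_subset_of_nonneg (filter_subset _ _) fun _ _ _ => by positivity
    _ = 8 * n * (2 * (d : ℝ)) ^ n * (Fintype.card (SL 2 p) : ℝ) ^ d := by
        rw [sum_const, card_univ, nsmul_eq_mul, hX]
        simp only [Fintype.card_fun, Fintype.card_prod, Fintype.card_fin, Fintype.card_bool]
        push_cast
        ring

end Pool.Agent.RCG
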