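import Pool.Agent.RCG.Targets4

set_option autoImplicit false

/-!
# RCG, target GEN: strong induction with the binary expansion
-/

namespace Pool.Agent.RCG

namespace GEN_

theorem sqrt_add (x y : ℝ) (hy : 0 ≤ y) (hyx : y ≤ x) : √x + 4 * √y ≤ 4 * √(x + y) := by
  have hx : 0 ≤ x := hy.trans hyx
  have h1 : √y ≤ √x := Real.sqrt_le_sqrt hyx
  have h2 : √x * √x = x := Real.mul_self_sqrt hx
  have h3 : √y * √y = y := Real.mul_self_sqrt hy
  have h4 : √(x + y) * √(x + y) = x + y := Real.mul_self_sqrt (by linarith)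
  have h5 : 0 ≤ √(x + y) := Real.sqrt_nonneg _
  have h6 : 0 ≤ √x := Real.sqrt_nonneg _
  have h7 : 0 ≤ √y := Real.sqrt_nonneg _
  have h8 : √x * √y ≤ √x * √x := mul_le_mul_of_nonneg_left h1 h6
  refine abs_le_of_sq_le_sq' ?_ (by positivity) |>.2
  nlinarith

theorem step (β : ℝ) (hβ : 0 ≤ β) (a r : ℕ) (hr : 1 ≤ r) (hra : r ≤ a) :
    β * √(2 * (a : ℝ) * Real.log (2 * (a : ℝ))) +
      4 * β * √(2 * (r : ℝ) * Real.log (2 * (r : ℝ))) ≤
    4 * β * √(2 * ((a + r : ℕ) : ℝ) * Real.log (2 * ((a + r : ℕ) : ℝ))) := by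
  have hr1 : (1 : ℝ) ≤ r := by exact_mod_cast hr
  have hra1 : (r : ℝ) ≤ a := by exact_mod_cast hra
  have hc : ((a + r : ℕ) : ℝ) = a + r := by push_cast; ring
  rw [hc]
  set L : ℝ := Real.log (2 * ((a : ℝ) + r)) with hL
  have hLa : Real.log (2 * (a : ℝ)) ≤ L :=
    Real.log_le_log (by linarith) (by linarith)
  have hLr : Real.log (2 * (r : ℝ)) ≤ L :=
    Real.log_le_log (by linarith) (by linarith)
  have hL0 : 0 ≤ L := Real.log_nonneg (by linarith)
  have e1 : √(2 * (a : ℝ) * Real.log (2 * (a : ℝ))) ≤ √(2 * (a : ℝ) * L) :=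
    Real.sqrt_le_sqrt (mul_le_mul_of_nonneg_left hLa (by linarith))
  have e2 : √(2 * (r : ℝ) * Real.log (2 * (r : ℝ))) ≤ √(2 * (r : ℝ) * L) :=
    Real.sqrt_le_sqrt (mul_le_mul_of_nonneg_left hLr (by linarith))
  have e3 := sqrt_add (2 * (a : ℝ) * L) (2 * (r : ℝ) * L) (by positivity)
    (mul_le_mul_of_nonneg_right (by linarith) hL0)
  have e4 : 2 * (a : ℝ) * L + 2 * (r : ℝ) * L = 2 * ((a : ℝ) + r) * L := by ring
  rw [e4] at e3
  have e5 : √(2 * (a : ℝ) * Real.log (2 * (a : ℝ))) +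
      4 * √(2 * (r : ℝ) * Real.log (2 * (r : ℝ))) ≤ 4 * √(2 * ((a : ℝ) + r) * L) := by
    linarith
  have e6 := mul_le_mul_of_nonneg_left e5 hβ
  linarith

end GEN_

/-- GEN. -/
theorem prove_GEN : T_GEN := by
  intro Gd β hβ hmono hadd hpow d
  induction d using Nat.strong_induction_on with
  | _ d ih =>
    intro hd
    have h1 : 2 ^ Nat.log 2 d ≤ d := Nat.pow_log_le_self 2 (by omega)
    have h2 : d < 2 ^ (Nat.log 2 d + 1) := Nat.lt_pow_succ_log_self (by norm_num) d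
    generalize Nat.log 2 d = j at h1 h2
    obtain ⟨r, rfl⟩ := Nat.exists_eq_add_of_le h1
    rw [pow_succ] at h2
    rcases Nat.eq_zero_or_pos r with h0 | h0
    · subst h0
      refine hmono _ _ _ ?_ (hpow j)
      rw [Nat.add_zero]
      have := mul_nonneg hβ (Real.sqrt_nonneg
        (2 * ((2 ^ j : ℕ) : ℝ) * Real.log (2 * ((2 ^ j : ℕ) : ℝ))))
      linarith
    · have h3 := ih r (by omega) h0
      exact hmono _ _ _ (GEN_.step β hβ (2 ^ j) r h0 (by omega)) (hadd _ _ _ _ (hpow j) h3)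

end Pool.Agent.RCG
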