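import Pool.Agent.RCG.Targets6
import Pool.Agent.RCG.GEN

set_option autoImplicit false

/-!
# RCG, target GNU: strong induction with the binary expansion, with errors
-/

namespace Pool.Agent.RCG

namespace GNU_

theorem log_mono {L0 : ℝ} {a b : ℕ} (ha : 1 ≤ a) (hab : a ≤ b)
    (h : 18 * Real.log (2 * (b : ℝ)) ≤ L0) : 18 * Real.log (2 * (a : ℝ)) ≤ L0 := by
  have ha1 : (1 : ℝ) ≤ a := by exact_mod_cast ha
  have hab1 : (a : ℝ) ≤ b := by exact_mod_cast hab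
  have h1 : Real.log (2 * (a : ℝ)) ≤ Real.log (2 * (b : ℝ)) :=
    Real.log_le_log (by linarith) (by linarith)
  linarith

end GNU_

/-- GNU. -/
theorem prove_GNU : T_GNU := by
  intro b β δ L0 hβ hδ hmono hadd hpow d
  induction d using Nat.strong_induction_on with
  | _ d ih =>
    intro hd hL
    have h1 : 2 ^ Nat.log 2 d ≤ d := Nat.pow_log_le_self 2 (by omega)
    have h2 : d < 2 ^ (Nat.log 2 d + 1) := Nat.lt_pow_succ_log_self (by norm_num) d
    generalize Nat.log 2 d = j at h1 h2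
    have h2j : 1 ≤ 2 ^ j := Nat.one_le_two_pow
    obtain ⟨r, rfl⟩ := Nat.exists_eq_add_of_le h1
    rw [pow_succ] at h2
    have hpj := hpow j (GNU_.log_mono h2j h1 hL)
    have hj1 : (1 : ℝ) ≤ ((2 ^ j : ℕ) : ℝ) := by exact_mod_cast h2j
    rcases Nat.eq_zero_or_pos r with h0 | h0
    · subst h0
      rw [Nat.add_zero]
      have h4 := mul_nonneg hβ (Real.sqrt_nonneg
        (2 * ((2 ^ j : ℕ) : ℝ) * Real.log (2 * ((2 ^ j : ℕ) : ℝ))))
      have h5 := hmono (2 ^ j)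
        (β * √(2 * ((2 ^ j : ℕ) : ℝ) * Real.log (2 * ((2 ^ j : ℕ) : ℝ))))
        (4 * β * √(2 * ((2 ^ j : ℕ) : ℝ) * Real.log (2 * ((2 ^ j : ℕ) : ℝ)))) (by linarith)
      have h6 : δ ≤ ((2 ^ j : ℕ) : ℝ) * δ := by nlinarith
      linarith
    · have h3 := ih r (by omega) h0 (GNU_.log_mono h0 (by omega) hL)
      have h4 := GEN_.step β hβ (2 ^ j) r h0 (by omega)
      have h5 := hmono (2 ^ j + r) _ _ h4
      have h6 := hadd (2 ^ j) r
        (β * √(2 * ((2 ^ j : ℕ) : ℝ) * Real.log (2 * ((2 ^ j : ℕ) : ℝ))))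
        (4 * β * √(2 * (r : ℝ) * Real.log (2 * (r : ℝ))))
      have h7 : (((2 ^ j + r : ℕ)) : ℝ) * δ = ((2 ^ j : ℕ) : ℝ) * δ + (r : ℝ) * δ := by
        push_cast; ring
      have h8 : δ ≤ ((2 ^ j : ℕ) : ℝ) * δ := by nlinarith
      rw [h7]
      linarith

end Pool.Agent.RCG
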