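import Pool.Agent.RCG.Targets6

set_option autoImplicit false

/-! RCG5-GPU: combination with Markov. -/

namespace Pool.Agent.RCG

open Finset Matrix

namespace GPU_

theorem least_pow (c : ℝ) (hc : 1 < c) (j : ℕ) (hj : c ≤ 2 ^ j) :
    ∃ i : ℕ, i ≤ j ∧ c ≤ 2 ^ i ∧ (2 : ℝ) ^ i ≤ 2 * c := by
  classical
  have hex : ∃ i : ℕ, c ≤ 2 ^ i := ⟨j, hj⟩
  refine ⟨Nat.find hex, Nat.find_min' hex hj, Nat.find_spec hex, ?_⟩
  obtain ⟨i, hi⟩ : ∃ i, Nat.find hex = i := ⟨_, rfl⟩
  rw [hi]
  have hs : c ≤ 2 ^ i := hi ▸ Nat.find_spec hex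
  cases i with
  | zero =>
    norm_num at hs
    linarith
  | succ i =>
    have h1 : ¬ c ≤ 2 ^ i := Nat.find_min hex (by omega)
    rw [pow_succ]
    linarith [not_le.1 h1]

end GPU_

theorem prove_GPU (h1 : T_LPW) (h2 : T_SBI) (h3 : T_MRK) (h4 : T_ELEU) : T_GPU := by
  intro G _ _ q N m hA hq hm hcard j hj
  obtain ⟨e1, e2, -⟩ := h4 G
  have hD1 : (1 : ℝ) ≤ ((2 ^ j : ℕ) : ℝ) := by exact_mod_cast Nat.one_le_two_pow
  set D : ℝ := ((2 ^ j : ℕ) : ℝ) with hD
  have hDj : D = 2 ^ j := by rw [hD]; push_cast; rfl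
  set k : ℝ := 2 * D with hk
  have hk2 : 2 ≤ k := by linarith
  have hk0 : 0 < k := by linarith
  set lam : ℝ := Real.log k with hlam
  have hl2 : Real.log 2 ≤ lam := Real.log_le_log (by norm_num) hk2
  have hlog2 : 0.6931471803 < Real.log 2 := Real.log_two_gt_d9
  have hlog2' : Real.log 2 < 0.6931471808 := Real.log_two_lt_d9
  have hlp : 0 < lam := by linarith
  have hL : 0 < Real.log q := Real.log_pos hq
  have hq0 : 0 < q := by linarith
  have hsm : √m * √(k * lam) = √(m * (k * lam)) := (Real.sqrt_mul (by linarith) _).symm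
  have hRHS : 0 ≤ 2 * q ^ (N - m) * (Fintype.card G : ℝ) ^ (2 ^ j) := by positivity
  by_cases hcase : D < 8 * m * lam / Real.log 2
  · have h5 : 2 * ((2 ^ j : ℕ) : ℝ) ≤ 77 * √m * √(k * lam) := by
      rw [← hD, ← hk, mul_assoc, hsm]
      have h6 : k ≤ 24 * (m * lam) := by
        rw [lt_div_iff₀ (by linarith)] at hcase
        have h7 : 0 < m * lam := by positivity
        have h8 : k * Real.log 2 < 16 * (m * lam) := by
          rw [hk]
          linarith
        nlinarith
      have h7 : k ≤ √(24 * (m * (k * lam))) := by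
        apply Real.le_sqrt_of_sq_le
        calc k ^ 2 = k * k := by ring
          _ ≤ k * (24 * (m * lam)) := mul_le_mul_of_nonneg_left h6 hk0.le
          _ = _ := by ring
      have h8 : √(24 * (m * (k * lam))) ≤ 77 * √(m * (k * lam)) := by
        have h9 : 0 ≤ m * (k * lam) := by positivity
        rw [Real.sqrt_mul (by norm_num)]
        refine mul_le_mul_of_nonneg_right ?_ (Real.sqrt_nonneg _)
        rw [Real.sqrt_le_left (by norm_num)]
        norm_num
      linarith
    have h6 := e1 (2 ^ j) _ _ h5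
    have h7 := e2 (2 ^ j)
    have h8 : badCard G (2 ^ j) (77 * √m * √(k * lam)) = 0 := by
      apply Nat.eq_zero_of_le_zero
      rw [← h7]
      exact h6
    rw [h8]
    simpa using hRHS
  · have hcase' : 8 * m * lam / Real.log 2 ≤ D := not_lt.1 hcase
    have hc1 : 1 < 8 * m * lam / Real.log 2 := by
      rw [lt_div_iff₀ (by linarith)]
      nlinarith
    rw [hDj] at hcase'
    obtain ⟨i, hij, hi1, hi2⟩ := GPU_.least_pow _ hc1 j hcase'
    set s : ℝ := 2 ^ i with hs
    have hs0 : 0 < s := by positivity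
    obtain ⟨d', hd'⟩ : ∃ d' : ℕ, d' = 2 ^ (j - i) := ⟨_, rfl⟩
    have hd'1 : (1 : ℝ) ≤ (d' : ℝ) := by
      rw [hd']
      exact_mod_cast Nat.one_le_two_pow
    have hmul : 2 ^ i * d' = 2 ^ j := by
      rw [hd', ← pow_add]
      congr 1
      omega
    have hmulR : s * (d' : ℝ) = D := by
      rw [hDj, hs]
      exact_mod_cast hmul
    have hks : s * (2 * (d' : ℝ)) = k := by
      rw [hk, ← hmulR]
      ring
    have hs1 : 1 ≤ s := by
      rw [hs]
      exact one_le_pow₀ (by norm_num)
    have hdk : 2 * (d' : ℝ) ≤ k := by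
      rw [← hks]
      nlinarith
    have hld : Real.log (2 * (d' : ℝ)) ≤ lam := Real.log_le_log (by linarith) hdk
    have hld0 : 0 < Real.log (2 * (d' : ℝ)) := Real.log_pos (by linarith)
    have hLin := h1 G q hA hq (j - i) (by
      rw [← hd']
      linarith)
    rw [← hd'] at hLin
    have hsq : √k = √s * √(2 * (d' : ℝ)) := by
      rw [← hks, Real.sqrt_mul hs0.le]
    have hsp : 0 < √s := Real.sqrt_pos.2 hs0
    have hdp : 0 < √(2 * (d' : ℝ)) := Real.sqrt_pos.2 (by linarith)
    have hss : √s * √s = s := Real.mul_self_sqrt hs0.le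
    obtain ⟨t, ht⟩ : ∃ t : ℝ, t = Real.log 2 / 64 * Real.log q / (√(2 * (d' : ℝ)) * lam) :=
      ⟨_, rfl⟩
    have ht0 : 0 ≤ t := by
      rw [ht]
      have : 0 < Real.log 2 := by linarith
      positivity
    have htt : t ≤ tt d' (Real.log q) := by
      rw [ht]
      unfold tt
      have h0 : 0 < Real.log 2 := by linarith
      apply div_le_div_of_nonneg_left (by positivity) (by positivity)
      exact mul_le_mul_of_nonneg_left hld hdp.le
    have key : ∀ σ : ℝ, (σ = 1 ∨ σ = -1) →
        EB G (2 ^ j) (σ * t) (Real.exp (t * (8 * √(2 * (d' : ℝ)))) ^ (2 ^ i)) := by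
      intro σ hσ
      have h5 := h2 G d' i (σ * t) _ (Real.exp_pos _).le (hLin σ hσ t ht0 htt)
      rwa [hmul] at h5
    have h5 := h3 G (2 ^ j) t (77 * √m * √(k * lam)) _ ht0
      (pow_nonneg (Real.exp_pos _).le _) (key 1 (Or.inl rfl)) (key (-1) (Or.inr rfl))
    refine h5.trans ?_
    have hexp : Real.exp (t * (8 * √(2 * (d' : ℝ)))) ^ (2 ^ i) *
        Real.exp (-(t * (77 * √m * √(k * lam)))) ≤ q ^ (-m) := by
      rw [← Real.exp_nat_mul, ← Real.exp_add, Real.rpow_def_of_pos hq0]
      rw [Real.exp_le_exp]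
      have hcast : ((2 ^ i : ℕ) : ℝ) = s := by
        rw [hs]
        push_cast
        rfl
      rw [hcast]
      have hB : 16 * √s * √k ≤ 77 * √m * √(k * lam) := by
        rw [mul_assoc, mul_assoc, hsm, ← Real.sqrt_mul hs0.le]
        have h6 : s ≤ (77 / 16) ^ 2 * (m * lam) := by
          have h7 : 0 < m * lam := by positivity
          have h8 : s ≤ 16 * (m * lam) / Real.log 2 := by
            calc s ≤ 2 * (8 * m * lam / Real.log 2) := hi2
              _ = _ := by ring
          rw [le_div_iff₀ (by linarith)] at h8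
          nlinarith
        have h7 : √(s * k) ≤ √((77 / 16) ^ 2 * (m * (k * lam))) := by
          apply Real.sqrt_le_sqrt
          calc s * k ≤ ((77 / 16) ^ 2 * (m * lam)) * k :=
                mul_le_mul_of_nonneg_right h6 hk0.le
            _ = _ := by ring
        have h8 : √((77 / 16) ^ 2 * (m * (k * lam))) = 77 / 16 * √(m * (k * lam)) := by
          rw [Real.sqrt_mul (by positivity), Real.sqrt_sq (by norm_num)]
        rw [h8] at h7
        linarith
      have hsk : s * (t * (8 * √(2 * (d' : ℝ)))) = t * (8 * √s * √k) := by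
        rw [hsq]
        calc s * (t * (8 * √(2 * (d' : ℝ)))) = (√s * √s) * (t * (8 * √(2 * (d' : ℝ)))) := by
              rw [hss]
          _ = _ := by ring
      have htk : t * (8 * √s * √k) = Real.log 2 / 8 * s * Real.log q / lam := by
        rw [ht, hsq]
        field_simp
        rw [show √s ^ 2 = s from Real.sq_sqrt hs0.le]
        ring
      have hml : m * Real.log q ≤ Real.log 2 / 8 * s * Real.log q / lam := by
        rw [le_div_iff₀ hlp]
        have h6 : 8 * m * lam ≤ s * Real.log 2 := by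
          rwa [div_le_iff₀ (by linarith)] at hi1
        nlinarith
      have h9 : t * (16 * √s * √k) ≤ t * (77 * √m * √(k * lam)) :=
        mul_le_mul_of_nonneg_left hB ht0
      have h10 : t * (16 * √s * √k) = 2 * (t * (8 * √s * √k)) := by ring
      rw [hsk]
      linarith
    have hG0 : 0 ≤ (Fintype.card G : ℝ) := by positivity
    have hGp : 0 ≤ (Fintype.card G : ℝ) ^ (2 ^ j) := by positivity
    have hfin : 2 * (Fintype.card G : ℝ) * Real.exp (t * (8 * √(2 * (d' : ℝ)))) ^ (2 ^ i) *
        Real.exp (-(t * (77 * √m * √(k * lam)))) ≤ 2 * q ^ (N - m) := by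
      have e3 : q ^ (N - m) = q ^ N * q ^ (-m) := by
        rw [← Real.rpow_add hq0]
        congr 1
      rw [e3]
      calc 2 * (Fintype.card G : ℝ) * Real.exp (t * (8 * √(2 * (d' : ℝ)))) ^ (2 ^ i) *
          Real.exp (-(t * (77 * √m * √(k * lam)))) =
          2 * ((Fintype.card G : ℝ) * (Real.exp (t * (8 * √(2 * (d' : ℝ)))) ^ (2 ^ i) *
          Real.exp (-(t * (77 * √m * √(k * lam)))))) := by ring
        _ ≤ 2 * (q ^ N * q ^ (-m)) := by
          refine mul_le_mul_of_nonneg_left ?_ (by norm_num)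
          exact mul_le_mul hcard hexp (by positivity) (by positivity)
    exact mul_le_mul_of_nonneg_right hfin hGp

end Pool.Agent.RCG
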