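import Pool.Agent.RCG.GSM
import Pool.Agent.RCG.Targets6

set_option autoImplicit false

/-!
# RCG: GSU, the sum of two blocks of generators, one group
-/

namespace Pool.Agent.RCG

theorem prove_GSU : T_GSU := by
  intro G _ _ d d' B B'
  have h := GSM_.bad_append (G := G) d d' B B'
  rwa [mul_comm (Fintype.card G ^ d) (badCard G d' B')] at h

end Pool.Agent.RCG
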