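import Pool.Agent.RCG.Targets4
import Pool.Agent.RCG.AWS

set_option autoImplicit false

/-!
# RCG, GTP: Golden-Thompson on an invariant subspace
-/

namespace Pool.Agent.RCG

open Finset Matrix

namespace GTP_

variable {ι : Type} [Fintype ι] [DecidableEq ι]

lemma exp_shift (A Q : Matrix ι ι ℝ) (hQ : Q * Q = Q) (hA : A * Q = Q * A) (l : ℝ) :
    NormedSpace.exp (A + l • (1 - Q)) =
      NormedSpace.exp A * (1 + (Real.exp l - 1) • (1 - Q)) := by
  have hP : (1 - Q) * (1 - Q) = 1 - Q := by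
    simp only [Matrix.mul_sub, Matrix.sub_mul, Matrix.mul_one, Matrix.one_mul, hQ]
    abel
  have hc : Commute A (l • (1 - Q)) := by
    apply Commute.smul_right
    show A * (1 - Q) = (1 - Q) * A
    rw [Matrix.mul_sub, Matrix.sub_mul, Matrix.mul_one, Matrix.one_mul, hA]
  rw [Matrix.exp_add_of_commute _ _ hc, AWS_.exp_proj (1 - Q) hP l]

lemma herm_shift (A Q : Matrix ι ι ℝ) (hA : A.IsHermitian) (hQ : Q.IsHermitian) (l : ℝ) :
    (A + l • (1 - Q)).IsHermitian := by
  unfold Matrix.IsHermitian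
  rw [Matrix.conjTranspose_add, Matrix.conjTranspose_smul, Matrix.conjTranspose_sub,
    Matrix.conjTranspose_one, hA.eq, hQ.eq]
  simp

lemma exp_comm (A Q : Matrix ι ι ℝ) (h : A * Q = Q * A) :
    NormedSpace.exp A * Q = Q * NormedSpace.exp A := by
  let _ : NormedRing (Matrix ι ι ℝ) := Matrix.linftyOpNormedRing
  let _ : NormedAlgebra ℝ (Matrix ι ι ℝ) := Matrix.linftyOpNormedAlgebra
  have h1 : Commute A Q := h
  exact (h1.exp_left).eq

end GTP_

open GTP_ in
theorem prove_GTP (h : T_GT) : T_GTP := by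
  intro ι _ _ A B Q hA hB hQ hQQ hAQ hBQ
  set X := NormedSpace.exp (A + B) with hX
  set EA := NormedSpace.exp A with hEA
  set EB := NormedSpace.exp B with hEB
  have hABQ : (A + B) * Q = Q * (A + B) := by
    rw [Matrix.add_mul, Matrix.mul_add, hAQ, hBQ]
  have key : ∀ l : ℝ, (X * (1 + (Real.exp l ^ 2 - 1) • (1 - Q))).trace ≤
      ((EA * (1 + (Real.exp l - 1) • (1 - Q))) * (EB * (1 + (Real.exp l - 1) • (1 - Q)))).trace := by
    intro l
    have h1 := h ι (A + l • (1 - Q)) (B + l • (1 - Q)) (herm_shift A Q hA hQ l)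
      (herm_shift B Q hB hQ l)
    have h2 : A + l • (1 - Q) + (B + l • (1 - Q)) = (A + B) + (2 * l) • (1 - Q) := by
      rw [two_mul, add_smul]
      abel
    have h3 : Real.exp (2 * l) = Real.exp l ^ 2 := by
      rw [two_mul, Real.exp_add, sq]
    rw [h2, exp_shift (A + B) Q hQQ hABQ, exp_shift A Q hQQ hAQ, exp_shift B Q hQQ hBQ, h3] at h1
    exact h1
  have hlim : Filter.Tendsto (fun n : ℕ => Real.exp (-(n : ℝ))) Filter.atTop (nhds 0) :=
    Real.tendsto_exp_neg_atTop_nhds_zero.comp tendsto_natCast_atTop_atTop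
  have hF : Continuous fun e : ℝ => (X * (1 + (e ^ 2 - 1) • (1 - Q))).trace := by
    fun_prop
  have hG : Continuous fun e : ℝ =>
      ((EA * (1 + (e - 1) • (1 - Q))) * (EB * (1 + (e - 1) • (1 - Q)))).trace := by
    fun_prop
  have h0 := le_of_tendsto_of_tendsto' ((hF.tendsto 0).comp hlim) ((hG.tendsto 0).comp hlim)
    (fun n => key (-(n : ℝ)))
  have hq : (1 : Matrix ι ι ℝ) + ((0 : ℝ) - 1) • (1 - Q) = Q := by
    rw [zero_sub, neg_smul, one_smul]
    abel
  have hq2 : (1 : Matrix ι ι ℝ) + ((0 : ℝ) ^ 2 - 1) • (1 - Q) = Q := by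
    rw [zero_pow two_ne_zero]
    exact hq
  rw [hq, hq2] at h0
  have hb : EB * Q = Q * EB := exp_comm B Q hBQ
  have ha : EA * Q = Q * EA := exp_comm A Q hAQ
  have e1 : (X * Q).trace = (Q * X).trace := Matrix.trace_mul_comm _ _
  have e2 : (EA * Q * (EB * Q)) = Q * (EA * EB) * Q := by
    rw [ha, ← Matrix.mul_assoc, ← Matrix.mul_assoc]
  have e3 : (Q * (EA * EB) * Q).trace = (Q * (EA * EB)).trace := by
    rw [Matrix.trace_mul_comm, ← Matrix.mul_assoc, hQQ]
  rw [e1, e2, e3] at h0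
  exact h0

end Pool.Agent.RCG
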