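import Pool.Agent.RCG.Targets

/-!
# RCG: quasirandom mixing from the dimension bound
-/

set_option autoImplicit false

namespace Pool.Agent.RCG

open Finset

namespace MIX_

variable {G : Type} [Group G] [Fintype G]

/-- complex functions with the Euclidean norm -/
abbrev E (G : Type) [Fintype G] : Type := EuclideanSpace ℂ G

theorem inner_eq (a b : E G) : inner ℂ a b = ∑ x, (starRingEnd ℂ (a x)) * b x := by
  rw [PiLp.inner_apply]
  refine Finset.sum_congr rfl fun x _ => ?_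
  rw [RCLike.inner_apply, mul_comm]

/-- the operator -/
noncomputable def M (K : G → ℝ) : E G →ₗ[ℂ] E G where
  toFun v := WithLp.toLp 2 (fun x => ∑ h, (K h : ℂ) * v (x * h) -
    (∑ h, (K h : ℂ)) * ((Fintype.card G : ℂ)⁻¹ * ∑ y, v y))
  map_add' a b := by
    ext x
    simp only [PiLp.add_apply, mul_add, Finset.sum_add_distrib]
    ring
  map_smul' c a := by
    ext x
    simp only [PiLp.smul_apply, smul_eq_mul, RingHom.id_apply, ← Finset.mul_sum]
    have h1 : ∑ h, (K h : ℂ) * (c * a (x * h)) = c * ∑ h, (K h : ℂ) * a (x * h) := by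
      rw [Finset.mul_sum]
      exact Finset.sum_congr rfl fun h _ => by ring
    rw [h1]
    ring

theorem M_apply (K : G → ℝ) (v : E G) (x : G) : M K v x = ∑ h, (K h : ℂ) * v (x * h) -
    (∑ h, (K h : ℂ)) * ((Fintype.card G : ℂ)⁻¹ * ∑ y, v y) := rfl

theorem M_apply0 (K : G → ℝ) (v : E G) (hv : ∑ y, v y = 0) (x : G) :
    M K v x = ∑ h, (K h : ℂ) * v (x * h) := by
  rw [M_apply, hv]
  ring

/-- left translation -/
noncomputable def U (g : G) : E G →ₗ[ℂ] E G where
  toFun v := WithLp.toLp 2 (fun x => v (g * x))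
  map_add' a b := by
    ext x
    simp
  map_smul' c a := by
    ext x
    simp

theorem U_apply (g : G) (v : E G) (x : G) : U g v x = v (g * x) := rfl

theorem U_inner (g : G) (a b : E G) : inner ℂ (U g a) b = inner ℂ a (U g⁻¹ b) := by
  rw [inner_eq, inner_eq]
  refine Fintype.sum_equiv (Equiv.mulLeft g) _ _ fun x => ?_
  rw [U_apply, U_apply, Equiv.coe_mulLeft, inv_mul_cancel_left]

theorem comm (K : G → ℝ) (g : G) (v : E G) : M K (U g v) = U g (M K v) := by
  ext x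
  rw [U_apply, M_apply, M_apply]
  have h1 : ∑ y, U g v y = ∑ y, v y := by
    refine Fintype.sum_equiv (Equiv.mulLeft g) _ _ fun x => ?_
    rw [U_apply, Equiv.coe_mulLeft]
  rw [h1]
  congr 1
  refine Finset.sum_congr rfl fun h _ => ?_
  rw [U_apply, mul_assoc]

/-- the Gram operator -/
noncomputable def T (K : G → ℝ) : E G →ₗ[ℂ] E G := LinearMap.adjoint (M K) ∘ₗ M K

theorem inner_T (K : G → ℝ) (a b : E G) : inner ℂ a (T K b) = inner ℂ (M K a) (M K b) := by
  unfold T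
  rw [LinearMap.comp_apply, LinearMap.adjoint_inner_right]

theorem commT (K : G → ℝ) (g : G) (v : E G) : T K (U g v) = U g (T K v) := by
  refine ext_inner_left ℂ fun w => ?_
  have h1 : ∀ a b : E G, inner ℂ a (U g b) = inner ℂ (U g⁻¹ a) b := by
    intro a b
    rw [U_inner, inv_inv]
  rw [inner_T, comm, h1, ← comm, ← inner_T, h1]

theorem key1 (K : G → ℝ) (Lam : ℝ) (hT : (T K).IsSymmetric)
    (hL : ∀ i, hT.eigenvalues rfl i ≤ Lam) (v : E G) : ‖M K v‖ ^ 2 ≤ Lam * ‖v‖ ^ 2 := by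
  set b := hT.eigenvectorBasis rfl with hb
  have h1 : ((‖M K v‖ ^ 2 : ℝ) : ℂ) = inner ℂ v (T K v) := by
    rw [inner_T, inner_self_eq_norm_sq_to_K]
    norm_cast
  have h2 : inner ℂ v (T K v) = ((∑ i, hT.eigenvalues rfl i * ‖b.repr v i‖ ^ 2 : ℝ) : ℂ) := by
    rw [← b.repr.inner_map_map, PiLp.inner_apply]
    push_cast
    refine Finset.sum_congr rfl fun i _ => ?_
    rw [hT.eigenvectorBasis_apply_self_apply, RCLike.inner_apply, ← hb, mul_assoc,
      RCLike.mul_conj]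
    norm_cast
  have h3 : ‖M K v‖ ^ 2 = ∑ i, hT.eigenvalues rfl i * ‖b.repr v i‖ ^ 2 := by
    rw [h2] at h1
    exact_mod_cast h1
  have h4 : ‖v‖ ^ 2 = ∑ i, ‖b.repr v i‖ ^ 2 := by
    rw [← b.repr.norm_map v, EuclideanSpace.norm_sq_eq]
  rw [h3, h4, Finset.mul_sum]
  exact Finset.sum_le_sum fun i _ => mul_le_mul_of_nonneg_right (hL i) (by positivity)

/-- the row of the operator -/
noncomputable def row (K : G → ℝ) (x : G) : E G := WithLp.toLp 2 (fun y => (K (x⁻¹ * y) : ℂ))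

theorem row_inner (K : G → ℝ) (x : G) (v : E G) (hv : ∑ y, v y = 0) :
    inner ℂ (row K x) v = M K v x := by
  rw [M_apply0 K v hv, inner_eq]
  symm
  refine Fintype.sum_equiv (Equiv.mulLeft x) _ _ fun h => ?_
  rw [Equiv.coe_mulLeft]
  change _ = starRingEnd ℂ ((K (x⁻¹ * (x * h)) : ℝ) : ℂ) * _
  rw [inv_mul_cancel_left, Complex.conj_ofReal]

theorem row_norm (K : G → ℝ) (x : G) : ‖row K x‖ ^ 2 = ∑ h, K h ^ 2 := by
  rw [EuclideanSpace.norm_sq_eq]
  symm
  refine Fintype.sum_equiv (Equiv.mulLeft x) _ _ fun h => ?_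
  rw [Equiv.coe_mulLeft]
  change _ = ‖((K (x⁻¹ * (x * h)) : ℝ) : ℂ)‖ ^ 2
  rw [inv_mul_cancel_left, Complex.norm_real, Real.norm_eq_abs, sq_abs]

/-- Bessel -/
theorem bessel (K : G → ℝ) {ι : Type} [Fintype ι] (u : ι → E G) (hu : Orthonormal ℂ u)
    (h0 : ∀ i, ∑ y, u i y = 0) :
    ∑ i, ‖M K (u i)‖ ^ 2 ≤ Fintype.card G * ∑ h, K h ^ 2 := by
  have h1 : ∑ i, ‖M K (u i)‖ ^ 2 = ∑ x, ∑ i, ‖inner ℂ (u i) (row K x)‖ ^ 2 := by
    rw [Finset.sum_comm]
    refine Finset.sum_congr rfl fun i _ => ?_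
    rw [EuclideanSpace.norm_sq_eq]
    refine Finset.sum_congr rfl fun x _ => ?_
    rw [← row_inner K x (u i) (h0 i), norm_inner_symm]
  rw [h1]
  calc ∑ x, ∑ i, ‖inner ℂ (u i) (row K x)‖ ^ 2 ≤ ∑ x : G, ‖row K x‖ ^ 2 :=
        Finset.sum_le_sum fun x _ => hu.sum_inner_products_le (row K x)
    _ = Fintype.card G * ∑ h, K h ^ 2 := by
        simp only [row_norm, Finset.sum_const, Finset.card_univ, nsmul_eq_mul]

theorem M_one (K : G → ℝ) : M K (WithLp.toLp 2 (fun _ => (1 : ℂ))) = 0 := by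
  ext x
  rw [M_apply]
  have hc : (Fintype.card G : ℂ) ≠ 0 := by
    exact_mod_cast Fintype.card_ne_zero
  simp [hc]

end MIX_

open MIX_ in
theorem prove_MIX : T_MIX := by
  intro G _ _ D hD hmin K f hf
  have hT : (T K).IsSymmetric := LinearMap.isSymmetric_adjoint_comp_self (M K)
  have hcard : Module.finrank ℂ (E G) = Fintype.card G := finrank_euclideanSpace
  have hpos : 0 < Module.finrank ℂ (E G) := by
    rw [hcard]
    exact Fintype.card_pos
  have : Nonempty (Fin (Module.finrank ℂ (E G))) := ⟨⟨0, hpos⟩⟩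
  obtain ⟨i0, hi0⟩ := Finite.exists_max (hT.eigenvalues (n := Module.finrank ℂ (E G)) rfl)
  set Lam : ℝ := hT.eigenvalues rfl i0 with hLam
  have hk := key1 K Lam hT hi0
  -- the real function
  set v : E G := WithLp.toLp 2 (fun x => (f x : ℂ)) with hv
  have hv0 : ∑ y, v y = 0 := by
    change ∑ y, ((f y : ℝ) : ℂ) = 0
    exact_mod_cast hf
  have hvn : ‖v‖ ^ 2 = ∑ x, f x ^ 2 := by
    rw [EuclideanSpace.norm_sq_eq]
    refine Finset.sum_congr rfl fun x _ => ?_
    change ‖((f x : ℝ) : ℂ)‖ ^ 2 = _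
    rw [Complex.norm_real, Real.norm_eq_abs, sq_abs]
  have hMv : ‖M K v‖ ^ 2 = ∑ x, (∑ h, K h * f (x * h)) ^ 2 := by
    rw [EuclideanSpace.norm_sq_eq]
    refine Finset.sum_congr rfl fun x _ => ?_
    rw [M_apply0 K v hv0]
    have h1 : ∑ h, (K h : ℂ) * v (x * h) = ((∑ h, K h * f (x * h) : ℝ) : ℂ) := by
      push_cast
      rfl
    rw [h1, Complex.norm_real, Real.norm_eq_abs, sq_abs]
  have hmain := hk v
  rw [hvn, hMv] at hmain
  have hK0 : 0 ≤ ∑ h, K h ^ 2 := Finset.sum_nonneg fun h _ => sq_nonneg _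
  have hf0 : 0 ≤ ∑ x, f x ^ 2 := Finset.sum_nonneg fun h _ => sq_nonneg _
  rcases le_or_gt Lam 0 with hL | hL
  · have h1 : ∑ x, (∑ h, K h * f (x * h)) ^ 2 ≤ 0 :=
      hmain.trans (mul_nonpos_of_nonpos_of_nonneg hL hf0)
    have h2 : D * ∑ x, (∑ h, K h * f (x * h)) ^ 2 ≤ 0 :=
      mul_nonpos_of_nonneg_of_nonpos hD.le h1
    have h3 : 0 ≤ (Fintype.card G : ℝ) * (∑ h, K h ^ 2) * ∑ x, f x ^ 2 := by positivity
    linarith
  · set W : Submodule ℂ (E G) := Module.End.eigenspace (T K) (Lam : ℂ) with hW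
    have hLC : (Lam : ℂ) ≠ 0 := by exact_mod_cast hL.ne'
    have hmem : ∀ w, w ∈ W ↔ T K w = (Lam : ℂ) • w := fun w => Module.End.mem_eigenspace_iff
    have hsum : ∀ w ∈ W, ∑ y, w y = 0 := by
      intro w hw
      rw [hmem] at hw
      have h1 : inner ℂ (WithLp.toLp 2 (fun _ => (1 : ℂ)) : E G) (T K w) = 0 := by
        rw [inner_T, M_one, inner_zero_left]
      rw [hw, inner_smul_right, inner_eq] at h1
      rcases mul_eq_zero.mp h1 with h2 | h2
      · exact absurd h2 hLC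
      · simpa using h2
    have hWne : W ≠ ⊥ := by
      have h1 := hT.hasEigenvector_eigenvectorBasis (n := Module.finrank ℂ (E G)) rfl i0
      intro h2
      have h3 : hT.eigenvectorBasis rfl i0 ∈ W := h1.1
      rw [h2, Submodule.mem_bot] at h3
      exact h1.2 h3
    set e := (WithLp.linearEquiv 2 ℂ (G → ℂ)) with he
    have hdim : D ≤ Module.finrank ℂ W := by
      have h1 : Module.finrank ℂ (W.map (e : E G →ₗ[ℂ] (G → ℂ))) = Module.finrank ℂ W :=
        LinearEquiv.finrank_map_eq e W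
      rw [← h1]
      refine hmin _ ?_ ?_ ?_
      · intro h2
        apply hWne
        rw [Submodule.map_eq_bot_iff] at h2
        exact h2
      · rintro _ ⟨w, hw, rfl⟩
        exact hsum w hw
      · rintro _ ⟨w, hw, rfl⟩ g
        refine ⟨U g w, ?_, rfl⟩
        change U g w ∈ W
        have hw' : w ∈ W := hw
        rw [hmem] at hw' ⊢
        rw [commT, hw', map_smul]
    set u := stdOrthonormalBasis ℂ W with hu
    have hon : Orthonormal ℂ (fun i => ((u i : W) : E G)) :=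
      u.orthonormal.comp_linearIsometry W.subtypeₗᵢ
    have hb := bessel K (fun i => ((u i : W) : E G)) hon (fun i => hsum _ (u i).2)
    have hval : ∀ i, ‖M K ((u i : W) : E G)‖ ^ 2 = Lam := by
      intro i
      have h1 : ((‖M K ((u i : W) : E G)‖ ^ 2 : ℝ) : ℂ) =
          inner ℂ ((u i : W) : E G) (T K ((u i : W) : E G)) := by
        rw [inner_T, inner_self_eq_norm_sq_to_K]
        norm_cast
      rw [(hmem _).mp (u i).2, inner_smul_right, inner_self_eq_norm_sq_to_K, hon.1 i] at h1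
      have h2 : ((‖M K ((u i : W) : E G)‖ ^ 2 : ℝ) : ℂ) = ((Lam : ℝ) : ℂ) := by
        rw [h1]
        simp
      exact_mod_cast h2
    simp only [hval, Finset.sum_const, Finset.card_univ, Fintype.card_fin, nsmul_eq_mul] at hb
    have h5 : D * Lam ≤ Fintype.card G * ∑ h, K h ^ 2 :=
      (mul_le_mul_of_nonneg_right hdim hL.le).trans hb
    calc D * ∑ x, (∑ h, K h * f (x * h)) ^ 2 ≤ D * (Lam * ∑ x, f x ^ 2) :=
          mul_le_mul_of_nonneg_left hmain hD.le
      _ = (D * Lam) * ∑ x, f x ^ 2 := by ring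
      _ ≤ (Fintype.card G * ∑ h, K h ^ 2) * ∑ x, f x ^ 2 :=
          mul_le_mul_of_nonneg_right h5 hf0

end Pool.Agent.RCG
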