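import Pool.Agent.RCG.Targets7
import Pool.Agent.RCG.MIX

/-!
# RCG: class averages on a quasirandom group
-/

set_option autoImplicit false

namespace Pool.Agent.RCG

open Finset

namespace KAP_

open MIX_

variable {G : Type} [Group G] [Fintype G]

/-- right translation -/
noncomputable def V (g : G) : E G →ₗ[ℂ] E G where
  toFun v := WithLp.toLp 2 (fun x => v (x * g))
  map_add' a b := by
    ext x
    simp
  map_smul' c a := by
    ext x
    simp

theorem V_apply (g : G) (v : E G) (x : G) : V g v x = v (x * g) := rfl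

theorem V_inner (g : G) (a b : E G) : inner ℂ (V g a) b = inner ℂ a (V g⁻¹ b) := by
  rw [inner_eq, inner_eq]
  refine Fintype.sum_equiv (Equiv.mulRight g) _ _ fun x => ?_
  rw [V_apply, V_apply, Equiv.coe_mulRight, mul_inv_cancel_right]

theorem commV (K : G → ℝ) (hK : ∀ g x, K (g⁻¹ * x * g) = K x) (g : G) (v : E G) :
    M K (V g v) = V g (M K v) := by
  ext x
  rw [V_apply, M_apply, M_apply]
  have h1 : ∑ y, V g v y = ∑ y, v y := by
    refine Fintype.sum_equiv (Equiv.mulRight g) _ _ fun x => ?_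
    rw [V_apply, Equiv.coe_mulRight]
  rw [h1]
  congr 1
  refine Fintype.sum_equiv ((Equiv.mulLeft g⁻¹).trans (Equiv.mulRight g)) _ _ fun h => ?_
  have h2 : x * g * (g⁻¹ * h * g) = x * h * g := by group
  rw [V_apply, Equiv.trans_apply, Equiv.coe_mulLeft, Equiv.coe_mulRight]
  change _ = ((K (g⁻¹ * h * g) : ℝ) : ℂ) * v (x * g * (g⁻¹ * h * g))
  rw [hK, h2]

theorem commTV (K : G → ℝ) (hK : ∀ g x, K (g⁻¹ * x * g) = K x) (g : G) (v : E G) :
    T K (V g v) = V g (T K v) := by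
  refine ext_inner_left ℂ fun w => ?_
  have h1 : ∀ a b : E G, inner ℂ a (V g b) = inner ℂ (V g⁻¹ a) b := by
    intro a b
    rw [V_inner, inv_inv]
  rw [inner_T, commV K hK, h1, ← commV K hK, ← inner_T, h1]

/-- `T_MIX` for class functions -/
theorem mix2 (D : ℝ) (hD : 0 < D) (hmin : MinDim2 G D) (K : G → ℝ)
    (hK : ∀ g x, K (g⁻¹ * x * g) = K x) (f : G → ℝ) (hf : ∑ x, f x = 0) :
    D * ∑ x, (∑ h, K h * f (x * h)) ^ 2 ≤ Fintype.card G * (∑ h, K h ^ 2) * ∑ x, f x ^ 2 := by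
  have hT : (T K).IsSymmetric := LinearMap.isSymmetric_adjoint_comp_self (M K)
  have hcard : Module.finrank ℂ (E G) = Fintype.card G := finrank_euclideanSpace
  have hpos : 0 < Module.finrank ℂ (E G) := by
    rw [hcard]
    exact Fintype.card_pos
  have : Nonempty (Fin (Module.finrank ℂ (E G))) := ⟨⟨0, hpos⟩⟩
  obtain ⟨i0, hi0⟩ := Finite.exists_max (hT.eigenvalues (n := Module.finrank ℂ (E G)) rfl)
  set Lam : ℝ := hT.eigenvalues rfl i0 with hLam
  have hk := key1 K Lam hT hi0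
  set v : E G := WithLp.toLp 2 (fun x => (f x : ℂ)) with hv
  have hv0 : ∑ y, v y = 0 := by
    change ∑ y, ((f y : ℝ) : ℂ) = 0
    exact_mod_cast hf
  have hvn : ‖v‖ ^ 2 = ∑ x, f x ^ 2 := by
    rw [EuclideanSpace.norm_sq_eq]
    refine Finset.sum_congr rfl fun x _ => ?_
    change ‖((f x : ℝ) : ℂ)‖ ^ 2 = _
    rw [Complex.norm_real, Real.norm_eq_abs, sq_abs]
  have hMv : ‖M K v‖ ^ 2 = ∑ x, (∑ h, K h * f (x * h)) ^ 2 := by
    rw [EuclideanSpace.norm_sq_eq]
    refine Finset.sum_congr rfl fun x _ => ?_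
    rw [M_apply0 K v hv0]
    have h1 : ∑ h, (K h : ℂ) * v (x * h) = ((∑ h, K h * f (x * h) : ℝ) : ℂ) := by
      push_cast
      rfl
    rw [h1, Complex.norm_real, Real.norm_eq_abs, sq_abs]
  have hmain := hk v
  rw [hvn, hMv] at hmain
  have hK0 : 0 ≤ ∑ h, K h ^ 2 := Finset.sum_nonneg fun h _ => sq_nonneg _
  have hf0 : 0 ≤ ∑ x, f x ^ 2 := Finset.sum_nonneg fun h _ => sq_nonneg _
  rcases le_or_gt Lam 0 with hL | hL
  · have h1 : ∑ x, (∑ h, K h * f (x * h)) ^ 2 ≤ 0 :=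
      hmain.trans (mul_nonpos_of_nonpos_of_nonneg hL hf0)
    have h2 : D * ∑ x, (∑ h, K h * f (x * h)) ^ 2 ≤ 0 :=
      mul_nonpos_of_nonneg_of_nonpos hD.le h1
    have h3 : 0 ≤ (Fintype.card G : ℝ) * (∑ h, K h ^ 2) * ∑ x, f x ^ 2 := by positivity
    linarith
  · set W : Submodule ℂ (E G) := Module.End.eigenspace (T K) (Lam : ℂ) with hW
    have hLC : (Lam : ℂ) ≠ 0 := by exact_mod_cast hL.ne'
    have hmem : ∀ w, w ∈ W ↔ T K w = (Lam : ℂ) • w := fun w => Module.End.mem_eigenspace_iff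
    have hsum : ∀ w ∈ W, ∑ y, w y = 0 := by
      intro w hw
      rw [hmem] at hw
      have h1 : inner ℂ (WithLp.toLp 2 (fun _ => (1 : ℂ)) : E G) (T K w) = 0 := by
        rw [inner_T, M_one, inner_zero_left]
      rw [hw, inner_smul_right, inner_eq] at h1
      rcases mul_eq_zero.mp h1 with h2 | h2
      · exact absurd h2 hLC
      · simpa using h2
    have hWne : W ≠ ⊥ := by
      have h1 := hT.hasEigenvector_eigenvectorBasis (n := Module.finrank ℂ (E G)) rfl i0
      intro h2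
      have h3 : hT.eigenvectorBasis rfl i0 ∈ W := h1.1
      rw [h2, Submodule.mem_bot] at h3
      exact h1.2 h3
    set e := (WithLp.linearEquiv 2 ℂ (G → ℂ)) with he
    have hdim : D ≤ Module.finrank ℂ W := by
      have h1 : Module.finrank ℂ (W.map (e : E G →ₗ[ℂ] (G → ℂ))) = Module.finrank ℂ W :=
        LinearEquiv.finrank_map_eq e W
      rw [← h1]
      refine hmin _ ?_ ?_ ?_ ?_
      · intro h2
        apply hWne
        rw [Submodule.map_eq_bot_iff] at h2
        exact h2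
      · rintro _ ⟨w, hw, rfl⟩
        exact hsum w hw
      · rintro _ ⟨w, hw, rfl⟩ g
        refine ⟨U g w, ?_, rfl⟩
        change U g w ∈ W
        have hw' : w ∈ W := hw
        rw [hmem] at hw' ⊢
        rw [commT, hw', map_smul]
      · rintro _ ⟨w, hw, rfl⟩ g
        refine ⟨V g w, ?_, rfl⟩
        change V g w ∈ W
        have hw' : w ∈ W := hw
        rw [hmem] at hw' ⊢
        rw [commTV K hK, hw', map_smul]
    set u := stdOrthonormalBasis ℂ W with hu
    have hon : Orthonormal ℂ (fun i => ((u i : W) : E G)) :=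
      u.orthonormal.comp_linearIsometry W.subtypeₗᵢ
    have hb := bessel K (fun i => ((u i : W) : E G)) hon (fun i => hsum _ (u i).2)
    have hval : ∀ i, ‖M K ((u i : W) : E G)‖ ^ 2 = Lam := by
      intro i
      have h1 : ((‖M K ((u i : W) : E G)‖ ^ 2 : ℝ) : ℂ) =
          inner ℂ ((u i : W) : E G) (T K ((u i : W) : E G)) := by
        rw [inner_T, inner_self_eq_norm_sq_to_K]
        norm_cast
      rw [(hmem _).mp (u i).2, inner_smul_right, inner_self_eq_norm_sq_to_K, hon.1 i] at h1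
      have h2 : ((‖M K ((u i : W) : E G)‖ ^ 2 : ℝ) : ℂ) = ((Lam : ℝ) : ℂ) := by
        rw [h1]
        simp
      exact_mod_cast h2
    simp only [hval, Finset.sum_const, Finset.card_univ, Fintype.card_fin, nsmul_eq_mul] at hb
    have h5 : D * Lam ≤ Fintype.card G * ∑ h, K h ^ 2 :=
      (mul_le_mul_of_nonneg_right hdim hL.le).trans hb
    calc D * ∑ x, (∑ h, K h * f (x * h)) ^ 2 ≤ D * (Lam * ∑ x, f x ^ 2) :=
          mul_le_mul_of_nonneg_left hmain hD.le
      _ = (D * Lam) * ∑ x, f x ^ 2 := by ring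
      _ ≤ (Fintype.card G * ∑ h, K h ^ 2) * ∑ x, f x ^ 2 :=
          mul_le_mul_of_nonneg_right h5 hf0

open Classical in
/-- the number of `h` with `h g h⁻¹ = x` -/
noncomputable def Kc (g x : G) : ℝ := ∑ h : G, if h * g * h⁻¹ = x then (1 : ℝ) else 0

theorem Kc_class (g a x : G) : Kc g (a⁻¹ * x * a) = Kc g x := by
  classical
  unfold Kc
  refine Fintype.sum_equiv (Equiv.mulLeft a) _ _ fun h => ?_
  rw [Equiv.coe_mulLeft]
  refine if_congr ?_ rfl rfl
  constructor
  · intro h1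
    have h2 : a * h * g * (a * h)⁻¹ = a * (h * g * h⁻¹) * a⁻¹ := by group
    rw [h2, h1]
    group
  · intro h1
    rw [← h1]
    group

theorem Kc_sum (g : G) (F : G → ℝ) : ∑ x, Kc g x * F x = ∑ h : G, F (h * g * h⁻¹) := by
  classical
  unfold Kc
  simp only [Finset.sum_mul]
  rw [Finset.sum_comm]
  refine Finset.sum_congr rfl fun h _ => ?_
  simp only [ite_mul, one_mul, zero_mul]
  rw [Finset.sum_ite_eq]
  simp

theorem Kc_val (g h : G) : Kc g (h * g * h⁻¹) = (Nat.card {c : G // c * g = g * c} : ℝ) := by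
  classical
  unfold Kc
  rw [Finset.sum_boole, Nat.card_eq_fintype_card, Fintype.card_subtype]
  congr 1
  refine Finset.card_bij (fun k _ => h⁻¹ * k) ?_ ?_ ?_
  · intro k hk
    rw [Finset.mem_filter] at hk ⊢
    refine ⟨Finset.mem_univ _, ?_⟩
    have h1 := hk.2
    have h2 : h⁻¹ * (k * g * k⁻¹) * k = h⁻¹ * (h * g * h⁻¹) * k := by rw [h1]
    have h3 : h⁻¹ * (k * g * k⁻¹) * k = h⁻¹ * k * g := by group
    have h4 : h⁻¹ * (h * g * h⁻¹) * k = g * (h⁻¹ * k) := by group
    rw [← h3, h2, h4]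
  · intro k _ k' _ hkk
    exact mul_left_cancel hkk
  · intro c hc
    rw [Finset.mem_filter] at hc
    refine ⟨h * c, ?_, by group⟩
    rw [Finset.mem_filter]
    refine ⟨Finset.mem_univ _, ?_⟩
    have h3 : h * c * g * (h * c)⁻¹ = h * (c * g) * c⁻¹ * h⁻¹ := by group
    rw [h3, hc.2]
    group

theorem Kc_sq (g : G) : ∑ x, Kc g x ^ 2 =
    Fintype.card G * (Nat.card {c : G // c * g = g * c} : ℝ) := by
  have h1 : ∑ x, Kc g x ^ 2 = ∑ x, Kc g x * Kc g x :=
    Finset.sum_congr rfl fun x _ => sq _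
  rw [h1, Kc_sum g (Kc g)]
  simp only [Kc_val, Finset.sum_const, Finset.card_univ, nsmul_eq_mul]

end KAP_

open KAP_ in
theorem prove_KAP : T_KAP := by
  intro G _ _ D hD hmin g f hf
  have h1 := mix2 D hD hmin (Kc g) (fun a x => Kc_class g a x) f hf
  rw [Kc_sq] at h1
  set c : ℝ := (Nat.card {h : G // h * g = g * h} : ℝ) with hc
  set N : ℝ := (Fintype.card G : ℝ) with hN
  set S : ℝ := ∑ x, f x ^ 2 with hS
  set A : ℝ := ∑ x, (∑ h, Kc g h * f (x * h)) ^ 2 with hA
  have hS0 : 0 ≤ S := Finset.sum_nonneg fun h _ => sq_nonneg _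
  have hN0 : 0 ≤ N := Nat.cast_nonneg _
  have hc0 : 0 ≤ c := Nat.cast_nonneg _
  have e1 : ∑ h : G, ∑ x, f x * f (x * (h * g * h⁻¹)) = ∑ x, f x * ∑ h, Kc g h * f (x * h) := by
    rw [Finset.sum_comm]
    refine Finset.sum_congr rfl fun x _ => ?_
    rw [Kc_sum g (fun y => f (x * y)), Finset.mul_sum]
  rw [e1]
  have h2 : (∑ x, f x * ∑ h, Kc g h * f (x * h)) ^ 2 ≤ S * A :=
    Finset.sum_mul_sq_le_sq_mul_sq _ _ _
  have h3 : A ≤ N ^ 2 * (c / D) * S := by
    have h4 : A ≤ N * (N * c) * S / D := by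
      rw [le_div_iff₀ hD]
      linarith
    calc A ≤ N * (N * c) * S / D := h4
      _ = N ^ 2 * (c / D) * S := by ring
  have h5 : (∑ x, f x * ∑ h, Kc g h * f (x * h)) ^ 2 ≤ (N * √(c / D) * S) ^ 2 := by
    calc (∑ x, f x * ∑ h, Kc g h * f (x * h)) ^ 2 ≤ S * A := h2
      _ ≤ S * (N ^ 2 * (c / D) * S) := mul_le_mul_of_nonneg_left h3 hS0
      _ = (N * √(c / D) * S) ^ 2 := by
          rw [mul_pow, mul_pow, Real.sq_sqrt (div_nonneg hc0 hD.le)]
          ring
  exact abs_le_of_sq_le_sq h5 (by positivity)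

end Pool.Agent.RCG
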