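import Pool.Agent.RCG.Targets7

set_option autoImplicit false

/-!
# RCG: target `T_KP2`
-/

namespace Pool.Agent.RCG

open Finset Matrix

namespace KP2_

theorem num (p : ℕ) (hp : 19 ≤ p) (c : ℝ) (hc : c ≤ 2 * p) :
    √(c / ((((p : ℝ) - 1) / 2) ^ 2)) ≤ 3 / √(p : ℝ) := by
  have hp' : (19 : ℝ) ≤ p := by exact_mod_cast hp
  have hp0 : (0 : ℝ) < p := by linarith
  have e : (3 / √(p : ℝ)) = √(9 / p) := by
    rw [Real.sqrt_div (by norm_num), show (9 : ℝ) = 3 ^ 2 by norm_num,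
      Real.sqrt_sq (by norm_num)]
  rw [e]
  apply Real.sqrt_le_sqrt
  have hD : (0 : ℝ) < (((p : ℝ) - 1) / 2) ^ 2 := by
    have : (0 : ℝ) < ((p : ℝ) - 1) / 2 := by linarith
    positivity
  rw [div_le_div_iff₀ hD hp0]
  have h1 : c * p ≤ 2 * p * p := mul_le_mul_of_nonneg_right hc hp0.le
  nlinarith

end KP2_

theorem prove_KP2 (h1 : T_BD2) (h2 : T_KAP) (h3 : T_CEN2) : T_KP2 := by
  intro p _ hp g hg1 hg2 f hf
  have hp' : (19 : ℝ) ≤ p := by exact_mod_cast hp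
  have hD : (0 : ℝ) < (((p : ℝ) - 1) / 2) ^ 2 := by
    have : (0 : ℝ) < ((p : ℝ) - 1) / 2 := by linarith
    positivity
  have hK := h2 (SL 2 p) _ hD (h1 p (by omega)) g f hf
  refine hK.trans ?_
  have hc : ((Nat.card {h : SL 2 p // h * g = g * h} : ℕ) : ℝ) ≤ 2 * p := by
    exact_mod_cast h3 p g hg1 hg2
  have hn := KP2_.num p hp _ hc
  have hs : 0 ≤ ∑ x, f x ^ 2 := Finset.sum_nonneg fun x _ => sq_nonneg _
  rw [mul_comm (3 / √(p : ℝ))]
  exact mul_le_mul_of_nonneg_right (mul_le_mul_of_nonneg_left hn (by positivity)) hs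

end Pool.Agent.RCG
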