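import Pool.Agent.RCG.Targets6

/-! # RCG: induction over powers of two, uniform version -/

set_option autoImplicit false

namespace Pool.Agent.RCG

open Finset Matrix

namespace LPW_

/-- the trivial bound, small degree -/
theorem base (h2 : T_TRV) (G : Type) [Group G] [Fintype G] (L : ℝ) (d : ℕ)
    (hd : 2 * (d : ℝ) ≤ 64) : Lin G d L := by
  intro σ hσ t ht _
  obtain ⟨h3, h4⟩ := h2 G d σ t hσ ht
  refine h4 _ _ _ (Real.exp_le_exp.2 ?_) h3
  have h0 : (0 : ℝ) ≤ 2 * (d : ℝ) := by positivity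
  have h5 : √(2 * (d : ℝ)) ≤ 8 := by
    rw [show (8 : ℝ) = √(8 ^ 2) by rw [Real.sqrt_sq (by norm_num)]]
    exact Real.sqrt_le_sqrt (by linarith)
  have h6 : 2 * (d : ℝ) ≤ 8 * √(2 * (d : ℝ)) := by
    calc 2 * (d : ℝ) = √(2 * (d : ℝ)) * √(2 * (d : ℝ)) := (Real.mul_self_sqrt h0).symm
      _ ≤ 8 * √(2 * (d : ℝ)) := mul_le_mul_of_nonneg_right h5 (Real.sqrt_nonneg _)
  calc 2 * (d : ℝ) * t ≤ 8 * √(2 * (d : ℝ)) * t := mul_le_mul_of_nonneg_right h6 ht
    _ = t * (8 * √(2 * (d : ℝ))) := by ring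

end LPW_

theorem prove_LPW (h1 : T_LST) (h2 : T_TRV) : T_LPW := by
  intro G _ _ q hA hq j
  induction j using Nat.strong_induction_on with
  | _ j ih =>
    intro hj
    by_cases h5 : j ≤ 5
    · refine LPW_.base h2 G _ _ ?_
      have h6 : 2 ^ j ≤ 2 ^ 5 := Nat.pow_le_pow_right (by norm_num) h5
      have h7 : ((2 ^ j : ℕ) : ℝ) ≤ ((2 ^ 5 : ℕ) : ℝ) := by exact_mod_cast h6
      have h8 : ((2 ^ 5 : ℕ) : ℝ) = 32 := by norm_num
      linarith
    · have e : 2 ^ j = 4 * 2 ^ (j - 2) := by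
        have : j = (j - 2) + 2 := by omega
        conv_lhs => rw [this]
        rw [pow_add]
        ring
      have h8 : 8 ≤ 2 ^ (j - 2) := by
        calc 8 = 2 ^ 3 := by norm_num
          _ ≤ 2 ^ (j - 2) := Nat.pow_le_pow_right (by norm_num) (by omega)
      have hle : 2 ^ (j - 2) ≤ 2 ^ j := Nat.pow_le_pow_right (by norm_num) (by omega)
      have hle' : ((2 ^ (j - 2) : ℕ) : ℝ) ≤ ((2 ^ j : ℕ) : ℝ) := by exact_mod_cast hle
      have hpos : (0 : ℝ) < ((2 ^ (j - 2) : ℕ) : ℝ) := by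
        exact_mod_cast Nat.pos_of_ne_zero (by positivity)
      have h9 : 18 * Real.log (2 * ((2 ^ (j - 2) : ℕ) : ℝ)) ≤ Real.log q := by
        refine le_trans ?_ hj
        have := Real.log_le_log (by positivity : (0 : ℝ) < 2 * ((2 ^ (j - 2) : ℕ) : ℝ))
          (by linarith : 2 * ((2 ^ (j - 2) : ℕ) : ℝ) ≤ 2 * ((2 ^ j : ℕ) : ℝ))
        linarith
      rw [e] at hj ⊢
      exact h1 G q (2 ^ (j - 2)) hA hq h8 hj (ih (j - 2) (by omega) h9)

end Pool.Agent.RCG
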