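import Pool.Agent.RCG.Targets6

set_option autoImplicit false

/-!
# RCG: LST, the scale step, uniform in the degree
-/

namespace Pool.Agent.RCG

open Finset Matrix

namespace LST_

theorem sqrt_four (d : ℕ) : √(2 * ((4 * d : ℕ) : ℝ)) = 2 * √(2 * (d : ℝ)) := by
  have h : 2 * ((4 * d : ℕ) : ℝ) = 2 ^ 2 * (2 * (d : ℝ)) := by push_cast; ring
  rw [h, Real.sqrt_mul (by norm_num), Real.sqrt_sq (by norm_num)]

theorem tt_nonneg (d : ℕ) (L : ℝ) (hd : 1 ≤ d) (hL : 0 ≤ L) : 0 ≤ tt d L := by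
  unfold tt
  have h1 : (1 : ℝ) ≤ d := by exact_mod_cast hd
  have h2 : 0 ≤ Real.log (2 * (d : ℝ)) := Real.log_nonneg (by linarith)
  have h3 : 0 ≤ Real.log 2 := Real.log_nonneg (by norm_num)
  positivity

theorem two_tt (d : ℕ) (L : ℝ) (hd : 1 ≤ d) (hL : 0 ≤ L) : 2 * tt (4 * d) L ≤ tt d L := by
  unfold tt
  rw [sqrt_four]
  have h1 : (1 : ℝ) ≤ d := by exact_mod_cast hd
  have h2 : 0 < Real.log (2 * (d : ℝ)) := Real.log_pos (by linarith)
  have h3 : 0 ≤ Real.log 2 := Real.log_nonneg (by norm_num)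
  have h4 : Real.log (2 * (d : ℝ)) ≤ Real.log (2 * ((4 * d : ℕ) : ℝ)) := by
    refine Real.log_le_log (by linarith) ?_
    push_cast
    linarith
  have h5 : 0 < √(2 * (d : ℝ)) := Real.sqrt_pos.2 (by linarith)
  have e : 2 * (Real.log 2 / 64 * L / (2 * √(2 * (d : ℝ)) * Real.log (2 * ((4 * d : ℕ) : ℝ)))) =
      Real.log 2 / 64 * L / (√(2 * (d : ℝ)) * Real.log (2 * ((4 * d : ℕ) : ℝ))) := by
    have h6 : Real.log (2 * ((4 * d : ℕ) : ℝ)) ≠ 0 := (h2.trans_le h4).ne'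
    field_simp
  rw [e]
  exact div_le_div_of_nonneg_left (by positivity) (by positivity)
    (mul_le_mul_of_nonneg_left h4 h5.le)

end LST_

open LST_ in
/-- LST -/
theorem prove_LST (h1 : T_SUB) (h2 : T_EBX) (h3 : T_TRV) (h4 : T_CVX) (h5 : T_MOU) : T_LST := by
  intro G _ _ q d hAvg hq hd hL hLin
  set k : ℝ := 2 * ((4 * d : ℕ) : ℝ) with hk
  set L : ℝ := Real.log q with hLdef
  have hd1 : 1 ≤ d := by omega
  have hdR : (8 : ℝ) ≤ d := by exact_mod_cast hd
  have hk8 : k = 8 * d := by rw [hk]; push_cast; ring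
  have hk64 : 64 ≤ k := by rw [hk8]; linarith
  have hlk : 0 < Real.log k := Real.log_pos (by linarith)
  have hL0 : 0 < L := by linarith
  set t0 : ℝ := tt (4 * d) L with ht0
  have ht00 : 0 ≤ t0 := tt_nonneg (4 * d) L (by omega) hL0.le
  have hsk : 0 < √k := Real.sqrt_pos.2 (by linarith)
  have hskd : √k = 2 * √(2 * (d : ℝ)) := sqrt_four d
  have ht0e : t0 * √k = Real.log 2 / 64 * L / Real.log k := by
    rw [ht0]
    unfold tt
    rw [← hk]
    field_simp
  intro σ hσ t ht htt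
  refine h4 G (4 * d) σ t t0 (8 * √k) hσ ht htt ?_
  have hB : EB G d (σ * (2 * t0)) (Real.exp (2 * t0 * (8 * √(2 * (d : ℝ))))) :=
    hLin σ hσ (2 * t0) (by positivity) (two_tt d L hd1 hL0.le)
  set Φ : ℝ := Real.exp (2 * t0 * (8 * √(2 * (d : ℝ)))) with hΦ
  have hΦ0 : 0 ≤ Φ := (Real.exp_pos _).le
  have hB2 := h1 G d d _ Φ Φ hΦ0 hΦ0 hB hB
  have hB4 := h1 G (d + d) (d + d) _ (Φ * Φ) (Φ * Φ) (by positivity) (by positivity) hB2 hB2
  have e4 : d + d + (d + d) = 4 * d := by ring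
  rw [e4] at hB4
  have eΦ : Φ * Φ * (Φ * Φ) = Real.exp (t0 * (32 * √k)) := by
    rw [hΦ, ← Real.exp_add, ← Real.exp_add, hskd]
    congr 1
    ring
  rw [eΦ] at hB4
  obtain ⟨n, hn, hmou⟩ := h5 k q hk64 hq hL
  have hkq : k < q := by
    have h6 : Real.log k < Real.log q := by linarith
    exact (Real.log_lt_log_iff (by linarith) (by linarith)).1 h6
  have hE := h2 G (4 * d) n σ t0 (2 * t0) (4 * √k) (32 * √k)
    (k ^ n * ((2 / √k) ^ n + 14 * √(((n : ℝ) + 1) / q))) (Real.exp (t0 * (32 * √k))) hσ ht00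
    (by linarith) (by positivity) (by linarith) hn
    (by
      intro f hf
      refine (hAvg (4 * d) n (by omega) hkq f hf).trans (le_of_eq ?_)
      rw [← hk]
      ring) hB4
  refine (h3 G (4 * d) σ t0 hσ ht00).2 _ _ _ ?_ hE
  -- numerical part
  have hx : Real.log 2 ≤ t0 * (4 * √k) := by
    have e : t0 * (4 * √k) = Real.log 2 / 16 * (L / Real.log k) := by
      have : t0 * (4 * √k) = 4 * (t0 * √k) := by ring
      rw [this, ht0e]
      ring
    have h7 : 18 ≤ L / Real.log k := by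
      rw [le_div_iff₀ hlk]
      exact hL
    have h8 : 0 ≤ Real.log 2 := Real.log_nonneg (by norm_num)
    rw [e]
    nlinarith
  have hx2 : 2 ≤ Real.exp (t0 * (4 * √k)) := by
    have := Real.exp_le_exp.2 hx
    rwa [Real.exp_log (by norm_num)] at this
  have e8 : Real.exp (t0 * (8 * √k)) = Real.exp (t0 * (4 * √k)) ^ 2 := by
    rw [← Real.exp_nat_mul]
    congr 1
    push_cast
    ring
  have e32 : t0 * (32 * √k) = Real.log 2 / (2 * Real.log k) * L := by
    have : t0 * (32 * √k) = 32 * (t0 * √k) := by ring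
    rw [this, ht0e]
    field_simp
    ring
  have hmid : Real.exp (t0 * (32 * √k)) * ((4 * √k) ^ n)⁻¹ *
      (k ^ n * ((2 / √k) ^ n + 14 * √(((n : ℝ) + 1) / q))) ≤ 1 := by
    rw [e32, mul_assoc]
    exact hmou
  have hlast : Real.exp (-((2 * t0 - t0) * (32 * √k))) * Real.exp (t0 * (32 * √k)) = 1 := by
    rw [← Real.exp_add]
    have : -((2 * t0 - t0) * (32 * √k)) + t0 * (32 * √k) = 0 := by ring
    rw [this, Real.exp_zero]
  rw [hlast, e8]
  nlinarith

end Pool.Agent.RCG
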