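import Pool.Agent.RCG.Targets

set_option autoImplicit false

/-!
# RCG: the Lie-Trotter product formula for matrices (target `T_LT`)
-/

namespace Pool.Agent.RCG

open Finset Matrix Filter Topology

namespace LT_

/-- telescoping bound for the difference of two powers -/
theorem pow_sub_pow_le {R : Type*} [NormedRing R] {X Y : R} {M : ℝ} (hX : ‖X‖ ≤ M)
    (hY : ‖Y‖ ≤ M) (n : ℕ) :
    ‖X ^ (n + 1) - Y ^ (n + 1)‖ ≤ (n + 1 : ℕ) * M ^ n * ‖X - Y‖ := by
  have hM : 0 ≤ M := (norm_nonneg X).trans hX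
  induction n with
  | zero => simp
  | succ n ih =>
    have e : X ^ (n + 1 + 1) - Y ^ (n + 1 + 1) =
        X ^ (n + 1) * (X - Y) + (X ^ (n + 1) - Y ^ (n + 1)) * Y := by
      rw [pow_succ X (n + 1), pow_succ Y (n + 1)]
      noncomm_ring
    rw [e]
    have h1 : ‖X ^ (n + 1)‖ ≤ M ^ (n + 1) :=
      (norm_pow_le' X (Nat.succ_pos n)).trans (pow_le_pow_left₀ (norm_nonneg X) hX _)
    calc ‖X ^ (n + 1) * (X - Y) + (X ^ (n + 1) - Y ^ (n + 1)) * Y‖
        ≤ ‖X ^ (n + 1)‖ * ‖X - Y‖ + ‖X ^ (n + 1) - Y ^ (n + 1)‖ * ‖Y‖ :=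
          (norm_add_le _ _).trans (add_le_add (norm_mul_le _ _) (norm_mul_le _ _))
      _ ≤ M ^ (n + 1) * ‖X - Y‖ + ((n + 1 : ℕ) * M ^ n * ‖X - Y‖) * M := by
          gcongr
      _ = ((n + 1 + 1 : ℕ) : ℝ) * M ^ (n + 1) * ‖X - Y‖ := by
          push_cast
          ring

/-- norm bound from a derivative at `0` -/
theorem norm_le_exp {R : Type*} [NormedRing R] [NormedAlgebra ℝ R] [NormOneClass R]
    {f : ℝ → R} {D : R} (hf : HasDerivAt f D 0) (h0 : f 0 = 1) :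
    ∃ C : ℝ, 0 ≤ C ∧ ∀ᶠ n : ℕ in atTop, ‖f (1 / (n : ℝ))‖ ≤ Real.exp (C * (1 / (n : ℝ))) := by
  have hO := hf.isBigO_sub
  obtain ⟨C, hC⟩ := hO.bound
  refine ⟨|C|, abs_nonneg C, ?_⟩
  have ht : Tendsto (fun n : ℕ => 1 / (n : ℝ)) atTop (𝓝 0) := tendsto_one_div_atTop_nhds_zero_nat
  filter_upwards [ht.eventually hC] with n hn
  have hpos : (0 : ℝ) ≤ 1 / (n : ℝ) := by positivity
  have h1 : ‖f (1 / (n : ℝ)) - 1‖ ≤ |C| * (1 / (n : ℝ)) := by
    have h2 : ‖f (1 / (n : ℝ)) - f 0‖ ≤ C * ‖1 / (n : ℝ) - 0‖ := hn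
    rw [h0, sub_zero, Real.norm_of_nonneg hpos] at h2
    exact h2.trans (mul_le_mul_of_nonneg_right (le_abs_self C) hpos)
  calc ‖f (1 / (n : ℝ))‖ = ‖(f (1 / (n : ℝ)) - 1) + 1‖ := by rw [sub_add_cancel]
    _ ≤ ‖f (1 / (n : ℝ)) - 1‖ + ‖(1 : R)‖ := norm_add_le _ _
    _ ≤ |C| * (1 / (n : ℝ)) + 1 := by rw [norm_one]; linarith
    _ ≤ Real.exp (|C| * (1 / (n : ℝ))) := Real.add_one_le_exp _

/-- the Lie-Trotter formula in a real Banach algebra -/
theorem banach {R : Type*} [NormedRing R] [NormedAlgebra ℝ R] [NormOneClass R]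
    [CompleteSpace R] (A B : R) :
    Tendsto (fun n : ℕ => (NormedSpace.exp ((1 / (n : ℝ)) • A) *
      NormedSpace.exp ((1 / (n : ℝ)) • B)) ^ n) atTop (𝓝 (NormedSpace.exp (A + B))) := by
  have dA : HasDerivAt (fun t : ℝ => NormedSpace.exp (t • A)) A 0 := by
    simpa using hasDerivAt_exp_smul_const (𝕂 := ℝ) A (0 : ℝ)
  have dB : HasDerivAt (fun t : ℝ => NormedSpace.exp (t • B)) B 0 := by
    simpa using hasDerivAt_exp_smul_const (𝕂 := ℝ) B (0 : ℝ)
  have dg : HasDerivAt (fun t : ℝ => NormedSpace.exp (t • (A + B))) (A + B) 0 := by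
    simpa using hasDerivAt_exp_smul_const (𝕂 := ℝ) (A + B) (0 : ℝ)
  have df : HasDerivAt (fun t : ℝ => NormedSpace.exp (t • A) * NormedSpace.exp (t • B))
      (A + B) 0 := by
    have h := dA.mul dB
    simp only [zero_smul, NormedSpace.exp_zero, mul_one, one_mul] at h
    exact h
  obtain ⟨C1, hC1, h1⟩ := norm_le_exp df (by simp)
  obtain ⟨C2, hC2, h2⟩ := norm_le_exp dg (by simp)
  have dh := df.sub dg
  rw [sub_self] at dh
  rw [hasDerivAt_iff_tendsto_slope_zero] at dh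
  have ht : Tendsto (fun n : ℕ => 1 / ((n : ℝ))) atTop (𝓝[≠] 0) := by
    rw [tendsto_nhdsWithin_iff]
    refine ⟨tendsto_one_div_atTop_nhds_zero_nat, ?_⟩
    filter_upwards [eventually_gt_atTop 0] with n hn
    have : (0 : ℝ) < n := by exact_mod_cast hn
    simp only [Set.mem_compl_iff, Set.mem_singleton_iff]
    positivity
  have dh' := (dh.comp ht).norm
  rw [norm_zero] at dh'
  have key : Tendsto (fun n : ℕ => Real.exp (C1 + C2) * ‖(1 / (n : ℝ))⁻¹ •
      ((NormedSpace.exp ((0 + 1 / (n : ℝ)) • A) * NormedSpace.exp ((0 + 1 / (n : ℝ)) • B) -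
        NormedSpace.exp ((0 + 1 / (n : ℝ)) • (A + B))) -
        (NormedSpace.exp ((0 : ℝ) • A) * NormedSpace.exp ((0 : ℝ) • B) -
        NormedSpace.exp ((0 : ℝ) • (A + B))))‖) atTop (𝓝 0) := by
    have := dh'.const_mul (Real.exp (C1 + C2))
    rw [mul_zero] at this
    exact this
  rw [tendsto_iff_norm_sub_tendsto_zero]
  refine squeeze_zero' (Eventually.of_forall fun n => norm_nonneg _) ?_ key
  filter_upwards [h1, h2, eventually_gt_atTop 0] with n hn1 hn2 hn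
  obtain ⟨m, rfl⟩ : ∃ m, n = m + 1 := ⟨n - 1, by omega⟩
  have hnr : (0 : ℝ) < ((m + 1 : ℕ) : ℝ) := by exact_mod_cast hn
  set s : ℝ := 1 / ((m + 1 : ℕ) : ℝ) with hs
  have hs0 : 0 < s := by positivity
  have hsm : ((m + 1 : ℕ) : ℝ) * s = 1 := by
    rw [hs]; field_simp
  have hM1 : ‖NormedSpace.exp (s • A) * NormedSpace.exp (s • B)‖ ≤
      Real.exp ((C1 + C2) * s) := by
    refine hn1.trans (Real.exp_le_exp.mpr ?_)
    nlinarith
  have hM2 : ‖NormedSpace.exp (s • (A + B))‖ ≤ Real.exp ((C1 + C2) * s) := by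
    refine hn2.trans (Real.exp_le_exp.mpr ?_)
    nlinarith
  have e1 : NormedSpace.exp (s • (A + B)) ^ (m + 1) = NormedSpace.exp (A + B) := by
    let : NormedAlgebra ℚ R := NormedAlgebra.restrictScalars ℚ ℝ R
    rw [← NormedSpace.exp_nsmul]
    congr 1
    rw [← Nat.cast_smul_eq_nsmul ℝ, smul_smul, hsm, one_smul]
  have hb := pow_sub_pow_le hM1 hM2 m
  rw [e1] at hb
  refine hb.trans ?_
  rw [← Real.exp_nat_mul]
  have e2 : Real.exp ((m : ℝ) * ((C1 + C2) * s)) ≤ Real.exp (C1 + C2) := by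
    refine Real.exp_le_exp.mpr ?_
    have : (m : ℝ) * s ≤ 1 := by
      rw [← hsm]; push_cast; nlinarith
    nlinarith
  have e3 : s⁻¹ = ((m + 1 : ℕ) : ℝ) := by
    rw [hs, one_div, inv_inv]
  simp only [zero_add, zero_smul, NormedSpace.exp_zero, mul_one, sub_self, sub_zero]
  rw [norm_smul, e3, Real.norm_of_nonneg hnr.le]
  have hx := norm_nonneg (NormedSpace.exp (s • A) * NormedSpace.exp (s • B) -
    NormedSpace.exp (s • (A + B)))
  have : ((m + 1 : ℕ) : ℝ) * Real.exp ((m : ℝ) * ((C1 + C2) * s)) ≤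
      ((m + 1 : ℕ) : ℝ) * Real.exp (C1 + C2) := mul_le_mul_of_nonneg_left e2 hnr.le
  nlinarith [mul_le_mul_of_nonneg_right this hx]

end LT_

theorem prove_LT : T_LT := by
  intro ι _ _ A B
  rcases isEmpty_or_nonempty ι with hι | hι
  · have : ∀ X Y : Matrix ι ι ℝ, X = Y := fun X Y => by
      ext i; exact (hι.false i).elim
    have e : (fun n : ℕ => (NormedSpace.exp ((1 / (n : ℝ)) • A) *
        NormedSpace.exp ((1 / (n : ℝ)) • B)) ^ n) = fun _ => NormedSpace.exp (A + B) := by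
      funext n
      exact this _ _
    rw [e]
    exact tendsto_const_nhds
  · let : NormedRing (Matrix ι ι ℝ) := Matrix.linftyOpNormedRing
    let : NormedAlgebra ℝ (Matrix ι ι ℝ) := Matrix.linftyOpNormedAlgebra
    have : NormOneClass (Matrix ι ι ℝ) := Matrix.linfty_opNormOneClass
    have : CompleteSpace (Matrix ι ι ℝ) := FiniteDimensional.complete ℝ _
    exact LT_.banach A B

end Pool.Agent.RCG
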