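import Pool.Agent.RCG.Targets6

set_option autoImplicit false

/-!
# RCG: choice of n, explicit (target T_MOU)
-/

namespace Pool.Agent.RCG

namespace MOU_

theorem fin_ineq (y n : ℝ) (hy : 18 ≤ y) (hn : n ≤ 3 / 2 * y) :
    4 * (1 + 14 * √(n + 1)) ≤ Real.exp (Real.log 2 * y / 2) := by
  obtain ⟨z, hz⟩ : ∃ z : ℝ, z = y - 18 := ⟨_, rfl⟩
  have hz0 : 0 ≤ z := by linarith
  have h1 : √(n + 1) ≤ 53 / 10 + 3 / 20 * z := by
    refine Real.sqrt_le_iff.2 ⟨by positivity, ?_⟩
    nlinarith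
  have h2 : Real.exp (Real.log 2 * y / 2) = 512 * Real.exp (Real.log 2 * z / 2) := by
    have e : (512 : ℝ) = Real.exp (9 * Real.log 2) := by
      rw [mul_comm, Real.exp_mul, Real.exp_log (by norm_num)]
      norm_num
    rw [e, ← Real.exp_add]
    congr 1
    rw [hz]
    ring
  have hl : (0.6931471803 : ℝ) < Real.log 2 := Real.log_two_gt_d9
  have h3 : 1 + Real.log 2 * z / 2 ≤ Real.exp (Real.log 2 * z / 2) := by
    have := Real.add_one_le_exp (Real.log 2 * z / 2)
    linarith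
  have h4 : 1 + 3 / 10 * z ≤ Real.exp (Real.log 2 * z / 2) := by
    nlinarith
  rw [h2]
  linarith

end MOU_

open MOU_ in
theorem prove_MOU : T_MOU := by
  intro k q hk hq1 hkq
  set lk := Real.log (k / 4) with hlk
  have hk0 : 0 < k := by linarith
  have hlk0 : 0 < lk := Real.log_pos (by linarith)
  have hlogk : lk ≤ Real.log k := Real.log_le_log (by positivity) (by linarith)
  have hlogk0 : 0 < Real.log k := hlk0.trans_le hlogk
  have hlk2 : 2 / 3 * Real.log k ≤ lk := by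
    have e1 : lk = Real.log k - Real.log 4 := Real.log_div hk0.ne' (by norm_num)
    have e2 : Real.log 64 = 3 * Real.log 4 := by
      rw [show (64 : ℝ) = 4 ^ 3 by norm_num, Real.log_pow]
      norm_num
    have e3 : Real.log 64 ≤ Real.log k := Real.log_le_log (by norm_num) hk
    rw [e1]
    linarith
  have hq0 : 0 < q := by linarith
  set L := Real.log q with hL
  have hL0 : 0 ≤ L := Real.log_nonneg hq1.le
  obtain ⟨y, hy⟩ : ∃ y : ℝ, y = L / Real.log k := ⟨_, rfl⟩
  have hy18 : 18 ≤ y := by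
    rw [hy, le_div_iff₀ hlogk0]
    exact hkq
  set j := ⌊L / (2 * lk)⌋₊ with hj
  have hj1 : (j : ℝ) ≤ L / (2 * lk) := Nat.floor_le (by positivity)
  have hj2 : L / (2 * lk) < (j : ℝ) + 1 := Nat.lt_floor_add_one _
  refine ⟨2 * j, even_two_mul j, ?_⟩
  have hn1 : ((2 * j : ℕ) : ℝ) * lk ≤ L := by
    rw [le_div_iff₀ (by positivity)] at hj1
    push_cast
    linarith
  have hn2 : y - 2 ≤ ((2 * j : ℕ) : ℝ) := by
    have h3 : L / Real.log k ≤ L / lk := div_le_div_of_nonneg_left hL0 hlk0 hlogk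
    have e : L / lk = 2 * (L / (2 * lk)) := by field_simp
    push_cast
    rw [hy]
    linarith
  have hn3 : ((2 * j : ℕ) : ℝ) ≤ 3 / 2 * y := by
    have h3 : ((2 * j : ℕ) : ℝ) * (2 / 3 * Real.log k) ≤ L :=
      (mul_le_mul_of_nonneg_left hlk2 (Nat.cast_nonneg _)).trans hn1
    rw [hy, ← mul_div_assoc, le_div_iff₀ hlogk0]
    linarith
  set n := 2 * j with hn
  have hsk : 0 < √k := Real.sqrt_pos.2 hk0
  have hsq : √k * √k = k := Real.mul_self_sqrt hk0.le
  have hb : 0 < 2 / √k := by positivity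
  have hlog : Real.log (2 / √k) = -lk / 2 := by
    rw [hlk, Real.log_div (by norm_num) hsk.ne', Real.log_sqrt hk0.le,
      Real.log_div hk0.ne' (by norm_num)]
    have : Real.log 4 = 2 * Real.log 2 := by
      rw [show (4 : ℝ) = 2 ^ 2 by norm_num, Real.log_pow]
      norm_num
    rw [this]
    ring
  -- step 1
  have hs1 : √(1 / q) ≤ (2 / √k) ^ n := by
    have e1 : √(1 / q) = Real.exp (-(L / 2)) := by
      rw [Real.sqrt_eq_rpow, one_div, Real.inv_rpow hq0.le, Real.exp_neg, hL,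
        Real.rpow_def_of_pos hq0]
      congr 2
      ring
    have e2 : (2 / √k) ^ n = Real.exp (n * (-lk / 2)) := by
      rw [← hlog, mul_comm, Real.exp_mul, Real.exp_log hb, Real.rpow_natCast]
    rw [e1, e2]
    apply Real.exp_le_exp.2
    linarith
  have hs2 : √(((n : ℝ) + 1) / q) ≤ √((n : ℝ) + 1) * (2 / √k) ^ n := by
    rw [div_eq_mul_one_div, Real.sqrt_mul (by positivity)]
    exact mul_le_mul_of_nonneg_left hs1 (Real.sqrt_nonneg _)
  -- step 2
  have hs3 : ((4 * √k) ^ n)⁻¹ * (k ^ n * (2 / √k) ^ n) = (1 / 2 : ℝ) ^ n := by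
    rw [← inv_pow, ← mul_pow, ← mul_pow]
    congr 1
    field_simp
    nlinarith [hsq]
  have hs5 : ((4 * √k) ^ n)⁻¹ * (k ^ n * ((2 / √k) ^ n + 14 * √(((n : ℝ) + 1) / q))) ≤
      (1 / 2 : ℝ) ^ n * (1 + 14 * √((n : ℝ) + 1)) := by
    calc ((4 * √k) ^ n)⁻¹ * (k ^ n * ((2 / √k) ^ n + 14 * √(((n : ℝ) + 1) / q)))
        ≤ ((4 * √k) ^ n)⁻¹ * (k ^ n * ((2 / √k) ^ n +
            14 * (√((n : ℝ) + 1) * (2 / √k) ^ n))) := by
          gcongr
      _ = (((4 * √k) ^ n)⁻¹ * (k ^ n * (2 / √k) ^ n)) * (1 + 14 * √((n : ℝ) + 1)) := by ring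
      _ = _ := by rw [hs3]
  -- step 3
  have hs6 : (1 / 2 : ℝ) ^ n ≤ 4 * Real.exp (-(Real.log 2 * y)) := by
    have e1 : (1 / 2 : ℝ) ^ n = Real.exp (-(Real.log 2 * n)) := by
      rw [one_div, inv_pow, Real.exp_neg, Real.exp_mul, Real.exp_log (by norm_num),
        Real.rpow_natCast]
    have e2 : 4 * Real.exp (-(Real.log 2 * y)) = Real.exp (2 * Real.log 2 - Real.log 2 * y) := by
      rw [Real.exp_sub]
      have : Real.exp (2 * Real.log 2) = 4 := by
        rw [mul_comm, Real.exp_mul, Real.exp_log (by norm_num)]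
        norm_num
      rw [this, Real.exp_neg]
      rfl
    rw [e1, e2]
    apply Real.exp_le_exp.2
    have h2 : 0 < Real.log 2 := Real.log_pos (by norm_num)
    have h5 : Real.log 2 * (y - 2) ≤ Real.log 2 * n :=
      mul_le_mul_of_nonneg_left hn2 h2.le
    linarith
  have hfin := fin_ineq y n hy18 hn3
  have e0 : Real.exp (Real.log 2 / (2 * Real.log k) * L) = Real.exp (Real.log 2 * y / 2) := by
    congr 1
    rw [hy]
    field_simp
  rw [e0]
  calc Real.exp (Real.log 2 * y / 2) *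
        (((4 * √k) ^ n)⁻¹ * (k ^ n * ((2 / √k) ^ n + 14 * √(((n : ℝ) + 1) / q))))
      ≤ Real.exp (Real.log 2 * y / 2) * ((1 / 2 : ℝ) ^ n * (1 + 14 * √((n : ℝ) + 1))) := by
        gcongr
    _ ≤ Real.exp (Real.log 2 * y / 2) * ((4 * Real.exp (-(Real.log 2 * y))) *
        (1 + 14 * √((n : ℝ) + 1))) := by gcongr
    _ = Real.exp (Real.log 2 * y / 2) * Real.exp (-(Real.log 2 * y)) *
        (4 * (1 + 14 * √((n : ℝ) + 1))) := by ring
    _ ≤ Real.exp (Real.log 2 * y / 2) * Real.exp (-(Real.log 2 * y)) *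
        Real.exp (Real.log 2 * y / 2) := by gcongr
    _ = 1 := by
        rw [← Real.exp_add, ← Real.exp_add, ← Real.exp_zero]
        congr 1
        ring

end Pool.Agent.RCG
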