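import Pool.Agent.RCG.Targets

/-!
# RCG: from the quadratic form to the norm (polarization)
-/

set_option autoImplicit false

namespace Pool.Agent.RCG

open Finset

namespace POL_

variable {G : Type} [Group G] {d : ℕ} (y : Fin d → G)

theorem adj_comb (f g : G → ℝ) (c : ℝ) (x : G) :
    adj y (fun z => f z + c * g z) x = adj y f x + c * adj y g x := by
  simp only [adj, Finset.mul_sum, ← Finset.sum_add_distrib]
  refine Finset.sum_congr rfl fun i _ => ?_
  ring

variable [Fintype G]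

theorem sum_shift (f : G → ℝ) (a : G) : ∑ x, f (x * a) = ∑ x, f x :=
  Equiv.sum_comp (Equiv.mulRight a) f

theorem adj_sum (f : G → ℝ) (hf : ∑ x, f x = 0) : ∑ x, adj y f x = 0 := by
  simp only [adj]
  rw [Finset.sum_comm]
  refine Finset.sum_eq_zero fun i _ => ?_
  rw [Finset.sum_add_distrib, sum_shift, sum_shift, hf, add_zero]

theorem shift_symm (f g : G → ℝ) (a : G) :
    ∑ x, f x * g (x * a) = ∑ x, f (x * a⁻¹) * g x := by
  have := sum_shift (fun x => f (x * a⁻¹) * g x) a
  rw [← this]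
  refine Finset.sum_congr rfl fun x _ => ?_
  rw [mul_inv_cancel_right]

theorem adj_symm (f g : G → ℝ) : ∑ x, f x * adj y g x = ∑ x, g x * adj y f x := by
  simp only [adj, Finset.mul_sum]
  rw [Finset.sum_comm, Finset.sum_comm (f := fun x i => g x * (f (x * y i) + f (x * (y i)⁻¹)))]
  refine Finset.sum_congr rfl fun i _ => ?_
  simp only [mul_add, Finset.sum_add_distrib]
  rw [shift_symm f g (y i), shift_symm f g (y i)⁻¹, inv_inv, add_comm]
  congr 1 <;> exact Finset.sum_congr rfl fun x _ => mul_comm _ _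

theorem key (f : G → ℝ) (B : ℝ) (hQ : QB y B) (hf : ∑ x, f x = 0) (t : ℝ) :
    2 * t * ∑ x, adj y f x ^ 2 ≤ B * (∑ x, f x ^ 2 + t ^ 2 * ∑ x, adj y f x ^ 2) := by
  set g : G → ℝ := adj y f with hg
  have hg0 : ∑ x, g x = 0 := adj_sum y f hf
  have hs : ∀ c : ℝ, ∑ x, (f x + c * g x) = 0 := by
    intro c
    rw [Finset.sum_add_distrib, ← Finset.mul_sum, hf, hg0]
    ring
  have hq : ∀ c : ℝ, ∑ x, (f x + c * g x) ^ 2 =
      ∑ x, f x ^ 2 + 2 * c * ∑ x, f x * g x + c ^ 2 * ∑ x, g x ^ 2 := by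
    intro c
    rw [Finset.mul_sum, Finset.mul_sum, ← Finset.sum_add_distrib, ← Finset.sum_add_distrib]
    refine Finset.sum_congr rfl fun x _ => ?_
    ring
  have ha : ∀ c : ℝ, ∑ x, (f x + c * g x) * adj y (fun z => f z + c * g z) x =
      ∑ x, f x * adj y f x + 2 * c * ∑ x, g x ^ 2 + c ^ 2 * ∑ x, g x * adj y g x := by
    intro c
    have h1 : ∀ x, (f x + c * g x) * adj y (fun z => f z + c * g z) x =
        f x * adj y f x + c * (f x * adj y g x) + c * (g x * adj y f x) +
          c ^ 2 * (g x * adj y g x) := by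
      intro x
      rw [adj_comb]
      ring
    simp only [h1, Finset.sum_add_distrib, ← Finset.mul_sum]
    rw [adj_symm y f g]
    have h2 : ∑ x, g x * adj y f x = ∑ x, g x ^ 2 := by
      refine Finset.sum_congr rfl fun x _ => ?_
      rw [← hg]
      ring
    rw [h2]
    ring
  have h3 := (abs_le.1 (hQ (fun z => f z + t * g z) (hs t))).2
  have h4 := (abs_le.1 (hQ (fun z => f z + (-t) * g z) (hs (-t)))).1
  rw [ha, hq] at h3 h4
  nlinarith [h3, h4]

end POL_

open POL_ in
theorem prove_POL : T_POL := by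
  intro G _ _ d y B hB hQ f hf
  have hF : 0 ≤ ∑ x, f x ^ 2 := Finset.sum_nonneg fun x _ => sq_nonneg _
  rcases hB.eq_or_lt with hB0 | hB0
  · have h := key y f B hQ hf 1
    rw [← hB0] at h ⊢
    linarith
  · have h := key y f B hQ hf B⁻¹
    have h1 := mul_le_mul_of_nonneg_left h hB
    have e1 : B * (2 * B⁻¹ * ∑ x, adj y f x ^ 2) = 2 * ∑ x, adj y f x ^ 2 := by
      field_simp
    have e2 : B * (B * (∑ x, f x ^ 2 + B⁻¹ ^ 2 * ∑ x, adj y f x ^ 2)) =
        B ^ 2 * ∑ x, f x ^ 2 + ∑ x, adj y f x ^ 2 := by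
      field_simp
    rw [e1, e2] at h1
    linarith

end Pool.Agent.RCG
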