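import Pool.Agent.RCG.Targets7

set_option autoImplicit false

/-! # RCG: seventh group, induction over powers of two -/

namespace Pool.Agent.RCG

open Finset Matrix

namespace PW7_

/-- small degree -/
theorem small (x : ℝ) (h0 : 0 ≤ x) (h : x ≤ 8192) : x ≤ 91 * √x := by
  have h1 : √x ≤ 91 := by
    rw [Real.sqrt_le_left (by norm_num)]
    linarith
  calc x = √x * √x := (Real.mul_self_sqrt h0).symm
    _ ≤ 91 * √x := mul_le_mul_of_nonneg_right h1 (Real.sqrt_nonneg _)

/-- the step of the constants -/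
theorem step (x : ℝ) : 91 * √x + 36 * √x ≤ 91 * √(2 * x) := by
  have h1 : (1.4 : ℝ) ≤ √2 := by
    apply Real.le_sqrt_of_sq_le
    norm_num
  rw [Real.sqrt_mul (by norm_num)]
  have h2 := Real.sqrt_nonneg x
  have h3 : 1.4 * √x ≤ √2 * √x := mul_le_mul_of_nonneg_right h1 h2
  linarith

end PW7_

theorem prove_PW7 (h1 : T_ST7) (h2 : T_ELE) : T_PW7 := by
  intro j
  obtain ⟨e1, e2, -⟩ := h2 _ G2 (fun p => (p.1 : ℝ)) (1 / 3)
  induction j with
  | zero =>
    refine e1 _ _ _ ?_ (e2 _)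
    refine PW7_.small _ (by positivity) ?_
    norm_num
  | succ j ih =>
    by_cases hj : j < 12
    · refine e1 _ _ _ ?_ (e2 _)
      refine PW7_.small _ (by positivity) ?_
      have h3 : 2 ^ (j + 1) ≤ 2 ^ 12 := Nat.pow_le_pow_right (by norm_num) (by omega)
      have h4 : ((2 ^ (j + 1) : ℕ) : ℝ) ≤ ((2 ^ 12 : ℕ) : ℝ) := by exact_mod_cast h3
      calc 2 * ((2 ^ (j + 1) : ℕ) : ℝ) ≤ 2 * ((2 ^ 12 : ℕ) : ℝ) := by linarith
        _ = 8192 := by norm_num
    · have hd : 4096 ≤ 2 ^ j := by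
        calc 4096 = 2 ^ 12 := by norm_num
          _ ≤ 2 ^ j := Nat.pow_le_pow_right (by norm_num) (by omega)
      have h3 := h1 (2 ^ j) _ hd (by positivity) ih
      have e : 2 ^ (j + 1) = 2 ^ j + 2 ^ j := by ring
      rw [e]
      refine e1 _ _ _ ?_ h3
      refine (PW7_.step _).trans (le_of_eq ?_)
      congr 2
      push_cast
      ring

end Pool.Agent.RCG
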