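import Pool.Agent.RCG.Targets

set_option autoImplicit false

/-!
# RCG: target PWR, `tr (C D)^(2^k) ≤ tr (C^(2^k) D^(2^k))`
-/

namespace Pool.Agent.RCG

open Finset Matrix

namespace PWR_

variable {ι : Type} [Fintype ι] [DecidableEq ι]

theorem mul_pow_succ (A B : Matrix ι ι ℝ) (n : ℕ) :
    (A * B) ^ (n + 1) = A * ((B * A) ^ n * B) := by
  induction n with
  | zero => simp
  | succ n ih =>
    rw [pow_succ, ih, pow_succ (B * A) n]
    simp only [Matrix.mul_assoc]

theorem tr_cyc (A B : Matrix ι ι ℝ) (n : ℕ) : ((A * B) ^ n).trace = ((B * A) ^ n).trace := by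
  cases n with
  | zero => simp
  | succ n =>
    rw [mul_pow_succ, Matrix.trace_mul_comm, Matrix.mul_assoc, ← pow_succ]

omit [DecidableEq ι] in
theorem abs_tr_le (P Q : Matrix ι ι ℝ) :
    |(P * Q).trace| ≤ ((P * Pᵀ).trace + (Q * Qᵀ).trace) / 2 := by
  have e1 : (P * Q).trace = ∑ i, ∑ j, P i j * Q j i := by
    simp [Matrix.trace, Matrix.mul_apply]
  have e2 : (P * Pᵀ).trace = ∑ i, ∑ j, P i j ^ 2 := by
    simp [Matrix.trace, Matrix.mul_apply, pow_two]
  have e3 : (Q * Qᵀ).trace = ∑ i, ∑ j, Q j i ^ 2 := by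
    rw [Finset.sum_comm]
    simp [Matrix.trace, Matrix.mul_apply, pow_two]
  rw [e1, e2, e3, ← Finset.sum_add_distrib, Finset.sum_div]
  refine (Finset.abs_sum_le_sum_abs _ _).trans (Finset.sum_le_sum fun i _ => ?_)
  rw [← Finset.sum_add_distrib, Finset.sum_div]
  refine (Finset.abs_sum_le_sum_abs _ _).trans (Finset.sum_le_sum fun j _ => ?_)
  rw [abs_mul, ← sq_abs (P i j), ← sq_abs (Q j i)]
  nlinarith [sq_nonneg (|P i j| - |Q j i|)]

theorem b_one (M : Matrix ι ι ℝ) : |(M ^ 2).trace| ≤ (M * Mᵀ).trace := by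
  have h := abs_tr_le M M
  rw [← pow_two] at h
  linarith

/-- the statements `a_k` and `b_(k+1)` -/
theorem both (k : ℕ) :
    (∀ C D : Matrix ι ι ℝ, C.PosSemidef → D.PosSemidef →
      ((C * D) ^ (2 ^ k)).trace ≤ (C ^ (2 ^ k) * D ^ (2 ^ k)).trace) ∧
    ∀ M : Matrix ι ι ℝ, |(M ^ (2 ^ (k + 1))).trace| ≤ ((M * Mᵀ) ^ (2 ^ k)).trace := by
  induction k with
  | zero =>
    refine ⟨fun C D _ _ => by simp, fun M => ?_⟩
    simpa using b_one M
  | succ k ih =>
    obtain ⟨ha, hb⟩ := ih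
    have sym : ∀ C : Matrix ι ι ℝ, C.PosSemidef → Cᵀ = C := by
      intro C hC
      have h := hC.isHermitian.eq
      rwa [Matrix.conjTranspose_eq_transpose_of_trivial] at h
    refine ⟨fun C D hC hD => ?_, fun M => ?_⟩
    · have h1 := (le_abs_self _).trans (hb (C * D))
      have h2 : C * D * (C * D)ᵀ = C * (D * D * C) := by
        rw [Matrix.transpose_mul, sym C hC, sym D hD]
        simp only [Matrix.mul_assoc]
      rw [h2, tr_cyc C (D * D * C)] at h1
      have h3 : D * D * C * C = D ^ 2 * C ^ 2 := by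
        rw [pow_two, pow_two]
        simp only [Matrix.mul_assoc]
      rw [h3, tr_cyc (D ^ 2)] at h1
      have h4 := ha (C ^ 2) (D ^ 2) (hC.pow 2) (hD.pow 2)
      rw [← pow_mul, ← pow_mul, ← pow_succ'] at h4
      exact h1.trans h4
    · have h1 := hb (M ^ 2)
      rw [← pow_mul, ← pow_succ'] at h1
      have h2 : M ^ 2 * (M ^ 2)ᵀ = M * M * Mᵀ * Mᵀ := by
        rw [pow_two, Matrix.transpose_mul]
        simp only [Matrix.mul_assoc]
      rw [h2, tr_cyc (M * M * Mᵀ)] at h1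
      have h3 : Mᵀ * (M * M * Mᵀ) = Mᵀ * M * (M * Mᵀ) := by
        simp only [Matrix.mul_assoc]
      rw [h3] at h1
      have p1 : (Mᵀ * M).PosSemidef := by
        have h := Matrix.posSemidef_conjTranspose_mul_self M
        rwa [Matrix.conjTranspose_eq_transpose_of_trivial] at h
      have p2 : (M * Mᵀ).PosSemidef := by
        have h := Matrix.posSemidef_self_mul_conjTranspose M
        rwa [Matrix.conjTranspose_eq_transpose_of_trivial] at h
      have h4 := ha _ _ p1 p2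
      have h5 := (le_abs_self _).trans (abs_tr_le ((Mᵀ * M) ^ (2 ^ k)) ((M * Mᵀ) ^ (2 ^ k)))
      rw [sym _ (p1.pow _), sym _ (p2.pow _), ← pow_add, ← pow_add, ← two_mul, ← pow_succ',
        tr_cyc Mᵀ M] at h5
      linarith

end PWR_

theorem prove_PWR : T_PWR := fun _ _ _ C D hC hD k => (PWR_.both k).1 C D hC hD

end Pool.Agent.RCG
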