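import Pool.Agent.RCG.Targets6

set_option autoImplicit false

namespace Pool.Agent.RCG

theorem prove_SBI (h1 : T_SUB) : T_SBI := by
  intro G _ _ d i t Φ hΦ h
  induction i with
  | zero => simpa using h
  | succ i ih =>
    have h2 := h1 G (2 ^ i * d) (2 ^ i * d) t (Φ ^ 2 ^ i) (Φ ^ 2 ^ i) (by positivity)
      (by positivity) ih ih
    have e1 : 2 ^ i * d + 2 ^ i * d = 2 ^ (i + 1) * d := by ring
    have e2 : Φ ^ 2 ^ i * Φ ^ 2 ^ i = Φ ^ 2 ^ (i + 1) := by
      rw [← pow_add]; congr 1; ring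
    rw [e1, e2] at h2
    exact h2

end Pool.Agent.RCG
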