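import Pool.Agent.RCG.Targets7
import Pool.Agent.RCG.Fin

set_option autoImplicit false

/-!
# RCG: the scale step (target ST7)
-/

namespace Pool.Agent.RCG

open Finset Matrix

namespace ST7_

theorem nu7_nonneg (d n : ℕ) {q R : ℝ} (hR : 0 < R) : 0 ≤ nu7 d n q R := by
  unfold nu7
  positivity

theorem sqrt8 (d : ℕ) : √(8 * (d : ℝ)) = 2 * √(2 * (d : ℝ)) := by
  rw [show (8 : ℝ) * d = 2 ^ 2 * (2 * d) by ring, Real.sqrt_mul (by norm_num),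
    Real.sqrt_sq (by norm_num)]

end ST7_

theorem prove_ST7 (h1 : T_CNS) (h2 : T_AN7) : T_ST7 := by
  intro d B hd hB hG
  obtain ⟨K1, P1, hK1⟩ := hG
  obtain ⟨K2, P2, hK2⟩ := h2 d hd
  refine ⟨2 * K1 + 2 * K2, max P1 P2, fun i hi => ?_⟩
  have : Fact (i.1).Prime := ⟨i.2⟩
  have hi1 : P1 ≤ (i.1 : ℝ) := (le_max_left _ _).trans hi
  have hi2 : P2 ≤ (i.1 : ℝ) := (le_max_right _ _).trans hi
  have g1 := hK1 i hi1
  obtain ⟨h19, h2d, n, hn, hn2, θ, hθ, e1, e2⟩ := hK2 (i.1 : ℝ) hi2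
  have hd0 : (0 : ℝ) < d := by
    have : 0 < d := by omega
    exact_mod_cast this
  set R : ℝ := 32 * √(2 * (d : ℝ)) with hR
  have hR0 : 0 < R := by positivity
  have hW0 : (0 : ℝ) < 8 * (d : ℝ) := by positivity
  have key := h1 i.1 d n R B (8 * (d : ℝ)) θ (by exact_mod_cast h19) (by exact_mod_cast h2d)
    (by omega) hn hn2 hR0 hB hW0 hθ
  have eB : R + B + 2 * √(8 * (d : ℝ)) = B + 36 * √(2 * (d : ℝ)) := by
    rw [ST7_.sqrt8, hR]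
    ring
  rw [eB] at key
  have hν := ST7_.nu7_nonneg d n (q := (i.1 : ℝ)) hR0
  have hcard := FIN_.card_le i
  change (Fintype.card (SL 2 i.1) : ℝ) ≤ (i.1 : ℝ) ^ (3 : ℝ) at hcard
  change (badCard (SL 2 i.1) d B : ℝ) ≤ K1 * (i.1 : ℝ) ^ (-(1 / 3 : ℝ)) *
    (Fintype.card (SL 2 i.1) : ℝ) ^ d at g1
  change (badCard (SL 2 i.1) (d + d) (B + 36 * √(2 * (d : ℝ))) : ℝ) ≤
    (2 * K1 + 2 * K2) * (i.1 : ℝ) ^ (-(1 / 3 : ℝ)) * (Fintype.card (SL 2 i.1) : ℝ) ^ (d + d)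
  set c : ℝ := (Fintype.card (SL 2 i.1) : ℝ) with hc
  set q : ℝ := (i.1 : ℝ) with hq
  have hc0 : 0 ≤ c := by rw [hc]; positivity
  set Y : ℝ := (1 + Real.exp (θ * (4 * √(8 * (d : ℝ)))) / (16 * (8 * (d : ℝ))) *
    (8 * nu7 d n q R * (8 * (d : ℝ)) + 32 * (d : ℝ) ^ 2 * nu7 d n q R)) ^ d with hY
  have hY0 : 0 ≤ Y := by
    rw [hY]
    positivity
  have e3 : d * c * Real.exp (-(θ * (8 * (d : ℝ) - 4 * d))) * Y ≤
      K2 * q ^ (-(1 / 3 : ℝ)) := by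
    refine le_trans ?_ e2
    refine mul_le_mul_of_nonneg_right ?_ hY0
    refine mul_le_mul_of_nonneg_right ?_ (Real.exp_pos _).le
    exact mul_le_mul_of_nonneg_left hcard hd0.le
  have e4 : 2 * (badCard (SL 2 i.1) d B : ℝ) * c ^ d ≤
      2 * (K1 * q ^ (-(1 / 3 : ℝ)) * c ^ d) * c ^ d := by
    refine mul_le_mul_of_nonneg_right ?_ (by positivity)
    linarith
  refine key.trans ?_
  have e5 : (8 * n * (2 * (d : ℝ)) ^ n / q +
      d * c * Real.exp (-(θ * (8 * (d : ℝ) - 4 * d))) * Y) * c ^ (d + d) ≤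
      (K2 * q ^ (-(1 / 3 : ℝ)) + K2 * q ^ (-(1 / 3 : ℝ))) * c ^ (d + d) :=
    mul_le_mul_of_nonneg_right (add_le_add e1 e3) (by positivity)
  refine (add_le_add e4 e5).trans (le_of_eq ?_)
  rw [pow_add]
  ring

end Pool.Agent.RCG
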