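import Pool.Agent.RCG.Targets4

set_option autoImplicit false

/-!
# RCG, SUB: submultiplicativity of the averaged exponentials
-/

namespace Pool.Agent.RCG

open Finset Matrix

namespace SUB_

theorem smul_herm {ι : Type} [Fintype ι] (c : ℝ) {A : Matrix ι ι ℝ} (hA : A.IsHermitian) :
    (c • A).IsHermitian := by
  unfold Matrix.IsHermitian
  rw [Matrix.conjTranspose_smul, hA.eq]
  simp

/-- `tr (Z Q exp(A) Q) ≥ 0` -/
theorem tr_nonneg {ι : Type} [Fintype ι] [DecidableEq ι] {Z A Q : Matrix ι ι ℝ}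
    (hZ : Z.PosSemidef) (hA : A.IsHermitian) (hQ : Q.IsHermitian) :
    0 ≤ (Z * (Q * NormedSpace.exp A * Q)).trace := by
  have h1 := smul_herm (1 / 2 : ℝ) hA
  have h2 : NormedSpace.exp A = NormedSpace.exp ((1 / 2 : ℝ) • A) *
      NormedSpace.exp ((1 / 2 : ℝ) • A) := by
    rw [← sq, ← Matrix.exp_nsmul]
    congr 1
    ext i j
    simp only [Matrix.smul_apply, smul_eq_mul, nsmul_eq_mul]
    push_cast
    ring
  set E := NormedSpace.exp ((1 / 2 : ℝ) • A) with hE
  have hEh : Eᴴ = E := h1.exp.eq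
  have h3 : (E * Q)ᴴ = Q * E := by rw [Matrix.conjTranspose_mul, hQ.eq, hEh]
  have h4 : (Z * (Q * NormedSpace.exp A * Q)).trace = ((E * Q) * Z * (E * Q)ᴴ).trace := by
    rw [h2, h3, Matrix.trace_mul_comm (E * Q * Z) (Q * E)]
    rw [Matrix.trace_mul_comm Z]
    simp only [Matrix.mul_assoc]
  rw [h4]
  exact (hZ.mul_mul_conjTranspose_same (E * Q)).trace_nonneg

theorem quad_sum {ι κ : Type} [Fintype ι] [Fintype κ] (f : ι → ℝ) (M : κ → Matrix ι ι ℝ) :
    ∑ y, f ⬝ᵥ (M y) *ᵥ f = f ⬝ᵥ (∑ y, M y) *ᵥ f := by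
  rw [Matrix.sum_mulVec, dotProduct_sum]

theorem dot_self {ι : Type} [Fintype ι] (f : ι → ℝ) : f ⬝ᵥ f = ∑ x, f x ^ 2 := by
  unfold dotProduct
  exact Finset.sum_congr rfl fun x _ => (sq (f x)).symm

theorem dot_herm {ι : Type} [Fintype ι] {Q : Matrix ι ι ℝ} (hQ : Q.IsHermitian) (v w : ι → ℝ) :
    v ⬝ᵥ Q *ᵥ w = (Q *ᵥ v) ⬝ᵥ w := by
  have hT : Qᵀ = Q := by
    have := hQ.eq
    rwa [Matrix.conjTranspose_eq_transpose_of_trivial] at this
  rw [Matrix.dotProduct_mulVec, ← Matrix.mulVec_transpose, hT]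

end SUB_

open SUB_ in
open Classical in
theorem prove_SUB (h1 : T_GTP) (h2 : T_TOP) (h3 : T_SPE) (h4 : T_ADM) : T_SUB := by
  intro G _ _ d d' t Φ Φ' hΦ hΦ' hd hd'
  obtain ⟨-, hher, happ, hone, -, -⟩ := h4 G d
  obtain ⟨-, hher', -, hone', -, -⟩ := h4 G d'
  obtain ⟨-, hher2, -, hone2, -, -⟩ := h4 G (d + d')
  have hcomm := (h4 G d).2.2.2.2.1
  have hcomm' := (h4 G d').2.2.2.2.1
  set N : ℝ := (Fintype.card G : ℝ) with hN
  have hNpos : 0 < N := by
    have : 0 < Fintype.card G := Fintype.card_pos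
    rw [hN]
    exact_mod_cast this
  -- the averaging projection
  set J : Matrix G G ℝ := Matrix.of fun _ _ => 1 / N with hJ
  set P : Matrix G G ℝ := 1 - J with hP
  have hJh : J.IsHermitian := by
    ext i j; simp [hJ]
  have hPh : P.IsHermitian := Matrix.isHermitian_one.sub hJh
  have hJJ : J * J = J := by
    ext i j
    rw [Matrix.mul_apply]
    simp only [hJ, Matrix.of_apply, Finset.sum_const, Finset.card_univ, nsmul_eq_mul, ← hN]
    field_simp
  have hPP : P * P = P := by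
    rw [hP, Matrix.sub_mul, Matrix.mul_sub, Matrix.mul_sub, hJJ]
    simp
  have hJv : ∀ v : G → ℝ, J *ᵥ v = fun _ => (∑ x, v x) / N := by
    intro v; ext i
    simp only [Matrix.mulVec, dotProduct, hJ, Matrix.of_apply]
    rw [← Finset.mul_sum]; ring
  have hPv : ∀ v : G → ℝ, ∑ x, v x = 0 → P *ᵥ v = v := by
    intro v hv
    rw [hP, Matrix.sub_mulVec, Matrix.one_mulVec, hJv, hv]
    ext i; simp
  have hPsum : ∀ v : G → ℝ, ∑ x, (P *ᵥ v) x = 0 := by
    intro v
    rw [hP, Matrix.sub_mulVec, Matrix.one_mulVec, hJv]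
    simp only [Pi.sub_apply, Finset.sum_sub_distrib, Finset.sum_const, Finset.card_univ,
      nsmul_eq_mul, ← hN]
    field_simp
    ring
  -- the adjacency matrices commute with P
  have hAP : ∀ (e : ℕ) (y : Fin e → G), adM y * P = P * adM y := by
    intro e y
    have hAJ : adM y * J = J * adM y := by
      obtain ⟨-, hh, -, ho, -, -⟩ := h4 G e
      have hrow : ∀ x, ∑ z, adM y x z = 2 * (e : ℝ) := by
        intro x
        have := congrFun (ho y) x
        simpa [Matrix.mulVec, dotProduct] using this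
      have hsymm : ∀ x z, adM y x z = adM y z x := by
        intro x z
        have := congrFun (congrFun (hh y).eq z) x
        simpa [Matrix.conjTranspose_apply] using this
      ext x z
      rw [Matrix.mul_apply, Matrix.mul_apply]
      simp only [hJ, Matrix.of_apply]
      rw [← Finset.sum_mul, ← Finset.mul_sum, hrow x]
      have : ∑ w, adM y w z = 2 * (e : ℝ) := by
        rw [← hrow z]; exact Finset.sum_congr rfl fun w _ => hsymm w z
      rw [this]; ring
    rw [hP, Matrix.mul_sub, Matrix.sub_mul, hAJ, Matrix.mul_one, Matrix.one_mul]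
  have hexcomm : ∀ (e : ℕ) (y : Fin e → G) (X : Matrix G G ℝ), adM y * X = X * adM y →
      exM y t * X = X * exM y t := by
    intro e y X hX
    have h : Commute (t • adM y) X := by
      show (t • adM y) * X = X * (t • adM y)
      rw [Matrix.smul_mul, Matrix.mul_smul, hX]
    exact (h.exp_left).eq
  set S : Matrix G G ℝ := ∑ z : Fin (d + d') → G, exM z t with hS
  set Sd : Matrix G G ℝ := ∑ z : Fin d → G, exM z t with hSd
  set Sd' : Matrix G G ℝ := ∑ z : Fin d' → G, exM z t with hSd'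
  have hexh : ∀ (e : ℕ) (y : Fin e → G), (exM y t).IsHermitian := fun e y =>
    (smul_herm t ((h4 G e).2.1 y)).exp
  have hexp : ∀ (e : ℕ) (y : Fin e → G), (exM y t).PosSemidef := fun e y =>
    (h3 G (t • adM y) 0 0 (smul_herm t ((h4 G e).2.1 y)) le_rfl).2.2
  have hSpsd : S.PosSemidef := Matrix.posSemidef_sum _ fun z _ => hexp _ z
  have hSP : S * P = P * S := by
    rw [hS, Finset.sum_mul, Finset.mul_sum]
    exact Finset.sum_congr rfl fun z _ => hexcomm _ z P (hAP _ z)
  -- the final inequality for sum zero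
  intro f hf
  rw [quad_sum, ← hS]
  by_cases hP0 : P = 0
  · have hf0 : f = 0 := by
      have := hPv f hf
      rw [hP0, Matrix.zero_mulVec] at this
      exact this.symm
    simp [hf0]
  obtain ⟨μ, Q, hQh, hQQ, hQ0, hQP, hSQ, hQc, hQtop⟩ :=
    h2 G S P hSpsd.isHermitian hPh hPP hP0 hSP
  have hPQ : P * Q = Q := by
    have := congrArg Matrix.conjTranspose hQP
    rwa [Matrix.conjTranspose_mul, hQh.eq, hPh.eq] at this
  have hAQ : ∀ y : Fin d → G, adM y * Q = Q * adM y := fun y =>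
    hQc _ (hcomm (d + d') y t).symm (hAP _ y)
  have hAQ' : ∀ y : Fin d' → G, adM y * Q = Q * adM y := fun y =>
    hQc _ (hcomm' (d + d') y t).symm (hAP _ y)
  have hEQ : ∀ y : Fin d → G, exM y t * Q = Q * exM y t := fun y => hexcomm _ y Q (hAQ y)
  have hEQ' : ∀ y : Fin d' → G, exM y t * Q = Q * exM y t := fun y => hexcomm _ y Q (hAQ' y)
  have hSdQ : Sd * Q = Q * Sd := by
    rw [hSd, Finset.sum_mul, Finset.mul_sum]; exact Finset.sum_congr rfl fun z _ => hEQ z
  have hSdQ' : Sd' * Q = Q * Sd' := by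
    rw [hSd', Finset.sum_mul, Finset.mul_sum]; exact Finset.sum_congr rfl fun z _ => hEQ' z
  -- compression bounds
  have hcomp : ∀ (e : ℕ) (Ψ : ℝ) (T : Matrix G G ℝ), T = ∑ z : Fin e → G, exM z t →
      EB G e t Ψ → T.IsHermitian → ((Ψ * N ^ e) • Q - Q * T * Q).PosSemidef := by
    intro e Ψ T hT hEB hTh
    refine Matrix.PosSemidef.of_dotProduct_mulVec_nonneg ?_ fun v => ?_
    · refine (smul_herm _ hQh).sub ?_
      unfold Matrix.IsHermitian
      rw [Matrix.conjTranspose_mul, Matrix.conjTranspose_mul, hQh.eq, hTh.eq, Matrix.mul_assoc]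
    · rw [star_trivial, Matrix.sub_mulVec, dotProduct_sub, Matrix.smul_mulVec, dotProduct_smul]
      set w := Q *ᵥ v with hw
      have hw0 : ∑ x, w x = 0 := by
        have : w = P *ᵥ w := by rw [hw, Matrix.mulVec_mulVec, hPQ]
        rw [this]; exact hPsum w
      have e1 : v ⬝ᵥ Q *ᵥ v = w ⬝ᵥ w := by
        have : Q *ᵥ v = Q *ᵥ (Q *ᵥ v) := by rw [Matrix.mulVec_mulVec, hQQ]
        rw [this, dot_herm hQh]
      have e2 : v ⬝ᵥ (Q * T * Q) *ᵥ v = w ⬝ᵥ T *ᵥ w := by
        rw [← Matrix.mulVec_mulVec, ← Matrix.mulVec_mulVec, dot_herm hQh]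
      have e3 := hEB w hw0
      rw [quad_sum, ← hT, ← dot_self] at e3
      rw [e1, e2, smul_eq_mul]
      linarith
  have hSdh : Sd.IsHermitian := (Matrix.posSemidef_sum _ fun z _ => hexp _ z).isHermitian
  have hSdh' : Sd'.IsHermitian := (Matrix.posSemidef_sum _ fun z _ => hexp _ z).isHermitian
  have hZ := hcomp d Φ Sd hSd hd hSdh
  have hZ' := hcomp d' Φ' Sd' hSd' hd' hSdh'
  have htrQ : 0 < Q.trace := by
    have h5 : Q = Qᴴ * Q := by rw [hQh.eq, hQQ]
    have h6 : 0 ≤ Q.trace := by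
      rw [h5]; exact (Matrix.posSemidef_conjTranspose_mul_self Q).trace_nonneg
    refine lt_of_le_of_ne h6 fun h7 => hQ0 ?_
    rw [h5] at h7
    exact Matrix.trace_conjTranspose_mul_self_eq_zero_iff.1 h7.symm
  -- trace estimates
  have hA1 : (Q * Sd').trace ≤ Φ' * N ^ d' * Q.trace := by
    have h5 := hZ'.trace_nonneg
    rw [Matrix.trace_sub, Matrix.trace_smul, smul_eq_mul] at h5
    have h6 : (Q * Sd' * Q).trace = (Q * Sd').trace := by
      rw [Matrix.trace_mul_comm, ← Matrix.mul_assoc, hQQ]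
    rw [h6] at h5
    linarith
  have hA2 : ∀ y' : Fin d' → G, (Q * Sd * exM y' t).trace ≤ Φ * N ^ d * (Q * exM y' t).trace := by
    intro y'
    have h5 := tr_nonneg hZ (smul_herm t (hher' y')) hQh
    have h5' : 0 ≤ (((Φ * N ^ d) • Q - Q * Sd * Q) * (Q * exM y' t * Q)).trace := h5
    rw [Matrix.sub_mul, Matrix.trace_sub, Matrix.smul_mul, Matrix.trace_smul, smul_eq_mul] at h5'
    have h6 : (Q * (Q * exM y' t * Q)).trace = (Q * exM y' t).trace := by
      rw [← Matrix.mul_assoc, ← Matrix.mul_assoc, hQQ, Matrix.trace_mul_comm,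
        ← Matrix.mul_assoc, hQQ]
    have h7 : (Q * Sd * Q * (Q * exM y' t * Q)).trace = (Q * Sd * exM y' t).trace := by
      have e1 : Q * Sd * Q * (Q * exM y' t * Q) = Q * Sd * exM y' t * Q := by
        calc Q * Sd * Q * (Q * exM y' t * Q) = Q * Sd * (Q * Q) * (exM y' t * Q) := by
              simp only [Matrix.mul_assoc]
          _ = Q * (Sd * Q) * (exM y' t * Q) := by rw [hQQ]; simp only [Matrix.mul_assoc]
          _ = (Q * Q) * Sd * (exM y' t * Q) := by rw [hSdQ]; simp only [Matrix.mul_assoc]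
          _ = Q * Sd * exM y' t * Q := by rw [hQQ]; simp only [Matrix.mul_assoc]
      rw [e1, Matrix.trace_mul_comm]
      simp only [← Matrix.mul_assoc]
      rw [hQQ]
    rw [h6, h7] at h5'
    linarith
  have hsum : (Q * S).trace ≤ (Q * (Sd * Sd')).trace := by
    have e1 : S = ∑ p : (Fin d → G) × (Fin d' → G), exM (Fin.append p.1 p.2) t := by
      rw [hS]
      exact (Equiv.sum_comp (Fin.appendEquiv (α := G) d d') fun z => exM z t).symm
    have e2 : Q * S = ∑ p : (Fin d → G) × (Fin d' → G), Q * exM (Fin.append p.1 p.2) t := by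
      rw [e1, Finset.mul_sum]
    have e3 : Q * (Sd * Sd') = ∑ p : (Fin d → G) × (Fin d' → G), Q * (exM p.1 t * exM p.2 t) := by
      rw [hSd, hSd', Finset.sum_mul_sum, Fintype.sum_prod_type, Finset.mul_sum]
      exact Finset.sum_congr rfl fun y _ => Finset.mul_sum _ _ _
    rw [e2, e3, Matrix.trace_sum, Matrix.trace_sum]
    refine Finset.sum_le_sum fun p _ => ?_
    have h5 := h1 G (t • adM p.1) (t • adM p.2) Q (smul_herm t (hher p.1))
      (smul_herm t (hher' p.2)) hQh hQQ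
      (by rw [Matrix.smul_mul, Matrix.mul_smul, hAQ p.1])
      (by rw [Matrix.smul_mul, Matrix.mul_smul, hAQ' p.2])
    have e4 : exM (Fin.append p.1 p.2) t = NormedSpace.exp (t • adM p.1 + t • adM p.2) := by
      unfold exM
      rw [happ, smul_add]
    rw [e4]
    exact h5
  have hmu : μ * Q.trace ≤ Φ * Φ' * N ^ (d + d') * Q.trace := by
    have e1 : (Q * S).trace = μ * Q.trace := by
      rw [Matrix.trace_mul_comm, hSQ, Matrix.trace_smul, smul_eq_mul]
    have e2 : (Q * (Sd * Sd')).trace = ∑ y' : Fin d' → G, (Q * Sd * exM y' t).trace := by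
      rw [← Matrix.mul_assoc, hSd', Finset.mul_sum, Matrix.trace_sum]
    have e3 : ∑ y' : Fin d' → G, (Q * exM y' t).trace = (Q * Sd').trace := by
      rw [hSd', Finset.mul_sum, Matrix.trace_sum]
    calc μ * Q.trace = (Q * S).trace := e1.symm
      _ ≤ (Q * (Sd * Sd')).trace := hsum
      _ = ∑ y' : Fin d' → G, (Q * Sd * exM y' t).trace := e2
      _ ≤ ∑ y' : Fin d' → G, Φ * N ^ d * (Q * exM y' t).trace :=
          Finset.sum_le_sum fun y' _ => hA2 y'
      _ = Φ * N ^ d * (Q * Sd').trace := by rw [← Finset.mul_sum, e3]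
      _ ≤ Φ * N ^ d * (Φ' * N ^ d' * Q.trace) :=
          mul_le_mul_of_nonneg_left hA1 (by positivity)
      _ = Φ * Φ' * N ^ (d + d') * Q.trace := by rw [pow_add]; ring
  have hmu' : μ ≤ Φ * Φ' * N ^ (d + d') := le_of_mul_le_mul_right hmu htrQ
  have h5 := hQtop f (hPv f hf)
  refine h5.trans ?_
  rw [dot_self]
  exact mul_le_mul_of_nonneg_right hmu' (Finset.sum_nonneg fun x _ => sq_nonneg _)

end Pool.Agent.RCG
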