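import Pool.Agent.RCG.SZG

set_option autoImplicit false

/-!
# RCG-SZ2: a Schwartz-Zippel bound for words in SL(2)

Over every field a matrix of determinant one is a product `U(x) L(y) U(z) L(w)`.
-/

namespace Pool.Agent.RCG

open Finset Matrix

namespace SZ2_

/-- the positions -/
def pos : Fin 4 → Fin 2 × Fin 2 := ![(0, 1), (1, 0), (0, 1), (1, 0)]

theorem hpos : ∀ e, (pos e).1 ≠ (pos e).2 := by decide

theorem fac (K : Type) [Field K] (g : SpecialLinearGroup (Fin 2) K) :
    ∃ t : Fin 4 → K, SZG_.xx pos hpos t = g := by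
  classical
  have hdet : g.1 0 0 * g.1 1 1 - g.1 0 1 * g.1 1 0 = 1 := by
    have h := g.2
    rwa [Matrix.det_fin_two] at h
  obtain ⟨w, hw⟩ : ∃ w : K, g.1 1 0 - g.1 1 1 * w ≠ 0 := by
    by_cases hc : g.1 1 0 = 0
    · refine ⟨1, ?_⟩
      rw [hc, mul_one, zero_sub, neg_ne_zero]
      intro hd
      rw [hc, hd] at hdet
      simp at hdet
    · exact ⟨0, by simpa using hc⟩
  have hc' := hw
  set c' := g.1 1 0 - g.1 1 1 * w with hc'd
  set a' := g.1 0 0 - g.1 0 1 * w with ha'd
  refine ⟨![(a' - 1) / c', c', (g.1 1 1 - 1) / c', w], ?_⟩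
  apply Subtype.ext
  have hx : (SZG_.xx pos hpos ![(a' - 1) / c', c', (g.1 1 1 - 1) / c', w]).1 =
      Matrix.transvection 0 1 ((a' - 1) / c') * (Matrix.transvection 1 0 c' *
        (Matrix.transvection 0 1 ((g.1 1 1 - 1) / c') * Matrix.transvection 1 0 w)) := by
    unfold SZG_.xx
    simp only [List.ofFn_succ, List.ofFn_zero, List.prod_cons, List.prod_nil, mul_one]
    rfl
  rw [hx]
  have hdet' : a' * g.1 1 1 - g.1 0 1 * c' = 1 := by
    rw [ha'd, hc'd]
    linear_combination hdet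
  ext i j
  fin_cases i <;> fin_cases j <;>
    simp [Matrix.transvection, Matrix.mul_apply, Fin.sum_univ_two, Matrix.one_apply,
      Matrix.single_apply] <;> field_simp
  · rw [ha'd, hc'd]
    linear_combination w * hdet
  · linear_combination hdet'
  · rw [hc'd]
    ring
  · ring

end SZ2_

theorem prove_SZ2 : T_SZ 2 4 :=
  SZG_.main SZ2_.pos SZ2_.hpos SZ2_.fac

end Pool.Agent.RCG
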