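import Pool.Agent.RCG.Targets7
import Pool.Agent.RCG.SPE

/-!
# RCG: T_TMO, monotonicity of the trace of the exponential
-/

set_option autoImplicit false

namespace Pool.Agent.RCG

open Finset Matrix

namespace TMO_

variable {ι : Type} [Fintype ι] [DecidableEq ι]

/-- the trace in an orthonormal basis -/
theorem trace_basis (U X : Matrix ι ι ℝ) (hU' : U * Uᵀ = 1) :
    X.trace = ∑ i, (U *ᵥ Pi.single i 1) ⬝ᵥ X *ᵥ (U *ᵥ Pi.single i 1) := by
  have h1 : X.trace = (Uᵀ * X * U).trace := by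
    rw [Matrix.trace_mul_comm, ← Matrix.mul_assoc, hU', Matrix.one_mul]
  rw [h1]
  unfold Matrix.trace
  refine Finset.sum_congr rfl fun i _ => ?_
  rw [Matrix.diag_apply]
  have h2 : (U *ᵥ Pi.single i 1) ⬝ᵥ X *ᵥ (U *ᵥ Pi.single i 1) =
      (Pi.single i (1 : ℝ) : ι → ℝ) ⬝ᵥ (Uᵀ * X * U) *ᵥ (Pi.single i 1) := by
    rw [← mulVec_mulVec, ← mulVec_mulVec, dotProduct_mulVec (Pi.single i 1 : ι → ℝ) Uᵀ,
      ← mulVec_transpose, transpose_transpose]
  rw [h2, single_one_dotProduct, mulVec_single_one, col_apply]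

theorem trace_FF (U : Matrix ι ι ℝ) (hU : Uᵀ * U = 1) (d : ι → ℝ) :
    (SPC_.FF U d).trace = ∑ i, d i := by
  unfold SPC_.FF
  rw [Matrix.trace_mul_comm, ← Matrix.mul_assoc, hU, Matrix.one_mul, Matrix.trace_diagonal]

theorem quad_single (U : Matrix ι ι ℝ) (hU : Uᵀ * U = 1) (d : ι → ℝ) (i : ι) :
    (U *ᵥ Pi.single i 1) ⬝ᵥ (SPC_.FF U d) *ᵥ (U *ᵥ Pi.single i 1) = d i := by
  have h2 : Uᵀ *ᵥ (U *ᵥ Pi.single i 1) = Pi.single i 1 := by
    rw [mulVec_mulVec, hU, one_mulVec]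
  rw [SPC_.FF_quad, h2, SPE_.sum_single]

theorem norm_single (U : Matrix ι ι ℝ) (hU : Uᵀ * U = 1) (hU' : U * Uᵀ = 1) (i : ι) :
    (U *ᵥ Pi.single i 1) ⬝ᵥ (U *ᵥ Pi.single i 1) = 1 := by
  have h := quad_single U hU (fun _ => 1) i
  rwa [SPC_.FF_one U hU', one_mulVec] at h

end TMO_

open TMO_ in
/-- monotonicity of the trace of the exponential -/
theorem prove_TMO (h : T_SPE) : T_TMO := by
  intro ι _ _ H H' hH hH' hle
  obtain ⟨U, d, hU, hU', hd⟩ := SPC_.diag H hH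
  have hexp : NormedSpace.exp H = SPC_.FF U (fun i => Real.exp (d i)) := by
    have h1 := SPE_.exp_FF U hU hU' d 1
    rw [one_smul, ← hd] at h1
    rw [h1]
    simp only [one_mul]
  rw [hexp, trace_FF U hU, trace_basis U (NormedSpace.exp H') hU']
  refine Finset.sum_le_sum fun i _ => ?_
  set v : ι → ℝ := U *ᵥ Pi.single i 1 with hv
  have hv1 : v ⬝ᵥ v = 1 := norm_single U hU hU' i
  have hdi : v ⬝ᵥ H *ᵥ v = d i := by
    rw [hd]
    exact quad_single U hU d i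
  have h2 := (h ι H' 1 (v ⬝ᵥ H' *ᵥ v) hH' zero_le_one).2.1 v (by rw [hv1, mul_one])
  rw [one_mul, hv1, mul_one, one_smul] at h2
  refine le_trans (Real.exp_le_exp.mpr ?_) h2
  rw [← hdi]
  exact hle v

end Pool.Agent.RCG
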