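import Pool.Agent.RCG.Targets

set_option autoImplicit false

/-!
# RCG, target TR2: equidistribution of the trace of a nontrivial word in `SL (2, p)`

Combination of the Schwartz-Zippel bound `T_SZ 2 4` with the fact `T_NC2` that the trace of a
nontrivial word is not constant over `(ZMod p)[X]`.
-/

namespace Pool.Agent.RCG

open Finset Matrix

namespace TR2_

/-- naturality of the evaluation of words -/
theorem map_ev {G H : Type*} [Group G] [Group H] (φ : G →* H) {d n : ℕ} (y : Fin d → G)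
    (w : Fin n → Ltr d) : φ (ev y w) = ev (fun i => φ (y i)) w := by
  have h : φ.comp (FreeGroup.lift y) = FreeGroup.lift (fun i => φ (y i)) := by
    ext i
    simp
  unfold ev
  rw [← h]
  rfl

/-- the polynomial `X_(0,0) + X_(1,1) - t` -/
noncomputable def Q {p : ℕ} (t : ZMod p) : MvPolynomial (Fin 2 × Fin 2) (ZMod p) :=
  MvPolynomial.X (0, 0) + MvPolynomial.X (1, 1) - MvPolynomial.C t

theorem Q_deg {p : ℕ} [Fact p.Prime] (t : ZMod p) : (Q t).totalDegree ≤ 1 := by
  unfold Q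
  refine (MvPolynomial.totalDegree_sub _ _).trans (max_le ?_ (by simp))
  refine (MvPolynomial.totalDegree_add _ _).trans (max_le ?_ ?_) <;> simp

theorem aeval_Q {p : ℕ} {K : Type*} [Field K] [Algebra (ZMod p) K] (t : ZMod p)
    (M : Fin 2 × Fin 2 → K) :
    MvPolynomial.aeval M (Q t) = M (0, 0) + M (1, 1) - algebraMap (ZMod p) K t := by
  simp [Q]

theorem eval_Q {p : ℕ} (t : ZMod p) (M : Fin 2 × Fin 2 → ZMod p) :
    MvPolynomial.eval M (Q t) = M (0, 0) + M (1, 1) - t := by
  simp [Q]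

end TR2_

open TR2_ in
/-- TR2 -/
theorem prove_TR2 (h1 : T_SZ 2 4) (h2 : T_NC2) : T_TR2 := by
  intro p _ d n w t hp hw
  obtain ⟨z, hz⟩ := h2 p d n w hp hw
  let ι : Polynomial (ZMod p) →+* RatFunc (ZMod p) :=
    algebraMap (Polynomial (ZMod p)) (RatFunc (ZMod p))
  let z' : Fin d → Matrix.SpecialLinearGroup (Fin 2) (RatFunc (ZMod p)) :=
    fun i => Matrix.SpecialLinearGroup.map ι (z i)
  have hev : ev z' w = Matrix.SpecialLinearGroup.map ι (ev z w) := by
    rw [map_ev]
  have hent : ∀ i j : Fin 2, (ev z' w).1 i j = ι ((ev z w).1 i j) := by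
    intro i j
    rw [hev]
    rfl
  have hinj : Function.Injective ι := IsFractionRing.injective _ _
  have hne : MvPolynomial.aeval (fun ij : Fin 2 × Fin 2 => (ev z' w).1 ij.1 ij.2) (Q t) ≠ 0 := by
    rw [aeval_Q]
    simp only [hent]
    have hC : algebraMap (ZMod p) (RatFunc (ZMod p)) t = ι (Polynomial.C t) := by
      rw [IsScalarTower.algebraMap_apply (ZMod p) (Polynomial (ZMod p)) (RatFunc (ZMod p))]
      rfl
    rw [hC, ← map_add, ← map_sub]
    intro h0
    have h3 : (ev z w).1 0 0 + (ev z w).1 1 1 - Polynomial.C t = 0 := by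
      apply hinj
      rw [h0, map_zero]
    have h4 : (ev z w).1 0 0 + (ev z w).1 1 1 = Polynomial.C t := sub_eq_zero.mp h3
    rw [h4, Polynomial.natDegree_C] at hz
    omega
  have key := h1 p d n w (Q t) (RatFunc (ZMod p)) z' hne
  have hcard : Nat.card {y : Fin d → SL 2 p // (ev y w).1 0 0 + (ev y w).1 1 1 = t} =
      Nat.card {y : Fin d → SL 2 p //
        MvPolynomial.eval (fun ij : Fin 2 × Fin 2 => (ev y w).1 ij.1 ij.2) (Q t) = 0} := by
    apply Nat.card_congr
    apply Equiv.subtypeEquivRight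
    intro y
    rw [eval_Q, sub_eq_zero]
  rw [hcard]
  refine key.trans ?_
  have h5 : ((Q t).totalDegree : ℝ) ≤ 1 := by exact_mod_cast Q_deg t
  have h6 : (0 : ℝ) ≤ (Fintype.card (SL 2 p) : ℝ) ^ d := by positivity
  have h7 : (0 : ℝ) ≤ ((4 : ℕ) : ℝ) * n := by positivity
  calc ((4 : ℕ) : ℝ) * n * ((Q t).totalDegree : ℝ) * (Fintype.card (SL 2 p) : ℝ) ^ d
      ≤ ((4 : ℕ) : ℝ) * n * 1 * (Fintype.card (SL 2 p) : ℝ) ^ d := by gcongr
    _ = 4 * n * (Fintype.card (SL 2 p) : ℝ) ^ d := by push_cast; ring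

end Pool.Agent.RCG
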