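import Pool.Agent.RCG.Targets4

set_option autoImplicit false

/-!
# RCG: target TRV, the trivial exponential bound
-/

namespace Pool.Agent.RCG

open Finset Matrix

open Classical in
theorem prove_TRV (h1 : T_SPE) (h2 : T_ADM) : T_TRV := by
  intro G _ _ d σ t hσ ht
  obtain ⟨hA1, hA2, -, -, -, hA6⟩ := h2 G d
  refine ⟨?_, ?_⟩
  · intro f _
    have key : ∀ y : Fin d → G, f ⬝ᵥ (exM y (σ * t)) *ᵥ f ≤
        Real.exp (2 * d * t) * (f ⬝ᵥ f) := by
      intro y
      have hH : (σ • adM y).IsHermitian := by
        have h3 := hA2 y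
        unfold Matrix.IsHermitian at h3 ⊢
        rw [Matrix.conjTranspose_smul, h3]
        simp
      have h4 := (h1 G (σ • adM y) t (2 * d) hH ht).1 (by
        intro v
        have h5 := abs_le.mp (hA6 y v)
        rw [Matrix.smul_mulVec, dotProduct_smul, smul_eq_mul]
        rcases hσ with rfl | rfl
        · linarith [h5.2]
        · linarith [h5.1]) f
      have h6 : exM y (σ * t) = NormedSpace.exp (t • (σ • adM y)) := by
        unfold exM
        rw [smul_smul, mul_comm σ t]
      rw [h6]
      refine h4.trans (le_of_eq ?_)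
      rw [show t * (2 * (d : ℝ)) = 2 * d * t by ring]
    refine (Finset.sum_le_sum fun y _ => key y).trans (le_of_eq ?_)
    rw [Finset.sum_const, Finset.card_univ, Fintype.card_fun, Fintype.card_fin, nsmul_eq_mul]
    have h7 : f ⬝ᵥ f = ∑ x, f x ^ 2 := by
      unfold dotProduct
      exact Finset.sum_congr rfl fun x _ => by ring
    rw [h7]
    push_cast
    ring
  · intro s Φ Φ' hΦ hE f hf
    refine (hE f hf).trans ?_
    have h8 : 0 ≤ (Fintype.card G : ℝ) ^ d := by positivity
    have h9 : 0 ≤ ∑ x, f x ^ 2 := Finset.sum_nonneg fun x _ => sq_nonneg _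
    have h10 := mul_le_mul_of_nonneg_right hΦ (mul_nonneg h8 h9)
    nlinarith [h10]

end Pool.Agent.RCG
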