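import Pool.Agent.RCG.Targets6

set_option autoImplicit false

/-!
# RCG: seventh group of targets: `|λ| <= C √k` with an absolute constant `C`

See ideas row KEY4 (helper90). `k = 2 d` is the degree. The final targets are `T_FN7`, `T_BC7`.
Write the proof of `T_XXX` in a new file `Pool/Agent/RCG/XXX.lean`: `theorem prove_XXX
(h : T_YYY) ... : T_XXX`, helper lemmas in a sub-namespace `XXX_`.
-/

namespace Pool.Agent.RCG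

open Finset Matrix

open Classical in
/-- the matrix of the right translation, `(Rm h f) x = f (x h)` -/
noncomputable def Rm {G : Type} [Group G] [Fintype G] (h : G) : Matrix G G ℝ :=
  Matrix.of fun x z => if z = x * h then (1 : ℝ) else 0

/-- the average of the conjugates of `Q` is at most `c` on functions of sum zero -/
def NB {G : Type} [Group G] [Fintype G] (Q : Matrix G G ℝ) (c : ℝ) : Prop :=
  ∀ f : G → ℝ, ∑ x, f x = 0 →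
    ∑ h : G, f ⬝ᵥ (Rm h * Q * Rm h⁻¹) *ᵥ f ≤ c * (Fintype.card G : ℝ) * (f ⬝ᵥ f)

/-- `Q` is an orthogonal projection which kills the constants -/
def Pj {G : Type} [Group G] [Fintype G] (Q : Matrix G G ℝ) : Prop :=
  Q.IsHermitian ∧ Q * Q = Q ∧ Q *ᵥ (fun _ => (1 : ℝ)) = 0

/-- `|A_y Q v|² <= W |v|²` -/
def OB {G : Type} [Group G] [Fintype G] {d : ℕ} (y : Fin d → G) (Q : Matrix G G ℝ) (W : ℝ) :
    Prop :=
  ∀ v : G → ℝ, (adM y *ᵥ (Q *ᵥ v)) ⬝ᵥ (adM y *ᵥ (Q *ᵥ v)) ≤ W * (v ⬝ᵥ v)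

/-- every nonzero space of functions of sum zero which is invariant under left and right
translations has dimension at least `D` -/
def MinDim2 (G : Type) [Group G] [Fintype G] (D : ℝ) : Prop :=
  ∀ V : Submodule ℂ (G → ℂ), V ≠ ⊥ → (∀ f ∈ V, ∑ x, f x = 0) →
    (∀ f ∈ V, ∀ g : G, (fun x => f (g * x)) ∈ V) →
    (∀ f ∈ V, ∀ g : G, (fun x => f (x * g)) ∈ V) → D ≤ Module.finrank ℂ V

/-! ## Pointwise character bound -/

open Classical in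
/-- the power `A_y^n` of the adjacency matrix; `pwM y n *ᵥ f = (adj y)^[n] f` -/
noncomputable def pwM {G : Type} [Group G] [Fintype G] {d : ℕ} (y : Fin d → G) (n : ℕ) :
    Matrix G G ℝ := (adM y) ^ n

/-- BD2. Let `V` be bi-invariant, `V ≠ 0`. For the left translation `T f x = f (u x)` by
`u = [1,1;0,1]` on `V` the argument of `T_DIM2` (see `Pool/Agent/RCG/DIM2.lean`) gives `(p-1)/2`
different eigenvalues `ζ ≠ 1`. Every eigenspace `V_ζ` is nonzero, invariant under right translations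
(they commute with `T`) and consists of functions of sum zero, so `T_DIM2` applied to
`{x -> f (x⁻¹)}` gives `dim V_ζ >= (p-1)/2`. The spaces `V_ζ` are linearly independent. -/
def T_BD2 : Prop := ∀ (p : ℕ) [Fact p.Prime], p ≠ 2 →
  MinDim2 (SL 2 p) ((((p : ℝ) - 1) / 2) ^ 2)

/-- KAP. Let `K x = #{h : h g h⁻¹ = x} / |G|`, a class function. The operator
`(C f) x = sum_y K y f (x y)` commutes with left AND right translations, so the eigenspaces of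
`C* C` on functions of sum zero are bi-invariant; exactly as in `T_MIX` (see `Pool/Agent/RCG/MIX.lean`)
`D |C f|² <= |G| (sum K²) |f|²`, and `sum K² = |G| |C(g)| / |G|²`. Finally
`|sum_h sum_x f x f (x h g h⁻¹)| = |G| |<f, C f>| <= |G| |f| |C f|`. -/
def T_KAP : Prop := ∀ (G : Type) [Group G] [Fintype G] (D : ℝ), 0 < D → MinDim2 G D →
  ∀ (g : G) (f : G → ℝ), ∑ x, f x = 0 →
    |∑ h : G, ∑ x, f x * f (x * (h * g * h⁻¹))| ≤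
      Fintype.card G * √((Nat.card {h : G // h * g = g * h} : ℝ) / D) * ∑ x, f x ^ 2

/-- KP2. Hypotheses `T_BD2`, `T_KAP`, `T_CEN2`: `√(2 p/((p-1)/2)²) <= 3/√p` for `p >= 19`. -/
def T_KP2 : Prop := ∀ (p : ℕ) [Fact p.Prime], 19 ≤ p → ∀ g : SL 2 p,
  (g : Matrix (Fin 2) (Fin 2) (ZMod p)) ≠ 1 → (g : Matrix (Fin 2) (Fin 2) (ZMod p)) ≠ -1 →
  ∀ f : SL 2 p → ℝ, ∑ x, f x = 0 →
    |∑ h : SL 2 p, ∑ x, f x * f (x * (h * g * h⁻¹))| ≤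
      3 / √(p : ℝ) * Fintype.card (SL 2 p) * ∑ x, f x ^ 2

/-- the tuple has a short relation: a nontrivial word of length `n` with value `± 1` -/
def Rel {p d : ℕ} [Fact p.Prime] (n : ℕ) (y : Fin d → SL 2 p) : Prop :=
  ∃ w : Fin n → Ltr d, FreeGroup.mk (List.ofFn w) ≠ 1 ∧ ((ev y w).1 = 1 ∨ (ev y w).1 = -1)

/-- GIR. Hypothesis `T_TR2` with `t = 2` and `t = -2`, union over the `(2 d)^n` words. -/
def T_GIR : Prop := ∀ (p : ℕ) [Fact p.Prime] (d n : ℕ), 2 * d < p →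
  (p : ℝ) * Nat.card {y : Fin d → SL 2 p // Rel n y} ≤
    8 * n * (2 * (d : ℝ)) ^ n * (Fintype.card (SL 2 p) : ℝ) ^ d

/-- NUM. Hypotheses `T_ADM`, `T_ITR`, `T_KES`, `T_KP2`. `f.(R_h A_y^n R_h⁻¹) f =
sum over words of sum_x f x f (x h (ev y w) h⁻¹)`: with `f' = R_h⁻¹ f` this is
`f'.A_y^n f' = sum_w sum_x f' x f' (x ev y w)` (ITR, ADM), and `f' x = f (x h⁻¹)`. Trivial words
have `ev y w = 1`, there are at most `(2 √k)^n`, and each gives `|G| f.f`; every other word gives at most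
`3/√p |G| f.f` by KP2, and there are at most `k^n`. -/
def T_NUM : Prop := ∀ (p : ℕ) [Fact p.Prime] (d n : ℕ), 19 ≤ p → 1 ≤ d → ∀ y : Fin d → SL 2 p,
  ¬ Rel n y → NB (pwM y n) ((2 * √(2 * (d : ℝ))) ^ n + (2 * (d : ℝ)) ^ n * (3 / √(p : ℝ)))

/-- PRO. Hypotheses `T_SPC`, `T_ADM`. Let `J` be the matrix with all entries `1/|G|` and
`M = A_y - 2 d J`: it kills the constants (`M^n` too) and agrees with `A_y` on functions of sum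
zero. Take `Q` from SPC for `M`, `θ = R`, `n`. `1.Q1 <= R^(-n) 1.M^n 1 = 0`, so `Q 1 = 0`. For `f` of sum
zero `f.(R_h Q R_h⁻¹) f = f'.Q f' <= R^(-n) f'.M^n f' = R^(-n) f'.A^n f'`, `f' = R_h⁻¹ f`, so `NB`.
`QB y B` gives `|v.M v| <= B v.v` for all `v` (`v = c 1 + f`), so SPC gives the last claim. -/
def T_PRO : Prop := ∀ (G : Type) [Group G] [Fintype G] (d n : ℕ) (y : Fin d → G) (R c : ℝ),
  0 < R → Even n → 2 ≤ n → NB (pwM y n) c →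
    ∃ Q : Matrix G G ℝ, Pj Q ∧ NB Q (c / R ^ n) ∧ ∀ B : ℝ, 0 ≤ B → QB y B →
      ∀ f : G → ℝ, ∑ x, f x = 0 → |f ⬝ᵥ adM y *ᵥ f| ≤ R * (f ⬝ᵥ f) + B * (f ⬝ᵥ Q *ᵥ f)

/-! ## The main lemma -/

/-- EXZ: in an orthonormal eigenbasis this is the scalar inequality
`e^(θ x) <= 1 + θ x + (e^(θ z)/z²) x²` for `|x| <= z`, `θ >= 0` (all eigenvalues of `Z` have absolute
value `<= z`). For `θ = 0` clear. Otherwise `a = θ z > 0`, `u = θ x`, `|u| <= a`: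
`e^u - 1 - u <= (u²/a²) (e^a - 1 - a) <= (u²/a²) e^a = (x²/z²) e^a`, by the power series (terms
`u^m/m! <= (u²/a²) a^m/m!`, `m >= 2`), or since `(e^u - 1 - u)/u²` is increasing. -/
def T_EXZ : Prop := ∀ (ι : Type) [Fintype ι] [DecidableEq ι] (Z : Matrix ι ι ℝ) (z θ : ℝ),
  Z.IsHermitian → 0 < z → 0 ≤ θ → (∀ v : ι → ℝ, |v ⬝ᵥ Z *ᵥ v| ≤ z * (v ⬝ᵥ v)) →
  ∀ v : ι → ℝ, v ⬝ᵥ (NormedSpace.exp (θ • Z)) *ᵥ v ≤
    v ⬝ᵥ v + θ * (v ⬝ᵥ Z *ᵥ v) + Real.exp (θ * z) / z ^ 2 * (v ⬝ᵥ (Z * Z) *ᵥ v)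

/-- TMO: monotonicity of the trace of the exponential. Hypothesis `T_SPE`. Let `e_i` be an
orthonormal eigenbasis of `H`: `tr exp H = sum exp (e_i.H e_i) <= sum exp (e_i.H' e_i) <=
sum e_i.exp(H') e_i = tr exp H'` (Jensen, `T_SPE` (2) with `t = 1`). -/
def T_TMO : Prop := ∀ (ι : Type) [Fintype ι] [DecidableEq ι] (H H' : Matrix ι ι ℝ),
  H.IsHermitian → H'.IsHermitian → (∀ v : ι → ℝ, v ⬝ᵥ H *ᵥ v ≤ v ⬝ᵥ H' *ᵥ v) →
    (NormedSpace.exp H).trace ≤ (NormedSpace.exp H').trace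

/-- STZ (one step). Hypotheses `T_GT`, `T_EXZ`, `T_TMO`, `T_SPE`.
`θ (S + Z + H) <= θ (S + Z) + θ b`, so by TMO and GT `tr exp (θ (S + Z + H)) <= e^(θ b) tr (exp (θ S) exp (θ Z))`. By EXZ
`sum_y exp (θ Z y) <= |Y| (1 + e^(θ z) ν/z²)` as quadratic forms (the linear terms cancel), and
`tr (E X) <= c tr E` for `E` positive semidefinite, `X <= c` (see `Pool/Agent/RCG/AWS.lean`). -/
def T_STZ : Prop := ∀ (ι Y : Type) [Fintype ι] [DecidableEq ι] [Fintype Y] (S : Matrix ι ι ℝ)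
  (Z H : Y → Matrix ι ι ℝ) (θ z ν b : ℝ), S.IsHermitian → (∀ y, (Z y).IsHermitian) →
  (∀ y, (H y).IsHermitian) → 0 ≤ θ → 0 < z → 0 ≤ ν →
  (∀ y, ∀ v : ι → ℝ, |v ⬝ᵥ (Z y) *ᵥ v| ≤ z * (v ⬝ᵥ v)) → ∑ y, Z y = 0 →
  (∀ v : ι → ℝ, ∑ y, v ⬝ᵥ (Z y * Z y) *ᵥ v ≤ Fintype.card Y * ν * (v ⬝ᵥ v)) →
  (∀ y, ∀ v : ι → ℝ, v ⬝ᵥ (H y) *ᵥ v ≤ b * (v ⬝ᵥ v)) →
    ∑ y, (NormedSpace.exp (θ • (S + Z y + H y))).trace ≤
      Fintype.card Y * Real.exp (θ * b) * (1 + Real.exp (θ * z) / z ^ 2 * ν) *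
        (NormedSpace.exp (θ • S)).trace

/-- the cross term, `Z_h = Q (X_h A + A X_h) Q`, `X_h = R_h + R_h⁻¹` -/
noncomputable def Zm {G : Type} [Group G] [Fintype G] {j : ℕ} (Q : Matrix G G ℝ) (y : Fin j → G)
    (h : G) : Matrix G G ℝ :=
  Q * ((Rm h + Rm h⁻¹) * adM y + adM y * (Rm h + Rm h⁻¹)) * Q

/-- the diagonal term, `H_h = Q X_h² Q` -/
noncomputable def Hm {G : Type} [Group G] [Fintype G] (Q : Matrix G G ℝ) (h : G) :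
    Matrix G G ℝ :=
  Q * ((Rm h + Rm h⁻¹) * (Rm h + Rm h⁻¹)) * Q

/-- ZED. Hypothesis `T_ADM`. `R_g R_h = R_(g h)`, `R_h` orthogonal, `A = adM y` symmetric.
(2) `v.Z_h v = 2 <X_h Q v, A Q v>`, `|X_h| <= 2`. (3) `sum_h R_h` is the all ones matrix, and
`Q 1 = 0`. (4) `|Z_h v|² <= 2 (|Q X_h A Q v|² + |Q A X_h Q v|²)`. First: `u = A Q v` has sum zero
and `|u|² <= W |v|²`, `|Q X_h u|² <= 2 (|Q R_h u|² + |Q R_h⁻¹ u|²)`, and `sum_h |Q R_h u|² =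
sum_h u.(R_h⁻¹ Q R_h) u <= ν |G| |u|²` by `NB` (the same for `R_h⁻¹`): total `<= 4 ν |G| W |v|²`.
Second: `|Q A w|² <= j sum_i |Q X_(y i) w|²`, `w = X_h Q v`, and
`Q X_(y i) X_h Q v` is a sum of four terms `Q R_g Q v`, `g = (y i)^± h^±`, so
`|...|² <= 4 sum of four |Q R_g Q v|²`, and for fixed signs `sum_h |Q R_g Q v|² <= ν |G| |v|²`:
total `<= 16 j² ν |G| |v|²`. (5) `|X_h Q v|² <= 4 |v|²`. (6) `adM (Fin.cons h y) = X_h + adM y`. -/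
def T_ZED : Prop := ∀ (G : Type) [Group G] [Fintype G] (Q : Matrix G G ℝ) (ν W : ℝ) (j : ℕ)
  (y : Fin j → G), Pj Q → 0 ≤ ν → NB Q ν → 0 ≤ W → OB y Q W →
  (∀ h, (Zm Q y h).IsHermitian ∧ (Hm Q h).IsHermitian) ∧
  (∀ h, ∀ v : G → ℝ, |v ⬝ᵥ (Zm Q y h) *ᵥ v| ≤ 4 * √W * (v ⬝ᵥ v)) ∧
  ∑ h, Zm Q y h = 0 ∧
  (∀ v : G → ℝ, ∑ h, v ⬝ᵥ (Zm Q y h * Zm Q y h) *ᵥ v ≤
    Fintype.card G * (8 * ν * W + 32 * (j : ℝ) ^ 2 * ν) * (v ⬝ᵥ v)) ∧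
  (∀ h, ∀ v : G → ℝ, v ⬝ᵥ (Hm Q h) *ᵥ v ≤ 4 * (v ⬝ᵥ v)) ∧
  (∀ h : G, Q * (adM (Fin.cons h y : Fin (j + 1) → G) * adM (Fin.cons h y : Fin (j + 1) → G)) * Q =
    Q * (adM y * adM y) * Q + Zm Q y h + Hm Q h)

/-- SEQ (main lemma). Hypotheses `T_STZ`, `T_ZED`, `T_SPE`. For a tuple `y` of length `j` put
`S y = Q A_y² Q`, so `OB y Q W` says `v.S y v <= W v.v`. Let `E j` be the sum of
`tr exp (θ S y)` over the `j`-tuples `y` all of whose proper tails (`Fin.tail` iterated, down to the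
empty tuple) satisfy `OB`. `E 0 = |G|` (`exp 0 = 1`). By ZED and STZ (`z = 4 √W`, `b = 4`, `Y = G`)
`E (j+1) <= |G| e^(4 θ) (1 + c) E j`, `c = e^(4 √W θ) (8 ν W + 32 d² ν)/(16 W)` (`j <= d`). A
`j`-tuple without `OB` all of whose proper tails have it has `tr exp (θ S y) >= e^(θ W)` (Jensen).
So the number `b j` of `j`-tuples with some tail (including itself) without `OB` satisfies
`b (j+1) <= |G| b j + e^(-θ W) E (j+1)`, hence `b d <= sum_(j=1)^d |G|^(d-j) e^(-θ W) E j <=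
d |G| e^(-θ W + 4 θ d) (1 + c)^d |G|^d`. -/
def T_SEQ : Prop := ∀ (G : Type) [Group G] [Fintype G] (Q : Matrix G G ℝ) (ν W θ : ℝ) (d : ℕ),
  Pj Q → 0 ≤ ν → NB Q ν → 0 < W → 0 ≤ θ →
    (Nat.card {y : Fin d → G // ¬ OB y Q W} : ℝ) ≤
      d * (Fintype.card G : ℝ) * Real.exp (-(θ * (W - 4 * d))) *
        (1 + Real.exp (θ * (4 * √W)) / (16 * W) * (8 * ν * W + 32 * (d : ℝ) ^ 2 * ν)) ^ d *
        (Fintype.card G : ℝ) ^ d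

/-! ## The scale step -/

/-- CMB (deterministic). Hypothesis `T_ADM`. Let `f1 = Q f`, `f2 = f - f1` (both of sum zero),
`A' = adM y'`. `|f.A' f| <= |f2.A' f2| + |A' f1| |f2| + |f| |A' f1| <=
B |f2|² + 2 √W |f|²`, and `|f.A_y f| <= R |f|² + B |f1|²`, `|f1|² + |f2|² = |f|²`. -/
def T_CMB : Prop := ∀ (G : Type) [Group G] [Fintype G] (d d' : ℕ) (y : Fin d → G)
  (y' : Fin d' → G) (Q : Matrix G G ℝ) (R B W : ℝ), 0 ≤ R → 0 ≤ B → 0 ≤ W → Pj Q →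
  (∀ f : G → ℝ, ∑ x, f x = 0 → |f ⬝ᵥ adM y *ᵥ f| ≤ R * (f ⬝ᵥ f) + B * (f ⬝ᵥ Q *ᵥ f)) →
  QB y' B → OB y' Q W → QB (Fin.append y y') (R + B + 2 * √W)

/-- the parameter `ν` -/
noncomputable def nu7 (d n : ℕ) (q R : ℝ) : ℝ :=
  ((2 * √(2 * (d : ℝ))) ^ n + (2 * (d : ℝ)) ^ n * (3 / √q)) / R ^ n

/-- CNS (counting). Hypotheses `T_GIR`, `T_NUM`, `T_PRO`, `T_SEQ`, `T_CMB`. A tuple `(y, y')` of
length `d + d` which is bad for `R + B + 2 √W` has `y` bad for `B`, or `y'` bad for `B`, or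
`Rel n y`, or `y` has no short relation and `y'` is in the exceptional set of SEQ for the projection `Q` of `y`
(NUM, PRO). -/
def T_CNS : Prop := ∀ (p : ℕ) [Fact p.Prime] (d n : ℕ) (R B W θ : ℝ), 19 ≤ p → 2 * d < p → 1 ≤ d →
  Even n → 2 ≤ n → 0 < R → 0 ≤ B → 0 < W → 0 ≤ θ →
    (badCard (SL 2 p) (d + d) (R + B + 2 * √W) : ℝ) ≤
      2 * badCard (SL 2 p) d B * (Fintype.card (SL 2 p) : ℝ) ^ d +
      (8 * n * (2 * (d : ℝ)) ^ n / p + d * (Fintype.card (SL 2 p) : ℝ) *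
        Real.exp (-(θ * (W - 4 * d))) *
        (1 + Real.exp (θ * (4 * √W)) / (16 * W) *
          (8 * nu7 d n p R * W + 32 * (d : ℝ) ^ 2 * nu7 d n p R)) ^ d) *
        (Fintype.card (SL 2 p) : ℝ) ^ (d + d)

/-- AN7 (real analysis), `W = 4 k = 8 d`, `R = 32 √k`. `L = log q`, `n = 2 ⌊L/(4 log k)⌋₊`, so
`k^n <= √q` and `n >= L/(2 log k) - 2`; `8 n k^n/q <= 8 n q^(-1/2)`. As `k^n 3/√q <=
3 q^(-1/4) (√k)^n <= (2 √k)^n`, `ν = nu7 <= 2 * 16^(-n) <= 512 q^(-log 16/(2 log k))`. Take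
`e^(8 √k θ) = 1/(k² ν)` (for large `q`, `k² ν < 1`). Then the bracket is at most `1 + 1/k`, its
`d`-th power at most `2`, and `exp (-θ (W - 4 d)) = exp (-2 k θ) = (k² ν)^(√k/4) <=
K q^(-(log 16/8) √k/log k) <= K q^(-3.46)`, because `√k/log k >= 10` for `k >= 8192` and
`log 16/8 >= 0.346`. So the second term is at most `K q^(3 - 3.46) <= K q^(-1/3)`. -/
def T_AN7 : Prop := ∀ d : ℕ, 4096 ≤ d → ∃ K P : ℝ, ∀ q : ℝ, P ≤ q → 19 ≤ q ∧ 2 * (d : ℝ) < q ∧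
  ∃ n : ℕ, Even n ∧ 2 ≤ n ∧ ∃ θ : ℝ, 0 ≤ θ ∧
    8 * n * (2 * (d : ℝ)) ^ n / q ≤ K * q ^ (-(1 / 3 : ℝ)) ∧
    d * q ^ (3 : ℝ) * Real.exp (-(θ * (8 * d - 4 * d))) *
      (1 + Real.exp (θ * (4 * √(8 * (d : ℝ)))) / (16 * (8 * (d : ℝ))) *
        (8 * nu7 d n q (32 * √(2 * (d : ℝ))) * (8 * (d : ℝ)) +
          32 * (d : ℝ) ^ 2 * nu7 d n q (32 * √(2 * (d : ℝ))))) ^ d ≤ K * q ^ (-(1 / 3 : ℝ))

/-- ST7. Hypotheses `T_CNS`, `T_AN7` (and `FIN_.card_le` in `Fin.lean`): `R = 32 √(2d)`, `W = 8 d`,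
`R + 2 √W = 36 √(2d)`. -/
def T_ST7 : Prop := ∀ (d : ℕ) (B : ℝ), 4096 ≤ d → 0 ≤ B →
  Good G2 (fun p => (p.1 : ℝ)) d B (1 / 3) →
    Good G2 (fun p => (p.1 : ℝ)) (d + d) (B + 36 * √(2 * (d : ℝ))) (1 / 3)

/-- PW7. Hypotheses `T_ST7`, `T_ELE`. `j <= 12`: `2 2^j <= 91 √(2 2^j)`, since `8192 <= 91²`. Step:
`91 √(2 d) + 36 √(2 d) <= 91 √(4 d)`. -/
def T_PW7 : Prop := ∀ j : ℕ,
  Good G2 (fun p => (p.1 : ℝ)) (2 ^ j) (91 * √(2 * ((2 ^ j : ℕ) : ℝ))) (1 / 3)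

/-- GE7 (strong induction on `d`, as `T_GEN`). Write `d = 2^j + r`, `0 <= r < 2^j`:
`√x + 4 √r <= 4 √(x + r)` for `0 <= r <= x`. -/
def T_GE7 : Prop := ∀ (Gd : ℕ → ℝ → Prop) (β : ℝ), 0 ≤ β →
  (∀ (d : ℕ) (B B' : ℝ), B ≤ B' → Gd d B → Gd d B') →
  (∀ (d d' : ℕ) (B B' : ℝ), Gd d B → Gd d' B' → Gd (d + d') (B + B')) →
  (∀ j : ℕ, Gd (2 ^ j) (β * √(2 * ((2 ^ j : ℕ) : ℝ)))) →
  ∀ d : ℕ, 1 ≤ d → Gd d (4 * β * √(2 * (d : ℝ)))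

/-- FN7. Hypotheses `T_PW7`, `T_GSM`, `T_GE7`. -/
def T_FN7 : Prop := ∀ d : ℕ, 1 ≤ d →
  Good G2 (fun p => (p.1 : ℝ)) d (364 * √(2 * (d : ℝ))) (1 / 3)

/-- BC7. Hypothesis `T_FN7`: `K p^(-1/3) <= p^(-1/4)` for large `p`. -/
def T_BC7 : Prop := ∀ d : ℕ, 1 ≤ d → ∃ P : ℕ, ∀ (p : ℕ) [Fact p.Prime], P ≤ p →
  (badCard (SL 2 p) d (364 * √(2 * (d : ℝ))) : ℝ) ≤
    (p : ℝ) ^ (-(1 / 4 : ℝ)) * (Fintype.card (SL 2 p) : ℝ) ^ d

end Pool.Agent.RCG
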