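import Pool.Agent.RCG.Targets6
import Pool.Agent.RCG.Fin

set_option autoImplicit false

/-!
# RCG: the uniform bound for `SL (2, p)`, final combination
-/

namespace Pool.Agent.RCG

open Finset

namespace UNI_

theorem card_le (p : ℕ) [hp : Fact p.Prime] :
    (Fintype.card (SL 2 p) : ℝ) ≤ (p : ℝ) ^ (3 : ℝ) := by
  have h1 : Fintype.card (SL 2 p) ≤ p * (p ^ 2 - 1) :=
    Pool.Agent.AlmRam.card_sl_le (p := p)
  have h2 : p * (p ^ 2 - 1) ≤ p ^ 3 := by
    calc p * (p ^ 2 - 1) ≤ p * p ^ 2 := Nat.mul_le_mul_left _ (Nat.sub_le _ _)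
      _ = p ^ 3 := by ring
  have h3 : (Fintype.card (SL 2 p) : ℝ) ≤ ((p ^ 3 : ℕ) : ℝ) := by
    exact_mod_cast h1.trans h2
  rw [show (3 : ℝ) = ((3 : ℕ) : ℝ) by norm_num, Real.rpow_natCast]
  push_cast at h3
  exact h3

/-- small degree -/
theorem small (h1 : T_AB2U) (h2 : T_GPU) (h3 : T_GSU) (h4 : T_ELEU) (h5 : T_GNU) (a : ℝ)
    (ha : 0 < a) (p : ℕ) [hp : Fact p.Prime] (hp3 : 3 ≤ p) (d : ℕ) (hd : 1 ≤ d)
    (hs : 18 * Real.log (2 * (d : ℝ)) ≤ Real.log p) :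
    (badCard (SL 2 p) d (308 * √(a + 5) * √(2 * (d : ℝ) * Real.log (2 * (d : ℝ)))) : ℝ) ≤
      (p : ℝ) ^ (-a) * (Fintype.card (SL 2 p) : ℝ) ^ d := by
  have hpR : (3 : ℝ) ≤ p := by exact_mod_cast hp3
  have hp0 : (0 : ℝ) < p := by linarith
  have hdR : (1 : ℝ) ≤ d := by exact_mod_cast hd
  have hG : (0 : ℝ) < (Fintype.card (SL 2 p) : ℝ) := by exact_mod_cast Fintype.card_pos
  have hav : AvgU (SL 2 p) (p : ℝ) := by
    intro d n hd hdp f hf
    refine h1 p d n (by omega) hd ?_ f hf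
    exact_mod_cast hdp
  set δ : ℝ := 2 * (p : ℝ) ^ (3 - (a + 5)) with hδ
  have hδ0 : 0 ≤ δ := by positivity
  have key := h5 (fun d B => (badCard (SL 2 p) d B : ℝ) / (Fintype.card (SL 2 p) : ℝ) ^ d)
    (77 * √(a + 5)) δ (Real.log p) (by positivity) hδ0 (by
      intro d B B' hBB
      have h6 := (h4 (SL 2 p)).1 d B B' hBB
      have h7 : (badCard (SL 2 p) d B' : ℝ) ≤ (badCard (SL 2 p) d B : ℝ) := by exact_mod_cast h6
      exact div_le_div_of_nonneg_right h7 (by positivity)) (by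
      intro d d' B B'
      have h6 := h3 (SL 2 p) d d' B B'
      have h7 : (badCard (SL 2 p) (d + d') (B + B') : ℝ) ≤
          (badCard (SL 2 p) d B : ℝ) * (Fintype.card (SL 2 p) : ℝ) ^ d' +
          (badCard (SL 2 p) d' B' : ℝ) * (Fintype.card (SL 2 p) : ℝ) ^ d := by
        exact_mod_cast h6
      show (badCard (SL 2 p) (d + d') (B + B') : ℝ) / (Fintype.card (SL 2 p) : ℝ) ^ (d + d') ≤
        (badCard (SL 2 p) d B : ℝ) / (Fintype.card (SL 2 p) : ℝ) ^ d +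
        (badCard (SL 2 p) d' B' : ℝ) / (Fintype.card (SL 2 p) : ℝ) ^ d'
      rw [div_add_div _ _ (by positivity) (by positivity), pow_add]
      apply div_le_div_of_nonneg_right _ (by positivity)
      linarith) (by
      intro j hj
      have h6 := h2 (SL 2 p) (p : ℝ) 3 (a + 5) hav (by linarith) (by linarith) (card_le p) j hj
      show (badCard (SL 2 p) (2 ^ j) _ : ℝ) / (Fintype.card (SL 2 p) : ℝ) ^ (2 ^ j) ≤ δ
      rw [div_le_iff₀ (by positivity)]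
      exact h6) d hd hs
  have key2 : (badCard (SL 2 p) d
      (4 * (77 * √(a + 5)) * √(2 * (d : ℝ) * Real.log (2 * (d : ℝ)))) : ℝ) /
      (Fintype.card (SL 2 p) : ℝ) ^ d ≤ d * δ := key
  rw [show 4 * (77 * √(a + 5)) = 308 * √(a + 5) by ring, div_le_iff₀ (by positivity)] at key2
  refine key2.trans (mul_le_mul_of_nonneg_right ?_ (by positivity))
  -- `2 d <= p`
  have h2d : 2 * (d : ℝ) ≤ p := by
    have h8 : 0 ≤ Real.log (2 * (d : ℝ)) := Real.log_nonneg (by linarith)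
    have h9 : Real.log (2 * (d : ℝ)) ≤ Real.log p := by linarith
    exact (Real.log_le_log_iff (by linarith) hp0).1 h9
  have h10 : (p : ℝ) ^ (3 - (a + 5)) = (p : ℝ) ^ (-a) * (p : ℝ)⁻¹ * (p : ℝ)⁻¹ := by
    rw [show 3 - (a + 5) = -a + (-1) + (-1) by ring, Real.rpow_add hp0, Real.rpow_add hp0,
      Real.rpow_neg_one]
  rw [hδ, h10]
  have h11 : 0 < (p : ℝ) ^ (-a) := Real.rpow_pos_of_pos hp0 _
  calc (d : ℝ) * (2 * ((p : ℝ) ^ (-a) * (p : ℝ)⁻¹ * (p : ℝ)⁻¹))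
      = (p : ℝ) ^ (-a) * ((2 * d) / p * (1 / p)) := by field_simp
    _ ≤ (p : ℝ) ^ (-a) * (1 * 1) := by
        apply mul_le_mul_of_nonneg_left _ h11.le
        apply mul_le_mul _ _ (by positivity) (by norm_num)
        · rw [div_le_one hp0]; exact h2d
        · rw [div_le_one hp0]; linarith
    _ = (p : ℝ) ^ (-a) := by ring

/-- large degree -/
theorem large (h6 : T_ARC) (a : ℝ) (ha : 0 < a) (p : ℕ) [hp : Fact p.Prime] (hp3 : 3 ≤ p) (d : ℕ)
    (hd : 1 ≤ d) (hs : Real.log p < 18 * Real.log (2 * (d : ℝ))) :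
    (badCard (SL 2 p) d (308 * √(a + 5) * √(2 * (d : ℝ) * Real.log (2 * (d : ℝ)))) : ℝ) ≤
      (p : ℝ) ^ (-a) * (Fintype.card (SL 2 p) : ℝ) ^ d := by
  have hpR : (3 : ℝ) ≤ p := by exact_mod_cast hp3
  have hp0 : (0 : ℝ) < p := by linarith
  have hdR : (1 : ℝ) ≤ d := by exact_mod_cast hd
  have hlp : 0 < Real.log p := Real.log_pos (by linarith)
  have hl : 0 < Real.log (2 * (d : ℝ)) := Real.log_pos (by linarith)
  set B : ℝ := 308 * √(a + 5) * √(2 * (d : ℝ) * Real.log (2 * (d : ℝ))) with hB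
  have hB0 : 0 < B := by positivity
  have hB2 : B ^ 2 = 308 ^ 2 * (a + 5) * (2 * (d : ℝ) * Real.log (2 * (d : ℝ))) := by
    rw [hB, mul_pow, mul_pow, Real.sq_sqrt (by linarith), Real.sq_sqrt (by positivity)]
  have h7 := h6 (SL 2 p) d B hd hB0
  refine h7.trans (mul_le_mul_of_nonneg_right ?_ (by positivity))
  have h8 : -(B ^ 2) / (16 * d) ≤ -(a + 5) * Real.log p := by
    rw [div_le_iff₀ (by positivity), hB2]
    have h9 : (a + 5) * Real.log p * (16 * d) ≤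
        (a + 5) * (18 * Real.log (2 * (d : ℝ))) * (16 * d) := by
      apply mul_le_mul_of_nonneg_right _ (by positivity)
      exact mul_le_mul_of_nonneg_left hs.le (by linarith)
    have h10 : 0 ≤ (a + 5) * Real.log (2 * (d : ℝ)) * d := by positivity
    nlinarith
  have h11 : Real.exp (-(B ^ 2) / (16 * d)) ≤ (p : ℝ) ^ (-(a + 5)) := by
    rw [Real.rpow_def_of_pos hp0]
    apply Real.exp_le_exp.2
    linarith
  have h12 : (p : ℝ) ^ (3 : ℝ) * (p : ℝ) ^ (-(a + 5)) = (p : ℝ) ^ (-a) * (p : ℝ)⁻¹ * (p : ℝ)⁻¹ := by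
    rw [← Real.rpow_add hp0, show 3 + -(a + 5) = -a + (-1) + (-1) by ring, Real.rpow_add hp0,
      Real.rpow_add hp0, Real.rpow_neg_one]
  have h13 : 0 < (p : ℝ) ^ (-a) := Real.rpow_pos_of_pos hp0 _
  calc 2 * (Fintype.card (SL 2 p) : ℝ) * Real.exp (-(B ^ 2) / (16 * d))
      ≤ 2 * (p : ℝ) ^ (3 : ℝ) * (p : ℝ) ^ (-(a + 5)) := by
        apply mul_le_mul _ h11 (Real.exp_pos _).le (by positivity)
        linarith [card_le p]
    _ = 2 * ((p : ℝ) ^ (-a) * (p : ℝ)⁻¹ * (p : ℝ)⁻¹) := by rw [mul_assoc, h12]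
    _ = (p : ℝ) ^ (-a) * (2 / p * (1 / p)) := by field_simp
    _ ≤ (p : ℝ) ^ (-a) * (1 * 1) := by
        apply mul_le_mul_of_nonneg_left _ h13.le
        apply mul_le_mul _ _ (by positivity) (by norm_num)
        · rw [div_le_one hp0]; linarith
        · rw [div_le_one hp0]; linarith
    _ = (p : ℝ) ^ (-a) := by ring

end UNI_

theorem prove_UNI (h1 : T_AB2U) (h2 : T_GPU) (h3 : T_GSU) (h4 : T_ELEU) (h5 : T_GNU)
    (h6 : T_ARC) : T_UNI := by
  intro a ha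
  refine ⟨3, ?_⟩
  intro p hp hp3 d hd
  rcases le_or_gt (18 * Real.log (2 * (d : ℝ))) (Real.log p) with hs | hs
  · exact UNI_.small h1 h2 h3 h4 h5 a ha p hp3 d hd hs
  · exact UNI_.large h6 a ha p hp3 d hd hs

end Pool.Agent.RCG
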