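import Pool.Agent.RCG.Targets

/-!
# RCG, target `T_WRD`: the contribution of one word
-/

set_option autoImplicit false

namespace Pool.Agent.RCG

open Finset

namespace WRD_

theorem sum_shift {G : Type} [Group G] [Fintype G] (f : G → ℝ) (h : G) :
    ∑ x, f (x * h) ^ 2 = ∑ x, f x ^ 2 :=
  Fintype.sum_equiv (Equiv.mulRight h) _ _ fun _ => rfl

theorem corr_le {G : Type} [Group G] [Fintype G] (f : G → ℝ) (h : G) :
    ∑ x, f x * f (x * h) ≤ ∑ x, f x ^ 2 := by
  have h1 : ∑ x, f x * f (x * h) ≤ ∑ x, (f x ^ 2 + f (x * h) ^ 2) / 2 :=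
    sum_le_sum fun x _ => by nlinarith [sq_nonneg (f x - f (x * h))]
  refine h1.trans (le_of_eq ?_)
  rw [← sum_div, sum_add_distrib, sum_shift]
  ring

end WRD_

open WRD_ in
theorem prove_WRD (h1 : T_MIX) : T_WRD := by
  intro G _ _ D β γ hD hMin hβ hγ N T hN hT Z hZ hZc f hf
  set F : ℝ := ∑ x, f x ^ 2 with hF
  have hF0 : 0 ≤ F := sum_nonneg fun x _ => sq_nonneg _
  have hT0 : 0 ≤ T := by
    rw [← hT]
    exact sum_nonneg fun h _ => hN h
  classical
  set K : G → ℝ := fun h => if h ∈ Z then 0 else N h with hK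
  have hK0 : ∀ h, 0 ≤ K h := by
    intro h
    simp only [hK]
    split_ifs
    · exact le_rfl
    · exact hN h
  have hKN : ∀ h, K h ≤ N h := by
    intro h
    simp only [hK]
    split_ifs
    · exact hN h
    · exact le_rfl
  -- the splitting
  have hsplit : ∑ h, N h * ∑ x, f x * f (x * h) =
      ∑ h ∈ Z, N h * ∑ x, f x * f (x * h) + ∑ h, K h * ∑ x, f x * f (x * h) := by
    rw [← sum_add_sum_compl Z (fun h => N h * ∑ x, f x * f (x * h))]
    congr 1
    rw [← sum_add_sum_compl Z (fun h => K h * ∑ x, f x * f (x * h))]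
    have h2 : ∑ h ∈ Z, K h * ∑ x, f x * f (x * h) = 0 :=
      sum_eq_zero fun h hh => by simp [hK, hh]
    rw [h2, zero_add]
    refine sum_congr rfl fun h hh => ?_
    have : h ∉ Z := mem_compl.1 hh
    simp [hK, this]
  -- the first part
  have hfirst : ∑ h ∈ Z, N h * ∑ x, f x * f (x * h) ≤ β * T * F := by
    calc ∑ h ∈ Z, N h * ∑ x, f x * f (x * h) ≤ ∑ h ∈ Z, N h * F :=
          sum_le_sum fun h _ => mul_le_mul_of_nonneg_left (corr_le f h) (hN h)
      _ = (∑ h ∈ Z, N h) * F := by rw [sum_mul]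
      _ ≤ β * T * F := mul_le_mul_of_nonneg_right hZ hF0
  -- the second part
  set g : G → ℝ := fun x => ∑ h, K h * f (x * h) with hg
  have hsecond : ∑ h, K h * ∑ x, f x * f (x * h) = ∑ x, f x * g x := by
    simp only [hg, mul_sum]
    rw [sum_comm]
    refine sum_congr rfl fun x _ => sum_congr rfl fun h _ => ?_
    ring
  have hmix : D * ∑ x, g x ^ 2 ≤ Fintype.card G * (∑ h, K h ^ 2) * F := h1 G D hD hMin K f hf
  have hK2 : Fintype.card G * ∑ h, K h ^ 2 ≤ γ * T * T := by
    calc (Fintype.card G : ℝ) * ∑ h, K h ^ 2 = ∑ h, K h * (K h * Fintype.card G) := by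
          rw [mul_sum]
          exact sum_congr rfl fun h _ => by ring
      _ ≤ ∑ h, K h * (γ * T) := by
          refine sum_le_sum fun h _ => mul_le_mul_of_nonneg_left ?_ (hK0 h)
          by_cases hh : h ∈ Z
          · simp only [hK, hh, if_true, zero_mul]
            positivity
          · simp only [hK, hh, if_false]
            exact hZc h hh
      _ = (∑ h, K h) * (γ * T) := by rw [sum_mul]
      _ ≤ T * (γ * T) := by
          refine mul_le_mul_of_nonneg_right ?_ (by positivity)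
          rw [← hT]
          exact sum_le_sum fun h _ => hKN h
      _ = γ * T * T := by ring
  have hG2 : ∑ x, g x ^ 2 ≤ γ / D * T ^ 2 * F := by
    have h3 : D * ∑ x, g x ^ 2 ≤ γ * T * T * F :=
      hmix.trans (mul_le_mul_of_nonneg_right hK2 hF0)
    have h4 : ∑ x, g x ^ 2 ≤ (γ * T * T * F) / D := by
      rw [le_div_iff₀ hD]
      linarith
    refine h4.trans (le_of_eq ?_)
    ring
  have hCS : (∑ x, f x * g x) ^ 2 ≤ F * ∑ x, g x ^ 2 :=
    sum_mul_sq_le_sq_mul_sq univ f g
  have hsq : (∑ x, f x * g x) ^ 2 ≤ (√(γ / D) * T * F) ^ 2 := by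
    have h5 : (√(γ / D)) ^ 2 = γ / D := Real.sq_sqrt (by positivity)
    calc (∑ x, f x * g x) ^ 2 ≤ F * ∑ x, g x ^ 2 := hCS
      _ ≤ F * (γ / D * T ^ 2 * F) := mul_le_mul_of_nonneg_left hG2 hF0
      _ = (√(γ / D)) ^ 2 * T ^ 2 * F ^ 2 := by
          rw [h5]
          ring
      _ = _ := by ring
  have hfin : ∑ x, f x * g x ≤ √(γ / D) * T * F :=
    (abs_le_of_sq_le_sq' hsq (by positivity)).2
  rw [hsplit, hsecond]
  calc _ ≤ β * T * F + √(γ / D) * T * F := add_le_add hfirst hfin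
    _ = (β + √(γ / D)) * T * F := by ring

end Pool.Agent.RCG
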