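import Pool.Agent.RCG.Fin2
import Pool.Agent.RCG.Targets4
import Pool.Agent.RCG.Targets6
import Pool.Agent.RCG.Targets7
import Pool.Agent.RCG.Targets11
import Pool.Agent.RCG.PWR
import Pool.Agent.RCG.LT
import Pool.Agent.RCG.GT
import Pool.Agent.RCG.ITR
import Pool.Agent.RCG.KES
import Pool.Agent.RCG.AVG
import Pool.Agent.RCG.MIX
import Pool.Agent.RCG.WRD
import Pool.Agent.RCG.CLF
import Pool.Agent.RCG.QUO
import Pool.Agent.RCG.POL
import Pool.Agent.RCG.SZ2
import Pool.Agent.RCG.NC2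
import Pool.Agent.RCG.TR2
import Pool.Agent.RCG.CEN2
import Pool.Agent.RCG.DIM2
import Pool.Agent.RCG.ETA2
import Pool.Agent.RCG.AB2
import Pool.Agent.RCG.AB2U
import Pool.Agent.RCG.ARC
import Pool.Agent.RCG.ELE
import Pool.Agent.RCG.ELEU
import Pool.Agent.RCG.GTP
import Pool.Agent.RCG.TOP
import Pool.Agent.RCG.SPC
import Pool.Agent.RCG.SPX
import Pool.Agent.RCG.SPE
import Pool.Agent.RCG.ADM
import Pool.Agent.RCG.SUB
import Pool.Agent.RCG.EBX
import Pool.Agent.RCG.TRV
import Pool.Agent.RCG.MRK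
import Pool.Agent.RCG.GSM
import Pool.Agent.RCG.CVX
import Pool.Agent.RCG.MOU
import Pool.Agent.RCG.LST
import Pool.Agent.RCG.LPW
import Pool.Agent.RCG.SBI
import Pool.Agent.RCG.GPU
import Pool.Agent.RCG.GSU
import Pool.Agent.RCG.GNU
import Pool.Agent.RCG.UNI
import Pool.Agent.RCG.BD2
import Pool.Agent.RCG.KAP
import Pool.Agent.RCG.KP2
import Pool.Agent.RCG.GIR
import Pool.Agent.RCG.NUM
import Pool.Agent.RCG.PRO
import Pool.Agent.RCG.EXZ
import Pool.Agent.RCG.TMO
import Pool.Agent.RCG.STZ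
import Pool.Agent.RCG.ZED
import Pool.Agent.RCG.SEQ
import Pool.Agent.RCG.CMB
import Pool.Agent.RCG.CNS
import Pool.Agent.RCG.AN7
import Pool.Agent.RCG.ST7
import Pool.Agent.RCG.PW7
import Pool.Agent.RCG.GE7
import Pool.Agent.RCG.FN7
import Pool.Agent.RCG.BC7

set_option autoImplicit false

/-!
# RCG: assembly of the targets which are proved
-/

namespace Pool.Agent.RCG

theorem all_GT : T_GT := prove_GT prove_PWR prove_LT

theorem all_TR2 : T_TR2 := prove_TR2 prove_SZ2 prove_NC2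

theorem all_NUM : T_NUM := prove_NUM prove_ADM prove_ITR prove_KES
  (prove_KP2 (prove_BD2 prove_DIM2) prove_KAP prove_CEN2)

theorem all_STZ : T_STZ := prove_STZ all_GT prove_EXZ (prove_TMO prove_SPE) prove_SPE

theorem all_SEQ : T_SEQ := prove_SEQ all_STZ (prove_ZED prove_ADM) prove_SPE

theorem all_FN7 : T_FN7 :=
  prove_FN7 (prove_PW7 (prove_ST7 (prove_CNS (prove_GIR all_TR2) all_NUM
    (prove_PRO prove_SPC prove_ADM) all_SEQ (prove_CMB prove_ADM)) prove_AN7) prove_ELE)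
    prove_GSM prove_GE7

theorem all_BC7 : T_BC7 := prove_BC7 all_FN7

theorem all_UNI : T_UNI := by
  have hAVG : T_AVG := prove_AVG prove_ITR prove_KES
  have hETA2 : T_ETA2 := prove_ETA2 all_TR2 prove_CEN2 prove_DIM2 (prove_WRD prove_MIX) prove_CLF
  have hSUB : T_SUB := prove_SUB (prove_GTP all_GT) prove_TOP prove_SPE prove_ADM
  have hEBX : T_EBX := prove_EBX prove_SPX prove_ADM
  have hTRV : T_TRV := prove_TRV prove_SPE prove_ADM
  have hMRK : T_MRK := prove_MRK prove_SPE prove_ADM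
  have hLST : T_LST := prove_LST hSUB hEBX hTRV (prove_CVX prove_ADM) prove_MOU
  have hGPU : T_GPU := prove_GPU (prove_LPW hLST hTRV) (prove_SBI hSUB) hMRK prove_ELEU
  exact prove_UNI (prove_AB2U hAVG hETA2) hGPU prove_GSU prove_ELEU prove_GNU (prove_ARC all_GT)

end Pool.Agent.RCG
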