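import Pool.Agent.RCG.Targets4

set_option autoImplicit false

/-! # RCG: GDX, the choice of the exponent -/

namespace Pool.Agent.RCG

namespace GDX_

open Real

/-- the algebra of the exponents -/
theorem alg (k M : ℝ) (hk : 2 ≤ k) (hM : 1 ≤ M) :
    0 ≤ 14 * √M * √(k * log k) / (96 * k * log k) ∧
    max (4 * √k * (14 * √M * √(k * log k) / (96 * k * log k)))
      (48 * k * log k * (14 * √M * √(k * log k) / (96 * k * log k)) ^ 2) = 196 / 192 * M ∧
    14 * √M * √(k * log k) / (96 * k * log k) * (14 * √M * √(k * log k)) =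
      2 * (196 / 192 * M) := by
  have hl2 : (0.6931471803 : ℝ) < log 2 := log_two_gt_d9
  have hl : log 2 ≤ log k := log_le_log (by norm_num) hk
  have hk0 : 0 < k := by linarith
  have hlk : 0 < log k := by linarith
  obtain ⟨w, hw⟩ : ∃ w : ℝ, w = log k := ⟨_, rfl⟩
  rw [← hw] at hlk hl ⊢
  have hsM : √M ^ 2 = M := sq_sqrt (by linarith)
  have hs : √(k * w) ^ 2 = k * w := sq_sqrt (by positivity)
  have hM1 : 1 ≤ √M := one_le_sqrt.2 hM
  have e1 : 48 * k * w * (14 * √M * √(k * w) / (96 * k * w)) ^ 2 = 196 / 192 * M := by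
    rw [div_pow, mul_pow, mul_pow, hsM, hs]
    field_simp
    ring
  have e2 : 14 * √M * √(k * w) / (96 * k * w) * (14 * √M * √(k * w)) = 2 * (196 / 192 * M) := by
    rw [div_mul_eq_mul_div, show 14 * √M * √(k * w) * (14 * √M * √(k * w)) =
      196 * (√M ^ 2) * (√(k * w) ^ 2) by ring, hsM, hs]
    field_simp
    ring
  refine ⟨by positivity, ?_, e2⟩
  rw [max_eq_right, e1]
  rw [e1]
  -- `4 √k l ≤ (196/192) M = l B / 2`
  have e3 : 196 / 192 * M = 14 * √M * √(k * w) / (96 * k * w) * (14 * √M * √(k * w)) / 2 := by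
    rw [e2]; ring
  rw [e3]
  have h4 : 8 * √k ≤ 14 * √M * √(k * w) := by
    rw [sqrt_mul hk0.le]
    have h5 : 8 / 14 ≤ √w := by
      refine le_sqrt_of_sq_le ?_
      norm_num
      linarith
    have h6 : 8 / 14 ≤ √M * √w := by
      calc (8 / 14 : ℝ) ≤ √w := h5
        _ = 1 * √w := (one_mul _).symm
        _ ≤ √M * √w := by gcongr
    calc 8 * √k = 14 * (8 / 14) * √k := by ring
      _ ≤ 14 * (√M * √w) * √k := by gcongr
      _ = 14 * √M * (√k * √w) := by ring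
  have h7 : 0 ≤ 14 * √M * √(k * w) / (96 * k * w) := by positivity
  calc 4 * √k * (14 * √M * √(k * w) / (96 * k * w))
      = 14 * √M * √(k * w) / (96 * k * w) * (8 * √k) / 2 := by ring
    _ ≤ 14 * √M * √(k * w) / (96 * k * w) * (14 * √M * √(k * w)) / 2 := by gcongr

end GDX_

theorem prove_GDX (h1 : T_MRK) : T_GDX := by
  intro I G _ _ q N a hN ha hcard d hd hE
  have hd1 : (1 : ℝ) ≤ d := by exact_mod_cast hd
  have hk : (2 : ℝ) ≤ 2 * (d : ℝ) := by linarith
  obtain ⟨a1, a2, a3⟩ := GDX_.alg (2 * (d : ℝ)) (N + a + 1) hk (by linarith)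
  obtain ⟨B, hB⟩ : ∃ B : ℝ, B = 14 * √(N + a + 1) * √(2 * (d : ℝ) * Real.log (2 * (d : ℝ))) :=
    ⟨_, rfl⟩
  obtain ⟨l, hl⟩ : ∃ l : ℝ, l = B / (96 * (2 * (d : ℝ)) * Real.log (2 * (d : ℝ))) := ⟨_, rfl⟩
  rw [← hB] at a1 a2 a3 ⊢
  rw [← hl] at a1 a2 a3
  have hF : FF d l = 196 / 192 * (N + a + 1) := a2
  obtain ⟨P, hP⟩ := hE l 1 a1 one_pos
  refine ⟨2, max P 1, fun i hi => ?_⟩
  have hPi : P ≤ q i := (le_max_left _ _).trans hi
  have hq1 : 1 ≤ q i := (le_max_right _ _).trans hi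
  have hq0 : 0 < q i := by linarith
  have hlog : 0 ≤ Real.log (q i) := Real.log_nonneg hq1
  have hEB1 := hP i hPi 1 (Or.inl rfl)
  have hEB2 := hP i hPi (-1) (Or.inr rfl)
  have key := h1 (G i) d (l * Real.log (q i)) B (q i ^ (FF d l + 1)) (mul_nonneg a1 hlog)
    (Real.rpow_nonneg hq0.le _) hEB1 hEB2
  refine key.trans ?_
  have hex : Real.exp (-(l * Real.log (q i) * B)) = q i ^ (-(l * B)) := by
    rw [Real.rpow_def_of_pos hq0]
    congr 1
    ring
  have hc := hcard i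
  have hcn : (0 : ℝ) ≤ (Fintype.card (G i) : ℝ) ^ d := by positivity
  refine mul_le_mul_of_nonneg_right ?_ hcn
  rw [hex]
  calc 2 * (Fintype.card (G i) : ℝ) * q i ^ (FF d l + 1) * q i ^ (-(l * B))
      ≤ 2 * q i ^ N * q i ^ (FF d l + 1) * q i ^ (-(l * B)) := by gcongr
    _ = 2 * q i ^ (N + (FF d l + 1) + -(l * B)) := by
        rw [Real.rpow_add hq0 (N + (FF d l + 1)), Real.rpow_add hq0 N]; ring
    _ ≤ 2 * q i ^ (-a) := by
        refine mul_le_mul_of_nonneg_left ?_ (by norm_num)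
        refine Real.rpow_le_rpow_of_exponent_le hq1 ?_
        rw [hF, a3]
        linarith

end Pool.Agent.RCG
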