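import Pool.Agent.RCG.Targets5

/-!
# RCG: T_LOT, lower bound for the total variation distance
-/

set_option autoImplicit false

namespace Pool.Agent.RCG

open Finset Matrix
open Pool.Agent.VAC (lazyP tvDist tmix)

namespace LOT_

variable {V : Type} [Fintype V] [DecidableEq V]

theorem pow_nn (Q : Matrix V V ℝ) (hQ : ∀ x y, 0 ≤ Q x y) (j : ℕ) :
    ∀ x y, 0 ≤ (Q ^ j) x y := by
  induction j with
  | zero =>
    intro x y
    rw [pow_zero, Matrix.one_apply]
    split_ifs <;> norm_num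
  | succ j ih =>
    intro x y
    rw [pow_succ, Matrix.mul_apply]
    exact Finset.sum_nonneg fun z _ => mul_nonneg (ih x z) (hQ z y)

theorem pow_row (Q : Matrix V V ℝ) (h : ∀ x, ∑ y, Q x y = 1) (j : ℕ) :
    ∀ x, ∑ y, (Q ^ j) x y = 1 := by
  induction j with
  | zero =>
    intro x
    simp [Matrix.one_apply]
  | succ j ih =>
    intro x
    simp_rw [pow_succ, Matrix.mul_apply]
    rw [Finset.sum_comm]
    simp_rw [← Finset.mul_sum, h, mul_one]
    exact ih x

theorem expand (Q : Matrix V V ℝ) (t : ℕ) (x y : V) :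
    (((1 / 2 : ℝ) • (1 + Q)) ^ t) x y =
      ∑ j ∈ range (t + 1), ((t.choose j : ℝ) / 2 ^ t) * (Q ^ j) x y := by
  rw [smul_pow, Matrix.smul_apply, add_comm (1 : Matrix V V ℝ) Q,
    (Commute.one_right Q).add_pow t, Matrix.sum_apply, smul_eq_mul, Finset.mul_sum]
  apply Finset.sum_congr rfl
  intro j _
  rw [one_pow, mul_one, ← nsmul_eq_mul', Matrix.smul_apply, nsmul_eq_mul, one_div, inv_pow]
  ring

/-- support of the row `x` of `Q ^ j` -/
noncomputable def S (Q : Matrix V V ℝ) (x : V) (j : ℕ) : Finset V :=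
  univ.filter fun y => (Q ^ j) x y ≠ 0

theorem S_card (Q : Matrix V V ℝ) (k : ℕ)
    (hk : ∀ x, (univ.filter fun y => Q x y ≠ 0).card ≤ k) (x : V) (j : ℕ) :
    (S Q x j).card ≤ k ^ j := by
  induction j with
  | zero =>
    rw [pow_zero]
    have h : S Q x 0 ⊆ {x} := by
      intro y hy
      unfold S at hy
      rw [Finset.mem_filter, pow_zero, Matrix.one_apply] at hy
      rw [Finset.mem_singleton]
      by_contra hne
      exact hy.2 (if_neg fun h => hne h.symm)
    exact (Finset.card_le_card h).trans (by simp)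
  | succ j ih =>
    have h : S Q x (j + 1) ⊆ (S Q x j).biUnion fun z => univ.filter fun y => Q z y ≠ 0 := by
      intro y hy
      unfold S at hy ⊢
      rw [Finset.mem_filter, pow_succ, Matrix.mul_apply] at hy
      obtain ⟨z, -, hz⟩ := Finset.exists_ne_zero_of_sum_ne_zero hy.2
      rw [Finset.mem_biUnion]
      refine ⟨z, ?_, ?_⟩
      · rw [Finset.mem_filter]
        exact ⟨Finset.mem_univ _, left_ne_zero_of_mul hz⟩
      · rw [Finset.mem_filter]
        exact ⟨Finset.mem_univ _, right_ne_zero_of_mul hz⟩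
    calc (S Q x (j + 1)).card
        ≤ ((S Q x j).biUnion fun z => univ.filter fun y => Q z y ≠ 0).card :=
          Finset.card_le_card h
      _ ≤ (S Q x j).card * k := Finset.card_biUnion_le_card_mul _ _ _ fun z _ => hk z
      _ ≤ k ^ j * k := Nat.mul_le_mul_right _ ih
      _ = _ := (pow_succ k j).symm

theorem geom (k : ℕ) (hk : 2 ≤ k) (J : ℕ) : ∑ j ∈ range (J + 1), k ^ j ≤ 2 * k ^ J := by
  induction J with
  | zero => simp
  | succ J ih =>
    rw [Finset.sum_range_succ]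
    have h : 2 * k ^ J ≤ k ^ (J + 1) := by
      rw [pow_succ, mul_comm (k ^ J)]
      exact Nat.mul_le_mul_right _ hk
    omega

end LOT_

theorem prove_LOT : T_LOT := by
  intro V _ _ _ Q k J t hQ0 hQ1 hk hrow x
  set T : Finset V := (range (J + 1)).biUnion (LOT_.S Q x) with hT
  have hTcard : (T.card : ℝ) ≤ 2 * (k : ℝ) ^ J := by
    have h1 : T.card ≤ 2 * k ^ J :=
      calc T.card ≤ ∑ j ∈ range (J + 1), (LOT_.S Q x j).card := Finset.card_biUnion_le
        _ ≤ ∑ j ∈ range (J + 1), k ^ j := Finset.sum_le_sum fun j _ => LOT_.S_card Q k hrow x j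
        _ ≤ _ := LOT_.geom k hk J
    exact_mod_cast h1
  set μ : V → ℝ := fun y => (((1 / 2 : ℝ) • (1 + Q)) ^ t) x y with hμ
  have hμe : ∀ y, μ y = ∑ j ∈ range (t + 1), ((t.choose j : ℝ) / 2 ^ t) * (Q ^ j) x y :=
    fun y => LOT_.expand Q t x y
  have hsum2 : ∑ j ∈ range (t + 1), (t.choose j : ℝ) = 2 ^ t := by
    exact_mod_cast Nat.sum_range_choose t
  have h2t : (0 : ℝ) < 2 ^ t := by positivity
  -- total mass
  have hmass : ∑ y, μ y = 1 := by
    simp_rw [hμe]
    rw [Finset.sum_comm]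
    simp_rw [← Finset.mul_sum, LOT_.pow_row Q hQ1, mul_one]
    rw [← Finset.sum_div, hsum2, div_self h2t.ne']
  -- mass of T
  have hmT : 1 - binHigh t J ≤ ∑ y ∈ T, μ y := by
    have h1 : ∀ j ∈ (range (t + 1)).filter (fun j => ¬ J < j), ∑ y ∈ T, (Q ^ j) x y = 1 := by
      intro j hj
      rw [Finset.mem_filter] at hj
      rw [← LOT_.pow_row Q hQ1 j x]
      apply Finset.sum_subset (Finset.subset_univ T)
      intro y _ hy
      by_contra hne
      apply hy
      rw [hT, Finset.mem_biUnion]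
      refine ⟨j, Finset.mem_range.mpr (by omega), ?_⟩
      unfold LOT_.S
      rw [Finset.mem_filter]
      exact ⟨Finset.mem_univ _, hne⟩
    have h2 : ∑ y ∈ T, μ y =
        ∑ j ∈ range (t + 1), ((t.choose j : ℝ) / 2 ^ t) * ∑ y ∈ T, (Q ^ j) x y := by
      simp_rw [hμe]
      rw [Finset.sum_comm]
      simp_rw [← Finset.mul_sum]
    have h3 : ∑ j ∈ (range (t + 1)).filter (fun j => ¬ J < j), (t.choose j : ℝ) / 2 ^ t ≤
        ∑ y ∈ T, μ y := by
      rw [h2, ← Finset.sum_filter_add_sum_filter_not (range (t + 1)) (fun j => J < j)]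
      have h4 : ∑ j ∈ (range (t + 1)).filter (fun j => ¬ J < j), (t.choose j : ℝ) / 2 ^ t =
          ∑ j ∈ (range (t + 1)).filter (fun j => ¬ J < j),
            ((t.choose j : ℝ) / 2 ^ t) * ∑ y ∈ T, (Q ^ j) x y :=
        Finset.sum_congr rfl fun j hj => by rw [h1 j hj, mul_one]
      have h5 : 0 ≤ ∑ j ∈ (range (t + 1)).filter (fun j => J < j),
          ((t.choose j : ℝ) / 2 ^ t) * ∑ y ∈ T, (Q ^ j) x y :=
        Finset.sum_nonneg fun j _ => mul_nonneg (by positivity)
          (Finset.sum_nonneg fun y _ => LOT_.pow_nn Q hQ0 j x y)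
      linarith
    have h6 : binHigh t J +
        ∑ j ∈ (range (t + 1)).filter (fun j => ¬ J < j), (t.choose j : ℝ) / 2 ^ t = 1 := by
      unfold binHigh
      rw [← Finset.sum_div, ← add_div, Finset.sum_filter_add_sum_filter_not, hsum2,
        div_self h2t.ne']
    linarith
  -- the distance
  have hV : (0 : ℝ) < Fintype.card V := by exact_mod_cast Fintype.card_pos
  have hsum0 : ∑ y, (μ y - 1 / (Fintype.card V : ℝ)) = 0 := by
    rw [Finset.sum_sub_distrib, hmass, Finset.sum_const, Finset.card_univ, nsmul_eq_mul,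
      mul_one_div_cancel hV.ne', sub_self]
  have hsplit := Finset.sum_add_sum_compl T (fun y => μ y - 1 / (Fintype.card V : ℝ))
  have hsplit' := Finset.sum_add_sum_compl T (fun y => |μ y - 1 / (Fintype.card V : ℝ)|)
  have hA : ∑ y ∈ T, (μ y - 1 / (Fintype.card V : ℝ)) ≤
      ∑ y ∈ T, |μ y - 1 / (Fintype.card V : ℝ)| :=
    Finset.sum_le_sum fun y _ => le_abs_self _
  have hB : -∑ y ∈ Tᶜ, (μ y - 1 / (Fintype.card V : ℝ)) ≤
      ∑ y ∈ Tᶜ, |μ y - 1 / (Fintype.card V : ℝ)| := by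
    rw [← Finset.sum_neg_distrib]
    exact Finset.sum_le_sum fun y _ => neg_le_abs _
  have hTs : ∑ y ∈ T, (μ y - 1 / (Fintype.card V : ℝ)) =
      ∑ y ∈ T, μ y - (T.card : ℝ) / Fintype.card V := by
    rw [Finset.sum_sub_distrib, Finset.sum_const, nsmul_eq_mul, mul_one_div]
  have hTd : (T.card : ℝ) / Fintype.card V ≤ 2 * (k : ℝ) ^ J / Fintype.card V :=
    div_le_div_of_nonneg_right hTcard hV.le
  have hgoal : tvDist ((1 / 2 : ℝ) • (1 + Q)) t x =
      (1 / 2 : ℝ) * ∑ y, |μ y - 1 / (Fintype.card V : ℝ)| := rfl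
  rw [hgoal]
  linarith

end Pool.Agent.RCG
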