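import Pool.Agent.RCG.Targets

set_option autoImplicit false

/-!
# RCG: MACH (combination of STEP, ELE and REC)
-/

namespace Pool.Agent.RCG

/-- MACH: a direct combination of the step, the elementary properties and the recursion. -/
theorem prove_MACH (h1 : T_STEP) (h2 : T_ELE) (h3 : T_REC) : T_MACH := by
  intro I G _ _ q N a hN ha hcard havg d hd
  obtain ⟨hmono, htriv, hadd⟩ := h2 I G q a
  exact h3 N a (fun d B => Good G q d B a) hN ha hmono htriv hadd
    (fun d s B κ u hd3 hs hB hκ hκ1 hNa hG =>
      h1 I G q N a hN ha hcard d hd3 (havg d (by omega)) s B κ u hs hB hκ hκ1 hNa hG) d hd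

end Pool.Agent.RCG
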