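import Pool.Agent.RCG.Targets4

set_option autoImplicit false

/-!
# RCG: MACH2, the combination
-/

namespace Pool.Agent.RCG

theorem prove_MACH2 (h1 : T_PW2) (h2 : T_GDX) (h3 : T_GSM) (h4 : T_GEN) : T_MACH2 := by
  intro I G _ _ q N a hN ha hcard hAvg d hd
  have h5 := h4 (fun d B => Good G q d B a) (14 * √(N + a + 1)) (by positivity)
    (fun d B B' hB hG => (h3 I G q a d d B B').2 hB hG)
    (fun d d' B B' hG hG' => (h3 I G q a d d' B B').1 hG hG')
    (fun j => h2 I G q N a hN ha hcard (2 ^ j) Nat.one_le_two_pow (h1 I G q hAvg j)) d hd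
  have e : 4 * (14 * √(N + a + 1)) * √(2 * (d : ℝ) * Real.log (2 * (d : ℝ))) =
      56 * √(N + a + 1) * √(2 * (d : ℝ) * Real.log (2 * (d : ℝ))) := by ring
  rw [← e]
  exact h5

end Pool.Agent.RCG
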