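import Pool.Agent.RCG.Targets4

/-!
# RCG: choice of n (target T_MOM)
-/

namespace Pool.Agent.RCG

open Filter Topology

namespace MOM_

lemma evlog (A B ε : ℝ) (hε : 0 < ε) : ∀ᶠ q : ℝ in atTop, A + B * Real.log q ≤ q ^ ε := by
  have h1 : Tendsto (fun q : ℝ => A * q ^ (-ε)) atTop (𝓝 (A * 0)) :=
    (tendsto_rpow_neg_atTop hε).const_mul A
  have h2 : Tendsto (fun q : ℝ => B * (Real.log q / q ^ ε)) atTop (𝓝 (B * 0)) :=
    ((isLittleO_log_rpow_atTop hε).tendsto_div_nhds_zero).const_mul B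
  have h3 := h1.add h2
  rw [mul_zero, mul_zero, add_zero] at h3
  filter_upwards [h3.eventually_lt_const (u := 1) one_pos, eventually_gt_atTop 0] with q hq hq0
  have hp : 0 < q ^ ε := Real.rpow_pos_of_pos hq0 ε
  have e : A * q ^ (-ε) + B * (Real.log q / q ^ ε) = (A + B * Real.log q) / q ^ ε := by
    rw [Real.rpow_neg hq0.le]
    field_simp
  rw [e, div_lt_one hp] at hq
  exact hq.le

end MOM_

open MOM_ in
theorem prove_MOM : T_MOM := by
  intro k c ε hk hc hε
  set lk := Real.log (k / 4) with hlk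
  have hk0 : 0 < k := by linarith
  have hlk0 : 0 < lk := Real.log_pos (by linarith)
  have hlogk : lk ≤ Real.log k := Real.log_le_log (by positivity) (by linarith)
  have hlogk0 : 0 < Real.log k := hlk0.trans_le hlogk
  have hev := evlog (4 * (1 + c)) (4 * (c / lk)) ε hε
  obtain ⟨P, hP⟩ := eventually_atTop.1 (hev.and (eventually_ge_atTop (1 : ℝ)))
  refine ⟨P, fun q hq => ?_⟩
  obtain ⟨h1, hq1⟩ := hP q hq
  refine ⟨hq1, ?_⟩
  have hq0 : 0 < q := by linarith
  set L := Real.log q with hL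
  have hL0 : 0 ≤ L := Real.log_nonneg hq1
  set j := ⌊L / (2 * lk)⌋₊ with hj
  have hj1 : (j : ℝ) ≤ L / (2 * lk) := Nat.floor_le (by positivity)
  have hj2 : L / (2 * lk) < (j : ℝ) + 1 := Nat.lt_floor_add_one _
  refine ⟨2 * j, even_two_mul j, ?_⟩
  have hn1 : ((2 * j : ℕ) : ℝ) * lk ≤ L := by
    rw [le_div_iff₀ (by positivity)] at hj1
    push_cast
    linarith
  have hn2 : L / lk - 2 ≤ ((2 * j : ℕ) : ℝ) := by
    have e : L / lk = 2 * (L / (2 * lk)) := by field_simp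
    push_cast
    rw [e]
    linarith
  have hn3 : ((2 * j : ℕ) : ℝ) ≤ L / lk := by
    rw [le_div_iff₀ hlk0]
    exact hn1
  set n := 2 * j with hn
  have hsk : 0 < √k := Real.sqrt_pos.2 hk0
  have hsq : √k * √k = k := Real.mul_self_sqrt hk0.le
  have hb : 0 < 2 / √k := by positivity
  have hlog : Real.log (2 / √k) = -lk / 2 := by
    rw [hlk, Real.log_div (by norm_num) hsk.ne', Real.log_sqrt hk0.le,
      Real.log_div hk0.ne' (by norm_num)]
    have : Real.log 4 = 2 * Real.log 2 := by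
      rw [show (4 : ℝ) = 2 ^ 2 by norm_num, Real.log_pow]
      norm_num
    rw [this]
    ring
  -- step 1
  have hs1 : √(1 / q) ≤ (2 / √k) ^ n := by
    have e1 : √(1 / q) = Real.exp (-(L / 2)) := by
      rw [Real.sqrt_eq_rpow, one_div, Real.inv_rpow hq0.le, Real.exp_neg, hL,
        Real.rpow_def_of_pos hq0]
      congr 2
      ring
    have e2 : (2 / √k) ^ n = Real.exp (n * (-lk / 2)) := by
      rw [← hlog, mul_comm, Real.exp_mul, Real.exp_log hb, Real.rpow_natCast]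
    rw [e1, e2]
    apply Real.exp_le_exp.2
    linarith
  have hs2 : √(((n : ℝ) + 1) / q) ≤ √((n : ℝ) + 1) * (2 / √k) ^ n := by
    rw [div_eq_mul_one_div, Real.sqrt_mul (by positivity)]
    exact mul_le_mul_of_nonneg_left hs1 (Real.sqrt_nonneg _)
  -- step 2
  have hs3 : ((4 * √k) ^ n)⁻¹ * (k ^ n * (2 / √k) ^ n) = (1 / 2 : ℝ) ^ n := by
    rw [← inv_pow, ← mul_pow, ← mul_pow]
    congr 1
    field_simp
    nlinarith [hsq]
  have hs4 : √((n : ℝ) + 1) ≤ (n : ℝ) + 1 := by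
    rw [Real.sqrt_le_left (by positivity)]
    nlinarith [(Nat.cast_nonneg n : (0 : ℝ) ≤ n)]
  have hs5 : ((4 * √k) ^ n)⁻¹ * (k ^ n * ((2 / √k) ^ n + c * √(((n : ℝ) + 1) / q))) ≤
      (1 / 2 : ℝ) ^ n * (1 + c * ((n : ℝ) + 1)) := by
    calc ((4 * √k) ^ n)⁻¹ * (k ^ n * ((2 / √k) ^ n + c * √(((n : ℝ) + 1) / q)))
        ≤ ((4 * √k) ^ n)⁻¹ * (k ^ n * ((2 / √k) ^ n +
            c * (((n : ℝ) + 1) * (2 / √k) ^ n))) := by
          gcongr
          exact hs2.trans (mul_le_mul_of_nonneg_right hs4 (by positivity))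
      _ = (((4 * √k) ^ n)⁻¹ * (k ^ n * (2 / √k) ^ n)) * (1 + c * ((n : ℝ) + 1)) := by ring
      _ = _ := by rw [hs3]
  -- step 3
  have hs6 : (1 / 2 : ℝ) ^ n ≤ 4 * q ^ (-(Real.log 2 / Real.log k)) := by
    have e1 : (1 / 2 : ℝ) ^ n = Real.exp (-(Real.log 2 * n)) := by
      rw [one_div, inv_pow, Real.exp_neg, Real.exp_mul, Real.exp_log (by norm_num),
        Real.rpow_natCast]
    have e2 : 4 * q ^ (-(Real.log 2 / Real.log k)) =
        Real.exp (2 * Real.log 2 - Real.log 2 / Real.log k * L) := by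
      rw [Real.rpow_def_of_pos hq0, Real.exp_sub, ← hL]
      have : Real.exp (2 * Real.log 2) = 4 := by
        rw [mul_comm, Real.exp_mul, Real.exp_log (by norm_num)]
        norm_num
      rw [this, show L * -(Real.log 2 / Real.log k) = -(Real.log 2 / Real.log k * L) by ring,
        Real.exp_neg]
      rfl
    rw [e1, e2]
    apply Real.exp_le_exp.2
    have h2 : 0 < Real.log 2 := Real.log_pos (by norm_num)
    have h3 : L / Real.log k ≤ L / lk := div_le_div_of_nonneg_left hL0 hlk0 hlogk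
    have h4 : L / Real.log k ≤ n + 2 := by linarith
    have h5 : Real.log 2 * (L / Real.log k) ≤ Real.log 2 * (n + 2) :=
      mul_le_mul_of_nonneg_left h4 h2.le
    have h6 : Real.log 2 / Real.log k * L = Real.log 2 * (L / Real.log k) := by ring
    rw [h6]
    linarith
  have hs7 : 4 * (1 + c * ((n : ℝ) + 1)) ≤ q ^ ε := by
    refine le_trans ?_ h1
    have : c * (n : ℝ) ≤ c * (L / lk) := mul_le_mul_of_nonneg_left hn3 hc.le
    have e : 4 * (c / lk) * Real.log q = 4 * (c * (L / lk)) := by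
      rw [← hL]; ring
    rw [e]
    linarith
  calc ((4 * √k) ^ n)⁻¹ * (k ^ n * ((2 / √k) ^ n + c * √(((n : ℝ) + 1) / q)))
      ≤ (1 / 2 : ℝ) ^ n * (1 + c * ((n : ℝ) + 1)) := hs5
    _ ≤ (4 * q ^ (-(Real.log 2 / Real.log k))) * (1 + c * ((n : ℝ) + 1)) :=
        mul_le_mul_of_nonneg_right hs6 (by positivity)
    _ = q ^ (-(Real.log 2 / Real.log k)) * (4 * (1 + c * ((n : ℝ) + 1))) := by ring
    _ ≤ q ^ (-(Real.log 2 / Real.log k)) * q ^ ε :=
        mul_le_mul_of_nonneg_left hs7 (Real.rpow_nonneg hq0.le _)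
    _ = q ^ (-(Real.log 2 / Real.log k) + ε) := (Real.rpow_add hq0 _ _).symm

end Pool.Agent.RCG
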