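import Pool.Agent.RCG.Targets4

set_option autoImplicit false

/-!
# RCG: MRK, Markov inequality for the bad tuples
-/

namespace Pool.Agent.RCG

open Finset Matrix

namespace MRK_

variable {G : Type} [Group G] [Fintype G]

open Classical in
/-- the centred delta function -/
noncomputable def ee (x : G) : G → ℝ := fun z => (if z = x then 1 else 0) - 1 / Fintype.card G

lemma ee_sum (x : G) : ∑ z, ee x z = 0 := by
  classical
  have hG : (0 : ℝ) < Fintype.card G := by exact_mod_cast Fintype.card_pos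
  simp only [ee]
  rw [sum_sub_distrib, sum_ite_eq' univ x (fun _ => (1 : ℝ)), if_pos (mem_univ _), sum_const,
    card_univ, nsmul_eq_mul]
  field_simp
  ring

lemma ee_sq (x : G) : ∑ z, ee x z ^ 2 ≤ 1 := by
  classical
  have hG : (0 : ℝ) < Fintype.card G := by exact_mod_cast Fintype.card_pos
  have h1 : ∀ z : G, ee x z ^ 2 = (if z = x then (1 - 2 / (Fintype.card G : ℝ)) else 0) +
      1 / (Fintype.card G : ℝ) ^ 2 := by
    intro z
    simp only [ee]
    split_ifs
    · field_simp; ring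
    · field_simp; ring
  simp only [h1]
  rw [sum_add_distrib, sum_ite_eq' univ x, if_pos (mem_univ _), sum_const, card_univ,
    nsmul_eq_mul]
  have h2 : (Fintype.card G : ℝ) * (1 / (Fintype.card G : ℝ) ^ 2) = 1 / Fintype.card G := by
    field_simp
  rw [h2]
  have h3 : 0 < 1 / (Fintype.card G : ℝ) := by positivity
  have h4 : 2 / (Fintype.card G : ℝ) = 2 * (1 / Fintype.card G) := by ring
  rw [h4]
  linarith

lemma expand (f : G → ℝ) (hf : ∑ x, f x = 0) : f = ∑ x, f x • ee x := by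
  classical
  funext z
  rw [Finset.sum_apply]
  simp only [Pi.smul_apply, smul_eq_mul, ee, mul_sub]
  rw [sum_sub_distrib, ← sum_mul, hf]
  simp

/-- Cauchy-Schwarz for a positive semidefinite form -/
lemma cs {ι : Type} [Fintype ι] (E : Matrix ι ι ℝ) (hE : E.PosSemidef) (u v : ι → ℝ) :
    2 * (u ⬝ᵥ E *ᵥ v) ≤ u ⬝ᵥ E *ᵥ u + v ⬝ᵥ E *ᵥ v := by
  have h1 := hE.dotProduct_mulVec_nonneg (u - v)
  have hs : v ⬝ᵥ E *ᵥ u = u ⬝ᵥ E *ᵥ v := by
    have ht : Eᵀ = E := by
      have := hE.1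
      rwa [Matrix.IsHermitian, Matrix.conjTranspose_eq_transpose_of_trivial] at this
    rw [Matrix.dotProduct_mulVec, ← Matrix.mulVec_transpose, ht, dotProduct_comm]
  simp only [star_trivial, Matrix.mulVec_sub, sub_dotProduct, dotProduct_sub] at h1
  rw [hs] at h1
  linarith

lemma form_le (E : Matrix G G ℝ) (hE : E.PosSemidef) (f : G → ℝ) (hf : ∑ x, f x = 0) :
    f ⬝ᵥ E *ᵥ f ≤ (∑ x, f x ^ 2) * ∑ x, ee x ⬝ᵥ E *ᵥ ee x := by
  classical
  have h1 : f ⬝ᵥ E *ᵥ f = ∑ x, ∑ z, f x * f z * (ee x ⬝ᵥ E *ᵥ ee z) := by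
    conv_lhs => rw [expand f hf]
    rw [Matrix.mulVec_sum, sum_dotProduct]
    refine sum_congr rfl fun x _ => ?_
    rw [dotProduct_sum]
    refine sum_congr rfl fun z _ => ?_
    rw [Matrix.mulVec_smul, smul_dotProduct, dotProduct_smul, smul_eq_mul, smul_eq_mul]
    ring
  have h2 : ∀ x z : G, f x * f z * (ee x ⬝ᵥ E *ᵥ ee z) ≤
      (f x ^ 2 * (ee z ⬝ᵥ E *ᵥ ee z) + f z ^ 2 * (ee x ⬝ᵥ E *ᵥ ee x)) / 2 := by
    intro x z
    have h3 := cs E hE (f z • ee x) (f x • ee z)
    rw [Matrix.mulVec_smul, Matrix.mulVec_smul, smul_dotProduct, smul_dotProduct,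
      smul_dotProduct, dotProduct_smul, dotProduct_smul, dotProduct_smul] at h3
    simp only [smul_eq_mul] at h3
    nlinarith
  rw [h1]
  refine (sum_le_sum fun x _ => sum_le_sum fun z _ => h2 x z).trans ?_
  apply le_of_eq
  have h4 : ∀ x : G, ∑ z, (f x ^ 2 * (ee z ⬝ᵥ E *ᵥ ee z) + f z ^ 2 * (ee x ⬝ᵥ E *ᵥ ee x)) / 2 =
      (f x ^ 2 * (∑ z, ee z ⬝ᵥ E *ᵥ ee z) + (∑ z, f z ^ 2) * (ee x ⬝ᵥ E *ᵥ ee x)) / 2 := by
    intro x
    rw [← sum_div, sum_add_distrib, ← mul_sum, ← sum_mul]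
  simp only [h4]
  rw [← sum_div, sum_add_distrib, ← sum_mul, ← mul_sum]
  ring

end MRK_

open MRK_ in
/-- MRK -/
theorem prove_MRK (h1 : T_SPE) (h2 : T_ADM) : T_MRK := by
  intro G _ _ d t B Φ ht hΦ hp hm
  classical
  obtain ⟨a1, a2, _, _, _, _⟩ := h2 G d
  have hG : (0 : ℝ) < Fintype.card G := by exact_mod_cast Fintype.card_pos
  -- trace-like quantity
  set S : (Fin d → G) → ℝ → ℝ := fun y s => ∑ x, ee x ⬝ᵥ exM y s *ᵥ ee x with hS
  have hpsd : ∀ (y : Fin d → G) (s : ℝ), (exM y s).PosSemidef := by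
    intro y s
    have hh : (s • adM y).IsHermitian := by
      have := a2 y
      rw [Matrix.IsHermitian] at this ⊢
      rw [Matrix.conjTranspose_smul, this, star_trivial]
    have := (h1 G (s • adM y) 1 1 hh zero_le_one).2.2
    unfold exM
    convert this
  have hS0 : ∀ y s, 0 ≤ S y s := by
    intro y s
    refine sum_nonneg fun x _ => ?_
    have := (hpsd y s).dotProduct_mulVec_nonneg (ee x)
    simpa using this
  have hsum : ∀ s, EB G d s Φ → ∑ y : Fin d → G, S y s ≤
      Φ * (Fintype.card G : ℝ) ^ d * Fintype.card G := by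
    intro s hs
    simp only [hS]
    rw [sum_comm]
    have h3 : ∀ x : G, ∑ y : Fin d → G, ee x ⬝ᵥ exM y s *ᵥ ee x ≤
        Φ * (Fintype.card G : ℝ) ^ d := by
      intro x
      refine (hs (ee x) (ee_sum x)).trans ?_
      have h4 : 0 ≤ Φ * (Fintype.card G : ℝ) ^ d := by positivity
      calc _ ≤ Φ * (Fintype.card G : ℝ) ^ d * 1 := mul_le_mul_of_nonneg_left (ee_sq x) h4
        _ = _ := mul_one _
    refine (sum_le_sum fun x _ => h3 x).trans ?_
    rw [sum_const, card_univ, nsmul_eq_mul, mul_comm]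
  -- bad tuples
  have hbad : ∀ y : Fin d → G, ¬ QB y B → Real.exp (t * B) ≤ S y (1 * t) + S y (-1 * t) := by
    intro y hy
    unfold QB at hy
    push Not at hy
    obtain ⟨f, hf, hfB⟩ := hy
    have hff : 0 < ∑ x, f x ^ 2 := by
      rcases (sum_nonneg fun x _ => sq_nonneg (f x) : 0 ≤ ∑ x, f x ^ 2).lt_or_eq with h | h
      · exact h
      · exfalso
        have h0 : ∀ x, f x = 0 := by
          intro x
          have := (sum_eq_zero_iff_of_nonneg (fun x _ => sq_nonneg (f x))).1 h.symm x (mem_univ _)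
          exact pow_eq_zero_iff (two_ne_zero) |>.1 this
        simp [h0] at hfB
    have hdot : f ⬝ᵥ f = ∑ x, f x ^ 2 := by
      simp [dotProduct, sq]
    have hadj : f ⬝ᵥ adM y *ᵥ f = ∑ x, f x * adj y f x := by
      rw [a1]; rfl
    have key : ∀ σ : ℝ, (B * (f ⬝ᵥ f) ≤ f ⬝ᵥ (σ • adM y) *ᵥ f) → σ = 1 ∨ σ = -1 →
        Real.exp (t * B) ≤ S y (σ * t) := by
      intro σ hσ _
      have hh : (σ • adM y).IsHermitian := by
        have := a2 y
        rw [Matrix.IsHermitian] at this ⊢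
        rw [Matrix.conjTranspose_smul, this, star_trivial]
      have h5 := (h1 G (σ • adM y) t B hh ht).2.1 f hσ
      have h6 : NormedSpace.exp (t • σ • adM y) = exM y (σ * t) := by
        unfold exM
        rw [smul_smul, mul_comm t σ]
      have h7 : f ⬝ᵥ exM y (σ * t) *ᵥ f ≤ (∑ x, f x ^ 2) * S y (σ * t) :=
        form_le _ (hpsd y _) f hf
      have h8 : Real.exp (t * B) * (f ⬝ᵥ f) ≤ f ⬝ᵥ exM y (σ * t) *ᵥ f := by
        rw [← h6]
        convert h5
      rw [hdot] at h8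
      have h9 : Real.exp (t * B) * ∑ x, f x ^ 2 ≤ S y (σ * t) * ∑ x, f x ^ 2 := by
        calc _ ≤ _ := h8
          _ ≤ _ := h7
          _ = _ := mul_comm _ _
      exact le_of_mul_le_mul_right h9 hff
    rcases le_abs.1 (le_of_lt hfB) with h | h
    · have := key 1 (by
        rw [one_smul, hdot, hadj]; exact h) (Or.inl rfl)
      linarith [hS0 y (-1 * t)]
    · have := key (-1) (by
        rw [neg_smul, one_smul, Matrix.neg_mulVec, dotProduct_neg, hdot, hadj]; exact h)
        (Or.inr rfl)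
      linarith [hS0 y (1 * t)]
  -- count
  have hcount : (badCard G d B : ℝ) * Real.exp (t * B) ≤
      ∑ y : Fin d → G, (S y (1 * t) + S y (-1 * t)) := by
    have h3 : (badCard G d B : ℝ) = ∑ y ∈ (univ.filter fun y : Fin d → G => ¬ QB y B), (1 : ℝ) := by
      rw [badCard, Nat.card_eq_fintype_card, Fintype.card_subtype]
      simp
    rw [h3, sum_mul]
    refine (sum_le_sum fun y hy => ?_).trans (sum_le_sum_of_subset_of_nonneg (filter_subset _ _)
      fun y _ _ => add_nonneg (hS0 y _) (hS0 y _))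
    rw [one_mul]
    exact hbad y (mem_filter.1 hy).2
  rw [sum_add_distrib] at hcount
  have h4 := hsum _ hp
  have h5 := hsum _ hm
  have h6 : (badCard G d B : ℝ) * Real.exp (t * B) ≤
      2 * (Φ * (Fintype.card G : ℝ) ^ d * Fintype.card G) := by linarith
  have h7 : (badCard G d B : ℝ) = (badCard G d B : ℝ) * Real.exp (t * B) *
      Real.exp (-(t * B)) := by
    rw [mul_assoc, ← Real.exp_add]
    simp
  rw [h7]
  calc _ ≤ 2 * (Φ * (Fintype.card G : ℝ) ^ d * Fintype.card G) * Real.exp (-(t * B)) :=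
        mul_le_mul_of_nonneg_right h6 (Real.exp_pos _).le
    _ = _ := by ring

end Pool.Agent.RCG
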