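import Pool.Agent.RCG.Targets5

/-!
# RCG: T_MXA, asymptotics of the mixing time
-/

set_option autoImplicit false

namespace Pool.Agent.RCG

open Finset Matrix Filter Topology

namespace MXA_

theorem ev_sqrt {C : ℝ} (hC : 0 < C) : ∀ᶠ x : ℝ in atTop, C * Real.log x < √x := by
  have h := (isLittleO_log_rpow_atTop (show (0 : ℝ) < 1 / 2 by norm_num)).bound
    (show (0 : ℝ) < 1 / (2 * C) by positivity)
  filter_upwards [h, eventually_gt_atTop 1] with x hx hx1
  have hx0 : 0 < x := by linarith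
  rw [← Real.sqrt_eq_rpow, Real.norm_of_nonneg (Real.log_nonneg hx1.le),
    Real.norm_of_nonneg (Real.sqrt_nonneg x)] at hx
  have h3 : 0 < √x := Real.sqrt_pos.2 hx0
  have h4 : C * Real.log x ≤ C * (1 / (2 * C) * √x) := mul_le_mul_of_nonneg_left hx hC.le
  have h5 : C * (1 / (2 * C) * √x) = √x / 2 := by
    field_simp
  linarith

theorem ev_log {C η : ℝ} (hη : 0 < η) (hη1 : η < 1) :
    ∀ᶠ L : ℝ in atTop, (1 + η / 2) * (Real.log C + Real.log L) < η / 4 * L := by
  have h := (Real.isLittleO_log_id_atTop).bound (show (0 : ℝ) < η / 16 by positivity)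
  have h' : ∀ᶠ L : ℝ in atTop, Real.log C / (η / 16) ≤ L := eventually_ge_atTop _
  filter_upwards [h, h', eventually_gt_atTop 1] with L hL hL' hL1
  have h0 : 0 < L := by linarith
  rw [Real.norm_of_nonneg (Real.log_nonneg hL1.le), id, Real.norm_of_nonneg h0.le] at hL
  rw [div_le_iff₀ (by positivity)] at hL'
  have h1 : Real.log C + Real.log L ≤ η / 8 * L := by linarith
  have h2 : (1 + η / 2) * (Real.log C + Real.log L) ≤ (1 + η / 2) * (η / 8 * L) :=
    mul_le_mul_of_nonneg_left h1 (by linarith)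
  have h3 : (1 + η / 2) * (η / 8 * L) < η / 4 * L := by
    have h4 : 0 < η * L := by positivity
    nlinarith
  linarith

theorem core (h : T_BIN) {C η k : ℝ} (hC : 0 < C) (hη : 0 < η) (hη1 : η < 1) (hk0 : 0 < k)
    (hL : 0 < Real.log k) (h1 : C * Real.log k < √k)
    (h2 : (1 + η / 2) * (Real.log C + Real.log (Real.log k)) < η / 4 * Real.log k) {ε : ℝ}
    (hε : 0 < ε) : ∃ M₀ : ℝ, ∀ M : ℝ, M₀ ≤ M → 1 < M ∧
    (∃ t J : ℕ, (t : ℝ) ≤ (1 + η) * (2 * Real.log M / Real.log k) ∧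
      binLow t J + (1 / 2) * √M * (C * √k * Real.log k / k) ^ J ≤ ε) ∧
    (∀ t : ℕ, (t : ℝ) ≤ (1 - η) * (2 * Real.log M / Real.log k) →
      ∃ J : ℕ, binHigh t J + 2 * k ^ J / M < ε) := by
  set L : ℝ := Real.log k with hLdef
  set r : ℝ := C * √k * L / k with hr
  have hsk : 0 < √k := Real.sqrt_pos.2 hk0
  have hr0 : 0 < r := by positivity
  have hlogr : Real.log r = Real.log C + Real.log L - L / 2 := by
    rw [hr, Real.log_div (by positivity) hk0.ne', Real.log_mul (by positivity) hL.ne',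
      Real.log_mul hC.ne' hsk.ne', Real.log_sqrt hk0.le, ← hLdef]
    ring
  set A : ℝ := -(L / 2 + (1 + η / 2) * Real.log r) with hA
  have hA0 : 0 < A := by
    rw [hA, hlogr]
    have h3 : L / 2 + (1 + η / 2) * (Real.log C + Real.log L - L / 2) =
        (1 + η / 2) * (Real.log C + Real.log L) - η / 4 * L := by ring
    rw [h3]
    linarith
  have hlogr0 : Real.log r < 0 := by
    by_contra hcon
    have h3 : 0 ≤ (1 + η / 2) * Real.log r := mul_nonneg (by linarith) (not_lt.1 hcon)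
    linarith
  have hX : Tendsto (fun M : ℝ => Real.log M / L) atTop atTop :=
    Real.tendsto_log_atTop.atTop_div_const hL
  have g1 : ∀ᶠ X : ℝ in atTop, 8 * (1 + η) / η ^ 2 / X < ε / 2 := by
    have : Tendsto (fun X : ℝ => 8 * (1 + η) / η ^ 2 / X) atTop (𝓝 0) :=
      tendsto_const_nhds.div_atTop tendsto_id
    exact (tendsto_order.1 this).2 _ (by positivity)
  have gexp : ∀ B : ℝ, 0 < B → ∀ δ : ℝ, 0 < δ → ∀ᶠ X : ℝ in atTop, Real.exp (-(B * X)) < δ := by
    intro B hB δ hδ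
    have : Tendsto (fun X : ℝ => Real.exp (-(B * X))) atTop (𝓝 0) :=
      Real.tendsto_exp_neg_atTop_nhds_zero.comp (tendsto_id.const_mul_atTop hB)
    exact (tendsto_order.1 this).2 _ hδ
  have gall := g1.and ((gexp A hA0 ε hε).and ((gexp (η / 2 * L) (by positivity) (ε / 4)
    (by positivity)).and (eventually_ge_atTop (6 / η))))
  obtain ⟨M₀, hM₀⟩ := eventually_atTop.1 ((hX.eventually gall).and (eventually_gt_atTop 1))
  refine ⟨M₀, fun M hM => ?_⟩
  obtain ⟨⟨q1, q2, q3, q4⟩, hM1⟩ := hM₀ M hM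
  have hM0 : 0 < M := by linarith
  set X : ℝ := Real.log M / L with hXdef
  have hlogM : Real.log M = X * L := by
    rw [hXdef]
    field_simp
  have hX0 : 0 < X := lt_of_lt_of_le (by positivity) q4
  have hηX : 6 ≤ η * X := by
    rw [div_le_iff₀ hη] at q4
    linarith
  have h2X : 2 * Real.log M / L = 2 * X := by
    rw [hXdef]
    ring
  rw [h2X]
  have hsM : √M = Real.exp (X * L / 2) := by
    rw [← hlogM, Real.exp_half, Real.exp_log hM0]
  refine ⟨hM1, ?_, ?_⟩
  · refine ⟨⌊(1 + η) * (2 * X)⌋₊, ⌈(1 + η / 2) * X⌉₊, Nat.floor_le (by positivity), ?_⟩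
    set t : ℕ := ⌊(1 + η) * (2 * X)⌋₊ with ht
    set J : ℕ := ⌈(1 + η / 2) * X⌉₊ with hJ
    have ht1 : (t : ℝ) ≤ (1 + η) * (2 * X) := Nat.floor_le (by positivity)
    have ht2 : (1 + η) * (2 * X) < t + 1 := Nat.lt_floor_add_one _
    have hJ1 : (1 + η / 2) * X ≤ J := Nat.le_ceil _
    have hJ2 : (J : ℝ) < (1 + η / 2) * X + 1 := Nat.ceil_lt_add_one (by positivity)
    have hb : binLow t J ≤ t / (4 * (η / 4 * X) ^ 2) := by
      refine (h t J (η / 4 * X) (by positivity)).1 ?_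
      nlinarith
    have hb2 : (t : ℝ) / (4 * (η / 4 * X) ^ 2) ≤ 8 * (1 + η) / η ^ 2 / X := by
      rw [div_le_iff₀ (by positivity)]
      have h5 : 8 * (1 + η) / η ^ 2 / X * (4 * (η / 4 * X) ^ 2) = (1 + η) * (2 * X) := by
        field_simp
        ring
      rw [h5]
      exact ht1
    have hp : √M * r ^ J ≤ Real.exp (-(A * X)) := by
      have h6 : r ^ J = Real.exp (J * Real.log r) := by
        rw [Real.exp_nat_mul, Real.exp_log hr0]
      rw [h6, hsM, ← Real.exp_add]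
      refine Real.exp_le_exp.2 ?_
      have h7 : (J : ℝ) * Real.log r ≤ (1 + η / 2) * X * Real.log r :=
        mul_le_mul_of_nonpos_right hJ1 hlogr0.le
      have h8 : -(A * X) = X * L / 2 + (1 + η / 2) * X * Real.log r := by
        rw [hA]
        ring
      rw [h8]
      linarith
    have h9 : 1 / 2 * √M * r ^ J = 1 / 2 * (√M * r ^ J) := by ring
    rw [h9]
    linarith
  · intro t ht
    refine ⟨⌊(1 - η / 2) * X⌋₊, ?_⟩
    set J : ℕ := ⌊(1 - η / 2) * X⌋₊ with hJ
    have hpos : 0 ≤ (1 - η / 2) * X := mul_nonneg (by linarith) hX0.le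
    have hJ1 : (J : ℝ) ≤ (1 - η / 2) * X := Nat.floor_le hpos
    have hJ2 : (1 - η / 2) * X < J + 1 := Nat.lt_floor_add_one _
    have hb : binHigh t J ≤ t / (4 * (η / 4 * X) ^ 2) := by
      refine (h t J (η / 4 * X) (by positivity)).2 ?_
      nlinarith
    have hb2 : (t : ℝ) / (4 * (η / 4 * X) ^ 2) ≤ 8 * (1 + η) / η ^ 2 / X := by
      rw [div_le_iff₀ (by positivity)]
      have h5 : 8 * (1 + η) / η ^ 2 / X * (4 * (η / 4 * X) ^ 2) = (1 + η) * (2 * X) := by
        field_simp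
        ring
      rw [h5]
      nlinarith
    have hp : k ^ J / M ≤ Real.exp (-(η / 2 * L * X)) := by
      have h6 : k ^ J = Real.exp (J * L) := by
        rw [Real.exp_nat_mul, hLdef, Real.exp_log hk0]
      have h7 : M = Real.exp (X * L) := by
        rw [← hlogM, Real.exp_log hM0]
      rw [h6]
      nth_rewrite 1 [h7]
      rw [← Real.exp_sub]
      refine Real.exp_le_exp.2 ?_
      have h8 : (J : ℝ) * L ≤ (1 - η / 2) * X * L := mul_le_mul_of_nonneg_right hJ1 hL.le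
      nlinarith
    have h9 : 2 * k ^ J / M = 2 * (k ^ J / M) := by ring
    rw [h9]
    linarith

end MXA_

open MXA_ in
/-- asymptotics -/
theorem prove_MXA (h : T_BIN) : T_MXA := by
  intro C η hC hη hη1
  have hk : Tendsto (fun d : ℕ => 2 * (d : ℝ)) atTop atTop :=
    tendsto_natCast_atTop_atTop.const_mul_atTop two_pos
  have hL : Tendsto (fun d : ℕ => Real.log (2 * (d : ℝ))) atTop atTop :=
    Real.tendsto_log_atTop.comp hk
  obtain ⟨d₀, hd₀⟩ := eventually_atTop.1 ((hk.eventually (ev_sqrt hC)).and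
    ((hL.eventually (ev_log (C := C) hη hη1)).and ((hL.eventually_gt_atTop 0).and
      (eventually_ge_atTop 1))))
  refine ⟨d₀, fun d hd => ?_⟩
  obtain ⟨h1, h2, h3, h4⟩ := hd₀ d hd
  have hd0 : (0 : ℝ) < 2 * (d : ℝ) := by
    have : (1 : ℝ) ≤ d := by exact_mod_cast h4
    linarith
  refine ⟨h4, ?_, ?_⟩
  · have h5 : 0 < √(2 * (d : ℝ)) := Real.sqrt_pos.2 hd0
    calc C * √(2 * (d : ℝ)) * Real.log (2 * d) = √(2 * (d : ℝ)) * (C * Real.log (2 * d)) := by
          ring
      _ < √(2 * (d : ℝ)) * √(2 * (d : ℝ)) := mul_lt_mul_of_pos_left h1 h5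
      _ = 2 * d := Real.mul_self_sqrt hd0.le
  · intro ε hε
    obtain ⟨M₀, hM₀⟩ := core h hC hη hη1 hd0 h3 h1 h2 hε
    refine ⟨M₀, fun M hM => ?_⟩
    have h5 : ((2 * d : ℕ) : ℝ) = 2 * (d : ℝ) := by push_cast; ring
    rw [h5]
    exact hM₀ M hM

end Pool.Agent.RCG
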