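import Pool.Agent.RCG.Targets
import Mathlib.GroupTheory.FreeGroup.CyclicallyReduced

set_option autoImplicit false

/-!
# RCG: the trace polynomial of a nontrivial word is not constant (target NC2)
-/

namespace Pool.Agent.RCG

open Polynomial

namespace NC2_

variable {F : Type} [Field F]

/-- the matrix `U(a) L(X) U(a)` (`s = 1`) and its inverse (`s = -1`) -/
noncomputable def mat (a s : F) : Matrix (Fin 2) (Fin 2) F[X] :=
  !![1 + C a * X, C s * (C (2 * a) + C (a ^ 2) * X); C s * X, 1 + C a * X]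

lemma mat_det (a s : F) (hs : s * s = 1) : (mat a s).det = 1 := by
  have h : (C s * C s : F[X]) = 1 := by rw [← C_mul, hs, C_1]
  rw [mat, Matrix.det_fin_two_of]
  simp only [map_mul, map_pow, map_ofNat]
  linear_combination (-(X * (2 * C a + C a ^ 2 * X)) : F[X]) * h

/-- the generators -/
noncomputable def gen (a : F) : Matrix.SpecialLinearGroup (Fin 2) F[X] :=
  ⟨mat a 1, mat_det a 1 (by ring)⟩

lemma gen_inv (a : F) : ((gen a)⁻¹).1 = mat a (-1) := by
  rw [Matrix.SpecialLinearGroup.coe_inv]
  change (mat a 1).adjugate = mat a (-1)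
  rw [mat, Matrix.adjugate_fin_two_of, mat]
  simp

/-- the sign of a letter -/
def sg (b : Bool) : F := cond b 1 (-1)

lemma sg_sq (b : Bool) : (sg b : F) * sg b = 1 := by cases b <;> simp [sg]

/-- the value of a list of letters -/
noncomputable def val {d : ℕ} (a : Fin d → F) (L : List (Ltr d)) : Matrix (Fin 2) (Fin 2) F[X] :=
  (FreeGroup.lift (fun j => gen (a j)) (FreeGroup.mk L)).1

lemma val_nil {d : ℕ} (a : Fin d → F) : val a [] = 1 := by
  unfold val
  rw [← FreeGroup.one_eq_mk, map_one]
  rfl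

lemma val_cons {d : ℕ} (a : Fin d → F) (l : Ltr d) (L : List (Ltr d)) :
    val a (l :: L) = mat (a l.1) (sg l.2) * val a L := by
  unfold val
  rw [FreeGroup.lift_mk, FreeGroup.lift_mk, List.map_cons, List.prod_cons,
    Matrix.SpecialLinearGroup.coe_mul]
  congr 1
  rcases l with ⟨j, b⟩
  cases b
  · exact gen_inv (a j)
  · rfl

/-- the column and row vectors of the leading parts -/
def u {d : ℕ} (a : Fin d → F) (l : Ltr d) : Fin 2 → F := ![a l.1, sg l.2]

def v {d : ℕ} (a : Fin d → F) (l : Ltr d) : Fin 2 → F := ![1, sg l.2 * a l.1]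

lemma mat_deg (a s : F) (i j : Fin 2) : (mat a s i j).natDegree ≤ 1 := by
  fin_cases i <;> fin_cases j <;> simp only [mat, Matrix.of_apply, Matrix.cons_val', Fin.zero_eta,
    Fin.mk_one, Matrix.cons_val_zero, Matrix.cons_val_one, Matrix.cons_val_fin_one] <;>
    compute_degree

lemma mat_coeff {d : ℕ} (a : Fin d → F) (l : Ltr d) (i j : Fin 2) :
    (mat (a l.1) (sg l.2) i j).coeff 1 = u a l i * v a l j := by
  have h := sg_sq (F := F) l.2
  fin_cases i <;> fin_cases j <;> simp only [mat, u, v, Matrix.of_apply, Matrix.cons_val',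
    Fin.zero_eta, Fin.mk_one, Matrix.cons_val_zero, Matrix.cons_val_one,
    Matrix.cons_val_fin_one, coeff_add, coeff_C_mul, coeff_one, coeff_X_one, coeff_C] <;>
    norm_num
  · ring
  · linear_combination (-(a l.1)) * h

lemma val_deg {d : ℕ} (a : Fin d → F) (L : List (Ltr d)) (i j : Fin 2) :
    (val a L i j).natDegree ≤ L.length := by
  induction L generalizing i j with
  | nil =>
    rw [val_nil, Matrix.one_apply]
    split_ifs
    · exact natDegree_one.le
    · exact natDegree_zero.le
  | cons l L ih =>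
    rw [val_cons, Matrix.mul_apply, List.length_cons]
    refine natDegree_sum_le_of_forall_le _ _ fun k _ => ?_
    refine natDegree_mul_le.trans ?_
    have h1 := mat_deg (a l.1) (sg l.2) i k
    have h2 := ih k j
    omega

/-- the pairing of consecutive letters -/
def pair {d : ℕ} (a : Fin d → F) (l l' : Ltr d) : F := a l'.1 + sg l.2 * a l.1 * sg l'.2

lemma val_lead {d : ℕ} (a : Fin d → F)
    (ha : ∀ l l' : Ltr d, (l.1 = l'.1 → l.2 = l'.2) → pair a l l' ≠ 0)
    (l : Ltr d) (L : List (Ltr d)) (h : FreeGroup.IsReduced (l :: L)) :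
    ∃ c : F, c ≠ 0 ∧ ∀ i j : Fin 2, (val a (l :: L) i j).coeff (l :: L).length =
      c * u a l i * v a ((l :: L).getLast (by simp)) j := by
  induction L generalizing l with
  | nil =>
    refine ⟨1, one_ne_zero, fun i j => ?_⟩
    rw [val_cons, val_nil, mul_one, List.length_singleton, List.getLast_singleton, mat_coeff]
    ring
  | cons l' L ih =>
    rw [FreeGroup.isReduced_cons_cons] at h
    obtain ⟨c, hc, hcc⟩ := ih l' h.2
    refine ⟨c * pair a l l', mul_ne_zero hc (ha l l' h.1), fun i j => ?_⟩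
    rw [val_cons, Matrix.mul_apply, List.length_cons, finsetSum_coeff, List.getLast_cons (by simp)]
    have h1 : ∀ k : Fin 2, (mat (a l.1) (sg l.2) i k * val a (l' :: L) k j).coeff
        ((l' :: L).length + 1) = (u a l i * v a l k) *
          (c * u a l' k * v a ((l' :: L).getLast (by simp)) j) := fun k => by
      rw [add_comm, coeff_mul_add_eq_of_natDegree_le (mat_deg _ _ i k)
        (val_deg a _ k j), mat_coeff, hcc]
    simp only [h1]
    rw [Fin.sum_univ_two]
    simp only [u, v, pair, Matrix.cons_val_zero, Matrix.cons_val_one, Matrix.cons_val_fin_one]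
    ring

lemma trace_ne {d : ℕ} (a : Fin d → F)
    (ha : ∀ l l' : Ltr d, (l.1 = l'.1 → l.2 = l'.2) → pair a l l' ≠ 0)
    (L : List (Ltr d)) (hL : L ≠ []) (h : FreeGroup.IsCyclicallyReduced L) :
    (val a L 0 0 + val a L 1 1).coeff L.length ≠ 0 := by
  obtain ⟨l, L', rfl⟩ := List.exists_cons_of_ne_nil hL
  obtain ⟨c, hc, hcc⟩ := val_lead a ha l L' h.1
  rw [coeff_add, hcc, hcc]
  have h1 : pair a ((l :: L').getLast (by simp)) l ≠ 0 := by
    refine ha _ _ ?_
    refine h.2 _ ?_ _ ?_
    · rw [Option.mem_def, List.getLast?_eq_getLast_of_ne_nil (by simp)]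
    · simp
  have h2 := mul_ne_zero hc h1
  intro h3
  refine h2 ?_
  rw [← h3]
  simp only [u, v, pair, Matrix.cons_val_zero, Matrix.cons_val_one, Matrix.cons_val_fin_one]
  ring

lemma trace_conj {d : ℕ} (a : Fin d → F) (g h : FreeGroup (Fin d)) :
    (FreeGroup.lift (fun j => gen (a j)) (h * g * h⁻¹)).1.trace =
      (FreeGroup.lift (fun j => gen (a j)) g).1.trace := by
  rw [map_mul, map_mul, Matrix.SpecialLinearGroup.coe_mul, Matrix.trace_mul_comm,
    ← Matrix.SpecialLinearGroup.coe_mul, ← mul_assoc, ← map_mul, inv_mul_cancel, map_one,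
    one_mul]

end NC2_

open NC2_ in
/-- NC2. -/
theorem prove_NC2 : T_NC2 := by
  intro p hp d n w hd hw
  set a : Fin d → ZMod p := fun j => ((j.1 + 1 : ℕ) : ZMod p) with ha
  have key : ∀ l l' : Ltr d, (l.1 = l'.1 → l.2 = l'.2) → pair a l l' ≠ 0 := by
    intro l l' h h0
    have hj := l.1.2
    have hk := l'.1.2
    have h1 : pair a l l' = ((l'.1.1 + 1 : ℕ) : ZMod p) +
        sg l.2 * ((l.1.1 + 1 : ℕ) : ZMod p) * sg l'.2 := rfl
    rw [h1] at h0
    by_cases hs : l.2 = l'.2
    · have h2 : ((l'.1.1 + 1 + (l.1.1 + 1) : ℕ) : ZMod p) = 0 := by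
        rw [Nat.cast_add, ← h0, hs]
        have := sg_sq (F := ZMod p) l'.2
        linear_combination (-((l.1.1 + 1 : ℕ) : ZMod p)) * this
      rw [ZMod.natCast_eq_zero_iff] at h2
      have := Nat.le_of_dvd (by omega) h2
      omega
    · have h3 : (sg l.2 : ZMod p) * sg l'.2 = -1 := by
        rcases l with ⟨j, b⟩
        rcases l' with ⟨k, b'⟩
        cases b <;> cases b' <;> simp_all [sg]
      have h2 : ((l'.1.1 + 1 : ℕ) : ZMod p) = ((l.1.1 + 1 : ℕ) : ZMod p) := by
        linear_combination h0 - ((l.1.1 + 1 : ℕ) : ZMod p) * h3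
      have h4 := congrArg ZMod.val h2
      rw [ZMod.val_natCast_of_lt (by omega), ZMod.val_natCast_of_lt (by omega)] at h4
      exact hs (h (Fin.ext (by omega)))
  refine ⟨fun j => gen (a j), ?_⟩
  set g : FreeGroup (Fin d) := FreeGroup.mk (List.ofFn w) with hg
  set L := FreeGroup.reduceCyclically g.toWord with hL
  have hcr : FreeGroup.IsCyclicallyReduced L :=
    FreeGroup.reduceCyclically.isCyclicallyReduced FreeGroup.isReduced_toWord
  have hconj : g = FreeGroup.mk (FreeGroup.reduceCyclically.conjugator g.toWord) *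
      FreeGroup.mk L * (FreeGroup.mk (FreeGroup.reduceCyclically.conjugator g.toWord))⁻¹ := by
    rw [FreeGroup.inv_mk, FreeGroup.mul_mk, FreeGroup.mul_mk,
      FreeGroup.reduceCyclically.conj_conjugator_reduceCyclically, FreeGroup.mk_toWord]
  have hne : L ≠ [] := by
    intro h0
    refine hw ?_
    rw [hconj, h0, ← FreeGroup.one_eq_mk]
    group
  have ht : (ev (fun j => gen (a j)) w).1 0 0 + (ev (fun j => gen (a j)) w).1 1 1 =
      val a L 0 0 + val a L 1 1 := by
    have h1 := trace_conj a (FreeGroup.mk L)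
      (FreeGroup.mk (FreeGroup.reduceCyclically.conjugator g.toWord))
    rw [← hconj, Matrix.trace_fin_two, Matrix.trace_fin_two] at h1
    exact h1
  rw [ht]
  have h1 := le_natDegree_of_ne_zero (trace_ne a key L hne hcr)
  have h2 : 1 ≤ L.length := List.length_pos_of_ne_nil hne
  omega


end Pool.Agent.RCG
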