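import Pool.Agent.RCG.Targets

set_option autoImplicit false

/-!
# RCG, target ONE: combination of the spectral cut and the Ahlswede-Winter bound
-/

namespace Pool.Agent.RCG

open Finset Matrix

namespace ONE_

theorem quad_sum {ι : Type} [Fintype ι] {s : ℕ} (N : Fin s → Matrix ι ι ℝ) (v : ι → ℝ) :
    v ⬝ᵥ (∑ g, N g) *ᵥ v = ∑ g, v ⬝ᵥ (N g) *ᵥ v := by
  rw [Matrix.sum_mulVec, dotProduct_sum]

end ONE_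

theorem prove_ONE (h1 : T_SPC) (h2 : T_AW) : T_ONE := by
  intro ι Y _ _ _ M θ τ B u n s hM hθ hτ hB hu hn hs havg
  choose P hPh hPP hP1 hP2 using fun y => h1 ι (M y) θ n (hM y) hθ hn
  have hθn : 0 < (θ ^ n)⁻¹ := inv_pos.2 (pow_pos hθ n)
  have hτ' : 0 < (θ ^ n)⁻¹ * τ := mul_pos hθn hτ
  have havg' : ∀ v : ι → ℝ, ∑ y, v ⬝ᵥ (P y) *ᵥ v ≤
      Fintype.card Y * ((θ ^ n)⁻¹ * τ) * (v ⬝ᵥ v) := by
    intro v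
    calc ∑ y, v ⬝ᵥ (P y) *ᵥ v ≤ ∑ y, (θ ^ n)⁻¹ * (v ⬝ᵥ (M y ^ n) *ᵥ v) :=
          Finset.sum_le_sum fun y _ => hP1 y v
      _ = (θ ^ n)⁻¹ * ∑ y, v ⬝ᵥ (M y ^ n) *ᵥ v := by rw [Finset.mul_sum]
      _ ≤ (θ ^ n)⁻¹ * (Fintype.card Y * τ * (v ⬝ᵥ v)) :=
          mul_le_mul_of_nonneg_left (havg v) hθn.le
      _ = Fintype.card Y * ((θ ^ n)⁻¹ * τ) * (v ⬝ᵥ v) := by ring
  have hAW := h2 ι Y P ((θ ^ n)⁻¹ * τ) hτ' hPh hPP havg' s u hs hu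
  refine le_trans ?_ hAW
  have hsub : ∀ z : Fin s → Y, ((∀ g, ∀ v, |v ⬝ᵥ M (z g) *ᵥ v| ≤ B * (v ⬝ᵥ v)) ∧
      ¬ ∀ v, |v ⬝ᵥ (∑ g, M (z g)) *ᵥ v| ≤ (s * θ + u * B) * (v ⬝ᵥ v)) →
      ¬ ∀ v : ι → ℝ, v ⬝ᵥ (∑ g, P (z g)) *ᵥ v ≤ u * (v ⬝ᵥ v) := by
    intro z hz hc
    refine hz.2 fun v => ?_
    rw [ONE_.quad_sum]
    calc |∑ g, v ⬝ᵥ M (z g) *ᵥ v| ≤ ∑ g, |v ⬝ᵥ M (z g) *ᵥ v| :=
          Finset.abs_sum_le_sum_abs _ _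
      _ ≤ ∑ g, (θ * (v ⬝ᵥ v) + B * (v ⬝ᵥ P (z g) *ᵥ v)) :=
          Finset.sum_le_sum fun g _ => hP2 (z g) B (hz.1 g) v
      _ = s * (θ * (v ⬝ᵥ v)) + B * (v ⬝ᵥ (∑ g, P (z g)) *ᵥ v) := by
          rw [Finset.sum_add_distrib, ONE_.quad_sum, Finset.mul_sum, Finset.sum_const,
            Finset.card_univ, Fintype.card_fin, nsmul_eq_mul]
      _ ≤ s * (θ * (v ⬝ᵥ v)) + B * (u * (v ⬝ᵥ v)) := by
          have := mul_le_mul_of_nonneg_left (hc v) hB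
          linarith
      _ = (s * θ + u * B) * (v ⬝ᵥ v) := by ring
  have hcard : Nat.card {z : Fin s → Y // (∀ g, ∀ v, |v ⬝ᵥ M (z g) *ᵥ v| ≤ B * (v ⬝ᵥ v)) ∧
      ¬ ∀ v, |v ⬝ᵥ (∑ g, M (z g)) *ᵥ v| ≤ (s * θ + u * B) * (v ⬝ᵥ v)} ≤
      Nat.card {z : Fin s → Y // ¬ ∀ v : ι → ℝ,
        v ⬝ᵥ (∑ g, P (z g)) *ᵥ v ≤ u * (v ⬝ᵥ v)} := by
    refine Nat.card_le_card_of_injective (fun z => ⟨z.1, hsub z.1 z.2⟩) ?_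
    intro a b hab
    have hab' : a.1 = b.1 := by
      have := congrArg Subtype.val hab
      exact this
    exact Subtype.ext hab'
  exact_mod_cast hcard

end Pool.Agent.RCG
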