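import Pool.Agent.RCG.Targets4

set_option autoImplicit false

/-!
# OPT: algebra of the exponents
-/

namespace Pool.Agent.RCG

namespace OPT_

/-- the perfect square -/
theorem sq_key (L u r : ℝ) (hL : 0 < L) (hr : r ^ 2 = 2) :
    8 * r * u - 2 / (3 * L) ≤ 48 * L * u ^ 2 := by
  have e : 48 * L * u ^ 2 - (8 * r * u - 2 / (3 * L)) =
      48 / L * (L * u - r / 12) ^ 2 + (2 - r ^ 2) / (3 * L) := by
    field_simp
    ring
  rw [hr, sub_self, zero_div, add_zero] at e
  have h : 0 ≤ 48 / L * (L * u - r / 12) ^ 2 := by positivity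
  linarith

end OPT_

open OPT_ in
theorem prove_OPT : T_OPT := by
  intro k l l1 hk hl hl1
  obtain ⟨s, hs⟩ : ∃ s, s = √k := ⟨_, rfl⟩
  obtain ⟨r, hr⟩ : ∃ r, r = √(2 : ℝ) := ⟨_, rfl⟩
  obtain ⟨L, hL⟩ : ∃ L, L = Real.log k := ⟨_, rfl⟩
  have hk0 : 0 < k := by linarith
  have hs0 : 0 < s := by rw [hs]; exact Real.sqrt_pos.mpr hk0
  have hr0 : 0 < r := by rw [hr]; exact Real.sqrt_pos.mpr (by norm_num)
  have hs2 : s ^ 2 = k := by rw [hs]; exact Real.sq_sqrt hk0.le
  have hr2 : r ^ 2 = 2 := by rw [hr]; exact Real.sq_sqrt (by norm_num)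
  have hL0 : 0 < L := by rw [hL]; exact Real.log_pos (by linarith)
  have hle : Real.log (k / 2) ≤ L := by
    rw [hL]
    exact Real.log_le_log (by linarith) (by linarith)
  rw [← hs, ← hr, ← hL] at hl1
  rw [← hs, ← hr, ← hL]
  have hl1' : 12 * s * L * l1 = r := by
    rw [hl1]
    field_simp
  have hl10 : 0 < l1 := by rw [hl1]; positivity
  rw [← hs2]
  have key := sq_key L (s * l) r hL0 hr2
  have e1 : 8 * r * (s * l) = l * (8 * r * s) := by ring
  have e2 : 48 * L * (s * l) ^ 2 = 48 * s ^ 2 * L * l ^ 2 := by ring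
  rw [e1, e2] at key
  have hlog : Real.log (s ^ 2 / 2) ≤ L := by rw [hs2]; exact hle
  refine ⟨fun h => max_le ?_ ?_, ?_, ?_⟩
  · have h1 : r ≤ 12 * s * L * l := by
      rw [← hl1']
      exact mul_le_mul_of_nonneg_left h (by positivity)
    have h2 := mul_le_mul_of_nonneg_left h1 (show 0 ≤ 4 * s * l by positivity)
    calc 4 * r * s * l = 4 * s * l * r := by ring
      _ ≤ 4 * s * l * (12 * s * L * l) := h2
      _ = 48 * s ^ 2 * L * l ^ 2 := by ring
  · have h2 := mul_le_mul_of_nonneg_left hlog (show 0 ≤ 48 * s ^ 2 * l ^ 2 by positivity)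
    calc 48 * s ^ 2 * Real.log (s ^ 2 / 2) * l ^ 2 =
          48 * s ^ 2 * l ^ 2 * Real.log (s ^ 2 / 2) := by ring
      _ ≤ 48 * s ^ 2 * l ^ 2 * L := h2
      _ = 48 * s ^ 2 * L * l ^ 2 := by ring
  · have h1 : 2 / (3 * L) ≤ Real.log 2 / L := by
      rw [div_le_div_iff₀ (by positivity) hL0]
      have := Real.log_two_gt_d9
      nlinarith
    linarith
  · have h1 : max (4 * r * s * l1) (48 * s ^ 2 * Real.log (s ^ 2 / 2) * l1 ^ 2) ≤ 2 / (3 * L) := by
      have e3 : s * l1 = r / (12 * L) := by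
        rw [← hl1']
        field_simp
      refine max_le ?_ ?_
      · have e4 : 4 * r * s * l1 = 4 * r * (s * l1) := by ring
        rw [e4, e3]
        have e5 : 4 * r * (r / (12 * L)) = r ^ 2 / (3 * L) := by
          field_simp
          ring
        rw [e5, hr2]
      · have h2 := mul_le_mul_of_nonneg_left hlog (show 0 ≤ 48 * (s * l1) ^ 2 by positivity)
        calc 48 * s ^ 2 * Real.log (s ^ 2 / 2) * l1 ^ 2 =
              48 * (s * l1) ^ 2 * Real.log (s ^ 2 / 2) := by ring
          _ ≤ 48 * (s * l1) ^ 2 * L := h2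
          _ = r ^ 2 / (3 * L) := by
              rw [e3]
              field_simp
              ring
          _ = 2 / (3 * L) := by rw [hr2]
    have e6 : l1 * (8 * r * s) = 4 / (3 * L) := by
      have e3 : s * l1 = r / (12 * L) := by
        rw [← hl1']
        field_simp
      have e4 : l1 * (8 * r * s) = 8 * r * (s * l1) := by ring
      rw [e4, e3]
      have e5 : 8 * r * (r / (12 * L)) = 2 * r ^ 2 / (3 * L) := by
        field_simp
        ring
      rw [e5, hr2]
      norm_num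
    have e7 : (4 : ℝ) / (3 * L) = 2 / (3 * L) + 2 / (3 * L) := by
      field_simp
      ring
    rw [sub_mul, e6, e7]
    linarith

end Pool.Agent.RCG
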