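import Pool.Agent.RCG.Targets4

/-! # RCG: induction over powers of two -/

set_option autoImplicit false

namespace Pool.Agent.RCG

open Finset Matrix

namespace PW2_

/-- the trivial bound, small degree -/
theorem base (h2 : T_TRV) (I : Type) (G : I → Type) [∀ i, Group (G i)] [∀ i, Fintype (G i)]
    (q : I → ℝ) (d : ℕ) (hd : (2 : ℝ) * d ≤ 4 * √(2 * (d : ℝ))) : ExpB G q d (FF d) := by
  intro l ε hl hε
  refine ⟨1, fun i hi σ hσ => ?_⟩
  have hq0 : 0 < q i := lt_of_lt_of_le one_pos hi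
  have hL : 0 ≤ Real.log (q i) := Real.log_nonneg hi
  have ht : 0 ≤ l * Real.log (q i) := mul_nonneg hl hL
  obtain ⟨h3, h4⟩ := h2 (G i) d σ (l * Real.log (q i)) hσ ht
  refine h4 _ _ _ ?_ h3
  have e1 : Real.exp (2 * d * (l * Real.log (q i))) = q i ^ (2 * (d : ℝ) * l) := by
    rw [Real.rpow_def_of_pos hq0]
    congr 1
    ring
  rw [e1]
  refine Real.rpow_le_rpow_of_exponent_le hi ?_
  have h5 : 2 * (d : ℝ) * l ≤ 4 * √(2 * (d : ℝ)) * l := mul_le_mul_of_nonneg_right hd hl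
  have h6 : 4 * √(2 * (d : ℝ)) * l ≤ FF d l := le_max_left _ _
  linarith

end PW2_

theorem prove_PW2 (h1 : T_DBL) (h2 : T_TRV) : T_PW2 := by
  intro I G _ _ q hA j
  induction j with
  | zero =>
    refine PW2_.base h2 I G q _ ?_
    have h : (1 : ℝ) ≤ √(2 * 1) := by
      rw [Real.one_le_sqrt]
      norm_num
    have e : (((2 ^ 0 : ℕ) : ℝ)) = 1 := by norm_num
    rw [e]
    linarith
  | succ j ih =>
    rcases Nat.eq_zero_or_pos j with rfl | hj
    · refine PW2_.base h2 I G q _ ?_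
      have e : (((2 ^ (0 + 1) : ℕ) : ℝ)) = 2 := by norm_num
      rw [e]
      have h : √(2 * 2 : ℝ) = 2 := by
        rw [show (2 * 2 : ℝ) = 2 ^ 2 by norm_num]
        exact Real.sqrt_sq (by norm_num)
      rw [h]
      norm_num
    · have hd : 2 ≤ 2 ^ j := by
        calc 2 = 2 ^ 1 := (pow_one 2).symm
          _ ≤ 2 ^ j := Nat.pow_le_pow_right (by norm_num) hj
      have e : 2 ^ (j + 1) = 2 * 2 ^ j := by ring
      rw [e]
      exact h1 I G q (2 ^ j) hd (hA _ (by omega)) ih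

end Pool.Agent.RCG
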