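import Pool.Agent.RCG.Targets8
import Pool.Agent.RCG.PRO

set_option autoImplicit false

/-!
# RCG: the second moment for a conjugacy class (RCG)
-/

namespace Pool.Agent.RCG

open Finset Matrix

namespace RCG_

set_option linter.unusedSectionVars false

section gen

variable {ι : Type} [Fintype ι]

theorem tT {A : Matrix ι ι ℝ} (hA : A.IsHermitian) : Aᵀ = A := by
  have h := hA.eq
  rwa [Matrix.conjTranspose_eq_transpose_of_trivial] at h

theorem ofT {A : Matrix ι ι ℝ} (hA : Aᵀ = A) : A.IsHermitian := by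
  unfold Matrix.IsHermitian
  rwa [Matrix.conjTranspose_eq_transpose_of_trivial]

theorem tr_TT (A : Matrix ι ι ℝ) : (Aᵀ * A).trace = ∑ i, ∑ j, A i j ^ 2 := by
  simp only [Matrix.trace, Matrix.diag, Matrix.mul_apply, Matrix.transpose_apply]
  rw [Finset.sum_comm]
  refine Finset.sum_congr rfl fun i _ => Finset.sum_congr rfl fun j _ => ?_
  ring

theorem tr_TT_nonneg (A : Matrix ι ι ℝ) : 0 ≤ (Aᵀ * A).trace := by
  rw [tr_TT]
  exact Finset.sum_nonneg fun i _ => Finset.sum_nonneg fun j _ => sq_nonneg _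

theorem tr_pos {A : Matrix ι ι ℝ} (hT : Aᵀ = A) (hI : A * A = A) (h0 : A ≠ 0) :
    0 < A.trace := by
  have h1 : A.trace = ∑ i, ∑ j, A i j ^ 2 := by
    rw [← tr_TT, hT, hI]
  have hnn : ∀ i, 0 ≤ ∑ j, A i j ^ 2 := fun i => Finset.sum_nonneg fun j _ => sq_nonneg _
  rw [h1]
  refine lt_of_le_of_ne (Finset.sum_nonneg fun i _ => hnn i) fun hz => h0 ?_
  ext i j
  have h2 := (Finset.sum_eq_zero_iff_of_nonneg (fun i _ => hnn i)).1 hz.symm i (mem_univ i)
  have h3 := (Finset.sum_eq_zero_iff_of_nonneg (fun j _ => sq_nonneg _)).1 h2 j (mem_univ j)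
  simpa using h3

theorem tr_AB_nonneg {A B : Matrix ι ι ℝ} (hA : Aᵀ = A) (hAA : A * A = A) (hB : Bᵀ = B)
    (hBB : B * B = B) : 0 ≤ (A * B).trace := by
  have h : (A * B).trace = ((B * A)ᵀ * (B * A)).trace := by
    rw [Matrix.transpose_mul, hA, hB]
    calc (A * B).trace = (A * A * (B * B)).trace := by rw [hAA, hBB]
      _ = (A * (A * (B * B))).trace := by rw [Matrix.mul_assoc]
      _ = ((A * (B * B)) * A).trace := by rw [Matrix.trace_mul_comm]
      _ = _ := by simp only [Matrix.mul_assoc]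
  rw [h]
  exact tr_TT_nonneg _

theorem tr_AB_le [DecidableEq ι] {A B : Matrix ι ι ℝ} (hA : Aᵀ = A) (hAA : A * A = A)
    (hB : Bᵀ = B) (hBB : B * B = B) : (A * B).trace ≤ A.trace := by
  have h := tr_AB_nonneg hA hAA (B := 1 - B)
    (by rw [Matrix.transpose_sub, hB, Matrix.transpose_one])
    (by rw [Matrix.sub_mul, Matrix.mul_sub, Matrix.mul_sub, hBB]; simp)
  rw [Matrix.mul_sub, Matrix.mul_one, Matrix.trace_sub] at h
  linarith

theorem tr_le_card [DecidableEq ι] {A : Matrix ι ι ℝ} (hA : Aᵀ = A) (hAA : A * A = A) :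
    A.trace ≤ Fintype.card ι := by
  have h := tr_AB_le (A := (1 : Matrix ι ι ℝ)) (by simp) (by simp) hA hAA
  rwa [Matrix.one_mul, Matrix.trace_one] at h

theorem tr_CS {A B : Matrix ι ι ℝ} (hA : Aᵀ = A) (hB : Bᵀ = B) :
    (A * B).trace ^ 2 ≤ (A * A).trace * (B * B).trace := by
  have e : ∀ X Y : Matrix ι ι ℝ, Yᵀ = Y →
      (X * Y).trace = ∑ p : ι × ι, X p.1 p.2 * Y p.1 p.2 := by
    intro X Y hY
    rw [Fintype.sum_prod_type]
    simp only [Matrix.trace, Matrix.diag, Matrix.mul_apply]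
    refine Finset.sum_congr rfl fun i _ => Finset.sum_congr rfl fun j _ => ?_
    have h1 : Y j i = Y i j := congrFun (congrFun hY i) j
    rw [h1]
  rw [e A B hB, e A A hA, e B B hB]
  have h := Finset.sum_mul_sq_le_sq_mul_sq univ (fun p : ι × ι => A p.1 p.2)
    (fun p : ι × ι => B p.1 p.2)
  simpa only [sq] using h

theorem col_quad (Z X : Matrix ι ι ℝ) (j : ι) :
    (Zᵀ j) ⬝ᵥ X *ᵥ (Zᵀ j) = (Zᵀ * X * Z) j j := by
  rw [Matrix.mul_assoc, Matrix.mul_apply]
  rfl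

theorem sum_col_quad (Z X : Matrix ι ι ℝ) :
    ∑ j, (Zᵀ j) ⬝ᵥ X *ᵥ (Zᵀ j) = (Zᵀ * X * Z).trace := by
  simp only [col_quad]
  rfl

theorem sum_col_sq (Z : Matrix ι ι ℝ) : ∑ j, (Zᵀ j) ⬝ᵥ (Zᵀ j) = (Zᵀ * Z).trace := by
  rfl

theorem col_sum_zero {Z : Matrix ι ι ℝ} (hZ : Zᵀ = Z) (h1 : Z *ᵥ (fun _ => (1 : ℝ)) = 0)
    (j : ι) : ∑ x, (Zᵀ j) x = 0 := by
  rw [hZ]
  have h := congrFun h1 j
  simpa [Matrix.mulVec, dotProduct] using h

end gen

section grp

variable {G : Type} [Group G] [Fintype G]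

theorem RR (h k : G) : (Rm h : Matrix G G ℝ) * Rm k = Rm (h * k) := by
  classical
  ext x z
  rw [Matrix.mul_apply, Finset.sum_eq_single (x * h)]
  · simp [Rm, mul_assoc]
  · intro y _ hy
    simp [Rm, hy]
  · intro h1
    exact absurd (mem_univ _) h1

theorem R1 [DecidableEq G] : (Rm (1 : G) : Matrix G G ℝ) = 1 := by
  ext x z
  simp [Rm, Matrix.one_apply, eq_comm]

theorem RiR [DecidableEq G] (h : G) : (Rm h⁻¹ : Matrix G G ℝ) * Rm h = 1 := by
  rw [RR, inv_mul_cancel, R1]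

theorem RRi [DecidableEq G] (h : G) : (Rm h : Matrix G G ℝ) * Rm h⁻¹ = 1 := by
  rw [RR, mul_inv_cancel, R1]

theorem R_one (h : G) : (Rm h : Matrix G G ℝ) *ᵥ (fun _ => (1 : ℝ)) = fun _ => 1 := by
  rw [PRO_.Rm_mulVec]

/-- conjugation by a right translation -/
noncomputable def cj (h : G) (X : Matrix G G ℝ) : Matrix G G ℝ := Rm h⁻¹ * X * Rm h

theorem cj_cj (h k : G) (X : Matrix G G ℝ) : cj h (cj k X) = cj (k * h) X := by
  unfold cj
  rw [_root_.mul_inv_rev, ← RR, ← RR]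
  simp only [Matrix.mul_assoc]

theorem cj_T (h : G) (X : Matrix G G ℝ) : (cj h X)ᵀ = cj h Xᵀ := by
  unfold cj
  rw [Matrix.transpose_mul, Matrix.transpose_mul, PRO_.Rm_T, PRO_.Rm_T, inv_inv,
    Matrix.mul_assoc]

theorem cj_mul (h : G) (X Y : Matrix G G ℝ) : cj h X * cj h Y = cj h (X * Y) := by
  classical
  unfold cj
  calc Rm h⁻¹ * X * Rm h * (Rm h⁻¹ * Y * Rm h)
      = Rm h⁻¹ * X * (Rm h * Rm h⁻¹) * Y * Rm h := by simp only [Matrix.mul_assoc]
    _ = _ := by rw [RRi, Matrix.mul_one]; simp only [Matrix.mul_assoc]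

theorem cj_one_ (X : Matrix G G ℝ) : cj 1 X = X := by
  classical
  unfold cj
  rw [inv_one, R1, Matrix.one_mul, Matrix.mul_one]

theorem tr_cj (h : G) (X : Matrix G G ℝ) : (cj h X).trace = X.trace := by
  classical
  unfold cj
  rw [Matrix.trace_mul_comm, ← Matrix.mul_assoc, RRi, Matrix.one_mul]

theorem cj_fix {X : Matrix G G ℝ} (hX : ∀ k, X * Rm k = Rm k * X) (h : G) : cj h X = X := by
  classical
  unfold cj
  rw [Matrix.mul_assoc, hX h, ← Matrix.mul_assoc, RiR, Matrix.one_mul]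

theorem fix_cj {X : Matrix G G ℝ} (h : G) (hX : cj h X = X) : X * Rm h = Rm h * X := by
  classical
  have h1 : Rm h * cj h X = X * Rm h := by
    unfold cj
    rw [← Matrix.mul_assoc, ← Matrix.mul_assoc, RRi, Matrix.one_mul]
  rw [← h1, hX]

theorem tr_cj_mul (h : G) (X Y : Matrix G G ℝ) :
    (cj h X * Y).trace = (X * cj h⁻¹ Y).trace := by
  rw [← tr_cj h (X * cj h⁻¹ Y), ← cj_mul, cj_cj, inv_mul_cancel, cj_one_]

theorem cj_L (h a : G) {X : Matrix G G ℝ} (hLR : ∀ g k : G, Lm g * Rm k = Rm k * Lm g)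
    (hX : Lm a * X = X * Lm a) : Lm a * cj h X = cj h X * Lm a := by
  unfold cj
  calc Lm a * (Rm h⁻¹ * X * Rm h) = (Lm a * Rm h⁻¹) * X * Rm h := by
        simp only [Matrix.mul_assoc]
    _ = Rm h⁻¹ * (Lm a * X) * Rm h := by rw [hLR]; simp only [Matrix.mul_assoc]
    _ = Rm h⁻¹ * X * (Lm a * Rm h) := by rw [hX]; simp only [Matrix.mul_assoc]
    _ = _ := by rw [hLR]; simp only [Matrix.mul_assoc]

theorem cj_one_vec (h : G) {X : Matrix G G ℝ} (hX : X *ᵥ (fun _ => (1 : ℝ)) = 0) :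
    cj h X *ᵥ (fun _ => (1 : ℝ)) = 0 := by
  unfold cj
  rw [← Matrix.mulVec_mulVec, R_one, ← Matrix.mulVec_mulVec, hX, Matrix.mulVec_zero]

theorem cj_smul (h : G) (a : ℝ) (X : Matrix G G ℝ) : cj h (a • X) = a • cj h X := by
  unfold cj
  rw [Matrix.mul_smul, Matrix.smul_mul]

theorem cj_sum (h : G) (F : G → Matrix G G ℝ) : cj h (∑ y, F y) = ∑ y, cj h (F y) := by
  unfold cj
  rw [Finset.mul_sum, Finset.sum_mul]

theorem cj_avg (k : G) (X : Matrix G G ℝ) : cj k (∑ y, cj y X) = ∑ y, cj y X := by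
  rw [cj_sum]
  refine Fintype.sum_equiv (Equiv.mulRight k) _ _ fun y => ?_
  rw [cj_cj, Equiv.coe_mulRight]

open Classical in
/-- counting the values of a map -/
theorem fib (F : G × G → G) (φ : G → ℝ) :
    ∑ hh : G × G, φ (F hh) = ∑ x, (Nat.card {hh : G × G // F hh = x} : ℝ) * φ x := by
  rw [← Finset.sum_fiberwise univ F (fun hh => φ (F hh))]
  refine Finset.sum_congr rfl fun x _ => ?_
  have h1 : ∑ hh ∈ univ.filter (fun hh => F hh = x), φ (F hh) =
      ∑ hh ∈ univ.filter (fun hh => F hh = x), φ x :=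
    Finset.sum_congr rfl fun hh hhx => by rw [(Finset.mem_filter.1 hhx).2]
  rw [h1, Finset.sum_const, nsmul_eq_mul, Nat.card_eq_fintype_card, Fintype.card_subtype]

/-! the averaging projection -/

theorem mul_J {X : Matrix G G ℝ} (hX : X *ᵥ (fun _ => (1 : ℝ)) = 0) :
    X * PRO_.Jm G = 0 := by
  ext i j
  have h := congrFun hX i
  rw [Matrix.mul_apply]
  simp only [PRO_.Jm, Matrix.of_apply, Matrix.zero_apply]
  rw [← Finset.sum_mul]
  have h1 : ∑ k, X i k = 0 := by simpa [Matrix.mulVec, dotProduct] using h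
  rw [h1, zero_mul]

theorem J_T : (PRO_.Jm G)ᵀ = PRO_.Jm G := tT PRO_.Jm_herm

theorem J_mul {X : Matrix G G ℝ} (hT : Xᵀ = X) (hX : X *ᵥ (fun _ => (1 : ℝ)) = 0) :
    PRO_.Jm G * X = 0 := by
  have h := congrArg Matrix.transpose (mul_J hX)
  rwa [Matrix.transpose_mul, J_T, hT, Matrix.transpose_zero] at h

theorem J_one : PRO_.Jm G *ᵥ (fun _ => (1 : ℝ)) = fun _ => 1 := by
  rw [PRO_.Jm_mulVec]
  funext x
  have hc : (Fintype.card G : ℝ) ≠ 0 := by
    exact_mod_cast Fintype.card_ne_zero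
  simp [hc]

theorem mul_J_eq {X : Matrix G G ℝ} (hX : X *ᵥ (fun _ => (1 : ℝ)) = fun _ => 1) :
    X * PRO_.Jm G = PRO_.Jm G := by
  ext i j
  have h := congrFun hX i
  rw [Matrix.mul_apply]
  simp only [PRO_.Jm, Matrix.of_apply]
  rw [← Finset.sum_mul]
  have h1 : ∑ k, X i k = 1 := by simpa [Matrix.mulVec, dotProduct] using h
  rw [h1, one_mul]

theorem R_J (h : G) : Rm h * PRO_.Jm G = PRO_.Jm G := mul_J_eq (R_one h)

theorem J_R (h : G) : PRO_.Jm G * Rm h = PRO_.Jm G := by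
  have h1 := congrArg Matrix.transpose (R_J (h⁻¹))
  rwa [Matrix.transpose_mul, J_T, PRO_.Rm_T, inv_inv] at h1

theorem Lm_T (a : G) : (Lm a)ᵀ = Lm a⁻¹ := by
  ext x z
  simp only [Lm, Matrix.transpose_apply, Matrix.of_apply]
  congr 1
  rw [eq_iff_iff]
  constructor
  · rintro rfl
    group
  · rintro rfl
    group

theorem L_one (a : G) : (Lm a : Matrix G G ℝ) *ᵥ (fun _ => (1 : ℝ)) = fun _ => 1 := by
  classical
  funext x
  simp [Lm, Matrix.mulVec, dotProduct]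

theorem L_J (a : G) : Lm a * PRO_.Jm G = PRO_.Jm G := mul_J_eq (L_one a)

theorem J_L (a : G) : PRO_.Jm G * Lm a = PRO_.Jm G := by
  have h1 := congrArg Matrix.transpose (L_J (a⁻¹))
  rwa [Matrix.transpose_mul, J_T, Lm_T, inv_inv] at h1

theorem J_J : PRO_.Jm G * PRO_.Jm G = PRO_.Jm G := mul_J_eq J_one

end grp

end RCG_

open RCG_ in
open Classical in
theorem prove_RCG (h1 : T_TOP) (h2 : T_LIF) : T_RCG := by
  intro G _ _ D α β ν Q hD hmin hα hβ hQ hLI hν hNB g E hE1 hE2 u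
  obtain ⟨hQh, hQQ, hQ1⟩ := hQ
  have hQT := tT hQh
  set N : ℝ := (Fintype.card G : ℝ) with hN
  have hNpos : 0 < N := by
    rw [hN]
    exact_mod_cast Fintype.card_pos
  obtain ⟨hLIQ, hLR, -, hQc, -⟩ := h2 G Q
  have hLQ : ∀ a, Lm a * Q = Q * Lm a := hLIQ.1 hLI
  have hu0 : 0 ≤ u ⬝ᵥ u := by
    simp only [dotProduct]
    exact Finset.sum_nonneg fun i _ => mul_self_nonneg _
  set c : G → G := fun h => h * g * h⁻¹ with hc
  set T : Matrix G G ℝ := ∑ h, cj (c h) Q with hT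
  have hTT : Tᵀ = T := by
    rw [hT, Matrix.transpose_sum]
    exact Finset.sum_congr rfl fun h _ => by rw [cj_T, hQT]
  have hTL : ∀ a, Lm a * T = T * Lm a := by
    intro a
    rw [hT, Finset.mul_sum, Finset.sum_mul]
    exact Finset.sum_congr rfl fun h _ => cj_L _ a hLR (hLQ a)
  have hT1 : T *ᵥ (fun _ => (1 : ℝ)) = 0 := by
    rw [hT, Matrix.sum_mulVec]
    exact Finset.sum_eq_zero fun h _ => cj_one_vec _ hQ1
  -- the sum is the quadratic form of `T`
  have hform : ∀ v : G → ℝ, ∑ h : G, qR Q (h * g * h⁻¹) v = v ⬝ᵥ T *ᵥ v := by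
    intro v
    rw [hT, Matrix.sum_mulVec, dotProduct_sum]
    refine Finset.sum_congr rfl fun h _ => ?_
    have h3 := PRO_.Rm_dot (c h)⁻¹ Q v
    rw [inv_inv] at h3
    unfold cj
    rw [h3]
    rfl
  -- the averaging projection
  set P : Matrix G G ℝ := 1 - PRO_.Jm G with hP
  have hPT : Pᵀ = P := by
    rw [hP, Matrix.transpose_sub, Matrix.transpose_one, J_T]
  have hPP : P * P = P := by
    rw [hP, Matrix.sub_mul, Matrix.mul_sub, Matrix.mul_sub, J_J]
    simp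
  have hXP : ∀ X : Matrix G G ℝ, X *ᵥ (fun _ => (1 : ℝ)) = 0 → X * P = X := by
    intro X hX
    rw [hP, Matrix.mul_sub, mul_J hX, Matrix.mul_one, sub_zero]
  have hPX : ∀ X : Matrix G G ℝ, Xᵀ = X → X *ᵥ (fun _ => (1 : ℝ)) = 0 → P * X = X := by
    intro X hXT hX
    rw [hP, Matrix.sub_mul, J_mul hXT hX, Matrix.one_mul, sub_zero]
  have hP1 : P *ᵥ (fun _ => (1 : ℝ)) = 0 := by
    rw [hP, Matrix.sub_mulVec, J_one, Matrix.one_mulVec, sub_self]
  have hPv : ∀ v : G → ℝ, ∑ x, v x = 0 → P *ᵥ v = v := by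
    intro v hv
    rw [hP, Matrix.sub_mulVec, Matrix.one_mulVec, PRO_.Jm_mulVec, hv]
    ext i
    simp
  have hRP : ∀ k : G, Rm k * P = P * Rm k := by
    intro k
    rw [hP, Matrix.mul_sub, Matrix.sub_mul, R_J, J_R, Matrix.mul_one, Matrix.one_mul]
  have hLP : ∀ k : G, Lm k * P = P * Lm k := by
    intro k
    rw [hP, Matrix.mul_sub, Matrix.sub_mul, L_J, J_L, Matrix.mul_one, Matrix.one_mul]
  -- reduction to functions of sum zero
  set f : G → ℝ := P *ᵥ u with hf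
  have hfT : u ⬝ᵥ T *ᵥ u = f ⬝ᵥ T *ᵥ f := by
    have e1 : T *ᵥ f = T *ᵥ u := by
      rw [hf, Matrix.mulVec_mulVec, hXP T hT1]
    rw [e1]
    have e2 : f ⬝ᵥ T *ᵥ u = u ⬝ᵥ P *ᵥ (T *ᵥ u) := by
      rw [hf, ← PRO_.herm_dot (ofT hPT)]
    rw [e2, Matrix.mulVec_mulVec, hPX T hTT hT1]
  have hff : f ⬝ᵥ f ≤ u ⬝ᵥ u := by
    have e1 : f ⬝ᵥ f = u ⬝ᵥ f := by
      have e2 := PRO_.herm_dot (ofT hPT) u f
      rw [← hf] at e2
      rw [← e2, hf, Matrix.mulVec_mulVec, hPP]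
    have e3 : 0 ≤ (u - f) ⬝ᵥ (u - f) := by
      simp only [dotProduct]
      exact Finset.sum_nonneg fun i _ => mul_self_nonneg _
    rw [sub_dotProduct, dotProduct_sub, dotProduct_sub, dotProduct_comm f u, ← e1] at e3
    linarith
  have hff0 : 0 ≤ f ⬝ᵥ f := by
    simp only [dotProduct]
    exact Finset.sum_nonneg fun i _ => mul_self_nonneg _
  have hPf : P *ᵥ f = f := by
    rw [hf, Matrix.mulVec_mulVec, hPP]
  rw [hform u, hfT]
  set Rt : ℝ := √(ν * (α + β * E.card / (D * N))) with hRt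
  have hRt0 : 0 ≤ Rt := Real.sqrt_nonneg _
  by_cases hP0 : P = 0
  · have : f = 0 := by
      rw [← hPf, hP0, Matrix.zero_mulVec]
    rw [this, zero_dotProduct]
    positivity
  obtain ⟨μ, W, hWh, hWW, hW0, hWP, hTW, hWc, hWtop⟩ :=
    h1 G T P (ofT hTT) (ofT hPT) hPP hP0 (by rw [hXP T hT1, hPX T hTT hT1])
  have hWT := tT hWh
  have hfin : f ⬝ᵥ T *ᵥ f ≤ μ * (f ⬝ᵥ f) := hWtop f hPf
  suffices hμ : μ ≤ Rt * N by
    calc f ⬝ᵥ T *ᵥ f ≤ μ * (f ⬝ᵥ f) := hfin
      _ ≤ (Rt * N) * (f ⬝ᵥ f) := mul_le_mul_of_nonneg_right hμ hff0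
      _ ≤ (Rt * N) * (u ⬝ᵥ u) := mul_le_mul_of_nonneg_left hff (by positivity)
  have hLW : ∀ a, Lm a * W = W * Lm a := fun a => hWc _ (hTL a) (hLP a)
  have hW1 : W *ᵥ (fun _ => (1 : ℝ)) = 0 := by
    rw [← hWP, ← Matrix.mulVec_mulVec, hP1, Matrix.mulVec_zero]
  -- the average of the conjugates of `W`
  set C : Matrix G G ℝ := N⁻¹ • ∑ y, cj y W with hC
  have hCT : Cᵀ = C := by
    rw [hC, Matrix.transpose_smul, Matrix.transpose_sum]
    congr 1
    exact Finset.sum_congr rfl fun h _ => by rw [cj_T, hWT]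
  have hCL : ∀ a, Lm a * C = C * Lm a := by
    intro a
    rw [hC, Matrix.mul_smul, Matrix.smul_mul, Finset.mul_sum, Finset.sum_mul]
    congr 1
    exact Finset.sum_congr rfl fun h _ => cj_L _ a hLR (hLW a)
  have hC1 : C *ᵥ (fun _ => (1 : ℝ)) = 0 := by
    rw [hC, Matrix.smul_mulVec, Matrix.sum_mulVec,
      Finset.sum_eq_zero (fun h _ => cj_one_vec _ hW1), smul_zero]
  have hCR : ∀ k : G, Rm k * C = C * Rm k := by
    intro k
    refine (fix_cj k ?_).symm
    rw [hC, cj_smul, cj_avg]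
  obtain ⟨c0, Z, hZh, hZZ, hZ0, hZP, hCZ, hZc, hZtop⟩ :=
    h1 G C P (ofT hCT) (ofT hPT) hPP hP0 (by rw [hXP C hC1, hPX C hCT hC1])
  have hZT := tT hZh
  have hRZ : ∀ k : G, Rm k * Z = Z * Rm k := fun k => hZc _ (hCR k) (hRP k)
  have hLZ : ∀ a : G, Lm a * Z = Z * Lm a := fun a => hZc _ (hCL a) (hLP a)
  have hZ1 : Z *ᵥ (fun _ => (1 : ℝ)) = 0 := by
    rw [← hZP, ← Matrix.mulVec_mulVec, hP1, Matrix.mulVec_zero]
  have hfixZ : ∀ k, cj k Z = Z := cj_fix fun k => (hRZ k).symm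
  have hZQ : Z * Q = Q * Z := hQc hLI Z fun k => (hRZ k).symm
  have hZW0 : Z * W = W * Z := (h2 G W).2.2.2.1 ((h2 G W).1.2 hLW) Z fun k => (hRZ k).symm
  set z : ℝ := Z.trace with hz
  set A : Matrix G G ℝ := W * Z with hA
  have hZW : Z * W = W * Z := hZW0
  set w : ℝ := A.trace with hw
  have hAT : Aᵀ = A := by
    rw [hA, Matrix.transpose_mul, hWT, hZT, hZW]
  have hAA : A * A = A := by
    calc A * A = W * (Z * W) * Z := by rw [hA]; simp only [Matrix.mul_assoc]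
      _ = (W * W) * (Z * Z) := by rw [hZW]; simp only [Matrix.mul_assoc]
      _ = A := by rw [hWW, hZZ]
  have hZA : Z * A = A := by
    rw [hA, ← Matrix.mul_assoc, hZW, Matrix.mul_assoc, hZZ]
  have hAZ : A * Z = A := by
    rw [hA, Matrix.mul_assoc, hZZ]
  have hzpos : 0 < z := tr_pos hZT hZZ hZ0
  have hwz : w = c0 * z := by
    have e1 : (C * Z).trace = c0 * z := by
      rw [hCZ, Matrix.trace_smul, smul_eq_mul]
    have e2 : (C * Z).trace = w := by
      rw [hC, Matrix.smul_mul, Matrix.trace_smul, Finset.sum_mul, Matrix.trace_sum]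
      have e3 : ∀ y : G, (cj y W * Z).trace = w := by
        intro y
        rw [tr_cj_mul, hfixZ]
      simp only [e3, Finset.sum_const, Finset.card_univ, nsmul_eq_mul, smul_eq_mul, ← hN]
      field_simp
    rw [← e2, e1]
  have hc0 : 0 < c0 := by
    have e1 : 0 < W.trace := tr_pos hWT hWW hW0
    have e2 : C.trace = W.trace := by
      rw [hC, Matrix.trace_smul, Matrix.trace_sum]
      simp only [tr_cj, Finset.sum_const, Finset.card_univ, nsmul_eq_mul, smul_eq_mul, ← hN]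
      field_simp
    have e3 : (Pᵀ * C * P).trace = C.trace := by
      rw [hPT, hPX C hCT hC1, hXP C hC1]
    have e4 : (Pᵀ * C * P).trace ≤ c0 * (Pᵀ * P).trace := by
      rw [← sum_col_quad, ← sum_col_sq, Finset.mul_sum]
      refine Finset.sum_le_sum fun j _ => hZtop _ ?_
      exact hPv _ (col_sum_zero hPT hP1 j)
    have e5 : 0 < (Pᵀ * P).trace := by
      rw [hPT, hPP]
      exact tr_pos hPT hPP hP0
    rw [e3, e2] at e4
    by_contra hcon
    have e6 : c0 * (Pᵀ * P).trace ≤ 0 := mul_nonpos_of_nonpos_of_nonneg (not_lt.1 hcon) e5.le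
    linarith
  have hwpos : 0 < w := by
    rw [hwz]
    positivity
  have hA0 : A ≠ 0 := by
    intro h3
    rw [hw, h3, Matrix.trace_zero] at hwpos
    exact lt_irrefl _ hwpos
  have hLA : ∀ a, Lm a * A = A * Lm a := by
    intro a
    rw [hA, ← Matrix.mul_assoc, hLW, Matrix.mul_assoc, hLZ, Matrix.mul_assoc]
  have hA1 : A *ᵥ (fun _ => (1 : ℝ)) = 0 := by
    rw [hA, ← Matrix.mulVec_mulVec, hZ1, Matrix.mulVec_zero]
  have hDw : D ≤ w :=
    (h2 G A).2.2.2.2 D hD hmin ((h2 G A).1.2 hLA) ⟨ofT hAT, hAA, hA1⟩ hA0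
  -- (ii)
  have hZQν : (Q * Z).trace ≤ ν * z := by
    have e1 : ∑ j, ∑ h : G, (Zᵀ j) ⬝ᵥ (Rm h * Q * Rm h⁻¹) *ᵥ (Zᵀ j) ≤
        ∑ j, ν * N * ((Zᵀ j) ⬝ᵥ (Zᵀ j)) :=
      Finset.sum_le_sum fun j _ => hNB _ (col_sum_zero hZT hZ1 j)
    rw [Finset.sum_comm] at e1
    have e2 : ∀ h : G, ∑ j, (Zᵀ j) ⬝ᵥ (Rm h * Q * Rm h⁻¹) *ᵥ (Zᵀ j) = (Q * Z).trace := by
      intro h
      rw [sum_col_quad, hZT]
      have e3 : Rm h * Q * Rm h⁻¹ = cj h⁻¹ Q := by
        unfold cj
        rw [inv_inv]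
      rw [e3, Matrix.trace_mul_comm, ← Matrix.mul_assoc, hZZ, Matrix.trace_mul_comm, tr_cj_mul,
        hfixZ]
    simp only [e2] at e1
    rw [← Finset.mul_sum, sum_col_sq, hZT, hZZ] at e1
    simp only [Finset.sum_const, Finset.card_univ, nsmul_eq_mul, ← hN] at e1
    have e4 : N * (Q * Z).trace ≤ N * (ν * z) := by linarith
    exact le_of_mul_le_mul_left e4 hNpos
  -- (iii)
  set S : Matrix G G ℝ := ∑ h, cj (c h)⁻¹ A with hS
  have hST : Sᵀ = S := by
    rw [hS, Matrix.transpose_sum]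
    exact Finset.sum_congr rfl fun h _ => by rw [cj_T, hAT]
  have hZS : Z * S = S := by
    rw [hS, Finset.mul_sum]
    refine Finset.sum_congr rfl fun h _ => ?_
    conv_lhs => rw [← hfixZ (c h)⁻¹, cj_mul, hZA]
  have hμw : μ * w = (Q * Z * S).trace := by
    have e1 : (T * A).trace = μ * w := by
      rw [hA, ← Matrix.mul_assoc, hTW, Matrix.smul_mul, Matrix.trace_smul, smul_eq_mul]
    have e2 : (T * A).trace = (Q * S).trace := by
      rw [hT, hS, Finset.sum_mul, Finset.mul_sum, Matrix.trace_sum, Matrix.trace_sum]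
      exact Finset.sum_congr rfl fun h _ => tr_cj_mul _ _ _
    rw [← e1, e2, Matrix.mul_assoc, hZS]
  have hQZT : (Q * Z)ᵀ = Q * Z := by
    rw [Matrix.transpose_mul, hQT, hZT, hZQ]
  have hQZQZ : Q * Z * (Q * Z) = Q * Z := by
    calc Q * Z * (Q * Z) = Q * (Z * Q) * Z := by simp only [Matrix.mul_assoc]
      _ = (Q * Q) * (Z * Z) := by rw [hZQ]; simp only [Matrix.mul_assoc]
      _ = _ := by rw [hQQ, hZZ]
  have hCS : (μ * w) ^ 2 ≤ ν * z * (S * S).trace := by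
    have e1 := tr_CS hQZT hST
    rw [← hμw, hQZQZ] at e1
    have e2 : 0 ≤ (S * S).trace := by
      have := tr_TT_nonneg S
      rwa [hST] at this
    exact e1.trans (mul_le_mul_of_nonneg_right hZQν e2)
  -- (iv)
  set φ : G → ℝ := fun y => (A * cj y A).trace with hφ
  have hcjT : ∀ y, (cj y A)ᵀ = cj y A := fun y => by rw [cj_T, hAT]
  have hcjI : ∀ y, cj y A * cj y A = cj y A := fun y => by rw [cj_mul, hAA]
  have hφ0 : ∀ y, 0 ≤ φ y := fun y => tr_AB_nonneg hAT hAA (hcjT y) (hcjI y)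
  have hφw : ∀ y, φ y ≤ w := fun y => tr_AB_le hAT hAA (hcjT y) (hcjI y)
  have hφs : ∑ y, φ y = N * c0 * w := by
    have e1 : ∑ y, φ y = (A * ∑ y, cj y A).trace := by
      rw [Finset.mul_sum, Matrix.trace_sum]
    have e2 : ∑ y, cj y A = (N * c0) • Z := by
      have e3 : ∀ y : G, cj y A = cj y W * Z := by
        intro y
        conv_lhs => rw [hA, ← cj_mul, hfixZ]
      simp only [e3]
      rw [← Finset.sum_mul]
      have e4 : ∑ y, cj y W = N • C := by
        rw [hC, smul_smul, mul_inv_cancel₀ hNpos.ne', one_smul]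
      rw [e4, Matrix.smul_mul, hCZ, smul_smul]
    rw [e1, e2, Matrix.mul_smul, hAZ, Matrix.trace_smul, smul_eq_mul]
  have hSS : (S * S).trace ≤ α * N * (N * c0 * w) + β * E.card * w := by
    have e1 : (S * S).trace = ∑ hh : G × G, φ ((hh.2 * g * hh.2⁻¹)⁻¹ * (hh.1 * g * hh.1⁻¹)) := by
      rw [hS, Finset.sum_mul, Matrix.trace_sum, Fintype.sum_prod_type]
      refine Finset.sum_congr rfl fun h _ => ?_
      rw [Finset.mul_sum, Matrix.trace_sum]
      refine Finset.sum_congr rfl fun h' _ => ?_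
      rw [tr_cj_mul, cj_cj, inv_inv]
    rw [e1, fib (fun hh : G × G => (hh.2 * g * hh.2⁻¹)⁻¹ * (hh.1 * g * hh.1⁻¹)) φ]
    calc ∑ x, (Nat.card {hh : G × G // (hh.2 * g * hh.2⁻¹)⁻¹ * (hh.1 * g * hh.1⁻¹) = x} : ℝ) * φ x
        ≤ ∑ x, (α * N * φ x + if x ∈ E then β * w else 0) := by
          refine Finset.sum_le_sum fun x _ => ?_
          by_cases hx : x ∈ E
          · rw [if_pos hx]
            have e3 := mul_le_mul (hE2 x) (hφw x) (hφ0 x) hβ
            have e4 : 0 ≤ α * N * φ x := mul_nonneg (by positivity) (hφ0 x)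
            linarith
          · rw [if_neg hx, add_zero]
            exact mul_le_mul_of_nonneg_right (hE1 x hx) (hφ0 x)
      _ = α * N * (N * c0 * w) + β * E.card * w := by
          rw [Finset.sum_add_distrib, ← Finset.mul_sum, hφs, Finset.sum_ite_mem,
            Finset.univ_inter, Finset.sum_const, nsmul_eq_mul]
          ring
  -- conclusion
  have hzN : z ≤ N := tr_le_card hZT hZZ
  have hmain : (μ * w) ^ 2 ≤ (Rt * N * w) ^ 2 := by
    have e0 : 0 ≤ ν * (α + β * E.card / (D * N)) := by positivity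
    have e1 : (Rt * N * w) ^ 2 = ν * (α + β * E.card / (D * N)) * N ^ 2 * w ^ 2 := by
      rw [mul_pow, mul_pow, hRt, Real.sq_sqrt e0]
    rw [e1]
    have e2 : (μ * w) ^ 2 ≤ ν * z * (α * N * (N * c0 * w) + β * E.card * w) :=
      hCS.trans (mul_le_mul_of_nonneg_left hSS (by positivity))
    have e3 : ν * z * (α * N * (N * c0 * w) + β * E.card * w) =
        ν * α * N ^ 2 * w ^ 2 + ν * β * E.card * (w * z) := by
      rw [hwz]
      ring
    have e4 : w * z ≤ w ^ 2 * N / D := by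
      rw [le_div_iff₀ hD]
      calc w * z * D ≤ w * N * w := by
            apply mul_le_mul _ hDw hD.le (by positivity)
            exact mul_le_mul_of_nonneg_left hzN hwpos.le
        _ = w ^ 2 * N := by ring
    calc (μ * w) ^ 2 ≤ ν * α * N ^ 2 * w ^ 2 + ν * β * E.card * (w * z) := by
          rw [← e3]
          exact e2
      _ ≤ ν * α * N ^ 2 * w ^ 2 + ν * β * E.card * (w ^ 2 * N / D) := by
          have : ν * β * E.card * (w * z) ≤ ν * β * E.card * (w ^ 2 * N / D) :=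
            mul_le_mul_of_nonneg_left e4 (by positivity)
          linarith
      _ = _ := by
          field_simp
  have hlast : μ * w ≤ Rt * N * w := (abs_le_of_sq_le_sq' hmain (by positivity)).2
  exact le_of_mul_le_mul_right hlast hwpos

end Pool.Agent.RCG
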