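import Pool.Agent.RCG.Targets

set_option autoImplicit false

/-!
# RCG: the recursion (target REC)
-/

namespace Pool.Agent.RCG

namespace REC_

/-- `(2/√k)^(1 - 2/log k) ≤ e * 2/√k` for `k > 1`. -/
theorem pw {k : ℝ} (hk : 1 < k) :
    (2 / √k) ^ (1 - 2 / Real.log k) ≤ 2 / √k * Real.exp 1 := by
  have hL : 0 < Real.log k := Real.log_pos hk
  have hk0 : 0 < k := by linarith
  have hs : 0 < √k := Real.sqrt_pos.2 hk0
  have hy : 0 < 2 / √k := by positivity
  have hlog : Real.log (2 / √k) = Real.log 2 - Real.log k / 2 := by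
    rw [Real.log_div (by norm_num) hs.ne', Real.log_sqrt hk0.le]
  rw [Real.rpow_def_of_pos hy]
  have h1 : 2 / √k * Real.exp 1 = Real.exp (Real.log (2 / √k) + 1) := by
    rw [Real.exp_add, Real.exp_log hy]
  rw [h1]
  apply Real.exp_le_exp.2
  have h2 : Real.log (2 / √k) * (1 - 2 / Real.log k) =
      Real.log (2 / √k) + 1 - 2 * Real.log 2 / Real.log k := by
    rw [hlog]
    field_simp
    ring
  rw [h2]
  have h3 : 0 ≤ 2 * Real.log 2 / Real.log k := by
    have : 0 < Real.log 2 := Real.log_pos (by norm_num)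
    positivity
  linarith

/-- the numerical inequality -/
theorem num {m k k1 s r L L1 S a1 : ℝ} (hm : 1 ≤ m) (hk : 4 ≤ k) (hk1 : 8 ≤ k1)
    (hS : 0 < S) (hS2 : S * S = k) (ha : 0 < a1) (ha2 : a1 * a1 = k1) (hL : 1 < L)
    (hL1 : 0 < L1) (hLL : L1 ≤ L) (hC : 32 * m * L < S) (hs1 : 4 * m ^ 2 * L ^ 2 ≤ s)
    (hs2 : s ≤ 5 * m ^ 2 * L ^ 2) (hsk : s * k1 ≤ k) (hr : r ≤ s) (_hr0 : 0 ≤ r)
    {y : ℝ} (hy : y ≤ 2 / a1 * Real.exp 1) :
    k1 * s * y + m * L1 * (32 * m * a1 * L1) + 2 * r ≤ 32 * m * S * L := by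
  have he := Real.exp_one_lt_d9
  have hs0 : 0 < s := by
    have : 0 < 4 * m ^ 2 * L ^ 2 := by positivity
    linarith
  have hP : 0 < m * L * S := by positivity
  -- first summand
  have h1 : s * a1 ≤ 2.2361 * (m * L * S) := by
    apply le_of_sq_le_sq _ (by positivity)
    calc (s * a1) ^ 2 = s * (s * (a1 * a1)) := by ring
      _ = s * (s * k1) := by rw [ha2]
      _ ≤ s * k := by gcongr
      _ ≤ (5 * m ^ 2 * L ^ 2) * k := by gcongr
      _ = 5 * (m * L) ^ 2 * (S * S) := by rw [hS2]; ring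
      _ ≤ (2.2361 * (m * L * S)) ^ 2 := by
          have : 0 ≤ (m * L * S) ^ 2 := by positivity
          nlinarith
  have h2 : k1 * s * y ≤ 12.2 * (m * L * S) := by
    calc k1 * s * y ≤ k1 * s * (2 / a1 * Real.exp 1) := by gcongr
      _ = 2 * Real.exp 1 * (s * a1) := by
          rw [← ha2]
          field_simp
      _ ≤ 2 * 2.7182818286 * (2.2361 * (m * L * S)) := by gcongr
      _ ≤ 12.2 * (m * L * S) := by nlinarith
  -- second summand
  have h3 : a1 * (2 * m * L) ≤ S := by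
    apply le_of_sq_le_sq _ hS.le
    calc (a1 * (2 * m * L)) ^ 2 = (4 * m ^ 2 * L ^ 2) * (a1 * a1) := by ring
      _ = (4 * m ^ 2 * L ^ 2) * k1 := by rw [ha2]
      _ ≤ s * k1 := by gcongr
      _ ≤ k := hsk
      _ = S ^ 2 := by rw [← hS2]; ring
  have h4 : m * L1 * (32 * m * a1 * L1) ≤ 16 * (m * L * S) := by
    calc m * L1 * (32 * m * a1 * L1) ≤ m * L * (32 * m * a1 * L) := by gcongr
      _ = 16 * m * L * (a1 * (2 * m * L)) := by ring
      _ ≤ 16 * m * L * S := by gcongr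
      _ = 16 * (m * L * S) := by ring
  -- remainder
  have h5 : 2 * r ≤ (10 / 32) * (m * L * S) := by
    calc 2 * r ≤ 2 * s := by linarith
      _ ≤ 2 * (5 * m ^ 2 * L ^ 2) := by linarith
      _ = (10 / 32) * (m * L) * (32 * m * L) := by ring
      _ ≤ (10 / 32) * (m * L) * S := by gcongr
      _ = (10 / 32) * (m * L * S) := by ring
  have h6 : 32 * m * S * L = 32 * (m * L * S) := by ring
  rw [h6]
  linarith

end REC_

theorem prove_REC : T_REC := by
  intro N a Gd hN ha hmono htriv hadd hstep d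
  induction d using Nat.strong_induction_on with
  | _ d ih =>
  intro hd
  have hm : 1 ≤ N + a + 1 := by linarith
  obtain ⟨m, hmd⟩ : ∃ m : ℝ, m = N + a + 1 := ⟨_, rfl⟩
  rw [← hmd] at hm ih ⊢
  have hdR : (2 : ℝ) ≤ (d : ℝ) := by exact_mod_cast hd
  obtain ⟨k, hkd⟩ : ∃ k : ℝ, k = 2 * (d : ℝ) := ⟨_, rfl⟩
  have hk4 : 4 ≤ k := by rw [hkd]; linarith
  rw [← hkd]
  have hL : 1.38 < Real.log k := by
    have h1 : Real.log 4 ≤ Real.log k := Real.log_le_log (by norm_num) hk4
    have h2 : Real.log 4 = 2 * Real.log 2 := by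
      rw [show (4 : ℝ) = 2 ^ 2 by norm_num, Real.log_pow]
      norm_num
    have h3 := Real.log_two_gt_d9
    linarith
  have hL1 : 1 < Real.log k := by linarith
  have hS0 : 0 < √k := Real.sqrt_pos.2 (by linarith)
  have hSS : √k * √k = k := Real.mul_self_sqrt (by linarith)
  by_cases hcase : √k ≤ 32 * m * Real.log k
  · apply hmono d (2 * d) _ _ (htriv d)
    rw [← hkd]
    calc k = √k * √k := hSS.symm
      _ ≤ √k * (32 * m * Real.log k) := by gcongr
      _ = 32 * m * √k * Real.log k := by ring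
  · push Not at hcase
    set L : ℝ := Real.log k with hLdef
    have hmL : 1 ≤ m ^ 2 * L ^ 2 := by
      have h1 : 1 ≤ m * L := by nlinarith
      nlinarith
    set s : ℕ := ⌈4 * m ^ 2 * L ^ 2⌉₊ with hsdef
    have hs1 : 4 * m ^ 2 * L ^ 2 ≤ (s : ℝ) := Nat.le_ceil _
    have hs2' : (s : ℝ) < 4 * m ^ 2 * L ^ 2 + 1 := Nat.ceil_lt_add_one (by positivity)
    have hs2 : (s : ℝ) ≤ 5 * m ^ 2 * L ^ 2 := by linarith
    have hs4 : (4 : ℝ) ≤ (s : ℝ) := by linarith
    have hs4' : 4 ≤ s := by exact_mod_cast hs4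
    have hbig : 1024 * (m ^ 2 * L ^ 2) < k := by
      have h0 : 0 < 32 * m * L := by positivity
      calc 1024 * (m ^ 2 * L ^ 2) = (32 * m * L) * (32 * m * L) := by ring
        _ < √k * √k := mul_lt_mul'' hcase hcase h0.le h0.le
        _ = k := hSS
    have hsd : (4 : ℝ) * s ≤ d := by
      have : k = 2 * (d : ℝ) := hkd
      linarith
    have hsd' : 4 * s ≤ d := by exact_mod_cast hsd
    have hd1 : 4 ≤ d / s := (Nat.le_div_iff_mul_le (by omega)).2 hsd'
    have hlt : d / s < d := Nat.div_lt_self (by omega) (by omega)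
    have hIH := ih (d / s) hlt (by omega)
    obtain ⟨k1, hk1d⟩ : ∃ k1 : ℝ, k1 = 2 * ((d / s : ℕ) : ℝ) := ⟨_, rfl⟩
    have hd1R : (4 : ℝ) ≤ ((d / s : ℕ) : ℝ) := by exact_mod_cast hd1
    have hk8 : 8 ≤ k1 := by rw [hk1d]; linarith
    rw [← hk1d] at hIH
    have hL12 : 2 < Real.log k1 := by
      have h1 : Real.log 8 ≤ Real.log k1 := Real.log_le_log (by norm_num) hk8
      have h2 : Real.log 8 = 3 * Real.log 2 := by
        rw [show (8 : ℝ) = 2 ^ 3 by norm_num, Real.log_pow]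
        norm_num
      have h3 := Real.log_two_gt_d9
      linarith
    have hL10 : 0 < Real.log k1 := by linarith
    have hmod : s * (d / s) + d % s = d := Nat.div_add_mod d s
    have hmodR : (s : ℝ) * ((d / s : ℕ) : ℝ) + ((d % s : ℕ) : ℝ) = d := by exact_mod_cast hmod
    have hrs : d % s < s := Nat.mod_lt d (by omega)
    have hrsR : ((d % s : ℕ) : ℝ) ≤ s := by exact_mod_cast hrs.le
    have hr0 : (0 : ℝ) ≤ ((d % s : ℕ) : ℝ) := Nat.cast_nonneg _
    have hsk : (s : ℝ) * k1 ≤ k := by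
      rw [hk1d, hkd]
      linarith
    have hk1k : k1 ≤ k := by
      have : (1 : ℝ) ≤ s := by linarith
      nlinarith
    have hLL : Real.log k1 ≤ L := Real.log_le_log (by linarith) hk1k
    have hκ : N + a < (1 - (1 - 2 / Real.log k1)) * (m * Real.log k1) / 2 := by
      have : (1 - (1 - 2 / Real.log k1)) * (m * Real.log k1) / 2 = m := by
        field_simp
        ring
      rw [this, hmd]
      linarith
    have hκ0 : 0 < 1 - 2 / Real.log k1 := by
      have : 2 / Real.log k1 < 1 := by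
        rw [div_lt_one hL10]
        exact hL12
      linarith
    have hκ1 : 1 - 2 / Real.log k1 < 1 := by
      have : 0 < 2 / Real.log k1 := by positivity
      linarith
    have hB : 0 ≤ 32 * m * √k1 * Real.log k1 := by positivity
    have h1 := hstep (d / s) s (32 * m * √k1 * Real.log k1) (1 - 2 / Real.log k1)
      (m * Real.log k1) (by omega) (by omega) hB hκ0 hκ1 hκ hIH
    have h2 := hadd (s * (d / s)) (d % s) _ h1
    rw [hmod, ← hk1d] at h2
    refine hmono d _ _ ?_ h2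
    exact REC_.num hm hk4 hk8 hS0 hSS (Real.sqrt_pos.2 (by linarith))
      (Real.mul_self_sqrt (by linarith)) hL1 hL10 hLL hcase hs1 hs2 hsk hrsR hr0
      (REC_.pw (by linarith))

end Pool.Agent.RCG
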