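import Pool.Agent.RCG.Targets3
import Pool.Agent.RCG.REC

set_option autoImplicit false

/-!
# RCG: the recursion with error terms (target RECU)
-/

namespace Pool.Agent.RCG

theorem prove_RECU : T_RECU := by
  intro m L0 δ b hm4 hδ hmono htriv hadd hstep d
  have hm : 1 ≤ m := by linarith
  induction d using Nat.strong_induction_on with
  | _ d ih =>
  intro hd hdL
  have hdR : (2 : ℝ) ≤ (d : ℝ) := by exact_mod_cast hd
  obtain ⟨k, hkd⟩ : ∃ k : ℝ, k = 2 * (d : ℝ) := ⟨_, rfl⟩
  have hk4 : 4 ≤ k := by rw [hkd]; linarith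
  rw [← hkd] at hdL ⊢
  have hL : 1.38 < Real.log k := by
    have h1 : Real.log 4 ≤ Real.log k := Real.log_le_log (by norm_num) hk4
    have h2 : Real.log 4 = 2 * Real.log 2 := by
      rw [show (4 : ℝ) = 2 ^ 2 by norm_num, Real.log_pow]
      norm_num
    have h3 := Real.log_two_gt_d9
    linarith
  have hL1 : 1 < Real.log k := by linarith
  have hS0 : 0 < √k := Real.sqrt_pos.2 (by linarith)
  have hSS : √k * √k = k := Real.mul_self_sqrt (by linarith)
  by_cases hcase : √k ≤ 32 * m * Real.log k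
  · have h1 := hmono d (2 * d) (32 * m * √k * Real.log k) (by
      rw [← hkd]
      calc k = √k * √k := hSS.symm
        _ ≤ √k * (32 * m * Real.log k) := by gcongr
        _ = 32 * m * √k * Real.log k := by ring)
    rw [htriv d] at h1
    exact h1.trans (mul_nonneg (by linarith) hδ)
  · push Not at hcase
    set L : ℝ := Real.log k with hLdef
    have hmL : 1 ≤ m ^ 2 * L ^ 2 := by
      have h1 : 1 ≤ m * L := by nlinarith
      nlinarith
    set s : ℕ := ⌈4 * m ^ 2 * L ^ 2⌉₊ with hsdef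
    have hs1 : 4 * m ^ 2 * L ^ 2 ≤ (s : ℝ) := Nat.le_ceil _
    have hs2' : (s : ℝ) < 4 * m ^ 2 * L ^ 2 + 1 := Nat.ceil_lt_add_one (by positivity)
    have hs2 : (s : ℝ) ≤ 5 * m ^ 2 * L ^ 2 := by linarith
    have hs4 : (4 : ℝ) ≤ (s : ℝ) := by linarith
    have hs4' : 4 ≤ s := by exact_mod_cast hs4
    have hbig : 1024 * (m ^ 2 * L ^ 2) < k := by
      have h0 : 0 < 32 * m * L := by positivity
      calc 1024 * (m ^ 2 * L ^ 2) = (32 * m * L) * (32 * m * L) := by ring
        _ < √k * √k := mul_lt_mul'' hcase hcase h0.le h0.le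
        _ = k := hSS
    have hsd : (4 : ℝ) * s ≤ d := by
      have : k = 2 * (d : ℝ) := hkd
      linarith
    have hsd' : 4 * s ≤ d := by exact_mod_cast hsd
    have hd1 : 4 ≤ d / s := (Nat.le_div_iff_mul_le (by omega)).2 hsd'
    have hlt : d / s < d := Nat.div_lt_self (by omega) (by omega)
    obtain ⟨k1, hk1d⟩ : ∃ k1 : ℝ, k1 = 2 * ((d / s : ℕ) : ℝ) := ⟨_, rfl⟩
    have hd1R : (4 : ℝ) ≤ ((d / s : ℕ) : ℝ) := by exact_mod_cast hd1
    have hk8 : 8 ≤ k1 := by rw [hk1d]; linarith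
    have hL12 : 2 < Real.log k1 := by
      have h1 : Real.log 8 ≤ Real.log k1 := Real.log_le_log (by norm_num) hk8
      have h2 : Real.log 8 = 3 * Real.log 2 := by
        rw [show (8 : ℝ) = 2 ^ 3 by norm_num, Real.log_pow]
        norm_num
      have h3 := Real.log_two_gt_d9
      linarith
    have hL10 : 0 < Real.log k1 := by linarith
    have hmod : s * (d / s) + d % s = d := Nat.div_add_mod d s
    have hmodR : (s : ℝ) * ((d / s : ℕ) : ℝ) + ((d % s : ℕ) : ℝ) = d := by exact_mod_cast hmod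
    have hrs : d % s < s := Nat.mod_lt d (by omega)
    have hrsR : ((d % s : ℕ) : ℝ) ≤ s := by exact_mod_cast hrs.le
    have hr0 : (0 : ℝ) ≤ ((d % s : ℕ) : ℝ) := Nat.cast_nonneg _
    have hsk : (s : ℝ) * k1 ≤ k := by
      rw [hk1d, hkd]
      linarith
    have hk1k : k1 ≤ k := by
      have : (1 : ℝ) ≤ s := by linarith
      nlinarith
    have hLL : Real.log k1 ≤ L := Real.log_le_log (by linarith) hk1k
    have hIH := ih (d / s) hlt (by omega) (by rw [← hk1d]; linarith)
    rw [← hk1d] at hIH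
    have hB : 0 ≤ 32 * m * √k1 * Real.log k1 := by positivity
    have h1 := hstep (d / s) s (32 * m * √k1 * Real.log k1) L hd1 (by omega) hB
      (by rw [← hk1d]; exact hLL) hdL hs2
    rw [← hk1d] at h1
    have h2 := hadd (s * (d / s)) (d % s) (k1 * s * (2 / √k1) ^ (1 - 2 / Real.log k1) +
      m * Real.log k1 * (32 * m * √k1 * Real.log k1))
    rw [hmod] at h2
    have h3 := hmono d _ _ (REC_.num hm hk4 hk8 hS0 hSS (Real.sqrt_pos.2 (by linarith))
      (Real.mul_self_sqrt (by linarith)) hL1 hL10 hLL hcase hs1 hs2 hsk hrsR hr0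
      (REC_.pw (by linarith)))
    refine h3.trans (h2.trans (h1.trans ?_))
    have h4 : (s : ℝ) * b (d / s) (32 * m * √k1 * Real.log k1) ≤ s * ((k1 - 1) * δ) :=
      mul_le_mul_of_nonneg_left hIH (by linarith)
    have h5 : (s : ℝ) * k1 * δ ≤ k * δ := mul_le_mul_of_nonneg_right hsk hδ
    have h6 : 2 * δ ≤ (s : ℝ) * δ := mul_le_mul_of_nonneg_right (by linarith) hδ
    have h7 : (s : ℝ) * ((k1 - 1) * δ) = s * k1 * δ - s * δ := by ring
    have h8 : (k - 1) * δ = k * δ - δ := by ring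
    linarith

end Pool.Agent.RCG
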