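import Pool.Agent.RCG.Targets

set_option autoImplicit false

/-!
# RCG: one step of the recursion (STEP)
-/

namespace Pool.Agent.RCG

open Finset

namespace STEP_

theorem rho_pos {d : ℕ} (hd : 3 ≤ d) : 0 < 2 / √(2 * (d : ℝ)) := by
  have h : (0 : ℝ) < 2 * (d : ℝ) := by
    have : (3 : ℝ) ≤ d := by exact_mod_cast hd
    linarith
  exact div_pos two_pos (Real.sqrt_pos.2 h)

theorem rho_lt {d : ℕ} (hd : 3 ≤ d) : 2 / √(2 * (d : ℝ)) < 1 := by
  have h3 : (3 : ℝ) ≤ d := by exact_mod_cast hd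
  have h : (0 : ℝ) < 2 * (d : ℝ) := by linarith
  rw [div_lt_one (Real.sqrt_pos.2 h)]
  have h1 : (2 : ℝ) = √4 := by
    rw [show (4 : ℝ) = 2 ^ 2 by norm_num]
    exact (Real.sqrt_sq (by norm_num)).symm
  calc (2 : ℝ) = √4 := h1
    _ < √(2 * (d : ℝ)) := Real.sqrt_lt_sqrt (by norm_num) (by linarith)

end STEP_

open STEP_ in
theorem prove_STEP (h1 : T_STP) (h2 : T_ASY) : T_STEP := by
  intro I G _ _ q N a hN ha hcard d hd ⟨c, hc⟩ s B κ u hs hB hκ hκ1 hu hG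
  obtain ⟨K, P, hKP⟩ := hG
  have hρ := rho_pos hd
  have hρ1 := rho_lt hd
  have hu0 : 0 < u := by
    by_contra hcon
    push Not at hcon
    have h3 : (1 - κ) * u ≤ 0 := mul_nonpos_of_nonneg_of_nonpos (by linarith) hcon
    linarith
  have hs0 : (0 : ℝ) < s := by exact_mod_cast hs
  obtain ⟨c', hc'⟩ : ∃ c' : ℝ, c' = max c 1 := ⟨_, rfl⟩
  have hc1 : c ≤ c' := by rw [hc']; exact le_max_left _ _
  have hc0 : 0 < c' := by
    rw [hc']
    exact lt_of_lt_of_le one_pos (le_max_right _ _)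
  obtain ⟨P1, hP1⟩ := h2 (2 / √(2 * (d : ℝ))) κ N a u c' s hρ hρ1 hκ hκ1 hN ha hu hc0 hs0
  refine ⟨s * K + 1, max (max P P1) c', fun i hi => ?_⟩
  have hi1 : P ≤ q i := le_trans (le_trans (le_max_left _ _) (le_max_left _ _)) hi
  have hi2 : P1 ≤ q i := le_trans (le_trans (le_max_right _ _) (le_max_left _ _)) hi
  have hi3 : c ≤ q i := le_trans hc1 (le_trans (le_max_right _ _) hi)
  obtain ⟨hq, n, hn, hn1, hb⟩ := hP1 (q i) hi2
  obtain ⟨g, hg⟩ : ∃ g : ℝ, g = (Fintype.card (G i) : ℝ) := ⟨_, rfl⟩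
  have hg0 : 0 ≤ g := by rw [hg]; positivity
  obtain ⟨τ, hτ⟩ : ∃ τ : ℝ, τ = (2 / √(2 * (d : ℝ))) ^ n +
    c' * √(((n : ℝ) + 1) / q i) := ⟨_, rfl⟩
  have hτ0 : 0 < τ := by
    rw [hτ]
    positivity
  have hθ : 0 < (2 / √(2 * (d : ℝ))) ^ κ := Real.rpow_pos_of_pos hρ κ
  have hav : ∀ f : G i → ℝ, ∑ x, f x = 0 → ∑ y : Fin d → G i, ∑ x, f x * (adj y)^[n] f x ≤
      (2 * (d : ℝ)) ^ n * (Fintype.card (G i) : ℝ) ^ d * τ * ∑ x, f x ^ 2 := by
    intro f hf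
    refine (hc i hi3 n f hf).trans ?_
    refine mul_le_mul_of_nonneg_right ?_ (sum_nonneg fun x _ => sq_nonneg _)
    refine mul_le_mul_of_nonneg_left ?_ (by positivity)
    rw [hτ]
    exact add_le_add le_rfl (mul_le_mul_of_nonneg_right hc1 (Real.sqrt_nonneg _))
  have hst := h1 (G i) d s n τ ((2 / √(2 * (d : ℝ))) ^ κ) B u (by omega) hs hn hn1 hθ hτ0 hB
    hu0 hav
  rw [← hg] at hst ⊢
  have hk := hKP i hi1
  rw [← hg] at hk
  have hcg : g ≤ q i ^ N := by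
    rw [hg]
    exact hcard i
  have e1 : (s : ℝ) * (badCard (G i) d B : ℝ) * g ^ ((s - 1) * d) ≤
      s * K * q i ^ (-a) * g ^ (s * d) := by
    have e2 : g ^ (s * d) = g ^ d * g ^ ((s - 1) * d) := by
      rw [← pow_add]
      congr 1
      obtain ⟨t, rfl⟩ : ∃ t, s = t + 1 := ⟨s - 1, by omega⟩
      rw [Nat.add_sub_cancel]
      ring
    calc (s : ℝ) * (badCard (G i) d B : ℝ) * g ^ ((s - 1) * d)
        ≤ (s : ℝ) * (K * q i ^ (-a) * g ^ d) * g ^ ((s - 1) * d) :=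
          mul_le_mul_of_nonneg_right (mul_le_mul_of_nonneg_left hk hs0.le) (by positivity)
      _ = s * K * q i ^ (-a) * g ^ (s * d) := by
          rw [e2]
          ring
  have e3 : Real.exp 1 * g * ((s : ℝ) * ((((2 / √(2 * (d : ℝ))) ^ κ) ^ n)⁻¹ * τ)) ^ u *
      g ^ (s * d) ≤ q i ^ (-a) * g ^ (s * d) := by
    refine mul_le_mul_of_nonneg_right ?_ (by positivity)
    refine le_trans ?_ hb
    rw [← hτ]
    refine mul_le_mul_of_nonneg_right ?_ ?_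
    · exact mul_le_mul_of_nonneg_left hcg (Real.exp_pos 1).le
    · exact Real.rpow_nonneg (by positivity) u
  calc (badCard (G i) (s * d) (2 * d * s * (2 / √(2 * (d : ℝ))) ^ κ + u * B) : ℝ)
      ≤ s * K * q i ^ (-a) * g ^ (s * d) + q i ^ (-a) * g ^ (s * d) :=
        hst.trans (add_le_add e1 e3)
    _ = (s * K + 1) * q i ^ (-a) * g ^ (s * d) := by ring

end Pool.Agent.RCG
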