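import Pool.Agent.RCG.Targets

set_option autoImplicit false

/-!
# RCG: STP, blocks of generators
-/

namespace Pool.Agent.RCG

open Finset Matrix

namespace STP_

variable {G : Type} [Group G] [Fintype G]

/-- sum of shifted functions -/
theorem sum_shift (f : G → ℝ) (a : G) : ∑ x, f (x * a) = ∑ x, f x :=
  Equiv.sum_comp (Equiv.mulRight a) f

theorem adj_sum {d : ℕ} (y : Fin d → G) (f : G → ℝ) :
    ∑ x, adj y f x = 2 * d * ∑ x, f x := by
  unfold adj
  rw [Finset.sum_comm]
  have h : ∀ i : Fin d, ∑ x, (f (x * y i) + f (x * (y i)⁻¹)) = 2 * ∑ x, f x := by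
    intro i
    rw [Finset.sum_add_distrib, sum_shift, sum_shift]
    ring
  rw [Finset.sum_congr rfl fun i _ => h i]
  simp
  ring

theorem adj_iter_sum {d : ℕ} (y : Fin d → G) (n : ℕ) (f : G → ℝ) (hf : ∑ x, f x = 0) :
    ∑ x, (adj y)^[n] f x = 0 := by
  induction n generalizing f with
  | zero => simpa using hf
  | succ n ih =>
    rw [Function.iterate_succ, Function.comp_apply]
    refine ih _ ?_
    rw [adj_sum, hf, mul_zero]

/-- the part of sum zero -/
noncomputable def f0 (v : G → ℝ) (x : G) : ℝ := v x - (∑ z, v z) / Fintype.card G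

theorem card_pos' : (0 : ℝ) < Fintype.card G := by
  have : 0 < Fintype.card G := Fintype.card_pos_iff.2 ⟨1⟩
  exact_mod_cast this

theorem f0_sum (v : G → ℝ) : ∑ x, f0 v x = 0 := by
  have h := card_pos' (G := G)
  unfold f0
  rw [Finset.sum_sub_distrib, Finset.sum_const, Finset.card_univ, nsmul_eq_mul]
  field_simp
  ring

theorem f0_of {w : G → ℝ} (hw : ∑ x, w x = 0) : f0 w = w := by
  funext x
  unfold f0
  rw [hw, zero_div, sub_zero]

theorem f0_le (v : G → ℝ) : ∑ x, f0 v x ^ 2 ≤ v ⬝ᵥ v := by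
  have h := card_pos' (G := G)
  set m : ℝ := (∑ z, v z) / Fintype.card G with hm
  have hm2 : ∑ z, v z = m * Fintype.card G := by
    rw [hm]
    field_simp
  have h1 : ∑ x, f0 v x ^ 2 = ∑ x, v x ^ 2 - 2 * m * (∑ x, v x) + Fintype.card G * m ^ 2 := by
    have h2 : ∀ x, f0 v x ^ 2 = v x ^ 2 - 2 * m * v x + m ^ 2 := by
      intro x
      unfold f0
      rw [← hm]
      ring
    rw [Finset.sum_congr rfl fun x _ => h2 x, Finset.sum_add_distrib, Finset.sum_sub_distrib,
      ← Finset.mul_sum, Finset.sum_const, Finset.card_univ, nsmul_eq_mul]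
  have h3 : v ⬝ᵥ v = ∑ x, v x ^ 2 := by
    unfold dotProduct
    exact Finset.sum_congr rfl fun x _ => by ring
  rw [h1, h3, hm2]
  have h4 : 0 ≤ Fintype.card G * m ^ 2 := by positivity
  nlinarith

theorem adj_f0 {d : ℕ} (y : Fin d → G) (v : G → ℝ) (x : G) :
    adj y (f0 v) x = adj y v x - 2 * d * ((∑ z, v z) / Fintype.card G) := by
  unfold adj f0
  have h : ∀ i : Fin d, (v (x * y i) - (∑ z, v z) / Fintype.card G +
      (v (x * (y i)⁻¹) - (∑ z, v z) / Fintype.card G)) =
      (v (x * y i) + v (x * (y i)⁻¹)) - 2 * ((∑ z, v z) / Fintype.card G) := by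
    intro i
    ring
  rw [Finset.sum_congr rfl fun i _ => h i, Finset.sum_sub_distrib, Finset.sum_const]
  simp
  ring

section mat

variable [DecidableEq G]

/-- the matrix -/
noncomputable def Mm {d : ℕ} (y : Fin d → G) : Matrix G G ℝ :=
  Matrix.of fun x z => (1 / (2 * (d : ℝ))) *
    (∑ i, ((if z = x * y i then (1 : ℝ) else 0) + (if x = z * y i then 1 else 0))) -
      1 / (Fintype.card G : ℝ)

theorem Mm_herm {d : ℕ} (y : Fin d → G) : (Mm y).IsHermitian := by
  refine Matrix.IsHermitian.ext fun x z => ?_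
  simp only [Mm, Matrix.of_apply, star_trivial]
  congr 2
  exact Finset.sum_congr rfl fun i _ => add_comm _ _

theorem Mm_mulVec {d : ℕ} (y : Fin d → G) (v : G → ℝ) (x : G) :
    (Mm y *ᵥ v) x = (1 / (2 * (d : ℝ))) * adj y v x - (∑ z, v z) / Fintype.card G := by
  have h1 : ∀ i : Fin d, ∑ z, (if z = x * y i then (1 : ℝ) else 0) * v z = v (x * y i) := by
    intro i
    simp
  have h2 : ∀ i : Fin d, ∑ z, (if x = z * y i then (1 : ℝ) else 0) * v z =
      v (x * (y i)⁻¹) := by
    intro i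
    have h3 : ∀ z, (x = z * y i) ↔ (z = x * (y i)⁻¹) := by
      intro z
      constructor
      · rintro rfl
        group
      · rintro rfl
        group
    simp only [h3]
    simp
  have h4 : adj y v x = ∑ z, (∑ i, ((if z = x * y i then (1 : ℝ) else 0) +
      (if x = z * y i then 1 else 0))) * v z := by
    unfold adj
    simp_rw [Finset.sum_mul, add_mul]
    rw [Finset.sum_comm]
    refine Finset.sum_congr rfl fun i _ => ?_
    rw [Finset.sum_add_distrib, h1, h2]
  rw [h4]
  simp only [Matrix.mulVec, dotProduct, Mm, Matrix.of_apply]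
  rw [Finset.mul_sum, Finset.sum_div, ← Finset.sum_sub_distrib]
  refine Finset.sum_congr rfl fun z _ => ?_
  ring

theorem Mm_f0 {d : ℕ} (hd : 1 ≤ d) (y : Fin d → G) (v : G → ℝ) :
    Mm y *ᵥ v = (1 / (2 * (d : ℝ))) • adj y (f0 v) := by
  have hd0 : (0 : ℝ) < d := by exact_mod_cast hd
  funext x
  rw [Mm_mulVec, Pi.smul_apply, smul_eq_mul, adj_f0]
  field_simp

theorem Mm_pow {d : ℕ} (hd : 1 ≤ d) (y : Fin d → G) (n : ℕ) (w : G → ℝ) (hw : ∑ x, w x = 0) :
    (Mm y ^ n) *ᵥ w = (1 / (2 * (d : ℝ))) ^ n • (adj y)^[n] w := by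
  induction n generalizing w with
  | zero => simp
  | succ n ih =>
    rw [pow_succ, ← Matrix.mulVec_mulVec, Mm_f0 hd, f0_of hw, Matrix.mulVec_smul,
      ih (adj y w) (by rw [adj_sum, hw, mul_zero]), Function.iterate_succ, Function.comp_apply,
      smul_smul]
    congr 1
    ring

theorem Mm_pow_f0 {d : ℕ} (hd : 1 ≤ d) (y : Fin d → G) {n : ℕ} (hn : 1 ≤ n) (v : G → ℝ) :
    (Mm y ^ n) *ᵥ v = (1 / (2 * (d : ℝ))) ^ n • (adj y)^[n] (f0 v) := by
  obtain ⟨m, rfl⟩ : ∃ m, n = m + 1 := ⟨n - 1, by omega⟩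
  rw [← Mm_pow hd y (m + 1) (f0 v) (f0_sum v), pow_succ, ← Matrix.mulVec_mulVec,
    ← Matrix.mulVec_mulVec, Mm_f0 hd y v, Mm_f0 hd y (f0 v), f0_of (f0_sum v)]

theorem form_eq {d : ℕ} (hd : 1 ≤ d) (y : Fin d → G) {n : ℕ} (hn : 1 ≤ n) (v : G → ℝ) :
    v ⬝ᵥ (Mm y ^ n) *ᵥ v =
      (1 / (2 * (d : ℝ))) ^ n * ∑ x, f0 v x * (adj y)^[n] (f0 v) x := by
  rw [Mm_pow_f0 hd y hn v, dotProduct_smul, smul_eq_mul]
  congr 1
  have h1 := adj_iter_sum y n (f0 v) (f0_sum v)
  have h2 : ∀ x, v x = f0 v x + (∑ z, v z) / Fintype.card G := by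
    intro x
    unfold f0
    ring
  unfold dotProduct
  calc ∑ x, v x * (adj y)^[n] (f0 v) x
      = ∑ x, (f0 v x * (adj y)^[n] (f0 v) x +
          (∑ z, v z) / Fintype.card G * (adj y)^[n] (f0 v) x) := by
        refine Finset.sum_congr rfl fun x _ => ?_
        nth_rewrite 1 [h2 x]
        ring
    _ = _ := by rw [Finset.sum_add_distrib, ← Finset.mul_sum, h1, mul_zero, add_zero]

theorem form_one {d : ℕ} (hd : 1 ≤ d) (y : Fin d → G) (v : G → ℝ) :
    v ⬝ᵥ (Mm y) *ᵥ v = (1 / (2 * (d : ℝ))) * ∑ x, f0 v x * adj y (f0 v) x := by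
  have := form_eq hd y le_rfl v
  simpa using this

end mat

/-- number of tuples with one prescribed coordinate -/
theorem card_coord {Y : Type} [Fintype Y] (s : ℕ) (g : Fin s) (p : Y → Prop) :
    Nat.card {z : Fin s → Y // p (z g)} = Nat.card {y : Y // p y} * Fintype.card Y ^ (s - 1) := by
  classical
  rw [Nat.card_eq_fintype_card, Nat.card_eq_fintype_card, Fintype.card_subtype,
    Fintype.card_subtype]
  have h1 : (Finset.univ.filter fun z : Fin s → Y => p (z g)) =
      Fintype.piFinset (fun j : Fin s => if j = g then Finset.univ.filter p else Finset.univ) := by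
    ext z
    rw [Finset.mem_filter, Fintype.mem_piFinset]
    constructor
    · intro h j
      split_ifs with hj
      · rw [Finset.mem_filter]
        exact ⟨Finset.mem_univ _, hj ▸ h.2⟩
      · exact Finset.mem_univ _
    · intro h
      have := h g
      rw [if_pos rfl, Finset.mem_filter] at this
      exact ⟨Finset.mem_univ _, this.2⟩
  rw [h1, Fintype.card_piFinset]
  have h2 : ∀ j : Fin s, (if j = g then Finset.univ.filter p else (Finset.univ : Finset Y)).card =
      if j = g then (Finset.univ.filter p).card else Fintype.card Y := by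
    intro j
    split_ifs <;> simp
  rw [Finset.prod_congr rfl fun j _ => h2 j, Finset.prod_ite]
  have h3 : (Finset.univ.filter fun j : Fin s => j = g) = {g} := by
    ext j
    simp
  have h4 : (Finset.univ.filter fun j : Fin s => ¬ j = g).card = s - 1 := by
    have h5 := Finset.card_filter_add_card_filter_not (s := (Finset.univ : Finset (Fin s)))
      (fun j => j = g)
    rw [h3, Finset.card_singleton, Finset.card_univ, Fintype.card_fin] at h5
    omega
  rw [h3, Finset.prod_singleton, Finset.prod_const, h4]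

/-- the tuples as blocks -/
def blk (G : Type) (s d : ℕ) : (Fin (s * d) → G) ≃ (Fin s → Fin d → G) :=
  (Equiv.arrowCongr finProdFinEquiv.symm (Equiv.refl G)).trans (Equiv.curry (Fin s) (Fin d) G)

theorem blk_adj {s d : ℕ} (y : Fin (s * d) → G) (f : G → ℝ) (x : G) :
    adj y f x = ∑ g, adj (blk G s d y g) f x := by
  unfold adj
  rw [← Equiv.sum_comp finProdFinEquiv, Fintype.sum_prod_type]
  rfl

end STP_

open STP_ in
/-- STP. blocks of generators. -/
theorem prove_STP (h1 : T_ONE) : T_STP := by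
  classical
  intro G _ _ d s n τ θ B u hd hs hne hn hθ hτ hB hu havg
  have hd0 : (0 : ℝ) < d := by exact_mod_cast hd
  set k : ℝ := 2 * (d : ℝ) with hk
  have hk0 : 0 < k := by positivity
  set N : ℝ := (Fintype.card G : ℝ) with hN
  have hN0 : 0 < N := card_pos'
  have hY : (Fintype.card (Fin d → G) : ℝ) = N ^ d := by
    rw [Fintype.card_fun, Fintype.card_fin]
    push_cast
    rfl
  have hB' : 0 ≤ B / k := by positivity
  have hone := h1 G (Fin d → G) (fun y => Mm y) θ τ (B / k) u n s (fun y => Mm_herm y) hθ hτ hB'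
    hu hne hs (by
      intro v
      have h2 := havg (f0 v) (f0_sum v)
      have h3 : ∑ y : Fin d → G, v ⬝ᵥ ((Mm y) ^ n) *ᵥ v =
          (1 / k) ^ n * ∑ y : Fin d → G, ∑ x, f0 v x * (adj y)^[n] (f0 v) x := by
        rw [Finset.mul_sum]
        exact Finset.sum_congr rfl fun y _ => form_eq hd y hn v
      rw [h3, hY]
      have h4 : (1 / k) ^ n * k ^ n = 1 := by
        rw [← mul_pow, one_div, inv_mul_cancel₀ hk0.ne', one_pow]
      have h5 := f0_le v
      calc (1 / k) ^ n * ∑ y : Fin d → G, ∑ x, f0 v x * (adj y)^[n] (f0 v) x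
          ≤ (1 / k) ^ n * (k ^ n * N ^ d * τ * ∑ x, f0 v x ^ 2) :=
            mul_le_mul_of_nonneg_left h2 (by positivity)
        _ = ((1 / k) ^ n * k ^ n) * (N ^ d * τ * ∑ x, f0 v x ^ 2) := by ring
        _ = N ^ d * τ * ∑ x, f0 v x ^ 2 := by rw [h4, one_mul]
        _ ≤ N ^ d * τ * (v ⬝ᵥ v) := mul_le_mul_of_nonneg_left h5 (by positivity))
  -- the two kinds of bad tuples
  have hcount : badCard G (s * d) (2 * d * s * θ + u * B) ≤
      (∑ g : Fin s, Nat.card {z : Fin s → Fin d → G // ¬ QB (z g) B}) +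
      Nat.card {z : Fin s → Fin d → G //
        (∀ g, ∀ v : G → ℝ, |v ⬝ᵥ Mm (z g) *ᵥ v| ≤ B / k * (v ⬝ᵥ v)) ∧
        ¬ ∀ v : G → ℝ, |v ⬝ᵥ (∑ g, Mm (z g)) *ᵥ v| ≤ (s * θ + u * (B / k)) * (v ⬝ᵥ v)} := by
    unfold badCard
    have e1 : Nat.card {y : Fin (s * d) → G // ¬ QB y (2 * d * s * θ + u * B)} =
        Nat.card {z : Fin s → Fin d → G //
          ¬ QB ((blk G s d).symm z) (2 * d * s * θ + u * B)} := by
      refine Nat.card_congr (Equiv.subtypeEquiv (blk G s d) fun y => ?_)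
      rw [Equiv.symm_apply_apply]
    rw [e1]
    simp only [Nat.card_eq_fintype_card, Fintype.card_subtype]
    refine (Finset.card_le_card (t := (Finset.univ.biUnion fun g : Fin s =>
      Finset.univ.filter fun z : Fin s → Fin d → G => ¬ QB (z g) B) ∪
      Finset.univ.filter fun z : Fin s → Fin d → G =>
        (∀ g, ∀ v : G → ℝ, |v ⬝ᵥ Mm (z g) *ᵥ v| ≤ B / k * (v ⬝ᵥ v)) ∧
        ¬ ∀ v : G → ℝ, |v ⬝ᵥ (∑ g, Mm (z g)) *ᵥ v| ≤
          (s * θ + u * (B / k)) * (v ⬝ᵥ v)) ?_).trans ?_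
    · intro z hz
      rw [Finset.mem_filter] at hz
      rw [Finset.mem_union]
      by_cases hq : ∀ g, QB (z g) B
      · right
        rw [Finset.mem_filter]
        refine ⟨Finset.mem_univ _, ?_, ?_⟩
        · intro g v
          rw [form_one hd]
          have h2 := hq g (f0 v) (f0_sum v)
          rw [abs_mul, abs_of_pos (by positivity : (0 : ℝ) < 1 / (2 * (d : ℝ)))]
          calc 1 / (2 * (d : ℝ)) * |∑ x, f0 v x * adj (z g) (f0 v) x|
              ≤ 1 / (2 * (d : ℝ)) * (B * ∑ x, f0 v x ^ 2) :=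
                mul_le_mul_of_nonneg_left h2 (by positivity)
            _ = B / k * ∑ x, f0 v x ^ 2 := by rw [hk]; ring
            _ ≤ B / k * (v ⬝ᵥ v) := mul_le_mul_of_nonneg_left (f0_le v) hB'
        · intro hall
          refine hz.2 fun f hf => ?_
          have h2 := hall f
          have h3 : f ⬝ᵥ (∑ g, Mm (z g)) *ᵥ f =
              (1 / k) * ∑ x, f x * adj ((blk G s d).symm z) f x := by
            rw [Matrix.sum_mulVec, dotProduct_sum]
            have h4 : ∀ g : Fin s, f ⬝ᵥ (Mm (z g)) *ᵥ f = (1 / k) * ∑ x, f x * adj (z g) f x := by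
              intro g
              rw [form_one hd, f0_of hf]
            rw [Finset.sum_congr rfl fun g _ => h4 g, ← Finset.mul_sum, Finset.sum_comm]
            congr 1
            refine Finset.sum_congr rfl fun x _ => ?_
            rw [blk_adj, Equiv.apply_symm_apply, Finset.mul_sum]
          have h5 : f ⬝ᵥ f = ∑ x, f x ^ 2 := by
            unfold dotProduct
            exact Finset.sum_congr rfl fun x _ => by ring
          rw [h3, h5, abs_mul, abs_of_pos (by positivity : (0 : ℝ) < 1 / k)] at h2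
          calc |∑ x, f x * adj ((blk G s d).symm z) f x|
              = k * (1 / k * |∑ x, f x * adj ((blk G s d).symm z) f x|) := by
                field_simp
            _ ≤ k * ((s * θ + u * (B / k)) * ∑ x, f x ^ 2) := mul_le_mul_of_nonneg_left h2 hk0.le
            _ = (2 * d * s * θ + u * B) * ∑ x, f x ^ 2 := by
                have h6 : k * (u * (B / k)) = u * B := by field_simp
                calc k * ((s * θ + u * (B / k)) * ∑ x, f x ^ 2)
                    = (k * s * θ + k * (u * (B / k))) * ∑ x, f x ^ 2 := by ring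
                  _ = _ := by rw [h6, hk]
      · left
        rw [not_forall] at hq
        obtain ⟨g, hg⟩ := hq
        rw [Finset.mem_biUnion]
        exact ⟨g, Finset.mem_univ _, Finset.mem_filter.2 ⟨Finset.mem_univ _, hg⟩⟩
    · refine (Finset.card_union_le _ _).trans ?_
      exact Nat.add_le_add_right Finset.card_biUnion_le _
  have hfirst : ((∑ g : Fin s, Nat.card {z : Fin s → Fin d → G // ¬ QB (z g) B} : ℕ) : ℝ) =
      s * badCard G d B * N ^ ((s - 1) * d) := by
    have h2 : ∀ g : Fin s, Nat.card {z : Fin s → Fin d → G // ¬ QB (z g) B} =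
        badCard G d B * Fintype.card (Fin d → G) ^ (s - 1) := by
      intro g
      exact card_coord s g (fun y => ¬ QB y B)
    rw [Finset.sum_congr rfl fun g _ => h2 g, Finset.sum_const, Finset.card_univ,
      Fintype.card_fin, smul_eq_mul]
    rw [show ((s - 1) * d : ℕ) = d * (s - 1) from Nat.mul_comm _ _, pow_mul, ← hY, Nat.cast_mul,
      Nat.cast_mul, Nat.cast_pow]
    ring
  have hYs : (Fintype.card (Fin d → G) : ℝ) ^ s = N ^ (s * d) := by
    rw [hY, ← pow_mul, Nat.mul_comm]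
  rw [hYs] at hone
  calc (badCard G (s * d) (2 * d * s * θ + u * B) : ℝ) ≤
      (((∑ g : Fin s, Nat.card {z : Fin s → Fin d → G // ¬ QB (z g) B}) +
        Nat.card {z : Fin s → Fin d → G //
        (∀ g, ∀ v : G → ℝ, |v ⬝ᵥ Mm (z g) *ᵥ v| ≤ B / k * (v ⬝ᵥ v)) ∧
        ¬ ∀ v : G → ℝ, |v ⬝ᵥ (∑ g, Mm (z g)) *ᵥ v| ≤
          (s * θ + u * (B / k)) * (v ⬝ᵥ v)} : ℕ) : ℝ) := Nat.cast_le.2 hcount
    _ = ((∑ g : Fin s, Nat.card {z : Fin s → Fin d → G // ¬ QB (z g) B} : ℕ) : ℝ) +
        (Nat.card {z : Fin s → Fin d → G //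
        (∀ g, ∀ v : G → ℝ, |v ⬝ᵥ Mm (z g) *ᵥ v| ≤ B / k * (v ⬝ᵥ v)) ∧
        ¬ ∀ v : G → ℝ, |v ⬝ᵥ (∑ g, Mm (z g)) *ᵥ v| ≤
          (s * θ + u * (B / k)) * (v ⬝ᵥ v)} : ℝ) := Nat.cast_add _ _
    _ ≤ _ := by
        rw [hfirst]
        exact add_le_add le_rfl hone

end Pool.Agent.RCG
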