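import Pool.Agent.RCG.Targets7
import Pool.Agent.RCG.AWS

set_option autoImplicit false

/-!
# STZ: one step of the exponential moment
-/

namespace Pool.Agent.RCG

open Finset Matrix

namespace STZ_

variable {ι : Type} [Fintype ι] [DecidableEq ι]

lemma herm_smul {M : Matrix ι ι ℝ} (hM : M.IsHermitian) (c : ℝ) : (c • M).IsHermitian := by
  unfold Matrix.IsHermitian
  rw [Matrix.conjTranspose_smul, hM.eq]
  simp

lemma exp_shift (A : Matrix ι ι ℝ) (c : ℝ) :
    NormedSpace.exp (A + c • (1 : Matrix ι ι ℝ)) = Real.exp c • NormedSpace.exp A := by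
  have h1 : Commute A (c • (1 : Matrix ι ι ℝ)) := (Commute.one_right A).smul_right c
  rw [Matrix.exp_add_of_commute _ _ h1, AWS_.exp_proj 1 (Matrix.one_mul 1) c]
  have h2 : (1 : Matrix ι ι ℝ) + (Real.exp c - 1) • (1 : Matrix ι ι ℝ) =
      Real.exp c • (1 : Matrix ι ι ℝ) := by
    rw [sub_smul, one_smul]
    abel
  rw [h2, Matrix.mul_smul, Matrix.mul_one]

end STZ_

open STZ_ in
theorem prove_STZ (h1 : T_GT) (h2 : T_EXZ) (h3 : T_TMO) (_h4 : T_SPE) : T_STZ := by
  intro ι Y _ _ _ S Z H θ z ν b hS hZ hH hθ hz hν hZz hZ0 hZ2 hHb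
  have hE : 0 ≤ Real.exp (θ * b) := (Real.exp_pos _).le
  have hG : 0 ≤ Real.exp (θ * z) / z ^ 2 := by positivity
  -- step 1: remove `H`
  have s1 : ∀ y, (NormedSpace.exp (θ • (S + Z y + H y))).trace ≤
      Real.exp (θ * b) * (NormedSpace.exp (θ • S + θ • Z y)).trace := by
    intro y
    have a1 : (θ • (S + Z y + H y)).IsHermitian := herm_smul ((hS.add (hZ y)).add (hH y)) θ
    have a2 : (θ • S + θ • Z y + (θ * b) • (1 : Matrix ι ι ℝ)).IsHermitian :=
      ((herm_smul hS θ).add (herm_smul (hZ y) θ)).add (herm_smul Matrix.isHermitian_one _)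
    have a3 := h3 ι _ _ a1 a2 (fun v => by
      have b1 := hHb y v
      have b2 := mul_le_mul_of_nonneg_left b1 hθ
      simp only [Matrix.add_mulVec, Matrix.smul_mulVec, smul_add, dotProduct_add,
        dotProduct_smul, smul_eq_mul, Matrix.one_mulVec]
      linarith)
    rw [exp_shift, Matrix.trace_smul, smul_eq_mul] at a3
    exact a3
  -- step 2: Golden-Thompson
  obtain ⟨R, hR, hRR⟩ := AWS_.half (θ • S) (herm_smul hS θ)
  have s2 : ∀ y, (NormedSpace.exp (θ • S + θ • Z y)).trace ≤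
      (R * R * NormedSpace.exp (θ • Z y)).trace := by
    intro y
    rw [hRR]
    exact h1 ι _ _ (herm_smul hS θ) (herm_smul (hZ y) θ)
  -- step 3: the sum over `y`
  have s3 : (R * R * ∑ y, NormedSpace.exp (θ • Z y)).trace ≤
      (Fintype.card Y * (1 + Real.exp (θ * z) / z ^ 2 * ν)) * (R * R).trace := by
    refine AWS_.tr_le R _ hR _ fun v => ?_
    rw [Matrix.sum_mulVec, dotProduct_sum]
    have c1 : ∑ y, v ⬝ᵥ (NormedSpace.exp (θ • Z y)) *ᵥ v ≤
        ∑ y, (v ⬝ᵥ v + θ * (v ⬝ᵥ Z y *ᵥ v) +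
          Real.exp (θ * z) / z ^ 2 * (v ⬝ᵥ (Z y * Z y) *ᵥ v)) :=
      Finset.sum_le_sum fun y _ => h2 ι (Z y) z θ (hZ y) hz hθ (hZz y) v
    have c2 : ∑ y, v ⬝ᵥ Z y *ᵥ v = 0 := by
      rw [← dotProduct_sum, ← Matrix.sum_mulVec, hZ0]
      simp
    have c3 := mul_le_mul_of_nonneg_left (hZ2 v) hG
    rw [Finset.sum_add_distrib, Finset.sum_add_distrib, Finset.sum_const, Finset.card_univ,
      nsmul_eq_mul, ← Finset.mul_sum, ← Finset.mul_sum, c2] at c1
    refine c1.trans ?_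
    have c4 : (Fintype.card Y : ℝ) * (1 + Real.exp (θ * z) / z ^ 2 * ν) * (v ⬝ᵥ v) =
        Fintype.card Y * (v ⬝ᵥ v) + θ * 0 +
          Real.exp (θ * z) / z ^ 2 * (Fintype.card Y * ν * (v ⬝ᵥ v)) := by ring
    rw [c4]
    linarith
  calc ∑ y, (NormedSpace.exp (θ • (S + Z y + H y))).trace
      ≤ ∑ y, Real.exp (θ * b) * (R * R * NormedSpace.exp (θ • Z y)).trace :=
        Finset.sum_le_sum fun y _ => (s1 y).trans (mul_le_mul_of_nonneg_left (s2 y) hE)
    _ = Real.exp (θ * b) * (R * R * ∑ y, NormedSpace.exp (θ • Z y)).trace := by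
        rw [← Finset.mul_sum, Matrix.mul_sum, Matrix.trace_sum]
    _ ≤ Real.exp (θ * b) *
        ((Fintype.card Y * (1 + Real.exp (θ * z) / z ^ 2 * ν)) * (R * R).trace) :=
        mul_le_mul_of_nonneg_left s3 hE
    _ = Fintype.card Y * Real.exp (θ * b) * (1 + Real.exp (θ * z) / z ^ 2 * ν) *
        (NormedSpace.exp (θ • S)).trace := by
        rw [hRR]
        ring

end Pool.Agent.RCG
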