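import Pool.Agent.RCG.Targets

set_option autoImplicit false

/-!
# RCG-SZG: a Schwartz-Zippel bound for words, the general part

`main`: if over every field every matrix of determinant one is a product of `E` elementary
matrices at fixed positions, then `T_SZ m E`.
-/

namespace Pool.Agent.RCG

open Finset Matrix

namespace SZG_

/-- words are natural -/
theorem ev_map {G H : Type*} [Group G] [Group H] (φ : G →* H) {d n : ℕ} (y : Fin d → G)
    (w : Fin n → Ltr d) : φ (ev y w) = ev (fun j => φ (y j)) w := by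
  unfold ev
  exact FreeGroup.lift_unique (φ.comp (FreeGroup.lift y)) (fun j => by simp)

/-- an elementary matrix -/
def el {m : ℕ} {R : Type} [CommRing R] (ij : Fin m × Fin m) (h : ij.1 ≠ ij.2) (t : R) :
    SpecialLinearGroup (Fin m) R :=
  ⟨Matrix.transvection ij.1 ij.2 t, Matrix.det_transvection_of_ne _ _ h t⟩

/-- a product of elementary matrices at fixed positions -/
def xx {m E : ℕ} (pos : Fin E → Fin m × Fin m) (hpos : ∀ e, (pos e).1 ≠ (pos e).2) {R : Type}
    [CommRing R] (t : Fin E → R) : SpecialLinearGroup (Fin m) R :=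
  (List.ofFn fun e => el (pos e) (hpos e) (t e)).prod

theorem map_el {m : ℕ} {R S : Type} [CommRing R] [CommRing S] (f : R →+* S)
    (ij : Fin m × Fin m) (h : ij.1 ≠ ij.2) (t : R) :
    Matrix.SpecialLinearGroup.map f (el ij h t) = el ij h (f t) := by
  ext a b
  simp only [Matrix.SpecialLinearGroup.map_apply_coe, RingHom.mapMatrix_apply, Matrix.map_apply, el,
    Matrix.transvection, Matrix.add_apply, Matrix.one_apply, Matrix.single_apply, map_add]
  split_ifs <;> simp

theorem map_xx {m E : ℕ} (pos : Fin E → Fin m × Fin m) (hpos : ∀ e, (pos e).1 ≠ (pos e).2)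
    {R S : Type} [CommRing R] [CommRing S] (f : R →+* S) (t : Fin E → R) :
    Matrix.SpecialLinearGroup.map f (xx pos hpos t) = xx pos hpos (fun e => f (t e)) := by
  unfold xx
  rw [map_list_prod, List.map_ofFn]
  congr 2
  funext e
  exact map_el f _ _ _

/-! ### degrees -/

theorem totalDegree_aeval_le {σ τ F : Type} [Fintype σ] [Field F] (Q : MvPolynomial σ F)
    (g : σ → MvPolynomial τ F) (D : ℕ) (hg : ∀ i, (g i).totalDegree ≤ D) :
    (MvPolynomial.aeval g Q).totalDegree ≤ D * Q.totalDegree := by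
  rw [MvPolynomial.aeval_def, MvPolynomial.eval₂_eq']
  refine MvPolynomial.totalDegree_finsetSum_le fun s hs => ?_
  refine (MvPolynomial.totalDegree_mul _ _).trans ?_
  have h0 : (algebraMap F (MvPolynomial τ F) (Q.coeff s)).totalDegree = 0 :=
    MvPolynomial.totalDegree_C _
  rw [h0, zero_add]
  refine (MvPolynomial.totalDegree_finsetProd _ _).trans ?_
  calc ∑ i, (g i ^ s i).totalDegree ≤ ∑ i, D * s i := by
        refine Finset.sum_le_sum fun i _ => (MvPolynomial.totalDegree_pow _ _).trans ?_
        rw [mul_comm]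
        exact Nat.mul_le_mul_right _ (hg i)
    _ = D * ∑ i, s i := (Finset.mul_sum ..).symm
    _ ≤ D * Q.totalDegree := by
        refine Nat.mul_le_mul_left _ ?_
        have := MvPolynomial.le_totalDegree hs
        rwa [Finsupp.sum_fintype _ _ (fun _ => rfl)] at this

section
variable {m : ℕ} {τ F : Type} [Field F]

/-- all entries of the matrix have total degree at most `k` -/
def Dg (A : SpecialLinearGroup (Fin m) (MvPolynomial τ F)) (k : ℕ) : Prop :=
  ∀ i j, (A.1 i j).totalDegree ≤ k

theorem Dg.mul {A B : SpecialLinearGroup (Fin m) (MvPolynomial τ F)} {a b : ℕ} (hA : Dg A a)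
    (hB : Dg B b) : Dg (A * B) (a + b) := by
  intro i j
  have h : (A * B).1 i j = ∑ k, A.1 i k * B.1 k j :=
    (congrFun (congrFun (Matrix.SpecialLinearGroup.coe_mul A B) i) j).trans (Matrix.mul_apply ..)
  rw [h]
  refine MvPolynomial.totalDegree_finsetSum_le fun k _ => ?_
  exact (MvPolynomial.totalDegree_mul _ _).trans (add_le_add (hA i k) (hB k j))

/-- the matrix and its inverse -/
def Dg2 (A : SpecialLinearGroup (Fin m) (MvPolynomial τ F)) (k : ℕ) : Prop := Dg A k ∧ Dg A⁻¹ k

theorem Dg2.mul {A B : SpecialLinearGroup (Fin m) (MvPolynomial τ F)} {a b : ℕ} (hA : Dg2 A a)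
    (hB : Dg2 B b) : Dg2 (A * B) (a + b) := by
  refine ⟨hA.1.mul hB.1, ?_⟩
  rw [_root_.mul_inv_rev, add_comm]
  exact hB.2.mul hA.2

theorem Dg2.inv {A : SpecialLinearGroup (Fin m) (MvPolynomial τ F)} {a : ℕ} (hA : Dg2 A a) :
    Dg2 A⁻¹ a := ⟨hA.2, by rw [inv_inv]; exact hA.1⟩

theorem Dg2.one : Dg2 (1 : SpecialLinearGroup (Fin m) (MvPolynomial τ F)) 0 := by
  have h : Dg (1 : SpecialLinearGroup (Fin m) (MvPolynomial τ F)) 0 := by
    intro i j
    have h1 : (1 : SpecialLinearGroup (Fin m) (MvPolynomial τ F)).1 i j =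
        if i = j then 1 else 0 :=
      (congrFun (congrFun Matrix.SpecialLinearGroup.coe_one i) j).trans (Matrix.one_apply ..)
    rw [h1]
    split_ifs <;> simp
  exact ⟨h, by rw [inv_one]; exact h⟩

theorem Dg2.const (y : SpecialLinearGroup (Fin m) F) :
    Dg2 (Matrix.SpecialLinearGroup.map (MvPolynomial.C (σ := τ) (R := F)) y) 0 := by
  have h : ∀ y : SpecialLinearGroup (Fin m) F,
      Dg (Matrix.SpecialLinearGroup.map (MvPolynomial.C (σ := τ) (R := F)) y) 0 := by
    intro y i j
    simp only [Matrix.SpecialLinearGroup.map_apply_coe, RingHom.mapMatrix_apply, Matrix.map_apply]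
    rw [MvPolynomial.totalDegree_C]
  exact ⟨h y, by rw [← map_inv]; exact h y⁻¹⟩

theorem el_inv {R : Type} [CommRing R] (ij : Fin m × Fin m) (h : ij.1 ≠ ij.2) (t : R) :
    (el ij h t)⁻¹ = el ij h (-t) := by
  symm
  apply eq_inv_of_mul_eq_one_left
  apply Subtype.ext
  have h1 : Matrix.transvection ij.1 ij.2 (-t) * Matrix.transvection ij.1 ij.2 t = 1 := by
    rw [Matrix.transvection_mul_transvection_same _ _ h, neg_add_cancel,
      Matrix.transvection_zero]
  exact h1

theorem Dg2.el {ij : Fin m × Fin m} {h : ij.1 ≠ ij.2} {t : MvPolynomial τ F}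
    (ht : t.totalDegree ≤ 1) : Dg2 (el ij h t) 1 := by
  have key : ∀ t : MvPolynomial τ F, t.totalDegree ≤ 1 → Dg (SZG_.el ij h t) 1 := by
    intro t ht a b
    show ((1 + Matrix.single ij.1 ij.2 t : Matrix _ _ _) a b).totalDegree ≤ 1
    rw [Matrix.add_apply]
    refine (MvPolynomial.totalDegree_add _ _).trans (max_le ?_ ?_)
    · rw [Matrix.one_apply]
      split_ifs <;> simp
    · rw [Matrix.single_apply]
      split_ifs
      · exact ht
      · simp
  refine ⟨key t ht, ?_⟩
  rw [el_inv]
  exact key _ (by rwa [MvPolynomial.totalDegree_neg])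

theorem Dg2.listProd {k : ℕ} : ∀ L : List (SpecialLinearGroup (Fin m) (MvPolynomial τ F)),
    (∀ A ∈ L, Dg2 A k) → Dg2 L.prod (k * L.length)
  | [], _ => by simpa using Dg2.one
  | A :: L, h => by
    have h1 : Dg2 A k := h A (by simp)
    have h2 := Dg2.listProd L fun B hB => h B (by simp [hB])
    have h3 := h1.mul h2
    rw [List.prod_cons, List.length_cons]
    have e : k * (L.length + 1) = k + k * L.length := by ring
    rw [e]
    exact h3

theorem Dg2.xx {E : ℕ} {pos : Fin E → Fin m × Fin m} {hpos : ∀ e, (pos e).1 ≠ (pos e).2}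
    {t : Fin E → MvPolynomial τ F} (ht : ∀ e, (t e).totalDegree ≤ 1) :
    Dg2 (xx pos hpos t) E := by
  have h := Dg2.listProd (k := 1) (List.ofFn fun e => SZG_.el (pos e) (hpos e) (t e)) (by
    intro A hA
    obtain ⟨e, rfl⟩ := List.mem_ofFn.1 hA
    exact Dg2.el (ht e))
  rw [List.length_ofFn, one_mul] at h
  exact h

theorem Dg2.ev {d n k : ℕ} {y : Fin d → SpecialLinearGroup (Fin m) (MvPolynomial τ F)}
    (hy : ∀ j, Dg2 (y j) k) (w : Fin n → Ltr d) : Dg2 (ev y w) (k * n) := by
  unfold RCG.ev
  rw [FreeGroup.lift_mk]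
  have h := Dg2.listProd (k := k) (List.map (fun x : Ltr d => cond x.2 (y x.1) (y x.1)⁻¹)
    (List.ofFn w)) (by
    intro A hA
    obtain ⟨x, _, rfl⟩ := List.mem_map.1 hA
    cases x.2
    · exact (hy _).inv
    · exact hy _)
  rw [List.length_map, List.length_ofFn] at h
  exact h

end

/-- the bound for a fixed base point -/
theorem one_base {m E : ℕ} (pos : Fin E → Fin m × Fin m) (hpos : ∀ e, (pos e).1 ≠ (pos e).2)
    (hfac : ∀ (K : Type) [Field K] (g : SpecialLinearGroup (Fin m) K), ∃ t, xx pos hpos t = g)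
    (p : ℕ) [Fact p.Prime] (d n : ℕ) (w : Fin n → Ltr d)
    (Q : MvPolynomial (Fin m × Fin m) (ZMod p)) (K : Type) [Field K] [Algebra (ZMod p) K]
    (z : Fin d → Matrix.SpecialLinearGroup (Fin m) K)
    (hz : MvPolynomial.aeval (fun ij : Fin m × Fin m => (ev z w).1 ij.1 ij.2) Q ≠ 0)
    (y0 : Fin d → SL m p) :
    (p : ℝ) * Nat.card {t : Fin (d * E) → ZMod p // MvPolynomial.eval
      (fun ij : Fin m × Fin m => (ev (fun j => xx pos hpos
        (fun e => t (finProdFinEquiv (j, e))) * y0 j) w).1 ij.1 ij.2) Q = 0} ≤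
      E * n * Q.totalDegree * (p : ℝ) ^ (d * E) := by
  classical
  let R : Type := MvPolynomial (Fin (d * E)) (ZMod p)
  let Z : Fin d → SpecialLinearGroup (Fin m) (MvPolynomial (Fin (d * E)) (ZMod p)) := fun j =>
    xx pos hpos (fun e => MvPolynomial.X (finProdFinEquiv (j, e))) *
      Matrix.SpecialLinearGroup.map (MvPolynomial.C (σ := Fin (d * E)) (R := ZMod p)) (y0 j)
  let P : MvPolynomial (Fin (d * E)) (ZMod p) :=
    MvPolynomial.aeval (fun ij : Fin m × Fin m => (ev Z w).1 ij.1 ij.2) Q
  have hZ : ∀ j, Dg2 (Z j) E := by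
    intro j
    have h1 : Dg2 (xx pos hpos (fun e => (MvPolynomial.X (finProdFinEquiv (j, e)) :
        MvPolynomial (Fin (d * E)) (ZMod p)))) E :=
      Dg2.xx fun e => (MvPolynomial.totalDegree_X _).le
    have h2 := h1.mul (Dg2.const (τ := Fin (d * E)) (y0 j))
    rwa [add_zero] at h2
  have hdeg : P.totalDegree ≤ E * n * Q.totalDegree :=
    totalDegree_aeval_le Q _ (E * n) fun ij => (Dg2.ev hZ w).1 ij.1 ij.2
  -- the value of P at a point
  have hval : ∀ t : Fin (d * E) → ZMod p, MvPolynomial.eval t P = MvPolynomial.eval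
      (fun ij : Fin m × Fin m => (ev (fun j => xx pos hpos
        (fun e => t (finProdFinEquiv (j, e))) * y0 j) w).1 ij.1 ij.2) Q := by
    intro t
    have h1 : Matrix.SpecialLinearGroup.map (MvPolynomial.eval t) (ev Z w) =
        ev (fun j => xx pos hpos (fun e => t (finProdFinEquiv (j, e))) * y0 j) w := by
      rw [ev_map]
      congr 1
      funext j
      show Matrix.SpecialLinearGroup.map (MvPolynomial.eval t) (xx pos hpos _ * _) = _
      rw [map_mul, map_xx]
      congr 1
      · congr 1
        funext e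
        exact MvPolynomial.eval_X _
      · ext a b
        simp
    rw [← h1]
    show MvPolynomial.eval t (MvPolynomial.aeval _ Q) = _
    have h2 : ∀ (g : Fin m × Fin m → MvPolynomial (Fin (d * E)) (ZMod p)),
        MvPolynomial.eval t (MvPolynomial.aeval g Q) =
        MvPolynomial.eval (fun ij => MvPolynomial.eval t (g ij)) Q := by
      intro g
      have h3 := MvPolynomial.comp_aeval_apply
        (φ := (MvPolynomial.aeval t : MvPolynomial (Fin (d * E)) (ZMod p) →ₐ[ZMod p] ZMod p)) g Q
      simpa [MvPolynomial.coe_aeval_eq_eval] using h3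
    rw [h2]
    congr 1
  -- P does not vanish
  have hP : P ≠ 0 := by
    intro h0
    have hch : ∀ j, ∃ t : Fin E → K, xx pos hpos t =
        z j * (Matrix.SpecialLinearGroup.map (algebraMap (ZMod p) K) (y0 j))⁻¹ := fun j => hfac K _
    choose t ht using hch
    let τ : Fin (d * E) → K := fun i => t (finProdFinEquiv.symm i).1 (finProdFinEquiv.symm i).2
    let ψ : MvPolynomial (Fin (d * E)) (ZMod p) →ₐ[ZMod p] K := MvPolynomial.aeval τ
    have h1 : Matrix.SpecialLinearGroup.map (ψ : MvPolynomial (Fin (d * E)) (ZMod p) →+* K) (ev Z w) =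
        ev z w := by
      rw [ev_map]
      congr 1
      funext j
      show Matrix.SpecialLinearGroup.map _ (xx pos hpos _ * _) = _
      rw [map_mul, map_xx]
      have h3 : (fun e => (ψ : MvPolynomial (Fin (d * E)) (ZMod p) →+* K)
          (MvPolynomial.X (finProdFinEquiv (j, e)))) = t j := by
        funext e
        show MvPolynomial.aeval τ (MvPolynomial.X _) = _
        rw [MvPolynomial.aeval_X]
        show t (finProdFinEquiv.symm (finProdFinEquiv (j, e))).1 _ = _
        rw [Equiv.symm_apply_apply]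
      rw [h3, ht]
      have h4 : Matrix.SpecialLinearGroup.map (ψ : MvPolynomial (Fin (d * E)) (ZMod p) →+* K)
          (Matrix.SpecialLinearGroup.map (MvPolynomial.C (σ := Fin (d * E)) (R := ZMod p)) (y0 j)) =
          Matrix.SpecialLinearGroup.map (algebraMap (ZMod p) K) (y0 j) := by
        ext a b
        simp only [Matrix.SpecialLinearGroup.map_apply_coe, RingHom.mapMatrix_apply, Matrix.map_apply]
        show MvPolynomial.aeval τ (MvPolynomial.C _) = _
        rw [MvPolynomial.aeval_C]
      rw [h4, inv_mul_cancel_right]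
    apply hz
    have h2 : ψ P = MvPolynomial.aeval (fun ij : Fin m × Fin m => (ev z w).1 ij.1 ij.2) Q := by
      show ψ (MvPolynomial.aeval _ Q) = _
      rw [← h1, MvPolynomial.comp_aeval_apply]
      rfl
    rw [← h2, h0, map_zero]
  have hsz := MvPolynomial.schwartz_zippel_totalDegree hP (Finset.univ : Finset (ZMod p))
  have hp0 : (0 : ℝ) < p := by exact_mod_cast (Fact.out : p.Prime).pos
  rw [Fintype.piFinset_univ, Finset.card_univ, ZMod.card] at hsz
  have hcard : Nat.card {t : Fin (d * E) → ZMod p // MvPolynomial.eval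
      (fun ij : Fin m × Fin m => (ev (fun j => xx pos hpos
        (fun e => t (finProdFinEquiv (j, e))) * y0 j) w).1 ij.1 ij.2) Q = 0} =
      #{f ∈ (Finset.univ : Finset (Fin (d * E) → ZMod p)) | MvPolynomial.eval f P = 0} := by
    rw [Nat.card_eq_fintype_card, Fintype.card_subtype]
    congr 1
    ext t
    simp only [Finset.mem_filter, hval]
  rw [hcard]
  have hsz' : ((#{f ∈ (Finset.univ : Finset (Fin (d * E) → ZMod p)) |
      MvPolynomial.eval f P = 0} : ℕ) : ℝ) / (p : ℝ) ^ (d * E) ≤ (P.totalDegree : ℝ) / p := by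
    have := (NNRat.cast_le (K := ℝ)).2 hsz
    push_cast at this
    exact this
  rw [div_le_div_iff₀ (by positivity) hp0] at hsz'
  have hd : (P.totalDegree : ℝ) ≤ E * n * Q.totalDegree := by exact_mod_cast hdeg
  calc (p : ℝ) * _ = _ * (p : ℝ) := mul_comm _ _
    _ ≤ (P.totalDegree : ℝ) * (p : ℝ) ^ (d * E) := hsz'
    _ ≤ _ := mul_le_mul_of_nonneg_right hd (by positivity)

theorem main {m E : ℕ} (pos : Fin E → Fin m × Fin m) (hpos : ∀ e, (pos e).1 ≠ (pos e).2)
    (hfac : ∀ (K : Type) [Field K] (g : SpecialLinearGroup (Fin m) K),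
      ∃ t : Fin E → K, xx pos hpos t = g) : T_SZ m E := by
  classical
  intro p hp d n w Q K _ _ z hz
  have hone := one_base pos hpos hfac p d n w Q K z hz
  set Bad : (Fin d → SL m p) → Prop := fun y =>
    MvPolynomial.eval (fun ij : Fin m × Fin m => (ev y w).1 ij.1 ij.2) Q = 0 with hBad
  let act : (Fin (d * E) → ZMod p) → (Fin d → SL m p) → (Fin d → SL m p) := fun t y j =>
    xx pos hpos (fun e => t (finProdFinEquiv (j, e))) * y j
  have hp0 : (0 : ℝ) < p := by exact_mod_cast (Fact.out : p.Prime).pos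
  have hbij : ∀ t, Function.Bijective (act t) := by
    intro t
    have h1 : act t = fun y => (fun j => xx pos hpos (fun e => t (finProdFinEquiv (j, e)))) * y := by
      funext y j
      rfl
    rw [h1]
    exact Group.mulLeft_bijective _
  have hN : (Nat.card {y : Fin d → SL m p // Bad y} : ℝ) = ∑ y, if Bad y then (1 : ℝ) else 0 := by
    rw [Nat.card_eq_fintype_card, Fintype.card_subtype, Finset.sum_boole]
  have hT : ∀ y, (Nat.card {t : Fin (d * E) → ZMod p // Bad (act t y)} : ℝ) =
      ∑ t, if Bad (act t y) then (1 : ℝ) else 0 := by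
    intro y
    rw [Nat.card_eq_fintype_card, Fintype.card_subtype, Finset.sum_boole]
  have hswap : ∑ y, ∑ t : Fin (d * E) → ZMod p, (if Bad (act t y) then (1 : ℝ) else 0) =
      (p : ℝ) ^ (d * E) * Nat.card {y : Fin d → SL m p // Bad y} := by
    rw [Finset.sum_comm]
    have h1 : ∀ t : Fin (d * E) → ZMod p, ∑ y, (if Bad (act t y) then (1 : ℝ) else 0) =
        Nat.card {y : Fin d → SL m p // Bad y} := by
      intro t
      rw [hN]
      exact Function.Bijective.sum_comp (hbij t) (fun y => if Bad y then (1 : ℝ) else 0)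
    rw [Finset.sum_congr rfl fun t _ => h1 t, Finset.sum_const, nsmul_eq_mul, Finset.card_univ,
      Fintype.card_fun, ZMod.card, Fintype.card_fin]
    push_cast
    ring
  have hle : (p : ℝ) * ((p : ℝ) ^ (d * E) * Nat.card {y : Fin d → SL m p // Bad y}) ≤
      (E * n * Q.totalDegree * (Fintype.card (SL m p) : ℝ) ^ d) * (p : ℝ) ^ (d * E) := by
    rw [← hswap, Finset.mul_sum]
    calc ∑ y, (p : ℝ) * ∑ t : Fin (d * E) → ZMod p, (if Bad (act t y) then (1 : ℝ) else 0)
        ≤ ∑ _y : Fin d → SL m p, (E * n * Q.totalDegree * (p : ℝ) ^ (d * E) : ℝ) := by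
          refine Finset.sum_le_sum fun y _ => ?_
          rw [← hT]
          exact hone y
      _ = _ := by
          rw [Finset.sum_const, nsmul_eq_mul, Finset.card_univ, Fintype.card_fun,
            Fintype.card_fin]
          push_cast
          ring
  have hpp : (0 : ℝ) < (p : ℝ) ^ (d * E) := by positivity
  have h2 : ((p : ℝ) * Nat.card {y : Fin d → SL m p // Bad y}) * (p : ℝ) ^ (d * E) ≤
      (E * n * Q.totalDegree * (Fintype.card (SL m p) : ℝ) ^ d) * (p : ℝ) ^ (d * E) := by
    calc _ = (p : ℝ) * ((p : ℝ) ^ (d * E) * Nat.card {y : Fin d → SL m p // Bad y}) := by ring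
      _ ≤ _ := hle
  exact le_of_mul_le_mul_right h2 hpp

end SZG_

end Pool.Agent.RCG
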