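import Pool.Agent.RCG.Targets9

set_option autoImplicit false

/-!
# RCG: tenth group of targets (end of RCG8)
-/

namespace Pool.Agent.RCG

open Finset Matrix

/-- CHS (choice of the parameters; real analysis). Put `x = 2 + δ`, `e = δ/2`, so `l0 = x √k`,
`l0 - R = e √k`; `a = x - √(x² - 4) < x`. With `k1 = 2 d1 = k/(s+1)` everything is homogeneous:
`√k ((l0 - √(l0² - 4k))/(2k)) = a/2`, `√k (2√k)^q/(l0^q (l0-R)) = (2/x)^q/e`,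
`√k pol q l0 R (C √k) = Γ := sum_(m<q) C^m/x^(m+1) + C^q/(x^q e)` (independent of `k`). So
`κ = (√k/(s+1)) (a/2 + (2/x)^q/e + η)`, `η = (s+1) C2 Γ (1 + √k1) (log k)/k -> 0` as `k -> ∞`, and
`(s+1) rr/√k = (s+1) C1 (log k)/√k + 2 (√(a/2 + (2/x)^q/e + η) + C²/(e^(3/2) √(s+1)))² +
C³/(e² √(s+1))`. Choose first `q` even with `a + 2 (2/x)^q/e < x`, then `s` with
`2 (√(a/2 + (2/x)^q/e) + C²/(e^(3/2) √(s+1)))² + C³/(e² √(s+1)) < x` (the left side tends to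
`a + 2 (2/x)^q/e` as `s -> ∞`), then `D` (the rest tends to `0` as `k -> ∞`). -/
def T_CHS : Prop := ∀ δ C C1 C2 : ℝ, 0 < δ → 0 < C → 0 < C1 → 0 < C2 → ∃ s q D : ℕ,
  1 ≤ s ∧ 1 ≤ D ∧ Even q ∧ 2 ≤ q ∧
  ∀ d1 : ℕ, D ≤ d1 → ∀ k l0 R : ℝ, k = 2 * (((s : ℝ) + 1) * d1) → l0 = (2 + δ) * √k →
    R = (2 + δ / 2) * √k →
    ((s : ℝ) + 1) * rr l0 R (C * √(2 * (d1 : ℝ))) (C1 * Real.log k)
      (2 * d1 * ((l0 - √(l0 ^ 2 - 4 * k)) / (2 * k) + (2 * √k) ^ q / (l0 ^ q * (l0 - R))) +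
        C2 * pol q l0 R (C * √k) * (1 + √(2 * (d1 : ℝ))) * Real.log k) < l0

/-- GNR. Hypothesis `T_GIR`, union over the lengths `m <= n`. -/
def T_GNR : Prop := ∀ (p : ℕ) [Fact p.Prime] (d n : ℕ), 2 * d < p → 1 ≤ d →
  (p : ℝ) * Nat.card {y : Fin d → SL 2 p // ∃ m ≤ n, Rel m y} ≤
    8 * ((n : ℝ) + 1) ^ 2 * (2 * (d : ℝ)) ^ n * (Fintype.card (SL 2 p) : ℝ) ^ d

end Pool.Agent.RCG
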