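import Pool.Agent.RCG.Targets12

set_option autoImplicit false

/-!
# RCG: thirteenth group of targets (RCG10: all eigenvalues at most `2 √k + C k^(3/7)`)

Write the proof of `T_XXX` in a new file `Pool/Agent/RCG/XXX.lean`:
`theorem prove_XXX (h : T_YYY) ... : T_XXX`, helper lemmas in a sub-namespace `XXX_`.
-/

namespace Pool.Agent.RCG

open Finset Matrix

/-- FN1Q. Hypotheses `T_CAT`, `T_KES`. This is `T_FN1` with a constant `C ≥ 2` instead of `364`,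
same proof (`FN1.lean`). -/
def T_FN1Q : Prop := ∀ (δ C k l0 R : ℝ) (d q : ℕ), 0 < δ → 2 ≤ C → 4 ≤ k → 1 ≤ d →
  2 * (d : ℝ) ≤ k → l0 = (2 + δ) * √k → R = (2 + δ / 2) * √k →
  0 < pol q l0 R (C * √k) ∧
  (∀ σ : ℝ, (σ = 1 ∨ σ = -1) → |∑ m ∈ range (q + 1), cf q l0 R m * σ ^ m * (tw d m : ℝ)| ≤
    (l0 - √(l0 ^ 2 - 4 * k)) / (2 * k) + (2 * √k) ^ q / (l0 ^ q * (l0 - R))) ∧
  (l0 - √(l0 ^ 2 - 4 * k)) / (2 * k) + (2 * √k) ^ q / (l0 ^ q * (l0 - R)) ≤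
    3 * pol q l0 R (C * √k)

/-- FRHQ: `T_FRH` with explicit constants and with the bound `C √k` for `y'`. -/
def T_FRHQ : Prop := ∀ (δ C C1 : ℝ), 0 < δ → 2 ≤ C → C1 = 40 + 80 / Real.log (1 + δ / 4) →
  ∀ (d' d1 q : ℕ) (k l0 R : ℝ), 1 ≤ d' → 1 ≤ d1 → Even q → k = 2 * ((d' : ℝ) + d1) →
    l0 = (2 + δ) * √k → R = (2 + δ / 2) * √k →
    ∃ K P : ℝ, ∀ (p : ℕ) [Fact p.Prime], P ≤ p → ∃ n : ℕ, Even n ∧ 2 ≤ n ∧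
      8 * ((n : ℝ) + 1) ^ 2 * k ^ n / p ≤ K * (p : ℝ) ^ (-(1 / 3 : ℝ)) ∧
      ∀ y' : Fin d' → SL 2 p, (∀ m ≤ n, ¬ Rel m y') → QB y' (C * √k) →
        ∀ Q : Matrix (SL 2 p) (SL 2 p) ℝ, Pj Q → LI Q → NB Q (nu7 d' n p R) →
          (Nat.card {a : Fin d1 → SL 2 p //
              ¬ Frs Q y' a q l0 R (C1 * Real.log k) (kap d1 q k l0 R C (728 * C1))} : ℝ) ≤
            K * (p : ℝ) ^ (-(1 / 3 : ℝ)) * (Fintype.card (SL 2 p) : ℝ) ^ d1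

/-- FRCQ: same proof as `prove_FRC` (`FRC.lean`; its `C3` is not used; the tails of the block `a`
keep the constant `364`, only the bound for `y'` and the polynomial have `C`). -/
def T_FRCQ : Prop := T_FRESH → T_NUB → T_FN1Q → T_PBD → T_FRHQ

/-- GD9Q. Hypotheses `T_FRHQ`, `T_CNB`, `T_DIV`, `T_GNR`, `T_FN7`. Same proof as `prove_GD9`
(`GD9.lean`), for given parameters; `B2 = C √k`, the bound for `badCard (s * d1) (C √k)` is the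
last hypothesis. -/
def T_GD9Q : Prop := ∀ (δ C C1 : ℝ) (s q d1 : ℕ), 0 < δ → 2 ≤ C →
  C1 = 40 + 80 / Real.log (1 + δ / 4) → 1 ≤ s → 1 ≤ d1 → Even q →
  (∀ k l0 R : ℝ, k = 2 * (((s : ℝ) + 1) * d1) → l0 = (2 + δ) * √k → R = (2 + δ / 2) * √k →
    ((s : ℝ) + 1) * rr l0 R (364 * √(2 * (d1 : ℝ))) (C1 * Real.log k)
      (kap d1 q k l0 R C (728 * C1)) < l0) →
  Good G2 (fun p => (p.1 : ℝ)) (s * d1) (C * √(2 * (((s : ℝ) + 1) * (d1 : ℝ)))) (1 / 3) →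
  Good G2 (fun p => (p.1 : ℝ)) ((s + 1) * d1)
    ((2 + δ) * √(2 * (((s : ℝ) + 1) * (d1 : ℝ)))) (1 / 3)

/-! ## Real analysis -/

/-- CHA (choice of `q`). The least even `q` with `16/t³ <= (1 + t²/2)^q`; then
`(1 + t²/2)^(q-2) < 16/t³` and `(1 + t²/2)² <= 1.27`. For the last bound:
`q log (1 + t²/2) <= log (25/t³) <= 3 log (3/t) <= 3 (3/t - 1) <= 9/t` and
`log (1 + t²/2) >= (t²/2)/(1 + t²/2) >= t²/2.25` (`Real.one_sub_inv_le_log_of_pos`). -/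
def T_CHA : Prop := ∀ t : ℝ, 0 < t → t ≤ 1 / 2 → ∃ q : ℕ, Even q ∧ 2 ≤ q ∧
  16 / t ^ 3 ≤ (1 + t ^ 2 / 2) ^ q ∧ (1 + t ^ 2 / 2) ^ q ≤ 25 / t ^ 3 ∧ (q : ℝ) ≤ 21 / t ^ 3

/-- CHB (bound for `Γ`). `(2 + 5/4 t²)/(2 + t²) <= 1 + t²/8`, `(1 + t²/8)³ <= 1 + t²/2`, so
`((1 + t²/8)^q)³ <= 25/t³ <= (3/t)³`, `(1 + t²/8)^q <= 3/t`. Each of the `q` terms of the sum is
at most `(3/t)/2`, the last term is at most `(3/t)/(t²/2)`: total at most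
`31.5/t⁴ + 6/t³ <= 36/t⁴`. -/
def T_CHB : Prop := ∀ (t : ℝ) (q : ℕ), 0 < t → t ≤ 1 / 2 → (1 + t ^ 2 / 2) ^ q ≤ 25 / t ^ 3 →
  (q : ℝ) ≤ 21 / t ^ 3 →
  ∑ m ∈ range q, (2 + 5 / 4 * t ^ 2) ^ m / (2 + t ^ 2) ^ (m + 1) +
    (2 + 5 / 4 * t ^ 2) ^ q / ((2 + t ^ 2) ^ q * (t ^ 2 / 2)) ≤ 36 / t ^ 4

/-- CHC. Put `u = k^(1/28)`, `z = u t`. `z^28 >= 10^51 >= 66^28`, so `z >= 66`; `√k = u^14`,
`log k = 28 log u <= 28 u`, so the quotient is at most `28 / u^13 = 28 t^13 / z^13` and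
`28 * 10^22 <= 66^13`. -/
def T_CHC : Prop := ∀ t k : ℝ, 0 < t → t ≤ 1 / 2 → 10 ^ 51 / t ^ 28 ≤ k →
  Real.log k / √k ≤ t ^ 13 / 10 ^ 22

/-- CHD. `log (1 + t²/4) >= (t²/4)/(1 + t²/4) >= t²/4.25`, so the left side is at most
`40 + 340/t² <= 350/t²`. -/
def T_CHD : Prop := ∀ t : ℝ, 0 < t → t ≤ 1 / 2 →
  40 + 80 / Real.log (1 + t ^ 2 / 4) ≤ 350 / t ^ 2

/-- CHE (the main inequality). Let `E` be the term with `Γ`. `1/w <= 2 * 10^9/t^5`, so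
`E <= 2 (1/w) 728 C1 Γ v <= 2 * 2 * 10^9 * 728 * 350 * 36 / 10^22 * t^2 <= t/8`, and the first term
is at most `4 * 10^18 * 350/10^22 t <= t/4`. `√((2+t²)² - 4) >= 2 t`, so the argument `a` of the
root satisfies `2 a <= 2 + t² - 2 t + t/4 + t/4`, in particular `a <= 1`. With
`V = 364² w/√(t²/2)³ <= t/100` (`√(t²/2) >= t/2`): `2 (√a + V)² <= 2 a + 4 V + 2 V²`. The last term
is at most `4 * 364³/10^9 t <= t/4`. Total at most `2 + t² - 3 t/2 + t/4 + 6 t/100 + t/4`. -/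
def T_CHE : Prop := ∀ (t C1 Γ w v y θ : ℝ), 0 < t → t ≤ 1 / 2 → 0 ≤ C1 → C1 ≤ 350 / t ^ 2 →
  0 ≤ Γ → Γ ≤ 36 / t ^ 4 → 0 < w → 10 ^ 9 * w ≤ t ^ 5 → t ^ 5 ≤ 2 * 10 ^ 9 * w → 0 ≤ v →
  v ≤ t ^ 13 / 10 ^ 22 → 0 ≤ y → y ≤ w → 0 ≤ θ → θ ≤ t / 8 →
  (w ^ 2)⁻¹ * C1 * v + 2 * (√((2 + t ^ 2 - √((2 + t ^ 2) ^ 2 - 4)) / 2 + θ +
    (w ^ 2)⁻¹ * (728 * C1) * Γ * v * (y + w)) + 364 ^ 2 * w / √(t ^ 2 / 2) ^ 3) ^ 2 +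
      364 ^ 3 * w / (t ^ 2 / 2) ^ 2 < 2 + t ^ 2

/-- CHQ. Hypotheses `T_CHA`, `T_CHB`, `T_CHC`, `T_CHD`, `T_CHE`. `s + 1 = ⌈10^18/t^10⌉`,
`w = 1/√(s+1)`, and a variant of `CHS_.key` (`CHS.lean`) with two constants. -/
def T_CHQ : Prop := ∀ t : ℝ, 0 < t → t ≤ 1 / 2 → ∃ s q : ℕ, 2 ≤ s ∧ Even q ∧ 2 ≤ q ∧
  (s : ℝ) ≤ 10 ^ 18 / t ^ 10 ∧ ∀ (d1 : ℕ) (k l0 R C1 : ℝ), 1 ≤ d1 →
    k = 2 * (((s : ℝ) + 1) * d1) → 10 ^ 51 / t ^ 28 ≤ k → l0 = (2 + t ^ 2) * √k →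
    R = (2 + t ^ 2 / 2) * √k → C1 = 40 + 80 / Real.log (1 + t ^ 2 / 4) →
    ((s : ℝ) + 1) * rr l0 R (364 * √(2 * (d1 : ℝ))) (C1 * Real.log k)
      (kap d1 q k l0 R (2 + 5 / 4 * t ^ 2) (728 * C1)) < l0

/-! ## The induction -/

/-- QST (the step). Hypotheses `T_GD9Q`, `T_CHQ`, `T_ELE`. `s, q` from CHQ, `d1 = d/(s+1)`,
`r = d % (s+1)`, `d' = s d1`. `2 (s+1) <= d`, so `d1 >= 2`, `d <= 2 s d1`, `s d1 < d`, and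
`k = 2 (s+1) d1 >= 2 (d - s) >= d >= 10^51/t^28`. GD9Q with `δ = t²`, `C = 2 + 5/4 t²` (monotone:
`√(2 s d1) <= √k`), then `r` more generators: `2 r <= 2 s <= 2 * 10^18/t^10 <= (t²/10) √(2 d)`
(compare `FN9.lean`). -/
def T_QST : Prop := ∀ (t : ℝ) (d : ℕ), 0 < t → t ≤ 1 / 2 → 10 ^ 52 / t ^ 28 ≤ d →
  (∀ d' : ℕ, d ≤ 2 * d' → d' < d →
    Good G2 (fun p => (p.1 : ℝ)) d' ((2 + 5 / 4 * t ^ 2) * √(2 * (d' : ℝ))) (1 / 3)) →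
  Good G2 (fun p => (p.1 : ℝ)) d ((2 + 11 / 10 * t ^ 2) * √(2 * (d : ℝ))) (1 / 3)

/-- QIN (the induction). Hypotheses `T_QST`, `T_FN9`, `T_FN7`, `T_ELE`. Let `D0` be from FN9 with
`δ = 1/4`, `A0 = max 10^4 D0`, `f d = min (1/4) (A0 d^(-1/14))`. Strong induction: for `d >= D0`,
`Good d ((2 + f d) √(2 d))`. If `A0 d^(-1/14) >= 1/4` use FN9. Otherwise put
`δ = A0 d^(-1/14) < 1/4`, `t = √(10 δ/11)`, so `11/10 t² = δ`, `t <= 1/2`,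
`t^28 = (10/11)^14 A0^14/d`, so `10^52/t^28 <= d` as `A0^14 >= 10^56`. For `d/2 <= d' < d`:
`d > (4 A0)^14 >= 2 D0`, so `d' >= D0`, and `f d' <= 2^(1/14) δ <= 5/4 t²` as
`2 <= (25/22)^14`. Finally `A = A0 + 362 (D0 + 1)`; for `1 <= d < D0` use FN7:
`362 <= A d^(-1/14)`, since `d^(-1/14) >= 1/d`. -/
def T_QIN : Prop := ∃ A : ℝ, 0 ≤ A ∧ ∀ d : ℕ, 1 ≤ d →
  Good G2 (fun p => (p.1 : ℝ)) d ((2 + A * (d : ℝ) ^ (-(1 / 14 : ℝ))) * √(2 * (d : ℝ))) (1 / 3)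

/-- QFI. Hypotheses `T_QIN`, `T_FN7`. `Good` for both bounds (the minimum is one of them), the
second one from QIN: `d^(-1/14) √(2 d) = 2^(1/14) (2 d)^(3/7)`; then `K p^(-1/3) <= p^(-1/4)` for
large `p` (see `BC7.lean`). -/
def T_QFI : Prop := ∃ A : ℝ, 0 ≤ A ∧ ∀ d : ℕ, 1 ≤ d → ∃ P : ℕ, ∀ (p : ℕ) [Fact p.Prime], P ≤ p →
  (badCard (SL 2 p) d (min (364 * √(2 * (d : ℝ)))
      (2 * √(2 * (d : ℝ)) + A * (2 * (d : ℝ)) ^ (3 / 7 : ℝ))) : ℝ) ≤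
    (p : ℝ) ^ (-(1 / 4 : ℝ)) * (Fintype.card (SL 2 p) : ℝ) ^ d

end Pool.Agent.RCG
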