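import Pool.Agent.RCG.Targets12

set_option autoImplicit false

/-!
# RCG: fourteenth group of targets (RCG11): few exceptional eigenvalues in EVERY representation

`k = 2 d >= 4`, `r0 = 2 √(k-1)`. For every fixed `d >= 2`, `0 < η < 1`, large `p`: with probability
`>= 1 - p^(-η/2)`, for all `θ` in `[0, 1]` and every right invariant space `W` of functions of sum
zero (in particular every irreducible representation) the number of eigenvalues of `A` on `W` of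
absolute value `> k^θ r0^(1-θ)` is at most `k p^(-(1-η) θ) dim W`.

Write the proof of `T_XXX` in a new file `Pool/Agent/RCG/XXX.lean`:
`theorem prove_XXX (h : T_YYY) ... : T_XXX`, helper lemmas in a sub-namespace `XXX_`.
-/

namespace Pool.Agent.RCG

open Finset Matrix

/-- the right translation `(RT g f) x = f (x g)` on complex functions -/
noncomputable def RT {G : Type} [Group G] [Fintype G] (g : G) :
    EuclideanSpace ℂ G →ₗ[ℂ] EuclideanSpace ℂ G :=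
  (WithLp.linearEquiv 2 ℂ (G → ℂ)).symm.toLinearMap ∘ₗ
    (LinearMap.funLeft ℂ ℂ (fun x : G => x * g)) ∘ₗ (WithLp.linearEquiv 2 ℂ (G → ℂ)).toLinearMap

/-- spaces of functions of sum zero which are invariant under right translations -/
def InvS {G : Type} [Group G] [Fintype G] (W : Submodule ℂ (EuclideanSpace ℂ G)) : Prop :=
  (∀ f ∈ W, ∑ x, f x = 0) ∧ ∀ g : G, ∀ f ∈ W, RT g f ∈ W

/-- the adjacency operator on complex functions -/
noncomputable def AL {G : Type} [Group G] [Fintype G] {d : ℕ} (y : Fin d → G) :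
    EuclideanSpace ℂ G →ₗ[ℂ] EuclideanSpace ℂ G := ∑ i, (RT (y i) + RT (y i)⁻¹)

/-- in every invariant space `W` the adjacency operator has at most `ν dim W` eigenvalues of
absolute value more than `R` -/
def SPS {G : Type} [Group G] [Fintype G] {d : ℕ} (y : Fin d → G) (R ν : ℝ) : Prop :=
  ∀ W : Submodule ℂ (EuclideanSpace ℂ G), InvS W → ∀ E : Submodule ℂ (EuclideanSpace ℂ G),
    E ≤ W → (∀ f ∈ E, f ≠ 0 → R * ‖f‖ < ‖AL y f‖) →
      (Module.finrank ℂ E : ℝ) ≤ ν * Module.finrank ℂ W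

/-- `Phi f g = sum over h of <f, R_(h g h⁻¹) f>`, a class function of `g` -/
noncomputable def Phi {G : Type} [Group G] [Fintype G] (f : G → ℝ) (g : G) : ℝ :=
  ∑ h : G, ∑ x, f x * f (x * (h * g * h⁻¹))

/-- the number of nontrivial words of length `n` whose value has trace `2` or `-2` -/
noncomputable def bw {p d : ℕ} (n : ℕ) (y : Fin d → SL 2 p) : ℕ :=
  Nat.card {w : Fin n → Ltr d // FreeGroup.mk (List.ofFn w) ≠ 1 ∧
    ((ev y w).1 0 0 + (ev y w).1 1 1 = 2 ∨ (ev y w).1 0 0 + (ev y w).1 1 1 = -2)}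

/-- the matrix `[1, b; 0, 1]` -/
def um {p : ℕ} (b : ZMod p) : SL 2 p := ⟨!![1, b; 0, 1], by simp [Matrix.det_fin_two_of]⟩

/-- the matrix `[-1, b; 0, -1]` -/
def vm {p : ℕ} (b : ZMod p) : SL 2 p := ⟨!![-1, b; 0, -1], by simp [Matrix.det_fin_two_of]⟩

/-! ## Part 1: the trace method in one representation -/

/-- KSQ: `T_KES` with `2 √(k-1)`. Same proof as `KES.lean` with the weight
`h y = (k-1)^(-|y|/2)`: for `y ≠ 1` one letter shortens, `k - 1` lengthen: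
`√(k-1) + (k-1)/√(k-1) = 2 √(k-1)`; for `y = 1`: `k/√(k-1) <= 2 √(k-1)` as `k >= 2`. (In
`KES_.step` the exact number `k - 1` of the other letters has to be kept.) -/
def T_KSQ : Prop := ∀ d n : ℕ, 1 ≤ d → (tw d n : ℝ) ≤ (2 * √(2 * (d : ℝ) - 1)) ^ n

/-- RTP. Elementary properties. The last one as in `ITR.lean` (`ITR_.ev_zero`, `ITR_.ev_cons`).
`RT g` is unitary with adjoint `RT g⁻¹`. -/
def T_RTP : Prop := ∀ (G : Type) [Group G] [Fintype G],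
  (∀ (g : G) (f : EuclideanSpace ℂ G) (x : G), RT g f x = f (x * g)) ∧
  (∀ g h : G, RT (g * h) = RT g ∘ₗ RT h) ∧ RT (1 : G) = LinearMap.id ∧
  (∀ (g : G) (f f' : EuclideanSpace ℂ G), inner ℂ (RT g f) (RT g f') = inner ℂ f f') ∧
  ∀ (d : ℕ) (y : Fin d → G), (AL y).IsSymmetric ∧
    ∀ n : ℕ, (AL y) ^ n = ∑ w : Fin n → Ltr d, RT (ev y w)

/-- SPT. Let `e_j` be an orthonormal eigenbasis of `T` (`LinearMap.IsSymmetric.eigenvectorBasis`)
with eigenvalues `l_j`. `E` meets the span of the `e_j` with `|l_j| <= R` only in `0` (there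
`|T v| <= R |v|`), so `dim E <= #{j : |l_j| > R}`; the trace of `T^n` is `sum l_j^n`, and
`l_j^n >= 0` (`n` even). (`LinearMap.trace_eq_sum_inner`.) -/
def T_SPT : Prop := ∀ (V : Type) [NormedAddCommGroup V] [InnerProductSpace ℂ V]
  [FiniteDimensional ℂ V] (T : V →ₗ[ℂ] V) (E : Submodule ℂ V) (R : ℝ) (n : ℕ), T.IsSymmetric →
  0 ≤ R → Even n → (∀ v ∈ E, v ≠ 0 → R * ‖v‖ < ‖T v‖) →
    R ^ n * Module.finrank ℂ E ≤ (LinearMap.trace ℂ V (T ^ n)).re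

/-- TRG. Hypothesis `T_RTP`. The trace `t` of `RT g` on `W` is equal to that of
`RT (h g h⁻¹)` for every `h` (`RT (h g h⁻¹) = RT h RT g RT h⁻¹` on `W`). With an orthonormal basis
`b_i` of `W` (`LinearMap.trace_eq_sum_inner`): `|G| t = sum_h sum_i <b_i, RT (h g h⁻¹) b_i>`, and
for `b = u + i v` the real part of `sum_h <b, RT (h g h⁻¹) b>` is `Phi u g + Phi v g`, at most
`κ |G| |b|²` in absolute value. -/
def T_TRG : Prop := ∀ (G : Type) [Group G] [Fintype G] (κ : ℝ) (g : G)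
  (W : Submodule ℂ (EuclideanSpace ℂ G)) (hW : InvS W), 0 ≤ κ →
  (∀ f : G → ℝ, ∑ x, f x = 0 → |Phi f g| ≤ κ * Fintype.card G * ∑ x, f x ^ 2) →
    |(LinearMap.trace ℂ W ((RT g).restrict (hW.2 g))).re| ≤ κ * Module.finrank ℂ W

/-- TRA. Hypotheses `T_RTP`, `T_TRG`. The power is the sum over the words `w` of the restriction of
`RT (ev y w)`. A trivial word gives `dim W` (`ev y w = 1`), the `bw n y` words with trace `2`, `-2`
give at most `dim W` (`T_TRG` with `κ = 1`: `|Phi f g| <= |G| |f|²` by Cauchy-Schwarz), the others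
(at most `(2 d)^n`) at most `κ dim W`. -/
def T_TRA : Prop := ∀ (p : ℕ) [Fact p.Prime] (d n : ℕ) (y : Fin d → SL 2 p) (κ : ℝ)
  (W : Submodule ℂ (EuclideanSpace ℂ (SL 2 p))) (_ : InvS W) (hA : ∀ f ∈ W, AL y f ∈ W), 0 ≤ κ →
  (∀ g : SL 2 p, g.1 0 0 + g.1 1 1 ≠ 2 → g.1 0 0 + g.1 1 1 ≠ -2 →
    ∀ f : SL 2 p → ℝ, ∑ x, f x = 0 → |Phi f g| ≤ κ * Fintype.card (SL 2 p) * ∑ x, f x ^ 2) →
    (LinearMap.trace ℂ W (((AL y).restrict hA) ^ n)).re ≤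
      (tw d n + bw n y + κ * (2 * (d : ℝ)) ^ n) * Module.finrank ℂ W

/-- DEN. Hypotheses `T_TRA`, `T_SPT`, `T_RTP`: SPT for the restriction of `AL y` to `W` (symmetric)
and `E` as a subspace of `W` (`Submodule.comap W.subtype E`, of the same dimension). -/
def T_DEN : Prop := ∀ (p : ℕ) [Fact p.Prime] (d n : ℕ) (y : Fin d → SL 2 p) (κ R : ℝ),
  0 ≤ κ → 0 < R → Even n →
  (∀ g : SL 2 p, g.1 0 0 + g.1 1 1 ≠ 2 → g.1 0 0 + g.1 1 1 ≠ -2 →
    ∀ f : SL 2 p → ℝ, ∑ x, f x = 0 → |Phi f g| ≤ κ * Fintype.card (SL 2 p) * ∑ x, f x ^ 2) →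
  SPS y R ((tw d n + bw n y + κ * (2 * (d : ℝ)) ^ n) / R ^ n)

/-- MRW. Hypothesis `T_TR2`. `sum_y bw n y = sum over the nontrivial words of #{y : trace = ± 2}
<= (2 d)^n 8 n/p |G|^d`, and `M #{y : M < bw n y} <= sum_y bw n y`. -/
def T_MRW : Prop := ∀ (p : ℕ) [Fact p.Prime] (d n : ℕ) (M : ℝ), 2 * d < p → 0 ≤ M →
  M * p * Nat.card {y : Fin d → SL 2 p // M < (bw n y : ℝ)} ≤
    8 * n * (2 * (d : ℝ)) ^ n * (Fintype.card (SL 2 p) : ℝ) ^ d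

/-- ANC (real analysis). Put `b = 2 d/(2 √(2d-1)) > 1`, `n` the largest even number with
`b^n <= q^(1-η)`, `n = 2 ⌊(1-η) log q/(2 log b)⌋₊`; then `b^(n+2) > q^(1-η)`,
`8 n b^n/q <= 8 n q^(-η) <= q^(-η/2)` for large `q` as `n = O (log q)`, `C b^n/q <= C q^(-η) <= 1`. -/
def T_ANC : Prop := ∀ (d : ℕ) (η C : ℝ), 2 ≤ d → 0 < η → η < 1 → 0 ≤ C → ∃ P : ℝ, ∀ q : ℝ, P ≤ q →
  19 ≤ q ∧ 2 * (d : ℝ) < q ∧ ∃ n : ℕ, Even n ∧
    8 * n * (2 * (d : ℝ) / (2 * √(2 * (d : ℝ) - 1))) ^ n / q ≤ q ^ (-(η / 2)) ∧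
    C / q * (2 * (d : ℝ) / (2 * √(2 * (d : ℝ) - 1))) ^ n ≤ 1 ∧
    q ^ (1 - η) ≤ (2 * (d : ℝ) / (2 * √(2 * (d : ℝ) - 1))) ^ (n + 2)

/-- ANT (real analysis). `b = k/r0 > 1`, `3 (r0/(k^θ r0^(1-θ)))^n = 3 b^(-θ n) =
3 (b²)^θ (b^(n+2))^(-θ) <= 3 (b²)^θ q^(-(1-η) θ)`, and `3 (b²)^θ <= k`, since
`b² = k²/(4 (k-1)) <= k/3` and `3 (k/3)^θ <= k` for `k >= 4`. -/
def T_ANT : Prop := ∀ (d n : ℕ) (η q θ : ℝ), 2 ≤ d → 0 < q → 0 ≤ θ → θ ≤ 1 →
  q ^ (1 - η) ≤ (2 * (d : ℝ) / (2 * √(2 * (d : ℝ) - 1))) ^ (n + 2) →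
  3 * (2 * √(2 * (d : ℝ) - 1)) ^ n /
    ((2 * (d : ℝ)) ^ θ * (2 * √(2 * (d : ℝ) - 1)) ^ (1 - θ)) ^ n ≤
      2 * (d : ℝ) * q ^ (-((1 - η) * θ))

/-! ## Part 2: pointwise character bound `O (1/p)` for the elements of trace `≠ ± 2` -/

/-- CS1. `Z_g f x = |G|⁻¹ sum_h f (x h g h⁻¹)`; `Phi f g = |G| <f, Z_g f> <= |G| |f| |Z_g f|` and
`|Z_g f|² = <f, Z_g⁻¹ Z_g f> = |G|⁻² sum_h Phi f (g⁻¹ h g h⁻¹)` (the adjoint of `Z_g` is
`Z_(g⁻¹)`; the average over `h', h` of `R_(h' g⁻¹ h'⁻¹ h g h⁻¹)`, put `h = h' h''`). -/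
def T_CS1 : Prop := ∀ (G : Type) [Group G] [Fintype G] (f : G → ℝ) (g : G),
  Phi f g ^ 2 ≤ (∑ x, f x ^ 2) * ∑ h : G, Phi f (g⁻¹ * (h * g * h⁻¹))

/-- CJ1 (`τ ≠ ± 2`: the matrices of trace `τ` are one class). For `x = [a, b; c, d]` and a vector
`v` with `det (v | x v) = 1` the matrix `P = (v | x v)` has `P⁻¹ x P = [0, -1; 1, τ]`. The form
`det (v | x v) = c v1² + (d - a) v1 v2 - b v2²` has discriminant `τ² - 4 ≠ 0`, so it takes the
value `1` (`FiniteField.exists_root_sum_quadratic` or pigeonhole; if `c = b = 0` it is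
`(d - a) v1 v2`). -/
def T_CJ1 : Prop := ∀ (p : ℕ) [Fact p.Prime], p ≠ 2 → ∀ x x' : SL 2 p,
  x.1 0 0 + x.1 1 1 = x'.1 0 0 + x'.1 1 1 → x.1 0 0 + x.1 1 1 ≠ 2 → x.1 0 0 + x.1 1 1 ≠ -2 →
    ∃ h : SL 2 p, h * x * h⁻¹ = x'

/-- CN1 (a conic has at most `p + 2` points). `D = {v : tr v = 0, tr (x v) = 0}` has dimension `2`
(`x` is not scalar). Fix a point `y0`; every other point is `y0 + s v`, `v` in `D` taken up to
scalars (`p + 1` directions), `det (y0 + s v) = 1 - s tr (y0 v) + s² det v` for `tr v = 0`; so for each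
direction there is at most one `s ≠ 0`, unless `det v = 0` and `tr (y0 v) = 0`. In that case `v` is
nilpotent, `v ≠ 0`, and `tr (x v) = tr (y0 v) = 0` means that `x` and `y0` preserve the line
`ker v`; the eigenvalues there are `l` and `l` or `1/l` (both have trace `τ`), so
`tr (x y0)` is `2` or `l² + 1/l² = τ² - 2`. -/
def T_CN1 : Prop := ∀ (p : ℕ) [Fact p.Prime], p ≠ 2 → ∀ (x : SL 2 p) (ρ : ZMod p),
  x.1 0 0 + x.1 1 1 ≠ 2 → x.1 0 0 + x.1 1 1 ≠ -2 → ρ ≠ 2 → ρ ≠ (x.1 0 0 + x.1 1 1) ^ 2 - 2 →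
    Nat.card {y : SL 2 p // y.1 0 0 + y.1 1 1 = x.1 0 0 + x.1 1 1 ∧
      (x * y).1 0 0 + (x * y).1 1 1 = ρ} ≤ p + 2

/-- CN2. `y = [a, b; c, τ - a]`, `b c = a (τ - a) - 1`: `p - 1` solutions `(b, c)` if the right side is
not `0`, otherwise `2 p - 1`; it is `0` for at most two `a`. -/
def T_CN2 : Prop := ∀ (p : ℕ) [Fact p.Prime] (τ : ZMod p),
  p ^ 2 ≤ Nat.card {y : SL 2 p // y.1 0 0 + y.1 1 1 = τ} + p ∧
  Nat.card {y : SL 2 p // y.1 0 0 + y.1 1 1 = τ} ≤ p ^ 2 + p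

/-- UPW. Induction on `dim W`. If `F = 0` clear. Otherwise let `F` be the space of ALL `U`-fixed
vectors of `W` (`U` = the matrices `um b`), invariant under the commuting diagonal matrices
`t_a = diag (a, 1/a)` (they normalize `U`), which have a common eigenvector `v ≠ 0` in `F`. Let `V`
be the span of the `RT g v`. With `e = (1/p) sum_b RT (um b)` the fixed vectors in `V` are `e V`,
spanned by the `e RT g v`; for `g = u t` (`u` in `U`) this is a multiple of `v`, for `g = u t w u'`,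
`w = [0, 1; -1, 0]`, it is `RT t e RT w v`, a multiple of `e RT w v` (`RT t e RT w v =
e RT w RT (w⁻¹ t w) v`). So they have dimension `<= 2`, and `dim V >= (p-1)/2` (`T_DIM2` for
`{x -> f (x⁻¹)}`, see `BD2.lean`). Apply the induction hypothesis to the orthogonal complement of
`V` in `W`. -/
def T_UPW : Prop := ∀ (p : ℕ) [Fact p.Prime], p ≠ 2 →
  ∀ W : Submodule ℂ (EuclideanSpace ℂ (SL 2 p)), InvS W →
  ∀ F : Submodule ℂ (EuclideanSpace ℂ (SL 2 p)), F ≤ W →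
  (∀ f ∈ F, ∀ b : ZMod p, RT (um b) f = f) →
    ((p : ℝ) - 1) * Module.finrank ℂ F ≤ 4 * Module.finrank ℂ W

/-- UPB. Hypotheses `T_UPW`, `T_RTP`. The operator `C = sum_h sum_b R_(h (um b) h⁻¹)` on the complex
functions of sum zero is symmetric, positive (`= p sum_h R_h e R_h⁻¹`) and commutes with all right
translations. Let `μ` be its largest eigenvalue and `W` the eigenspace: `W` is `InvS`, and the
trace on `W` gives `μ dim W = |G| p dim (e W) <= |G| p 4/(p-1) dim W` (UPW). So for real `f` of sum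
zero `0 <= sum_b Phi f (um b) <= (4 p/(p-1)) |G| |f|²`, and the term `b = 0` is `|G| |f|²`; for
`p >= 5` the first claim follows. Second claim: `f± x = (f x ± f (-x))/2`,
`Phi f (vm b) = Phi f+ (um (-b)) - Phi f- (um (-b))`, `|f|² = |f+|² + |f-|²`. -/
def T_UPB : Prop := ∀ (p : ℕ) [Fact p.Prime], 5 ≤ p → ∀ f : SL 2 p → ℝ, ∑ x, f x = 0 →
  |∑ b ∈ univ.filter (fun b : ZMod p => b ≠ 0), Phi f (um b)| ≤
    5 * Fintype.card (SL 2 p) * ∑ x, f x ^ 2 ∧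
  |∑ b ∈ univ.filter (fun b : ZMod p => b ≠ 0), Phi f (vm b)| ≤
    5 * Fintype.card (SL 2 p) * ∑ x, f x ^ 2

/-- UCT. `x ≠ 1` with trace `2` fixes exactly one line; `SL (2, p)` permutes the `p + 1` lines
transitively, and those which fix the first line are the `um b`, `b ≠ 0`. The second claim follows
from the first one for `x -> F (-x)`. -/
def T_UCT : Prop := ∀ (p : ℕ) [Fact p.Prime], p ≠ 2 → ∀ F : SL 2 p → ℝ,
  (∀ h g, F (h * g * h⁻¹) = F g) →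
  (∑ x ∈ univ.filter (fun x : SL 2 p => x.1 0 0 + x.1 1 1 = 2), F x =
    F 1 + (p + 1) * ∑ b ∈ univ.filter (fun b : ZMod p => b ≠ 0), F (um b)) ∧
  (∑ x ∈ univ.filter (fun x : SL 2 p => x.1 0 0 + x.1 1 1 = -2), F x =
    F (vm 0) + (p + 1) * ∑ b ∈ univ.filter (fun b : ZMod p => b ≠ 0), F (vm b))

/-- UST. Let `u = 1 + v`, `v` nilpotent (`tr u = 2`). `tr (g u) = tr g` iff `tr (g v) = 0` iff (for
`v ≠ 0`) `g` preserves the line `ker v`. `g` is not scalar, so it preserves at most two lines, and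
the `u ≠ 1` of trace `2` with a given line `ker v` are conjugate (one matrix `h` for all) to the
`um b`, `b ≠ 0`. Second claim: first one for `x -> F (-x)` (`tr g = 0`). -/
def T_UST : Prop := ∀ (p : ℕ) [Fact p.Prime], p ≠ 2 → ∀ F : SL 2 p → ℝ,
  (∀ h g, F (h * g * h⁻¹) = F g) → ∀ g : SL 2 p, g.1 0 0 + g.1 1 1 ≠ 2 →
  g.1 0 0 + g.1 1 1 ≠ -2 →
  |∑ u ∈ univ.filter (fun u : SL 2 p => u.1 0 0 + u.1 1 1 = 2 ∧
    (g * u).1 0 0 + (g * u).1 1 1 = g.1 0 0 + g.1 1 1), F u| ≤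
    |F 1| + 2 * |∑ b ∈ univ.filter (fun b : ZMod p => b ≠ 0), F (um b)| ∧
  (g.1 0 0 + g.1 1 1 = 0 →
    |∑ u ∈ univ.filter (fun u : SL 2 p => u.1 0 0 + u.1 1 1 = -2 ∧
      (g * u).1 0 0 + (g * u).1 1 1 = g.1 0 0 + g.1 1 1), F u| ≤
    |F (vm 0)| + 2 * |∑ b ∈ univ.filter (fun b : ZMod p => b ≠ 0), F (vm b)|)

/-- VST. Hypothesis `T_CN1`. Let `S` be the index set of the sum. `-1` is not in `S` (`tr g ≠ 0`).
For `ε` a nonsquare, every matrix `≠ -1` of trace `-2` is conjugate to exactly one of `vm 1`,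
`vm ε`, and `sum_(b ≠ 0) F (vm b) = (p-1)/2 (F (vm 1) + F (vm ε))`. There is `t = α + β g` with
`det t = α² + α β τ + β²` a nonsquare (nondegenerate form); conjugation by `t` maps `S` to itself
and exchanges the two classes. So the sum is `(|S|/2) (F (vm 1) + F (vm ε)) =
|S|/(p-1) sum_(b ≠ 0) F (vm b)`, and `|S| <= p + 2` (CN1 for `x = g⁻¹`, `y = g u`, `ρ = -2`). -/
def T_VST : Prop := ∀ (p : ℕ) [Fact p.Prime], 5 ≤ p → ∀ F : SL 2 p → ℝ,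
  (∀ h g, F (h * g * h⁻¹) = F g) → ∀ g : SL 2 p, g.1 0 0 + g.1 1 1 ≠ 2 →
  g.1 0 0 + g.1 1 1 ≠ -2 → g.1 0 0 + g.1 1 1 ≠ 0 →
  |∑ u ∈ univ.filter (fun u : SL 2 p => u.1 0 0 + u.1 1 1 = -2 ∧
    (g * u).1 0 0 + (g * u).1 1 1 = g.1 0 0 + g.1 1 1), F u| ≤
    2 * |∑ b ∈ univ.filter (fun b : ZMod p => b ≠ 0), F (vm b)|

/-- MST (bootstrap step). Hypotheses `T_CS1`, `T_CJ1`, `T_CN1`, `T_CN2`, `T_LIN`, `T_UPB`,
`T_UCT`, `T_UST`, `T_VST`, `T_CRD`. Let `τ = tr g`, `F = Phi f` (a class function, `|F| <= |G| N`,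
`N = sum f²`, `sum over G of F = 0`), `S ρ = {y : tr y = τ, tr (g⁻¹ y) = ρ}`, `C ρ` the elements of trace
`ρ`. By CJ1 `h -> h g h⁻¹` maps `G` onto `C τ`, with fibres of `|G|/|C τ|` elements, so
`sum_h F (g⁻¹ h g h⁻¹) = (|G|/|C τ|) sum_(y in C τ) F (g⁻¹ y)`. For `ρ ≠ ± 2` all elements of trace
`ρ` have the same value `φ ρ`, `|φ ρ| <= M |G| N`. Subtract `1/p` times `sum F = 0`:
`sum_(y in C τ) F (g⁻¹ y) = sum_(ρ ≠ ± 2) a ρ φ ρ + (the y with tr (g⁻¹ y) = 2) + (those with -2)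
- (1/p) sum_(tr x = ± 2) F x`, `a ρ = |S ρ| - |C ρ|/p`. `a ρ <= 3`, and `<= 2 p` for
`ρ = 2, τ² - 2` (LIN), `sum_ρ a ρ = |C τ| - |G|/p >= 1 - p`, so `sum |a ρ| = 2 sum (a ρ)⁺ - sum a ρ <=
15 p`. With `u = g⁻¹ y`: the terms with `tr u = 2` are at most `11 |G| N` (UST, UPB), those with
`tr u = -2` at most `11 |G| N` (UST for `τ = 0`, VST otherwise), and
`(1/p) |sum_(tr x = 2) F x| <= (1/p) (1 + 5 (p+1)) |G| N <= 6.5 |G| N` (UCT, UPB), the same for `-2`.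
Total `<= (15 p M + 35) |G| N`. Then CS1. -/
def T_MST : Prop := ∀ (p : ℕ) [Fact p.Prime], 5 ≤ p → ∀ M : ℝ, 0 ≤ M →
  (∀ g : SL 2 p, g.1 0 0 + g.1 1 1 ≠ 2 → g.1 0 0 + g.1 1 1 ≠ -2 →
    ∀ f : SL 2 p → ℝ, ∑ x, f x = 0 → |Phi f g| ≤ M * Fintype.card (SL 2 p) * ∑ x, f x ^ 2) →
  ∀ g : SL 2 p, g.1 0 0 + g.1 1 1 ≠ 2 → g.1 0 0 + g.1 1 1 ≠ -2 →
    ∀ f : SL 2 p → ℝ, ∑ x, f x = 0 →
      |Phi f g| ≤ √((15 * p * M + 35) / ((p : ℝ) ^ 2 - p)) * Fintype.card (SL 2 p) * ∑ x, f x ^ 2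

/-- CHR. Hypothesis `T_MST`. The set of the `M >= 0` with the hypothesis of MST is closed, contains
`1`; let `M0` be its infimum. Then `M0 <= √((15 p M0 + 35)/(p² - p))`, and
`p² - p >= (4/5) p²`: `(p M0)² <= (75/4) p M0 + 175/4`, so `p M0 <= 22`. -/
def T_CHR : Prop := ∀ (p : ℕ) [Fact p.Prime], 5 ≤ p →
  ∀ g : SL 2 p, g.1 0 0 + g.1 1 1 ≠ 2 → g.1 0 0 + g.1 1 1 ≠ -2 →
    ∀ f : SL 2 p → ℝ, ∑ x, f x = 0 →
      |Phi f g| ≤ 22 / p * Fintype.card (SL 2 p) * ∑ x, f x ^ 2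

/-! ## Part 3: the theorem -/

/-- FND. Hypotheses `T_DEN`, `T_KSQ`, `T_MRW`, `T_ANC`, `T_ANT`, `T_CHR`. ANC with `C = 22`; let
`r0 = 2 √(2d-1)`. If `bw n y <= r0^n` then for all `θ` DEN with `κ = 22/p`,
`R = k^θ r0^(1-θ)` gives `(tw + bw + κ k^n)/R^n <= 3 r0^n/R^n` (KSQ; `κ k^n <= r0^n` by ANC), and ANT.
The others: MRW with `M = r0^n`. -/
def T_FND : Prop := ∀ (d : ℕ) (η : ℝ), 2 ≤ d → 0 < η → η < 1 → ∃ P : ℕ, ∀ (p : ℕ) [Fact p.Prime],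
  P ≤ p → (Nat.card {y : Fin d → SL 2 p // ¬ ∀ θ : ℝ, 0 ≤ θ → θ ≤ 1 →
    SPS y ((2 * (d : ℝ)) ^ θ * (2 * √(2 * (d : ℝ) - 1)) ^ (1 - θ))
      (2 * (d : ℝ) * (p : ℝ) ^ (-((1 - η) * θ)))} : ℝ) ≤
    (p : ℝ) ^ (-(η / 2)) * (Fintype.card (SL 2 p) : ℝ) ^ d

/-- SPQ (quotients). Hypothesis `T_RTP`. For `W` of functions on `H` let `W'` be the space of the
`f ∘ π`; it is `InvS`, of the same dimension, `|f ∘ π|² = |ker π| |f|²`,
`AL y (f ∘ π) = (AL (π ∘ y) f) ∘ π` (see `QUO.lean`). -/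
def T_SPQ : Prop := ∀ (G H : Type) [Group G] [Fintype G] [Group H] [Fintype H] (π : G →* H),
  Function.Surjective π → ∀ (d : ℕ) (y : Fin d → G) (R ν : ℝ),
    SPS y R ν → SPS (fun i => π (y i)) R ν

/-- QUC (quotients, counting): as in `prove_QUO` (`QUO_.eqv`). -/
def T_QUC : Prop := ∀ (G H : Type) [Group G] [Fintype G] [Group H] [Fintype H] (π : G →* H),
  Function.Surjective π → ∀ (d : ℕ) (PG : (Fin d → G) → Prop) (PH : (Fin d → H) → Prop),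
  (∀ y, PG y → PH (fun i => π (y i))) →
    Nat.card {z : Fin d → H // ¬ PH z} * Fintype.card G ^ d ≤
      Nat.card {y : Fin d → G // ¬ PG y} * Fintype.card H ^ d

end Pool.Agent.RCG
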