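import Pool.Agent.RCG.Targets14

set_option autoImplicit false

/-!
# RCG: fifteenth group of targets (RCG12): the Sarnak-Xue density in EVERY representation

`k = 2 d >= 4`, `q = k - 1`. For every fixed `d >= 2`, `0 < η < 1`, large `p`: with probability
`>= 1 - p^(-η/2)`, for all `θ` in `[0, 1]` and every right invariant space `W` of functions of sum
zero the number of eigenvalues of `A` on `W` of absolute value `> q^((1+θ)/2) + q^((1-θ)/2)` is at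
most `4 k p^(-(1-η) θ) dim W`. (Stronger than RCG11: sums over balls of the tree instead of
powers of `A`.) Proof: `B_n` = sum of `RT g` over the elements `g` of the free group of length
`<= n`, `= n mod 2`; `B_0 = 1`, `B_1 = A`, `B_(n+2) = A B_(n+1) - q B_n`; an eigenvalue `l` of `A`
with `|l| >= a + b`, `a b = q`, `a >= b`, gives the eigenvalue of absolute value `>= a^n` of `B_n`;
the trace of `B_n^2` on `W` is bounded by counting.

Write the proof of `T_XXX` in a new file `Pool/Agent/RCG/XXX.lean`: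
`theorem prove_XXX (h : T_YYY) ... : T_XXX`, helper lemmas in a sub-namespace `XXX_`.
WARNING (compile time): for statements about submodules of `EuclideanSpace ℂ (SL 2 p)` prove the
submodule part for a generic `V : Type` or a generic group `G` first (see `DEN.lean`).
-/

namespace Pool.Agent.RCG

open Finset Matrix

open Classical in
/-- the elements of the free group of norm at most `n` and of the same parity as `n` -/
noncomputable def BL (d n : ℕ) : Finset (FreeGroup (Fin d)) :=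
  ((range (n + 1)).biUnion fun m => (univ : Finset (Fin m → Ltr d)).image
    fun w => FreeGroup.mk (List.ofFn w)).filter fun g => g.norm ≤ n ∧ g.norm % 2 = n % 2

/-- the numbers `c 0 = 1`, `c 1 = l`, `c (n+2) = l c (n+1) - q c n` -/
noncomputable def chf (q l : ℝ) : ℕ → ℝ
  | 0 => 1
  | 1 => l
  | (n + 2) => l * chf q l (n + 1) - q * chf q l n

/-- the operators `B 0 = 1`, `B 1 = T`, `B (n+2) = T B (n+1) - q B n` -/
noncomputable def chb (q : ℝ) {V : Type} [AddCommGroup V] [Module ℂ V] (T : V →ₗ[ℂ] V) :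
    ℕ → (V →ₗ[ℂ] V)
  | 0 => LinearMap.id
  | 1 => T
  | (n + 2) => T ∘ₗ chb q T (n + 1) - (q : ℂ) • chb q T n

open Classical in
/-- the number of pairs in `BL d n` whose product is nontrivial and has a value of trace `2` or
`-2` -/
noncomputable def bb {p d : ℕ} (n : ℕ) (y : Fin d → SL 2 p) : ℕ :=
  ((BL d n ×ˢ BL d n).filter fun z => z.1 * z.2 ≠ 1 ∧
    ((FreeGroup.lift y (z.1 * z.2)).1 0 0 + (FreeGroup.lift y (z.1 * z.2)).1 1 1 = 2 ∨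
      (FreeGroup.lift y (z.1 * z.2)).1 0 0 + (FreeGroup.lift y (z.1 * z.2)).1 1 1 = -2)).card

/-- BLM. `g = mk g.toWord`, `g.toWord = ofFn` of a function on `Fin g.norm`. -/
def T_BLM : Prop := ∀ (d n : ℕ) (g : FreeGroup (Fin d)),
  g ∈ BL d n ↔ g.norm ≤ n ∧ g.norm % 2 = n % 2

/-- BLR. Hypothesis `T_BLM`. The last part: both sides are sums over `h` (`h = mk [l] * g`); the
number of letters `l` with `(mk [l])⁻¹ * h ∈ BL d (n+1)` is `2 d = 1 + (2 d - 1)` for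
`|h| <= n`, `|h| = n mod 2`, it is `1` for `|h| = n + 2` (the first letter of `h`), `0` for all
others (`|(mk [l])⁻¹ * h| = |h| - 1` for one letter if `h ≠ 1`, `|h| + 1` for the other letters:
`KSQ_.step` in `KSQ.lean` and `KES_.toWord_mul` show how to compute `toWord (mk [l] * h)`). -/
def T_BLR : Prop := ∀ (d n : ℕ) (M : Type) [AddCommGroup M] (F : FreeGroup (Fin d) → M), 1 ≤ d →
  BL d 0 = {1} ∧ ∑ g ∈ BL d 1, F g = ∑ l : Ltr d, F (FreeGroup.mk [l]) ∧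
  ∑ l : Ltr d, ∑ g ∈ BL d (n + 1), F (FreeGroup.mk [l] * g) =
    ∑ g ∈ BL d (n + 2), F g + (2 * d - 1) • ∑ g ∈ BL d n, F g

/-- BLC. Hypothesis `T_BLR` (with `M = ℤ`, `F = 1`): `b (n+2) = 2 d b (n+1) - (2 d - 1) b n`,
`b 0 = 1`, `b 1 = 2 d`, so `b (n+1) = q b n + 1`, `q = 2 d - 1 >= 3`, and
`b n <= (3/2) q^n - 1/2` by induction. -/
def T_BLC : Prop := ∀ d n : ℕ, 2 ≤ d → ((BL d n).card : ℝ) ≤ 3 / 2 * (2 * (d : ℝ) - 1) ^ n

/-- BLO. Hypotheses `T_BLR`, `T_RTP`. `AL y = sum over the letters l of RT (lift y (mk [l]))`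
(`(i, true) -> y i`, `(i, false) -> (y i)⁻¹`), `RT (lift y (mk [l] * g)) =
RT (lift y (mk [l])) ∘ₗ RT (lift y g)`; induction with `T_BLR`, `M = ` the linear maps. -/
def T_BLO : Prop := ∀ (G : Type) [Group G] [Fintype G] (d n : ℕ) (y : Fin d → G), 1 ≤ d →
  chb (2 * (d : ℝ) - 1) (AL y) n = ∑ g ∈ BL d n, RT (FreeGroup.lift y g)

/-- CHL. For `l >= a + b`: `c (n+1) >= a c n` and `c n > 0` by induction:
`c (n+2) = l c (n+1) - a b c n >= a c (n+1) + b (c (n+1) - a c n)`. For `l < 0`: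
`c n (-l) = (-1)^n c n l`. -/
def T_CHL : Prop := ∀ (a b l : ℝ) (n : ℕ), 0 < b → b ≤ a → a + b ≤ |l| →
  a ^ n ≤ |chf (a * b) l n|

/-- SPB. Hypothesis `T_CHL`. As `SPT.lean`: orthonormal eigenbasis `e_j` of `T`, eigenvalues `l_j`,
`dim E <= #{j : |l_j| > a + b}`, `chb q T n e_j = chf q l_j n • e_j`, the trace is
`sum (chf q l_j n)^2`. -/
def T_SPB : Prop := ∀ (V : Type) [NormedAddCommGroup V] [InnerProductSpace ℂ V]
  [FiniteDimensional ℂ V] (T : V →ₗ[ℂ] V) (E : Submodule ℂ V) (a b : ℝ) (n : ℕ), T.IsSymmetric →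
  0 < b → b ≤ a → (∀ v ∈ E, v ≠ 0 → (a + b) * ‖v‖ < ‖T v‖) →
    a ^ (2 * n) * Module.finrank ℂ E ≤
      (LinearMap.trace ℂ V (chb (a * b) T n ∘ₗ chb (a * b) T n)).re

/-- TRB. Hypotheses `T_RTP`, `T_TRG`, `T_BLO`. `chb` of the restriction is the restriction of `chb`
(induction, any submodule), so the operator is the sum over the pairs `(g, h)` of the restrictions
of `RT (lift y (g * h))`. Pairs with `g * h = 1` (at most `card`): `dim W`; pairs of `bb`: at most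
`dim W` (`T_TRG` with `κ = 1`, as in `TRA.lean`); the others: at most `κ dim W`. -/
def T_TRB : Prop := ∀ (p : ℕ) [Fact p.Prime] (d n : ℕ) (y : Fin d → SL 2 p) (κ : ℝ)
  (W : Submodule ℂ (EuclideanSpace ℂ (SL 2 p))) (_ : InvS W) (hA : ∀ f ∈ W, AL y f ∈ W), 1 ≤ d →
  0 ≤ κ →
  (∀ g : SL 2 p, g.1 0 0 + g.1 1 1 ≠ 2 → g.1 0 0 + g.1 1 1 ≠ -2 →
    ∀ f : SL 2 p → ℝ, ∑ x, f x = 0 → |Phi f g| ≤ κ * Fintype.card (SL 2 p) * ∑ x, f x ^ 2) →
    (LinearMap.trace ℂ W (chb (2 * (d : ℝ) - 1) ((AL y).restrict hA) n ∘ₗ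
      chb (2 * (d : ℝ) - 1) ((AL y).restrict hA) n)).re ≤
      ((BL d n).card + bb n y + κ * ((BL d n).card : ℝ) ^ 2) * Module.finrank ℂ W

/-- DNB. Hypotheses `T_TRB`, `T_SPB`, `T_RTP`; copy `DEN.lean`. -/
def T_DNB : Prop := ∀ (p : ℕ) [Fact p.Prime] (d n : ℕ) (y : Fin d → SL 2 p) (κ a b : ℝ), 1 ≤ d →
  0 ≤ κ → 0 < b → b ≤ a → a * b = 2 * (d : ℝ) - 1 →
  (∀ g : SL 2 p, g.1 0 0 + g.1 1 1 ≠ 2 → g.1 0 0 + g.1 1 1 ≠ -2 →
    ∀ f : SL 2 p → ℝ, ∑ x, f x = 0 → |Phi f g| ≤ κ * Fintype.card (SL 2 p) * ∑ x, f x ^ 2) →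
  SPS y (a + b) (((BL d n).card + bb n y + κ * ((BL d n).card : ℝ) ^ 2) / a ^ (2 * n))

/-- MRB. Hypotheses `T_TR2`, `T_BLM`; copy `MRW.lean`: for a pair `(g, h)` with `g * h ≠ 1` use
`T_TR2` for the word `(g * h).toWord` (length `<= 2 n`) and the two traces:
`#{y} <= 2 * 4 * 2 n / p * |G|^d`. -/
def T_MRB : Prop := ∀ (p : ℕ) [Fact p.Prime] (d n : ℕ) (M : ℝ), 2 * d < p → 0 ≤ M →
  M * p * Nat.card {y : Fin d → SL 2 p // M < (bb n y : ℝ)} ≤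
    16 * n * ((BL d n).card : ℝ) ^ 2 * (Fintype.card (SL 2 p) : ℝ) ^ d

/-- ANB (real analysis, as `ANC.lean`). `q = 2 d - 1 >= 3`, `n = ⌊(1-η) log x/log q⌋₊`, so that
`q^n <= x^(1-η) < q^(n+1)`; `36 n q^n/x <= 36 n x^(-η)`, `n <= log x`;
`(99/2) q^(2n)/x <= (99/2) x^(-η) q^n`. -/
def T_ANB : Prop := ∀ (d : ℕ) (η : ℝ), 2 ≤ d → 0 < η → η < 1 → ∃ P : ℝ, ∀ x : ℝ, P ≤ x →
  5 ≤ x ∧ 2 * (d : ℝ) < x ∧ ∃ n : ℕ,
    36 * n * (2 * (d : ℝ) - 1) ^ n / x ≤ x ^ (-(η / 2)) ∧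
    22 / x * (9 / 4 * (2 * (d : ℝ) - 1) ^ (2 * n)) ≤ (2 * (d : ℝ) - 1) ^ n ∧
    x ^ (1 - η) ≤ (2 * (d : ℝ) - 1) ^ (n + 1)

/-- ANU (real analysis). `q = 2 d - 1`: the left side is `(7/2) q^(-θ n) =
(7/2) q^θ (q^(n+1))^(-θ) <= (7/2) q x^(-(1-η) θ)`. -/
def T_ANU : Prop := ∀ (d n : ℕ) (η x θ : ℝ), 2 ≤ d → 0 < x → 0 ≤ θ → θ ≤ 1 →
  x ^ (1 - η) ≤ (2 * (d : ℝ) - 1) ^ (n + 1) →
  7 / 2 * (2 * (d : ℝ) - 1) ^ n / ((2 * (d : ℝ) - 1) ^ ((1 + θ) / 2)) ^ (2 * n) ≤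
    8 * (d : ℝ) * x ^ (-((1 - η) * θ))

/-- FNB. Hypotheses `T_DNB`, `T_BLC`, `T_MRB`, `T_ANB`, `T_ANU`, `T_CHR`; copy `FND.lean`. `n` from
ANB for `x = p`. If `bb n y <= q^n` then for all `θ` DNB with `κ = 22/p`, `a = q^((1+θ)/2)`,
`b = q^((1-θ)/2)` gives `((3/2) q^n + q^n + (22/p) (9/4) q^(2n))/a^(2n) <= (7/2) q^n/a^(2n)`, and
ANU. The others: MRB with `M = q^n`: `16 n (9/4) q^(2n)/(p q^n) = 36 n q^n/p`. -/
def T_FNB : Prop := ∀ (d : ℕ) (η : ℝ), 2 ≤ d → 0 < η → η < 1 → ∃ P : ℕ, ∀ (p : ℕ) [Fact p.Prime],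
  P ≤ p → (Nat.card {y : Fin d → SL 2 p // ¬ ∀ θ : ℝ, 0 ≤ θ → θ ≤ 1 →
    SPS y ((2 * (d : ℝ) - 1) ^ ((1 + θ) / 2) + (2 * (d : ℝ) - 1) ^ ((1 - θ) / 2))
      (8 * (d : ℝ) * (p : ℝ) ^ (-((1 - η) * θ)))} : ℝ) ≤
    (p : ℝ) ^ (-(η / 2)) * (Fintype.card (SL 2 p) : ℝ) ^ d

end Pool.Agent.RCG
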