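import Pool.Agent.RCG.Targets

set_option autoImplicit false

/-!
# RCG: second group of targets, `SL (3, p)`

See `Targets.lean` for the conventions.
-/

namespace Pool.Agent.RCG

open Finset Matrix

/-- the determinant of the three columns `e₁, g e₁, g² e₁` -/
def cyc3 {R : Type*} [CommRing R] (g : Matrix (Fin 3) (Fin 3) R) : R :=
  g 1 0 ^ 2 * g 2 1 + g 1 0 * g 2 0 * (g 2 2 - g 1 1) - g 2 0 ^ 2 * g 1 2

/-- NC3. Hypothesis `T_NC2`. By NC2 there are `z₀` over `(ZMod p)[X]` such that `τ = tr (ev z₀ w)`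
is a nonconstant polynomial. Let `K` be the algebraic closure of `RatFunc (ZMod p)`, `z₀` now over
`K`, and `λ` a root of `λ² - τ λ + 1 = 0`; `λ² ≠ 1` because `τ ≠ ± 2`. So `ev z₀ w` is
diagonalizable over `K` with eigenvalues `λ, 1/λ`; conjugating `z₀` by an element of `SL (2, K)` we
get `z₁` with `ev z₁ w = diag (λ, 1/λ)`. With the block embedding `ι (g) = diag (g, 1)` of `SL (2)`
into `SL (3)` and `H` an invertible matrix over `K` with `H (1,1,1) = e₁`, put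
`z = H ι(z₁) H⁻¹`. Then `ev z w = H D H⁻¹`, `D = diag (λ, 1/λ, 1)`, and `cyc3 (ev z w) =
det [e₁, H D H⁻¹ e₁, H D² H⁻¹ e₁] = det H * det [u, D u, D² u]`, `u = (1,1,1)`: a Vandermonde
determinant, nonzero because `λ, 1/λ, 1` are distinct. (For example
`H = [1,0,0; -1,1,0; -1,0,1]`.) -/
def T_NC3 : Prop := ∀ (p : ℕ) [Fact p.Prime] (d n : ℕ) (w : Fin n → Ltr d), 2 * d < p →
  FreeGroup.mk (List.ofFn w) ≠ 1 →
  ∃ (K : Type) (_ : Field K) (_ : Algebra (ZMod p) K)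
    (z : Fin d → Matrix.SpecialLinearGroup (Fin 3) K), cyc3 (ev z w).1 ≠ 0

/-- CY3. Hypotheses `T_SZ 3 11`, `T_NC3`: the polynomial `cyc3` has total degree at most 3. -/
def T_CY3 : Prop := ∀ (p : ℕ) [Fact p.Prime] (d n : ℕ) (w : Fin n → Ltr d),
  2 * d < p → FreeGroup.mk (List.ofFn w) ≠ 1 →
    (p : ℝ) * Nat.card {y : Fin d → SL 3 p // cyc3 (ev y w).1 = 0} ≤
      33 * n * (Fintype.card (SL 3 p) : ℝ) ^ d

/-- TR3. Hypotheses `T_SZ 3 11`, `T_NC2`. The block embedding `g -> diag (g, 1)` of `SL (2)` into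
`SL (3)` shows that the trace of the word is not constant (`K = RatFunc (ZMod p)`). -/
def T_TR3 : Prop := ∀ (p : ℕ) [Fact p.Prime] (d n : ℕ) (w : Fin n → Ltr d) (t : ZMod p),
  2 * d < p → FreeGroup.mk (List.ofFn w) ≠ 1 →
    (p : ℝ) * Nat.card {y : Fin d → SL 3 p // ((ev y w).1 : Matrix (Fin 3) (Fin 3) (ZMod p)).trace = t} ≤
      11 * n * (Fintype.card (SL 3 p) : ℝ) ^ d

/-- CEN3. If `cyc3 g ≠ 0` the vectors `e₁, g e₁, g² e₁` are a basis, so a matrix `h` which commutes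
with `g` is determined by `h e₁`: `h` and `h'` with the same first column agree on the basis. So
there are at most `p³` of them. -/
def T_CEN3 : Prop := ∀ (p : ℕ) [Fact p.Prime] (g : Matrix (Fin 3) (Fin 3) (ZMod p)), cyc3 g ≠ 0 →
  Nat.card {h : GL (Fin 3) (ZMod p) // h.1 * g = g * h.1} ≤ p ^ 3

/-- GL3: conjugation by `GL (3, p)` on `SL (3, p)`, and `(p - 1) |SL (3, p)| <= |GL (3, p)|`
(injection `(t, g) -> diag (t, 1, 1) g`). -/
def T_GL3 : Prop := ∀ (p : ℕ) [Fact p.Prime],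
  (p - 1) * Nat.card (SL 3 p) ≤ Nat.card (GL (Fin 3) (ZMod p)) ∧
  ∃ α : GL (Fin 3) (ZMod p) →* MulAut (SL 3 p), ∀ h g, (α h g).1 = h.1 * g.1 * (h⁻¹).1

/-- ETA3. Hypotheses `T_TR3`, `T_CY3`, `T_CEN3`, `T_GL3`, `T_DIM3`, `T_WRD`, `T_CLF`.
Let `N h = #{y : ev y w = h}`, `T = |G|^d`, `Z = {g : cyc3 g = 0}`; `N(Z) <= (33 n/p) T` by CY3. For
`g ∉ Z`: CLF with `H = GL (3, p)` and the trace, CEN3 and TR3 give
`|GL| N g <= p³ (11 n/p) T`, so `|G| N g <= (p/(p-1)) 11 n p T <= 22 n p T`. WRD with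
`D = p² - 1 >= p²/2`: the left side is at most `(33 n/p + √(44 n/p)) T |f|²`. If `n <= p` this is
`<= 40 √(n/p) T |f|²`; if `n > p` the trivial bound `T |f|²` suffices. -/
def T_ETA3 : Prop := ∀ (p : ℕ) [Fact p.Prime] (d n : ℕ) (w : Fin n → Ltr d), 2 * d < p →
  FreeGroup.mk (List.ofFn w) ≠ 1 → ∀ f : SL 3 p → ℝ, ∑ x, f x = 0 →
    ∑ y : Fin d → SL 3 p, ∑ x, f x * f (x * ev y w) ≤
      40 * √((n : ℝ) / p) * (Fintype.card (SL 3 p) : ℝ) ^ d * ∑ x, f x ^ 2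

/-- the family `SL (3, p)` -/
abbrev G3 (p : Nat.Primes) : Type := SL 3 p.1

/-- AB3. Hypotheses `T_AVG`, `T_ETA3`: `AvgB` for the family `SL (3, p)`, for all `d >= 2`, with
`c = max 40 (2 d + 1)`. -/
def T_AB3 : Prop := ∀ d : ℕ, 2 ≤ d → ∃ c : ℝ, AvgB G3 (fun p => (p.1 : ℝ)) d c

end Pool.Agent.RCG
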