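import Pool.Agent.RCG.Targets

set_option autoImplicit false

/-!
# RCG: third group of targets, the version which is uniform in the degree

See `Targets.lean` for the conventions.
-/

namespace Pool.Agent.RCG

open Finset Matrix

/-- ARC (Alon-Roichman with the constant 16). Hypothesis `T_GT`. If `t > 2 d` nothing is bad.
Let `t <= 2 d`, `l = t/(8 d) <= 1/4`. For `y : G` let `M y` be the symmetric matrix of
`f -> f (x y) + f (x y⁻¹) - (2/|G|) sum f`; its norm is at most `2` (it kills the constants and on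
functions of sum zero it is the sum of two unitary operators) and `sum_y M y = 0`. For
`|x| <= 1`, `e^x <= 1 + x + x²`, so `exp (l M) <= 1 + l M + 4 l²` as quadratic forms, and
`sum_y exp (l M y) <= |G| (1 + 4 l²)`. Golden-Thompson and induction as in `T_AWS` (see
`Pool/Agent/RCG/AWS.lean`): `sum_z tr exp (l sum_g M (z g)) <= |G|^d |G| (1 + 4 l²)^d <=
|G|^d |G| e^(4 l² d)`. If the Rayleigh quotient of the sum exceeds `t`, the trace is at least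
`e^(l t)` (see `Pool/Agent/RCG/AW.lean`). So at most `|G| e^(4 l² d - l t) |G|^d =
|G| e^(-t²/(16 d)) |G|^d` tuples have a Rayleigh quotient `> t`; the same for `< -t` (use `-M`). -/
def T_ARC : Prop := ∀ (G : Type) [Group G] [Fintype G] (d : ℕ) (t : ℝ), 1 ≤ d → 0 < t →
  (badCard G d t : ℝ) ≤
    2 * Fintype.card G * Real.exp (-(t ^ 2) / (16 * d)) * (Fintype.card G : ℝ) ^ d

/-- ASYU (real analysis, uniform version of ASY). `ρ = 2/√k1`, `κ = 1 - 2/log k1`,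
`u = m log k1`, so `(1-κ) u/2 = m`. Let `l1 = log (1/ρ) = (log k1)/2 - log 2 >= (log 2)/2`. Take
`n = 2 ⌈log q/(4 l1)⌉`: `ρ^n <= q^(-1/2)`, `n <= log q/(2 l1) + 2 <= 2 log q` (for large `q`),
`((ρ^κ)^n)⁻¹ = ρ^(-κ n) <= q^(κ/2) ρ^(-2κ) <= q^(κ/2) k1`, and the last bracket is at most
`30 √(log q/q)`. So the `u`-th power is at most
`exp (m log k1 * log (150 m² L² k1 √(log q))) q^(-m)`, and with `log k1 <= L <= c √(log q)`,
`c = c(m)` small, and `q` large the first factor is at most `q^(1/2)/e`. -/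
def T_ASYU : Prop := ∀ m : ℝ, 4 ≤ m → ∃ c P : ℝ, 0 < c ∧ ∀ q k1 s L : ℝ, P ≤ q → 8 ≤ k1 →
  Real.log k1 ≤ L → L ≤ c * √(Real.log q) → 0 < s → s ≤ 5 * m ^ 2 * L ^ 2 →
  1 < q ∧ ∃ n : ℕ, Even n ∧ 1 ≤ n ∧
    Real.exp 1 * q ^ (3 : ℝ) *
      (s * ((((2 / √k1) ^ (1 - 2 / Real.log k1)) ^ n)⁻¹ *
        ((2 / √k1) ^ n + 14 * √(((n : ℝ) + 1) / q)))) ^ (m * Real.log k1) ≤ q ^ (4 - m)

/-- RECU (the recursion with error terms). As `T_REC` (see its comment and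
`Pool/Agent/RCG/REC.lean`), with the same choices (`C = 32 m`, `s = ⌈4 m² L²⌉₊`, `L = log (2 d)`,
`d1 = d / s >= 4`), keeping track of the error: the claim is `b d (...) <= (2 d - 1) δ`; in the
trivial case it is `0`, in the other case (`s >= 2`)
`b <= s (2 d1 - 1) δ + δ <= (2 s d1 - 1) δ <= (2 d - 1) δ`. -/
def T_RECU : Prop := ∀ (m L0 δ : ℝ) (b : ℕ → ℝ → ℝ), 4 ≤ m → 0 ≤ δ →
  (∀ (d : ℕ) (B B' : ℝ), B ≤ B' → b d B' ≤ b d B) → (∀ d : ℕ, b d (2 * d) = 0) →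
  (∀ (d r : ℕ) (B : ℝ), b (d + r) (B + 2 * r) ≤ b d B) →
  (∀ (d s : ℕ) (B L : ℝ), 4 ≤ d → 1 ≤ s → 0 ≤ B → Real.log (2 * d) ≤ L → L ≤ L0 →
    (s : ℝ) ≤ 5 * m ^ 2 * L ^ 2 →
    b (s * d) (2 * d * s * (2 / √(2 * (d : ℝ))) ^ (1 - 2 / Real.log (2 * d)) +
      m * Real.log (2 * d) * B) ≤ s * b d B + δ) →
  ∀ d : ℕ, 2 ≤ d → Real.log (2 * d) ≤ L0 →
    b d (32 * m * √(2 * (d : ℝ)) * Real.log (2 * d)) ≤ (2 * d - 1) * δ

/-- AB2U. Hypotheses `T_AVG`, `T_ETA2` (the proof is contained in `Pool/Agent/RCG/AB2.lean`, with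
the explicit constant `14` and the explicit threshold `2 d < p`). -/
def T_AB2U : Prop := ∀ (p : ℕ) [Fact p.Prime] (d n : ℕ), p ≠ 2 → 1 ≤ d → 2 * d < p →
  ∀ f : SL 2 p → ℝ, ∑ x, f x = 0 →
    ∑ y : Fin d → SL 2 p, ∑ x, f x * (adj y)^[n] f x ≤
      (2 * (d : ℝ)) ^ n * (Fintype.card (SL 2 p) : ℝ) ^ d *
        ((2 / √(2 * (d : ℝ))) ^ n + 14 * √(((n : ℝ) + 1) / p)) * ∑ x, f x ^ 2

/-- ELEU: the elementary properties for a single group. -/
def T_ELEU : Prop := ∀ (G : Type) [Group G] [Fintype G],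
  (∀ (d : ℕ) (B B' : ℝ), B ≤ B' → badCard G d B' ≤ badCard G d B) ∧
  (∀ d : ℕ, badCard G d (2 * d) = 0) ∧
  (∀ (d r : ℕ) (B : ℝ), badCard G (d + r) (B + 2 * r) ≤ badCard G d B * Fintype.card G ^ r)

end Pool.Agent.RCG
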