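import Pool.Agent.RCG.Targets
import Pool.Agent.RCG.Fin
import Pool.Agent.VAC.Defs

set_option autoImplicit false

/-!
# RCG: fifth group of targets, mixing times (MP_64152e_pr)

Random Cayley graphs of `SL (2, p)` of a large bounded degree `k` have `T_mix(ε)/T_mix(1-ε)` at
most `1 + η`: the mixing time of the lazy walk is `(2 + O(η)) log |G| / log k` at every level.
See `Targets.lean` for the conventions.
-/

namespace Pool.Agent.RCG

open Finset Matrix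
open Pool.Agent.VAC (lazyP tvDist tmix)

/-- the simple Cayley graph of the tuple `s` (right multiplication) -/
def cay {G : Type} [Group G] {d : ℕ} (s : Fin d → G) : SimpleGraph G :=
  SimpleGraph.fromRel fun x y => ∃ i, y = x * s i ∨ y = x * (s i)⁻¹

/-- the `2 d` elements `s i`, `(s i)⁻¹` are different from each other and from `1` -/
def Distinct {G : Type} [Group G] {d : ℕ} (s : Fin d → G) : Prop :=
  (∀ i, s i ≠ 1) ∧ (∀ i j, i ≠ j → s i ≠ s j) ∧ ∀ i j, s i ≠ (s j)⁻¹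

/-- the proportion of the binomial distribution with parameters `t, 1/2` below `J` -/
noncomputable def binLow (t J : ℕ) : ℝ := (∑ j ∈ (range (t + 1)).filter (fun j => j < J),
  (t.choose j : ℝ)) / 2 ^ t

/-- the proportion of the binomial distribution with parameters `t, 1/2` above `J` -/
noncomputable def binHigh (t J : ℕ) : ℝ := (∑ j ∈ (range (t + 1)).filter (fun j => J < j),
  (t.choose j : ℝ)) / 2 ^ t

/-- UPT (upper bound for the total variation distance). `P = (1/2)(1 + Q)`,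
`P^t = sum_j binom(t,j) 2^(-t) Q^j`. For `j < J` the row `Q^j x ·` is a probability vector, at
distance at most `1` from the uniform one. For `j >= J`, with `u = 1/|V|` and
`g = Q^j (δ_x - u)` (`Q` is symmetric, so this is `Q^j x · - u`): `sum |g| <= √|V| |g|₂ <=
√|V| r^j |δ_x - u|₂ <= √|V| r^J` (`δ_x - u` has sum zero, and `Q` preserves sum zero). -/
def T_UPT : Prop := ∀ (V : Type) [Fintype V] [DecidableEq V] [Nonempty V] (Q : Matrix V V ℝ)
  (r : ℝ) (J t : ℕ), Q.IsSymm → (∀ x y, 0 ≤ Q x y) → (∀ x, ∑ y, Q x y = 1) → 0 ≤ r → r ≤ 1 →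
  (∀ f : V → ℝ, ∑ x, f x = 0 → ∑ x, (Q *ᵥ f) x ^ 2 ≤ r ^ 2 * ∑ x, f x ^ 2) →
  ∀ x, tvDist ((1 / 2 : ℝ) • (1 + Q)) t x ≤
    binLow t J + (1 / 2) * √(Fintype.card V : ℝ) * r ^ J

/-- LOT (lower bound). Let every row of `Q` have at most `k` nonzero entries, `k >= 2`. The rows
`Q^j x ·`, `j <= J`, all live on a set `S` of at most `1 + k + ... + k^J <= 2 k^J` points. So
`tvDist >= P^t x S - |S|/|V| >= (1 - binHigh t J) - 2 k^J/|V|`
(`(1/2) sum_y |μ y - u y| >= μ S - u S`). -/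
def T_LOT : Prop := ∀ (V : Type) [Fintype V] [DecidableEq V] [Nonempty V] (Q : Matrix V V ℝ)
  (k J t : ℕ), (∀ x y, 0 ≤ Q x y) → (∀ x, ∑ y, Q x y = 1) → 2 ≤ k →
  (∀ x, (univ.filter fun y => Q x y ≠ 0).card ≤ k) →
  ∀ x, 1 - binHigh t J - 2 * (k : ℝ) ^ J / Fintype.card V ≤
    tvDist ((1 / 2 : ℝ) • (1 + Q)) t x

/-- BIN (Chebyshev): `sum_j binom(t,j) (j - t/2)² = 2^t t/4` (see `bernsteinPolynomial.variance`),
so if `J <= t/2 - λ` then `binLow t J <= t/(4 λ²)`, and the same for `binHigh` if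
`t/2 + λ <= J`. -/
def T_BIN : Prop := ∀ (t J : ℕ) (lam : ℝ), 0 < lam →
  ((J : ℝ) ≤ t / 2 - lam → binLow t J ≤ t / (4 * lam ^ 2)) ∧
  ((t : ℝ) / 2 + lam ≤ J → binHigh t J ≤ t / (4 * lam ^ 2))

/-- CAY. If `Distinct s`, `d >= 1`, then `cay s` is regular of degree `2 d` and its lazy walk is
`(1/2)(1 + Q)`, where `Q x y = (1/(2d)) #{(i, ±) : y = x (s i)^(±1)}`, a symmetric stochastic
matrix with at most `2 d` nonzero entries in every row and `(Q f) x = (adj s f x)/(2 d)`. If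
moreover `NormLe s B` with `B < 2 d` then `cay s` is connected (otherwise the indicator function of
a component minus its mean is a nonzero function of sum zero with `adj s f = 2 d f`).
The graph is vertex transitive (left multiplications). -/
def T_CAY : Prop := ∀ (G : Type) [Group G] [Fintype G] [DecidableEq G] (d : ℕ) (s : Fin d → G)
  [DecidableRel (cay s).Adj], 1 ≤ d → Distinct s →
  (cay s).IsRegularOfDegree (2 * d) ∧
  (∀ x y : G, ∃ φ : cay s ≃g cay s, φ x = y) ∧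
  (∀ B : ℝ, 0 ≤ B → B < 2 * d → NormLe s B → (cay s).Connected) ∧
  ∃ Q : Matrix G G ℝ, lazyP (cay s) = (1 / 2 : ℝ) • (1 + Q) ∧ Q.IsSymm ∧ (∀ x y, 0 ≤ Q x y) ∧
    (∀ x, ∑ y, Q x y = 1) ∧ (∀ x, (univ.filter fun y => Q x y ≠ 0).card ≤ 2 * d) ∧
    ∀ (f : G → ℝ) (x : G), (Q *ᵥ f) x = adj s f x / (2 * d)

/-- DST. In `SL (2, p)`, `p` odd, `x² = 1` only for `x = ± 1`. So the tuples which are not
`Distinct` number at most `(d + d² + 2 d + d²) |G|^(d-1) <= 5 d² |G|^(d-1)`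
(`s i = 1`; `s i = s j`, `i ≠ j`; `s i = (s i)⁻¹`; `s i = (s j)⁻¹`, `i ≠ j`). -/
def T_DST : Prop := ∀ (p : ℕ) [Fact p.Prime] (d : ℕ), p ≠ 2 → 1 ≤ d →
  Nat.card {s : Fin d → SL 2 p // ¬ Distinct s} * Fintype.card (SL 2 p) ≤
    5 * d ^ 2 * Fintype.card (SL 2 p) ^ d

/-- MXA (asymptotics). `M = |G| -> ∞`, `k = 2 d`, `r = C √k log k/k = C log k/√k`. Let
`0 < η < 1`. Upper: for `t = ⌊(1+η) 2 log M/log k⌋` and
`J = ⌈(1 + η/2) log M/log k⌉₊` one has `J <= t/2 - λ` with `λ = (η/4) log M/log k` (large `M`),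
`t/(4 λ²) -> 0`, and `√M r^J <= M^(1/2 - (1 + η/2)(1/2 - (log log k + log C)/log k)) -> 0`, as soon
as `(1 + η/2)(1 - 2 (log log k + log C)/log k) >= 1 + η/4`, which holds for `k >= k₀(η, C)`.
Lower: for all `t <= (1-η) 2 log M/log k` and `J = ⌊(1 - η/2) log M/log k⌋`,
`t/2 + λ <= J` and `2 k^J/M <= 2 M^(-η/2) -> 0`. (For `t = 0` the binomial term is `0`.) -/
def T_MXA : Prop := ∀ (C η : ℝ), 0 < C → 0 < η → η < 1 → ∃ d₀ : ℕ, ∀ d : ℕ, d₀ ≤ d →
  1 ≤ d ∧ C * √(2 * (d : ℝ)) * Real.log (2 * d) < 2 * d ∧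
  ∀ ε : ℝ, 0 < ε → ∃ M₀ : ℝ, ∀ M : ℝ, M₀ ≤ M → 1 < M ∧
    (∃ t J : ℕ, (t : ℝ) ≤ (1 + η) * (2 * Real.log M / Real.log (2 * d)) ∧
      binLow t J + (1 / 2) * √M * (C * √(2 * (d : ℝ)) * Real.log (2 * d) / (2 * d)) ^ J ≤ ε) ∧
    (∀ t : ℕ, (t : ℝ) ≤ (1 - η) * (2 * Real.log M / Real.log (2 * d)) →
      ∃ J : ℕ, binHigh t J + 2 * ((2 * d : ℕ) : ℝ) ^ J / M < ε)

end Pool.Agent.RCG
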