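import Pool.Agent.RCG.Targets9

set_option autoImplicit false

/-!
# RCG: eighth group of targets: a fresh block against a spectral projection

Part A of the proof of `|λ| <= (2 + ε) √k` (helper90, helper52). `k = 2 d` is the degree. The final
target is `T_FRESH`. Write the proof of `T_XXX` in a new file `Pool/Agent/RCG/XXX.lean`:
`theorem prove_XXX (h : T_YYY) ... : T_XXX`, helper lemmas in a sub-namespace `XXX_`.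

`LI` and `tw` are defined in `Targets9.lean`. Notation: `R_h = Rm h`, `X_h = R_h + R_h⁻¹`,
`A_y = adM y`, `|v|² = v ⬝ᵥ v`.
-/

namespace Pool.Agent.RCG

open Finset Matrix

open Classical in
/-- the matrix of the left translation -/
noncomputable def Lm {G : Type} [Group G] [Fintype G] (g : G) : Matrix G G ℝ :=
  Matrix.of fun x z => if z = g * x then (1 : ℝ) else 0

/-- `|Q R_x u|²` for an orthogonal projection `Q` -/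
noncomputable def qR {G : Type} [Group G] [Fintype G] (Q : Matrix G G ℝ) (x : G) (u : G → ℝ) :
    ℝ := (Rm x *ᵥ u) ⬝ᵥ Q *ᵥ (Rm x *ᵥ u)

/-- the polynomial `sum over m < q of c_m A_y^m` -/
noncomputable def NP {G : Type} [Group G] [Fintype G] {d : ℕ} (y : Fin d → G) (c : ℕ → ℝ)
    (q : ℕ) : Matrix G G ℝ := ∑ m ∈ range q, c m • pwM y m

/-- the block `a` is fresh for `Q` and `N` -/
def FRB {G : Type} [Group G] [Fintype G] {d1 : ℕ} (a : Fin d1 → G) (Q N : Matrix G G ℝ)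
    (b t κ : ℝ) : Prop :=
  QB a b ∧ (∀ v : G → ℝ, |v ⬝ᵥ (Q * adM a * Q) *ᵥ v| ≤ t * (v ⬝ᵥ v)) ∧
    ∀ v : G → ℝ, v ⬝ᵥ (Q * (adM a * N * adM a) * Q) *ᵥ v ≤ κ * (v ⬝ᵥ v)

/-- all proper tails of the tuple are good -/
def AG {Y : Type} (gd : (j : ℕ) → (Fin j → Y) → Prop) : (j : ℕ) → (Fin j → Y) → Prop
  | 0, _ => True
  | (j + 1), y => gd j (Fin.tail y) ∧ AG gd j (Fin.tail y)

/-- expansion of `N` in right translations: coefficient `n0` at the identity, the other elements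
are not `± 1`, the sum of the absolute values of their coefficients is at most `C` -/
def CE {p : ℕ} [Fact p.Prime] (N : Matrix (SL 2 p) (SL 2 p) ℝ) (n0 C : ℝ) : Prop :=
  ∃ (Ω : Type) (_ : Fintype Ω) (e : Ω → ℝ) (γ : Ω → SL 2 p),
    N = n0 • Rm 1 + ∑ ω, e ω • Rm (γ ω) ∧
    (∀ ω, (γ ω : Matrix (Fin 2) (Fin 2) (ZMod p)) ≠ 1 ∧
      (γ ω : Matrix (Fin 2) (Fin 2) (ZMod p)) ≠ -1) ∧ ∑ ω, |e ω| ≤ C

/-! ## Sequential matrix Bennett inequality -/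

/-- BNS (one step). Hypotheses `T_GT`, `T_EXZ`, `T_SPE`; see `Pool/Agent/RCG/STZ.lean`. GT:
`tr exp (θ (S + Z)) <= tr (exp (θ S) exp (θ Z))`. By EXZ `sum_y exp (θ Z y) <=
|Y| (1 + θ √ν + e^(θ z) ν/z²)` as quadratic forms; for the linear term
`sum_y v.Z_y v <= |v| sum_y |Z_y v| <= |v| √(|Y| sum_y |Z_y v|²) <= |Y| √ν |v|²`. Finally
`tr (E X) <= c tr E` for `E` positive semidefinite, `X <= c` (`AWS_.tr_le`). -/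
def T_BNS : Prop := ∀ (ι Y : Type) [Fintype ι] [DecidableEq ι] [Fintype Y] (S : Matrix ι ι ℝ)
  (Z : Y → Matrix ι ι ℝ) (θ z ν : ℝ), S.IsHermitian → (∀ y, (Z y).IsHermitian) →
  0 ≤ θ → 0 < z → 0 ≤ ν → (∀ y, ∀ v : ι → ℝ, |v ⬝ᵥ (Z y) *ᵥ v| ≤ z * (v ⬝ᵥ v)) →
  (∀ v : ι → ℝ, ∑ y, v ⬝ᵥ (Z y * Z y) *ᵥ v ≤ Fintype.card Y * ν * (v ⬝ᵥ v)) →
    ∑ y, (NormedSpace.exp (θ • (S + Z y))).trace ≤
      Fintype.card Y * (1 + θ * √ν + Real.exp (θ * z) / z ^ 2 * ν) *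
        (NormedSpace.exp (θ • S)).trace

/-- SBN (sequential). Hypotheses `T_BNS`, `T_SPE`; see `Pool/Agent/RCG/SEQ.lean` (`sum_cons`,
`tE_bad`, `tr_exp_nonneg`). Let `E j` be the sum of `tr exp (θ S_j y)` over the `j`-tuples with
`AG gd j y`. `E 0 = |ι|`, and `E (j+1) <= |Y| F E j`, `F` the bracket (for `y` with `gd j y` and
`AG gd j y` use BNS; the other `y` do not contribute). If `S_d y` is not `<= t` then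
`tr exp (θ S_d y) >= e^(θ t)` (Jensen). So the number is at most `e^(-θ t) E d`. -/
def T_SBN : Prop := ∀ (ι Y : Type) [Fintype ι] [DecidableEq ι] [Fintype Y]
  (gd : (j : ℕ) → (Fin j → Y) → Prop) (S : (j : ℕ) → (Fin j → Y) → Matrix ι ι ℝ)
  (Z : (j : ℕ) → (Fin j → Y) → Y → Matrix ι ι ℝ) (θ z ν t : ℝ) (d : ℕ), 0 ≤ θ → 0 < z → 0 ≤ ν →
  (∀ j y, (S j y).IsHermitian) → (∀ y, S 0 y = 0) →
  (∀ j y h, S (j + 1) (Fin.cons h y) = S j y + Z j y h) → (∀ j y h, (Z j y h).IsHermitian) →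
  (∀ j < d, ∀ y, gd j y →
    (∀ h, ∀ v : ι → ℝ, |v ⬝ᵥ (Z j y h) *ᵥ v| ≤ z * (v ⬝ᵥ v)) ∧
    (∀ v : ι → ℝ, ∑ h, v ⬝ᵥ (Z j y h * Z j y h) *ᵥ v ≤ Fintype.card Y * ν * (v ⬝ᵥ v))) →
  (Nat.card {y : Fin d → Y // AG gd d y ∧ ¬ ∀ v : ι → ℝ, v ⬝ᵥ (S d y) *ᵥ v ≤ t * (v ⬝ᵥ v)} : ℝ) ≤
    Fintype.card ι * Real.exp (-(θ * t)) *
      (1 + θ * √ν + Real.exp (θ * z) / z ^ 2 * ν) ^ d * (Fintype.card Y : ℝ) ^ d

/-- AGC. Induction on `d`: a `(d+1)`-tuple without `AG` has a tail which is not good or has no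
`AG`. -/
def T_AGC : Prop := ∀ (Y : Type) [Fintype Y] (gd : (j : ℕ) → (Fin j → Y) → Prop) (d : ℕ),
  Nat.card {y : Fin d → Y // ¬ AG gd d y} ≤
    ∑ j ∈ range d, Nat.card {y : Fin j → Y // ¬ gd j y} * Fintype.card Y ^ (d - j)

/-! ## Counting in `SL (2, p)` -/

/-- CRD: the order of `SL (2, p)` is `p³ - p`. Lower left entry `c ≠ 0`: `(p-1) p²` matrices
(`a, d` arbitrary); `c = 0`: `(p-1) p` matrices. (Or `Matrix.card_GL_field`.) -/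
def T_CRD : Prop := ∀ (p : ℕ) [Fact p.Prime], Fintype.card (SL 2 p) + p = p ^ 3

/-- LIN (sections of `SL (2, p)`). `x = [a, b; c, d]` is not scalar, `m = [α, β; γ, t - α]`,
`tr (m x) = α (a - d) + β c + γ b + t d`, `det m = α (t - α) - β γ = 1`. Put `e = t' - t d`.
`c ≠ 0`: `β = (e - α (a - d) - γ b)/c` and for each `α` (at most `p` of them)
`(b/c) γ² - γ (e - α (a - d))/c + α (t - α) - 1 = 0`. `b ≠ 0`: at most `2` solutions `γ` for each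
`α`. `b = 0`: one solution `γ` if `e ≠ α (a - d)`; if `e = α (a - d)` there are `0` or `p`
solutions, `p` only if `α (t - α) = 1`; for `a ≠ d` this is one `α` (total `<= 2 p - 1`), for
`a = d` at most two `α` (total `<= 2 p`). `c = 0`, `b ≠ 0`: transpose. `b = c = 0`, `a ≠ d`: `α` is
determined and `β γ` is given: at most `2 p - 1` solutions. -/
def T_LIN : Prop := ∀ (p : ℕ) [Fact p.Prime] (x : Matrix (Fin 2) (Fin 2) (ZMod p))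
  (t t' : ZMod p), ¬ (x 0 1 = 0 ∧ x 1 0 = 0 ∧ x 0 0 = x 1 1) →
    Nat.card {m : SL 2 p // (m : Matrix (Fin 2) (Fin 2) (ZMod p)).trace = t ∧
      ((m : Matrix (Fin 2) (Fin 2) (ZMod p)) * x).trace = t'} ≤ 2 * p

/-- SQC. `h g h = x` iff `y² = x g` for `y = h g`. Cayley-Hamilton: `y² = (tr y) y - 1`, so
`(tr y) y = x g + 1` and `(tr y)² = tr (x g) + 2`. If `x g ≠ -1` then `tr y ≠ 0` and `y` is
determined by `tr y`, at most two values. If `x g = -1` then `tr y = 0`, `y = [α, β; γ, -α]` with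
`- α² - β γ = 1`: at most `p² + p` matrices. -/
def T_SQC : Prop := ∀ (p : ℕ) [Fact p.Prime] (g x : SL 2 p),
  (((x * g : SL 2 p) : Matrix (Fin 2) (Fin 2) (ZMod p)) ≠ -1 →
    Nat.card {h : SL 2 p // h * g * h = x} ≤ 2) ∧
  Nat.card {h : SL 2 p // h * g * h = x} ≤ 2 * p ^ 2

/-- CLC (class times class). Hypotheses `T_LIN`, `T_CEN2`. If the pair `(h, h')` is counted then
`m = h' g h'⁻¹` has `tr m = tr g` and `m x = h g h⁻¹`, so `tr (m x) = tr g`. For `x ≠ ± 1` (then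
`x` is not scalar, as `det x = 1`) LIN gives at most `2 p` matrices `m`; for each `m` at most `2 p`
elements `h'` and at most `2 p` elements `h` (centralizer). For arbitrary `x`: for every
`h'` at most `2 p` elements `h`. -/
def T_CLC : Prop := ∀ (p : ℕ) [Fact p.Prime] (g : SL 2 p),
  (g : Matrix (Fin 2) (Fin 2) (ZMod p)) ≠ 1 → (g : Matrix (Fin 2) (Fin 2) (ZMod p)) ≠ -1 →
  ∀ x : SL 2 p, ((x : Matrix (Fin 2) (Fin 2) (ZMod p)) ≠ 1 →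
    (x : Matrix (Fin 2) (Fin 2) (ZMod p)) ≠ -1 →
    Nat.card {hh : SL 2 p × SL 2 p // (hh.2 * g * hh.2⁻¹)⁻¹ * (hh.1 * g * hh.1⁻¹) = x} ≤
      8 * p ^ 3) ∧
    Nat.card {hh : SL 2 p × SL 2 p // (hh.2 * g * hh.2⁻¹)⁻¹ * (hh.1 * g * hh.1⁻¹) = x} ≤
      2 * p * Fintype.card (SL 2 p)

/-! ## Second moments -/

/-- QRB. `Q` is a symmetric idempotent, `R_x` orthogonal (`PRO_.Rm_T`). For the sums:
`h -> g h` and `h -> g h⁻¹` are bijections; `qR Q h u = qR Q h f` with `f = u -` mean of `u`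
(`Q 1 = 0`), `f.f <= u.u`, and `sum_h qR Q h f = sum_h f.(R_h⁻¹ Q R_h) f` is bounded by `NB`. -/
def T_QRB : Prop := ∀ (G : Type) [Group G] [Fintype G] (Q : Matrix G G ℝ) (ν : ℝ),
  Pj Q → 0 ≤ ν → NB Q ν → ∀ u : G → ℝ,
  (∀ x : G, 0 ≤ qR Q x u ∧ qR Q x u ≤ u ⬝ᵥ u ∧
    (Q *ᵥ (Rm x *ᵥ u)) ⬝ᵥ (Q *ᵥ (Rm x *ᵥ u)) = qR Q x u) ∧
  ∀ g : G, ∑ h : G, qR Q (g * h) u ≤ ν * Fintype.card G * (u ⬝ᵥ u) ∧
    ∑ h : G, qR Q (g * h⁻¹) u ≤ ν * Fintype.card G * (u ⬝ᵥ u)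

/-- SQR. Hypotheses `T_SQC`, `T_CRD`, `T_QRB`. The sum is `sum_x #{h : h g h = x} qR Q x u <=
2 sum_x qR Q x u + 2 p² qR Q x0 u`, `x0 = - g⁻¹`, and `2 p² <= (3/p) |G|`. -/
def T_SQR : Prop := ∀ (p : ℕ) [Fact p.Prime], 19 ≤ p → ∀ (Q : Matrix (SL 2 p) (SL 2 p) ℝ)
  (ν : ℝ), Pj Q → 0 ≤ ν → NB Q ν → ∀ (g : SL 2 p) (u : SL 2 p → ℝ),
    ∑ h : SL 2 p, qR Q (h * g * h) u ≤
      (2 * ν + 3 / p) * Fintype.card (SL 2 p) * (u ⬝ᵥ u)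

/-- LIF. (1) `(L_g Q) x z = Q (g x) z`, `(Q L_g) x z = Q x (g⁻¹ z)`. (3) `Q x (x k) = Q 1 k`.
(4) from (3). (5) Hypothesis `T_MIX`: let `f ≠ 0` be a column of `Q`, so `Q f = f` and `f` has sum
zero; MIX with `K h = Q 1 h` gives `D |Q f|² <= |G| (sum_h (Q 1 h)²) |f|²`, and
`|G| sum_h (Q 1 h)² = tr (Q Qᵀ) = tr Q`. -/
def T_LIF : Prop := ∀ (G : Type) [Group G] [Fintype G] (Q : Matrix G G ℝ),
  (LI Q ↔ ∀ g : G, Lm g * Q = Q * Lm g) ∧ (∀ g k : G, Lm g * Rm k = Rm k * Lm g) ∧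
  (LI Q → Q = ∑ k, Q 1 k • Rm k) ∧
  (LI Q → ∀ Z : Matrix G G ℝ, (∀ k, Z * Rm k = Rm k * Z) → Z * Q = Q * Z) ∧
  ∀ D : ℝ, 0 < D → MinDim G D → LI Q → Pj Q → Q ≠ 0 → D ≤ Q.trace

/-- RCG (the second moment for a conjugacy class). Hypotheses `T_TOP`, `T_LIF`. Write
`c_h = h g h⁻¹`, `T = sum_h R_(c_h)⁻¹ Q R_(c_h)` (symmetric, a combination of right translations,
`T 1 = 0`), so the sum is `u.T u = f.T f`, `f = u -` mean; `|G| = 1` is trivial. Let `P0 = 1 - J`,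
`J` the matrix with entries `1/|G|`. `T_TOP` for `T, P0` gives `μ` and `W` (`W` commutes with
all matrices commuting with `T` and `P0`, in particular with the `L_g`, so `LI W`; `W 1 = 0`);
`f.T f <= μ f.f`, so it is enough to bound `μ > 0`. Let `C = |G|⁻¹ sum_y R_y W R_y⁻¹`, symmetric,
it commutes with all `R_y`, `L_g`, `P0`. `T_TOP` for `C, P0` gives `c0` and `Z ≠ 0`; `Z` commutes
with all `R_y`, `L_g`, so with `Q`, `T` (`T_LIF` (4)) and `W`. Put `w = tr (W Z)`, `z = tr Z > 0`.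
`w = tr (R_y W R_y⁻¹ Z)` for every `y`, so `w = tr (C Z) = c0 z`; `c0 > 0`, since
`0 < tr W = tr C = tr (P0 C P0) <= c0 tr P0`. So `w > 0`, and `D <= w` by `T_LIF` (5) for the
projection `W Z`. (ii) NB for the columns of `Z`: `tr (Z R_h Q R_h⁻¹) = tr (Z Q)`, so
`tr (Z Q) <= ν z`. (iii) `μ w = tr (T W Z) = sum_h tr (Q R_c W Z R_c⁻¹) = tr ((Q Z) S)`,
`S = sum_h R_c W Z R_c⁻¹` symmetric, so (Cauchy-Schwarz) `(μ w)² <= tr (Z Q Z) tr (S²) <=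
ν z tr (S²)`. (iv) `tr (S²) = sum_(h,h') φ (c_(h')⁻¹ c_h)`, `φ y = tr (W Z R_y⁻¹ W Z R_y)`,
`0 <= φ y <= w`, `sum_y φ y = |G| tr (W Z C Z) = |G| c0 w = |G| w²/z`. So
`tr (S²) <= α |G| |G| w²/z + β |E| w` and `μ² <= ν (α |G|² + β |E| z/w) <=
ν |G|² (α + β |E|/(D |G|))`, as `z <= |G|`. -/
def T_RCG : Prop := ∀ (G : Type) [Group G] [Fintype G] (D α β ν : ℝ) (Q : Matrix G G ℝ),
  0 < D → MinDim G D → 0 ≤ α → 0 ≤ β → Pj Q → LI Q → 0 ≤ ν → NB Q ν →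
  ∀ (g : G) (E : Finset G),
  (∀ x, x ∉ E → (Nat.card {hh : G × G //
    (hh.2 * g * hh.2⁻¹)⁻¹ * (hh.1 * g * hh.1⁻¹) = x} : ℝ) ≤ α * Fintype.card G) →
  (∀ x, (Nat.card {hh : G × G //
    (hh.2 * g * hh.2⁻¹)⁻¹ * (hh.1 * g * hh.1⁻¹) = x} : ℝ) ≤ β) →
  ∀ u : G → ℝ, ∑ h : G, qR Q (h * g * h⁻¹) u ≤
    √(ν * (α + β * E.card / (D * Fintype.card G))) * Fintype.card G * (u ⬝ᵥ u)

/-- RCN. Hypotheses `T_RCG`, `T_CLC`, `T_CRD`, `T_DIM2`: `D = (p-1)/2`, `E = {1, -1}`,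
`α = 9` (`8 p³ <= 9 |G|`), `β = 2 p |G|`: `α + β |E|/(D |G|) <= 9 + 8 p/(p-1) <= 18`. -/
def T_RCN : Prop := ∀ (p : ℕ) [Fact p.Prime], 19 ≤ p → ∀ (Q : Matrix (SL 2 p) (SL 2 p) ℝ)
  (ν : ℝ), Pj Q → LI Q → 0 ≤ ν → NB Q ν → ∀ g : SL 2 p,
  (g : Matrix (Fin 2) (Fin 2) (ZMod p)) ≠ 1 → (g : Matrix (Fin 2) (Fin 2) (ZMod p)) ≠ -1 →
  ∀ u : SL 2 p → ℝ, ∑ h : SL 2 p, qR Q (h * g * h⁻¹) u ≤
    √(18 * ν) * Fintype.card (SL 2 p) * (u ⬝ᵥ u)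

/-! ## The increments -/

/-- WEX. Hypotheses `T_ADM`, `T_ITR`: `A_y^m = sum over words w of length m of R_(ev y w)` (see
`NUM_.pwM_mulVec`, `NUM_.ev_triv`, `NUM_.card_words`; two matrices with the same `mulVec` are
equal). Trivial words give `R_1`; for the others `ev y w ≠ ± 1` by `¬ Rel`. `Ω` is the type of the
pairs `(m, w)`, `m < q`, `w` a nontrivial word of length `m`. -/
def T_WEX : Prop := ∀ (p : ℕ) [Fact p.Prime] (d q : ℕ) (c : ℕ → ℝ) (y : Fin d → SL 2 p),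
  (∀ m < q, ¬ Rel m y) →
    CE (NP y c q) (∑ m ∈ range q, c m * (tw d m : ℝ)) (∑ m ∈ range q, |c m| * (2 * (d : ℝ)) ^ m)

/-- NRM (from the quadratic form to the norm), as `T_POL`: for `f, g` of sum zero
`4 <N f, g> = <N (f+g), f+g> - <N (f-g), f-g> <= 2 M (|f|² + |g|²)`; `g = N f |f|/|N f|`. -/
def T_NRM : Prop := ∀ (G : Type) [Fintype G] (N : Matrix G G ℝ) (M : ℝ), N.IsHermitian →
  (∀ f : G → ℝ, ∑ x, f x = 0 → ∑ x, (N *ᵥ f) x = 0) → 0 ≤ M →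
  (∀ f : G → ℝ, ∑ x, f x = 0 → |f ⬝ᵥ N *ᵥ f| ≤ M * (f ⬝ᵥ f)) →
  ∀ f : G → ℝ, ∑ x, f x = 0 → (N *ᵥ f) ⬝ᵥ (N *ᵥ f) ≤ M ^ 2 * (f ⬝ᵥ f)

/-- the compressed quadratic process, minus its mean -/
noncomputable def Sn {G : Type} [Group G] [Fintype G] (Q N : Matrix G G ℝ) (n0 : ℝ) {j : ℕ}
    (y : Fin j → G) : Matrix G G ℝ :=
  Q * (adM y * N * adM y) * Q - (2 * (j : ℝ) * n0) • Q

/-- its increment -/
noncomputable def Zn {G : Type} [Group G] [Fintype G] (Q N : Matrix G G ℝ) (n0 : ℝ) {j : ℕ}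
    (y : Fin j → G) (h : G) : Matrix G G ℝ :=
  Q * ((Rm h + Rm h⁻¹) * N * adM y + adM y * N * (Rm h + Rm h⁻¹)) * Q +
    Q * ((Rm h + Rm h⁻¹) * N * (Rm h + Rm h⁻¹)) * Q - (2 * n0) • Q

/-- ZNA (algebra). Hypothesis `T_ADM`: `adM (Fin.cons h y) = X_h + adM y` (see `ZED.lean`). -/
def T_ZNA : Prop := ∀ (G : Type) [Group G] [Fintype G] (Q N : Matrix G G ℝ) (n0 : ℝ),
  Pj Q → N.IsHermitian → (∀ y : Fin 0 → G, Sn Q N n0 y = 0) ∧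
  ∀ (j : ℕ) (y : Fin j → G), (Sn Q N n0 y).IsHermitian ∧
    (∀ h, (Zn Q N n0 y h).IsHermitian) ∧
    ∀ h : G, Sn Q N n0 (Fin.cons h y : Fin (j + 1) → G) = Sn Q N n0 y + Zn Q N n0 y h

/-- ZNB. Hypotheses `T_ADM`, `T_POL`, `T_NRM`. Let `w = Q v` (sum zero, `|w| <= |v|`).
`v.Z v = 2 <X_h w, N A_y w> + <X_h w, N X_h w> - 2 n0 |w|²`, `|X_h w| <= 2 |w|`,
`|A_y w| <= B |w|` (POL, `adM y *ᵥ w = adj y w`), `|N w'| <= M |w'|` for `w'` of sum zero. -/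
def T_ZNB : Prop := ∀ (G : Type) [Group G] [Fintype G] (Q N : Matrix G G ℝ) (n0 M B : ℝ) (j : ℕ)
  (y : Fin j → G), Pj Q → N.IsHermitian →
  (∀ f : G → ℝ, ∑ x, f x = 0 → ∑ x, (N *ᵥ f) x = 0) → 0 ≤ M →
  (∀ f : G → ℝ, ∑ x, f x = 0 → |f ⬝ᵥ N *ᵥ f| ≤ M * (f ⬝ᵥ f)) → 0 ≤ B → QB y B →
  ∀ (h : G) (v : G → ℝ), |v ⬝ᵥ (Zn Q N n0 y h) *ᵥ v| ≤
    (4 * M * B + 4 * M + 2 * |n0|) * (v ⬝ᵥ v)

/-- ZNM (second moment). Hypotheses `T_ADM`, `T_POL`, `T_NRM`, `T_QRB`, `T_SQR`, `T_RCN`. Write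
`N = n0 R_1 + sum e_ω R_(γ ω)` and `w = Q v`, `|w| <= |v|`. `N` preserves sum zero. With
`X_h² = 2 R_1 + R_(h²) + R_(h⁻²)` one has `Z_h = Z1 + Z2 + Z3 + Z4`, `Z1 = Q X_h N A_y Q`,
`Z2 = Q A_y N X_h Q`, `Z3 = n0 Q (R_(h²) + R_(h⁻²)) Q`, `Z4 = sum_ω e_ω Q X_h R_(γ ω) X_h Q`, and
`|Z_h v|² <= 4 sum |Z_i v|²`. (1) `u = N A_y w` has sum zero, `|u| <= M B |v|`, and
`|Q X_h u|² <= 2 (qR Q h u + qR Q h⁻¹ u)`: sum over `h` at most `4 ν |G| L² |v|²`. (2)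
`A_y N = sum over (i, ±) of (n0 R_(y_i^±) + sum_ω e_ω R_(y_i^± γ ω))`, the absolute values of the
coefficients have sum `<= 2 j (|n0| + C) <= L`, and by convexity
`|Z2 v|² <= L sum |coef| |Q R_g X_h w|²`, `sum_h |Q R_g X_h w|² <=
2 sum_h (qR Q (g h) w + qR Q (g h⁻¹) w) <= 4 ν |G| |v|²`: at most `4 L² ν |G| |v|²`. (3)
`2 n0² sum_h (qR Q (h h) w + qR Q (h⁻¹ h⁻¹) w) <= 4 L² (2 ν + 3/p) |G| |v|²` (SQR, `g = 1`). (4)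
`|Z4 v|² <= L sum_ω |e_ω| 4 (sum of the four qR Q (h^± γ h^±) w)`, sum over `h` (the map
`h -> h⁻¹` is a bijection) at most `4 L² (2 (2 ν + 3/p) + 2 √(18 ν)) |G| |v|²` (SQR, RCN). Total
`4 L² (32 ν + 36/p + 8 √18 √ν) |G| |v|² <= 144 L² (ν + √ν + 1/p) |G| |v|²`. -/
def T_ZNM : Prop := ∀ (p : ℕ) [Fact p.Prime], 19 ≤ p → ∀ (Q N : Matrix (SL 2 p) (SL 2 p) ℝ)
  (ν n0 C M B L : ℝ) (j : ℕ) (y : Fin j → SL 2 p), Pj Q → LI Q → 0 ≤ ν → NB Q ν →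
  N.IsHermitian → CE N n0 C → 0 ≤ M →
  (∀ f : SL 2 p → ℝ, ∑ x, f x = 0 → |f ⬝ᵥ N *ᵥ f| ≤ M * (f ⬝ᵥ f)) → 0 ≤ B → QB y B →
  M * B ≤ L → 2 * (j : ℝ) * (|n0| + C) ≤ L → |n0| ≤ L → C ≤ L →
  ∀ v : SL 2 p → ℝ, ∑ h, v ⬝ᵥ (Zn Q N n0 y h * Zn Q N n0 y h) *ᵥ v ≤
    Fintype.card (SL 2 p) * (144 * L ^ 2 * (ν + √ν + 1 / p)) * (v ⬝ᵥ v)

/-! ## Counting the exceptional blocks -/

/-- CT1. Hypotheses `T_SBN`, `T_QRB`, `T_ADM`: twice SBN, for `S_j y = ± Q A_y Q`,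
`Z_j y h = ± Q X_h Q`, `gd = True`, `z = 2`, `4 ν` (`|X_h w| <= 2 |w|`,
`|Q X_h w|² <= 2 (qR Q h w + qR Q h⁻¹ w)`). -/
def T_CT1 : Prop := ∀ (G : Type) [Group G] [Fintype G] (Q : Matrix G G ℝ) (ν θ t : ℝ) (d : ℕ),
  Pj Q → 0 ≤ ν → NB Q ν → 0 ≤ θ →
  (Nat.card {a : Fin d → G // ¬ ∀ v : G → ℝ,
    |v ⬝ᵥ (Q * adM a * Q) *ᵥ v| ≤ t * (v ⬝ᵥ v)} : ℝ) ≤
    2 * Fintype.card G * Real.exp (-(θ * t)) *
      (1 + θ * √(4 * ν) + Real.exp (θ * 2) / 2 ^ 2 * (4 * ν)) ^ d * (Fintype.card G : ℝ) ^ d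

/-- CT2. Hypotheses `T_SBN`, `T_ZNA`, `T_ZNB`, `T_ZNM`: SBN for `S_j y = Sn Q N n0 y`,
`Z_j y h = Zn Q N n0 y h`, `gd = (QB · B)`. If `Sn Q N n0 a <= t` then
`v.Q A N A Q v <= 2 d n0 v.Q v + t v.v <= (2 d |n0| + t) v.v`. (`N` preserves sum zero by `CE`.) -/
def T_CT2 : Prop := ∀ (p : ℕ) [Fact p.Prime], 19 ≤ p → ∀ (Q N : Matrix (SL 2 p) (SL 2 p) ℝ)
  (ν n0 C M B L θ t : ℝ) (d : ℕ), Pj Q → LI Q → 0 ≤ ν → NB Q ν →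
  N.IsHermitian → CE N n0 C → 0 < M →
  (∀ f : SL 2 p → ℝ, ∑ x, f x = 0 → |f ⬝ᵥ N *ᵥ f| ≤ M * (f ⬝ᵥ f)) → 0 ≤ B →
  M * B ≤ L → 2 * (d : ℝ) * (|n0| + C) ≤ L → |n0| ≤ L → C ≤ L → 0 ≤ θ →
  (Nat.card {a : Fin d → SL 2 p // AG (fun (j : ℕ) (y : Fin j → SL 2 p) => QB y B) d a ∧
    ¬ ∀ v : SL 2 p → ℝ, v ⬝ᵥ (Q * (adM a * N * adM a) * Q) *ᵥ v ≤
      (2 * d * |n0| + t) * (v ⬝ᵥ v)} : ℝ) ≤
    Fintype.card (SL 2 p) * Real.exp (-(θ * t)) *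
      (1 + θ * √(144 * L ^ 2 * (ν + √ν + 1 / p)) +
        Real.exp (θ * (4 * M * B + 4 * M + 2 * |n0|)) / (4 * M * B + 4 * M + 2 * |n0|) ^ 2 *
          (144 * L ^ 2 * (ν + √ν + 1 / p))) ^ d * (Fintype.card (SL 2 p) : ℝ) ^ d

/-- BEN (real analysis). `θ = ε log q/(4 z)`: `e^(θ z) = q^(ε/4)`, the exponential is `q^(-5)`.
For `q >= 1`: `C (ν + √ν + 1/q) <= C' q^(-ε/2)`, `C' = C (K + √K + 1)`, so the bracket is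
`1 + O (log q q^(-ε/4))` and its `d`-th power at most `2` for large `q`; `2 q^(-2) <= q^(-1)`. -/
def T_BEN : Prop := ∀ (ε K C z : ℝ) (d : ℕ), 0 < ε → ε ≤ 1 → 0 ≤ K → 0 ≤ C → 0 < z →
  ∃ P : ℝ, 1 ≤ P ∧ ∀ q ν : ℝ, P ≤ q → 0 ≤ ν → ν ≤ K * q ^ (-ε) → ∃ θ : ℝ, 0 ≤ θ ∧
    q ^ 3 * Real.exp (-(θ * (20 / ε * z))) *
      (1 + θ * √(C * (ν + √ν + 1 / q)) +
        Real.exp (θ * z) / z ^ 2 * (C * (ν + √ν + 1 / q))) ^ d ≤ q⁻¹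

/-- TLB. Hypotheses `T_FN7`, `T_AGC`. For `1 <= j <= d` a `j`-tuple without
`QB y (364 √(2d))` is bad for `364 √(2j)` (monotonicity): at most `K_j p^(-1/3) |G|^j` (enlarge
`K_j` to be nonnegative). For `j = 0` the form is `0`. Sum over `j < d` (AGC) and `j = d`. -/
def T_TLB : Prop := ∀ d : ℕ, 1 ≤ d → ∃ K P : ℝ, ∀ (p : ℕ) [Fact p.Prime], P ≤ p →
  (Nat.card {a : Fin d → SL 2 p // ¬ (QB a (364 * √(2 * (d : ℝ))) ∧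
    AG (fun (j : ℕ) (y : Fin j → SL 2 p) => QB y (364 * √(2 * (d : ℝ)))) d a)} : ℝ) ≤
    K * (p : ℝ) ^ (-(1 / 3 : ℝ)) * (Fintype.card (SL 2 p) : ℝ) ^ d

/-- FRESH. Hypotheses `T_WEX`, `T_CT1`, `T_CT2`, `T_BEN`, `T_TLB`, `T_ADM`, `T_CRD`. Put
`n0 = sum c_m tw d m`, `C = sum |c_m| (2d)^m`, `b = 364 √(2 d1)`,
`L = M b + 2 d1 (|n0| + C) + |n0| + C`, `z = 4 M b + 4 M + 2 |n0|`, `t = 20/ε z`. A block which is
not fresh is not good for TLB, or it is counted in CT1 with `t = 40/ε = 20/ε 2` (BEN with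
`C = 4`, `z = 2`, `4 ν <= 4 (ν + √ν + 1/p)`; the bracket is monotone), or in CT2 (BEN with
`144 L²`, `z`). `|G| <= p³`. Total `<= (K p^(-1/3) + 3/p) |G|^d1`, `K` from TLB. -/
def T_FRESH : Prop := ∀ (d d1 q : ℕ) (c : ℕ → ℝ) (M n1 ε K : ℝ), 1 ≤ d1 → 0 < M →
  |∑ m ∈ range q, c m * (tw d m : ℝ)| ≤ n1 → 0 < ε → ε ≤ 1 → 0 ≤ K →
  ∃ K' P : ℝ, ∀ (p : ℕ) [Fact p.Prime], P ≤ p → ∀ (y : Fin d → SL 2 p)
    (Q : Matrix (SL 2 p) (SL 2 p) ℝ) (ν : ℝ), (∀ m < q, ¬ Rel m y) → Pj Q → LI Q → 0 ≤ ν →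
    NB Q ν → ν ≤ K * (p : ℝ) ^ (-ε) →
    (∀ f : SL 2 p → ℝ, ∑ x, f x = 0 → |f ⬝ᵥ NP y c q *ᵥ f| ≤ M * (f ⬝ᵥ f)) →
    (Nat.card {a : Fin d1 → SL 2 p // ¬ FRB a Q (NP y c q) (364 * √(2 * (d1 : ℝ))) (40 / ε)
      (2 * d1 * n1 + 20 / ε * (4 * M * (364 * √(2 * (d1 : ℝ))) + 4 * M + 2 * n1))} : ℝ) ≤
      K' * (p : ℝ) ^ (-(1 / 3 : ℝ)) * (Fintype.card (SL 2 p) : ℝ) ^ d1

end Pool.Agent.RCG
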