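import Pool.Agent.RCG.Targets7

set_option autoImplicit false

/-!
# RCG: ninth group of targets (part B of RCG8): `|λ| <= (2 + δ) √k` for all large degrees

Part B: the deterministic part (leave one block out), the free resolvent, the choice of the
parameters, the final count. `k = 2 d` is the degree. Write the proof of `T_XXX` in a new file
`Pool/Agent/RCG/XXX.lean`: `theorem prove_XXX (h : T_YYY) ... : T_XXX`, helper lemmas in a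
sub-namespace `XXX_`.
-/

namespace Pool.Agent.RCG

open Finset Matrix

/-! ## The free resolvent -/

/-- the number of trivial words of length `m` in `d` letters and their inverses -/
noncomputable def tw (d m : ℕ) : ℕ :=
  Nat.card {w : Fin m → Ltr d // FreeGroup.mk (List.ofFn w) = 1}

/-- CAT. The technique of `Pool/Agent/RCG/KES.lean`. Let `ρ = (l - √(l² - 4k))/(2k) > 0`, so
`1 - l ρ + k ρ² = 0`, and `h x = ρ^(|x|+1)` on the free group (`|x| = toWord.length`). Then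
`[x = 1] + sum_l h (l x) <= l h x`: for `x ≠ 1` one letter shortens `x` and the others lengthen it,
`ρ^|x| + (2d-1) ρ^(|x|+2) <= ρ^|x| (1 + k ρ²) = l ρ^(|x|+1)`; for `x = 1`,
`1 + 2 d ρ² <= 1 + k ρ² = l ρ`. So by induction on `J`, for every `x`,
`sum_(m<J) #{w : Fin m → Ltr d | w x = 1} / l^(m+1) <= h x`; take `x = 1`. -/
def T_CAT : Prop := ∀ (d J : ℕ) (k l : ℝ), 1 ≤ d → 2 * (d : ℝ) ≤ k → 0 < l → 4 * k ≤ l ^ 2 →
  ∑ m ∈ range J, (tw d m : ℝ) / l ^ (m + 1) ≤ (l - √(l ^ 2 - 4 * k)) / (2 * k)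

/-- coefficients of the majorant of the resolvent -/
noncomputable def cf (q : ℕ) (l0 R : ℝ) (m : ℕ) : ℝ :=
  if m < q then 1 / l0 ^ (m + 1) else 1 / (l0 ^ q * (l0 - R))

/-- the polynomial `sum_(m<q) x^m / l0^(m+1) + x^q / (l0^q (l0 - R))` -/
noncomputable def pol (q : ℕ) (l0 R x : ℝ) : ℝ := ∑ m ∈ range (q + 1), cf q l0 R m * x ^ m

/-- the polynomial with coefficients `c m`, `m <= q`, at the adjacency matrix -/
noncomputable def polM {G : Type} [Group G] [Fintype G] {d : ℕ} (y : Fin d → G) (q : ℕ)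
    (c : ℕ → ℝ) : Matrix G G ℝ := ∑ m ∈ range (q + 1), c m • pwM y m

/-- PNN. `q` even, `0 < R < l0`. (1) For `x >= 0` clear; for `x < 0` put `t = |x|/l0`:
`pol >= (1/l0) ((1 - t^q)/(1 + t) + t^q) = (1/l0) (1 + t^(q+1))/(1 + t) >= 0`, since
`1/(l0 - R) >= 1/l0`. (2) `1/(l - x) <= 1/(l0 - x) = sum_(m<q) x^m/l0^(m+1) + x^q/(l0^q (l0 - x))` and
`x^q >= 0`, `l0 - x >= l0 - R`. (3) termwise. -/
def T_PNN : Prop := ∀ (q : ℕ) (l0 R : ℝ), Even q → 0 < R → R < l0 →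
  (∀ x : ℝ, 0 ≤ pol q l0 R x) ∧
  (∀ x l : ℝ, |x| ≤ R → l0 ≤ l → 1 / (l - x) ≤ pol q l0 R x) ∧
  ∀ x B : ℝ, |x| ≤ B → pol q l0 R x ≤ pol q l0 R B

/-! ## The spectral projection -/

/-- SPR. Hypothesis `T_PNN`. Orthonormal eigenbasis `e_i` of `M`, eigenvalues `x_i`;
`Q = sum over |x_i| > R of e_i e_iᵀ`. `X` commutes with `M` iff it preserves the eigenspaces, so
it commutes with `Q` (in the eigenbasis `X_ij (x_i - x_j) = 0`; see `Pool/Agent/RCG/TOP.lean`, and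
`Pool/Agent/RCG/SPC.lean` for the next claim). Last claim: in coordinates
`(l - σ x_i) v_i = b_i + c_i`; `g = v - Q v` has `g_i = (b_i + c_i) w_i`, `w_i = 1/(l - σ x_i)`, for
`|x_i| <= R` (there `l - σ x_i >= l0 - R > 0`) and `g_i = 0` otherwise. So
`(l0 - R)² sum g_i² <= sum (b_i + c_i)²`, and `g.(b+c) = sum over |x_i| <= R of w_i (b_i + c_i)² <=
(√(sum w_i b_i²) + √(sum w_i c_i²))²` (Minkowski), `w_i <= pol q l0 R (σ x_i)`,
`w_i <= 1/(l0 - R)`, and `pol q l0 R (σ x_i) >= 0` for the other `i`. -/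
def T_SPR : Prop := ∀ (ι : Type) [Fintype ι] [DecidableEq ι] (M : Matrix ι ι ℝ) (R : ℝ),
  M.IsHermitian → 0 < R →
  ∃ Q : Matrix ι ι ℝ, Q.IsHermitian ∧ Q * Q = Q ∧
    (∀ X : Matrix ι ι ℝ, X * M = M * X → X * Q = Q * X) ∧
    (∀ n : ℕ, Even n → ∀ v, v ⬝ᵥ Q *ᵥ v ≤ (R ^ n)⁻¹ * (v ⬝ᵥ (M ^ n) *ᵥ v)) ∧
    ∀ (q : ℕ) (l0 l σ : ℝ), Even q → R < l0 → l0 ≤ l → (σ = 1 ∨ σ = -1) → ∀ v b c : ι → ℝ,
      l • v - σ • (M *ᵥ v) = b + c →
      (l0 - R) ^ 2 * ((v - Q *ᵥ v) ⬝ᵥ (v - Q *ᵥ v)) ≤ (b + c) ⬝ᵥ (b + c) ∧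
      (v - Q *ᵥ v) ⬝ᵥ (b + c) ≤
        (√(b ⬝ᵥ (∑ m ∈ range (q + 1), (cf q l0 R m * σ ^ m) • M ^ m) *ᵥ b) +
          √(c ⬝ᵥ c) / √(l0 - R)) ^ 2

/-- the matrix is invariant under left translations -/
def LI {G : Type} [Group G] (Q : Matrix G G ℝ) : Prop := ∀ g x z : G, Q (g * x) (g * z) = Q x z

/-- the resolvent property of the spectral projection `Q` of `adM y` above `R` -/
def RSV {G : Type} [Group G] [Fintype G] {d : ℕ} (y : Fin d → G) (Q : Matrix G G ℝ) (R : ℝ) :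
    Prop :=
  ∀ (q : ℕ) (l0 l σ : ℝ), Even q → R < l0 → l0 ≤ l → (σ = 1 ∨ σ = -1) → ∀ v b c : G → ℝ,
    ∑ x, v x = 0 → ∑ x, b x = 0 → ∑ x, c x = 0 → l • v - σ • (adM y *ᵥ v) = b + c →
    (l0 - R) ^ 2 * ((v - Q *ᵥ v) ⬝ᵥ (v - Q *ᵥ v)) ≤ (b + c) ⬝ᵥ (b + c) ∧
    (v - Q *ᵥ v) ⬝ᵥ (b + c) ≤
      (√(b ⬝ᵥ polM y q (fun m => cf q l0 R m * σ ^ m) *ᵥ b) + √(c ⬝ᵥ c) / √(l0 - R)) ^ 2

/-- PR9. Hypotheses `T_SPR`, `T_ADM`. Let `M = adM y - 2 d J`, `J` the matrix with all entries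
`1/|G|`: it is symmetric, kills the constants, and `M f = adM y f`, of sum zero, for `f` of sum zero
(so `M^m f = pwM y m f`). Take `Q` from SPR. `1.Q1 <= R^(-n) 1.M^n 1 = 0`, so `Q 1 = 0`. `LI`: `M`
is invariant under left translations, so it commutes with their permutation matrices. `NB`: for `f`
of sum zero `f.(R_h Q R_h⁻¹) f = f'.Q f' <= R^(-n) f'.M^n f' = R^(-n) f'.A^n f'`, `f' = R_h⁻¹ f`
(see `Pool/Agent/RCG/PRO.lean`). -/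
def T_PR9 : Prop := ∀ (G : Type) [Group G] [Fintype G] (d n : ℕ) (y : Fin d → G) (R c : ℝ),
  0 < R → Even n → 2 ≤ n → NB (pwM y n) c →
    ∃ Q : Matrix G G ℝ, Pj Q ∧ LI Q ∧ NB Q (c / R ^ n) ∧ RSV y Q R

/-- PBD. Hypotheses `T_PNN`, `T_ADM`. With `M` as in PR9, `|v.Mv| <= B v.v` for all `v`
(`v = const + f`), so all eigenvalues of `M` have absolute value `<= B`, and
`f.polM f = sum over an orthonormal eigenbasis of pol q l0 R (σ x_i) f_i²`. -/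
def T_PBD : Prop := ∀ (G : Type) [Group G] [Fintype G] (d q : ℕ) (y : Fin d → G)
  (R l0 B σ : ℝ), Even q → 0 < R → R < l0 → 0 ≤ B → (σ = 1 ∨ σ = -1) → QB y B →
  ∀ f : G → ℝ, ∑ x, f x = 0 →
    0 ≤ f ⬝ᵥ polM y q (fun m => cf q l0 R m * σ ^ m) *ᵥ f ∧
    f ⬝ᵥ polM y q (fun m => cf q l0 R m * σ ^ m) *ᵥ f ≤ pol q l0 R B * (f ⬝ᵥ f)

/-! ## Leave one block out -/

/-- an eigenvector `v` of `σ A`, `A = adM y' + adM a`, for an eigenvalue `l >= l0` has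
`σ v.(adM a)v <= r v.v` -/
def BG {G : Type} [Group G] [Fintype G] {d' d1 : ℕ} (y' : Fin d' → G) (a : Fin d1 → G)
    (l0 r : ℝ) : Prop :=
  ∀ (l σ : ℝ) (v : G → ℝ), (σ = 1 ∨ σ = -1) → l0 ≤ l → ∑ x, v x = 0 →
    σ • (adM y' *ᵥ v + adM a *ᵥ v) = l • v → σ * (v ⬝ᵥ adM a *ᵥ v) ≤ r * (v ⬝ᵥ v)

/-- the bound for one block -/
noncomputable def rr (l0 R B1 u κ : ℝ) : ℝ :=
  u + 2 * (√κ + B1 ^ 2 / √(l0 - R) ^ 3) ^ 2 + B1 ^ 3 / (l0 - R) ^ 2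

/-- CAV (deterministic). Hypotheses `T_ADM`, `T_POL`. Let `A = adM a`, `f = Q v`, `g = v - Q v`,
`e = l v - σ (adM y') v = σ A v = b + c`, `b = σ A f`, `c = σ A g`. POL gives `|A w| <= B1 |w|` for
`w` of sum zero, so `|e| <= B1 |v|`, `|g| <= η |v|`, `η = B1/(l0-R)` (RSV),
`|c| <= B1 η |v|`, `√(b.P b) = √(v.(Q A P A Q) v) <= √κ |v|`, so RSV gives
`g.e <= (√κ + B1² / √(l0-R)^3)² |v|²`. Finally `σ v.A v = f.(σ A) f + 2 g.e - g.(σ A) g`,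
`|g.A g| <= B1 η² |v|²`. -/
def T_CAV : Prop := ∀ (G : Type) [Group G] [Fintype G] (d' d1 q : ℕ) (y' : Fin d' → G)
  (a : Fin d1 → G) (Q : Matrix G G ℝ) (R l0 B1 u κ : ℝ), Even q → 0 < R → R < l0 → 0 ≤ B1 →
  0 ≤ u → 0 ≤ κ → Pj Q → RSV y' Q R → QB a B1 →
  (∀ v : G → ℝ, |v ⬝ᵥ (Q * adM a * Q) *ᵥ v| ≤ u * (v ⬝ᵥ v)) →
  (∀ σ : ℝ, (σ = 1 ∨ σ = -1) → ∀ v : G → ℝ,
    v ⬝ᵥ (Q * (adM a * polM y' q (fun m => cf q l0 R m * σ ^ m) * adM a) * Q) *ᵥ v ≤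
      κ * (v ⬝ᵥ v)) →
  BG y' a l0 (rr l0 R B1 u κ)

/-- EIG. Hypothesis `T_ADM`. `M` as in PR9: if all its eigenvalues had absolute value `<= l0`, then
`|f.A f| = |f.M f| <= l0 f.f` for `f` of sum zero. So there is an eigenvector `v` of `M` with
eigenvalue `x`, `|x| > l0 >= 0`; as `x (1.v) = 1.M v = (M 1).v = 0`, `v` has sum zero. -/
def T_EIG : Prop := ∀ (G : Type) [Group G] [Fintype G] (d : ℕ) (y : Fin d → G) (l0 : ℝ), 0 ≤ l0 →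
  ¬ QB y l0 → ∃ (l σ : ℝ) (v : G → ℝ), (σ = 1 ∨ σ = -1) ∧ l0 < l ∧ v ≠ 0 ∧ ∑ x, v x = 0 ∧
    σ • (adM y *ᵥ v) = l • v

/-- DIV. Hypotheses `T_ADM`, `T_EIG`. Let `y` be a tuple of length `(s + 1) d1` with blocks `z i`,
`i : Fin (s + 1)` (`finProdFinEquiv`), and let `y' i` be the tuple of length `s d1` of the other
blocks (`Fin.succAbove`): `adM y = adM (y' i) + adM (z i)` for all `i`, and
`adM y = sum_i adM (z i)`. If `y` is bad for `l0` let `v` be as in EIG; if all the pairs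
`(y' i, z i)` had BG then `l |v|² = sum_i σ v.(adM (z i)) v <= (s+1) r |v|² < l0 |v|²`. For each `i`
the map `y -> (y' i, z i)` is a bijection. -/
def T_DIV : Prop := ∀ (G : Type) [Group G] [Fintype G] (s d1 : ℕ) (l0 r : ℝ), 0 ≤ l0 →
  ((s : ℝ) + 1) * r < l0 →
    (badCard G ((s + 1) * d1) l0 : ℝ) ≤ ((s : ℝ) + 1) *
      Nat.card {ya : (Fin (s * d1) → G) × (Fin d1 → G) // ¬ BG ya.1 ya.2 l0 r}

end Pool.Agent.RCG
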