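import Pool.Agent.RCG.Targets14

set_option autoImplicit false

/-!
# UPB: bound for the average over the unipotent matrices
-/

namespace Pool.Agent.RCG

open Finset Matrix

namespace UPB_

section

variable {G : Type} [Group G] [Fintype G]

/-- the restriction of a translation to an invariant space -/
noncomputable def rho {W : Submodule ℂ (EuclideanSpace ℂ G)} (hW : InvS W) (g : G) :
    W →ₗ[ℂ] W := (RT g).restrict (hW.2 g)

lemma rho_coe {W : Submodule ℂ (EuclideanSpace ℂ G)} (hW : InvS W) (g : G) (w : W) :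
    ((rho hW g w : W) : EuclideanSpace ℂ G) = RT g (w : EuclideanSpace ℂ G) := rfl

lemma RT_mul_apply (h : T_RTP) (g k : G) (f : EuclideanSpace ℂ G) :
    RT (g * k) f = RT g (RT k f) := by
  have h1 := congrArg (fun T => T f) ((h G).2.1 g k)
  exact h1

lemma RT_one_apply (h : T_RTP) (f : EuclideanSpace ℂ G) : RT (1 : G) f = f := by
  have h1 := congrArg (fun T => T f) ((h G).2.2.1)
  exact h1

lemma rho_mul (h : T_RTP) {W : Submodule ℂ (EuclideanSpace ℂ G)} (hW : InvS W) (g k : G) :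
    rho hW (g * k) = rho hW g * rho hW k := by
  apply LinearMap.ext
  intro w
  apply Subtype.ext
  exact RT_mul_apply h g k w

lemma rho_one (h : T_RTP) {W : Submodule ℂ (EuclideanSpace ℂ G)} (hW : InvS W) :
    rho hW (1 : G) = 1 := by
  apply LinearMap.ext
  intro w
  apply Subtype.ext
  exact RT_one_apply h (w : EuclideanSpace ℂ G)

lemma trace_conj (h : T_RTP) {W : Submodule ℂ (EuclideanSpace ℂ G)} (hW : InvS W) (g k : G) :
    LinearMap.trace ℂ W (rho hW (k * g * k⁻¹)) = LinearMap.trace ℂ W (rho hW g) := by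
  rw [rho_mul h, LinearMap.trace_mul_comm, ← rho_mul h]
  congr 2
  group

lemma inner_RT (h : T_RTP) (g : G) (f f' : EuclideanSpace ℂ G) :
    inner ℂ (RT g f) f' = inner ℂ f (RT g⁻¹ f') := by
  have h1 := (h G).2.2.2.1 g⁻¹ (RT g f) f'
  rw [← RT_mul_apply h, inv_mul_cancel, RT_one_apply h] at h1
  exact h1.symm

end

section

variable {p : ℕ} [hp : Fact p.Prime]

lemma um_add (a b : ZMod p) : um (a + b) = um a * um b := by
  apply Subtype.ext
  ext i j
  fin_cases i <;> fin_cases j <;> simp [um, Matrix.mul_apply, Fin.sum_univ_two, add_comm]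

lemma um_zero : um (0 : ZMod p) = 1 := by
  apply Subtype.ext
  ext i j
  fin_cases i <;> fin_cases j <;> simp [um]

lemma um_neg (b : ZMod p) : (um b)⁻¹ = um (-b) := by
  rw [inv_eq_iff_mul_eq_one, ← um_add, add_neg_cancel, um_zero]

/-- the sum over the nontrivial conjugates -/
noncomputable def Cp (p : ℕ) [Fact p.Prime] :
    EuclideanSpace ℂ (SL 2 p) →ₗ[ℂ] EuclideanSpace ℂ (SL 2 p) :=
  ∑ b ∈ univ.filter (fun b : ZMod p => b ≠ 0), ∑ h : SL 2 p, RT (h * um b * h⁻¹)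

lemma Cp_apply (f : EuclideanSpace ℂ (SL 2 p)) :
    Cp p f = ∑ b ∈ univ.filter (fun b : ZMod p => b ≠ 0), ∑ h : SL 2 p,
      RT (h * um b * h⁻¹) f := by
  unfold Cp
  rw [LinearMap.sum_apply]
  exact Finset.sum_congr rfl fun b _ => by rw [LinearMap.sum_apply]

lemma sum_neg {M : Type} [AddCommMonoid M] (F : ZMod p → M) :
    ∑ b ∈ univ.filter (fun b : ZMod p => b ≠ 0), F (-b) =
      ∑ b ∈ univ.filter (fun b : ZMod p => b ≠ 0), F b := by
  refine Finset.sum_bij (fun b _ => -b) ?_ ?_ ?_ ?_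
  · intro b hb
    rw [Finset.mem_filter] at hb ⊢
    exact ⟨Finset.mem_univ _, neg_ne_zero.2 hb.2⟩
  · intro a _ b _ h
    exact neg_injective h
  · intro b hb
    rw [Finset.mem_filter] at hb
    exact ⟨-b, Finset.mem_filter.2 ⟨Finset.mem_univ _, neg_ne_zero.2 hb.2⟩, neg_neg b⟩
  · intro b _
    rfl

lemma Cp_symm (h : T_RTP) : (Cp p).IsSymmetric := by
  intro f f'
  rw [Cp_apply, Cp_apply, sum_inner, inner_sum, ← sum_neg]
  refine Finset.sum_congr rfl fun b _ => ?_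
  rw [sum_inner, inner_sum]
  refine Finset.sum_congr rfl fun k _ => ?_
  rw [inner_RT h]
  congr 2
  rw [_root_.mul_inv_rev, _root_.mul_inv_rev, inv_inv, um_neg, neg_neg, mul_assoc]

lemma Cp_comm (h : T_RTP) (g : SL 2 p) (f : EuclideanSpace ℂ (SL 2 p)) :
    Cp p (RT g f) = RT g (Cp p f) := by
  rw [Cp_apply, Cp_apply, map_sum]
  refine Finset.sum_congr rfl fun b _ => ?_
  rw [map_sum]
  refine Fintype.sum_equiv (Equiv.mulLeft g⁻¹) _ _ fun k => ?_
  rw [Equiv.coe_mulLeft, ← RT_mul_apply h, ← RT_mul_apply h]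
  congr 1
  congr 1
  group

/-- the fixed vectors -/
noncomputable def fixW {W : Submodule ℂ (EuclideanSpace ℂ (SL 2 p))} (hW : InvS W) :
    Submodule ℂ W where
  carrier := {w | ∀ b : ZMod p, rho hW (um b) w = w}
  add_mem' := by
    intro v w hv hw b
    rw [map_add, hv b, hw b]
  zero_mem' := by
    intro b
    rw [map_zero]
  smul_mem' := by
    intro c w hw b
    rw [map_smul, hw b]

lemma proj (h : T_RTP) {W : Submodule ℂ (EuclideanSpace ℂ (SL 2 p))} (hW : InvS W) :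
    LinearMap.IsProj (fixW hW) ((p : ℂ)⁻¹ • ∑ b : ZMod p, rho hW (um b)) := by
  have hp0 : (p : ℂ) ≠ 0 := by exact_mod_cast hp.out.ne_zero
  constructor
  · intro w b
    rw [LinearMap.smul_apply, LinearMap.sum_apply, map_smul, map_sum]
    congr 1
    refine Fintype.sum_equiv (Equiv.addLeft b) _ _ fun c => ?_
    rw [Equiv.coe_addLeft, um_add, rho_mul h]
    rfl
  · intro w hw
    rw [LinearMap.smul_apply, LinearMap.sum_apply, Finset.sum_congr rfl fun b _ => hw b,
      Finset.sum_const, Finset.card_univ, ZMod.card, ← Nat.cast_smul_eq_nsmul ℂ, smul_smul,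
      inv_mul_cancel₀ hp0, one_smul]

lemma trace_sum (h : T_RTP) {W : Submodule ℂ (EuclideanSpace ℂ (SL 2 p))} (hW : InvS W) :
    ∑ b : ZMod p, LinearMap.trace ℂ W (rho hW (um b)) = p * Module.finrank ℂ (fixW hW) := by
  have hp0 : (p : ℂ) ≠ 0 := by exact_mod_cast hp.out.ne_zero
  have h1 := (proj h hW).trace
  rw [map_smul, map_sum, smul_eq_mul] at h1
  rw [← h1, ← mul_assoc, mul_inv_cancel₀ hp0, one_mul]

lemma trace_sum' (h : T_RTP) {W : Submodule ℂ (EuclideanSpace ℂ (SL 2 p))} (hW : InvS W) :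
    ∑ b ∈ univ.filter (fun b : ZMod p => b ≠ 0), LinearMap.trace ℂ W (rho hW (um b)) =
      p * Module.finrank ℂ (fixW hW) - Module.finrank ℂ W := by
  have h1 := trace_sum h hW
  have h2 := Finset.sum_filter_add_sum_filter_not (univ : Finset (ZMod p)) (fun b => b ≠ 0)
    (fun b => LinearMap.trace ℂ W (rho hW (um b)))
  have h3 : (univ : Finset (ZMod p)).filter (fun b => ¬ b ≠ 0) = {0} := by
    ext b
    simp
  rw [h3, Finset.sum_singleton, um_zero, rho_one h, LinearMap.trace_one, h1] at h2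
  rw [← h2]
  ring

lemma eig_bound (h0 : T_UPW) (h : T_RTP) (hp5 : 5 ≤ p)
    {W : Submodule ℂ (EuclideanSpace ℂ (SL 2 p))} (hW : InvS W) (hpos : 0 < Module.finrank ℂ W)
    (l : ℝ) (hl : ∀ w ∈ W, Cp p w = (l : ℂ) • w) : |l| ≤ 4 * Fintype.card (SL 2 p) := by
  have hc : ∑ b ∈ univ.filter (fun b : ZMod p => b ≠ 0), ∑ k : SL 2 p,
      rho hW (k * um b * k⁻¹) = (l : ℂ) • (1 : W →ₗ[ℂ] W) := by
    apply LinearMap.ext
    intro w
    apply Subtype.ext
    have h1 := hl w w.2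
    rw [Cp_apply] at h1
    rw [LinearMap.smul_apply, LinearMap.sum_apply]
    simp only [LinearMap.sum_apply, Submodule.coe_sum, rho_coe, Module.End.one_apply,
      Submodule.coe_smul]
    exact h1
  have ht := congrArg (LinearMap.trace ℂ W) hc
  rw [map_sum, map_smul, LinearMap.trace_one, smul_eq_mul] at ht
  have ht2 : ∀ b : ZMod p, LinearMap.trace ℂ W (∑ k : SL 2 p, rho hW (k * um b * k⁻¹)) =
      Fintype.card (SL 2 p) * LinearMap.trace ℂ W (rho hW (um b)) := by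
    intro b
    rw [map_sum, Finset.sum_congr rfl fun k _ => trace_conj h hW (um b) k, Finset.sum_const,
      Finset.card_univ, nsmul_eq_mul]
  rw [Finset.sum_congr rfl fun b _ => ht2 b, ← Finset.mul_sum, trace_sum' h hW] at ht
  have ht' : (Fintype.card (SL 2 p) : ℝ) * (p * Module.finrank ℂ (fixW hW) -
      Module.finrank ℂ W) = l * Module.finrank ℂ W := by
    have : (((Fintype.card (SL 2 p) : ℝ) * (p * Module.finrank ℂ (fixW hW) -
      Module.finrank ℂ W) : ℝ) : ℂ) = ((l * Module.finrank ℂ W : ℝ) : ℂ) := by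
      push_cast
      exact ht
    exact_mod_cast this
  have hF := h0 p (by omega) W hW ((fixW hW).map W.subtype) (Submodule.map_subtype_le _ _) (by
    intro f hf b
    obtain ⟨w, hw, rfl⟩ := (Submodule.mem_map).1 hf
    have := hw b
    exact congrArg Subtype.val this)
  rw [Submodule.finrank_map_subtype_eq] at hF
  set D : ℝ := (Module.finrank ℂ W : ℝ) with hD
  set F : ℝ := (Module.finrank ℂ (fixW hW) : ℝ) with hF'
  have hDpos : 0 < D := by rw [hD]; exact_mod_cast hpos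
  have hF0 : 0 ≤ F := by rw [hF']; exact Nat.cast_nonneg _
  have hN : (0 : ℝ) ≤ Fintype.card (SL 2 p) := Nat.cast_nonneg _
  have hpR : (5 : ℝ) ≤ p := by exact_mod_cast hp5
  have e1 : (p : ℝ) * F - D ≤ 4 * D := by nlinarith
  have e2 : -(4 * D) ≤ (p : ℝ) * F - D := by nlinarith
  have e3 : l * D ≤ (4 * Fintype.card (SL 2 p)) * D := by
    rw [← ht']
    nlinarith
  have e4 : -(4 * Fintype.card (SL 2 p)) * D ≤ l * D := by
    rw [← ht']
    nlinarith
  rw [abs_le]
  exact ⟨le_of_mul_le_mul_right e4 hDpos, le_of_mul_le_mul_right e3 hDpos⟩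

/-- the functions of sum zero -/
def H0 (p : ℕ) [Fact p.Prime] : Submodule ℂ (EuclideanSpace ℂ (SL 2 p)) where
  carrier := {f | ∑ x, f x = 0}
  add_mem' := by
    intro f g hf hg
    have hf' : ∑ x, f x = 0 := hf
    have hg' : ∑ x, g x = 0 := hg
    change ∑ x, (f x + g x) = 0
    rw [Finset.sum_add_distrib, hf', hg', add_zero]
  zero_mem' := by
    change ∑ x : SL 2 p, (0 : ℂ) = 0
    exact Finset.sum_const_zero
  smul_mem' := by
    intro c f hf
    have hf' : ∑ x, f x = 0 := hf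
    change ∑ x, c * f x = 0
    rw [← Finset.mul_sum, hf', mul_zero]

lemma mem_H0 {f : EuclideanSpace ℂ (SL 2 p)} : f ∈ H0 p ↔ ∑ x, f x = 0 := Iff.rfl

lemma RT_H0 (h : T_RTP) (g : SL 2 p) {f : EuclideanSpace ℂ (SL 2 p)} (hf : f ∈ H0 p) :
    RT g f ∈ H0 p := by
  rw [mem_H0] at hf ⊢
  rw [Finset.sum_congr rfl fun x _ => (h (SL 2 p)).1 g f x, ← hf]
  exact Equiv.sum_comp (Equiv.mulRight g) (fun x => f x)

lemma Cp_H0 (h : T_RTP) {f : EuclideanSpace ℂ (SL 2 p)} (hf : f ∈ H0 p) : Cp p f ∈ H0 p := by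
  rw [Cp_apply]
  exact Submodule.sum_mem _ fun b _ => Submodule.sum_mem _ fun k _ => RT_H0 h _ hf

lemma norm_bound (h0 : T_UPW) (h : T_RTP) (hp5 : 5 ≤ p) {v : EuclideanSpace ℂ (SL 2 p)}
    (hv : v ∈ H0 p) : ‖Cp p v‖ ≤ 4 * Fintype.card (SL 2 p) * ‖v‖ := by
  have hinv : ∀ w ∈ H0 p, Cp p w ∈ H0 p := fun w hw => Cp_H0 h hw
  have hTs := LinearMap.IsSymmetric.restrict_invariant (Cp_symm (p := p) h) hinv
  obtain ⟨T, hT⟩ : ∃ T : H0 p →ₗ[ℂ] H0 p, T = (Cp p).restrict hinv := ⟨_, rfl⟩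
  rw [← hT] at hTs
  have hTv : ∀ u : H0 p, ((T u : H0 p) : EuclideanSpace ℂ (SL 2 p)) = Cp p u := by
    intro u
    rw [hT]
    rfl
  set bs := hTs.eigenvectorBasis rfl with hbs
  have hN : (0 : ℝ) ≤ Fintype.card (SL 2 p) := Nat.cast_nonneg _
  have hl : ∀ i, |hTs.eigenvalues rfl i| ≤ 4 * Fintype.card (SL 2 p) := by
    intro i
    set l : ℝ := hTs.eigenvalues rfl i with hl
    have hbi : T (bs i) = (l : ℂ) • bs i := hTs.apply_eigenvectorBasis rfl i
    set W : Submodule ℂ (EuclideanSpace ℂ (SL 2 p)) :=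
      (Module.End.eigenspace T (l : ℂ)).map (H0 p).subtype with hWdef
    have hmem : ∀ w, w ∈ W ↔ w ∈ H0 p ∧ Cp p w = (l : ℂ) • w := by
      intro w
      constructor
      · intro hw
        obtain ⟨u, hu, rfl⟩ := (Submodule.mem_map).1 hw
        refine ⟨u.2, ?_⟩
        have h1 := Module.End.mem_eigenspace_iff.1 hu
        have h2 := congrArg Subtype.val h1
        rw [hTv] at h2
        exact h2
      · rintro ⟨h1, h2⟩
        refine (Submodule.mem_map).2 ⟨⟨w, h1⟩, ?_, rfl⟩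
        apply Module.End.mem_eigenspace_iff.2
        apply Subtype.ext
        rw [hTv]
        exact h2
    have hW : InvS W := by
      refine ⟨fun f hf => ((hmem f).1 hf).1, fun g f hf => ?_⟩
      obtain ⟨h1, h2⟩ := (hmem f).1 hf
      refine (hmem _).2 ⟨RT_H0 h g h1, ?_⟩
      rw [Cp_comm h, h2, map_smul]
    have hne : (bs i : H0 p) ≠ 0 := bs.orthonormal.ne_zero i
    have hbW : ((bs i : H0 p) : EuclideanSpace ℂ (SL 2 p)) ∈ W :=
      (hmem _).2 ⟨(bs i).2, by
        have h2 := congrArg Subtype.val hbi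
        rw [hTv] at h2
        exact h2⟩
    have hWne : W ≠ ⊥ := by
      intro hb
      rw [hb, Submodule.mem_bot] at hbW
      exact hne (Subtype.ext hbW)
    have hpos : 0 < Module.finrank ℂ W := by
      rw [Module.finrank_pos_iff, Submodule.nontrivial_iff_ne_bot]
      exact hWne
    exact eig_bound h0 h hp5 hW hpos l fun w hw => ((hmem w).1 hw).2
  set u : H0 p := ⟨v, hv⟩ with hu
  have e1 : ‖Cp p v‖ = ‖T u‖ := by
    have h1 : ‖T u‖ = ‖((T u : H0 p) : EuclideanSpace ℂ (SL 2 p))‖ := rfl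
    rw [h1, hTv]
  have e2 : ‖v‖ = ‖u‖ := rfl
  rw [e1, e2]
  refine le_of_sq_le_sq ?_ (by positivity)
  rw [mul_pow, ← bs.sum_sq_norm_inner_right (T u), ← bs.sum_sq_norm_inner_right u,
    Finset.mul_sum]
  refine Finset.sum_le_sum fun i _ => ?_
  have e3 : inner ℂ (bs i) (T u) = (hTs.eigenvalues rfl i : ℂ) * inner ℂ (bs i) u := by
    have hbi : T (bs i) = (hTs.eigenvalues rfl i : ℂ) • bs i := hTs.apply_eigenvectorBasis rfl i
    rw [← hTs (bs i) u, hbi]
    have e4 := inner_smul_left (𝕜 := ℂ) (bs i : H0 p) u (hTs.eigenvalues rfl i : ℂ)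
    rw [Complex.conj_ofReal] at e4
    exact e4
  rw [e3, norm_mul, mul_pow]
  refine mul_le_mul_of_nonneg_right ?_ (by positivity)
  rw [Complex.norm_real, Real.norm_eq_abs]
  exact pow_le_pow_left₀ (abs_nonneg _) (hl i) 2

/-- complexification -/
noncomputable def cf (f : SL 2 p → ℝ) : EuclideanSpace ℂ (SL 2 p) :=
  WithLp.toLp 2 (fun x => (f x : ℂ))

lemma cf_apply (f : SL 2 p → ℝ) (x : SL 2 p) : cf f x = (f x : ℂ) := rfl

lemma cf_norm (f : SL 2 p → ℝ) : ‖cf f‖ ^ 2 = ∑ x, f x ^ 2 := by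
  rw [EuclideanSpace.norm_sq_eq]
  refine Finset.sum_congr rfl fun x _ => ?_
  rw [cf_apply, Complex.norm_real, Real.norm_eq_abs, sq_abs]

lemma cf_H0 {f : SL 2 p → ℝ} (hf : ∑ x, f x = 0) : cf f ∈ H0 p := by
  rw [mem_H0]
  simp only [cf_apply]
  rw [← Complex.ofReal_sum, hf, Complex.ofReal_zero]

lemma inner_Cp (h : T_RTP) (f f' : SL 2 p → ℝ) :
    inner ℂ (cf f) (Cp p (cf f')) = ((∑ b ∈ univ.filter (fun b : ZMod p => b ≠ 0),
      ∑ k : SL 2 p, ∑ x, f x * f' (x * (k * um b * k⁻¹)) : ℝ) : ℂ) := by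
  rw [Cp_apply, inner_sum]
  push_cast
  refine Finset.sum_congr rfl fun b _ => ?_
  rw [inner_sum]
  refine Finset.sum_congr rfl fun k _ => ?_
  rw [PiLp.inner_apply]
  refine Finset.sum_congr rfl fun x _ => ?_
  rw [(h (SL 2 p)).1, cf_apply, cf_apply]
  simp [mul_comm]

lemma bil_bound (h0 : T_UPW) (h : T_RTP) (hp5 : 5 ≤ p) {f f' : SL 2 p → ℝ}
    (hf' : ∑ x, f' x = 0) (hN : ∑ x, f' x ^ 2 = ∑ x, f x ^ 2) :
    |∑ b ∈ univ.filter (fun b : ZMod p => b ≠ 0),
      ∑ k : SL 2 p, ∑ x, f x * f' (x * (k * um b * k⁻¹))| ≤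
      5 * Fintype.card (SL 2 p) * ∑ x, f x ^ 2 := by
  have h1 := norm_inner_le_norm (𝕜 := ℂ) (cf f) (Cp p (cf f'))
  rw [inner_Cp h, Complex.norm_real, Real.norm_eq_abs] at h1
  refine h1.trans ?_
  have h2 := norm_bound h0 h hp5 (cf_H0 hf')
  have h3 : ‖cf f'‖ = ‖cf f‖ := by
    have : ‖cf f'‖ ^ 2 = ‖cf f‖ ^ 2 := by rw [cf_norm, cf_norm, hN]
    exact (pow_left_inj₀ (norm_nonneg _) (norm_nonneg _) two_ne_zero).1 this
  rw [h3] at h2
  rw [← cf_norm]
  have h4 : (0 : ℝ) ≤ Fintype.card (SL 2 p) := Nat.cast_nonneg _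
  have h5 := norm_nonneg (cf f)
  have h6 : ‖cf f‖ * ‖Cp p (cf f')‖ ≤ ‖cf f‖ * (4 * Fintype.card (SL 2 p) * ‖cf f‖) :=
    mul_le_mul_of_nonneg_left h2 h5
  have h7 : 0 ≤ (Fintype.card (SL 2 p) : ℝ) * ‖cf f‖ ^ 2 := by positivity
  nlinarith

lemma vm_eq (b : ZMod p) : vm b = um (-b) * vm 0 := by
  apply Subtype.ext
  ext i j
  fin_cases i <;> fin_cases j <;> simp [um, vm, Matrix.mul_apply, Fin.sum_univ_two]

lemma vm_comm (k : SL 2 p) : vm 0 * k = k * vm 0 := by
  apply Subtype.ext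
  ext i j
  fin_cases i <;> fin_cases j <;> simp [vm, Matrix.mul_apply, Fin.sum_univ_two]

end

end UPB_

open UPB_ in
theorem prove_UPB (h0 : T_UPW) (h : T_RTP) : T_UPB := by
  intro p _ hp5 f hf
  constructor
  · exact bil_bound h0 h hp5 hf rfl
  · set f' : SL 2 p → ℝ := fun x => f (x * vm 0) with hf'def
    have hf' : ∑ x, f' x = 0 := by
      rw [← hf]
      exact Equiv.sum_comp (Equiv.mulRight (vm (0 : ZMod p))) (fun x => f x)
    have hN : ∑ x, f' x ^ 2 = ∑ x, f x ^ 2 :=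
      Equiv.sum_comp (Equiv.mulRight (vm (0 : ZMod p))) (fun x => f x ^ 2)
    have h1 := bil_bound h0 h hp5 (f := f) hf' hN
    rw [← UPB_.sum_neg] at h1
    have h2 : ∀ b : ZMod p, ∑ k : SL 2 p, ∑ x, f x * f' (x * (k * um (-b) * k⁻¹)) =
        Phi f (vm b) := by
      intro b
      unfold Phi
      refine Finset.sum_congr rfl fun k _ => Finset.sum_congr rfl fun x _ => ?_
      rw [hf'def]
      simp only
      congr 2
      rw [vm_eq b, mul_assoc x, mul_assoc (k * um (-b)), ← vm_comm]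
      simp only [mul_assoc]
    rw [Finset.sum_congr rfl fun b _ => h2 b] at h1
    exact h1

end Pool.Agent.RCG
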