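import Pool.Agent.RCG.Targets5

set_option autoImplicit false

/-!
# RCG: upper bound for the total variation distance (target `T_UPT`)
-/

namespace Pool.Agent.RCG

open Finset Matrix
open Pool.Agent.VAC (lazyP tvDist tmix)

namespace UPT_

variable {V : Type} [Fintype V] [DecidableEq V]

/-- rows of powers of a stochastic matrix -/
theorem pow_row {Q : Matrix V V ℝ} (h1 : ∀ x, ∑ y, Q x y = 1) (j : ℕ) (x : V) :
    ∑ y, (Q ^ j) x y = 1 := by
  induction j generalizing x with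
  | zero => simp [Matrix.one_apply]
  | succ j ih =>
    rw [pow_succ']
    simp only [Matrix.mul_apply]
    rw [Finset.sum_comm]
    simp_rw [← Finset.mul_sum, ih, mul_one]
    exact h1 x

theorem pow_nonneg' {Q : Matrix V V ℝ} (h0 : ∀ x y, 0 ≤ Q x y) (j : ℕ) (x y : V) :
    0 ≤ (Q ^ j) x y := by
  induction j generalizing x y with
  | zero =>
    rw [pow_zero, Matrix.one_apply]
    split_ifs <;> norm_num
  | succ j ih =>
    rw [pow_succ', Matrix.mul_apply]
    exact Finset.sum_nonneg fun z _ => mul_nonneg (h0 x z) (ih z y)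

/-- the sum is preserved -/
theorem sum_mulVec {Q : Matrix V V ℝ} (hs : Q.IsSymm) (h1 : ∀ x, ∑ y, Q x y = 1) (f : V → ℝ) :
    ∑ x, (Q *ᵥ f) x = ∑ x, f x := by
  simp only [Matrix.mulVec, dotProduct]
  rw [Finset.sum_comm]
  refine Finset.sum_congr rfl fun y _ => ?_
  rw [← Finset.sum_mul]
  have : ∑ x, Q x y = 1 := by
    rw [← h1 y]
    exact Finset.sum_congr rfl fun x _ => hs.apply y x
  rw [this, one_mul]

theorem sum_pow_mulVec {Q : Matrix V V ℝ} (hs : Q.IsSymm) (h1 : ∀ x, ∑ y, Q x y = 1)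
    (f : V → ℝ) (j : ℕ) : ∑ x, (Q ^ j *ᵥ f) x = ∑ x, f x := by
  induction j with
  | zero => simp
  | succ j ih =>
    rw [pow_succ', ← Matrix.mulVec_mulVec, sum_mulVec hs h1, ih]

/-- contraction for the powers -/
theorem contr {Q : Matrix V V ℝ} {r : ℝ} (hs : Q.IsSymm) (h1 : ∀ x, ∑ y, Q x y = 1)
    (hc : ∀ f : V → ℝ, ∑ x, f x = 0 → ∑ x, (Q *ᵥ f) x ^ 2 ≤ r ^ 2 * ∑ x, f x ^ 2)
    (f : V → ℝ) (hf : ∑ x, f x = 0) (j : ℕ) :
    ∑ x, (Q ^ j *ᵥ f) x ^ 2 ≤ (r ^ j) ^ 2 * ∑ x, f x ^ 2 := by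
  induction j with
  | zero => simp
  | succ j ih =>
    have e : Q ^ (j + 1) *ᵥ f = Q *ᵥ (Q ^ j *ᵥ f) := by
      rw [pow_succ', ← Matrix.mulVec_mulVec]
    rw [e]
    calc ∑ x, (Q *ᵥ (Q ^ j *ᵥ f)) x ^ 2 ≤ r ^ 2 * ∑ x, (Q ^ j *ᵥ f) x ^ 2 :=
          hc _ (by rw [sum_pow_mulVec hs h1, hf])
      _ ≤ r ^ 2 * ((r ^ j) ^ 2 * ∑ x, f x ^ 2) :=
          mul_le_mul_of_nonneg_left ih (sq_nonneg r)
      _ = _ := by ring

/-- distance of a row of `Q ^ j` to the uniform vector -/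
theorem row_dist [Nonempty V] {Q : Matrix V V ℝ} {r : ℝ} (hs : Q.IsSymm)
    (h1 : ∀ x, ∑ y, Q x y = 1) (hr : 0 ≤ r)
    (hc : ∀ f : V → ℝ, ∑ x, f x = 0 → ∑ x, (Q *ᵥ f) x ^ 2 ≤ r ^ 2 * ∑ x, f x ^ 2)
    (j : ℕ) (x : V) :
    ∑ y, |(Q ^ j) x y - 1 / (Fintype.card V : ℝ)| ≤ √(Fintype.card V : ℝ) * r ^ j := by
  set N : ℝ := (Fintype.card V : ℝ) with hN
  have hNpos : 0 < N := by
    rw [hN]
    exact_mod_cast Fintype.card_pos
  have hN1 : 1 ≤ N := by
    rw [hN]
    exact_mod_cast Fintype.card_pos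
  set f : V → ℝ := fun y => (if y = x then 1 else 0) - 1 / N with hf
  have hconst : ∑ _y : V, (1 / N : ℝ) = 1 := by
    rw [Finset.sum_const, Finset.card_univ, nsmul_eq_mul, ← hN]
    field_simp
  have hf0 : ∑ y, f y = 0 := by
    rw [hf, Finset.sum_sub_distrib, hconst]
    simp
  have hf2 : ∑ y, f y ^ 2 ≤ 1 := by
    have e : ∀ y, f y ^ 2 = (if y = x then 1 - 2 / N else 0) + (1 / N) * (1 / N) := by
      intro y
      simp only [hf]
      split_ifs
      · field_simp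
        ring
      · ring
    rw [Finset.sum_congr rfl fun y _ => e y, Finset.sum_add_distrib, ← Finset.mul_sum, hconst,
      Finset.sum_ite_eq' univ x, if_pos (Finset.mem_univ x)]
    have : 0 < 1 / N := by positivity
    have h2 : 2 / N = 2 * (1 / N) := by ring
    rw [h2]
    linarith
  have hval : ∀ y, (Q ^ j *ᵥ f) y = (Q ^ j) x y - 1 / N := by
    intro y
    simp only [Matrix.mulVec, dotProduct, hf, mul_sub]
    rw [Finset.sum_sub_distrib, ← Finset.sum_mul, pow_row h1]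
    have hsy : (Q ^ j) y x = (Q ^ j) x y := by
      have : (Q ^ j).IsSymm := hs.pow j
      exact this.apply x y
    simp [hsy]
  have hcs := sq_sum_le_card_mul_sum_sq (s := (univ : Finset V))
    (f := fun y => |(Q ^ j) x y - 1 / N|)
  have hsq : ∑ y, |(Q ^ j) x y - 1 / N| ^ 2 ≤ (r ^ j) ^ 2 := by
    have h3 := contr hs h1 hc f hf0 j
    have h4 : ∑ y, |(Q ^ j) x y - 1 / N| ^ 2 = ∑ y, (Q ^ j *ᵥ f) y ^ 2 := by
      refine Finset.sum_congr rfl fun y _ => ?_
      rw [sq_abs, hval]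
    rw [h4]
    refine h3.trans ?_
    calc (r ^ j) ^ 2 * ∑ x, f x ^ 2 ≤ (r ^ j) ^ 2 * 1 :=
          mul_le_mul_of_nonneg_left hf2 (sq_nonneg _)
      _ = _ := mul_one _
  rw [Finset.card_univ, ← hN] at hcs
  have h5 : (∑ y, |(Q ^ j) x y - 1 / N|) ^ 2 ≤ (√N * r ^ j) ^ 2 := by
    rw [mul_pow, Real.sq_sqrt hNpos.le]
    exact hcs.trans (mul_le_mul_of_nonneg_left hsq hNpos.le)
  exact (pow_le_pow_iff_left₀ (Finset.sum_nonneg fun y _ => abs_nonneg _) (by positivity)
    two_ne_zero).mp h5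

/-- the trivial bound -/
theorem row_triv [Nonempty V] {Q : Matrix V V ℝ} (h0 : ∀ x y, 0 ≤ Q x y)
    (h1 : ∀ x, ∑ y, Q x y = 1) (j : ℕ) (x : V) :
    ∑ y, |(Q ^ j) x y - 1 / (Fintype.card V : ℝ)| ≤ 2 := by
  have hN : (0 : ℝ) < Fintype.card V := by exact_mod_cast Fintype.card_pos
  calc ∑ y, |(Q ^ j) x y - 1 / (Fintype.card V : ℝ)|
      ≤ ∑ y, ((Q ^ j) x y + 1 / (Fintype.card V : ℝ)) := by
        refine Finset.sum_le_sum fun y _ => ?_
        refine (abs_sub _ _).trans ?_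
        rw [abs_of_nonneg (pow_nonneg' h0 j x y), abs_of_nonneg (by positivity)]
    _ = 2 := by
        rw [Finset.sum_add_distrib, pow_row h1, Finset.sum_const, Finset.card_univ,
          nsmul_eq_mul]
        field_simp
        norm_num

end UPT_

open UPT_ in
theorem prove_UPT : T_UPT := by
  intro V _ _ _ Q r J t hs h0 h1 hr hr1 hc x
  set N : ℝ := (Fintype.card V : ℝ) with hN
  have hNpos : 0 < N := by
    rw [hN]
    exact_mod_cast Fintype.card_pos
  set b : ℕ → ℝ := fun j => (t.choose j : ℝ) / 2 ^ t with hb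
  have hb0 : ∀ j, 0 ≤ b j := fun j => by
    simp only [hb]
    positivity
  have hbsum : ∑ j ∈ range (t + 1), b j = 1 := by
    simp only [hb]
    rw [← Finset.sum_div]
    have h := Nat.sum_range_choose t
    have h' : (∑ j ∈ range (t + 1), (t.choose j : ℝ)) = 2 ^ t := by exact_mod_cast h
    rw [h']
    exact div_self (by positivity)
  have hP : ∀ y, (((1 / 2 : ℝ) • (1 + Q)) ^ t) x y = ∑ j ∈ range (t + 1), b j * (Q ^ j) x y := by
    intro y
    rw [smul_pow, (Commute.one_left Q).add_pow]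
    simp only [one_pow, one_mul, Matrix.smul_apply, Matrix.sum_apply, smul_eq_mul]
    rw [← Finset.sum_range_reflect, Finset.mul_sum]
    refine Finset.sum_congr rfl fun j hj => ?_
    have hj' : j ≤ t := Nat.lt_succ_iff.mp (Finset.mem_range.mp hj)
    have e1 : t + 1 - 1 - j = t - j := by omega
    have e2 : t - (t - j) = j := by omega
    rw [e1, e2]
    have e3 : ((Q ^ j) * ((t.choose (t - j) : ℕ) : Matrix V V ℝ)) x y =
        (Q ^ j) x y * (t.choose j : ℝ) := by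
      rw [Nat.choose_symm hj', ← Nat.cast_comm, ← nsmul_eq_mul, Matrix.smul_apply, nsmul_eq_mul,
        mul_comm]
    rw [e3]
    simp only [hb, one_div, inv_pow]
    ring
  have hrow : ∀ y, |(((1 / 2 : ℝ) • (1 + Q)) ^ t) x y - 1 / N| ≤
      ∑ j ∈ range (t + 1), b j * |(Q ^ j) x y - 1 / N| := by
    intro y
    have e : (((1 / 2 : ℝ) • (1 + Q)) ^ t) x y - 1 / N =
        ∑ j ∈ range (t + 1), b j * ((Q ^ j) x y - 1 / N) := by
      simp only [mul_sub]
      rw [Finset.sum_sub_distrib, ← Finset.sum_mul, hbsum, one_mul, hP]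
    rw [e]
    refine (Finset.abs_sum_le_sum_abs _ _).trans (le_of_eq ?_)
    refine Finset.sum_congr rfl fun j _ => ?_
    rw [abs_mul, abs_of_nonneg (hb0 j)]
  have hsum : ∑ y, |(((1 / 2 : ℝ) • (1 + Q)) ^ t) x y - 1 / N| ≤
      ∑ j ∈ range (t + 1), b j * ∑ y, |(Q ^ j) x y - 1 / N| := by
    refine (Finset.sum_le_sum fun y _ => hrow y).trans (le_of_eq ?_)
    rw [Finset.sum_comm]
    refine Finset.sum_congr rfl fun j _ => ?_
    rw [Finset.mul_sum]
  have hterm : ∀ j ∈ range (t + 1), b j * ∑ y, |(Q ^ j) x y - 1 / N| ≤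
      (if j < J then b j * 2 else 0) + b j * (√N * r ^ J) := by
    intro j _
    have hpos : 0 ≤ b j * (√N * r ^ J) := by
      have := hb0 j
      positivity
    by_cases hj : j < J
    · rw [if_pos hj]
      have := mul_le_mul_of_nonneg_left (row_triv h0 h1 j x) (hb0 j)
      rw [← hN] at this
      linarith
    · rw [if_neg hj, zero_add]
      refine mul_le_mul_of_nonneg_left ?_ (hb0 j)
      have h3 := row_dist hs h1 hr hc j x
      rw [← hN] at h3
      refine h3.trans ?_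
      refine mul_le_mul_of_nonneg_left ?_ (Real.sqrt_nonneg _)
      exact pow_le_pow_of_le_one hr hr1 (not_lt.mp hj)
  unfold tvDist
  rw [← hN]
  have hfin := hsum.trans (Finset.sum_le_sum hterm)
  rw [Finset.sum_add_distrib, ← Finset.sum_mul, hbsum, one_mul, ← Finset.sum_filter,
    ← Finset.sum_mul] at hfin
  have hlow : ∑ j ∈ (range (t + 1)).filter (fun j => j < J), b j = binLow t J := by
    unfold binLow
    rw [Finset.sum_div]
  rw [hlow] at hfin
  linarith

end Pool.Agent.RCG
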