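import Pool.Agent.RCG.Targets8
import Pool.Agent.RCG.ZED

set_option autoImplicit false
set_option linter.unusedSectionVars false

/-!
# RCG: ZNM, second moment of the increments of the compressed quadratic process
-/

namespace Pool.Agent.RCG

open Finset Matrix

namespace ZNM_

variable {G : Type} [Group G] [Fintype G]

/-- weighted Cauchy-Schwarz inequality for vectors -/
lemma wcs {Ω : Type} [Fintype Ω] (e : Ω → ℝ) (a : Ω → G → ℝ) :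
    (∑ ω, e ω • a ω) ⬝ᵥ (∑ ω, e ω • a ω) ≤ (∑ ω, |e ω|) * ∑ ω, |e ω| * (a ω ⬝ᵥ a ω) := by
  simp only [ZED_.dot_self]
  have key : ∀ x, (∑ ω, e ω • a ω) x ^ 2 ≤ (∑ ω, |e ω|) * ∑ ω, |e ω| * a ω x ^ 2 := by
    intro x
    rw [Finset.sum_apply]
    simp only [Pi.smul_apply, smul_eq_mul]
    refine Finset.sum_sq_le_sum_mul_sum_of_sq_le_mul _ (fun ω _ => abs_nonneg _)
      (fun ω _ => by positivity) (fun ω _ => le_of_eq ?_)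
    rw [mul_pow, ← sq_abs (e ω)]
    ring
  refine (Finset.sum_le_sum fun x _ => key x).trans (le_of_eq ?_)
  rw [← Finset.mul_sum, Finset.sum_comm]
  congr 1
  refine Finset.sum_congr rfl fun ω _ => ?_
  rw [Finset.mul_sum]

/-- the squared norm of `Q u` -/
noncomputable def D (Q : Matrix G G ℝ) (u : G → ℝ) : ℝ := (Q *ᵥ u) ⬝ᵥ (Q *ᵥ u)

lemma D_add (Q : Matrix G G ℝ) (u v : G → ℝ) : D Q (u + v) ≤ 2 * D Q u + 2 * D Q v := by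
  unfold D
  rw [Matrix.mulVec_add]
  exact ZED_.add_dot_le _ _

lemma D_add4 (Q : Matrix G G ℝ) (a b c d : G → ℝ) :
    D Q ((a + b) + (c + d)) ≤ 4 * (D Q a + D Q b + D Q c + D Q d) := by
  have h1 := D_add Q (a + b) (c + d)
  have h2 := D_add Q a b
  have h3 := D_add Q c d
  linarith

lemma D_sum {Ω : Type} [Fintype Ω] (Q : Matrix G G ℝ) (e : Ω → ℝ) (a : Ω → G → ℝ) :
    D Q (∑ ω, e ω • a ω) ≤ (∑ ω, |e ω|) * ∑ ω, |e ω| * D Q (a ω) := by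
  unfold D
  rw [Matrix.mulVec_sum]
  simp only [Matrix.mulVec_smul]
  exact wcs e _

lemma D_smul (Q : Matrix G G ℝ) (c : ℝ) (u : G → ℝ) : D Q (c • u) = c ^ 2 * D Q u := by
  unfold D
  rw [Matrix.mulVec_smul, smul_dotProduct, dotProduct_smul, smul_eq_mul, smul_eq_mul]
  ring

lemma D_nonneg (Q : Matrix G G ℝ) (u : G → ℝ) : 0 ≤ D Q u := ZED_.dot_nonneg _

lemma Rm_one (w : G → ℝ) : Rm (1 : G) *ᵥ w = w := by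
  funext x
  rw [ZED_.Rm_mulVec, mul_one]

lemma RR (g h : G) (w : G → ℝ) : Rm g *ᵥ (Rm h *ᵥ w) = Rm (g * h) *ᵥ w := by
  rw [Matrix.mulVec_mulVec, ZED_.Rm_mul]

lemma X_vec (h : G) (w : G → ℝ) : ZED_.X h *ᵥ w = Rm h *ᵥ w + Rm h⁻¹ *ᵥ w := by
  unfold ZED_.X
  rw [Matrix.add_mulVec]

lemma XX_vec (h : G) (w : G → ℝ) : ZED_.X h *ᵥ (ZED_.X h *ᵥ w) =
    (Rm (h * 1 * h) *ᵥ w + Rm (h⁻¹ * 1 * h⁻¹) *ᵥ w) + (2 : ℝ) • w := by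
  simp only [X_vec, Matrix.mulVec_add, RR, mul_inv_cancel, inv_mul_cancel, Rm_one, mul_one]
  rw [two_smul]
  abel

lemma XRX_vec (h g : G) (w : G → ℝ) : ZED_.X h *ᵥ (Rm g *ᵥ (ZED_.X h *ᵥ w)) =
    (Rm (h * g * h) *ᵥ w + Rm (h * g * h⁻¹) *ᵥ w) +
      (Rm (h⁻¹ * g * h⁻¹) *ᵥ w + Rm (h⁻¹ * g * h⁻¹⁻¹) *ᵥ w) := by
  simp only [X_vec, Matrix.mulVec_add, RR, mul_assoc, inv_inv]
  abel

/-- expansion of `N` at a vector -/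
lemma N_vec {Ω : Type} [Fintype Ω] {N : Matrix G G ℝ} {n0 : ℝ} {e : Ω → ℝ} {γ : Ω → G}
    (hN : N = n0 • Rm 1 + ∑ ω, e ω • Rm (γ ω)) (w : G → ℝ) :
    N *ᵥ w = n0 • w + ∑ ω, e ω • (Rm (γ ω) *ᵥ w) := by
  rw [hN, Matrix.add_mulVec, Matrix.smul_mulVec, Rm_one, Matrix.sum_mulVec]
  simp only [Matrix.smul_mulVec]

lemma N_sum {Ω : Type} [Fintype Ω] {N : Matrix G G ℝ} {n0 : ℝ} {e : Ω → ℝ} {γ : Ω → G}
    (hN : N = n0 • Rm 1 + ∑ ω, e ω • Rm (γ ω)) (w : G → ℝ) (hw : ∑ x, w x = 0) :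
    ∑ x, (N *ᵥ w) x = 0 := by
  rw [N_vec hN]
  simp only [Pi.add_apply, Pi.smul_apply, Finset.sum_apply, smul_eq_mul,
    Finset.sum_add_distrib, ← Finset.mul_sum]
  rw [Finset.sum_comm, hw]
  simp only [← Finset.mul_sum, ZED_.Rm_sum, hw]
  simp

lemma comb (Q : Matrix G G ℝ) (a b c d w : G → ℝ) (t : ℝ) (h : Q *ᵥ w = w) :
    Q *ᵥ a + Q *ᵥ b + Q *ᵥ (c + t • w + d) - t • w = Q *ᵥ ((a + b) + (c + d)) := by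
  simp only [Matrix.mulVec_add, Matrix.mulVec_smul, h]
  abel

/-- the four parts of the increment -/
lemma Zn_vec {j : ℕ} {Ω : Type} [Fintype Ω] {Q N : Matrix G G ℝ} (hQ : Pj Q) {n0 : ℝ}
    {e : Ω → ℝ} {γ : Ω → G} (hN : N = n0 • Rm 1 + ∑ ω, e ω • Rm (γ ω)) (y : Fin j → G) (h : G)
    (v : G → ℝ) : Zn Q N n0 y h *ᵥ v =
      Q *ᵥ ((ZED_.X h *ᵥ (N *ᵥ (adM y *ᵥ (Q *ᵥ v))) +
        adM y *ᵥ (N *ᵥ (ZED_.X h *ᵥ (Q *ᵥ v)))) +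
        (n0 • (Rm (h * 1 * h) *ᵥ (Q *ᵥ v) + Rm (h⁻¹ * 1 * h⁻¹) *ᵥ (Q *ᵥ v)) +
          ∑ ω, e ω • (ZED_.X h *ᵥ (Rm (γ ω) *ᵥ (ZED_.X h *ᵥ (Q *ᵥ v)))))) := by
  have h1 : Zn Q N n0 y h *ᵥ v = Q *ᵥ (ZED_.X h *ᵥ (N *ᵥ (adM y *ᵥ (Q *ᵥ v)))) +
      Q *ᵥ (adM y *ᵥ (N *ᵥ (ZED_.X h *ᵥ (Q *ᵥ v)))) +
      Q *ᵥ (ZED_.X h *ᵥ (N *ᵥ (ZED_.X h *ᵥ (Q *ᵥ v)))) - (2 * n0) • (Q *ᵥ v) := by
    unfold Zn
    change (Q * (ZED_.X h * N * adM y + adM y * N * ZED_.X h) * Q +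
      Q * (ZED_.X h * N * ZED_.X h) * Q - (2 * n0) • Q) *ᵥ v = _
    rw [← Matrix.smul_mulVec]
    simp only [Matrix.mulVec_mulVec, ← Matrix.add_mulVec, ← Matrix.sub_mulVec]
    congr 1
    noncomm_ring
  have h2 : Q *ᵥ v = Q *ᵥ (Q *ᵥ v) := by
    rw [Matrix.mulVec_mulVec, hQ.2.1]
  rw [h1]
  generalize hw : Q *ᵥ v = w
  have h3 : w = Q *ᵥ w := by rw [← hw]; exact h2
  have h4 : ZED_.X h *ᵥ (N *ᵥ (ZED_.X h *ᵥ w)) =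
      n0 • (Rm (h * 1 * h) *ᵥ w + Rm (h⁻¹ * 1 * h⁻¹) *ᵥ w) + (2 * n0) • w +
        ∑ ω, e ω • (ZED_.X h *ᵥ (Rm (γ ω) *ᵥ (ZED_.X h *ᵥ w))) := by
    rw [N_vec hN, Matrix.mulVec_add, Matrix.mulVec_smul, XX_vec, Matrix.mulVec_sum, smul_add,
      smul_smul, mul_comm n0 2]
    simp only [Matrix.mulVec_smul]
  rw [h4]
  exact comb Q _ _ _ _ w _ h3.symm

/-- the coefficients of `A N` -/
def cf {j : ℕ} {Ω : Type} (n0 : ℝ) (e : Ω → ℝ) (t : (Fin j × Bool) × Option Ω) : ℝ :=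
  t.2.elim n0 e

/-- the group elements of `A N` -/
def ge {j : ℕ} {Ω : Type} (y : Fin j → G) (γ : Ω → G) (t : (Fin j × Bool) × Option Ω) : G :=
  (if t.1.2 then y t.1.1 else (y t.1.1)⁻¹) * t.2.elim 1 γ

/-- expansion of `A N` at a vector -/
lemma AN_vec {j : ℕ} {Ω : Type} [Fintype Ω] {N : Matrix G G ℝ} {n0 : ℝ} {e : Ω → ℝ} {γ : Ω → G}
    (hN : N = n0 • Rm 1 + ∑ ω, e ω • Rm (γ ω)) (y : Fin j → G) (w : G → ℝ) :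
    adM y *ᵥ (N *ᵥ w) = ∑ t : (Fin j × Bool) × Option Ω,
      cf n0 e t • (Rm (ge y γ t) *ᵥ w) := by
  unfold cf ge
  rw [Fintype.sum_prod_type, Fintype.sum_prod_type]
  rw [ZED_.adM_eq, Matrix.sum_mulVec]
  refine Finset.sum_congr rfl fun i _ => ?_
  rw [Fintype.sum_bool, X_vec, N_vec hN, Fintype.sum_option, Fintype.sum_option]
  simp only [Matrix.mulVec_add, Matrix.mulVec_smul, Matrix.mulVec_sum, RR, if_true,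
    Bool.false_eq_true, if_false, Option.elim_none, Option.elim_some, mul_one]

lemma Zn_sym {j : ℕ} {Q N : Matrix G G ℝ} (hQ : Pj Q) (hN : N.IsHermitian) (n0 : ℝ)
    (y : Fin j → G) (h : G) : (Zn Q N n0 y h)ᵀ = Zn Q N n0 y h := by
  unfold Zn
  change (Q * (ZED_.X h * N * adM y + adM y * N * ZED_.X h) * Q +
      Q * (ZED_.X h * N * ZED_.X h) * Q - (2 * n0) • Q)ᵀ =
    Q * (ZED_.X h * N * adM y + adM y * N * ZED_.X h) * Q +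
      Q * (ZED_.X h * N * ZED_.X h) * Q - (2 * n0) • Q
  simp only [Matrix.transpose_mul, Matrix.transpose_add, Matrix.transpose_sub,
    Matrix.transpose_smul, ZED_.herm hQ.1, ZED_.herm hN, ZED_.adM_sym, ZED_.X_transpose]
  congr 1
  noncomm_ring

/-- summation of the weighted bounds -/
lemma sumD_le {Ω : Type} [Fintype Ω] (Q : Matrix G G ℝ) (e : Ω → ℝ) (a : G → Ω → G → ℝ)
    (S L : ℝ) (hS0 : 0 ≤ S) (hS : ∀ ω, ∑ h, D Q (a h ω) ≤ S) (hL : ∑ ω, |e ω| ≤ L) :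
    ∑ h, D Q (∑ ω, e ω • a h ω) ≤ L ^ 2 * S := by
  have h0 : 0 ≤ ∑ ω, |e ω| := Finset.sum_nonneg fun ω _ => abs_nonneg _
  calc ∑ h, D Q (∑ ω, e ω • a h ω)
      ≤ ∑ h, (∑ ω, |e ω|) * ∑ ω, |e ω| * D Q (a h ω) :=
        Finset.sum_le_sum fun h _ => D_sum Q e _
    _ = (∑ ω, |e ω|) * ∑ ω, |e ω| * ∑ h, D Q (a h ω) := by
        rw [← Finset.mul_sum, Finset.sum_comm]
        congr 1
        exact Finset.sum_congr rfl fun ω _ => by rw [Finset.mul_sum]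
    _ ≤ (∑ ω, |e ω|) * ∑ ω, |e ω| * S :=
        mul_le_mul_of_nonneg_left (Finset.sum_le_sum fun ω _ =>
          mul_le_mul_of_nonneg_left (hS ω) (abs_nonneg _)) h0
    _ = (∑ ω, |e ω|) ^ 2 * S := by
        rw [← Finset.sum_mul]
        ring
    _ ≤ L ^ 2 * S := mul_le_mul_of_nonneg_right (pow_le_pow_left₀ h0 hL 2) hS0

lemma sum_coef {j : ℕ} {Ω : Type} [Fintype Ω] (n0 : ℝ) (e : Ω → ℝ) :
    ∑ t : (Fin j × Bool) × Option Ω, |cf n0 e t| =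
      2 * (j : ℝ) * (|n0| + ∑ ω, |e ω|) := by
  unfold cf
  rw [Fintype.sum_prod_type]
  simp only [Fintype.sum_option, Option.elim_none, Option.elim_some, Finset.sum_const,
    Finset.card_univ, Fintype.card_prod, Fintype.card_fin, Fintype.card_bool, nsmul_eq_mul]
  push_cast
  ring

/-- the second moment, for a general group -/
theorem core {j : ℕ} {Ω : Type} [Fintype Ω] {Q N : Matrix G G ℝ} (hQ : Pj Q)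
    (hNh : N.IsHermitian) {n0 ν s r C M B L : ℝ} {e : Ω → ℝ} {γ : Ω → G}
    (hN : N = n0 • Rm 1 + ∑ ω, e ω • Rm (γ ω)) (he : ∑ ω, |e ω| ≤ C) (y : Fin j → G) (v : G → ℝ)
    (hν : 0 ≤ ν) (hNB : NB Q ν) (hM : 0 ≤ M) (hB : 0 ≤ B) (hMB : M * B ≤ L)
    (hjL : 2 * (j : ℝ) * (|n0| + C) ≤ L) (hn0 : |n0| ≤ L) (hCL : C ≤ L) (hs : 0 ≤ s) (hr : 0 ≤ r)
    (hA : (adM y *ᵥ (Q *ᵥ v)) ⬝ᵥ (adM y *ᵥ (Q *ᵥ v)) ≤ B ^ 2 * ((Q *ᵥ v) ⬝ᵥ (Q *ᵥ v)))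
    (hNM : ∀ f : G → ℝ, ∑ x, f x = 0 → (N *ᵥ f) ⬝ᵥ (N *ᵥ f) ≤ M ^ 2 * (f ⬝ᵥ f))
    (q1 : ∀ x : G, 0 ≤ qR Q x (Q *ᵥ v) ∧ D Q (Rm x *ᵥ (Q *ᵥ v)) = qR Q x (Q *ᵥ v))
    (q2 : ∀ g : G, ∑ h : G, qR Q (g * h) (Q *ᵥ v) ≤ ν * Fintype.card G * (v ⬝ᵥ v) ∧
      ∑ h : G, qR Q (g * h⁻¹) (Q *ᵥ v) ≤ ν * Fintype.card G * (v ⬝ᵥ v))
    (sq1 : ∀ g : G, ∑ h : G, qR Q (h * g * h) (Q *ᵥ v) ≤ s * Fintype.card G * (v ⬝ᵥ v))
    (sq3 : ∀ ω, ∑ h : G, qR Q (h * γ ω * h⁻¹) (Q *ᵥ v) ≤ r * Fintype.card G * (v ⬝ᵥ v)) :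
    ∑ h, v ⬝ᵥ (Zn Q N n0 y h * Zn Q N n0 y h) *ᵥ v ≤
      4 * (L ^ 2 * (4 * ν * Fintype.card G * (v ⬝ᵥ v)) +
        L ^ 2 * (4 * ν * Fintype.card G * (v ⬝ᵥ v)) +
        L ^ 2 * (4 * s * Fintype.card G * (v ⬝ᵥ v)) +
        L ^ 2 * (8 * (s + r) * Fintype.card G * (v ⬝ᵥ v))) := by
  have hK : (0 : ℝ) ≤ Fintype.card G := by positivity
  have hV := ZED_.dot_nonneg v
  have hws : ∑ x, (Q *ᵥ v) x = 0 := ZED_.Q_sum hQ v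
  have hwV : (Q *ᵥ v) ⬝ᵥ (Q *ᵥ v) ≤ v ⬝ᵥ v := ZED_.Q_le hQ v
  have hZv : ∀ h : G, Zn Q N n0 y h *ᵥ v =
      Q *ᵥ ((ZED_.X h *ᵥ (N *ᵥ (adM y *ᵥ (Q *ᵥ v))) +
        adM y *ᵥ (N *ᵥ (ZED_.X h *ᵥ (Q *ᵥ v)))) +
        (n0 • (Rm (h * 1 * h) *ᵥ (Q *ᵥ v) + Rm (h⁻¹ * 1 * h⁻¹) *ᵥ (Q *ᵥ v)) +
          ∑ ω, e ω • (ZED_.X h *ᵥ (Rm (γ ω) *ᵥ (ZED_.X h *ᵥ (Q *ᵥ v)))))) :=
    fun h => Zn_vec hQ hN y h v
  generalize hw : Q *ᵥ v = w at *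
  have hw0 := ZED_.dot_nonneg w
  generalize hKdef : (Fintype.card G : ℝ) = K at *
  generalize hVdef : v ⬝ᵥ v = V at *
  have sq2 : ∀ g : G, ∑ h : G, qR Q (h⁻¹ * g * h⁻¹) w ≤ s * K * V := by
    intro g
    refine le_trans (le_of_eq ?_) (sq1 g)
    exact Equiv.sum_comp (Equiv.inv G) (fun h => qR Q (h * g * h) w)
  have sq4 : ∀ ω, ∑ h : G, qR Q (h⁻¹ * γ ω * h⁻¹⁻¹) w ≤ r * K * V := by
    intro ω
    refine le_trans (le_of_eq ?_) (sq3 ω)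
    exact Equiv.sum_comp (Equiv.inv G) (fun h => qR Q (h * γ ω * h⁻¹) w)
  -- part 1
  have t1 : ∑ h : G, D Q (ZED_.X h *ᵥ (N *ᵥ (adM y *ᵥ w))) ≤ L ^ 2 * (4 * ν * K * V) := by
    have a1 : ∑ x, (adM y *ᵥ w) x = 0 := ZED_.A_sum y w hws
    have a2 := ZED_.sum_QX hQ hNB (N *ᵥ (adM y *ᵥ w)) (N_sum hN _ a1)
    rw [hKdef] at a2
    have a4 := hNM _ a1
    have a5 : (N *ᵥ (adM y *ᵥ w)) ⬝ᵥ (N *ᵥ (adM y *ᵥ w)) ≤ L ^ 2 * V := by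
      calc _ ≤ M ^ 2 * ((adM y *ᵥ w) ⬝ᵥ (adM y *ᵥ w)) := a4
        _ ≤ M ^ 2 * (B ^ 2 * (w ⬝ᵥ w)) := mul_le_mul_of_nonneg_left hA (sq_nonneg _)
        _ = (M * B) ^ 2 * (w ⬝ᵥ w) := by ring
        _ ≤ L ^ 2 * V := mul_le_mul (pow_le_pow_left₀ (mul_nonneg hM hB) hMB 2) hwV hw0
            (sq_nonneg _)
    refine a2.trans ?_
    have a6 := mul_le_mul_of_nonneg_left a5 (show 0 ≤ 4 * (ν * K) by positivity)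
    linarith
  -- part 2
  have t2 : ∑ h : G, D Q (adM y *ᵥ (N *ᵥ (ZED_.X h *ᵥ w))) ≤
      L ^ 2 * (4 * ν * K * V) := by
    have b0 : ∀ h : G, adM y *ᵥ (N *ᵥ (ZED_.X h *ᵥ w)) = ∑ t : (Fin j × Bool) × Option Ω,
        cf n0 e t • (Rm (ge y γ t) *ᵥ (ZED_.X h *ᵥ w)) := fun h => AN_vec hN y _
    rw [Finset.sum_congr rfl fun h _ => congrArg (D Q) (b0 h)]
    refine sumD_le Q (cf (j := j) n0 e) (fun h t => Rm (ge y γ t) *ᵥ (ZED_.X h *ᵥ w))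
      (4 * ν * K * V) L (by positivity) ?_ ?_
    · intro t
      generalize ge y γ t = g
      have b1 : ∀ h : G, D Q (Rm g *ᵥ (ZED_.X h *ᵥ w)) ≤
          2 * qR Q (g * h) w + 2 * qR Q (g * h⁻¹) w := by
        intro h
        rw [X_vec, Matrix.mulVec_add, RR, RR, ← (q1 _).2, ← (q1 _).2]
        exact D_add Q _ _
      refine (Finset.sum_le_sum fun h _ => b1 h).trans ?_
      rw [Finset.sum_add_distrib, ← Finset.mul_sum, ← Finset.mul_sum]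
      have b2 := (q2 g).1
      have b3 := (q2 g).2
      linarith
    · rw [sum_coef]
      refine le_trans ?_ hjL
      have : |n0| + ∑ ω, |e ω| ≤ |n0| + C := by linarith
      exact mul_le_mul_of_nonneg_left this (by positivity)
  -- part 3
  have t3 : ∑ h : G, D Q (n0 • (Rm (h * 1 * h) *ᵥ w + Rm (h⁻¹ * 1 * h⁻¹) *ᵥ w)) ≤
      L ^ 2 * (4 * s * K * V) := by
    have c1 : ∀ h : G, D Q (n0 • (Rm (h * 1 * h) *ᵥ w + Rm (h⁻¹ * 1 * h⁻¹) *ᵥ w)) ≤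
        n0 ^ 2 * (2 * qR Q (h * 1 * h) w + 2 * qR Q (h⁻¹ * 1 * h⁻¹) w) := by
      intro h
      rw [D_smul, ← (q1 _).2, ← (q1 _).2]
      exact mul_le_mul_of_nonneg_left (D_add Q _ _) (sq_nonneg _)
    refine (Finset.sum_le_sum fun h _ => c1 h).trans ?_
    rw [← Finset.mul_sum, Finset.sum_add_distrib, ← Finset.mul_sum, ← Finset.mul_sum]
    have c2 : n0 ^ 2 ≤ L ^ 2 := by
      rw [← sq_abs]
      exact pow_le_pow_left₀ (abs_nonneg _) hn0 2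
    have c3 := sq1 1
    have c4 := sq2 1
    have c5 : 0 ≤ ∑ h : G, qR Q (h * 1 * h) w :=
      Finset.sum_nonneg fun h _ => (q1 _).1
    have c6 : 0 ≤ ∑ h : G, qR Q (h⁻¹ * 1 * h⁻¹) w :=
      Finset.sum_nonneg fun h _ => (q1 _).1
    exact mul_le_mul c2 (by linarith) (by linarith) (sq_nonneg _)
  -- part 4
  have t4 : ∑ h : G, D Q (∑ ω, e ω • (ZED_.X h *ᵥ (Rm (γ ω) *ᵥ (ZED_.X h *ᵥ w)))) ≤
      L ^ 2 * (8 * (s + r) * K * V) := by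
    refine sumD_le Q e (fun h ω => ZED_.X h *ᵥ (Rm (γ ω) *ᵥ (ZED_.X h *ᵥ w))) _ L
      (by positivity) ?_ (he.trans hCL)
    intro ω
    have d1 : ∀ h : G, D Q (ZED_.X h *ᵥ (Rm (γ ω) *ᵥ (ZED_.X h *ᵥ w))) ≤
        4 * (qR Q (h * γ ω * h) w + qR Q (h * γ ω * h⁻¹) w + qR Q (h⁻¹ * γ ω * h⁻¹) w +
          qR Q (h⁻¹ * γ ω * h⁻¹⁻¹) w) := by
      intro h
      rw [XRX_vec, ← (q1 _).2, ← (q1 _).2, ← (q1 _).2, ← (q1 _).2]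
      exact D_add4 Q _ _ _ _
    refine (Finset.sum_le_sum fun h _ => d1 h).trans ?_
    rw [← Finset.mul_sum, Finset.sum_add_distrib, Finset.sum_add_distrib,
      Finset.sum_add_distrib]
    have d2 := sq1 (γ ω)
    have d3 := sq2 (γ ω)
    have d4 := sq3 ω
    have d5 := sq4 ω
    linarith
  -- total
  have f1 : ∀ h : G, v ⬝ᵥ (Zn Q N n0 y h * Zn Q N n0 y h) *ᵥ v ≤
      4 * (D Q (ZED_.X h *ᵥ (N *ᵥ (adM y *ᵥ w))) +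
        D Q (adM y *ᵥ (N *ᵥ (ZED_.X h *ᵥ w))) +
        D Q (n0 • (Rm (h * 1 * h) *ᵥ w + Rm (h⁻¹ * 1 * h⁻¹) *ᵥ w)) +
        D Q (∑ ω, e ω • (ZED_.X h *ᵥ (Rm (γ ω) *ᵥ (ZED_.X h *ᵥ w))))) := by
    intro h
    rw [← Matrix.mulVec_mulVec, ZED_.dmul, Zn_sym hQ hNh, hZv]
    exact D_add4 Q _ _ _ _
  refine (Finset.sum_le_sum fun h _ => f1 h).trans ?_
  rw [← Finset.mul_sum, Finset.sum_add_distrib, Finset.sum_add_distrib,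
    Finset.sum_add_distrib]
  linarith

/-- the numerical end -/
theorem num (ν L K V P : ℝ) (hν : 0 ≤ ν) (hK : 0 ≤ K) (hV : 0 ≤ V) :
    4 * (L ^ 2 * (4 * ν * K * V) + L ^ 2 * (4 * ν * K * V) +
        L ^ 2 * (4 * (2 * ν + 3 / P) * K * V) +
        L ^ 2 * (8 * (2 * ν + 3 / P + √(18 * ν)) * K * V)) ≤
      K * (144 * L ^ 2 * (ν + √ν + 1 / P)) * V := by
  have hsq : √(18 * ν) ≤ 9 / 2 * √ν := by
    rw [Real.sqrt_mul (by norm_num)]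
    have : √18 ≤ 9 / 2 := Real.sqrt_le_iff.2 ⟨by norm_num, by norm_num⟩
    exact mul_le_mul_of_nonneg_right this (Real.sqrt_nonneg _)
  have hfin := mul_le_mul_of_nonneg_left hsq (show 0 ≤ 32 * (L ^ 2 * (K * V)) by positivity)
  have hfin2 : 0 ≤ 16 * (L ^ 2 * (K * V)) * ν := by positivity
  have e1 : K * (144 * L ^ 2 * (ν + √ν + 1 / P)) * V =
      (L ^ 2 * (K * V)) * (144 * ν) + (L ^ 2 * (K * V)) * (144 * √ν) +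
        (L ^ 2 * (K * V)) * (144 * (1 / P)) := by ring
  have e2 : 4 * (L ^ 2 * (4 * ν * K * V) + L ^ 2 * (4 * ν * K * V) +
        L ^ 2 * (4 * (2 * ν + 3 / P) * K * V) +
        L ^ 2 * (8 * (2 * ν + 3 / P + √(18 * ν)) * K * V)) =
      (L ^ 2 * (K * V)) * (128 * ν) + 32 * (L ^ 2 * (K * V)) * √(18 * ν) +
        (L ^ 2 * (K * V)) * (144 * (1 / P)) := by ring
  rw [e1, e2]
  linarith

end ZNM_

open ZNM_ in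
theorem prove_ZNM (h1 : T_ADM) (h2 : T_POL) (h3 : T_NRM) (h4 : T_QRB) (h5 : T_SQR)
    (h6 : T_RCN) : T_ZNM := by
  intro p _ hp Q N ν n0 C M B L j y hQ hLI hν hNB hNh hCE hM hform hB hQB hMB hjL hn0 hCL v
  obtain ⟨Ω, iΩ, e, γ, hN, hγ, he⟩ := hCE
  have hK : (0 : ℝ) ≤ Fintype.card (SL 2 p) := by positivity
  have hp0 : (0 : ℝ) < p := by
    have : 0 < p := by omega
    exact_mod_cast this
  have hV := ZED_.dot_nonneg v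
  have hws : ∑ x, (Q *ᵥ v) x = 0 := ZED_.Q_sum hQ v
  have hwV : (Q *ᵥ v) ⬝ᵥ (Q *ᵥ v) ≤ v ⬝ᵥ v := ZED_.Q_le hQ v
  obtain ⟨q1, q2⟩ := h4 (SL 2 p) Q ν hQ hν hNB (Q *ᵥ v)
  have hν2 : 0 ≤ 2 * ν + 3 / (p : ℝ) := by positivity
  have hs0 : 0 ≤ √(18 * ν) := Real.sqrt_nonneg _
  have hA : (adM y *ᵥ (Q *ᵥ v)) ⬝ᵥ (adM y *ᵥ (Q *ᵥ v)) ≤
      B ^ 2 * ((Q *ᵥ v) ⬝ᵥ (Q *ᵥ v)) := by
    rw [(h1 (SL 2 p) j).1 y (Q *ᵥ v), ZED_.dot_self, ZED_.dot_self]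
    exact h2 (SL 2 p) j y B hB hQB _ hws
  have hNM : ∀ f : SL 2 p → ℝ, ∑ x, f x = 0 → (N *ᵥ f) ⬝ᵥ (N *ᵥ f) ≤ M ^ 2 * (f ⬝ᵥ f) :=
    h3 (SL 2 p) N M hNh (fun f hf => N_sum hN f hf) hM hform
  have sq1 : ∀ g : SL 2 p, ∑ h : SL 2 p, qR Q (h * g * h) (Q *ᵥ v) ≤
      (2 * ν + 3 / p) * Fintype.card (SL 2 p) * (v ⬝ᵥ v) := fun g =>
    (h5 p hp Q ν hQ hν hNB g (Q *ᵥ v)).trans
      (mul_le_mul_of_nonneg_left hwV (mul_nonneg hν2 hK))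
  have sq3 : ∀ ω, ∑ h : SL 2 p, qR Q (h * γ ω * h⁻¹) (Q *ᵥ v) ≤
      √(18 * ν) * Fintype.card (SL 2 p) * (v ⬝ᵥ v) := fun ω =>
    (h6 p hp Q ν hQ hLI hν hNB (γ ω) (hγ ω).1 (hγ ω).2 (Q *ᵥ v)).trans
      (mul_le_mul_of_nonneg_left hwV (mul_nonneg hs0 hK))
  have hq2 : ∀ g : SL 2 p, ∑ h : SL 2 p, qR Q (g * h) (Q *ᵥ v) ≤
      ν * Fintype.card (SL 2 p) * (v ⬝ᵥ v) ∧
      ∑ h : SL 2 p, qR Q (g * h⁻¹) (Q *ᵥ v) ≤ ν * Fintype.card (SL 2 p) * (v ⬝ᵥ v) := fun g =>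
    ⟨(q2 g).1.trans (mul_le_mul_of_nonneg_left hwV (mul_nonneg hν hK)),
      (q2 g).2.trans (mul_le_mul_of_nonneg_left hwV (mul_nonneg hν hK))⟩
  have hmain := core (G := SL 2 p) hQ hNh hN he y v hν hNB hM hB hMB hjL hn0 hCL hν2 hs0 hA hNM
    (fun x => ⟨(q1 x).1, (q1 x).2.2⟩) hq2 sq1 sq3
  exact hmain.trans (num ν L _ _ p hν hK hV)

end Pool.Agent.RCG
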